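import Pool.Agent.Lib.MP_2fa2a2_gt.PI.Int

/-! Algebra of the operators `X, L, D`; the Hessian `H`; invariant forms. -/

namespace Pool.Agent.Lib.MP_2fa2a2_gt.PI

open scoped ContDiff

/-- structure constants: a vector operator satisfies `[L c, V a] = ∑ d, ev c a d • V d` -/
def ev (c a d : Fin 3) : ℝ :=
  if a = c + 1 ∧ d = c + 2 then -1 else if a = c + 2 ∧ d = c + 1 then 1 else 0

/-- Kronecker symbol as a function on the sphere -/
noncomputable def kd (a b : Fin 3) : Sm := if a = b then 1 else 0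

theorem alg_fin (a : Fin 3) : a = 0 ∨ a = 1 ∨ a = 2 := by decide +revert
theorem alg_01 : L 0 (X 1) = -X 2 := L_X_add_one 0
theorem alg_02 : L 0 (X 2) = X 1 := L_X_add_two 0
theorem alg_12 : L 1 (X 2) = -X 0 := L_X_add_one 1
theorem alg_10 : L 1 (X 0) = X 2 := L_X_add_two 1
theorem alg_20 : L 2 (X 0) = -X 1 := L_X_add_one 2
theorem alg_21 : L 2 (X 1) = X 0 := L_X_add_two 2
theorem alg_c10 (φ : Sm) : L 1 (L 0 φ) = L 0 (L 1 φ) + L 2 φ := by
  have h : L 0 (L 1 φ) - L 1 (L 0 φ) = -L 2 φ := L_comm 0 φ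
  linear_combination -h
theorem alg_c21 (φ : Sm) : L 2 (L 1 φ) = L 1 (L 2 φ) + L 0 φ := by
  have h : L 1 (L 2 φ) - L 2 (L 1 φ) = -L 0 φ := L_comm 1 φ
  linear_combination -h
theorem alg_c20 (φ : Sm) : L 2 (L 0 φ) = L 0 (L 2 φ) - L 1 φ := by
  have h : L 2 (L 0 φ) - L 0 (L 2 φ) = -L 1 φ := L_comm 2 φ
  linear_combination h
theorem alg_D0 (φ : Sm) : D 0 φ = X 2 * L 1 φ - X 1 * L 2 φ := D_def 0 φ
theorem alg_D1 (φ : Sm) : D 1 φ = X 0 * L 2 φ - X 2 * L 0 φ := D_def 1 φ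
theorem alg_D2 (φ : Sm) : D 2 φ = X 1 * L 0 φ - X 0 * L 1 φ := D_def 2 φ
theorem alg_s : X 0 * X 0 + X 1 * X 1 + X 2 * X 2 = 1 := by
  rw [← sum_X_sq, Fin.sum_univ_three]
theorem alg_r (φ : Sm) : X 0 * L 0 φ + X 1 * L 1 φ + X 2 * L 2 φ = 0 := by
  rw [← sum_X_L φ, Fin.sum_univ_three]
theorem alg_r0 (φ : Sm) : X 0 * L 0 (L 0 φ) + X 1 * (L 0 (L 1 φ) + L 2 φ)
    + X 2 * (L 0 (L 2 φ) - L 1 φ) = 0 := by
  rw [← alg_c10, ← alg_c20]; exact alg_r _
theorem alg_r1 (φ : Sm) : X 0 * L 0 (L 1 φ) + X 1 * L 1 (L 1 φ)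
    + X 2 * (L 1 (L 2 φ) + L 0 φ) = 0 := by
  rw [← alg_c21]; exact alg_r _
theorem alg_r2 (φ : Sm) : X 0 * L 0 (L 2 φ) + X 1 * L 1 (L 2 φ) + X 2 * L 2 (L 2 φ) = 0 :=
  alg_r _
theorem alg_lap (φ : Sm) : lap φ = L 0 (L 0 φ) + L 1 (L 1 φ) + L 2 (L 2 φ) := by
  rw [lap_def, Fin.sum_univ_three]
theorem alg_gd (f g : Sm) : gd f g = L 0 f * L 0 g + L 1 f * L 1 g + L 2 f * L 2 g := by
  rw [gd, Fin.sum_univ_three]
theorem alg_kd (a : Fin 3) : kd a a = 1 := if_pos rfl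
theorem alg_kd_ne {a b : Fin 3} (h : a ≠ b) : kd a b = 0 := if_neg h
theorem alg_L_two (a : Fin 3) (φ : Sm) : L a (2 * φ) = 2 * L a φ := by
  rw [two_mul, map_add, two_mul]
theorem alg_I_two (φ : Sm) : I (2 * φ) = 2 * I φ := by
  rw [two_mul, map_add, two_mul]

theorem L_X (c a : Fin 3) : L c (X a) = ∑ d, ev c a d • X d := by
  rcases alg_fin c with rfl | rfl | rfl <;> rcases alg_fin a with rfl | rfl | rfl <;>
    simp [ev, alg_01, alg_02, alg_12, alg_10, alg_20, alg_21]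
theorem L_L (c a : Fin 3) (φ : Sm) : L c (L a φ) = L a (L c φ) + ∑ d, ev c a d • L d φ := by
  rcases alg_fin c with rfl | rfl | rfl <;> rcases alg_fin a with rfl | rfl | rfl <;>
    simp [ev, alg_c10, alg_c21, alg_c20, sub_eq_add_neg]
theorem L_D (c a : Fin 3) (φ : Sm) : L c (D a φ) = D a (L c φ) + ∑ d, ev c a d • D d φ := by
  rcases alg_fin c with rfl | rfl | rfl <;> rcases alg_fin a with rfl | rfl | rfl <;>
    simp [ev] <;>
    simp only [alg_D0, alg_D1, alg_D2, map_sub, L_mul, L_X_self, alg_01, alg_02, alg_12, alg_10, alg_20, alg_21,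
      alg_c10, alg_c21, alg_c20] <;> ring
theorem D_mul (a : Fin 3) (φ ψ : Sm) : D a (φ * ψ) = D a φ * ψ + φ * D a ψ := by
  simp only [D_def, L_mul]; ring
@[simp] theorem D_one (a : Fin 3) : D a 1 = 0 := by
  simp [D_def]
@[simp] theorem D_algebraMap (a : Fin 3) (c : ℝ) : D a (algebraMap ℝ Sm c) = 0 := by
  simp [D_def]
theorem D_X (a b : Fin 3) : D a (X b) = kd a b - X a * X b := by
  have s := alg_s
  rcases alg_fin a with rfl | rfl | rfl <;> rcases alg_fin b with rfl | rfl | rfl <;>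
    simp [kd] <;>
    simp only [alg_D0, alg_D1, alg_D2, L_X_self, alg_01, alg_02, alg_12, alg_10, alg_20, alg_21] <;>
    first | ring1 | linear_combination s
theorem D_cp (a : Fin 3) {g : ℝ → ℝ} {φ : Sm} (hg : ∀ x, ContDiffAt ℝ ∞ g (φ x)) :
    D a (cp g φ) = cp (deriv g) φ * D a φ := by
  simp only [D_def, L_cp _ hg]; ring
theorem sum_X_D (φ : Sm) : ∑ a, X a * D a φ = 0 := by
  rw [Fin.sum_univ_three, alg_D0, alg_D1, alg_D2]; ring
theorem L_eq_D (a : Fin 3) (φ : Sm) :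
    L a φ = X (a + 1) * D (a + 2) φ - X (a + 2) * D (a + 1) φ := by
  have s := alg_s
  have r := alg_r φ
  rcases alg_fin a with rfl | rfl | rfl
  · change L 0 φ = X 1 * D 2 φ - X 2 * D 1 φ
    rw [alg_D2, alg_D1]; linear_combination X 0 * r - L 0 φ * s
  · change L 1 φ = X 2 * D 0 φ - X 0 * D 2 φ
    rw [alg_D2, alg_D0]; linear_combination X 1 * r - L 1 φ * s
  · change L 2 φ = X 0 * D 1 φ - X 1 * D 0 φ
    rw [alg_D1, alg_D0]; linear_combination X 2 * r - L 2 φ * s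
theorem L_eq_sum_D (c : Fin 3) (φ : Sm) : L c φ = ∑ a, L c (X a) * D a φ := by
  rw [L_eq_D c φ, Fin.sum_univ_three]
  rcases alg_fin c with rfl | rfl | rfl
  · change X 1 * D 2 φ - X 2 * D 1 φ = _
    rw [L_X_self, alg_01, alg_02]; ring
  · change X 2 * D 0 φ - X 0 * D 2 φ = _
    rw [L_X_self, alg_10, alg_12]; ring
  · change X 0 * D 1 φ - X 1 * D 0 φ = _
    rw [L_X_self, alg_20, alg_21]; ring
theorem D_D (a b : Fin 3) (φ : Sm) :
    D a (D b φ) - D b (D a φ) = X a * D b φ - X b * D a φ := by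
  have r := alg_r φ
  rcases alg_fin a with rfl | rfl | rfl <;> rcases alg_fin b with rfl | rfl | rfl <;>
    simp only [alg_D0, alg_D1, alg_D2, map_sub, L_mul, L_X_self, alg_01, alg_02, alg_12, alg_10, alg_20, alg_21,
      alg_c10, alg_c21, alg_c20]
  · ring
  · linear_combination X 2 * r
  · linear_combination -X 1 * r
  · linear_combination -X 2 * r
  · ring
  · linear_combination X 0 * r
  · linear_combination X 1 * r
  · linear_combination -X 0 * r
  · ring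
theorem gd_eq_D (f g : Sm) : gd f g = ∑ a, D a f * D a g := by
  have s := alg_s
  have r := alg_r f
  rw [alg_gd, Fin.sum_univ_three]
  simp only [alg_D0, alg_D1, alg_D2]
  linear_combination (X 0 * L 0 g + X 1 * L 1 g + X 2 * L 2 g) * r
    - (L 0 f * L 0 g + L 1 f * L 1 g + L 2 f * L 2 g) * s
theorem gd_comm (f g : Sm) : gd f g = gd g f := by
  rw [alg_gd, alg_gd]; ring
theorem gd_X (a : Fin 3) (φ : Sm) : gd (X a) φ = D a φ := by
  rw [alg_gd]
  rcases alg_fin a with rfl | rfl | rfl <;>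
    simp only [alg_D0, alg_D1, alg_D2, L_X_self, alg_01, alg_02, alg_12, alg_10, alg_20, alg_21] <;> ring
theorem gd_mul (f g k : Sm) : gd f (g * k) = gd f g * k + g * gd f k := by
  simp only [alg_gd, L_mul]; ring
theorem L_gd (c : Fin 3) (f g : Sm) : L c (gd f g) = gd (L c f) g + gd f (L c g) := by
  rcases alg_fin c with rfl | rfl | rfl <;>
    simp only [alg_gd, map_add, L_mul, alg_c10, alg_c21, alg_c20] <;> ring
theorem lap_eq_D (φ : Sm) : lap φ = ∑ a, D a (D a φ) := by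
  rw [alg_lap, Fin.sum_univ_three]
  simp only [alg_D0, alg_D1, alg_D2, map_sub, L_mul, L_X_self, alg_01, alg_02, alg_12, alg_10, alg_20, alg_21,
    alg_c10, alg_c21, alg_c20]
  linear_combination (-L 1 (L 1 φ) - L 2 (L 2 φ) - L 0 (L 0 φ)) * alg_s + X 2 * alg_r2 φ
    + X 1 * alg_r1 φ + X 0 * alg_r0 φ
theorem lap_L (a : Fin 3) (φ : Sm) : lap (L a φ) = L a (lap φ) := by
  rcases alg_fin a with rfl | rfl | rfl <;>
    simp only [alg_lap, map_add, map_sub, alg_c10, alg_c21, alg_c20] <;> ring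
theorem lap_mul (φ ψ : Sm) : lap (φ * ψ) = lap φ * ψ + 2 * gd φ ψ + φ * lap ψ := by
  simp only [alg_lap, alg_gd, map_add, L_mul]; ring
theorem lap_X (a : Fin 3) : lap (X a) = -2 * X a := by
  rcases alg_fin a with rfl | rfl | rfl <;>
    simp only [alg_lap, map_neg, map_zero, L_X_self, alg_01, alg_02, alg_12, alg_10, alg_20,
      alg_21] <;> ring
theorem lap_X_mul (a : Fin 3) (φ : Sm) :
    lap (X a * φ) = X a * lap φ + 2 * (D a φ - X a * φ) := by
  rw [lap_mul, lap_X, gd_X]; ring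
theorem alg_T (a : Fin 3) (φ : Sm) :
    D (a + 2) (L (a + 1) φ) - D (a + 1) (L (a + 2) φ) = D a φ - X a * lap φ := by
  have r0 := alg_r0 φ
  have r1 := alg_r1 φ
  have r2 := alg_r2 φ
  rcases alg_fin a with rfl | rfl | rfl
  · change D 2 (L 1 φ) - D 1 (L 2 φ) = _
    simp only [alg_lap, alg_D0, alg_D1, alg_D2]
    linear_combination r0
  · change D 0 (L 2 φ) - D 2 (L 0 φ) = _
    simp only [alg_lap, alg_D0, alg_D1, alg_D2, alg_c10]
    linear_combination r1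
  · change D 1 (L 0 φ) - D 0 (L 1 φ) = _
    simp only [alg_lap, alg_D0, alg_D1, alg_D2, alg_c21, alg_c20]
    linear_combination r2
theorem lap_D_sub (a : Fin 3) (φ : Sm) :
    lap (D a φ - X a * φ) = D a (lap φ) - X a * lap φ - 2 * (X a * lap φ)
      - 2 * (D a φ - X a * φ) := by
  have k := alg_T a φ
  rw [map_sub, lap_X_mul, D_def a φ, map_sub, lap_X_mul, lap_X_mul, lap_L, lap_L, D_def a (lap φ)]
  rw [D_def a φ] at k
  linear_combination 2 * k
theorem I_D (a : Fin 3) (φ : Sm) : I (D a φ) = 2 * I (X a * φ) := by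
  have h1 := I_L (a + 1) (X (a + 2) * φ)
  have h2 := I_L (a + 2) (X (a + 1) * φ)
  have e1 : L (a + 1) (X (a + 2)) = -X a := by
    rcases alg_fin a with rfl | rfl | rfl
    exacts [alg_12, alg_20, alg_01]
  have e2 : L (a + 2) (X (a + 1)) = X a := by
    rcases alg_fin a with rfl | rfl | rfl
    exacts [alg_21, alg_02, alg_10]
  rw [L_mul, e1, neg_mul, map_add, map_neg] at h1
  rw [L_mul, e2, map_add] at h2
  rw [D_def, map_sub]
  linarith
theorem I_lap (φ : Sm) : I (lap φ) = 0 := by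
  rw [alg_lap, map_add, map_add, I_L, I_L, I_L]; ring
theorem I_gd (f g : Sm) : I (gd f g) = -I (f * lap g) := by
  have h0 := I_L 0 (f * L 0 g)
  have h1 := I_L 1 (f * L 1 g)
  have h2 := I_L 2 (f * L 2 g)
  rw [L_mul, map_add] at h0 h1 h2
  rw [alg_gd, alg_lap, mul_add, mul_add, map_add, map_add, map_add, map_add]
  linarith
theorem inner_lap (f g : Sm) : inner ℝ (lap f) g = inner ℝ f (lap g) := by
  have h1 := I_gd f g
  have h2 := I_gd g f
  rw [gd_comm] at h2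
  rw [inner_def, inner_def, mul_comm (lap f)]
  linarith
theorem abs_D_le (a : Fin 3) (φ : Sm) (x : S2) : D a φ x ^ 2 ≤ gd φ φ x := by
  rw [gd_eq_D, Sm.sum_apply, sq]
  exact Finset.single_le_sum (f := fun b => (D b φ * D b φ) x)
    (fun b _ => mul_self_nonneg (D b φ x)) (Finset.mem_univ a)
theorem abs_L_le (a : Fin 3) (φ : Sm) (x : S2) : L a φ x ^ 2 ≤ gd φ φ x := by
  rw [gd, Sm.sum_apply, sq]
  exact Finset.single_le_sum (f := fun b => (L b φ * L b φ) x)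
    (fun b _ => mul_self_nonneg (L b φ x)) (Finset.mem_univ a)

/-- the function `1 - z ^ 2` -/
noncomputable def qq : Sm := 1 - X 2 * X 2

theorem qq_eq : qq = X 0 * X 0 + X 1 * X 1 := by
  unfold qq; linear_combination -alg_s
theorem D2_L2 (φ : Sm) : D 2 (L 2 φ) = L 2 (D 2 φ) := by
  simp only [alg_D2, map_sub, L_mul, alg_20, alg_21, alg_c21, alg_c20]
  ring
theorem qq_lap (φ : Sm) : qq * lap φ = D 2 (D 2 φ) + L 2 (L 2 φ) := by
  rw [qq_eq, alg_lap]
  simp only [alg_D2, map_sub, L_mul, L_X_self, alg_01, alg_10, alg_c10]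
  linear_combination L 2 (L 2 φ) * alg_s + X 1 * alg_r1 φ + X 0 * alg_r0 φ - X 2 * alg_r2 φ
theorem qq_gd (f g : Sm) : qq * gd f g = D 2 f * D 2 g + L 2 f * L 2 g := by
  rw [qq_eq, alg_gd, alg_D2, alg_D2]
  linear_combination L 2 f * L 2 g * alg_s + (X 0 * L 0 g + X 1 * L 1 g) * alg_r f
    - X 2 * L 2 f * alg_r g
/-- every tangential derivative in the frame `D 2, L 2` -/
theorem qq_D (a : Fin 3) (φ : Sm) :
    qq * D a φ = D a (X 2) * D 2 φ + L 2 (X a) * L 2 φ := by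
  rw [qq_eq]
  rcases alg_fin a with rfl | rfl | rfl <;>
    simp only [alg_D0, alg_D1, alg_D2, L_X_self, alg_02, alg_12, alg_20, alg_21]
  · linear_combination (-X 1 * L 2 φ) * alg_s + X 1 * X 2 * alg_r φ
  · linear_combination X 0 * L 2 φ * alg_s - X 0 * X 2 * alg_r φ
  · ring
theorem qq_L (a : Fin 3) (φ : Sm) :
    qq * L a φ = L a (X 2) * D 2 φ + D 2 (X 2) * kd a 2 * L 2 φ
      - X 2 * X a * (1 - kd a 2) * L 2 φ := by
  rw [qq_eq]
  rcases alg_fin a with rfl | rfl | rfl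
  · rw [alg_kd_ne (by decide), alg_02, alg_D2 φ]; linear_combination X 0 * alg_r φ
  · rw [alg_kd_ne (by decide), alg_12, alg_D2 φ]; linear_combination X 1 * alg_r φ
  · rw [alg_kd, L_X_self, alg_D2 (X 2), alg_02, alg_12]; ring
theorem L_Zf (a : Fin 3) {g : ℝ → ℝ} (hg : ContDiff ℝ ∞ g) :
    L a (Zf g) = Zf (deriv g) * L a (X 2) := by
  exact L_cp a fun _ => hg.contDiffAt
theorem D_Zf (a : Fin 3) {g : ℝ → ℝ} (hg : ContDiff ℝ ∞ g) :
    D a (Zf g) = Zf (deriv g) * D a (X 2) := by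
  exact D_cp a fun _ => hg.contDiffAt
theorem L2_Zf {g : ℝ → ℝ} (hg : ContDiff ℝ ∞ g) : L 2 (Zf g) = 0 := by
  rw [L_Zf 2 hg, L_X_self, mul_zero]
theorem D2_Zf {g : ℝ → ℝ} (hg : ContDiff ℝ ∞ g) : D 2 (Zf g) = qq * Zf (deriv g) := by
  rw [D_Zf 2 hg, D_X, alg_kd, qq, mul_comm]

end Pool.Agent.Lib.MP_2fa2a2_gt.PI
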