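import Pool.Agent.Lib.MP_2fa2a2_gt.PI.BilX

/-! The local and the nonlocal part of the quadratic model on waves. -/

namespace Pool.Agent.Lib.MP_2fa2a2_gt.PI

open Real Filter Set
open scoped ContDiff

/-- families with mean zero -/
def bilM (z1 z2 α : ℝ) (Φ : ℕ → Pf) : Prop := PF z1 z2 α Φ ∧ ∀ m, Mz (Φ m)

section
variable {z1 z2 α β : ℝ} {Φ Ψ : ℕ → Pf}
theorem bil_per (h : PF z1 z2 α Φ) (m : ℕ) : Per (Φ m) := (h.1 m).1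
theorem bil_eq (h : PF z1 z2 α Φ) (e : β ≤ α) : PF z1 z2 β Φ := h.mono le_rfl le_rfl e
theorem bilM.add (h : bilM z1 z2 α Φ) (h' : bilM z1 z2 α Ψ) :
    bilM z1 z2 α fun m => Φ m + Ψ m := ⟨h.1.add h'.1, fun m z => by
  rw [mean_add (bil_per h.1 m) (bil_per h'.1 m), h.2 m z, h'.2 m z, add_zero]⟩
theorem bilM.sl {φ : ℝ → ℝ} (h : bilM z1 z2 α Φ) (hφ : ∀ z ∈ Icc z1 z2, ContDiffAt ℝ ∞ φ z) :
    bilM z1 z2 α fun m => sl φ * Φ m := ⟨h.1.sl_mul hφ, fun m z => by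
  rw [mean_sl_mul, h.2 m z, mul_zero]⟩
theorem bilM.az {a : ℕ → Sm} (h : bilM z1 z2 α Φ) (ha : SO β a) (h1 : -1 < z1) (h2 : z2 < 1) :
    bilM z1 z2 (β + α) fun m => PI.sl (az (a m)) * Φ m := ⟨h.1.az_mul ha h1 h2, fun m z => by
  rw [mean_sl_mul, h.2 m z, mul_zero]⟩
theorem bilM.mono {z1' z2' : ℝ} (h : bilM z1 z2 α Φ) (h1 : z1' ≤ z1) (h2 : z2 ≤ z2') (e : β ≤ α) :
    bilM z1' z2' β Φ := ⟨h.1.mono h1 h2 e, h.2⟩
theorem bilM.JG (h : bilM z1 z2 α Φ) : bilM z1 z2 (α + 1 / 2) fun m => JG m (Φ m) :=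
  ⟨h.1.JG h.2, fun m => (h.2 m).JG m (bil_per h.1 m)⟩
theorem bilM_osc (h : PF z1 z2 α Φ) : bilM z1 z2 α fun m => osc (Φ m) :=
  ⟨h.osc, fun m => Mz_osc (bil_per h m)⟩
theorem bilM_ds (h : PF z1 z2 α Φ) : bilM z1 z2 α fun m => ds (Φ m) :=
  ⟨h.ds, fun m => Mz_ds (bil_per h m)⟩

variable {g : ℝ → ℝ}
theorem bil_ev (h : PF z1 z2 α Φ) (hg : ContDiff ℝ ∞ g) (h1 : 0 < z1) (h2 : z2 < 1) (m : ℕ)
    (x : S2) : Wv g m (Φ m) x = Φ m ((x : E3) 2, m * (lon x + g ((x : E3) 2))) :=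
  Wv_apply m (h.adm hg (by linarith) h2 m) x

theorem bil_north (h : PF z1 z2 α Φ) (hg : ContDiff ℝ ∞ g) (h1 : 0 < z1) (h2 : z2 < 1) (m : ℕ) :
    bilN (Wv g m (Φ m)) := fun x hx => by
  rw [bil_ev h hg h1 h2]
  exact (h.1 m).2 _ _ fun hz => by linarith [hz.1]

theorem bil_Zf {φ : ℕ → ℝ → ℝ} (h : PF z1 z2 α fun m => sl (φ m)) (m : ℕ) (x : S2) :
    Zf (φ m) x = φ m ((x : E3) 2) :=
  Zf_apply ((bil_per h m).1.comp (contDiff_id.prodMk (contDiff_const (c := (0 : ℝ))))) x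

theorem bil_qi (h1 : 0 < z1) (h2 : z2 < 1) :
    ∀ z ∈ Icc z1 z2, ContDiffAt ℝ ∞ (fun z : ℝ => (1 - z ^ 2)⁻¹) z := fun z hz =>
  ContDiffAt.inv (by fun_prop) (by nlinarith [hz.1, hz.2])

theorem bil_g' (hg : ContDiff ℝ ∞ g) (z : ℝ) : ContDiffAt ℝ ∞ (deriv g) z :=
  (contDiff_infty_iff_deriv.1 hg).2.contDiffAt

/-- component of the gradient along the height -/
noncomputable def bga (g : ℝ → ℝ) (m : ℕ) (Φ : Pf) : Pf :=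
  (m : ℝ)⁻¹ • dz Φ + sl (deriv g) * ds Φ
/-- component of the gradient along the longitude -/
noncomputable def bgb (Φ : Pf) : Pf := sl (fun z => (1 - z ^ 2)⁻¹) * ds Φ

theorem bga_PF (h : PF z1 z2 α Φ) (hg : ContDiff ℝ ∞ g) : PF z1 z2 α fun m => bga g m (Φ m) :=
  (bil_eq h.dz.inv (by linarith)).add (h.ds.sl_mul fun z _ => bil_g' hg z)
theorem bgb_PF (h : PF z1 z2 α Φ) (h1 : 0 < z1) (h2 : z2 < 1) :
    PF z1 z2 α fun m => bgb (Φ m) := h.ds.sl_mul (bil_qi h1 h2)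

theorem bil_qq (x : S2) : qq x = 1 - (x : E3) 2 ^ 2 := by
  simp [qq, sq]

theorem bilG_Wv (h : PF z1 z2 α Φ) (hg : ContDiff ℝ ∞ g) (h1 : 0 < z1) (h2 : z2 < 1) {m : ℕ}
    (hm : (m : ℝ) ≠ 0) :
    bilG ((m : ℝ)⁻¹ • Wv g m (Φ m)) (Wv g m (bga g m (Φ m))) (Wv g m (bgb (Φ m))) := by
  have ad := h.adm hg (by linarith) h2 m
  refine bilG_of ?_ ?_
  · rw [map_smul, D2_Wv m ad]
    ext x
    simp only [Sm.smul_apply, Sm.mul_apply, Sm.add_apply, bil_ev (bga_PF h hg) hg h1 h2,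
      bil_ev h.dz hg h1 h2, bil_ev (h.ds.sl_mul fun z _ => bil_g' hg z) hg h1 h2]
    simp only [bga, Pi.add_apply, Pi.smul_apply, smul_eq_mul]
    field_simp
  · rw [map_smul, L2_Wv m ad, smul_smul, inv_mul_cancel₀ hm, one_smul]
    ext x
    simp only [Sm.mul_apply, bil_ev (bgb_PF h h1 h2) hg h1 h2, bil_ev h.ds hg h1 h2, bil_qq]
    simp only [bgb, Pi.mul_apply, sl]
    by_cases hz : (x : E3) 2 ∈ Icc z1 z2
    · have : 1 - (x : E3) 2 ^ 2 ≠ 0 := by nlinarith [hz.1, hz.2]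
      field_simp
    · rw [(h.1 m).2.ds _ _ hz, mul_zero, mul_zero]
end

/-- the terms that are linear in the waves -/
noncomputable def bilL (c c' : Cf) (m : ℕ) : Pf :=
  sl (az (c.a m)) * ds (c'.o m) + sl (az (c'.a m)) * ds (c.o m)
noncomputable def bilO0 (g : ℝ → ℝ) (c c' : Cf) (r : ℕ → Pf) (m : ℕ) : Pf :=
  sl (deriv g) * bilL c c' m
    + sl (fun z => deriv g z ^ 2 - ((1 - z ^ 2) ^ 2)⁻¹) * osc (c.pp c' m) + osc (r m)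
noncomputable def bilO1 (c c' : Cf) (m : ℕ) : Pf := sl (fun z => (1 - z ^ 2)⁻¹) * osc (c.pp c' m)
noncomputable def bilO2 (g : ℝ → ℝ) (c c' : Cf) (r : ℕ → Pf) (m : ℕ) : Pf :=
  sl (fun z => (1 - z ^ 2)⁻¹) * bilL c c' m
    + sl (fun z => 2 * deriv g z * (1 - z ^ 2)⁻¹) * osc (c.pp c' m) + osc (r m)

section
variable {z1 z2 α α' : ℝ} {c c' : Cf} {g : ℝ → ℝ} {r : ℕ → Pf}

theorem bil_pp (h : c.Ok z1 z2 α) (h' : c'.Ok z1 z2 α') : PF z1 z2 (α + α') (c.pp c') :=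
  (h.o_ord.ds.mul h'.o_ord.ds).add (h.e_ord.ds.mul h'.e_ord.ds)

theorem bilL_M (h : c.Ok z1 z2 α) (h' : c'.Ok z1 z2 α') (h1 : 0 < z1) (h2 : z2 < 1) :
    bilM z1 z2 (α + α') (bilL c c') :=
  ((bilM_ds h'.o_ord).az h.a_ord (by linarith) h2).add
    (((bilM_ds h.o_ord).az h'.a_ord (by linarith) h2).mono le_rfl le_rfl (by linarith))

theorem bil_s0 (hg : ContDiff ℝ ∞ g) (h1 : 0 < z1) (h2 : z2 < 1) : ∀ z ∈ Icc z1 z2,
    ContDiffAt ℝ ∞ (fun z => deriv g z ^ 2 - ((1 - z ^ 2) ^ 2)⁻¹) z := fun z hz => by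
  simp only [← inv_pow]
  exact ((bil_g' hg z).pow 2).sub ((bil_qi h1 h2 z hz).pow 2)

theorem bil_s2' (hg : ContDiff ℝ ∞ g) (h1 : 0 < z1) (h2 : z2 < 1) : ∀ z ∈ Icc z1 z2,
    ContDiffAt ℝ ∞ (fun z => 2 * deriv g z * (1 - z ^ 2)⁻¹) z := fun z hz =>
  (contDiffAt_const.mul (bil_g' hg z)).mul (bil_qi h1 h2 z hz)

theorem bilO_M (h : c.Ok z1 z2 α) (h' : c'.Ok z1 z2 α') (hg : ContDiff ℝ ∞ g) (h1 : 0 < z1)
    (h2 : z2 < 1) (hr : PF z1 z2 (α + α' + 1) r) : bilM z1 z2 (α + α') (bilO0 g c c' r) ∧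
    bilM z1 z2 (α + α') (bilO1 c c') ∧ bilM z1 z2 (α + α') (bilO2 g c c' r) :=
  ⟨(((bilL_M h h' h1 h2).sl fun z _ => bil_g' hg z).add ((bilM_osc (bil_pp h h')).sl
      (bil_s0 hg h1 h2))).add (bilM_osc (bil_eq hr (by linarith))),
    (bilM_osc (bil_pp h h')).sl (bil_qi h1 h2),
    (((bilL_M h h' h1 h2).sl (bil_qi h1 h2)).add ((bilM_osc (bil_pp h h')).sl
      (bil_s2' hg h1 h2))).add (bilM_osc (bil_eq hr (by linarith)))⟩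

theorem bil_evE_add (φ ψ : Sm) : evE (φ + ψ) = evE φ + evE ψ := by
  simp only [evE, map_add]; ring
theorem bil_odE_add (φ ψ : Sm) : odE (φ + ψ) = odE φ + odE ψ := by
  simp only [odE, map_add]; ring

/-- exact expansion of the local part -/
theorem bil_loc {w : WG} (h : c.Ok z1 z2 α) (h' : c'.Ok z1 z2 α') (hg : ContDiff ℝ ∞ w.g)
    (h1 : 0 < z1) (h2 : z2 < 1) : ∃ r0 r2 : ℕ → Pf, PF z1 z2 (α + α' + 1) r0 ∧
    PF z1 z2 (α + α' + 1) r2 ∧ ∀ m : ℕ, (m : ℝ) ≠ 0 → Bq (c.f w m) (c'.f w m)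
      = Ylead w c c' m + X 2 * X 2 * R (evE (Zf (mean (r0 m))))
        + 2 * (X 2 * X 2 * R (Wv w.g m (bilO0 w.g c c' r0 m)) + R (Wv w.g m (bilO1 c c' m))
          - X 2 * R1 (Wv w.g m (bilO2 w.g c c' r2 m)))
        - 8 * gd (R ((m : ℝ)⁻¹ • Wv w.g m (c.e m))) (R ((m : ℝ)⁻¹ • Wv w.g m (c'.e m))) := by
  have h0 : -1 < z1 := by linarith
  have hg' : ∀ z ∈ Icc z1 z2, ContDiffAt ℝ ∞ (deriv w.g) z := fun z _ => bil_g' hg z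
  have ao := bga_PF h.o_ord hg
  have ao' := bga_PF h'.o_ord hg
  have ae := bga_PF h.e_ord hg
  have ae' := bga_PF h'.e_ord hg
  have bo := bgb_PF h.o_ord h1 h2
  have bo' := bgb_PF h'.o_ord h1 h2
  have be := bgb_PF h.e_ord h1 h2
  have be' := bgb_PF h'.e_ord h1 h2
  obtain ⟨ρ0, r0, d0⟩ : ∃ ρ, PF z1 z2 (α + α' + 1) ρ ∧ ∀ (m : ℕ) p, ρ m p = ((m : ℝ)⁻¹ •
      (sl (az (c.a m)) * dz (c'.o m) + sl (az (c'.a m)) * dz (c.o m) +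
        (dz (c.o m) * bga w.g m (c'.o m) + sl (deriv w.g) * ds (c.o m) * dz (c'.o m) +
        (dz (c.e m) * bga w.g m (c'.e m) + sl (deriv w.g) * ds (c.e m) * dz (c'.e m))))) p :=
    ⟨_, (((h'.o_ord.dz.az_mul h.a_ord h0 h2).add (bil_eq (h.o_ord.dz.az_mul h'.a_ord h0 h2)
      (add_comm α α').le)).add (((h.o_ord.dz.mul ao').add
      ((h.o_ord.ds.sl_mul hg').mul h'.o_ord.dz)).add ((h.e_ord.dz.mul ae').add
      ((h.e_ord.ds.sl_mul hg').mul h'.e_ord.dz)))).inv, fun m p => rfl⟩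
  obtain ⟨ρ2, r2, d2⟩ : ∃ ρ, PF z1 z2 (α + α' + 1) ρ ∧ ∀ (m : ℕ) p, ρ m p = ((m : ℝ)⁻¹ •
      (dz (c.o m) * bgb (c'.o m) + bgb (c.o m) * dz (c'.o m)
        + (dz (c.e m) * bgb (c'.e m) + bgb (c.e m) * dz (c'.e m)))) p :=
    ⟨_, (((h.o_ord.dz.mul bo').add (bo.mul h'.o_ord.dz)).add
      ((h.e_ord.dz.mul be').add (be.mul h'.e_ord.dz))).inv, fun m p => rfl⟩
  refine ⟨_, _, r0, r2, fun m hm => ?_⟩
  have pp := bil_pp h h'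
  have M0 : PF z1 z2 (α + α') fun m => sl fun z =>
      (deriv w.g z ^ 2 - ((1 - z ^ 2) ^ 2)⁻¹) * mean (c.pp c' m) z :=
    pp.mean.sl_mul (bil_s0 hg h1 h2)
  have M1 : PF z1 z2 (α + α') fun m => sl fun z => (1 - z ^ 2)⁻¹ * mean (c.pp c' m) z :=
    pp.mean.sl_mul (bil_qi h1 h2)
  have M2 : PF z1 z2 (α + α') fun m => sl fun z =>
      2 * deriv w.g z * (1 - z ^ 2)⁻¹ * mean (c.pp c' m) z := pp.mean.sl_mul (bil_s2' hg h1 h2)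
  have e1 : ∀ (t : ℝ) (φ : Sm), t • odE φ = odE (t • φ) := fun t φ => by
    simp only [odE, map_smul, smul_sub]
  have e2 : ∀ (t : ℝ) (φ : Sm), t • evE φ = evE (t • φ) := fun t φ => by
    simp only [evE, map_smul, smul_add]
  rw [Cf.f, Cf.f, e1, e1, e2, e2, bil_Bq (h.a_zon m) (h'.a_zon m) (h.a_even m) (h'.a_even m)
    (bilG_Wv h.o_ord hg h1 h2 hm) (bilG_Wv h'.o_ord hg h1 h2 hm) (bilG_Wv h.e_ord hg h1 h2 hm)
    (bilG_Wv h'.e_ord hg h1 h2 hm) (bil_north ao hg h1 h2 m) (bil_north ao' hg h1 h2 m)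
    (bil_north bo hg h1 h2 m) (bil_north bo' hg h1 h2 m) (bil_north ae hg h1 h2 m)
    (bil_north ae' hg h1 h2 m) (bil_north be hg h1 h2 m) (bil_north be' hg h1 h2 m)]
  have key : ∀ {Y0 Y1 Y2 Z0 Zr Z1 Z2 Z3 O0 O1 O2 : Sm} (aa G : Sm), Y0 = Z0 + Zr + O0 →
      Y1 = Z1 + O1 → Y2 = Z2 + Z3 + O2 → Zon Z2 → Zon Z3 →
      X 2 * X 2 * R (aa + evE Y0) + R (evE Y1) - X 2 * R1 (odE Y2) - G
        = X 2 * X 2 * R (aa + evE Z0) + R (evE Z1) + X 2 * X 2 * R (evE Zr)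
          + 2 * (X 2 * X 2 * R O0 + R O1 - X 2 * R1 O2) - G := by
    rintro _ _ _ Z0 Zr Z1 Z2 Z3 O0 O1 O2 aa G rfl rfl rfl y2 y3
    simp only [bil_evE_add, map_add, bil_R1_odE, bil_R1_add, bil_R1_zon y2, bil_R1_zon y3,
      bil_R_evE O0, bil_R_evE O1]
    ring
  have q2 : ∀ t : ℝ, t * (t⁻¹ * t⁻¹) = t⁻¹ := fun t => by
    by_cases ht : t = 0
    · simp [ht]
    · field_simp
  refine key _ _ ?_ ?_ ?_ (Zon_Zf fun z => 2 * deriv w.g z * (1 - z ^ 2)⁻¹ * mean (c.pp c' m) z)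
    (Zon_Zf (mean (ρ2 m))) <;> ext x
  · simp only [Sm.add_apply, Sm.sub_apply, Sm.mul_apply, bil_ev ao hg h1 h2, bil_ev ao' hg h1 h2,
      bil_ev ae hg h1 h2, bil_ev ae' hg h1 h2, bil_ev bo hg h1 h2, bil_ev bo' hg h1 h2,
      bil_ev be hg h1 h2, bil_ev be' hg h1 h2, bil_Zf M0, bil_Zf r0.mean,
      bil_ev (bilO_M h h' hg h1 h2 r0).1.1 hg h1 h2, (h.a_zon m).eq_az x, (h'.a_zon m).eq_az x]
    simp only [bilO0, bilL, d0, bga, bgb, osc, Cf.pp, sl, Pi.add_apply, Pi.mul_apply, Pi.smul_apply,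
      smul_eq_mul, ← inv_pow]
    ring
  · simp only [Sm.add_apply, Sm.mul_apply, bil_ev bo hg h1 h2, bil_ev bo' hg h1 h2,
      bil_ev be hg h1 h2, bil_ev be' hg h1 h2, bil_Zf M1, bil_qq,
      bil_ev (bilO_M h h' hg h1 h2 r0).2.1.1 hg h1 h2]
    simp only [bilO1, bgb, osc, Cf.pp, sl, Pi.add_apply, Pi.mul_apply]
    linear_combination (ds (c.o m) (_, _) * ds (c'.o m) (_, _)
      + ds (c.e m) (_, _) * ds (c'.e m) (_, _)) * q2 (1 - (x : E3) 2 ^ 2)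
  · simp only [Sm.add_apply, Sm.mul_apply, bil_ev ao hg h1 h2, bil_ev ao' hg h1 h2,
      bil_ev ae hg h1 h2, bil_ev ae' hg h1 h2, bil_ev bo hg h1 h2, bil_ev bo' hg h1 h2,
      bil_ev be hg h1 h2, bil_ev be' hg h1 h2, bil_Zf M2, bil_Zf r2.mean,
      bil_ev (bilO_M h h' hg h1 h2 r2).2.2.1 hg h1 h2, (h.a_zon m).eq_az x, (h'.a_zon m).eq_az x]
    simp only [bilO2, bilL, d2, bga, bgb, osc, Cf.pp, sl, Pi.add_apply, Pi.mul_apply, Pi.smul_apply,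
      smul_eq_mul]
    ring
end

end Pool.Agent.Lib.MP_2fa2a2_gt.PI
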