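import Pool.Agent.Lib.MP_2fa2a2_gt.PI.SWkb
import Pool.Agent.Lib.MP_2fa2a2_gt.PI.BilY

namespace Pool.Agent.Lib.MP_2fa2a2_gt.PI

open Real Filter Set
open scoped ContDiff

section
variable {w : WG} {Θ : ℝ → ℝ} {z z1 z2 z1' z2' α α' : ℝ} {Φ Φ' : ℕ → Pf}

theorem bil_pos (hw : w.Ok) (hz : z ∈ Icc w.zl w.zr) :
    0 < 1 - w.Γ z ^ 2 ∧ 0 < 1 - z ^ 2 - w.Γ z ^ 2 ∧ 0 < 1 - z ^ 2 := by
  have h0 : 0 < z := hw.zl_pos.trans_le hz.1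
  have h1 : z ^ 2 ≤ w.zr ^ 2 := pow_le_pow_left₀ h0.le hz.2 2
  have h2 : w.zr ^ 2 < 1 := by nlinarith [hw.zr_lt, hz.2]
  have h3 : w.Γ z ^ 2 ≤ (w.τ + w.τ2) ^ 2 := pow_le_pow_left₀
    (add_pos hw.τ_pos (mul_pos hw.τ2_pos h0)).le
    (show w.τ + w.τ2 * z ≤ _ by nlinarith [hw.τ2_pos, hw.zr_lt, hz.2]) 2
  have := hw.small
  refine ⟨?_, ?_, ?_⟩ <;> nlinarith [sq_nonneg w.zr]

theorem bil_Γ (w : WG) (z : ℝ) : ContDiffAt ℝ ∞ w.Γ z := by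
  unfold WG.Γ; fun_prop

theorem bil_k0 (hw : w.Ok) (hz : z ∈ Icc w.zl w.zr) : ContDiffAt ℝ ∞ w.k0 z :=
  (ContDiffAt.rpow_const_of_ne ((contDiffAt_const.sub (contDiffAt_id.pow 2)).sub
    ((bil_Γ w z).pow 2)) (bil_pos hw hz).2.1.ne').div_const _

theorem bil_c0 (hw : w.Ok) (hz : z ∈ Icc w.zl w.zr) : ContDiffAt ℝ ∞ w.c0 z :=
  (ContDiffAt.sqrt ((contDiffAt_const.sub (contDiffAt_id.pow 2)).sub
    ((bil_Γ w z).pow 2)) (bil_pos hw hz).2.1.ne').neg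

theorem bil_o0 (hw : w.Ok) (hz : z ∈ Icc w.zl w.zr) : ContDiffAt ℝ ∞ w.o0 z :=
  (ContDiffAt.sqrt ((contDiffAt_const.sub (contDiffAt_id.pow 2)).sub
    ((bil_Γ w z).pow 2)) (bil_pos hw hz).2.1.ne').inv (sqrt_pos.2 (bil_pos hw hz).2.1).ne'

theorem bil_stat (hw : w.Ok) (hz : z ∈ Icc w.zl w.zr) :
    w.o0 z = w.Γ z * deriv w.g z - w.c0 z * (1 - z ^ 2)⁻¹ ∧
    w.c0 z ^ 2 * (1 - z ^ 2)⁻¹ ^ 2 = (1 - z ^ 2)⁻¹ - w.Γ z ^ 2 * (1 - z ^ 2)⁻¹ ^ 2 := by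
  obtain ⟨-, h1, h2⟩ := bil_pos hw hz
  have h3 := sq_sqrt h1.le
  have h4 := (sqrt_pos.2 h1).ne'
  have h5 := h2.ne'
  rw [hw.g_deriv z hz, WG.o0, WG.c0, neg_sq, h3]
  constructor <;> field_simp
  linarith

/-- the coefficient of the nonlocal part -/
noncomputable def biln (w : WG) (Θ : ℝ → ℝ) (z : ℝ) : ℝ :=
  -8 * ((1 - w.Γ z ^ 2)⁻¹ + (1 - w.Γ z ^ 2) * deriv Θ (w.Γ z) ^ 2)

theorem bil_Θ (hΘ : ContDiff ℝ ∞ Θ) (w : WG) (z : ℝ) :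
    ContDiffAt ℝ ∞ (fun z => deriv Θ (w.Γ z)) z := (bil_g' hΘ _).comp z (bil_Γ w z)

theorem biln_smooth (hw : w.Ok) (hΘ : ContDiff ℝ ∞ Θ) (hz : z ∈ Icc w.zl w.zr) :
    ContDiffAt ℝ ∞ (biln w Θ) z :=
  have h := contDiffAt_const.sub ((bil_Γ w z).pow 2)
  contDiffAt_const.mul ((h.inv (bil_pos hw hz).1.ne').add (h.mul ((bil_Θ hΘ w z).pow 2)))

theorem bil_lo (hw : w.Ok) (h : w.zl < z) : 0 < w.τ + w.τ2 * z :=
  add_pos hw.τ_pos (mul_pos hw.τ2_pos (hw.zl_pos.trans h))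

theorem bil_hi (hw : w.Ok) (h : z < w.zr) : w.τ + w.τ2 * z < 1 := by
  have h1 : w.τ + w.τ2 < 1 := by
    nlinarith [hw.small, sq_nonneg w.zr, hw.τ_pos, hw.τ2_pos]
  nlinarith [hw.τ2_pos, hw.zr_lt]

theorem bil_Wo (hw : w.Ok) (hΘ : ContDiff ℝ ∞ Θ) (h1 : w.zl < z1) (h2 : z2 < w.zr)
    (h : PF z1 z2 α Φ) (m : ℕ) (x : S2) : w.Wo Θ m (Φ m) x
      = Φ m (((x : E3) 2 - w.τ) / w.τ2, m * (lon x + Θ ((x : E3) 2))) :=
  bil_ev (h.affine hw.τ2_pos) hΘ (bil_lo hw h1) (bil_hi hw h2) m x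

theorem bil_Γ_inv (hw : w.Ok) (t : ℝ) : w.Γ ((t - w.τ) / w.τ2) = t := by
  have := hw.τ2_pos.ne'
  rw [WG.Γ]; field_simp; ring

theorem bil_af (hw : w.Ok) (h : PF z1 z2 α Φ) (m : ℕ) (t s : ℝ) :
    ds (fun p => Φ m ((p.1 - w.τ) / w.τ2, p.2)) (t, s) = ds (Φ m) ((t - w.τ) / w.τ2, s) ∧
    dz (fun p => Φ m ((p.1 - w.τ) / w.τ2, p.2)) (t, s)
      = dz (Φ m) ((t - w.τ) / w.τ2, s) * (1 / w.τ2) :=
  have ha := bil_per (h.affine (a := w.τ) hw.τ2_pos) m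
  ⟨(hasDerivAt_ds ha t s).unique (hasDerivAt_ds (bil_per h m) ((t - w.τ) / w.τ2) s),
    (hasDerivAt_dz ha t s).unique ((hasDerivAt_dz (bil_per h m) _ s).comp t
      (((hasDerivAt_id t).sub_const w.τ).div_const w.τ2))⟩

theorem bil_ds_sl {φ : ℝ → ℝ} {A : Pf} (h : Per A) (h' : Per (sl φ * A)) :
    ds (sl φ * A) = sl φ * ds A := funext fun p =>
  (hasDerivAt_ds h' p.1 p.2).unique ((hasDerivAt_ds h p.1 p.2).const_mul (φ p.1))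

theorem bil_sub (h1 : w.zl < z1') (h2 : z2' < w.zr) {φ : ℝ → ℝ}
    (h : ∀ {z}, z ∈ Icc w.zl w.zr → ContDiffAt ℝ ∞ φ z) : ∀ z ∈ Icc z1' z2', ContDiffAt ℝ ∞ φ z :=
  fun _ hz => h ⟨h1.le.trans hz.1, hz.2.trans h2.le⟩

theorem bil_half (hw : w.Ok) (hΘ : ContDiff ℝ ∞ Θ) (hs : SP w Θ) (h1 : w.zl < z1')
    (h2 : z1' < z1) (h3 : z2 < z2') (h4 : z2' < w.zr) (h : bilM z1 z2 α Φ) :
    ∃ E Ψ : ℕ → Pf, PF z1' z2' (α + 1 / 2) E ∧ PF z1' z2' (α + 3 / 2) Ψ ∧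
      (∀ m p, ds (E m) p = w.k0 p.1 * JG m (ds (Φ m)) p + Ψ m p) ∧
      FO (α + 1 / 2 + 1) (fun m => evE ((m : ℝ)⁻¹ • w.Wo Θ m (E m))) ∧
      Ng fun m => R ((m : ℝ)⁻¹ • Wv w.g m (Φ m)) - evE ((m : ℝ)⁻¹ • w.Wo Θ m (E m)) := by
  obtain ⟨Ψ, -, p0, -, -, -, n0, -⟩ := hs z1 z2 z1' z2' α Φ h1 h2 h3 h4 h.1 h.2
  have j1 := (h.mono h2.le h3.le le_rfl).JG.1
  have j2 := j1.sl_mul (bil_sub h1 h4 (bil_k0 hw))
  have hE := j2.add (bil_eq p0 (by linarith))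
  have f1 := ((hE.affine hw.τ2_pos).FO hΘ (by linarith [bil_lo hw h1]) (bil_hi hw h4)).inv
  refine ⟨_, _, hE, p0.ds, fun m p => ?_, f1.add f1.ant, fun N => ?_⟩
  · rw [ds_add (bil_per j2 m) (bil_per p0 m), bil_ds_sl (bil_per j1 m) (bil_per j2 m),
      ds_JG m (bil_per h.1 m)]
    rfl
  · refine ((n0 N).inv.mono (by linarith)).congr (Eventually.of_forall fun m => ?_)
    simp only [evE, map_smul, smul_sub, smul_add]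

/-- expansion of the nonlocal part -/
theorem bil_non (hw : w.Ok) (hΘ : ContDiff ℝ ∞ Θ) (hs : SP w Θ) (h1 : w.zl < z1')
    (h2 : z1' < z1) (h3 : z2 < z2') (h4 : z2' < w.zr) (h : bilM z1 z2 α Φ)
    (h' : bilM z1 z2 α' Φ') : ∃ ρ : ℕ → Pf, PF z1' z2' (α + α' + 2) ρ ∧
      Ng fun m => 8 * gd (R ((m : ℝ)⁻¹ • Wv w.g m (Φ m))) (R ((m : ℝ)⁻¹ • Wv w.g m (Φ' m)))
        + evE (w.Wo Θ m (sl (fun z => biln w Θ z * w.k0 z ^ 2)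
          * (JG m (ds (Φ m)) * JG m (ds (Φ' m))) + ρ m)) := by
  obtain ⟨E, Ψ, a1, a2, a3, a4, a5⟩ := bil_half hw hΘ hs h1 h2 h3 h4 h
  obtain ⟨E', Ψ', b1, b2, b3, b4, b5⟩ := bil_half hw hΘ hs h1 h2 h3 h4 h'
  have j1 := ((bilM_ds h.1).mono h2.le h3.le le_rfl).JG.1
  have j2 := ((bilM_ds h'.1).mono h2.le h3.le le_rfl).JG.1
  have sΘ : ∀ z ∈ Icc z1' z2', ContDiffAt ℝ ∞ (fun z => deriv Θ (w.Γ z)) z :=
    fun z _ => bil_Θ hΘ w z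
  obtain ⟨ρ, r, d⟩ : ∃ ρ, PF z1' z2' (α + α' + 2) ρ ∧ ∀ (m : ℕ) p, ρ m p = (sl (biln w Θ)
      * (sl w.k0 * JG m (ds (Φ m)) * Ψ' m + Ψ m * ds (E' m))
      + (m : ℝ)⁻¹ • (sl (fun z => -8 * (1 - w.Γ z ^ 2) * (1 / w.τ2)) * (dz (E m)
        * ((m : ℝ)⁻¹ • (1 / w.τ2) • dz (E' m) + sl (fun z => deriv Θ (w.Γ z)) * ds (E' m))
        + sl (fun z => deriv Θ (w.Γ z)) * ds (E m) * dz (E' m)))) p :=
    ⟨_, (((bil_eq ((j1.sl_mul (bil_sub h1 h4 (bil_k0 hw))).mul b2) (by linarith)).add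
      (bil_eq (a2.mul b1.ds) (by linarith))).sl_mul (bil_sub h1 h4 (biln_smooth hw hΘ))).add
      (bil_eq (((a1.dz.mul ((bil_eq (b1.dz.smul _).inv (by linarith)).add (b1.ds.sl_mul sΘ))).add
        ((a1.ds.sl_mul sΘ).mul b1.dz)).sl_mul fun z _ => (contDiffAt_const.mul
          (contDiffAt_const.sub ((bil_Γ w z).pow 2))).mul contDiffAt_const).inv (by linarith)),
      fun m p => rfl⟩
  have tot := (bil_eq ((j1.mul j2).sl_mul (bil_sub h1 h4 fun hz => (biln_smooth hw hΘ hz).mul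
    ((bil_k0 hw hz).pow 2))) (by linarith : α + α' + 1 ≤ _)).add (bil_eq r (by linarith))
  refine ⟨ρ, r, fun N => (bil_Ng_mul (bil_Ng_gd2 a5 b5 a4 b4) 8 N).congr ?_⟩
  filter_upwards [eventually_ne_atTop 0] with m hm
  have hm : (m : ℝ) ≠ 0 := Nat.cast_ne_zero.2 hm
  have l := bil_lo hw h1
  have u := bil_hi hw h4
  have a0 := a1.affine (a := w.τ) hw.τ2_pos
  have b0 := b1.affine (a := w.τ) hw.τ2_pos
  have k := bil_gd_evE (bilG_Wv a0 hΘ l u hm) (bilG_Wv b0 hΘ l u hm)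
    (bil_north (bga_PF a0 hΘ) hΘ l u m) (bil_north (bga_PF b0 hΘ) hΘ l u m)
    (bil_north (bgb_PF a0 l u) hΘ l u m) (bil_north (bgb_PF b0 l u) hΘ l u m)
  have key : ∀ {G G' Y Z : Sm}, G' = evE Y → Z = (-8 : ℝ) • Y → 8 * (G - G') = 8 * G + evE Z := by
    rintro G _ Y _ rfl rfl
    have e : ∀ Y : Sm, (-8 : ℝ) • Y = -8 * Y := fun Y => by
      rw [Algebra.smul_def, map_neg, map_ofNat]
    rw [evE, evE, map_smul, e, e]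
    ring
  refine key k ?_
  ext x
  have q2 : ∀ t : ℝ, t * (t⁻¹ * t⁻¹) = t⁻¹ := fun t => by
    by_cases ht : t = 0
    · simp [ht]
    · field_simp
  simp only [Sm.smul_apply, Sm.add_apply, Sm.mul_apply, bil_Wo hw hΘ h1 h4 tot, bil_qq,
    bil_ev (bga_PF a0 hΘ) hΘ l u, bil_ev (bga_PF b0 hΘ) hΘ l u, bil_ev (bgb_PF a0 l u) hΘ l u,
    bil_ev (bgb_PF b0 l u) hΘ l u]
  simp only [bga, bgb, d, sl, Pi.add_apply, Pi.mul_apply, Pi.smul_apply, smul_eq_mul,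
    (bil_af hw a1 m _ _).1, (bil_af hw a1 m _ _).2, (bil_af hw b1 m _ _).1,
    (bil_af hw b1 m _ _).2, biln, bil_Γ_inv hw, a3, b3]
  generalize (((x : E3) 2 - w.τ) / w.τ2, (m : ℝ) * (lon x + Θ ((x : E3) 2))) = p
  linear_combination 8 * (w.k0 (((x : E3) 2 - w.τ) / w.τ2) * JG m (ds (Φ m)) p + Ψ m p)
    * (w.k0 (((x : E3) 2 - w.τ) / w.τ2) * JG m (ds (Φ' m)) p + Ψ' m p) * q2 (1 - (x : E3) 2 ^ 2)
end

theorem bil : BLStmt := by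
  intro w Θ hw hΘ hs
  have sn : ∀ {z}, z ∈ Icc w.zl w.zr → ContDiffAt ℝ ∞ (fun z => biln w Θ z * w.k0 z ^ 2) z :=
    fun hz => (biln_smooth hw hΘ hz).mul ((bil_k0 hw hz).pow 2)
  refine ⟨_, fun z hz => sn hz, fun z1 z2 z1' z2' α α' c c' h1 h2 h3 h4 h h' => ?_⟩
  have l1 : w.zl < z1 := h1.trans h2
  have u1 : z2 < w.zr := h3.trans h4
  have l0 : 0 < z1 := hw.zl_pos.trans l1
  have u0 : z2 < 1 := u1.trans hw.zr_lt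
  obtain ⟨r0, r2, p0, p2, loc⟩ := bil_loc h h' hw.g_smooth l0 u0
  obtain ⟨O0, O1, -⟩ := bilO_M h h' hw.g_smooth l0 u0 p0
  obtain ⟨-, -, O2⟩ := bilO_M h h' hw.g_smooth l0 u0 p2
  obtain ⟨Ψ0, -, q0, -, m0, -, n0, -⟩ := hs z1 z2 z1' z2' _ _ h1 h2 h3 h4 O0.1 O0.2
  obtain ⟨Ψ1, -, q1, -, m1, -, n1, -⟩ := hs z1 z2 z1' z2' _ _ h1 h2 h3 h4 O1.1 O1.2
  obtain ⟨-, Ψ2, -, q2, -, m2, -, n2⟩ := hs z1 z2 z1' z2' _ _ h1 h2 h3 h4 O2.1 O2.2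
  obtain ⟨ρ, r, n3⟩ := bil_non hw hΘ hs h1 h2 h3 h4 ⟨h.e_ord, h.e_mean⟩ ⟨h'.e_ord, h'.e_mean⟩
  have jj := bil_eq (((bilM_ds h.e_ord).mono h2.le h3.le le_rfl).JG.1.mul
    ((bilM_ds h'.e_ord).mono h2.le h3.le le_rfl).JG.1) (by linarith : α + α' + 1 ≤ _)
  have hφ : PF (w.τ + w.τ2 * z1') (w.τ + w.τ2 * z2') (α + α' + 1) fun m => sl fun t =>
      biln w Θ ((t - w.τ) / w.τ2) * w.k0 ((t - w.τ) / w.τ2) ^ 2
        * mean (JG m (ds (c.e m)) * JG m (ds (c'.e m))) ((t - w.τ) / w.τ2)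
      + mean (ρ m) ((t - w.τ) / w.τ2) :=
    ((jj.mean.sl_mul (bil_sub h1 h4 sn)).add (bil_eq r.mean (by linarith))).affine hw.τ2_pos
  have s1 : ∀ z, ContDiffAt ℝ ∞ (fun z => w.Γ z ^ 2) z := fun z => (bil_Γ w z).pow 2
  have s2 : ∀ z ∈ Icc z1 z2, ContDiffAt ℝ ∞ (fun z => -(w.Γ z * w.c0 z)) z :=
    bil_sub l1 u1 fun hz => ((bil_Γ w _).mul (bil_c0 hw hz)).neg
  have s3 : ∀ z ∈ Icc z1' z2', ContDiffAt ℝ ∞ (fun z => 2 * w.k0 z) z :=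
    bil_sub h1 h4 fun hz => contDiffAt_const.mul (bil_k0 hw hz)
  have rr := ((bilM_osc p0).sl fun z _ => s1 z).add ((bilM_osc p2).sl s2)
  have al : bilM z1 z2 (α + α') (Alead w c c') :=
    ((bilM_osc (bil_pp h h')).sl (bil_sub l1 u1 fun hz => (bil_o0 hw hz).pow 2)).add
      ((bilL_M h h' l0 u0).sl (bil_sub l1 u1 fun hz => (bil_o0 hw hz).mul (bil_Γ w _)))
  have hΨ := ((((rr.mono h2.le h3.le le_rfl).JG.sl s3).mono le_rfl le_rfl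
    (by linarith : α + α' + 3 / 2 ≤ _)).add (((bilM.sl ⟨q0, m0⟩ fun z _ =>
      (contDiffAt_const (c := 2)).mul (s1 z)).add (bilM.sl (φ := fun _ => 2) ⟨q1, m1⟩
      fun z _ => contDiffAt_const)).add (bilM.sl ⟨q2, m2⟩ fun z _ =>
      (contDiffAt_const (c := -2)).mul (bil_Γ w z)))).add
    ((bilM_osc r).mono le_rfl le_rfl (by linarith))
  have ye : ∀ φ : Sm, Zon φ → Zon (evE φ) := fun φ h => h.add h.ant
  have y1 := (SO.const (X 2 * X 2)).mul ((p0.mean.SO.add p0.mean.SO.ant).fn PG_cR)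
  rw [zero_add] at y1
  refine ⟨_, _, y1.add (hφ.SO.add hφ.SO.ant), fun m => ⟨((Zon_X2.mul Zon_X2).mul
    ((ye _ (Zon_Zf _)).fn cR)).add (ye _ (Zon_Zf _)), Ev.add_mem ?_ (evE_mem _)⟩, hΨ.1, hΨ.2,
    fun N => (bil_Ng_sub (bil_Ng_mul (bil_Ng_sub (bil_Ng_add (bil_Ng_mul n0 (X 2 * X 2)) n1)
      (bil_Ng_mul n2 (X 2))) 2) n3 N).congr ?_⟩
  · rw [mem_Ev, map_mul, map_mul, ant_X, neg_mul_neg]
    exact congrArg _ (mem_Ev.1 (R_mem_Ev _))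
  filter_upwards [eventually_ne_atTop 0] with m hm
  have key : ∀ {Y Z A0 A1 A2 G S0 S1 S2 T Q U : Sm},
      (2 : ℝ) • (X 2 * X 2 * S0 + S1 - X 2 * S2) + T = Q + U →
      2 * (X 2 * X 2 * (A0 - evE S0) + (A1 - evE S1) - X 2 * (A2 - odE S2)) - (G + evE T)
        = Y + Z + 2 * (X 2 * X 2 * A0 + A1 - X 2 * A2) - G - Y - (Z + (Q + ant Q)) - evE U := by
    intro Y Z A0 A1 A2 G S0 S1 S2 T Q U e
    have e' := congrArg ant e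
    simp only [map_add, map_sub, map_mul, map_ofNat, ant_X, ← funk_two] at e e'
    simp only [evE, odE]
    linear_combination -e - e'
  rw [loc m (Nat.cast_ne_zero.2 hm)]
  refine key ?_
  have e1 : Alead w c c' m + (sl (fun z => w.Γ z ^ 2) * osc (r0 m)
      + sl (fun z => -(w.Γ z * w.c0 z)) * osc (r2 m)) = sl (fun z => w.Γ z ^ 2)
      * bilO0 w.g c c' r0 m + bilO1 c c' m + sl (fun z => -(w.Γ z * w.c0 z))
      * bilO2 w.g c c' r2 m := by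
    funext ⟨z, s⟩
    change sl _ (z, s) * osc (c.pp c' m) (z, s) + sl _ (z, s) * bilL c c' m (z, s) + _ = _
    simp only [bilO0, bilO1, bilO2, sl, Pi.add_apply, Pi.mul_apply, ← inv_pow]
    by_cases hz : z ∈ Icc z1 z2
    · obtain ⟨e2, e3⟩ := bil_stat hw ⟨l1.le.trans hz.1, hz.2.trans u1.le⟩
      rw [e2]
      linear_combination osc (c.pp c' m) (z, s) * e3
    · have e2 : osc (c.pp c' m) (z, s) = 0 := ((bil_pp h h').osc.1 m).2 z s hz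
      have e3 : bilL c c' m (z, s) = 0 := ((bilL_M h h' l0 u0).1.1 m).2 z s hz
      rw [e2, e3]
      ring
  have e2 := congrArg (JG m) e1
  rw [JG_add m (bil_per al.1 m) (bil_per rr.1 m), JG_add m (bil_per ((O0.sl fun z _ => s1 z).add O1).1 m)
    (bil_per (O2.sl s2).1 m), JG_add m (bil_per (O0.sl fun z _ => s1 z).1 m) (bil_per O1.1 m),
    JG_sl_mul, JG_sl_mul] at e2
  have S : ∀ {O Ψ : ℕ → Pf} {φ : ℝ → ℝ}, bilM z1 z2 (α + α') O → PF z1' z2' (α + α' + 3 / 2) Ψ →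
      (∀ z ∈ Icc z1' z2', ContDiffAt ℝ ∞ φ z) →
      PF z1' z2' (α + α' + 1 / 2) fun m => sl φ * JG m (O m) + Ψ m := fun hO hΨ hφ =>
    ((hO.mono h2.le h3.le le_rfl).JG.1.sl_mul hφ).add (bil_eq hΨ (by linarith))
  have T := (jj.sl_mul (bil_sub h1 h4 sn)).add (bil_eq r (by linarith))
  have U := (((al.mono h2.le h3.le le_rfl).JG.1.sl_mul s3).add
    (bil_eq (jj.osc.sl_mul (bil_sub h1 h4 sn)) (by linarith))).add (bil_eq hΨ.1 (by linarith))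
  ext x
  have e3 := congrFun e2 (((x : E3) 2 - w.τ) / w.τ2, m * (lon x + Θ ((x : E3) 2)))
  simp only [Sm.smul_apply, Sm.add_apply, Sm.sub_apply, Sm.mul_apply, X_apply, bil_Zf hφ,
    bil_Wo hw hΘ h1 h4 (S O0 q0 (bil_sub h1 h4 (bil_k0 hw))),
    bil_Wo hw hΘ h1 h4 (S O1 q1 (bil_sub h1 h4 (bil_k0 hw))),
    bil_Wo hw hΘ h1 h4 (S O2 q2 (bil_sub h1 h4 fun hz => (bil_k0 hw hz).mul (bil_c0 hw hz))),
    bil_Wo hw hΘ h1 h4 T, bil_Wo hw hΘ h1 h4 U]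
  simp only [Pi.add_apply, Pi.mul_apply] at e3 ⊢
  simp only [sl, bil_Γ_inv hw] at e3 ⊢
  rw [osc, osc, Pi.mul_apply]
  linear_combination (-2 * w.k0 (((x : E3) 2 - w.τ) / w.τ2)) * e3

end Pool.Agent.Lib.MP_2fa2a2_gt.PI
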