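import Pool.Agent.Lib.MP_2fa2a2_gt.PI.BrkX

/-! Operators with negligible mean. -/

namespace Pool.Agent.Lib.MP_2fa2a2_gt.PI.Brk

open MeasureTheory

variable {j : ℕ} {C0 t ℓ C1 : ℝ} {k n n' e kk : ℕ} {F G : Dt j C0 t ℓ C1 → Fm → ℝ}
  {v v' : Dt j C0 t ℓ C1 → Fin 3 → Sm} {g f g' f' : Dt j C0 t ℓ C1 → Sm}

/-- the closed set that carries the test functions -/
def KK (i : Dt j C0 t ℓ C1) : Set Fm :=
  slab i.d 3 ∩ {p | X 2 p.xi ^ 2 ≤ t ∨ t * (1 + ℓ) ≤ X 2 p.xi ^ 2}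

theorem closed_slab (d : ZD) (r : ℝ) : IsClosed (slab d r) :=
  isClosed_le (((X 2).continuous.comp fm_cont_x).sub continuous_const).abs continuous_const

theorem KK_closed (i : Dt j C0 t ℓ C1) : IsClosed (KK i) :=
  (closed_slab _ _).inter
    ((isClosed_le (((X 2).continuous.comp fm_cont_xi).pow 2) continuous_const).union
    (isClosed_le continuous_const (((X 2).continuous.comp fm_cont_xi).pow 2)))

def Van (F : Dt j C0 t ℓ C1 → Fm → ℝ) : Prop := ∀ i p, p ∉ KK i → F i p = 0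

theorem Van.ev (h : Van F) (i : Dt j C0 t ℓ C1) {p : Fm} (hp : p ∉ KK i) : F i =ᶠ[nhds p] 0 :=
  Filter.mem_of_superset ((KK_closed i).isOpen_compl.mem_nhds hp) fun q hq => h i q hq

theorem Van.mul (h : Van F) (G : Dt j C0 t ℓ C1 → Fm → ℝ) : Van (G * F) :=
  fun i p hp => mul_eq_zero_of_right _ (h i p hp)

theorem Van.add (h : Van F) (h' : Van G) : Van (F + G) := fun i p hp => by
  rw [Pi.add_apply, Pi.add_apply, h i p hp, h' i p hp, add_zero]

theorem Van.neg (h : Van F) : Van (-F) := fun i p hp => neg_eq_zero.2 (h i p hp)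

theorem Van.ll (h : Van F) (c : Fin 3) : Van fun i => LL c (F i) := fun i _ hp =>
  (LL_congr c (h.ev i hp)).trans (congrFun (fm_LL_zero c) _)

theorem Van.JJ (h : Van F) : Van fun i => JJ (F i) := fun i p hp =>
  Finset.sum_eq_zero fun c _ => mul_eq_zero_of_right _ (h.ll c i p hp)

/-- the transport operator of a family of vector fields -/
noncomputable def TT (v : Dt j C0 t ℓ C1 → Fin 3 → Sm) (F : Dt j C0 t ℓ C1 → Fm → ℝ) :
    Dt j C0 t ℓ C1 → Fm → ℝ := fun i => PV (2 - 4 * j) (v i) (F i)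

theorem Van.TT (h : Van F) (v : Dt j C0 t ℓ C1 → Fin 3 → Sm) : Van (TT v F) := fun i p hp => by
  have h1 : PI.JJ (F i) p = 0 := h.JJ i p hp
  have h2 : ∀ c, LL c (F i) p = 0 := fun c => h.ll c i p hp
  simp only [Brk.TT, PV, h1, h2, h i p hp, mul_zero, sub_zero, add_zero, Finset.sum_const_zero]

theorem sy_int {a : Fm → ℝ} (ha : Continuous a) (i : Dt j C0 t ℓ C1) : Integrable a i.μ :=
  have := i.prob
  ha.integrable_of_hasCompactSupport (HasCompactSupport.of_compactSpace a)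

/-- negligible mean -/
def Sml (n : ℕ) (F : Dt j C0 t ℓ C1 → Fm → ℝ) : Prop := (∀ i, F i ∈ Sy) ∧ ∃ C, 0 ≤ C ∧
  ∀ i, |∫ p, F i p ∂i.μ| ≤ C * sc.M i ^ n * (1 / (i.m : ℝ) ^ 20 * i.μ.real (slab i.d 3))

theorem Sml.mono (h : Sml n F) (hn : n ≤ n') : Sml n' F := by
  obtain ⟨h0, C, hC, h⟩ := h
  refine ⟨h0, C, hC, fun i => (h i).trans (mul_le_mul_of_nonneg_right
    (mul_le_mul_of_nonneg_left (pow_le_pow_right₀ (sc.hM i) hn) hC) (by positivity))⟩

theorem Sml.add (h : Sml n F) (h' : Sml n G) : Sml n (F + G) := by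
  obtain ⟨h0, C, hC, h⟩ := h
  obtain ⟨h0', C', hC', h'⟩ := h'
  refine ⟨fun i => add_mem (h0 i) (h0' i), C + C', by positivity, fun i => ?_⟩
  simp only [Pi.add_apply]
  rw [integral_add (sy_int (Sy_continuous (h0 i)) i) (sy_int (Sy_continuous (h0' i)) i),
    add_mul, add_mul]
  exact (abs_add_le _ _).trans (add_le_add (h i) (h' i))

theorem Sml.neg (h : Sml n F) : Sml n (-F) := by
  obtain ⟨h0, C, hC, h⟩ := h
  refine ⟨fun i => neg_mem (h0 i), C, hC, fun i => ?_⟩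
  simp only [Pi.neg_apply]
  rw [integral_neg, abs_neg]
  exact h i

theorem Sml.of_eq (h : Sml n F) (he : ∀ i p, G i p = F i p) : Sml n G := by
  rwa [show G = F from funext fun i => funext (he i)]

/-- test functions -/
def Ts (k n : ℕ) (F : Dt j C0 t ℓ C1 → Fm → ℝ) : Prop := Bj sc 1 k n F ∧ Van F

theorem Ts.mono {k' : ℕ} (h : Ts k n F) (hk : k' ≤ k) (hn : n ≤ n') : Ts k' n' F :=
  ⟨h.1.mono le_rfl hk hn, h.2⟩

theorem Ts.mul (h : Ts k n F) (h' : Bj sc 1 k n' G) : Ts k (n' + n) (G * F) :=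
  ⟨h'.mul h.1, h.2.mul G⟩

theorem Ts.TT (h : Ts (k + 1) n' F) (hv : ∀ c, Bj sc 1 (k + 1) n (PX fun i => v i c)) :
    Ts k (n + n' + 2) (TT v F) := ⟨Bj.PV _ hv h.1, h.2.TT v⟩

def Sv (v : Dt j C0 t ℓ C1 → Fin 3 → Sm) (k e : ℕ) : Prop :=
  ∀ n F, Ts k n F → Sml (n + e) (TT v F)

noncomputable def v0 : Dt j C0 t ℓ C1 → Fin 3 → Sm := fun i c => L c i.d.G
noncomputable def v1 : Dt j C0 t ℓ C1 → Fin 3 → Sm := fun i c => L c i.d.sn

theorem vd_v0 (i : Dt j C0 t ℓ C1) (φ : Sm) : vd (v0 i) φ = i.d.a * D 2 φ := by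
  rw [show vd (v0 i) φ = _ from vd_grad i.d.G φ, gd_eq_D, ← gd_X, gd_eq_D, Finset.mul_sum]
  simp only [i.z.G_grad, mul_assoc]

theorem ell_of {w : Fin 3 → Sm} {p : Fm} {r s : ℝ}
    (h : ∀ b, vd w (X b) p.x = r * D 2 (X b) p.x + s * L 2 (X b) p.x) :
    ell w p = r * (p.xi : E3) 2 + s * p.om 2 := by
  have hZ := fm_xi p
  rw [ell_eq]
  simp only [h, Fin.sum_univ_three, D_X, alg_20, alg_21, L_X_self, kd, fm_om2]
  simp
  linear_combination -(r * (p.x : E3) 2) * hZ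

theorem JJ_Wk (f f' h h' : Dt j C0 t ℓ C1 → Sm) (i : Dt j C0 t ℓ C1) :
    JJ (Wk eOm f f' h h' i) = -Wk eXi f f' h h' i := by
  have e : Wk eOm f f' h h' i = px (f' i) * dom (h i) - px (f i) * dom (h' i) := rfl
  have e' : Wk eXi f f' h h' i = px (f' i) * dxi (h i) - px (f i) * dxi (h' i) := rfl
  rw [e, e', JJ_sub (mul_mem (px_mem _) (dom_mem _)) (mul_mem (px_mem _) (dom_mem _)),
    JJ_mul (px_mem _) (dom_mem _), JJ_mul (px_mem _) (dom_mem _), JJ_px, JJ_px, JJ_dom, JJ_dom]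
  ring

theorem Wk_mem (f f' h h' : Dt j C0 t ℓ C1 → Sm) (i : Dt j C0 t ℓ C1) : Wk eOm f f' h h' i ∈ Sy :=
  sub_mem (mul_mem (px_mem _) (dom_mem _)) (mul_mem (px_mem _) (dom_mem _))

theorem JJ_VA (f f' g g' : Dt j C0 t ℓ C1 → Sm) (i : Dt j C0 t ℓ C1) :
    JJ (VA eOm f f' g g' i) = VC f f' g g' i := by
  have e : VA eOm f f' g g' i = px (fa i) * pi' (X 2) * Wk eOm f f' g g' i
    + (fun p : Fm => p.om 2) * Wk eOm f f' f f' i := rfl
  rw [e, JJ_add (mul_mem (fm_mul_mem _ _) (Wk_mem _ _ _ _ _)) (mul_mem (om_mem _) (Wk_mem _ _ _ _ _)),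
    JJ_mul (fm_mul_mem _ _) (Wk_mem _ _ _ _ _), JJ_mul (om_mem _) (Wk_mem _ _ _ _ _),
    JJ_mul (px_mem _) (pi'_mem _), JJ_px, JJ_xi, JJ_om, JJ_Wk, JJ_Wk]
  funext p
  simp only [VC, VA, PX, eXi, eOm, Pi.add_apply, Pi.mul_apply, Pi.sub_apply, Pi.neg_apply,
    Pi.zero_apply]
  ring

/-- a vector field in the frame, with negligible transport operator -/
structure Rep (k n kk e : ℕ) (v : Dt j C0 t ℓ C1 → Fin 3 → Sm) (g f : Dt j C0 t ℓ C1 → Sm) :
    Prop where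
  bv : ∀ c, Bj sc 1 k n (PX fun i => v i c)
  bg : Bj sc 1 (k + 1) n (PX g)
  bf : Bj sc 1 (k + 1) n (PX f)
  eq : ∀ i φ, ∀ x ∈ sc.U i, vd (v i) φ x = (g i * (i.d.a * D 2 φ) + f i * L 2 φ) x
  sv : Sv v kk e

theorem Rep.mono {k' kk' e' : ℕ} (H : Rep k n kk e v g f) (hk : k' ≤ k) (hn : n ≤ n')
    (hkk : kk ≤ kk') (he : e ≤ e') : Rep k' n' kk' e' v g f :=
  ⟨fun c => (H.bv c).mono le_rfl hk hn, H.bg.mono le_rfl (by omega) hn,
    H.bf.mono le_rfl (by omega) hn, H.eq,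
    fun n F h => (H.sv n F (h.mono hkk le_rfl)).mono (by omega)⟩

variable (h0 : 1 ≤ C0)
include h0

theorem rho_pos (i : Dt j C0 t ℓ C1) : 0 < i.d.ρ :=
  (by positivity : (0 : ℝ) < C0⁻¹).trans_le i.z.ρ_ge

theorem KK_sub (i : Dt j C0 t ℓ C1) {p : Fm} (hp : p ∈ KK i) : p.x ∈ sc.U i :=
  lt_of_le_of_lt hp.1 (show 3 * i.d.ρ < 4 * i.d.ρ by linarith [rho_pos h0 i])

theorem Van.ext (h : Van F) (h' : Van G) (he : Eu sc G F) (i : Dt j C0 t ℓ C1) (p : Fm) :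
    G i p = F i p := by
  by_cases hp : p ∈ KK i
  · exact he i p (KK_sub h0 i hp)
  · rw [h i p hp, h' i p hp]

theorem jet_le (h : Ts 1 n F) : ∃ C, 0 ≤ C ∧ ∀ i,
    ∫ p, jet (F i) p ∂i.μ ≤ C * sc.M i ^ (n + 1) * i.μ.real (slab i.d 3) := by
  obtain ⟨C, hC, H⟩ := h.1.ob.mono n.le_succ
  choose K hK H' using fun c => (h.1.ll c).ob
  refine ⟨C + ∑ c, K c, add_nonneg hC (Finset.sum_nonneg fun c _ => hK c), fun i => ?_⟩
  have := i.prob
  have hm := (closed_slab i.d 3).measurableSet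
  rw [mul_comm, ← smul_eq_mul, ← integral_indicator_const _ hm]
  refine integral_mono (sy_int (continuous_jet (h.1.mem i)) i)
    ((integrable_const _).indicator hm) fun p => ?_
  by_cases hp : p ∈ KK i
  · rw [Set.indicator_of_mem hp.1, jet, add_mul, Finset.sum_mul]
    exact add_le_add (H i p (KK_sub h0 i hp))
      (Finset.sum_le_sum fun c _ => H' c i p (KK_sub h0 i hp))
  · have h2 : ∀ c, LL c (F i) p = 0 := fun c => h.2.ll c i p hp
    simp only [jet, h2, h.2 i p hp, abs_zero, Finset.sum_const_zero, add_zero]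
    exact Set.indicator_nonneg (fun _ _ => mul_nonneg (add_nonneg hC
      (Finset.sum_nonneg fun c _ => hK c)) (pow_pos (sc.pos i) _).le) p

theorem PP_zero (h : Van F) (i : Dt j C0 t ℓ C1) {φ : Sm} (hφ : ∀ x ∈ sc.U i, φ x = 0) :
    PP j φ (F i) = 0 := by
  funext p
  rw [← PV_grad]
  by_cases hp : p ∈ KK i
  · refine PV_eq_zero _ _ (Filter.mem_of_superset ((sc.hU i).mem_nhds (KK_sub h0 i hp))
      fun x hx b => ?_)
    have h1 : ∀ c, L c φ x = 0 := fun c => by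
      rw [L_loc (sc.hU i) (ψ := 0) hφ c x hx, map_zero, Sm.zero_apply]
    simp only [vd, Sm.sum_apply, Sm.mul_apply, h1, zero_mul, Finset.sum_const_zero]
  · exact h.TT (fun _ c => L c φ) i p hp

theorem sv0 : Sv (v0 : Dt j C0 t ℓ C1 → Fin 3 → Sm) 1 1 := fun n F h => by
  obtain ⟨C, hC, H⟩ := jet_le h0 h
  refine ⟨fun i => PV_mem _ _ (h.1.mem i), C, hC, fun i => ?_⟩
  have h1 := i.tro _ (h.1.mem i)
  rw [i.z.odd, PP_add_left, PP_zero h0 h.2 i (φ := i.d.fw) fun x hx => i.z.fw_zero x (Or.inl ?_),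
    add_zero, ← PV_grad] at h1
  · refine h1.trans ((mul_le_mul_of_nonneg_left (H i) (by positivity)).trans_eq ?_)
    ring
  · have h2 := abs_lt.1 (show |X 2 x - i.d.zc| < 4 * i.d.ρ from hx)
    have h3 : (0 : ℝ) < C0⁻¹ := by positivity
    rw [abs_lt]
    constructor <;> linarith [i.z.lo]

theorem sv1 : Sv (v1 : Dt j C0 t ℓ C1 → Fin 3 → Sm) 1 1 := fun n F h => by
  obtain ⟨C, hC, H⟩ := jet_le h0 h
  refine ⟨fun i => PV_mem _ _ (h.1.mem i), C, hC, fun i => ?_⟩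
  have h1 := i.tre _ (h.1.mem i) fun p hp => i.z.cut _ (not_not.1 fun hc => hp (h.2 i p hc)).2
  rw [← add_sub_cancel (i.κ1 • i.d.sn) (evp i.u), PP_add_left,
    PP_zero h0 h.2 i (φ := evp i.u - i.κ1 • i.d.sn) fun x hx => sub_eq_zero.2 (i.z.even x hx),
    add_zero, PP_smul_left, ← PV_grad] at h1
  simp only [Pi.smul_apply, smul_eq_mul] at h1
  rw [integral_const_mul, abs_mul, abs_of_pos i.hκ, div_eq_mul_one_div, mul_assoc] at h1
  refine (le_of_mul_le_mul_left h1 i.hκ).trans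
    ((mul_le_mul_of_nonneg_left (H i) (by positivity)).trans_eq ?_)
  ring

theorem v0_bd (c : Fin 3) : Bj sc 1 11 0 (PX fun i : Dt j C0 t ℓ C1 => v0 i c) :=
  ((Bj.of_Cb (e := 0) (n := 0) (C := C0) (fun i : Dt j C0 t ℓ C1 => by
    rw [pow_zero, mul_one]; exact i.z.G_Cb) (by linarith)).L c).mono zero_le_one le_rfl le_rfl

theorem rep1 (h1 : 1 ≤ C1) : Rep 11 1 1 2 (v1 : Dt j C0 t ℓ C1 → Fin 3 → Sm) g1 f1 := by
  refine ⟨(sn_bd h1).L, (ug_bd h0 h1).wv h1, be_bd.wv h1, fun i φ x hx => ?_,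
    fun n F h => (sv1 h0 n F h).mono (by omega)⟩
  have e := congrArg (fun ψ : Sm => ψ x) (qq_gd i.d.sn φ)
  obtain ⟨-, a, -, b, -⟩ := i.z.wave _ hx
  have hq := be_mul h0 i hx
  have ha := ai_mul h0 i x
  simp only [Sm.add_apply, Sm.mul_apply, a, b] at e
  rw [show vd (v1 i) φ = _ from vd_grad i.d.sn φ]
  simp only [g1, f1, wv, cs, fw, sc, mp_apply, Pi.mul_apply, Sm.add_apply, Sm.mul_apply]
  linear_combination be i x * e - gd i.d.sn φ x * hq
    - (i.m * i.d.cs x * be i x * i.d.w x * D 2 φ x) * ha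

theorem Rep.step (H : Rep (k + 1) n kk e v g f) (hk : 1 ≤ k) (hk' : k ≤ 10) (hkk : 1 ≤ kk)
    (hkk' : kk ≤ 10) (he : n + 1 ≤ e) :
    Rep k (n + 1) (kk + 1) (e + 2) (fun i => br (v0 i) (v i)) (dd g) (dd f) := by
  refine ⟨fun c => (Bj.br (fun c => (v0_bd h0 c).dn (by omega)) H.bv c).up (by omega),
    H.bg.dd h0 (by omega), H.bf.dd h0 (by omega), fun i φ x hx => ?_, fun m F h => ?_⟩
  · have e1 := D_loc (sc.hU i) (H.eq i φ) 2 x hx
    have e2 := H.eq i (i.d.a * D 2 φ) x hx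
    rw [vd_br, vd_v0, vd_v0, Sm.sub_apply, Sm.mul_apply, e1, e2, L_mul, i.z.a_zon.L2, map_add,
      D_mul 2 (g i), D_mul 2 (f i), D2_L2]
    simp only [dd, Sm.add_apply, Sm.mul_apply, Sm.zero_apply]
    ring
  · refine (((sv0 h0 _ _ ((h.mono (k' := 1 + 1) (by omega) le_rfl).TT
      fun c => (H.bv c).dn (by omega))).mono (by omega)).add
      ((H.sv _ _ (h.TT fun c => (v0_bd h0 c).dn (by omega))).mono (by omega)).neg).of_eq
      fun i p => ?_
    rw [TT, PV_br _ _ _ (h.1.mem i), Pi.sub_apply, sub_eq_add_neg]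
    rfl

theorem VA_bd {η : Fin 3 → Dt j C0 t ℓ C1 → Fm → ℝ} (hη : ∀ b, Bj sc 1 4 0 (η b))
    (H : Rep 4 4 4 8 v g f) (H' : Rep 4 4 4 8 v' g' f') : Bj sc 1 4 9 (VA η f f' g g') :=
  ((((fa_bd h0).mono zero_le_one (by omega) le_rfl).mul (Bj.xi 2)).mul
    (((H'.bf.dn (by omega)).mul (H.bg.dv hη)).sub ((H.bf.dn (by omega)).mul (H'.bg.dv hη)))).add
    ((Bj.om 2).mul
    (((H'.bf.dn (by omega)).mul (H.bf.dv hη)).sub ((H.bf.dn (by omega)).mul (H'.bf.dv hη))))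

/-- two vector fields give a vertical operator -/
theorem vert (H : Rep 4 4 4 8 v g f) (H' : Rep 4 4 4 8 v' g' f') (h : Ts 4 n F) :
    Sml (n + 12) (VA eOm f f' g g' * (fun i => JJ (F i))
      + (fun _ _ => (2 - 4 * j : ℝ)) * VA eXi f f' g g' * F) := by
  have b1 : Bj sc 1 4 4 (PX (0 - f')) := (Bj.num 0 |>.up (by omega)).sub (H'.bf.dn (by omega))
  have b2 := H.bf.dn (k' := 4) (by omega)
  have b3 : Bj sc 1 4 8 (PX (f' * g - f * g')) :=
    ((H'.bf.mul H.bg).sub (H.bf.mul H'.bg)).dn (by omega)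
  refine ((((H.sv _ _ (h.mul b1)).mono (by omega)).add ((H'.sv _ _ (h.mul b2)).mono
    (by omega))).add ((sv0 h0 _ _ ((h.mul b3).mono (by omega) le_rfl)).mono (by omega))).of_eq
    (Van.ext h0 ((((h.2.mul _).TT _).add ((h.2.mul _).TT _)).add ((h.2.mul _).TT _))
      ((h.2.JJ.mul _).add (h.2.mul _)) fun i p hp => ?_)
  have E := PV_rel (2 - 4 * j) ![v i, v' i, v0 i] ![(0 - f') i, f i, (f' * g - f * g') i]
    (h.1.mem i) (p := p) (Filter.mem_of_superset ((sc.hU i).mem_nhds hp) fun x hx b => by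
      simp only [Fin.sum_univ_three, Matrix.cons_val, H.eq i _ x hx, H'.eq i _ x hx, vd_v0,
        Pi.sub_apply, Pi.mul_apply, Pi.zero_apply, Sm.add_apply, Sm.mul_apply, Sm.sub_apply,
        Sm.zero_apply]
      ring)
  have l1 : ell (v i) p = _ := ell_of (r := g i p.x * fa i p.x) (s := f i p.x) fun b => by
    rw [H.eq i _ _ hp, mul_assoc]
    rfl
  have l2 : ell (v' i) p = _ := ell_of (r := g' i p.x * fa i p.x) (s := f' i p.x) fun b => by
    rw [H'.eq i _ _ hp, mul_assoc]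
    rfl
  have l3 : ell (v0 i) p = _ := ell_of (r := fa i p.x) (s := 0) fun b => by
    rw [vd_v0, zero_mul, add_zero]
    rfl
  have d1 : ∀ φ : Dt j C0 t ℓ C1 → Sm, dom (φ i) p = dv eOm φ i p := fun _ => rfl
  have d2 : ∀ φ : Dt j C0 t ℓ C1 → Sm, dxi (φ i) p = dv eXi φ i p := fun _ => rfl
  have d3 : ∀ η : Fin 3 → Dt j C0 t ℓ C1 → Fm → ℝ, dv η 0 i p = 0 := fun η => by simp [dv]
  simp only [Fin.sum_univ_three, Matrix.cons_val, l1, l2, l3, d1, d2, dv_sub, dv_mul, d3] at E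
  refine Eq.trans ?_ E.symm
  have e1 : eXi 2 i p = (p.xi : E3) 2 := rfl
  have e2 : eOm 2 i p = p.om 2 := rfl
  simp only [VA, Wk, PX, px, e1, e2, Pi.add_apply, Pi.mul_apply, Pi.sub_apply]
  ring

theorem sml_Th (h1 : 1 ≤ C1) (h : Ts 4 0 F) : Sml 23 (Th * F) := by
  have r1 := rep1 (j := j) (t := t) (ℓ := ℓ) h0 h1
  have r2 := r1.step h0 (by omega) le_rfl le_rfl (by omega) le_rfl
  have r3 := r2.step h0 (by omega) (by omega) (by omega) (by omega) (by omega)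
  have r4 := r3.step h0 (by omega) (by omega) (by omega) (by omega) (by omega)
  replace r1 := r1.mono (k' := 4) (n' := 4) (kk' := 4) (e' := 8) (by omega) (by omega) (by omega)
    (by omega)
  replace r2 := r2.mono (k' := 4) (n' := 4) (kk' := 4) (e' := 8) (by omega) (by omega) (by omega)
    (by omega)
  replace r3 := r3.mono (k' := 4) (n' := 4) (kk' := 4) (e' := 8) (by omega) (by omega) (by omega)
    (by omega)
  replace r4 := r4.mono (k' := 4) (n' := 4) (kk' := 4) (e' := 8) (by omega) (by omega) (by omega)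
    (by omega)
  have ho : Bj sc 1 4 2 (PX (oo : Dt j C0 t ℓ C1 → Sm)) := (Bj.mp sc 1 4 2).mul
    (((fo_bd h0 h1).mul (fo_bd h0 h1)).mono zero_le_one (by omega) le_rfl)
  have a1 : Bj sc 1 4 9 (A1 eOm : Dt j C0 t ℓ C1 → Fm → ℝ) := VA_bd h0 Bj.om r1 r2
  have a3 := VA_bd h0 Bj.om r1 r3
  have a4 := VA_bd h0 Bj.om r2 r4
  have a2 : Bj sc 1 4 11 (A2 eOm : Dt j C0 t ℓ C1 → Fm → ℝ) := (ho.mul a3).add (a4.up (by omega))
  refine (((vert h0 r1 r2 (h.mul a2)).add (vert h0 r1 r3 ((h.mul a1).mul ho)).neg).add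
    ((vert h0 r2 r4 (h.mul a1)).mono (by omega)).neg).of_eq fun i p => ?_
  have j1 : JJ (A1 eOm i) = J1 i := JJ_VA _ _ _ _ _
  have j2 : JJ (A2 eOm i) = J2 i := by
    rw [A2, J2, Pi.add_apply, Pi.mul_apply, JJ_add (mul_mem (ho.mem i) (a3.mem i)) (a4.mem i),
      JJ_mul (ho.mem i) (a3.mem i), JJ_VA, JJ_VA, PX, JJ_px, zero_mul, zero_add]
    rfl
  simp only [Pi.add_apply, Pi.mul_apply, Pi.neg_apply,
    JJ_mul (ho.mem i) (mul_mem (a1.mem i) (h.1.mem i)), JJ_mul (a2.mem i) (h.1.mem i),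
    JJ_mul (a1.mem i) (h.1.mem i), j1, j2]
  simp only [Th, PX, JJ_px, Pi.add_apply, Pi.mul_apply, Pi.sub_apply, Pi.zero_apply]
  simp only [A1, A2, PX, Pi.add_apply, Pi.mul_apply]
  ring

end Pool.Agent.Lib.MP_2fa2a2_gt.PI.Brk
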