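import Pool.Agent.Lib.MP_2fa2a2_gt.PI.BrkX

/-! The leading term of the curvature. -/

namespace Pool.Agent.Lib.MP_2fa2a2_gt.PI.Brk

variable {j : ℕ} {C0 t ℓ C1 : ℝ} {k n : ℕ} {η : Fin 3 → Dt j C0 t ℓ C1 → Fm → ℝ}
  {π lam mu : Dt j C0 t ℓ C1 → Fm → ℝ} {h A B u : Dt j C0 t ℓ C1 → Sm}

/-- a derivation that acts on the phase by `π` -/
structure Dr (η : Fin 3 → Dt j C0 t ℓ C1 → Fm → ℝ) (π : Dt j C0 t ℓ C1 → Fm → ℝ) (k : ℕ) :
    Prop where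
  hη : ∀ b, Bj sc 0 k 0 (η b)
  hπ : Bj sc 0 k 0 π
  s : Eu sc (dv η sn) fun i p => sc.M i * π i p * cs i p.x
  c : Eu sc (dv η cs) fun i p => -(sc.M i * π i p * sn i p.x)

/-- leading amplitudes of an oscillating function -/
def Sym (k n : ℕ) (h A B : Dt j C0 t ℓ C1 → Sm) : Prop :=
  Bj sc 0 k 0 (PX A) ∧ Bj sc 0 k 0 (PX B) ∧
    Bj sc 1 k n (PX (h - mp sc (n + 1) * (cs * A + sn * B)))

theorem Sym.dn {k' : ℕ} (H : Sym k n h A B) (hk : k' ≤ k) : Sym k' n h A B :=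
  ⟨H.1.dn hk, H.2.1.dn hk, H.2.2.dn hk⟩

noncomputable def eD : Fin 3 → Dt j C0 t ℓ C1 → Fm → ℝ :=
  fun b i p => if b = 2 then i.d.a p.x else 0

theorem dv_eD (φ : Dt j C0 t ℓ C1 → Sm) (i : Dt j C0 t ℓ C1) (p : Fm) :
    dv eD φ i p = dd φ i p.x := by
  simp [dv, eD, dd, mul_comm]

theorem dd_mul (φ ψ : Dt j C0 t ℓ C1 → Sm) (i : Dt j C0 t ℓ C1) (x : S2) :
    dd (φ * ψ) i x = dd φ i x * ψ i x + φ i x * dd ψ i x := by
  simp only [dd, Pi.mul_apply, D_mul, Sm.add_apply, Sm.mul_apply]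
  ring

noncomputable def rr (h : Dt j C0 t ℓ C1 → Sm) : Dt j C0 t ℓ C1 → Sm := dd (dd h) + oo * h
noncomputable def R1 (u : Dt j C0 t ℓ C1 → Sm) : Dt j C0 t ℓ C1 → Sm := fo * dd u + dd (fo * u)

theorem Wk_rr (f h : Dt j C0 t ℓ C1 → Sm) (i : Dt j C0 t ℓ C1) (p : Fm) :
    Wk η f (dd (dd f)) h (dd (dd h)) i p
      = rr f i p.x * dv η h i p - f i p.x * dv η (rr h) i p
        + f i p.x * (dv η oo i p * h i p.x) := by
  simp only [Wk, rr, dv_add, dv_mul, Pi.add_apply, Pi.sub_apply, Pi.mul_apply, PX, px,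
    Sm.add_apply, Sm.mul_apply]
  ring

variable (h0 : 1 ≤ C0) (h1 : 1 ≤ C1)
include h1

theorem Sym.amp (H : Sym k n h A B) (hk : k ≤ 12) : Bj sc 1 k 0 (PX (cs * A + sn * B)) :=
  (((cs_bd h1).dn hk).mul (H.1.mono zero_le_one le_rfl le_rfl)).add
    (((sn_bd h1).dn hk).mul (H.2.1.mono zero_le_one le_rfl le_rfl))

theorem Sym.bd (H : Sym k n h A B) (hk : k ≤ 12) : Bj sc 1 k (n + 1) (PX h) :=
  ((H.2.2.up n.le_succ).add ((Bj.mp sc 1 k (n + 1)).mul (H.amp h1 hk))).of_eq fun _ _ =>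
    (sub_add_cancel _ _).symm

theorem Sym.val (H : Sym k n h A B) (hk : k ≤ 12) :
    Ld sc (n + 1) (PX h) (PX (cs * A + sn * B)) := Ld.of_ob (H.amp h1 hk).ob H.2.2.ob

theorem Sym.amp' (H : Sym (k + 1) n h A B) (E : Dr η π k) (hk : k + 1 ≤ 12) :
    Bj sc 1 k 0 (π * (PX cs * PX B - PX sn * PX A)) :=
  (E.hπ.mono zero_le_one le_rfl le_rfl).mul
    ((((cs_bd h1).dn (by omega)).mul (H.2.1.mono zero_le_one k.le_succ le_rfl)).sub
      (((sn_bd h1).dn (by omega)).mul (H.1.mono zero_le_one k.le_succ le_rfl)))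

theorem Sym.dv (H : Sym (k + 1) n h A B) (E : Dr η π k) (hk : k + 1 ≤ 12) :
    Bj sc 1 k (n + 1) fun i p =>
      dv η h i p - sc.M i ^ (n + 2) * (π i p * (cs i p.x * B i p.x - sn i p.x * A i p.x)) := by
  have hη : ∀ b, Bj sc 1 k 0 (η b) := fun b => (E.hη b).mono zero_le_one le_rfl le_rfl
  refine ((H.2.2.dv hη).add ((Bj.pw sc 1 k (n + 1)).mul
    ((((cs_bd h1).dn (by omega)).mul ((H.1.dv E.hη).mono zero_le_one le_rfl le_rfl)).add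
    (((sn_bd h1).dn (by omega)).mul ((H.2.1.dv E.hη).mono zero_le_one le_rfl le_rfl))))).congr
    (((H.bd h1 hk).dv hη).sub ((Bj.pw sc 1 k (n + 2)).mul (H.amp' h1 E hk))).mem fun i p hp => ?_
  simp only [dv_sub, dv_mul, dv_add, dv_mp, E.s i p hp, E.c i p hp, Pi.add_apply, Pi.mul_apply,
    PX, px, mp_apply]
  ring

theorem Sym.der (H : Sym (k + 1) n h A B) (E : Dr η π 0) (hk : k + 1 ≤ 12) :
    Ld sc (n + 2) (Brk.dv η h) (π * (PX cs * PX B - PX sn * PX A)) :=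
  Ld.of_ob ((H.dn (k' := 0 + 1) (by omega)).amp' h1 E (by omega)).ob
    ((H.dn (k' := 0 + 1) (by omega)).dv h1 E (by omega)).ob

omit h1 in
theorem sym_wv (hu : Bj sc 0 12 0 (PX u)) : Sym 12 0 (wv u) u 0 :=
  ⟨hu, Bj.num 0, (Bj.num 0).of_eq fun i p => by
    simp [PX, px, wv]⟩

include h0

theorem dr_d (hk : k ≤ 12) : Dr (eD : Fin 3 → Dt j C0 t ℓ C1 → Fm → ℝ) (PX fo) k := by
  refine ⟨fun b => ?_, (fo_bd h0 h1).dn hk, fun i p hp => ?_, fun i p hp => ?_⟩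
  · by_cases hb : b = 2
    · exact ((fa_bd h0).dn hk).of_eq fun _ _ => if_pos hb
    · exact (Bj.num 0).of_eq fun _ _ => if_neg hb
  · rw [dv_eD]
    show i.d.a p.x * D 2 i.d.sn p.x = i.m * (i.d.a p.x * i.d.w p.x) * i.d.cs p.x
    rw [(i.z.wave _ hp).2.2.2.1]
    ring
  · rw [dv_eD]
    show i.d.a p.x * D 2 i.d.cs p.x = -(i.m * (i.d.a p.x * i.d.w p.x) * i.d.sn p.x)
    rw [(i.z.wave _ hp).2.2.2.2]
    ring

theorem Sym.dd (H : Sym (k + 1) n h A B) (hk : k + 1 ≤ 12) :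
    Sym k (n + 1) (dd h) (fo * B) (-(fo * A)) := by
  have ho := (fo_bd (j := j) (t := t) (ℓ := ℓ) h0 h1).dn (k' := k) (by omega)
  refine ⟨ho.mul (H.2.1.dn k.le_succ), (ho.mul (H.1.dn k.le_succ)).neg,
    (H.dv h1 (dr_d h0 h1 (by omega)) hk).of_eq fun i p => ?_⟩
  simp only [dv_eD, Pi.add_apply, Pi.mul_apply, Pi.sub_apply, Pi.neg_apply, PX, px, mp_apply,
    Sm.add_apply, Sm.mul_apply, Sm.sub_apply, Sm.neg_apply]
  ring

theorem R1_bd (hu : Bj sc 0 12 0 (PX u)) : Bj sc 0 11 0 (PX (R1 u)) :=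
  (((fo_bd h0 h1).dn (by omega)).mul (hu.dd h0 (by omega))).add
    (Bj.dd h0 (φ := fo * u) ((fo_bd h0 h1).mul hu) (by omega))

theorem sym_rr (hu : Bj sc 0 12 0 (PX u)) : Sym 10 1 (rr (wv u)) 0 (-R1 u) := by
  refine ⟨Bj.num 0, ((R1_bd h0 h1 hu).dn (by omega)).neg, ((Bj.mp sc 1 10 1).mul
    (((cs_bd h1).dn (by omega)).mul (((hu.dd h0 (by omega)).dd h0 (by omega)).mono
      zero_le_one le_rfl le_rfl))).congr (fun _ => px_mem _) fun i p hp => ?_⟩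
  have e2 : ∀ x ∈ sc.U i, dd (wv u) i x
      = (mp sc 1 i * (cs i * dd u i) - mp sc 2 i * (sn i * (fo i * u i))) x := fun x hx => by
    have hw : D 2 (cs i) x = -(sc.M i * fw i x * sn i x) := (i.z.wave _ hx).2.2.2.2
    simp only [dd, wv, mp, fo, fa, Pi.mul_apply, D_mul, D_algebraMap, Sm.add_apply,
      Sm.mul_apply, Sm.sub_apply, Sm.zero_apply, Sm.algebraMap_apply, hw]
    ring
  have e3 := D_loc (sc.hU i) e2 2 _ hp
  have hw : D 2 (cs i) p.x = -(sc.M i * fw i p.x * sn i p.x) := (i.z.wave _ hp).2.2.2.2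
  have hs : D 2 (sn i) p.x = sc.M i * fw i p.x * cs i p.x := (i.z.wave _ hp).2.2.2.1
  have e4 : dd (dd (wv u)) i p.x = i.d.a p.x * D 2 (dd (wv u) i) p.x := rfl
  have e5 : dd (dd u) i p.x = i.d.a p.x * D 2 (dd u i) p.x := rfl
  have e6 : dd (fo * u) i p.x = i.d.a p.x * D 2 (fo i * u i) p.x := rfl
  have e7 : fo i p.x = i.d.a p.x * fw i p.x := rfl
  rw [map_sub, D_mul, D_mul, D_mul, D_mul 2 (sn i)] at e3
  simp only [mp, D_algebraMap, Sm.add_apply, Sm.mul_apply, Sm.sub_apply, Sm.zero_apply,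
    Sm.algebraMap_apply, hw, hs] at e3
  simp only [rr, R1, oo, wv, PX, px, mp_apply, Pi.add_apply, Pi.mul_apply, Pi.sub_apply,
    Pi.neg_apply, Pi.zero_apply, Sm.add_apply, Sm.mul_apply, Sm.sub_apply, Sm.neg_apply,
    Sm.zero_apply] at e3 e4 ⊢
  rw [e4, e3, e5, e6, e7]
  ring

theorem sym_rd (hu : Bj sc 0 12 0 (PX u)) :
    Sym 9 2 (rr (dd (wv u))) (-(fo * R1 u) - (dd fo * fo + fo * dd fo) * u) 0 := by
  have ho := (fo_bd (j := j) (t := t) (ℓ := ℓ) h0 h1).dn (k' := 9) (by omega)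
  have hd := ((fo_bd (j := j) (t := t) (ℓ := ℓ) h0 h1).dd h0 (by omega)).dn (k' := 9) (by omega)
  refine ⟨(ho.mul ((R1_bd h0 h1 hu).dn (by omega))).neg.sub
    (((hd.mul ho).add (ho.mul hd)).mul (hu.dn (by omega))), Bj.num 0,
    ((sym_rr h0 h1 hu).dd h0 h1 (by omega)).2.2.of_eq fun i p => ?_⟩
  have e : dd (rr (wv u)) i p.x = dd (dd (dd (wv u))) i p.x + (sc.M i ^ 2
      * (dd fo i p.x * fo i p.x + fo i p.x * dd fo i p.x) * wv u i p.x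
      + oo i p.x * dd (wv u) i p.x) := by
    rw [← dv_eD, rr, dv_add, dv_mul, oo, dv_mul, dv_mul, dv_mp, dv_eD, dv_eD, dv_eD, mp_apply]
    ring
  have e' : wv u i p.x = sc.M i ^ 1 * (cs i p.x * u i p.x) := rfl
  simp only [PX, px, mp_apply, Pi.add_apply, Pi.mul_apply, Pi.sub_apply,
    Pi.neg_apply, Pi.zero_apply, Sm.add_apply, Sm.mul_apply, Sm.sub_apply, Sm.neg_apply,
    Sm.zero_apply, e, e']
  simp only [rr, Pi.add_apply, Pi.mul_apply, Sm.add_apply, Sm.mul_apply]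
  ring

theorem ld_c1 (E : Dr η π 0) (hu : Bj sc 0 12 0 (PX u)) :
    Ld sc 4 (Wk η f1 (dd f1) (wv u) (dd (wv u))) (PX fo * PX be * PX u * π) := by
  refine (((((sym_wv be_bd).dd h0 h1 le_rfl).val h1 (by omega)).mul
    ((sym_wv hu).der h1 E le_rfl)).sub (((sym_wv be_bd).val h1 le_rfl).mul
    (((sym_wv hu).dd h0 h1 le_rfl).der h1 E (by omega)))).congr (fun _ _ _ => rfl)
    fun i p hp => ?_
  have hw : sn i p.x ^ 2 + cs i p.x ^ 2 = 1 := (i.z.wave _ hp).1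
  simp only [PX, px, Pi.add_apply, Pi.mul_apply, Pi.sub_apply, Pi.neg_apply, Pi.zero_apply,
    Sm.add_apply, Sm.mul_apply, Sm.neg_apply, Sm.zero_apply]
  linear_combination (-(fo i p.x * be i p.x * u i p.x * π i p)) * hw

theorem ld_oo : Ld sc 2 (PX (oo : Dt j C0 t ℓ C1 → Sm)) (1 * PX (fo * fo)) :=
  (Ld.pw sc 2).mul (Ld.self ((fo_bd h0 h1).mul (fo_bd h0 h1)).ob)

theorem ld_c2 (E : Dr η π 0) (hu : Bj sc 0 12 0 (PX u)) :
    Ld sc 6 (PX oo * Wk η f1 (dd (dd f1)) (wv u) (dd (dd (wv u)))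
      + Wk η (dd f1) (dd (dd (dd f1))) (dd (wv u)) (dd (dd (dd (wv u))))) fun i p =>
      2 * fo i p.x ^ 3 * be i p.x * (u i p.x * dv η fo i p + dd u i p.x * π i p)
      + (2 * fo i p.x ^ 3 * dd be i p.x + 4 * fo i p.x ^ 2 * dd fo i p.x * be i p.x)
        * u i p.x * π i p := by
  have ho := fo_bd (j := j) (t := t) (ℓ := ℓ) h0 h1
  have hd := ((ho.dn (k' := 0 + 1) (by omega)).dv E.hη).ob
  have hoo : Ld sc 2 (dv η oo) (1 * (dv η fo * PX fo + PX fo * dv η fo)) :=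
    ((Ld.pw sc 2).mul (Ld.self ((hd.mul ho.ob).add (ho.ob.mul hd)))).congr (fun i p _ => by
      rw [oo, dv_mul, dv_mul, dv_mp, zero_mul, zero_add]
      rfl) fun _ _ _ => rfl
  have b1 := sym_wv (j := j) (C0 := C0) (t := t) (ℓ := ℓ) (C1 := C1) be_bd
  have b2 := b1.dd h0 h1 le_rfl
  have u1 := sym_wv hu
  have u2 := u1.dd h0 h1 le_rfl
  refine (((ld_oo h0 h1).mul
    (((((sym_rr h0 h1 be_bd).val h1 (by omega)).mul (u1.der h1 E le_rfl)).sub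
      ((b1.val h1 le_rfl).mul ((sym_rr h0 h1 hu).der h1 E (by omega)))).add
      ((b1.val h1 le_rfl).mul (hoo.mul (u1.val h1 le_rfl))))).add
    (((((sym_rd h0 h1 be_bd).val h1 (by omega)).mul (u2.der h1 E (by omega))).sub
      ((b2.val h1 (by omega)).mul ((sym_rd h0 h1 hu).der h1 E (by omega)))).add
      ((b2.val h1 (by omega)).mul (hoo.mul (u2.val h1 (by omega)))))).congr
    (fun i p _ => ?_) fun i p hp => ?_
  · rw [Pi.add_apply, Pi.add_apply, Pi.mul_apply, Pi.mul_apply, Wk_rr, Wk_rr]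
    rfl
  · have hw : sn i p.x ^ 2 + cs i p.x ^ 2 = 1 := (i.z.wave _ hp).1
    simp only [R1, dd_mul, PX, px, Pi.add_apply, Pi.mul_apply, Pi.sub_apply, Pi.neg_apply,
      Pi.zero_apply, Pi.one_apply, Sm.add_apply, Sm.mul_apply, Sm.neg_apply, Sm.sub_apply,
      Sm.zero_apply]
    linear_combination (-(2 * fo i p.x ^ 3 * be i p.x * (u i p.x * dv η fo i p + dd u i p.x * π i p)
      + (2 * fo i p.x ^ 3 * dd be i p.x + 4 * fo i p.x ^ 2 * dd fo i p.x * be i p.x)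
        * u i p.x * π i p)) * hw

theorem ld_1 (E : Dr η π 0) (hl : Ob sc 0 lam) (hm : Ob sc 0 mu) :
    Ld sc 4 (PX fa * lam * Wk η f1 (dd f1) g1 (dd g1) + mu * Wk η f1 (dd f1) f1 (dd f1))
      fun i p => fo i p.x * be i p.x ^ 2 * (fw i p.x * lam i p + mu i p) * π i p := by
  refine (((Ld.self ((fa_bd h0).ob.mul hl)).mul (ld_c1 h0 h1 E (ug_bd h0 h1))).add
    ((Ld.self hm).mul (ld_c1 h0 h1 E be_bd))).congr (fun _ _ _ => rfl) fun i p _ => ?_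
  have ha : ai i p.x * fa i p.x = 1 := ai_mul h0 i p.x
  simp only [PX, px, Pi.add_apply, Pi.mul_apply, Sm.mul_apply]
  linear_combination (-(fo i p.x * be i p.x ^ 2 * fw i p.x * lam i p * π i p)) * ha

omit h1 in
theorem ai_dd (i : Dt j C0 t ℓ C1) (x : S2) : dd ai i x = -(ai i x * D 2 i.d.a x) := by
  have e : ai i * i.d.a = 1 := Sm.ext (ai_mul h0 i)
  have e2 := congrArg (fun φ => D 2 φ x) e
  simp only [D_mul, D_one, Sm.add_apply, Sm.mul_apply, Sm.zero_apply] at e2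
  rw [dd, Sm.mul_apply]
  linear_combination e2

theorem ld_2 (E : Dr η π 0) (hl : Ob sc 0 lam) (hm : Ob sc 0 mu) :
    Ld sc 6 (PX oo * (PX fa * lam * Wk η f1 (dd (dd f1)) g1 (dd (dd g1))
        + mu * Wk η f1 (dd (dd f1)) f1 (dd (dd f1)))
      + (PX fa * lam * Wk η (dd f1) (dd (dd (dd f1))) (dd g1) (dd (dd (dd g1)))
        + mu * Wk η (dd f1) (dd (dd (dd f1))) (dd f1) (dd (dd (dd f1))))) fun i p =>
      2 * fo i p.x ^ 3 * be i p.x ^ 2 * ((fw i p.x * lam i p + mu i p) * dv η fo i p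
        + (i.d.a p.x * D 2 i.d.w p.x - i.d.w p.x * D 2 i.d.a p.x) * lam i p * π i p)
      + (2 * fo i p.x ^ 3 * dd be i p.x + 2 * fo i p.x ^ 2 * dd fo i p.x * be i p.x)
        * (2 * be i p.x * (fw i p.x * lam i p + mu i p) * π i p) := by
  refine (((Ld.self ((fa_bd h0).ob.mul hl)).mul (ld_c2 h0 h1 E (ug_bd h0 h1))).add
    ((Ld.self hm).mul (ld_c2 h0 h1 E be_bd))).congr (fun i p _ => ?_) fun i p _ => ?_
  · simp only [f1, g1, Pi.add_apply, Pi.mul_apply]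
    ring
  · have ha : ai i p.x * i.d.a p.x = 1 := ai_mul h0 i p.x
    have hw : dd fw i p.x = i.d.a p.x * D 2 i.d.w p.x := rfl
    have e1 : fw i p.x = i.d.w p.x := rfl
    have e2 : fa i p.x = i.d.a p.x := rfl
    simp only [PX, px, Pi.add_apply, Pi.mul_apply, Sm.mul_apply, dd_mul, ai_dd h0, hw, e1, e2]
    linear_combination (-(lam i p * (2 * fo i p.x ^ 3 * be i p.x * (be i p.x * i.d.w p.x
      * dv η fo i p + (dd be i p.x * i.d.w p.x + be i p.x * (i.d.a p.x * D 2 i.d.w p.x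
      - i.d.w p.x * D 2 i.d.a p.x)) * π i p) + (2 * fo i p.x ^ 3 * dd be i p.x
      + 4 * fo i p.x ^ 2 * dd fo i p.x * be i p.x) * be i p.x * i.d.w p.x * π i p))) * ha

omit h1 in
theorem dv_xi (φ : Dt j C0 t ℓ C1 → Sm) (i : Dt j C0 t ℓ C1) {p : Fm} (hp : p.x ∈ sc.U i) :
    dv eXi φ i p = be i p.x * (D 2 (φ i) p.x * (p.xi : E3) 2 + L 2 (φ i) p.x * p.om 2) := by
  rw [← qq_dxi, ← mul_assoc, be_mul h0 i hp, one_mul]
  rfl

omit h1 in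
theorem dv_om (φ : Dt j C0 t ℓ C1 → Sm) (i : Dt j C0 t ℓ C1) {p : Fm} (hp : p.x ∈ sc.U i) :
    dv eOm φ i p = be i p.x * (D 2 (φ i) p.x * p.om 2 - L 2 (φ i) p.x * (p.xi : E3) 2) := by
  rw [← qq_dom, ← mul_assoc, be_mul h0 i hp, one_mul]
  rfl

theorem dr_xi : Dr (eXi : Fin 3 → Dt j C0 t ℓ C1 → Fm → ℝ)
    (fun i p => be i p.x * (fw i p.x * (p.xi : E3) 2 + p.om 2)) 0 := by
  refine ⟨Bj.xi, (be_bd.dn (by omega)).mul ((((fw_bd h1).dn (by omega)).mul (Bj.xi 2)).add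
    (Bj.om 2)), fun i p hp => ?_, fun i p hp => ?_⟩
  · obtain ⟨-, a, -, b, -⟩ := i.z.wave _ hp
    rw [dv_xi h0 _ i hp]
    simp only [sn, cs, fw, sc, a, b]
    ring
  · obtain ⟨-, -, a, -, b⟩ := i.z.wave _ hp
    rw [dv_xi h0 _ i hp]
    simp only [sn, cs, fw, sc, a, b]
    ring

theorem dr_om : Dr (eOm : Fin 3 → Dt j C0 t ℓ C1 → Fm → ℝ)
    (fun i p => be i p.x * (fw i p.x * p.om 2 - (p.xi : E3) 2)) 0 := by
  refine ⟨Bj.om, (be_bd.dn (by omega)).mul ((((fw_bd h1).dn (by omega)).mul (Bj.om 2)).sub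
    (Bj.xi 2)), fun i p hp => ?_, fun i p hp => ?_⟩
  · obtain ⟨-, a, -, b, -⟩ := i.z.wave _ hp
    rw [dv_om h0 _ i hp]
    simp only [sn, cs, fw, sc, a, b]
    ring
  · obtain ⟨-, -, a, -, b⟩ := i.z.wave _ hp
    rw [dv_om h0 _ i hp]
    simp only [sn, cs, fw, sc, a, b]
    ring

theorem ld_Th : Ld sc 10 (Th : Dt j C0 t ℓ C1 → Fm → ℝ) fun i p =>
    2 * fo i p.x ^ 4 * be i p.x ^ 5 * ((3 - 4 * j) * D 2 (fo i) p.x
      * (fw i p.x * (p.xi : E3) 2 + p.om 2) ^ 2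
      + (i.d.a p.x * D 2 i.d.w p.x - i.d.w p.x * D 2 i.d.a p.x)
        * (fw i p.x * p.om 2 - (p.xi : E3) 2) ^ 2) := by
  have hx : Ob (sc (j := j) (C0 := C0) (t := t) (ℓ := ℓ) (C1 := C1)) 0 (eXi 2) :=
    (Bj.xi (e := 0) (k := 0) 2).ob
  have hy : Ob (sc (j := j) (C0 := C0) (t := t) (ℓ := ℓ) (C1 := C1)) 0 (eOm 2) :=
    (Bj.om (e := 0) (k := 0) 2).ob
  have a1 := ld_1 h0 h1 (dr_om h0 h1) hx hy
  have b1 := ld_1 h0 h1 (dr_xi h0 h1) hx hy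
  have c1 := (ld_1 h0 h1 (dr_om h0 h1) hy hx.neg).sub b1
  have a2 := ld_2 h0 h1 (dr_om h0 h1) hx hy
  have b2 := ld_2 h0 h1 (dr_xi h0 h1) hx hy
  have c2 := (ld_2 h0 h1 (dr_om h0 h1) hy hx.neg).sub b2
  refine (((a1.mul c2).sub (a2.mul c1)).add ((Ld.self (Bj.num (e := 0) (k := 0)
    (2 - 4 * j : ℝ)).ob).mul ((b1.mul a2).sub (b2.mul a1)))).congr (fun i p _ => ?_)
    fun i p hp => ?_
  · simp only [Th, A1, A2, J1, J2, VA, VC, Pi.add_apply, Pi.mul_apply, Pi.sub_apply, Pi.neg_apply]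
    ring
  · have hz : L 2 (fo i) = 0 := (i.z.a_zon.mul i.z.w_zon).L2
    have hq := be_mul h0 i hp
    rw [← xi_om_sq] at hq
    have e1 : eXi 2 i p = (p.xi : E3) 2 := rfl
    have e2 : eOm 2 i p = p.om 2 := rfl
    simp only [Pi.add_apply, Pi.mul_apply, Pi.sub_apply, Pi.neg_apply, dv_xi h0 _ i hp,
      dv_om h0 _ i hp, hz, e1, e2, Sm.zero_apply]
    linear_combination (-(2 * fo i p.x ^ 4 * be i p.x ^ 5 * ((3 - 4 * j) * D 2 (fo i) p.x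
      * (fw i p.x * (p.xi : E3) 2 + p.om 2) ^ 2
      + (i.d.a p.x * D 2 i.d.w p.x - i.d.w p.x * D 2 i.d.a p.x)
        * (fw i p.x * p.om 2 - (p.xi : E3) 2) ^ 2))) * hq

/-- the curvature is negative -/
theorem Th_le (hj : 1 ≤ j) : ∃ c C : ℝ, 0 < c ∧ 0 ≤ C ∧ ∀ (i : Dt j C0 t ℓ C1) (p : Fm),
    p.x ∈ sc.U i → Th i p ≤ -c * (i.m : ℝ) ^ 10 + C * (i.m : ℝ) ^ 9 := by
  obtain ⟨-, C, hC, H⟩ := ld_Th (j := j) (t := t) (ℓ := ℓ) h0 h1
  refine ⟨2 * (C0⁻¹ * C1⁻¹) ^ 4 * C1⁻¹, C, by positivity, hC, fun i p hp => ?_⟩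
  have hM : (0 : ℝ) < i.m := sc.pos i
  have H1 := (le_abs_self _).trans (H i p hp)
  obtain ⟨m1, -, m2, m3⟩ := i.z.mono _ hp
  have hq := be_mul h0 i hp
  have hq1 : qq p.x ≤ 1 := by
    rw [qq, Sm.sub_apply, Sm.mul_apply, Sm.one_apply]
    linarith [mul_self_nonneg (X 2 p.x)]
  have hxy := xi_om_sq p
  have hq0 : 0 ≤ qq p.x := by
    rw [← hxy]
    positivity
  have hb0 : 0 ≤ be i p.x := by
    by_contra hc
    nlinarith [mul_nonneg (neg_nonneg.2 (not_le.1 hc).le) hq0]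
  have hb : 1 ≤ be i p.x := by nlinarith
  have ho : C0⁻¹ * C1⁻¹ ≤ fo i p.x :=
    mul_le_mul (i.z.a_ge _) m1 (by positivity) ((by positivity : (0 : ℝ) ≤ C0⁻¹).trans (i.z.a_ge _))
  have hj' : (3 - 4 * j : ℝ) ≤ -1 := by
    have : (1 : ℝ) ≤ j := by exact_mod_cast hj
    linarith
  have hc : (0 : ℝ) < C1⁻¹ := by positivity
  have m2' : C1⁻¹ ≤ D 2 (fo i) p.x := m2
  have k1 : (3 - 4 * j) * D 2 (fo i) p.x ≤ -C1⁻¹ := by nlinarith
  have k2 := add_le_add (mul_le_mul_of_nonneg_right k1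
    (sq_nonneg (fw i p.x * (p.xi : E3) 2 + p.om 2)))
    (mul_le_mul_of_nonneg_right m3 (sq_nonneg (fw i p.x * p.om 2 - (p.xi : E3) 2)))
  have k3 : -C1⁻¹ * (fw i p.x * (p.xi : E3) 2 + p.om 2) ^ 2
      + -C1⁻¹ * (fw i p.x * p.om 2 - (p.xi : E3) 2) ^ 2 ≤ -(C1⁻¹ * qq p.x) := by
    rw [← hxy]
    nlinarith [mul_nonneg hc.le (mul_nonneg (sq_nonneg (fw i p.x))
      (add_nonneg (sq_nonneg ((p.xi : E3) 2)) (sq_nonneg (p.om 2))))]
  have k4 := mul_le_mul_of_nonneg_left (k2.trans k3)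
    (show 0 ≤ 2 * fo i p.x ^ 4 * be i p.x ^ 5 by positivity)
  have k5 : 2 * fo i p.x ^ 4 * be i p.x ^ 5 * -(C1⁻¹ * qq p.x)
      ≤ -(2 * (C0⁻¹ * C1⁻¹) ^ 4 * C1⁻¹) := by
    have e : 2 * fo i p.x ^ 4 * be i p.x ^ 5 * -(C1⁻¹ * qq p.x)
        = -(2 * (fo i p.x ^ 4 * be i p.x ^ 4) * C1⁻¹) := by
      linear_combination (-(2 * fo i p.x ^ 4 * be i p.x ^ 4 * C1⁻¹)) * hq
    rw [e, neg_le_neg_iff]
    gcongr
    exact (pow_le_pow_left₀ (by positivity) ho 4).trans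
      (le_mul_of_one_le_right (by positivity) (one_le_pow₀ hb))
  have k6 := mul_le_mul_of_nonneg_left (k4.trans k5) (pow_pos hM 10).le
  have e : sc.M i = i.m := rfl
  beta_reduce at H1
  rw [e] at H1
  refine le_of_mul_le_mul_left ?_ hM
  have k7 := mul_le_mul_of_nonneg_left k6 hM.le
  linarith

end Pool.Agent.Lib.MP_2fa2a2_gt.PI.Brk
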