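import Pool.Agent.Lib.MP_2fa2a2_gt.PI.Fm

/-! Transport operators of general vector fields on the bundle of directions. -/

namespace Pool.Agent.Lib.MP_2fa2a2_gt.PI

/-- rotation of the direction about the base point -/
noncomputable def JJ (a : Fm → ℝ) : Fm → ℝ := fun p => ∑ c, (p.x : E3) c * LL c a p
/-- derivative of `φ` in the direction `ξ` -/
noncomputable def dxi (φ : Sm) : Fm → ℝ := fun p => ∑ b, D b φ p.x * (p.xi : E3) b
/-- derivative of `φ` in the direction `ω` -/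
noncomputable def dom (φ : Sm) : Fm → ℝ := fun p => ∑ b, D b φ p.x * p.om b
/-- the vector field `∑ v c * L c` acting on functions -/
noncomputable def vd (v : Fin 3 → Sm) (φ : Sm) : Sm := ∑ c, v c * L c φ
/-- its symbol -/
noncomputable def ell (v : Fin 3 → Sm) : Fm → ℝ := fun p => ∑ c, v c p.x * p.om c
/-- bracket of vector fields -/
noncomputable def br (v v' : Fin 3 → Sm) : Fin 3 → Sm := fun c =>
  ∑ d, (v d * L d (v' c) - v' d * L d (v c)) + ∑ d, ∑ e, ev d e c • (v d * v' e)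
/-- transport operator on symbols that are homogeneous of degree `σ` -/
noncomputable def PV (σ : ℝ) (v : Fin 3 → Sm) (a : Fm → ℝ) : Fm → ℝ := fun p =>
  ∑ c, (v c p.x * LL c a p - p.om c * dom (v c) p * JJ a p - σ * p.om c * dxi (v c) p * a p
    + L c (v c) p.x * a p)

/-- the components of the cross product as functions -/
def vfO (c : Fin 3) : Fm → ℝ := fun p => p.om c
/-- the horizontal part of the transport operator -/
noncomputable def vfV (v : Fin 3 → Sm) (a : Fm → ℝ) : Fm → ℝ := ∑ c, px (v c) * LL c a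
/-- the coefficient of the vertical part -/
noncomputable def vfA (v : Fin 3 → Sm) : Fm → ℝ := ∑ c, vfO c * dom (v c)
/-- the stretching rate -/
noncomputable def vfB (v : Fin 3 → Sm) : Fm → ℝ := ∑ c, vfO c * dxi (v c)
/-- the divergence -/
noncomputable def vfd (v : Fin 3 → Sm) : Sm := ∑ c, L c (v c)

theorem vf_O_mem (c : Fin 3) : vfO c ∈ Sy := om_mem c
theorem vf_px_sub (φ ψ : Sm) : px (φ - ψ) = px φ - px ψ := rfl
theorem vf_JJ (a : Fm → ℝ) : JJ a = vfV X a := by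
  funext p
  simp only [JJ, vfV, Finset.sum_apply, Pi.mul_apply, px, X_apply]
theorem vf_dxi (φ : Sm) : dxi φ = ∑ b, px (D b φ) * pi' (X b) := by
  funext p
  simp only [dxi, Finset.sum_apply, Pi.mul_apply, px, pi', X_apply]
theorem vf_dom (φ : Sm) : dom φ = ∑ b, px (D b φ) * vfO b := by
  funext p
  simp only [dom, Finset.sum_apply, Pi.mul_apply, px, vfO]
theorem vf_ell (v : Fin 3 → Sm) : ell v = ∑ b, px (v b) * vfO b := by
  funext p
  simp only [ell, Finset.sum_apply, Pi.mul_apply, px, vfO]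
theorem vf_PV (σ : ℝ) (v : Fin 3 → Sm) (a : Fm → ℝ) :
    PV σ v a = vfV v a - vfA v * JJ a - σ • (vfB v * a) + px (vfd v) * a := by
  funext p
  simp only [PV, vfV, vfA, vfB, vfd, vfO, px, Fin.sum_univ_three, Pi.add_apply, Pi.sub_apply,
    Pi.mul_apply, Pi.smul_apply, smul_eq_mul, Sm.add_apply]
  ring
theorem vf_V_mem (v : Fin 3 → Sm) {a : Fm → ℝ} (ha : a ∈ Sy) : vfV v a ∈ Sy :=
  Sy.sum_mem fun c _ => Sy.mul_mem (px_mem _) (LL_mem c ha)
theorem vf_V_add (v : Fin 3 → Sm) {a b : Fm → ℝ} (ha : a ∈ Sy) (hb : b ∈ Sy) :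
    vfV v (a + b) = vfV v a + vfV v b := by
  simp only [vfV, LL_add _ ha hb, mul_add, Finset.sum_add_distrib]
theorem vf_V_sub (v : Fin 3 → Sm) {a b : Fm → ℝ} (ha : a ∈ Sy) (hb : b ∈ Sy) :
    vfV v (a - b) = vfV v a - vfV v b := by
  simp only [vfV, LL_sub _ ha hb, mul_sub, Finset.sum_sub_distrib]
theorem vf_V_smul (v : Fin 3 → Sm) (r : ℝ) (a : Fm → ℝ) : vfV v (r • a) = r • vfV v a := by
  simp only [vfV, LL_smul, mul_smul_comm, Finset.smul_sum]
theorem vf_V_mul (v : Fin 3 → Sm) {a b : Fm → ℝ} (ha : a ∈ Sy) (hb : b ∈ Sy) :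
    vfV v (a * b) = vfV v a * b + a * vfV v b := by
  simp only [vfV, LL_mul _ ha hb, Fin.sum_univ_three]
  ring
theorem vf_V_three (v : Fin 3 → Sm) {a b : Fin 3 → Fm → ℝ} (ha : ∀ c, a c ∈ Sy)
    (hb : ∀ c, b c ∈ Sy) :
    vfV v (∑ c, a c * b c) = ∑ c, (vfV v (a c) * b c + a c * vfV v (b c)) := by
  have h := fun c => Sy.mul_mem (ha c) (hb c)
  rw [Fin.sum_univ_three, vf_V_add v (Sy.add_mem (h 0) (h 1)) (h 2), vf_V_add v (h 0) (h 1),
    Fin.sum_univ_three, vf_V_mul v (ha 0) (hb 0), vf_V_mul v (ha 1) (hb 1),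
    vf_V_mul v (ha 2) (hb 2)]
theorem vf_V_px (v : Fin 3 → Sm) (φ : Sm) : vfV v (px φ) = px (vd v φ) := by
  simp only [vfV, vd, LL_px, Fin.sum_univ_three, px_add, px_mul]
theorem vf_V_br (v v' : Fin 3 → Sm) {a : Fm → ℝ} (ha : a ∈ Sy) :
    vfV v (vfV v' a) - vfV v' (vfV v a) = vfV (br v v') a := by
  have h : ∀ w w' : Fin 3 → Sm, vfV w (vfV w' a)
      = ∑ c, (px (vd w (w' c)) * LL c a + px (w' c) * vfV w (LL c a)) := fun w w' => by
    rw [vfV.eq_1 w', vf_V_three w (fun c => px_mem _) (fun c => LL_mem c ha)]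
    simp only [vf_V_px]
  rw [h, h]
  have h1 := LL_LL 1 0 ha
  have h2 := LL_LL 2 0 ha
  have h3 := LL_LL 2 1 ha
  funext p
  simp only [vfV, br, vd, Fin.sum_univ_three, h1, h2, h3, px, Pi.add_apply, Pi.sub_apply,
    Pi.mul_apply, Pi.smul_apply, smul_eq_mul, Sm.add_apply, Sm.sub_apply, Sm.mul_apply,
    Sm.smul_apply]
  simp [ev]
  ring
theorem vf_vd_X (φ : Sm) : vd X φ = 0 := sum_X_L φ
theorem vf_br_X (v : Fin 3 → Sm) : br v X = 0 := by
  funext c
  have h := alg_r (v c)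
  rcases alg_fin c with rfl | rfl | rfl <;>
    simp [br, ev, Fin.sum_univ_three, alg_01, alg_02, alg_12, alg_10, alg_20, alg_21] <;>
    linear_combination -h
theorem vf_V_JJ (v : Fin 3 → Sm) {a : Fm → ℝ} (ha : a ∈ Sy) : JJ (vfV v a) = vfV v (JJ a) := by
  have h := vf_V_br v X ha
  rw [vf_br_X] at h
  have e : vfV 0 a = 0 := by
    funext p
    simp [vfV, px]
  rw [vf_JJ, vf_JJ]
  linear_combination -e - h

theorem JJ_mem {a : Fm → ℝ} (ha : a ∈ Sy) : JJ a ∈ Sy := vf_JJ a ▸ vf_V_mem X ha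
theorem dxi_mem (φ : Sm) : dxi φ ∈ Sy := vf_dxi φ ▸ Sy.sum_mem fun _ _ => fm_mul_mem _ _
theorem dom_mem (φ : Sm) : dom φ ∈ Sy :=
  vf_dom φ ▸ Sy.sum_mem fun _ _ => Sy.mul_mem (px_mem _) (vf_O_mem _)
theorem ell_mem (v : Fin 3 → Sm) : ell v ∈ Sy :=
  vf_ell v ▸ Sy.sum_mem fun _ _ => Sy.mul_mem (px_mem _) (vf_O_mem _)
theorem vf_A_mem (v : Fin 3 → Sm) : vfA v ∈ Sy :=
  Sy.sum_mem fun _ _ => Sy.mul_mem (vf_O_mem _) (dom_mem _)
theorem vf_B_mem (v : Fin 3 → Sm) : vfB v ∈ Sy :=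
  Sy.sum_mem fun _ _ => Sy.mul_mem (vf_O_mem _) (dxi_mem _)
theorem PV_mem (σ : ℝ) (v : Fin 3 → Sm) {a : Fm → ℝ} (ha : a ∈ Sy) : PV σ v a ∈ Sy :=
  vf_PV σ v a ▸ Sy.add_mem (Sy.sub_mem (Sy.sub_mem (vf_V_mem v ha)
    (Sy.mul_mem (vf_A_mem v) (JJ_mem ha))) (Sy.smul_mem (Sy.mul_mem (vf_B_mem v) ha) σ))
    (Sy.mul_mem (px_mem _) ha)
theorem JJ_px (φ : Sm) : JJ (px φ) = 0 := by
  rw [vf_JJ, vf_V_px, vf_vd_X]
  rfl
theorem JJ_xi (a : Fin 3) : JJ (pi' (X a)) = fun p => p.om a := by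
  funext p
  simp only [JJ, LL_pi', pi', Fin.sum_univ_three]
  rcases alg_fin a with rfl | rfl | rfl <;>
    simp only [L_X_self, alg_01, alg_02, alg_12, alg_10, alg_20, alg_21, Sm.neg_apply,
      Sm.zero_apply, X_apply, fm_om0, fm_om1, fm_om2] <;> ring
theorem JJ_om (a : Fin 3) : JJ (fun p => p.om a) = -pi' (X a) := by
  funext p
  have h := fm_xi p
  have k := fm_xx p
  simp only [JJ, LL_om, pi', Fin.sum_univ_three, Pi.neg_apply, X_apply]
  rcases alg_fin a with rfl | rfl | rfl <;> simp [ev] <;> simp only [fm_om0, fm_om1, fm_om2]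
  · linear_combination (p.x : E3) 0 * h - (p.xi : E3) 0 * k
  · linear_combination (p.x : E3) 1 * h - (p.xi : E3) 1 * k
  · linear_combination (p.x : E3) 2 * h - (p.xi : E3) 2 * k
theorem vf_JJ_three (φ : Fin 3 → Sm) {b : Fin 3 → Fm → ℝ} (hb : ∀ c, b c ∈ Sy) :
    JJ (∑ c, px (φ c) * b c) = ∑ c, px (φ c) * JJ (b c) := by
  rw [vf_JJ, vf_V_three X (fun c => px_mem _) hb]
  simp only [← vf_JJ, JJ_px, zero_mul, zero_add]
theorem vf_JJ_xi (a : Fin 3) : JJ (pi' (X a)) = vfO a := JJ_xi a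
theorem vf_JJ_O (a : Fin 3) : JJ (vfO a) = -pi' (X a) := JJ_om a
theorem JJ_dxi (φ : Sm) : JJ (dxi φ) = dom φ := by
  rw [vf_dxi, vf_dom, vf_JJ_three _ fun c => pi'_mem _]
  simp only [vf_JJ_xi]
theorem JJ_dom (φ : Sm) : JJ (dom φ) = -dxi φ := by
  rw [vf_dxi, vf_dom, vf_JJ_three _ vf_O_mem]
  simp only [vf_JJ_O, mul_neg, Finset.sum_neg_distrib]
theorem vf_JJ_ell (v : Fin 3 → Sm) : JJ (ell v) = -∑ c, px (v c) * pi' (X c) := by
  rw [vf_ell, vf_JJ_three _ vf_O_mem]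
  simp only [vf_JJ_O, mul_neg, Finset.sum_neg_distrib]
theorem JJ_ell (v : Fin 3 → Sm) :
    JJ (ell v) = fun p => ∑ b, vd v (X b) p.x * p.om b := by
  rw [vf_JJ_ell]
  funext p
  simp only [vd, Fin.sum_univ_three, L_X_self, alg_01, alg_02, alg_12, alg_10, alg_20, alg_21,
    Sm.neg_apply, Sm.zero_apply, X_apply, fm_om0, fm_om1, fm_om2, Pi.neg_apply, Pi.add_apply,
    Pi.mul_apply, px, pi', Sm.add_apply, Sm.mul_apply]
  linear_combination (v 0 p.x * (p.xi : E3) 0 + v 1 p.x * (p.xi : E3) 1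
    + v 2 p.x * (p.xi : E3) 2) * fm_xx p - (v 0 p.x * (p.x : E3) 0 + v 1 p.x * (p.x : E3) 1
    + v 2 p.x * (p.x : E3) 2) * fm_xi p
theorem JJ_add {a b : Fm → ℝ} (ha : a ∈ Sy) (hb : b ∈ Sy) : JJ (a + b) = JJ a + JJ b := by
  simp only [vf_JJ, vf_V_add X ha hb]
theorem JJ_sub {a b : Fm → ℝ} (ha : a ∈ Sy) (hb : b ∈ Sy) : JJ (a - b) = JJ a - JJ b := by
  simp only [vf_JJ, vf_V_sub X ha hb]
theorem JJ_mul {a b : Fm → ℝ} (ha : a ∈ Sy) (hb : b ∈ Sy) :
    JJ (a * b) = JJ a * b + a * JJ b := by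
  simp only [vf_JJ, vf_V_mul X ha hb]
theorem vf_JJ_smul (r : ℝ) (a : Fm → ℝ) : JJ (r • a) = r • JJ a := by
  simp only [vf_JJ, vf_V_smul]
theorem ell_eq (v : Fin 3 → Sm) (p : Fm) :
    ell v p = ∑ b, vd v (X b) p.x * (p.xi : E3) b := by
  simp only [ell, vd, Fin.sum_univ_three, L_X_self, alg_01, alg_02, alg_12, alg_10, alg_20,
    alg_21, Sm.neg_apply, Sm.zero_apply, X_apply, fm_om0, fm_om1, fm_om2, Sm.add_apply,
    Sm.mul_apply]
  ring
/-- tangential derivatives in the frame -/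
theorem vf_D (φ : Sm) (p : Fm) (c : Fin 3) :
    D c φ p.x = (p.xi : E3) c * dxi φ p + p.om c * dom φ p := by
  have h0 := congrArg (fun ψ : Sm => ψ p.x) (sum_X_D φ)
  simp only [Fin.sum_univ_three, Sm.add_apply, Sm.mul_apply, X_apply, Sm.zero_apply] at h0
  have k0 := fm_frame p c 0
  have k1 := fm_frame p c 1
  have k2 := fm_frame p c 2
  simp only [dxi, dom, Fin.sum_univ_three]
  rcases alg_fin c with rfl | rfl | rfl <;>
    simp only [if_true, Fin.reduceEq, if_false] at k0 k1 k2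
  · linear_combination (p.x : E3) 0 * h0 - D 0 φ p.x * k0 - D 1 φ p.x * k1 - D 2 φ p.x * k2
  · linear_combination (p.x : E3) 1 * h0 - D 0 φ p.x * k0 - D 1 φ p.x * k1 - D 2 φ p.x * k2
  · linear_combination (p.x : E3) 2 * h0 - D 0 φ p.x * k0 - D 1 φ p.x * k1 - D 2 φ p.x * k2
/-- rotational derivatives in the frame -/
theorem vf_L (φ : Sm) (p : Fm) (c : Fin 3) :
    L c φ p.x = p.om c * dxi φ p - (p.xi : E3) c * dom φ p := by
  have h := fm_xi p
  have k := fm_xx p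
  rcases alg_fin c with rfl | rfl | rfl <;>
    simp only [fm_L0, fm_L1, fm_L2, vf_D φ p, fm_om0, fm_om1, fm_om2]
  · linear_combination dom φ p * ((p.x : E3) 0 * h - (p.xi : E3) 0 * k)
  · linear_combination dom φ p * ((p.x : E3) 1 * h - (p.xi : E3) 1 * k)
  · linear_combination dom φ p * ((p.x : E3) 2 * h - (p.xi : E3) 2 * k)
theorem vf_oo (p : Fm) : p.om 0 * p.om 0 + p.om 1 * p.om 1 + p.om 2 * p.om 2 = 1 := by
  have k0 := fm_frame p 0 0
  have k1 := fm_frame p 1 1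
  have k2 := fm_frame p 2 2
  simp only [if_true] at k0 k1 k2
  linear_combination k0 + k1 + k2 - fm_xx p - fm_ii p
theorem vf_xo (p : Fm) :
    (p.x : E3) 0 * p.om 0 + (p.x : E3) 1 * p.om 1 + (p.x : E3) 2 * p.om 2 = 0 := by
  simp only [fm_om0, fm_om1, fm_om2]
  ring
theorem vf_io (p : Fm) :
    (p.xi : E3) 0 * p.om 0 + (p.xi : E3) 1 * p.om 1 + (p.xi : E3) 2 * p.om 2 = 0 := by
  simp only [fm_om0, fm_om1, fm_om2]
  ring
theorem vf_B_grad (u : Sm) : vfB (fun c => L c u) = Sxx u := by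
  funext p
  rw [← sum_LL_om, Finset.sum_comm]
  simp only [← Finset.sum_mul, fm_om_L]
  simp only [vfB, vfO, dxi, Fin.sum_univ_three, Pi.add_apply, Pi.mul_apply]
  ring
theorem vf_JJ_Sxx (u : Sm) : JJ (Sxx u) = 2 * Sxw u := by
  have e : Sxx u = ∑ a, pi' (X a) * ∑ b, px (H a b u) * pi' (X b) - px u := by
    funext p
    simp only [Sxx, Pi.sub_apply, Pi.add_apply, Pi.mul_apply, Fin.sum_univ_three, px, pi', X_apply]
    ring
  have h : ∀ a, ∑ b, px (H a b u) * pi' (X b) ∈ Sy := fun a =>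
    Sy.sum_mem fun _ _ => fm_mul_mem _ _
  rw [e, JJ_sub (Sy.sum_mem fun a _ => Sy.mul_mem (pi'_mem _) (h a)) (px_mem _), JJ_px, vf_JJ,
    vf_V_three X (fun c => pi'_mem _) h]
  simp only [← vf_JJ, vf_JJ_three _ fun c => pi'_mem (X c), vf_JJ_xi]
  funext p
  simp only [Sxw, Pi.sub_apply, Pi.add_apply, Pi.mul_apply, Fin.sum_univ_three, px, pi', X_apply,
    vfO, H_symm 1 0, H_symm 2 0, H_symm 2 1, Pi.ofNat_apply]
  ring
theorem vf_A_grad (u : Sm) : vfA (fun c => L c u) = Sxw u := by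
  have h := vf_JJ_Sxx u
  rw [← vf_B_grad, vfB, vf_JJ, vf_V_three X vf_O_mem fun c => dxi_mem _] at h
  simp only [← vf_JJ, vf_JJ_O, JJ_dxi] at h
  have k : D 0 (L 0 u) + D 1 (L 1 u) + D 2 (L 2 u) = 0 := by
    rw [alg_D0, alg_D1, alg_D2, alg_c10, alg_c21, alg_c20]
    linear_combination alg_r u
  funext p
  have h1 := congrFun h p
  have k1 := congrArg (fun ψ : Sm => ψ p.x) k
  simp only [Sm.add_apply, Sm.zero_apply, vf_D _ p] at k1
  simp only [Fin.sum_univ_three, Pi.add_apply, Pi.mul_apply, Pi.neg_apply, pi', X_apply, vfO,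
    Pi.ofNat_apply] at h1
  simp only [vfA, Fin.sum_univ_three, Pi.add_apply, Pi.mul_apply, vfO]
  linear_combination (h1 + k1) / 2
theorem PV_grad (j : ℕ) (u : Sm) (a : Fm → ℝ) :
    PV (2 - 4 * j) (fun c => L c u) a = PP j u a := by
  rw [vf_PV, vf_A_grad, vf_B_grad]
  funext p
  simp only [PP, Xl, JJ, vfV, vfd, lap_def, px, Fin.sum_univ_three, Pi.add_apply, Pi.sub_apply,
    Pi.mul_apply, Pi.smul_apply, smul_eq_mul]
  ring
theorem vd_grad (u φ : Sm) : vd (fun c => L c u) φ = gd u φ := rfl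
theorem vd_br (v v' : Fin 3 → Sm) (φ : Sm) :
    vd (br v v') φ = vd v (vd v' φ) - vd v' (vd v φ) := by
  simp only [vd, br, Fin.sum_univ_three, map_add, L_mul, alg_c10, alg_c21, alg_c20]
  simp [ev]
  ring
theorem vf_vd_sub (v : Fin 3 → Sm) (φ ψ : Sm) : vd v (φ - ψ) = vd v φ - vd v ψ := by
  simp only [vd, map_sub, mul_sub, Finset.sum_sub_distrib]
theorem vf_d_br (v v' : Fin 3 → Sm) : vfd (br v v') = vd v (vfd v') - vd v' (vfd v) := by
  simp only [vd, vfd, br, Fin.sum_univ_three]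
  simp [ev, L_mul, alg_c10, alg_c21, alg_c20]
  ring
theorem vf_jacobi (v v' w : Fin 3 → Sm) :
    ell (br (br v v') w) = ell (br v (br v' w)) - ell (br v' (br v w)) := by
  funext p
  simp only [Pi.sub_apply, ell_eq, vd_br, vf_vd_sub, Sm.sub_apply, Fin.sum_univ_three]
  ring
/-- the action on symbols of vector fields -/
theorem vf_key (v w : Fin 3 → Sm) :
    vfV v (ell w) = ell (br v w) + vfA v * JJ (ell w) + vfB v * ell w := by
  rw [vf_JJ_ell, vf_ell w, vf_V_three v (fun c => px_mem _) vf_O_mem]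
  have e : ∀ c d, LL c (vfO d) = fun p => ∑ e, ev c d e * p.om e := LL_om
  simp only [vf_V_px]
  funext p
  simp only [vfV, e, ell, br, vd, vfA, vfB, vfO, px, pi', Fin.sum_univ_three, Pi.add_apply,
    Pi.mul_apply, Pi.neg_apply, Sm.add_apply, Sm.sub_apply, Sm.mul_apply, Sm.smul_apply, X_apply,
    vf_L (v _) p]
  simp [ev]
  ring
theorem vf_indep {f g : Fm → ℝ} (h : ∀ w, f * JJ (ell w) + g * ell w = 0) : f = 0 ∧ g = 0 := by
  have h' : ∀ (c : Fin 3) (p : Fm), -(f p * (p.xi : E3) c) + g p * p.om c = 0 := fun c p => by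
    have k := congrFun (h (Pi.single c 1)) p
    rw [vf_JJ_ell, vf_ell] at k
    rcases alg_fin c with rfl | rfl | rfl <;>
      simpa [Fin.sum_univ_three, px, pi', vfO] using k
  constructor <;> funext p <;> rw [Pi.zero_apply]
  · linear_combination -(p.xi : E3) 0 * h' 0 p - (p.xi : E3) 1 * h' 1 p - (p.xi : E3) 2 * h' 2 p
      - f p * fm_ii p + g p * vf_io p
  · linear_combination p.om 0 * h' 0 p + p.om 1 * h' 1 p + p.om 2 * h' 2 p
      - g p * vf_oo p + f p * vf_io p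
theorem vf_AB (v v' : Fin 3 → Sm) :
    vfA (br v v') = vfV v (vfA v') - vfA v * JJ (vfA v') - (vfV v' (vfA v) - vfA v' * JJ (vfA v)) ∧
    vfB (br v v') = vfV v (vfB v') - vfA v * JJ (vfB v') - (vfV v' (vfB v) - vfA v' * JJ (vfB v)) := by
  have h : ∀ w, (vfV v (vfA v') - vfA v * JJ (vfA v') - (vfV v' (vfA v) - vfA v' * JJ (vfA v))
      - vfA (br v v')) * JJ (ell w) + (vfV v (vfB v') - vfA v * JJ (vfB v')
      - (vfV v' (vfB v) - vfA v' * JJ (vfB v)) - vfB (br v v')) * ell w = 0 := fun w => by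
    have hw := ell_mem w
    have hj := JJ_mem hw
    have k : ∀ u u' : Fin 3 → Sm, vfV u (vfV u' (ell w)) = vfV u (ell (br u' w))
        + (vfV u (vfA u') * JJ (ell w) + vfA u' * vfV u (JJ (ell w)))
        + (vfV u (vfB u') * ell w + vfB u' * vfV u (ell w)) := fun u u' => by
      rw [vf_key u' w, vf_V_add u (Sy.add_mem (ell_mem _) (Sy.mul_mem (vf_A_mem _) hj))
        (Sy.mul_mem (vf_B_mem _) hw), vf_V_add u (ell_mem _) (Sy.mul_mem (vf_A_mem _) hj),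
        vf_V_mul u (vf_A_mem _) hj, vf_V_mul u (vf_B_mem _) hw]
    have l : ∀ u : Fin 3 → Sm, vfV u (JJ (ell w)) = JJ (ell (br u w))
        + (JJ (vfA u) * JJ (ell w) + vfA u * JJ (JJ (ell w)))
        + (JJ (vfB u) * ell w + vfB u * JJ (ell w)) := fun u => by
      rw [← vf_V_JJ u hw, vf_key u w, JJ_add (Sy.add_mem (ell_mem _) (Sy.mul_mem (vf_A_mem _) hj))
        (Sy.mul_mem (vf_B_mem _) hw), JJ_add (ell_mem _) (Sy.mul_mem (vf_A_mem _) hj),
        JJ_mul (vf_A_mem _) hj, JJ_mul (vf_B_mem _) hw]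
    have m := vf_V_br v v' hw
    rw [k, k, l, l, vf_key, vf_key, vf_key, vf_key, vf_key, vf_jacobi] at m
    linear_combination m
  have h' := vf_indep h
  exact ⟨(sub_eq_zero.1 h'.1).symm, (sub_eq_zero.1 h'.2).symm⟩
theorem PV_br (σ : ℝ) (v v' : Fin 3 → Sm) {a : Fm → ℝ} (ha : a ∈ Sy) :
    PV σ (br v v') a = PV σ v (PV σ v' a) - PV σ v' (PV σ v a) := by
  have hj := JJ_mem ha
  have k : ∀ u u' : Fin 3 → Sm, vfV u (PV σ u' a) = vfV u (vfV u' a)
      - (vfV u (vfA u') * JJ a + vfA u' * vfV u (JJ a))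
      - σ • (vfV u (vfB u') * a + vfB u' * vfV u a)
      + (px (vd u (vfd u')) * a + px (vfd u') * vfV u a) := fun u u' => by
    have h1 := vf_V_mem u' ha
    have h2 := Sy.mul_mem (vf_A_mem u') hj
    have h3 := Sy.smul_mem (Sy.mul_mem (vf_B_mem u') ha) σ
    rw [vf_PV, vf_V_add u (Sy.sub_mem (Sy.sub_mem h1 h2) h3) (Sy.mul_mem (px_mem _) ha),
      vf_V_sub u (Sy.sub_mem h1 h2) h3, vf_V_sub u h1 h2, vf_V_smul, vf_V_mul u (vf_A_mem _) hj,
      vf_V_mul u (vf_B_mem _) ha, vf_V_mul u (px_mem _) ha, vf_V_px]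
  have l : ∀ u : Fin 3 → Sm, JJ (PV σ u a) = vfV u (JJ a)
      - (JJ (vfA u) * JJ a + vfA u * JJ (JJ a))
      - σ • (JJ (vfB u) * a + vfB u * JJ a) + px (vfd u) * JJ a := fun u => by
    have h := k X u
    rw [vf_vd_X] at h
    simp only [← vf_JJ, vf_V_JJ u ha] at h
    rw [h, show px 0 = 0 from rfl, zero_mul, zero_add]
  rw [vf_PV σ v (PV σ v' a), vf_PV σ v' (PV σ v a), k, k, l, l, vf_PV, vf_PV, vf_PV,
    (vf_AB v v').1, (vf_AB v v').2, vf_d_br, vf_px_sub, ← vf_V_br v v' ha]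
  funext p
  simp only [Pi.add_apply, Pi.sub_apply, Pi.mul_apply, Pi.smul_apply, smul_eq_mul]
  ring
theorem PV_add_left (σ : ℝ) (v v' : Fin 3 → Sm) (a : Fm → ℝ) :
    PV σ (v + v') a = PV σ v a + PV σ v' a := by
  funext p
  simp only [PV, dxi, dom, Fin.sum_univ_three, Pi.add_apply, map_add, Sm.add_apply]
  ring
theorem PV_add (σ : ℝ) (v : Fin 3 → Sm) {a b : Fm → ℝ} (ha : a ∈ Sy) (hb : b ∈ Sy) :
    PV σ v (a + b) = PV σ v a + PV σ v b := by
  funext p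
  simp only [PV, JJ_add ha hb, LL_add _ ha hb, Fin.sum_univ_three, Pi.add_apply]
  ring
theorem PV_sub (σ : ℝ) (v : Fin 3 → Sm) {a b : Fm → ℝ} (ha : a ∈ Sy) (hb : b ∈ Sy) :
    PV σ v (a - b) = PV σ v a - PV σ v b := by
  funext p
  simp only [PV, JJ_sub ha hb, LL_sub _ ha hb, Fin.sum_univ_three, Pi.sub_apply]
  ring
theorem vf_dxi_mul (φ ψ : Sm) (p : Fm) : dxi (φ * ψ) p = dxi φ p * ψ p.x + φ p.x * dxi ψ p := by
  simp only [dxi, D_mul, Fin.sum_univ_three, Sm.add_apply, Sm.mul_apply]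
  ring
theorem vf_dom_mul (φ ψ : Sm) (p : Fm) : dom (φ * ψ) p = dom φ p * ψ p.x + φ p.x * dom ψ p := by
  simp only [dom, D_mul, Fin.sum_univ_three, Sm.add_apply, Sm.mul_apply]
  ring
theorem PV_mul (σ : ℝ) (v : Fin 3 → Sm) (φ : Sm) {a : Fm → ℝ} (ha : a ∈ Sy) :
    PV σ v (px φ * a) = PV σ (fun c => φ * v c) a
      + ell v * (dom φ * JJ a + σ • (dxi φ * a)) := by
  funext p
  simp only [PV, ell, JJ_mul (px_mem φ) ha, JJ_px, LL_mul _ (px_mem φ) ha, LL_px, vf_dxi_mul,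
    vf_dom_mul, L_mul, Fin.sum_univ_three, Pi.add_apply, Pi.mul_apply, Pi.smul_apply, smul_eq_mul,
    Pi.zero_apply, px, Sm.add_apply, Sm.mul_apply]
  ring
theorem vf_dxi_X (c : Fin 3) (p : Fm) : dxi (X c) p = (p.xi : E3) c := by
  have h := fm_xi p
  rcases alg_fin c with rfl | rfl | rfl <;> simp [dxi, D_X, kd, Fin.sum_univ_three]
  · linear_combination -(p.x : E3) 0 * h
  · linear_combination -(p.x : E3) 1 * h
  · linear_combination -(p.x : E3) 2 * h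
theorem vf_dom_X (c : Fin 3) (p : Fm) : dom (X c) p = p.om c := by
  have h := vf_xo p
  rcases alg_fin c with rfl | rfl | rfl <;> simp [dom, D_X, kd, Fin.sum_univ_three]
  · linear_combination -(p.x : E3) 0 * h
  · linear_combination -(p.x : E3) 1 * h
  · linear_combination -(p.x : E3) 2 * h
theorem vf_L_congr (c : Fin 3) {φ ψ : Sm} {p : Fm} (h : ∀ᶠ x in nhds p.x, φ x = ψ x) :
    L c φ p.x = L c ψ p.x := by
  have h1 : px φ =ᶠ[nhds p] px ψ := (fm_cont_x.tendsto p).eventually h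
  have h2 := LL_congr c h1
  rwa [LL_px, LL_px] at h2
/-- the operator only depends on the germ of the vector field -/
theorem PV_eq_zero (σ : ℝ) {v : Fin 3 → Sm} (a : Fm → ℝ) {p : Fm}
    (h : ∀ᶠ x in nhds p.x, ∀ b, vd v (X b) x = 0) : PV σ v a p = 0 := by
  obtain ⟨ψ, hψ⟩ : ∃ ψ, ψ = ∑ c, v c * X c := ⟨_, rfl⟩
  have h1 : ∀ c, ∀ᶠ x in nhds p.x, v c x = (ψ * X c) x := fun c => h.mono fun x hx => by
    have k0 := hx 0
    have k1 := hx 1
    have k2 := hx 2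
    have k := base_sum_sq x
    simp only [vd, Fin.sum_univ_three, L_X_self, alg_01, alg_02, alg_12, alg_10, alg_20, alg_21,
      Sm.neg_apply, Sm.zero_apply, X_apply, Sm.add_apply, Sm.mul_apply] at k0 k1 k2
    simp only [hψ, Fin.sum_univ_three, X_apply, Sm.add_apply, Sm.mul_apply]
    rcases alg_fin c with rfl | rfl | rfl
    · linear_combination (x : E3) 1 * k2 - (x : E3) 2 * k1 - v 0 x * k
    · linear_combination (x : E3) 2 * k0 - (x : E3) 0 * k2 - v 1 x * k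
    · linear_combination (x : E3) 0 * k1 - (x : E3) 1 * k0 - v 2 x * k
  have h2 : ∀ c, v c p.x = (ψ * X c) p.x := fun c => (h1 c).self_of_nhds
  have h3 : ∀ d c, L d (v c) p.x = L d (ψ * X c) p.x := fun d c => vf_L_congr d (h1 c)
  have h4 : ∀ d c, D d (v c) p.x = D d (ψ * X c) p.x := fun d c => by
    simp only [D_def, Sm.sub_apply, Sm.mul_apply, h3]
  have h5 : ∀ c, dxi (v c) p = dxi (ψ * X c) p := fun c => by simp only [dxi, h4]
  have h6 : ∀ c, dom (v c) p = dom (ψ * X c) p := fun c => by simp only [dom, h4]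
  have h7 := congrArg (fun ψ : Sm => ψ p.x) (alg_r ψ)
  simp only [Sm.add_apply, Sm.mul_apply, X_apply, Sm.zero_apply] at h7
  simp only [PV, h2, h3, h5, h6, vf_dxi_mul, vf_dom_mul, vf_dxi_X, vf_dom_X, L_mul, L_X_self,
    Fin.sum_univ_three, Sm.add_apply, Sm.mul_apply, X_apply, Sm.zero_apply]
  have h8 : JJ a p = (p.x : E3) 0 * LL 0 a p + (p.x : E3) 1 * LL 1 a p
      + (p.x : E3) 2 * LL 2 a p := by rw [JJ, Fin.sum_univ_three]
  linear_combination a p * h7 - ψ p.x * h8 - ψ p.x * JJ a p * vf_oo p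
    - (dom ψ p * JJ a p + σ * dxi ψ p * a p) * vf_xo p - σ * ψ p.x * a p * vf_io p
/-- supports do not grow -/
theorem PV_congr (σ : ℝ) (v : Fin 3 → Sm) {a b : Fm → ℝ} {p : Fm} (h : a =ᶠ[nhds p] b) :
    PV σ v a p = PV σ v b p := by
  simp only [PV, JJ, LL_congr _ h, h.self_of_nhds]
theorem vf_PV_sum (σ : ℝ) {ι : Type} (t : Finset ι) (v : ι → Fin 3 → Sm) (a : Fm → ℝ) (p : Fm) :
    PV σ (∑ i ∈ t, v i) a p = ∑ i ∈ t, PV σ (v i) a p := by
  induction t using Finset.cons_induction with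
  | empty => simp [PV, dxi, dom]
  | cons i t hi ih => rw [Finset.sum_cons, Finset.sum_cons, PV_add_left, Pi.add_apply, ih]
/-- a linear relation between vector fields gives a vertical operator -/
theorem PV_rel (σ : ℝ) {n : ℕ} (v : Fin n → Fin 3 → Sm) (φ : Fin n → Sm) {a : Fm → ℝ}
    (ha : a ∈ Sy) {p : Fm} (h : ∀ᶠ x in nhds p.x, ∀ b, ∑ i, φ i x * vd (v i) (X b) x = 0) :
    ∑ i, PV σ (v i) (px (φ i) * a) p = (∑ i, ell (v i) p * dom (φ i) p) * JJ a p
      + σ * (∑ i, ell (v i) p * dxi (φ i) p) * a p := by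
  have h1 : PV σ (∑ i, fun c => φ i * v i c) a p = 0 := PV_eq_zero σ a (h.mono fun x hx b => by
    rw [← hx b]
    simp only [vd, Finset.sum_apply, Sm.sum_apply, Sm.mul_apply, Finset.sum_mul, Finset.mul_sum,
      mul_assoc]
    exact Finset.sum_comm)
  rw [vf_PV_sum] at h1
  simp only [PV_mul σ _ _ ha, Pi.add_apply, Finset.sum_add_distrib, h1, zero_add, Pi.mul_apply,
    Pi.smul_apply, smul_eq_mul, Finset.sum_mul, Finset.mul_sum, mul_add]
  congr 1 <;> exact Finset.sum_congr rfl fun i _ => by ring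
theorem xi_om_sq (p : Fm) : (p.xi : E3) 2 ^ 2 + p.om 2 ^ 2 = qq p.x := by
  have h := fm_frame p 2 2
  simp only [if_true] at h
  simp only [qq, Sm.sub_apply, Sm.mul_apply, Sm.one_apply, X_apply]
  linear_combination h
/-- tangent vectors in the frame `grad z, rl` -/
theorem qq_dxi (φ : Sm) (p : Fm) :
    qq p.x * dxi φ p = D 2 φ p.x * (p.xi : E3) 2 + L 2 φ p.x * p.om 2 := by
  rw [← xi_om_sq, vf_D, vf_L]
  ring
theorem qq_dom (φ : Sm) (p : Fm) :
    qq p.x * dom φ p = D 2 φ p.x * p.om 2 - L 2 φ p.x * (p.xi : E3) 2 := by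
  rw [← xi_om_sq, vf_D, vf_L]
  ring

end Pool.Agent.Lib.MP_2fa2a2_gt.PI
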