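import Pool.Agent.Lib.MP_2fa2a2_gt.PI.SZone
import Pool.Agent.Lib.MP_2fa2a2_gt.PI.Vf
import Pool.Agent.Lib.MP_2fa2a2_gt.PI.BrkY
import Pool.Agent.Lib.MP_2fa2a2_gt.PI.BrkZ

namespace Pool.Agent.Lib.MP_2fa2a2_gt.PI

open MeasureTheory Real
open scoped ContDiff

namespace Brk

variable {j : ℕ} {C0 t ℓ C1 : ℝ}

/-- the test function -/
theorem exists_test (h0 : 1 ≤ C0) (ht : 0 < t) (hl : 0 < ℓ) : ∃ b : Dt j C0 t ℓ C1 → Fm → ℝ,
    Ts 4 0 b ∧ (∀ i p, 0 ≤ b i p) ∧ ∀ i, ∀ p ∈ slab i.d 1 \ strip t ℓ, 1 ≤ b i p := by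
  let s : ℝ → ℝ := fun r => smoothTransition ((9 - r ^ 2) / 8)
  let ph : ℝ → ℝ := fun r => smoothTransition ((t - r ^ 2) / (t - t / (1 + ℓ)))
    + smoothTransition ((r ^ 2 - t * (1 + ℓ)) / (t * (1 + ℓ) * ℓ))
  have hs : ContDiff ℝ ∞ s := smoothTransition.contDiff.comp (by fun_prop)
  have hp : ContDiff ℝ ∞ ph :=
    (smoothTransition.contDiff.comp (by fun_prop)).add (smoothTransition.contDiff.comp (by fun_prop))
  have d1 : 0 < t - t / (1 + ℓ) := sub_pos.2 (div_lt_self ht (by linarith))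
  have d2 : 0 < t * (1 + ℓ) * ℓ := by positivity
  let φ : Dt j C0 t ℓ C1 → Sm := fun i =>
    algebraMap ℝ Sm i.d.ρ⁻¹ * (X 2 - algebraMap ℝ Sm i.d.zc)
  have hφ : Bj sc 0 4 0 (PX φ) := by
    refine (Bj.cst (r := fun i : Dt j C0 t ℓ C1 => i.d.ρ⁻¹) ⟨C0, by linarith, fun i _ _ => ?_⟩).mul0
      ((Bj.X 2).sub (Bj.cst (r := fun i : Dt j C0 t ℓ C1 => i.d.zc)
        ⟨1, zero_le_one, fun i _ _ => ?_⟩))
    · rw [pow_zero, mul_one, abs_of_pos (inv_pos.2 (rho_pos h0 i))]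
      exact inv_le_of_inv_le₀ (by positivity) i.z.ρ_ge
    · have h3 : (0 : ℝ) < C0⁻¹ := by positivity
      rw [pow_zero, mul_one, abs_le]
      constructor <;> linarith [i.z.lo, i.z.hi, rho_pos h0 i]
  have val : ∀ (i : Dt j C0 t ℓ C1) (p : Fm), cp s (φ i) p.x * Zf ph p.xi
      = s (i.d.ρ⁻¹ * (X 2 p.x - i.d.zc)) * ph (X 2 p.xi) := fun i p => by
    rw [cp_apply fun _ => hs.contDiffAt, Zf_apply hp]
    rfl
  have p0 : ∀ r, 0 ≤ ph r := fun r =>
    add_nonneg (smoothTransition.nonneg _) (smoothTransition.nonneg _)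
  refine ⟨fun i p => cp s (φ i) p.x * Zf ph p.xi,
    ⟨((hφ.cp hs).mono zero_le_one le_rfl le_rfl).mul0 (Bj.fix (pi'_mem _)), fun i p hK => ?_⟩,
    fun i p => ?_, fun i p hK => ?_⟩
  · have hρ := rho_pos h0 i
    refine (val i p).trans ?_
    rcases not_and_or.1 hK with h | h
    · refine mul_eq_zero_of_left (smoothTransition.zero_of_nonpos ?_) _
      have h1 : 3 ≤ |i.d.ρ⁻¹ * (X 2 p.x - i.d.zc)| := by
        rw [abs_mul, abs_of_pos (inv_pos.2 hρ), le_inv_mul_iff₀ hρ, mul_comm]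
        exact (not_le.1 h).le
      have h2 := pow_le_pow_left₀ (by norm_num) h1 2
      rw [sq_abs] at h2
      linarith
    · obtain ⟨a, b⟩ := not_or.1 h
      refine mul_eq_zero_of_right _ ?_
      simp only [ph]
      rw [smoothTransition.zero_of_nonpos (div_nonpos_of_nonpos_of_nonneg (by linarith) d1.le),
        smoothTransition.zero_of_nonpos (div_nonpos_of_nonpos_of_nonneg (by linarith) d2.le),
        add_zero]
  · exact (mul_nonneg (smoothTransition.nonneg _) (p0 _)).trans_eq (val i p).symm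
  · have hρ := rho_pos h0 i
    have h1 : |i.d.ρ⁻¹ * (X 2 p.x - i.d.zc)| ≤ 1 := by
      rw [abs_mul, abs_of_pos (inv_pos.2 hρ), inv_mul_le_iff₀ hρ, mul_comm]
      exact hK.1
    have h2 := pow_le_pow_left₀ (abs_nonneg _) h1 2
    rw [sq_abs] at h2
    have h3 : s (i.d.ρ⁻¹ * (X 2 p.x - i.d.zc)) = 1 := smoothTransition.one_of_one_le (by linarith)
    refine le_of_le_of_eq ?_ (val i p).symm
    rw [h3, one_mul]
    simp only [ph]
    rcases not_and_or.1 hK.2 with h | h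
    · rw [smoothTransition.one_of_one_le ((one_le_div d1).2 (by linarith))]
      exact le_add_of_nonneg_right (smoothTransition.nonneg _)
    · rw [smoothTransition.one_of_one_le (x := _ / (t * (1 + ℓ) * ℓ))
        ((one_le_div d2).2 (by linarith))]
      exact le_add_of_nonneg_left (smoothTransition.nonneg _)

end Brk

open Brk in
theorem brk : BrkStmt := by
  intro j C0 t ℓ C1 γ hj h0 ht hl h1 hγ
  obtain ⟨b, hb, b0, b1⟩ := exists_test (j := j) (C1 := C1) h0 ht hl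
  obtain ⟨c, C, hc, hC, H⟩ := Th_le (t := t) (ℓ := ℓ) h0 h1 hj
  obtain ⟨hS, K, hK, H'⟩ := sml_Th h0 h1 hb
  obtain ⟨m0, hm0⟩ := exists_nat_ge (1 + 2 * C / c + 2 * K / (c * γ))
  refine ⟨m0, fun m hm κ1 u χ d μ hκ hμ hZ tro tre => ?_⟩
  have hm1 : 1 + 2 * C / c + 2 * K / (c * γ) ≤ (m : ℝ) := hm0.trans (Nat.cast_le.2 hm)
  have a1 : 0 ≤ 2 * C / c := by positivity
  have a2 : 0 ≤ 2 * K / (c * γ) := by positivity
  have m1 : (1 : ℝ) ≤ m := by linarith
  have m2 : 2 * C ≤ m * c := (div_le_iff₀ hc).1 (by linarith)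
  have m3 : 2 * K ≤ m * (c * γ) := (div_le_iff₀ (by positivity)).1 (by linarith)
  let i : Dt j C0 t ℓ C1 := ⟨m, κ1, u, χ, d, μ, by exact_mod_cast m1, hκ, hμ, hZ, tro, tre⟩
  have hR : 0 < c / 2 * (m : ℝ) ^ 10 := by positivity
  have hT : ∀ p ∈ KK i, Th i p ≤ -(c / 2 * (m : ℝ) ^ 10) := fun p hp => by
    have h2 : Th i p ≤ -c * (m : ℝ) ^ 10 + C * (m : ℝ) ^ 9 := H i p (KK_sub h0 i hp)
    have h3 := mul_le_mul_of_nonneg_right m2 (show (0 : ℝ) ≤ (m : ℝ) ^ 9 by positivity)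
    linarith
  have hms : MeasurableSet (slab d 1 \ strip t ℓ) := (closed_slab d 1).measurableSet.diff
    ((isClosed_le continuous_const (((X 2).continuous.comp fm_cont_xi).pow 2)).inter
      (isClosed_le (((X 2).continuous.comp fm_cont_xi).pow 2) continuous_const)).measurableSet
  have hI : ∫ p, Th i p * b i p ∂μ ≤ μ.real (slab d 1 \ strip t ℓ) * -(c / 2 * (m : ℝ) ^ 10) := by
    rw [← smul_eq_mul, ← integral_indicator_const _ hms]
    refine integral_mono (sy_int (Sy_continuous (hS i)) i) ((integrable_const _).indicator hms)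
      fun p => ?_
    show Th i p * b i p ≤ _
    by_cases hp : p ∈ slab d 1 \ strip t ℓ
    · have h2 := b1 i p hp
      have h3 := hT p (not_not.1 fun hc => by linarith [hb.2 i p hc])
      rw [Set.indicator_of_mem hp]
      nlinarith
    · rw [Set.indicator_of_notMem hp]
      by_cases hq : p ∈ KK i
      · exact mul_nonpos_of_nonpos_of_nonneg ((hT p hq).trans (neg_nonpos.2 hR.le)) (b0 i p)
      · rw [hb.2 i p hq, mul_zero]
  have h4 : |∫ p, Th i p * b i p ∂μ| ≤ K * (m : ℝ) ^ 23 * (1 / (m : ℝ) ^ 20 * μ.real (slab d 3)) :=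
    H' i
  have h5 : K * (m : ℝ) ^ 23 * (1 / (m : ℝ) ^ 20 * μ.real (slab d 3))
      ≤ γ * μ.real (slab d 3) * (c / 2 * (m : ℝ) ^ 10) := by
    have e : K * (m : ℝ) ^ 23 * (1 / (m : ℝ) ^ 20 * μ.real (slab d 3))
        = K * (m : ℝ) ^ 3 * μ.real (slab d 3) := by
      field_simp
    have h6 : K * (m : ℝ) ^ 3 ≤ m * (c * γ) / 2 * (m : ℝ) ^ 9 :=
      mul_le_mul (by linarith) (pow_le_pow_right₀ m1 (by norm_num)) (by positivity) (by positivity)
    rw [e]
    refine (mul_le_mul_of_nonneg_right h6 measureReal_nonneg).trans_eq ?_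
    ring
  refine le_of_mul_le_mul_right ?_ hR
  linarith [neg_abs_le (∫ p, Th i p * b i p ∂μ)]

end Pool.Agent.Lib.MP_2fa2a2_gt.PI
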