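import Pool.Agent.Lib.MP_2fa2a2_gt.PI.Prod

/-! Calculus of orders of smallness on the Sobolev scale. -/

namespace Pool.Agent.Lib.MP_2fa2a2_gt.PI

open scoped ContDiff

/-- the property holds for all small `u` -/
def ChEv (N : ℕ) (P : ℝ → Sm → Prop) : Prop := ∃ δ : ℝ, 0 < δ ∧ ∀ (σ : ℝ) (u : Sm),
  σ = 0 ∨ σ = 1 / 2 → nrm 1 (σ + N) u ≤ δ → P σ u

/-- `F u` is of order `p` in `u`, on level `n` -/
def ChO (N n p : ℕ) (F : Sm → Sm) : Prop := ∃ C : ℝ, 0 ≤ C ∧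
  ChEv N fun σ u => nrm 1 (σ + n) (F u) ≤ C * nrm 1 (σ + N) u ^ p

variable {N n p : ℕ} {F G : Sm → Sm}

theorem ChEv.and {P Q : ℝ → Sm → Prop} (h : ChEv N P) (h' : ChEv N Q) :
    ChEv N fun σ u => P σ u ∧ Q σ u := by
  obtain ⟨δ, hδ, h⟩ := h
  obtain ⟨δ', hδ', h'⟩ := h'
  exact ⟨min δ δ', lt_min hδ hδ', fun σ u hσ hu =>
    ⟨h σ u hσ (hu.trans (min_le_left _ _)), h' σ u hσ (hu.trans (min_le_right _ _))⟩⟩

theorem ChEv.imp {P Q : ℝ → Sm → Prop} (h : ChEv N P)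
    (e : ∀ σ u, σ = 0 ∨ σ = 1 / 2 → P σ u → Q σ u) : ChEv N Q := by
  obtain ⟨δ, hδ, h⟩ := h
  exact ⟨δ, hδ, fun σ u hσ hu => e σ u hσ (h σ u hσ hu)⟩

theorem chev_small {δ : ℝ} (hδ : 0 < δ) : ChEv N fun σ u => nrm 1 (σ + N) u ≤ δ :=
  ⟨δ, hδ, fun _ _ _ h => h⟩

theorem ChO.congr {P : Sm → Prop} (h : ChO N n p F) (hP : ChEv N fun _ u => P u)
    (e : ∀ u, P u → G u = F u) : ChO N n p G := by
  obtain ⟨C, hC, h⟩ := h
  exact ⟨C, hC, (h.and hP).imp fun σ u _ hu => by rw [e u hu.2]; exact hu.1⟩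

theorem ChO.eq (h : ChO N n p F) (e : ∀ u, G u = F u) : ChO N n p G := by
  rw [funext e]; exact h

theorem ChO.add (h : ChO N n p F) (h' : ChO N n p G) : ChO N n p fun u => F u + G u := by
  obtain ⟨C, hC, h⟩ := h
  obtain ⟨C', hC', h'⟩ := h'
  exact ⟨C + C', add_nonneg hC hC', (h.and h').imp fun σ u _ hu => by
    rw [add_mul]; exact (nrm_add_le _ _ _ _).trans (add_le_add hu.1 hu.2)⟩

theorem ChO.smul (h : ChO N n p F) (r : ℝ) : ChO N n p fun u => r • F u := by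
  obtain ⟨C, hC, h⟩ := h
  exact ⟨|r| * C, mul_nonneg (abs_nonneg r) hC, h.imp fun σ u _ hu => by
    rw [nrm_smul, mul_assoc]; exact mul_le_mul_of_nonneg_left hu (abs_nonneg r)⟩

theorem ChO.sub (h : ChO N n p F) (h' : ChO N n p G) : ChO N n p fun u => F u - G u :=
  (h.add (h'.smul (-1))).eq fun u => by rw [neg_one_smul, sub_eq_add_neg]

theorem cho_const (φ : Sm) : ChO N n 0 fun _ => φ :=
  ⟨nrm 1 (1 / 2 + n) φ, nrm_nonneg _ _ _, 1, one_pos, fun σ u hσ _ => by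
    beta_reduce
    rw [pow_zero, mul_one]
    refine nrm_mono le_rfl ?_ φ
    rcases hσ with rfl | rfl <;> linarith⟩

theorem cho_zero : ChO N n p fun _ => 0 :=
  ⟨0, le_rfl, 1, one_pos, fun σ u _ _ => by
    have := nrm_smul 1 (σ + n) 0 0
    rw [zero_smul, abs_zero, zero_mul] at this
    beta_reduce
    rw [this, zero_mul]⟩

theorem cho_sum {ι : Type*} (s : Finset ι) {F : ι → Sm → Sm} (h : ∀ i, ChO N n p (F i)) :
    ChO N n p fun u => ∑ i ∈ s, F i u := by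
  induction s using Finset.cons_induction with
  | empty => exact cho_zero
  | cons a s ha ih => exact ((h a).add ih).eq fun u => Finset.sum_cons ha

theorem ChO.mono {n' p' : ℕ} (h : ChO N n p F) (hn : n' ≤ n) (hp : p' ≤ p) : ChO N n' p' F := by
  obtain ⟨C, hC, h⟩ := h
  refine ⟨C, hC, (h.and (chev_small one_pos)).imp fun σ u _ hu => ?_⟩
  have h1 : (n' : ℝ) ≤ n := by exact_mod_cast hn
  exact (nrm_mono le_rfl (by linarith) _).trans (hu.1.trans (mul_le_mul_of_nonneg_left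
    (pow_le_pow_of_le_one (nrm_nonneg _ _ _) hu.2 hp) hC))

theorem cho_id (hn : n ≤ N) : ChO N n 1 fun u => u :=
  ChO.mono (n := N) ⟨1, zero_le_one, 1, one_pos, fun σ u _ _ => by simp⟩ hn le_rfl

theorem ChO.mul {a b q : ℕ} (h : ChO N a p F) (h' : ChO N b q G) (ha : n ≤ a) (hb : n ≤ b)
    (hab : n + 7 ≤ a + b) : ChO N n (p + q) fun u => F u * G u := by
  obtain ⟨C, hC, h⟩ := h
  obtain ⟨C', hC', h'⟩ := h'
  obtain ⟨K, hK, hm⟩ := nrm_mul a b n ha hb hab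
  refine ⟨K * C * C', by positivity, (h.and h').imp fun σ u hσ hu => (hm σ _ _ hσ).trans ?_⟩
  have h0 := nrm_nonneg 1 (σ + N) u
  calc _ ≤ K * (C * nrm 1 (σ + N) u ^ p) * (C' * nrm 1 (σ + N) u ^ q) :=
        mul_le_mul (mul_le_mul_of_nonneg_left hu.1 hK) hu.2 (nrm_nonneg _ _ _) (by positivity)
    _ = _ := by ring

/-- product on one level -/
theorem ChO.mul' {q : ℕ} (h : ChO N n p F) (h' : ChO N n q G) (hn : 7 ≤ n) :
    ChO N n (p + q) fun u => F u * G u := h.mul h' le_rfl le_rfl (by omega)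

theorem ChO.cmul (h : ChO N n p F) (φ : Sm) : ChO N n p fun u => φ * F u := by
  have := (cho_const (N := N) (n := n + 7) φ).mul h (n := n) (by omega) le_rfl (by omega)
  rwa [zero_add] at this

theorem ChO.mulc (h : ChO N n p F) (φ : Sm) : ChO N n p fun u => F u * φ :=
  (h.cmul φ).eq fun _ => mul_comm _ _

theorem ChO.L (h : ChO N (n + 1) p F) (a : Fin 3) : ChO N n p fun u => L a (F u) := by
  obtain ⟨C, hC, h⟩ := h
  refine ⟨C, hC, h.imp fun σ u _ hu => (nrm_L le_rfl _ a _).trans ?_⟩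
  rwa [Nat.cast_succ, ← add_assoc] at hu

theorem ChO.D (h : ChO N (n + 1) p F) (a : Fin 3) : ChO N n p fun u => D a (F u) :=
  (((h.L _).cmul _).sub ((h.L _).cmul _)).eq fun _ => D_def a _

theorem ChO.gd {a b q : ℕ} (h : ChO N (a + 1) p F) (h' : ChO N (b + 1) q G) (ha : n ≤ a)
    (hb : n ≤ b) (hab : n + 7 ≤ a + b) : ChO N n (p + q) fun u => gd (F u) (G u) :=
  cho_sum _ fun c => (h.L c).mul (h'.L c) ha hb hab

theorem ChO.H (h : ChO N (n + 2) p F) (a b : Fin 3) : ChO N n p fun u => H a b (F u) :=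
  (((h.D b).add ((h.mono (Nat.le_succ _) le_rfl).cmul (X b))).D a).eq fun _ => H_def a b _

theorem ChO.Dop (h : ChO N (n + 2) p F) : ChO N n p fun u => Dop (F u) :=
  (cho_sum _ fun a => h.H a a).eq fun _ => (H_trace _).symm

theorem ChO.one_add (h : ChO N n p fun u => F u - 1) : ChO N n 0 F :=
  ((h.mono le_rfl (Nat.zero_le _)).add (cho_const 1)).eq fun _ => (sub_add_cancel _ _).symm

/-- real powers -/
theorem ChO.rpow (h : ChO N n 1 F) (hn : 7 ≤ n) (r : ℝ) {P : Sm → Prop}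
    (hP : ChEv N fun _ u => P u) (e : ∀ u, P u → ∀ x, G u x = (1 + F u x) ^ r) :
    (ChO N n 1 fun u => G u - 1) ∧ (ChO N n 2 fun u => G u - 1 - r • F u) ∧
      ChO N n 3 fun u => G u - 1 - r • F u - (r * (r - 1) / 2) • (F u * F u) := by
  obtain ⟨C, hC, h⟩ := h
  obtain ⟨K, δ, hδ, hr⟩ := nrm_rpow n hn r
  have key : ChEv N fun σ u => nrm 1 (σ + n) (F u) ≤ C * nrm 1 (σ + N) u ∧
      nrm 1 (σ + n) (G u - 1) ≤ |K| * nrm 1 (σ + n) (F u) ^ 1 ∧
      nrm 1 (σ + n) (G u - 1 - r • F u) ≤ |K| * nrm 1 (σ + n) (F u) ^ 2 ∧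
      nrm 1 (σ + n) (G u - 1 - r • F u - (r * (r - 1) / 2) • (F u * F u))
        ≤ |K| * nrm 1 (σ + n) (F u) ^ 3 := by
    refine ((h.and hP).and (chev_small (δ := δ / (C + 1)) (by positivity))).imp
      fun σ u hσ hu => ?_
    obtain ⟨⟨h1, h2⟩, h3⟩ := hu
    rw [pow_one] at h1
    have h0 := nrm_nonneg 1 (σ + N) u
    rw [le_div_iff₀ (by positivity)] at h3
    obtain ⟨k0, k1, k2, k3⟩ := hr σ (F u) hσ (by nlinarith)
    have e' : G u = cp (fun t => (1 + t) ^ r) (F u) := by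
      ext x
      rw [e u h2 x, cp_apply]
      intro y
      have := abs_le.1 (k0 y)
      exact (contDiffAt_const.add contDiffAt_id).rpow_const_of_ne (by
        show 1 + F u y ≠ 0
        linarith)
    have hF := nrm_nonneg 1 (σ + n) (F u)
    rw [e']
    exact ⟨h1, (pow_one (nrm 1 (σ + n) (F u))).symm ▸
        k1.trans (mul_le_mul_of_nonneg_right (le_abs_self K) hF),
      k2.trans (mul_le_mul_of_nonneg_right (le_abs_self K) (by positivity)),
      k3.trans (mul_le_mul_of_nonneg_right (le_abs_self K) (by positivity))⟩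
  have fin : ∀ (i : ℕ) {x y z : ℝ}, 0 ≤ y → y ≤ C * z → x ≤ |K| * y ^ i →
      x ≤ |K| * C ^ i * z ^ i := fun i x y z hy h1 h2 => by
    rw [mul_assoc, ← mul_pow]
    exact h2.trans (mul_le_mul_of_nonneg_left (pow_le_pow_left₀ hy h1 i) (abs_nonneg K))
  exact ⟨⟨|K| * C ^ 1, by positivity, key.imp fun σ u _ hu =>
      fin 1 (nrm_nonneg _ _ _) hu.1 hu.2.1⟩,
    ⟨|K| * C ^ 2, by positivity, key.imp fun σ u _ hu => fin 2 (nrm_nonneg _ _ _) hu.1 hu.2.2.1⟩,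
    ⟨|K| * C ^ 3, by positivity, key.imp fun σ u _ hu => fin 3 (nrm_nonneg _ _ _) hu.1 hu.2.2.2⟩⟩

end Pool.Agent.Lib.MP_2fa2a2_gt.PI
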