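import Pool.Agent.Lib.MP_2fa2a2_gt.PI.SPull
import Pool.Agent.Lib.MP_2fa2a2_gt.PI.ChX

/-! Expansions of the geometric quantities. -/

namespace Pool.Agent.Lib.MP_2fa2a2_gt.PI

variable {N n : ℕ}

theorem chy_good (hA : PullAStmt) (hN : 5 ≤ N) : ChEv N fun _ u => Good u := by
  obtain ⟨δ, hδ, hA⟩ := hA
  obtain ⟨C, hC, hs⟩ := sobolev
  refine ⟨δ / (C + 1), by positivity, fun σ u hσ hu => hA u ((hs 2 u).mono zero_le_one le_rfl
    le_rfl ?_)⟩
  have h1 : (5 : ℝ) ≤ N := by exact_mod_cast hN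
  have h2 : nrm 1 ((2 : ℕ) + 3) u ≤ nrm 1 (σ + N) u :=
    nrm_mono le_rfl (by rcases hσ with rfl | rfl <;> push_cast <;> linarith) u
  have h3 := nrm_nonneg 1 (σ + N) u
  rw [le_div_iff₀ (by positivity)] at hu
  nlinarith

theorem chy_hinv (hG : ChEv N fun _ u => Good u) (hn : n ≤ N) (h7 : 7 ≤ n) :
    (ChO N n 1 fun u => hinv u - 1) ∧ ChO N n 2 fun u => hinv u - 1 + u := by
  have h := (cho_id hn).rpow h7 (-1) (G := hinv) hG fun u hu x => by
    have h1 := congrArg (fun φ : Sm => φ x) hu.hinv_mul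
    simp only [Sm.mul_apply, Sm.add_apply, Sm.one_apply] at h1
    rw [Real.rpow_neg_one]
    exact eq_inv_of_mul_eq_one_left h1
  exact ⟨h.1, h.2.1.eq fun u => by rw [neg_one_smul, sub_neg_eq_add]⟩

theorem chy_Qf (u : Sm) : Qf (1 + u) (1 + u) = 1 + (Dop u + Qf u u) := by
  simp only [map_add, LinearMap.add_apply, Qf_comm u 1, Qf_one, hess_Dop_one]
  ext x
  have h2 : (2 : Sm) x = 2 := rfl
  simp only [Sm.add_apply, Sm.smul_apply, Sm.one_apply, h2]
  ring

theorem chy_dinv (hG : ChEv N fun _ u => Good u) (hn : n + 2 ≤ N) (h7 : 7 ≤ n) :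
    (ChO N n 1 fun u => dinv u - 1) ∧ ChO N n 2 fun u => dinv u - 1 + Dop u := by
  have h0 : ChO N (n + 2) 1 fun u => u := cho_id hn
  have hQ : ChO N n 2 fun u => Qf u u :=
    (((h0.Dop.mul' h0.Dop h7).sub (cho_sum _ fun a => cho_sum _ fun b =>
      (h0.H a b).mul' (h0.H a b) h7)).smul _).eq fun u => Qf_def u u
  have h := (h0.Dop.add (hQ.mono le_rfl one_le_two)).rpow h7 (-1) (G := dinv) hG fun u hu x => by
    have h1 := congrArg (fun φ : Sm => φ x) hu.dinv_mul
    simp only [chy_Qf, Sm.mul_apply, Sm.add_apply, Sm.one_apply] at h1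
    rw [Real.rpow_neg_one]
    exact eq_inv_of_mul_eq_one_left h1
  exact ⟨h.1, (h.2.1.sub hQ).eq fun u => by rw [neg_one_smul]; ring⟩

theorem chy_pk (hG : ChEv N fun _ u => Good u) (hn : n + 1 ≤ N) (h7 : 7 ≤ n) (k : ℝ) :
    (ChO N n 1 fun u => pk k u - 1) ∧ (ChO N n 2 fun u => pk k u - 1 - k • u) ∧
      ChO N n 3 fun u => pk k u - 1 - k • u
        - ((k * (k - 1) / 2) • (u * u) - (k / 2) • gd u u + k • gd u u) := by
  have h0 : ChO N n 1 fun u => u := cho_id (by omega)
  have h1 : ChO N (n + 1) 1 fun u => u := cho_id hn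
  have hw : ChO N n 2 fun u => u * u + gd u u :=
    (h0.mul' h0 h7).add (h1.gd h1 le_rfl le_rfl (by omega))
  have hv : ChO N n 1 fun u => (2 : ℝ) • u + (u * u + gd u u) :=
    (h0.smul 2).add (hw.mono le_rfl one_le_two)
  have h := hv.rpow h7 (k / 2) (G := pk k) hG fun u hu x => by
    rw [hu.pk_apply]
    congr 1
    simp only [p2, Sm.add_apply, Sm.mul_apply, Sm.smul_apply, Sm.one_apply]
    ring
  refine ⟨h.1, (h.2.1.add (hw.smul (k / 2))).eq fun u => ?_,
    (h.2.2.add ((hw.mul' ((h0.smul 2).add hv) h7).smul (k / 2 * (k / 2 - 1) / 2))).eq fun u => ?_⟩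
  · ext x
    simp only [Sm.add_apply, Sm.sub_apply, Sm.mul_apply, Sm.smul_apply, Sm.one_apply]
    ring
  · ext x
    simp only [Sm.add_apply, Sm.sub_apply, Sm.mul_apply, Sm.smul_apply, Sm.one_apply]
    ring

/-- first order part of the image field -/
noncomputable def chY1 (u : Sm) (a c : Fin 3) : Sm :=
  u * L a (X c) + ∑ d, ev a c d • D d u + L a u * X c

/-- first order part of the cofactor matrix -/
noncomputable def chM1 (u : Sm) (b c : Fin 3) : Sm := Dop u * kd b c - H b c u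

theorem chy_XL (a : Fin 3) : ∑ c, X c * L a (X c) = 0 := by
  rcases alg_fin a with rfl | rfl | rfl <;>
    simp only [Fin.sum_univ_three, L_X_self, alg_01, alg_02, alg_12, alg_10, alg_20, alg_21] <;> ring

theorem chy_XY (u : Sm) (a : Fin 3) : ∑ c, X c * chY1 u a c = 0 := by
  have h1 := L_eq_sum_D a u
  have h2 := alg_s
  rcases alg_fin a with rfl | rfl | rfl <;>
    simp [chY1, ev, Fin.sum_univ_three, alg_01, alg_02, alg_12, alg_10, alg_20, alg_21] at h1 ⊢
  · linear_combination L 0 u * h2 + h1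
  · linear_combination L 1 u * h2 + h1
  · linear_combination L 2 u * h2 + h1

theorem chy_kd (b : Fin 3) (T : Fin 3 → Sm) : ∑ c, kd b c * T c = T b := by
  simp only [hess_kd_comm b, hess_sum_kd]

theorem chy_sum {u : Sm} (hu : Good u) (a b : Fin 3) :
    ∑ c, (Dop (1 + u) * kd b c - H b c (1 + u))
      * (∑ d, ev a c d • pv u d + hinv u * L a u * pv u c)
    = L a (X b) + (Dop u * L a (X b) - D b (L a u))
      + ∑ c, ((kd b c + X b * X c) * (L a u * hinv u * D c u)
        + chM1 u b c * (chY1 u a c + L a u * hinv u * D c u)) := by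
  have e1 : ∀ c, ∑ d, ev a c d • pv u d + hinv u * L a u * pv u c
      = L a (X c) + chY1 u a c + L a u * hinv u * D c u := fun c => by
    have : ∑ d, ev a c d • pv u d = (1 + u) * L a (X c) + ∑ d, ev a c d • D d u := by
      rw [L_X, Finset.mul_sum, ← Finset.sum_add_distrib]
      exact Finset.sum_congr rfl fun d _ => by rw [pv, smul_add, mul_smul_comm]
    rw [this, chY1, pv]
    linear_combination (L a u * X c) * hu.hinv_mul
  have e2 : ∀ c, Dop (1 + u) * kd b c - H b c (1 + u) = kd b c + X b * X c + chM1 u b c :=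
    fun c => by rw [map_add, map_add, hess_Dop_one, H_one, chM1]; ring
  have e3 : ∑ c, H b c u * L a (X c) = L a (D b u) + L a (X b) * u + X b * L a u := by
    rw [add_assoc, ← L_mul, ← map_add, L_eq_sum_D a (D b u + X b * u)]
    exact Finset.sum_congr rfl fun c _ => by rw [H_symm, H_def, mul_comm]
  have e4 := L_D a b u
  have e5 := chy_kd b fun c => L a (X c)
  have e6 := chy_kd b fun c => chY1 u a c
  have e7 := chy_XL a
  have e8 := chy_XY u a
  have e9 : chY1 u a b = u * L a (X b) + ∑ d, ev a b d • D d u + L a u * X b := rfl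
  simp only [e1, e2]
  simp only [chM1, Fin.sum_univ_three (f := fun c => (_ : Sm) * (_ : Sm)),
    Fin.sum_univ_three (f := fun c => (_ : Sm) + (_ : Sm))] at e3 e5 e6 e7 e8 ⊢
  linear_combination (1 + Dop u) * e5 + e6 + X b * e7 + X b * e8 - e3 - e4 + e9

theorem chy_Wf (hG : ChEv N fun _ u => Good u) (hn : n + 2 ≤ N) (h7 : 7 ≤ n) (a b : Fin 3) :
    ChO N n 2 fun u => Wf u a b - L a (X b) + D b (L a u) := by
  have h0 : ChO N n 1 fun u => u := cho_id (by omega)
  have h1 : ChO N (n + 1) 1 fun u => u := cho_id (by omega)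
  have h2 : ChO N (n + 2) 1 fun u => u := cho_id hn
  obtain ⟨d1, d2⟩ := chy_dinv hG hn h7
  have hi := (chy_hinv hG (n := n) (by omega) h7).1.one_add
  have hY2 : ∀ c, ChO N n 2 fun u => L a u * hinv u * D c u := fun c =>
    ((h1.L a).mul' hi h7).mul' (h1.D c) h7
  have hY1 : ∀ c, ChO N n 1 fun u => chY1 u a c := fun c =>
    ((h0.mulc _).add (cho_sum _ fun d => (h1.D d).smul _)).add ((h1.L a).mulc _)
  have hM : ∀ c, ChO N n 1 fun u => chM1 u b c := fun c => (h2.Dop.mulc _).sub (h2.H b c)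
  have hS := cho_sum Finset.univ fun c => ((hY2 c).cmul (kd b c + X b * X c)).add
    ((hM c).mul' ((hY1 c).add ((hY2 c).mono le_rfl one_le_two)) h7)
  refine (((d2.mulc (L a (X b))).add (d1.mul' ((h2.Dop.mulc (L a (X b))).sub ((h2.L a).D b)) h7)).add
    (d1.one_add.mul' hS h7)).congr hG fun u hu => ?_
  rw [Wf, chy_sum hu]
  ring

end Pool.Agent.Lib.MP_2fa2a2_gt.PI
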