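import Pool.Agent.Lib.MP_2fa2a2_gt.PI.Mul

/-! Composition and product estimates. -/

namespace Pool.Agent.Lib.MP_2fa2a2_gt.PI

open scoped ContDiff

/-- composition with a smooth function: bounds depend only on bounds of the derivatives on the range -/
theorem Cb_cp (k : ℕ) (B : ℝ) : ∃ C, ∀ {lam A : ℝ} {v : Sm} {g : ℝ → ℝ}, 1 ≤ lam →
    Cb k lam B v → (∀ x, ContDiffAt ℝ ∞ g (v x)) →
    (∀ i ≤ k, ∀ x, |iteratedDeriv i g (v x)| ≤ A) → Cb k lam (C * A) (cp g v) := by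
  induction k with
  | zero =>
    refine ⟨1, fun {lam A v g} _ _ hg hA w hw x => ?_⟩
    obtain rfl : w = [] := List.length_eq_zero_iff.1 (Nat.le_zero.1 hw)
    have h := hA 0 le_rfl x
    rw [iteratedDeriv_zero] at h
    rw [Lw_nil, cp_apply hg]
    simpa using h
  | succ k ih =>
    obtain ⟨C, hC⟩ := ih
    refine ⟨1 + |2 ^ k * C * B|, fun {lam A v g} hl hv hg hA => ?_⟩
    have hl0 : 0 ≤ lam := by linarith
    have hA0 : 0 ≤ A := (abs_nonneg _).trans (hA 0 (Nat.zero_le _) (nrmz 0))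
    have h0 := abs_nonneg (2 ^ k * C * B)
    have hd : ∀ x, ContDiffAt ℝ ∞ (deriv g) (v x) := fun x =>
      ((hg x).fderiv_right (m := ∞) (by simp)).clm_apply (contDiffAt_const (c := (1 : ℝ)))
    refine Cb_of_succ (fun x => ?_) fun a => ?_
    · have h := hA 0 (Nat.zero_le _) x
      rw [iteratedDeriv_zero] at h
      rw [cp_apply hg]
      nlinarith
    · have h1 := hC (A := A) hl (hv.mono hl0 (Nat.le_succ k) le_rfl le_rfl) hd fun i hi x => by
        rw [← iteratedDeriv_succ']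
        exact hA (i + 1) (Nat.succ_le_succ hi) x
      rw [L_cp a hg]
      refine (Cb.mul hl0 h1 (hv.L a)).mono hl0 le_rfl le_rfl ?_
      have h2 := mul_le_mul_of_nonneg_right (le_abs_self (2 ^ k * C * B)) (mul_nonneg hA0 hl0)
      nlinarith [mul_nonneg hA0 hl0]

theorem prodx_succ (s : ℝ) (φ : Sm) :
    nrm 1 (s + 1) φ ≤ nrm 1 s φ + ∑ a, nrm 1 s (L a φ) := by
  have h0 := nrm_nonneg 1 s φ
  have h1 := nrm_nonneg 1 s (L 0 φ)
  have h2 := nrm_nonneg 1 s (L 1 φ)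
  have h3 := nrm_nonneg 1 s (L 2 φ)
  refine nrmx_sq ?_ (add_nonneg h0 (Finset.sum_nonneg fun _ _ => nrm_nonneg _ _ _))
  rw [nrm_succ le_rfl, Fin.sum_univ_three, Fin.sum_univ_three]
  nlinarith [mul_nonneg h0 h1, mul_nonneg h0 h2, mul_nonneg h0 h3, mul_nonneg h1 h2,
    mul_nonneg h1 h3, mul_nonneg h2 h3]

theorem prodx_base : ∃ C, 0 ≤ C ∧ ∀ (a b : ℕ) (σ : ℝ) (u v : Sm), 4 ≤ a → σ = 0 ∨ σ = 1 / 2 →
    nrm 1 σ (u * v) ≤ C * nrm 1 (σ + a) u * nrm 1 (σ + b) v := by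
  obtain ⟨C₁, c1, h1⟩ := sobolev
  obtain ⟨C₂, c2, h2⟩ := Bd_ml 1
  refine ⟨C₂ * C₁, mul_nonneg c2 c1, fun a b σ u v ha hσ => ?_⟩
  have hσ0 : 0 ≤ σ := by rcases hσ with rfl | rfl <;> norm_num
  have h3 : Bd 1 σ σ (C₂ * (C₁ * nrm 1 ((1 : ℕ) + 3) u)) (ml u) := by
    rcases hσ with rfl | rfl
    · simpa using h2 0 le_rfl (h1 1 u) (by norm_num)
    · simpa using h2 1 le_rfl (h1 1 u) (by norm_num)
  have h4 : nrm 1 ((1 : ℕ) + 3) u ≤ nrm 1 (σ + a) u := by
    refine nrm_mono le_rfl ?_ u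
    have : (4 : ℝ) ≤ a := by exact_mod_cast ha
    push_cast
    linarith
  have h5 : nrm 1 σ v ≤ nrm 1 (σ + b) v :=
    nrm_mono le_rfl (le_add_of_nonneg_right (Nat.cast_nonneg b)) v
  refine (h3 v).trans ?_
  rw [← mul_assoc]
  exact mul_le_mul (mul_le_mul_of_nonneg_left h4 (mul_nonneg c2 c1)) h5 (nrm_nonneg _ _ _)
    (mul_nonneg (mul_nonneg c2 c1) (nrm_nonneg _ _ _))

theorem prodx_mul (k : ℕ) : ∃ C, 0 ≤ C ∧ ∀ (a b : ℕ) (σ : ℝ) (u v : Sm), k ≤ a → k ≤ b →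
    k + 7 ≤ a + b → σ = 0 ∨ σ = 1 / 2 →
      nrm 1 (σ + k) (u * v) ≤ C * nrm 1 (σ + a) u * nrm 1 (σ + b) v := by
  induction k with
  | zero =>
    obtain ⟨C, c, h⟩ := prodx_base
    refine ⟨C, c, fun a b σ u v _ _ hab hσ => ?_⟩
    rw [Nat.cast_zero, add_zero]
    rcases le_or_gt 4 a with ha | ha
    · exact h a b σ u v ha hσ
    · rw [mul_comm u, mul_right_comm]
      exact h b a σ v u (by omega) hσ
  | succ k ih =>
    obtain ⟨C, c, h⟩ := ih
    refine ⟨7 * C, by positivity, fun a b σ u v ha hb hab hσ => ?_⟩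
    obtain ⟨a, rfl⟩ : ∃ a', a = a' + 1 := ⟨a - 1, by omega⟩
    obtain ⟨b, rfl⟩ : ∃ b', b = b' + 1 := ⟨b - 1, by omega⟩
    have hu := nrm_nonneg 1 (σ + (a + 1 : ℕ)) u
    have hv := nrm_nonneg 1 (σ + (b + 1 : ℕ)) v
    have h1 : ∀ (n : ℕ) (e : Fin 3) (φ : Sm), nrm 1 (σ + n) (L e φ) ≤ nrm 1 (σ + (n + 1 : ℕ)) φ :=
      fun n e φ => by
        rw [Nat.cast_succ, ← add_assoc]
        exact nrm_L le_rfl _ e φ
    have h2 : ∀ e : Fin 3, nrm 1 (σ + k) (L e (u * v)) ≤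
        2 * (C * nrm 1 (σ + (a + 1 : ℕ)) u * nrm 1 (σ + (b + 1 : ℕ)) v) := fun e => by
      rw [L_mul, two_mul]
      refine (nrm_add_le _ _ _ _).trans (add_le_add ?_ ?_)
      · exact (h a (b + 1) σ _ _ (by omega) (by omega) (by omega) hσ).trans
          (mul_le_mul_of_nonneg_right (mul_le_mul_of_nonneg_left (h1 a e u) c) hv)
      · exact (h (a + 1) b σ _ _ (by omega) (by omega) (by omega) hσ).trans
          (mul_le_mul_of_nonneg_left (h1 b e v) (mul_nonneg c hu))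
    have h3 := h (a + 1) (b + 1) σ u v (by omega) (by omega) (by omega) hσ
    have h4 := prodx_succ (σ + k) (u * v)
    rw [Fin.sum_univ_three] at h4
    rw [Nat.cast_succ k, ← add_assoc]
    linarith [h2 0, h2 1, h2 2]

/-- product lemma -/
theorem nrm_mul (a b k : ℕ) (hk : k ≤ a) (hk' : k ≤ b) (h : k + 7 ≤ a + b) :
    ∃ C, 0 ≤ C ∧ ∀ (σ : ℝ) (u v : Sm), σ = 0 ∨ σ = 1 / 2 →
      nrm 1 (σ + k) (u * v) ≤ C * nrm 1 (σ + a) u * nrm 1 (σ + b) v := by
  obtain ⟨C, c, h1⟩ := prodx_mul k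
  exact ⟨C, c, fun σ u v hσ => h1 a b σ u v hk hk' h hσ⟩

/-- the Sobolev norm of the sum of a pointwise convergent series -/
theorem prodx_series {t β : ℝ} (ht : 3 ≤ t) {f : Sm} {T : ℕ → Sm} {b : ℕ → ℝ} (hb : HasSum b β)
    (hT : ∀ n, nrm 1 t (T n) ≤ b n) (hf : ∀ x, HasSum (fun n => T n x) (f x)) :
    nrm 1 t f ≤ β := by
  have b0 : ∀ n, 0 ≤ b n := fun n => (nrm_nonneg _ _ _).trans (hT n)
  refine nrm_le_of_dual le_rfl (hb.nonneg b0) fun ψ => ?_
  have h1 : ∀ N, inner ℝ f ψ ≤ β * nrm 1 (-t) ψ +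
      5 * (β - ∑ n ∈ Finset.range N, b n) * ‖ψ‖ := fun N => by
    have e : f = ∑ n ∈ Finset.range N, T n + (f - ∑ n ∈ Finset.range N, T n) := by abel
    rw [e, inner_add_left]
    refine add_le_add ?_ ((real_inner_le_norm _ _).trans
      (mul_le_mul_of_nonneg_right (norm_le_of_sup fun x => ?_) (norm_nonneg _)))
    · refine (le_abs_self _).trans ((abs_inner_le_nrm le_rfl t _ _).trans
        (mul_le_mul_of_nonneg_right ?_ (nrm_nonneg _ _ _)))
      exact (nrm_sum_le _ _ _ _).trans ((Finset.sum_le_sum fun n _ => hT n).trans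
        (sum_le_hasSum _ (fun n _ => b0 n) hb))
    · rw [Sm.sub_apply, Sm.sum_apply, ← Real.norm_eq_abs]
      refine ((hasSum_nat_add_iff' N).2 (hf x)).norm_le_of_bounded
        (((hasSum_nat_add_iff' N).2 hb).mul_left 5) fun n => ?_
      rw [Real.norm_eq_abs]
      exact (nrmx_sup _ x).trans (mul_le_mul_of_nonneg_left
        ((nrm_mono le_rfl ht _).trans (hT _)) (by norm_num))
  have h2 := (((hb.tendsto_sum_nat.const_sub β).const_mul 5).mul_const ‖ψ‖).const_add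
    (β * nrm 1 (-t) ψ)
  rw [sub_self, mul_zero, zero_mul, add_zero] at h2
  exact ge_of_tendsto' h2 h1

theorem prodx_binom (p : ℝ) {y : ℝ} (hy : |y| < 1) :
    HasSum (fun n => Ring.choose p n * y ^ n) ((1 + y) ^ p) := by
  have h := (Real.one_add_rpow_hasFPowerSeriesOnBall_zero (a := p)).hasSum (y := y)
    (by simpa [← ofReal_norm, Real.norm_eq_abs] using hy)
  simpa only [binomialSeries_apply, List.ofFn_const, List.prod_replicate, smul_eq_mul, zero_add]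
    using h

theorem prodx_coef (p : ℝ) : ∃ M, 0 ≤ M ∧ ∀ n, |Ring.choose p n| ≤ M * 2 ^ n := by
  have h := (prodx_binom p (y := 1 / 2) (by norm_num [abs_lt])).summable.tendsto_atTop_zero.abs
  obtain ⟨M, hM⟩ := h.bddAbove_range
  refine ⟨M, (abs_nonneg _).trans (hM ⟨0, rfl⟩), fun n => ?_⟩
  have h1 : |Ring.choose p n * (1 / 2) ^ n| ≤ M := hM ⟨n, rfl⟩
  rw [abs_mul, abs_of_pos (by positivity : (0 : ℝ) < (1 / 2) ^ n), one_div, inv_pow,
    ← div_eq_mul_inv, div_le_iff₀ (by positivity)] at h1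
  exact h1

theorem prodx_two (p : ℝ) : Ring.choose p 2 = p * (p - 1) / 2 := by
  have h := Ring.choose_smul_choose p (n := 2) (k := 1) (by norm_num)
  norm_num [Ring.choose_one_right] at h
  linarith

/-- inverse and square root of `1 + u` for small `u`, in Sobolev norms -/
theorem nrm_rpow (s : ℕ) (hs : 7 ≤ s) (p : ℝ) : ∃ C δ, 0 < δ ∧ ∀ (σ : ℝ) (u : Sm),
    σ = 0 ∨ σ = 1 / 2 → nrm 1 (σ + s) u ≤ δ →
    (∀ x, |u x| ≤ 1 / 2) ∧
    nrm 1 (σ + s) (cp (fun t => (1 + t) ^ p) u - 1) ≤ C * nrm 1 (σ + s) u ∧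
    nrm 1 (σ + s) (cp (fun t => (1 + t) ^ p) u - 1 - p • u) ≤ C * nrm 1 (σ + s) u ^ 2 ∧
    nrm 1 (σ + s) (cp (fun t => (1 + t) ^ p) u - 1 - p • u - (p * (p - 1) / 2) • (u * u))
      ≤ C * nrm 1 (σ + s) u ^ 3 := by
  obtain ⟨K, hK, h1⟩ := nrm_mul s s s le_rfl le_rfl (by omega)
  obtain ⟨M, hM, h2⟩ := prodx_coef p
  refine ⟨2 * M * (2 * K + 1) ^ 3, 1 / (4 * K + 10), by positivity, fun σ u hσ hu => ?_⟩
  have ht : (3 : ℝ) ≤ σ + s := by
    have : (7 : ℝ) ≤ s := by exact_mod_cast hs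
    rcases hσ with rfl | rfl <;> linarith
  have hN := nrm_nonneg 1 (σ + s) u
  rw [le_div_iff₀ (by positivity)] at hu
  have hKN := mul_nonneg hK hN
  have h3 : ∀ x, |u x| ≤ 1 / 2 := fun x => by
    have := (nrmx_sup u x).trans (mul_le_mul_of_nonneg_left (nrm_mono le_rfl ht u) (by norm_num))
    nlinarith
  have hg : ∀ x, ContDiffAt ℝ ∞ (fun t : ℝ => (1 + t) ^ p) (u x) := fun x =>
    (contDiffAt_const.add contDiffAt_id).rpow_const_of_ne (by
      have := (abs_le.1 (h3 x)).1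
      show 1 + u x ≠ 0
      linarith)
  have h4 : ∀ m : ℕ, nrm 1 (σ + s) (u ^ m) ≤ (K * nrm 1 (σ + s) u) ^ m := fun m => by
    induction m with
    | zero => rw [pow_zero, pow_zero, nrm_one]
    | succ m ih =>
      rw [pow_succ, pow_succ]
      refine (h1 σ _ _ hσ).trans ((mul_le_mul_of_nonneg_right (mul_le_mul_of_nonneg_left ih hK)
        hN).trans_eq ?_)
      ring
  have key : ∀ j ≤ 3, nrm 1 (σ + s) (cp (fun t => (1 + t) ^ p) u -
      ∑ n ∈ Finset.range j, Ring.choose p n • u ^ n) ≤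
      2 * M * (2 * K + 1) ^ 3 * nrm 1 (σ + s) u ^ j := fun j hj => by
    refine (prodx_series ht (T := fun n => Ring.choose p (n + j) • u ^ (n + j))
      (hasSum_geometric_two.mul_left (M * (2 * K * nrm 1 (σ + s) u) ^ j)) (fun n => ?_)
      fun x => ?_).trans ?_
    · rw [nrm_smul]
      refine (mul_le_mul (h2 _) (h4 _) (nrm_nonneg _ _ _) (by positivity)).trans ?_
      rw [mul_assoc, ← mul_pow, ← mul_assoc, pow_add, mul_comm (_ ^ n), mul_assoc M]
      refine mul_le_mul_of_nonneg_left (mul_le_mul_of_nonneg_left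
        (pow_le_pow_left₀ (by positivity) ?_ n) (by positivity)) hM
      nlinarith
    · have h5 := (hasSum_nat_add_iff' j).2 (prodx_binom p (y := u x) ((h3 x).trans_lt (by norm_num)))
      simpa only [Sm.sub_apply, Sm.sum_apply, Sm.smul_apply, Sm.pow_apply, cp_apply hg] using h5
    · have h5 : (2 * K) ^ j ≤ (2 * K + 1) ^ 3 :=
        (pow_le_pow_left₀ (by positivity) (by linarith) j).trans
          (pow_le_pow_right₀ (by linarith) hj)
      have h6 := mul_le_mul_of_nonneg_right h5 (mul_nonneg hM (pow_nonneg hN j))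
      rw [mul_pow]
      nlinarith
  refine ⟨h3, ?_, ?_, ?_⟩
  · simpa [Ring.choose_zero_right] using key 1 (by norm_num)
  · have h5 := key 2 (by norm_num)
    rwa [Finset.sum_range_succ, Finset.sum_range_one, Ring.choose_zero_right, Ring.choose_one_right,
      pow_zero, pow_one, one_smul, ← sub_sub] at h5
  · have h5 := key 3 le_rfl
    rwa [Finset.sum_range_succ, Finset.sum_range_succ, Finset.sum_range_one,
      Ring.choose_zero_right, Ring.choose_one_right, prodx_two, pow_zero, pow_one, one_smul,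
      sq, ← sub_sub, ← sub_sub] at h5

end Pool.Agent.Lib.MP_2fa2a2_gt.PI
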