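import Pool.Agent.Lib.MP_2fa2a2_gt.PI.SChain
import Pool.Agent.Lib.MP_2fa2a2_gt.PI.Prod
import Pool.Agent.Lib.MP_2fa2a2_gt.PI.ChY

namespace Pool.Agent.Lib.MP_2fa2a2_gt.PI

variable {N n : ℕ} {k : ℝ}

/-- the quadratic term -/
noncomputable def chq (k : ℝ) (u : Sm) : Sm := (k * (k - 1) / 2) • (u * u) - (k / 2) • gd u u

/-- expansion of `Ψ` up to order three -/
def ChT (N n : ℕ) (k : ℝ) (Ψ : Sm → Sm) (A : Sm →ₗ[ℝ] Sm) : Prop :=
  ChO N n 1 Ψ ∧ (ChO N n 2 fun u => Ψ u - k • A u) ∧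
    ChO N n 3 fun u => Ψ u - k • A u - (A (chq k u) + k • gd u (A u))

theorem ch_gd_add (f g g' : Sm) : gd f (g + g') = gd f g + gd f g' := by
  simp only [alg_gd, map_add]; ring

theorem ch_gd_sub (f g g' : Sm) : gd f (g - g') = gd f g - gd f g' := by
  simp only [alg_gd, map_sub]; ring

theorem ch_gd_smul (f g : Sm) (r : ℝ) : gd f (r • g) = r • gd f g := by
  simp only [alg_gd, map_smul, mul_smul_comm, smul_add]

theorem ChT.add {Ψ Ψ' : Sm → Sm} {A A' : Sm →ₗ[ℝ] Sm} (h : ChT N n k Ψ A) (h' : ChT N n k Ψ' A') :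
    ChT N n k (fun u => Ψ u + Ψ' u) (A + A') :=
  ⟨h.1.add h'.1, (h.2.1.add h'.2.1).eq fun u => by
    simp only [LinearMap.add_apply]; module, (h.2.2.add h'.2.2).eq fun u => by
    simp only [LinearMap.add_apply, ch_gd_add]; module⟩

theorem ChT.smul {Ψ : Sm → Sm} {A : Sm →ₗ[ℝ] Sm} (h : ChT N n k Ψ A) (r : ℝ) :
    ChT N n k (fun u => r • Ψ u) (r • A) :=
  ⟨h.1.smul r, (h.2.1.smul r).eq fun u => by
    simp only [LinearMap.smul_apply]; module, (h.2.2.smul r).eq fun u => by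
    simp only [LinearMap.smul_apply, ch_gd_smul]; module⟩

theorem ChT.mono {Ψ : Sm → Sm} {A : Sm →ₗ[ℝ] Sm} {n' : ℕ} (h : ChT N n k Ψ A) (hn : n' ≤ n) :
    ChT N n' k Ψ A := ⟨h.1.mono hn le_rfl, h.2.1.mono hn le_rfl, h.2.2.mono hn le_rfl⟩

theorem ChT.eq {Ψ Ψ' : Sm → Sm} {A A' : Sm →ₗ[ℝ] Sm} (h : ChT N n k Ψ A) (e : ∀ u, Ψ' u = Ψ u)
    (e' : ∀ u, A' u = A u) : ChT N n k Ψ' A' := by
  rw [funext e, LinearMap.ext e']; exact h

theorem ch_Lt (u : Sm) (a : Fin 3) (φ : Sm) : Lt u a φ = L a φ - gd (L a u) φ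
    + ∑ b, (Wf u a b - L a (X b) + D b (L a u)) * D b φ := by
  rw [L_eq_sum_D a φ, gd_eq_D, ← Finset.sum_sub_distrib, ← Finset.sum_add_distrib, Lt,
    LinearMap.sum_apply]
  refine Finset.sum_congr rfl fun b _ => ?_
  show Wf u a b * D b φ = _
  ring

theorem ch_Lt_one (u : Sm) (a : Fin 3) (φ : Sm) : Lt u a (φ - 1) = Lt u a φ := by
  rw [map_sub, Lt, LinearMap.sum_apply, LinearMap.sum_apply]
  simp

theorem ChT.step {Ψ : Sm → Sm} {A : Sm →ₗ[ℝ] Sm} (hG : ChEv N fun _ u => Good u) (hN : 9 ≤ N)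
    (hn : n + 2 ≤ N) (h : ChT N (n + 1) k Ψ A) (a : Fin 3) :
    ChT N n k (fun u => Lt u a (Ψ u)) (L a ∘ₗ A) := by
  obtain ⟨M, rfl⟩ : ∃ M, N = M + 2 := ⟨N - 2, by omega⟩
  have hu : ChO (M + 2) (M + 1) 1 fun u => L a u := (cho_id le_rfl).L a
  have hE := cho_sum Finset.univ fun b =>
    (chy_Wf hG le_rfl (by omega) a b).mul (h.1.D b) (n := n) (by omega) le_rfl (by omega)
  have g1 := hu.gd h.1 (n := n) (by omega) le_rfl (by omega)
  have g2 := hu.gd h.2.1 (n := n) (by omega) le_rfl (by omega)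
  refine ⟨(((h.1.L a).sub (g1.mono le_rfl (by omega))).add (hE.mono le_rfl (by omega))).eq
      fun u => ch_Lt u a _,
    (((h.2.1.L a).sub g1).add (hE.mono le_rfl (by omega))).eq fun u => ?_,
    (((h.2.2.L a).sub g2).add hE).eq fun u => ?_⟩
  · simp only [ch_Lt, LinearMap.comp_apply, map_sub, map_smul]
    module
  · simp only [ch_Lt, LinearMap.comp_apply, map_sub, map_add, map_smul, L_gd, ch_gd_sub, ch_gd_smul]
    module

theorem ch_base0 (hG : ChEv N fun _ u => Good u) (hN : 9 ≤ N) (hn : n + 1 ≤ N) :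
    ChT N n k (fun u => pk k u - 1) LinearMap.id :=
  ChT.mono (n := N - 1) (chy_pk hG (by omega) (by omega) k) (by omega)

theorem ch_base1 (hG : ChEv N fun _ u => Good u) (hN : 9 ≤ N) (hn : n + 1 ≤ N) (a : Fin 3) :
    ChT N n k (fun u => Lt u a (pk k u - 1)) (L a) := by
  obtain ⟨M, rfl⟩ : ∃ M, N = M + 1 := ⟨N - 1, by omega⟩
  refine ChT.mono (n := M) ?_ (by omega)
  have h7 : 7 ≤ M := by omega
  have hu : ChO (M + 1) M 1 fun u => L a u := (cho_id le_rfl).L a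
  obtain ⟨p1, p2, -⟩ := chy_pk hG le_rfl h7 k
  obtain ⟨i1, i2⟩ := chy_hinv hG (Nat.le_succ M) h7
  refine ⟨(((p1.one_add.mul' i1.one_add h7).mul' hu h7).smul k).congr hG fun u hu => ?_,
    (((((p1.mul' i1.one_add h7).add i1).mul' hu h7)).smul k).congr hG fun u hu => ?_,
    (((((p2.add i2).add (p1.mul' i1 h7)).mul' hu h7)).smul k).congr hG fun u hu => ?_⟩
  · rw [ch_Lt_one, hu.Lt_pk]
  · beta_reduce
    rw [ch_Lt_one, hu.Lt_pk]
    ext x
    simp only [Sm.add_apply, Sm.sub_apply, Sm.mul_apply, Sm.smul_apply, Sm.one_apply]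
    ring
  · beta_reduce
    rw [ch_Lt_one, hu.Lt_pk, chq, map_sub, map_smul, map_smul, L_mul, L_gd, gd_comm (L a u) u]
    ext x
    simp only [Sm.add_apply, Sm.sub_apply, Sm.mul_apply, Sm.smul_apply, Sm.one_apply]
    ring

theorem ch_ind (hG : ChEv N fun _ u => Good u) (hN : 9 ≤ N) (h : ℝ) (i : ℕ) :
    (∀ n, n + 2 * i ≤ N → n + 1 ≤ N → ChT N n k (fun u => DT u h i (pk k u) - 1) (DD h i)) ∧
    ∀ a n, n + 2 * i + 1 ≤ N →
      ChT N n k (fun u => Lt u a (DT u h i (pk k u) - 1)) (L a ∘ₗ DD h i) := by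
  induction i with
  | zero =>
    exact ⟨fun n _ hn => (ch_base0 hG hN hn).eq (fun u => by rw [DT, leib_DG_zero])
      (leib_DD_zero h), fun a n hn => (ch_base1 hG hN hn a).eq (fun u => by rw [DT, leib_DG_zero])
        fun u => by rw [LinearMap.comp_apply, leib_DD_zero]⟩
  | succ i ih =>
    have key : ∀ n, n + 2 * (i + 1) ≤ N →
        ChT N n k (fun u => DT u h (i + 1) (pk k u) - 1) (DD h (i + 1)) := fun n hn => by
      have h1 := fun a => (ih.2 a (n + 1) (by omega)).step hG hN (by omega) a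
      refine ((ih.1 n (by omega) (by omega)).add
        ((((h1 0).add (h1 1)).add (h1 2)).smul (-h ^ 2))).eq (fun u => ?_) fun u => ?_
      · simp only [DT, leib_DG_succ, ch_Lt_one, Fin.sum_univ_three]
        module
      · simp only [leib_DD_succ, alg_lap, LinearMap.add_apply, LinearMap.smul_apply,
          LinearMap.comp_apply]
        module
    exact ⟨fun n hn _ => key n hn, fun a n hn => (key (n + 1) (by omega)).step hG hN (by omega) a⟩

theorem ch (hA : PullAStmt) : ChStmt := by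
  refine ⟨5, fun j hj h _ _ => ?_⟩
  have hG := chy_good (N := 2 * j) hA (by omega)
  have key := fun k : ℝ =>
    ((ch_ind (k := k) hG (by omega) h j).1 0 (by omega) (by omega)).2.2
  obtain ⟨C, hC, h1⟩ := key 1
  obtain ⟨C', hC', h2⟩ := key 2
  obtain ⟨δ, hδ, h3⟩ := h1.and h2
  refine ⟨C + C', δ, add_nonneg hC hC', hδ, fun k σ u hk hσ hu => ?_⟩
  have h4 := h3 σ u hσ (by push_cast; exact hu)
  have e : Br k h j u u = DD h j (chq k u) + k • gd u (DD h j u) := by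
    rw [Br, chq]; module
  have h0 : 0 ≤ nrm 1 (σ + 2 * j) u ^ 3 := pow_nonneg (nrm_nonneg _ _ _) 3
  rw [e]
  simp only [Nat.cast_zero, add_zero, Nat.cast_mul, Nat.cast_ofNat] at h4
  rcases hk with rfl | rfl
  · exact h4.1.trans (mul_le_mul_of_nonneg_right (by linarith) h0)
  · exact h4.2.trans (mul_le_mul_of_nonneg_right (by linarith) h0)

end Pool.Agent.Lib.MP_2fa2a2_gt.PI
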