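import Pool.Agent.Lib.MP_2fa2a2_gt.PI.SChain
import Pool.Agent.Lib.MP_2fa2a2_gt.PI.Prod

namespace Pool.Agent.Lib.MP_2fa2a2_gt.PI

theorem cha_Vb (f y ψ : Sm) : inner ℝ (Vb f y) ψ = -inner ℝ y (gd f ψ) := by
  simp only [Vb, gd, LinearMap.sum_apply, LinearMap.comp_apply, LinearMap.mulLeft_apply,
    sum_inner, inner_sum, inner_L, inner_mul, Finset.sum_neg_distrib]

theorem cha_lap_gd (f ψ : Sm) : lap (gd f ψ) = gd (lap f) ψ
    + (2 : ℝ) • ∑ b, ∑ c, L b (L c f) * L b (L c ψ) + gd f (lap ψ) := by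
  rw [Finset.sum_comm]
  simp only [gd, map_sum, lap_mul, lap_L, Finset.sum_add_distrib, funk_two, Finset.smul_sum]

theorem cha_P1 (k : ℝ) (j : ℕ) (f φ : Sm) : P1 k j f φ = (k * (k - 1)) • (f * φ)
    + (j * k) • (lap (gd f (Sh 1 φ)) - gd (lap f) (Sh 1 φ) - gd f (lap (Sh 1 φ))) := by
  rw [cha_lap_gd]
  simp only [P1, Tm, LinearMap.sub_apply, LinearMap.smul_apply, LinearMap.sum_apply,
    LinearMap.comp_apply, LinearMap.mulLeft_apply, LinearMap.neg_apply, mul_neg,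
    Finset.sum_neg_distrib]
  module

theorem cha_P1_add (k : ℝ) (j : ℕ) (f g φ : Sm) :
    P1 k j (f + g) φ = P1 k j f φ + P1 k j g φ := by
  simp only [cha_P1, map_add, tau_gd_add, add_mul]
  module

theorem cha_P1_act (k : ℝ) (j : ℕ) (r : E3 ≃ₗᵢ[ℝ] E3) (f φ : Sm) :
    P1 k j (act r f) (act r φ) = act r (P1 k j f φ) := by
  have e : Sh 1 (act r φ) = act r (Sh 1 φ) := fn_act _ r φ
  simp only [cha_P1, e, lap_act, gd_act, map_add, map_sub, map_smul, map_mul]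

theorem cha_Bop (f φ : Sm) : Bop f φ = (4 : ℝ) • Dp (Qf f φ) := rfl

/-- the part of the form that is paired with `Ri y` -/
noncomputable def chaA (j : ℕ) (f φ : Sm) : Sm :=
  (2 : ℝ) • (P1 1 j ((2 : ℝ) • R f) (R φ) - gd ((2 : ℝ) • R f) (R φ))

/-- the part of the form that is paired with `y` -/
noncomputable def chaB (j : ℕ) (f φ : Sm) : Sm :=
  (2 : ℝ) • gd f φ + Bop f φ - P1 2 j f φ

theorem cha_t0 (j : ℕ) (f y φ : Sm) :
    t0 j f y φ = inner ℝ (Ri y) (chaA j f φ) + inner ℝ y (chaB j f φ) := by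
  simp only [t0, chaA, chaB, LinearMap.add_apply, LinearMap.sub_apply, LinearMap.smul_apply,
    ip_apply, LinearMap.comp_apply, LinearMap.id_apply, cha_Vb, inner_add_right, inner_sub_right,
    inner_smul_right, smul_eq_mul]
  ring

theorem cha_add (j : ℕ) (f g y φ : Sm) : t0 j (f + g) y φ = t0 j f y φ + t0 j g y φ := by
  simp only [cha_t0, chaA, chaB, cha_Bop, map_add, smul_add, cha_P1_add, tau_gd_add,
    LinearMap.add_apply, inner_add_right, inner_sub_right, inner_smul_right]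
  ring

theorem cha_act (j : ℕ) (k : E3 ≃ₗᵢ[ℝ] E3) (f y φ : Sm) :
    t0 j (act k f) (act k y) (act k φ) = t0 j f y φ := by
  have eA : chaA j (act k f) (act k φ) = act k (chaA j f φ) := by
    simp only [chaA, tau_R_act, ← map_smul (act k), cha_P1_act, gd_act, ← map_sub (act k)]
  have eB : chaB j (act k f) (act k φ) = act k (chaB j f φ) := by
    simp only [chaB, cha_Bop, Qf_act, tau_Dp_act, cha_P1_act, gd_act, map_add, map_sub, map_smul]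
  rw [cha_t0, cha_t0, eA, eB, tau_Ri_act, inner_act, inner_act]

theorem cha_Qf (ψ f g : Sm) : 2 * inner ℝ ψ (Qf f g)
    = inner ℝ (Dop ψ) (f * g - gd f g) + beta ψ f g := by
  have h1 := I_mul_Qf f ψ g
  rw [Qf_comm ψ g, ← I_mul_Qf_symm ψ g f, Qf_comm g f] at h1
  rw [inner_def, inner_def, h1, beta_def, mul_sub, map_sub, map_sub, mul_comm (f * g)]
  ring

/-- the exact identity -/
theorem cha_ident (h : ℝ) (j : ℕ) (f g : Sm) {y : Sm} (hy : y ∈ Ev) :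
    2 * tau f g (DD h j y) - t0 j f y (DD h j g) - t0 j g y (DD h j f)
      = 2 * inner ℝ y (DD h j ((2 : ℝ) • Dp (Qf f g))
          - (1 / 2 : ℝ) • (Bop f (DD h j g) + Bop g (DD h j f)))
        + 2 * inner ℝ (Ri y) (Br 1 h j ((2 : ℝ) • R f) ((2 : ℝ) • R g)
          - (1 / 2 : ℝ) • (P1 1 j ((2 : ℝ) • R f) (DD h j ((2 : ℝ) • R g))
            + P1 1 j ((2 : ℝ) • R g) (DD h j ((2 : ℝ) • R f))))
        - 2 * inner ℝ y (Br 2 h j f g
          - (1 / 2 : ℝ) • (P1 2 j f (DD h j g) + P1 2 j g (DD h j f))) := by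
  have c1 : ∀ φ, R (DD h j φ) = DD h j (R φ) := fun φ => fn_comm _ _ φ
  have c2 : ∀ φ ψ, inner ℝ φ (DD h j ψ) = inner ℝ (DD h j φ) ψ := fun φ ψ => (inner_fn _ φ ψ).symm
  have c3 : ∀ φ ψ, inner ℝ φ (Dp ψ) = inner ℝ (Dp φ) ψ := fun φ ψ => (inner_fn _ φ ψ).symm
  have c4 : DD h j (Ri y) = Ri (DD h j y) := fn_comm _ _ y
  have h1 := cha_Qf (Dp (DD h j y)) f g
  rw [Dop_Dp_Ev (show DD h j y ∈ Ev from fn_mem_Ev _ hy), ← tb_def, inner_sub_right] at h1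
  have h2 : tg f g (DD h j y) = inner ℝ (Ri (DD h j y)) (gd (R f) (R g)) := rfl
  have h3 : inner ℝ y (DD h j (Dp (Qf f g))) = inner ℝ (Dp (DD h j y)) (Qf f g) := by
    rw [c2, c3]
  have h4 : inner ℝ (Ri y) (DD h j (gd (R f) (R g))) = tg f g (DD h j y) := by
    rw [c2, c4, h2]
  have h5 := c2 y (f * g)
  have h6 := c2 y (gd f g)
  simp only [cha_t0, chaA, chaB, Br, tau_def, c1, map_smul, map_sub, tau_gd_smul, tau_gd_smul',
    inner_add_right, inner_sub_right, inner_smul_right]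
  linarith

theorem cha_gd : ∃ C, 0 ≤ C ∧ ∀ (n : ℤ) (b : ℝ) (u φ : Sm), |n| ≤ 2 → Cb 2 1 b u →
    nrm 1 (n / 2) (gd u φ) ≤ C * b * nrm 1 (n / 2 + 1) φ := by
  obtain ⟨C, hC, h⟩ := Bd_ml 1
  refine ⟨3 * C, by positivity, fun n b u φ hn hu => ?_⟩
  have h1 : ∀ c, nrm 1 (n / 2) (L c u * L c φ) ≤ C * b * nrm 1 (n / 2 + 1) φ := fun c => by
    have h2 := h n le_rfl (hu.L c) (by simpa using hn) (L c φ)
    rw [mul_one] at h2
    exact h2.trans (mul_le_mul_of_nonneg_left (nrm_L le_rfl _ c φ) (mul_nonneg hC hu.nonneg))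
  refine (nrm_sum_le _ _ _ _).trans ?_
  rw [Fin.sum_univ_three]
  linarith [h1 0, h1 1, h1 2]

theorem cha_bound {j : ℕ} {C : ℝ} (hC : 0 ≤ C) (hj : 6 ≤ j)
    (hP : ∀ (k : ℝ) (u : Sm) (b : ℝ) (n : ℤ), k = 1 ∨ k = 2 → |n| ≤ 4 → Cb 8 1 b u →
      Bd 1 (n / 2) (n / 2) (C * b) (P1 k j u) ∧ Bd 1 (n / 2) (n / 2) (C * b) (Bop u)) :
    ∃ C', 0 ≤ C' ∧ ∀ (n : ℤ) (g y φ : Sm), n = 0 ∨ n = 1 →
      |t0 j g y φ| ≤ C' * nrm 1 (2 * j) g * nrm 1 (-(n / 2)) y * nrm 1 (n / 2 + 1) φ := by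
  obtain ⟨C1, hC1, h1⟩ := cha_gd
  obtain ⟨C2, hC2, h2⟩ := tau_sob
  refine ⟨(16 * (C + C1) + 2 * (C + C1)) * C2, by positivity, fun n g y φ hn => ?_⟩
  obtain ⟨g1, g2⟩ := h2 8 (2 * j) g (by
    have : (6 : ℝ) ≤ j := by exact_mod_cast hj
    push_cast
    linarith)
  set b := C2 * nrm 1 (2 * j) g with hb
  have b0 : 0 ≤ b := g1.nonneg
  have g3 := g2.smul 2
  rw [abs_two] at g3
  have n0 : |n| ≤ 1 := by rcases hn with rfl | rfl <;> simp
  have n1 : |n + 1| ≤ 2 := by rcases hn with rfl | rfl <;> simp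
  have e : ((n + 1 : ℤ) : ℝ) / 2 = n / 2 + 1 / 2 := by push_cast; ring
  have p0 := nrm_nonneg 1 (n / 2 + 1) φ
  have a1 := (hP 1 _ _ (n + 1) (Or.inl rfl) (by omega) g3).1 (R φ)
  have a2 := h1 (n + 1) _ _ (R φ) n1 (g3.mono zero_le_one (by norm_num) le_rfl le_rfl)
  rw [e] at a1 a2
  have a3 : nrm 1 (n / 2 + 1 / 2 + 1) (R φ) ≤ 2 * nrm 1 (n / 2 + 1) φ := by
    rw [show (n : ℝ) / 2 + 1 / 2 + 1 = n / 2 + 1 + 1 / 2 by ring]
    exact Bd_R_half _ φ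
  have a4 := (nrm_mono le_rfl (show (n : ℝ) / 2 + 1 / 2 ≤ n / 2 + 1 / 2 + 1 by linarith)
    (R φ)).trans a3
  have a5 : nrm 1 (n / 2 + 1 / 2) (chaA j g φ) ≤ 8 * (C + C1) * b * nrm 1 (n / 2 + 1) φ := by
    unfold chaA
    rw [nrm_smul, abs_two]
    have q1 := nrm_sub_le 1 (n / 2 + 1 / 2) (P1 1 j ((2 : ℝ) • R g) (R φ))
      (gd ((2 : ℝ) • R g) (R φ))
    have q2 := mul_le_mul_of_nonneg_left a4 (show 0 ≤ C * (2 * b) by positivity)
    have q3 := mul_le_mul_of_nonneg_left a3 (show 0 ≤ C1 * (2 * b) by positivity)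
    linarith
  have a6 : nrm 1 (n / 2) (chaB j g φ) ≤ 2 * (C + C1) * b * nrm 1 (n / 2 + 1) φ := by
    unfold chaB
    obtain ⟨q1, q2⟩ := hP 2 _ _ n (Or.inr rfl) (by omega) g1
    have q3 := h1 n _ _ φ (by omega) (g1.mono zero_le_one (by norm_num) le_rfl le_rfl)
    have q4 := mul_le_mul_of_nonneg_left
      (nrm_mono le_rfl (show (n : ℝ) / 2 ≤ n / 2 + 1 by linarith) φ) (mul_nonneg hC b0)
    have q5 := nrm_sub_le 1 (n / 2) ((2 : ℝ) • gd g φ + Bop g φ) (P1 2 j g φ)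
    have q6 := nrm_add_le 1 (n / 2) ((2 : ℝ) • gd g φ) (Bop g φ)
    rw [nrm_smul, abs_two] at q6
    linarith [q1 φ, q2 φ]
  have a7 : nrm 1 (-(n / 2 + 1 / 2)) (Ri y) ≤ 2 * nrm 1 (-(n / 2)) y := by
    have := Bd_Ri le_rfl (-(n / 2 + 1 / 2)) y
    rwa [show -((n : ℝ) / 2 + 1 / 2) + 1 / 2 = -(n / 2) by ring] at this
  have a8 := abs_inner_le_nrm le_rfl (n / 2 + 1 / 2) (chaA j g φ) (Ri y)
  have a9 := abs_inner_le_nrm le_rfl (n / 2) (chaB j g φ) y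
  rw [real_inner_comm] at a8 a9
  have y0 := nrm_nonneg 1 (-(n / 2)) y
  have q1 := mul_le_mul a5 a7 (nrm_nonneg _ _ _) (by positivity)
  have q2 := mul_le_mul_of_nonneg_right a6 y0
  rw [cha_t0]
  refine (abs_add_le _ _).trans ?_
  calc _ ≤ (16 * (C + C1) + 2 * (C + C1)) * b * nrm 1 (-(n / 2)) y * nrm 1 (n / 2 + 1) φ := by
        linarith
    _ = _ := by rw [hb]; ring

theorem chainA (hL : LowStmt) : ChainAStmt := by
  obtain ⟨j0, hL⟩ := hL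
  refine ⟨max j0 6, fun j hj h hh h1 => ⟨cha_add j, cha_act j, ?_⟩⟩
  obtain ⟨C, hC, l1, l2, l3⟩ := hL j (le_of_max_le_left hj) h hh h1
  obtain ⟨C', hC', hb⟩ := cha_bound hC (le_of_max_le_right hj) l3
  refine ⟨20 * C + C', by positivity, fun f g y φ hy => ?_⟩
  have f0 := nrm_nonneg 1 (2 * j) f
  have g0 := nrm_nonneg 1 (2 * j) g
  have y0 := nrm_nonneg 1 (-(1 / 2)) y
  refine ⟨?_, ?_, ?_⟩
  · rw [cha_ident h j f g hy]
    have a1 := l2 f g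
    have a2 := l1 1 0 ((2 : ℝ) • R f) ((2 : ℝ) • R g) (Or.inl rfl) (Or.inl rfl)
    have a3 := l1 2 0 f g (Or.inr rfl) (Or.inl rfl)
    rw [zero_add, zero_add] at a2 a3
    rw [nrm_smul, nrm_smul, abs_two] at a2
    have r1 := Bd_R le_rfl (2 * j) f
    have r2 := Bd_R le_rfl (2 * j) g
    rw [one_mul] at r1 r2
    have r3 := mul_le_mul_of_nonneg_left (mul_le_mul r1 r2 (nrm_nonneg _ _ _) f0) hC
    have s1 := nrm_mono le_rfl (show (-1 : ℝ) ≤ -(1 / 2) by norm_num) y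
    have s2 : nrm 1 (-1) (Ri y) ≤ 2 * nrm 1 (-(1 / 2)) y := by
      have := Bd_Ri le_rfl (-1) y
      rwa [show (-1 : ℝ) + 1 / 2 = -(1 / 2) by norm_num] at this
    have key : ∀ (u w : Sm) (A B : ℝ), nrm 1 1 u ≤ A → nrm 1 (-1) w ≤ B →
        |inner ℝ w u| ≤ A * B := fun u w A B hA hB => by
      rw [real_inner_comm]
      exact (abs_inner_le_nrm le_rfl 1 u w).trans
        (mul_le_mul hA hB (nrm_nonneg _ _ _) ((nrm_nonneg _ _ _).trans hA))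
    have b1 := abs_le.1 (key _ _ _ _ a1 s1)
    have b2 := abs_le.1 (key _ _ _ _ (a2.trans (show _ ≤ 4 * (C * (nrm 1 (2 * j) f *
      nrm 1 (2 * j) g)) by linarith)) s2)
    have b3 := abs_le.1 (key _ _ _ _ a3 s1)
    have b4 : 0 ≤ C' * nrm 1 (2 * j) f * nrm 1 (2 * j) g * nrm 1 (-(1 / 2)) y := by positivity
    rw [abs_le]
    constructor <;> linarith [b1.1, b1.2, b2.1, b2.2, b3.1, b3.2]
  · have a := hb 0 g y φ (Or.inl rfl)
    rw [Int.cast_zero, zero_div, neg_zero, zero_add, nrm_zero le_rfl] at a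
    have p0 := nrm_nonneg 1 1 φ
    have : 0 ≤ C * nrm 1 (2 * j) g * ‖y‖ * nrm 1 1 φ := by positivity
    linarith
  · have a := hb 1 g y φ (Or.inr rfl)
    rw [Int.cast_one] at a
    have p0 := nrm_nonneg 1 10 φ
    have p1 := mul_le_mul_of_nonneg_left
      (nrm_mono le_rfl (show (1 : ℝ) / 2 + 1 ≤ 10 by norm_num) φ)
      (show 0 ≤ C' * nrm 1 (2 * j) g * nrm 1 (-(1 / 2)) y by positivity)
    have : 0 ≤ C * nrm 1 (2 * j) g * nrm 1 (-(1 / 2)) y * nrm 1 10 φ := by positivity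
    linarith

end Pool.Agent.Lib.MP_2fa2a2_gt.PI
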