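import Pool.Agent.Lib.MP_2fa2a2_gt.PI.ChainBX
import Pool.Agent.Lib.MP_2fa2a2_gt.PI.Prod

/-! Norm bounds for the comparison of the equation with the quadratic model. -/

namespace Pool.Agent.Lib.MP_2fa2a2_gt.PI

theorem chb_pair {T : Sm →ₗ[ℝ] Sm} {r s c N : ℝ} (hT : Bd 1 r (-s) c T) {W : Sm}
    (hW : nrm 1 s W ≤ N) (y : Sm) :
    |inner ℝ (T y) W| ≤ c * N * nrm 1 r y := by
  have h1 := abs_inner_le_nrm le_rfl s W (T y)
  rw [real_inner_comm] at h1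
  calc |inner ℝ (T y) W| ≤ nrm 1 s W * nrm 1 (-s) (T y) := h1
    _ ≤ N * (c * nrm 1 r y) :=
      mul_le_mul hW (hT y) (nrm_nonneg _ _ _) ((nrm_nonneg _ _ _).trans hW)
    _ = c * N * nrm 1 r y := by ring

theorem chb_pair0 {T : Sm →ₗ[ℝ] Sm} {s c N : ℝ} (hT : Bd 1 0 (-s) c T) {W : Sm}
    (hW : nrm 1 s W ≤ N) (y : Sm) : |inner ℝ (T y) W| ≤ c * N * ‖y‖ := by
  rw [← nrm_zero le_rfl y]
  exact chb_pair hT hW y

theorem chb_Ri (y : Sm) : nrm 1 (-(1 / 2)) (Ri y) ≤ 2 * ‖y‖ := by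
  have h := Bd_Ri le_rfl (-(1 / 2)) y
  rwa [neg_add_cancel, nrm_zero le_rfl] at h

theorem chb_pair1 {T : Sm →ₗ[ℝ] Sm} {s c N : ℝ} (hT : Bd 1 (-(1 / 2)) (-s) c T) {W : Sm}
    (hW : nrm 1 s W ≤ N) (hc : 0 ≤ c) (y : Sm) :
    |inner ℝ (T (Ri y)) W| ≤ 2 * c * N * ‖y‖ := by
  have hN : 0 ≤ N := (nrm_nonneg _ _ _).trans hW
  calc |inner ℝ (T (Ri y)) W| ≤ c * N * nrm 1 (-(1 / 2)) (Ri y) := chb_pair hT hW _
    _ ≤ c * N * (2 * ‖y‖) := mul_le_mul_of_nonneg_left (chb_Ri y) (mul_nonneg hc hN)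
    _ = 2 * c * N * ‖y‖ := by ring

/-- the mapping properties of the pull back that are used -/
structure ChbP (c ε : ℝ) (u : Sm) : Prop where
  good : Good (ε • u)
  a1 : Bd 1 (-(1 / 2)) (-(1 / 2)) c (XX (ε • u))
  a0 : Bd 1 0 (-0) c (XX (ε • u))
  b1 : Bd 1 (-(1 / 2)) (-(3 / 2)) (c * ε) (XX (ε • u) - LinearMap.id)
  b0 : Bd 1 0 (-1) (c * ε) (XX (ε • u) - LinearMap.id)
  c1 : Bd 1 (-(1 / 2)) (-(5 / 2)) (c * ε ^ 2) (XX (ε • u) - LinearMap.id - Vb (ε • u))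
  c0 : Bd 1 0 (-2) (c * ε ^ 2) (XX (ε • u) - LinearMap.id - Vb (ε • u))

theorem chb_pull (hB : PullBStmt) : ∃ K : ℕ, ∀ M : ℝ, 0 ≤ M → ∃ c ε1 : ℝ, 0 ≤ c ∧ 0 < ε1 ∧
    ∀ (ε : ℝ) (u : Sm), 0 < ε → ε ≤ ε1 → Cb K 1 M u → ChbP c ε u := by
  obtain ⟨K, C, δ, hC, hδ, H⟩ := hB
  refine ⟨K, fun M hM => ⟨C * (1 + M) ^ 2, δ / (1 + M), by positivity, by positivity, ?_⟩⟩
  intro ε u hε hε1 hu
  have hb : ε * M ≤ δ := by
    rw [le_div_iff₀ (by positivity)] at hε1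
    nlinarith
  have hu' : Cb K 1 (ε * M) (ε • u) := by
    have := hu.smul ε
    rwa [abs_of_pos hε] at this
  obtain ⟨hg, H1, -⟩ := H _ _ hb hu'
  have k0 : C ≤ C * (1 + M) ^ 2 := le_mul_of_one_le_right hC (by nlinarith)
  have k1 : C * (ε * M) ≤ C * (1 + M) ^ 2 * ε := by
    rw [mul_assoc]
    exact mul_le_mul_of_nonneg_left (by nlinarith [mul_nonneg hε.le (sq_nonneg M)]) hC
  have k2 : C * (ε * M) ^ 2 ≤ C * (1 + M) ^ 2 * ε ^ 2 := by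
    rw [mul_assoc]
    exact mul_le_mul_of_nonneg_left (by nlinarith [mul_nonneg (sq_nonneg ε) hM]) hC
  refine ⟨hg, ?_, ?_, ?_, ?_, ?_, ?_⟩
  · exact (H1 (-1) (by decide)).1.mono le_rfl hC (by norm_num) (by norm_num) k0
  · exact (H1 0 (by decide)).1.mono le_rfl hC (by norm_num) (by norm_num) k0
  · exact (H1 (-3) (by decide)).2.2.1.mono le_rfl (by positivity) (by norm_num) (by norm_num) k1
  · exact (H1 (-2) (by decide)).2.2.1.mono le_rfl (by positivity) (by norm_num) (by norm_num) k1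
  · exact (H1 (-5) (by decide)).2.2.2.2.mono le_rfl (by positivity) (by norm_num) (by norm_num) k2
  · exact (H1 (-4) (by decide)).2.2.2.2.mono le_rfl (by positivity) (by norm_num) (by norm_num) k2

theorem chb_Qf_le (k : ℕ) (hk : 7 ≤ k) : ∃ C, 0 ≤ C ∧ ∀ f : Sm,
    nrm 1 k (Qf f f) ≤ C * nrm 1 (k + 2) f ^ 2 := by
  obtain ⟨C1, h1, H1⟩ := nrm_mul k k k le_rfl le_rfl (by omega)
  obtain ⟨C2, h2, H2⟩ := Bd_H (2 * k)
  refine ⟨9 * (C1 * C2 ^ 2), by positivity, fun f => ?_⟩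
  have e : (((2 * k : ℤ) : ℝ)) / 2 = k := by push_cast; ring
  have hH : ∀ a b, nrm 1 k (H a b f) ≤ C2 * nrm 1 (k + 2) f := by
    intro a b
    have := (H2 a b le_rfl).1 f
    rwa [e] at this
  have hM : ∀ a b c d, nrm 1 k (H a b f * H c d f) ≤ C1 * C2 ^ 2 * nrm 1 (k + 2) f ^ 2 := by
    intro a b c d
    have := H1 0 (H a b f) (H c d f) (Or.inl rfl)
    rw [zero_add] at this
    have n0 := nrm_nonneg 1 (k + 2) f
    calc _ ≤ C1 * nrm 1 k (H a b f) * nrm 1 k (H c d f) := this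
      _ ≤ C1 * (C2 * nrm 1 (k + 2) f) * (C2 * nrm 1 (k + 2) f) :=
        mul_le_mul (mul_le_mul_of_nonneg_left (hH a b) h1) (hH c d) (nrm_nonneg _ _ _)
          (by positivity)
      _ = _ := by ring
  have hS : ∀ T : Fin 3 → Fin 3 → Sm, (∀ a b, nrm 1 k (T a b)
      ≤ C1 * C2 ^ 2 * nrm 1 (k + 2) f ^ 2) →
      nrm 1 k (∑ a, ∑ b, T a b) ≤ 9 * (C1 * C2 ^ 2 * nrm 1 (k + 2) f ^ 2) := by
    intro T hT
    refine (nrm_sum_le _ _ _ _).trans ?_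
    refine (Finset.sum_le_sum fun a _ => (nrm_sum_le _ _ _ _).trans
      (Finset.sum_le_sum fun b _ => hT a b)).trans (le_of_eq ?_)
    simp only [Finset.sum_const, Finset.card_univ, Fintype.card_fin, nsmul_eq_mul]
    ring
  have a1 := hS (fun a b => H a a f * H b b f) fun a b => hM a a b b
  have a2 := hS (fun a b => H a b f * H a b f) fun a b => hM a b a b
  rw [← Finset.sum_mul_sum, H_trace] at a1
  rw [Qf_def, nrm_smul, abs_of_pos (by norm_num)]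
  have a3 := nrm_sub_le 1 k (Dop f * Dop f) (∑ a, ∑ b, H a b f * H a b f)
  linarith

/-- the bounds on the functions that are used -/
structure ChbN (j : ℕ) (M ε : ℝ) (f : Sm) : Prop where
  f0 : nrm 1 (0 + 2 * j) f ≤ M
  F0 : nrm 1 (1 / 2 + 2 * j) ((2 : ℝ) • R f) ≤ M
  G : nrm 1 (1 / 2 + 2 * j) (chbG f) ≤ M
  F : nrm 1 (1 / 2 + 2 * j) (FF ε f) ≤ M
  cf : Cb (2 * j - 3) 1 M f
  cF0 : Cb (2 * j - 3) 1 M ((2 : ℝ) • R f)
  cG : Cb (2 * j - 3) 1 M (chbG f)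
  cF : Cb (2 * j - 3) 1 M (FF ε f)

theorem chb_norms (j : ℕ) (hj : 5 ≤ j) (B : ℝ) : ∃ M : ℝ, 0 ≤ M ∧ B ≤ M ∧ ∀ (ε : ℝ) (f : Sm),
    0 < ε → ε ≤ 1 → nrm 1 (2 * j) f ≤ B → ChbN j M ε f := by
  obtain ⟨C1, h1, H1⟩ := chb_Qf_le (2 * j - 2) (by omega)
  obtain ⟨C2, h2, H2⟩ := sobolev
  have e2 : ((2 * j - 2 : ℕ) : ℝ) + 2 = 2 * j := by
    rw [Nat.cast_sub (by omega)]; push_cast; ring
  have e3 : ((2 * j - 3 : ℕ) : ℝ) + 3 = 2 * j := by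
    rw [Nat.cast_sub (by omega)]; push_cast; ring
  set N := 4 * |B| + 8 * (C1 * B ^ 2) with hN
  have b0 := le_abs_self B
  have b1 := abs_nonneg B
  have b2 : 0 ≤ C1 * B ^ 2 := by positivity
  have hN0 : 0 ≤ N := by positivity
  have hNM : N ≤ (1 + C2) * N := by nlinarith
  refine ⟨(1 + C2) * N, by positivity, by linarith, fun ε f hε hε1 hf => ?_⟩
  have hR : ∀ φ, nrm 1 (1 / 2 + 2 * j) (R φ) ≤ 2 * nrm 1 (2 * j) φ := fun φ => by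
    rw [add_comm]; exact Bd_R_half _ φ
  have n1 : nrm 1 (1 / 2 + 2 * j) ((2 : ℝ) • R f) ≤ 4 * |B| := by
    rw [nrm_smul, abs_two]
    linarith [hR f]
  have n2 : nrm 1 (1 / 2 + 2 * j) (chbG f) ≤ 8 * (C1 * B ^ 2) := by
    have a1 := hR ((2 : ℝ) • Dp (Qf f f))
    have a2 := Bd_Dp ((2 * j - 2 : ℕ) : ℝ) (Qf f f)
    have a3 := H1 f
    rw [nrm_smul, abs_two] at a1
    rw [e2] at a2 a3
    have a4 : C1 * nrm 1 (2 * j) f ^ 2 ≤ C1 * B ^ 2 :=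
      mul_le_mul_of_nonneg_left (pow_le_pow_left₀ (nrm_nonneg _ _ _) hf 2) h1
    rw [chbG]
    linarith
  have n3 : nrm 1 (1 / 2 + 2 * j) (FF ε f) ≤ N := by
    rw [chb_FF]
    refine (nrm_add_le _ _ _ _).trans ?_
    rw [nrm_smul _ _ ε, abs_of_pos hε]
    nlinarith [nrm_nonneg 1 (1 / 2 + 2 * j) (chbG f)]
  have hC : ∀ φ, nrm 1 (2 * j) φ ≤ N → Cb (2 * j - 3) 1 ((1 + C2) * N) φ := by
    intro φ hφ
    refine (H2 (2 * j - 3) φ).mono zero_le_one le_rfl le_rfl ?_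
    rw [e3]
    nlinarith [mul_le_mul_of_nonneg_left hφ h2]
  have hC' : ∀ φ, nrm 1 (1 / 2 + 2 * j) φ ≤ N → Cb (2 * j - 3) 1 ((1 + C2) * N) φ :=
    fun φ hφ => hC φ ((nrm_mono le_rfl (by linarith) φ).trans hφ)
  refine ⟨by rw [zero_add]; linarith, by linarith, by linarith, by linarith,
    hC _ (by linarith), hC' _ (by linarith), hC' _ (by linarith), hC' _ n3⟩

end Pool.Agent.Lib.MP_2fa2a2_gt.PI
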