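import Pool.Agent.Lib.MP_2fa2a2_gt.PI.SChain
import Pool.Agent.Lib.MP_2fa2a2_gt.PI.Prod
import Pool.Agent.Lib.MP_2fa2a2_gt.PI.ChainBY

namespace Pool.Agent.Lib.MP_2fa2a2_gt.PI

/-- the content of `LowStmt` for fixed parameters -/
structure ChbLow (j : ℕ) (h C : ℝ) : Prop where
  l1 : ∀ (k σ : ℝ) (u v : Sm), k = 1 ∨ k = 2 → σ = 0 ∨ σ = 1 / 2 →
    nrm 1 (σ + 1) (Br k h j u v - (1 / 2 : ℝ) • (P1 k j u (DD h j v) + P1 k j v (DD h j u)))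
      ≤ C * nrm 1 (σ + 2 * j) u * nrm 1 (σ + 2 * j) v
  l2 : ∀ u v : Sm, nrm 1 1 (DD h j ((2 : ℝ) • Dp (Qf u v))
      - (1 / 2 : ℝ) • (Bop u (DD h j v) + Bop v (DD h j u)))
      ≤ C * nrm 1 (2 * j) u * nrm 1 (2 * j) v
  l3 : ∀ (k : ℝ) (u : Sm) (b : ℝ) (n : ℤ), k = 1 ∨ k = 2 → |n| ≤ 4 → Cb 8 1 b u →
    Bd 1 (n / 2) (n / 2) (C * b) (P1 k j u) ∧ Bd 1 (n / 2) (n / 2) (C * b) (Bop u)

theorem chb_half (w : Sm) : (1 / 2 : ℝ) • (w + w) = w := by module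

theorem chb_mm {C M a b : ℝ} (hC : 0 ≤ C) (hM : 0 ≤ M) (hb0 : 0 ≤ b) (ha : a ≤ M) (hb : b ≤ M) :
    C * a * b ≤ C * M ^ 2 := by
  rw [mul_assoc, sq]
  exact mul_le_mul_of_nonneg_left (mul_le_mul ha hb hb0 hM) hC

section
variable {j : ℕ} {h C M : ℝ}

theorem chb_L (hL : ChbLow j h C) (hC : 0 ≤ C) {k σ : ℝ} (hk : k = 1 ∨ k = 2)
    (hσ : σ = 0 ∨ σ = 1 / 2) {u : Sm} (hu : nrm 1 (σ + 2 * j) u ≤ M) :
    nrm 1 (σ + 1) (chbL k h j u) ≤ C * M ^ 2 := by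
  have := hL.l1 k σ u u hk hσ
  rw [chb_half] at this
  exact this.trans (chb_mm hC ((nrm_nonneg _ _ _).trans hu) (nrm_nonneg _ _ _) hu hu)

theorem chb_B (hL : ChbLow j h C) (hC : 0 ≤ C) {u : Sm} (hu : nrm 1 (0 + 2 * j) u ≤ M) :
    nrm 1 1 (chbB h j u) ≤ C * M ^ 2 := by
  have := hL.l2 u u
  rw [chb_half] at this
  rw [zero_add] at hu
  exact this.trans (chb_mm hC ((nrm_nonneg _ _ _).trans hu) (nrm_nonneg _ _ _) hu hu)

theorem chb_Br (hL : ChbLow j h C) (hC : 0 ≤ C) (hh : 0 ≤ h) (h1 : h ≤ 1) {k σ : ℝ}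
    (hk : k = 1 ∨ k = 2) (hσ : σ = 0 ∨ σ = 1 / 2) {u v : Sm} (hu : nrm 1 (σ + 2 * j) u ≤ M)
    (hv : nrm 1 (σ + 2 * j) v ≤ M) (cu : Cb 8 1 M u) (cv : Cb 8 1 M v) :
    nrm 1 σ (Br k h j u v) ≤ 2 * (C * M ^ 2) := by
  have hM := cu.nonneg
  have hP : ∀ u v : Sm, nrm 1 (σ + 2 * j) v ≤ M → Cb 8 1 M u →
      nrm 1 σ (P1 k j u (DD h j v)) ≤ C * M ^ 2 := by
    intro u v hv cu
    have a : Bd 1 σ σ (C * M) (P1 k j u) := by
      rcases hσ with rfl | rfl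
      · exact (hL.l3 k u M 0 hk (by decide) cu).1.mono le_rfl (by positivity) (by norm_num)
          (by norm_num) le_rfl
      · exact (hL.l3 k u M 1 hk (by decide) cu).1.mono le_rfl (by positivity) (by norm_num)
          (by norm_num) le_rfl
    have b := Bd_DD hh h1 j σ v
    exact (a _).trans (chb_mm hC hM (nrm_nonneg _ _ _) le_rfl (by linarith))
  have a1 := (nrm_mono le_rfl (by linarith : σ ≤ σ + 1) _).trans ((hL.l1 k σ u v hk hσ).trans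
    (chb_mm hC hM (nrm_nonneg _ _ _) hu hv))
  have a2 := nrm_add_le 1 σ (P1 k j u (DD h j v)) (P1 k j v (DD h j u))
  have a3 := nrm_add_le 1 σ
    (Br k h j u v - (1 / 2 : ℝ) • (P1 k j u (DD h j v) + P1 k j v (DD h j u)))
    ((1 / 2 : ℝ) • (P1 k j u (DD h j v) + P1 k j v (DD h j u)))
  rw [sub_add_cancel, nrm_smul, abs_of_pos (by norm_num)] at a3
  linarith [hP u v hv cu, hP v u hu cv]

theorem chb_second (hL : ChbLow j h C) (hC : 0 ≤ C) (hj : 8 ≤ 2 * j - 3) : ∃ A, 0 ≤ A ∧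
    ∀ {c ε : ℝ} {f y : Sm} (φ : Sm), 0 ≤ c → 0 < ε → y ∈ Ev → ChbN j M ε f → ChbP c ε f →
      ChbP c ε (FF ε f) → |tt j ε f y φ - t0 j f y φ|
        ≤ (10 * c + A * M + 13 * (c * (C * M))) * ε * ‖y‖ * nrm 1 2 φ := by
  obtain ⟨A, hA, HA⟩ := abs_gam_le
  refine ⟨6 * A, by positivity, fun {c ε f y} φ hc hε hy N p2 p1 => ?_⟩
  have hM := N.cf.nonneg
  have c8 : ∀ {u : Sm}, Cb (2 * j - 3) 1 M u → Cb 8 1 M u :=
    fun hu => hu.mono zero_le_one hj le_rfl le_rfl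
  have n12 : nrm 1 1 φ ≤ nrm 1 2 φ := nrm_mono le_rfl one_le_two φ
  have n0 := nrm_nonneg 1 2 φ
  have ny := norm_nonneg y
  have hR : ∀ (s t : ℝ) (ψ : Sm), t = s + 1 / 2 → nrm 1 t (R ψ) ≤ 2 * nrm 1 s ψ := by
    rintro s t ψ rfl
    exact Bd_R_half s ψ
  have t1 := chb_pair1 p1.c1 (hR 2 _ φ (by norm_num)) (by positivity) y
  have t2 := chb_pair0 p2.c0 (le_refl (nrm 1 2 φ)) y
  have t3 : |inner ℝ (Ri y) (gd (chbG f) (R φ))| ≤ 3 * (A * M * nrm 1 2 φ * ‖y‖) := by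
    have a : ∀ d, |inner ℝ (Ri y) (L d (chbG f) * L d (R φ))| ≤ A * M * nrm 1 2 φ * ‖y‖ := by
      intro d
      have b : Cb 1 1 (M * 1) (L d (chbG f)) :=
        (N.cG.mono zero_le_one (by omega) le_rfl le_rfl).L d
      rw [mul_one] at b
      rw [inner_def]
      refine (HA d φ y le_rfl b).trans ?_
      gcongr
    rw [alg_gd, inner_add_right, inner_add_right]
    refine (abs_add_three _ _ _).trans ?_
    linarith [a 0, a 1, a 2]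
  have w1 : nrm 1 (3 / 2) ((2 : ℝ) • P1 1 j ((2 : ℝ) • R f) (R φ) + R (Bop f φ))
      ≤ 6 * (C * M * nrm 1 2 φ) := by
    have a1 : Bd 1 (3 / 2) (3 / 2) (C * M) (P1 1 j ((2 : ℝ) • R f)) :=
      (hL.l3 1 _ M 3 (Or.inl rfl) (by decide) (c8 N.cF0)).1.mono le_rfl (by positivity)
        (by norm_num) (by norm_num) le_rfl
    have a2 : Bd 1 2 1 (C * M) (Bop f) :=
      (hL.l3 1 _ M 2 (Or.inl rfl) (by decide) (c8 N.cf)).2.mono le_rfl (by positivity)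
        (by norm_num) (by norm_num) le_rfl
    have a3 := a1 (R φ)
    have a4 := hR 1 (3 / 2) φ (by norm_num)
    have a5 := hR 1 (3 / 2) (Bop f φ) (by norm_num)
    have a6 := a2 φ
    have a7 : C * M * nrm 1 (3 / 2) (R φ) ≤ C * M * (2 * nrm 1 2 φ) :=
      mul_le_mul_of_nonneg_left (by linarith) (by positivity)
    refine (nrm_add_le _ _ _ _).trans ?_
    rw [nrm_smul, abs_two]
    linarith
  have w2 : nrm 1 1 (P1 2 j f φ) ≤ C * M * nrm 1 2 φ :=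
    (hL.l3 2 _ M 2 (Or.inr rfl) (by decide) (c8 N.cf)).1.mono le_rfl (by positivity)
      (by norm_num) (by norm_num) le_rfl φ
  have t4 := chb_pair1 p1.b1 w1 (by positivity) y
  have t5 := chb_pair0 p2.b0 w2 y
  rw [chb_split2 j hε.ne' hy]
  generalize inner ℝ ((XX (ε • FF ε f) - LinearMap.id - Vb (ε • FF ε f) : Sm →ₗ[ℝ] Sm) (Ri y)) (R φ) = x1 at *
  generalize inner ℝ ((XX (ε • f) - LinearMap.id - Vb (ε • f) : Sm →ₗ[ℝ] Sm) y) φ = x2 at *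
  generalize inner ℝ (Ri y) (gd (chbG f) (R φ)) = x3 at *
  generalize inner ℝ ((XX (ε • FF ε f) - LinearMap.id : Sm →ₗ[ℝ] Sm) (Ri y))
    ((2 : ℝ) • P1 1 j ((2 : ℝ) • R f) (R φ) + R (Bop f φ)) = x4 at *
  generalize inner ℝ ((XX (ε • f) - LinearMap.id : Sm →ₗ[ℝ] Sm) y) (P1 2 j f φ) = x5 at *
  have s1 : |2 / ε * (x1 - x2)| ≤ 10 * c * ε * ‖y‖ * nrm 1 2 φ := by
    rw [abs_mul, abs_of_pos (by positivity : 0 < 2 / ε), div_mul_eq_mul_div, div_le_iff₀ hε]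
    linarith [abs_sub x1 x2]
  have s2 : |2 * ε * x3| ≤ 2 * ε * (3 * (A * M * nrm 1 2 φ * ‖y‖)) := by
    rw [abs_mul, abs_of_pos (by positivity : 0 < 2 * ε)]
    gcongr
  rw [abs_le] at *
  constructor <;> linarith [s1.1, s1.2, s2.1, s2.2, t4.1, t4.2, t5.1, t5.2]

theorem chb_first (hL : ChbLow j h C) (hC : 0 ≤ C) (hj : 8 ≤ 2 * j - 3) (hh : 0 ≤ h) (h1 : h ≤ 1)
    {c ε C0 A : ℝ} {f y : Sm} (hc : 0 ≤ c) (hA : 0 ≤ A) (hε : 0 < ε) (hε1 : ε ≤ 1) (hy : y ∈ Ev)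
    (hC0 : |C0| ≤ M) (N : ChbN j M ε f) (p2 : ChbP c ε f) (p1 : ChbP c ε (FF ε f))
    (E1 : nrm 1 (1 / 2) (chbE 1 h j (ε • FF ε f)) ≤ A * ε ^ 3)
    (E2 : nrm 1 0 (chbE 2 h j (ε • f)) ≤ A * ε ^ 3) :
    |EE h j ε C0 f y - tt j ε f y (DD h j f)
        - (tau f f (DD h j y) - C0 * I y - t0 j f y (DD h j f))|
      ≤ (15 * (c * (C * M ^ 2)) + M * (2 * (c * M) + 2 * (c * (C * M ^ 2)))
        + (3 + M) * (c * A)) * ε * ‖y‖ := by
  have hM := N.cf.nonneg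
  have c8 : ∀ {u : Sm}, Cb (2 * j - 3) 1 M u → Cb 8 1 M u :=
    fun hu => hu.mono zero_le_one hj le_rfl le_rfl
  have ny := norm_nonneg y
  have w1 : nrm 1 (3 / 2) (R (chbB h j f) + chbL 1 h j ((2 : ℝ) • R f)) ≤ 3 * (C * M ^ 2) := by
    have a1 := Bd_R_half 1 (chbB h j f)
    have a2 := chb_B hL hC N.f0
    have a3 := chb_L hL hC (Or.inl rfl) (Or.inr rfl) N.F0
    rw [show (1 : ℝ) + 1 / 2 = 3 / 2 by norm_num] at a1
    rw [show (1 : ℝ) / 2 + 1 = 3 / 2 by norm_num] at a3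
    refine (nrm_add_le _ _ _ _).trans ?_
    linarith
  have w2 : nrm 1 1 (chbL 2 h j f) ≤ C * M ^ 2 := by
    have a3 := chb_L hL hC (Or.inr rfl) (Or.inl rfl) N.f0
    rwa [zero_add] at a3
  have w3 : nrm 1 (1 / 2) (Br 1 h j (chbG f) (FF ε f) + Br 1 h j (chbG f) ((2 : ℝ) • R f))
      ≤ 4 * (C * M ^ 2) := by
    have a1 := chb_Br hL hC hh h1 (Or.inl rfl) (Or.inr rfl) N.G N.F (c8 N.cG) (c8 N.cF)
    have a2 := chb_Br hL hC hh h1 (Or.inl rfl) (Or.inr rfl) N.G N.F0 (c8 N.cG) (c8 N.cF0)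
    refine (nrm_add_le _ _ _ _).trans ?_
    linarith
  have w4 : nrm 1 0 (DD h j f) ≤ M := by linarith [Bd_DD hh h1 j 0 f, N.f0]
  have w5 := chb_Br hL hC hh h1 (Or.inr rfl) (Or.inl rfl) N.f0 N.f0 (c8 N.cf) (c8 N.cf)
  have t1 := chb_pair1 p1.b1 w1 (by positivity) y
  have t2 := chb_pair0 p2.b0 w2 y
  have t3 := chb_pair1 p1.a1 w3 hc y
  have t4 := chb_pair0 p2.a0 w4 y
  have t5 := chb_pair0 p2.a0 w5 y
  have t6 := chb_pair1 p1.a1 E1 hc y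
  have t7 := chb_pair0 p2.a0 E2 y
  rw [chb_split1 h j hε.ne' C0 hy p1.good p2.good]
  generalize inner ℝ ((XX (ε • FF ε f) - LinearMap.id : Sm →ₗ[ℝ] Sm) (Ri y))
    (R (chbB h j f) + chbL 1 h j ((2 : ℝ) • R f)) = x1 at *
  generalize inner ℝ ((XX (ε • f) - LinearMap.id : Sm →ₗ[ℝ] Sm) y) (chbL 2 h j f) = x2 at *
  generalize inner ℝ (XX (ε • FF ε f) (Ri y))
    (Br 1 h j (chbG f) (FF ε f) + Br 1 h j (chbG f) ((2 : ℝ) • R f)) = x3 at *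
  generalize inner ℝ (XX (ε • f) y) (DD h j f) = x4 at *
  generalize inner ℝ (XX (ε • f) y) (Br 2 h j f f) = x5 at *
  generalize inner ℝ (XX (ε • FF ε f) (Ri y)) (chbE 1 h j (ε • FF ε f)) = x6 at *
  generalize inner ℝ (XX (ε • f) y) (chbE 2 h j (ε • f)) = x7 at *
  have s3 : |ε * x3| ≤ ε * (2 * c * (4 * (C * M ^ 2)) * ‖y‖) := by
    rw [abs_mul, abs_of_pos hε]
    gcongr
  have s4 : |ε * C0 * (2 * x4 + ε * x5)|
      ≤ ε * M * (2 * (c * M * ‖y‖) + 1 * (c * (2 * (C * M ^ 2)) * ‖y‖)) := by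
    have a : |2 * x4 + ε * x5| ≤ 2 * (c * M * ‖y‖) + 1 * (c * (2 * (C * M ^ 2)) * ‖y‖) := by
      refine (abs_add_le _ _).trans ?_
      rw [abs_mul, abs_mul, abs_two, abs_of_pos hε]
      gcongr
    rw [abs_mul, abs_mul, abs_of_pos hε]
    gcongr
  have s5 : |(ε ^ 2)⁻¹ * (x6 - (1 + ε ^ 2 * C0) * x7)| ≤ (3 + M) * (c * A) * ε * ‖y‖ := by
    have a : |1 + ε ^ 2 * C0| ≤ 1 + M := by
      refine (abs_add_le _ _).trans ?_
      rw [abs_one, abs_mul, abs_of_pos (by positivity : 0 < ε ^ 2)]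
      have : ε ^ 2 * |C0| ≤ 1 * M := by
        gcongr
        exact pow_le_one₀ hε.le hε1
      linarith
    have b : |(1 + ε ^ 2 * C0) * x7| ≤ (1 + M) * (c * (A * ε ^ 3) * ‖y‖) := by
      rw [abs_mul]
      gcongr
    rw [abs_mul, abs_of_pos (by positivity : 0 < (ε ^ 2)⁻¹), inv_mul_le_iff₀ (by positivity)]
    linarith [abs_sub x6 ((1 + ε ^ 2 * C0) * x7)]
  rw [abs_le] at *
  constructor <;>
    linarith [s3.1, s3.2, s4.1, s4.2, s5.1, s5.2, t1.1, t1.2, t2.1, t2.2]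

end

theorem chainB (hB : PullBStmt) (hC : ChStmt) (hL : LowStmt) : ChainBStmt := by
  obtain ⟨K, HK⟩ := chb_pull hB
  obtain ⟨j1, H1⟩ := hC
  obtain ⟨j2, H2⟩ := hL
  refine ⟨K + j1 + j2 + 6, fun j hj h hh h1 B => ?_⟩
  obtain ⟨Cc, δ, hCc, hδ, HC⟩ := H1 j (by omega) h hh h1
  obtain ⟨C, hC, l1, l2, l3⟩ := H2 j (by omega) h hh h1
  have hL : ChbLow j h C := ⟨l1, l2, l3⟩
  obtain ⟨M, hM, hBM, HN⟩ := chb_norms j (by omega) B
  obtain ⟨c, ε1, hc, hε1, HP⟩ := HK M hM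
  obtain ⟨A, hA, H3⟩ := chb_second (M := M) hL hC (by omega)
  have hδ' : 0 < δ / (1 + M) := by positivity
  set C1 := 15 * (c * (C * M ^ 2)) + M * (2 * (c * M) + 2 * (c * (C * M ^ 2)))
    + (3 + M) * (c * (Cc * M ^ 3)) with hC1
  set C2 := 10 * c + A * M + 13 * (c * (C * M)) with hC2
  have p1 : 0 ≤ C1 := by positivity
  have p2 : 0 ≤ C2 := by positivity
  refine ⟨M + C1 + C2, min 1 (min ε1 (δ / (1 + M))), by positivity, by positivity, ?_⟩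
  intro ε C0 f hε hε0 hC0 hf
  have e1 : ε ≤ 1 := hε0.trans (min_le_left _ _)
  have e2 : ε ≤ ε1 := hε0.trans ((min_le_right _ _).trans (min_le_left _ _))
  have e3 : ε * M ≤ δ := by
    have := hε0.trans ((min_le_right _ _).trans (min_le_right _ _))
    rw [le_div_iff₀ (by positivity)] at this
    nlinarith
  have N := HN ε f hε e1 hf
  have P2 := HP ε f hε e2 (N.cf.mono zero_le_one (by omega) le_rfl le_rfl)
  have P1 := HP ε _ hε e2 (N.cF.mono zero_le_one (by omega) le_rfl le_rfl)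
  have hE : ∀ (k σ : ℝ) (u : Sm), k = 1 ∨ k = 2 → σ = 0 ∨ σ = 1 / 2 →
      nrm 1 (σ + 2 * j) u ≤ M → nrm 1 σ (chbE k h j (ε • u)) ≤ Cc * M ^ 3 * ε ^ 3 := by
    intro k σ u hk hσ hu
    have a : nrm 1 (σ + 2 * j) (ε • u) ≤ ε * M := by
      rw [nrm_smul, abs_of_pos hε]
      gcongr
    refine (HC k σ _ hk hσ (a.trans e3)).trans ?_
    have b := pow_le_pow_left₀ (nrm_nonneg _ _ _) a 3
    calc _ ≤ Cc * (ε * M) ^ 3 := mul_le_mul_of_nonneg_left b hCc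
      _ = _ := by ring
  refine ⟨N.cf.mono zero_le_one le_rfl le_rfl (by linarith),
    N.cF.mono zero_le_one le_rfl le_rfl (by linarith), ?_, fun y hy => ⟨?_, fun φ => ?_⟩⟩
  · rw [chb_FF, add_sub_cancel_left]
    refine (N.cG.smul ε).mono zero_le_one le_rfl le_rfl ?_
    rw [abs_of_pos hε, mul_comm]
    gcongr
    linarith
  · refine (chb_first hL hC (by omega) hh.le h1 hc (by positivity) hε e1 hy (hC0.trans hBM) N
      P2 P1 (hE 1 _ _ (Or.inl rfl) (Or.inr rfl) N.F)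
      (hE 2 _ _ (Or.inr rfl) (Or.inl rfl) N.f0)).trans ?_
    exact mul_le_mul_of_nonneg_right (mul_le_mul_of_nonneg_right (by linarith) hε.le)
      (norm_nonneg y)
  · refine (H3 φ hc hε hy N P2 P1).trans ?_
    exact mul_le_mul_of_nonneg_right (mul_le_mul_of_nonneg_right
      (mul_le_mul_of_nonneg_right (by linarith) hε.le) (norm_nonneg y)) (nrm_nonneg 1 2 φ)

end Pool.Agent.Lib.MP_2fa2a2_gt.PI
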