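import Pool.Agent.Lib.MP_2fa2a2_gt.PI.SChain
import Pool.Agent.Lib.MP_2fa2a2_gt.PI.Prod

namespace Pool.Agent.Lib.MP_2fa2a2_gt.PI

open Filter Topology

theorem ccx_lap_gd (f ψ : Sm) : lap (gd f ψ) = gd (lap f) ψ
    + (2 : ℝ) • ∑ b, ∑ c, L b (L c f) * L b (L c ψ) + gd f (lap ψ) := by
  rw [Finset.sum_comm]
  simp only [gd, map_sum, lap_mul, lap_L, Finset.sum_add_distrib, funk_two, Finset.smul_sum]

theorem ccx_P1 (k : ℝ) (j : ℕ) (f φ : Sm) : P1 k j f φ = (k * (k - 1)) • (f * φ)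
    + (j * k) • (lap (gd f (Sh 1 φ)) - gd (lap f) (Sh 1 φ) - gd f (lap (Sh 1 φ))) := by
  rw [ccx_lap_gd]
  simp only [P1, Tm, LinearMap.sub_apply, LinearMap.smul_apply, LinearMap.sum_apply,
    LinearMap.comp_apply, LinearMap.mulLeft_apply, LinearMap.neg_apply, mul_neg,
    Finset.sum_neg_distrib]
  module

theorem ccx_P1_sub (k : ℝ) (j : ℕ) (f g φ : Sm) :
    P1 k j f φ - P1 k j g φ = P1 k j (f - g) φ := by
  have h : P1 k j (f - g + g) φ = P1 k j (f - g) φ + P1 k j g φ := by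
    generalize f - g = e
    simp only [ccx_P1, map_add, tau_gd_add, add_mul]
    module
  rw [sub_add_cancel] at h
  rw [h, add_sub_cancel_right]

theorem ccx_P1_act (k : ℝ) (j : ℕ) (r : E3 ≃ₗᵢ[ℝ] E3) (f φ : Sm) :
    P1 k j (act r f) (act r φ) = act r (P1 k j f φ) := by
  have e : Sh 1 (act r φ) = act r (Sh 1 φ) := fn_act _ r φ
  simp only [ccx_P1, e, lap_act, gd_act, map_add, map_sub, map_smul, map_mul]

theorem ccx_Bop (f φ : Sm) : Bop f φ = (4 : ℝ) • Dp (Qf f φ) := rfl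

theorem ccx_Bop_sub (f g φ : Sm) : Bop f φ - Bop g φ = Bop (f - g) φ := by
  simp only [ccx_Bop, map_sub, LinearMap.sub_apply, smul_sub]

theorem ccx_tt (j : ℕ) (ε : ℝ) (f y φ : Sm) : tt j ε f y φ =
    2 / ε * (inner ℝ (XX (ε • FF ε f) (Ri y)) (R φ) - inner ℝ (XX (ε • f) y) φ)
      + 2 * inner ℝ (XX (ε • FF ε f) (Ri y)) (P1 1 j ((2 : ℝ) • R f) (R φ))
      + inner ℝ (XX (ε • FF ε f) (Ri y)) (R (Bop f φ))
      - inner ℝ (XX (ε • f) y) (P1 2 j f φ) := rfl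

theorem ccx_EE (h : ℝ) (j : ℕ) (ε C : ℝ) (f y : Sm) : EE h j ε C f y =
    (ε ^ 2)⁻¹ * (inner ℝ (pk 1 (ε • FF ε f)) (XX (ε • FF ε f) (Ri (DD h j y)))
      - (1 + ε ^ 2 * C) * inner ℝ (p2 (ε • f)) (XX (ε • f) (DD h j y))) := rfl

theorem ccx_act (hC : PullCStmt) (j : ℕ) (h : ℝ) (k : E3 ≃ₗᵢ[ℝ] E3) (ε C0 : ℝ) (f y φ : Sm) :
    tt j ε (act k f) (act k y) (act k φ) = tt j ε f y φ ∧
    EE h j ε C0 (act k f) (act k y) = EE h j ε C0 f y := by
  obtain ⟨c1, c2, -⟩ := hC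
  have e1 : ε • FF ε (act k f) = act k (ε • FF ε f) := by
    simp only [FF, Qf_act, tau_Dp_act, ← map_smul (act k), ← map_add (act k), tau_R_act]
  have e2 : ε • act k f = act k (ε • f) := (map_smul (act k) ε f).symm
  have e3 : (2 : ℝ) • R (act k f) = act k ((2 : ℝ) • R f) := by rw [tau_R_act, map_smul]
  have e4 : Bop (act k f) (act k φ) = act k (Bop f φ) := by
    simp only [ccx_Bop, Qf_act, tau_Dp_act, map_smul]
  have e5 : DD h j (act k y) = act k (DD h j y) := fn_act _ k y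
  have e6 : ∀ u, p2 (act k u) = act k (p2 u) := fun u => by
    simp only [p2, gd_act, map_add, map_mul, map_one]
  constructor
  · simp only [ccx_tt, e1, e2, e3, e4, tau_R_act k φ, tau_R_act k (Bop f φ), tau_Ri_act, c1,
      ccx_P1_act, inner_act]
  · simp only [ccx_EE, e1, e2, e5, e6, tau_Ri_act, c1, c2, inner_act]

/-- convergence of the pull back along a family that converges in a high norm -/
theorem ccx_XX (hC : PullCStmt) {α : Type} {F : Filter α} {u : α → Sm} {u0 : Sm} {s : ℝ}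
    (h0 : Good u0) (hu : ∀ᶠ a in F, Good (u a)) (hs : 5 ≤ s)
    (ht : Tendsto (fun a => nrm 1 s (u a - u0)) F (𝓝 0)) (y : Sm) (k : ℝ) :
    Tendsto (fun a => XX (u a) y) F (𝓝 (XX u0 y)) ∧
      Tendsto (fun a => pk k (u a)) F (𝓝 (pk k u0)) := by
  obtain ⟨C, hC0, hs'⟩ := tau_sob
  have key : ∀ η : ℝ, 0 < η → ∀ᶠ a in F,
      ‖XX (u a) y - XX u0 y‖ < η ∧ ‖pk k (u a) - pk k u0‖ < η := by
    intro η hη
    obtain ⟨b, hb, H⟩ := hC.2.2.2.2 u0 y k (η / 2) h0 (by positivity)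
    have h1 : Tendsto (fun a => C * nrm 1 s (u a - u0)) F (𝓝 0) := by
      simpa using ht.const_mul C
    filter_upwards [hu, h1.eventually (gt_mem_nhds hb)] with a ha ha'
    have h2 := H (u a) ha
      ((hs' 2 s (u a - u0) (by push_cast; linarith)).1.mono zero_le_one le_rfl le_rfl ha'.le)
    exact ⟨(norm_le_of_sup fun x => (h2 x).1).trans_lt (half_lt_self hη),
      (norm_le_of_sup fun x => (h2 x).2).trans_lt (half_lt_self hη)⟩
  constructor
  · exact Metric.tendsto_nhds.2 fun η hη => (key η hη).mono fun a ha => by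
      rw [dist_eq_norm]; exact ha.1
  · exact Metric.tendsto_nhds.2 fun η hη => (key η hη).mono fun a ha => by
      rw [dist_eq_norm]; exact ha.2

theorem ccx_lim {α : Type} {F : Filter α} {v : α → Sm} {v0 : Sm} {t : α → ℝ} (C : ℝ)
    (ht : Tendsto t F (𝓝 0)) (h : ∀ a, ‖v a - v0‖ ≤ C * t a) : Tendsto v F (𝓝 v0) := by
  rw [tendsto_iff_norm_sub_tendsto_zero]
  exact squeeze_zero (fun _ => norm_nonneg _) h (by simpa using ht.const_mul C)

/-- the quadratic term is bounded in the top norm -/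
theorem ccx_quad {j : ℕ} {h C : ℝ} (hh : 0 < h) (h1 : h ≤ 1) (hC : 0 ≤ C) (hj : 6 ≤ j)
    (l2 : ∀ u v : Sm, nrm 1 1 (DD h j ((2 : ℝ) • Dp (Qf u v))
        - (1 / 2 : ℝ) • (Bop u (DD h j v) + Bop v (DD h j u)))
        ≤ C * nrm 1 (2 * j) u * nrm 1 (2 * j) v)
    (l3 : ∀ (k : ℝ) (u : Sm) (b : ℝ) (n : ℤ), k = 1 ∨ k = 2 → |n| ≤ 4 → Cb 8 1 b u →
      Bd 1 (n / 2) (n / 2) (C * b) (P1 k j u) ∧ Bd 1 (n / 2) (n / 2) (C * b) (Bop u)) :
    ∃ C', 0 ≤ C' ∧ ∀ u v : Sm,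
      nrm 1 (2 * j) ((2 : ℝ) • Dp (Qf u v)) ≤ C' * nrm 1 (2 * j) u * nrm 1 (2 * j) v := by
  obtain ⟨C2, hC2, h2⟩ := tau_sob
  have hj' : (6 : ℝ) ≤ j := by exact_mod_cast hj
  have hb : ∀ u v : Sm, ‖Bop u (DD h j v)‖ ≤ C * C2 * (nrm 1 (2 * j) u * nrm 1 (2 * j) v) := by
    intro u v
    have a := (l3 1 u _ 0 (Or.inl rfl) (by norm_num)
      (h2 8 (2 * j) u (by push_cast; linarith)).1).2 (DD h j v)
    rw [Int.cast_zero, zero_div, nrm_zero le_rfl, nrm_zero le_rfl] at a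
    have := nrm_nonneg 1 (2 * j) u
    refine a.trans ((mul_le_mul_of_nonneg_left (norm_DD_le hh.le h1 j v) (by positivity)).trans_eq ?_)
    ring
  refine ⟨(h⁻¹) ^ (2 * j : ℝ) * (C + C * C2), by positivity, fun u v => ?_⟩
  refine (nrm_le_DD hh h1 (by positivity) le_rfl _).trans ?_
  rw [mul_assoc, mul_assoc]
  refine mul_le_mul_of_nonneg_left ?_ (by positivity)
  have a1 := (nrm_mono le_rfl zero_le_one _).trans (l2 u v)
  rw [nrm_zero le_rfl] at a1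
  have a2 := norm_add_le (DD h j ((2 : ℝ) • Dp (Qf u v))
    - (1 / 2 : ℝ) • (Bop u (DD h j v) + Bop v (DD h j u)))
    ((1 / 2 : ℝ) • (Bop u (DD h j v) + Bop v (DD h j u)))
  rw [sub_add_cancel, norm_smul, Real.norm_eq_abs, abs_of_pos (by norm_num : (0 : ℝ) < 1 / 2)] at a2
  have a3 := norm_add_le (Bop u (DD h j v)) (Bop v (DD h j u))
  have a4 := hb u v
  have a5 := hb v u
  rw [mul_comm (nrm 1 (2 * j) v)] at a5
  linarith

theorem ccx_FF (ε : ℝ) (f : Sm) : FF ε f = R ((2 : ℝ) • f + ε • (2 : ℝ) • Dp (Qf f f)) := by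
  rw [FF, smul_smul, mul_comm]

theorem ccx_FF_sub (ε : ℝ) (f g : Sm) :
    FF ε f - FF ε g = R ((2 : ℝ) • (f - g) + ε • (2 : ℝ) • Dp (Qf (f - g) (f + g))) := by
  rw [ccx_FF, ccx_FF, ← map_sub]
  congr 1
  simp only [map_sub, map_add, LinearMap.sub_apply, Qf_comm g f]
  module

theorem ccx_nrm_R (s ε : ℝ) (hε : 0 ≤ ε) (u v : Sm) :
    nrm 1 s (R ((2 : ℝ) • u + ε • v)) ≤ 2 * nrm 1 s u + ε * nrm 1 s v := by
  have a := Bd_R le_rfl s ((2 : ℝ) • u + ε • v)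
  have b := nrm_add_le 1 s ((2 : ℝ) • u) (ε • v)
  rw [nrm_smul, nrm_smul, abs_two, abs_of_nonneg hε] at b
  linarith

theorem ccx_pair {u w : Sm} {A B : ℝ} (hA : nrm 1 1 u ≤ A) (hB : nrm 1 (-1) w ≤ B) :
    |inner ℝ u w| ≤ A * B :=
  (abs_inner_le_nrm le_rfl 1 u w).trans
    (mul_le_mul hA hB (nrm_nonneg _ _ _) ((nrm_nonneg _ _ _).trans hA))

theorem chainC (hB : PullBStmt) (hC : PullCStmt) (hL : LowStmt) : ChainCStmt := by
  obtain ⟨j0, hL⟩ := hL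
  obtain ⟨K, CB, δ, hCB, hδ, hB⟩ := hB
  refine ⟨max j0 (K + 6), fun j hj h hh h1 => ⟨ccx_act hC j h, fun B0 => ?_⟩⟩
  obtain ⟨C, hC0, -, l2, l3⟩ := hL j (le_of_max_le_left hj) h hh h1
  have hj1 : K + 6 ≤ j := le_of_max_le_right hj
  have hj2 : (K : ℝ) + 6 ≤ j := by exact_mod_cast hj1
  have hK : (0 : ℝ) ≤ K := Nat.cast_nonneg K
  obtain ⟨Cq, hCq, hq⟩ := ccx_quad hh h1 hC0 (by omega) l2 l3
  obtain ⟨C2, hC2, h2⟩ := tau_sob
  obtain ⟨B, hB0, hBB⟩ : ∃ B : ℝ, 0 ≤ B ∧ B0 ≤ B := ⟨max B0 0, le_max_right _ _, le_max_left _ _⟩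
  set M := 2 * B + Cq * B * B with hM
  have hM0 : 0 ≤ M := by positivity
  refine ⟨min 1 (δ / (C2 * M + 1)), by positivity, fun ε C0 hε hε0 => ?_⟩
  have hε1 : ε ≤ 1 := hε0.trans (min_le_left _ _)
  have hε2 : ε * (C2 * M) ≤ δ := by
    have := (le_div_iff₀ (by positivity)).1 (hε0.trans (min_le_right _ _))
    nlinarith
  have hsm : ∀ u : Sm, nrm 1 (2 * j) u ≤ M → Cb K 1 δ (ε • u) := fun u hu => by
    have a := (h2 K (2 * j) u (by linarith)).1.smul ε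
    rw [abs_of_pos hε] at a
    refine a.mono zero_le_one le_rfl le_rfl (le_trans ?_ hε2)
    exact mul_le_mul_of_nonneg_left (mul_le_mul_of_nonneg_left hu hC2) hε.le
  have hfM : ∀ f : Sm, nrm 1 (2 * j) f ≤ B0 → nrm 1 (2 * j) f ≤ M := fun f hf => by
    have : 0 ≤ Cq * B * B := by positivity
    linarith
  have hFM : ∀ f : Sm, nrm 1 (2 * j) f ≤ B0 → nrm 1 (2 * j) (FF ε f) ≤ M := fun f hf => by
    have hf' := hf.trans hBB
    have f0 := nrm_nonneg 1 (2 * j) f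
    have a := ccx_nrm_R (2 * j) ε hε.le f ((2 : ℝ) • Dp (Qf f f))
    have b := (hq f f).trans (mul_le_mul (mul_le_mul_of_nonneg_left hf' hCq) hf' f0 (by positivity))
    have c := mul_le_mul hε1 b (nrm_nonneg _ _ _) zero_le_one
    rw [ccx_FF]
    linarith
  have hXX : ∀ u : Sm, nrm 1 (2 * j) u ≤ M → ∀ y, nrm 1 1 (XX (ε • u) y) ≤ CB * nrm 1 1 y := by
    intro u hu y
    have a := ((hB _ δ le_rfl (hsm u hu)).2.1 2 (by norm_num)).1 y
    norm_num at a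
    exact a
  have hG : ∀ u : Sm, nrm 1 (2 * j) u ≤ M → Good (ε • u) := fun u hu => (hB _ δ le_rfl (hsm u hu)).1
  have hCb : ∀ u : Sm, Cb 8 1 (C2 * nrm 1 (2 * j) u) u ∧
      Cb 8 1 (2 * (C2 * nrm 1 (2 * j) u)) ((2 : ℝ) • R u) := fun u => by
    obtain ⟨a, b⟩ := h2 8 (2 * j) u (by push_cast; linarith)
    have c := b.smul 2
    rw [abs_two] at c
    exact ⟨a, c⟩
  refine ⟨⟨2 / ε * (2 * CB + CB) + 2 * (2 * CB * (C * (2 * (C2 * B)))) + 2 * CB * (C * (C2 * B))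
    + CB * (C * (C2 * B)), fun f y φ hf => ?_⟩, fun f0 N y φ => ?_⟩
  · have y0 := nrm_nonneg 1 3 y
    have p0 := nrm_nonneg 1 (-1) φ
    have a1 : nrm 1 1 (XX (ε • FF ε f) (Ri y)) ≤ 2 * CB * nrm 1 3 y := by
      have b1 := hXX _ (hFM f hf) (Ri y)
      have b2 := (Bd_Ri le_rfl 1 y).trans (mul_le_mul_of_nonneg_left
        (nrm_mono le_rfl (show (1 : ℝ) + 1 / 2 ≤ 3 by norm_num) y) zero_le_two)
      have b3 := mul_le_mul_of_nonneg_left b2 hCB
      linarith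
    have a2 : nrm 1 1 (XX (ε • f) y) ≤ CB * nrm 1 3 y := (hXX _ (hfM f hf) y).trans
      (mul_le_mul_of_nonneg_left (nrm_mono le_rfl (by norm_num) y) hCB)
    have hb : C2 * nrm 1 (2 * j) f ≤ C2 * B := mul_le_mul_of_nonneg_left (hf.trans hBB) hC2
    have c1 : Cb 8 1 (C2 * B) f := (hCb f).1.mono zero_le_one le_rfl le_rfl hb
    have c2 : Cb 8 1 (2 * (C2 * B)) ((2 : ℝ) • R f) :=
      (hCb f).2.mono zero_le_one le_rfl le_rfl (by linarith)
    have e : ((-2 : ℤ) : ℝ) / 2 = -1 := by norm_num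
    have r1 : ∀ ψ, nrm 1 (-1) (R ψ) ≤ nrm 1 (-1) ψ := fun ψ => by
      simpa using Bd_R le_rfl (-1) ψ
    have q1 := (l3 1 _ _ (-2) (Or.inl rfl) (by norm_num) c2).1 (R φ)
    obtain ⟨q2, q3⟩ := l3 2 _ _ (-2) (Or.inr rfl) (by norm_num) c1
    rw [e] at q1 q2 q3
    have t1 := abs_le.1 (ccx_pair a1 (r1 φ))
    have t2 := abs_le.1 (ccx_pair a2 (le_refl (nrm 1 (-1) φ)))
    have t3 := abs_le.1 (ccx_pair a1
      (q1.trans (mul_le_mul_of_nonneg_left (r1 φ) (by positivity))))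
    have t4 := abs_le.1 (ccx_pair a1 ((r1 _).trans (q3 φ)))
    have t5 := abs_le.1 (ccx_pair a2 (q2 φ))
    have e0 : 0 ≤ 2 / ε := by positivity
    have t6 := mul_le_mul_of_nonneg_left (sub_le_sub t1.2 t2.1) e0
    have t7 := mul_le_mul_of_nonneg_left (sub_le_sub t1.1 t2.2) e0
    rw [ccx_tt, abs_le]
    constructor <;> linarith [t3.1, t3.2, t4.1, t4.2, t5.1, t5.2]
  · set S := {g | g ∈ Poly N ∧ nrm 1 (2 * j) (f0 + DI h j g) ≤ B0} with hS
    have key : ∀ g0 ∈ S, Tendsto (fun g => tt j ε (f0 + DI h j g) y φ) (𝓝[S] g0)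
        (𝓝 (tt j ε (f0 + DI h j g0) y φ)) ∧ Tendsto (fun g => EE h j ε C0 (f0 + DI h j g) y)
        (𝓝[S] g0) (𝓝 (EE h j ε C0 (f0 + DI h j g0) y)) := by
      intro g0 hg0
      have hev : ∀ᶠ g in 𝓝[S] g0, nrm 1 (2 * j) (f0 + DI h j g) ≤ B0 :=
        eventually_mem_nhdsWithin.mono fun g hg => hg.2
      have t0 : Tendsto (fun g : Sm => ‖g - g0‖) (𝓝[S] g0) (𝓝 0) :=
        tendsto_iff_norm_sub_tendsto_zero.1 (tendsto_id.mono_left nhdsWithin_le_nhds)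
      have t1 : Tendsto (fun g => nrm 1 (2 * j) (f0 + DI h j g - (f0 + DI h j g0))) (𝓝[S] g0)
          (𝓝 0) := by
        refine squeeze_zero (fun _ => nrm_nonneg _ _ _) (fun g => ?_)
          (by simpa using t0.const_mul ((h⁻¹) ^ (2 * j)))
        have a := Bd_DI hh h1 j 0 (g - g0)
        rw [zero_add, nrm_zero le_rfl] at a
        rw [add_sub_add_left_eq_sub, ← map_sub]
        simpa using a
      have hf0 := hg0.2
      generalize f0 + DI h j g0 = f at t1 hf0 ⊢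
      have t2 : Tendsto (fun g => nrm 1 (2 * j) (ε • (f0 + DI h j g) - ε • f)) (𝓝[S] g0) (𝓝 0) := by
        simpa only [← smul_sub, nrm_smul, mul_zero] using t1.const_mul |ε|
      have t3 : Tendsto (fun g => nrm 1 (2 * j) (ε • FF ε (f0 + DI h j g) - ε • FF ε f))
          (𝓝[S] g0) (𝓝 0) := by
        refine squeeze_zero' (Eventually.of_forall fun _ => nrm_nonneg _ _ _)
          (hev.mono fun g hg => ?_) (by simpa using t1.const_mul (ε * (2 + Cq * (B + B))))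
        generalize f0 + DI h j g = f' at hg ⊢
        rw [← smul_sub, nrm_smul, abs_of_pos hε, ccx_FF_sub, mul_assoc]
        refine mul_le_mul_of_nonneg_left ((ccx_nrm_R _ ε hε.le _ _).trans ?_) hε.le
        have d0 := nrm_nonneg 1 (2 * j) (f' - f)
        have b := (hq (f' - f) (f' + f)).trans (mul_le_mul_of_nonneg_left
          ((nrm_add_le _ _ _ _).trans (add_le_add (hg.trans hBB) (hf0.trans hBB))) (by positivity))
        have c := mul_le_mul hε1 b (nrm_nonneg _ _ _) zero_le_one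
        linarith
      have s5 : (5 : ℝ) ≤ 2 * j := by linarith
      have x1 := ccx_XX hC (hG _ (hfM f hf0)) (hev.mono fun g hg => hG _ (hfM _ hg)) s5 t2
      have x2 := ccx_XX hC (hG _ (hFM f hf0)) (hev.mono fun g hg => hG _ (hFM _ hg)) s5 t3
      have z : ∀ {T : Sm →ₗ[ℝ] Sm} {c : ℝ}, Bd 1 (((0 : ℤ) : ℝ) / 2) (((0 : ℤ) : ℝ) / 2) c T →
          ∀ ψ, ‖T ψ‖ ≤ c * ‖ψ‖ := fun hT ψ => by
        have a := hT ψ
        rwa [Int.cast_zero, zero_div, nrm_zero le_rfl, nrm_zero le_rfl] at a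
      have p1 : Tendsto (fun g => P1 1 j ((2 : ℝ) • R (f0 + DI h j g)) (R φ)) (𝓝[S] g0)
          (𝓝 (P1 1 j ((2 : ℝ) • R f) (R φ))) := by
        refine ccx_lim (C * (2 * C2) * ‖R φ‖) t1 fun g => ?_
        rw [ccx_P1_sub, ← smul_sub, ← map_sub]
        exact (z (l3 1 _ _ 0 (Or.inl rfl) (by norm_num) (hCb _).2).1 _).trans_eq (by ring)
      have p2' : Tendsto (fun g => P1 2 j (f0 + DI h j g) φ) (𝓝[S] g0) (𝓝 (P1 2 j f φ)) := by
        refine ccx_lim (C * C2 * ‖φ‖) t1 fun g => ?_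
        rw [ccx_P1_sub]
        exact (z (l3 2 _ _ 0 (Or.inr rfl) (by norm_num) (hCb _).1).1 _).trans_eq (by ring)
      have p3 : Tendsto (fun g => R (Bop (f0 + DI h j g) φ)) (𝓝[S] g0) (𝓝 (R (Bop f φ))) := by
        refine ccx_lim (C * C2 * ‖φ‖) t1 fun g => ?_
        rw [← map_sub, ccx_Bop_sub]
        have a := Bd_R le_rfl 0 (Bop (f0 + DI h j g - f) φ)
        rw [nrm_zero le_rfl, nrm_zero le_rfl, one_mul] at a
        exact a.trans
          ((z (l3 2 _ _ 0 (Or.inr rfl) (by norm_num) (hCb _).1).2 _).trans_eq (by ring))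
      have p4 : Tendsto (fun g => p2 (ε • (f0 + DI h j g))) (𝓝[S] g0) (𝓝 (p2 (ε • f))) := by
        rw [← (hG _ (hfM f hf0)).pk_two]
        exact (x1 y 2).2.congr' (hev.mono fun g hg => (hG _ (hfM _ hg)).pk_two)
      constructor
      · simp only [ccx_tt]
        exact ((((((x2 (Ri y) 1).1.inner tendsto_const_nhds).sub
          ((x1 y 1).1.inner tendsto_const_nhds)).const_mul _).add
          (((x2 (Ri y) 1).1.inner p1).const_mul _)).add ((x2 (Ri y) 1).1.inner p3)).sub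
          ((x1 y 1).1.inner p2')
      · simp only [ccx_EE]
        exact (((x2 y 1).2.inner (x2 (Ri (DD h j y)) 1).1).sub
          ((p4.inner (x1 (DD h j y) 1).1).const_mul _)).const_mul _
    exact ⟨fun g hg => (key g hg).1, fun g hg => (key g hg).2⟩

end Pool.Agent.Lib.MP_2fa2a2_gt.PI
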