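import Pool.Agent.Lib.MP_2fa2a2_gt.PI.SWkb

namespace Pool.Agent.Lib.MP_2fa2a2_gt.PI

open Real Filter Set
open scoped ContDiff

theorem corex_cut {a a' b' b : ℝ} (h1 : a < a') (h2 : b' < b) :
    ∃ φ : Sm, φ ∈ Ev ∧ (∀ x, X 2 x ^ 2 ≤ a ∨ b ≤ X 2 x ^ 2 → φ x = 1) ∧
      ∀ x, a' ≤ X 2 x ^ 2 → X 2 x ^ 2 ≤ b' → φ x = 0 := by
  have hs : ContDiff ℝ ∞ (fun z : ℝ => 1 - smoothTransition ((z ^ 2 - a) / (a' - a)) *
      smoothTransition ((b - z ^ 2) / (b - b'))) :=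
    contDiff_const.sub ((smoothTransition.contDiff.comp (by fun_prop)).mul
      (smoothTransition.contDiff.comp (by fun_prop)))
  have d1 : 0 < a' - a := by linarith
  have d2 : 0 < b - b' := by linarith
  refine ⟨Zf (fun z : ℝ => 1 - smoothTransition ((z ^ 2 - a) / (a' - a)) *
      smoothTransition ((b - z ^ 2) / (b - b'))), ?_, fun x hx => ?_, fun x hx hx' => ?_⟩
  · rw [mem_Ev, ant_Zf hs]
    simp only [neg_sq]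
  · rw [Zf_apply hs]
    rw [X_apply] at hx
    rcases hx with hx | hx
    · rw [smoothTransition.zero_of_nonpos (div_nonpos_of_nonpos_of_nonneg (by linarith) d1.le)]
      ring
    · rw [smoothTransition.zero_of_nonpos (x := (b - _) / _)
        (div_nonpos_of_nonpos_of_nonneg (by linarith) d2.le)]
      ring
  · rw [Zf_apply hs]
    rw [X_apply] at hx hx'
    rw [smoothTransition.one_of_one_le ((one_le_div d1).2 (by linarith)),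
      smoothTransition.one_of_one_le ((one_le_div d2).2 (by linarith))]
    ring

theorem corex_chi {τ τ2 ℓ : ℝ} (hτ : 0 < τ) (h2 : 0 < τ2) (hℓ : 0 < ℓ) (hℓ1 : ℓ ≤ 1)
    (h : τ2 ≤ ℓ / 8 * τ) : ∃ (t : ℝ) (χ χ' : Sm), 0 < t ∧ χ ∈ Ev ∧ χ' ∈ Ev ∧
      (∀ x, χ x ≠ 0 → χ' x = 1) ∧ (∀ x, X 2 x ^ 2 ≤ t ∨ t * (1 + ℓ) ≤ X 2 x ^ 2 → χ x = 1) ∧
      ∀ x, τ ≤ |X 2 x| → |X 2 x| ≤ τ + τ2 → χ' x = 0 := by
  obtain ⟨t, ht⟩ : ∃ t : ℝ, t = τ ^ 2 / (1 + ℓ / 4) := ⟨_, rfl⟩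
  have t0 : 0 < t := by rw [ht]; positivity
  have e : τ ^ 2 = t * (1 + ℓ / 4) := by rw [ht]; field_simp
  have l1 : t < τ ^ 2 := by nlinarith
  have l2 : (τ + τ2) ^ 2 < t * (1 + ℓ) := by
    have a1 : (τ + τ2) ^ 2 ≤ (τ * (1 + ℓ / 8)) ^ 2 := by gcongr; linarith
    have a2 : (1 + ℓ / 4) * (1 + ℓ / 8) ^ 2 < 1 + ℓ := by nlinarith [mul_pos hℓ hℓ]
    rw [mul_pow, e, mul_assoc] at a1
    exact a1.trans_lt (mul_lt_mul_of_pos_left a2 t0)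
  obtain ⟨χ, c1, c2, c3⟩ := corex_cut (a := t) (a' := (t + τ ^ 2) / 2)
    (b' := ((τ + τ2) ^ 2 + t * (1 + ℓ)) / 2) (b := t * (1 + ℓ)) (by linarith) (by linarith)
  obtain ⟨χ', d1, d2, d3⟩ := corex_cut (a := (t + τ ^ 2) / 2) (a' := τ ^ 2)
    (b' := (τ + τ2) ^ 2) (b := ((τ + τ2) ^ 2 + t * (1 + ℓ)) / 2) (by linarith) (by linarith)
  refine ⟨t, χ, χ', t0, c1, d1, fun x hx => d2 x ?_, c2, fun x h3 h4 => d3 x ?_ ?_⟩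
  · by_contra hc
    rw [not_or, not_le, not_le] at hc
    exact hx (c3 x hc.1.le hc.2.le)
  · rw [← sq_abs (X 2 x)]; gcongr
  · rw [← sq_abs (X 2 x)]; gcongr

theorem corex_b (d : WD) (hρ : 0 < d.ρ) : ∃ b, Cut d b := by
  let f : ContDiffBump d.zc := ⟨4 * d.ρ, 5 * d.ρ, by linarith, by linarith⟩
  refine ⟨f, f.contDiff, fun z => ?_, fun z hz => f.one_of_mem_closedBall ?_,
    fun z hz => f.zero_of_le_dist ?_⟩
  · rw [abs_of_nonneg f.nonneg]; exact f.le_one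
  · rw [Metric.mem_closedBall, Real.dist_eq]; exact hz
  · rw [Real.dist_eq]
    by_contra hc
    have := abs_lt.1 (show |z - d.zc| < 5 * d.ρ from not_le.1 hc)
    exact hz ⟨by linarith [this.1], by linarith [this.2]⟩

theorem corex_pw {x A r r' : ℝ} (hx : 1 ≤ x) (hA : A ≤ x) (h : r + 1 ≤ r') :
    A * x ^ r ≤ x ^ r' := by
  have h0 : 0 < x := by linarith
  calc A * x ^ r ≤ x * x ^ r := by gcongr
    _ = x ^ (r + 1) := by rw [rpow_add_one h0.ne', mul_comm]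
    _ ≤ x ^ r' := rpow_le_rpow_of_exponent_le hx h

theorem corex_A0 {x Cf u n s : ℝ} (hx : 1 ≤ x) (hs : 0 ≤ s) (hu : u ≤ Cf * x ^ s) :
    x ^ (-n) * u + x ^ (-n - 21) ≤ (Cf + 1) * x ^ (s - n) := by
  have h0 : 0 < x := by linarith
  have h1 : x ^ (-n - 21) ≤ x ^ (s - n) := rpow_le_rpow_of_exponent_le hx (by linarith)
  have h2 : x ^ (-n) * u ≤ x ^ (-n) * (Cf * x ^ s) := by gcongr
  have h3 : x ^ (s - n) = x ^ (-n) * x ^ s := by rw [← rpow_add h0]; ring_nf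
  rw [h3] at h1 ⊢
  linarith

theorem corex_A {x A Cf v n c s : ℝ} (hx : 1 ≤ x) (h0 : 0 ≤ A) (hA : A * (Cf + 1) ≤ x)
    (hn : c + s + 5 ≤ n) (hv : v ≤ (Cf + 1) * x ^ (s - n)) :
    A * x ^ (c + 2) * v ≤ min 1 (1 / x ^ 2) := by
  have hx0 : 0 < x := by linarith
  have e : x ^ (-2 : ℝ) = 1 / x ^ 2 := by rw [rpow_neg hx0.le, one_div]; norm_num
  rw [min_eq_right (by rw [div_le_one (by positivity)]; exact one_le_pow₀ hx), ← e]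
  calc A * x ^ (c + 2) * v ≤ A * x ^ (c + 2) * ((Cf + 1) * x ^ (s - n)) := by gcongr
    _ = A * (Cf + 1) * x ^ (c + 2 + (s - n)) := by rw [rpow_add hx0 (c + 2)]; ring
    _ ≤ _ := corex_pw hx hA (by linarith)

theorem corex_B {x A C1 C2 C3 u1 u2 u3 v n c r : ℝ} (hx : 1 ≤ x) (h0 : 0 ≤ A) (h3 : 0 ≤ C3)
    (hA : A * (C1 + 2 * C2 + C3) ≤ x) (hn : r + c + 24 ≤ n)
    (hu1 : u1 ≤ C1 * x ^ (-n - c - 24)) (hu2 : u2 ≤ C2 * x ^ (-c - 24)) (hu3 : u3 ≤ C3 * x ^ r)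
    (hv : v ≤ u1 + 2 * x ^ (-n) * u2 + x ^ (-n) * x ^ (-n) * u3) :
    A * x ^ (c + 2) * v ≤ x ^ (-n - 21) := by
  have hx0 : 0 < x := by linarith
  have a2 : x ^ (-n) * u2 ≤ C2 * x ^ (-n - c - 24) :=
    calc x ^ (-n) * u2 ≤ x ^ (-n) * (C2 * x ^ (-c - 24)) := by gcongr
      _ = C2 * x ^ (-n + (-c - 24)) := by rw [rpow_add hx0]; ring
      _ = _ := by ring_nf
  have a3 : x ^ (-n) * x ^ (-n) * u3 ≤ C3 * x ^ (-n - c - 24) :=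
    calc x ^ (-n) * x ^ (-n) * u3 ≤ x ^ (-n) * x ^ (-n) * (C3 * x ^ r) := by gcongr
      _ = C3 * x ^ (-n + -n + r) := by rw [rpow_add hx0, rpow_add hx0]; ring
      _ ≤ _ := mul_le_mul_of_nonneg_left (rpow_le_rpow_of_exponent_le hx (by linarith)) h3
  have a4 : v ≤ (C1 + 2 * C2 + C3) * x ^ (-n - c - 24) := by linarith
  calc A * x ^ (c + 2) * v ≤ A * x ^ (c + 2) * ((C1 + 2 * C2 + C3) * x ^ (-n - c - 24)) := by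
        gcongr
    _ = A * (C1 + 2 * C2 + C3) * x ^ (c + 2 + (-n - c - 24)) := by rw [rpow_add hx0 (c + 2)]; ring
    _ ≤ _ := corex_pw hx hA (by linarith)

theorem corex_Bq (f g : Sm) (κ C s : ℝ) (hκ : 0 ≤ κ) :
    nrm 1 s (Bq (f + κ • g) (f + κ • g) - algebraMap ℝ Sm C) ≤
      nrm 1 s (Bq f f - algebraMap ℝ Sm C) + 2 * κ * nrm 1 s (Bq f g) +
        κ * κ * nrm 1 s (Bq g g) := by
  have e : Bq (f + κ • g) (f + κ • g) - algebraMap ℝ Sm C =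
      (Bq f f - algebraMap ℝ Sm C) + (2 * κ) • Bq f g + (κ * κ) • Bq g g := by
    simp only [map_add, map_smul, LinearMap.add_apply, LinearMap.smul_apply, Bq_comm g f]
    module
  rw [e]
  refine (nrm_add_le _ _ _ _).trans (add_le_add ((nrm_add_le _ _ _ _).trans ?_) ?_)
  · rw [nrm_smul, abs_of_nonneg (by positivity)]
  · rw [nrm_smul, abs_of_nonneg (by positivity)]

theorem corex_ge (A : ℝ) : ∀ᶠ m : ℕ in atTop, A ≤ m :=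
  tendsto_natCast_atTop_atTop.eventually_ge_atTop A

theorem core (hP : ProfStmt) (hD : DataStmt) (hW : WkbStmt) (hL : LocDStmt) (hZ : ZoneDStmt)
    (hC : CtlStmt) (h2 : S2Stmt) (hN : NoMeasStmt) : CoreStmt := by
  intro j0 K
  refine ⟨max j0 1, le_max_left _ _, fun C c hC1 => ?_⟩
  have hj : 1 ≤ max j0 1 := le_max_right _ _
  generalize max j0 1 = j at hj ⊢
  obtain ⟨C0, hC0, hD⟩ := hD (2 * j + 20)
  obtain ⟨Cs, hCs, hP⟩ := hP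
  obtain ⟨CL, hCL, hL⟩ := hL (2 * j + 20) C0 Cs hC0 hCs
  obtain ⟨τa, hτa, h2a⟩ := h2 j CL hj hCL
  obtain ⟨τb, hτb, h2b⟩ := h2 (j + 5) CL (by omega) hCL
  obtain ⟨CZ, τ1, hCZ, hτ1, hZ⟩ := hZ C0 Cs hC0 hCs
  obtain ⟨ℓ, hℓ, hℓ1, hN⟩ := hN j CZ hj hCZ
  obtain ⟨τ, hτ, hτ0, hD⟩ := hD (min τa (min τb τ1)) (lt_min hτa (lt_min hτb hτ1))
  obtain ⟨d, hd, rfl, hτ2⟩ := hD (ℓ / 8) (by positivity)
  simp only [le_min_iff] at hτ0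
  obtain ⟨Λa, h2a⟩ := h2a d.τ hτ hτ0.1
  obtain ⟨Λb, h2b⟩ := h2b d.τ hτ hτ0.2.1
  obtain ⟨Λ, hΛa, hΛb, hΛ⟩ : ∃ Λ : ℝ, Λa ≤ Λ ∧ Λb ≤ Λ ∧ 1 ≤ Λ :=
    ⟨max Λa (max Λb 1), le_max_left _ _, le_max_of_le_right (le_max_left _ _),
      le_max_of_le_right (le_max_right _ _)⟩
  obtain ⟨Uh, Qh, p1, p2, p3, p4, p5, p6, -, p7, p8, -⟩ :=
    hP d.κ d.p hd.κ_smooth hd.p_smooth hd.κ_nonneg hd.p_pos
  have hLe : Lead d Uh Qh := ⟨p1, p2, p3, p4, p5, p6⟩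
  have hLB : LeadB Cs d Uh Qh := ⟨p7, p8⟩
  have hρ : 0 < d.ρ := lt_of_lt_of_le (by positivity) hd.ρ_ge
  obtain ⟨z1, hz1, hz1'⟩ := exists_between (show d.zc + 5 * d.ρ < d.b1 by linarith [hd.o2])
  obtain ⟨z2, hz2, hz2'⟩ := exists_between hd.o4
  have hzl : d.zl < z1 := by linarith [hd.o1]
  obtain ⟨b, hb⟩ := corex_b d hρ
  obtain ⟨t, χ, χ', ht, χe, χe', χ1, χ2, χ3⟩ := corex_chi hτ hd.geo.τ2_pos hℓ hℓ1 hτ2
  obtain ⟨Bχ, hBχ, hχ⟩ := exists_Cb K χ'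
  obtain ⟨β, hβ⟩ : ∃ β, FO β (fun m => Bq (fc d b m) (fc d b m)) := by
    obtain ⟨c0, o1, e1, o2, e2, -, -, hF, -⟩ :=
      hW d _ C0 Uh Qh z1 z2 0 0 hd hC0 hLe hzl hz1' hz2 hz2'
    exact (hC d _ C0 Uh Qh z1 z2 c0 o1 e1 o2 e2 b χ' hd hC0 hz1 hz2' hF hb χ3).2.2.2.2.2.1
  obtain ⟨n, hn⟩ := exists_nat_ge
    (max ((c : ℝ) + (2 * j + 20 : ℕ) + 5) (((2 * j + 11 : ℕ) : ℝ) - β + c + 24))
  rw [max_le_iff] at hn
  obtain ⟨cf, o1, e1, o2, e2, Cm, CW, hF, hWe⟩ :=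
    hW d _ C0 Uh Qh z1 z2 (2 * j + 11) (n + c + 24) hd hC0 hLe hzl hz1' hz2 hz2'
  obtain ⟨q1, q2, q3, q4, q5, -, ψ, c0, ψ1, ψ2, hc0, ψ3⟩ :=
    hC d _ C0 Uh Qh z1 z2 cf o1 e1 o2 e2 b χ' hd hC0 hz1 hz2' hF hb χ3
  obtain ⟨C1, hC1', hLe'⟩ := hL d Uh Qh z1 z2 cf o1 e1 o2 e2 hd hLe hLB hzl hz2' hF
  obtain ⟨C2, hC2, hZe⟩ := hZ d _ Uh Qh z1 z2 cf o1 e1 o2 e2 b (by omega) hd hτ0.2.2 hLe hLB
    hz1 hz2' hF hb
  obtain ⟨ma, h2a⟩ := h2a Λ hΛa hΛ C1 hC1'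
  obtain ⟨mb, h2b⟩ := h2b Λ hΛb hΛ C1 hC1'
  obtain ⟨mn, hN⟩ := hN t C2 ht hC2
  obtain ⟨Cf, hCf, r1⟩ := q1.nrm (2 * j + 20)
  obtain ⟨Cq, hCq, r2⟩ := hβ.nrm (2 * j + 11)
  obtain ⟨Cx, hCx, r3⟩ := (q3 ((2 * j + 11 : ℕ) + c + 24)).FO.nrm (2 * j + 11)
  obtain ⟨Cu, r4⟩ := q4 (n + 22) K
  obtain ⟨Cv, r5⟩ := q5 22 K
  obtain ⟨m, ⟨⟨⟨w1, w2, w3⟩, ⟨ld, w4, w5⟩, zd, w6⟩, w7, w8, w9, w10, w11, w12, w13⟩,
      w14, w15, w16, w17, w18, w19⟩ :=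
    (((((eventually_ge_atTop ma).and ((eventually_ge_atTop mb).and (eventually_ge_atTop mn))).and
      (hLe'.and hZe)).and (hWe.and (ψ3.and (r1.and (r2.and (r3.and (r4.and r5))))))).and
      ((eventually_ge_atTop 1).and ((corex_ge (C * Λ ^ c * (Cf + 1))).and
      ((corex_ge (C * Λ ^ c * (CW + 2 * Cx + Cq))).and ((corex_ge (Cu + Cv)).and
      ((corex_ge (2 * C * (1 + Bχ))).and (corex_ge ((Cf + 1) * ‖ψ‖ / c0 + 1)))))))).exists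
  have hx : (1 : ℝ) ≤ m := by exact_mod_cast w14
  have hx0 : (0 : ℝ) < m := by linarith
  have hκ : 0 < (m : ℝ) ^ (-(n : ℝ)) := rpow_pos_of_pos hx0 _
  have hκ1 : (m : ℝ) ^ (-(n : ℝ)) ≤ 1 :=
    rpow_le_one_of_one_le_of_nonpos hx (neg_nonpos.2 (Nat.cast_nonneg n))
  have hΛm : 1 ≤ Λ * m := one_le_mul_of_one_le_of_one_le hΛ hx
  have hA0 : 0 ≤ C * Λ ^ c := by positivity
  have eA : C * (Λ * m)⁻¹⁻¹ ^ c * (m : ℝ) ^ 2 = C * Λ ^ c * (m : ℝ) ^ ((c : ℝ) + 2) := by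
    rw [inv_inv, mul_pow, rpow_add hx0, rpow_natCast, rpow_two]; ring
  rw [sub_zero] at w9
  have hv := corex_A0 (n := n) hx (Nat.cast_nonneg _) w9
  refine ⟨(Λ * m)⁻¹, m, cf.f d.toWG m, cf.f d.toWG m + (m : ℝ) ^ (-(n : ℝ)) • fc d b m, χ, χ', ψ,
    Cm m, m ^ 2, 1 / m ^ 2, (m : ℝ) ^ (-(n : ℝ) - 21), (m : ℝ) ^ (-(n : ℝ) - 21),
    (m : ℝ) ^ (-(n : ℝ)) / m ^ 20, Bχ, by positivity, inv_le_one_of_one_le₀ hΛm, w14, (q2 m).2,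
    add_mem (q2 m).2 (Submodule.smul_mem _ _ (q2 m).1), one_le_pow₀ hx, by positivity,
    w4 ▸ h2a m w1 ld (w5 _ (by omega)), w4 ▸ h2b m w2 ld (w5 _ (by omega)), ?_, ?_, χe, χe', χ1,
    hχ, ?_, ?_, hN m w3 _ _ χ zd hκ hκ1 (w6 t ℓ _ χ χ2), ψ1, ψ2, ?_⟩
  · rw [eA, add_sub_cancel_left, nrm_smul, abs_of_pos hκ]
    refine corex_A hx hA0 w15 hn.1 ?_
    exact_mod_cast hv
  · rw [eA]
    refine corex_B (u1 := nrm 1 (2 * j + 11 : ℕ) _) hx hA0 hCq w16 hn.2 (w7.trans_eq ?_)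
      (w11.trans_eq ?_) w10 ?_
    · rw [div_eq_mul_inv, ← rpow_natCast, ← rpow_neg hx0.le]
      push_cast
      ring_nf
    · ring_nf
    · exact_mod_cast corex_Bq _ _ _ (Cm m) (2 * j + 11) hκ.le
  · rw [map_add, map_smul, mul_add, mul_smul_comm]
    refine (w12.add (w13.smul _)).mono zero_le_one le_rfl le_rfl ?_
    have e : |(m : ℝ) ^ (-(n : ℝ))| * (Cv * (m : ℝ) ^ (-(22 : ℝ))) =
        Cv * (m : ℝ) ^ (-((n : ℝ) + 22)) := by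
      rw [abs_of_pos hκ, neg_add, rpow_add hx0]; ring
    rw [e, ← add_mul]
    exact corex_pw hx w17 (by linarith)
  · have e : (m : ℝ) ^ (-(n : ℝ)) / m ^ 20 = (m : ℝ) ^ (-(n : ℝ) - 20) := by
      rw [rpow_sub hx0]; norm_num
    rw [e, ← two_mul]
    refine le_trans (le_of_eq (by ring)) (corex_pw (r := -(n : ℝ) - 21) hx w18 (by linarith))
  · rw [inner_add_left, real_inner_smul_left]
    have a1 : ‖fc d b m‖ ≤ nrm 1 (2 * j + 20 : ℕ) (fc d b m) := by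
      rw [← nrm_zero le_rfl]; exact nrm_mono le_rfl (Nat.cast_nonneg _) _
    have a2 := (abs_le.1 (abs_real_inner_le_norm (fc d b m) ψ)).1
    have a3 : (m : ℝ) ^ (((2 * j + 20 : ℕ) : ℝ) - n) ≤ (m : ℝ)⁻¹ := by
      rw [← rpow_neg_one]
      exact rpow_le_rpow_of_exponent_le hx (by linarith [hn.1, (Nat.cast_nonneg c : (0 : ℝ) ≤ c)])
    have a4 : (Cf + 1) * (m : ℝ)⁻¹ * ‖ψ‖ < c0 := by
      have : (Cf + 1) * ‖ψ‖ / c0 < m := by linarith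
      rw [div_lt_iff₀ hc0] at this
      rw [mul_right_comm, ← div_eq_mul_inv, div_lt_iff₀ hx0]
      linarith
    have a5 : ((m : ℝ) ^ (-(n : ℝ)) * ‖fc d b m‖ + (m : ℝ) ^ (-(n : ℝ) - 21)) * ‖ψ‖ ≤
        (Cf + 1) * (m : ℝ)⁻¹ * ‖ψ‖ := by
      refine mul_le_mul_of_nonneg_right (le_trans ?_ (hv.trans ?_)) (norm_nonneg _) <;> gcongr
    have a6 := mul_le_mul_of_nonneg_left a2 hκ.le
    rw [add_mul, mul_assoc] at a5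
    rw [mul_neg] at a6
    linarith only [a4, a5, a6, w8]

end Pool.Agent.Lib.MP_2fa2a2_gt.PI
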