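import Pool.Agent.Lib.MP_2fa2a2_gt.PI.SWkb

namespace Pool.Agent.Lib.MP_2fa2a2_gt.PI

open Real Filter Set

/-- vanishing outside a symmetric pair of strips -/
def ctl_Sp (a b : ℝ) (φ : Sm) : Prop := ∀ x : S2, |(x : E3) 2| ∉ Icc a b → φ x = 0

theorem ctl_Sp.L {a b : ℝ} {φ : Sm} (h : ctl_Sp a b φ) (c : Fin 3) : ctl_Sp a b (L c φ) := by
  intro x hx
  have e : MP_5b78b3_gt.rot (int_rot c 0) x = x := Subtype.ext (int_rot_zero c x)
  have h1 := int_hasDerivAt_comp c φ x 0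
  have h2 := (int_hasDerivAt_comp c (X 2) x 0).continuousAt.abs.eventually
    (isClosed_Icc.isOpen_compl.mem_nhds (s := (Icc a b)ᶜ) (by beta_reduce; rw [e]; exact hx))
  rw [e] at h1
  exact h1.unique ((hasDerivAt_const 0 0).congr_of_eventuallyEq (h2.mono fun t ht => h _ ht))

theorem ctl_Sp.D {a b : ℝ} {φ : Sm} (h : ctl_Sp a b φ) (c : Fin 3) : ctl_Sp a b (D c φ) :=
  fun x hx => by rw [D_def, Sm.sub_apply, Sm.mul_apply, Sm.mul_apply, h.L _ x hx, h.L _ x hx]; simp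

theorem ctl_Sp.smul {a b : ℝ} {φ : Sm} (h : ctl_Sp a b φ) (r : ℝ) : ctl_Sp a b (r • φ) :=
  fun x hx => by rw [Sm.smul_apply, h x hx, mul_zero]

theorem ctl_Sp.mul {a b a' b' : ℝ} {φ ψ : Sm} (h : ctl_Sp a b φ) (h' : ctl_Sp a' b' ψ)
    (hb : b' < a) : φ * ψ = 0 := by
  ext x
  by_cases hx : |(x : E3) 2| ∈ Icc a b
  · rw [Sm.mul_apply, h' x fun h => by linarith [h.2, hx.1], mul_zero, Sm.zero_apply]
  · rw [Sm.mul_apply, h x hx, zero_mul, Sm.zero_apply]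

theorem ctl_Wv {a b : ℝ} {Φ : Pf} (h : Sup a b Φ) (ha : 0 ≤ a) (g : ℝ → ℝ) (m : ℕ) :
    ctl_Sp a b (evE (Wv g m Φ)) := by
  have h1 : ∀ x : S2, |(x : E3) 2| ∉ Icc a b → Wv g m Φ x = 0 := fun x hx => by
    unfold Wv
    split_ifs
    · exact h _ _ fun h => hx (by rwa [abs_of_nonneg (ha.trans h.1)])
    · rfl
  intro x hx
  rw [evE, Sm.add_apply, ant_apply, h1 x hx, h1 _ (by simpa using hx), add_zero]

/-- families with polynomial bounds -/
def ctl_F (F : ℕ → Sm) : Prop := ∃ β, FO β F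

section
variable {F G : ℕ → Sm}
theorem ctl_F.add (h : ctl_F F) (h' : ctl_F G) : ctl_F fun m => F m + G m := by
  obtain ⟨a, h⟩ := h
  obtain ⟨b, h'⟩ := h'
  exact ⟨min a b, (h.mono (min_le_left _ _)).add (h'.mono (min_le_right _ _))⟩
theorem ctl_F.sub (h : ctl_F F) (h' : ctl_F G) : ctl_F fun m => F m - G m := by
  obtain ⟨a, h⟩ := h
  obtain ⟨b, h'⟩ := h'
  exact ⟨min a b, (h.mono (min_le_left _ _)).sub (h'.mono (min_le_right _ _))⟩
theorem ctl_F.mul (h : ctl_F F) (h' : ctl_F G) : ctl_F fun m => F m * G m :=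
  ⟨_, h.choose_spec.mul h'.choose_spec⟩
theorem ctl_F.L (h : ctl_F F) (c : Fin 3) : ctl_F fun m => L c (F m) := ⟨_, h.choose_spec.L c⟩
theorem ctl_F.D (h : ctl_F F) (c : Fin 3) : ctl_F fun m => D c (F m) := ⟨_, h.choose_spec.D c⟩
theorem ctl_F.R (h : ctl_F F) : ctl_F fun m => R (F m) := h.choose_spec.R
theorem ctl_const (φ : Sm) : ctl_F fun _ => φ := ⟨0, (SO.const φ).FO⟩
theorem ctl_sum {H : Fin 3 → ℕ → Sm} (h : ∀ a, ctl_F (H a)) : ctl_F fun m => ∑ a, H a m := by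
  simp only [Fin.sum_univ_three]
  exact ((h 0).add (h 1)).add (h 2)
theorem ctl_mul (h : Ng F) (h' : ctl_F G) : Ng fun m => F m * G m := h.mul_FO h'.choose_spec
theorem ctl_mul' (h : ctl_F F) (h' : Ng G) : Ng fun m => F m * G m := by
  simpa only [mul_comm] using ctl_mul h' h
theorem ctl_add (h : Ng F) (h' : Ng G) : Ng fun m => F m + G m := fun N => (h N).add (h' N)
theorem ctl_L (h : Ng F) (c : Fin 3) : Ng fun m => L c (F m) := fun N => (h N).L c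
end

theorem ctl_small {F : ℕ → Sm} (h : FO 1 F) {ε : ℝ} (hε : 0 < ε) : ∀ᶠ m in atTop, ‖F m‖ ≤ ε := by
  obtain ⟨C, hC⟩ := h 0
  have h1 : Tendsto (fun m : ℕ => C * (m : ℝ) ^ (-(1 : ℝ))) atTop (nhds (C * 0)) :=
    ((tendsto_rpow_neg_atTop one_pos).comp tendsto_natCast_atTop_atTop).const_mul C
  rw [mul_zero] at h1
  filter_upwards [hC, h1.eventually (ge_mem_nhds hε)] with m h2 h3
  exact (norm_le_of_sup h2.abs_le).trans h3

theorem ctl_R (φ : Sm) : R (evE φ) = (2 : ℝ) • R φ := by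
  rw [evE, map_add, two_smul, show R (ant φ) = ant (R φ) from tau_R_act _ φ, mem_Ev.1 (R_mem_Ev φ)]

theorem ctl_Zi {m : ℕ} {φ : Sm} (h : φ ∈ Zi m) : ant φ ∈ Zi m := by
  rw [mem_Zi, ← ant_rotZ, mem_Zi.1 h]

theorem ctl_sp {w : WG} (hw : w.Ok) {Θ : ℝ → ℝ} (h : SP w Θ) {z1 z2 z1' z2' : ℝ} {A : ℕ → Pf}
    (h1 : w.zl < z1') (h2 : z1' < z1) (h3 : z2 < z2') (h4 : z2' < w.zr) (hA : PF z1 z2 0 A)
    (h0 : ∀ m, Mz (A m)) : ∃ E N : ℕ → Sm, (∀ m, R (evE (Wv w.g m (A m))) = E m + N m) ∧ Ng N ∧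
      ctl_F E ∧ ∀ m, ctl_Sp (w.τ + w.τ2 * z1') (w.τ + w.τ2 * z2') (E m) := by
  obtain ⟨Ψ, -, p, -, -, -, q, -⟩ := h z1 z2 z1' z2' 0 A h1 h2 h3 h4 hA h0
  have a1 := hw.zl_pos
  have a2 := hw.τ_pos
  have a3 := hw.τ2_pos
  have hF : ctl_F fun m => R (Wv w.g m (A m)) :=
    (hA.FO hw.g_smooth (by linarith) (by linarith [hw.zr_lt])).R
  refine ⟨fun m => (2 : ℝ) • evE (w.Wo Θ m (sl w.k0 * JG m (A m) + Ψ m)), _,
    fun m => ?_, fun N => (q N).smul 2, ?_, fun m => (ctl_Wv (fun z s hz => ?_)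
      (by nlinarith) _ m).smul 2⟩
  · rw [ctl_R, ← smul_add, add_sub_cancel]
  · obtain ⟨β, hβ⟩ := hF.sub ⟨0, (q 0).FO⟩
    exact ⟨β, by simpa only [sub_sub_cancel] using hβ.smul 2⟩
  · have hz' : (z - w.τ) / w.τ2 ∉ Icc z1' z2' := fun h => hz ⟨by
      linarith [(le_div_iff₀' a3).1 h.1], by linarith [(div_le_iff₀' a3).1 h.2]⟩
    simp only [Pi.add_apply, Pi.mul_apply, (p.1 m).2 _ _ hz',
      (((hA.1 m).2.JG m).mono h2.le h3.le) _ _ hz', mul_zero, add_zero]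

theorem ctl (hS : SPStmt) : CtlStmt := by
  intro d k C0 Uh Qh z1 z2 c o1 e1 o2 e2 b χ' hd hC hz1 hz2 hF hb hχ
  obtain ⟨Θ, -, hΘ⟩ := hS _ hd.geo
  have a1 := hd.geo.zl_pos
  have a2 := hd.geo.τ_pos
  have a3 := hd.geo.τ2_pos
  have a4 := hd.geo.zr_lt
  have a5 : 0 < d.ρ := lt_of_lt_of_le (by positivity) hd.ρ_ge
  have a6 := hd.o1
  have a7 := hd.o2.trans (hd.o3.trans hd.o4)
  have hg := hd.geo.g_smooth
  have sA : Sup (d.zc - 5 * d.ρ) (d.zc + 5 * d.ρ) (sl b * fun x => sin x.2) := fun z s hz => by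
    simp [sl, hb.supp z hz]
  have hA := PF.const ((Per_sl hb.smooth).mul Per_sin) sA
  obtain ⟨y, y1, y2⟩ := exists_between hz1
  obtain ⟨y', y3, y4⟩ := exists_between (lt_min y1 (show _ < d.zr by linarith))
  obtain ⟨y'', y5, y6⟩ := exists_between hz2
  rw [lt_min_iff] at y4
  obtain ⟨E, N, e1', n1, f1, s1⟩ := ctl_sp hd.geo hΘ (by linarith) y2 y5 y6 hF.ok.e_ord hF.ok.e_mean
  obtain ⟨E', N', e2', n2, f2, s2⟩ := ctl_sp hd.geo hΘ a6 (by linarith) y3 y4.2 hA fun _ z => by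
    rw [mean_sl_mul]; simp [mean]
  have fA := hA.FO hg (by linarith) (by linarith)
  have fC : FO 0 (fc d b) := fA.add fA.ant
  have fo := hF.ok.o_ord.FO hg (by linarith) (by linarith)
  have fe := hF.ok.e_ord.FO hg (by linarith) (by linarith)
  have od : ∀ m, prim (c.a m) + ((m : ℝ)⁻¹) • odE (Wv d.g m (c.o m)) ∈ Od := fun m =>
    Od.add_mem (prim_odd (hF.ok.a_even m)) (Od.smul_mem _ (odE_mem _))
  have rf : ∀ m, R (c.f d.toWG m) = ((m : ℝ)⁻¹) • E m + ((m : ℝ)⁻¹) • N m := fun m => by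
    rw [Cf.f, map_add, R_of_Od (od m), zero_add, map_smul, e1', smul_add]
  have n3 : Ng fun m => ((m : ℝ)⁻¹) • N m := fun M => (n1 M).inv.mono (by linarith)
  have f3 : ctl_F fun m => ((m : ℝ)⁻¹) • E m := ⟨_, f1.choose_spec.inv⟩
  have cut : ∀ {a a' : ℝ} {φ : Sm}, ctl_Sp (d.τ + d.τ2 * a) (d.τ + d.τ2 * a') φ → 0 ≤ a → a' ≤ 1 →
      χ' * φ = 0 := fun {a a' φ} h h1 h2 => by
    ext x
    by_cases hx : |(x : E3) 2| ∈ Icc (d.τ + d.τ2 * a) (d.τ + d.τ2 * a')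
    · rw [Sm.mul_apply, hχ x (by rw [X_apply]; nlinarith [hx.1]) (by rw [X_apply]; nlinarith [hx.2]),
        zero_mul, Sm.zero_apply]
    · rw [Sm.mul_apply, h x hx, mul_zero, Sm.zero_apply]
  refine ⟨fC, fun m => ⟨?_, ?_⟩, ?_, ?_, ?_, ?_, ?_⟩
  · have := Wv_mem_Zi m (hA.adm hg (by linarith) (by linarith) m)
    exact (Zi m).add_mem this (ctl_Zi this)
  · have h1 := Wv_mem_Zi m (hF.ok.o_ord.adm hg (by linarith) (by linarith) m)
    have h2 := Wv_mem_Zi m (hF.ok.e_ord.adm hg (by linarith) (by linarith) m)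
    exact (Zi m).add_mem ((Zi m).add_mem ((prim_zon (hF.ok.a_zon m)).mem_Zi m)
      ((Zi m).smul_mem _ ((Zi m).sub_mem h1 (ctl_Zi h1))))
      ((Zi m).smul_mem _ ((Zi m).add_mem h2 (ctl_Zi h2)))
  · have t : ∀ a, Ng fun m => L a (((m : ℝ)⁻¹) • E m) * L a (N' m) +
        L a (((m : ℝ)⁻¹) • N m) * L a (E' m + N' m) := fun a =>
      ctl_add (ctl_mul' (f3.L a) (ctl_L n2 a)) (ctl_mul (ctl_L n3 a) ((f2.add ⟨0, (n2 0).FO⟩).L a))
    have t' := ctl_mul' (ctl_const (-2)) (ctl_add (ctl_add (t 0) (t 1)) (t 2))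
    refine fun M => (t' M).congr (.of_forall fun m => ?_)
    have h1 : Bq (c.f d.toWG m) (fc d b m) =
        Bq (((m : ℝ)⁻¹) • evE (Wv d.g m (c.e m))) (fc d b m) := by
      rw [Cf.f, map_add, LinearMap.add_apply, Bq_comm,
        Bq_Ev_Od (f := fc d b m) (evE_mem _) (od m), zero_add]
    have h2 : ∀ a a', D a (((m : ℝ)⁻¹) • evE (Wv d.g m (c.e m))) * D a' (fc d b m) = 0 :=
      fun a a' => (((ctl_Wv (hF.ok.e_ord.1 m).2 (by linarith) _ m).smul _).D a).mul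
        ((ctl_Wv sA (by linarith) _ m).D a') hz1
    have h3 : ∀ a, L a (((m : ℝ)⁻¹) • E m) * L a (E' m) = 0 := fun a =>
      (((s1 m).smul _).L a).mul ((s2 m).L a) (by nlinarith [y4.1])
    have h4 : R (fc d b m) = E' m + N' m := e2' m
    beta_reduce
    rw [h1, Bq_def, R2, map_smul R, e1', h4, smul_add, alg_gd]
    simp only [h2, map_zero, mul_zero, Finset.sum_const_zero, map_add]
    linear_combination 2 * (h3 0 + h3 1 + h3 2)
  · refine fun M => (ctl_mul' (ctl_const χ') n3 M).congr (.of_forall fun m => ?_)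
    beta_reduce
    rw [rf, mul_add, cut ((s1 m).smul _) (by linarith) (by linarith), zero_add]
  · refine fun M => (ctl_mul' (ctl_const χ') n2 M).congr (.of_forall fun m => ?_)
    beta_reduce
    rw [show R (fc d b m) = E' m + N' m from e2' m, mul_add,
      cut (s2 m) (by linarith) (by linarith [y4.2]), zero_add]
  · have h : ctl_F (fc d b) := ⟨0, fC⟩
    exact (ctl_sum fun a => ctl_sum fun a' => (ctl_const (X a * X a')).mul
      ((h.D a).mul (h.D a')).R).sub ((ctl_const 2).mul (ctl_sum fun a => (h.R.L a).mul (h.R.L a)))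
  · set φ := prim d.a0 with hφ
    have p1 : P 1 (φ - P 1 φ) = 0 := by rw [map_sub, P_P, if_pos rfl, sub_self]
    have hz : L 2 φ = 0 := (prim_zon hd.a0_zon).L2
    have ne : φ - P 1 φ ≠ 0 := fun h => by
      have i0 : I (X 0 * φ) = 0 := by
        rw [← alg_21, ← inner_def, inner_L, hz, inner_zero_right, neg_zero]
      have i1 : I (X 1 * φ) = 0 := by
        rw [← neg_neg (X 1), ← alg_20, ← inner_def, inner_neg_left, inner_L, hz, inner_zero_right,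
          neg_zero, neg_zero]
      rw [sub_eq_zero, P_one, Fin.sum_univ_three, i0, i1, mul_zero, zero_smul, zero_smul, zero_add,
        zero_add] at h
      have h1 := congrArg (D 2) h
      rw [map_smul, zon_D2_X, hφ, zon_D2_prim hd.a0_zon, Algebra.smul_def, mul_comm _ qq] at h1
      have h2 := (hd.mono (pt d.zc) (by
        rw [X_apply, pt_coe (abs_le.2 ⟨by linarith, by linarith⟩)]
        simp [a5.le])).1
      rw [zon_cancel h1, D_algebraMap] at h2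
      exact lt_irrefl _ h2
    have n0 := norm_pos_iff.2 ne
    have hr : FO 1 fun m => prim (c.a m - d.a0) + ((m : ℝ)⁻¹) • odE (Wv d.g m (c.o m)) +
        ((m : ℝ)⁻¹) • evE (Wv d.g m (c.e m)) := by
      refine (FO.add (SO.FO fun k => ?_) ((fo.sub fo.ant).inv.mono (by norm_num))).add
        ((fe.add fe.ant).inv.mono (by norm_num))
      obtain ⟨C, -, h1⟩ := Cb_prim k
      obtain ⟨C', h2⟩ := hF.ha k
      exact ⟨C * C', h2.mono fun m h => by
        rw [mul_assoc]; exact h1 ((hF.ok.a_zon m).sub hd.a0_zon) h⟩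
    refine ⟨φ - P 1 φ, ‖φ - P 1 φ‖ ^ 2 / 2, Od.sub_mem (prim_odd hd.a0_even) ?_, p1, by positivity,
      (ctl_small hr (half_pos n0)).mono fun m hm => ?_⟩
    · rw [mem_Od, ant_P, pow_one, neg_one_smul]
    · have h1 : inner ℝ φ (φ - P 1 φ) = ‖φ - P 1 φ‖ ^ 2 := by
        rw [← real_inner_self_eq_norm_sq, inner_sub_left, inner_P, p1, inner_zero_right, sub_zero]
      have h2 := (abs_le.1 ((abs_real_inner_le_norm _ (φ - P 1 φ)).trans
        (mul_le_mul_of_nonneg_right hm n0.le))).1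
      have h3 : c.f d.toWG m = φ + (prim (c.a m - d.a0) + ((m : ℝ)⁻¹) • odE (Wv d.g m (c.o m)) +
          ((m : ℝ)⁻¹) • evE (Wv d.g m (c.e m))) := by
        rw [Cf.f, map_sub]; abel
      rw [h3, inner_add_left, h1]
      linarith

end Pool.Agent.Lib.MP_2fa2a2_gt.PI
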