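import Pool.Agent.Lib.MP_2fa2a2_gt.PI.Wave

/-! The zonal equation for the data of the construction. -/

namespace Pool.Agent.Lib.MP_2fa2a2_gt.PI

open Real Filter Set
open scoped ContDiff

theorem data_solve {Y : Sm} (hz : Zon Y) : ∃ (β : Sm) (C : ℝ), Zon β ∧ β ∈ Ev ∧
    X 2 * X 2 * R β + R Y = algebraMap ℝ Sm C := by
  obtain ⟨e, c, he, hev, h⟩ := exists_div (hz.fn cR) (R_mem_Ev Y)
  refine ⟨-Ri e, c, ?_, neg_mem (Ri_mem_Ev e), ?_⟩
  · have := (he.fn (fun l => (cR l)⁻¹)).smul (-1)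
    rw [neg_one_smul] at this
    exact this
  · rw [map_neg, R_Ri, evp_of_Ev hev]
    have h' : X 2 * X 2 * e = R Y - algebraMap ℝ Sm c := h
    linear_combination -h'

theorem data_ant_qq : ant qq = qq := by
  unfold qq
  rw [map_sub, map_one, map_mul, ant_X]
  ring

theorem data_ode {β Y : Sm} {C : ℝ} (hz : Zon β) (he : β ∈ Ev) (hY : Y ∈ Ev)
    (h : X 2 * X 2 * R β + R Y = algebraMap ℝ Sm C) :
    qq * β - X 2 * prim β + Y = algebraMap ℝ Sm C := by
  rw [X2_sq_R hz he, ← map_add] at h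
  have h1 : R (algebraMap ℝ Sm C) = algebraMap ℝ Sm C := by
    rw [Algebra.algebraMap_eq_smul_one, map_smul, R_one]
  have h2 := congrArg Ri (h.trans h1.symm)
  rw [Ri_R, Ri_R, evp_of_Ev, evp_of_Ev] at h2
  · exact h2
  · exact mem_Ev.2 (AlgHom.commutes _ _)
  · rw [mem_Ev, map_add, map_sub, map_mul, map_mul, data_ant_qq, ant_X, mem_Ev.1 he,
      mem_Ev.1 hY, mem_Od.1 (prim_odd he)]
    ring

theorem data_three (x : S2) : (3 : Sm) x = 3 := rfl

theorem data_pt {z : ℝ} (hz : |z| ≤ 1) : (pt z : E3) 2 = z := by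
  rw [pt_coe hz]
  rfl

theorem data_C_pos {β Y : Sm} {C : ℝ} (hz : Zon Y) (h0 : ∀ x, 0 ≤ Y x)
    (hp : 0 < Y (pt (7 / 20))) (h : X 2 * X 2 * R β + R Y = algebraMap ℝ Sm C) : 0 < C := by
  have hF : Fr (circ_pt 0) (EuclideanSpace.single 1 1) (EuclideanSpace.single 2 1) := by
    constructor <;> simp [circ_pt_coe, EuclideanSpace.inner_single_left]
  have h1 := congrArg (fun φ : Sm => φ (circ_pt 0)) h
  have h2 : ((circ_pt 0 : S2) : E3) 2 = 0 := by simp [circ_pt_coe]
  simp only [Sm.add_apply, Sm.mul_apply, X_apply, h2, Sm.algebraMap_apply, zero_mul,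
    zero_add] at h1
  rw [← h1, R_apply hF, cav]
  have hc : Continuous (circ (EuclideanSpace.single 1 1) (EuclideanSpace.single 2 1)) := by
    refine continuous_induced_rng.2 ?_
    have : Subtype.val ∘ circ (EuclideanSpace.single 1 1) (EuclideanSpace.single 2 1)
        = fun τ => cos τ • (EuclideanSpace.single 1 1 : E3)
          + sin τ • (EuclideanSpace.single 2 1 : E3) := funext fun τ => circ_coe hF τ
    rw [this]
    fun_prop
  refine mul_pos (inv_pos.2 two_pi_pos) (intervalIntegral.integral_pos two_pi_pos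
    (Y.continuous.comp hc).continuousOn (fun τ _ => h0 _) ⟨arcsin (7 / 20), ⟨?_, ?_⟩, ?_⟩)
  · exact arcsin_nonneg.2 (by norm_num)
  · linarith [arcsin_le_pi_div_two (7 / 20), pi_pos]
  · rw [hz.eq (y := pt (7 / 20))]
    · exact hp
    · rw [circ_coe hF, data_pt (by norm_num [abs_le])]
      simp [sin_arcsin (x := 7 / 20) (by norm_num) (by norm_num)]

theorem data_min (b : Sm) : ∃ x0, (∀ x, b x0 ≤ b x) ∧ D 2 b x0 = 0 := by
  obtain ⟨K, -, hK⟩ := b.bounded
  obtain ⟨x0, h1, h2⟩ := zon_max (algebraMap ℝ Sm (K + 1) - b)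
  have hp : ∀ x, 0 < (algebraMap ℝ Sm (K + 1) - b) x := fun x => by
    rw [Sm.sub_apply, Sm.algebraMap_apply]
    linarith [(abs_le.1 (hK x)).2]
  refine ⟨x0, fun x => ?_, ?_⟩
  · have := h1 x
    rw [abs_of_pos (hp _), abs_of_pos (hp _)] at this
    simp only [Sm.sub_apply, Sm.algebraMap_apply] at this
    linarith
  · have := (mul_eq_zero.1 h2).resolve_left (hp x0).ne'
    rw [map_sub, D_algebraMap] at this
    simpa using this

theorem data_core {B : Sm} (hz : Zon B) (he : B ∈ Ev) (h0 : ∀ x, 0 ≤ B x)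
    (hp : 0 < B (pt (7 / 20)))
    (hv : ∀ x : S2, 0 ≤ (x : E3) 2 → (x : E3) 2 ≤ 1 / 4 → B x = 0) :
    ∃ (β : Sm) (C m : ℝ), Zon β ∧ β ∈ Ev ∧
      X 2 * X 2 * R β + R (qq * B) = algebraMap ℝ Sm C ∧ 0 < m ∧ (∀ x, m ≤ (β + B) x) ∧
      ∀ x : S2, 0 ≤ (x : E3) 2 → (x : E3) 2 ≤ 1 / 4 →
        3 * (x : E3) 2 * (β + B) x ≤ D 2 (β + B) x := by
  obtain ⟨β, C, hβ, hβe, h⟩ := data_solve (Zon_qq.mul hz)
  have hC : 0 < C := by
    refine data_C_pos (Zon_qq.mul hz) (fun x => mul_nonneg (zon_qq_nonneg x) (h0 x)) ?_ h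
    rw [Sm.mul_apply]
    refine mul_pos ?_ hp
    rw [zon_qq_apply, data_pt (by norm_num [abs_le])]
    norm_num
  have ho := data_ode hβ hβe (by rw [mem_Ev, map_mul, data_ant_qq, mem_Ev.1 he]) h
  have hP := zon_D2_prim hβ
  have hD : D 2 (β + B) = prim β + 3 * X 2 * (β + B) - X 2 * B := by
    refine zon_cancel ?_
    have h1 := congrArg (D 2) ho
    rw [map_add, map_sub, D_mul, D_mul, D_mul, D_algebraMap, zon_D2_qq, zon_D2_X, hP] at h1
    rw [map_add]
    linear_combination h1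
  obtain ⟨x0, hm, hx0⟩ := data_min (β + B)
  have hpos : 0 < (β + B) x0 := by
    have h1 := congrArg (fun φ : Sm => φ x0) ho
    have h2 := congrArg (fun φ : Sm => φ x0) hD
    simp only [Sm.add_apply, Sm.sub_apply, Sm.mul_apply, X_apply, Sm.algebraMap_apply,
      data_three, zon_qq_apply, hx0] at h1 h2 ⊢
    have h3 : (β x0 + B x0) * (1 + 2 * (x0 : E3) 2 ^ 2) = C + (x0 : E3) 2 ^ 2 * B x0 := by
      linear_combination h1 - (x0 : E3) 2 * h2
    have h4 : 0 < C + (x0 : E3) 2 ^ 2 * B x0 := by have := h0 x0; positivity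
    rw [← h3] at h4
    exact (mul_pos_iff_of_pos_right (by positivity)).1 h4
  refine ⟨β, C, (β + B) x0, hβ, hβe, h, hpos, hm, fun x x1 x2 => ?_⟩
  have hdiff : ∀ z ∈ Icc (0 : ℝ) (1 / 4), DifferentiableAt ℝ (az (prim β)) z := fun z hz =>
    (az_smooth (prim β) (by rw [abs_lt]; constructor <;> linarith [hz.1, hz.2])).differentiableAt
      (by simp)
  have hmono : MonotoneOn (az (prim β)) (Icc 0 (1 / 4)) := by
    refine monotoneOn_of_deriv_nonneg (convex_Icc _ _)
      (fun z hz => (hdiff z hz).continuousAt.continuousWithinAt)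
      (fun z hz => (hdiff z (interior_subset hz)).differentiableWithinAt) fun z hz => ?_
    have hz := interior_subset hz
    have z1 : |z| < 1 := by rw [abs_lt]; constructor <;> linarith [hz.1, hz.2]
    have h1 := az_D2 (prim β) z1
    have h2 := data_pt z1.le
    have h3 := hv (pt z) (by rw [h2]; exact hz.1) (by rw [h2]; exact hz.2)
    have h4 := hpos.trans_le (hm (pt z))
    rw [hP, az, Sm.mul_apply, zon_qq_apply, h2] at h1
    rw [Sm.add_apply, h3, add_zero] at h4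
    have h5 : 0 < 1 - z ^ 2 := by nlinarith [hz.1, hz.2]
    have h6 : (1 - z ^ 2) * deriv (az (prim β)) z = (1 - z ^ 2) * β (pt z) := by
      linear_combination -h1
    rw [mul_left_cancel₀ h5.ne' h6]
    exact h4.le
  have hzero : az (prim β) 0 = 0 := by
    have h1 := congrArg (fun φ : Sm => φ (pt 0)) (mem_Od.1 (prim_odd hβe))
    simp only [ant_apply, Sm.neg_apply] at h1
    have h2 : prim β (neg (pt 0)) = prim β (pt 0) := (prim_zon hβ).eq (by
      rw [neg_coe, PiLp.neg_apply, data_pt (by simp), neg_zero])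
    rw [az]
    linarith
  have h1 := hmono ⟨le_rfl, by norm_num⟩ ⟨x1, x2⟩ x1
  rw [hzero, ← (prim_zon hβ).eq_az x] at h1
  rw [hD]
  simp only [Sm.add_apply, Sm.sub_apply, Sm.mul_apply, X_apply, data_three, hv x x1 x2]
  linarith

end Pool.Agent.Lib.MP_2fa2a2_gt.PI
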