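import Pool.Agent.Lib.MP_2fa2a2_gt.PI.Base

/-! Functions of one real variable for the data of the construction. -/

namespace Pool.Agent.Lib.MP_2fa2a2_gt.PI

open Real Filter Set
open scoped ContDiff

theorem data_clamp : ∃ c : ℝ → ℝ, ContDiff ℝ ∞ c ∧ (∀ z, 0 ≤ c z ∧ c z ≤ 3 / 5) ∧
    ∀ z ∈ Icc (1 / 10 : ℝ) (1 / 2), c z = z := by
  let f : ContDiffBump (3 / 10 : ℝ) := ⟨1 / 5, 3 / 10, by norm_num, by norm_num⟩
  have hf : ContDiff ℝ ∞ f := f.contDiff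
  refine ⟨fun z => 3 / 10 + f z * (z - 3 / 10), by fun_prop, fun z => ?_, fun z hz => ?_⟩
  · have h0 : 0 ≤ f z := f.nonneg
    have h1 : f z ≤ 1 := f.le_one
    rcases le_or_gt (3 / 10 : ℝ) (dist z (3 / 10)) with h | h
    · have : f z = 0 := f.zero_of_le_dist h
      simp only [this]
      norm_num
    · rw [Real.dist_eq, abs_lt] at h
      constructor <;> nlinarith [h.1, h.2]
  · have : f z = 1 := f.one_of_mem_closedBall (by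
      rw [Metric.mem_closedBall, Real.dist_eq, abs_le]
      show -(1 / 5 : ℝ) ≤ _ ∧ _ ≤ (1 / 5 : ℝ)
      constructor <;> linarith [hz.1, hz.2])
    simp only [this]
    ring

theorem data_bump : ∃ κ : ℝ → ℝ, ContDiff ℝ ∞ κ ∧ (∀ z, 0 ≤ κ z ∧ κ z ≤ 1) ∧
    (∀ z, z ∉ Icc (3 / 10 : ℝ) (2 / 5) → κ z = 0) ∧ κ (7 / 20) = 1 := by
  let f : ContDiffBump (7 / 20 : ℝ) := ⟨1 / 50, 1 / 20, by norm_num, by norm_num⟩
  refine ⟨f, f.contDiff, fun z => ⟨f.nonneg, f.le_one⟩, fun z hz => ?_, ?_⟩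
  · refine f.zero_of_le_dist ?_
    rw [Real.dist_eq]
    show (1 / 20 : ℝ) ≤ _
    rw [mem_Icc, not_and_or, not_le, not_le] at hz
    rcases hz with h | h
    · rw [abs_of_neg (by linarith)]; linarith
    · rw [abs_of_pos (by linarith)]; linarith
  · exact f.one_of_mem_closedBall (Metric.mem_closedBall_self f.rIn_pos.le)

theorem data_prim {f : ℝ → ℝ} (hf : ContDiff ℝ ∞ f) :
    ∃ g : ℝ → ℝ, ContDiff ℝ ∞ g ∧ deriv g = f := by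
  have h : deriv (fun u => ∫ x in (0 : ℝ)..u, f x) = f :=
    funext fun b => hf.continuous.deriv_integral f 0 b
  refine ⟨fun u => ∫ x in (0 : ℝ)..u, f x, ?_, h⟩
  rw [contDiff_infty_iff_deriv, h]
  exact ⟨fun b => (hf.continuous.integral_hasStrictDerivAt 0 b).hasDerivAt.differentiableAt, hf⟩

theorem data_sm {κ f : ℝ → ℝ} (hκ : ContDiff ℝ ∞ κ)
    (hs : ∀ z, z ∉ Icc (3 / 10 : ℝ) (2 / 5) → κ z = 0)
    (hf : ∀ z ∈ Icc (3 / 10 : ℝ) (2 / 5), ContDiffAt ℝ ∞ f z) :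
    ContDiff ℝ ∞ (fun z => f z * κ z ^ 2) := by
  refine contDiff_iff_contDiffAt.2 fun z => ?_
  by_cases hz : z ∈ Icc (3 / 10 : ℝ) (2 / 5)
  · exact (hf z hz).mul (hκ.contDiffAt.pow 2)
  · refine (contDiffAt_const (c := (0 : ℝ))).congr_of_eventuallyEq ?_
    filter_upwards [isClosed_Icc.isOpen_compl.mem_nhds hz] with y hy
    rw [hs y hy]
    ring

theorem data_sqrt_bd (k : ℕ) {a b : ℝ} (ha : 0 < a) :
    ∃ A : ℝ, ∀ i ≤ k, ∀ t ∈ Icc a b, |iteratedDeriv i (fun t => √t) t| ≤ A := by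
  have h : ∀ i : ℕ, ∃ A : ℝ, ∀ t ∈ Icc a b, |iteratedDeriv i (fun t => √t) t| ≤ A := by
    intro i
    have h1 : ContDiffOn ℝ ∞ (fun t : ℝ => √t) (Ioi 0) := fun t ht =>
      (contDiffAt_sqrt (ne_of_gt ht)).contDiffWithinAt
    have h2 := (h1.continuousOn_iteratedDerivWithin (m := i) (by exact_mod_cast le_top)
      isOpen_Ioi.uniqueDiffOn).congr (iteratedDerivWithin_of_isOpen isOpen_Ioi).symm
    obtain ⟨A, hA⟩ := isCompact_Icc.exists_bound_of_continuousOn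
      (h2.mono (show Icc a b ⊆ Ioi 0 from fun t ht => lt_of_lt_of_le ha ht.1))
    exact ⟨A, hA⟩
  choose A hA using h
  refine ⟨∑ i ∈ Finset.range (k + 1), |A i|, fun i hi t ht => ?_⟩
  refine (hA i t ht).trans ((le_abs_self _).trans ?_)
  exact Finset.single_le_sum (f := fun i => |A i|) (fun j _ => abs_nonneg _)
    (Finset.mem_range.2 (Nat.lt_succ_of_le hi))

theorem data_rad {τ τ2 t : ℝ} (h2 : 0 ≤ τ2) (h : τ2 ≤ τ) (h1 : τ ≤ 1 / 100) (t0 : 0 ≤ t)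
    (t1 : t ≤ 3 / 5) : 1 / 4 ≤ 1 - t ^ 2 - (τ + τ2 * t) ^ 2 ∧ 1 - t ^ 2 - (τ + τ2 * t) ^ 2 ≤ 1 := by
  have a1 : 0 ≤ τ2 * t := mul_nonneg h2 t0
  have a2 : τ2 * t ≤ 1 / 100 := by nlinarith
  constructor <;> nlinarith [sq_nonneg t, sq_nonneg (τ + τ2 * t)]

theorem data_w_deriv {τ τ2 z : ℝ} (h : 0 < 1 - z ^ 2 - (τ + τ2 * z) ^ 2) :
    HasDerivAt (fun z => (τ + τ2 * z) / √(1 - z ^ 2 - (τ + τ2 * z) ^ 2))
      ((τ2 + (τ + τ2 * z) * (z + (τ + τ2 * z) * τ2) / (1 - z ^ 2 - (τ + τ2 * z) ^ 2))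
        / √(1 - z ^ 2 - (τ + τ2 * z) ^ 2)) z := by
  have h1 : HasDerivAt (fun z => τ + τ2 * z) τ2 z := by
    simpa using ((hasDerivAt_id z).const_mul τ2).const_add τ
  have h2 : HasDerivAt (fun z => 1 - z ^ 2 - (τ + τ2 * z) ^ 2)
      (-(2 * z) - 2 * (τ + τ2 * z) * τ2) z := by
    exact ((((hasDerivAt_id z).pow 2).const_sub 1).sub (h1.pow 2)).congr_deriv (by simp)
  have hs : 0 < √(1 - z ^ 2 - (τ + τ2 * z) ^ 2) := sqrt_pos.2 h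
  have hq := sq_sqrt h.le
  refine (h1.div (h2.sqrt h.ne') hs.ne').congr_deriv ?_
  rw [hq]
  generalize √(1 - z ^ 2 - (τ + τ2 * z) ^ 2) = s at hs hq ⊢
  rw [← hq]
  field_simp
  ring

theorem data_ineq {τ τ2 z : ℝ} (h2 : 0 < τ2) (h : τ2 ≤ τ / 100) (h1 : τ ≤ 1 / 100)
    (z0 : 4 / 25 ≤ z) (z1 : z ≤ 6 / 25) :
    2 * (1 - z ^ 2) * (τ2 + (τ + τ2 * z) * (z + (τ + τ2 * z) * τ2)
      / (1 - z ^ 2 - (τ + τ2 * z) ^ 2)) < (3 * z - 1 / 10) * (τ + τ2 * z) := by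
  have a1 : 0 ≤ τ2 * z := mul_nonneg h2.le (by linarith)
  have a2 : τ2 * z ≤ 1 / 100 := by nlinarith
  obtain ⟨G, hG⟩ : ∃ G, G = τ + τ2 * z := ⟨_, rfl⟩
  rw [← hG]
  have g0 : 0 < G := by linarith
  have g1 : G ≤ 1 / 50 := by linarith
  have g2 : τ2 ≤ G / 100 := by linarith
  have q0 : 9 / 10 ≤ 1 - z ^ 2 := by nlinarith
  have q1 : 1 - z ^ 2 ≤ 1 := by nlinarith
  obtain ⟨q, hq⟩ : ∃ q, q = 1 - z ^ 2 := ⟨_, rfl⟩
  rw [← hq] at q0 q1 ⊢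
  have g3 : G ^ 2 ≤ 1 / 2500 := by nlinarith
  have s0 : 0 < q - G ^ 2 := by linarith
  have b1 : G * τ2 ≤ 1 / 1000 := by nlinarith
  have b0 : 0 ≤ G * τ2 := by positivity
  have c1 : q * ((z + G * τ2) / (q - G ^ 2)) ≤ z + 1 / 100 := by
    rw [← mul_div_assoc, div_le_iff₀ s0]
    nlinarith
  have c2 : q * τ2 ≤ G / 100 := by nlinarith
  have e : 2 * q * (τ2 + G * (z + G * τ2) / (q - G ^ 2))
      = 2 * (q * τ2) + 2 * G * (q * ((z + G * τ2) / (q - G ^ 2))) := by ring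
  rw [e]
  nlinarith

end Pool.Agent.Lib.MP_2fa2a2_gt.PI
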