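import Pool.Agent.Lib.MP_2fa2a2_gt.PI.SWkb
import Pool.Agent.Lib.MP_2fa2a2_gt.PI.DataX
import Pool.Agent.Lib.MP_2fa2a2_gt.PI.DataY

namespace Pool.Agent.Lib.MP_2fa2a2_gt.PI

open Real Filter Set
open scoped ContDiff

/-- even zonal functions supported in the band -/
noncomputable def data_E (κ f : ℝ → ℝ) : Sm := evE (Zf fun z => f z * κ z ^ 2)

theorem data_E_zon (κ f : ℝ → ℝ) : Zon (data_E κ f) := (Zon_Zf _).add (Zon_Zf _).ant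

theorem data_E_ev (κ f : ℝ → ℝ) : data_E κ f ∈ Ev := evE_mem _

theorem data_E_apply {κ f : ℝ → ℝ} (hκ : ContDiff ℝ ∞ κ)
    (hs : ∀ z, z ∉ Icc (3 / 10 : ℝ) (2 / 5) → κ z = 0)
    (hf : ∀ z ∈ Icc (3 / 10 : ℝ) (2 / 5), ContDiffAt ℝ ∞ f z) (x : S2) :
    data_E κ f x = f ((x : E3) 2) * κ ((x : E3) 2) ^ 2
      + f (-(x : E3) 2) * κ (-(x : E3) 2) ^ 2 := by
  rw [data_E, evE, Sm.add_apply, ant_apply, Zf_apply (data_sm hκ hs hf),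
    Zf_apply (data_sm hκ hs hf), neg_coe, PiLp.neg_apply]

theorem data_q {z : ℝ} (hz : z ∈ Icc (3 / 10 : ℝ) (2 / 5)) : 0 < 1 - z ^ 2 := by
  nlinarith [hz.1, hz.2]

theorem data_s1 (i : ℕ) : ∀ z ∈ Icc (3 / 10 : ℝ) (2 / 5),
    ContDiffAt ℝ ∞ (fun z : ℝ => z ^ i * (1 - z ^ 2)⁻¹) z := fun z hz =>
  (contDiffAt_id.pow i).mul (ContDiffAt.inv (by fun_prop) (data_q hz).ne')

theorem data_s2 (i : ℕ) : ∀ z ∈ Icc (3 / 10 : ℝ) (2 / 5),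
    ContDiffAt ℝ ∞ (fun z : ℝ => z ^ i * ((1 - z ^ 2) ^ 2)⁻¹) z := fun z hz =>
  (contDiffAt_id.pow i).mul (ContDiffAt.inv (by fun_prop) (pow_pos (data_q hz) 2).ne')

theorem data_pack {κ : ℝ → ℝ} (hκ : ContDiff ℝ ∞ κ)
    (hs : ∀ z, z ∉ Icc (3 / 10 : ℝ) (2 / 5) → κ z = 0) (hp : κ (7 / 20) = 1) :
    ∃ (b : Sm) (W : Fin 3 → Sm) (m : ℝ), Zon b ∧ b ∈ Ev ∧ (∀ i, Zon (W i) ∧ W i ∈ Ev) ∧ 0 < m ∧
      (∀ x, m ≤ b x) ∧
      (∀ x : S2, 0 ≤ (x : E3) 2 → (x : E3) 2 ≤ 1 / 4 → 3 * (x : E3) 2 * b x ≤ D 2 b x) ∧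
      ∀ τ τ2 : ℝ, ∃ C : ℝ,
        X 2 * X 2 * R (b - (τ ^ 2 • W 0 + (2 * τ * τ2) • W 1 + τ2 ^ 2 • W 2)
          + data_E κ fun z => 2 * (τ + τ2 * z) ^ 2 * ((1 - z ^ 2) ^ 2)⁻¹ - (1 - z ^ 2)⁻¹)
        + R (data_E κ fun z => 1 - (τ + τ2 * z) ^ 2 * (1 - z ^ 2)⁻¹) = algebraMap ℝ Sm C := by
  have a1 := fun i => data_E_apply hκ hs (data_s1 i)
  have a2 := fun i => data_E_apply hκ hs (data_s2 i)
  have t0 : ∀ z : ℝ, 0 ≤ z ^ 0 * (1 - z ^ 2)⁻¹ * κ z ^ 2 := fun z => by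
    by_cases hz : z ∈ Icc (3 / 10 : ℝ) (2 / 5)
    · have := data_q hz
      positivity
    · rw [hs z hz]
      simp
  have t1 : ∀ z : ℝ, (1 - z ^ 2) * ((1 - z ^ 2)⁻¹ * κ z ^ 2) = κ z ^ 2 := fun z => by
    by_cases hz : z ∈ Icc (3 / 10 : ℝ) (2 / 5)
    · rw [mul_inv_cancel_left₀ (data_q hz).ne']
    · rw [hs z hz]
      simp
  obtain ⟨β, C, m, hβ, hβe, hC, hm, hb, hD⟩ := data_core
    (B := data_E κ fun z => z ^ 0 * (1 - z ^ 2)⁻¹) (data_E_zon _ _) (data_E_ev _ _)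
    (fun x => by rw [a1]; exact add_nonneg (t0 _) (t0 _))
    (by
      rw [a1, data_pt (by norm_num [abs_le]), hp]
      exact add_pos_of_pos_of_nonneg (by norm_num) (t0 _))
    (fun x x0 x1 => by
      rw [a1, hs _ (fun h => by linarith [h.1]), hs _ (fun h => by linarith [h.1])]
      ring)
  choose γ c hγ hγe hc using fun i : Fin 3 =>
    data_solve (data_E_zon κ fun z => z ^ (i : ℕ) * (1 - z ^ 2)⁻¹)
  refine ⟨_, fun i => γ i + (2 : ℝ) • data_E κ fun z => z ^ (i : ℕ) * ((1 - z ^ 2) ^ 2)⁻¹, m,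
    hβ.add (data_E_zon _ _), add_mem hβe (data_E_ev _ _),
    fun i => ⟨(hγ i).add ((data_E_zon _ _).smul _),
      add_mem (hγe i) (Ev.smul_mem _ (data_E_ev _ _))⟩, hm, hb, hD, fun τ τ2 =>
    ⟨C - (τ ^ 2 * c 0 + 2 * τ * τ2 * c 1 + τ2 ^ 2 * c 2), ?_⟩⟩
  have e1 : (data_E κ fun z => 2 * (τ + τ2 * z) ^ 2 * ((1 - z ^ 2) ^ 2)⁻¹ - (1 - z ^ 2)⁻¹)
      = (2 * τ ^ 2) • (data_E κ fun z => z ^ 0 * ((1 - z ^ 2) ^ 2)⁻¹)
        + (4 * τ * τ2) • (data_E κ fun z => z ^ 1 * ((1 - z ^ 2) ^ 2)⁻¹)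
        + (2 * τ2 ^ 2) • (data_E κ fun z => z ^ 2 * ((1 - z ^ 2) ^ 2)⁻¹)
        - data_E κ fun z => z ^ 0 * (1 - z ^ 2)⁻¹ := by
    ext x
    have hf : ∀ z ∈ Icc (3 / 10 : ℝ) (2 / 5), ContDiffAt ℝ ∞
        (fun z : ℝ => 2 * (τ + τ2 * z) ^ 2 * ((1 - z ^ 2) ^ 2)⁻¹ - (1 - z ^ 2)⁻¹) z :=
      fun z hz => ContDiffAt.sub (ContDiffAt.mul (by fun_prop)
        (ContDiffAt.inv (by fun_prop) (pow_pos (data_q hz) 2).ne'))
        (ContDiffAt.inv (by fun_prop) (data_q hz).ne')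
    rw [data_E_apply hκ hs hf]
    simp only [Sm.add_apply, Sm.sub_apply, Sm.smul_apply, a1, a2]
    ring
  have e2 : (data_E κ fun z => 1 - (τ + τ2 * z) ^ 2 * (1 - z ^ 2)⁻¹)
      = qq * (data_E κ fun z => z ^ 0 * (1 - z ^ 2)⁻¹)
        - (τ ^ 2 • (data_E κ fun z => z ^ 0 * (1 - z ^ 2)⁻¹)
        + (2 * τ * τ2) • (data_E κ fun z => z ^ 1 * (1 - z ^ 2)⁻¹)
        + τ2 ^ 2 • data_E κ fun z => z ^ 2 * (1 - z ^ 2)⁻¹) := by
    ext x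
    have hf : ∀ z ∈ Icc (3 / 10 : ℝ) (2 / 5), ContDiffAt ℝ ∞
        (fun z : ℝ => 1 - (τ + τ2 * z) ^ 2 * (1 - z ^ 2)⁻¹) z :=
      fun z hz => ContDiffAt.sub contDiffAt_const (ContDiffAt.mul
        (by fun_prop) (ContDiffAt.inv (by fun_prop) (data_q hz).ne'))
    rw [data_E_apply hκ hs hf]
    simp only [Sm.add_apply, Sm.sub_apply, Sm.smul_apply, Sm.mul_apply, a1, zon_qq_apply]
    linear_combination -t1 ((x : E3) 2) - t1 (-(x : E3) 2)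
  have c0 := hc 0
  have c1 := hc 1
  have c2 := hc 2
  simp only [Fin.isValue, Fin.val_zero, Fin.val_one, Fin.val_two] at c0 c1 c2 ⊢
  rw [e1, e2]
  generalize (data_E κ fun z => z ^ 0 * ((1 - z ^ 2) ^ 2)⁻¹) = Z0
  generalize (data_E κ fun z => z ^ 1 * ((1 - z ^ 2) ^ 2)⁻¹) = Z1
  generalize (data_E κ fun z => z ^ 2 * ((1 - z ^ 2) ^ 2)⁻¹) = Z2
  generalize (data_E κ fun z => z ^ 0 * (1 - z ^ 2)⁻¹) = Y0 at hC c0 ⊢
  generalize (data_E κ fun z => z ^ 1 * (1 - z ^ 2)⁻¹) = Y1 at c1 ⊢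
  generalize (data_E κ fun z => z ^ 2 * (1 - z ^ 2)⁻¹) = Y2 at c2 ⊢
  have e3 : β + Y0 - (τ ^ 2 • (γ 0 + (2 : ℝ) • Z0) + (2 * τ * τ2) • (γ 1 + (2 : ℝ) • Z1)
      + τ2 ^ 2 • (γ 2 + (2 : ℝ) • Z2)) + ((2 * τ ^ 2) • Z0 + (4 * τ * τ2) • Z1
      + (2 * τ2 ^ 2) • Z2 - Y0) = β - (τ ^ 2 • γ 0 + (2 * τ * τ2) • γ 1 + τ2 ^ 2 • γ 2) := by
    ext x
    simp only [Sm.add_apply, Sm.sub_apply, Sm.smul_apply]
    ring
  rw [e3]
  simp only [map_add, map_sub, map_smul]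
  ext x
  have k := congrArg (fun φ : Sm => φ x) hC
  have k0 := congrArg (fun φ : Sm => φ x) c0
  have k1 := congrArg (fun φ : Sm => φ x) c1
  have k2 := congrArg (fun φ : Sm => φ x) c2
  simp only [Sm.add_apply, Sm.sub_apply, Sm.smul_apply, Sm.mul_apply, Sm.algebraMap_apply]
    at k k0 k1 k2 ⊢
  linear_combination k - τ ^ 2 * k0 - 2 * τ * τ2 * k1 - τ2 ^ 2 * k2

theorem data_Cb3 {k : ℕ} {M τ τ2 : ℝ} {W : Fin 3 → Sm} (h : ∀ i, Cb k 1 M (W i)) (h2 : 0 ≤ τ2)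
    (h1 : τ2 ≤ τ) :
    Cb k 1 (4 * M * τ ^ 2) (τ ^ 2 • W 0 + (2 * τ * τ2) • W 1 + τ2 ^ 2 • W 2) := by
  have hM := (h 0).nonneg
  have h0 : 0 ≤ τ := h2.trans h1
  refine ((((h 0).smul _).add ((h 1).smul _)).add ((h 2).smul _)).mono zero_le_one le_rfl le_rfl ?_
  rw [abs_of_nonneg (by positivity), abs_of_nonneg (by positivity), abs_of_nonneg (by positivity)]
  have a1 : τ * τ2 ≤ τ ^ 2 := by nlinarith
  have a2 : τ2 ^ 2 ≤ τ ^ 2 := by nlinarith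
  nlinarith [mul_le_mul_of_nonneg_left a1 hM, mul_le_mul_of_nonneg_left a2 hM]

theorem data_root (k : ℕ) {b : Sm} {W : Fin 3 → Sm} {m : ℝ} (hz : Zon b) (he : b ∈ Ev)
    (hW : ∀ i, Zon (W i) ∧ W i ∈ Ev) (hm : 0 < m) (hb : ∀ x, m ≤ b x)
    (hD : ∀ x : S2, 0 ≤ (x : E3) 2 → (x : E3) 2 ≤ 1 / 4 → 3 * (x : E3) 2 * b x ≤ D 2 b x) :
    ∃ C0 τ1 : ℝ, 0 < τ1 ∧ 0 < C0 ∧ ∀ τ τ2 : ℝ, 0 ≤ τ2 → τ2 ≤ τ → τ ≤ τ1 → ∃ a : Sm,
      Zon a ∧ a ∈ Ev ∧ a * a = b - (τ ^ 2 • W 0 + (2 * τ * τ2) • W 1 + τ2 ^ 2 • W 2) ∧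
      (∀ x, C0⁻¹ ≤ a x) ∧ Cb k 1 C0 a ∧ ∀ x : S2, 0 ≤ (x : E3) 2 → (x : E3) 2 ≤ 1 / 4 →
        (3 * (x : E3) 2 - 1 / 10) * a x ≤ 2 * D 2 a x := by
  choose M hM0 hM using fun i => exists_Cb (k + 1) (W i)
  obtain ⟨B, hB0, hB⟩ := exists_Cb k b
  obtain ⟨N, hN0, hN⟩ : ∃ N : ℝ, 0 < N ∧ ∀ i, Cb (k + 1) 1 N (W i) := by
    refine ⟨1 + ∑ i, M i, ?_, fun i => (hM i).mono zero_le_one le_rfl le_rfl ?_⟩
    · have := Finset.sum_nonneg fun i (_ : i ∈ Finset.univ) => hM0 i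
      linarith
    · have := Finset.single_le_sum (f := M) (fun j _ => hM0 j) (Finset.mem_univ i)
      linarith
  obtain ⟨C, hC⟩ := Cb_cp k (B + 4 * N)
  obtain ⟨A, hA⟩ := data_sqrt_bd k (a := m / 2) (b := B + 4 * N) (by positivity)
  have hs : 0 < √(m / 2) := sqrt_pos.2 (by positivity)
  refine ⟨max (C * A) (√(m / 2))⁻¹, min 1 (m / (400 * N)), by positivity,
    lt_max_of_lt_right (inv_pos.2 hs), fun τ τ2 h2 h1 hτ => ?_⟩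
  have h0 : 0 ≤ τ := h2.trans h1
  have t1 : τ ≤ 1 := hτ.trans (min_le_left _ _)
  have t2 : τ * (400 * N) ≤ m := (le_div_iff₀ (by positivity)).1 (hτ.trans (min_le_right _ _))
  have t3 : 4 * N * τ ^ 2 ≤ m / 100 := by nlinarith [mul_nonneg hN0.le h0]
  have t4 : 4 * N * τ ^ 2 ≤ 4 * N := by nlinarith [mul_nonneg hN0.le h0]
  have hS := data_Cb3 hN h2 h1
  have hSz : Zon (τ ^ 2 • W 0 + (2 * τ * τ2) • W 1 + τ2 ^ 2 • W 2) :=
    (((hW 0).1.smul _).add ((hW 1).1.smul _)).add ((hW 2).1.smul _)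
  have hSe : τ ^ 2 • W 0 + (2 * τ * τ2) • W 1 + τ2 ^ 2 • W 2 ∈ Ev :=
    add_mem (add_mem (Ev.smul_mem _ (hW 0).2) (Ev.smul_mem _ (hW 1).2)) (Ev.smul_mem _ (hW 2).2)
  generalize τ ^ 2 • W 0 + (2 * τ * τ2) • W 1 + τ2 ^ 2 • W 2 = S at hS hSz hSe ⊢
  have s0 := fun x => abs_le.1 (hS.abs_le x)
  have s1 := fun x => abs_le.1
    (((hS.mono zero_le_one (k' := 0 + 1) (by omega) le_rfl le_rfl).D le_rfl 2).abs_le x)
  have hv : Cb k 1 (B + 4 * N) (b - S) :=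
    hB.sub (hS.mono zero_le_one (Nat.le_succ k) le_rfl t4)
  have v0 : ∀ x, m / 2 ≤ (b - S) x := fun x => by
    rw [Sm.sub_apply]
    linarith [hb x, (s0 x).2]
  have v1 : ∀ x, ContDiffAt ℝ ∞ (fun t => √t) ((b - S) x) := fun x =>
    contDiffAt_sqrt (by linarith [v0 x] : 0 < (b - S) x).ne'
  have hsq : cp (fun t => √t) (b - S) * cp (fun t => √t) (b - S) = b - S := by
    ext x
    rw [Sm.mul_apply, cp_apply v1, mul_self_sqrt (by linarith [v0 x])]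
  have hge : ∀ x, √(m / 2) ≤ cp (fun t => √t) (b - S) x := fun x => by
    rw [cp_apply v1]
    exact sqrt_le_sqrt (v0 x)
  refine ⟨cp (fun t => √t) (b - S), (hz.sub hSz).cp _, ?_, hsq, fun x => ?_, ?_,
    fun x x0 x1 => ?_⟩
  · rw [mem_Ev, ant, act_cp]
    exact congrArg _ (mem_Ev.1 (sub_mem he hSe))
  · exact (inv_le_of_inv_le₀ hs (le_max_right _ _)).trans (hge x)
  · exact (hC le_rfl hv v1 fun i hi x =>
      hA i hi _ ⟨v0 x, (abs_le.1 (hv.abs_le x)).2⟩).mono zero_le_one le_rfl le_rfl (le_max_left _ _)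
  · have hp := hs.trans_le (hge x)
    generalize cp (fun t => √t) (b - S) = a at hsq hp ⊢
    have e1 := congrArg (fun φ : Sm => φ x) hsq
    have e2 := congrArg (fun φ : Sm => D 2 φ x) hsq
    simp only [D_mul, map_sub, Sm.add_apply, Sm.sub_apply, Sm.mul_apply] at e1 e2
    have w0 := v0 x
    rw [Sm.sub_apply] at w0
    refine le_of_mul_le_mul_left ?_ hp
    have k1 := hD x x0 x1
    have k2 : D 2 S x ≤ 2 * (4 * N * τ ^ 2) := (s1 x).2.trans_eq (by ring)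
    have k3 := (s0 x).1
    have k4 : (x : E3) 2 * (-(4 * N * τ ^ 2)) ≤ (x : E3) 2 * S x :=
      mul_le_mul_of_nonneg_left k3 x0
    have k5 : (x : E3) 2 * (4 * N * τ ^ 2) ≤ 1 / 4 * (4 * N * τ ^ 2) :=
      mul_le_mul_of_nonneg_right x1 (by positivity)
    have e3 : a x * ((3 * (x : E3) 2 - 1 / 10) * a x)
        = (3 * (x : E3) 2 - 1 / 10) * (b x - S x) := by rw [← e1]; ring
    rw [e3]
    linarith

theorem data : DataStmt := by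
  intro k
  obtain ⟨c, hc, hc0, hc1⟩ := data_clamp
  obtain ⟨κ, hκ, hκ0, hs, hp⟩ := data_bump
  obtain ⟨b, W, m, hz, he, hW, hm, hb, hD, hE⟩ := data_pack hκ hs hp
  obtain ⟨C1, τ1, hτ1, hC1, hr⟩ := data_root k hz he hW hm hb hD
  refine ⟨max 100 C1, le_max_of_le_left (by norm_num), fun τ0 hτ0 =>
    ⟨min τ0 (min τ1 (1 / 100)), by positivity, min_le_left _ _, fun ℓ hℓ => ?_⟩⟩
  have i0 : (max 100 C1)⁻¹ ≤ (1 / 100 : ℝ) := by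
    rw [one_div]
    exact inv_anti₀ (by norm_num) (le_max_left _ _)
  have i1 : (max 100 C1)⁻¹ ≤ C1⁻¹ := inv_anti₀ hC1 (le_max_right _ _)
  have i2 : (100 : ℝ) ≤ max 100 C1 := le_max_left _ _
  have p0 : 0 < min τ0 (min τ1 (1 / 100)) := by positivity
  have p1 : min τ0 (min τ1 (1 / 100)) ≤ τ1 := (min_le_right _ _).trans (min_le_left _ _)
  have p2 : min τ0 (min τ1 (1 / 100)) ≤ 1 / 100 := (min_le_right _ _).trans (min_le_right _ _)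
  generalize min τ0 (min τ1 (1 / 100)) = τ at p0 p1 p2 ⊢
  obtain ⟨τ2, q0, q1, q2⟩ : ∃ τ2, 0 < τ2 ∧ τ2 ≤ τ / 100 ∧ τ2 ≤ ℓ * τ :=
    ⟨min (τ / 100) (ℓ * τ), by positivity, min_le_left _ _, min_le_right _ _⟩
  have q3 : τ2 ≤ τ := by linarith
  obtain ⟨a, az0, ae, aa, age, aCb, amono⟩ := hr τ τ2 q0.le q3 p1
  obtain ⟨C, hC⟩ := hE τ τ2
  have apos : ∀ x, 0 < a x := fun x => (inv_pos.2 hC1).trans_le (age x)
  have rad := fun z => data_rad q0.le q3 p2 (hc0 z).1 (hc0 z).2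
  have rad0 : ∀ z, 0 < 1 - c z ^ 2 - (τ + τ2 * c z) ^ 2 := fun z => by linarith [(rad z).1]
  have rq : ∀ z, 0 < 1 - c z ^ 2 := fun z => by nlinarith [rad0 z, sq_nonneg (τ + τ2 * c z)]
  have hΓ : ∀ z, 0 < τ + τ2 * c z := fun z => by have := (hc0 z).1; positivity
  have hsm : ContDiff ℝ ∞ fun z => √(1 - c z ^ 2 - (τ + τ2 * c z) ^ 2) :=
    ContDiff.sqrt (by fun_prop) fun z => (rad0 z).ne'
  have hs0 : ∀ z, 0 < √(1 - c z ^ 2 - (τ + τ2 * c z) ^ 2) := fun z => sqrt_pos.2 (rad0 z)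
  obtain ⟨g, hg, hg'⟩ := data_prim (f := fun z => (τ + τ2 * c z) /
    ((1 - c z ^ 2) * √(1 - c z ^ 2 - (τ + τ2 * c z) ^ 2)))
    (ContDiff.div (by fun_prop) (ContDiff.mul (by fun_prop) hsm)
      fun z => (mul_pos (rq z) (hs0 z)).ne')
  have hw : ContDiff ℝ ∞ fun z => (τ + τ2 * c z) / √(1 - c z ^ 2 - (τ + τ2 * c z) ^ 2) :=
    ContDiff.div (by fun_prop) hsm fun z => (hs0 z).ne'
  refine ⟨⟨⟨τ, τ2, 1 / 10, 1 / 2, g⟩, 3 / 10, 2 / 5, 1 / 5, 1 / 100, C, κ,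
    fun z => az a (c z) * (τ + τ2 * c z), fun z => (√(1 - c z ^ 2 - (τ + τ2 * c z) ^ 2))⁻¹, a,
    Zf fun z => (τ + τ2 * c z) / √(1 - c z ^ 2 - (τ + τ2 * c z) ^ 2)⟩,
    ⟨⟨by norm_num, by norm_num, by norm_num, p0, q0, ?_, hg, fun z hz => ?_⟩,
      by linarith, ?_, i0, by norm_num, by norm_num, by norm_num, by norm_num, q3, hκ,
      fun z => (hκ0 z).1, fun z => by linarith [(hκ0 z).2], hs, ⟨7 / 20, hp.symm ▸ one_pos⟩,
      ?_, fun z => mul_pos (apos _) (hΓ z), fun z hz => ?_, hsm.inv fun z => (hs0 z).ne',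
      fun z => ?_, fun z => ?_, fun z hz => ?_, az0, ae, fun x => i1.trans (age x),
      aCb.mono zero_le_one le_rfl le_rfl (le_max_right _ _), ?_, Zon_Zf _, fun x hx => ?_,
      fun x hx => ?_⟩, rfl, q2⟩
  · show (τ + τ2) ^ 2 ≤ (1 - (1 / 2) ^ 2) / 4
    nlinarith
  · show deriv g z = (τ + τ2 * z) / ((1 - z ^ 2) * √(1 - z ^ 2 - (τ + τ2 * z) ^ 2))
    rw [hg']
    simp only [hc1 z hz]
  · show _ ≤ 1 - (1 / 2 : ℝ) ^ 2
    linarith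
  · refine ContDiff.mul (contDiff_iff_contDiffAt.2 fun z => ?_) (by fun_prop)
    refine (az_smooth a ?_).comp z hc.contDiffAt
    rw [abs_lt]
    constructor <;> linarith [(hc0 z).1, (hc0 z).2]
  · show az a (c z) * (τ + τ2 * c z) = az a z * (τ + τ2 * z)
    rw [hc1 z hz]
  · have h1 : √(1 - c z ^ 2 - (τ + τ2 * c z) ^ 2) ≤ 1 := sqrt_le_one.2 (rad z).2
    have h2 := (one_le_inv₀ (hs0 z)).2 h1
    show _ ≤ (√(1 - c z ^ 2 - (τ + τ2 * c z) ^ 2))⁻¹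
    linarith
  · have h1 : 1 / 2 ≤ √(1 - c z ^ 2 - (τ + τ2 * c z) ^ 2) :=
      le_sqrt_of_sq_le (by linarith [(rad z).1])
    have h2 := inv_anti₀ (by norm_num) h1
    show (√(1 - c z ^ 2 - (τ + τ2 * c z) ^ 2))⁻¹ ≤ _
    linarith
  · show (√(1 - c z ^ 2 - (τ + τ2 * c z) ^ 2))⁻¹ = (√(1 - z ^ 2 - (τ + τ2 * z) ^ 2))⁻¹
    rw [hc1 z hz]
  · show X 2 * X 2 * R (a * a + evE (Zf fun z => (deriv g z ^ 2 - ((1 - z ^ 2) ^ 2)⁻¹) *
        (κ z ^ 2 / (√(1 - c z ^ 2 - (τ + τ2 * c z) ^ 2))⁻¹ ^ 2)))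
      + R (evE (Zf fun z => (1 - z ^ 2)⁻¹ *
        (κ z ^ 2 / (√(1 - c z ^ 2 - (τ + τ2 * c z) ^ 2))⁻¹ ^ 2))) = algebraMap ℝ Sm C
    rw [aa, ← hC, data_E, data_E, hg']
    have hz' : ∀ z ∈ Icc (3 / 10 : ℝ) (2 / 5), c z = z := fun z hz =>
      hc1 z ⟨by linarith [hz.1], by linarith [hz.2]⟩
    congr 4
    · congr 2
      funext z
      by_cases hz : z ∈ Icc (3 / 10 : ℝ) (2 / 5)
      · have h1 := rad0 z
        have h2 := rq z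
        simp only [div_pow, mul_pow, inv_pow, sq_sqrt h1.le]
        rw [hz' z hz] at h1 h2 ⊢
        generalize τ + τ2 * z = G at h1 ⊢
        generalize 1 - z ^ 2 = q at h1 h2 ⊢
        field_simp
        ring
      · rw [hs z hz]
        ring
    · funext z
      by_cases hz : z ∈ Icc (3 / 10 : ℝ) (2 / 5)
      · have h1 := rad0 z
        have h2 := rq z
        simp only [div_pow, mul_pow, inv_pow, sq_sqrt h1.le]
        rw [hz' z hz] at h1 h2 ⊢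
        generalize τ + τ2 * z = G at h1 ⊢
        generalize 1 - z ^ 2 = q at h1 h2 ⊢
        field_simp
      · rw [hs z hz]
        ring
  · have hx : |(x : E3) 2 - 1 / 5| ≤ 5 * (1 / 100) := hx
    rw [abs_le] at hx
    have h1 := hc1 ((x : E3) 2) ⟨by linarith [hx.1], by linarith [hx.2]⟩
    have h2 := rq ((x : E3) 2)
    have h3 := hs0 ((x : E3) 2)
    show Zf _ x = qq x * deriv g ((x : E3) 2)
    rw [Zf_apply hw, hg', zon_qq_apply, ← sq]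
    simp only [h1] at h2 h3 ⊢
    field_simp
  · have hx : |(x : E3) 2 - 1 / 5| ≤ 4 * (1 / 100) := hx
    rw [abs_le] at hx
    have z0 : 4 / 25 ≤ (x : E3) 2 := by linarith [hx.1]
    have z1 : (x : E3) 2 ≤ 6 / 25 := by linarith [hx.2]
    have h1 := hc1 ((x : E3) 2) ⟨by linarith, by linarith⟩
    have h2 := rq ((x : E3) 2)
    have h3 := hs0 ((x : E3) 2)
    have h4 := rad0 ((x : E3) 2)
    have h5 := hΓ ((x : E3) 2)
    rw [h1] at h2 h3 h4 h5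
    have hev : (fun z => (τ + τ2 * c z) / √(1 - c z ^ 2 - (τ + τ2 * c z) ^ 2))
        =ᶠ[nhds ((x : E3) 2)] fun z => (τ + τ2 * z) / √(1 - z ^ 2 - (τ + τ2 * z) ^ 2) := by
      filter_upwards [Icc_mem_nhds (a := 1 / 10) (b := 1 / 2) (x := (x : E3) 2) (by linarith)
        (by linarith)] with z hz
      rw [hc1 z hz]
    have d1 := hev.deriv_eq.trans (data_w_deriv h4).deriv
    have d2 := data_ineq q0 q1 p2 z0 z1
    have m1 := amono x (by linarith) (by linarith)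
    have m2 := apos x
    show 0 < D 2 a x ∧ 0 < D 2 (a * Zf _) x ∧ a x * D 2 (Zf _) x - Zf _ x * D 2 a x < 0
    rw [D_mul, D2_Zf hw]
    simp only [Sm.add_apply, Sm.mul_apply, Zf_apply hw, Zf_apply (zon_deriv hw), zon_qq_apply,
      d1, h1, ← sq]
    have hT : 0 < τ2 + (τ + τ2 * (x : E3) 2) * ((x : E3) 2 + (τ + τ2 * (x : E3) 2) * τ2)
        / (1 - (x : E3) 2 ^ 2 - (τ + τ2 * (x : E3) 2) ^ 2) := by
      have : 0 < (x : E3) 2 := by linarith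
      positivity
    generalize τ2 + (τ + τ2 * (x : E3) 2) * ((x : E3) 2 + (τ + τ2 * (x : E3) 2) * τ2)
        / (1 - (x : E3) 2 ^ 2 - (τ + τ2 * (x : E3) 2) ^ 2) = T at hT d2 ⊢
    generalize √(1 - (x : E3) 2 ^ 2 - (τ + τ2 * (x : E3) 2) ^ 2) = s at h3 ⊢
    generalize τ + τ2 * (x : E3) 2 = G at h5 d2 ⊢
    generalize 1 - (x : E3) 2 ^ 2 = q at h2 d2 ⊢
    have m3 : 0 < D 2 a x := by nlinarith
    refine ⟨m3, by positivity, ?_⟩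
    have e : a x * (q * (T / s)) - G / s * D 2 a x = (a x * (q * T) - G * D 2 a x) / s := by ring
    rw [e]
    refine div_neg_of_neg_of_pos ?_ h3
    nlinarith [mul_lt_mul_of_pos_left d2 m2, mul_le_mul_of_nonneg_left m1 h5.le]

end Pool.Agent.Lib.MP_2fa2a2_gt.PI
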