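import Pool.Agent.Lib.MP_2fa2a2_gt.PI.EgorX

namespace Pool.Agent.Lib.MP_2fa2a2_gt.PI

namespace Egor

variable {K : ℕ} {δ : ℝ} {m n : ℤ} {A B : Sm →ₗ[ℝ] Sm}

theorem Vb_apply (f y : Sm) : Vb f y = lap f * y + gd f y := by
  simp only [Vb, LinearMap.sum_apply, LinearMap.comp_apply, LinearMap.mulLeft_apply, L_mul,
    lap_def, gd, Finset.sum_add_distrib, Finset.sum_mul]

theorem cm_V_ml (u φ : Sm) : cm (Vb u) (ml φ) = ml (gd u φ) := by
  refine LinearMap.ext fun y => ?_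
  simp only [cm, LinearMap.sub_apply, LinearMap.comp_apply, LinearMap.mulLeft_apply, Vb_apply,
    gd_mul]
  ring

theorem cm_V_L (u : Sm) (a : Fin 3) : cm (Vb u) (L a) = -Vb (L a u) := by
  refine LinearMap.ext fun y => ?_
  simp only [cm, LinearMap.sub_apply, LinearMap.comp_apply, LinearMap.neg_apply, Vb_apply,
    map_add, L_mul, L_gd, lap_L]
  ring

theorem XX_mul {u : Sm} (hu : Good u) (φ y : Sm) : XX u (φ * y) = pull u φ * XX u y := by
  ext x
  simp only [XX, LinearMap.comp_apply, LinearMap.mulLeft_apply, Sm.mul_apply, hu.pull_apply]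
  ring

theorem E_ml (c : Ctx K δ) (φ : Sm) (hn : |n| ≤ 8) : E K δ n n (ml φ) := by
  refine ⟨F_ml φ n, ?_, ?_⟩
  · simp only [cm_V_ml]
    refine (F.sum fun a => ((Fc_L c a).ml (hn.trans (by norm_num))).comp c.le (F_ml (L a φ) n)
      le_rfl).of_eq fun u y => ?_
    simp only [gd, LinearMap.sum_apply, LinearMap.comp_apply, LinearMap.mulLeft_apply,
      Finset.sum_mul, mul_assoc]
  · refine (((c.hP φ).ml (hn.trans (by norm_num))).comp c.le (c.hX n hn) le_rfl).congr c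
      fun u hu => LinearMap.ext fun y => ?_
    simp only [Rm, cm_V_ml]
    simp only [cm, LinearMap.sub_apply, LinearMap.comp_apply, LinearMap.mulLeft_apply, XX_mul hu]
    ring

theorem div_rot (a : Fin 3) : ∑ b, D b (L a (X b)) = 0 ∧ ∑ b, X b * L a (X b) = 0 := by
  rcases alg_fin a with rfl | rfl | rfl
  all_goals
    simp only [Fin.sum_univ_three, L_X_self, alg_01, alg_02, alg_12, alg_10, alg_20, alg_21,
      map_zero, map_neg, D_X]
    refine ⟨?_, by ring⟩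
    rw [alg_kd_ne (by decide), alg_kd_ne (by decide)]
    ring

theorem Mt_eq (u : Sm) (a : Fin 3) (y : Sm) : Mt u a y = L a y - Vb (L a u) y +
    ∑ b, (D b - ml (2 * X b)) ((Wf u a b - L a (X b) + D b (L a u)) * y) := by
  have h1 := (div_rot a).1
  have h2 := (div_rot a).2
  have h3 := sum_X_D (L a u)
  rw [Vb_apply, lap_eq_D, gd_eq_D, L_eq_sum_D a y]
  simp only [Mt, LinearMap.add_apply, LinearMap.comp_apply, LinearMap.sub_apply,
    LinearMap.mulLeft_apply, D_mul, map_add, map_sub, Fin.sum_univ_three] at h1 h2 h3 ⊢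
  linear_combination y * h1 - 2 * y * h2 + 2 * y * h3

theorem E_L (c : Ctx K δ) (a : Fin 3) (hn : |n + 2| ≤ 8) : E K δ (n + 2) n (L a) := by
  refine ⟨F_L a n, ?_, ?_⟩
  · simp only [cm_V_L]
    exact (F_VL c a (hn.trans (by norm_num))).neg
  · refine ((F.sum fun b => ((F_D b n).sub ((F_ml (2 * X b) n).mono (by omega) le_rfl)).comp c.le
      ((c.hW a b).ml (hn.trans (by norm_num))) le_rfl).comp c.le (c.hX _ hn) le_rfl).congr c
      fun u hu => LinearMap.ext fun y => ?_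
    simp only [Rm, cm_V_L]
    simp only [cm, LinearMap.sub_apply, LinearMap.comp_apply, LinearMap.neg_apply, hu.piola,
      Mt_eq, LinearMap.sum_apply, LinearMap.mulLeft_apply]
    abel

theorem E_lap (c : Ctx K δ) (h1 : -10 ≤ n) (h2 : n ≤ 4) : E K δ (n + 4) n lap := by
  have h : ∀ a, E K δ (n + 2 + 2) n (L a ∘ₗ L a) := fun a =>
    (E_L c a (abs_le.2 ⟨by omega, by omega⟩)).comp c (E_L c a (abs_le.2 ⟨by omega, by omega⟩))
      (abs_le.2 ⟨by omega, by omega⟩)
  rw [lap, Fin.sum_univ_three]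
  exact (((h 0).add (h 1)).add (h 2)).mono (by omega) le_rfl

theorem E_D (c : Ctx K δ) (a : Fin 3) (h1 : -8 ≤ n) (h2 : n ≤ 6) : E K δ (n + 2) n (D a) :=
  have h : ∀ a b, E K δ (n + 2) n (ml (X a) ∘ₗ L b) := fun a b =>
    (E_ml c _ (abs_le.2 ⟨by omega, by omega⟩)).comp c (E_L c b (abs_le.2 ⟨by omega, by omega⟩))
      (abs_le.2 ⟨by omega, by omega⟩)
  (h _ _).sub (h _ _)

theorem E_H (c : Ctx K δ) (a b : Fin 3) (h1 : -8 ≤ n) (h2 : n ≤ 4) : E K δ (n + 4) n (H a b) :=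
  ((E_D c a h1 (by omega)).comp c ((E_D c b (by omega) (by omega)).add
    ((E_ml c (X b) (n := n + 2) (abs_le.2 ⟨by omega, by omega⟩)).mono (by omega) le_rfl))
    (abs_le.2 ⟨by omega, by omega⟩)).mono (by omega) le_rfl

theorem E_Hs (c : Ctx K δ) (a b : Fin 3) (h1 : -8 ≤ n) (h2 : n ≤ 4) : E K δ (n + 4) n (Hs a b) :=
  ((((E_ml c (3 * X b) (n := n) (abs_le.2 ⟨by omega, by omega⟩)).mono (by omega) le_rfl).sub
    (E_D c b h1 (by omega))).comp c
    (((E_ml c (2 * X a) (n := n + 2) (abs_le.2 ⟨by omega, by omega⟩)).mono (by omega) le_rfl).sub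
      (E_D c a (by omega) (by omega))) (abs_le.2 ⟨by omega, by omega⟩)).mono (by omega) le_rfl

theorem Sh_right (y : Sm) : (LinearMap.id - lap : Sm →ₗ[ℝ] Sm) (Sh 1 y) = y := by
  simpa using Sh_spec 1 y

theorem Sh_left (y : Sm) : Sh 1 ((LinearMap.id - lap : Sm →ₗ[ℝ] Sm) y) = y := by
  simpa using Sh_spec' 1 y

theorem E_T (c : Ctx K δ) (h1 : -10 ≤ n) (h2 : n ≤ 4) : E K δ (n + 4) n (LinearMap.id - lap) :=
  ((E_id n).mono (by omega) le_rfl).sub (E_lap c h1 h2)

theorem E_Sh (c : Ctx K δ) (h1 : -10 ≤ n) (h2 : n ≤ 4) : E K δ n (n + 4) (Sh 1) :=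
  (E_T c h1 h2).inv c (F_Sh n) Sh_right Sh_left (abs_le.2 ⟨by omega, by omega⟩)

/-- the second order Taylor remainder on lower levels -/
theorem F_Q (c : Ctx K δ) (h1 : -8 ≤ n) (h2 : n ≤ 4) :
    F K δ 2 n (n - 4) fun u => XX u - LinearMap.id - Vb u := by
  have hT : F K δ 0 n (n - 4) fun _ => LinearMap.id - lap :=
    ((F_id _).mono (by omega) le_rfl).sub ((F.sum fun a => (F_L a (n - 4)).comp c.le
      (F_L a (n - 4 + 2)) le_rfl).mono (by omega) le_rfl)
  refine (((hT.comp c.le ((c.hQ n (abs_le.2 ⟨by omega, by omega⟩)).comp c.le (F_Sh n) le_rfl)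
    le_rfl).add (((E_T c (n := n - 2) (by omega) (by omega)).h1.mono le_rfl (by omega)).comp c.le
      (((c.hX1 (n + 2) (abs_le.2 ⟨by omega, by omega⟩)).mono (m' := n + 4) (by omega)
        (by omega)).comp c.le (F_Sh n) le_rfl) le_rfl)).add
    (((E_T c (n := n) (by omega) h2).h2.mono le_rfl (by omega)).comp c.le (F_Sh n) le_rfl)).of_eq
    fun u y => ?_
  generalize hA : (LinearMap.id - lap : Sm →ₗ[ℝ] Sm) = A
  have e : A (Sh 1 y) = y := hA ▸ Sh_right y
  simp only [Rm, cm, LinearMap.add_apply, LinearMap.sub_apply, LinearMap.comp_apply, map_sub,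
    LinearMap.id_apply, e]
  abel

theorem E_P (c : Ctx K δ) (l : ℕ) (hm : -6 ≤ m) (hm' : m ≤ 8) (hn : -6 ≤ n) (hn' : n ≤ 8) :
    E K δ m n (P l) := by
  have h1 : ∀ k : ℤ, -10 ≤ k → k ≤ 10 → F K δ 1 k n fun u => cm (Vb u) (P l) := fun k h h' =>
    ((F_V c (abs_le.2 ⟨by omega, by omega⟩)).comp c.le (F_P l k _) le_rfl).sub
      ((F_P l (k - 2) n).comp c.le ((F_V c (n := k - 2) (abs_le.2 ⟨by omega, by omega⟩)).mono
        (by omega) le_rfl) le_rfl)
  have h2 : F K δ 2 m (m - 4) fun u => XX u - LinearMap.id - Vb u := by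
    by_cases h : m ≤ 4
    · exact F_Q c (by omega) h
    · exact (c.hQ (m - 4) (abs_le.2 ⟨by omega, by omega⟩)).mono (by omega) le_rfl
  refine ⟨F_P l m n, h1 m (by omega) (by omega), ?_⟩
  refine ((((c.hQ n (abs_le.2 ⟨by omega, by omega⟩)).comp c.le (F_P l m _) le_rfl).sub
    ((F_P l _ n).comp c.le h2 le_rfl)).sub ((h1 (m - 2) (by omega) (by omega)).comp c.le
      ((c.hX1 (m - 2) (abs_le.2 ⟨by omega, by omega⟩)).mono (m' := m) (by omega) le_rfl)
      le_rfl)).of_eq fun u y => ?_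
  simp only [Rm, cm, LinearMap.sub_apply, LinearMap.comp_apply, map_sub, LinearMap.id_apply]
  abel

theorem ll_one : ll 1 = 2 := by norm_num [ll]

theorem Dp_right (y : Sm) : (Dop + P 1) ((Dp + P 1) y) = y := by
  have h1 : Dop (P 1 y) = 0 := by
    rw [Dop_def, lap_P, ll_one, two_mul, neg_smul, two_smul, neg_add_cancel]
  have h2 : P 1 (Dp y) = 0 := by
    rw [Dp, P_fn opsx_PG_Dp, ll_one, sub_self, inv_zero, zero_smul]
  simp only [LinearMap.add_apply, map_add, Dop_Dp, h1, h2, P_P, if_true]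
  abel

theorem Dp_left (y : Sm) : (Dp + P 1) ((Dop + P 1) y) = y := by
  have h1 : P 1 (Dop y) = 0 := by rw [opsx_P_Dop, ll_one, sub_self, zero_smul]
  have h2 : Dp (P 1 y) = 0 := by
    rw [Dp, fn_P opsx_PG_Dp, ll_one, sub_self, inv_zero, zero_smul]
  simp only [LinearMap.add_apply, map_add, Dp_Dop, h1, h2, P_P, if_true]
  abel

theorem E_Dp (c : Ctx K δ) (h1 : -6 ≤ n) (h2 : n ≤ 4) : E K δ n (n + 4) Dp := by
  have hA : E K δ (n + 4) n (Dop + P 1) :=
    ((E_lap c (by omega) h2).add (((E_id n).mono (by omega) le_rfl).smul 2)).add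
      (E_P c 1 (by omega) (by omega) h1 (by omega))
  have := (hA.inv c ((F_Dp n).add (F_P 1 _ _)) Dp_right Dp_left
    (abs_le.2 ⟨by omega, by omega⟩)).sub (E_P c 1 h1 (by omega) (by omega) (by omega))
  rwa [add_sub_cancel_right] at this

theorem E_gen (c : Ctx K δ) (h : Gen A) (h1 : -2 ≤ n) (h2 : n ≤ 1) : E K δ n n A := by
  have hn : |n| ≤ 8 := abs_le.2 ⟨by omega, by omega⟩
  rcases h with ⟨φ, rfl⟩ | ⟨a, b, rfl⟩ | ⟨a, b, rfl⟩ | ⟨a, b, rfl⟩
  · exact E_ml c φ hn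
  · exact (E_H c a b (by omega) (by omega)).comp c (E_Dp c (by omega) (by omega)) hn
  · exact ((E_Dp c (n := n - 4) (by omega) (by omega)).mono le_rfl (by omega)).comp c
      ((E_Hs c a b (n := n - 4) (by omega) (by omega)).mono (by omega) le_rfl) hn
  · exact ((E_L c a (abs_le.2 ⟨by omega, by omega⟩)).comp c
      ((E_L c b (abs_le.2 ⟨by omega, by omega⟩)).comp c
        ((E_Sh c (by omega) (by omega)).mono le_rfl (by omega)) hn) hn).neg

theorem cm_V_smul (r : ℝ) (u : Sm) (A : Sm →ₗ[ℝ] Sm) : cm (Vb (r • u)) A = r • cm (Vb u) A := by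
  refine LinearMap.ext fun y => ?_
  simp only [cm, Vb, LinearMap.sub_apply, LinearMap.comp_apply, LinearMap.sum_apply,
    LinearMap.mulLeft_apply, LinearMap.smul_apply, map_smul, smul_mul_assoc, ← Finset.smul_sum,
    smul_sub]

theorem unif {p : ℕ} {T : Sm → Sm →ₗ[ℝ] Sm} (h : ∀ n : ℤ, -2 ≤ n → n ≤ 1 → F K δ p n n T) :
    ∃ C, 0 ≤ C ∧ ∀ u b, b ≤ δ → Cb K 1 b u → ∀ n : ℤ, -2 ≤ n → n ≤ 1 →
      Bd 1 (n / 2) (n / 2) (C * b ^ p) (T u) := by
  choose! C hC h using h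
  refine ⟨∑ n ∈ Finset.Icc (-2 : ℤ) 1, C n,
    Finset.sum_nonneg fun n hn => hC n (Finset.mem_Icc.1 hn).1 (Finset.mem_Icc.1 hn).2,
    fun u b hb hu n h1 h2 => (h n h1 h2 u b hb hu).mono le_rfl
      (mul_nonneg (hC n h1 h2) (pow_nonneg hu.nonneg _)) le_rfl le_rfl ?_⟩
  exact mul_le_mul_of_nonneg_right (Finset.single_le_sum
    (fun n hn => hC n (Finset.mem_Icc.1 hn).1 (Finset.mem_Icc.1 hn).2) (Finset.mem_Icc.2 ⟨h1, h2⟩))
    (pow_nonneg hu.nonneg _)

theorem eg_iff (c : Ctx K δ) : Eg K δ A ↔ ∀ n : ℤ, -2 ≤ n → n ≤ 1 → E K δ n n A := by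
  constructor
  · rintro ⟨C, hC, h0, h1, h2⟩ n hn hn'
    exact ⟨F.const (h0 n hn hn') hC le_rfl le_rfl,
      ⟨C, hC, fun u b _ hu => by rw [pow_one]; exact h1 u b hu n hn hn'⟩,
      ⟨C, hC, fun u b hb hu => h2 u b hb hu n hn hn'⟩⟩
  · intro h
    obtain ⟨C0, hC0, h0⟩ := unif fun n hn hn' => (h n hn hn').h0
    obtain ⟨C1, hC1, h1⟩ := unif fun n hn hn' => (h n hn hn').h1
    obtain ⟨C2, hC2, h2⟩ := unif fun n hn hn' => (h n hn hn').h2
    have hδ := c.pos
    refine ⟨C0 + C1 + C2, by positivity, fun n hn hn' => ?_, fun u b hu n hn hn' => ?_,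
      fun u b hb hu n hn hn' => ?_⟩
    · refine (h0 0 0 hδ.le (fun w _ x => by simp) n hn hn').mono le_rfl (by positivity) le_rfl
        le_rfl ?_
      rw [pow_zero]
      linarith
    · have hb0 := hu.nonneg
      have key : Bd 1 (n / 2) (n / 2) (C1 * b) (cm (Vb u) A) := by
        by_cases hb : b ≤ δ
        · simpa using h1 u b hb hu n hn hn'
        · have hb' : 0 < b := hδ.trans (not_le.1 hb)
          have e : |δ / b| * b = δ := by
            rw [abs_of_pos (by positivity)]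
            field_simp
          have hu' := hu.smul (δ / b)
          rw [e] at hu'
          have := (h1 ((δ / b) • u) δ le_rfl hu' n hn hn').smul (b / δ)
          rwa [cm_V_smul, smul_smul, show b / δ * (δ / b) = 1 by field_simp, one_smul,
            abs_of_pos (by positivity), show b / δ * (C1 * δ ^ 1) = C1 * b by field_simp] at this
      exact key.mono le_rfl (by positivity) le_rfl le_rfl
        (mul_le_mul_of_nonneg_right (by linarith) hb0)
    · exact (h2 u b hb hu n hn hn').mono le_rfl (by positivity) le_rfl le_rfl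
        (mul_le_mul_of_nonneg_right (by linarith) (by positivity))

end Egor

open Egor in
theorem egor (hB : PullBStmt) : EgStmt := by
  obtain ⟨K, δ, c⟩ := exists_ctx hB
  refine ⟨K, δ, c.pos, fun A h => (eg_iff c).2 fun n => E_gen c h, fun A B h h' => ?_,
    fun A B h h' => ?_, fun r A h => ?_⟩
  · rw [eg_iff c] at h h' ⊢
    exact fun n h1 h2 => (h n h1 h2).comp c (h' n h1 h2) (abs_le.2 ⟨by omega, by omega⟩)
  · rw [eg_iff c] at h h' ⊢
    exact fun n h1 h2 => (h n h1 h2).add (h' n h1 h2)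
  · rw [eg_iff c] at h ⊢
    exact fun n h1 h2 => (h n h1 h2).smul r

end Pool.Agent.Lib.MP_2fa2a2_gt.PI
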