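import Pool.Agent.Lib.MP_2fa2a2_gt.PI.SLoc

namespace Pool.Agent.Lib.MP_2fa2a2_gt.PI

open Real
open scoped ContDiff

theorem estall_num {Co Cs Ce s Cδ Λ γ K1 K2 K3 K4 : ℝ} (ho : 1 ≤ Co) (hs : 1 ≤ Cs) (he : 1 ≤ Ce)
    (s0 : 0 < s) (s1 : s ≤ 1) (s2 : s * (8 * Co ^ 2 * (2 * Cs + 3 * Ce + Ce * Cs)) ≤ 1)
    (hΛ : Cδ / Λ ≤ s ^ 3 / (32 * Co ^ 2)) (hγ0 : 0 < γ)
    (hγ : γ * (1 + 2 * Co ^ 2) = s ^ 3 / (32 * Co ^ 2)) (k1 : 0 ≤ K1) :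
    ∃ CX : ℝ, ∀ u x w z y1 y2 e : ℝ, 0 < u → 0 ≤ x → 0 ≤ z → x ≤ Co * w + K1 * u →
      z ≤ Co * x + K1 * u → y1 ^ 2 ≤ Cs * s * x ^ 2 + K2 * u ^ 2 →
      y2 ^ 2 ≤ Cs * s ^ 4 * x ^ 2 + K3 * u ^ 2 →
      e ≤ Ce * (s ^ 4 * x ^ 2 + s ^ 3 * x * y2) + (Cδ / Λ + γ) * x ^ 2 + γ * z ^ 2 + K4 * u ^ 2 →
      w ^ 2 ≤ 2 * y1 ^ 2 + 2 / s ^ 3 * e → x ≤ CX * u ∧ z ≤ CX * u := by
  obtain ⟨K, hK⟩ : ∃ K, K = 2 * K2 + Ce * K3 / s + 2 / s ^ 3 * (2 * γ * K1 ^ 2 + K4) := ⟨_, rfl⟩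
  obtain ⟨M, hM0, hM⟩ : ∃ M, 0 ≤ M ∧ 4 * Co ^ 2 * K + 4 * K1 ^ 2 ≤ M ^ 2 :=
    ⟨√|4 * Co ^ 2 * K + 4 * K1 ^ 2|, sqrt_nonneg _, by
      rw [sq_sqrt (abs_nonneg _)]; exact le_abs_self _⟩
  refine ⟨Co * M + K1, fun u x w z y1 y2 e hu hx hz h1 h2 h3 h4 h5 h6 => ?_⟩
  have hs3 : 0 < s ^ 3 := by positivity
  have hz2 : z ^ 2 ≤ 2 * Co ^ 2 * x ^ 2 + 2 * K1 ^ 2 * u ^ 2 := by
    linarith [pow_le_pow_left₀ hz h2 2, sq_nonneg (Co * x - K1 * u)]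
  have hx2 : x ^ 2 ≤ 2 * Co ^ 2 * w ^ 2 + 2 * K1 ^ 2 * u ^ 2 := by
    linarith [pow_le_pow_left₀ hx h1 2, sq_nonneg (Co * w - K1 * u)]
  have hxy : 2 * (x * y2) ≤ s * x ^ 2 + Cs * s * x ^ 2 + K3 / s * u ^ 2 := by
    refine le_of_mul_le_mul_left ?_ s0
    have e1 : s * (K3 / s * u ^ 2) = K3 * u ^ 2 := by field_simp
    have e2 : s ^ 4 ≤ s ^ 2 := pow_le_pow_of_le_one s0.le s1 (by norm_num)
    have e3 : Cs * s ^ 4 * x ^ 2 ≤ Cs * s ^ 2 * x ^ 2 := by gcongr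
    linarith [sq_nonneg (s * x - y2)]
  have h7 : e ≤ s ^ 3 * (Ce * (s * x ^ 2 + x * y2) + x ^ 2 / (16 * Co ^ 2)) +
      (2 * γ * K1 ^ 2 + K4) * u ^ 2 := by
    have e1 := mul_le_mul_of_nonneg_left hz2 hγ0.le
    have e2 := mul_le_mul_of_nonneg_right hΛ (sq_nonneg x)
    have e3 : s ^ 3 * (x ^ 2 / (16 * Co ^ 2)) = 2 * (s ^ 3 / (32 * Co ^ 2) * x ^ 2) := by
      field_simp; ring
    have e4 : γ * (1 + 2 * Co ^ 2) * x ^ 2 = s ^ 3 / (32 * Co ^ 2) * x ^ 2 := by rw [hγ]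
    linarith
  have h8 : 2 / s ^ 3 * e ≤ 2 * (Ce * (s * x ^ 2 + x * y2) + x ^ 2 / (16 * Co ^ 2)) +
      2 / s ^ 3 * (2 * γ * K1 ^ 2 + K4) * u ^ 2 := by
    refine (mul_le_mul_of_nonneg_left h7 (by positivity)).trans_eq ?_
    field_simp
  have h9 : w ^ 2 ≤ s * (2 * Cs + 3 * Ce + Ce * Cs) * x ^ 2 + x ^ 2 / (8 * Co ^ 2) + K * u ^ 2 := by
    have e1 := mul_le_mul_of_nonneg_left hxy (zero_le_one.trans he)
    have e2 : x ^ 2 / (8 * Co ^ 2) = 2 * (x ^ 2 / (16 * Co ^ 2)) := by field_simp; ring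
    have e3 : Ce * K3 / s * u ^ 2 = Ce * (K3 / s * u ^ 2) := by ring
    rw [hK, e2, add_mul, add_mul, e3]
    linarith
  have h10 : x ^ 2 ≤ (M * u) ^ 2 := by
    have e1 := mul_le_mul_of_nonneg_left h9 (by positivity : 0 ≤ 2 * Co ^ 2)
    have e2 := mul_le_mul_of_nonneg_right s2 (sq_nonneg x)
    have e3 : 2 * Co ^ 2 * (x ^ 2 / (8 * Co ^ 2)) = x ^ 2 / 4 := by field_simp; ring
    have e4 := mul_le_mul_of_nonneg_right hM (sq_nonneg u)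
    linarith
  have h11 : x ≤ M * u := (pow_le_pow_iff_left₀ hx (by positivity) two_ne_zero).1 h10
  have h12 : Co * x ≤ Co * (M * u) := by gcongr
  have h13 : 1 * (M * u) ≤ Co * (M * u) := by gcongr
  constructor <;> linarith [mul_nonneg k1 hu.le]

theorem estall_w (d : LD) : ∑ c, d.w c * d.w c = (d.al * d.al + d.be * d.be) * qq := by
  have h0 : (0 : Fin 3) ≠ 2 := by decide
  have h1 : (1 : Fin 3) ≠ 2 := by decide
  simp only [LD.w, Fin.sum_univ_three, D_X, alg_kd, alg_kd_ne h0, alg_kd_ne h1, alg_20, alg_21,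
    L_X_self, qq]
  linear_combination (d.al * d.al * X 2 * X 2 + d.be * d.be) * alg_s

theorem estall_Hsq (ψ : Sm) (V : Fin 3 → Sm) (x : S2) :
    0 ≤ Hsq ψ V x ∧ Hsq ψ V x ≤ Hn ψ x * (∑ c, V c * V c) x := by
  simp only [Hsq, Hn, Sm.sum_apply, Sm.mul_apply]
  refine ⟨Finset.sum_nonneg fun _ _ => mul_self_nonneg _, ?_⟩
  rw [Finset.sum_mul]
  refine Finset.sum_le_sum fun a _ => ?_
  simpa only [pow_two] using
    Finset.sum_mul_sq_le_sq_mul_sq Finset.univ (fun b => H a b ψ x) fun b => V b x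

theorem estall_Hn (ψ : Sm) (x : S2) : 0 ≤ Hn ψ x := by
  simp only [Hn, Sm.sum_apply, Sm.mul_apply]
  exact Finset.sum_nonneg fun _ _ => Finset.sum_nonneg fun _ _ => mul_self_nonneg _

theorem estall_split {k m : ℕ} {C0 τ C1 r δ : ℝ} {d : LD} (h : Loc k C0 τ C1 m d) (hδ : 0 < δ)
    (hr : δ ≤ r) (y : Sm) : XW d y ^ 2 ≤ 2 * YN d r y ^ 2 + 2 / r *
      I (d.κ * d.κ * cp (fun t => t ^ 2 / √(t ^ 2 + δ ^ 2)) d.sn * Hsq (Dp y) d.w) := by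
  have r0 : 0 < r := hδ.trans_le hr
  have c1 : ∀ x, ContDiffAt ℝ ∞ (fun t : ℝ => r ^ 2 / (t ^ 2 + r ^ 2)) (d.sn x) := fun x =>
    contDiffAt_const.div (by fun_prop) (by positivity)
  have c2 : ∀ x, ContDiffAt ℝ ∞ (fun t : ℝ => t ^ 2 / √(t ^ 2 + δ ^ 2)) (d.sn x) := fun x =>
    ContDiffAt.div (by fun_prop) (ContDiffAt.sqrt (by fun_prop) (by positivity)) (by positivity)
  rw [XW, YN, sq_sqrt (I_nonneg fun x => mul_nonneg (mul_self_nonneg _) (estall_Hsq _ _ x).1),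
    sq_sqrt (I_nonneg fun x => ?_)]
  swap
  · simp only [Sm.mul_apply, cp_apply c1]
    exact mul_nonneg (mul_nonneg (mul_self_nonneg _) (by positivity)) (estall_Hn _ x)
  rw [← smul_eq_mul 2, ← smul_eq_mul (2 / r), ← map_smul, ← map_smul, ← map_add]
  refine I_mono fun x => ?_
  simp only [Sm.add_apply, Sm.smul_apply, Sm.mul_apply, cp_apply c1, cp_apply c2]
  by_cases hk : d.κ x = 0
  · simp [hk]
  obtain ⟨q0, q1⟩ := estall_Hsq (Dp y) d.w x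
  have q2 : (∑ c, d.w c * d.w c) x = 1 := by
    rw [estall_w, ← h.unit x hk]
    simp only [Sm.add_apply, Sm.mul_apply, pow_two]
  rw [q2, mul_one] at q1
  have q3 := mul_self_nonneg (d.κ x)
  generalize d.sn x = t, d.κ x * d.κ x = κ, Hsq (Dp y) d.w x = a, Hn (Dp y) x = b at *
  have p1 : 0 ≤ κ * (r ^ 2 / (t ^ 2 + r ^ 2)) * b :=
    mul_nonneg (mul_nonneg q3 (by positivity)) (q0.trans q1)
  have p2 : 0 ≤ 2 / r * (κ * (t ^ 2 / √(t ^ 2 + δ ^ 2)) * a) := by positivity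
  rcases le_total (t ^ 2) (r ^ 2) with ht | ht
  · have : 1 / 2 ≤ r ^ 2 / (t ^ 2 + r ^ 2) := by
      rw [le_div_iff₀ (by positivity)]; linarith
    have e : κ * (1 / 2) * a ≤ κ * (r ^ 2 / (t ^ 2 + r ^ 2)) * b := by gcongr
    linarith
  · have e0 : r ≤ |t| := abs_le_of_sq_le_sq' (by rwa [sq_abs]) (abs_nonneg t) |>.2
    have e1 : √(t ^ 2 + δ ^ 2) ≤ 2 * |t| :=
      sqrt_le_iff.2 ⟨by positivity, by nlinarith [sq_abs t, pow_le_pow_left₀ hδ.le hr 2]⟩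
    have e2 : r / 2 ≤ t ^ 2 / √(t ^ 2 + δ ^ 2) := by
      rw [le_div_iff₀ (by positivity)]
      linarith [mul_le_mul_of_nonneg_left e1 r0.le, mul_le_mul_of_nonneg_right e0 (abs_nonneg t),
        abs_mul_abs_self t]
    have e3 : 2 / r * (κ * (r / 2) * a) ≤ 2 / r * (κ * (t ^ 2 / √(t ^ 2 + δ ^ 2)) * a) := by gcongr
    have e4 : 2 / r * (κ * (r / 2) * a) = κ * a := by field_simp
    linarith

theorem estall_nrm (s : ℝ) (g : Sm) : nrm 1 s (evp g) ≤ nrm 1 s g ∧ nrm 1 s (odp g) ≤ nrm 1 s g := by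
  have h : nrm 1 s (ant g) = nrm 1 s g := nrm_act 1 s _ g
  have h1 := nrm_add_le 1 s g (ant g)
  have h2 := nrm_sub_le 1 s g (ant g)
  have e1 : nrm 1 s (evp g) = |1 / 2| * nrm 1 s (g + ant g) := nrm_smul _ _ _ _
  have e2 : nrm 1 s (odp g) = |1 / 2| * nrm 1 s (g - ant g) := nrm_smul _ _ _ _
  rw [abs_of_pos one_half_pos] at e1 e2
  constructor <;> linarith

theorem estall_par {fo fe y : Sm} (ho : fo ∈ Od) (he : fe ∈ Ev) (hy : y ∈ Ev) {A : Sm →ₗ[ℝ] Sm}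
    (h1 : ∀ φ ∈ Od, A φ ∈ Od) (h2 : ∀ φ ∈ Ev, A φ ∈ Ev) (φ : Sm) :
    tau (fo + fe) (A (odp φ)) y = tb fo (A φ) y ∧ tau (fo + fe) (A (evp φ)) y = tau fe (A φ) y := by
  have po := h1 _ (odp_mem φ)
  have pe := h2 _ (evp_mem φ)
  have e : A φ = A (evp φ) + A (odp φ) := by rw [← map_add, evp_add_odp]
  have a1 := tb_Ev_Od he po hy
  have a2 := (tb_comm _ _ _).trans (tb_Ev_Od pe ho hy)
  have a3 := (tg_comm _ _ _).trans (tg_Od ho (A (evp φ)) y)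
  rw [e]
  simp only [tau_def, map_add, LinearMap.add_apply, tg_Od po, a1, a2, a3]
  constructor <;> ring

theorem estall_inj {j m : ℕ} {Λ : ℝ} {d : LD} (hm : 1 ≤ m) (ho : d.fo ∈ Od) (he : d.fe ∈ Ev)
    (h : ∀ go ge y, Adj j Λ m d go ge y → ‖y‖ ≤ 1 / 2) :
    Inj (Λ * m)⁻¹ j m (d.fo + d.fe) (m ^ 2) (1 / m ^ 2) := by
  intro g y N e hg h1 h2 h3 e0 h4
  by_contra hn
  have hm' : (0 : ℝ) < m ^ 2 := by positivity
  have y0 : 0 < ‖y‖ := lt_of_le_of_lt (by positivity) (not_le.1 hn)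
  have hy : ‖‖y‖⁻¹ • y‖ = 1 := by rw [norm_smul, norm_inv, norm_norm, inv_mul_cancel₀ y0.ne']
  have ey := Ev.smul_mem ‖y‖⁻¹ h1
  have key : ∀ φ, |2 * tau (d.fo + d.fe) (DI (Λ * m)⁻¹ j φ) (DD (Λ * m)⁻¹ j (‖y‖⁻¹ • y)) +
      2 * tau (odp g + evp g) (LinearMap.id (R := ℝ) φ) (‖y‖⁻¹ • y)| ≤ 1 / m ^ 2 * ‖φ‖ := by
    intro φ
    have h5 := h4 φ
    rw [Lf_apply] at h5
    rw [add_comm (odp g), evp_add_odp, LinearMap.id_apply, map_smul, map_smul, map_smul,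
      smul_eq_mul, smul_eq_mul, mul_left_comm, mul_left_comm 2 ‖y‖⁻¹, ← mul_add, abs_mul,
      abs_of_pos (inv_pos.2 y0), inv_mul_le_iff₀ y0, ← mul_assoc]
    refine h5.trans (mul_le_mul_of_nonneg_right ?_ (norm_nonneg _))
    rw [mul_one_div, le_div_iff₀ hm', mul_comm]
    exact (not_le.1 hn).le
  have p1 := estall_par (y := DD (Λ * m)⁻¹ j (‖y‖⁻¹ • y)) ho he (fn_mem_Ev _ ey)
    (A := DI (Λ * m)⁻¹ j) (fun _ => fn_mem_Od _) fun _ => fn_mem_Ev _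
  have p2 := estall_par (odp_mem g) (evp_mem g) ey (A := LinearMap.id) (fun _ => id) fun _ => id
  have n1 : ∀ φ : Sm, ‖evp φ‖ ≤ ‖φ‖ ∧ ‖odp φ‖ ≤ ‖φ‖ := fun φ => by
    simpa only [nrm_zero le_rfl] using estall_nrm 0 φ
  have := h (odp g) (evp g) _ ⟨ey, (Zi m).smul_mem _ h2, ⟨N, (Poly N).smul_mem _ h3⟩, hy.le,
    odp_mem g, evp_mem g, (estall_nrm 8 g).2.trans hg, (estall_nrm 8 g).1.trans hg,
    fun φ => ?_, fun φ => ?_⟩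
  · rw [hy] at this
    norm_num at this
  · have := key (odp φ)
    rw [(p1 φ).1, (p2 φ).1] at this
    exact this.trans (mul_le_mul_of_nonneg_left (n1 φ).2 (by positivity))
  · have := key (evp φ)
    rw [(p1 φ).2, (p2 φ).2] at this
    exact this.trans (mul_le_mul_of_nonneg_left (n1 φ).1 (by positivity))

theorem estAll (hO : EstOStmt) (hS : EstSStmt) (hE : EstEStmt) (hT : EstTStmt) : S2Stmt := by
  intro j C0 hj h0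
  obtain ⟨Co, ho, hO⟩ := hO j C0 h0
  obtain ⟨Cs, hs, hS⟩ := hS j C0 h0
  obtain ⟨Ce, he, hE⟩ := hE j C0 h0
  obtain ⟨Q, hQ⟩ : ∃ Q, Q = 8 * Co ^ 2 * (2 * Cs + 3 * Ce + Ce * Cs) := ⟨_, rfl⟩
  have Q1 : Co ≤ Q := by
    have : 1 ≤ 2 * Cs + 3 * Ce + Ce * Cs := by nlinarith
    have : Co ^ 2 * 1 ≤ Co ^ 2 * (2 * Cs + 3 * Ce + Ce * Cs) := by gcongr
    nlinarith
  have Q0 : 0 < Q := by linarith
  refine ⟨Q⁻¹ ^ 2, by positivity, fun τ τ0 τ1 => ?_⟩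
  obtain ⟨s, s0, rfl⟩ : ∃ s, 0 < s ∧ τ = s ^ 2 := ⟨√τ, sqrt_pos.2 τ0, (sq_sqrt τ0.le).symm⟩
  have s2 : s ≤ Q⁻¹ := (pow_le_pow_iff_left₀ s0.le (by positivity) two_ne_zero).1 τ1
  have s3 : s ≤ Co⁻¹ := s2.trans (inv_anti₀ (by linarith) Q1)
  have s1 : s ≤ 1 := s3.trans (inv_le_one_of_one_le₀ ho)
  have sp : ∀ n, s ^ n ≤ 1 := fun n => pow_le_one₀ s0.le s1
  obtain ⟨Cδ, hδ, hE⟩ := hE (s ^ 6) (by positivity) (sp 6)
  refine ⟨max Co (Cδ * (32 * Co ^ 2) / s ^ 3), fun Λ hΛ Λ1 C1 h1 => ?_⟩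
  obtain ⟨K1, m1, k1, hO⟩ := hO (s ^ 2) C1 Λ τ0 (le_trans (by nlinarith) s3) h1
    ((le_max_left _ _).trans hΛ)
  obtain ⟨K2, m2, -, hS1⟩ := hS (s ^ 2) (s ^ 3) C1 Λ τ0 (sp 2) (by positivity) (sp 3) h1 Λ1
  obtain ⟨K3, m3, -, hS2⟩ := hS (s ^ 2) (s ^ 6) C1 Λ τ0 (sp 2) (by positivity) (sp 6) h1 Λ1
  have γ0 : 0 < s ^ 3 / (32 * Co ^ 2) / (1 + 2 * Co ^ 2) := by positivity
  obtain ⟨K4, m4, -, hE⟩ := hE (s ^ 2) C1 Λ _ τ0 (sp 2) h1 Λ1 γ0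
  obtain ⟨CX, hX⟩ := estall_num (Cδ := Cδ) (Λ := Λ) (K2 := K2) (K3 := K3) (K4 := K4) ho hs he s0 s1
    (by rw [← hQ, ← le_div_iff₀ Q0, one_div]; exact s2) (by
      have := (le_max_right _ _).trans hΛ
      rw [div_le_iff₀ (by positivity)] at this
      rw [div_le_div_iff₀ (by linarith) (by positivity)]
      linarith) γ0 (div_mul_cancel₀ _ (by positivity)) k1
  obtain ⟨m5, hT⟩ := hT j C0 (s ^ 2) C1 Λ CX hj h0 h1 Λ1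
  refine ⟨m1 + m2 + m3 + m4 + m5 + 1, fun m hm d hd =>
    estall_inj (by omega) hd.fo_odd hd.fe_even fun go ge y hy => ?_⟩
  have hm0 : (0 : ℝ) < m := Nat.cast_pos.2 (by omega)
  have a1 := hO m (by omega) d go ge y hd hy
  have a2 := hS1 m (by omega) d go ge y hd hy
  have a3 := hS2 m (by omega) d go ge y hd hy
  have a4 := hE m (by omega) d go ge y hd hy
  rw [show s ^ 3 / s ^ 2 = s by field_simp] at a2
  rw [show s ^ 6 / s ^ 2 = s ^ 4 by field_simp] at a3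
  rw [show √(s ^ 6) = s ^ 3 by rw [show s ^ 6 = (s ^ 3) ^ 2 by ring, sqrt_sq (by positivity)],
    show (s ^ 2) ^ 2 = s ^ 4 by ring] at a4
  simp only [div_eq_mul_inv _ (m : ℝ), div_eq_mul_inv _ ((m : ℝ) ^ 2), ← inv_pow] at a1 a2 a3 a4 hT
  have := hX _ _ _ _ _ _ _ (inv_pos.2 hm0) (sqrt_nonneg _) (sqrt_nonneg _) a1.1 a1.2 a2 a3 a4
    (estall_split hd (by positivity) (pow_le_pow_of_le_one s0.le s1 (by norm_num)) y)
  exact hT m (by omega) d go ge y hd hy (by rw [div_eq_mul_inv]; exact this.1)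
    (by rw [div_eq_mul_inv]; exact this.2)

end Pool.Agent.Lib.MP_2fa2a2_gt.PI
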