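import Pool.Agent.Lib.MP_2fa2a2_gt.PI.Ops

/-! Commutators of functions with multipliers. -/

namespace Pool.Agent.Lib.MP_2fa2a2_gt.PI

/-- scaled Sobolev bounds -/
def CommW (k : ℕ) (h M : ℝ) (u : Sm) : Prop :=
  ∀ w : List (Fin 3), w.length ≤ k → h ^ w.length * ‖Lw w u‖ ≤ M

section
variable {k : ℕ} {h M M' B : ℝ} {u u' v : Sm}

theorem CommW.norm (hu : CommW k h M u) : ‖u‖ ≤ M := by
  simpa using hu [] (Nat.zero_le _)

theorem CommW.nonneg (hu : CommW k h M u) : 0 ≤ M := (norm_nonneg _).trans hu.norm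

theorem CommW.mono {k' : ℕ} (hu : CommW k h M u) (hk : k' ≤ k) (hM : M ≤ M') :
    CommW k' h M' u := fun w hw => (hu w (hw.trans hk)).trans hM

theorem CommW.add (hh : 0 ≤ h) (hu : CommW k h M u) (hu' : CommW k h M' u') :
    CommW k h (M + M') (u + u') := fun w hw => by
  have h1 := hu w hw
  have h2 := hu' w hw
  have h3 := mul_le_mul_of_nonneg_left (norm_add_le (Lw w u) (Lw w u')) (pow_nonneg hh w.length)
  rw [map_add]
  linarith

theorem CommW.sub (hh : 0 ≤ h) (hu : CommW k h M u) (hu' : CommW k h M' u') :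
    CommW k h (M + M') (u - u') := fun w hw => by
  have h1 := hu w hw
  have h2 := hu' w hw
  have h3 := mul_le_mul_of_nonneg_left (norm_sub_le (Lw w u) (Lw w u')) (pow_nonneg hh w.length)
  rw [map_sub]
  linarith

theorem CommW.smul {r : ℝ} (hr : 0 ≤ r) (hu : CommW k h M u) :
    CommW k h (r * M) (r • u) := fun w hw => by
  have h1 := mul_le_mul_of_nonneg_left (hu w hw) hr
  rw [map_smul, norm_smul, Real.norm_eq_abs, abs_of_nonneg hr]
  linarith

theorem CommW.L (hh : 0 ≤ h) (hu : CommW (k + 1) h M u) (a : Fin 3) :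
    CommW k h M (h • L a u) := fun w hw => by
  have h1 := hu (w ++ [a]) (by simpa using hw)
  rw [Lw_append, List.length_append, List.length_singleton, pow_succ] at h1
  rw [map_smul, norm_smul, Real.norm_eq_abs, abs_of_nonneg hh, ← mul_assoc]
  exact h1

theorem commw_succ (hh : 0 ≤ h) (h0 : ‖u‖ ≤ M) (h1 : ∀ a, CommW k h M (h • L a u)) :
    CommW (k + 1) h M u := fun w hw => by
  rcases List.eq_nil_or_concat w with rfl | ⟨w', a, rfl⟩
  · simpa using h0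
  · have h2 := h1 a w' (by simpa using hw)
    rw [map_smul, norm_smul, Real.norm_eq_abs, abs_of_nonneg hh, ← mul_assoc] at h2
    rw [List.concat_eq_append, Lw_append, List.length_append, List.length_singleton, pow_succ]
    exact h2

theorem commx_CbL (hv : Cb (k + 1) 1 B v) (a : Fin 3) : Cb k 1 B (L a v) := by
  simpa using hv.L a

theorem commx_Cb_mono {k' : ℕ} (hv : Cb k 1 B v) (hk : k' ≤ k) : Cb k' 1 B v :=
  hv.mono zero_le_one hk le_rfl le_rfl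

end

theorem commw_mul {h : ℝ} (hh : 0 ≤ h) (h1 : h ≤ 1) (k : ℕ) : ∀ {B M : ℝ} {v u : Sm},
    Cb k 1 B v → CommW k h M u → CommW k h (2 ^ k * B * M) (v * u) := by
  induction k with
  | zero =>
    intro B M v u hv hu w hw
    obtain rfl : w = [] := List.length_eq_zero_iff.mp (Nat.le_zero.mp hw)
    have h2 := norm_mul_le hv.abs_le u
    have h3 := mul_le_mul_of_nonneg_left hu.norm hv.nonneg
    simp only [List.length_nil, pow_zero, one_mul, Lw_nil]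
    linarith
  | succ k ih =>
    intro B M v u hv hu
    have hB := hv.nonneg
    have hM := hu.nonneg
    have hBM : 0 ≤ B * M := mul_nonneg hB hM
    have hp : (1 : ℝ) ≤ 2 ^ k := one_le_pow₀ one_le_two
    refine commw_succ hh ?_ fun a => ?_
    · have h2 := norm_mul_le hv.abs_le u
      have h3 := mul_le_mul_of_nonneg_left hu.norm hB
      have h4 := mul_le_mul_of_nonneg_right hp hBM
      rw [pow_succ]
      nlinarith
    · have e : h • L a (v * u) = h • (L a v * u) + v * (h • L a u) := by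
        rw [L_mul, smul_add, mul_smul_comm]
      rw [e]
      have h2 := (ih (commx_CbL hv a) (hu.mono (Nat.le_succ k) le_rfl)).smul hh
      have h3 := ih (commx_Cb_mono hv (Nat.le_succ k)) (hu.L hh a)
      refine (h2.add hh h3).mono le_rfl ?_
      have h4 : 0 ≤ 2 ^ k * B * M := by positivity
      have h5 := mul_le_mul_of_nonneg_right h1 h4
      rw [pow_succ]
      linarith

theorem commw_Lw {h : ℝ} (hh : 0 ≤ h) (h1 : h ≤ 1) (n : ℕ) : ∀ {B M : ℝ} {v u : Sm}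
    (w : List (Fin 3)), w.length = n → Cb n 1 B v → CommW n h M u →
    h ^ n * ‖v * Lw w u - Lw w (v * u)‖ ≤ 2 ^ n * B * h * M := by
  induction n with
  | zero =>
    intro B M v u w hw hv hu
    obtain rfl : w = [] := List.length_eq_zero_iff.mp hw
    have hB := hv.nonneg
    have hM := hu.nonneg
    simp only [Lw_nil, sub_self, norm_zero, mul_zero]
    positivity
  | succ n ih =>
    intro B M v u w hw hv hu
    rcases List.eq_nil_or_concat w with rfl | ⟨w', a, rfl⟩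
    · simp at hw
    have hw' : w'.length = n := by simpa using hw
    have h2 := ih w' hw' (commx_Cb_mono hv (Nat.le_succ n)) (hu.L hh a)
    have h3 := commw_mul hh h1 n (commx_CbL hv a) (hu.mono (Nat.le_succ n) le_rfl) w' hw'.le
    rw [hw'] at h3
    have e : h • (v * Lw (w'.concat a) u - Lw (w'.concat a) (v * u))
        = (v * Lw w' (h • L a u) - Lw w' (v * (h • L a u))) - h • Lw w' (L a v * u) := by
      rw [List.concat_eq_append, Lw_append, Lw_append]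
      simp only [Lw_cons, Lw_nil, L_mul, map_add, map_smul, mul_smul_comm, smul_sub, smul_add]
      abel
    have h4 := norm_sub_le (v * Lw w' (h • L a u) - Lw w' (v * (h • L a u)))
      (h • Lw w' (L a v * u))
    rw [← e, norm_smul, norm_smul, Real.norm_eq_abs, abs_of_nonneg hh] at h4
    have h5 := mul_le_mul_of_nonneg_left h4 (pow_nonneg hh n)
    have h6 := mul_le_mul_of_nonneg_left h3 hh
    rw [pow_succ, pow_succ]
    nlinarith

theorem commw_T {h M : ℝ} {k : ℕ} {u : Sm} (hh : 0 ≤ h) (hu : CommW (k + 2) h M u) :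
    CommW k h (4 * M) (u - h ^ 2 • lap u) := by
  have e : h ^ 2 • lap u = h • L 0 (h • L 0 u) + h • L 1 (h • L 1 u) + h • L 2 (h • L 2 u) := by
    rw [lap_def, Fin.sum_univ_three]
    simp only [map_smul, smul_smul, smul_add, sq]
  rw [e]
  have h0 := fun a => (hu.L hh a).L hh a
  refine ((hu.mono (Nat.le_add_right k 2) le_rfl).sub hh
    (((h0 0).add hh (h0 1)).add hh (h0 2))).mono le_rfl (le_of_eq ?_)
  ring

theorem commx_DD_succ (h : ℝ) (j : ℕ) (u : Sm) :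
    DD h (j + 1) u = DD h j (u - h ^ 2 • lap u) := by
  rw [DD_eq_pow, DD_eq_pow, pow_succ]
  rfl

theorem commx_DD_zero (h : ℝ) (u : Sm) : DD h 0 u = u := by
  rw [DD_eq_pow, pow_zero]
  rfl

theorem commw_DD {h : ℝ} (hh : 0 ≤ h) (j : ℕ) : ∀ {M : ℝ} {u : Sm},
    CommW (2 * j) h M u → ‖DD h j u‖ ≤ 4 ^ j * M := by
  induction j with
  | zero =>
    intro M u hu
    rw [commx_DD_zero, pow_zero, one_mul]
    exact hu.norm
  | succ j ih =>
    intro M u hu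
    rw [commx_DD_succ]
    refine (ih (commw_T hh hu)).trans_eq ?_
    ring

/-- the remainder in the product rule for `1 - h ^ 2 lap` -/
theorem commw_rem {h B M : ℝ} {k : ℕ} {v u : Sm} (hh : 0 ≤ h) (h1 : h ≤ 1)
    (hv : Cb (k + 2) 1 B v) (hu : CommW (k + 1) h M u) :
    CommW k h (9 * 2 ^ k * B * h * M) (h ^ 2 • (lap v * u + 2 * gd v u)) := by
  have hB := hv.nonneg
  have hM := hu.nonneg
  have e : h ^ 2 • (lap v * u + 2 * gd v u) = h • ((h • (L 0 (L 0 v) * u) + h • (L 1 (L 1 v) * u)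
      + h • (L 2 (L 2 v) * u)) + (2 : ℝ) • (L 0 v * (h • L 0 u) + L 1 v * (h • L 1 u)
        + L 2 v * (h • L 2 u))) := by
    rw [lap_def, gd, Fin.sum_univ_three, Fin.sum_univ_three, two_mul]
    ext x
    simp only [Sm.smul_apply, Sm.add_apply, Sm.mul_apply]
    ring
  rw [e]
  have h2 := fun a => (commw_mul hh h1 k (commx_CbL (commx_CbL hv a) a)
    (hu.mono (Nat.le_succ k) le_rfl)).smul hh
  have h3 := fun a => commw_mul hh h1 k (commx_Cb_mono (commx_CbL hv a) (Nat.le_succ k))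
    (hu.L hh a)
  refine (((((h2 0).add hh (h2 1)).add hh (h2 2)).add hh
    ((((h3 0).add hh (h3 1)).add hh (h3 2)).smul zero_le_two)).smul hh).mono le_rfl ?_
  have h4 : 0 ≤ h * (2 ^ k * B * M) := by positivity
  have h5 := mul_le_mul_of_nonneg_right h1 h4
  nlinarith

theorem commx_T_mul (h : ℝ) (v u : Sm) : v * u - h ^ 2 • lap (v * u)
    = v * (u - h ^ 2 • lap u) - h ^ 2 • (lap v * u + 2 * gd v u) := by
  rw [lap_mul]
  ext x
  simp only [Sm.smul_apply, Sm.add_apply, Sm.mul_apply, Sm.sub_apply]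
  ring

theorem commw_DD_mul (j : ℕ) : ∃ C, 0 ≤ C ∧ ∀ {h B M : ℝ} {v u : Sm}, 0 ≤ h → h ≤ 1 →
    Cb (2 * j) 1 B v → CommW (2 * j) h M u →
    ‖DD h j (v * u) - v * DD h j u‖ ≤ C * B * h * M := by
  induction j with
  | zero =>
    refine ⟨0, le_rfl, fun _ _ _ _ => ?_⟩
    simp [commx_DD_zero]
  | succ j ih =>
    obtain ⟨C, hC, ih⟩ := ih
    refine ⟨4 * C + 4 ^ j * (9 * 2 ^ (2 * j)), by positivity, ?_⟩
    intro h B M v u hh h1 hv hu
    have h2 := ih hh h1 (commx_Cb_mono hv (Nat.le_add_right (2 * j) 2)) (commw_T hh hu)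
    have h3 := commw_DD hh j (commw_rem hh h1 hv (hu.mono (Nat.le_succ _) le_rfl))
    rw [commx_DD_succ, commx_DD_succ, commx_T_mul, map_sub, sub_right_comm]
    refine (norm_sub_le _ _).trans ((add_le_add h2 h3).trans_eq ?_)
    ring

/-- slowly varying functions almost commute with `h ^ |w| L^w DI` -/
theorem comm_DI (j : ℕ) : ∃ C, 0 ≤ C ∧ ∀ {h B : ℝ} {v : Sm} {w : List (Fin 3)} (φ : Sm),
    0 < h → h ≤ 1 → Cb (2 * j + 2) 1 B v → w.length ≤ 2 * j →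
    h ^ w.length * ‖v * Lw w (DI h j φ) - Lw w (DI h j (v * φ))‖ ≤ C * B * h * ‖φ‖ := by
  obtain ⟨C, hC, H⟩ := commw_DD_mul j
  refine ⟨2 ^ (2 * j) + C, by positivity, ?_⟩
  intro h B v w φ hh h1 hv hw
  have hB := hv.nonneg
  have hu : CommW (2 * j) h ‖φ‖ (DI h j φ) := fun w' hw' => norm_Lw_DI hh.le hw' φ
  have h2 := commw_Lw hh.le h1 w.length w rfl (commx_Cb_mono hv (by omega)) (hu.mono hw le_rfl)
  have h3 := H hh.le h1 (commx_Cb_mono hv (Nat.le_add_right _ 2)) hu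
  rw [DD_DI] at h3
  have h4 := norm_Lw_DI hh.le hw (DD h j (v * DI h j φ) - v * φ)
  rw [map_sub, DI_DD, map_sub] at h4
  have h5 := mul_le_mul_of_nonneg_left (norm_sub_le_norm_sub_add_norm_sub
    (v * Lw w (DI h j φ)) (Lw w (v * DI h j φ)) (Lw w (DI h j (v * φ))))
    (pow_nonneg hh.le w.length)
  have h6 : (2 : ℝ) ^ w.length ≤ 2 ^ (2 * j) := pow_le_pow_right₀ one_le_two hw
  have h7 : 0 ≤ B * h * ‖φ‖ := by positivity
  have h8 := mul_le_mul_of_nonneg_right h6 h7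
  nlinarith

theorem commx_Sh (h : ℝ) : Sh h = DI h 1 := by
  simp only [Sh, DI, pow_one]

theorem comm_Sh : ∃ C, 0 ≤ C ∧ ∀ {h B : ℝ} {v : Sm} (φ : Sm), 0 < h → h ≤ 1 → Cb 2 1 B v →
    ‖v * Sh h φ - Sh h (v * φ)‖ ≤ C * B * h * ‖φ‖ := by
  refine ⟨9, by norm_num, ?_⟩
  intro h B v φ hh h1 hv
  have hu : CommW 1 h ‖φ‖ (Sh h φ) := fun w' hw' => by
    rw [commx_Sh]
    exact norm_Lw_DI hh.le (by omega) φ
  have h2 := (commw_rem (k := 0) hh.le h1 hv hu).norm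
  have e := Sh_spec' h (v * Sh h φ)
  rw [commx_T_mul, Sh_spec, map_sub] at e
  have e2 : v * Sh h φ - Sh h (v * φ)
      = -Sh h (h ^ 2 • (lap v * Sh h φ + 2 * gd v (Sh h φ))) := by
    rw [← e]
    abel
  rw [e2, norm_neg]
  refine (norm_Sh_le _ _).trans (h2.trans_eq ?_)
  ring

theorem commx_qq (u : Sm) : I (qq * (u * u)) = ‖X 0 * u‖ ^ 2 + ‖X 1 * u‖ ^ 2 := by
  rw [norm_sq_eq, norm_sq_eq, ← map_add, qq_eq]
  congr 1
  ring

theorem commx_parts (u : Sm) : 2 * ‖X 2 * u‖ ^ 2 = ‖X 0 * u‖ ^ 2 + ‖X 1 * u‖ ^ 2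
    + 2 * (I ((X 1 * u) * (X 2 * L 0 u)) - I ((X 0 * u) * (X 2 * L 1 u))) := by
  have h := I_D 2 (X 2 * (u * u))
  have e1 : D 2 u = X 1 * L 0 u - X 0 * L 1 u := D_def 2 u
  have e2 : D 2 (X 2) = qq := by
    rw [D_X, qq, kd, if_pos rfl]
  have e3 : D 2 (X 2 * (u * u)) = qq * (u * u) + ((X 1 * u) * (X 2 * L 0 u)
      - (X 0 * u) * (X 2 * L 1 u)) + ((X 1 * u) * (X 2 * L 0 u) - (X 0 * u) * (X 2 * L 1 u)) := by
    rw [D_mul, D_mul, e1, e2]
    ring
  have e4 : X 2 * (X 2 * (u * u)) = (X 2 * u) * (X 2 * u) := by ring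
  rw [e3, e4, map_add, map_add, map_sub, commx_qq, ← norm_sq_eq] at h
  linarith

theorem commx_X (a : Fin 3) (u : Sm) : ‖X a * u‖ ≤ ‖u‖ :=
  (norm_mul_le (abs_X_le a) u).trans_eq (one_mul _)

/-- uncertainty principle at the poles -/
theorem uncertainty : ∃ C, 0 ≤ C ∧ ∀ {h : ℝ} (φ : Sm), 0 < h → h ≤ 1 →
    I (X 2 * X 2 * (φ * φ)) ≤ C * (inner ℝ (φ - Sh h φ) φ + I (qq * (φ * φ)) + h ^ 2 * ‖φ‖ ^ 2
      + (√(I (qq * (φ * φ))) + h * ‖φ‖) * √(inner ℝ (φ - Sh h φ) φ) / h) := by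
  obtain ⟨C, hC, H⟩ := comm_Sh
  refine ⟨4 * (C + 1) ^ 2, by positivity, ?_⟩
  intro h φ hh h1
  set u := Sh h φ with hu
  set E := inner ℝ (φ - u) φ with hE
  set Q := I (qq * (φ * φ)) with hQ
  have hE1 : E = h ^ 2 * (‖L 0 u‖ ^ 2 + ‖L 1 u‖ ^ 2 + ‖L 2 u‖ ^ 2) + ‖φ - u‖ ^ 2 := by
    rw [hE, hu, inner_one_sub_Sh, gd, Fin.sum_univ_three, map_add, map_add, ← norm_sq_eq,
      ← norm_sq_eq, ← norm_sq_eq]
  have hQ1 : Q = ‖X 0 * φ‖ ^ 2 + ‖X 1 * φ‖ ^ 2 := commx_qq φ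
  have hE0 : 0 ≤ E := by rw [hE1]; positivity
  have hQ0 : 0 ≤ Q := by rw [hQ1]; positivity
  have hn := norm_nonneg φ
  have hhn : 0 ≤ h * ‖φ‖ := mul_nonneg hh.le hn
  have sQ := Real.sqrt_nonneg Q
  have sE := Real.sqrt_nonneg E
  have sQ2 := Real.sq_sqrt hQ0
  set A := √Q + C * (h * ‖φ‖) with hA
  have hA0 : 0 ≤ A := by positivity
  have hX : ∀ a, ‖X a * φ‖ ≤ √Q → ‖X a * u‖ ≤ A := fun a ha => by
    have h2 := H φ hh h1 (Cb_X le_rfl 2 a)
    have h3 := norm_Sh_le h (X a * φ)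
    have h4 := norm_le_norm_add_norm_sub' (X a * u) (Sh h (X a * φ))
    rw [hA]
    linarith
  have hX0 := hX 0 (Real.le_sqrt_of_sq_le (by rw [hQ1]; nlinarith [sq_nonneg ‖X 1 * φ‖]))
  have hX1 := hX 1 (Real.le_sqrt_of_sq_le (by rw [hQ1]; nlinarith [sq_nonneg ‖X 0 * φ‖]))
  have hL : ∀ a, h ^ 2 * ‖L a u‖ ^ 2 ≤ E → ‖X 2 * L a u‖ ≤ √E / h := fun a ha => by
    refine (commx_X 2 _).trans ?_
    rw [le_div_iff₀ hh]
    exact Real.le_sqrt_of_sq_le (by rw [mul_pow, mul_comm]; exact ha)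
  have p0 : 0 ≤ h ^ 2 * ‖L 0 u‖ ^ 2 := by positivity
  have p1 : 0 ≤ h ^ 2 * ‖L 1 u‖ ^ 2 := by positivity
  have p2 : 0 ≤ h ^ 2 * ‖L 2 u‖ ^ 2 := by positivity
  have p3 : 0 ≤ ‖φ - u‖ ^ 2 := by positivity
  have hL0 := hL 0 (by rw [hE1]; linarith)
  have hL1 := hL 1 (by rw [hE1]; linarith)
  have hS : 0 ≤ √E / h := by positivity
  have i0 := (le_abs_self _).trans ((abs_I_mul_le (X 1 * u) (X 2 * L 0 u)).trans
    (mul_le_mul hX1 hL0 (norm_nonneg _) hA0))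
  have i1 := (neg_le_abs _).trans ((abs_I_mul_le (X 0 * u) (X 2 * L 1 u)).trans
    (mul_le_mul hX0 hL1 (norm_nonneg _) hA0))
  have q0 := pow_le_pow_left₀ (norm_nonneg _) hX0 2
  have q1 := pow_le_pow_left₀ (norm_nonneg _) hX1 2
  have k1 : ‖X 2 * u‖ ^ 2 ≤ A ^ 2 + 2 * (A * (√E / h)) := by
    have := commx_parts u
    linarith
  have k2 : ‖X 2 * φ‖ ≤ ‖X 2 * u‖ + ‖φ - u‖ := by
    have e : X 2 * φ = X 2 * u + X 2 * (φ - u) := by ring
    rw [e]
    exact (norm_add_le _ _).trans (add_le_add le_rfl (commx_X 2 _))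
  have k3 : ‖X 2 * φ‖ ^ 2 ≤ 2 * ‖X 2 * u‖ ^ 2 + 2 * ‖φ - u‖ ^ 2 := by
    have := pow_le_pow_left₀ (norm_nonneg _) k2 2
    nlinarith [sq_nonneg (‖X 2 * u‖ - ‖φ - u‖)]
  have k4 : ‖φ - u‖ ^ 2 ≤ E := by rw [hE1]; linarith
  have k5 : I (X 2 * X 2 * (φ * φ)) = ‖X 2 * φ‖ ^ 2 := by
    rw [norm_sq_eq]
    congr 1
    ring
  have k6 : A ^ 2 ≤ 2 * Q + 2 * (C ^ 2 * (h ^ 2 * ‖φ‖ ^ 2)) := by
    rw [hA]
    nlinarith [sq_nonneg (√Q - C * (h * ‖φ‖))]
  have hK : 1 ≤ (C + 1) ^ 2 := one_le_pow₀ (by linarith)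
  have hK2 : C ^ 2 ≤ (C + 1) ^ 2 := by nlinarith
  have hK3 : C ≤ (C + 1) ^ 2 := by nlinarith
  have k7 : A ≤ (C + 1) ^ 2 * (√Q + h * ‖φ‖) := by
    have a1 := mul_le_mul_of_nonneg_right hK sQ
    have a2 := mul_le_mul_of_nonneg_right hK3 hhn
    rw [hA]
    linarith
  have k8 := mul_le_mul_of_nonneg_right k7 hS
  have b1 := mul_le_mul_of_nonneg_right hK hE0
  have b2 := mul_le_mul_of_nonneg_right hK hQ0
  have b3 := mul_le_mul_of_nonneg_right hK2 (by positivity : 0 ≤ h ^ 2 * ‖φ‖ ^ 2)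
  rw [k5, mul_div_assoc]
  linarith

end Pool.Agent.Lib.MP_2fa2a2_gt.PI
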