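import Pool.Agent.Lib.MP_2fa2a2_gt.PI.EstEY

/-! The test function for the estimate of the even part: bounds in the mean. -/

namespace Pool.Agent.Lib.MP_2fa2a2_gt.PI

open Real
open scoped ContDiff

theorem estew_Hn (ψ : Sm) (x : S2) : 0 ≤ Hn ψ x := by
  nlinarith [Dop_sq_le ψ x, sq_nonneg (Dop ψ x)]

theorem estew_q (x : S2) : |qq x| ≤ 1 := by
  have := zon_qq_nonneg x
  rw [abs_of_nonneg this, zon_qq_apply]
  linarith [mul_self_nonneg ((x : E3) 2)]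

theorem estew_qH (ψ : Sm) (x : S2) : qq x * qq x * Hn ψ x ≤ Hn ψ x :=
  mul_le_of_le_one_left (estew_Hn ψ x) (abs_le_one_iff_mul_self_le_one.1 (estew_q x))

theorem estew_zon {ψ ψ0 W : Sm} (h : ∀ x, zav ψ x = ψ0 x) (hW : Zon W) (h0 : ∀ x, 0 ≤ W x) :
    I (W * (qq * qq * Hn ψ0)) ≤ I (W * Hn ψ) := by
  have a1 := I_zav_le (fun x => (zav_H h x).1) h0 hW
  have a2 := I_zav_le (fun x => (zav_H h x).2.1) h0 hW
  have a3 := I_zav_le (fun x => (zav_H h x).2.2) h0 hW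
  have a4 : I (W * (qq * qq * Hn ψ)) ≤ I (W * Hn ψ) := I_mono fun x =>
    mul_le_mul_of_nonneg_left (estew_qH ψ x) (h0 x)
  rw [qq_sq_Hn] at a4 ⊢
  simp only [mul_add, map_add, mul_left_comm W 2, alg_I_two] at a4 ⊢
  linarith

theorem estew_nrm (ψ : Sm) : ‖ψ‖ ≤ nrm 1 1 ψ ∧ (∀ c, ‖L c ψ‖ ≤ nrm 1 1 ψ) ∧
    ∀ c, ‖D c ψ‖ ≤ nrm 1 1 ψ := by
  refine ⟨?_, fun c => ?_, fun c => ?_⟩
  · simpa only [nrm_zero le_rfl] using nrm_mono le_rfl zero_le_one ψ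
  · simpa only [nrm_zero le_rfl, zero_add] using nrm_L le_rfl 0 c ψ
  · refine nrmx_sq ?_ (nrm_nonneg _ _ _)
    have := tau_sum_D_sq ψ
    rcases alg_fin c with rfl | rfl | rfl <;>
      linarith [sq_nonneg ‖D 0 ψ‖, sq_nonneg ‖D 1 ψ‖, sq_nonneg ‖D 2 ψ‖]

/-- facts on the splitting in a zonal and a non zonal part -/
structure EsteH (d : LD) (m : ℕ) (Xv : ℝ) (ψ : Sm) (g : ℝ → ℝ) : Prop where
  sm : ContDiff ℝ ∞ g
  inv : ψ - Zf g ∈ Zi m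
  mean : ∀ x, zav (ψ - Zf g : Sm) x = 0
  small : nrm 1 1 (ψ - Zf g) ≤ 64 * (1 / m)
  dop : ‖Dop (Zf g)‖ ≤ 1
  zb : ‖qq * zB g‖ ≤ 2
  kH : I (d.κ * d.κ * Hn ψ) ≤ Xv ^ 2
  kZ : I (d.κ * d.κ * (qq * qq * Hn (Zf g))) ≤ Xv ^ 2

section
variable {k m : ℕ} {C0 τ C1 Xv δ : ℝ} {d : LD} {ψ : Sm} {g : ℝ → ℝ}

theorem estew_qB (hg : ContDiff ℝ ∞ g) (x : S2) :
    (qq * zB g) x * (qq * zB g) x ≤ (qq * qq * Hn (Zf g)) x := by
  rw [Hn_Zf hg]
  simp only [Sm.mul_apply, Sm.add_apply]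
  linarith [mul_self_nonneg (qq x * zA g x)]

theorem estew_H (h : Loc k C0 τ C1 m d) {y : Sm} (hy : y ∈ Ev) (hi : y ∈ Zi m) {N : ℕ}
    (hN : y ∈ Poly N) (h1 : ‖y‖ ≤ 1) (hm : 100 ≤ m) : ∃ g, EsteH d m (XN d y) (Dp y) g := by
  obtain ⟨p, -, hp⟩ := zav_Poly (fn_mem_Poly (fun l => (2 - ll l)⁻¹) hN)
  have hg : ContDiff ℝ ∞ fun t => p.eval t := p.contDiff_aeval ∞
  generalize (fun t => p.eval t) = g at hp hg
  replace hp : ∀ x, zav (Dp y) x = Zf g x := hp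
  have a1 : Dp y - Zf g ∈ Zi m := sub_mem (fn_mem_Zi _ hi) ((Zon_Zf g).mem_Zi m)
  have a2 : ∀ x, zav (Dp y - Zf g : Sm) x = 0 := fun x => by
    rw [sub_eq_add_neg, ← neg_one_smul ℝ, fnx_zav_add, fnx_zav_smul, hp, (Zon_Zf g).zav]
    ring
  have a3 : ‖Dop (Zf g)‖ ≤ 1 := by
    have b1 : ∀ x, zav y x = Dop (Zf g) x := fun x => by
      have e : ∀ φ : Sm, Dop φ = lap φ + (2 : ℝ) • φ := fun _ => rfl
      rw [← Dop_Dp_Ev hy, e, e, fnx_zav_add, fnx_zav_smul, zav_lap hp, hp]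
      rfl
    have b2 := I_zav_le b1 (W := 1) (fun _ => zero_le_one) Zon_one
    rw [one_mul, one_mul, ← norm_sq_eq, ← norm_sq_eq] at b2
    exact (nrmx_sq b2 (norm_nonneg _)).trans h1
  have a4 : I (d.κ * d.κ * Hn (Dp y)) ≤ XN d y ^ 2 := by
    rw [XN, sq_sqrt (I_nonneg fun x => mul_nonneg (mul_self_nonneg _) (estew_Hn _ x))]
    have b : ∀ x, d.κ x ≤ d.kb x := fun x => by
      rw [LD.kb, Sm.add_apply, ant_apply]
      linarith [h.κ_nonneg (neg x)]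
    exact I_mono fun x => mul_le_mul_of_nonneg_right
      (mul_self_le_mul_self (h.κ_nonneg x) (b x)) (estew_Hn _ x)
  have hm' : (100 : ℝ) ≤ m := by exact_mod_cast hm
  refine ⟨g, hg, a1, a2, ?_, a3, ?_, a4, (estew_zon hp (h.κ_zon.mul h.κ_zon)
    fun x => mul_self_nonneg _).trans a4⟩
  · have b1 := (nonzonal_small (by omega) a1 a2).resolve_right (by omega)
    have b2 : ‖Dop (Dp y - Zf g)‖ ≤ 2 := by
      rw [map_sub, Dop_Dp_Ev hy]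
      linarith [norm_sub_le y (Dop (Zf g))]
    have b3 := pow_le_pow_left₀ (norm_nonneg _) b2 2
    rw [← norm_sq_eq] at b1
    rw [mul_one_div, le_div_iff₀ (by linarith)]
    refine nrmx_sq ?_ (by norm_num)
    linarith
  · have b1 := estew_zon hp Zon_one fun _ => zero_le_one
    rw [one_mul, one_mul] at b1
    have b2 := (I_mono (φ := qq * zB g * (qq * zB g)) (estew_qB hg)).trans (b1.trans (I_Hn_Dp y))
    have b3 := pow_le_one₀ (norm_nonneg y) h1 (n := 2)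
    refine nrmx_sq ?_ zero_le_two
    rw [norm_sq_eq]
    exact le_trans b2 (by linarith)

theorem estew_ab (h : Loc k C0 τ C1 m d) (h0 : 1 ≤ C0) {x : S2} (hx : d.κ x ≠ 0) :
    d.al x ^ 2 + d.be x ^ 2 ≤ C0 ∧ 1 ≤ C0 * qq x := by
  have a1 := h.unit x hx
  have a2 := (h.κ_supp x hx).2
  rw [inv_le_iff_one_le_mul₀' (by linarith)] at a2
  refine ⟨?_, a2⟩
  have a3 := mul_le_mul_of_nonneg_left a2 (add_nonneg (sq_nonneg (d.al x)) (sq_nonneg (d.be x)))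
  have a4 : (d.al x ^ 2 + d.be x ^ 2) * (C0 * qq x) = C0 := by linear_combination C0 * a1
  linarith

theorem estew_k (h : Loc k C0 τ C1 m d) (x : S2) : |d.κ x| ≤ C0 := by
  rw [abs_of_nonneg (h.κ_nonneg x)]; exact h.κ_le x

theorem estew_L2 (h : Loc k C0 τ C1 m d) (e : EsteH d m Xv ψ g) (h0 : 1 ≤ C0) (hX : 0 ≤ Xv) :
    ‖d.κ * L 2 (esteP d (ψ - Zf g))‖ ≤ 2 * C0 * Xv + 192 * C0 * C1 * (1 / m) := by
  obtain ⟨n0, nL, nD⟩ := estew_nrm (ψ - Zf g)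
  have id : d.κ * L 2 (esteP d (ψ - Zf g))
      = d.κ * (d.al * Hv ψ (gr (X 2)) rl + d.be * (Hv ψ rl rl - qq * zB g))
        + d.κ * (d.be * (X 2 * D 2 (ψ - Zf g)) - d.be * (qq * (ψ - Zf g))
          - d.al * (X 2 * L 2 (ψ - Zf g))) := by
    rw [estey_P, map_add, L_mul, L_mul, h.al_zon.L2, h.be_zon.L2, ← D2_L2, Hv_z_l, Hv_l_l, zB]
    simp only [map_sub, L2_Zf e.sm, D2_Zf e.sm, sub_zero]
    ring
  have a1 : ‖d.κ * (d.al * Hv ψ (gr (X 2)) rl + d.be * (Hv ψ rl rl - qq * zB g))‖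
      ≤ 2 * C0 * Xv := by
    refine nrmx_sq ?_ (by positivity)
    have b1 : I (d.κ * (d.al * Hv ψ (gr (X 2)) rl + d.be * (Hv ψ rl rl - qq * zB g))
        * (d.κ * (d.al * Hv ψ (gr (X 2)) rl + d.be * (Hv ψ rl rl - qq * zB g))))
        ≤ I ((2 * C0) • (d.κ * d.κ * Hn ψ + d.κ * d.κ * (qq * qq * Hn (Zf g)))) := by
      refine I_mono fun x => ?_
      have c1 := estew_qB e.sm x
      have c2 := estew_qH ψ x
      have c3 := congrArg (fun φ : Sm => φ x) (qq_sq_Hn ψ)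
      generalize qq * zB g = B at c1 ⊢
      generalize qq * qq * Hn (Zf g) = B' at c1 ⊢
      simp only [Sm.mul_apply, Sm.add_apply, Sm.sub_apply, Sm.smul_apply, harm_two] at c3 ⊢
      by_cases hx : d.κ x = 0
      · simp [hx]
      have c4 := (estew_ab h h0 hx).1
      generalize Hv ψ (gr (X 2)) rl x = a, Hv ψ rl rl x = b at *
      have c5 : (d.al x * a + d.be x * (b - B x)) ^ 2
          ≤ (d.al x ^ 2 + d.be x ^ 2) * (a ^ 2 + (b - B x) ^ 2) := by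
        linarith [sq_nonneg (d.al x * (b - B x) - d.be x * a)]
      have c6 : a ^ 2 + (b - B x) ^ 2 ≤ 2 * Hn ψ x + 2 * B' x := by
        linarith [sq_nonneg (b + B x), mul_self_nonneg (H 2 2 ψ x), sq_nonneg a]
      have c7 := c5.trans (mul_le_mul c4 c6 (by positivity) (by linarith))
      linarith [mul_le_mul_of_nonneg_left c7 (mul_self_nonneg (d.κ x))]
    rw [map_smul, map_add, smul_eq_mul] at b1
    have b2 := mul_le_mul_of_nonneg_left (add_le_add e.kH e.kZ) (by linarith : 0 ≤ 2 * C0)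
    have b3 : C0 * Xv ^ 2 ≤ C0 ^ 2 * Xv ^ 2 := by
      have := le_self_pow₀ h0 two_ne_zero
      gcongr
    rw [norm_sq_eq]
    linarith
  have hC := h.al_Cb.nonneg
  have k : ∀ {a v w : Sm}, (∀ x, |a x| ≤ C1) → (∀ x, |v x| ≤ 1) → ‖w‖ ≤ nrm 1 1 (ψ - Zf g) →
      ‖a * (v * w)‖ ≤ C1 * (64 * (1 / m)) := fun ha hv hw =>
    (norm_mul_le ha _).trans (mul_le_mul_of_nonneg_left ((norm_mul_le hv _).trans
      (by linarith [e.small])) hC)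
  have t1 := k h.be_Cb.abs_le (abs_X_le 2) (nD 2)
  have t2 := k h.be_Cb.abs_le estew_q n0
  have t3 := k h.al_Cb.abs_le (abs_X_le 2) (nL 2)
  have t4 := (norm_mul_le (estew_k h) _).trans (mul_le_mul_of_nonneg_left ((norm_sub_le _ _).trans
    (add_le_add ((norm_sub_le _ _).trans (add_le_add t1 t2)) t3)) (by linarith))
  rw [id]
  exact (norm_add_le _ _).trans ((add_le_add a1 t4).trans_eq (by ring))

theorem estew_poin (h : Loc k C0 τ C1 m d) (e : EsteH d m Xv ψ g) (hm : 0 < m) {w : Sm} {c S : ℝ}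
    (hc : 0 ≤ c) (hw : ∀ x, 0 ≤ w x) (hW : ∀ x, zav w x ≤ (c • (d.κ * d.κ)) x)
    (hS : ‖d.κ * L 2 (esteP d (ψ - Zf g))‖ ≤ S) :
    (m : ℝ) ^ 2 * I (w * (esteP d (ψ - Zf g) * esteP d (ψ - Zf g))) ≤ 49 * c * S ^ 2 := by
  have a1 : esteP d (ψ - Zf g) ∈ Zi m := by
    rw [mem_Zi, estey_P, map_add, map_mul, map_mul, h.al_zon, h.be_zon, ← D2_rotZ, ← L2_rotZ,
      mem_Zi.1 e.inv]
  have a2 : ∀ x, zav (esteP d (ψ - Zf g)) x = 0 := fun x => by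
    rw [estey_P, fnx_zav_add, h.al_zon.zav_mul, h.be_zon.zav_mul, zav_L2,
      zav_D2 (φ0 := 0) e.mean, map_zero]
    simp
  have a3 := poincare hm a1 a2 hw hW ((h.κ_zon.mul h.κ_zon).smul c)
  have a4 := pow_le_pow_left₀ (norm_nonneg _) hS 2
  have a5 : (0 : ℝ) < m := by exact_mod_cast hm
  have a6 : (2 * π) ^ 2 ≤ 49 := by nlinarith [pi_lt_d2, pi_pos]
  rw [smul_mul_assoc, map_smul, smul_eq_mul, mul_mul_mul_comm, ← norm_sq_eq] at a3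
  calc _ ≤ (m : ℝ) ^ 2 * ((2 * π / m) ^ 2 * (c * ‖d.κ * L 2 (esteP d (ψ - Zf g))‖ ^ 2)) := by gcongr
    _ = (2 * π) ^ 2 * c * ‖d.κ * L 2 (esteP d (ψ - Zf g))‖ ^ 2 := by field_simp
    _ ≤ _ := by gcongr

theorem estew_E (h : Loc k C0 τ C1 m d) (hk : 1 ≤ k) (e : EsteH d m Xv ψ g) (h0 : 1 ≤ C0)
    (h1 : 1 ≤ C1) (hδ : 0 < δ) (b : Fin 3) :
    ‖esteE d δ (1 / m) ψ g b‖ ≤ 5000 * C0 * C1 ^ 2 * (1 / m) := by
  obtain ⟨n0, nL, nD⟩ := estew_nrm (ψ - Zf g)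
  have sm := e.small
  have hu : (0 : ℝ) ≤ 1 / m := by positivity
  generalize (1 : ℝ) / m = u at *
  have mul : ∀ {a w : Sm} {A B : ℝ}, (∀ x, |a x| ≤ A) → ‖w‖ ≤ B → ‖a * w‖ ≤ A * B :=
    fun ha hw => (norm_mul_le ha _).trans
      (mul_le_mul_of_nonneg_left hw ((abs_nonneg _).trans (ha (nrmz 0))))
  have smu : ∀ {w : Sm} {B : ℝ}, ‖w‖ ≤ B → ‖u • w‖ ≤ u * B := fun hw => by
    rw [norm_smul, Real.norm_of_nonneg hu]; exact mul_le_mul_of_nonneg_left hw hu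
  have add : ∀ {v w : Sm} {A B : ℝ}, ‖v‖ ≤ A → ‖w‖ ≤ B → ‖v + w‖ ≤ A + B :=
    fun hv hw => (norm_add_le _ _).trans (add_le_add hv hw)
  have sub : ∀ {v w : Sm} {A B : ℝ}, ‖v‖ ≤ A → ‖w‖ ≤ B → ‖v - w‖ ≤ A + B :=
    fun hv hw => (norm_sub_le _ _).trans (add_le_add hv hw)
  have one : ∀ {v : Sm}, Cb k 1 C1 v → Cb 1 1 C1 v := fun hv => hv.mono zero_le_one hk le_rfl le_rfl
  have cw : ∀ c, Cb 1 1 (10 * C1) (d.w c) := fun c =>
    ((Cb.mul zero_le_one (one h.al_Cb) (Cb.D le_rfl (Cb_X le_rfl 2 2) c)).add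
      (Cb.mul zero_le_one (one h.be_Cb) ((Cb_X le_rfl 2 c).L 2))).mono zero_le_one le_rfl le_rfl
      (by norm_num; linarith)
  have cD : ∀ {v : Sm} {B : ℝ}, Cb 1 1 B v → ∀ x, |D b v x| ≤ 2 * B := fun hv x => by
    simpa using (Cb.D (k := 0) le_rfl hv b).abs_le x
  have p1 : ‖esteP d (ψ - Zf g)‖ ≤ C1 * (64 * u) + C1 * (64 * u) := by
    rw [estey_P]
    exact add (mul h.al_Cb.abs_le ((nD 2).trans sm)) (mul h.be_Cb.abs_le ((nL 2).trans sm))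
  have t1 := mul (cD (one h.κ_Cb)) (add (mul (estey_S d hδ) p1)
    (smu (mul (estey_J h hδ) (mul h.be_Cb.abs_le e.zb))))
  have p2 := fun c => mul (cD (cw c)) ((nD c).trans sm)
  have t2 := mul (estey_S d hδ) (sub (add (add (p2 0) (p2 1)) (p2 2))
    (mul (cw b).abs_le (n0.trans sm)))
  have t3 := smu (mul (estey_J h hδ) (sub (mul (cD (one h.be_Cb)) e.zb) (mul h.be_Cb.abs_le
    (mul (abs_X_le 2) (mul (cD (Cb_X le_rfl 1 2)) e.dop)))))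
  rw [esteE, esteF, Fin.sum_univ_three]
  refine (add t1 (mul (estew_k h) (add t2 t3))).trans ?_
  have a1 : 1 * (C1 ^ 2 * u) ≤ C0 * (C1 ^ 2 * u) := by gcongr
  have a2 : C0 * (C1 * u) ≤ C0 * (C1 ^ 2 * u) := by
    have := le_self_pow₀ h1 two_ne_zero
    gcongr
  have a3 : 0 ≤ C0 * (C1 ^ 2 * u) := by positivity
  linarith

end

end Pool.Agent.Lib.MP_2fa2a2_gt.PI
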