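import Pool.Agent.Lib.MP_2fa2a2_gt.PI.Circ

/-! The quadratic model and its trilinear form. -/

namespace Pool.Agent.Lib.MP_2fa2a2_gt.PI

open Real

theorem tau_gd_add (f g k : Sm) : gd (f + g) k = gd f k + gd g k := by
  simp only [gd, map_add, add_mul, Finset.sum_add_distrib]

theorem tau_gd_smul (c : ℝ) (f k : Sm) : gd (c • f) k = c • gd f k := by
  simp only [gd, map_smul, smul_mul_assoc, Finset.smul_sum]

theorem tau_gd_add' (f g k : Sm) : gd k (f + g) = gd k f + gd k g := by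
  simp only [gd, map_add, mul_add, Finset.sum_add_distrib]

theorem tau_gd_smul' (c : ℝ) (f k : Sm) : gd k (c • f) = c • gd k f := by
  simp only [gd, map_smul, mul_smul_comm, Finset.smul_sum]

/-- mean over the great circle `u ^ ⊥` of the product of the derivatives in the direction `u` -/
noncomputable def R2 (f g : Sm) : Sm := ∑ a, ∑ b, X a * X b * R (D a f * D b g)

/-- the symmetric bilinear map of the quadratic model -/
noncomputable def Bq : Sm →ₗ[ℝ] Sm →ₗ[ℝ] Sm :=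
  LinearMap.mk₂ ℝ (fun f g => R2 f g - 2 * gd (R f) (R g))
    (by
      intro f f' g
      simp only [R2, map_add, add_mul, mul_add, Finset.sum_add_distrib, tau_gd_add]
      ring)
    (by
      intro c f g
      simp only [R2, map_smul, smul_mul_assoc, mul_smul_comm, ← Finset.smul_sum, tau_gd_smul,
        smul_sub])
    (by
      intro f g g'
      simp only [R2, map_add, mul_add, Finset.sum_add_distrib, tau_gd_add']
      ring)
    (by
      intro c f g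
      simp only [R2, map_smul, mul_smul_comm, ← Finset.smul_sum, tau_gd_smul', smul_sub])

theorem Bq_def (f g : Sm) : Bq f g = R2 f g - 2 * gd (R f) (R g) := rfl

/-- the form `∫ e ∇ F ∇ G` -/
noncomputable def gam : Sm →ₗ[ℝ] Sm →ₗ[ℝ] Sm →ₗ[ℝ] ℝ where
  toFun e := LinearMap.mk₂ ℝ (fun F G => I (e * gd F G))
    (by intro f f' g; simp only [tau_gd_add, mul_add, map_add])
    (by intro c f g; simp only [tau_gd_smul, mul_smul_comm, map_smul])
    (by intro f g g'; simp only [tau_gd_add', mul_add, map_add])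
    (by intro c f g; simp only [tau_gd_smul', mul_smul_comm, map_smul])
  map_add' := by
    intro e e'
    ext F G
    simp only [LinearMap.mk₂_apply, LinearMap.add_apply, add_mul, map_add]
  map_smul' := by
    intro c e
    ext F G
    simp only [LinearMap.mk₂_apply, LinearMap.smul_apply, smul_mul_assoc, map_smul,
      RingHom.id_apply]

theorem gam_def (e F G : Sm) : gam e F G = I (e * gd F G) := rfl

/-- local part of the trilinear form, with the function to be tested in the last slot -/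
noncomputable def tb : Sm →ₗ[ℝ] Sm →ₗ[ℝ] Sm →ₗ[ℝ] ℝ :=
  LinearMap.mk₂ ℝ (fun f g => ((beta.flip f).flip g) ∘ₗ Dp)
    (by intro f f' g; ext y; simp)
    (by intro c f g; ext y; simp)
    (by intro f g g'; ext y; simp)
    (by intro c f g; ext y; simp)

/-- nonlocal part -/
noncomputable def tg : Sm →ₗ[ℝ] Sm →ₗ[ℝ] Sm →ₗ[ℝ] ℝ :=
  LinearMap.mk₂ ℝ (fun f g => ((gam.flip (R f)).flip (R g)) ∘ₗ Ri)
    (by intro f f' g; ext y; simp)
    (by intro c f g; ext y; simp)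
    (by intro f g g'; ext y; simp)
    (by intro c f g; ext y; simp)

/-- the trilinear form `tau f g y = ⟪Bq f g, Ri y⟫` for even `y` -/
noncomputable def tau : Sm →ₗ[ℝ] Sm →ₗ[ℝ] Sm →ₗ[ℝ] ℝ :=
  LinearMap.mk₂ ℝ (fun f g => tb f g - (2 : ℝ) • tg f g)
    (by intro f f' g; ext y; simp; ring)
    (by intro c f g; ext y; simp; ring)
    (by intro f g g'; ext y; simp; ring)
    (by intro c f g; ext y; simp; ring)

theorem tb_def (f g y : Sm) : tb f g y = beta (Dp y) f g := rfl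
theorem tg_def (f g y : Sm) : tg f g y = gam (Ri y) (R f) (R g) := rfl
theorem tau_def (f g y : Sm) : tau f g y = tb f g y - 2 * tg f g y := rfl

theorem tau_R_act (k : E3 ≃ₗᵢ[ℝ] E3) (φ : Sm) : R (act k φ) = act k (R φ) := fn_act _ k φ
theorem tau_Ri_act (k : E3 ≃ₗᵢ[ℝ] E3) (φ : Sm) : Ri (act k φ) = act k (Ri φ) := fn_act _ k φ
theorem tau_Dp_act (k : E3 ≃ₗᵢ[ℝ] E3) (φ : Sm) : Dp (act k φ) = act k (Dp φ) := fn_act _ k φ
theorem tau_R_L (c : Fin 3) (φ : Sm) : R (L c φ) = L c (R φ) := fn_L _ c φ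
theorem tau_Ri_L (c : Fin 3) (φ : Sm) : Ri (L c φ) = L c (Ri φ) := fn_L _ c φ
theorem tau_Dp_L (c : Fin 3) (φ : Sm) : Dp (L c φ) = L c (Dp φ) := fn_L _ c φ
theorem tau_inner_R (φ ψ : Sm) : inner ℝ (R φ) ψ = inner ℝ φ (R ψ) := inner_fn _ φ ψ
theorem tau_inner_Ri (φ ψ : Sm) : inner ℝ (Ri φ) ψ = inner ℝ φ (Ri ψ) := inner_fn _ φ ψ
theorem tau_ant_gd (f g : Sm) : ant (gd f g) = gd (ant f) (ant g) := (gd_act _ f g).symm
theorem tau_gd_zero (f : Sm) : gd f 0 = 0 := by simp [gd]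

theorem tau_R2_comm (f g : Sm) : R2 f g = R2 g f := by
  rw [R2, R2, Finset.sum_comm]
  simp only [mul_comm]

theorem Bq_comm (f g : Sm) : Bq f g = Bq g f := by
  rw [Bq_def, Bq_def, tau_R2_comm, gd_comm]
theorem Bq_mem_Ev (f g : Sm) : Bq f g ∈ Ev := by
  have h : ∀ φ, ant (R φ) = R φ := fun φ => mem_Ev.1 (R_mem_Ev φ)
  rw [mem_Ev, Bq_def, R2]
  simp only [map_sub, map_mul, map_sum, map_ofNat, ant_X, tau_ant_gd, h, neg_mul_neg]
theorem Bq_act (k : E3 ≃ₗᵢ[ℝ] E3) (f g : Sm) : Bq (act k f) (act k g) = act k (Bq f g) := by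
  have h : R2 (act k f) (act k g) = act k (R2 f g) := by
    simp only [R2, D_act, map_sum, map_mul, act_X, Finset.sum_mul, Finset.mul_sum, smul_mul_assoc,
      mul_smul_comm, map_smul, ← tau_R_act]
    simp only [Fin.sum_univ_three, smul_add, smul_smul]
    module
  rw [Bq_def, Bq_def, h, tau_R_act, tau_R_act, gd_act, map_sub, map_mul, map_ofNat]
theorem L_Bq (c : Fin 3) (f g : Sm) : L c (Bq f g) = Bq (L c f) g + Bq f (L c g) := by
  have h : L c (R2 f g) = R2 (L c f) g + R2 f (L c g) := by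
    simp only [R2, map_sum, L_mul, ← tau_R_L, L_X, L_D, map_add, add_mul, mul_add,
      Finset.sum_mul, Finset.mul_sum, smul_mul_assoc, mul_smul_comm, map_smul]
    fin_cases c <;> simp [Fin.sum_univ_three, ev] <;> ring
  have h2 : ∀ φ : Sm, L c (2 * φ) = 2 * L c φ := fun φ => by
    rw [two_mul, two_mul, map_add]
  rw [Bq_def, Bq_def, Bq_def, map_sub, h, h2, L_gd, tau_R_L, tau_R_L]
  ring
theorem Bq_Ev_Od {f g : Sm} (hf : f ∈ Ev) (hg : g ∈ Od) : Bq f g = 0 := by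
  have h : ∀ a b, R (D a f * D b g) = 0 := fun a b => R_of_Od (by
    rw [mem_Od, map_mul, ant_D, ant_D, mem_Ev.1 hf, mem_Od.1 hg, map_neg]
    ring)
  simp only [Bq_def, R2, h, R_of_Od hg, tau_gd_zero, mul_zero, Finset.sum_const_zero, sub_zero]
theorem tb_comm (f g y : Sm) : tb f g y = tb g f y := by
  rw [tb_def, tb_def, beta_comm]
theorem tg_comm (f g y : Sm) : tg f g y = tg g f y := by
  rw [tg_def, tg_def, gam_def, gam_def, gd_comm]
theorem tau_comm (f g y : Sm) : tau f g y = tau g f y := by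
  rw [tau_def, tau_def, tb_comm, tg_comm]
theorem inner_Bq (f g : Sm) {y : Sm} (hy : y ∈ Ev) : inner ℝ (Bq f g) (Ri y) = tau f g y := by
  have h : ∀ a b, inner ℝ (X a * X b * R (D a f * D b g)) (Ri y)
      = I (H a b (Dp y) * D a f * D b g) := fun a b => by
    rw [inner_mul, tau_inner_R, R_XX, R_Ri, evp_of_Ev hy, inner_def]
    congr 1
    ring
  rw [tau_def, tb_def, tg_def, gam_def, beta_def, Bq_def, inner_sub_left, R2, sum_inner]
  simp only [sum_inner, h, Hv, gr, map_sum]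
  rw [inner_def, two_mul, add_mul, map_add, mul_comm (Ri y)]
  ring
theorem tb_L (c : Fin 3) (f g y : Sm) :
    tb f g (L c y) + tb (L c f) g y + tb f (L c g) y = 0 := by
  rw [tb_def, tb_def, tb_def, tau_Dp_L]
  exact beta_L c _ f g
theorem tg_L (c : Fin 3) (f g y : Sm) :
    tg f g (L c y) + tg (L c f) g y + tg f (L c g) y = 0 := by
  have h := I_L c (Ri y * gd (R f) (R g))
  rw [L_mul, L_gd, mul_add, map_add, map_add] at h
  simp only [tg_def, gam_def, tau_Ri_L, tau_R_L]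
  linarith
theorem tau_act (k : E3 ≃ₗᵢ[ℝ] E3) (f g y : Sm) :
    tau (act k f) (act k g) (act k y) = tau f g y := by
  simp only [tau_def, tb_def, tg_def, gam_def, tau_Dp_act, tau_Ri_act, tau_R_act, beta_act, gd_act]
  rw [← map_mul, I_act]
theorem tb_Ev_Od {f g y : Sm} (hf : f ∈ Ev) (hg : g ∈ Od) (hy : y ∈ Ev) : tb f g y = 0 := by
  have h : ant (Dp y) = Dp y := mem_Ev.1 (fn_mem_Ev _ hy)
  rw [tb_def, beta_def]
  refine I_of_Od ?_
  rw [mem_Od]
  simp only [Hv, gr, map_sum, map_mul, ant_H, ant_D, h, mem_Ev.1 hf, mem_Od.1 hg, map_neg,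
    neg_neg, mul_neg, neg_mul, Finset.sum_neg_distrib]
theorem tg_Od {g : Sm} (hg : g ∈ Od) (f y : Sm) : tg f g y = 0 := by
  rw [tg_def, gam_def, R_of_Od hg, tau_gd_zero, mul_zero, map_zero]

theorem tau_cav_mul (r : ℝ) (F : S2 → ℝ) (e1 e2 : E3) :
    cav (fun x => r * F x) e1 e2 = r * cav F e1 e2 := by
  simp only [cav, intervalIntegral.integral_const_mul]
  ring

theorem tau_cav_congr {F G : S2 → ℝ} {e1 e2 : E3}
    (h : ∀ τ, F (circ e1 e2 τ) = G (circ e1 e2 τ)) : cav F e1 e2 = cav G e1 e2 := by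
  simp only [cav, h]

theorem tau_inner (v w : E3) : inner ℝ v w = v 0 * w 0 + v 1 * w 1 + v 2 * w 2 := by
  rw [EuclideanSpace.inner_eq_star_dotProduct]
  simp [dotProduct, Fin.sum_univ_three, mul_comm]

theorem tau_frame {u0 u1 u2 p0 p1 p2 q0 q1 q2 : ℝ} (hu : u0 * u0 + u1 * u1 + u2 * u2 = 1)
    (hp : p0 * p0 + p1 * p1 + p2 * p2 = 1) (hq : q0 * q0 + q1 * q1 + q2 * q2 = 1)
    (hpq : p0 * q0 + p1 * q1 + p2 * q2 = 0) (hup : u0 * p0 + u1 * p1 + u2 * p2 = 0)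
    (huq : u0 * q0 + u1 * q1 + u2 * q2 = 0) :
    ∃ ε : ℝ, ε * ε = 1 ∧ p1 * q2 - p2 * q1 = ε * u0 ∧ p2 * q0 - p0 * q2 = ε * u1 ∧
      p0 * q1 - p1 * q0 = ε * u2 ∧ ∀ v0 v1 v2 w0 w1 w2 : ℝ, v0 * w0 + v1 * w1 + v2 * w2 =
        (u0 * v0 + u1 * v1 + u2 * v2) * (u0 * w0 + u1 * w1 + u2 * w2)
        + (p0 * v0 + p1 * v1 + p2 * v2) * (p0 * w0 + p1 * w1 + p2 * w2)
        + (q0 * v0 + q1 * v1 + q2 * v2) * (q0 * w0 + q1 * w1 + q2 * w2) := by
  have hM : (!![u0, u1, u2; p0, p1, p2; q0, q1, q2] : Matrix (Fin 3) (Fin 3) ℝ) *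
      !![u0, p0, q0; u1, p1, q1; u2, p2, q2] = 1 := by
    ext i j
    fin_cases i <;> fin_cases j <;> simp [Matrix.mul_apply, Fin.sum_univ_three] <;> linarith
  have hN := mul_eq_one_comm.1 hM
  have e := fun i j => congrFun (congrFun hN i) j
  have e00 := e 0 0
  have e01 := e 0 1
  have e02 := e 0 2
  have e11 := e 1 1
  have e12 := e 1 2
  have e22 := e 2 2
  simp [Matrix.mul_apply, Fin.sum_univ_three] at e00 e01 e02 e11 e12 e22
  refine ⟨u0 * (p1 * q2 - p2 * q1) + u1 * (p2 * q0 - p0 * q2) + u2 * (p0 * q1 - p1 * q0),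
    ?_, ?_, ?_, ?_, fun v0 v1 v2 w0 w1 w2 => ?_⟩
  · have g : ∀ a b c d e f : ℝ, u0 * u0 + u1 * u1 + u2 * u2 = a → p0 * p0 + p1 * p1 + p2 * p2 = b →
        q0 * q0 + q1 * q1 + q2 * q2 = c → p0 * q0 + p1 * q1 + p2 * q2 = d →
        u0 * p0 + u1 * p1 + u2 * p2 = e → u0 * q0 + u1 * q1 + u2 * q2 = f →
        (u0 * (p1 * q2 - p2 * q1) + u1 * (p2 * q0 - p0 * q2) + u2 * (p0 * q1 - p1 * q0)) *
        (u0 * (p1 * q2 - p2 * q1) + u1 * (p2 * q0 - p0 * q2) + u2 * (p0 * q1 - p1 * q0)) =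
        a * (b * c - d * d) - e * (e * c - d * f) + f * (e * d - b * f) := by
      rintro _ _ _ _ _ _ rfl rfl rfl rfl rfl rfl
      ring
    rw [g _ _ _ _ _ _ hu hp hq hpq hup huq]
    norm_num
  · linear_combination -(p1 * q2 - p2 * q1) * e00 - (p2 * q0 - p0 * q2) * e01
      - (p0 * q1 - p1 * q0) * e02
  · linear_combination -(p1 * q2 - p2 * q1) * e01 - (p2 * q0 - p0 * q2) * e11
      - (p0 * q1 - p1 * q0) * e12
  · linear_combination -(p1 * q2 - p2 * q1) * e02 - (p2 * q0 - p0 * q2) * e12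
      - (p0 * q1 - p1 * q0) * e22
  · linear_combination -(v0 * w0) * e00 - (v1 * w1) * e11 - (v2 * w2) * e22
      - (v0 * w1 + v1 * w0) * e01 - (v0 * w2 + v2 * w0) * e02 - (v1 * w2 + v2 * w1) * e12

theorem tau_L_dir {u : S2} {e1 e2 : E3} (h : Fr u e1 e2) (p : E3) (φ : Sm) :
    p 0 * L 0 (R φ) u + p 1 * L 1 (R φ) u + p 2 * L 2 (R φ) u
      = cav (fun x => p 0 * ((x : E3) 1 * D 2 φ x - (x : E3) 2 * D 1 φ x)
          + p 1 * ((x : E3) 2 * D 0 φ x - (x : E3) 0 * D 2 φ x)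
          + p 2 * ((x : E3) 0 * D 1 φ x - (x : E3) 1 * D 0 φ x)) e1 e2 := by
  have e := R_apply h (p 0 • L 0 φ + p 1 • L 1 φ + p 2 • L 2 φ)
  simp only [map_add, map_smul, tau_R_L, Sm.add_apply, Sm.smul_apply] at e
  rw [e]
  refine tau_cav_congr fun τ => ?_
  rw [L_eq_D 0, L_eq_D 1, L_eq_D 2]
  rfl

/-- circle formula for the quadratic model -/
theorem Bq_apply {u : S2} {e1 e2 : E3} (h : Fr u e1 e2) (f g : Sm) :
    Bq f g u
      = cav (fun x => (∑ a, (u : E3) a * D a f x) * ∑ a, (u : E3) a * D a g x) e1 e2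
        - 2 * (cav (fun x => inner ℝ e1 (x : E3) * ∑ a, (u : E3) a * D a f x) e1 e2
              * cav (fun x => inner ℝ e1 (x : E3) * ∑ a, (u : E3) a * D a g x) e1 e2
            + cav (fun x => inner ℝ e2 (x : E3) * ∑ a, (u : E3) a * D a f x) e1 e2
              * cav (fun x => inner ℝ e2 (x : E3) * ∑ a, (u : E3) a * D a g x) e1 e2) := by
  have n1 : inner ℝ e1 e1 = (1 : ℝ) := by rw [real_inner_self_eq_norm_sq, h.n1, one_pow]
  have n2 : inner ℝ e2 e2 = (1 : ℝ) := by rw [real_inner_self_eq_norm_sq, h.n2, one_pow]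
  have o12 := h.o12
  have o1 := h.o1
  have o2 := h.o2
  rw [tau_inner] at n1 n2 o12 o1 o2
  obtain ⟨ε, hε, c0, c1, c2, hfr⟩ := tau_frame (base_sum_sq u) n1 n2 o12 o1 o2
  have k0 : ∀ φ : Sm, (u : E3) 0 * L 0 φ u + (u : E3) 1 * L 1 φ u + (u : E3) 2 * L 2 φ u = 0 :=
    fun φ => by
      have e := congrArg (fun ψ : Sm => ψ u) (sum_X_L φ)
      simpa [Fin.sum_univ_three] using e
  have k1 : ∀ φ : Sm, e1 0 * L 0 (R φ) u + e1 1 * L 1 (R φ) u + e1 2 * L 2 (R φ) u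
      = ε * cav (fun x => inner ℝ e2 (x : E3) * ∑ a, (u : E3) a * D a φ x) e1 e2 := fun φ => by
    rw [tau_L_dir h, ← tau_cav_mul]
    refine tau_cav_congr fun τ => ?_
    simp only [tau_inner, circ_coe h, Fin.sum_univ_three, PiLp.add_apply, PiLp.smul_apply,
      smul_eq_mul]
    linear_combination sin τ * (D 0 φ (circ e1 e2 τ) * c0 + D 1 φ (circ e1 e2 τ) * c1
      + D 2 φ (circ e1 e2 τ) * c2) - ε * ((u : E3) 0 * D 0 φ (circ e1 e2 τ)
      + (u : E3) 1 * D 1 φ (circ e1 e2 τ) + (u : E3) 2 * D 2 φ (circ e1 e2 τ))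
      * (sin τ * n2 + cos τ * o12)
  have k2 : ∀ φ : Sm, e2 0 * L 0 (R φ) u + e2 1 * L 1 (R φ) u + e2 2 * L 2 (R φ) u
      = -ε * cav (fun x => inner ℝ e1 (x : E3) * ∑ a, (u : E3) a * D a φ x) e1 e2 := fun φ => by
    rw [tau_L_dir h, ← tau_cav_mul]
    refine tau_cav_congr fun τ => ?_
    simp only [tau_inner, circ_coe h, Fin.sum_univ_three, PiLp.add_apply, PiLp.smul_apply,
      smul_eq_mul]
    linear_combination -cos τ * (D 0 φ (circ e1 e2 τ) * c0 + D 1 φ (circ e1 e2 τ) * c1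
      + D 2 φ (circ e1 e2 τ) * c2) + ε * ((u : E3) 0 * D 0 φ (circ e1 e2 τ)
      + (u : E3) 1 * D 1 φ (circ e1 e2 τ) + (u : E3) 2 * D 2 φ (circ e1 e2 τ))
      * (cos τ * n1 + sin τ * o12)
  have h1 : R2 f g u
      = cav (fun x => (∑ a, (u : E3) a * D a f x) * ∑ a, (u : E3) a * D a g x) e1 e2 := by
    have e := R_apply h (∑ a, ∑ b, ((u : E3) a * (u : E3) b) • (D a f * D b g))
    simp only [map_sum, map_smul, Sm.sum_apply, Sm.smul_apply] at e
    simp only [R2, Sm.sum_apply, Sm.mul_apply, X_apply]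
    rw [e]
    refine tau_cav_congr fun τ => ?_
    simp only [Fin.sum_univ_three, Sm.add_apply, Sm.smul_apply, Sm.mul_apply]
    ring
  have h2 := hfr (L 0 (R f) u) (L 1 (R f) u) (L 2 (R f) u) (L 0 (R g) u) (L 1 (R g) u)
    (L 2 (R g) u)
  rw [k0, k1, k1, k2, k2] at h2
  have two : (2 : Sm) u = 2 := rfl
  simp only [Bq_def, Sm.sub_apply, Sm.mul_apply, two, h1, gd, Fin.sum_univ_three
    (f := fun a => L a (R f) * L a (R g)), Sm.add_apply, h2]
  linear_combination (-2 * (cav (fun x => inner ℝ e1 (x : E3) * ∑ a, (u : E3) a * D a f x) e1 e2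
              * cav (fun x => inner ℝ e1 (x : E3) * ∑ a, (u : E3) a * D a g x) e1 e2
            + cav (fun x => inner ℝ e2 (x : E3) * ∑ a, (u : E3) a * D a f x) e1 e2
              * cav (fun x => inner ℝ e2 (x : E3) * ∑ a, (u : E3) a * D a g x) e1 e2)) * hε

/-- pointwise and `L2` bounds for the local part -/
theorem abs_Hv_le (ψ : Sm) (U V : Fin 3 → Sm) (x : S2) :
    Hv ψ U V x ^ 2 ≤ Hn ψ x * (∑ a, U a x ^ 2) * ∑ a, V a x ^ 2 := by
  have h := Finset.sum_mul_sq_le_sq_mul_sq (Finset.univ : Finset (Fin 3 × Fin 3))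
    (fun p => H p.1 p.2 ψ x) (fun p => U p.1 x * V p.2 x)
  simp only [Fintype.sum_prod_type] at h
  simp only [Hv, Hn, Sm.sum_apply, Sm.mul_apply]
  simp only [Fin.sum_univ_three] at h ⊢
  calc _ = _ := by ring
    _ ≤ _ := h
    _ = _ := by ring

theorem tau_three {a b c x y z P Q : ℝ} (hP : 0 ≤ P) (hQ : 0 ≤ Q)
    (h1 : a ^ 2 + b ^ 2 + c ^ 2 ≤ P ^ 2) (h2 : x ^ 2 + y ^ 2 + z ^ 2 ≤ Q ^ 2) :
    a * x + b * y + c * z ≤ P * Q := by
  refine abs_le_of_sq_le_sq' ?_ (mul_nonneg hP hQ) |>.2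
  have h3 : (a * x + b * y + c * z) ^ 2 ≤ (a ^ 2 + b ^ 2 + c ^ 2) * (x ^ 2 + y ^ 2 + z ^ 2) := by
    nlinarith [sq_nonneg (a * y - b * x), sq_nonneg (a * z - c * x), sq_nonneg (b * z - c * y)]
  rw [mul_pow]
  exact h3.trans (mul_le_mul h1 h2 (by positivity) (by positivity))

theorem tau_sum_D_sq (g : Sm) : ‖D 0 g‖ ^ 2 + ‖D 1 g‖ ^ 2 + ‖D 2 g‖ ^ 2 ≤ nrm 1 1 g ^ 2 := by
  have h := nrm_succ (lam := 1) le_rfl 0 g
  have e1 := gd_eq_D g g
  simp only [zero_add, nrm_zero le_rfl, Fin.sum_univ_three, gd] at h e1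
  have e2 := congrArg I e1
  simp only [map_add, ← norm_sq_eq] at e2
  nlinarith [sq_nonneg ‖g‖]

theorem abs_tb_le {f : Sm} {B : ℝ} (hf : ∀ a x, |L a f x| ≤ B) (g y : Sm) :
    |tb f g y| ≤ 3 * B * nrm 1 1 g * ‖y‖ := by
  have hB : 0 ≤ B := (abs_nonneg _).trans (hf 0 (nrmz 0))
  set ψ := Dp y with hψ
  set W : Fin 3 → Sm := fun b => ∑ a, H a b ψ * D a f with hW
  have e : tb f g y = I (W 0 * D 0 g) + I (W 1 * D 1 g) + I (W 2 * D 2 g) := by
    rw [tb_def, beta_def, ← map_add, ← map_add]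
    congr 1
    simp only [Hv, gr, hW, Fin.sum_univ_three]
    ring
  have hD : ∀ x, D 0 f x ^ 2 + D 1 f x ^ 2 + D 2 f x ^ 2 ≤ 3 * B ^ 2 := fun x => by
    have e1 := congrArg (fun φ : Sm => φ x) (gd_eq_D f f)
    simp only [gd, Fin.sum_univ_three, Sm.add_apply, Sm.mul_apply] at e1
    have k := fun a => sq_le_sq' (neg_le_of_abs_le (hf a x)) (le_of_abs_le (hf a x))
    nlinarith [k 0, k 1, k 2]
  have hW2 : ‖W 0‖ ^ 2 + ‖W 1‖ ^ 2 + ‖W 2‖ ^ 2 ≤ (3 * B * ‖y‖) ^ 2 := by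
    have h1 : I (W 0 * W 0 + W 1 * W 1 + W 2 * W 2) ≤ I ((3 * B ^ 2) • Hn ψ) := by
      refine I_mono fun x => ?_
      simp only [hW, Hn, Fin.sum_univ_three, Sm.add_apply, Sm.mul_apply, Sm.smul_apply]
      have k : ∀ a b c : ℝ, (a * D 0 f x + b * D 1 f x + c * D 2 f x) *
          (a * D 0 f x + b * D 1 f x + c * D 2 f x) ≤ 3 * B ^ 2 * (a * a + b * b + c * c) :=
        fun a b c => by
          have k1 : 0 ≤ a * a + b * b + c * c := by nlinarith [sq_nonneg a, sq_nonneg b, sq_nonneg c]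
          nlinarith [mul_le_mul_of_nonneg_right (hD x) k1, sq_nonneg (a * D 1 f x - b * D 0 f x),
            sq_nonneg (a * D 2 f x - c * D 0 f x), sq_nonneg (b * D 2 f x - c * D 1 f x)]
      linarith [k (H 0 0 ψ x) (H 1 0 ψ x) (H 2 0 ψ x), k (H 0 1 ψ x) (H 1 1 ψ x) (H 2 1 ψ x),
        k (H 0 2 ψ x) (H 1 2 ψ x) (H 2 2 ψ x)]
    simp only [map_add, ← norm_sq_eq, map_smul, smul_eq_mul] at h1
    have h2 := mul_le_mul_of_nonneg_left (I_Hn_Dp y) (by positivity : 0 ≤ 3 * B ^ 2)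
    nlinarith [mul_nonneg (sq_nonneg B) (sq_nonneg ‖y‖)]
  have h3 := tau_three (by positivity) (nrm_nonneg 1 1 g) hW2 (tau_sum_D_sq g)
  rw [e]
  have k := fun b => abs_I_mul_le (W b) (D b g)
  calc _ ≤ _ := abs_add_three _ _ _
    _ ≤ 3 * B * ‖y‖ * nrm 1 1 g := by linarith [k 0, k 1, k 2]
    _ = _ := by ring

/-- bound for the nonlocal part at frequency `lam` -/
theorem abs_gam_le : ∃ C, 0 ≤ C ∧ ∀ {lam B : ℝ} {v : Sm} (c : Fin 3) (g y : Sm), 1 ≤ lam →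
    Cb 1 lam B v → |I (Ri y * (v * L c (R g)))| ≤ C * B * nrm lam 1 g * ‖y‖ := by
  obtain ⟨C, hC, h⟩ := Bd_ml 1
  refine ⟨4 * C, by positivity, fun {lam B v} c g y hl hv => ?_⟩
  have hB := hv.nonneg
  have h1 := Bd_Ri hl 0 (v * L c (R g))
  have h2 := h 1 hl hv (by norm_num) (L c (R g))
  have h3 := Bd_L_R hl (1 / 2) c g
  rw [nrm_zero hl, zero_add] at h1
  simp only [Int.cast_one, LinearMap.mulLeft_apply, LinearMap.comp_apply] at h2 h3
  rw [show (1 / 2 + 1 / 2 : ℝ) = 1 by norm_num] at h3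
  rw [← inner_def, tau_inner_Ri]
  have h4 := mul_le_mul_of_nonneg_left h3 (mul_nonneg hC hB)
  calc _ ≤ ‖y‖ * ‖Ri (v * L c (R g))‖ := abs_real_inner_le_norm _ _
    _ ≤ ‖y‖ * (4 * C * B * nrm lam 1 g) :=
        mul_le_mul_of_nonneg_left (by linarith) (norm_nonneg _)
    _ = _ := by ring

theorem tau_tg_eq (f g y : Sm) : tg f g y = I (Ri y * (L 0 (R f) * L 0 (R g)))
    + I (Ri y * (L 1 (R f) * L 1 (R g))) + I (Ri y * (L 2 (R f) * L 2 (R g))) := by
  simp only [tg_def, gam_def, gd, Fin.sum_univ_three, mul_add, map_add]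

theorem abs_tg_le : ∃ C, 0 ≤ C ∧ ∀ {lam B : ℝ} {f : Sm} (g y : Sm), 1 ≤ lam →
    (∀ c, Cb 1 lam B (L c (R f))) → |tg f g y| ≤ C * B * nrm lam 1 g * ‖y‖ := by
  obtain ⟨C, hC, h⟩ := abs_gam_le
  refine ⟨3 * C, by positivity, fun {lam B f} g y hl hf => ?_⟩
  have k := fun c => h c g y hl (hf c)
  rw [tau_tg_eq]
  refine (abs_add_three _ _ _).trans ?_
  linarith [k 0, k 1, k 2]

theorem tau_abs_le (f g y : Sm) : |tau f g y| ≤ |tb f g y| + 2 * |tg f g y| := by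
  rw [tau_def]
  refine (abs_sub _ _).trans (le_of_eq ?_)
  rw [abs_mul, abs_two]

theorem tau_sob : ∃ C, 0 ≤ C ∧ ∀ (k : ℕ) (s : ℝ) (f : Sm), k + 3 ≤ s →
    Cb k 1 (C * nrm 1 s f) f ∧ Cb k 1 (C * nrm 1 s f) (R f) := by
  obtain ⟨C, hC, h⟩ := sobolev
  refine ⟨C, hC, fun k s f hs => ⟨(h k f).mono zero_le_one le_rfl le_rfl ?_,
    (h k (R f)).mono zero_le_one le_rfl le_rfl ?_⟩⟩
  · exact mul_le_mul_of_nonneg_left (nrm_mono le_rfl hs f) hC
  · have h1 := Bd_R (lam := 1) le_rfl (k + 3) f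
    rw [one_mul] at h1
    exact mul_le_mul_of_nonneg_left (h1.trans (nrm_mono le_rfl hs f)) hC

theorem abs_tau_le : ∃ C, 0 ≤ C ∧ ∀ f g y : Sm,
    |tau f g y| ≤ C * nrm 1 5 f * nrm 1 1 g * ‖y‖ := by
  obtain ⟨C, hC, h⟩ := tau_sob
  obtain ⟨C', hC', h'⟩ := abs_tg_le
  refine ⟨3 * C + 2 * (C' * C), by positivity, fun f g y => ?_⟩
  obtain ⟨h1, h2⟩ := h 2 5 f (by norm_num)
  have k1 := abs_tb_le (f := f) (B := C * nrm 1 5 f)
    (fun a x => by simpa using (h1.L a).abs_le x) g y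
  have k2 := h' (f := f) (B := C * nrm 1 5 f) g y le_rfl (fun c => by simpa using h2.L c)
  have k3 := tau_abs_le f g y
  linarith

theorem tau_tb_dual : ∃ C, 0 ≤ C ∧ ∀ {B : ℝ} {f : Sm} (g y : Sm), Cb 3 1 B f →
    |tb f g y| ≤ C * B * nrm 1 (-1) g * nrm 1 2 y := by
  obtain ⟨Cm, hCm, hm⟩ := Bd_ml 1
  obtain ⟨CH, hCH, hH⟩ := Bd_H 2
  obtain ⟨CP, hCP, hP⟩ := Bd_P 1 2 2
  refine ⟨3 * (Cm * (1 + CP)) + 9 * (Cm * 32 * (CH * 2)), by positivity,
    fun {B f} g y hf => ?_⟩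
  have hB := hf.nonneg
  have hy := nrm_nonneg 1 2 y
  have m1 : ∀ {A : ℝ} {v : Sm} (w : Sm), Cb 1 1 A v → nrm 1 1 (v * w) ≤ Cm * A * nrm 1 1 w :=
    fun w hv => by simpa using hm 2 le_rfl hv (by norm_num) w
  have t1 : ∀ c, nrm 1 1 (L c f * L c (Dop (Dp y))) ≤ Cm * (1 + CP) * B * nrm 1 2 y := fun c => by
    have a1 : Cb 1 1 B (L c f) := by
      simpa using ((hf.mono zero_le_one (by norm_num) le_rfl le_rfl : Cb (1 + 1) 1 B f).L c)
    have a2 := nrm_L (lam := 1) le_rfl 1 c (Dop (Dp y))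
    have a3 := nrm_sub_le 1 2 y (P 1 y)
    have a4 := hP y
    rw [show (1 + 1 : ℝ) = 2 by norm_num] at a2
    rw [← Dop_Dp] at a3
    calc _ ≤ _ := m1 _ a1
      _ ≤ Cm * B * ((1 + CP) * nrm 1 2 y) :=
          mul_le_mul_of_nonneg_left (by linarith) (mul_nonneg hCm hB)
      _ = _ := by ring
  have t2 : ∀ a b, nrm 1 1 (H a b (Dp y) * D b (D a f))
      ≤ Cm * 32 * (CH * 2) * B * nrm 1 2 y := fun a b => by
    have a1 : Cb 1 1 (32 * B) (D b (D a f)) := by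
      have := Cb.D le_rfl (Cb.D (k := 2) le_rfl hf a) b
      convert this using 1
      ring
    have a2 := (hH a b le_rfl).1 (Dp y)
    have a3 := Bd_Dp 1 y
    have a4 := nrm_mono (lam := 1) le_rfl (by norm_num : (1 : ℝ) ≤ 2) y
    norm_num at a2 a3
    have a5 : nrm 1 1 (H a b (Dp y)) ≤ CH * (2 * nrm 1 2 y) :=
      a2.trans (mul_le_mul_of_nonneg_left (by linarith) hCH)
    rw [mul_comm]
    calc _ ≤ _ := m1 _ a1
      _ ≤ Cm * (32 * B) * (CH * (2 * nrm 1 2 y)) :=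
          mul_le_mul_of_nonneg_left a5 (by positivity)
      _ = _ := by ring
  have t3 : nrm 1 1 (gd f (Dop (Dp y)) + ∑ a, ∑ b, H a b (Dp y) * D b (D a f))
      ≤ (3 * (Cm * (1 + CP)) + 9 * (Cm * 32 * (CH * 2))) * B * nrm 1 2 y := by
    have a1 : nrm 1 1 (gd f (Dop (Dp y))) ≤ ∑ _c : Fin 3, Cm * (1 + CP) * B * nrm 1 2 y :=
      (nrm_sum_le _ _ _ _).trans (Finset.sum_le_sum fun c _ => t1 c)
    have a2 : nrm 1 1 (∑ a, ∑ b, H a b (Dp y) * D b (D a f))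
        ≤ ∑ _a : Fin 3, ∑ _b : Fin 3, Cm * 32 * (CH * 2) * B * nrm 1 2 y :=
      (nrm_sum_le _ _ _ _).trans (Finset.sum_le_sum fun a _ =>
        (nrm_sum_le _ _ _ _).trans (Finset.sum_le_sum fun b _ => t2 a b))
    simp only [Fin.sum_univ_three] at a1 a2 ⊢
    refine (nrm_add_le _ _ _ _).trans ?_
    linarith
  rw [tb_def, beta_eq, abs_neg, mul_comm g, ← inner_def]
  calc _ ≤ _ := abs_inner_le_nrm (lam := 1) le_rfl 1 _ _
    _ ≤ _ := mul_le_mul_of_nonneg_right t3 (nrm_nonneg _ _ _)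
    _ = _ := by ring

theorem tau_tg_dual : ∃ C, 0 ≤ C ∧ ∀ {B : ℝ} {f : Sm} (g y : Sm), Cb 3 1 B (R f) →
    |tg f g y| ≤ C * B * nrm 1 (-1) g * nrm 1 2 y := by
  obtain ⟨Cm, hCm, hm⟩ := Bd_ml 2
  refine ⟨3 * (4 * Cm), by positivity, fun {B f} g y hf => ?_⟩
  have hB := hf.nonneg
  have k : ∀ c, |I (Ri y * (L c (R f) * L c (R g)))|
      ≤ 4 * Cm * B * nrm 1 (-1) g * nrm 1 2 y := fun c => by
    have a1 : Cb 2 1 B (L c (R f)) := by simpa using Cb.L (k := 2) hf c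
    have a2 := hm 3 le_rfl a1 (by norm_num) (Ri y)
    have a3 := Bd_Ri (lam := 1) le_rfl (3 / 2) y
    have a4 := Bd_L_R (lam := 1) le_rfl (-(3 / 2)) c g
    rw [show (3 / 2 + 1 / 2 : ℝ) = 2 by norm_num] at a3
    rw [show (-(3 / 2) + 1 / 2 : ℝ) = -1 by norm_num] at a4
    simp only [Int.cast_ofNat, LinearMap.mulLeft_apply, LinearMap.comp_apply] at a2 a4
    have a5 : nrm 1 (3 / 2) (L c (R f) * Ri y) ≤ Cm * B * (2 * nrm 1 2 y) :=
      a2.trans (mul_le_mul_of_nonneg_left a3 (mul_nonneg hCm hB))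
    have hy := nrm_nonneg 1 2 y
    rw [← mul_assoc, mul_comm (Ri y), ← inner_def]
    calc _ ≤ _ := abs_inner_le_nrm (lam := 1) le_rfl (3 / 2) _ _
      _ ≤ _ := mul_le_mul a5 a4 (nrm_nonneg _ _ _) (by positivity)
      _ = _ := by ring
  rw [tau_tg_eq]
  refine (abs_add_three _ _ _).trans ?_
  linarith [k 0, k 1, k 2]

/-- the same form with all derivatives on `y` -/
theorem abs_tau_le' : ∃ C, 0 ≤ C ∧ ∀ f g y : Sm,
    |tau f g y| ≤ C * nrm 1 7 f * nrm 1 (-1) g * nrm 1 2 y := by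
  obtain ⟨C, hC, h⟩ := tau_sob
  obtain ⟨C1, hC1, h1⟩ := tau_tb_dual
  obtain ⟨C2, hC2, h2⟩ := tau_tg_dual
  refine ⟨C1 * C + 2 * (C2 * C), by positivity, fun f g y => ?_⟩
  obtain ⟨a1, a2⟩ := h 3 7 f (by norm_num)
  have k1 := h1 g y a1
  have k2 := h2 g y a2
  have k3 := tau_abs_le f g y
  linarith

theorem tau_I_sq {w : Sm} {A : ℝ} (h : ∀ x, |w x| ≤ A) (φ ψ : Sm) :
    |I (w * φ * ψ)| ≤ A * ‖φ‖ * ‖ψ‖ :=
  (abs_I_mul_le _ _).trans (mul_le_mul_of_nonneg_right (norm_mul_le h φ) (norm_nonneg _))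

/-- energy estimate: the top order part is skew up to a bounded term -/
theorem abs_tb_self : ∃ C, 0 ≤ C ∧ ∀ {B B' : ℝ} {f v : Sm} {y : Sm}, y ∈ Ev → Cb 2 1 B f →
    Cb 1 1 B' v → |tb f (v * y) y| ≤ C * B * B' * ‖y‖ ^ 2 := by
  refine ⟨3 + 9 * 16, by positivity, fun {B B' f v y} hy hf hv => ?_⟩
  have hB := hf.nonneg
  have hB' := hv.nonneg
  have t1 : ∀ c, |I (v * y * (L c f * L c y))| ≤ B * B' * ‖y‖ ^ 2 := fun c => by
    have a1 : Cb 1 1 B (L c f) := by simpa using Cb.L (k := 1) hf c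
    have a2 : Cb 0 1 B (L c (L c f)) := by simpa using Cb.L (k := 0) a1 c
    have a3 : Cb 0 1 B' (L c v) := by simpa using Cb.L (k := 0) hv c
    have a4 : ∀ x, |L c (v * L c f) x| ≤ 2 * (B * B') := fun x => by
      rw [L_mul, Sm.add_apply, Sm.mul_apply, Sm.mul_apply]
      refine (abs_add_le _ _).trans ?_
      rw [abs_mul, abs_mul]
      have b1 := mul_le_mul (a3.abs_le x) (a1.abs_le x) (abs_nonneg _) hB'
      have b2 := mul_le_mul (hv.abs_le x) (a2.abs_le x) (abs_nonneg _) hB'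
      linarith
    have a5 := tau_I_sq a4 y y
    have a6 := I_L c (v * L c f * y * y)
    have a7 : L c (v * L c f * y * y) = L c (v * L c f) * y * y
        + (v * y * (L c f * L c y) + v * y * (L c f * L c y)) := by
      rw [L_mul c _ y, L_mul c _ y]
      ring
    rw [a7, map_add, map_add] at a6
    rw [abs_le] at a5 ⊢
    constructor <;> nlinarith [a5.1, a5.2]
  have t2 : ∀ a b, |I (v * y * (H a b (Dp y) * D b (D a f)))| ≤ 16 * B * B' * ‖y‖ ^ 2 :=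
    fun a b => by
      have a1 : Cb 0 1 (8 * B) (D b (D a f)) := by
        have := Cb.D le_rfl (Cb.D (k := 1) le_rfl hf a) b
        convert this using 1
        ring
      have a2 : ∀ x, |(v * D b (D a f)) x| ≤ B' * (8 * B) := fun x => by
        rw [Sm.mul_apply, abs_mul]
        exact mul_le_mul (hv.abs_le x) (a1.abs_le x) (abs_nonneg _) hB'
      have a3 := tau_I_sq a2 y (H a b (Dp y))
      have a4 := mul_le_mul_of_nonneg_left (norm_H_Dp a b y)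
        (by positivity : 0 ≤ B' * (8 * B) * ‖y‖)
      rw [show v * y * (H a b (Dp y) * D b (D a f)) = v * D b (D a f) * y * H a b (Dp y) by ring]
      calc _ ≤ _ := a3.trans a4
        _ = _ := by ring
  rw [tb_def, beta_eq, abs_neg, Dop_Dp_Ev hy, mul_add, map_add, gd]
  simp only [Finset.mul_sum, map_sum]
  have a1 : |∑ c, I (v * y * (L c f * L c y))| ≤ ∑ _c : Fin 3, B * B' * ‖y‖ ^ 2 :=
    (Finset.abs_sum_le_sum_abs _ _).trans (Finset.sum_le_sum fun c _ => t1 c)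
  have a2 : |∑ a, ∑ b, I (v * y * (H a b (Dp y) * D b (D a f)))|
      ≤ ∑ _a : Fin 3, ∑ _b : Fin 3, 16 * B * B' * ‖y‖ ^ 2 :=
    (Finset.abs_sum_le_sum_abs _ _).trans (Finset.sum_le_sum fun a _ =>
      (Finset.abs_sum_le_sum_abs _ _).trans (Finset.sum_le_sum fun b _ => t2 a b))
  refine (abs_add_le _ _).trans ?_
  simp only [Finset.sum_const, Finset.card_univ, Fintype.card_fin, nsmul_eq_mul,
    Nat.cast_ofNat] at a1 a2
  linarith

end Pool.Agent.Lib.MP_2fa2a2_gt.PI
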