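import Pool.Agent.Lib.MP_2fa2a2_gt.PI.Cald
import Pool.Agent.Lib.MP_2fa2a2_gt.PI.Tau

/-! The positive commutator estimate in abstract form. -/

namespace Pool.Agent.Lib.MP_2fa2a2_gt.PI

/-- weighted product bound -/
theorem ests_w {p kb : Sm} {α β : ℝ} (hα : 0 ≤ α) (hβ : 0 ≤ β)
    (h : ∀ x, |p x| ≤ α * kb x + β) (Z : Sm) : ‖p * Z‖ ≤ α * ‖kb * Z‖ + β * ‖Z‖ := by
  have h1 : ‖p * Z‖ ≤ ‖α • (kb * Z) + β • Z‖ := norm_le_of_abs_le fun x => by
    have e : (α • (kb * Z) + β • Z) x = (α * kb x + β) * Z x := by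
      simp only [Sm.add_apply, Sm.smul_apply, Sm.mul_apply]; ring
    rw [e, Sm.mul_apply, abs_mul, abs_mul]
    exact mul_le_mul_of_nonneg_right ((h x).trans (le_abs_self _)) (abs_nonneg _)
  refine h1.trans ((norm_add_le _ _).trans_eq ?_)
  rw [norm_smul, norm_smul, Real.norm_of_nonneg hα, Real.norm_of_nonneg hβ]

theorem ests_abs_mul {a b A B : ℝ} (ha : |a| ≤ A) (hb : |b| ≤ B) : |a * b| ≤ A * B := by
  rw [abs_mul]
  exact mul_le_mul ha hb (abs_nonneg _) ((abs_nonneg _).trans ha)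

theorem ests_D_pt {F : Sm} {x : S2} {S : ℝ} (h : ∀ a, |L a F x| ≤ S) (a : Fin 3) :
    |D a F x| ≤ 2 * S := by
  rw [D_def, Sm.sub_apply, Sm.mul_apply, Sm.mul_apply]
  have h1 := ests_abs_mul (abs_X_le (a + 2) x) (h (a + 1))
  have h2 := ests_abs_mul (abs_X_le (a + 1) x) (h (a + 2))
  linarith [abs_sub (X (a + 2) x * L (a + 1) F x) (X (a + 1) x * L (a + 2) F x)]

theorem ests_DD_pt {F : Sm} {x : S2} {S1 S2 : ℝ} (h1 : ∀ a, |L a F x| ≤ S1)
    (h2 : ∀ a b, |L a (L b F) x| ≤ S2) (a b : Fin 3) : |D b (D a F) x| ≤ 4 * (S1 + S2) := by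
  have hX : ∀ c d, |L c (X d) x| ≤ 1 := fun c d => by
    simpa using ((Cb_X (lam := 1) le_rfl 1 d).L c).abs_le x
  have k : ∀ c d e, |L c (X d * L e F) x| ≤ S1 + S2 := fun c d e => by
    rw [L_mul, Sm.add_apply, Sm.mul_apply, Sm.mul_apply]
    have a1 := ests_abs_mul (hX c d) (h1 e)
    have a2 := ests_abs_mul (abs_X_le d x) (h2 c e)
    linarith [abs_add_le (L c (X d) x * L e F x) (X d x * L c (L e F) x)]
  refine (ests_D_pt (S := 2 * (S1 + S2)) (fun c => ?_) b).trans_eq (by ring)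
  rw [D_def, map_sub, Sm.sub_apply]
  linarith [k c (a + 2) (a + 1), k c (a + 1) (a + 2),
    abs_sub (L c (X (a + 2) * L (a + 1) F) x) (L c (X (a + 1) * L (a + 2) F) x)]

theorem ests_nine {T : Fin 3 → Fin 3 → ℝ} {Y : ℝ} (h : ∀ a b, |T a b| ≤ Y) :
    |∑ a, ∑ b, T a b| ≤ 9 * Y := by
  refine (Finset.abs_sum_le_sum_abs _ _).trans ((Finset.sum_le_sum fun a _ =>
    (Finset.abs_sum_le_sum_abs _ _).trans (Finset.sum_le_sum fun b _ => h a b)).trans_eq ?_)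
  simp only [Fin.sum_univ_three]
  ring

theorem ests_nine' {T : Fin 3 → Fin 3 → Sm} {Y : ℝ} (h : ∀ a b, ‖T a b‖ ≤ Y) :
    ‖∑ a, ∑ b, T a b‖ ≤ 9 * Y := by
  refine (norm_sum_le _ _).trans ((Finset.sum_le_sum fun a _ =>
    (norm_sum_le _ _).trans (Finset.sum_le_sum fun b _ => h a b)).trans_eq ?_)
  simp only [Fin.sum_univ_three]
  ring

theorem ests_I_le {u v : Sm} {A B : ℝ} (hu : ‖u‖ ≤ A) (hv : ‖v‖ ≤ B) : |I (u * v)| ≤ A * B :=
  (abs_I_mul_le u v).trans (mul_le_mul hu hv (norm_nonneg _) ((norm_nonneg _).trans hu))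

theorem ests_wH {p kb y : Sm} {α β Xv : ℝ} (hα : 0 ≤ α) (hβ : 0 ≤ β) (hy : ‖y‖ ≤ 1)
    (hX : ∀ a b, ‖kb * H a b (Dp y)‖ ≤ Xv) (h : ∀ x, |p x| ≤ α * kb x + β) (a b : Fin 3) :
    ‖p * H a b (Dp y)‖ ≤ α * Xv + 2 * β := by
  have h1 := ests_w hα hβ h (H a b (Dp y))
  have h2 := mul_le_mul_of_nonneg_left (hX a b) hα
  have h3 := mul_le_mul_of_nonneg_left ((norm_H_Dp a b y).trans
    (mul_le_mul_of_nonneg_left hy zero_le_two)) hβ
  linarith

/-- weighted bound for the local form -/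
theorem ests_tb {F g y kb : Sm} {α β Xv N : ℝ} (hα : 0 ≤ α) (hβ : 0 ≤ β) (hy : ‖y‖ ≤ 1)
    (hX : ∀ a b, ‖kb * H a b (Dp y)‖ ≤ Xv) (hF : ∀ a x, |L a F x| ≤ α * kb x + β)
    (hg : ∀ c, ‖L c g‖ ≤ N) : |tb F g y| ≤ 36 * (α * Xv + 2 * β) * N := by
  rw [tb_def, beta_def, Hv]
  simp only [map_sum, gr]
  refine (ests_nine (Y := (2 * α * Xv + 2 * (2 * β)) * (2 * N)) fun a b => ?_).trans_eq (by ring)
  rw [mul_comm (H a b (Dp y))]
  refine ests_I_le (ests_wH (by positivity) (by positivity) hy hX (fun x => ?_) a b) ?_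
  · exact (ests_D_pt (fun c => hF c x) a).trans_eq (by ring)
  · linarith [cald_norm_D b g, hg (b + 1), hg (b + 2)]

theorem ests_L_Hn (e : Fin 3) (ψ : Sm) :
    L e (Hn ψ) = 2 * ∑ a, ∑ b, H a b ψ * H a b (L e ψ) := by
  have h1 : Hn ψ = Dop ψ * Dop ψ - 2 * Qf ψ ψ := by rw [hess_two_Qf, Hn]; ring
  have h2 := hess_two_Qf ψ (L e ψ)
  rw [h1, map_sub, alg_L_two, L_mul, L_Qf, hess_L_Dop, Qf_comm (L e ψ) ψ]
  linear_combination (-2 : Sm) * h2

theorem ests_parts (η f g : Sm) : I (η * gd f g) = -I ((gd η f + η * lap f) * g) := by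
  have h1 := I_gd (η * g) f
  rw [gd_comm, gd_mul] at h1
  have h2 : (gd η f + η * lap f) * g = gd f η * g + η * g * lap f := by rw [gd_comm η f]; ring
  rw [h2, map_add]
  rw [map_add] at h1
  linarith

theorem ests_test (η ψ u : Sm) : I ((∑ a, ∑ b, Dp (Hs a b (η * H a b ψ))) * u)
    = ∑ a, ∑ b, I (η * H a b ψ * H a b (Dp u)) := by
  simp only [Finset.sum_mul, map_sum]
  refine Finset.sum_congr rfl fun a _ => Finset.sum_congr rfl fun b _ => ?_
  rw [← inner_def, Dp, inner_fn, real_inner_comm, ← inner_H, inner_def, mul_comm]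

/-- the weighted Calderon commutator -/
theorem ests_comm : ∃ C, 0 ≤ C ∧ ∀ {κ kb v y : Sm} {K A m Xv : ℝ} (a b e : Fin 3), 1 ≤ m →
    1 ≤ K → ‖y‖ ≤ 1 → (∀ x, |κ x| ≤ kb x) → (∀ x, |κ x| ≤ K) → Cb 2 1 A κ →
    ‖kb * y‖ ≤ Xv → Cb 2 m K v → (∀ x, |L e v x| ≤ K * m * kb x + A) →
    ‖κ * (v * H a b (Dp (L e y)) - H a b (Dp (v * L e y)))‖ ≤ C * K ^ 2 * (m * Xv + A) := by
  obtain ⟨C, hC, hc⟩ := calderon
  refine ⟨3 * C + 8, by positivity, fun {κ kb v y K A m Xv} a b e hm hK hy h1 h2 h3 h4 h5 h6 => ?_⟩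
  have hA := h3.nonneg
  have hX : 0 ≤ Xv := (norm_nonneg _).trans h4
  have hv : ∀ x, |v x| ≤ K := h5.abs_le
  have hL : ∀ x, |L e κ x| ≤ A := fun x => by simpa using (h3.L e).abs_le x
  have id : κ * (v * H a b (Dp (L e y)) - H a b (Dp (v * L e y)))
      = (v * H a b (Dp (L e (κ * y))) - H a b (Dp (v * L e (κ * y))))
        + v * (κ * H a b (Dp (L e y)) - H a b (Dp (κ * L e y)))
        - v * H a b (Dp (L e κ * y))
        - (κ * H a b (Dp (L e (v * y))) - H a b (Dp (κ * L e (v * y))))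
        + κ * H a b (Dp (L e v * y)) - H a b (Dp (κ * (L e v * y)))
        + H a b (Dp (v * (L e κ * y))) := by
    have e1 : κ * (v * L e y) = v * (κ * L e y) := by ring
    simp only [L_mul, mul_add, map_add, e1]
    ring
  have n1 : ‖κ * y‖ ≤ Xv := by
    have := ests_w zero_le_one le_rfl (p := κ) (kb := kb) (fun x => by simpa using h1 x) y
    linarith
  have n2 : ‖L e κ * y‖ ≤ A := (norm_mul_le hL y).trans (mul_le_of_le_one_right hA hy)
  have n3 : ‖v * y‖ ≤ K := (norm_mul_le hv y).trans (mul_le_of_le_one_right (by linarith) hy)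
  have n4 : ‖L e v * y‖ ≤ K * (m * Xv + A) := by
    have k1 := ests_w (by positivity) hA h6 y
    have k2 := mul_le_mul_of_nonneg_left h4 (by positivity : 0 ≤ K * m)
    have k3 := mul_le_of_le_one_right hA hy
    nlinarith
  have t1 := (hc a b e (κ * y) hm h5).trans (mul_le_mul_of_nonneg_left n1 (by positivity))
  have t2 := (norm_mul_le hv _).trans (mul_le_mul_of_nonneg_left ((hc a b e y le_rfl h3).trans
    (mul_le_of_le_one_right (by positivity) hy)) (by positivity))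
  have t3 := (norm_mul_le hv _).trans (mul_le_mul_of_nonneg_left
    ((norm_H_Dp a b (L e κ * y)).trans (mul_le_mul_of_nonneg_left n2 zero_le_two)) (by positivity))
  have t4 := (hc a b e (v * y) le_rfl h3).trans (mul_le_mul_of_nonneg_left n3 (by positivity))
  have t5 := (norm_mul_le h2 _).trans (mul_le_mul_of_nonneg_left
    ((norm_H_Dp a b (L e v * y)).trans (mul_le_mul_of_nonneg_left n4 zero_le_two)) (by positivity))
  have t6 := (norm_H_Dp a b (κ * (L e v * y))).trans (mul_le_mul_of_nonneg_left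
    ((norm_mul_le h2 _).trans (mul_le_mul_of_nonneg_left n4 (by positivity))) zero_le_two)
  have t7 := (norm_H_Dp a b (v * (L e κ * y))).trans (mul_le_mul_of_nonneg_left
    ((norm_mul_le hv _).trans (mul_le_mul_of_nonneg_left n2 (by positivity))) zero_le_two)
  rw [id]
  have tri : ∀ u1 u2 u3 u4 u5 u6 u7 : Sm, ‖u1 + u2 - u3 - u4 + u5 - u6 + u7‖
      ≤ ‖u1‖ + ‖u2‖ + ‖u3‖ + ‖u4‖ + ‖u5‖ + ‖u6‖ + ‖u7‖ := fun u1 u2 u3 u4 u5 u6 u7 => by
    linarith [norm_add_le (u1 + u2 - u3 - u4 + u5 - u6) u7, norm_sub_le (u1 + u2 - u3 - u4 + u5) u6,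
      norm_add_le (u1 + u2 - u3 - u4) u5, norm_sub_le (u1 + u2 - u3) u4, norm_sub_le (u1 + u2) u3,
      norm_add_le u1 u2]
  refine (tri _ _ _ _ _ _ _).trans ?_
  have hK2 : K ≤ K ^ 2 := by nlinarith
  have p1 : 0 ≤ m * Xv := by positivity
  have q1 := mul_le_mul_of_nonneg_right hK2 p1
  have q2 := mul_le_mul_of_nonneg_right hK2 hA
  have q3 := mul_le_mul_of_nonneg_left q1 hC
  have q4 := mul_le_mul_of_nonneg_left q2 hC
  have q5 : 0 ≤ K ^ 2 * (m * Xv) := by positivity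
  have q6 : 0 ≤ C * (K ^ 2 * (m * Xv)) := by positivity
  have q7 : 0 ≤ C * (K ^ 2 * A) := by positivity
  nlinarith

theorem ests_wHn {κ p kb y : Sm} {α β Xv : ℝ} (hα : 0 ≤ α) (hβ : 0 ≤ β) (hy : ‖y‖ ≤ 1)
    (h1 : ∀ x, |κ x| ≤ kb x) (hX : ∀ a b, ‖kb * H a b (Dp y)‖ ≤ Xv)
    (h : ∀ x, |p x| ≤ α * kb x + β) :
    |I (κ * p * Hn (Dp y))| ≤ 9 * (Xv * (α * Xv + 2 * β)) := by
  rw [Hn]
  simp only [Finset.mul_sum, map_sum]
  refine ests_nine fun a b => ?_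
  rw [show κ * p * (H a b (Dp y) * H a b (Dp y)) = (κ * H a b (Dp y)) * (p * H a b (Dp y)) by ring]
  refine ests_I_le ?_ (ests_wH hα hβ hy hX h a b)
  have := ests_wH zero_le_one le_rfl hy hX (p := κ) (fun x => by simpa using h1 x) a b
  linarith

/-- the positive commutator identity -/
theorem ests_id (η f : Sm) {y : Sm} (hy : y ∈ Ev) :
    I ((gd η f + η * lap f) * Hn (Dp y))
      = 2 * tb f (∑ a, ∑ b, Dp (Hs a b (η * H a b (Dp y)))) y
        + 2 * I ((∑ a, ∑ b, Dp (Hs a b (η * H a b (Dp y))))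
          * ∑ a, ∑ b, H a b (Dp y) * D b (D a f))
        - 2 * ∑ e, ∑ a, ∑ b, I (η * H a b (Dp y)
          * (L e f * H a b (Dp (L e y)) - H a b (Dp (L e f * L e y)))) := by
  have h1 := ests_parts η f (Hn (Dp y))
  have h2 : I (η * gd f (Hn (Dp y)))
      = 2 * ∑ e, ∑ a, ∑ b, I (η * H a b (Dp y) * (L e f * H a b (Dp (L e y)))) := by
    rw [gd, Finset.mul_sum, map_sum, Finset.mul_sum]
    refine Finset.sum_congr rfl fun e _ => ?_
    rw [ests_L_Hn, tau_Dp_L]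
    simp only [← map_sum]
    rw [← alg_I_two]
    congr 1
    simp only [Fin.sum_univ_three]
    ring
  have h3 : I ((∑ a, ∑ b, Dp (Hs a b (η * H a b (Dp y)))) * gd f y)
      = ∑ e, ∑ a, ∑ b, I (η * H a b (Dp y) * H a b (Dp (L e f * L e y))) := by
    rw [gd, Finset.mul_sum, map_sum]
    exact Finset.sum_congr rfl fun e _ => ests_test _ _ _
  rw [tb_def, beta_eq, Dop_Dp_Ev hy, mul_add, map_add, h3]
  simp only [mul_sub, map_sub, Finset.sum_sub_distrib]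
  linarith

theorem ests_main : ∃ C, 0 ≤ C ∧ ∀ {κ kb c f y φ : Sm} {K A m Xv : ℝ}, 1 ≤ m → 1 ≤ K →
    y ∈ Ev → ‖y‖ ≤ 1 → (∀ x, |κ x| ≤ kb x) → (∀ x, |κ x| ≤ K) → Cb 2 1 A κ →
    (∀ x, |c x| ≤ 2) → (∀ a b, ‖kb * H a b (Dp y)‖ ≤ Xv) → (∀ e, Cb 2 m K (L e f)) →
    (∀ a b x, |L a (L b f) x| ≤ K * m * kb x + A) →
    φ = ∑ a, ∑ b, Dp (Hs a b (κ * κ * c * H a b (Dp y))) →
    ‖φ‖ ≤ 36 * K * Xv ∧ I (κ * κ * gd c f * Hn (Dp y))
      ≤ 2 * |tb f φ y| + C * K ^ 2 * (Xv * (m * Xv + (A + 1))) := by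
  obtain ⟨C, hC, hc⟩ := ests_comm
  refine ⟨108 * (3 * C) + 6000, by positivity,
    fun {κ kb c f y φ K A m Xv} hm hK hev hy h1 h2 h3 h4 hX h5 h6 hφ => ?_⟩
  have hA := h3.nonneg
  have hX0 : 0 ≤ Xv := (norm_nonneg _).trans (hX 0 0)
  have hkb : ∀ x, 0 ≤ kb x := fun x => (abs_nonneg _).trans (h1 x)
  have hv : ∀ e x, |L e f x| ≤ K := fun e => (h5 e).abs_le
  have hL : ∀ e x, |L e κ x| ≤ A := fun e x => by simpa using (h3.L e).abs_le x
  have hLL : ∀ e x, |L e (L e f) x| ≤ K * m := fun e x => ((h5 e).L e).abs_le x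
  have n1 : ∀ a b, ‖κ * c * H a b (Dp y)‖ ≤ 2 * Xv := fun a b => by
    have := ests_wH zero_le_two le_rfl hy hX (p := κ * c) (fun x => by
      rw [Sm.mul_apply]
      linarith [ests_abs_mul (h1 x) (h4 x)]) a b
    linarith
  have n2 : ‖φ‖ ≤ 36 * K * Xv := by
    rw [hφ]
    refine (ests_nine' (Y := 2 * (K * (2 * Xv))) fun a b => (norm_Dp_Hs a b _).trans
      (mul_le_mul_of_nonneg_left ?_ zero_le_two)).trans_eq (by ring)
    rw [mul_assoc κ κ, mul_assoc κ]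
    exact (norm_mul_le h2 _).trans (mul_le_mul_of_nonneg_left (n1 a b) (by positivity))
  refine ⟨n2, ?_⟩
  have n3 : ‖kb * y‖ ≤ 3 * Xv := by
    have e : kb * y = kb * H 0 0 (Dp y) + kb * H 1 1 (Dp y) + kb * H 2 2 (Dp y) := by
      have := H_trace (Dp y)
      rw [Dop_Dp_Ev hev, Fin.sum_univ_three] at this
      linear_combination (-kb) * this
    rw [e]
    linarith [norm_add₃_le (a := kb * H 0 0 (Dp y)) (b := kb * H 1 1 (Dp y))
      (c := kb * H 2 2 (Dp y)), hX 0 0, hX 1 1, hX 2 2]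
  have n4 : ‖∑ a, ∑ b, H a b (Dp y) * D b (D a f)‖
      ≤ 9 * (4 * (K * m) * Xv + 2 * (4 * (K + A))) := ests_nine' fun a b => by
    rw [mul_comm]
    refine ests_wH (by positivity) (by positivity) hy hX (fun x => ?_) a b
    exact (ests_DD_pt (fun c => hv c x) (fun c d => h6 c d x) a b).trans_eq (by ring)
  have t1 := ests_I_le n2 n4
  have t2 : ∑ _e : Fin 3, -(9 * (2 * Xv * (C * K ^ 2 * (m * (3 * Xv) + A))))
      ≤ ∑ e, ∑ a, ∑ b, I (κ * κ * c * H a b (Dp y)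
        * (L e f * H a b (Dp (L e y)) - H a b (Dp (L e f * L e y)))) := by
    refine Finset.sum_le_sum fun e _ => (abs_le.1 (ests_nine fun a b => ?_)).1
    rw [show ∀ Z : Sm, κ * κ * c * H a b (Dp y) * Z = (κ * c * H a b (Dp y)) * (κ * Z) from
      fun Z => by ring]
    exact ests_I_le (n1 a b) (hc a b e hm hK hy h1 h2 h3 n3 (h5 e) (h6 e e))
  have t3 := ests_wHn (p := κ * c * lap f + 2 * c * gd κ f) (α := 6 * (K * m)) (β := 12 * (A * K))
    (by positivity) (by positivity) hy h1 hX fun x => by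
      have a1 : |lap f x| ≤ 3 * (K * m) := by
        rw [alg_lap, Sm.add_apply, Sm.add_apply]
        linarith [abs_add_three (L 0 (L 0 f) x) (L 1 (L 1 f) x) (L 2 (L 2 f) x), hLL 0 x, hLL 1 x,
          hLL 2 x]
      have a2 : |gd κ f x| ≤ 3 * (A * K) := by
        rw [alg_gd]
        simp only [Sm.add_apply, Sm.mul_apply]
        have k := fun e => ests_abs_mul (hL e x) (hv e x)
        linarith [abs_add_three (L 0 κ x * L 0 f x) (L 1 κ x * L 1 f x) (L 2 κ x * L 2 f x),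
          k 0, k 1, k 2]
      simp only [Sm.add_apply, Sm.mul_apply, show (2 : Sm) x = 2 from rfl]
      have a3 := ests_abs_mul (ests_abs_mul (h1 x) (h4 x)) a1
      have a4 := ests_abs_mul (ests_abs_mul (le_of_eq (abs_two (α := ℝ))) (h4 x)) a2
      linarith [abs_add_le (κ x * c x * lap f x) (2 * c x * gd κ f x)]
  have id := ests_id (κ * κ * c) f hev
  rw [← hφ] at id
  rw [Fin.sum_univ_three] at t2
  have e : (gd (κ * κ * c) f + κ * κ * c * lap f) * Hn (Dp y)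
      = κ * κ * gd c f * Hn (Dp y) + κ * (κ * c * lap f + 2 * c * gd κ f) * Hn (Dp y) := by
    rw [gd_comm (κ * κ * c), gd_mul, gd_mul, gd_comm f, gd_comm f]
    ring
  rw [e, map_add] at id
  have b1 := le_abs_self (tb f φ y)
  have b2 := (abs_le.1 t1).2
  have b4 := (abs_le.1 t3).1
  have hK2 : K ≤ K ^ 2 := by nlinarith
  have p1 : 0 ≤ Xv * (m * Xv) := by positivity
  have p2 : 0 ≤ Xv * A := by positivity
  have q1 := mul_le_mul_of_nonneg_right hK2 p1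
  have q2 := mul_le_mul_of_nonneg_right hK2 p2
  have q3 : 0 ≤ K ^ 2 * (Xv * (m * Xv)) := by positivity
  have q4 : 0 ≤ K ^ 2 * (Xv * A) := by positivity
  have q5 : 0 ≤ K ^ 2 * Xv := by positivity
  have q6 : 0 ≤ C * (K ^ 2 * (Xv * A)) := by positivity
  have q7 : 0 ≤ C * (K ^ 2 * Xv) := by positivity
  linarith

end Pool.Agent.Lib.MP_2fa2a2_gt.PI
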