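import Pool.Agent.Lib.MP_2fa2a2_gt.PI.SLoc
import Pool.Agent.Lib.MP_2fa2a2_gt.PI.EstSX

/-! The conjugation error for the even part of the approximate solution. -/

namespace Pool.Agent.Lib.MP_2fa2a2_gt.PI

open Real

/-- Leibniz rule with a slowly varying factor -/
theorem estex_leib {m : ℝ} (hm : 1 ≤ m) (n : ℕ) : ∀ {A B : ℝ} {p u : Sm} (v : List (Fin 3)),
    v.length = n → Cb n 1 A p → Cb n m B u →
    ∀ x, |Lw v (p * u) x - p x * Lw v u x| ≤ 2 ^ n * A * B * m ^ n / m := by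
  induction n with
  | zero =>
    intro A B p u v hv hp hu x
    obtain rfl := List.length_eq_zero_iff.1 hv
    have := hp.nonneg
    have := hu.nonneg
    rw [Lw_nil, Lw_nil, Sm.mul_apply, sub_self, abs_zero]
    positivity
  | succ n ih =>
    intro A B p u v hv hp hu x
    rcases List.eq_nil_or_concat v with rfl | ⟨w, c, rfl⟩
    · simp at hv
    rw [List.concat_eq_append] at hv ⊢
    have hw : w.length = n := by simpa using hv
    have h0 : 0 < m := by linarith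
    have a1 := Cb.mul h0.le ((hp.L c).mono zero_le_one le_rfl hm le_rfl)
      (hu.mono h0.le n.le_succ le_rfl le_rfl) w hw.le x
    have a2 := ih w hw (hp.mono zero_le_one n.le_succ le_rfl le_rfl) (hu.L c) x
    rw [hw] at a1
    rw [Lw_append, Lw_append, Lw_cons, Lw_cons, Lw_nil, Lw_nil, L_mul, map_add, Sm.add_apply,
      add_sub_assoc]
    refine (abs_add_le _ _).trans ((add_le_add a1 a2).trans_eq ?_)
    field_simp
    ring

theorem estex_Hn (ψ : Sm) (x : S2) : 0 ≤ Hn ψ x := by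
  nlinarith [Dop_sq_le ψ x, sq_nonneg (Dop ψ x)]

theorem estex_XN (d : LD) (y : Sm) (a b : Fin 3) : ‖d.kb * H a b (Dp y)‖ ≤ XN d y := by
  refine le_sqrt_of_sq_le ?_
  rw [norm_sq_eq]
  refine I_mono fun x => ?_
  have h : H a b (Dp y) x * H a b (Dp y) x ≤ Hn (Dp y) x := by
    rw [Hn, Sm.sum_apply]
    refine le_trans ?_ (Finset.single_le_sum (f := fun a => (∑ b, H a b (Dp y) * H a b (Dp y)) x)
      (fun a _ => ?_) (Finset.mem_univ a))
    · rw [Sm.sum_apply]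
      exact Finset.single_le_sum (f := fun b => (H a b (Dp y) * H a b (Dp y)) x)
        (fun b _ => mul_self_nonneg _) (Finset.mem_univ b)
    · rw [Sm.sum_apply]
      exact Finset.sum_nonneg fun b _ => mul_self_nonneg _
  simp only [Sm.mul_apply]
  nlinarith [mul_le_mul_of_nonneg_left h (mul_self_nonneg (d.kb x))]

theorem estex_XZ (y : Sm) : ‖H 2 2 (Dp y)‖ ≤ XZ y := by
  refine le_sqrt_of_sq_le ?_
  rw [norm_sq_eq]
  refine I_mono fun x => ?_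
  have e : (∑ b, H 2 b (Dp y) * gr (X 2) b) = H 2 2 (Dp y) := by
    have h := sum_X_H 2 (Dp y)
    simp only [gr, D_X, Fin.sum_univ_three, alg_kd, alg_kd_ne (by decide : (0 : Fin 3) ≠ 2),
      alg_kd_ne (by decide : (1 : Fin 3) ≠ 2), H_symm 0 2, H_symm 1 2] at h ⊢
    linear_combination (-X 2) * h
  rw [Hsq, Sm.sum_apply, ← e]
  exact Finset.single_le_sum (f := fun a => ((∑ b, H a b (Dp y) * gr (X 2) b)
    * ∑ b, H a b (Dp y) * gr (X 2) b) x) (fun a _ => mul_self_nonneg _) (Finset.mem_univ 2)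

theorem estex_Ri {y : Sm} (hy : y ∈ Ev) : X 2 * X 2 * Ri y = Ri (H 2 2 (Dp y)) := by
  have h1 := R_XX 2 2 (Ri y)
  rw [R_Ri, evp_of_Ev hy] at h1
  rw [← h1, Ri_R, evp_of_Ev]
  have := mem_Ev.1 (Ri_mem_Ev y)
  rw [mem_Ev, map_mul, map_mul, ant_X, this]
  ring

theorem estex_nrm {lam t : ℝ} (hl : 1 ≤ lam) (ht : 0 ≤ t) {j : ℕ} {w : List (Fin 3)}
    (hw : w.length ≤ 2 * j) (φ : Sm) :
    nrm lam 1 (t ^ w.length • Lw w (DI t j φ)) ≤ nrm lam 1 φ := by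
  have := norm_Lw_DI ht hw (fn (wt lam 1) φ)
  rw [nrm_smul, abs_of_nonneg (pow_nonneg ht _), nrm, fn_Lw, DI, fn_comm]
  exact this

theorem estex_L {lam : ℝ} (hl : 1 ≤ lam) (c : Fin 3) (g : Sm) : ‖L c g‖ ≤ nrm lam 1 g := by
  have := nrm_L hl 0 c g
  rwa [nrm_zero hl, zero_add] at this

section
variable {k m : ℕ} {C0 τ C1 : ℝ} {d : LD}

theorem estex_kb (h : Loc k C0 τ C1 m d) (x : S2) : 0 ≤ d.kb x := by
  rw [LD.kb, Sm.add_apply, ant_apply]
  exact add_nonneg (h.κ_nonneg x) (h.κ_nonneg _)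

/-- weighted bounds for the derivatives of the even part -/
theorem estex_fe (h : Loc k C0 τ C1 m d) (h0 : 1 ≤ C0) (h1 : 1 ≤ C1) (hm : (1 : ℝ) ≤ m)
    {n : ℕ} {v : List (Fin 3)} (hv : v.length = n + 1) (hk : n + 1 ≤ k) (x : S2) :
    |Lw v d.fe x| ≤ (C0 * d.kb x + 2 ^ (k + 2) * C0 * C1 / m) * (m : ℝ) ^ n := by
  have a3 : (0 : ℝ) < m := by linarith
  have b2 := estex_leib hm (n + 1) v hv ((h.κ_Cb.add h.κ_Cb.ant).mono zero_le_one hk le_rfl le_rfl)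
    (h.w3_Cb.mono a3.le hk le_rfl le_rfl) x
  have b3 := h.w3_Cb v (hv ▸ hk) x
  have b4 := h.w4_Cb v (hv ▸ hk) x
  rw [hv] at b3 b4
  have e2 : 2 ^ (n + 1) * (C1 + C1) * (C0 / m) * (m : ℝ) ^ (n + 1) / m
      = 2 ^ (n + 1) * (2 * (C0 * C1 / m * (m : ℝ) ^ n)) := by
    field_simp; ring
  have e3 : C0 / m * (m : ℝ) ^ (n + 1) = C0 * (m : ℝ) ^ n := by
    field_simp; ring
  have e4 : C1 / (m : ℝ) ^ 2 * (m : ℝ) ^ (n + 1) = 1 * (1 * C1 / m * (m : ℝ) ^ n) := by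
    field_simp; ring
  rw [e2] at b2
  rw [e3] at b3
  rw [e4] at b4
  have c1 : |d.kb x * Lw v d.w3 x| ≤ d.kb x * (C0 * (m : ℝ) ^ n) := by
    rw [abs_mul, abs_of_nonneg (estex_kb h x)]
    exact mul_le_mul_of_nonneg_left b3 (estex_kb h x)
  have c2 : (2 : ℝ) ^ (n + 1) * (2 * (C0 * C1 / m * (m : ℝ) ^ n))
      ≤ 2 ^ k * (2 * (C0 * C1 / m * (m : ℝ) ^ n)) := by
    have := pow_le_pow_right₀ (one_le_two (α := ℝ)) hk
    gcongr
  have c3 : 1 * (1 * C1 / m * (m : ℝ) ^ n) ≤ 2 ^ k * (C0 * C1 / m * (m : ℝ) ^ n) := by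
    have := one_le_pow₀ (one_le_two (α := ℝ)) (n := k)
    gcongr
  have c4 : 0 ≤ 2 ^ k * (C0 * C1 / m * (m : ℝ) ^ n) := by positivity
  have e5 : (C0 * d.kb x + 2 ^ (k + 2) * C0 * C1 / m) * (m : ℝ) ^ n
      = d.kb x * (C0 * (m : ℝ) ^ n) + 4 * (2 ^ k * (C0 * C1 / m * (m : ℝ) ^ n)) := by ring
  rw [e5, LD.fe, map_add, Sm.add_apply]
  have := abs_add_le (Lw v (d.kb * d.w3) x) (Lw v d.w4 x)
  have := abs_sub_abs_le_abs_sub (Lw v (d.kb * d.w3) x) (d.kb x * Lw v d.w3 x)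
  rw [LD.kb] at *
  linarith

end

/-- the nonlocal part -/
theorem estex_tg : ∃ C, 0 ≤ C ∧ ∀ {k m : ℕ} {C0 τ C1 : ℝ} {d : LD} {y : Sm} (v : List (Fin 3))
    (g : Sm), Loc k C0 τ C1 m d → y ∈ Ev → ‖y‖ ≤ 1 → 1 ≤ C1 → (1 : ℝ) ≤ m → v.length + 1 ≤ k →
    |tg (Lw v d.fe) g y| ≤ C * (m : ℝ) ^ v.length * (C1 ^ 2 * (XZ y / √m + 1 / m)) * nrm m 1 g := by
  obtain ⟨C, hC, hc⟩ := abs_gam_le
  refine ⟨6 * C, by positivity, fun {k m C0 τ C1 d y} v g h hy hy1 h1 hm hk => ?_⟩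
  have a3 : (0 : ℝ) < m := by linarith
  have hN := nrm_nonneg m 1 g
  have hZ : 0 ≤ XZ y := sqrt_nonneg _
  have key : ∀ c, |I (Ri y * (L c (R (Lw v d.fe)) * L c (R g)))|
      ≤ 2 * C * (m : ℝ) ^ v.length * (C1 ^ 2 * (XZ y / √m + 1 / m)) * nrm m 1 g := fun c => by
    obtain ⟨w, e, hw, he⟩ : ∃ (w : List (Fin 3)) (e : Fin 3), w.length = v.length ∧
        c :: v = w ++ [e] := by
      rcases List.eq_nil_or_concat (c :: v) with h | ⟨w, e, h⟩
      · simp at h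
      · refine ⟨w, e, ?_, by rw [h, List.concat_eq_append]⟩
        simpa using (congrArg List.length h).symm
    have e1 : L c (R (Lw v d.fe)) = Lw w (L e (R d.fe)) := by
      rw [R, fn_Lw, ← Lw_cons, he, Lw_append, Lw_cons, Lw_nil]
    have b1 := h.R_off w e (hw ▸ hk)
    have b2 := Cb.mul a3.le (h.ze_Cb.mono zero_le_one le_rfl hm le_rfl)
      (Cb.Lw (k := 1) w ((h.R_Cb e).mono a3.le (by omega) le_rfl le_rfl))
    rw [← e1, hw] at b1 b2
    generalize L c (R (Lw v d.fe)) = U at b1 b2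
    have e2 : Ri y * (U * L c (R g)) = Ri (H 2 2 (Dp y)) * (d.ze * U * L c (R g))
        + Ri y * ((1 - X 2 * X 2 * d.ze) * U * L c (R g)) := by
      rw [← estex_Ri hy]; ring
    have t1 := (hc c g (H 2 2 (Dp y)) hm b2).trans
      (mul_le_mul_of_nonneg_left (estex_XZ y) (by positivity))
    have t2 := (hc c g y hm b1).trans (mul_le_of_le_one_right (by positivity) hy1)
    have t3 : C * (C1 * (m : ℝ) ^ v.length / (m : ℝ) ^ 2) * nrm m 1 g
        ≤ 2 * C * (m : ℝ) ^ v.length * (C1 ^ 2 * (1 / m)) * nrm m 1 g := by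
      have : C1 / (m : ℝ) ^ 2 ≤ 2 * (C1 ^ 2 * (1 / m)) := by
        rw [div_le_iff₀ (by positivity)]
        have : 2 * (C1 ^ 2 * (1 / m)) * (m : ℝ) ^ 2 = 2 * C1 ^ 2 * m := by field_simp
        rw [this]
        nlinarith
      calc _ = C * (m : ℝ) ^ v.length * nrm m 1 g * (C1 / (m : ℝ) ^ 2) := by ring
        _ ≤ C * (m : ℝ) ^ v.length * nrm m 1 g * (2 * (C1 ^ 2 * (1 / m))) := by gcongr
        _ = _ := by ring
    rw [e2, map_add]
    refine (abs_add_le _ _).trans ((add_le_add t1 (t2.trans t3)).trans_eq ?_)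
    ring
  rw [tau_tg_eq]
  refine (abs_add_three _ _ _).trans ?_
  linarith [key 0, key 1, key 2]

/-- the local form of the even part is small on every test function -/
theorem estex_conj (j : ℕ) : ∃ A, 0 ≤ A ∧ ∀ {C0 τ C1 Λ : ℝ} {m : ℕ} {d : LD} {go ge y : Sm}
    (φ : Sm), Loc (2 * j + 10) C0 τ C1 m d → Adj j Λ m d go ge y → 1 ≤ C0 → 1 ≤ C1 → 1 ≤ Λ →
    (1 : ℝ) ≤ m → |tb d.fe φ y|
      ≤ A * nrm m 1 φ * (C0 * XN d y / Λ + C0 * C1 ^ 2 * (XZ y / √m + 1 / m)) := by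
  obtain ⟨Cj, hCj, hj⟩ := leib_form j
  obtain ⟨Cg, hCg, hg⟩ := estex_tg
  obtain ⟨Ct, hCt, ht⟩ := abs_tau_le
  refine ⟨Cj * (72 * 2 ^ (2 * j + 10 + 2) + 2 * Cg) + (2 * Cg + Ct + 1), by positivity,
    fun {C0 τ C1 Λ m d go ge y} φ h ha h0 h1 hΛ hm => ?_⟩
  have a3 : (0 : ℝ) < m := by linarith
  have a4 : 0 < Λ := by linarith
  have hN := nrm_nonneg m 1 φ
  have hX : 0 ≤ XN d y := sqrt_nonneg _
  have hZ : 0 ≤ XZ y / √m := div_nonneg (sqrt_nonneg _) (sqrt_nonneg _)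
  obtain ⟨t, htd⟩ : ∃ t : ℝ, t = (Λ * m)⁻¹ := ⟨_, rfl⟩
  have t0 : 0 ≤ t := by rw [htd]; positivity
  have t1 : t * m = Λ⁻¹ := by rw [htd]; field_simp
  have t2 : t * m ≤ 1 := t1 ▸ inv_le_one_of_one_le₀ hΛ
  obtain ⟨Q, hQ⟩ : ∃ Q, Q = C1 ^ 2 * (XZ y / √m + 1 / m) := ⟨_, rfl⟩
  have hu : 0 < 1 / (m : ℝ) := by positivity
  have q1 : C1 * (1 / m) ≤ Q := by
    have : C1 ≤ C1 ^ 2 := by nlinarith
    rw [hQ]; gcongr; linarith
  have q2 : 1 / (m : ℝ) ≤ Q := (le_mul_of_one_le_left hu.le h1).trans q1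
  have q0 : 0 ≤ Q := hu.le.trans q2
  have q3 : Q ≤ C0 * Q := le_mul_of_one_le_left q0 h0
  have q4 : 0 ≤ C0 * XN d y / Λ := by positivity
  obtain ⟨E, hE⟩ : ∃ E, E = C0 * XN d y / Λ + C0 * Q := ⟨_, rfl⟩
  have q5 : Q ≤ E := by linarith
  have c1 : |tau d.fe (DI t j φ) (DD t j y) - tau d.fe φ y|
      ≤ Cj * ((72 * 2 ^ (2 * j + 10 + 2) + 2 * Cg) * (nrm m 1 φ * E)) := by
    refine hj (fun c f g y => ?_) t0 fun v w hv hvw => ?_
    · simp only [tau_def]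
      linarith [tb_L c f g y, tg_L c f g y]
    have n1 := estex_nrm hm t0 (w := w) (j := j) (by omega) φ
    have e : t ^ (v.length + w.length) * |tau (Lw v d.fe) (Lw w (DI t j φ)) y|
        = t ^ v.length * |tau (Lw v d.fe) (t ^ w.length • Lw w (DI t j φ)) y| := by
      simp only [map_smul, LinearMap.smul_apply, smul_eq_mul, abs_mul, abs_pow, abs_of_nonneg t0]
      ring
    rw [e]
    generalize t ^ w.length • Lw w (DI t j φ) = g at n1
    have p1 : t ^ v.length * (m : ℝ) ^ v.length ≤ Λ⁻¹ := by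
      rw [← mul_pow, ← t1]
      exact pow_le_of_le_one (by positivity) t2 (by simpa using hv)
    have p2 : t ^ v.length * (m : ℝ) ^ v.length ≤ 1 := p1.trans (t1 ▸ t2)
    have b1 := ests_tb (F := Lw v d.fe) (g := g) (kb := d.kb) (α := C0 * (m : ℝ) ^ v.length)
      (β := 2 ^ (2 * j + 10 + 2) * C0 * C1 / m * (m : ℝ) ^ v.length) (by positivity)
      (by positivity) ha.le (estex_XN d y) (fun a x => by
        rw [← Lw_cons]
        exact (estex_fe h h0 h1 hm (n := v.length) (v := a :: v) rfl (by omega) x).trans_eq (by ring))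
      fun c => (estex_L hm c g).trans n1
    have b2 := (hg v g h ha.ev ha.le h1 hm (by omega)).trans
      (mul_le_mul_of_nonneg_left n1 (by positivity))
    rw [← hQ] at b2
    have b3 := mul_le_mul_of_nonneg_left ((tau_abs_le (Lw v d.fe) g y).trans
      (add_le_add b1 (mul_le_mul_of_nonneg_left b2 zero_le_two))) (pow_nonneg t0 v.length)
    refine b3.trans ?_
    obtain ⟨W, hW⟩ : ∃ W : ℝ, W = 2 ^ (2 * j + 10 + 2) := ⟨_, rfl⟩
    have w1 : 1 ≤ W := hW ▸ one_le_pow₀ one_le_two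
    rw [← hW]
    generalize t ^ v.length = a at *
    generalize (m : ℝ) ^ v.length = b at *
    have r1 : a * b * (36 * (C0 * XN d y) * nrm m 1 φ) ≤ Λ⁻¹ * (36 * (C0 * XN d y) * nrm m 1 φ) := by
      gcongr
    have r2 : a * b * (72 * W * (C0 * (C1 * (1 / m))) * nrm m 1 φ)
        ≤ 1 * (72 * W * (C0 * Q) * nrm m 1 φ) := by gcongr
    have r3 : a * b * (2 * Cg * Q * nrm m 1 φ) ≤ 1 * (2 * Cg * E * nrm m 1 φ) := by gcongr
    have r4 : 36 * (C0 * XN d y / Λ) * nrm m 1 φ ≤ 72 * W * (C0 * XN d y / Λ) * nrm m 1 φ := by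
      gcongr; linarith
    have r5 : 72 * W * (nrm m 1 φ * E) = 72 * W * (C0 * XN d y / Λ) * nrm m 1 φ
      + 72 * W * (C0 * Q) * nrm m 1 φ := by rw [hE]; ring
    simp only [div_eq_mul_inv] at *
    linarith
  have c2 := ha.eqe φ
  rw [← htd] at c2
  have c3 := hg [] φ h ha.ev ha.le h1 hm (by simp)
  rw [← hQ, Lw_nil, List.length_nil, pow_zero, mul_one] at c3
  have u1 : 1 / (m : ℝ) ^ 2 ≤ E :=
    (one_div_le_one_div_of_le a3 (by nlinarith)).trans (q2.trans q5)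
  have e0 : 0 ≤ E := q0.trans q5
  have c4 : |tau ge φ y| ≤ Ct * E * nrm m 1 φ * 1 := by
    refine (ht ge φ y).trans ?_
    have n1 := (nrm_mono le_rfl (by norm_num : (5 : ℝ) ≤ 8) ge).trans (ha.ge_le.trans u1)
    have n2 := nrm_one_le hm zero_le_one φ
    have n3 := nrm_nonneg 1 1 φ
    have n4 := ha.le
    gcongr
  have c5 : 1 / (m : ℝ) ^ 2 * ‖φ‖ ≤ E * nrm m 1 φ := by
    have n1 := nrm_mono hm zero_le_one φ
    rw [nrm_zero hm] at n1
    gcongr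
  have c6 : Cg * Q * nrm m 1 φ ≤ Cg * E * nrm m 1 φ := by gcongr
  have c7 : 0 ≤ E * nrm m 1 φ := by positivity
  rw [mul_assoc C0 (C1 ^ 2), ← hQ, ← hE]
  have b1 := abs_le.1 c1
  have b2 := abs_le.1 c2
  have b3 := abs_le.1 c3
  have b4 := abs_le.1 c4
  have b5 := tau_def d.fe φ y
  rw [abs_le]
  constructor <;> linarith [b1.1, b1.2, b2.1, b2.2, b3.1, b3.2, b4.1, b4.2]

end Pool.Agent.Lib.MP_2fa2a2_gt.PI
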