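import Mathlib

/-! Inequalities between real numbers for the estimate of the even part. -/

namespace Pool.Agent.Lib.MP_2fa2a2_gt.PI

open Real

theorem estez_am {η : ℝ} (hη : 0 < η) (a b : ℝ) : -(a * b) ≤ η * a ^ 2 + b ^ 2 / (4 * η) := by
  have e : η * a ^ 2 + b ^ 2 / (4 * η) + a * b = (2 * η * a + b) ^ 2 / (4 * η) := by
    field_simp; ring
  have : 0 ≤ (2 * η * a + b) ^ 2 / (4 * η) := by positivity
  linarith

theorem estez_am' {η : ℝ} (hη : 0 < η) (a b : ℝ) : a * b ≤ η * a ^ 2 + b ^ 2 / (4 * η) := by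
  have := estez_am hη a (-b)
  rw [neg_sq] at this
  linarith

/-- the pointwise lower bound for the local form -/
theorem estez_pt {p r w E V f : Fin 3 → ℝ} {κ sg β qe g vp M hn ee C0 lam η : ℝ}
    (hκ : 0 ≤ κ) (h0 : 1 ≤ C0) (hl : 0 < lam) (hη : 0 < η) (hvp : 0 ≤ vp)
    (hV : ∀ a, V a = E a + κ * sg * (p a - r a) + κ * β * w a)
    (hp : ∑ a, p a * p a ≤ hn) (hw : ∑ a, w a * w a = 1) (hf : ∑ a, f a * f a ≤ hn * ee)
    (hg : 0 ≤ g) (q1 : κ * g / C0 ≤ qe * sg) (q2 : qe * sg ≤ C0 * κ) (q3 : |qe| ≤ C0 * κ)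
    (q4 : |qe * β| ≤ C0 ^ 2 * κ * vp * |M|) :
    κ * κ * g * (∑ a, p a * p a) / (2 * C0) ≤ ∑ a, V a * (qe * p a + f a)
      + C0 / 2 * (κ * κ * ∑ a, r a * r a) + C0 ^ 2 * lam * (κ * κ * vp * (M * M))
      + C0 ^ 2 / (4 * lam) * (κ * κ * vp * hn) + C0 ^ 2 * η * (κ * κ * hn)
      + 1 / (4 * η) * ∑ a, E a * E a + η * ∑ a, V a * V a + 1 / (4 * η) * (hn * ee) := by
  have hc : 0 < C0 := by linarith
  have e : ∑ a, V a * (qe * p a + f a) = qe * sg * κ * (∑ a, p a * p a - ∑ a, p a * r a)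
      + κ * (qe * β) * ∑ a, p a * w a + ∑ a, qe * p a * E a + ∑ a, V a * f a := by
    simp only [Fin.sum_univ_three, hV]; ring
  have pp : 0 ≤ ∑ a, p a * p a := Finset.sum_nonneg fun _ _ => mul_self_nonneg _
  have rr : 0 ≤ ∑ a, r a * r a := Finset.sum_nonneg fun _ _ => mul_self_nonneg _
  have a0 : 0 ≤ qe * sg := le_trans (by positivity) q1
  have a1 : (∑ a, p a * p a) / 2 - (∑ a, r a * r a) / 2 ≤ ∑ a, p a * p a - ∑ a, p a * r a := by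
    simp only [Fin.sum_univ_three]
    linarith [mul_self_nonneg (p 0 - r 0), mul_self_nonneg (p 1 - r 1), mul_self_nonneg (p 2 - r 2)]
  have a2 := mul_le_mul_of_nonneg_left a1 (mul_nonneg a0 hκ)
  have a3 := mul_le_mul_of_nonneg_right q1 (mul_nonneg hκ pp)
  have a4 := mul_le_mul_of_nonneg_right q2 (mul_nonneg hκ rr)
  have a5 : κ * κ * g * (∑ a, p a * p a) / (2 * C0) = κ * g / C0 * (κ * ∑ a, p a * p a) / 2 := by
    field_simp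
  have b1 : (∑ a, p a * w a) ^ 2 ≤ hn := by
    have := Finset.sum_mul_sq_le_sq_mul_sq Finset.univ p w
    simp only [pow_two (p _), pow_two (w _), hw, mul_one] at this
    exact this.trans hp
  have b2 : -(κ * (qe * β) * ∑ a, p a * w a) ≤ κ * (C0 ^ 2 * κ * vp * |M|) * |∑ a, p a * w a| := by
    refine (neg_le_abs _).trans ?_
    rw [abs_mul, abs_mul, abs_of_nonneg hκ]
    gcongr
  have b3 := estez_am' hl |M| |∑ a, p a * w a|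
  rw [sq_abs, sq_abs] at b3
  have b4 : (∑ a, p a * w a) ^ 2 / (4 * lam) ≤ hn / (4 * lam) := by gcongr
  have b5 := mul_le_mul_of_nonneg_left (b3.trans (add_le_add le_rfl b4))
    (by positivity : 0 ≤ C0 ^ 2 * (κ * κ * vp))
  have c1 : -∑ a, qe * p a * E a ≤ η * (qe ^ 2 * ∑ a, p a * p a) + 1 / (4 * η) * ∑ a, E a * E a := by
    have k := fun a => estez_am hη (qe * p a) (E a)
    simp only [Fin.sum_univ_three, div_eq_mul_inv] at k ⊢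
    linarith [k 0, k 1, k 2]
  have c2 : η * (qe ^ 2 * ∑ a, p a * p a) ≤ η * ((C0 * κ) ^ 2 * hn) := by
    have : qe ^ 2 ≤ (C0 * κ) ^ 2 := sq_le_sq' (abs_le.1 q3).1 (abs_le.1 q3).2
    gcongr
  have d1 : -∑ a, V a * f a ≤ η * ∑ a, V a * V a + 1 / (4 * η) * ∑ a, f a * f a := by
    have k := fun a => estez_am hη (V a) (f a)
    simp only [Fin.sum_univ_three, div_eq_mul_inv] at k ⊢
    linarith [k 0, k 1, k 2]
  have d2 : 1 / (4 * η) * ∑ a, f a * f a ≤ 1 / (4 * η) * (hn * ee) := by gcongr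
  rw [e, a5]
  simp only [div_eq_mul_inv] at *
  linarith

/-- the pointwise upper bound for the gradient of the test function -/
theorem estez_up {p r w E V : Fin 3 → ℝ} {κ sg β hn M2 : ℝ}
    (hV : ∀ a, V a = E a + κ * sg * (p a - r a) + κ * β * w a)
    (hp : ∑ a, p a * p a ≤ hn) (hw : ∑ a, w a * w a = 1) (hs : sg ^ 2 ≤ 1) (hβ : β ^ 2 ≤ M2) :
    ∑ a, V a * V a ≤ 4 * ∑ a, E a * E a + 4 * (κ * κ * hn) + 4 * (κ * κ * ∑ a, r a * r a)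
      + 4 * (κ * κ * M2) := by
  have k : ∀ a, V a * V a ≤ 4 * (E a * E a) + 4 * (κ * κ * sg ^ 2 * (p a * p a))
      + 4 * (κ * κ * sg ^ 2 * (r a * r a)) + 4 * (κ * κ * β ^ 2 * (w a * w a)) := fun a => by
    rw [hV]
    have t : ∀ a b c d : ℝ, (a + b - c + d) * (a + b - c + d)
        ≤ 4 * (a * a) + 4 * (b * b) + 4 * (c * c) + 4 * (d * d) := fun a b c d => by
      linarith [sq_nonneg (a - b), sq_nonneg (a + c), sq_nonneg (a - d), sq_nonneg (b + c),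
        sq_nonneg (b - d), sq_nonneg (c + d)]
    linarith [t (E a) (κ * sg * p a) (κ * sg * r a) (κ * β * w a)]
  have pp : 0 ≤ ∑ a, p a * p a := Finset.sum_nonneg fun _ _ => mul_self_nonneg _
  have rr : 0 ≤ ∑ a, r a * r a := Finset.sum_nonneg fun _ _ => mul_self_nonneg _
  have k0 := mul_self_nonneg κ
  have a1 : κ * κ * (sg ^ 2 * ∑ a, p a * p a) ≤ κ * κ * (1 * hn) := by gcongr
  have a2 : κ * κ * (sg ^ 2 * ∑ a, r a * r a) ≤ κ * κ * (1 * ∑ a, r a * r a) := by gcongr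
  have a3 : κ * κ * (β ^ 2 * ∑ a, w a * w a) ≤ κ * κ * (M2 * 1) := by rw [hw]; gcongr
  simp only [Fin.sum_univ_three] at *
  linarith [k 0, k 1, k 2]

/-- the scalar factors -/
theorem estez_sc {κ sn cs om qe δ M C0 : ℝ} (hκ : 0 ≤ κ) (hδ : 0 < δ) (h0 : 1 ≤ C0)
    (hs : |sn| ≤ 1) (hc : |cs| ≤ 1) (ho : |om| ≤ C0) (q1 : |qe| ≤ C0 * κ * |sn|)
    (q2 : κ * sn ^ 2 / C0 ≤ qe * sn) :
    κ * (sn ^ 2 / √(sn ^ 2 + δ ^ 2)) / C0 ≤ qe * (sn / √(sn ^ 2 + δ ^ 2)) ∧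
    qe * (sn / √(sn ^ 2 + δ ^ 2)) ≤ C0 * κ ∧ |qe| ≤ C0 * κ ∧
    |qe * (δ ^ 2 / √(sn ^ 2 + δ ^ 2) ^ 3 * om * cs * M)|
      ≤ C0 ^ 2 * κ * (δ ^ 2 / (sn ^ 2 + δ ^ 2)) * |M| ∧
    (sn / √(sn ^ 2 + δ ^ 2)) ^ 2 ≤ 1 ∧
    (δ ^ 2 / √(sn ^ 2 + δ ^ 2) ^ 3 * om * cs * M) ^ 2 ≤ (C0 / δ) ^ 2 * (M * M) := by
  have p0 : 0 < sn ^ 2 + δ ^ 2 := by positivity
  have r0 : 0 < √(sn ^ 2 + δ ^ 2) := sqrt_pos.2 p0
  have r1 : |sn| ≤ √(sn ^ 2 + δ ^ 2) := abs_le_sqrt (by nlinarith)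
  have r2 : δ ≤ √(sn ^ 2 + δ ^ 2) := le_sqrt_of_sq_le (by nlinarith)
  have r3 := sq_sqrt p0.le
  generalize √(sn ^ 2 + δ ^ 2) = ρ at *
  have s1 : |sn / ρ| ≤ 1 := by rw [abs_div, abs_of_pos r0]; exact (div_le_one r0).2 r1
  have s2 : |qe| ≤ C0 * κ := q1.trans (mul_le_of_le_one_right (by positivity) hs)
  refine ⟨?_, ?_, s2, ?_, (sq_le_one_iff_abs_le_one _).2 s1, ?_⟩
  · calc _ = κ * sn ^ 2 / C0 / ρ := by ring
      _ ≤ qe * sn / ρ := by gcongr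
      _ = _ := by ring
  · refine (le_abs_self _).trans ?_
    rw [abs_mul]
    exact (mul_le_of_le_one_right (abs_nonneg _) s1).trans s2
  · rw [← r3]
    simp only [abs_mul]
    rw [abs_of_pos (by positivity : 0 < δ ^ 2 / ρ ^ 3)]
    calc _ ≤ C0 * κ * ρ * (δ ^ 2 / ρ ^ 3 * C0 * 1 * |M|) := by
          have := q1.trans (mul_le_mul_of_nonneg_left r1 (by positivity))
          gcongr
      _ = _ := by field_simp
  · have s3 : δ ^ 2 / ρ ^ 3 ≤ 1 / δ := by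
      rw [div_le_div_iff₀ (by positivity) hδ]
      have := pow_le_pow_left₀ hδ.le r2 3
      linarith
    rw [← sq_abs, ← abs_mul_abs_self M]
    simp only [abs_mul]
    rw [abs_of_pos (by positivity : 0 < δ ^ 2 / ρ ^ 3)]
    calc _ ≤ (1 / δ * C0 * 1 * |M|) ^ 2 := by gcongr
      _ = _ := by ring

/-- the final bookkeeping -/
theorem estez_fin {C0 A K1 K γ : ℝ} (h0 : 1 ≤ C0) (hA : 0 ≤ A) (h1 : 0 ≤ K1) (hK : 1 ≤ K)
    (hγ : 0 < γ) : ∃ η C' : ℝ, 0 < η ∧ 0 ≤ C' ∧ ∀ X Y Z N G T P EE τ σ Λ s u : ℝ, 0 ≤ X → 0 ≤ Y →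
    Y ≤ X → 0 ≤ Z → 0 ≤ N → 0 ≤ σ → σ ≤ 1 → 1 ≤ Λ → 0 < u → u ≤ s → s * K ≤ η ^ 2 →
    N ≤ K1 * X + K * u → T ≤ A * N * (C0 * X / Λ + K * (Z * s + u)) →
    0 < P → P ≤ σ * (26 * C0 * X) + K * u → EE ≤ K * u ^ 2 →
    (∀ lam, 0 < lam → G / (2 * C0) ≤ T + C0 ^ 4 * τ ^ 2 * X ^ 2 + C0 ^ 2 * lam * P ^ 2
      + C0 ^ 2 / (4 * lam) * Y ^ 2 + C0 ^ 2 * η * X ^ 2 + 1 / (4 * η) * EE + η * N ^ 2
      + 1 / (4 * η) * (K * (u * X ^ 2 + u ^ 2))) →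
    G ≤ 52 * C0 ^ 5 * (τ ^ 2 * X ^ 2 + σ * X * Y) + (2 * C0 ^ 2 * A * K1 / Λ + γ) * X ^ 2
      + γ * Z ^ 2 + C' * u ^ 2 := by
  obtain ⟨S, hS⟩ : ∃ S, S = 2 * C0 * ((4 * A + 2) * K1 ^ 2 + C0 ^ 2 + A + 2) := ⟨_, rfl⟩
  have hc : 0 < C0 := by linarith
  have S0 : 0 < S := by rw [hS]; positivity
  obtain ⟨η, η0, η1, η2⟩ : ∃ η : ℝ, 0 < η ∧ η ≤ 1 ∧ η * S ≤ γ :=
    ⟨min 1 (γ / S), by positivity, min_le_left _ _, (le_div_iff₀ S0).1 (min_le_right _ _)⟩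
  obtain ⟨M, hM⟩ : ∃ M, M = A * K * C0 + C0 ^ 2 * (K + 13 * C0) := ⟨_, rfl⟩
  refine ⟨η, 2 * C0 * (M ^ 2 / (4 * η) + (4 * A + 2) * η * K ^ 2 + A * (K ^ 2 / (4 * η))
    + C0 ^ 2 * K + 1 / (4 * η) * (2 * K)), η0, by positivity,
    fun X Y Z N G T P EE τ σ Λ s u hX hY hYX hZ hN hσ hσ1 hΛ hu hus hs n1 t1 p0 p1 e1 g1 => ?_⟩
  have g2 := g1 ((Y + u) / (2 * P)) (by positivity)
  have s0 : 0 < s := hu.trans_le hus
  have η3 : η ^ 2 ≤ η := pow_le_of_le_one η0.le η1 two_ne_zero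
  have a1 : C0 ^ 2 * ((Y + u) / (2 * P)) * P ^ 2 = C0 ^ 2 * ((Y + u) * P / 2) := by field_simp
  have a2 : C0 ^ 2 / (4 * ((Y + u) / (2 * P))) * Y ^ 2 ≤ C0 ^ 2 * (Y * P / 2) := by
    have e : C0 ^ 2 / (4 * ((Y + u) / (2 * P))) * Y ^ 2
      = C0 ^ 2 * (Y * P / 2) * (Y / (Y + u)) := by field_simp; ring
    rw [e]
    exact mul_le_of_le_one_right (by positivity) ((div_le_one (by positivity)).2 (by linarith))
  have a3 : C0 ^ 2 * ((Y + u / 2) * P) ≤ C0 ^ 2 * ((Y + u / 2) * (σ * (26 * C0 * X) + K * u)) := by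
    gcongr
  have a4 : C0 ^ 2 * K * u * Y ≤ C0 ^ 2 * K * u * X := by gcongr
  have a5 : σ * (13 * C0 ^ 3 * u * X) ≤ 1 * (13 * C0 ^ 3 * u * X) := by gcongr
  have a6 : 0 ≤ C0 ^ 2 * K * u ^ 2 := by positivity
  have n2 : N ^ 2 ≤ 2 * K1 ^ 2 * X ^ 2 + 2 * K ^ 2 * u ^ 2 := by
    linarith [pow_le_pow_left₀ hN n1 2, sq_nonneg (K1 * X - K * u)]
  have n3 := mul_le_mul_of_nonneg_left n2 (by positivity : 0 ≤ (2 * A + 1) * η)
  have hΛ' : Λ⁻¹ ≤ 1 := inv_le_one_of_one_le₀ hΛ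
  have hΛ0 : 0 ≤ Λ⁻¹ := by positivity
  have t2 : A * N * (C0 * X * Λ⁻¹) ≤ A * (K1 * X + K * u) * (C0 * X * Λ⁻¹) := by gcongr
  have t3 : A * K * C0 * u * X * Λ⁻¹ ≤ A * K * C0 * u * X * 1 := by gcongr
  have t4 : s * K * (A * (N * Z)) ≤ η * (A * (N ^ 2 + Z ^ 2)) := by
    have : N * Z ≤ N ^ 2 + Z ^ 2 := by linarith [sq_nonneg (N - Z), mul_nonneg hN hZ]
    have := hs.trans η3
    gcongr
  have t5 := mul_le_mul_of_nonneg_left (estez_am' η0 N (K * u)) hA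
  have t6 := estez_am' η0 X (M * u)
  have e2 : 1 / (4 * η) * EE ≤ 1 / (4 * η) * (K * u ^ 2) := by gcongr
  have e3 : 1 / (4 * η) * (K * (u * X ^ 2)) ≤ η * X ^ 2 := by
    have b1 : K * u ≤ 4 * η ^ 2 := by
      linarith [mul_le_mul_of_nonneg_left hus (zero_le_one.trans hK), sq_nonneg η]
    calc _ = K * u * (1 / (4 * η) * X ^ 2) := by ring
      _ ≤ (4 * η ^ 2) * (1 / (4 * η) * X ^ 2) := by gcongr
      _ = _ := by field_simp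
  have f1 : G / (2 * C0) ≤ C0 ^ 4 * τ ^ 2 * X ^ 2 + 26 * C0 ^ 3 * (σ * X * Y)
      + C0 * A * K1 * Λ⁻¹ * X ^ 2 + η * ((4 * A + 2) * K1 ^ 2 + C0 ^ 2 + 2) * X ^ 2 + η * A * Z ^ 2
      + (M ^ 2 / (4 * η) + (4 * A + 2) * η * K ^ 2 + A * (K ^ 2 / (4 * η))
        + C0 ^ 2 * K + 1 / (4 * η) * (2 * K)) * u ^ 2 := by
    rw [a1] at g2
    rw [hM] at t6
    rw [hM]
    simp only [div_eq_mul_inv] at *
    linarith
  rw [div_le_iff₀ (by positivity)] at f1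
  have f2 : C0 ^ 4 * (52 * (σ * X * Y)) ≤ C0 ^ 5 * (52 * (σ * X * Y)) := by
    have := pow_le_pow_right₀ h0 (by norm_num : 4 ≤ 5)
    gcongr
  have f3 : 0 ≤ C0 ^ 5 * (τ ^ 2 * X ^ 2) := by positivity
  have f4 := mul_le_mul_of_nonneg_right η2 (sq_nonneg X)
  have f5 := mul_le_mul_of_nonneg_right η2 (sq_nonneg Z)
  have f6 : 0 ≤ η * C0 * A * X ^ 2 := by positivity
  have f7 : 0 ≤ η * C0 * ((4 * A + 2) * K1 ^ 2 + C0 ^ 2 + 2) * Z ^ 2 := by positivity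
  rw [hS] at f4 f5
  simp only [div_eq_mul_inv] at *
  linarith

end Pool.Agent.Lib.MP_2fa2a2_gt.PI
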