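import Pool.Agent.Lib.MP_2fa2a2_gt.PI.SLoc
import Pool.Agent.Lib.MP_2fa2a2_gt.PI.Comm
import Pool.Agent.Lib.MP_2fa2a2_gt.PI.EstEX
import Pool.Agent.Lib.MP_2fa2a2_gt.PI.EstEW
import Pool.Agent.Lib.MP_2fa2a2_gt.PI.EstEZ

namespace Pool.Agent.Lib.MP_2fa2a2_gt.PI

open Real
open scoped ContDiff

theorem este_cs (ψ : Sm) (x : S2) (e : Fin 3 → ℝ) :
    ∑ a, (∑ b, H a b ψ x * e b) * ∑ b, H a b ψ x * e b ≤ Hn ψ x * ∑ b, e b * e b := by
  simp only [Hn, Sm.sum_apply, Sm.mul_apply]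
  rw [Finset.sum_mul]
  refine Finset.sum_le_sum fun a _ => ?_
  simpa only [pow_two] using Finset.sum_mul_sq_le_sq_mul_sq Finset.univ (fun b => H a b ψ x) e

theorem este_vp {δ : ℝ} (hδ : 0 < δ) (d : LD) (x : S2) :
    cp (fun t => δ ^ 2 / (t ^ 2 + δ ^ 2)) d.sn x = δ ^ 2 / (d.sn x ^ 2 + δ ^ 2) :=
  cp_apply (g := fun t => δ ^ 2 / (t ^ 2 + δ ^ 2))
    (fun _ => contDiffAt_const.div (by fun_prop) (by positivity)) x

theorem este_g {δ : ℝ} (hδ : 0 < δ) (d : LD) (x : S2) :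
    cp (fun t => t ^ 2 / √(t ^ 2 + δ ^ 2)) d.sn x = d.sn x ^ 2 / √(d.sn x ^ 2 + δ ^ 2) :=
  cp_apply (g := fun t => t ^ 2 / √(t ^ 2 + δ ^ 2)) (fun _ => ContDiffAt.div (by fun_prop)
    (ContDiffAt.sqrt (by fun_prop) (by positivity)) (by positivity)) x

section
variable {k m : ℕ} {C0 τ C1 Xv δ : ℝ} {d : LD} {ψ : Sm} {g : ℝ → ℝ}

theorem este_w (h : Loc k C0 τ C1 m d) {x : S2} (hx : d.κ x ≠ 0) :
    ∑ a, d.w a x * d.w a x = 1 := by
  have := congrArg (fun φ : Sm => φ x) (estey_w d).1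
  simp only [Sm.sum_apply, Sm.mul_apply, Sm.add_apply] at this
  linarith [h.unit x hx]

theorem este_r (h : Loc k C0 τ C1 m d) (h0 : 1 ≤ C0) (hg : ContDiff ℝ ∞ g) {x : S2}
    (hx : d.κ x ≠ 0) : ∑ a, (d.al * (zA g - zB g) * D a (X 2)) x * (d.al * (zA g - zB g) * D a (X 2)) x
      ≤ 2 * C0 ^ 3 * τ ^ 2 * (qq * qq * Hn (Zf g)) x := by
  have a1 : ∑ a, D a (X 2) * D a (X 2) = qq := by rw [← gd_eq_D, gd_X, zon_D2_X]
  have a2 := congrArg (fun φ : Sm => φ x) a1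
  have a3 := h.al_le x hx
  have a4 : d.al x ^ 2 ≤ (C0 * τ) ^ 2 := sq_le_sq' (abs_le.1 a3).1 (abs_le.1 a3).2
  have a5 := zon_qq_nonneg x
  have a6 : qq x ≤ C0 * qq x * qq x := le_mul_of_one_le_left a5 (estew_ab h h0 hx).2
  have a7 : (zA g x - zB g x) ^ 2 ≤ 2 * (zA g x ^ 2 + zB g x ^ 2) := by
    linarith [sq_nonneg (zA g x + zB g x)]
  have a8 : d.al x ^ 2 * (zA g x - zB g x) ^ 2 * qq x
      ≤ (C0 * τ) ^ 2 * (2 * (zA g x ^ 2 + zB g x ^ 2)) * (C0 * qq x * qq x) := by gcongr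
  rw [Hn_Zf hg]
  simp only [Fin.sum_univ_three, Sm.add_apply, Sm.sub_apply, Sm.mul_apply] at a2 ⊢
  rw [← a2] at a8
  rw [← a2]
  linarith

theorem este_sc (h : Loc k C0 τ C1 m d) (x : S2) : |d.om x| ≤ C0 ∧ 0 ≤ Hn ψ x ∧
    0 ≤ (qq * qq * Hn (Zf g)) x := by
  have h0 := (h.κ_nonneg x).trans (h.κ_le x)
  refine ⟨?_, estew_Hn _ x, mul_nonneg (mul_self_nonneg _) (estew_Hn _ x)⟩
  rw [abs_of_nonneg ((inv_nonneg.2 h0).trans (h.om_ge x))]
  exact h.om_le x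

/-- upper bound for the test function -/
theorem este_N (h : Loc k C0 τ C1 m d) (hk : 1 ≤ k) (e : EsteH d m Xv ψ g) (h0 : 1 ≤ C0)
    (h1 : 1 ≤ C1) (hδ : 0 < δ) (hτ : τ ^ 2 ≤ 1) (hX : 0 ≤ Xv) (hm : 0 < m) :
    I (∑ a, esteE d δ (1 / m) ψ g a * esteE d δ (1 / m) ψ g a)
      ≤ 3 * (5000 * C0 * C1 ^ 2) ^ 2 * (1 / m) ^ 2 ∧
    I (∑ a, D a (d.κ * esteF d δ (1 / m) ψ g) * D a (d.κ * esteF d δ (1 / m) ψ g))
      ≤ nrm m 1 (d.κ * esteF d δ (1 / m) ψ g) ^ 2 ∧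
    nrm m 1 (d.κ * esteF d δ (1 / m) ψ g) ≤ (16 * C0 + 4 * C0 ^ 2 + 28 * C0 ^ 2 / δ) * Xv
      + ((7 + 14 * (C0 / δ)) * (192 * C0 * C1) + 20000 * C0 * C1 ^ 2) * (1 / m) := by
  have m1 : (1 : ℝ) ≤ m := by exact_mod_cast hm
  have m0 : (0 : ℝ) < m := by linarith
  have hS := estew_L2 h e h0 hX
  have p1 := estew_poin h e hm (w := d.κ * d.κ) zero_le_one (fun x => mul_self_nonneg _)
    (fun x => by rw [(h.κ_zon.mul h.κ_zon).zav, one_smul]) hS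
  obtain ⟨S, hS'⟩ : ∃ S, S = 2 * C0 * Xv + 192 * C0 * C1 * (1 / m) := ⟨_, rfl⟩
  have S0 : 0 ≤ S := by rw [hS']; positivity
  rw [← hS'] at p1
  have a1 : I (∑ a, esteE d δ (1 / m) ψ g a * esteE d δ (1 / m) ψ g a)
      ≤ 3 * (5000 * C0 * C1 ^ 2) ^ 2 * (1 / m) ^ 2 := by
    have k := fun a => pow_le_pow_left₀ (norm_nonneg _) (estew_E h hk e h0 h1 hδ a) 2
    simp only [Fin.sum_univ_three, map_add, ← norm_sq_eq]
    linarith [k 0, k 1, k 2]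
  have a2 : nrm m 1 (d.κ * esteF d δ (1 / m) ψ g) ^ 2
      = (m * ‖d.κ * esteF d δ (1 / m) ψ g‖) ^ 2
        + I (∑ a, D a (d.κ * esteF d δ (1 / m) ψ g) * D a (d.κ * esteF d δ (1 / m) ψ g)) := by
    have := nrm_succ m1 0 (d.κ * esteF d δ (1 / m) ψ g)
    simp only [zero_add, nrm_zero m1] at this
    rw [this, ← gd_eq_D, gd, map_sum, mul_pow]
    simp only [norm_sq_eq]
  have a3 : I (∑ a, D a (d.κ * esteF d δ (1 / m) ψ g) * D a (d.κ * esteF d δ (1 / m) ψ g))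
      ≤ I ((4 : ℝ) • (∑ a, esteE d δ (1 / m) ψ g a * esteE d δ (1 / m) ψ g a)
        + (4 : ℝ) • (d.κ * d.κ * Hn ψ) + (8 * C0 ^ 3) • (d.κ * d.κ * (qq * qq * Hn (Zf g)))
        + (4 * (C0 / δ) ^ 2 * (m : ℝ) ^ 2) • (d.κ * d.κ
          * (esteP d (ψ - Zf g) * esteP d (ψ - Zf g)))) := by
    refine I_mono fun x => ?_
    obtain ⟨s1, s2, s3⟩ := este_sc (ψ := ψ) (g := g) h x
    have s4 : 0 ≤ ∑ a, esteE d δ (1 / m) ψ g a x * esteE d δ (1 / m) ψ g a x :=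
      Finset.sum_nonneg fun _ _ => mul_self_nonneg _
    by_cases hx : d.κ x = 0
    · simp only [Sm.sum_apply, Sm.mul_apply, Sm.add_apply, Sm.smul_apply, estey_V0 h _ hx, hx]
      simp only [zero_mul, mul_zero, add_zero, Finset.sum_const_zero]
      linarith
    obtain ⟨-, -, -, -, q5, q6⟩ := estez_sc (M := m * esteP d (ψ - Zf g) x) (h.κ_nonneg x) hδ h0
      (h.sn_le x) (h.cs_le x) s1 (h.qe_le x) (h.qe_ge x)
    have b1 := estez_up (estey_V h hδ m0.ne' ψ e.sm hx) (hn := Hn ψ x) (by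
      simpa only [Sm.sum_apply, Sm.mul_apply, este_w h hx, mul_one] using
        este_cs ψ x fun b => d.w b x) (este_w h hx) q5 q6
    have b2 := mul_le_mul_of_nonneg_left ((este_r h h0 e.sm hx).trans (mul_le_mul_of_nonneg_right
      (mul_le_of_le_one_right (by positivity) hτ) s3)) (mul_self_nonneg (d.κ x))
    generalize qq * qq * Hn (Zf g) = B at b2 ⊢
    simp only [Sm.sum_apply, Sm.mul_apply, Sm.add_apply, Sm.smul_apply] at b1 b2 ⊢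
    linarith
  have a4 : m * ‖d.κ * esteF d δ (1 / m) ψ g‖ ≤ 7 * S + 2 * (C0 * Xv) := by
    have b1 : m * ‖d.κ * esteP d (ψ - Zf g)‖ ≤ 7 * S := by
      refine nrmx_sq ?_ (by positivity)
      rw [mul_pow, norm_sq_eq, mul_mul_mul_comm]
      linarith
    have b2 : ‖d.κ * (d.be * (qq * zB g))‖ ≤ C0 * Xv := by
      refine nrmx_sq ?_ (by positivity)
      rw [norm_sq_eq, mul_pow]
      refine le_trans ?_ (mul_le_mul_of_nonneg_left e.kZ (sq_nonneg C0))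
      rw [← smul_eq_mul (C0 ^ 2), ← map_smul]
      refine I_mono fun x => ?_
      have c1 := estew_qB e.sm x
      generalize qq * zB g = B at c1 ⊢
      generalize qq * qq * Hn (Zf g) = B' at c1 ⊢
      simp only [Sm.mul_apply, Sm.smul_apply]
      by_cases hx : d.κ x = 0
      · simp [hx]
      have c2 : d.be x ^ 2 ≤ C0 ^ 2 := by
        linarith [(estew_ab h h0 hx).1, sq_nonneg (d.al x), le_self_pow₀ h0 two_ne_zero]
      have c3 := mul_le_mul c2 c1 (mul_self_nonneg _) (sq_nonneg _)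
      linarith [mul_le_mul_of_nonneg_left c3 (mul_self_nonneg (d.κ x))]
    have b3 := norm_mul_le (estey_S d hδ) (d.κ * esteP d (ψ - Zf g))
    have b4 := norm_mul_le (estey_J h hδ) (d.κ * (d.be * (qq * zB g)))
    have b5 := norm_add_le (esteS d δ * (d.κ * esteP d (ψ - Zf g)))
      ((1 / m : ℝ) • (esteJ d δ * (d.κ * (d.be * (qq * zB g)))))
    rw [norm_smul, Real.norm_of_nonneg (by positivity)] at b5
    have b6 := mul_le_mul_of_nonneg_left b5 m0.le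
    rw [mul_add, ← mul_assoc (m : ℝ), mul_one_div_cancel m0.ne', one_mul] at b6
    rw [esteF, mul_add, mul_smul_comm, mul_left_comm d.κ, mul_left_comm d.κ (esteJ d δ)]
    linarith [mul_le_mul_of_nonneg_left b3 m0.le]
  refine ⟨a1, by rw [a2]; exact le_add_of_nonneg_left (sq_nonneg _), ?_⟩
  simp only [map_add, map_smul, smul_eq_mul] at a3
  have b1 := pow_le_pow_left₀ (by positivity) a4 2
  have b2 := mul_le_mul_of_nonneg_left e.kZ (by positivity : 0 ≤ 8 * C0 ^ 3)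
  have b3 := mul_le_mul_of_nonneg_left p1 (by positivity : 0 ≤ 4 * (C0 / δ) ^ 2)
  have b4 : 1 * Xv ^ 2 ≤ C0 ^ 4 * Xv ^ 2 := by
    have := one_le_pow₀ h0 (n := 4)
    gcongr
  have b5 : C0 ^ 3 * Xv ^ 2 ≤ C0 ^ 4 * Xv ^ 2 := by
    have := pow_le_pow_right₀ h0 (by norm_num : 3 ≤ 4)
    gcongr
  have b6 : ∀ a b c d : ℝ, 0 ≤ a → 0 ≤ b → 0 ≤ c → 0 ≤ d →
      a ^ 2 + b ^ 2 + c ^ 2 + d ^ 2 ≤ (a + b + c + d) ^ 2 := fun a b c d ha hb hc hd => by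
    have : 0 ≤ a * b + a * c + a * d + b * c + b * d + c * d := by positivity
    linarith
  have b7 := b6 (7 * S + 2 * (C0 * Xv)) (20000 * C0 * C1 ^ 2 * (1 / m)) (4 * C0 ^ 2 * Xv)
    (14 * (C0 / δ) * S) (by positivity) (by positivity) (by positivity) (by positivity)
  have b8 : 0 ≤ (C0 * C1 ^ 2 * (1 / m)) ^ 2 := sq_nonneg _
  have b9 : 0 ≤ C0 ^ 4 * Xv ^ 2 := by positivity
  refine (nrmx_sq (le_trans ?_ b7) (by positivity)).trans_eq (by rw [hS']; ring)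
  linarith [e.kH]

/-- lower bound for the local form -/
theorem este_T (h : Loc k C0 τ C1 m d) (hg : ContDiff ℝ ∞ g) (h0 : 1 ≤ C0) (hδ : 0 < δ)
    (hm : 0 < m) {lam η : ℝ} (hl : 0 < lam) (hη : 0 < η) :
    I ((1 / (2 * C0)) • (d.κ * d.κ * cp (fun t => t ^ 2 / √(t ^ 2 + δ ^ 2)) d.sn * Hsq ψ d.w))
      ≤ I (Hv ψ (gr (d.κ * esteF d δ (1 / m) ψ g)) (gr d.fe)
        + (C0 ^ 4 * τ ^ 2) • (d.κ * d.κ * (qq * qq * Hn (Zf g)))
        + (C0 ^ 2 * lam * (m : ℝ) ^ 2) • (d.κ * d.κ * cp (fun t => δ ^ 2 / (t ^ 2 + δ ^ 2)) d.sn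
          * (esteP d (ψ - Zf g) * esteP d (ψ - Zf g)))
        + (C0 ^ 2 / (4 * lam)) • (d.κ * d.κ * cp (fun t => δ ^ 2 / (t ^ 2 + δ ^ 2)) d.sn * Hn ψ)
        + (C0 ^ 2 * η) • (d.κ * d.κ * Hn ψ)
        + (1 / (4 * η)) • (∑ a, esteE d δ (1 / m) ψ g a * esteE d δ (1 / m) ψ g a)
        + η • (∑ a, D a (d.κ * esteF d δ (1 / m) ψ g) * D a (d.κ * esteF d δ (1 / m) ψ g))
        + (1 / (4 * η) * (6 * C1 ^ 2)) • ((1 / m : ℝ) • (d.κ * d.κ * Hn ψ)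
          + (1 / m : ℝ) ^ 2 • Hn ψ)) := by
  have m0 : (0 : ℝ) < m := by exact_mod_cast hm
  refine I_mono fun x => ?_
  obtain ⟨s1, s2, s3⟩ := este_sc (ψ := ψ) (g := g) h x
  have s4 : 0 ≤ ∑ a, esteE d δ (1 / m) ψ g a x * esteE d δ (1 / m) ψ g a x :=
    Finset.sum_nonneg fun _ _ => mul_self_nonneg _
  by_cases hx : d.κ x = 0
  · simp only [Hv, gr, Sm.sum_apply, Sm.mul_apply, Sm.add_apply, Sm.smul_apply,
      estey_V0 h _ hx, hx]
    simp only [zero_mul, mul_zero, add_zero, zero_add, Finset.sum_const_zero]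
    positivity
  obtain ⟨q1, q2, q3, q4, -, -⟩ := estez_sc (M := m * esteP d (ψ - Zf g) x) (h.κ_nonneg x) hδ h0
    (h.sn_le x) (h.cs_le x) s1 (h.qe_le x) (h.qe_ge x)
  have hz : 0 ≤ X 2 x := (inv_nonneg.2 (by linarith)).trans (h.κ_supp x hx).1
  have c1 : ∑ b, (D b d.fe x - d.qe x * d.w b x) * (D b d.fe x - d.qe x * d.w b x)
      ≤ 6 * C1 ^ 2 * (1 / m * (d.κ x * d.κ x) + (1 / m) ^ 2) := by
    have k := fun c => mul_self_le_mul_self (abs_nonneg _) (h.grad_e x hz c)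
    have e : (d.κ x / √m) ^ 2 = 1 / m * (d.κ x * d.κ x) := by
      rw [div_pow, sq_sqrt m0.le]; ring
    have e' := mul_nonneg (sq_nonneg C1) (sq_nonneg (d.κ x / √m - 1 / m))
    simp only [abs_mul_abs_self] at k
    rw [Fin.sum_univ_three, ← e]
    linarith [k 0, k 1, k 2]
  have b1 := estez_pt (h.κ_nonneg x) h0 hl hη (by positivity) (estey_V h hδ m0.ne' ψ hg hx)
    (hn := Hn ψ x) (by
      simpa only [Sm.sum_apply, Sm.mul_apply, este_w h hx, mul_one] using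
        este_cs ψ x fun b => d.w b x) (este_w h hx)
    ((este_cs ψ x _).trans (mul_le_mul_of_nonneg_left c1 s2)) (by positivity) q1 q2 q3 q4
  have b2 := mul_le_mul_of_nonneg_left (este_r h h0 hg hx)
    (mul_nonneg (by positivity : 0 ≤ C0 / 2) (mul_self_nonneg (d.κ x)))
  generalize qq * qq * Hn (Zf g) = B at b2 ⊢
  generalize d.κ * esteF d δ (1 / m) ψ g = φ at b1 ⊢
  simp only [Hv, gr, Hsq, Fin.sum_univ_three, Sm.mul_apply, Sm.add_apply, Sm.smul_apply,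
    este_vp hδ, este_g hδ] at b1 b2 ⊢
  simp only [div_eq_mul_inv] at b1 b2 ⊢
  linarith

end

theorem estE : EstEStmt := by
  intro j C0 h0
  obtain ⟨A, hA, hc⟩ := estex_conj j
  refine ⟨52 * C0 ^ 5, by linarith [one_le_pow₀ h0 (n := 5)], fun δ hδ hδ1 => ?_⟩
  obtain ⟨K1, hK1⟩ : ∃ K1, K1 = 16 * C0 + 4 * C0 ^ 2 + 28 * C0 ^ 2 / δ := ⟨_, rfl⟩
  have k1 : 0 ≤ K1 := by rw [hK1]; positivity
  refine ⟨2 * C0 ^ 2 * A * K1, by positivity, fun τ C1 Λ γ hτ hτ1 h1 hΛ hγ => ?_⟩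
  have k2 : 0 ≤ (7 + 14 * (C0 / δ)) * (192 * C0 * C1) + 20000 * C0 * C1 ^ 2 := by positivity
  have k3 : 0 ≤ 13 * (192 * C0 * C1) := by positivity
  have k4 : 0 ≤ 3 * (5000 * C0 * C1 ^ 2) ^ 2 := by positivity
  have k5 : 0 ≤ C0 * C1 ^ 2 := by positivity
  have k6 : 0 ≤ 12 * C1 ^ 2 := by positivity
  obtain ⟨K, hK⟩ : ∃ K, K = ((7 + 14 * (C0 / δ)) * (192 * C0 * C1) + 20000 * C0 * C1 ^ 2)
    + 13 * (192 * C0 * C1) + 3 * (5000 * C0 * C1 ^ 2) ^ 2 + C0 * C1 ^ 2 + 12 * C1 ^ 2 + 1 :=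
    ⟨_, rfl⟩
  obtain ⟨η, C', hη, hC', hf⟩ := estez_fin h0 hA k1 (K := K) (by linarith) hγ
  refine ⟨C', ⌈(K / η ^ 2) ^ 2⌉₊ + 100, hC', fun m hm d go ge y h ha => ?_⟩
  obtain ⟨N, hN⟩ := ha.poly
  obtain ⟨g, e⟩ := estew_H h ha.ev ha.inv hN ha.le (by omega)
  have m0 : 0 < m := by omega
  have m1 : (1 : ℝ) ≤ m := by exact_mod_cast m0
  have m2 : (0 : ℝ) < m := by linarith
  have m3 : 0 < √(m : ℝ) := sqrt_pos.2 m2
  have m4 : K / η ^ 2 ≤ √m := le_sqrt_of_sq_le (Nat.ceil_le.1 (by omega))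
  have hu : 0 < 1 / (m : ℝ) := by positivity
  have hX : 0 ≤ XN d y := sqrt_nonneg _
  have hZ : 0 ≤ XZ y := sqrt_nonneg _
  have σ1 : √δ ≤ 1 := sqrt_le_one.2 hδ1
  obtain ⟨n1, n2, n3⟩ := este_N h (by omega) e h0 h1 hδ (pow_le_one₀ hτ.le hτ1) hX m0
  have vp0 : ∀ x, 0 ≤ (d.κ * d.κ * cp (fun t => δ ^ 2 / (t ^ 2 + δ ^ 2)) d.sn) x := fun x => by
    simp only [Sm.mul_apply, este_vp hδ]
    exact mul_nonneg (mul_self_nonneg _) (by positivity)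
  have y2 : YN d δ y ^ 2 = _ := sq_sqrt (I_nonneg fun x => mul_nonneg (vp0 x) (estew_Hn _ x))
  have y1 : YN d δ y ≤ XN d y := by
    refine nrmx_sq (y2.trans_le (le_trans (I_mono fun x => ?_) e.kH)) hX
    simp only [Sm.mul_apply, este_vp hδ]
    refine mul_le_mul_of_nonneg_right (mul_le_of_le_one_right (mul_self_nonneg _) ?_) (estew_Hn _ x)
    exact (div_le_one (by positivity)).2 (le_add_of_nonneg_left (sq_nonneg _))
  obtain ⟨W, w1, w2⟩ := estey_vp h hδ m2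
  have w3 : ∀ x, (d.κ * d.κ * cp (fun t => δ ^ 2 / (t ^ 2 + δ ^ 2)) d.sn) x ≤ W x := fun x => by
    simpa only [Sm.mul_apply, este_vp hδ] using w2 x
  have p1 := (mul_le_mul_of_nonneg_left (I_mono (φ := d.κ * d.κ * cp (fun t => δ ^ 2
    / (t ^ 2 + δ ^ 2)) d.sn * (esteP d (Dp y - Zf g) * esteP d (Dp y - Zf g))) fun x =>
    mul_le_mul_of_nonneg_right (w3 x) (mul_self_nonneg _)) (sq_nonneg (m : ℝ))).trans
    (estew_poin h e m0 (by positivity) (fun x => (vp0 x).trans (w3 x)) w1 (estew_L2 h e h0 hX))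
  have key := hf (XN d y) (YN d δ y) (XZ y) (nrm m 1 (d.κ * esteF d δ (1 / m) (Dp y) g))
    (I (d.κ * d.κ * cp (fun t => t ^ 2 / √(t ^ 2 + δ ^ 2)) d.sn * Hsq (Dp y) d.w))
    (tb d.fe (d.κ * esteF d δ (1 / m) (Dp y) g) y)
    (√δ * (13 * (2 * C0 * XN d y + 192 * C0 * C1 * (1 / m)))) _ τ (√δ) Λ (1 / √m) (1 / m)
    hX (sqrt_nonneg _) y1 hZ (nrm_nonneg _ _ _) (sqrt_nonneg _) σ1 hΛ hu
    (one_div_le_one_div_of_le m3 (by nlinarith [mul_self_sqrt m2.le, one_le_sqrt.2 m1]))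
    (by rw [div_le_iff₀ (by positivity)] at m4
        rw [one_div_mul_eq_div, div_le_iff₀ m3]
        linarith)
    (n3.trans (by rw [← hK1]; gcongr; linarith))
    ((le_abs_self _).trans ((hc _ h ha h0 h1 hΛ m1).trans (by
      have := nrm_nonneg m 1 (d.κ * esteF d δ (1 / m) (Dp y) g)
      rw [mul_one_div]; gcongr; linarith)))
    (by positivity)
    (by have : √δ * (13 * (192 * C0 * C1) * (1 / m)) ≤ 1 * (K * (1 / m)) := by gcongr; linarith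
        linarith)
    (n1.trans (by gcongr; linarith)) fun lam hl => by
      have t1 := este_T (ψ := Dp y) h e.sm h0 hδ m0 hl hη
      simp only [map_add, map_smul, smul_eq_mul] at t1
      rw [← beta_def, ← tb_def, tb_comm, ← y2] at t1
      have t2 := mul_le_mul_of_nonneg_left e.kZ (by positivity : 0 ≤ C0 ^ 4 * τ ^ 2)
      have t3 := mul_le_mul_of_nonneg_left p1 (by positivity : 0 ≤ C0 ^ 2 * lam)
      have t4 := mul_le_mul_of_nonneg_left e.kH (by positivity : 0 ≤ C0 ^ 2 * η)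
      have t5 := mul_le_mul_of_nonneg_left n2 hη.le
      have t6 : 6 * C1 ^ 2 * (1 / m * I (d.κ * d.κ * Hn (Dp y)) + (1 / m) ^ 2 * I (Hn (Dp y)))
          ≤ K * (1 / m * XN d y ^ 2 + (1 / m) ^ 2) := by
        have a1 := mul_le_mul_of_nonneg_left e.kH hu.le
        have a2 := mul_le_mul_of_nonneg_left ((I_Hn_Dp y).trans (mul_le_of_le_one_right zero_le_two
          (pow_le_one₀ (norm_nonneg y) ha.le))) (sq_nonneg (1 / (m : ℝ)))
        have a3 : 0 ≤ 1 / m * XN d y ^ 2 := by positivity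
        calc _ ≤ 6 * C1 ^ 2 * (2 * (1 / m * XN d y ^ 2 + (1 / m) ^ 2)) := by gcongr; linarith
          _ = 12 * C1 ^ 2 * (1 / m * XN d y ^ 2 + (1 / m) ^ 2) := by ring
          _ ≤ _ := by gcongr; linarith
      have t7 := mul_le_mul_of_nonneg_left t6 (by positivity : 0 ≤ 1 / (4 * η))
      have t8 : 0 ≤ C0 ^ 2 * lam * (δ * (2 * C0 * XN d y + 192 * C0 * C1 * (1 / m)) ^ 2) := by
        positivity
      rw [mul_pow, sq_sqrt hδ.le, div_eq_inv_mul, ← one_div]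
      linarith
  rw [one_div_pow, mul_one_div] at key
  exact key

end Pool.Agent.Lib.MP_2fa2a2_gt.PI
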