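import Pool.Agent.Lib.MP_2fa2a2_gt.PI.EstOY

/-! Error terms and the conjugation error for the estimate of the odd equation. -/

namespace Pool.Agent.Lib.MP_2fa2a2_gt.PI

open Real
open scoped ContDiff

theorem esto_sum3 (u v : Fin 3 → Sm) (x : S2) :
    (∑ e, u e * v e) x = u 0 x * v 0 x + u 1 x * v 1 x + u 2 x * v 2 x := by
  simp only [Fin.sum_univ_three, Sm.add_apply, Sm.mul_apply]

theorem esto_abs4 (a b c d : ℝ) : |a + b + c + d| ≤ |a| + |b| + |c| + |d| := by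
  linarith [abs_add_le (a + b + c) d, abs_add_three a b c]

/-- constant in the pointwise bounds for the derivatives of the odd part -/
noncomputable def estoB (j : ℕ) (C0 C1 : ℝ) : ℝ := 2 ^ (2 * j + 10) * (2 * C1) * (C0 + C1) + C1

section
variable {j : ℕ} {C0 τ C1 Λ : ℝ} {m : ℕ} {d : LD} {go ge y y0 : Sm} {p : ℝ → ℝ} {r σ : ℝ}
  (c : EO j C0 τ C1 Λ m d go ge y y0 p r σ)
include c

theorem EO.B_nonneg : 0 ≤ estoB j C0 C1 := by
  have := c.hC0
  have := c.hC1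
  unfold estoB
  positivity

theorem EO.go_Cb : Cb 2 1 (5 * r) go := by
  obtain ⟨r0, -, -, r1, hmr, -, -⟩ := c.basic
  refine esto_Cb (c.adj.go_le.trans ?_)
  rw [one_div, ← inv_pow, ← c.hr]
  nlinarith

theorem EO.D_go (e : Fin 3) (x : S2) : |D e go x| ≤ 10 * r := by
  have h := (Cb.D le_rfl
    (c.go_Cb.mono zero_le_one (show 0 + 1 ≤ 2 by norm_num) le_rfl le_rfl) e).abs_le x
  norm_num at h
  linarith

theorem EO.f_odd : ant (d.fo + go) = -(d.fo + go) :=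
  mem_Od.1 (Submodule.add_mem _ c.loc.fo_odd c.adj.go_odd)

theorem EO.err1 {χ : Sm} (hχ : χ ∈ Ev) {N1 N2 : ℝ} (b : Fin 3)
    (h1 : ‖d.κ * ∑ e, H b e χ * d.w e‖ ≤ N1) (h2 : ∀ e, ‖d.κ * H b e χ‖ ≤ N2)
    (h3 : ∀ e, ‖H b e χ‖ ≤ 2) :
    ‖∑ e, H b e χ * (D e (d.fo + go) - d.a * D e (X 2))‖
      ≤ 2 * (C0 * N1 + 3 * (C1 * σ * N2 + (C1 + 10) * r * 2)) := by
  obtain ⟨r0, s0, -, -, -, -, -⟩ := c.basic
  have h0 : 0 ≤ C0 := by linarith [c.hC0]
  have h0' : 0 ≤ C1 := by linarith [c.hC1]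
  refine ((EDom.abs h0 h1).add (EDom.sum3 fun e =>
    (EDom.abs (α := C1 * σ) (by positivity) (h2 e)).add
      (EDom.abs (α := (C1 + 10) * r) (by positivity) (h3 e)))).half ?_ fun x hx => ?_
  · simp only [map_sum, map_mul, map_sub, ant_H, ant_D, ant_X, mem_Ev.1 hχ, c.f_odd,
      mem_Ev.1 c.loc.a_even, map_neg, neg_neg]
  · have hk := c.loc.κ_nonneg x
    have h4 : ∀ e, |H b e χ x * (D e d.fo x - d.a x * D e (X 2) x - d.ut x * d.w e x
        + D e go x)| ≤ C1 * σ * |d.κ x * H b e χ x| + (C1 + 10) * r * |H b e χ x| := fun e => by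
      refine esto_term hk ((abs_add_le _ _).trans ?_)
      have h5 := c.loc.grad_o x hx e
      rw [div_eq_mul_inv, one_div, ← c.hσ, ← c.hr] at h5
      linarith [c.D_go e x]
    have h5 : |d.ut x * (∑ e, H b e χ * d.w e) x| ≤ C0 * |d.κ x * (∑ e, H b e χ * d.w e) x| := by
      rw [abs_mul, abs_mul, abs_of_nonneg hk, ← mul_assoc]
      exact mul_le_mul_of_nonneg_right (c.loc.ut_le x) (abs_nonneg _)
    have h6 : (∑ e, H b e χ * (D e (d.fo + go) - d.a * D e (X 2))) x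
        = d.ut x * (∑ e, H b e χ * d.w e) x
          + H b 0 χ x * (D 0 d.fo x - d.a x * D 0 (X 2) x - d.ut x * d.w 0 x + D 0 go x)
          + H b 1 χ x * (D 1 d.fo x - d.a x * D 1 (X 2) x - d.ut x * d.w 1 x + D 1 go x)
          + H b 2 χ x * (D 2 d.fo x - d.a x * D 2 (X 2) x - d.ut x * d.w 2 x + D 2 go x) := by
      simp only [esto_sum3, map_add, Sm.add_apply, Sm.sub_apply, Sm.mul_apply]
      ring
    rw [h6]
    refine (esto_abs4 _ _ _ _).trans ?_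
    simp only [Sm.mul_apply]
    linarith [h4 0, h4 1, h4 2]

theorem EO.err4 (b : Fin 3) : ‖∑ e, H b e (d.fo + go) * D e (Dp (y - y0))‖
    ≤ 2 * (C0 * (7 * (2 * XW d y + 192 * C0 * C1 * r))
      + 3 * (C1 * σ * (7 * C0 * (4 * XN d y + 192 * C0 * r)) + (C1 + 60) * (64 * r))) := by
  obtain ⟨r0, s0, -, r1, -, -, hs⟩ := c.basic
  have h0 : 0 ≤ C0 := by linarith [c.hC0]
  have h0' : 0 ≤ C1 := by linarith [c.hC1]
  have hm0 : (0 : ℝ) ≤ m := Nat.cast_nonneg m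
  set ψ := Dp (y - y0) with hψ
  have h1 : ‖(m : ℝ) • (d.κ * ∑ e, d.w e * D e ψ)‖ ≤ 7 * (2 * XW d y + 192 * C0 * C1 * r) := by
    rw [norm_smul, Real.norm_of_nonneg hm0]
    exact c.pw_le
  have h2 : ∀ e, ‖(m : ℝ) • (d.κ * D e ψ)‖ ≤ 7 * C0 * (4 * XN d y + 192 * C0 * r) := fun e => by
    rw [norm_smul, Real.norm_of_nonneg hm0]
    exact c.κD_le e
  refine ((EDom.abs h0 h1).add (EDom.sum3 fun e =>
    (EDom.abs (α := C1 * σ) (by positivity) (h2 e)).add
      (EDom.abs (α := C1 + 60) (by positivity)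
        ((esto_D_le e ψ).trans c.p_le)))).half ?_ fun x hx => ?_
  · simp only [map_sum, map_mul, ant_H, ant_D, mem_Ev.1 c.p_ev, c.f_odd, map_neg, hψ,
      neg_mul_neg]
  · have hk := c.loc.κ_nonneg x
    have h4 : ∀ e, |D e ψ x * (H b e d.fo x - d.mu x * d.w b x * d.w e x + H b e go x)|
        ≤ C1 * σ * |m * d.κ x * D e ψ x| + (C1 + 60) * |D e ψ x| := fun e => by
      refine esto_term (by positivity) ((abs_add_le _ _).trans ?_)
      have h5 := c.loc.hess_o x hx b e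
      rw [hs] at h5
      linarith [esto_H_pt c.go_Cb b e x]
    have h5 : |d.mu x * d.w b x * (∑ e, d.w e * D e ψ) x|
        ≤ C0 * |m * (d.κ x * (∑ e, d.w e * D e ψ) x)| := by
      rw [abs_mul, abs_mul, abs_mul, abs_mul, abs_of_nonneg hk, abs_of_nonneg hm0, ← mul_assoc,
        ← mul_assoc]
      refine mul_le_mul_of_nonneg_right ?_ (abs_nonneg _)
      have h6 := c.loc.mu_le x
      rcases eq_or_ne (d.κ x) 0 with h7 | h7
      · rw [h7, mul_zero] at h6 ⊢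
        rw [le_antisymm h6 (abs_nonneg _), zero_mul]
      · exact (mul_le_of_le_one_right (abs_nonneg _) (c.w_le h7 b)).trans h6
    have h6 : (∑ e, H b e (d.fo + go) * D e ψ) x
        = d.mu x * d.w b x * (∑ e, d.w e * D e ψ) x
          + D 0 ψ x * (H b 0 d.fo x - d.mu x * d.w b x * d.w 0 x + H b 0 go x)
          + D 1 ψ x * (H b 1 d.fo x - d.mu x * d.w b x * d.w 1 x + H b 1 go x)
          + D 2 ψ x * (H b 2 d.fo x - d.mu x * d.w b x * d.w 2 x + H b 2 go x) := by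
      simp only [esto_sum3, map_add, Sm.add_apply]
      ring
    rw [h6]
    refine (esto_abs4 _ _ _ _).trans ?_
    simp only [Sm.smul_apply, Sm.mul_apply, ← mul_assoc] at h5 ⊢
    linarith [h4 0, h4 1, h4 2]

theorem EO.Lw_fo (u : List (Fin 3)) (hu : u.length ≤ 2 * j + 10) (x : S2) :
    |Lw u d.fo x| ≤ C0 + (m : ℝ) ^ u.length * r
      * ((C0 + C1 * σ) * d.kb x + estoB j C0 C1 * r) := by
  obtain ⟨r0, s0, s1, r1, hmr, -, -⟩ := c.basic
  have h0 : 0 ≤ C0 := by linarith [c.hC0]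
  have h0' : 0 ≤ C1 := by linarith [c.hC1]
  have hm1 := c.m1
  have hm0 : (0 : ℝ) ≤ m := Nat.cast_nonneg m
  obtain ⟨k0, k1, -⟩ := c.kb_ge x
  have k2 : 0 ≤ d.kb x := k0.trans k1
  have hkb : Cb u.length 1 (C1 + C1) d.kb :=
    (c.loc.κ_Cb.add c.loc.κ_Cb.ant).mono zero_le_one hu le_rfl le_rfl
  have e2 : Cb u.length m (C0 * r) (d.kb * d.w2) :=
    c.loc.w2_Cb'.mono hm0 hu le_rfl (by rw [div_eq_mul_inv, ← c.hr])
  have e1 : Cb u.length m (C1 * r * σ) d.w1 :=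
    c.loc.w1_Cb.mono hm0 hu le_rfl (by rw [div_eq_mul_inv, mul_inv, ← c.hr, ← c.hσ, mul_assoc])
  have e0 : Cb u.length m (C1 * r ^ 2) d.w0 :=
    c.loc.w0_Cb.mono hm0 hu le_rfl (by rw [div_eq_mul_inv, ← inv_pow, ← c.hr])
  set M := (m : ℝ) ^ u.length with hM
  have hM0 : 0 ≤ M := by positivity
  have hp : (2 : ℝ) ^ u.length ≤ 2 ^ (2 * j + 10) := pow_le_pow_right₀ one_le_two hu
  set Q := (2 : ℝ) ^ (2 * j + 10) with hQ
  have key : ∀ {B : ℝ} {v : Sm}, 0 ≤ B → Cb u.length m B v →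
      |Lw u (d.kb * v) x| ≤ d.kb x * (B * M) + Q * (2 * C1) * B * M * r := by
    intro B v hB hv
    have a1 := esto_leib hm1 _ u rfl hkb hv x
    have a2 := hv u le_rfl x
    have a3 : |Lw u (d.kb * v) x - d.kb x * Lw u v x| ≤ Q * (2 * C1) * B * M * r := by
      calc |Lw u (d.kb * v) x - d.kb x * Lw u v x|
          = m * |Lw u (d.kb * v) x - d.kb x * Lw u v x| * r := by
            rw [mul_right_comm, hmr, one_mul]
        _ ≤ 2 ^ u.length * (C1 + C1) * B * M * r := mul_le_mul_of_nonneg_right a1 r0.le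
        _ ≤ Q * (C1 + C1) * B * M * r := by gcongr
        _ = _ := by ring
    have a4 : |d.kb x * Lw u v x| ≤ d.kb x * (B * M) := by
      rw [abs_mul, abs_of_nonneg k2]
      exact mul_le_mul_of_nonneg_left a2 k2
    linarith [abs_sub_abs_le_abs_sub (Lw u (d.kb * v) x) (d.kb x * Lw u v x)]
  have b0 := c.loc.G_Cb u hu x
  have b1 := key (by positivity) e2
  have b2 := key (by positivity) e1
  have b3 := e0 u le_rfl x
  have b4 : Q * (2 * C1) * (C1 * r * σ) * M * r ≤ Q * (2 * C1) * (C1 * r * 1) * M * r := by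
    gcongr
  rw [one_pow, mul_one] at b0
  rw [LD.fo, mul_assoc d.kb, map_add, map_add, map_add, Sm.add_apply, Sm.add_apply, Sm.add_apply]
  refine (esto_abs4 _ _ _ _).trans ?_
  unfold estoB
  rw [← hQ]
  linarith

theorem EO.f_le (x : S2) :
    |(d.fo + go) x| ≤ C0 + (C0 + C1) * (2 * C0) + estoB j C0 C1 + 5 ∧
    ∀ e, |D e (d.fo + go) x| ≤ 2 * (C0 + (C0 + C1) * (2 * C0) + estoB j C0 C1 + 5) := by
  obtain ⟨r0, s0, s1, r1, hmr, -, -⟩ := c.basic
  have h0 : 0 ≤ C0 := by linarith [c.hC0]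
  have h0' : 0 ≤ C1 := by linarith [c.hC1]
  have hB := c.B_nonneg
  obtain ⟨k0, k1, k3⟩ := c.kb_ge x
  have k2 : 0 ≤ d.kb x := k0.trans k1
  have h1 : (C0 + C1 * σ) * d.kb x + estoB j C0 C1 * r
      ≤ (C0 + C1 * 1) * (2 * C0) + estoB j C0 C1 * 1 := by gcongr
  have h2 : 0 ≤ (C0 + C1 * σ) * d.kb x + estoB j C0 C1 * r := by positivity
  have h3 : ∀ a, |L a d.fo x| ≤ C0 + (C0 + C1) * (2 * C0) + estoB j C0 C1 := fun a => by
    have h4 := c.Lw_fo [a] (by simp) x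
    simp only [Lw_cons, Lw_nil, List.length_singleton, pow_one, hmr] at h4
    linarith
  constructor
  · have h4 := c.Lw_fo [] (by simp) x
    simp only [Lw_nil, List.length_nil, pow_zero, one_mul] at h4
    have h5 := mul_le_of_le_one_left h2 r1
    have h6 := c.go_Cb.abs_le x
    rw [Sm.add_apply]
    linarith [abs_add_le (d.fo x) (go x)]
  · intro e
    rw [map_add, Sm.add_apply]
    linarith [abs_add_le (D e d.fo x) (D e go x), esto_D_pt e d.fo x, h3 (e + 1), h3 (e + 2),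
      c.D_go e x]

theorem EO.D_Lw_fo {v : List (Fin 3)} (hv : v ≠ []) (hl : v.length ≤ 2 * j) (a : Fin 3) (x : S2) :
    (Λ * m)⁻¹ ^ v.length * |D a (Lw v d.fo) x|
      ≤ 2 * (C0 / Λ + C1 * σ) * d.kb x + 2 * (C0 + estoB j C0 C1) * r := by
  obtain ⟨r0, s0, s1, r1, hmr, -, -⟩ := c.basic
  have h0 : 0 ≤ C0 := by linarith [c.hC0]
  have h0' : 0 ≤ C1 := by linarith [c.hC1]
  have hB := c.B_nonneg
  have hΛ := c.hΛ
  have hm0 : (0 : ℝ) ≤ m := Nat.cast_nonneg m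
  obtain ⟨k0, k1, -⟩ := c.kb_ge x
  have k2 : 0 ≤ d.kb x := k0.trans k1
  have i0 : 0 < Λ⁻¹ := by positivity
  have i1 : Λ⁻¹ ≤ 1 := inv_le_one_of_one_le₀ hΛ
  have hn : v.length ≠ 0 := by simpa using hv
  have h1 : (Λ * m)⁻¹ ^ v.length ≤ r := by
    rw [mul_inv, ← c.hr]
    have h2 := mul_le_of_le_one_left r0.le i1
    exact (pow_le_of_le_one (by positivity) (h2.trans r1) hn).trans h2
  have h2 : (Λ * m)⁻¹ ^ v.length * ((m : ℝ) ^ (v.length + 1) * r) ≤ Λ⁻¹ := by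
    rw [pow_succ, mul_assoc, hmr, mul_one, ← mul_pow, mul_inv, ← c.hr, mul_assoc, mul_comm r,
      hmr, mul_one]
    exact pow_le_of_le_one i0.le i1 hn
  have h3 : ∀ e, (Λ * m)⁻¹ ^ v.length * |L e (Lw v d.fo) x|
      ≤ (C0 / Λ + C1 * σ) * d.kb x + (C0 + estoB j C0 C1) * r := fun e => by
    have h4 := c.Lw_fo (e :: v) (by rw [List.length_cons]; omega) x
    rw [Lw_cons, List.length_cons] at h4
    have h5 : 0 ≤ (C0 + C1 * σ) * d.kb x + estoB j C0 C1 * r := by positivity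
    calc (Λ * m)⁻¹ ^ v.length * |L e (Lw v d.fo) x|
        ≤ (Λ * m)⁻¹ ^ v.length * (C0 + (m : ℝ) ^ (v.length + 1) * r
          * ((C0 + C1 * σ) * d.kb x + estoB j C0 C1 * r)) :=
          mul_le_mul_of_nonneg_left h4 (by positivity)
      _ = (Λ * m)⁻¹ ^ v.length * C0 + (Λ * m)⁻¹ ^ v.length * ((m : ℝ) ^ (v.length + 1) * r)
          * ((C0 + C1 * σ) * d.kb x + estoB j C0 C1 * r) := by ring
      _ ≤ r * C0 + Λ⁻¹ * ((C0 + C1 * σ) * d.kb x + estoB j C0 C1 * r) := by gcongr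
      _ = r * C0 + C0 / Λ * d.kb x + Λ⁻¹ * (C1 * σ * d.kb x + estoB j C0 C1 * r) := by ring
      _ ≤ r * C0 + C0 / Λ * d.kb x + 1 * (C1 * σ * d.kb x + estoB j C0 C1 * r) := by gcongr
      _ = _ := by ring
  have h6 := mul_le_mul_of_nonneg_left (esto_D_pt a (Lw v d.fo) x)
    (show 0 ≤ (Λ * m)⁻¹ ^ v.length by positivity)
  linarith [h3 (a + 1), h3 (a + 2)]

theorem EO.conj {v w : List (Fin 3)} (hv : v ≠ []) (hl : v.length + w.length ≤ 2 * j) (φ : Sm) :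
    (Λ * m)⁻¹ ^ (v.length + w.length) * |tb (Lw v d.fo) (Lw w (DI (Λ * m)⁻¹ j φ)) y|
      ≤ 9 * (2 * (C0 / Λ + C1 * σ) * XN d y + 2 * (C0 + estoB j C0 C1) * r * 2)
        * nrm 1 1 φ := by
  obtain ⟨r0, s0, -, -, -, -, -⟩ := c.basic
  have h0 : 0 ≤ C0 := by linarith [c.hC0]
  have h0' : 0 ≤ C1 := by linarith [c.hC1]
  have hB := c.B_nonneg
  have hΛ := c.hΛ
  have hh : 0 ≤ (Λ * m)⁻¹ := by positivity
  set h := (Λ * m)⁻¹ with hdef
  set K := 2 * (C0 / Λ + C1 * σ) * XN d y + 2 * (C0 + estoB j C0 C1) * r * 2 with hK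
  have h1 : ∀ a b, ‖h ^ v.length • (H a b (Dp y) * D a (Lw v d.fo))‖ ≤ K := fun a b => by
    refine ((EDom.abs (α := 2 * (C0 / Λ + C1 * σ)) (by positivity)
      (c.kb_le fun x => esto_H_le a b _ x)).add
      (EDom.abs (α := 2 * (C0 + estoB j C0 C1) * r) (by positivity) (c.H_le a b))).le fun x => ?_
    obtain ⟨k0, k1, -⟩ := c.kb_ge x
    have h2 := esto_term (a := H a b (Dp y) x) (r := h ^ v.length * D a (Lw v d.fo) x)
      (k0.trans k1) (by
        rw [abs_mul, abs_of_nonneg (pow_nonneg hh _)]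
        exact c.D_Lw_fo hv (by omega) a x)
    rw [Sm.smul_apply, Sm.mul_apply, Sm.mul_apply, mul_left_comm]
    exact h2
  have h2 : ∀ a b, h ^ (v.length + w.length)
      * |I (H a b (Dp y) * D a (Lw v d.fo) * D b (Lw w (DI h j φ)))| ≤ K * nrm 1 1 φ := by
    intro a b
    have h3 := h1 a b
    rw [norm_smul, Real.norm_of_nonneg (pow_nonneg hh _)] at h3
    calc h ^ (v.length + w.length) * |I (H a b (Dp y) * D a (Lw v d.fo) * D b (Lw w (DI h j φ)))|
        ≤ h ^ (v.length + w.length)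
          * (‖H a b (Dp y) * D a (Lw v d.fo)‖ * ‖D b (Lw w (DI h j φ))‖) :=
          mul_le_mul_of_nonneg_left (abs_I_mul_le _ _) (pow_nonneg hh _)
      _ = h ^ v.length * ‖H a b (Dp y) * D a (Lw v d.fo)‖
          * (h ^ w.length * ‖D b (Lw w (DI h j φ))‖) := by ring
      _ ≤ K * nrm 1 1 φ :=
          mul_le_mul h3 (esto_DI hh (by omega) b φ) (by positivity)
            (le_trans (by positivity) h3)
  rw [tb_def, beta_def, Hv]
  simp only [map_sum, gr]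
  calc h ^ (v.length + w.length)
        * |∑ a, ∑ b, I (H a b (Dp y) * D a (Lw v d.fo) * D b (Lw w (DI h j φ)))|
      ≤ h ^ (v.length + w.length)
        * ∑ a, ∑ b, |I (H a b (Dp y) * D a (Lw v d.fo) * D b (Lw w (DI h j φ)))| :=
        mul_le_mul_of_nonneg_left ((Finset.abs_sum_le_sum_abs _ _).trans
          (Finset.sum_le_sum fun a _ => Finset.abs_sum_le_sum_abs _ _)) (pow_nonneg hh _)
    _ ≤ ∑ _a : Fin 3, ∑ _b : Fin 3, K * nrm 1 1 φ := by
        simp only [Finset.mul_sum]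
        exact Finset.sum_le_sum fun a _ => Finset.sum_le_sum fun b _ => h2 a b
    _ = 9 * K * nrm 1 1 φ := by
        simp only [Fin.sum_univ_three]
        ring

end

end Pool.Agent.Lib.MP_2fa2a2_gt.PI
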