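import Pool.Agent.Lib.MP_2fa2a2_gt.PI.SLoc
import Pool.Agent.Lib.MP_2fa2a2_gt.PI.Comm
import Pool.Agent.Lib.MP_2fa2a2_gt.PI.EstOZ

namespace Pool.Agent.Lib.MP_2fa2a2_gt.PI

open Real
open scoped ContDiff

theorem esto_quad {a b c E K N : ℝ} (hE : 0 ≤ E) (hK : 0 ≤ K) (hN : N ≤ 2 * (a + b + c + 3 * E))
    (h : a ^ 2 + b ^ 2 + c ^ 2 - (a + b + c) * E ≤ K * N) : a + b + c ≤ 3 * E + 12 * K := by
  by_contra hc
  rw [not_le] at hc
  have h1 : (a + b + c) ^ 2 ≤ 3 * (a ^ 2 + b ^ 2 + c ^ 2) := by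
    nlinarith [sq_nonneg (a - b), sq_nonneg (a - c), sq_nonneg (b - c)]
  have h2 : K * N ≤ K * (4 * (a + b + c)) := mul_le_mul_of_nonneg_left (by linarith) hK
  have h3 : 0 < a + b + c := by linarith
  nlinarith [mul_lt_mul_of_pos_left hc h3]

theorem esto_alg {C q κ Hn hz hm hl Sz Sw U al be om : ℝ} (hC : 1 ≤ C) (hq : 1 ≤ C * q)
    (q1 : q ≤ 1) (k0 : 0 ≤ κ) (k1 : κ ≤ C) (h1 : q ^ 2 * Hn = hz ^ 2 + 2 * hm ^ 2 + hl ^ 2)
    (h2 : q * Sz = hz ^ 2 + hm ^ 2) (h3 : q * Sw = U ^ 2 + (al * hm + be * hl) ^ 2)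
    (h4 : (al ^ 2 + be ^ 2) * q = 1) (h5 : om * be * q = 1) (o0 : 0 ≤ om) (o1 : om ≤ C)
    (z0 : 0 ≤ Sz) (w0 : 0 ≤ Sw) (n0 : 0 ≤ Hn) :
    κ * κ * Hn ≤ 4 * C ^ 8 * (Sz + κ * κ * Sw) := by
  have C0 : 0 < C := by linarith
  have q0 : 0 < q := (mul_pos_iff_of_pos_left C0).1 (by linarith)
  have a1 : hl = om * q * (al * hm + be * hl - al * hm) := by linear_combination -(hl * h5)
  have a2 : (om * q) ^ 2 ≤ C ^ 2 :=
    pow_le_pow_left₀ (by positivity) ((mul_le_of_le_one_right o0 q1).trans o1) 2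
  have a3 : al ^ 2 ≤ C := by
    have b1 : al ^ 2 * q ≤ 1 := by nlinarith [mul_nonneg (sq_nonneg be) q0.le]
    nlinarith [mul_le_mul_of_nonneg_left hq (sq_nonneg al), mul_le_mul_of_nonneg_left b1 C0.le]
  have a4 : hz ^ 2 + hm ^ 2 ≤ Sz := h2 ▸ mul_le_of_le_one_left z0 q1
  have a5 : (al * hm + be * hl) ^ 2 ≤ Sw := by
    linarith [mul_le_of_le_one_left w0 q1, sq_nonneg U]
  have a6 : al ^ 2 * hm ^ 2 ≤ C * Sz :=
    mul_le_mul a3 (by linarith [sq_nonneg hz]) (sq_nonneg _) C0.le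
  have a7 : (al * hm + be * hl - al * hm) ^ 2 ≤ 2 * Sw + 2 * (C * Sz) := by
    nlinarith [sq_nonneg (al * hm + be * hl + al * hm)]
  have a8 : hl ^ 2 ≤ C ^ 2 * (2 * Sw + 2 * (C * Sz)) := by
    calc hl ^ 2 = (om * q) ^ 2 * (al * hm + be * hl - al * hm) ^ 2 := by
          rw [← mul_pow, ← a1]
      _ ≤ _ := mul_le_mul a2 a7 (sq_nonneg _) (sq_nonneg _)
  have a9 : Sz ≤ C ^ 3 * Sz := le_mul_of_one_le_left z0 (one_le_pow₀ hC)
  have a10 : q ^ 2 * Hn ≤ 4 * C ^ 3 * Sz + 2 * C ^ 2 * Sw := by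
    linarith [sq_nonneg hz]
  have a11 : Hn ≤ C ^ 2 * (4 * C ^ 3 * Sz + 2 * C ^ 2 * Sw) := by
    calc Hn ≤ (C * q) ^ 2 * Hn := le_mul_of_one_le_left n0 (one_le_pow₀ hq)
      _ = C ^ 2 * (q ^ 2 * Hn) := by ring
      _ ≤ _ := mul_le_mul_of_nonneg_left a10 (sq_nonneg _)
  calc κ * κ * Hn ≤ κ * κ * (C ^ 2 * (4 * C ^ 3 * Sz + 2 * C ^ 2 * Sw)) :=
        mul_le_mul_of_nonneg_left a11 (by positivity)
    _ = 4 * C ^ 5 * 1 * (κ * κ) * Sz + 2 * C ^ 4 * 1 * (κ * κ * Sw) := by ring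
    _ ≤ 4 * C ^ 5 * C * (C * C) * Sz + 4 * C ^ 4 * C ^ 4 * (κ * κ * Sw) := by
        gcongr
        · norm_num
        · exact one_le_pow₀ hC
    _ = _ := by ring

theorem esto_tb (f φ y : Sm) :
    tb f φ y = ∑ b, inner ℝ (∑ e, H b e (Dp y) * D e f) (D b φ) := by
  simp only [inner_def]
  rw [tb_def, beta_def, ← map_sum]
  congr 1
  simp only [Hv, gr, Fin.sum_univ_three]
  rw [H_symm 1 0, H_symm 2 0, H_symm 2 1]
  ring

theorem esto_inner {u v : Sm} {E : ℝ} (h : ‖v - u‖ ≤ E) :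
    ‖u‖ ^ 2 - ‖u‖ * E ≤ inner ℝ u v ∧ ‖v‖ ≤ ‖u‖ + E := by
  constructor
  · have h1 : inner ℝ u v = ‖u‖ ^ 2 + inner ℝ u (v - u) := by
      rw [inner_sub_right, real_inner_self_eq_norm_sq]
      ring
    have h2 := abs_real_inner_le_norm u (v - u)
    have h3 := mul_le_mul_of_nonneg_left h (norm_nonneg u)
    linarith [neg_abs_le (inner ℝ u (v - u))]
  · linarith [norm_sub_norm_le v u]

/-- constant of the terms of order `1 / m` in the gradient of the test function -/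
noncomputable def estoK (j : ℕ) (C0 C1 : ℝ) : ℝ :=
  10752 * C0 ^ 2 * C1 + 384 * (C1 + 60) + 12 * (C1 + 10)
    + 192 * (C0 + (C0 + C1) * (2 * C0) + estoB j C0 C1 + 5)

section
variable {j : ℕ} {C0 τ C1 Λ : ℝ} {m : ℕ} {d : LD} {go ge y y0 : Sm} {p : ℝ → ℝ} {r σ : ℝ}
  (c : EO j C0 τ C1 Λ m d go ge y y0 p r σ)
include c

theorem EO.grad (b : Fin 3) :
    ‖D b (gd (d.fo + go) (Dp (y - y0)) + prim (d.a * zA p))
        - ∑ e, H b e (Dp y) * D e (d.fo + go)‖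
      ≤ 32 * C0 ^ 2 * XW d y + 192 * C0 * C1 * (σ * XN d y) + estoK j C0 C1 * r := by
  obtain ⟨r0, s0, s1, -, -, -, -⟩ := c.basic
  have h0 : 0 ≤ C0 := by linarith [c.hC0]
  have h0' : 0 ≤ C1 := by linarith [c.hC1]
  have hB := c.B_nonneg
  have hA : Zon (zA p) := ((Zon_qq.mul (Zon_Zf _)).sub (Zon_X2.mul (Zon_Zf _))).add (Zon_Zf _)
  have h1 := H_Zf_z c.hp b
  rw [← c.hψ0] at h1
  have h2 : D b (gd (d.fo + go) (Dp (y - y0)) + prim (d.a * zA p))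
        - ∑ e, H b e (Dp y) * D e (d.fo + go)
      = ∑ e, H b e (d.fo + go) * D e (Dp (y - y0)) - (d.fo + go) * D b (Dp (y - y0))
        - D b (d.fo + go) * Dp (y - y0)
        - ∑ e, H b e (Dp y0) * (D e (d.fo + go) - d.a * D e (X 2)) := by
    have h3 : ∀ e, H b e (Dp y) = H b e (Dp y0) + H b e (Dp (y - y0)) := fun e => by
      rw [map_sub, map_sub]; ring
    rw [map_add, esto_D_gd, D_prim (c.loc.a_zon.mul hA)]
    simp only [h3, Fin.sum_univ_three] at h1 ⊢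
    linear_combination -(d.a * h1)
  set F := C0 + (C0 + C1) * (2 * C0) + estoB j C0 C1 + 5 with hF
  have F0 : 0 ≤ F := by positivity
  have e1 := c.err4 b
  have e2 : ‖(d.fo + go) * D b (Dp (y - y0))‖ ≤ F * (64 * r) :=
    (norm_mul_le (fun x => (c.f_le x).1) _).trans
      (mul_le_mul_of_nonneg_left ((esto_D_le _ _).trans c.p_le) F0)
  have e3 : ‖D b (d.fo + go) * Dp (y - y0)‖ ≤ 2 * F * (64 * r) :=
    (norm_mul_le (fun x => (c.f_le x).2 b) _).trans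
      (mul_le_mul_of_nonneg_left ((esto_0_le _).trans c.p_le) (by positivity))
  have e4 := c.err1 (χ := Dp y0) (fn_mem_Ev _ (esto_ev0 c.hy0 c.adj.ev)) b (c.κH0w_le b)
    (c.κH0_le b) (c.H0_le b)
  have W0 : 0 ≤ XW d y := sqrt_nonneg _
  have e5 : C0 * 1 * XW d y ≤ C0 * C0 * XW d y := by gcongr; exact c.hC0
  have e6 : C0 * C0 * C1 * r * σ ≤ C0 * C0 * C1 * r * 1 := by gcongr
  rw [h2]
  refine (norm_sub_le _ _).trans ?_
  refine (add_le_add_left (norm_sub_le _ _) _).trans ?_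
  refine (add_le_add_left (add_le_add_left (norm_sub_le _ _) _) _).trans ?_
  unfold estoK
  rw [← hF]
  linarith

theorem EO.J_le {Cj : ℝ} (hj : 0 ≤ Cj) (hleib : ∀ {Y : ℝ} {g : Sm},
      (∀ v w : List (Fin 3), v ≠ [] → v.length + w.length ≤ 2 * j →
        (Λ * m)⁻¹ ^ (v.length + w.length)
          * |tb (Lw v d.fo) (Lw w (DI (Λ * m)⁻¹ j g)) y| ≤ Y) →
      |tb d.fo (DI (Λ * m)⁻¹ j g) (DD (Λ * m)⁻¹ j y) - tb d.fo g y| ≤ Cj * Y) :
    ‖∑ e, H 0 e (Dp y) * D e (d.fo + go)‖ + ‖∑ e, H 1 e (Dp y) * D e (d.fo + go)‖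
        + ‖∑ e, H 2 e (Dp y) * D e (d.fo + go)‖
      ≤ 3 * (32 * C0 ^ 2 * XW d y + 192 * C0 * C1 * (σ * XN d y) + estoK j C0 C1 * r)
        + 12 * (r + Cj * (9 * (2 * (C0 / Λ + C1 * σ) * XN d y
          + 2 * (C0 + estoB j C0 C1) * r * 2))) := by
  obtain ⟨r0, s0, -, r1, -, -, -⟩ := c.basic
  have h0 : 0 ≤ C0 := by linarith [c.hC0]
  have h0' : 0 ≤ C1 := by linarith [c.hC1]
  have hB := c.B_nonneg
  have hΛ := c.hΛ
  have X0 : 0 ≤ XN d y := sqrt_nonneg _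
  set φ := gd (d.fo + go) (Dp (y - y0)) + prim (d.a * zA p) with hφ
  set φ' := φ - algebraMap ℝ Sm (I φ) with hφ'
  have h1 : ∀ b, D b φ' = D b φ := fun b => by rw [hφ', map_sub, D_algebraMap, sub_zero]
  have h2 := esto_mean (φ := φ') (by rw [hφ', map_sub, harm_I_alg, sub_self])
  have h3 := fun b => esto_inner (c.grad b)
  have h4 := esto_tb (d.fo + go) φ' y
  simp only [h1] at h2 h4
  rw [Fin.sum_univ_three, map_add, LinearMap.add_apply, LinearMap.add_apply] at h4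
  have h5 := hleib fun v w hv hl => c.conj hv hl φ'
  have h6 := c.adj.eqo φ'
  have h7 : 1 / (m : ℝ) ^ 2 * ‖φ'‖ ≤ r * nrm 1 1 φ' := by
    refine mul_le_mul ?_ (esto_0_le _) (norm_nonneg _) r0.le
    rw [one_div, ← inv_pow, ← c.hr]
    nlinarith
  have h8 : 0 ≤ r * nrm 1 1 φ' := mul_nonneg r0.le (nrm_nonneg _ _ _)
  refine esto_quad (N := nrm 1 1 φ') ((norm_nonneg _).trans (c.grad 0)) (by positivity) ?_ ?_
  · linarith [(h3 0).2, (h3 1).2, (h3 2).2]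
  · linarith [(h3 0).1, (h3 1).1, (h3 2).1, le_abs_self (2 * tb d.fo (DI (Λ * m)⁻¹ j φ')
      (DD (Λ * m)⁻¹ j y) + 2 * tb go φ' y), neg_abs_le (tb d.fo (DI (Λ * m)⁻¹ j φ')
      (DD (Λ * m)⁻¹ j y) - tb d.fo φ' y)]

theorem EO.Z_le : XZ y ≤ C0 * (‖∑ e, H 0 e (Dp y) * D e (d.fo + go)‖
      + ‖∑ e, H 1 e (Dp y) * D e (d.fo + go)‖ + ‖∑ e, H 2 e (Dp y) * D e (d.fo + go)‖
      + 6 * (C0 * XW d y + 3 * (C1 * σ * XN d y + (C1 + 10) * r * 2))) := by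
  have h0 : 0 < C0 := by linarith [c.hC0]
  have h1 := esto_sqrt_le 1 fun a => ∑ b, H a b (Dp y) * gr (X 2) b
  simp only [one_mul] at h1
  have h2 : ∀ b, ‖∑ e, H b e (Dp y) * gr (X 2) e‖ ≤ C0 * (‖∑ e, H b e (Dp y) * D e (d.fo + go)‖
      + 2 * (C0 * XW d y + 3 * (C1 * σ * XN d y + (C1 + 10) * r * 2))) := fun b => by
    have h3 := c.err1 (χ := Dp y) (fn_mem_Ev _ c.adj.ev) b (c.κHw_le b)
      (fun e => c.κ_le fun x => esto_H_le b e _ x) (c.H_le b)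
    have h4 : d.a * ∑ e, H b e (Dp y) * gr (X 2) e = ∑ e, H b e (Dp y) * D e (d.fo + go)
        - ∑ e, H b e (Dp y) * (D e (d.fo + go) - d.a * D e (X 2)) := by
      simp only [gr, Fin.sum_univ_three]
      ring
    refine (EDom.abs h0.le (p := d.a * ∑ e, H b e (Dp y) * gr (X 2) e) ?_).le fun x => ?_
    · rw [h4]
      exact (norm_sub_le _ _).trans (add_le_add_right h3 _)
    · have h5 := mul_le_mul_of_nonneg_left (c.loc.a_ge x) h0.le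
      rw [mul_inv_cancel₀ h0.ne'] at h5
      rw [Sm.mul_apply, abs_mul, ← mul_assoc]
      exact le_mul_of_one_le_left (abs_nonneg _)
        (h5.trans (mul_le_mul_of_nonneg_left (le_abs_self _) h0.le))
  refine le_trans h1 ?_
  linarith [h2 0, h2 1, h2 2]

theorem EO.W_le : XW d y ≤ 9 * XN d y := by
  have h1 := esto_sqrt_le d.κ fun a => ∑ b, H a b (Dp y) * d.w b
  have h2 : ∀ b, ‖d.κ * ∑ e, H b e (Dp y) * d.w e‖ ≤ 3 * (1 * XN d y) := fun b => by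
    refine (EDom.sum3 fun e => EDom.abs zero_le_one
      (c.κ_le fun x => esto_H_le b e (Dp y) x)).le fun x => ?_
    simp only [Sm.mul_apply, esto_sum3, one_mul, abs_mul]
    rcases eq_or_ne (d.κ x) 0 with hx | hx
    · simp [hx]
    have h3 : ∀ e, |H b e (Dp y) x * d.w e x| ≤ |H b e (Dp y) x| := fun e => by
      rw [abs_mul]
      exact mul_le_of_le_one_right (abs_nonneg _) (c.w_le hx e)
    rw [← mul_add, ← mul_add]
    refine mul_le_mul_of_nonneg_left ((abs_add_three _ _ _).trans ?_) (abs_nonneg _)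
    linarith [h3 0, h3 1, h3 2]
  refine le_trans h1 ?_
  linarith [h2 0, h2 1, h2 2]

theorem EO.X_le : XN d y ≤ 4 * C0 ^ 4 * (XZ y + XW d y) := by
  have h0 : 0 < C0 := by linarith [c.hC0]
  have h1 : I (ant d.κ * ant d.κ * Hn (Dp y)) = I (d.κ * d.κ * Hn (Dp y)) := by
    have h2 : ant (Hn (Dp y)) = Hn (Dp y) := by
      have h3 : Hn (ant (Dp y)) = ant (Hn (Dp y)) := Hn_act _ _
      have h4 : ant (Dp y) = Dp y := fn_mem_Ev _ c.adj.ev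
      rw [← h3, h4]
    have h4 : I (ant (d.κ * d.κ * Hn (Dp y))) = I (d.κ * d.κ * Hn (Dp y)) := I_act _ _
    rwa [map_mul ant, map_mul ant, h2] at h4
  have h2 : I (d.kb * d.kb * Hn (Dp y)) ≤ I ((2 : ℝ) • (d.κ * d.κ * Hn (Dp y))
      + (2 : ℝ) • (ant d.κ * ant d.κ * Hn (Dp y))) := I_mono fun x => by
    simp only [LD.kb, Sm.add_apply, Sm.mul_apply, Sm.smul_apply]
    nlinarith [mul_nonneg (sq_nonneg (d.κ x - ant d.κ x)) (esto_Hn_nonneg (Dp y) x)]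
  have h3 : I (d.κ * d.κ * Hn (Dp y)) ≤ I ((4 * C0 ^ 8) • (Hsq (Dp y) (gr (X 2))
      + d.κ * d.κ * Hsq (Dp y) d.w)) := I_mono fun x => by
    simp only [Sm.add_apply, Sm.mul_apply, Sm.smul_apply]
    have z0 := esto_Hsq_nonneg (Dp y) (gr (X 2)) x
    rcases eq_or_ne (d.κ x) 0 with hx | hx
    · rw [hx]
      simp only [zero_mul, add_zero]
      positivity
    have h4 := esto_qHsq (Dp y) (gr (X 2)) x
    have h5 := esto_qHsq (Dp y) d.w x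
    rw [Hv_z_z, hess_Hv_comm _ rl] at h4
    rw [esto_U2, Sm.add_apply, Sm.mul_apply, Sm.mul_apply] at h5
    exact esto_alg c.hC0 (c.q_ge hx) (esto_qq x).2 (c.loc.κ_nonneg x) (c.loc.κ_le x)
      (esto_qHn _ x) h4 h5 (c.loc.unit x hx) (c.loc.om_be x hx)
      ((inv_nonneg.2 h0.le).trans (c.loc.om_ge x)) (c.loc.om_le x) z0
      (esto_Hsq_nonneg _ _ x) (esto_Hn_nonneg _ x)
  have h4 : XZ y ^ 2 = I (Hsq (Dp y) (gr (X 2))) :=
    sq_sqrt (I_nonneg fun x => esto_Hsq_nonneg _ _ x)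
  have h5 : XW d y ^ 2 = I (d.κ * d.κ * Hsq (Dp y) d.w) :=
    sq_sqrt (I_nonneg fun x => by
      rw [Sm.mul_apply, Sm.mul_apply]
      exact mul_nonneg (mul_self_nonneg _) (esto_Hsq_nonneg _ _ x))
  have Z0 : 0 ≤ XZ y := sqrt_nonneg _
  have W0 : 0 ≤ XW d y := sqrt_nonneg _
  rw [map_add, map_smul, map_smul, h1, smul_eq_mul] at h2
  rw [map_smul, map_add, ← h4, ← h5, smul_eq_mul] at h3
  refine sqrt_le_iff.2 ⟨by positivity, ?_⟩
  have h6 : 0 ≤ C0 ^ 8 * (XZ y * XW d y) := by positivity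
  nlinarith

end

theorem esto_end {X W Z K1 K2 K3 Ka Kb Λ σ r : ℝ} (X0 : 0 ≤ X) (W0 : 0 ≤ W) (r0 : 0 ≤ r)
    (k1 : 0 ≤ K1) (k2 : 0 ≤ K2) (k3 : 1 ≤ K3) (kb : 0 ≤ Kb) (hΛ : 1 ≤ Λ)
    (hZ : Z ≤ K1 * W + K2 / Λ * X + Ka * σ * X + Kb * r) (hX : X ≤ K3 * (Z + W))
    (hW : W ≤ 9 * X) (h1 : 4 * K3 * K2 ≤ Λ) (h2 : 4 * K3 * (Ka * σ) ≤ 1) :
    X ≤ (2 * K3 * (K1 + 1) + 4 * K3 * K2 + 9 * K1 + 1) * W + 2 * K3 * Kb * r ∧
    Z ≤ (2 * K3 * (K1 + 1) + 4 * K3 * K2 + 9 * K1 + 1) * X + 2 * K3 * Kb * r := by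
  have a1 : 4 * K3 * (K2 / Λ) ≤ 1 := by
    rw [← mul_div_assoc, div_le_one (by linarith)]
    exact h1
  have a2 := mul_le_mul_of_nonneg_right a1 X0
  have a3 := mul_le_mul_of_nonneg_right h2 X0
  have k0 : 0 ≤ K3 := by linarith
  have a4 := mul_le_mul_of_nonneg_left hZ k0
  have a5 : 0 ≤ K3 * K2 * W := by positivity
  have a6 : 0 ≤ K1 * W := by positivity
  constructor
  · linarith
  · have b1 : K2 / Λ * X ≤ 1 / 4 * X := by
      refine mul_le_mul_of_nonneg_right ?_ X0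
      nlinarith [mul_le_mul_of_nonneg_right k3 (show 0 ≤ K2 / Λ by positivity)]
    have b2 : Ka * σ * X ≤ 1 / 4 * X := by
      refine mul_le_mul_of_nonneg_right ?_ X0
      rcases le_total (Ka * σ) 0 with h | h
      · linarith
      · nlinarith [mul_le_mul_of_nonneg_right k3 h]
    have b3 := mul_le_mul_of_nonneg_left hW k1
    have b4 : 1 * (Kb * r) ≤ K3 * (Kb * r) := mul_le_mul_of_nonneg_right k3 (by positivity)
    have b5 : 0 ≤ K3 * (K1 + 1) * X := by positivity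
    have b6 : 0 ≤ K3 * K2 * X := by positivity
    have b7 : 0 ≤ Kb * r := by positivity
    linarith

theorem estO : EstOStmt := by
  intro j C0 hC0
  obtain ⟨Cj, hj, hleib⟩ := leib_form j
  have h0 : 0 < C0 := by linarith
  set K1 := C0 * (96 * C0 ^ 2 + 6 * C0) with hK1
  set K2 := 216 * Cj * C0 ^ 2 with hK2
  set K3 := 4 * C0 ^ 4 with hK3
  have k1 : 0 ≤ K1 := by positivity
  have k2 : 0 ≤ K2 := by positivity
  have k3 : 1 ≤ K3 := by linarith [one_le_pow₀ (n := 4) hC0]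
  have k4 : 0 ≤ K3 * (K1 + 1) := by positivity
  have k5 : 0 ≤ K3 * K2 := by positivity
  refine ⟨2 * K3 * (K1 + 1) + 4 * K3 * K2 + 9 * K1 + 1, by linarith,
    fun τ C1 Λ _ _ hC1 hΛ => ?_⟩
  have h0' : 0 < C1 := by linarith
  have hB : 0 ≤ estoB j C0 C1 := by unfold estoB; positivity
  have hK : 0 ≤ estoK j C0 C1 := by unfold estoK; positivity
  set Ka := C0 * (576 * C0 * C1 + 216 * Cj * C1 + 18 * C1) with hKa
  set Kb := C0 * (3 * estoK j C0 C1 + 12 + 432 * Cj * (C0 + estoB j C0 C1) + 36 * (C1 + 10))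
    with hKb
  have ka : 0 ≤ Ka := by positivity
  have kb : 0 ≤ Kb := by positivity
  refine ⟨2 * K3 * Kb, max 100 ⌈(4 * K3 * Ka) ^ 2⌉₊, by positivity,
    fun m hm d go ge y hL hA => ?_⟩
  obtain ⟨N, hN⟩ := hA.poly
  obtain ⟨p0, -, hp0⟩ := zav_Poly hN
  obtain ⟨p, -, hp⟩ := zav_Poly (fn_mem_Poly _ hN : Dp y ∈ Poly N)
  have hΛ1 : 1 ≤ Λ := by linarith
  have c : EO j C0 τ C1 Λ m d go ge y (Zf fun t => p0.eval t) (fun t => p.eval t)
      (m : ℝ)⁻¹ (√m)⁻¹ :=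
    ⟨hC0, hC1, hΛ1, le_of_max_le_left hm, hL, hA, by
      simpa only [Polynomial.aeval_def, Polynomial.eval₂_id, Algebra.algebraMap_self]
        using p.contDiff_aeval (𝕜 := ℝ) ∞, hp0,
      Sm.ext fun x => (esto_zavD hp0 x).symm.trans (hp x), rfl, rfl⟩
  obtain ⟨r0, s0, -, -, -, -, -⟩ := c.basic
  have hJ := c.J_le hj fun h => hleib tb_L (by positivity) h
  have hZ := c.Z_le.trans (mul_le_mul_of_nonneg_left (add_le_add_left hJ _) h0.le)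
  have hs : 4 * K3 * Ka ≤ √(m : ℝ) := by
    refine le_sqrt_of_sq_le ((Nat.le_ceil _).trans ?_)
    exact_mod_cast le_of_max_le_right hm
  have hs0 : 0 < √(m : ℝ) := inv_pos.1 s0
  simp only [div_eq_mul_inv (2 * K3 * Kb)]
  refine esto_end (Ka := Ka) (Λ := Λ) (σ := (√m)⁻¹) (sqrt_nonneg _) (sqrt_nonneg _) r0.le k1 k2
    k3 kb hΛ1 (hZ.trans (le_of_eq ?_)) c.X_le c.W_le (by linarith) ?_
  · rw [hK1, hK2, hKa, hKb]
    ring
  · rw [← mul_assoc, ← div_eq_mul_inv, div_le_one hs0]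
    exact hs

end Pool.Agent.Lib.MP_2fa2a2_gt.PI
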