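import Pool.Agent.Lib.MP_2fa2a2_gt.PI.Ops

/-! The Calderon type commutator. -/

namespace Pool.Agent.Lib.MP_2fa2a2_gt.PI

theorem cald_Dp_lap (y : Sm) : ‖Dp (lap y)‖ ≤ 3 * ‖y‖ := by
  have e : Dp (lap y) = y - P 1 y - (2 : ℝ) • Dp y := by
    have h : lap y = Dop y - (2 : ℝ) • y := by
      show lap y = lap y + (2 : ℝ) • y - (2 : ℝ) • y
      abel
    rw [h, map_sub, map_smul, Dp_Dop]
  have h1 : ‖Dp y‖ ≤ 1 / 2 * ‖y‖ := norm_fn_le_bdd (fun l => (opsx_Dp_le l).2) y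
  have h2 := fnx_norm_P 1 y
  have h3 := norm_sub_le (y - P 1 y) ((2 : ℝ) • Dp y)
  have h4 := norm_sub_le y (P 1 y)
  rw [norm_smul, Real.norm_eq_abs, abs_two] at h3
  rw [e]
  linarith

theorem cald_L_Dp_lap (a : Fin 3) (y : Sm) : L a (Dp (lap y)) = Dp (lap (L a y)) := by
  rw [lap_L, Dp, fn_L]

theorem cald_norm_D (a : Fin 3) (ψ : Sm) : ‖D a ψ‖ ≤ ‖L (a + 1) ψ‖ + ‖L (a + 2) ψ‖ := by
  rw [D_def]
  refine (norm_sub_le _ _).trans (add_le_add ?_ ?_)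
  · exact (norm_mul_le (abs_X_le _) _).trans_eq (one_mul _)
  · exact (norm_mul_le (abs_X_le _) _).trans_eq (one_mul _)

theorem cald_H_mul (a b : Fin 3) (v ψ : Sm) : H a b (v * ψ) = v * H a b ψ
    + (D a (D b v) * ψ + D b v * D a ψ + D a v * D b ψ + D a v * (X b * ψ)) := by
  have e : D b (v * ψ) + X b * (v * ψ) = D b v * ψ + v * (D b ψ + X b * ψ) := by
    rw [D_mul]; ring
  rw [H_def, H_def, e, map_add, D_mul, D_mul]
  ring

theorem cald_split (a b : Fin 3) (v f : Sm) :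
    v * H a b (Dp f) - H a b (Dp (v * f)) =
      H a b (Dp (lap v * Dp f + (gd v (Dp f) + gd v (Dp f)) - v * P 1 f))
      - (D a (D b v) * Dp f + D b v * D a (Dp f) + D a v * D b (Dp f)
        + D a v * (X b * Dp f)) := by
  have e1 : v * f = Dop (v * Dp f)
      - (lap v * Dp f + (gd v (Dp f) + gd v (Dp f)) - v * P 1 f) := by
    have h := Dop_Dp f
    rw [Dop_def] at h
    rw [Dop_def, lap_mul]
    linear_combination (-v) * h
  have e2 : H a b (Dp (v * f)) = H a b (v * Dp f)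
      - H a b (Dp (lap v * Dp f + (gd v (Dp f) + gd v (Dp f)) - v * P 1 f)) := by
    conv_lhs => rw [e1]
    rw [map_sub, map_sub, Dp_Dop, map_sub, H_P_one, sub_zero]
  rw [e2, cald_H_mul]
  ring

/-- the high frequency part -/
theorem cald_high {lam B N : ℝ} {v : Sm} (a b : Fin 3) (y : Sm) (hl : 1 ≤ lam)
    (hv : Cb 2 lam B v) (h0 : ‖y‖ ≤ N) (h1 : ∀ d, ‖L d y‖ ≤ lam * N) :
    ‖v * H a b (Dp (lap y)) - H a b (Dp (v * lap y))‖ ≤ 142 * B * lam ^ 2 * N := by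
  have hB := hv.nonneg
  have hN : 0 ≤ N := (norm_nonneg _).trans h0
  have hl0 : 0 ≤ lam := by linarith
  rw [cald_split]
  set ψ := Dp (lap y) with hψ
  have p0 : ‖ψ‖ ≤ 3 * N := (cald_Dp_lap y).trans (by linarith)
  have p1 : ∀ d, ‖L d ψ‖ ≤ 3 * (lam * N) := fun d => by
    rw [hψ, cald_L_Dp_lap]
    exact (cald_Dp_lap _).trans (by linarith [h1 d])
  have p2 : ∀ d, ‖D d ψ‖ ≤ 6 * (lam * N) := fun d =>
    (cald_norm_D d ψ).trans (by linarith [p1 (d + 1), p1 (d + 2)])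
  have p3 : ‖X b * ψ‖ ≤ 3 * N :=
    ((norm_mul_le (abs_X_le _) _).trans_eq (one_mul _)).trans p0
  have p4 : ‖P 1 (lap y)‖ ≤ 2 * N := by
    have e : ll 1 = 2 := by norm_num [ll]
    rw [P_lap, e, norm_smul, Real.norm_eq_abs, abs_neg, abs_two]
    linarith [fnx_norm_P 1 y]
  have vD : ∀ d, Cb 1 lam (2 ^ (1 + 1) * B * lam) (D d v) := fun d => Cb.D hl hv d
  have vDD : Cb 0 lam (2 ^ (0 + 1) * (2 ^ (1 + 1) * B * lam) * lam) (D a (D b v)) :=
    Cb.D hl (vD b) a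
  have vL : ∀ d, Cb 1 lam (B * lam) (L d v) := fun d => Cb.L hv d
  have vLL : ∀ d, Cb 0 lam (B * lam * lam) (L d (L d v)) := fun d => Cb.L (vL d) d
  have key : ∀ {u w : Sm} {k : ℕ} {M K : ℝ}, Cb k lam M u → ‖w‖ ≤ K → ‖u * w‖ ≤ M * K :=
    fun hu hw => (norm_mul_le hu.abs_le _).trans (mul_le_mul_of_nonneg_left hw hu.nonneg)
  have q1 := key vDD p0
  have q2 := key (vD b) (p2 a)
  have q3 := key (vD a) (p2 b)
  have q4 := key (vD a) p3
  have q5 := key hv p4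
  have q6 : ‖lap v * ψ‖ ≤ 3 * (B * lam * lam * (3 * N)) := by
    rw [alg_lap, add_mul, add_mul]
    refine (norm_add₃_le).trans ?_
    linarith [key (vLL 0) p0, key (vLL 1) p0, key (vLL 2) p0]
  have q7 : ‖gd v ψ‖ ≤ 3 * (B * lam * (3 * (lam * N))) := by
    rw [alg_gd]
    refine (norm_add₃_le).trans ?_
    linarith [key (vL 0) (p1 0), key (vL 1) (p1 1), key (vL 2) (p1 2)]
  have r1 := norm_H_Dp a b (lap v * ψ + (gd v ψ + gd v ψ) - v * P 1 (lap y))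
  have r2 := norm_sub_le (lap v * ψ + (gd v ψ + gd v ψ)) (v * P 1 (lap y))
  have r3 := norm_add_le (lap v * ψ) (gd v ψ + gd v ψ)
  have r4 := norm_add_le (gd v ψ) (gd v ψ)
  have r5 := norm_add_le (D a (D b v) * ψ + D b v * D a ψ + D a v * D b ψ) (D a v * (X b * ψ))
  have r6 := norm_add_le (D a (D b v) * ψ + D b v * D a ψ) (D a v * D b ψ)
  have r7 := norm_add_le (D a (D b v) * ψ) (D b v * D a ψ)
  refine (norm_sub_le _ _).trans ?_
  have s0 : 0 ≤ B * N := mul_nonneg hB hN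
  have s1 : B * N ≤ B * N * lam := le_mul_of_one_le_right s0 hl
  have s2 : B * N * lam ≤ B * N * lam * lam := le_mul_of_one_le_right (s0.trans s1) hl
  rw [show (2 : ℝ) ^ (1 + 1) = 4 by norm_num] at q1 q2 q3 q4
  rw [show (2 : ℝ) ^ (0 + 1) = 2 by norm_num] at q1
  linarith

/-- Calderon type commutator bound -/
theorem calderon : ∃ C, 0 ≤ C ∧ ∀ {lam B : ℝ} {v : Sm} (a b c : Fin 3) (φ : Sm), 1 ≤ lam →
    Cb 2 lam B v →
    ‖v * H a b (Dp (L c φ)) - H a b (Dp (v * L c φ))‖ ≤ C * B * lam * ‖φ‖ := by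
  refine ⟨146, by norm_num, ?_⟩
  intro lam B v a b c φ hl hv
  have hl0 : 0 < lam := by linarith
  have hB := hv.nonneg
  have hi : 0 ≤ lam⁻¹ := inv_nonneg.mpr hl0.le
  have eS : DI lam⁻¹ 1 = Sh lam⁻¹ := by simp only [DI, Sh, pow_one]
  set y := L c (Sh lam⁻¹ φ) with hy
  have h0 : ‖y‖ ≤ lam * ‖φ‖ := by
    have h := norm_Lw_DI hi (j := 1) (w := [c]) (by simp) φ
    rw [eS, List.length_singleton, pow_one, inv_mul_le_iff₀ hl0] at h
    exact h
  have h1 : ∀ d, ‖L d y‖ ≤ lam * (lam * ‖φ‖) := fun d => by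
    have h := norm_Lw_DI hi (j := 1) (w := [d, c]) (by simp) φ
    rw [eS, show [d, c].length = 2 from rfl, inv_pow, inv_mul_le_iff₀ (by positivity)] at h
    exact h.trans_eq (by ring)
  have e : L c φ = y - lam⁻¹ ^ 2 • lap y := by
    conv_lhs => rw [← Sh_spec lam⁻¹ φ]
    rw [map_sub, map_smul, ← lap_L]
  have e2 : v * H a b (Dp (L c φ)) - H a b (Dp (v * L c φ)) =
      (v * H a b (Dp y) - H a b (Dp (v * y)))
        - lam⁻¹ ^ 2 • (v * H a b (Dp (lap y)) - H a b (Dp (v * lap y))) := by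
    rw [e]
    simp only [map_sub, map_smul, mul_sub, mul_smul_comm, smul_sub]
    abel
  have t1 := cald_high a b y hl hv h0 h1
  have t2 : ‖v * H a b (Dp y)‖ ≤ B * (2 * ‖y‖) :=
    (norm_mul_le hv.abs_le _).trans (mul_le_mul_of_nonneg_left (norm_H_Dp a b y) hB)
  have t3 : ‖H a b (Dp (v * y))‖ ≤ 2 * (B * ‖y‖) :=
    (norm_H_Dp a b _).trans (by linarith [norm_mul_le hv.abs_le y])
  have t4 : B * ‖y‖ ≤ B * (lam * ‖φ‖) := mul_le_mul_of_nonneg_left h0 hB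
  have t5 : ‖lam⁻¹ ^ 2 • (v * H a b (Dp (lap y)) - H a b (Dp (v * lap y)))‖
      ≤ 142 * B * (lam * ‖φ‖) := by
    rw [norm_smul, Real.norm_eq_abs, abs_of_nonneg (by positivity), inv_pow,
      inv_mul_le_iff₀ (by positivity)]
    exact t1.trans_eq (by ring)
  rw [e2]
  refine (norm_sub_le _ _).trans ?_
  have t6 := norm_sub_le (v * H a b (Dp y)) (H a b (Dp (v * y)))
  linarith

end Pool.Agent.Lib.MP_2fa2a2_gt.PI
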