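import Pool.Agent.Lib.MP_2fa2a2_gt.PI.SLoc

/-! Pointwise consequences of the structure of the approximate solution. -/

namespace Pool.Agent.Lib.MP_2fa2a2_gt.PI

open Real
open scoped ContDiff

/-- Leibniz rule with a slowly varying factor -/
theorem ests_leib {m : ℝ} (hm : 1 ≤ m) (n : ℕ) : ∀ {A B : ℝ} {p u : Sm} (v : List (Fin 3)),
    v.length = n → Cb n 1 A p → Cb n m B u →
    ∀ x, |Lw v (p * u) x - p x * Lw v u x| ≤ 2 ^ n * A * B * m ^ n / m := by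
  induction n with
  | zero =>
    intro A B p u v hv hp hu x
    obtain rfl := List.length_eq_zero_iff.1 hv
    have := hp.nonneg
    have := hu.nonneg
    rw [Lw_nil, Lw_nil, Sm.mul_apply, sub_self, abs_zero]
    positivity
  | succ n ih =>
    intro A B p u v hv hp hu x
    rcases List.eq_nil_or_concat v with rfl | ⟨w, c, rfl⟩
    · simp at hv
    rw [List.concat_eq_append] at hv ⊢
    have hw : w.length = n := by simpa using hv
    have h0 : 0 < m := by linarith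
    have a1 := Cb.mul h0.le ((hp.L c).mono zero_le_one le_rfl hm le_rfl)
      (hu.mono h0.le n.le_succ le_rfl le_rfl) w hw.le x
    have a2 := ih w hw (hp.mono zero_le_one n.le_succ le_rfl le_rfl) (hu.L c) x
    rw [hw] at a1
    rw [Lw_append, Lw_append, Lw_cons, Lw_cons, Lw_nil, Lw_nil, L_mul, map_add, Sm.add_apply,
      add_sub_assoc]
    refine (abs_add_le _ _).trans ((add_le_add a1 a2).trans_eq ?_)
    field_simp
    ring

section
variable {k m : ℕ} {C0 τ C1 : ℝ} {d : LD}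

theorem ests_kb (h : Loc k C0 τ C1 m d) (x : S2) : |d.κ x| ≤ d.kb x ∧ |d.kb x| ≤ 2 * C0 := by
  have h1 := h.κ_nonneg x
  have h2 := h.κ_nonneg (neg x)
  have h3 := h.κ_le x
  have h4 := h.κ_le (neg x)
  rw [LD.kb, Sm.add_apply, ant_apply, abs_of_nonneg h1, abs_of_nonneg (by linarith)]
  constructor <;> linarith

theorem ests_kb_Cb (h : Loc k C0 τ C1 m d) : Cb k 1 (C1 + C1) d.kb := h.κ_Cb.add h.κ_Cb.ant

theorem ests_kb_Cb' (h : Loc k C0 τ C1 m d) (h0 : 1 ≤ C0) (h1 : 1 ≤ C1) (hm : 2 * C1 ≤ m) :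
    Cb k m (2 * C0) d.kb := by
  intro w hw x
  rcases w with _ | ⟨a, w⟩
  · simpa using (ests_kb h x).2
  · have a1 := ests_kb_Cb h _ hw x
    have a2 : (m : ℝ) ≤ (m : ℝ) ^ (a :: w).length := le_self_pow₀ (by linarith) (by simp)
    rw [one_pow] at a1
    nlinarith

theorem ests_u (h : Loc k C0 τ C1 m d) (h1 : 1 ≤ C1) (hs : C1 ≤ √m) :
    Cb k m ((C0 + 1) / m) (d.kb * d.w2 + d.w1) := by
  have a1 : 0 < √(m : ℝ) := by linarith
  have a2 : (0 : ℝ) < m := sqrt_pos.1 a1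
  refine (h.w2_Cb'.add h.w1_Cb).mono a2.le le_rfl le_rfl ?_
  rw [add_div, add_le_add_iff_left, div_le_div_iff₀ (by positivity) a2]
  nlinarith

theorem ests_fo (d : LD) : d.fo = d.G + d.kb * (d.kb * d.w2 + d.w1) + d.w0 := by
  rw [LD.fo]; ring

/-- weighted bounds for the derivatives of the odd part -/
theorem ests_fo_pt (h : Loc k C0 τ C1 m d) (h0 : 1 ≤ C0) (h1 : 1 ≤ C1) (hs : C1 ≤ √m)
    {t : ℝ} (ht : 0 ≤ t) (ht' : t * m ≤ 1) {n : ℕ} {v : List (Fin 3)} (hv : v.length = n + 2)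
    (hk : n + 2 ≤ k) (x : S2) :
    t ^ n * |Lw v d.fo x| ≤ (C0 + 1) * m * d.kb x + (C0 + 2 ^ k * (C1 + C1) * (C0 + 1) + C1) := by
  have a1 : 1 ≤ √(m : ℝ) := by linarith
  have a2 : (1 : ℝ) ≤ m := one_le_sqrt.1 a1
  have a3 : (0 : ℝ) < m := by linarith
  have hu := ests_u h h1 hs
  have b1 := h.G_Cb v (hv ▸ hk) x
  have b2 := ests_leib a2 (n + 2) v hv ((ests_kb_Cb h).mono zero_le_one hk le_rfl le_rfl)
    (hu.mono a3.le hk le_rfl le_rfl) x
  have b3 := hu v (hv ▸ hk) x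
  have b4 := h.w0_Cb v (hv ▸ hk) x
  have hkb : 0 ≤ d.kb x := (abs_nonneg _).trans (ests_kb h x).1
  rw [hv] at b3 b4
  rw [one_pow, mul_one] at b1
  have e2 : 2 ^ (n + 2) * (C1 + C1) * ((C0 + 1) / m) * (m : ℝ) ^ (n + 2) / m
      = 2 ^ (n + 2) * (C1 + C1) * (C0 + 1) * (m : ℝ) ^ n := by
    field_simp; ring
  have e3 : (C0 + 1) / m * (m : ℝ) ^ (n + 2) = (C0 + 1) * m * (m : ℝ) ^ n := by
    field_simp; ring
  have e4 : C1 / (m : ℝ) ^ 2 * (m : ℝ) ^ (n + 2) = C1 * (m : ℝ) ^ n := by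
    field_simp; ring
  rw [e2] at b2
  rw [e3] at b3
  rw [e4] at b4
  have c1 : |d.kb x * Lw v (d.kb * d.w2 + d.w1) x| ≤ d.kb x * ((C0 + 1) * m * (m : ℝ) ^ n) := by
    rw [abs_mul, abs_of_nonneg hkb]
    exact mul_le_mul_of_nonneg_left b3 hkb
  have c2 : (2 : ℝ) ^ (n + 2) * (C1 + C1) * (C0 + 1) * (m : ℝ) ^ n
      ≤ 2 ^ k * (C1 + C1) * (C0 + 1) * (m : ℝ) ^ n := by
    have := pow_le_pow_right₀ (one_le_two (α := ℝ)) hk
    gcongr
  have c3 : |Lw v d.fo x| ≤ C0 + ((C0 + 1) * m * d.kb x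
      + (2 ^ k * (C1 + C1) * (C0 + 1) + C1)) * (m : ℝ) ^ n := by
    rw [ests_fo, map_add, map_add, Sm.add_apply, Sm.add_apply]
    have := abs_add_three (Lw v d.G x) (Lw v (d.kb * (d.kb * d.w2 + d.w1)) x) (Lw v d.w0 x)
    have := abs_sub_abs_le_abs_sub (Lw v (d.kb * (d.kb * d.w2 + d.w1)) x)
      (d.kb x * Lw v (d.kb * d.w2 + d.w1) x)
    linarith
  have d1 : t ^ n ≤ 1 := pow_le_one₀ ht (by nlinarith)
  have d2 : t ^ n * (m : ℝ) ^ n ≤ 1 := by
    rw [← mul_pow]; exact pow_le_one₀ (by positivity) ht'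
  have d3 := mul_le_mul_of_nonneg_left c3 (pow_nonneg ht n)
  have d4 := mul_le_mul_of_nonneg_right d1 (by linarith : 0 ≤ C0)
  have d5 := mul_le_mul_of_nonneg_right d2 (by positivity : 0 ≤ (C0 + 1) * m * d.kb x
      + (2 ^ k * (C1 + C1) * (C0 + 1) + C1))
  linarith

theorem ests_fo_Cb (h : Loc k C0 τ C1 m d) (hk : 3 ≤ k) (h0 : 1 ≤ C0) (h1 : 1 ≤ C1)
    (hs : C1 ≤ √m) (hm : 2 * C1 ≤ m) (e : Fin 3) : Cb 2 m (34 * C0 ^ 2) (L e d.fo) := by
  have a2 : (1 : ℝ) ≤ m := by linarith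
  have a3 : (0 : ℝ) < m := by linarith
  have b1 := ((h.G_Cb.mono zero_le_one hk le_rfl le_rfl).L (k := 2) e).mono zero_le_one le_rfl a2
    le_rfl
  have b2 := (Cb.mul a3.le ((ests_kb_Cb' h h0 h1 hm).mono a3.le hk le_rfl le_rfl)
    ((ests_u h h1 hs).mono a3.le hk le_rfl le_rfl)).L (k := 2) e
  have b3 := (h.w0_Cb.mono a3.le hk le_rfl le_rfl).L (k := 2) e
  rw [ests_fo, map_add, map_add]
  refine ((b1.add b2).add b3).mono a3.le le_rfl le_rfl ?_
  have e2 : 2 ^ (2 + 1) * (2 * C0) * ((C0 + 1) / m) * m = 16 * C0 * (C0 + 1) := by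
    field_simp; ring
  have e3 : C1 / (m : ℝ) ^ 2 * m ≤ 1 := by
    rw [div_mul_eq_mul_div, div_le_one (by positivity)]
    nlinarith
  rw [e2]
  nlinarith

theorem ests_w_alg (d : LD) : d.w 0 * d.w 0 + d.w 1 * d.w 1 + d.w 2 * d.w 2
      = (d.al * d.al + d.be * d.be) * qq ∧
    d.w 0 * D 0 (X 2) + d.w 1 * D 1 (X 2) + d.w 2 * D 2 (X 2) = d.al * qq := by
  have hs := alg_s
  simp only [LD.w, D_X, alg_20, alg_21, L_X_self, qq, alg_kd, alg_kd_ne (by decide : (0 : Fin 3) ≠ 2),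
    alg_kd_ne (by decide : (1 : Fin 3) ≠ 2)]
  constructor
  · linear_combination (d.al * d.al * (X 2 * X 2) + d.be * d.be) * hs
  · linear_combination (d.al * (X 2 * X 2)) * hs

theorem ests_real {sn cs δ a om P C0 K τ : ℝ} (hδ : 0 < δ) (hδ1 : δ ≤ 1) (hτ : 0 < τ)
    (hτ1 : τ ≤ 1) (h0 : 1 ≤ C0) (hK : 1 ≤ K) (hp : sn ^ 2 + cs ^ 2 = 1) (ha : |a| ≤ 2)
    (ho : C0⁻¹ ≤ om) (ho' : om ≤ C0) (hP : |P| ≤ K) (hP' : |sn| ≤ 1 / 3 → τ / (2 * C0) ≤ P) :
    τ / (3 * C0 ^ 2) * (δ / (sn ^ 2 + δ ^ 2))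
      ≤ om * (cs ^ 2 * (δ / (sn ^ 2 + δ ^ 2)) - sn * a) * P + 14 * C0 * K := by
  have hE : 0 < δ / (sn ^ 2 + δ ^ 2) := by positivity
  have hE' : 1 / 3 < |sn| → δ / (sn ^ 2 + δ ^ 2) ≤ 9 := fun h => by
    rw [div_le_iff₀ (by positivity)]
    nlinarith [sq_abs sn, sq_nonneg δ]
  generalize δ / (sn ^ 2 + δ ^ 2) = E at hE hE'
  have hc : 0 < C0 := by linarith
  have hom : 0 < om := (inv_pos.2 hc).trans_le ho
  have s1 : |sn| ≤ 1 := by
    rw [← sq_le_one_iff_abs_le_one]; nlinarith [sq_nonneg cs]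
  have a1 : |om * (sn * a) * P| ≤ C0 * 2 * K := by
    rw [abs_mul, abs_mul, abs_mul, abs_of_pos hom]
    have : |sn| * |a| ≤ 2 := by nlinarith [abs_nonneg sn, abs_nonneg a]
    gcongr
  have a2 := (abs_le.1 a1).2
  have hCK : 1 ≤ C0 * K := by nlinarith
  rcases le_or_gt |sn| (1 / 3) with h | h
  · have b1 : 8 / 9 ≤ cs ^ 2 := by nlinarith [sq_abs sn, abs_nonneg sn]
    have b2 : C0⁻¹ * (8 / 9 * E) * (τ / (2 * C0)) ≤ om * (cs ^ 2 * E) * P := by
      have := hP' h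
      gcongr
    have b3 : τ / (3 * C0 ^ 2) * E ≤ C0⁻¹ * (8 / 9 * E) * (τ / (2 * C0)) := by
      have e : C0⁻¹ * (8 / 9 * E) * (τ / (2 * C0)) = 4 / 3 * (τ / (3 * C0 ^ 2) * E) := by
        field_simp; ring
      have : 0 ≤ τ / (3 * C0 ^ 2) * E := by positivity
      linarith
    nlinarith
  · have b1 : |om * (cs ^ 2 * E) * P| ≤ C0 * (1 * 9) * K := by
      rw [abs_mul, abs_mul, abs_of_pos hom, abs_of_nonneg (by positivity : 0 ≤ cs ^ 2 * E)]
      have := hE' h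
      have : cs ^ 2 ≤ 1 := by nlinarith [sq_nonneg sn]
      gcongr
    have b2 := (abs_le.1 b1).1
    have b3 : τ / (3 * C0 ^ 2) ≤ 1 / 3 := by
      rw [div_le_div_iff₀ (by positivity) (by norm_num)]; nlinarith
    have b4 := mul_le_mul b3 (hE' h) hE.le (by norm_num)
    nlinarith

/-- the weight of the commutator argument -/
noncomputable def estsC (d : LD) (δ : ℝ) : Sm := d.cs * cp (fun t => arctan (t / δ)) d.sn

theorem ests_smooth (δ t : ℝ) : ContDiffAt ℝ ∞ (fun t => arctan (t / δ)) t :=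
  (contDiff_arctan.comp (contDiff_id.div_const δ)).contDiffAt

theorem ests_deriv {δ : ℝ} (hδ : 0 < δ) :
    deriv (fun t => arctan (t / δ)) = fun t => δ / (t ^ 2 + δ ^ 2) := by
  funext t
  have := ((hasDerivAt_id t).div_const δ).arctan
  refine this.deriv.trans ?_
  simp only [id]
  field_simp
  ring

theorem ests_arctan (t : ℝ) : |arctan t| ≤ 2 := by
  have := arctan_lt_pi_div_two t
  have := neg_pi_div_two_lt_arctan t
  have := pi_lt_four
  rw [abs_le]; constructor <;> linarith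

theorem ests_C_le (h : Loc k C0 τ C1 m d) (δ : ℝ) (x : S2) : |estsC d δ x| ≤ 2 := by
  rw [estsC, Sm.mul_apply, cp_apply fun _ => ests_smooth δ _, abs_mul]
  nlinarith [h.cs_le x, ests_arctan (d.sn x / δ), abs_nonneg (d.cs x), abs_nonneg (arctan (d.sn x / δ))]

/-- the positivity of the commutator -/
theorem ests_pos (h : Loc k C0 τ C1 m d) {δ K ε : ℝ} {go : Sm} (hδ : 0 < δ) (hδ1 : δ ≤ 1)
    (hτ : 0 < τ) (hτ1 : τ ≤ 1) (h0 : 1 ≤ C0) (hK : 1 ≤ K) {x : S2} (hx : d.κ x ≠ 0)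
    (hf : ∀ c, |D c (d.fo + go) x| ≤ K) (hg : ∀ c, |D c go x| ≤ ε)
    (hε : C1 * (d.κ x / √m + 1 / m) + ε ≤ τ / (6 * C0)) :
    m * τ / (3 * C0 ^ 2 * δ) * (δ ^ 2 / (d.sn x ^ 2 + δ ^ 2))
      ≤ gd (estsC d δ) (d.fo + go) x + 42 * C0 * K * m := by
  have hc : 0 < C0 := by linarith
  have w1 := congrArg (fun φ : Sm => φ x) (ests_w_alg d).1
  have w2 := congrArg (fun φ : Sm => φ x) (ests_w_alg d).2
  simp only [Sm.add_apply, Sm.mul_apply] at w1 w2
  have u := h.unit x hx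
  have w3 : ∀ c, |d.w c x| ≤ 1 := fun c => by
    rw [← sq_le_one_iff_abs_le_one]
    rcases alg_fin c with rfl | rfl | rfl <;>
      nlinarith [sq_nonneg (d.w 0 x), sq_nonneg (d.w 1 x), sq_nonneg (d.w 2 x)]
  have hD : ∀ c, D c (estsC d δ) x = m * (d.om x * (d.cs x ^ 2 * (δ / (d.sn x ^ 2 + δ ^ 2))
      - d.sn x * arctan (d.sn x / δ))) * d.w c x := fun c => by
    rw [estsC, D_mul, D_cp c fun _ => ests_smooth δ _, ests_deriv hδ]
    simp only [Sm.add_apply, Sm.mul_apply]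
    rw [cp_apply fun _ => ests_smooth δ _, cp_apply, h.D_sn x hx, h.D_cs x hx]
    · ring
    · intro z
      exact contDiffAt_const.div (by fun_prop) (by positivity)
  have mul : ∀ {a b A : ℝ}, |a| ≤ 1 → |b| ≤ A → |a * b| ≤ A := fun ha hb => by
    rw [abs_mul]
    exact (mul_le_of_le_one_left (abs_nonneg _) ha).trans hb
  have key := ests_real (P := d.w 0 x * D 0 (d.fo + go) x + d.w 1 x * D 1 (d.fo + go) x
    + d.w 2 x * D 2 (d.fo + go) x) (K := 3 * K) hδ hδ1 hτ hτ1 h0 (by linarith) (h.pyth x hx)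
    (ests_arctan (d.sn x / δ)) (h.om_ge x) (h.om_le x)
    ((abs_add_three _ _ _).trans (by linarith [mul (w3 0) (hf 0), mul (w3 1) (hf 1), mul (w3 2) (hf 2)]))
    fun hs => by
      have hz : 0 ≤ X 2 x := (inv_pos.2 hc).le.trans (h.κ_supp x hx).1
      have b1 := fun c => (abs_le.1 (mul (w3 c) (h.grad_o x hz c))).1
      have b2 := fun c => (abs_le.1 (mul (w3 c) (hg c))).1
      have b3 := h.u_ge x hx hs
      have e : τ / (2 * C0) = τ / C0 - 3 * (τ / (6 * C0)) := by field_simp; ring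
      simp only [map_add, Sm.add_apply]
      have b4 : d.ut x * (d.w 0 x * d.w 0 x + d.w 1 x * d.w 1 x + d.w 2 x * d.w 2 x) = d.ut x := by
        rw [w1]; linear_combination d.ut x * u
      have b5 := congrArg (fun r => d.a x * r) w2
      linarith [b1 0, b1 1, b1 2, b2 0, b2 1, b2 2]
  have key' := mul_le_mul_of_nonneg_left key (Nat.cast_nonneg (α := ℝ) m)
  have e : m * τ / (3 * C0 ^ 2 * δ) * (δ ^ 2 / (d.sn x ^ 2 + δ ^ 2))
      = m * (τ / (3 * C0 ^ 2) * (δ / (d.sn x ^ 2 + δ ^ 2))) := by field_simp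
  rw [e, gd_eq_D]
  simp only [Fin.sum_univ_three, Sm.add_apply, Sm.mul_apply, hD]
  linarith

end

end Pool.Agent.Lib.MP_2fa2a2_gt.PI
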