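import Pool.Agent.Lib.MP_2fa2a2_gt.PI.SLoc
import Pool.Agent.Lib.MP_2fa2a2_gt.PI.Comm
import Pool.Agent.Lib.MP_2fa2a2_gt.PI.Cald
import Pool.Agent.Lib.MP_2fa2a2_gt.PI.EstSX
import Pool.Agent.Lib.MP_2fa2a2_gt.PI.EstSY

namespace Pool.Agent.Lib.MP_2fa2a2_gt.PI

open Real

theorem ests_Hn_nonneg (ψ : Sm) (x : S2) : 0 ≤ Hn ψ x := by
  nlinarith [Dop_sq_le ψ x, sq_nonneg (Dop ψ x)]

theorem ests_XN_sq (d : LD) (y : Sm) : XN d y ^ 2 = I (d.kb * d.kb * Hn (Dp y)) :=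
  sq_sqrt (I_nonneg fun x => mul_nonneg (mul_self_nonneg _) (ests_Hn_nonneg _ x))

theorem ests_XN (d : LD) (y : Sm) (a b : Fin 3) : ‖d.kb * H a b (Dp y)‖ ≤ XN d y := by
  refine le_sqrt_of_sq_le ?_
  rw [norm_sq_eq]
  refine I_mono fun x => ?_
  have h : H a b (Dp y) x * H a b (Dp y) x ≤ Hn (Dp y) x := by
    rw [Hn, Sm.sum_apply]
    refine le_trans ?_ (Finset.single_le_sum (f := fun a => (∑ b, H a b (Dp y) * H a b (Dp y)) x)
      (fun a _ => ?_) (Finset.mem_univ a))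
    · rw [Sm.sum_apply]
      exact Finset.single_le_sum (f := fun b => (H a b (Dp y) * H a b (Dp y)) x)
        (fun b _ => mul_self_nonneg _) (Finset.mem_univ b)
    · rw [Sm.sum_apply]
      exact Finset.sum_nonneg fun b _ => mul_self_nonneg _
  simp only [Sm.mul_apply]
  nlinarith [mul_le_mul_of_nonneg_left h (mul_self_nonneg (d.kb x))]

/-- the conjugation error -/
theorem ests_conj (j : ℕ) : ∃ C, 0 ≤ C ∧ ∀ {C0 τ C1 t : ℝ} {m : ℕ} {d : LD} {y : Sm} (φ : Sm),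
    Loc (2 * j + 10) C0 τ C1 m d → 1 ≤ C0 → 1 ≤ C1 → C1 ≤ √m → 0 ≤ t → t * m ≤ 1 → ‖y‖ ≤ 1 →
    |tb d.fo (DI t j φ) (DD t j y) - tb d.fo φ y| ≤ C * (((C0 + 1) * m * XN d y
      + 2 * (C0 + 2 ^ (2 * j + 10) * (C1 + C1) * (C0 + 1) + C1)) * ‖φ‖) := by
  obtain ⟨C, hC, hc⟩ := leib_form j
  refine ⟨C * 36, by positivity, fun {C0 τ C1 t m d y} φ h h0 h1 hs ht ht' hy => ?_⟩
  rw [mul_assoc]
  refine hc tb_L ht fun v w hv hvw => ?_
  obtain ⟨n, hn⟩ : ∃ n, v.length = n + 1 := ⟨v.length - 1, by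
    have := List.length_pos_iff.2 hv; omega⟩
  have e : t ^ (v.length + w.length) * |tb (Lw v d.fo) (Lw w (DI t j φ)) y|
      = |tb (t ^ n • Lw v d.fo) (t ^ (w.length + 1) • Lw w (DI t j φ)) y| := by
    simp only [map_smul, LinearMap.smul_apply, smul_eq_mul, abs_mul, abs_pow, abs_of_nonneg ht, hn]
    ring
  rw [e, ← mul_assoc]
  refine ests_tb (kb := d.kb) (by positivity) (by positivity) hy (ests_XN d y) (fun a x => ?_)
    fun c => ?_
  · rw [map_smul, Sm.smul_apply, abs_mul, abs_of_nonneg (pow_nonneg ht n), ← Lw_cons]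
    exact ests_fo_pt h h0 h1 hs ht ht' (by simp [hn]) (by omega) x
  · rw [map_smul, norm_smul, Real.norm_of_nonneg (pow_nonneg ht _), ← Lw_cons]
    exact norm_Lw_DI (w := c :: w) ht (by simp; omega) φ

theorem ests_fin {Y X m τ δ B C2 C3 : ℝ} (hm : 0 < m) (hτ : 0 < τ) (hδ : 0 < δ) (hδ1 : δ ≤ 1)
    (hB : 0 < B) (h : m * τ / (B * δ) * Y ≤ C2 * m * X ^ 2 + C3 * X) :
    Y ≤ B * (C2 + 1) * (δ / τ) * X ^ 2 + B * C3 ^ 2 / τ / m ^ 2 := by
  have h1 : C3 * X ≤ m * X ^ 2 + C3 ^ 2 / m := by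
    have e : m * X ^ 2 + C3 ^ 2 / m - C3 * X = ((m * X - C3 / 2) ^ 2 + 3 / 4 * C3 ^ 2) / m := by
      field_simp; ring
    have : 0 ≤ ((m * X - C3 / 2) ^ 2 + 3 / 4 * C3 ^ 2) / m := by positivity
    linarith
  have h2 := mul_le_mul_of_nonneg_left (h.trans (add_le_add le_rfl h1))
    (by positivity : 0 ≤ B * δ / (m * τ))
  have e1 : B * δ / (m * τ) * (m * τ / (B * δ) * Y) = Y := by field_simp
  have e2 : B * δ / (m * τ) * (C2 * m * X ^ 2 + (m * X ^ 2 + C3 ^ 2 / m))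
      = B * (C2 + 1) * (δ / τ) * X ^ 2 + δ * (B * C3 ^ 2 / τ / m ^ 2) := by field_simp; ring
  have h3 := mul_le_of_le_one_left (by positivity : 0 ≤ B * C3 ^ 2 / τ / m ^ 2) hδ1
  linarith

theorem estS : EstSStmt := by
  intro j C0 h0
  obtain ⟨Cm, hCm, hm⟩ := ests_main
  obtain ⟨Cj, hCj, hj⟩ := ests_conj j
  obtain ⟨Cs, hCs, hs⟩ := sobolev
  obtain ⟨K, hK⟩ : ∃ K, K = 35 * C0 ^ 2 := ⟨_, rfl⟩
  have hK0 : C0 + 1 ≤ K := by nlinarith
  have hK1 : 1 ≤ K := by linarith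
  have hc : 0 < C0 := by linarith
  refine ⟨3 * C0 ^ 2 * (72 * K ^ 2 * Cj + Cm * K ^ 2 + 84 * C0 * K + 1), ?_,
    fun τ δ C1 Λ hτ hτ1 hδ hδ1 h1 hΛ => ?_⟩
  · have : 0 ≤ 72 * K ^ 2 * Cj + Cm * K ^ 2 + 84 * C0 * K := by positivity
    nlinarith
  obtain ⟨A, hA⟩ : ∃ A, A = C0 + 2 ^ (2 * j + 10) * (C1 + C1) * (C0 + 1) + C1 := ⟨_, rfl⟩
  have hA0 : C1 ≤ A := by
    have : 0 ≤ 2 ^ (2 * j + 10) * (C1 + C1) * (C0 + 1) := by positivity
    linarith
  obtain ⟨Q, hQ⟩ : ∃ Q, Q = 6 * C0 * (C1 * (C0 + 1) + 2 * Cs) / τ := ⟨_, rfl⟩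
  have hQ0 : 0 ≤ Q := by rw [hQ]; positivity
  refine ⟨3 * C0 ^ 2 * (36 * K * (1 + 4 * Cj * A) + Cm * K ^ 2 * (A + 2)) ^ 2 / τ,
    ⌈(Q + 2 * C1 + Cs) ^ 2⌉₊, by positivity, fun m hm0 d go ge y h ha => ?_⟩
  have s1 : Q + 2 * C1 + Cs ≤ √m := le_sqrt_of_sq_le (Nat.ceil_le.1 hm0)
  have s2 : √(m : ℝ) ≤ m := by nlinarith [mul_self_sqrt (Nat.cast_nonneg (α := ℝ) m)]
  have s3 : (1 : ℝ) ≤ m := by linarith
  have s4 : (0 : ℝ) < m := by linarith
  have s5 : 0 < √(m : ℝ) := by linarith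
  have g0 : 1 / (m : ℝ) ^ 2 ≤ 1 / √m := one_div_le_one_div_of_le s5 (by nlinarith)
  have g1 : Cb 5 1 (Cs * (1 / √m)) go := (hs 5 go).mono zero_le_one le_rfl le_rfl
    (mul_le_mul_of_nonneg_left (by
      rw [show ((5 : ℕ) : ℝ) + 3 = 8 by norm_num]; exact ha.go_le.trans g0) hCs)
  have g2 : Cs * (1 / √m) ≤ 1 := by
    rw [mul_one_div, div_le_one s5]; linarith
  have g3 : ∀ e, Cb 4 1 (Cs * (1 / √m)) (L e go) := fun e => by simpa using g1.L e
  have f1 : ∀ e, Cb 2 m K (L e (d.fo + go)) := fun e => by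
    rw [map_add]
    refine ((ests_fo_Cb h (by omega) h0 h1 (by linarith) (by linarith) e).add
      ((g3 e).mono zero_le_one (by norm_num) s3 g2)).mono s4.le le_rfl le_rfl (by nlinarith)
  have hkb : ∀ x, 0 ≤ d.kb x := fun x => (abs_nonneg _).trans (ests_kb h x).1
  have f2 : ∀ a b x, |L a (L b (d.fo + go)) x| ≤ K * m * d.kb x + (A + 1) := fun a b x => by
    have a1 := ests_fo_pt h h0 h1 (by linarith) le_rfl (by simp) (n := 0) (v := [a, b]) rfl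
      (by omega) x
    have a2 := ((g3 b).L a).abs_le x
    have a3 := mul_le_mul_of_nonneg_right hK0 (mul_nonneg s4.le (hkb x))
    simp only [pow_zero, one_mul, Lw_cons, Lw_nil, ← hA] at a1
    rw [map_add, map_add, Sm.add_apply]
    linarith [abs_add_le (L a (L b d.fo) x) (L a (L b go) x)]
  obtain ⟨n1, n2⟩ := hm s3 hK1 ha.ev ha.le (fun x => (ests_kb h x).1)
    (fun x => by rw [abs_of_nonneg (h.κ_nonneg x)]; linarith [h.κ_le x])
    (h.κ_Cb.mono zero_le_one (by omega) le_rfl (by linarith : C1 ≤ A + 1)) (ests_C_le h δ)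
    (ests_XN d y) f1 f2 rfl
  generalize ∑ a, ∑ b, Dp (Hs a b (d.κ * d.κ * estsC d δ * H a b (Dp y))) = φ at n1 n2
  have c1 := hj φ h h0 h1 (by linarith) (t := (Λ * m)⁻¹) (by positivity) (by
    rw [mul_inv, mul_assoc, inv_mul_cancel₀ s4.ne', mul_one]
    exact inv_le_one_of_one_le₀ hΛ) ha.le
  rw [← hA] at c1
  have c2 := ha.eqo φ
  have hX : 0 ≤ XN d y := sqrt_nonneg _
  have c3 : 2 * |tb (d.fo + go) φ y| ≤ (1 + 2 * Cj * (K * m * XN d y + 2 * A)) * ‖φ‖ := by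
    have a1 : 1 / (m : ℝ) ^ 2 * ‖φ‖ ≤ ‖φ‖ :=
      mul_le_of_le_one_left (norm_nonneg _) ((div_le_one (by positivity)).2 (by nlinarith))
    have a2 : Cj * (((C0 + 1) * m * XN d y + 2 * A) * ‖φ‖)
        ≤ Cj * ((K * m * XN d y + 2 * A) * ‖φ‖) := by gcongr
    rw [map_add, LinearMap.add_apply, LinearMap.add_apply]
    have b1 := abs_le.1 c1
    have b2 := abs_le.1 c2
    rcases abs_cases (tb d.fo φ y + tb go φ y) with ⟨e, _⟩ | ⟨e, _⟩ <;> rw [e] <;>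
      linarith [b1.1, b1.2, b2.1, b2.2]
  have c4 := c3.trans (mul_le_mul_of_nonneg_left n1 (by
    have : 0 ≤ A := by linarith
    positivity))
  have sm : ∀ x, ContDiffAt ℝ (⊤ : ℕ∞) (fun t : ℝ => δ ^ 2 / (t ^ 2 + δ ^ 2)) (d.sn x) := fun x =>
    contDiffAt_const.div (by fun_prop) (by positivity)
  have p1 : I ((m * τ / (3 * C0 ^ 2 * δ)) • (d.κ * d.κ
        * cp (fun t => δ ^ 2 / (t ^ 2 + δ ^ 2)) d.sn * Hn (Dp y)))
      ≤ I (d.κ * d.κ * gd (estsC d δ) (d.fo + go) * Hn (Dp y)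
        + (84 * C0 * K * m) • (d.kb * d.kb * Hn (Dp y))) := I_mono fun x => by
    have hH := ests_Hn_nonneg (Dp y) x
    simp only [Sm.add_apply, Sm.mul_apply, Sm.smul_apply, cp_apply sm]
    by_cases hx : d.κ x = 0
    · have := hkb x
      rw [hx]
      simp only [zero_mul, mul_zero, zero_add]
      positivity
    have a1 := ests_pos h (K := 2 * K) (ε := 2 * (Cs * (1 / √m))) (go := go) hδ hδ1 hτ hτ1 h0
      (by linarith) hx (fun c => ests_D_pt (fun e => (f1 e).abs_le x) c)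
      (fun c => ests_D_pt (fun e => (g3 e).abs_le x) c) (by
        have b1 : d.κ x / √m + 1 / m ≤ (C0 + 1) * (1 / √m) := by
          have := one_div_le_one_div_of_le s5 s2
          have := div_le_div_of_nonneg_right (h.κ_le x) s5.le
          rw [add_mul, mul_one_div]
          linarith
        have b2 := mul_le_mul_of_nonneg_left b1 (by linarith : 0 ≤ C1)
        have b3 : (C1 * (C0 + 1) + 2 * Cs) * (1 / √m) ≤ τ / (6 * C0) := by
          have b4 : Q ≤ √m := by linarith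
          rw [hQ, div_le_iff₀ hτ] at b4
          rw [mul_one_div, div_le_div_iff₀ s5 (by positivity)]
          linarith
        linarith)
    have a2 := mul_le_mul_of_nonneg_left a1 (mul_nonneg (mul_self_nonneg (d.κ x)) hH)
    have a3 : d.κ x * d.κ x ≤ d.kb x * d.kb x := by
      rw [← abs_mul_abs_self]
      exact mul_self_le_mul_self (abs_nonneg _) (ests_kb h x).1
    have a4 := mul_le_mul_of_nonneg_left (mul_le_mul_of_nonneg_right a3 hH)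
      (by positivity : 0 ≤ 84 * C0 * K * m)
    linarith
  rw [map_add, map_smul, map_smul, smul_eq_mul, smul_eq_mul, ← ests_XN_sq] at p1
  rw [YN, sq_sqrt (I_nonneg fun x => by
    simp only [Sm.mul_apply, cp_apply sm]
    exact mul_nonneg (mul_nonneg (mul_self_nonneg _) (by positivity)) (ests_Hn_nonneg _ x))]
  refine ests_fin s4 hτ hδ hδ1 (by positivity) ?_
  linarith

end Pool.Agent.Lib.MP_2fa2a2_gt.PI
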