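import Pool.Agent.Lib.MP_2fa2a2_gt.PI.SLoc

namespace Pool.Agent.Lib.MP_2fa2a2_gt.PI

open Real MeasureTheory
open scoped ContDiff

theorem estz_M : ∃ M : ℝ, 0 ≤ M ∧ (∀ t, deriv smoothTransition t ≤ M) ∧
    ∀ t, t < 0 ∨ 1 < t → deriv smoothTransition t = 0 := by
  have h0 : ∀ t, t < 0 ∨ 1 < t → deriv smoothTransition t = 0 := by
    rintro t (ht | ht)
    · have : smoothTransition =ᶠ[nhds t] fun _ => 0 :=
        (eventually_lt_nhds ht).mono fun s hs => smoothTransition.zero_of_nonpos hs.le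
      rw [this.deriv_eq, deriv_const]
    · have : smoothTransition =ᶠ[nhds t] fun _ => 1 :=
        (eventually_gt_nhds ht).mono fun s hs => smoothTransition.one_of_one_le hs.le
      rw [this.deriv_eq, deriv_const]
  have hc : Continuous (deriv smoothTransition) :=
    (smoothTransition.contDiff (n := 1)).continuous_deriv le_rfl
  obtain ⟨M, hM⟩ := (isCompact_Icc (a := (0 : ℝ)) (b := 1)).exists_bound_of_continuousOn
    hc.continuousOn
  have hM0 : 0 ≤ M := (norm_nonneg _).trans (hM 0 (by simp))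
  refine ⟨M, hM0, fun t => ?_, h0⟩
  by_cases ht : t < 0 ∨ 1 < t
  · rw [h0 t ht]
    exact hM0
  · rw [not_or, not_lt, not_lt] at ht
    exact (le_abs_self _).trans (hM t ht)

theorem estz_e : ∃ M : ℝ, 0 ≤ M ∧ ∀ C z0 : ℝ, 1 ≤ C → C⁻¹ < z0 → z0 + C⁻¹ < 1 →
    ∃ e : ℝ → ℝ, ContDiff ℝ ∞ e ∧ (∀ t, |t| ≤ 1 → |e t| ≤ 4 * C * (1 - t * t)) ∧
      (∀ t, deriv e t ≤ -1 + 2 * C * M) ∧
      ∀ t, C⁻¹ < |t - z0| → C⁻¹ < |-t - z0| → deriv e t = -1 := by
  obtain ⟨M, hM0, hM, hz⟩ := estz_M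
  refine ⟨M, hM0, fun C z0 hC h1 h2 => ?_⟩
  have hC0 : 0 < C := by linarith
  have hi : C * C⁻¹ = 1 := mul_inv_cancel₀ hC0.ne'
  have hi0 : 0 < C⁻¹ := inv_pos.mpr hC0
  have hs : ∀ t, HasDerivAt smoothTransition (deriv smoothTransition t) t := fun t =>
    ((smoothTransition.contDiff (n := 1)).differentiable one_ne_zero t).hasDerivAt
  have hd : ∀ t, deriv (fun t => -t + smoothTransition (C * (t - z0) + 1 / 2)
      - smoothTransition (C * (-t - z0) + 1 / 2)) t =
      -1 + deriv smoothTransition (C * (t - z0) + 1 / 2) * C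
        + deriv smoothTransition (C * (-t - z0) + 1 / 2) * C := by
    intro t
    have a1 : HasDerivAt (fun t : ℝ => C * (t - z0) + 1 / 2) C t := by
      simpa using (((hasDerivAt_id t).sub_const z0).const_mul C).add_const (1 / 2)
    have a2 : HasDerivAt (fun t : ℝ => C * (-t - z0) + 1 / 2) (-C) t := by
      simpa using (((hasDerivAt_id t).neg.sub_const z0).const_mul C).add_const (1 / 2)
    have a3 := (((hasDerivAt_id t).neg.add ((hs _).comp t a1)).sub ((hs _).comp t a2)).deriv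
    refine Eq.trans a3 ?_
    ring
  have hz' : ∀ s, C⁻¹ < |s - z0| → deriv smoothTransition (C * (s - z0) + 1 / 2) = 0 := by
    intro s h
    apply hz
    rcases lt_abs.mp h with h | h
    · right
      nlinarith
    · left
      nlinarith
  refine ⟨fun t => -t + smoothTransition (C * (t - z0) + 1 / 2)
      - smoothTransition (C * (-t - z0) + 1 / 2), ?_, fun t ht => ?_, fun t => ?_,
      fun t a b => ?_⟩
  · have := smoothTransition.contDiff (n := ⊤)
    exact (contDiff_id.neg.add (this.comp (by fun_prop))).sub (this.comp (by fun_prop))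
  · obtain ⟨ht1, ht2⟩ := abs_le.mp ht
    have hq : 0 ≤ 1 - t * t := by nlinarith
    have hq' : 1 - t * t ≤ 4 * C * (1 - t * t) := le_mul_of_one_le_left hq (by linarith)
    beta_reduce
    by_cases a : z0 + C⁻¹ / 2 ≤ t
    · rw [smoothTransition.one_of_one_le (x := C * (t - z0) + 1 / 2) (by nlinarith),
        smoothTransition.zero_of_nonpos (x := C * (-t - z0) + 1 / 2) (by nlinarith),
        abs_of_nonneg (by linarith)]
      nlinarith
    by_cases b : z0 + C⁻¹ / 2 ≤ -t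
    · rw [smoothTransition.zero_of_nonpos (x := C * (t - z0) + 1 / 2) (by nlinarith),
        smoothTransition.one_of_one_le (x := C * (-t - z0) + 1 / 2) (by nlinarith),
        abs_of_nonpos (by linarith)]
      nlinarith
    have c : C⁻¹ / 2 ≤ 1 - t * t := by
      rcases le_total 0 t with c | c <;> nlinarith
    have d : 2 ≤ 4 * C * (1 - t * t) := by nlinarith
    have := smoothTransition.nonneg (C * (t - z0) + 1 / 2)
    have := smoothTransition.nonneg (C * (-t - z0) + 1 / 2)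
    have := smoothTransition.le_one (C * (t - z0) + 1 / 2)
    have := smoothTransition.le_one (C * (-t - z0) + 1 / 2)
    rw [abs_le]
    constructor <;> linarith
  · rw [hd]
    nlinarith [hM (C * (t - z0) + 1 / 2), hM (C * (-t - z0) + 1 / 2)]
  · rw [hd, hz' t a, hz' (-t) b]
    ring

theorem estz_two (x : S2) : (2 : Sm) x = 2 := rfl

theorem estz_q (x : S2) : qq x = 1 - (x : E3) 2 * (x : E3) 2 := by simp [qq]

theorem estz_q_mem (x : S2) : 0 ≤ qq x ∧ qq x ≤ 1 := by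
  have h := abs_le.mp (abs_X_le 2 x)
  rw [X_apply] at h
  rw [estz_q]
  constructor <;> nlinarith

theorem estz_grz : ∑ a, D a (X 2) * D a (X 2) = qq := by
  rw [← gd_eq_D, gd_X, D_X, alg_kd, qq]

theorem estz_H22 {g : ℝ → ℝ} (hg : ContDiff ℝ ∞ g) : H 2 2 (Zf g) = qq * zA g := by
  rw [← Hv_z_z, ← estz_grz, Finset.sum_mul, Hv]
  refine Finset.sum_congr rfl fun a _ => ?_
  have := H_Zf_z hg a
  calc _ = (∑ b, H a b (Zf g) * D b (X 2)) * D a (X 2) := by
        rw [Finset.sum_mul]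
        exact Finset.sum_congr rfl fun b _ => by simp only [gr]; ring
    _ = _ := by rw [this]; ring

theorem estz_Hll {g : ℝ → ℝ} (hg : ContDiff ℝ ∞ g) : Hv (Zf g) rl rl = qq * zB g := by
  have h : ∑ a, rl a * rl a = qq := by
    rw [Fin.sum_univ_three, hess_rl0, hess_rl1, hess_rl2, qq_eq]
    ring
  rw [← h, Finset.sum_mul, Hv]
  refine Finset.sum_congr rfl fun a _ => ?_
  have := H_Zf_l hg a
  calc _ = (∑ b, H a b (Zf g) * L 2 (X b)) * L 2 (X a) := by
        rw [Finset.sum_mul]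
        exact Finset.sum_congr rfl fun b _ => by simp only [rl]; ring
    _ = _ := by rw [this]; simp only [rl]; ring

theorem estz_Hsq_nonneg (ψ : Sm) (V : Fin 3 → Sm) (x : S2) : 0 ≤ Hsq ψ V x := by
  rw [Hsq, Sm.sum_apply]
  exact Finset.sum_nonneg fun a _ => mul_self_nonneg _

theorem estz_Hn_nonneg (ψ : Sm) (x : S2) : 0 ≤ Hn ψ x := by
  nlinarith [Dop_sq_le ψ x, sq_nonneg (Dop ψ x)]

theorem estz_cs (ψ : Sm) (x : S2) : H 2 2 ψ x ^ 2 ≤ qq x * Hsq ψ (gr (X 2)) x := by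
  have h : H 2 2 ψ = ∑ a, D a (X 2) * ∑ b, H a b ψ * gr (X 2) b := by
    rw [← Hv_z_z, Hv]
    refine Finset.sum_congr rfl fun a _ => ?_
    rw [Finset.mul_sum]
    exact Finset.sum_congr rfl fun b _ => by simp only [gr]; ring
  rw [h, ← estz_grz, Hsq, Sm.sum_apply, Sm.sum_apply, Sm.sum_apply]
  simp only [Sm.mul_apply, ← pow_two]
  exact Finset.sum_mul_sq_le_sq_mul_sq _ _ _

theorem estz_zav_mono {F G : S2 → ℝ} (hF : Continuous F) (hG : Continuous G)
    (h : ∀ x, F x ≤ G x) (x : S2) : zav F x ≤ zav G x :=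
  mul_le_mul_of_nonneg_left (intervalIntegral.integral_mono_on (by positivity)
    ((rotz_cont1 hF x).intervalIntegrable _ _) ((rotz_cont1 hG x).intervalIntegrable _ _)
    fun _ _ => h _) (by positivity)

theorem estz_A {g : ℝ → ℝ} (hg : ContDiff ℝ ∞ g) {ψ : Sm} (h : ∀ x, zav ψ x = Zf g x) :
    I (qq * (zA g * zA g)) ≤ I (Hsq ψ (gr (X 2))) := by
  rw [I_def, I_def, ← integral_zav (Hsq ψ (gr (X 2))).continuous]
  refine integral_mono (int_integrable _)
    (integrable_of_continuous (continuous_zav (Hsq ψ (gr (X 2))).continuous)) fun x => ?_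
  have h1 := (zav_H h x).1
  rw [estz_H22 hg] at h1
  have h2 := zav_sq_le (H 2 2 ψ).continuous x
  have h3 := estz_zav_mono ((H 2 2 ψ).continuous.pow 2) (qq * Hsq ψ (gr (X 2))).continuous
    (estz_cs ψ) x
  rw [Zon_qq.zav_mul] at h3
  have h4 := rotz_zav_nonneg (estz_Hsq_nonneg ψ (gr (X 2))) x
  rw [h1] at h2
  have h5 := h2.trans h3
  simp only [Sm.mul_apply] at h5 ⊢
  rcases (estz_q_mem x).1.eq_or_lt with h6 | h6
  · rw [← h6, zero_mul]
    exact h4
  · refine le_of_mul_le_mul_left ?_ h6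
    nlinarith

theorem estz_B {g : ℝ → ℝ} (hg : ContDiff ℝ ∞ g) {ψ W : Sm} (h : ∀ x, zav ψ x = Zf g x)
    (hW : Zon W) : I (W * W * (qq * zB g * (qq * zB g))) ≤ I (W * W * Hn ψ) := by
  have h1 : ∀ x, zav (Hv ψ rl rl) x = (qq * zB g) x := fun x => by
    rw [(zav_H h x).2.2, estz_Hll hg]
  refine (I_zav_le h1 (W := W * W) (fun x => mul_self_nonneg _) (hW.mul hW)).trans
    (I_mono fun x => ?_)
  have h2 := congrArg (fun φ : Sm => φ x) (qq_sq_Hn ψ)
  simp only [Sm.mul_apply, Sm.add_apply, estz_two] at h2 ⊢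
  refine mul_le_mul_of_nonneg_left ?_ (mul_self_nonneg _)
  obtain ⟨h3, h4⟩ := estz_q_mem x
  have h5 := estz_Hn_nonneg ψ x
  have h6 : qq x * qq x * Hn ψ x ≤ 1 * Hn ψ x :=
    mul_le_mul_of_nonneg_right (by nlinarith) h5
  nlinarith [mul_self_nonneg (H 2 2 ψ x), mul_self_nonneg (Hv ψ (gr (X 2)) rl x)]

theorem estz_ibp {g : ℝ → ℝ} (hg : ContDiff ℝ ∞ g) (η : Sm) :
    I (D 2 η * (zB g * zB g)) = I (2 * (η * X 2 * zA g * zB g)) := by
  rw [hess_ibp, D_mul]
  congr 1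
  linear_combination (-2 * η * zB g) * D2_zB hg

theorem estZ : EstZStmt := by
  intro k C0 τ C1 hC0 hC1
  obtain ⟨M, hM0, hM⟩ := estz_e
  refine ⟨√(1 + 64 * C1 ^ 2 + 4 * C1 * M * (C1 * C0) ^ 2), sqrt_nonneg _, ?_⟩
  rintro m d y ψ0 hl - ⟨N, hN⟩ h0
  obtain ⟨p, -, hp⟩ := zav_Poly (fn_mem_Poly (fun l => (2 - ll l)⁻¹) hN)
  have hg : ContDiff ℝ ∞ fun t => p.eval t := p.contDiff_aeval ∞
  generalize (fun t => p.eval t) = g at hp hg
  replace hp : ∀ x, zav (Dp y) x = Zf g x := hp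
  obtain rfl : ψ0 = Zf g := Sm.ext fun x => (h0 x).symm.trans (hp x)
  obtain ⟨c1, c2, c3⟩ := hl.core
  obtain ⟨e, he, e1, e2, e3⟩ := hM C1 d.z0 hC1 c1 c2
  have he' : ContDiff ℝ ∞ (deriv e) := he.deriv'
  have hA := estz_A hg hp
  have hB := estz_B hg hp (W := d.kb) (hl.κ_zon.add hl.κ_zon.ant)
  have hi := estz_ibp hg (Zf e)
  have hK : 0 ≤ 2 * C1 * M := by positivity
  have core : ∀ x : S2, |X 2 x - d.z0| ≤ C1⁻¹ → 1 ≤ C1 * d.κ x ∧ 1 ≤ C0 * qq x := by
    intro x hx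
    have a := c3 x hx
    have b : 0 < C1⁻¹ := by positivity
    have c := (hl.κ_supp x (by linarith)).2
    rw [inv_le_iff_one_le_mul₀' (by linarith)] at a c
    exact ⟨a, c⟩
  have key : I (qq * (zB g * zB g)) ≤ I ((1 / 2 : ℝ) • (qq * (zB g * zB g))
      + (32 * C1 ^ 2) • (qq * (zA g * zA g))
      + (2 * C1 * M * (C1 * C0) ^ 2) • (d.kb * d.kb * (qq * zB g * (qq * zB g)))
      + (2 * (Zf e * X 2 * zA g * zB g) - D 2 (Zf e) * (zB g * zB g))) := by
    refine I_mono fun x => ?_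
    rw [D2_Zf he]
    simp only [Sm.add_apply, Sm.sub_apply, Sm.mul_apply, Sm.smul_apply, estz_two,
      Zf_apply he, Zf_apply he', X_apply]
    obtain ⟨q0, q1⟩ := estz_q_mem x
    have hz := abs_X_le 2 x
    rw [X_apply] at hz
    have a1 := e1 _ hz
    rw [← estz_q] at a1
    have a2 : |e ((x : E3) 2) * (x : E3) 2| ≤ 4 * C1 * qq x := by
      rw [abs_mul]
      exact (mul_le_of_le_one_right (abs_nonneg _) hz).trans a1
    have a3 : 0 ≤ 1 / 2 * (qq x * (zB g x * zB g x)) + 32 * C1 ^ 2 * (qq x * (zA g x * zA g x))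
        + 2 * (e ((x : E3) 2) * (x : E3) 2 * zA g x * zB g x) := by
      obtain ⟨b1, b2⟩ := abs_le.mp a2
      have b3 := mul_nonneg q0 (sq_nonneg (zB g x - 8 * C1 * zA g x))
      have b4 := mul_nonneg q0 (sq_nonneg (zB g x + 8 * C1 * zA g x))
      rcases le_total 0 (zA g x * zB g x) with b | b
      · nlinarith [mul_nonneg (sub_nonneg.mpr b1) b]
      · nlinarith [mul_nonneg (sub_nonneg.mpr b2) (neg_nonneg.mpr b)]
    have a4 : qq x * (1 + deriv e ((x : E3) 2)) * (zB g x * zB g x) ≤ 2 * C1 * M * (C1 * C0) ^ 2 *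
        (d.kb x * d.kb x * (qq x * zB g x * (qq x * zB g x))) := by
      have hc : 1 ≤ C1 * d.kb x → 1 ≤ C0 * qq x → qq x * (1 + deriv e ((x : E3) 2)) *
          (zB g x * zB g x) ≤ 2 * C1 * M * (C1 * C0) ^ 2 *
          (d.kb x * d.kb x * (qq x * zB g x * (qq x * zB g x))) := by
        intro b1 b2
        have b3 : qq x * (1 + deriv e ((x : E3) 2)) ≤ 2 * C1 * M :=
          (mul_le_mul_of_nonneg_left (by linarith [e2 ((x : E3) 2)]) q0).trans
            (mul_le_of_le_one_left hK q1)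
        have b4 : 1 ≤ (C1 * d.kb x * (C0 * qq x)) ^ 2 :=
          one_le_pow₀ (one_le_mul_of_one_le_of_one_le b1 b2)
        calc _ ≤ 2 * C1 * M * (C1 * d.kb x * (C0 * qq x)) ^ 2 * (zB g x * zB g x) :=
              mul_le_mul_of_nonneg_right (b3.trans (le_mul_of_one_le_right hK b4))
                (mul_self_nonneg _)
          _ = _ := by ring
      have hkb : d.kb x = d.κ x + d.κ (neg x) := by rw [LD.kb, Sm.add_apply, ant_apply]
      have k1 := hl.κ_nonneg x
      have k2 := hl.κ_nonneg (neg x)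
      by_cases b1 : |X 2 x - d.z0| ≤ C1⁻¹
      · obtain ⟨b2, b3⟩ := core x b1
        exact hc (by rw [hkb]; nlinarith) b3
      by_cases b2 : |X 2 (neg x) - d.z0| ≤ C1⁻¹
      · obtain ⟨b3, b4⟩ := core _ b2
        refine hc (by rw [hkb]; nlinarith) ?_
        rw [estz_q] at b4 ⊢
        simpa using b4
      rw [e3 ((x : E3) 2) (not_le.mp b1) (by simpa using not_le.mp b2)]
      have : 0 ≤ d.kb x * d.kb x * (qq x * zB g x * (qq x * zB g x)) :=
        mul_nonneg (mul_self_nonneg _) (mul_self_nonneg _)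
      have : 0 ≤ 2 * C1 * M * (C1 * C0) ^ 2 := by positivity
      simp only [add_neg_cancel, mul_zero, zero_mul]
      positivity
    linarith
  simp only [map_add, map_sub, map_smul, smul_eq_mul] at key
  have x0 : 0 ≤ I (d.kb * d.kb * Hn (Dp y)) :=
    I_nonneg fun x => mul_nonneg (mul_self_nonneg _) (estz_Hn_nonneg _ x)
  have z0 : 0 ≤ I (Hsq (Dp y) (gr (X 2))) := I_nonneg (estz_Hsq_nonneg _ _)
  have x1 : XN d y ^ 2 = I (d.kb * d.kb * Hn (Dp y)) := sq_sqrt x0
  have z1 : XZ y ^ 2 = I (Hsq (Dp y) (gr (X 2))) := sq_sqrt z0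
  have x2 : 0 ≤ XN d y := sqrt_nonneg _
  have z2 : 0 ≤ XZ y := sqrt_nonneg _
  rw [← x1] at hB
  rw [← z1] at hA
  have hK' : 0 ≤ 2 * C1 * M * (C1 * C0) ^ 2 := by positivity
  have hC : 0 ≤ 32 * C1 ^ 2 := by positivity
  rw [← sqrt_sq (add_nonneg x2 z2), ← sqrt_mul (by positivity), Hn_Zf hg, mul_add, map_add]
  refine sqrt_le_sqrt ?_
  have f1 := mul_le_mul_of_nonneg_left hA hC
  have f2 := mul_le_mul_of_nonneg_left hB hK'
  have f3 : XN d y ^ 2 ≤ (XN d y + XZ y) ^ 2 := by nlinarith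
  have f4 : XZ y ^ 2 ≤ (XN d y + XZ y) ^ 2 := by nlinarith
  have f5 := mul_le_mul_of_nonneg_left f4 hC
  have f6 := mul_le_mul_of_nonneg_left f3 hK'
  linarith

end Pool.Agent.Lib.MP_2fa2a2_gt.PI
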