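import Pool.Agent.Lib.MP_2fa2a2_gt.PI.SMid

namespace Pool.Agent.Lib.MP_2fa2a2_gt.PI

theorem fin_target (h3 : S3Stmt) (hU : UnifStmt) (h5 : S5Stmt) (hC : CoreStmt) : Target := by
  obtain ⟨j1, K, hU⟩ := hU
  obtain ⟨j2, h5⟩ := h5
  obtain ⟨j, hj, hC⟩ := hC (max 5 (max j1 j2)) K
  have hj5 : 5 ≤ j := le_trans (le_max_left _ _) hj
  have hj1 : j1 ≤ j := le_trans (le_trans (le_max_left _ _) (le_max_right _ _)) hj
  have hj2 : j2 ≤ j := le_trans (le_trans (le_max_right _ _) (le_max_right _ _)) hj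
  obtain ⟨C3, c3, hC3, h3⟩ := h3 j hj5
  obtain ⟨CU, cU, hCU, hU⟩ := hU j hj1
  obtain ⟨h, m, fl, fa, χ, χ', ψ, C0, M, θ, η1, η2, η, Bχ, hh, hh1, hm, hfl, hfa, hM, hη1, hI, hI',
    ha, hb, hχ, hχ', hs, hB, h2, hc, hN, hψ, hP, hi⟩ :=
    hC (max C3 CU) (max c3 cU) (le_trans hC3 (le_max_left _ _))
  have hinv : 1 ≤ h⁻¹ := (one_le_inv₀ hh).2 hh1
  have key : ∀ (C' : ℝ) (c' : ℕ) (t : ℝ), 0 ≤ C' → C' ≤ max C3 CU → c' ≤ max c3 cU → 0 ≤ t →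
      C' * h⁻¹ ^ c' * M * t ≤ max C3 CU * h⁻¹ ^ max c3 cU * M * t := by
    intro C' c' t h0 h1 h2 ht
    have := pow_le_pow_right₀ hinv h2
    gcongr
  have n1 : 0 ≤ nrm 1 (2 * j + 20) (fa - fl) + η1 := add_nonneg (nrm_nonneg _ _ _) hη1.le
  refine h5 j hj2 h m fa ψ C0 η1 hh hh1 hm ?_ ?_ hψ hP hi
  · refine hU h m fl fa χ χ' M θ η1 η2 η Bχ hh hh1 hm hfl hfa hM hη1 hI
      ((key CU cU _ (by linarith) (le_max_right _ _) (le_max_right _ _) n1).trans ha)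
      hχ hχ' hs hB h2 (le_trans ?_ hc) hN
    have := hB.nonneg
    have := h2.nonneg
    have := le_max_right C3 CU
    gcongr
  · exact h3 h m fl fa C0 M θ η1 hh hh1 hm hfl hfa hM hη1 hI'
      ((key C3 c3 _ (by linarith) (le_max_left _ _) (le_max_left _ _) n1).trans ha)
      ((key C3 c3 _ (by linarith) (le_max_left _ _) (le_max_left _ _)
        (nrm_nonneg _ _ _)).trans hb)

end Pool.Agent.Lib.MP_2fa2a2_gt.PI
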