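import Pool.Agent.Lib.MP_2fa2a2_gt.PI.Nrm
import Pool.Agent.Shared.Brouwer

/-! Solving an underdetermined equation by a Galerkin scheme and Brouwer's theorem. -/

namespace Pool.Agent.Lib.MP_2fa2a2_gt.PI

theorem galx_brouwer {V : Type} [NormedAddCommGroup V] [InnerProductSpace ℝ V]
    [FiniteDimensional ℝ V] (G : V → V) {η : ℝ} (hη : 0 < η)
    (hG : ContinuousOn G (Metric.closedBall 0 η)) (hm : ∀ g, ‖g‖ ≤ η → ‖G g‖ ≤ η) :
    ∃ g, ‖g‖ ≤ η ∧ G g = g := by
  have h1 : ∀ x : V, x ∈ Metric.closedBall (0 : V) 1 → ‖η • x‖ ≤ η := by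
    intro x hx
    rw [mem_closedBall_zero_iff] at hx
    rw [norm_smul, Real.norm_of_nonneg hη.le]
    exact mul_le_of_le_one_right hη.le hx
  obtain ⟨x, hx, hfx⟩ := Pool.Agent.Shared.Brouwer.fixed_point_closedBall
    (fun x : V => η⁻¹ • G (η • x))
    ((hG.comp (continuous_const_smul η).continuousOn
      (fun x hx => mem_closedBall_zero_iff.2 (h1 x hx))).const_smul η⁻¹)
    (fun x hx => by
      rw [mem_closedBall_zero_iff, norm_smul, norm_inv, Real.norm_of_nonneg hη.le,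
        inv_mul_le_iff₀ hη, mul_one]
      exact hm _ (h1 x hx))
  refine ⟨η • x, h1 x hx, ?_⟩
  conv_rhs => rw [← hfx]
  rw [smul_smul, mul_inv_cancel₀ hη.ne', one_smul]

theorem gal_fin {V Y : Type} [NormedAddCommGroup V] [InnerProductSpace ℝ V] [FiniteDimensional ℝ V]
    [NormedAddCommGroup Y] [InnerProductSpace ℝ Y] [FiniteDimensional ℝ Y]
    (a : V → Y →L[ℝ] V) (e : V → Y) {η M : ℝ} (hη : 0 < η) (hM : 0 < M)
    (ha : ContinuousOn a (Metric.closedBall 0 η)) (he : ContinuousOn e (Metric.closedBall 0 η))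
    (hinj : ∀ g, ‖g‖ ≤ η → ∀ y, ‖y‖ ≤ M * ‖a g y‖)
    (hrem : ∀ g, ‖g‖ ≤ η → ∀ y, |inner ℝ (e g) y - inner ℝ (a g y) g| ≤ η / M * ‖y‖) :
    ∃ g, ‖g‖ ≤ η ∧ e g = 0 := by
  have : CompleteSpace V := FiniteDimensional.complete ℝ V
  have : CompleteSpace Y := FiniteDimensional.complete ℝ Y
  let b : V → V →L[ℝ] Y := fun g => ContinuousLinearMap.adjoint (a g)
  have hb : ContinuousOn b (Metric.closedBall 0 η) :=
    (ContinuousLinearMap.adjoint (𝕜 := ℝ) (E := Y) (F := V)).continuous.comp_continuousOn ha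
  let T : V → Y →L[ℝ] Y := fun g => (b g).comp (a g)
  have hT : ContinuousOn T (Metric.closedBall 0 η) := hb.clm_comp ha
  have hTi : ∀ g z, inner ℝ (T g z) z = ‖a g z‖ ^ 2 := by
    intro g z
    show inner ℝ (ContinuousLinearMap.adjoint (a g) (a g z)) z = _
    rw [ContinuousLinearMap.adjoint_inner_left, real_inner_self_eq_norm_sq]
  have hU : ∀ g, ‖g‖ ≤ η → IsUnit (T g) := by
    intro g hg
    have hi : Function.Injective (T g) := by
      refine (injective_iff_map_eq_zero (T g)).2 fun z hz => ?_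
      have h1 := hTi g z
      rw [hz, inner_zero_left] at h1
      have h2 : ‖a g z‖ = 0 := by simpa using h1.symm
      have h3 := hinj g hg z
      rw [h2, mul_zero] at h3
      exact norm_le_zero_iff.1 h3
    exact ContinuousLinearMap.isUnit_iff_bijective.2
      ⟨hi, (LinearMap.injective_iff_surjective (f := (T g : Y →ₗ[ℝ] Y))).1 hi⟩
  let w : V → Y := fun g => e g - b g g
  have hw : ContinuousOn w (Metric.closedBall 0 η) := he.sub (hb.clm_apply continuousOn_id)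
  let z : V → Y := fun g => Ring.inverse (T g) (w g)
  have hz : ContinuousOn z (Metric.closedBall 0 η) := by
    refine ContinuousOn.clm_apply (fun g hg => ?_) hw
    obtain ⟨u, hu⟩ := hU g (mem_closedBall_zero_iff.1 hg)
    have h1 := NormedRing.inverse_continuousAt u
    rw [hu] at h1
    exact h1.comp_continuousWithinAt (hT g hg)
  have hTz : ∀ g, ‖g‖ ≤ η → T g (z g) = w g := by
    intro g hg
    show (T g * Ring.inverse (T g)) (w g) = w g
    rw [Ring.mul_inverse_cancel _ (hU g hg)]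
    rfl
  obtain ⟨g, hg, hfix⟩ := galx_brouwer (fun g => -(a g (z g))) hη (ha.clm_apply hz).neg (by
    intro g hg
    rw [norm_neg]
    have h1 := hTi g (z g)
    have h2 : inner ℝ (w g) (z g) = inner ℝ (e g) (z g) - inner ℝ (a g (z g)) g := by
      show inner ℝ (e g - ContinuousLinearMap.adjoint (a g) g) (z g) = _
      rw [inner_sub_left, ContinuousLinearMap.adjoint_inner_left, real_inner_comm (a g (z g)) g]
    rw [hTz g hg, h2] at h1
    have h3 := (le_abs_self _).trans (hrem g hg (z g))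
    have h4 := mul_le_mul_of_nonneg_left (hinj g hg (z g)) (div_pos hη hM).le
    have h5 : η / M * (M * ‖a g (z g)‖) = η * ‖a g (z g)‖ := by field_simp
    have h6 := norm_nonneg (a g (z g))
    by_contra hc
    nlinarith [not_le.1 hc])
  refine ⟨g, hg, ?_⟩
  have h1 : b g g = -(T g (z g)) := by
    conv_lhs => rw [show b g g = b g (-(a g (z g))) by rw [hfix]]
    rw [map_neg]
    rfl
  rw [hTz g hg] at h1
  have h2 : w g = e g - b g g := rfl
  rw [h2, neg_sub] at h1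
  exact (sub_eq_self.1 h1.symm)

theorem galx_riesz {W ι : Type} [Fintype ι] [NormedAddCommGroup W] [InnerProductSpace ℝ W]
    (b : OrthonormalBasis ι ℝ W) (f : W →ₗ[ℝ] ℝ) (w : W) :
    inner ℝ (∑ i, f (b i) • b i) w = f w := by
  conv_rhs => rw [← b.sum_repr' w]
  rw [sum_inner, map_sum]
  refine Finset.sum_congr rfl fun i _ => ?_
  rw [real_inner_smul_left, map_smul, smul_eq_mul, mul_comm]

theorem gal (U Y : Submodule ℝ Sm) [FiniteDimensional ℝ Y] (hU : ∀ N, ∀ φ ∈ U, Pi N φ ∈ U)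
    (A : Sm → Sm →ₗ[ℝ] Sm →ₗ[ℝ] ℝ) (e : Sm → Sm →ₗ[ℝ] ℝ) {η M : ℝ} (hη : 0 < η) (hM : 0 < M)
    (hA : ∀ N y φ, ContinuousOn (fun g => A g y φ) {g | g ∈ Poly N ∧ ‖g‖ ≤ η})
    (he : ∀ N y, ContinuousOn (fun g => e g y) {g | g ∈ Poly N ∧ ‖g‖ ≤ η})
    (hinj : ∀ g ∈ U, ‖g‖ ≤ η → ∀ y ∈ Y, ∀ d, 0 ≤ d →
      (∀ φ ∈ U, |A g y φ| ≤ d * ‖φ‖) → ‖y‖ ≤ M * d)
    (hreg : ∃ C, ∀ g ∈ U, ‖g‖ ≤ η → ∀ y ∈ Y, ∀ φ, |A g y φ| ≤ C * ‖y‖ * nrm 1 (-1) φ)
    (hrem : ∀ g ∈ U, ‖g‖ ≤ η → ∀ y ∈ Y, |e g y - A g y g| ≤ η / (2 * M) * ‖y‖) :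
    ∃ g ∈ U, ‖g‖ ≤ η ∧ ∀ y ∈ Y, e g y = 0 := by
  obtain ⟨C, hC⟩ := hreg
  obtain ⟨N, hN⟩ := exists_nat_ge (2 * M * |C|)
  let V : Submodule ℝ Sm := U ⊓ Poly N
  have : FiniteDimensional ℝ V := Submodule.finiteDimensional_of_le inf_le_right
  let b := stdOrthonormalBasis ℝ V
  let c := stdOrthonormalBasis ℝ Y
  let a : V → Y →L[ℝ] V := fun g => LinearMap.toContinuousLinearMap
    (∑ i, (((A g).flip (b i)) ∘ₗ Y.subtype).smulRight (b i))
  have ha : ∀ (g : V) (y : Y), a g y = ∑ i, (A g y ∘ₗ V.subtype) (b i) • b i := by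
    intro g y
    simp [a]
  have ha' : ∀ (g : V) (y : Y) (φ : V), inner ℝ (a g y) φ = A g y φ := by
    intro g y φ
    rw [ha, galx_riesz]
    rfl
  let e' : V → Y := fun g => ∑ j, (e g ∘ₗ Y.subtype) (c j) • c j
  have he' : ∀ (g : V) (y : Y), inner ℝ (e' g) y = e g y := fun g y => galx_riesz c _ y
  have hmap : Set.MapsTo (fun g : V => (g : Sm)) (Metric.closedBall 0 η)
      {g | g ∈ Poly N ∧ ‖g‖ ≤ η} := fun g hg => ⟨g.2.2, mem_closedBall_zero_iff.1 hg⟩
  obtain ⟨g, hg, hg0⟩ := gal_fin a e' hη (mul_pos two_pos hM)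
    (by
      refine continuousOn_clm_apply.2 fun y => ?_
      simp only [ha]
      refine continuousOn_finsetSum _ fun i _ => ?_
      exact ((hA N y (b i)).comp continuous_subtype_val.continuousOn hmap).smul
        (continuousOn_const (c := b i)))
    (by
      refine continuousOn_finsetSum _ fun j _ => ?_
      exact ((he N (c j)).comp continuous_subtype_val.continuousOn hmap).smul
        (continuousOn_const (c := c j)))
    (by
      intro g hg y
      have hN1 : (0 : ℝ) < (N : ℝ) + 1 := by positivity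
      have hy : 0 ≤ ‖(y : Sm)‖ := norm_nonneg _
      have h1 := hinj g g.2.1 hg y y.2 (‖a g y‖ + |C| * ‖(y : Sm)‖ / ((N : ℝ) + 1))
        (by positivity) (by
          intro φ hφ
          have h2 : A g y φ = A g y (Pi N φ) + A g y (φ - Pi N φ) := by
            rw [← map_add, add_sub_cancel]
          have h3 : |A g y (Pi N φ)| ≤ ‖a g y‖ * ‖φ‖ := by
            have h4 := ha' g y ⟨Pi N φ, hU N φ hφ, Pi_mem N φ⟩
            have h5 := abs_real_inner_le_norm (a g y) ⟨Pi N φ, hU N φ hφ, Pi_mem N φ⟩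
            rw [h4] at h5
            exact h5.trans (mul_le_mul_of_nonneg_left (norm_Pi_le N φ) (norm_nonneg _))
          have h6 := nrm_sub_Pi (s := -1) (t := 0) (by norm_num) N φ
          rw [nrm_zero le_rfl, sub_zero, Real.rpow_neg_one] at h6
          have h7 := hC g g.2.1 hg y y.2 (φ - Pi N φ)
          have h8 : C * ‖(y : Sm)‖ * nrm 1 (-1) (φ - Pi N φ)
              ≤ |C| * ‖(y : Sm)‖ * (((N : ℝ) + 1)⁻¹ * ‖φ‖) :=
            mul_le_mul (mul_le_mul_of_nonneg_right (le_abs_self C) hy) h6 (nrm_nonneg _ _ _)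
              (by positivity)
          rw [h2]
          refine (abs_add_le _ _).trans ((add_le_add h3 (h7.trans h8)).trans (le_of_eq ?_))
          rw [div_eq_mul_inv]
          ring)
      have h9 : M * (|C| * ‖(y : Sm)‖ / ((N : ℝ) + 1)) ≤ ‖(y : Sm)‖ / 2 := by
        rw [← mul_div_assoc, div_le_div_iff₀ hN1 two_pos]
        nlinarith
      show ‖(y : Sm)‖ ≤ _
      nlinarith)
    (by
      intro g hg y
      rw [he', ha']
      exact hrem g g.2.1 hg y y.2)
  refine ⟨g, g.2.1, hg, fun y hy => ?_⟩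
  have h1 := he' g ⟨y, hy⟩
  rw [hg0, inner_zero_left] at h1
  exact h1.symm

end Pool.Agent.Lib.MP_2fa2a2_gt.PI
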