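import Pool.Agent.Lib.MP_2fa2a2_gt.PI.SMid
import Pool.Agent.Lib.MP_2fa2a2_gt.PI.Gal
import Pool.Agent.Lib.MP_2fa2a2_gt.PI.Prod

namespace Pool.Agent.Lib.MP_2fa2a2_gt.PI

theorem gala_DI {h : ℝ} (hh : 0 < h) (h1 : h ≤ 1) {j : ℕ} {s t : ℝ} (hs : s ≤ t + 2 * j)
    (φ : Sm) : nrm 1 s (DI h j φ) ≤ h⁻¹ ^ (2 * j) * nrm 1 t φ :=
  (nrm_mono le_rfl hs _).trans (Bd_DI hh h1 j t φ)

theorem gala_DI0 {h : ℝ} (hh : 0 < h) (h1 : h ≤ 1) {j : ℕ} {s : ℝ} (hs : s ≤ 2 * j)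
    (φ : Sm) : nrm 1 s (DI h j φ) ≤ h⁻¹ ^ (2 * j) * ‖φ‖ := by
  have := gala_DI hh h1 (j := j) (s := s) (t := 0) (by linarith) φ
  rwa [nrm_zero le_rfl] at this

theorem gala_L (c : Fin 3) (f g y : Sm) :
    tau f g (L c y) + tau (L c f) g y + tau f (L c g) y = 0 := by
  simp only [tau_def]
  linarith [tb_L c f g y, tg_L c f g y]

theorem gala_Lw {s t : ℝ} (w : List (Fin 3)) (hw : s + w.length ≤ t) (φ : Sm) :
    nrm 1 s (Lw w φ) ≤ nrm 1 t φ :=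
  (nrm_Lw le_rfl s w φ).trans (nrm_mono le_rfl hw φ)

theorem gala_cont {h : ℝ} (hh : 0 < h) (h1 : h ≤ 1) {j : ℕ} (hj : 5 ≤ j) (z : Sm) :
    Continuous fun p : Sm × Sm => tau (DI h j p.1) (DI h j p.2) z := by
  obtain ⟨C, hC, H⟩ := abs_tau_le
  have hj' : (5 : ℝ) ≤ j := by exact_mod_cast hj
  let b : Sm →ₗ[ℝ] Sm →ₗ[ℝ] ℝ :=
    (tau.compl₁₂ (DI h j) (DI h j)).compr₂ (LinearMap.applyₗ z)
  refine (b.mkContinuous₂ (C * h⁻¹ ^ (2 * j) * h⁻¹ ^ (2 * j) * ‖z‖) fun f g => ?_).continuous₂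
  refine (H (DI h j f) (DI h j g) z).trans ?_
  have a1 := gala_DI0 hh h1 (j := j) (s := 5) (by linarith) f
  have a2 := gala_DI0 hh h1 (j := j) (s := 1) (by linarith) g
  calc _ ≤ C * (h⁻¹ ^ (2 * j) * ‖f‖) * (h⁻¹ ^ (2 * j) * ‖g‖) * ‖z‖ := by
        have := nrm_nonneg 1 1 (DI h j g)
        gcongr
    _ = _ := by ring

theorem gala_err1 (j : ℕ) : ∃ C, 0 ≤ C ∧ ∀ {h : ℝ} (u φ y : Sm), 0 < h → h ≤ 1 →
    |tau u (DI h j φ) (DD h j y) - tau u φ y|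
      ≤ C * (h⁻¹ ^ (2 * j) * nrm 1 (2 * j + 5) u * ‖y‖ * ‖φ‖) := by
  obtain ⟨C, hC, H⟩ := abs_tau_le
  obtain ⟨C1, hC1, H1⟩ := leib_form j
  refine ⟨C1 * C, by positivity, fun {h} u φ y hh h1 => ?_⟩
  rw [mul_assoc]
  refine H1 gala_L hh.le fun v w hv hl => ?_
  have hv' : 1 ≤ v.length := List.length_pos_iff.2 hv
  have a0 : ((v.length : ℝ)) ≤ 2 * j := by exact_mod_cast (by omega : v.length ≤ 2 * j)
  have a0' : 1 + (w.length : ℝ) ≤ 2 * j := by exact_mod_cast (by omega : 1 + w.length ≤ 2 * j)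
  have a1 := gala_Lw (s := 5) (t := 2 * j + 5) v (by linarith) u
  have a2 := (gala_Lw (s := 1) (t := 2 * j) w a0' (DI h j φ)).trans (gala_DI0 hh h1 le_rfl φ)
  refine (mul_le_of_le_one_left (abs_nonneg _) (pow_le_one₀ hh.le h1)).trans ((H _ _ y).trans ?_)
  calc _ ≤ C * nrm 1 (2 * j + 5) u * (h⁻¹ ^ (2 * j) * ‖φ‖) * ‖y‖ := by
        have := nrm_nonneg 1 1 (Lw w (DI h j φ))
        have := nrm_nonneg 1 (2 * j + 5) u
        gcongr
    _ = _ := by ring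

theorem gala_err2 (j : ℕ) (hj : 5 ≤ j) : ∃ C, 0 ≤ C ∧ ∀ {h : ℝ} (g y : Sm), 0 < h → h ≤ 1 →
    |tau g g (DD h j y) - 2 * tau g (DD h j g) y| ≤ C * (nrm 1 (2 * j) g ^ 2 * ‖y‖) := by
  obtain ⟨C, hC, H⟩ := abs_tau_le
  obtain ⟨C1, hC1, H1⟩ := leib2 j
  refine ⟨C1 * C + C, by positivity, fun {h} g y hh h1 => ?_⟩
  have hI : Inv Ld tau := by
    intro c f g
    ext z
    rw [leib_Ld_apply, LinearMap.add_apply]
    linarith [gala_L c f g z]
  have hn := nrm_nonneg 1 (2 * j) g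
  have key : ∀ v w : List (Fin 3), v.length ≤ j → w.length + 1 ≤ 2 * j →
      |tau (Lw v g) (Lw w g) y| ≤ C * (nrm 1 (2 * j) g ^ 2 * ‖y‖) := by
    intro v w hv hw
    have a1 := gala_Lw (s := 5) (t := 2 * j) v (by exact_mod_cast (by omega)) g
    have a2 := gala_Lw (s := 1) (t := 2 * j) w (by exact_mod_cast (by omega)) g
    refine (H _ _ y).trans ?_
    calc _ ≤ C * nrm 1 (2 * j) g * nrm 1 (2 * j) g * ‖y‖ := by
          have := nrm_nonneg 1 1 (Lw w g)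
          gcongr
      _ = _ := by ring
  have h2 := H1 ((normSeminorm ℝ ℝ).comp (LinearMap.applyₗ y)) (f := g) (g := g) (h := h)
    (Y := C * (nrm 1 (2 * j) g ^ 2 * ‖y‖)) hI hh.le (by positivity) (fun v w hv hw hl => by
      have hv' : 1 ≤ v.length := List.length_pos_iff.2 hv
      have hw' : 1 ≤ w.length := List.length_pos_iff.2 hw
      refine (mul_le_of_le_one_left (apply_nonneg _ _) (pow_le_one₀ hh.le h1)).trans ?_
      change |tau (Lw v g) (Lw w g) y| ≤ _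
      rcases le_total v.length w.length with k | k
      · exact key v w (by omega) (by omega)
      · rw [tau_comm]; exact key w v (by omega) (by omega))
  change |DG Ld h j (tau g g) y - tau g (DD h j g) y - tau (DD h j g) g y + tau g g y| ≤ _ at h2
  rw [DG_Ld, tau_comm (DD h j g)] at h2
  have h3 := key [] [] (by simp) (by simp; omega)
  simp only [Lw_nil] at h3
  rw [abs_le] at h2 h3 ⊢
  constructor <;> nlinarith [h2.1, h2.2, h3.1, h3.2]

theorem gala_pair (f : Sm) (C0 h : ℝ) (j : ℕ) {y : Sm} (hy : y ∈ Ev) :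
    tau f f (DD h j y) - C0 * I y
      = inner ℝ (Bq f f - algebraMap ℝ Sm C0) (Ri (DD h j y)) := by
  rw [inner_sub_left, inner_Bq f f (y := DD h j y) (fn_mem_Ev _ hy), inner_def,
    ← Algebra.smul_def, map_smul, smul_eq_mul, Ri, I_fn PG_cRi, I_DD, funk_zero, inv_one, one_mul]

theorem gala_res (W : Sm) {h : ℝ} (hh : 0 < h) (h1 : h ≤ 1) (j : ℕ) (y : Sm) :
    |inner ℝ W (Ri (DD h j y))| ≤ 2 * nrm 1 (2 * j + 1) W * ‖y‖ := by
  have a1 := Bd_Ri (lam := 1) le_rfl (-(2 * j + 1)) (DD h j y)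
  have a2 := Bd_DD hh.le h1 j (-(2 * j + 1) + 1 / 2) y
  have a3 := nrm_mono (lam := 1) le_rfl
    (show -(2 * (j : ℝ) + 1) + 1 / 2 + 2 * j ≤ 0 by linarith) y
  rw [nrm_zero le_rfl] at a3
  refine (abs_inner_le_nrm (lam := 1) le_rfl (2 * j + 1) _ _).trans ?_
  nlinarith [nrm_nonneg 1 (2 * j + 1) W]

theorem gala_Bq (k : ℕ) : ∃ C, 0 ≤ C ∧ ∀ f : Sm, nrm 1 k (Bq f f) ≤ C * nrm 1 (k + 8) f ^ 2 := by
  obtain ⟨C1, hC1, H1⟩ := nrm_mul (k + 7) (k + 7) k (by omega) (by omega) (by omega)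
  obtain ⟨C2, hC2, H2⟩ := Bd_D (2 * (k + 7))
  refine ⟨9 * (4 ^ k * (4 ^ k * (C1 * C2 * C2))) + 2 * (3 * C1), by positivity, fun f => ?_⟩
  have hn := nrm_nonneg 1 (k + 8) f
  have m : ∀ (u v : Sm) (A B : ℝ), nrm 1 (k + 7) u ≤ A → nrm 1 (k + 7) v ≤ B →
      nrm 1 k (u * v) ≤ C1 * A * B := by
    intro u v A B hu hv
    have := H1 0 u v (Or.inl rfl)
    push_cast at this
    simp only [zero_add] at this
    refine this.trans ?_
    have := nrm_nonneg 1 (k + 7) u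
    have := nrm_nonneg 1 (k + 7) v
    have := this.trans hv
    have : 0 ≤ A := by linarith
    gcongr
  have d : ∀ a, nrm 1 (k + 7) (D a f) ≤ C2 * nrm 1 (k + 8) f := by
    intro a
    have := H2 (lam := 1) a le_rfl f
    push_cast at this
    rwa [show 2 * ((k : ℝ) + 7) / 2 = k + 7 by ring, show (k : ℝ) + 7 + 1 = k + 8 by ring] at this
  have x : ∀ (a : Fin 3) (w : Sm), nrm 1 k (X a * w) ≤ 4 ^ k * nrm 1 k w := by
    intro a w
    simpa using mulx_nat k le_rfl (Cb_X (lam := 1) le_rfl k a) w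
  have l : ∀ a, nrm 1 (k + 7) (L a (R f)) ≤ nrm 1 (k + 8) f := by
    intro a
    have := (nrm_L le_rfl (k + 7) a (R f)).trans (Bd_R le_rfl _ f)
    rwa [one_mul, show (k : ℝ) + 7 + 1 = k + 8 by ring] at this
  have t1 : ∀ a b, nrm 1 k (X a * X b * R (D a f * D b f))
      ≤ 4 ^ k * (4 ^ k * (C1 * C2 * C2)) * nrm 1 (k + 8) f ^ 2 := by
    intro a b
    have a1 := (Bd_R (lam := 1) le_rfl k (D a f * D b f)).trans
      ((one_mul _).trans_le (m _ _ _ _ (d a) (d b)))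
    rw [mul_assoc]
    refine (x a _).trans ?_
    calc _ ≤ 4 ^ k * (4 ^ k * (C1 * (C2 * nrm 1 (k + 8) f) * (C2 * nrm 1 (k + 8) f))) := by
          gcongr
          exact (x b _).trans (by gcongr)
      _ = _ := by ring
  have s1 : nrm 1 k (R2 f f) ≤ ∑ _a : Fin 3, ∑ _b : Fin 3,
      4 ^ k * (4 ^ k * (C1 * C2 * C2)) * nrm 1 (k + 8) f ^ 2 :=
    (nrm_sum_le _ _ _ _).trans (Finset.sum_le_sum fun a _ =>
      (nrm_sum_le _ _ _ _).trans (Finset.sum_le_sum fun b _ => t1 a b))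
  have s2 : nrm 1 k (gd (R f) (R f)) ≤ ∑ _a : Fin 3, C1 * nrm 1 (k + 8) f * nrm 1 (k + 8) f :=
    (nrm_sum_le _ _ _ _).trans (Finset.sum_le_sum fun a _ => m _ _ _ _ (l a) (l a))
  simp only [Finset.sum_const, Finset.card_univ, Fintype.card_fin, nsmul_eq_mul,
    Nat.cast_ofNat] at s1 s2
  rw [Bq_def, funk_two]
  refine (nrm_sub_le _ _ _ _).trans ?_
  rw [nrm_smul, abs_two]
  nlinarith

theorem gala_Pi_Zi {m : ℕ} (N : ℕ) {φ : Sm} (h : φ ∈ Zi m) : Pi N φ ∈ Zi m := by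
  rw [mem_Zi, ← harm_Pi_act, mem_Zi.1 h]

theorem gala_step {j m N : ℕ} (hj : 5 ≤ j) {h M θ η C0 : ℝ} {fl fa : Sm} (hh : 0 < h) (h1 : h ≤ 1)
    (hm : 0 < m) (hfa : fa ∈ Zi m) (hM : 0 < M) (hη : 0 < η) (hI : Inj h j m fl M θ)
    {C1 C2 : ℝ}
    (H1 : ∀ φ y : Sm, |tau (fa - fl) (DI h j φ) (DD h j y) - tau (fa - fl) φ y| ≤ C1 * ‖y‖ * ‖φ‖)
    (H2 : ∀ g y : Sm, |tau g g (DD h j y) - 2 * tau g (DD h j g) y|
      ≤ C2 * (nrm 1 (2 * j) g ^ 2 * ‖y‖))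
    (hC1 : 0 ≤ C1) (hC2 : 0 ≤ C2) (k1 : 4 * M * C1 ≤ 1) (k2 : 8 * M * h⁻¹ ^ (2 * j) * C2 * η ≤ 1)
    (k3 : nrm 1 8 (fa - fl) + η ≤ θ)
    (k4 : 16 * M * h⁻¹ ^ (2 * j) * nrm 1 (2 * j + 1) (Bq fa fa - algebraMap ℝ Sm C0) ≤ η) :
    ∃ f ∈ Zi m, nrm 1 (2 * j) (f - fa) ≤ η ∧ Pi N (Bq f f - algebraMap ℝ Sm C0) = 0 := by
  have hj' : (5 : ℝ) ≤ j := by exact_mod_cast hj
  have hH : 0 < h⁻¹ ^ (2 * j) := by positivity
  set H := h⁻¹ ^ (2 * j) with hHd
  have hg : ∀ {s : ℝ} (φ : Sm), s ≤ 2 * j → ‖φ‖ ≤ η / H → nrm 1 s (DI h j φ) ≤ η := by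
    intro s φ hs hφ
    refine (gala_DI0 hh h1 hs φ).trans ?_
    rwa [le_div_iff₀' hH] at hφ
  let Y : Submodule ℝ Sm := (Ev ⊓ Zi m) ⊓ Poly N
  have : FiniteDimensional ℝ Y := Submodule.finiteDimensional_of_le inf_le_right
  let A : Sm → Sm →ₗ[ℝ] Sm →ₗ[ℝ] ℝ := fun φ' => Lf h j fa + (2 : ℝ) • (tau (DI h j φ')).flip
  have hA : ∀ φ' y φ, A φ' y φ = 2 * tau fa (DI h j φ) (DD h j y) + 2 * tau (DI h j φ') φ y :=
    fun _ _ _ => rfl
  let e : Sm → Sm →ₗ[ℝ] ℝ := fun φ =>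
    tau (fa + DI h j φ) (fa + DI h j φ) ∘ₗ DD h j - C0 • I
  have he : ∀ φ y, e φ y = tau (fa + DI h j φ) (fa + DI h j φ) (DD h j y) - C0 * I y :=
    fun _ _ => rfl
  obtain ⟨φ, hφ, hφ1, hφ2⟩ := gal (Zi m) Y (fun N φ => gala_Pi_Zi N) A e (η := η / H) (M := 2 * M)
    (by positivity) (by positivity)
    (by
      intro N' y φ
      refine Continuous.continuousOn ?_
      have := (gala_cont hh h1 hj y).comp (f := fun g : Sm => (g, DD h j φ)) (by fun_prop)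
      simp only [Function.comp_def, DI_DD] at this
      simp only [hA]
      exact continuous_const.add (continuous_const.mul this))
    (by
      intro N' y
      refine Continuous.continuousOn ?_
      have := (gala_cont hh h1 hj (DD h j y)).comp
        (f := fun g : Sm => (DD h j fa + g, DD h j fa + g)) (by fun_prop)
      simp only [Function.comp_def, map_add (DI h j), DI_DD] at this
      simp only [he]
      exact this.sub continuous_const)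
    (by
      intro φ' hφ' hn y hy d hd hb
      have hy0 := norm_nonneg y
      have hall : ∀ φ, |A φ' y φ| ≤ d * ‖φ‖ := by
        intro φ
        rw [← form_avZ hm (A φ' y) (fun ψ => ?_) φ]
        · exact (hb _ (avZ_mem hm φ)).trans (mul_le_mul_of_nonneg_left (norm_avZ_le m φ) hd)
        · have a1 := tau_act (rotZ (2 * Real.pi / m)) fa (DI h j ψ) (DD h j y)
          have a2 := tau_act (rotZ (2 * Real.pi / m)) (DI h j φ') ψ y
          rw [mem_Zi.1 hfa, mem_Zi.1 (show DD h j y ∈ Zi m from fn_mem_Zi _ hy.1.2)] at a1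
          rw [mem_Zi.1 hy.1.2, mem_Zi.1 (show DI h j φ' ∈ Zi m from fn_mem_Zi _ hφ')] at a2
          rw [hA, hA, a2, ← a1, DI, fn_act]
      have a3 := hI (fa - fl + DI h j φ') y N (d + 2 * C1 * ‖y‖)
        ((nrm_add_le _ _ _ _).trans (by linarith [hg (s := 8) φ' (by linarith) hn]))
        hy.1.1 hy.1.2 hy.2 (by positivity) fun φ => by
          have b1 := hall φ
          have b2 := H1 φ y
          rw [hA] at b1
          simp only [map_sub, LinearMap.sub_apply] at b2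
          simp only [Lf_apply, map_add, map_sub, LinearMap.add_apply, LinearMap.sub_apply]
          rw [abs_le] at b1 b2 ⊢
          constructor <;> nlinarith [b1.1, b1.2, b2.1, b2.2]
      nlinarith)
    (by
      obtain ⟨C, hC, K⟩ := abs_tau_le'
      refine ⟨2 * (C * nrm 1 7 fa * H * ((N : ℝ) + 1) ^ (2 + 2 * (j : ℝ) - 0))
        + 2 * (C * η * ((N : ℝ) + 1) ^ (2 + 2 * (j : ℝ) - 0)), fun φ' _ hn y hy φ => ?_⟩
      have b0 := nrm_of_Poly (s := 0) (t := 2 + 2 * j) (by positivity) hy.2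
      rw [nrm_zero le_rfl] at b0
      have b1 := (Bd_DD hh.le h1 j 2 y).trans ((one_mul _).trans_le b0)
      have b2 := (nrm_mono le_rfl (show (2 : ℝ) ≤ 2 + 2 * j by linarith) y).trans b0
      have b3 := gala_DI hh h1 (j := j) (s := -1) (t := -1) (by linarith) φ
      have b4 := hg (s := 7) φ' (by linarith) hn
      have c0 := nrm_nonneg 1 7 fa
      have c1 := nrm_nonneg 1 (-1) φ
      have c2 := nrm_nonneg 1 2 y
      have c3 := nrm_nonneg 1 2 (DD h j y)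
      have d1 : |tau fa (DI h j φ) (DD h j y)| ≤ C * nrm 1 7 fa * (H * nrm 1 (-1) φ) *
          (((N : ℝ) + 1) ^ (2 + 2 * (j : ℝ) - 0) * ‖y‖) := (K _ _ _).trans (by gcongr)
      have d2 : |tau (DI h j φ') φ y| ≤ C * η * nrm 1 (-1) φ *
          (((N : ℝ) + 1) ^ (2 + 2 * (j : ℝ) - 0) * ‖y‖) := (K _ _ _).trans (by gcongr)
      rw [hA]
      refine (abs_add_le _ _).trans ?_
      rw [abs_mul, abs_mul, abs_two]
      linarith)
    (by
      intro φ _ hn y hy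
      have hy0 := norm_nonneg y
      have b1 := gala_res (Bq fa fa - algebraMap ℝ Sm C0) hh h1 j y
      rw [← gala_pair fa C0 h j hy.1.1] at b1
      have b2 := H2 (DI h j φ) y
      rw [DD_DI] at b2
      have b3 := hg φ le_rfl hn
      have b4 : C2 * (nrm 1 (2 * j) (DI h j φ) ^ 2 * ‖y‖) ≤ C2 * (η ^ 2 * ‖y‖) := by
        have := nrm_nonneg 1 (2 * j) (DI h j φ)
        gcongr
      have b5 : e φ y - A φ y φ = (tau fa fa (DD h j y) - C0 * I y) +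
          (tau (DI h j φ) (DI h j φ) (DD h j y) - 2 * tau (DI h j φ) φ y) := by
        rw [he, hA]
        simp only [map_add, LinearMap.add_apply, tau_comm (DI h j φ) fa]
        ring
      rw [b5]
      refine (abs_add_le _ _).trans ((add_le_add b1 (b2.trans b4)).trans ?_)
      rw [div_div, div_mul_eq_mul_div, le_div_iff₀ (by positivity)]
      have b6 := mul_le_mul_of_nonneg_right k4 hy0
      have b7 := mul_le_mul_of_nonneg_right k2 (mul_nonneg hη.le hy0)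
      nlinarith)
  have hf : fa + DI h j φ ∈ Zi m := add_mem hfa (fn_mem_Zi _ hφ)
  refine ⟨_, hf, by rw [add_sub_cancel_left]; exact hg φ le_rfl hφ1, ?_⟩
  set W := Bq (fa + DI h j φ) (fa + DI h j φ) - algebraMap ℝ Sm C0 with hW
  have w1 : W ∈ Zi m := by
    rw [mem_Zi, hW, map_sub, ← Bq_act, mem_Zi.1 hf, AlgHom.commutes]
  have w2 : Pi N W ∈ Ev := by
    rw [mem_Ev, ← harm_Pi_ant, hW, map_sub, mem_Ev.1 (Bq_mem_Ev _ _), AlgHom.commutes]
  have y1 : DI h j (R (Pi N W)) ∈ Ev := fn_mem_Ev _ (fn_mem_Ev _ w2)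
  have h3 := hφ2 (DI h j (R (Pi N W))) ⟨⟨y1, fn_mem_Zi _ (fn_mem_Zi _ (gala_Pi_Zi N w1))⟩,
    fn_mem_Poly _ (fn_mem_Poly _ (Pi_mem N W))⟩
  rw [he, gala_pair _ C0 h j y1, DD_DI, Ri_R, evp_of_Ev w2, ← hW,
    ← Pi_of_mem (Pi_mem N W), ← inner_Pi, inner_self_eq_zero] at h3
  exact h3

theorem galA : S3Stmt := by
  intro j _
  obtain ⟨C1, hC1, H1⟩ := gala_err1 (j + 5)
  obtain ⟨C2, hC2, H2⟩ := gala_err2 (j + 5) (by omega)
  obtain ⟨C3, hC3, H3⟩ := gala_Bq (2 * j + 2)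
  refine ⟨16 + 4 * C1 + 8 * C2, 2 * (j + 5), by linarith, ?_⟩
  intro h m fl fa C0 M θ η hh h1 hm _ hfa hM hη hI k1 k2 δ hδ
  have hH : 1 ≤ h⁻¹ ^ (2 * (j + 5)) := one_le_pow₀ ((one_le_inv₀ hh).2 h1)
  have hj : (0 : ℝ) ≤ j := Nat.cast_nonneg j
  have e1 : 2 * ((j + 5 : ℕ) : ℝ) = 2 * j + 10 := by push_cast; ring
  have e2 : ((2 * j + 2 : ℕ) : ℝ) = 2 * j + 2 := by push_cast; ring
  set H := h⁻¹ ^ (2 * (j + 5)) with hHd
  set E := nrm 1 (2 * j + 20) (fa - fl) with hE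
  have E0 : 0 ≤ E := nrm_nonneg _ _ _
  have E1 : ∀ s : ℝ, s ≤ 2 * j + 20 → nrm 1 s (fa - fl) ≤ E := fun s hs => nrm_mono le_rfl hs _
  have hHM : 1 ≤ H * M := one_le_mul_of_one_le_of_one_le hH hM
  have q1 := k1.trans (min_le_left _ _)
  have q2 := k1.trans (min_le_right _ _)
  have q3 := mul_nonneg (zero_le_one.trans hHM) E0
  have q4 := mul_nonneg (zero_le_one.trans hHM) hη.le
  have q5 := mul_nonneg hC1 q3
  have q6 := mul_nonneg hC1 q4
  have q7 := mul_nonneg hC2 q3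
  have q8 := mul_nonneg hC2 q4
  obtain ⟨N, hN⟩ := exists_nat_ge ((C3 * (nrm 1 (2 * j + 10) fa + η) ^ 2 + |C0|) / δ)
  obtain ⟨f, hf, f1, f2⟩ := gala_step (N := N) (C0 := C0) (C1 := C1 * H * E) (by omega) hh h1 hm hfa
    (by linarith) hη hI
    (fun φ y => (H1 _ φ y hh h1).trans (by
      have := E1 (2 * ((j + 5 : ℕ) : ℝ) + 5) (by linarith)
      calc _ ≤ C1 * (H * E * ‖y‖ * ‖φ‖) := by gcongr
        _ = _ := by ring))
    (fun g y => H2 g y hh h1) (by positivity) hC2 (by nlinarith) (by nlinarith)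
    (by nlinarith [E1 8 (by linarith), mul_le_mul_of_nonneg_right hHM (add_nonneg E0 hη.le)])
    (by
      rw [e1, show 2 * (j : ℝ) + 10 + 1 = 2 * j + 11 by ring]
      have := mul_nonneg (zero_le_one.trans hHM)
        (nrm_nonneg 1 (2 * j + 11) (Bq fa fa - algebraMap ℝ Sm C0))
      nlinarith [mul_nonneg hC1 this, mul_nonneg hC2 this])
  rw [e1] at f1
  refine ⟨f, hf, f1, ?_⟩
  have g1 := nrm_sub_Pi (s := 2 * j + 1) (t := 2 * j + 2) (by linarith) N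
    (Bq f f - algebraMap ℝ Sm C0)
  rw [f2, sub_zero, show 2 * (j : ℝ) + 1 - (2 * j + 2) = -1 by ring, Real.rpow_neg_one] at g1
  have g2 := H3 f
  rw [e2, show 2 * (j : ℝ) + 2 + 8 = 2 * j + 10 by ring] at g2
  have g3 : nrm 1 (2 * j + 10) f ≤ nrm 1 (2 * j + 10) fa + η := by
    have := nrm_add_le 1 (2 * j + 10) fa (f - fa)
    rw [add_sub_cancel] at this
    linarith
  have g4 : nrm 1 (2 * j + 2) (Bq f f - algebraMap ℝ Sm C0)
      ≤ C3 * (nrm 1 (2 * j + 10) fa + η) ^ 2 + |C0| := by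
    refine (nrm_sub_le _ _ _ _).trans (add_le_add (g2.trans ?_) ?_)
    · have := nrm_nonneg 1 (2 * j + 10) f
      gcongr
    · rw [Algebra.algebraMap_eq_smul_one, nrm_smul, nrm_one, mul_one]
  rw [div_le_iff₀ hδ] at hN
  refine g1.trans ?_
  rw [inv_mul_le_iff₀ (by positivity)]
  nlinarith

end Pool.Agent.Lib.MP_2fa2a2_gt.PI
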