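import Pool.Agent.Lib.MP_2fa2a2_gt.PI.SMid
import Pool.Agent.Lib.MP_2fa2a2_gt.PI.Gal

namespace Pool.Agent.Lib.MP_2fa2a2_gt.PI

theorem galb_fin (Y : Submodule ℝ Sm) [FiniteDimensional ℝ Y] (T : Sm →ₗ[ℝ] Sm) (s : ℝ) :
    ∃ C, 0 ≤ C ∧ ∀ y ∈ Y, nrm 1 s (T y) ≤ C * ‖y‖ := by
  let S : Y →L[ℝ] Sm := LinearMap.toContinuousLinearMap (fn (wt 1 s) ∘ₗ T ∘ₗ Y.subtype)
  exact ⟨‖S‖, S.opNorm_nonneg, fun y hy => S.le_opNorm ⟨y, hy⟩⟩

/-- regularity of a form on a space of test functions -/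
def galb_Rg (Y : Submodule ℝ Sm) (F : Sm →ₗ[ℝ] Sm →ₗ[ℝ] ℝ) : Prop :=
  ∃ C, ∀ y ∈ Y, ∀ φ, |F y φ| ≤ C * ‖y‖ * nrm 1 (-1) φ

theorem galb_Rg_add {Y : Submodule ℝ Sm} {F G : Sm →ₗ[ℝ] Sm →ₗ[ℝ] ℝ} (hF : galb_Rg Y F)
    (hG : galb_Rg Y G) : galb_Rg Y (F + G) := by
  obtain ⟨C, hC⟩ := hF
  obtain ⟨D, hD⟩ := hG
  refine ⟨C + D, fun y hy φ => ?_⟩
  have h1 := hC y hy φ
  have h2 := hD y hy φ
  have h3 := abs_add_le (F y φ) (G y φ)
  simp only [LinearMap.add_apply]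
  linarith

theorem galb_Rg_smul {Y : Submodule ℝ Sm} {F : Sm →ₗ[ℝ] Sm →ₗ[ℝ] ℝ} (hF : galb_Rg Y F)
    (r : ℝ) : galb_Rg Y (r • F) := by
  obtain ⟨C, hC⟩ := hF
  refine ⟨|r| * C, fun y hy φ => ?_⟩
  have h1 := mul_le_mul_of_nonneg_left (hC y hy φ) (abs_nonneg r)
  simp only [LinearMap.smul_apply, smul_eq_mul, abs_mul]
  linarith

theorem galb_Rg_sub {Y : Submodule ℝ Sm} {F G : Sm →ₗ[ℝ] Sm →ₗ[ℝ] ℝ} (hF : galb_Rg Y F)
    (hG : galb_Rg Y G) : galb_Rg Y (F - G) := by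
  obtain ⟨C, hC⟩ := hF
  obtain ⟨D, hD⟩ := hG
  refine ⟨C + D, fun y hy φ => ?_⟩
  have h1 := hC y hy φ
  have h2 := hD y hy φ
  have h3 := abs_sub (F y φ) (G y φ)
  simp only [LinearMap.sub_apply]
  linarith

theorem galb_Rg_ip (Y : Submodule ℝ Sm) [FiniteDimensional ℝ Y] (A : Sm →ₗ[ℝ] Sm)
    {B : Sm →ₗ[ℝ] Sm} {C : ℝ} (hB : Bd 1 (-1) (-1) C B) : galb_Rg Y (ip A B) := by
  obtain ⟨D, hD0, hD⟩ := galb_fin Y A 1
  refine ⟨D * C, fun y hy φ => ?_⟩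
  rw [ip_apply]
  refine (abs_inner_le_nrm le_rfl 1 _ _).trans ?_
  have h1 := mul_le_mul (hD y hy) (hB φ) (nrm_nonneg _ _ _) (by positivity)
  linarith

theorem galb_Rg_t0 (Y : Submodule ℝ Sm) [FiniteDimensional ℝ Y] (j : ℕ) {C : ℝ} (hC : 0 ≤ C)
    (hL : ∀ (k : ℝ) (u : Sm) (b : ℝ) (n : ℤ), k = 1 ∨ k = 2 → |n| ≤ 4 → Cb 8 1 b u →
      Bd 1 (n / 2) (n / 2) (C * b) (P1 k j u) ∧ Bd 1 (n / 2) (n / 2) (C * b) (Bop u))
    (f : Sm) : galb_Rg Y (t0 j f) := by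
  obtain ⟨S, hS0, hS⟩ := sobolev
  have e : (((-2 : ℤ) : ℝ) / 2) = -1 := by norm_num
  have h1 := hL 1 ((2 : ℝ) • R f) _ (-2) (Or.inl rfl) (by norm_num) (hS 8 _)
  have h2 := hL 2 f _ (-2) (Or.inr rfl) (by norm_num) (hS 8 _)
  rw [e] at h1 h2
  have h3 := Bd.comp (mul_nonneg hC (mul_nonneg hS0 (nrm_nonneg _ _ _))) h1.1 (Bd_R le_rfl (-1))
  unfold t0
  exact galb_Rg_sub (galb_Rg_add (galb_Rg_add (galb_Rg_smul (galb_Rg_sub
    (galb_Rg_ip Y _ (Bd_R le_rfl (-1))) (galb_Rg_ip Y _ (Bd_id 1 (-1)))) 2)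
    (galb_Rg_smul (galb_Rg_ip Y _ h3) 2)) (galb_Rg_ip Y _ h2.2)) (galb_Rg_ip Y _ h2.1)

theorem galb_Rg_Lf (Y : Submodule ℝ Sm) [FiniteDimensional ℝ Y] {h : ℝ} (hh : 0 < h)
    (h1 : h ≤ 1) (j : ℕ) (f : Sm) : galb_Rg Y (Lf h j f) := by
  obtain ⟨C, hC0, hC⟩ := abs_tau_le'
  obtain ⟨D, hD0, hD⟩ := galb_fin Y (DD h j) 2
  refine ⟨2 * (C * nrm 1 7 f * h⁻¹ ^ (2 * j) * D), fun y hy φ => ?_⟩
  rw [Lf_apply, abs_mul, abs_two]
  have a1 : nrm 1 (-1) (DI h j φ) ≤ h⁻¹ ^ (2 * j) * nrm 1 (-1) φ :=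
    (nrm_mono le_rfl (le_add_of_nonneg_right (by positivity)) _).trans (Bd_DI hh h1 j (-1) φ)
  have a0 : 0 ≤ C * nrm 1 7 f := mul_nonneg hC0 (nrm_nonneg _ _ _)
  have a2 := mul_le_mul (mul_le_mul_of_nonneg_left a1 a0) (hD y hy) (nrm_nonneg _ _ _)
    (mul_nonneg a0 (mul_nonneg (by positivity) (nrm_nonneg _ _ _)))
  have a3 := hC f (DI h j φ) (DD h j y)
  linarith

theorem galb_UU (ε : ℝ) (f : Sm) : UU (ε • f) = ε • FF ε f := by
  unfold UU FF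
  rw [← map_smul R]
  congr 1
  simp only [map_smul, LinearMap.smul_apply, smul_add, smul_smul]
  congr 2
  · ring
  · ring

theorem galb_res {h : ℝ} (hh : 0 < h) (h1 : h ≤ 1) (j : ℕ) (f : Sm) (C0 : ℝ) {y : Sm}
    (hy : y ∈ Ev) : |tau f f (DD h j y) - C0 * I y|
      ≤ nrm 1 (2 * j + 1) (Bq f f - algebraMap ℝ Sm C0) * (2 * ‖y‖) := by
  have e1 : inner ℝ (algebraMap ℝ Sm C0) (Ri (DD h j y)) = C0 * I y := by
    rw [inner_def, Algebra.algebraMap_eq_smul_one, smul_mul_assoc, one_mul, map_smul,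
      smul_eq_mul]
    unfold Ri
    rw [I_fn PG_cRi, funk_zero, inv_one, one_mul, I_DD]
  have hy' : DD h j y ∈ Ev := fn_mem_Ev _ hy
  rw [← inner_Bq f f hy', ← e1, ← inner_sub_left]
  refine (abs_inner_le_nrm le_rfl (2 * j + 1) _ _).trans
    (mul_le_mul_of_nonneg_left ?_ (nrm_nonneg _ _ _))
  have a1 := Bd_Ri (le_refl (1 : ℝ)) (-(2 * j + 1)) (DD h j y)
  have a2 := Bd_DD hh.le h1 j (-(2 * j + 1) + 1 / 2) y
  have a3 : nrm 1 (-(2 * j + 1) + 1 / 2 + 2 * j) y ≤ ‖y‖ := by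
    rw [← nrm_zero (le_refl (1 : ℝ)) y]
    exact nrm_mono le_rfl (by linarith) y
  linarith

theorem galb_avZ_Poly (m : ℕ) {N : ℕ} {y : Sm} (hy : y ∈ Poly N) : avZ m y ∈ Poly N := by
  rw [rotz_avZ]
  exact (Poly N).smul_mem _ (Submodule.sum_mem _ fun k _ => act_mem_Poly hy _)

theorem galb_geo {h ε C0 : ℝ} {j N : ℕ} {f : Sm} (hε : 0 < ε)
    (hE : ∀ y ∈ Ev, y ∈ Poly N → EE h j ε C0 f y = 0) {y : Sm} (hy : y ∈ Ev)
    (hN : y ∈ Poly N) : I (pk 1 (UU (ε • f)) * XX (UU (ε • f)) y)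
      = (1 + ε ^ 2 * C0) * I (p2 (ε • f) * XX (ε • f) (R y)) := by
  have h1 := hE (DI h j (R y)) (fn_mem_Ev _ (R_mem_Ev y)) (fn_mem_Poly _ (fn_mem_Poly _ hN))
  unfold EE at h1
  simp only [LinearMap.smul_apply, LinearMap.sub_apply, LinearMap.comp_apply, DD_DI, Ri_R,
    evp_of_Ev hy, innerₗ_apply_apply, smul_eq_mul, inner_def] at h1
  rw [galb_UU]
  have h2 : (ε ^ 2)⁻¹ ≠ 0 := by positivity
  exact sub_eq_zero.1 ((mul_eq_zero.1 h1).resolve_left h2)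

theorem galB (hL : LowStmt) (hA : ChainAStmt) (hB : ChainBStmt) (hC : ChainCStmt)
    (hG : GeoStmt) : S5Stmt := by
  obtain ⟨jL, hL⟩ := hL
  obtain ⟨jA, hA⟩ := hA
  obtain ⟨jB, hB⟩ := hB
  obtain ⟨jC, hC⟩ := hC
  obtain ⟨δG, hδG, hG⟩ := hG
  refine ⟨jL + jA + jB + jC + 3, ?_⟩
  intro j hj h m fa ψ C0 η1 hh h1 hm hU hf hψ hψ1 hκ
  obtain ⟨CL, hCL, -, -, hL⟩ := hL j (by omega) h hh h1
  obtain ⟨hadd, -, CA, hCA, hA⟩ := hA j (by omega) h hh h1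
  obtain ⟨M, δ, hM, hδ, hU⟩ := hU
  set K : ℝ := h⁻¹ ^ (2 * j) with hK
  have hK0 : 0 < K := by positivity
  set B : ℝ := |C0| + nrm 1 (2 * j + 10) fa + |η1| + K with hBdef
  have hn0 := nrm_nonneg 1 (2 * j + 10) fa
  have ha0 := abs_nonneg C0
  have ha1 := abs_nonneg η1
  have hB0 : 0 < B := by positivity
  obtain ⟨CB, εB, hCB, hεB, hB⟩ := hB j (by omega) h hh h1 B
  obtain ⟨hact, hC⟩ := hC j (by omega) h hh h1
  obtain ⟨εC, hεC, hC⟩ := hC B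
  set κ : ℝ := inner ℝ fa ψ - η1 * ‖ψ‖ with hκdef
  have hκ0 : 0 < κ := by linarith
  -- the radius
  obtain ⟨η, hη, hη1, hηδ, hηκ, hηA⟩ : ∃ η : ℝ, 0 < η ∧ η ≤ 1 ∧ η ≤ δ ∧ η * ‖ψ‖ ≤ κ / 2 ∧
      CA * K ^ 2 * η * M ≤ 1 / 4 := by
    have p1 : 0 < κ / (2 * (‖ψ‖ + 1)) := by positivity
    have p2 : 0 < 1 / (4 * (CA * K ^ 2 * M + 1)) := by positivity
    refine ⟨min (min 1 δ) (min (κ / (2 * (‖ψ‖ + 1))) (1 / (4 * (CA * K ^ 2 * M + 1)))),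
      by positivity, (min_le_left _ _).trans (min_le_left _ _),
      (min_le_left _ _).trans (min_le_right _ _), ?_, ?_⟩
    · have q := (min_le_right (min 1 δ) _).trans
        (min_le_left (κ / (2 * (‖ψ‖ + 1))) (1 / (4 * (CA * K ^ 2 * M + 1))))
      rw [le_div_iff₀ (by positivity)] at q
      have q2 : 0 < min (min 1 δ) (min (κ / (2 * (‖ψ‖ + 1)))
        (1 / (4 * (CA * K ^ 2 * M + 1)))) := by positivity
      nlinarith
    · have q := (min_le_right (min 1 δ) _).trans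
        (min_le_right (κ / (2 * (‖ψ‖ + 1))) (1 / (4 * (CA * K ^ 2 * M + 1))))
      rw [le_div_iff₀ (by positivity)] at q
      have q2 : 0 < min (min 1 δ) (min (κ / (2 * (‖ψ‖ + 1)))
        (1 / (4 * (CA * K ^ 2 * M + 1)))) := by positivity
      nlinarith
  obtain ⟨f0, hf0, hf1, hf2⟩ := hf (η / (16 * M)) (by positivity)
  -- the small parameter
  obtain ⟨ε, hε, hεδ, hεB', hεC', hε1, hε2, hε3, hε4⟩ : ∃ ε : ℝ, 0 < ε ∧ ε ≤ δ ∧ ε ≤ εB ∧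
      ε ≤ εC ∧ ε ≤ 1 ∧ ε * B ≤ 1 / 2 ∧ ε * CB ≤ δG ∧ CB * ε * (1 + B) ≤ η / (4 * M) := by
    have c1 : ∀ᶠ ε in nhdsWithin (0 : ℝ) (Set.Ioi 0), 0 < ε := self_mem_nhdsWithin
    have t : ∀ (c a : ℝ), 0 < a → ∀ᶠ ε in nhdsWithin (0 : ℝ) (Set.Ioi 0), ε * c ≤ a := by
      intro c a ha
      refine Filter.Eventually.filter_mono nhdsWithin_le_nhds ?_
      have : Filter.Tendsto (fun ε : ℝ => ε * c) (nhds 0) (nhds (0 * c)) :=
        (continuous_id.mul continuous_const).tendsto 0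
      exact this.eventually_le_const (by simpa using ha)
    obtain ⟨ε, ⟨⟨⟨⟨⟨⟨⟨e0, e1⟩, e2⟩, e3⟩, e4⟩, e5⟩, e6⟩, e7⟩⟩ :=
      (((((((c1.and (t 1 δ hδ)).and
        (t 1 εB hεB)).and (t 1 εC hεC)).and (t 1 1 one_pos)).and (t B (1 / 2) (by norm_num))).and
        (t CB δG hδG)).and (t (CB * (1 + B)) (η / (4 * M)) (by positivity))).exists
    exact ⟨ε, e0, by linarith, by linarith, by linarith, by linarith, e5, e6, by linarith⟩
  have hC0B : |C0| ≤ B := by linarith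
  have hf0n : nrm 1 (2 * j + 10) f0 ≤ nrm 1 (2 * j + 10) fa + |η1| := by
    have q := nrm_add_le 1 (2 * j + 10) fa (f0 - fa)
    rw [add_sub_cancel] at q
    linarith [le_abs_self η1]
  have hDI : ∀ g : Sm, nrm 1 (2 * j) (DI h j g) ≤ K * ‖g‖ := by
    intro g
    have q := Bd_DI hh h1 j 0 g
    rwa [zero_add, nrm_zero le_rfl] at q
  have hfB : ∀ g : Sm, ‖g‖ ≤ η → nrm 1 (2 * j) (f0 + DI h j g) ≤ B := by
    intro g hg
    have q1 := nrm_add_le 1 (2 * j) f0 (DI h j g)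
    have q2 : nrm 1 (2 * j) f0 ≤ nrm 1 (2 * j + 10) f0 := nrm_mono le_rfl (by linarith) _
    have q3 := hDI g
    have q4 : K * ‖g‖ ≤ K * 1 := mul_le_mul_of_nonneg_left (hg.trans hη1) hK0.le
    linarith
  obtain ⟨⟨CC, hCC⟩, hcont⟩ := hC ε C0 hε hεC'
  have hsol : ∀ N : ℕ, ∃ g ∈ Zi m, ‖g‖ ≤ η ∧
      ∀ y ∈ (Ev ⊓ Zi m) ⊓ Poly N, EE h j ε C0 (f0 + DI h j g) y = 0 := by
    intro N
    have : FiniteDimensional ℝ ((Ev ⊓ Zi m) ⊓ Poly N : Submodule ℝ Sm) :=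
      Submodule.finiteDimensional_of_le inf_le_right
    refine gal (Zi m) ((Ev ⊓ Zi m) ⊓ Poly N) (fun N' φ hφ => ?_) (fun g => AA h j ε f0 g)
      (fun g => EE h j ε C0 (f0 + DI h j g)) hη hM (fun N' y φ => ?_) (fun N' y => ?_)
      (fun g hg hgη y hy d hd hφ => ?_) ?_ (fun g hg hgη y hy => ?_)
    · rw [mem_Zi, ← harm_Pi_act, mem_Zi.1 hφ]
    · have q := ((hcont f0 N' y φ).1.mono (t := {g | g ∈ Poly N' ∧ ‖g‖ ≤ η})
        (fun g hg => ⟨hg.1, hfB g hg.2⟩))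
      exact (q.add continuousOn_const).sub continuousOn_const
    · exact (hcont f0 N' y 0).2.mono (fun g hg => ⟨hg.1, hfB g hg.2⟩)
    · exact hU ε f0 g y N d hε hεδ hf0 hf1 hg (hgη.trans hηδ) hy.1.1 hy.1.2 hy.2 hd hφ
    · obtain ⟨D1, hD1⟩ := galb_Rg_sub (galb_Rg_Lf ((Ev ⊓ Zi m) ⊓ Poly N) hh h1 j f0)
        (galb_Rg_t0 ((Ev ⊓ Zi m) ⊓ Poly N) j hCL hL f0)
      obtain ⟨D2, hD20, hD2⟩ := galb_fin ((Ev ⊓ Zi m) ⊓ Poly N) LinearMap.id 3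
      refine ⟨|CC| * D2 + D1, fun g _ hgη y hy φ => ?_⟩
      have q1 := hCC (f0 + DI h j g) y φ (hfB g hgη)
      have q2 := hD1 y hy φ
      have q3 : nrm 1 3 y ≤ D2 * ‖y‖ := hD2 y hy
      have q4 : CC * nrm 1 3 y ≤ |CC| * (D2 * ‖y‖) :=
        mul_le_mul (le_abs_self _) q3 (nrm_nonneg _ _ _) (abs_nonneg _)
      have q5 := mul_le_mul_of_nonneg_right q4 (nrm_nonneg 1 (-1) φ)
      have q6 := abs_add_le (tt j ε (f0 + DI h j g) y φ) ((Lf h j f0 - t0 j f0) y φ)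
      have q7 : AA h j ε f0 g y φ
          = tt j ε (f0 + DI h j g) y φ + (Lf h j f0 - t0 j f0) y φ := by
        simp only [AA, LinearMap.add_apply, LinearMap.sub_apply]
        ring
      rw [q7]
      linarith
    · have hyE : y ∈ Ev := hy.1.1
      obtain ⟨-, -, -, q⟩ := hB ε C0 (f0 + DI h j g) hε hεB' hC0B (hfB g hgη)
      obtain ⟨q1, q2⟩ := q y hyE
      have q3 := q2 (DD h j f0)
      have q4 := galb_res hh h1 j f0 C0 hyE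
      have q5 := (hA (DI h j g) (DI h j g) y 0 hyE).1
      rw [DD_DI] at q5
      have hy0 := norm_nonneg y
      have r1 : nrm 1 2 (DD h j f0) ≤ B := by
        have a1 := Bd_DD hh.le h1 j 2 f0
        have a2 : nrm 1 (2 + 2 * j) f0 ≤ nrm 1 (2 * j + 10) f0 :=
          nrm_mono le_rfl (by linarith) _
        linarith
      have r2 : CB * ε * ‖y‖ * nrm 1 2 (DD h j f0) ≤ CB * ε * ‖y‖ * B :=
        mul_le_mul_of_nonneg_left r1 (by positivity)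
      have r3 : CB * ε * (1 + B) * ‖y‖ ≤ η / (4 * M) * ‖y‖ :=
        mul_le_mul_of_nonneg_right hε4 hy0
      have r4 : nrm 1 (2 * j + 1) (Bq f0 f0 - algebraMap ℝ Sm C0) * (2 * ‖y‖)
          ≤ η / (16 * M) * (2 * ‖y‖) := mul_le_mul_of_nonneg_right hf2 (by positivity)
      have r5 : nrm 1 (2 * j) (DI h j g) ≤ K * η :=
        (hDI g).trans (mul_le_mul_of_nonneg_left hgη hK0.le)
      have r6 : nrm 1 (-(1 / 2)) y ≤ ‖y‖ := by
        rw [← nrm_zero (le_refl (1 : ℝ)) y]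
        exact nrm_mono le_rfl (by norm_num) y
      have r7 : CA * nrm 1 (2 * j) (DI h j g) * nrm 1 (2 * j) (DI h j g) * nrm 1 (-(1 / 2)) y
          ≤ CA * (K * η) * (K * η) * ‖y‖ := by
        have n1 := nrm_nonneg 1 (2 * j) (DI h j g)
        have n2 := nrm_nonneg 1 (-(1 / 2)) y
        gcongr
      have r8 : CA * (K * η) * (K * η) * ‖y‖ ≤ η / (4 * M) * ‖y‖ := by
        refine mul_le_mul_of_nonneg_right ?_ hy0
        rw [le_div_iff₀ (by positivity)]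
        nlinarith
      have e1 : EE h j ε C0 (f0 + DI h j g) y - AA h j ε f0 g y g
          = (EE h j ε C0 (f0 + DI h j g) y - tt j ε (f0 + DI h j g) y (DD h j (f0 + DI h j g))
            - (tau (f0 + DI h j g) (f0 + DI h j g) (DD h j y) - C0 * I y
              - t0 j (f0 + DI h j g) y (DD h j (f0 + DI h j g))))
          + (tt j ε (f0 + DI h j g) y (DD h j f0) - t0 j (f0 + DI h j g) y (DD h j f0))
          + (tau f0 f0 (DD h j y) - C0 * I y)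
          + (1 / 2) * (2 * tau (DI h j g) (DI h j g) (DD h j y) - t0 j (DI h j g) y g
            - t0 j (DI h j g) y g) := by
        have a1 := hadd f0 (DI h j g) y g
        have a2 := tau_comm (DI h j g) f0 (DD h j y)
        simp only [AA, LinearMap.add_apply, LinearMap.sub_apply, Lf_apply, map_add, DD_DI]
        linarith
      have e2 : η / (2 * M) * ‖y‖ = η / (4 * M) * ‖y‖ + η / (16 * M) * (2 * ‖y‖)
          + (1 / 2) * (η / (4 * M) * ‖y‖) := by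
        field_simp
        ring
      show |EE h j ε C0 (f0 + DI h j g) y - AA h j ε f0 g y g| ≤ η / (2 * M) * ‖y‖
      rw [e1, e2]
      rw [abs_le] at q1 q3 q4 q5 ⊢
      constructor <;> nlinarith [q1.1, q1.2, q3.1, q3.2, q4.1, q4.2, q5.1, q5.2]
  choose g hg hgη hgE using hsol
  have hfZ : ∀ N, f0 + DI h j (g N) ∈ Zi m := fun N => (Zi m).add_mem hf0 (fn_mem_Zi _ (hg N))
  have hr : 0 < 1 + ε ^ 2 * C0 := by
    have a1 : ε * |C0| ≤ 1 / 2 := (mul_le_mul_of_nonneg_left hC0B hε.le).trans hε2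
    have a2 := neg_abs_le C0
    have a3 : ε * (ε * |C0|) ≤ 1 * (1 / 2) := mul_le_mul hε1 a1 (by positivity) zero_le_one
    nlinarith [mul_le_mul_of_nonneg_left a2 (sq_nonneg ε)]
  have hCb : ∀ v : Sm, Cb (2 * j - 3) 1 CB v → Cb 3 1 δG (ε • v) := by
    intro v hv
    refine (hv.smul ε).mono zero_le_one (by omega) le_rfl ?_
    rwa [abs_of_pos hε]
  refine hG (fun N => ε • (f0 + DI h j (g N))) (1 + ε ^ 2 * C0) (ε * (κ / 2)) ψ hr
    (by positivity) (fun N => ?_) (fun N => ?_) (fun N y hy hN => ?_) hψ hψ1 (fun N => ?_)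
  · exact hCb _ (hB ε C0 _ hε hεB' hC0B (hfB _ (hgη N))).1
  · rw [galb_UU]
    exact hCb _ (hB ε C0 _ hε hεB' hC0B (hfB _ (hgη N))).2.1
  · refine galb_geo (h := h) (j := j) (N := N) hε (fun z hz hzN => ?_) hy hN
    rw [← form_avZ hm (EE h j ε C0 (f0 + DI h j (g N))) (fun φ => ?_) z]
    · refine hgE N _ ⟨⟨?_, avZ_mem hm z⟩, galb_avZ_Poly m hzN⟩
      show ant (avZ m z) = avZ m z
      rw [ant_avZ, mem_Ev.1 hz]
    · have q := (hact (rotZ (2 * Real.pi / m)) ε C0 (f0 + DI h j (g N)) φ 0).2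
      rwa [mem_Zi.1 (hfZ N)] at q
  · rw [real_inner_smul_left]
    refine mul_le_mul_of_nonneg_left ?_ hε.le
    have e : f0 + DI h j (g N) = fa + (f0 - fa) + DI h j (g N) := by abel
    rw [e, inner_add_left, inner_add_left]
    have a1 := abs_real_inner_le_norm (f0 - fa) ψ
    have a2 := abs_real_inner_le_norm (DI h j (g N)) ψ
    have a3 : ‖f0 - fa‖ ≤ η1 := by
      rw [← nrm_zero (le_refl (1 : ℝ))]
      exact (nrm_mono le_rfl (by positivity) _).trans hf1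
    have a4 : ‖DI h j (g N)‖ ≤ η := (norm_DI_le h j _).trans (hgη N)
    have a5 := mul_le_mul_of_nonneg_right a3 (norm_nonneg ψ)
    have a6 := mul_le_mul_of_nonneg_right a4 (norm_nonneg ψ)
    have a7 := neg_abs_le (inner ℝ (f0 - fa) ψ)
    have a8 := neg_abs_le (inner ℝ (DI h j (g N)) ψ)
    linarith

end Pool.Agent.Lib.MP_2fa2a2_gt.PI
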