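import Pool.Agent.Lib.MP_2fa2a2_gt.PI.Circ

/-! Analysis for the geometric end game: limits, the Funk transform of a continuous function,
moments against even polynomials. -/

namespace Pool.Agent.Lib.MP_2fa2a2_gt.PI

open MeasureTheory Filter Topology

theorem geoc_neg_cont : Continuous neg :=
  (continuous_subtype_val.neg).subtype_mk _

theorem geoc_int_neg (F : S2 → ℝ) : ∫ x, F (neg x) ∂sig = ∫ x, F x ∂sig :=
  integral_rotS (LinearIsometryEquiv.neg ℝ) F

theorem geoc_bdd {F : S2 → ℝ} (hF : Continuous F) : ∃ C, 0 ≤ C ∧ ∀ x, |F x| ≤ C := by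
  obtain ⟨C, hC⟩ := (isCompact_range hF.abs).bddAbove
  exact ⟨max C 0, le_max_right _ _, fun x => le_max_of_le_left (hC ⟨x, rfl⟩)⟩

theorem geoc_abs_int {F : S2 → ℝ} {B : ℝ} (h : ∀ x, |F x| ≤ B) : |∫ x, F x ∂sig| ≤ B := by
  have h1 := norm_integral_le_of_norm_le_const (μ := sig) (f := F) (C := B)
    (Eventually.of_forall h)
  simpa using h1

theorem geoc_int_diff {F G y : S2 → ℝ} (hF : Continuous F) (hG : Continuous G)
    (hy : Continuous y) {η C : ℝ} (h : ∀ x, |F x - G x| ≤ η) (hC : ∀ x, |y x| ≤ C) :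
    |∫ x, F x * y x ∂sig - ∫ x, G x * y x ∂sig| ≤ η * C := by
  rw [← integral_sub (integrable_of_continuous (g := fun x => F x * y x) (hF.mul hy))
    (integrable_of_continuous (g := fun x => G x * y x) (hG.mul hy))]
  refine geoc_abs_int fun x => ?_
  rw [← sub_mul, abs_mul]
  exact mul_le_mul (h x) (hC x) (abs_nonneg _) ((abs_nonneg _).trans (h x))

theorem geoc_zero_of_le {a C : ℝ} (h : ∀ η, 0 < η → |a| ≤ η * C) : a = 0 := by
  have h1 : Tendsto (fun η : ℝ => η * C) (𝓝[>] 0) (𝓝 (0 * C)) :=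
    (tendsto_id.mul_const C).mono_left nhdsWithin_le_nhds
  rw [zero_mul] at h1
  exact abs_nonpos_iff.1 (ge_of_tendsto h1 (eventually_nhdsWithin_of_forall h))

/-- limits of equi-Lipschitz functions along an ultrafilter -/
theorem geoc_limit (U : Ultrafilter ℕ) (h : ℕ → S2 → ℝ) {a b : ℝ}
    (hb : ∀ N x, h N x ∈ Set.Icc a b) (hl : ∀ N x y, h N x - h N y ≤ 2 * dist x y) :
    ∃ g : S2 → ℝ, (∀ x, Tendsto (fun N => h N x) U (𝓝 (g x))) ∧
      ∀ η, 0 < η → ∀ᶠ N in U, ∀ x, |h N x - g x| ≤ η := by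
  have h1 : ∀ x, ∃ t ∈ Set.Icc a b, Tendsto (fun N => h N x) U (𝓝 t) := fun x =>
    isCompact_Icc.ultrafilter_le_nhds (U.map fun N => h N x)
      (le_principal_iff.2 (mem_map.2 (Eventually.of_forall fun N => hb N x)))
  choose g _ hg using h1
  refine ⟨g, hg, fun η hη => ?_⟩
  have he : Equicontinuous h := by
    refine Metric.equicontinuous_of_continuity_modulus (fun t => 2 * t) ?_ h fun x y N => ?_
    · simpa using (tendsto_id (x := 𝓝 (0 : ℝ))).const_mul 2
    · rw [Real.dist_eq, abs_le]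
      have := hl N y x
      rw [dist_comm] at this
      exact ⟨by linarith, hl N x y⟩
  have h2 := (he.tendsto_uniformFun_iff_pi U g).2 (tendsto_pi_nhds.2 hg)
  have h3 : TendstoUniformly h g U := UniformFun.tendsto_iff_tendstoUniformly.1 h2
  filter_upwards [Metric.tendstoUniformly_iff.1 h3 η hη] with N hN x
  rw [abs_sub_comm]
  exact (hN x).le

theorem geoc_circ_cont {u : S2} {e1 e2 : E3} (h : Fr u e1 e2) : Continuous (circ e1 e2) := by
  refine continuous_induced_rng.2 ?_
  have e : Subtype.val ∘ circ e1 e2 = fun τ => Real.cos τ • e1 + Real.sin τ • e2 :=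
    funext (circ_coe h)
  rw [e]
  fun_prop

theorem geoc_cav_diff {u : S2} {e1 e2 : E3} (h : Fr u e1 e2) {F G : S2 → ℝ} (hF : Continuous F)
    (hG : Continuous G) {η : ℝ} (hη : ∀ x, |F x - G x| ≤ η) :
    |cav F e1 e2 - cav G e1 e2| ≤ η := by
  unfold cav
  have c1 : Continuous fun τ => F (circ e1 e2 τ) := hF.comp (geoc_circ_cont h)
  have c2 : Continuous fun τ => G (circ e1 e2 τ) := hG.comp (geoc_circ_cont h)
  rw [← mul_sub, ← intervalIntegral.integral_sub (c1.intervalIntegrable _ _)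
    (c2.intervalIntegrable _ _)]
  exact circ_mean_le fun t => hη _

/-- the Funk transform of a continuous function -/
theorem geoc_T {F : S2 → ℝ} (hF : Continuous F) : ∃ T : S2 → ℝ, Continuous T ∧
    (∀ v, T (neg v) = T v) ∧ (∀ y : Sm, ∫ x, T x * y x ∂sig = ∫ x, F x * R y x ∂sig) ∧
    ∀ v, ∃ e1 e2, Fr v e1 e2 ∧ T v = cav F e1 e2 := by
  choose e1 e2 he using exists_Fr
  have key : ∀ η, 0 < η → ∃ p : Sm, (∀ x, |F x - p x| ≤ η) ∧
      ∀ v, |cav F (e1 v) (e2 v) - R p v| ≤ η := fun η hη => by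
    obtain ⟨N, p, -, hp⟩ := exists_Poly_near hF hη
    refine ⟨p, hp, fun v => ?_⟩
    rw [R_apply (he v)]
    exact geoc_cav_diff (he v) hF p.continuous hp
  have hc : Continuous fun v => cav F (e1 v) (e2 v) := by
    refine continuous_of_uniform_approx_of_continuous fun s hs => ?_
    obtain ⟨ε, hε, hs'⟩ := Metric.mem_uniformity_dist.1 hs
    obtain ⟨p, -, hp⟩ := key (ε / 2) (half_pos hε)
    refine ⟨R p, (R p).continuous, fun v => hs' ?_⟩
    rw [Real.dist_eq]
    linarith [hp v]
  refine ⟨fun v => cav F (e1 v) (e2 v), hc, fun v => ?_, fun y => ?_,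
    fun v => ⟨_, _, he v, rfl⟩⟩
  · refine sub_eq_zero.1 (geoc_zero_of_le (C := 2) fun η hη => ?_)
    obtain ⟨p, -, hp⟩ := key η hη
    have e : R p (neg v) = R p v := by rw [← ant_apply, mem_Ev.1 (R_mem_Ev p)]
    have h1 := abs_le.1 (hp v)
    have h2 := abs_le.1 (hp (neg v))
    rw [e] at h2
    exact abs_le.2 ⟨by linarith [h1.2, h2.1], by linarith [h1.1, h2.2]⟩
  · obtain ⟨C, -, hC⟩ := y.bounded
    refine sub_eq_zero.1 (geoc_zero_of_le (C := 2 * C) fun η hη => ?_)
    obtain ⟨p, hp1, hp⟩ := key η hη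
    have h1 := abs_le.1 (geoc_int_diff hc (R p).continuous y.continuous hp hC)
    have h2 := abs_le.1 (geoc_int_diff hF p.continuous (R y).continuous hp1 (abs_R_le hC))
    have e : ∫ x, R p x * y x ∂sig = ∫ x, p x * R y x ∂sig := inner_fn cR p y
    rw [e] at h1
    exact abs_le.2 ⟨by linarith [h1.1, h2.2], by linarith [h1.2, h2.1]⟩

/-- an even continuous function is determined by its moments against even polynomials -/
theorem geoc_moment {G : S2 → ℝ} (hG : Continuous G) (he : ∀ v, G (neg v) = G v)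
    (h : ∀ N, ∀ y ∈ Ev, y ∈ Poly N → ∫ x, G x * y x ∂sig = 0) (v : S2) : G v = 0 := by
  have h1 : ∀ N, ∀ p ∈ Poly N, ∫ x, G x * p x ∂sig = 0 := fun N p hp => by
    have hp' : p + ant p ∈ Poly N := (Poly N).add_mem hp (act_mem_Poly hp _)
    have hev : p + ant p ∈ Ev := by rw [mem_Ev, map_add, ant_ant, add_comm]
    have h2 := h N _ hev hp'
    have h3 := geoc_int_neg fun x => G x * p x
    simp only [Sm.add_apply, mul_add, ant_apply] at h2
    rw [integral_add (integrable_of_continuous (g := fun x => G x * p x) (hG.mul p.continuous))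
      (integrable_of_continuous (g := fun x => G x * p (neg x))
        (hG.mul (p.continuous.comp geoc_neg_cont)))] at h2
    simp only [he] at h3
    linarith
  obtain ⟨C, -, hC⟩ := geoc_bdd hG
  have h2 : ∫ x, G x * G x ∂sig = 0 := by
    refine geoc_zero_of_le (C := C) fun η hη => ?_
    obtain ⟨N, p, hpN, hp⟩ := exists_Poly_near hG hη
    have h3 := geoc_int_diff hG p.continuous hG hp hC
    have h4 := h1 N p hpN
    simp only [mul_comm (G _)] at h4
    rwa [h4, sub_zero] at h3
  have h0 := (integral_eq_zero_iff_of_nonneg (f := fun x => G x * G x)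
    (fun x => mul_self_nonneg (G x)) (integrable_of_continuous (hG.mul hG))).1 h2
  have h3 : (fun x => G x * G x) = 0 :=
    (Continuous.ae_eq_iff_eq sig (hG.mul hG) continuous_zero).1 h0
  exact mul_self_eq_zero.1 (congrFun h3 v)

/-- uniform convergence implies convergence of moments -/
theorem geoc_tendsto_int {U : Filter ℕ} {F : ℕ → S2 → ℝ} {G y : S2 → ℝ}
    (hF : ∀ N, Continuous (F N)) (hG : Continuous G) (hy : Continuous y)
    (h : ∀ η, 0 < η → ∀ᶠ N in U, ∀ x, |F N x - G x| ≤ η) :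
    Tendsto (fun N => ∫ x, F N x * y x ∂sig) U (𝓝 (∫ x, G x * y x ∂sig)) := by
  obtain ⟨C, hC0, hC⟩ := geoc_bdd hy
  refine Metric.tendsto_nhds.2 fun ε hε => ?_
  filter_upwards [h (ε / (C + 1)) (by positivity)] with N hN
  rw [Real.dist_eq]
  refine (geoc_int_diff (hF N) hG hy hN hC).trans_lt ?_
  rw [div_mul_eq_mul_div, div_lt_iff₀ (by positivity)]
  nlinarith

/-- a function whose odd part is linear is orthogonal to odd functions without linear part -/
theorem geoc_orth {h : S2 → ℝ} (hh : Continuous h) {c : E3}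
    (hc : ∀ v, h v - h (neg v) = 2 * inner ℝ c (v : E3)) {ψ : Sm} (ho : ψ ∈ Od)
    (h1 : P 1 ψ = 0) : ∫ x, h x * ψ x ∂sig = 0 := by
  have a1 : ∀ a, I (X a * ψ) = 0 := fun a => by
    have e : P 1 (X a) = X a := P_eq_of_eigen (by
      rw [lap_X]
      ext x
      simp only [ll, Sm.mul_apply, Sm.neg_apply, harm_two, Sm.smul_apply]
      norm_num)
    rw [← inner_def, ← e, inner_P, h1, inner_zero_right]
  have a2 : ∫ x, inner ℝ c (x : E3) * ψ x ∂sig = 0 := by
    have e : I (∑ a, c a • (X a * ψ)) = 0 := by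
      rw [map_sum]
      exact Finset.sum_eq_zero fun a _ => by rw [map_smul, a1, smul_zero]
    rw [← e, I_def]
    refine integral_congr_ae (Eventually.of_forall fun x => ?_)
    simp only [Sm.sum_apply, Sm.smul_apply, Sm.mul_apply, X_apply, rot_inner, Finset.sum_mul,
      mul_assoc]
  have a3 := geoc_int_neg fun x => h x * ψ x
  have a4 : ∀ x, h (neg x) * ψ (neg x) = 2 * (inner ℝ c (x : E3) * ψ x) - h x * ψ x := fun x => by
    have e : ψ (neg x) = -ψ x := by rw [← ant_apply, mem_Od.1 ho, Sm.neg_apply]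
    rw [e, ← mul_assoc, ← hc x]
    ring
  simp only [a4] at a3
  have c1 : Continuous fun x : S2 => inner ℝ c (x : E3) * ψ x :=
    (continuous_const.inner continuous_subtype_val).mul ψ.continuous
  rw [integral_sub (integrable_of_continuous (g := fun x => 2 * (inner ℝ c (x : E3) * ψ x))
    (continuous_const.mul c1)) (integrable_of_continuous (g := fun x => h x * ψ x)
    (hh.mul ψ.continuous)), integral_const_mul, a2] at a3
  linarith

end Pool.Agent.Lib.MP_2fa2a2_gt.PI
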