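import Pool.Agent.Lib.MP_2fa2a2_gt.PI.SGeo

/-! Convex geometry for the geometric end game. -/

namespace Pool.Agent.Lib.MP_2fa2a2_gt.PI

open MeasureTheory Filter Topology
open scoped Pointwise

/-- support functions of bodies close to the unit ball -/
structure geocSup (h : S2 → ℝ) : Prop where
  lo : ∀ v, 1 / 2 ≤ h v
  hi : ∀ v, h v ≤ 2
  att : ∀ v : S2, ∃ p ∈ Kof h, inner ℝ p (v : E3) = h v

theorem geoc_convex (h : S2 → ℝ) : Convex ℝ (Kof h) := by
  intro x hx y hy a b ha hb hab ν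
  have h1 := mul_le_mul_of_nonneg_left (hx ν) ha
  have h2 := mul_le_mul_of_nonneg_left (hy ν) hb
  rw [inner_add_left, real_inner_smul_left, real_inner_smul_left]
  calc _ ≤ a * h ν + b * h ν := add_le_add h1 h2
    _ = h ν := by rw [← add_mul, hab, one_mul]

theorem geoc_closed (h : S2 → ℝ) : IsClosed (Kof h) := by
  have e : Kof h = ⋂ ν : S2, {x : E3 | inner ℝ x (ν : E3) ≤ h ν} := by
    ext x
    simp [Kof]
  rw [e]
  exact isClosed_iInter fun ν => isClosed_le (by fun_prop) continuous_const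

theorem geoc_smul_nrmz (x : E3) : ‖x‖ • (nrmz x : E3) = x := by
  rcases eq_or_ne x 0 with rfl | hx
  · simp
  · rw [nrmz_val hx, smul_smul, mul_inv_cancel₀ (norm_ne_zero_iff.2 hx), one_smul]

theorem geoc_inner_self (v : S2) : inner ℝ (v : E3) (v : E3) = (1 : ℝ) := by
  rw [real_inner_self_eq_norm_sq, base_norm, one_pow]

theorem geoc_norm_le {h : S2 → ℝ} (hi : ∀ v, h v ≤ 2) {x : E3} (hx : x ∈ Kof h) : ‖x‖ ≤ 2 := by
  have h1 := (hx (nrmz x)).trans (hi _)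
  have h2 : inner ℝ x (nrmz x : E3) = ‖x‖ := by
    conv_lhs => rw [← geoc_smul_nrmz x]
    rw [real_inner_smul_left, geoc_smul_nrmz, geoc_inner_self, mul_one]
  rwa [h2] at h1

theorem geoc_compact {h : S2 → ℝ} (hi : ∀ v, h v ≤ 2) : IsCompact (Kof h) :=
  (isCompact_closedBall (0 : E3) 2).of_isClosed_subset (geoc_closed h) fun _ hx =>
    mem_closedBall_zero_iff.2 (geoc_norm_le hi hx)

theorem geoc_interior {h : S2 → ℝ} (lo : ∀ v, 1 / 2 ≤ h v) : (0 : E3) ∈ interior (Kof h) := by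
  refine mem_interior.2 ⟨Metric.ball 0 (1 / 2), fun x hx ν => ?_, Metric.isOpen_ball,
    Metric.mem_ball_self (by norm_num)⟩
  have h1 := real_inner_le_norm x (ν : E3)
  rw [base_norm, mul_one] at h1
  linarith [mem_ball_zero_iff.1 hx, lo ν]

theorem geoc_scale {h k : S2 → ℝ} {s : ℝ} (hs : 0 < s) (hk : ∀ v, h v ≤ s * k v) {x : E3}
    (hx : x ∈ Kof h) : s⁻¹ • x ∈ Kof k := fun ν => by
  rw [real_inner_smul_left, inv_mul_le_iff₀ hs]
  exact (hx ν).trans (hk ν)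

theorem geoc_lip {h : S2 → ℝ} (H : geocSup h) (x y : S2) : h x - h y ≤ 2 * dist x y := by
  obtain ⟨p, hp, e⟩ := H.att x
  have h1 := real_inner_le_norm p ((x : E3) - y)
  have h2 := mul_le_mul_of_nonneg_right (geoc_norm_le H.hi hp) (norm_nonneg ((x : E3) - y))
  rw [inner_sub_right, e] at h1
  rw [Subtype.dist_eq, dist_eq_norm]
  linarith [hp y]

theorem geoc_cont {h : S2 → ℝ} (H : geocSup h) : Continuous h := by
  refine (LipschitzWith.of_dist_le_mul (K := 2) fun x y => ?_).continuous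
  have h1 := geoc_lip H y x
  rw [dist_comm] at h1
  rw [Real.dist_eq, abs_le]
  exact ⟨by simpa using (by linarith : -(2 * dist x y) ≤ h x - h y), geoc_lip H x y⟩

theorem geoc_sup_limit (U : Ultrafilter ℕ) {h : ℕ → S2 → ℝ} {g : S2 → ℝ}
    (H : ∀ N, geocSup (h N)) (hg : ∀ x, Tendsto (fun N => h N x) U (𝓝 (g x))) : geocSup g := by
  refine ⟨fun v => ge_of_tendsto' (hg v) fun N => (H N).lo v,
    fun v => le_of_tendsto' (hg v) fun N => (H N).hi v, fun v => ?_⟩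
  choose p hp e using fun N => (H N).att v
  obtain ⟨q, -, hq⟩ := (isCompact_closedBall (0 : E3) 2).ultrafilter_le_nhds (U.map p)
    (le_principal_iff.2 (mem_map.2 (Eventually.of_forall fun N =>
      mem_closedBall_zero_iff.2 (geoc_norm_le (H N).hi (hp N)))))
  have hq' : Tendsto p U (𝓝 q) := hq
  have h1 : ∀ ν : S2, Tendsto (fun N => inner ℝ (p N) (ν : E3)) U (𝓝 (inner ℝ q (ν : E3))) :=
    fun ν => hq'.inner tendsto_const_nhds
  refine ⟨q, fun ν => le_of_tendsto_of_tendsto' (h1 ν) (hg ν) fun N => hp N ν, ?_⟩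
  have h2 := h1 v
  simp only [e] at h2
  exact tendsto_nhds_unique h2 (hg v)

theorem geoc_le_mul {h k : S2 → ℝ} (lo : ∀ v, 1 / 2 ≤ k v) {η : ℝ} (hη : 0 ≤ η)
    (hc : ∀ v, |h v - k v| ≤ η) (v : S2) : h v ≤ (1 + 2 * η) * k v := by
  have h1 := (abs_le.1 (hc v)).2
  nlinarith [lo v]

section
variable (hS : GeoSStmt)
include hS

theorem geoc_rad_cont {h : S2 → ℝ} (H : geocSup h) : Continuous (rad (Kof h)) :=
  (hS.2 _ (geoc_convex h) (geoc_compact H.hi) (geoc_interior H.lo)).1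

theorem geoc_rad_pos {h : S2 → ℝ} (H : geocSup h) (v : S2) : 0 < rad (Kof h) v :=
  (hS.2 _ (geoc_convex h) (geoc_compact H.hi) (geoc_interior H.lo)).2.1 v

theorem geoc_rad_iff {h : S2 → ℝ} (H : geocSup h) (v : S2) {t : ℝ} (ht : 0 ≤ t) :
    t • (v : E3) ∈ Kof h ↔ t ≤ rad (Kof h) v :=
  (hS.2 _ (geoc_convex h) (geoc_compact H.hi) (geoc_interior H.lo)).2.2.1 v t ht

theorem geoc_rad_mem {h : S2 → ℝ} (H : geocSup h) (v : S2) : rad (Kof h) v • (v : E3) ∈ Kof h :=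
  (geoc_rad_iff hS H v (geoc_rad_pos hS H v).le).2 le_rfl

theorem geoc_rad_two {h : S2 → ℝ} (H : geocSup h) (v : S2) : rad (Kof h) v ≤ 2 := by
  have h1 := geoc_norm_le H.hi (geoc_rad_mem hS H v)
  rwa [norm_smul, base_norm, mul_one, Real.norm_of_nonneg (geoc_rad_pos hS H v).le] at h1

theorem geoc_rad_le {h k : S2 → ℝ} (H : geocSup h) (H' : geocSup k) {η : ℝ} (hη : 0 ≤ η)
    (hc : ∀ v, |h v - k v| ≤ η) (v : S2) : rad (Kof h) v - rad (Kof k) v ≤ 4 * η := by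
  have hs : 0 < 1 + 2 * η := by linarith
  have h1 := geoc_scale hs (geoc_le_mul H'.lo hη hc) (geoc_rad_mem hS H v)
  rw [smul_smul, geoc_rad_iff hS H' v (mul_nonneg (inv_pos.2 hs).le (geoc_rad_pos hS H v).le),
    inv_mul_le_iff₀ hs] at h1
  nlinarith [geoc_rad_two hS H' v]

theorem geoc_rad_close {h k : S2 → ℝ} (H : geocSup h) (H' : geocSup k) {η : ℝ} (hη : 0 ≤ η)
    (hc : ∀ v, |h v - k v| ≤ η) (v : S2) : |rad (Kof h) v - rad (Kof k) v| ≤ 4 * η := by
  have h1 := geoc_rad_le hS H' H hη (fun v => by rw [abs_sub_comm]; exact hc v) v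
  exact abs_le.2 ⟨by linarith, geoc_rad_le hS H H' hη hc v⟩

theorem geoc_rad_sq_close {h k : S2 → ℝ} (H : geocSup h) (H' : geocSup k) {η : ℝ} (hη : 0 ≤ η)
    (hc : ∀ v, |h v - k v| ≤ η) (v : S2) :
    |rad (Kof h) v ^ 2 - rad (Kof k) v ^ 2| ≤ 16 * η := by
  have h1 := geoc_rad_close hS H H' hη hc v
  have h2 : |rad (Kof h) v + rad (Kof k) v| ≤ 4 := by
    rw [abs_of_pos (add_pos (geoc_rad_pos hS H v) (geoc_rad_pos hS H' v))]
    linarith [geoc_rad_two hS H v, geoc_rad_two hS H' v]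
  rw [sq_sub_sq, abs_mul]
  calc _ ≤ 4 * (4 * η) := mul_le_mul h2 h1 (abs_nonneg _) (by norm_num)
    _ = 16 * η := by ring

/-- the radial function in the direction of a boundary point -/
theorem geoc_rad_bd {h : S2 → ℝ} (H : geocSup h) {p : E3} {ν : S2} (hp : p ∈ Kof h)
    (e : inner ℝ p (ν : E3) = h ν) : rad (Kof h) (nrmz p) = ‖p‖ := by
  refine le_antisymm ?_ ((geoc_rad_iff hS H _ (norm_nonneg p)).1 (by rwa [geoc_smul_nrmz]))
  have h1 := geoc_rad_mem hS H (nrmz p) ν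
  have h2 : ‖p‖ * inner ℝ (nrmz p : E3) (ν : E3) = h ν := by
    rw [← real_inner_smul_left, geoc_smul_nrmz, e]
  have h3 : (0 : ℝ) < inner ℝ (nrmz p : E3) (ν : E3) := by
    refine pos_of_mul_pos_right (a := ‖p‖) ?_ (norm_nonneg p)
    rw [h2]
    linarith [H.lo ν]
  rw [real_inner_smul_left, ← h2] at h1
  exact le_of_mul_le_mul_right h1 h3

end

theorem geoc_rad_even {k : S2 → ℝ} (he : ∀ v, k (neg v) = k v) (v : S2) :
    rad (Kof k) (neg v) = rad (Kof k) v := by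
  have h1 : ∀ x ∈ Kof k, -x ∈ Kof k := fun x hx ν => by
    have h2 := hx (neg ν)
    rw [he, neg_coe, inner_neg_right] at h2
    rwa [inner_neg_left]
  unfold rad
  congr 1
  ext t
  simp only [Set.mem_ofPred_eq, neg_coe, smul_neg]
  exact and_congr_right fun _ => ⟨fun h => by simpa using h1 _ h, h1 _⟩

/-- measure of the projection -/
noncomputable def geocPr (v : E3) (K : Set E3) : ENNReal :=
  Measure.hausdorffMeasure 2 ((fun y : E3 => y - inner ℝ v y • v) '' K)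

theorem geoc_proj_le {h k : S2 → ℝ} {s : ℝ} (hs : 0 < s) (hk : ∀ v, h v ≤ s * k v) (v : E3) :
    geocPr v (Kof h) ≤ ENNReal.ofReal (s ^ 2) * geocPr v (Kof k) := by
  have h1 : (fun y : E3 => y - inner ℝ v y • v) '' Kof h ⊆
      s • (fun y : E3 => y - inner ℝ v y • v) '' Kof k := by
    rintro _ ⟨x, hx, rfl⟩
    refine ⟨_, ⟨_, geoc_scale hs hk hx, rfl⟩, ?_⟩
    simp only [real_inner_smul_right, smul_sub, smul_smul]
    rw [mul_inv_cancel₀ hs.ne', mul_inv_cancel_left₀ hs.ne', one_smul]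
  refine (measure_mono h1).trans_eq ?_
  rw [Measure.hausdorffMeasure_smul₀ (by norm_num) hs.ne', ENNReal.smul_def, smul_eq_mul]
  congr 1
  rw [← ENNReal.ofReal_coe_nnreal, NNReal.coe_rpow, coe_nnnorm, Real.norm_of_nonneg hs.le,
    Real.rpow_two]

theorem geoc_proj_real {h k : S2 → ℝ} {s : ℝ} (hs : 0 < s) (hk : ∀ v, h v ≤ s * k v) (v : E3)
    (hf : geocPr v (Kof k) ≠ ⊤) : geocPr v (Kof h) ≠ ⊤ ∧
      (geocPr v (Kof h)).toReal ≤ s ^ 2 * (geocPr v (Kof k)).toReal := by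
  have h1 := geoc_proj_le hs hk v
  have h2 : ENNReal.ofReal (s ^ 2) * geocPr v (Kof k) ≠ ⊤ :=
    ENNReal.mul_ne_top ENNReal.ofReal_ne_top hf
  refine ⟨ne_top_of_le_ne_top h2 h1, (ENNReal.toReal_mono h2 h1).trans_eq ?_⟩
  rw [ENNReal.toReal_mul, ENNReal.toReal_ofReal (sq_nonneg s)]

theorem geoc_proj_limit {U : Filter ℕ} [U.NeBot] {h : ℕ → S2 → ℝ} {g : S2 → ℝ}
    (H : ∀ N, geocSup (h N)) (H' : geocSup g)
    (hc : ∀ η, 0 < η → ∀ᶠ N in U, ∀ x, |h N x - g x| ≤ η) (v : E3)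
    (hp : ∀ N, 0 < (geocPr v (Kof (h N))).toReal) {a : ℝ}
    (ha : Tendsto (fun N => (geocPr v (Kof (h N))).toReal) U (𝓝 a)) :
    (geocPr v (Kof g)).toReal = a := by
  have key : ∀ η, 0 < η → (geocPr v (Kof g)).toReal ≤ (1 + 2 * η) ^ 2 * a ∧
      a ≤ (1 + 2 * η) ^ 2 * (geocPr v (Kof g)).toReal := fun η hη => by
    have hs : 0 < 1 + 2 * η := by linarith
    have h1 : ∀ᶠ N in U,
        (geocPr v (Kof g)).toReal ≤ (1 + 2 * η) ^ 2 * (geocPr v (Kof (h N))).toReal ∧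
        (geocPr v (Kof (h N))).toReal ≤ (1 + 2 * η) ^ 2 * (geocPr v (Kof g)).toReal := by
      filter_upwards [hc η hη] with N hN
      have h2 := geoc_proj_real hs (geoc_le_mul (h := g) (H N).lo hη.le
        (fun x => by rw [abs_sub_comm]; exact hN x)) v (ENNReal.toReal_pos_iff.1 (hp N)).2.ne
      exact ⟨h2.2, (geoc_proj_real hs (geoc_le_mul H'.lo hη.le hN) v h2.1).2⟩
    exact ⟨ge_of_tendsto (ha.const_mul _) (h1.mono fun _ h => h.1),
      le_of_tendsto ha (h1.mono fun _ h => h.2)⟩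
  have lim : ∀ b : ℝ, Tendsto (fun η : ℝ => (1 + 2 * η) ^ 2 * b) (𝓝[>] 0) (𝓝 b) := fun b => by
    have h1 : Continuous fun η : ℝ => (1 + 2 * η) ^ 2 * b := by fun_prop
    simpa using (h1.tendsto 0).mono_left (nhdsWithin_le_nhds (s := Set.Ioi 0))
  exact le_antisymm
    (ge_of_tendsto (lim a) (eventually_nhdsWithin_of_forall fun η hη => (key η hη).1))
    (ge_of_tendsto (lim _) (eventually_nhdsWithin_of_forall fun η hη => (key η hη).2))

/-- the support function of an ellipsoid has a linear odd part -/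
theorem geoc_ellipsoid {h : S2 → ℝ} (H : geocSup h) {A : E3 ≃ᵃ[ℝ] E3}
    (hA : Kof h = A '' Metric.closedBall 0 1) (v : S2) :
    h v - h (neg v) = 2 * inner ℝ (A 0) (v : E3) := by
  have h1 : ∀ x ∈ Kof h, (2 : ℝ) • A 0 - x ∈ Kof h := by
    rw [hA]
    rintro _ ⟨y, hy, rfl⟩
    refine ⟨-y, by simpa using hy, ?_⟩
    have e1 := A.map_vadd 0 y
    have e2 := A.map_vadd 0 (-y)
    rw [vadd_eq_add, vadd_eq_add, add_zero] at e1 e2
    rw [e1, e2, map_neg, two_smul]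
    abel
  have h2 : ∀ w : S2, h w - h (neg w) ≤ 2 * inner ℝ (A 0) (w : E3) := fun w => by
    obtain ⟨p, hp, e⟩ := H.att w
    have h3 := h1 p hp (neg w)
    rw [neg_coe, inner_neg_right, inner_sub_left, real_inner_smul_left, e] at h3
    linarith
  have h3 := h2 (neg v)
  rw [rot_neg_neg, neg_coe, inner_neg_right] at h3
  linarith [h2 v]

end Pool.Agent.Lib.MP_2fa2a2_gt.PI
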