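import Pool.Agent.Lib.MP_2fa2a2_gt.PI.SGeo
import Pool.Agent.Lib.MP_2fa2a2_gt.PI.GeoCX
import Pool.Agent.Lib.MP_2fa2a2_gt.PI.GeoCY

/-! From Galerkin solutions to the body. -/

namespace Pool.Agent.Lib.MP_2fa2a2_gt.PI

open MeasureTheory Filter Topology

theorem geoc_inner_pvec (u : Sm) (ν : S2) : inner ℝ (pvec u ν) (ν : E3) = 1 + u ν := by
  have h1 : ∑ a, pv u a * X a = 1 + u := by
    have e : ∑ a, pv u a * X a = (1 + u) * ∑ a, X a * X a + ∑ a, X a * D a u := by
      rw [Finset.mul_sum, ← Finset.sum_add_distrib]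
      exact Finset.sum_congr rfl fun a _ => by unfold pv; ring
    rw [e, sum_X_sq, sum_X_D, mul_one, add_zero]
  have h2 := congrArg (fun φ : Sm => φ ν) h1
  simp only [Sm.sum_apply, Sm.mul_apply, X_apply, Sm.add_apply, Sm.one_apply] at h2
  rw [rot_inner, ← h2]
  rfl

theorem geoc_sup {u : Sm} (hg : Good u) (hb : ∀ ν, pvec u ν ∈ Kof (fun x => 1 + u x)) :
    geocSup (fun x => 1 + u x) :=
  ⟨fun v => by linarith [(abs_le.1 (hg.small v)).1],
    fun v => by linarith [(abs_le.1 (hg.small v)).2],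
    fun v => ⟨_, hb v, geoc_inner_pvec u v⟩⟩

theorem geoc_rad_xm (hS : GeoSStmt) {u : Sm} (hg : Good u)
    (hb : ∀ ν, pvec u ν ∈ Kof (fun x => 1 + u x)) (ν : S2) :
    rad (Kof fun x => 1 + u x) (xm u ν) = pk 1 u ν := by
  rw [← hg.norm_pvec]
  exact geoc_rad_bd hS (geoc_sup hg hb) (hb ν) (geoc_inner_pvec u ν)

theorem geoc_int_one (hS : GeoSStmt) {u : Sm} (hg : Good u)
    (hb : ∀ ν, pvec u ν ∈ Kof (fun x => 1 + u x)) (y : Sm) :
    I (pk 1 u * XX u y) = ∫ x, rad (Kof fun x => 1 + u x) x * y x ∂sig := by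
  rw [← hg.integral (fun x => rad (Kof fun x => 1 + u x) x * y x)
    ((geoc_rad_cont hS (geoc_sup hg hb)).mul y.continuous), I_def]
  refine integral_congr_ae (Eventually.of_forall fun x => ?_)
  show pk 1 u x * (Jac u x * pull u y x) = Jac u x * (rad _ (xm u x) * y (xm u x))
  rw [hg.pull_apply, geoc_rad_xm hS hg hb]
  ring

theorem geoc_int_two (hS : GeoSStmt) {u : Sm} (hg : Good u)
    (hb : ∀ ν, pvec u ν ∈ Kof (fun x => 1 + u x)) (y : Sm) :
    I (p2 u * XX u y) = ∫ x, rad (Kof fun x => 1 + u x) x ^ 2 * y x ∂sig := by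
  rw [← hg.integral (fun x => rad (Kof fun x => 1 + u x) x ^ 2 * y x)
    (((geoc_rad_cont hS (geoc_sup hg hb)).pow 2).mul y.continuous), I_def]
  refine integral_congr_ae (Eventually.of_forall fun x => ?_)
  show p2 u x * (Jac u x * pull u y x) = Jac u x * (rad _ (xm u x) ^ 2 * y (xm u x))
  have e : pk 1 u x ^ 2 = p2 u x := by
    rw [hg.pk_apply, ← Real.sqrt_eq_rpow, Real.sq_sqrt (by linarith [hg.p2_ge x])]
  rw [hg.pull_apply, geoc_rad_xm hS hg hb, e]
  ring

/-- the identity between the projection body and the intersection body -/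
theorem geoc_sets (hS : GeoSStmt) {k T : S2 → ℝ} (Hk : geocSup k) {K : Set E3} {r : ℝ}
    (hr : 0 < r) (hp : ∀ v : S2, (geocPr v K).toReal = kap * k v)
    (hs : ∀ v : S2, (Measure.hausdorffMeasure 2
      (K ∩ {y : E3 | inner ℝ (v : E3) y = 0})).toReal = kap * T v)
    (he : ∀ v, rad (Kof k) v = r * T v) :
    {x : E3 | ∀ u : E3, ‖u‖ = 1 → inner ℝ x u ≤ (Measure.hausdorffMeasure 2
        ((fun y : E3 => y - inner ℝ u y • u) '' K)).toReal}
      = (fun y : E3 => r • y) '' {x : E3 | x = 0 ∨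
        ‖x‖ ≤ (Measure.hausdorffMeasure 2 (K ∩ {y : E3 | inner ℝ x y = 0})).toReal} := by
  have hk := hS.1
  have h1 : ∀ x : E3, (∀ u : E3, ‖u‖ = 1 → inner ℝ x u ≤ (geocPr u K).toReal) ↔
      ‖x‖ ≤ kap * (r * T (nrmz x)) := fun x => by
    have e : kap⁻¹ • x = (kap⁻¹ * ‖x‖) • (nrmz x : E3) := by rw [mul_smul, geoc_smul_nrmz]
    rw [← he, ← inv_mul_le_iff₀ hk, ← geoc_rad_iff hS Hk _ (by positivity), ← e]
    constructor
    · intro h ν
      rw [real_inner_smul_left, inv_mul_le_iff₀ hk, ← hp]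
      exact h ν (base_norm ν)
    · intro h u hu
      have h2 := h ⟨u, mem_sphere_zero_iff_norm.2 hu⟩
      rw [real_inner_smul_left, inv_mul_le_iff₀ hk, ← hp] at h2
      exact h2
  have h2 : ∀ x : E3, x ≠ 0 → (Measure.hausdorffMeasure 2
      (K ∩ {y : E3 | inner ℝ (r⁻¹ • x) y = 0})).toReal = kap * T (nrmz x) := fun x hx => by
    rw [← hs]
    congr 3
    ext y
    have a1 := norm_ne_zero_iff.2 hx
    simp only [Set.mem_ofPred_eq, nrmz_val hx, real_inner_smul_left, mul_eq_zero, inv_eq_zero,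
      hr.ne', a1]
  have h3 : ∀ x : E3, (‖r⁻¹ • x‖ ≤ kap * T (nrmz x)) ↔ ‖x‖ ≤ kap * (r * T (nrmz x)) := fun x => by
    rw [norm_smul, Real.norm_of_nonneg (inv_pos.2 hr).le, inv_mul_le_iff₀ hr, mul_left_comm]
  ext x
  refine (h1 x).trans ⟨fun h => ⟨r⁻¹ • x, ?_, smul_inv_smul₀ hr.ne' x⟩, ?_⟩
  · rcases eq_or_ne x 0 with rfl | hx
    · exact Or.inl (smul_zero _)
    · refine Or.inr ?_
      rw [h2 x hx]
      exact (h3 x).2 h
  · rintro ⟨z, hz, e⟩
    rcases eq_or_ne x 0 with rfl | hx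
    · rw [norm_zero, ← he]
      exact (mul_pos hk (geoc_rad_pos hS Hk _)).le
    · have e' : z = r⁻¹ • x := by rw [← e, inv_smul_smul₀ hr.ne']
      rw [e'] at hz
      rcases hz with hz | hz
      · exact (smul_ne_zero (inv_pos.2 hr).ne' hx hz).elim
      · rw [h2 x hx] at hz
        exact (h3 x).1 hz

theorem geoC (hA : PullAStmt) (_hC : PullCStmt) (hB : GeoBStmt) (hS : GeoSStmt) (hP : GeoPStmt) :
    GeoStmt := by
  obtain ⟨δA, hδA, hA⟩ := hA
  obtain ⟨δB, hδB, hB⟩ := hB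
  obtain ⟨δP, hδP, hP⟩ := hP
  refine ⟨min δA (min δB δP), lt_min hδA (lt_min hδB hδP),
    fun u r c ψ hr hc hu hU heq ho h1 hψ => ?_⟩
  have m : ∀ {v : Sm} {δ : ℝ}, Cb 3 1 (min δA (min δB δP)) v → min δA (min δB δP) ≤ δ →
      Cb 2 1 δ v := fun h hδ => h.mono zero_le_one (by norm_num) le_rfl hδ
  have lA : min δA (min δB δP) ≤ δA := min_le_left _ _
  have lB : min δA (min δB δP) ≤ δB := (min_le_right _ _).trans (min_le_left _ _)
  have lP : min δA (min δB δP) ≤ δP := (min_le_right _ _).trans (min_le_right _ _)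
  have g1 := fun N => hA _ (m (hu N) lA)
  have g2 := fun N => hA _ (m (hU N) lA)
  have b1 := fun N => hB _ (m (hu N) lB)
  have b2 := fun N => hB _ (m (hU N) lB)
  have s1 := fun N => geoc_sup (g1 N) (b1 N)
  have s2 := fun N => geoc_sup (g2 N) (b2 N)
  have hUl : (Ultrafilter.of (atTop : Filter ℕ) : Filter ℕ) ≤ atTop := Ultrafilter.of_le _
  generalize Ultrafilter.of (atTop : Filter ℕ) = U at hUl
  obtain ⟨h, th, uh⟩ := geoc_limit U (fun N x => 1 + u N x) (a := 1 / 2) (b := 2)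
    (fun N x => ⟨(s1 N).lo x, (s1 N).hi x⟩) (fun N => geoc_lip (s1 N))
  obtain ⟨k, tk, uk⟩ := geoc_limit U (fun N x => 1 + UU (u N) x) (a := 1 / 2) (b := 2)
    (fun N x => ⟨(s2 N).lo x, (s2 N).hi x⟩) (fun N => geoc_lip (s2 N))
  have Hh := geoc_sup_limit U s1 th
  have Hk := geoc_sup_limit U s2 tk
  have ck := geoc_rad_cont hS Hk
  have ch : Continuous fun x => rad (Kof h) x ^ 2 := (geoc_rad_cont hS Hh).pow 2
  obtain ⟨T, cT, eT, iT, fT⟩ := geoc_T ch
  have ek : ∀ v, k (neg v) = k v := fun v => by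
    refine tendsto_nhds_unique (tk (neg v)) ((tk v).congr fun N => ?_)
    rw [← ant_apply, UU, mem_Ev.1 (R_mem_Ev _)]
  have hmom : ∀ M, ∀ y ∈ Ev, y ∈ Poly M →
      ∫ x, (rad (Kof k) x - r * T x) * y x ∂sig = 0 := fun M y hy hM => by
    have t1 := geoc_tendsto_int (U := U) (fun N => geoc_rad_cont hS (s2 N)) ck y.continuous
      fun η hη => (uk (η / 4) (by positivity)).mono fun N hN x =>
        (geoc_rad_close hS (s2 N) Hk (by positivity) hN x).trans_eq (by ring)
    have t2 := geoc_tendsto_int (U := U) (F := fun N x => rad (Kof fun x => 1 + u N x) x ^ 2)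
      (fun N => (geoc_rad_cont hS (s1 N)).pow 2) ch (R y).continuous
      fun η hη => (uh (η / 16) (by positivity)).mono fun N hN x =>
        (geoc_rad_sq_close hS (s1 N) Hh (by positivity) hN x).trans_eq (by ring)
    have t3 := tendsto_nhds_unique_of_eventuallyEq t1 (t2.const_mul r)
      (((eventually_ge_atTop M).filter_mono hUl).mono fun N hN => by
        have e := heq N y hy (Poly_mono hN hM)
        rwa [geoc_int_one hS (g2 N) (b2 N), geoc_int_two hS (g1 N) (b1 N)] at e)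
    simp only [sub_mul, mul_assoc]
    rw [integral_sub (integrable_of_continuous (g := fun x => rad (Kof k) x * y x)
      (ck.mul y.continuous)) (integrable_of_continuous (g := fun x => r * (T x * y x))
      (continuous_const.mul (cT.mul y.continuous))), integral_const_mul, iT, t3, sub_self]
  have he : ∀ v, rad (Kof k) v = r * T v := fun v => sub_eq_zero.1
    (geoc_moment (G := fun x => rad (Kof k) x - r * T x) (ck.sub (continuous_const.mul cT))
      (fun v => by simp only [geoc_rad_even ek, eT]) hmom v)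
  refine ⟨Kof h, geoc_convex h, geoc_compact Hh.hi, geoc_interior Hh.lo,
    ⟨r, hr, geoc_sets hS Hk hr (fun v => ?_) (fun v => ?_) he⟩, ?_⟩
  · have e : ∀ N, (geocPr v (Kof fun x => 1 + u N x)).toReal = kap * (1 + UU (u N) v) :=
      fun N => hP _ (m (hu N) lP) v
    refine geoc_proj_limit s1 Hh uh v (fun N => ?_) ?_
    · rw [e]
      exact mul_pos hS.1 (by linarith [(s2 N).lo v])
    · simp only [e]
      exact (tk v).const_mul kap
  · obtain ⟨e1, e2, hf, e⟩ := fT v
    rw [e]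
    exact (hS.2 _ (geoc_convex h) (geoc_compact Hh.hi) (geoc_interior Hh.lo)).2.2.2 v e1 e2 hf
  · rintro ⟨A, hA⟩
    have t1 := geoc_tendsto_int (U := U) (F := fun N x => 1 + u N x)
      (fun N => geoc_cont (s1 N)) (geoc_cont Hh) ψ.continuous uh
    rw [geoc_orth (geoc_cont Hh) (geoc_ellipsoid Hh hA) ho h1] at t1
    refine not_le.2 hc (ge_of_tendsto' t1 fun N => (hψ N).trans_eq ?_)
    have e : I ((1 + u N) * ψ) = inner ℝ (u N) ψ := by
      rw [add_mul, one_mul, map_add, I_of_Od ho, zero_add, inner_def]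
    exact e.symm

end Pool.Agent.Lib.MP_2fa2a2_gt.PI
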