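import Pool.Agent.Lib.MP_2fa2a2_gt.PI.SGeo

namespace Pool.Agent.Lib.MP_2fa2a2_gt.PI

open Real MeasureTheory

/-- the algebraic identity behind the area formula -/
theorem geop_alg0 (h : Sm) : R (h * h - gd h h) + R2 h h = R ((2 : ℝ) • Dp (Qf h h)) := by
  have hR : ∀ φ, ant (R φ) = R φ := fun φ => mem_Ev.1 (R_mem_Ev φ)
  have hE2 : R2 h h ∈ Ev := by
    rw [mem_Ev, R2]
    simp only [map_mul, map_sum, ant_X, hR, neg_mul_neg]
  have hE : R (h * h - gd h h) + R2 h h - R ((2 : ℝ) • Dp (Qf h h)) ∈ Ev :=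
    Ev.sub_mem (Ev.add_mem (R_mem_Ev _) hE2) (R_mem_Ev _)
  have key : ∀ y ∈ Ev, inner ℝ (R (h * h - gd h h) + R2 h h - R ((2 : ℝ) • Dp (Qf h h)))
      (Ri y) = (0 : ℝ) := fun y hy => by
    have h0 : ∀ φ, inner ℝ (R φ) (Ri y) = I (φ * y) := fun φ => by
      rw [tau_inner_R, R_Ri, evp_of_Ev hy, inner_def]
    have h1 : ∀ a b, inner ℝ (X a * X b * R (D a h * D b h)) (Ri y)
        = I (H a b (Dp y) * D a h * D b h) := fun a b => by
      rw [inner_mul, tau_inner_R, R_XX, R_Ri, evp_of_Ev hy, inner_def]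
      congr 1
      ring
    have h2 : inner ℝ (R2 h h) (Ri y) = I (Hv (Dp y) (gr h) (gr h)) := by
      rw [R2, sum_inner]
      simp only [sum_inner, h1, Hv, gr, map_sum]
    have h3 : I (Dp (Qf h h) * y) = I (Dp y * Qf h h) := by
      have := inner_fn (fun l => (2 - ll l)⁻¹) (Qf h h) y
      rw [inner_def, inner_def, mul_comm (Qf h h)] at this
      exact this
    have h4 := I_mul_Qf h (Dp y) h
    have h5 := I_mul_Qf_symm (Dp y) h h
    rw [Qf_comm h (Dp y)] at h5
    rw [Dop_Dp_Ev hy, map_sub] at h4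
    rw [inner_sub_left, inner_add_left, h0, h0, h2, smul_mul_assoc, map_smul, h3, sub_mul, map_sub,
      mul_comm (gd h h), smul_eq_mul]
    linarith
  have h6 := key _ (R_mem_Ev (R (h * h - gd h h) + R2 h h - R ((2 : ℝ) • Dp (Qf h h))))
  rw [Ri_R, evp_of_Ev hE, inner_self_eq_zero] at h6
  exact sub_eq_zero.1 h6

theorem geop_R_P (φ : Sm) : R (P 1 φ) = 0 := by
  rw [funk_R_of (j := 1) (by rw [P_P, if_pos rfl]), cR_odd odd_one, zero_smul]

theorem geop_alg (u : Sm) :
    R ((1 + u) * (1 + u) - gd (1 + u) (1 + u)) + R2 (1 + u) (1 + u) = 1 + UU u := by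
  have e : Qf (1 + u) (1 + u) = (1 / 2 : ℝ) • Dop 1 + Dop u + Qf u u := by
    simp only [map_add, LinearMap.add_apply, Qf_comm u 1, Qf_one]
    module
  rw [geop_alg0, e, UU]
  simp only [map_add, map_smul, Dp_Dop, map_sub, geop_R_P, R_one, sub_zero]
  module

/-- the area formula for a planar curve given by its support function -/
theorem geop_int {g g1 g2 ρ : ℝ → ℝ} (h1 : ∀ t, HasDerivAt g (g1 t) t)
    (h2 : ∀ t, HasDerivAt g1 (g2 t) t) (c2 : Continuous g2) (hpos : ∀ t, 0 < g t)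
    (p0 : g (2 * π) = g 0) (p1 : g1 (2 * π) = g1 0) (hρ : Continuous ρ)
    (pρ : Function.Periodic ρ (2 * π))
    (hr : ∀ t, ρ (t + arctan (g1 t / g t)) = g t ^ 2 + g1 t ^ 2) :
    ∫ t in (0 : ℝ)..2 * π, ρ t = ∫ t in (0 : ℝ)..2 * π, (g t ^ 2 - g1 t ^ 2) := by
  have c0 : Continuous g := continuous_iff_continuousAt.2 fun t => (h1 t).continuousAt
  have c1 : Continuous g1 := continuous_iff_continuousAt.2 fun t => (h2 t).continuousAt
  have hs : ∀ t, g t ^ 2 + g1 t ^ 2 ≠ 0 := fun t => by have := hpos t; positivity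
  have hθ : ∀ t, HasDerivAt (fun t => t + arctan (g1 t / g t))
      ((g t ^ 2 + g t * g2 t) / (g t ^ 2 + g1 t ^ 2)) t := fun t => by
    refine ((hasDerivAt_id' t).add ((h2 t).div (h1 t) (hpos t).ne').arctan).congr_deriv ?_
    have := (hpos t).ne'
    have := hs t
    simp only [Pi.div_apply]
    field_simp
    ring
  have cθ : Continuous fun t => (g t ^ 2 + g t * g2 t) / (g t ^ 2 + g1 t ^ 2) :=
    Continuous.div (by fun_prop) (by fun_prop) hs
  have e1 := intervalIntegral.integral_comp_mul_deriv (a := 0) (b := 2 * π) (fun t _ => hθ t)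
    cθ.continuousOn hρ
  have e2 := pρ.intervalIntegral_add_eq 0 (0 + arctan (g1 0 / g 0))
  have e3 : ∫ t in (0 : ℝ)..2 * π, (g1 t * g1 t + g t * g2 t) = 0 := by
    rw [intervalIntegral.integral_eq_sub_of_hasDerivAt (f := fun t => g t * g1 t)
      (fun t _ => (h1 t).mul (h2 t)) (Continuous.intervalIntegrable (by fun_prop) _ _), p0, p1,
      sub_self]
  simp only [zero_add] at e2
  simp only [p0, p1, zero_add, add_comm (2 * π)] at e1
  rw [e2, ← e1, ← sub_eq_zero, ← intervalIntegral.integral_sub]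
  · refine Eq.trans ?_ e3
    refine intervalIntegral.integral_congr fun t _ => ?_
    have := hs t
    simp only [Function.comp_apply, hr]
    field_simp
    ring
  · exact Continuous.intervalIntegrable ((hρ.comp (continuous_iff_continuousAt.2 fun t =>
      (hθ t).continuousAt)).mul cθ) _ _
  · exact Continuous.intervalIntegrable (by fun_prop) _ _

section
variable {v : S2} {e1 e2 : E3} (hf : Fr v e1 e2)
include hf

theorem geop_inner (x y : E3) : inner ℝ x y = inner ℝ (v : E3) x * inner ℝ (v : E3) y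
    + inner ℝ e1 x * inner ℝ e1 y + inner ℝ e2 x * inner ℝ e2 y := by
  have n1 : inner ℝ e1 e1 = (1 : ℝ) := by rw [real_inner_self_eq_norm_sq, hf.n1, one_pow]
  have n2 : inner ℝ e2 e2 = (1 : ℝ) := by rw [real_inner_self_eq_norm_sq, hf.n2, one_pow]
  have o12 := hf.o12
  have o1 := hf.o1
  have o2 := hf.o2
  rw [tau_inner] at n1 n2 o12 o1 o2
  obtain ⟨-, -, -, -, -, hfr⟩ := tau_frame (base_sum_sq v) n1 n2 o12 o1 o2
  simp only [tau_inner]
  exact hfr _ _ _ _ _ _

theorem geop_proj (x : E3) :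
    x - inner ℝ (v : E3) x • (v : E3) = inner ℝ e1 x • e1 + inner ℝ e2 x • e2 := by
  refine ext_inner_right ℝ fun y => ?_
  simp only [inner_sub_left, inner_add_left, real_inner_smul_left]
  rw [geop_inner hf x y]
  ring

theorem geop_vel (t : ℝ) :
    HasDerivAt (fun s => (circ e1 e2 s : E3)) (-sin t • e1 + cos t • e2) t := by
  simp only [circ_coe hf]
  exact ((hasDerivAt_cos t).smul_const _).add ((hasDerivAt_sin t).smul_const _)

theorem geop_cont : Continuous (circ e1 e2) :=
  Continuous.subtype_mk (continuous_iff_continuousAt.2 fun t => (geop_vel hf t).continuousAt) _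

omit hf in
theorem geop_per : Function.Periodic (circ e1 e2) (2 * π) := fun t => by
  rw [circ, circ, cos_add_two_pi, sin_add_two_pi]

/-- components of the gradient in the moving frame -/
theorem geop_grad (u : Sm) (t : ℝ) :
    gd (1 + u) (1 + u) (circ e1 e2 t)
      = (∑ a, (v : E3) a * D a (1 + u) (circ e1 e2 t)) ^ 2
        + (∑ a, (-sin t • e1 + cos t • e2) a * D a u (circ e1 e2 t)) ^ 2 := by
  have h := geop_inner hf (WithLp.toLp 2 fun a => D a u (circ e1 e2 t))
    (WithLp.toLp 2 fun a => D a u (circ e1 e2 t))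
  have h4 := congrArg (fun φ : Sm => φ (circ e1 e2 t)) (sum_X_D u)
  have h5 := sin_sq_add_cos_sq t
  simp only [Fin.sum_univ_three, Sm.add_apply, Sm.mul_apply, X_apply, Sm.zero_apply,
    circ_coe hf, PiLp.add_apply, PiLp.smul_apply, smul_eq_mul] at h4
  simp only [tau_inner] at h
  simp only [gd_eq_D, map_add, D_one, zero_add, Fin.sum_univ_three, Sm.add_apply, Sm.mul_apply,
    PiLp.add_apply, PiLp.smul_apply, smul_eq_mul]
  generalize D 0 u (circ e1 e2 t) = d0 at *
  generalize D 1 u (circ e1 e2 t) = d1 at *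
  generalize D 2 u (circ e1 e2 t) = d2 at *
  linear_combination h - ((e1 0 * d0 + e1 1 * d1 + e1 2 * d2) ^ 2
    + (e2 0 * d0 + e2 1 * d1 + e2 2 * d2) ^ 2) * h5
    + (cos t * (e1 0 * d0 + e1 1 * d1 + e1 2 * d2)
      + sin t * (e2 0 * d0 + e2 1 * d1 + e2 2 * d2)) * h4

/-- the projection of the boundary point -/
theorem geop_pvec (u : Sm) (t r α : ℝ) (h0 : 1 + u (circ e1 e2 t) = r * cos α)
    (h1 : ∑ a, (-sin t • e1 + cos t • e2) a * D a u (circ e1 e2 t) = r * sin α) :
    pvec u (circ e1 e2 t) - inner ℝ (v : E3) (pvec u (circ e1 e2 t)) • (v : E3)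
      = r • (circ e1 e2 (t + α) : E3) := by
  have n1 : inner ℝ e1 e1 = (1 : ℝ) := by rw [real_inner_self_eq_norm_sq, hf.n1, one_pow]
  have n2 : inner ℝ e2 e2 = (1 : ℝ) := by rw [real_inner_self_eq_norm_sq, hf.n2, one_pow]
  have o12 := hf.o12
  rw [tau_inner] at n1 n2 o12
  have h4 := congrArg (fun φ : Sm => φ (circ e1 e2 t)) (sum_X_D u)
  have h5 := sin_sq_add_cos_sq t
  simp only [Fin.sum_univ_three, Sm.add_apply, Sm.mul_apply, X_apply, Sm.zero_apply,
    circ_coe hf, PiLp.add_apply, PiLp.smul_apply, smul_eq_mul] at h4 h1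
  rw [geop_proj hf, circ_coe hf, smul_add, smul_smul, smul_smul, cos_add, sin_add]
  congr 2
  · simp only [tau_inner, pvec, pv, Sm.add_apply, Sm.mul_apply, Sm.one_apply, X_apply,
      circ_coe hf, PiLp.add_apply, PiLp.smul_apply, smul_eq_mul, h0]
    linear_combination r * cos α * cos t * n1 + r * cos α * sin t * o12 + cos t * h4 - sin t * h1
      - (e1 0 * D 0 u (circ e1 e2 t) + e1 1 * D 1 u (circ e1 e2 t)
        + e1 2 * D 2 u (circ e1 e2 t)) * h5
  · simp only [tau_inner, pvec, pv, Sm.add_apply, Sm.mul_apply, Sm.one_apply, X_apply,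
      circ_coe hf, PiLp.add_apply, PiLp.smul_apply, smul_eq_mul, h0]
    linear_combination r * cos α * sin t * n2 + r * cos α * cos t * o12 + sin t * h4 + cos t * h1
      - (e2 0 * D 0 u (circ e1 e2 t) + e2 1 * D 1 u (circ e1 e2 t)
        + e2 2 * D 2 u (circ e1 e2 t)) * h5

theorem geop_o (t : ℝ) : inner ℝ (v : E3) (circ e1 e2 t : E3) = (0 : ℝ) := by
  rw [circ_coe hf, inner_add_right, inner_smul_right, inner_smul_right, hf.o1, hf.o2]
  ring

theorem geop_cos (t α : ℝ) :
    inner ℝ (circ e1 e2 (t + α) : E3) (circ e1 e2 t : E3) = cos α := by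
  have n1 : inner ℝ e1 e1 = (1 : ℝ) := by rw [real_inner_self_eq_norm_sq, hf.n1, one_pow]
  have n2 : inner ℝ e2 e2 = (1 : ℝ) := by rw [real_inner_self_eq_norm_sq, hf.n2, one_pow]
  have o21 : inner ℝ e2 e1 = (0 : ℝ) := by rw [real_inner_comm, hf.o12]
  simp only [circ_coe hf, inner_add_left, inner_add_right, real_inner_smul_left,
    real_inner_smul_right, n1, n2, o21, hf.o12, cos_add, sin_add]
  linear_combination cos α * sin_sq_add_cos_sq t

end

/-- the cylinder over the projection -/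
def geopM (v : S2) (K : Set E3) : Set E3 :=
  (fun p : E3 × ℝ => p.1 - inner ℝ (v : E3) p.1 • (v : E3) + p.2 • (v : E3)) ''
    (K ×ˢ Set.Icc (-1) 1)

theorem geop_vv (v : S2) : inner ℝ (v : E3) (v : E3) = (1 : ℝ) := by
  rw [real_inner_self_eq_norm_sq, base_norm, one_pow]

theorem geop_sec (v : S2) (K : Set E3) : geopM v K ∩ {y : E3 | inner ℝ (v : E3) y = 0}
    = (fun y : E3 => y - inner ℝ (v : E3) y • (v : E3)) '' K := by
  ext x
  constructor
  · rintro ⟨⟨⟨y, s⟩, ⟨hy, -⟩, rfl⟩, h⟩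
    have h' : s = 0 := by
      simpa [inner_add_right, inner_sub_right, inner_smul_right, geop_vv] using h
    exact ⟨y, hy, by simp [h']⟩
  · rintro ⟨y, hy, rfl⟩
    refine ⟨⟨(y, 0), ⟨hy, by norm_num⟩, by simp⟩, ?_⟩
    simp [inner_sub_right, inner_smul_right]

theorem geop_convex (v : S2) {K : Set E3} (hK : Convex ℝ K) : Convex ℝ (geopM v K) := by
  refine (hK.prod (convex_Icc (-1 : ℝ) 1)).is_linear_image ⟨fun p q => ?_, fun c p => ?_⟩
  · simp only [Prod.fst_add, Prod.snd_add, inner_add_right]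
    module
  · simp only [Prod.smul_fst, Prod.smul_snd, inner_smul_right, smul_eq_mul]
    module

theorem geop_compact (v : S2) {K : Set E3} (hK : IsCompact K) : IsCompact (geopM v K) :=
  (hK.prod isCompact_Icc).image (by fun_prop)

theorem geop_K_convex (h : S2 → ℝ) : Convex ℝ (Kof h) := by
  intro x hx y hy a b ha hb hab ν
  have h1 := mul_le_mul_of_nonneg_left (hx ν) ha
  have h2 := mul_le_mul_of_nonneg_left (hy ν) hb
  rw [inner_add_left, real_inner_smul_left, real_inner_smul_left]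
  calc _ ≤ a * h ν + b * h ν := add_le_add h1 h2
    _ = h ν := by rw [← add_mul, hab, one_mul]

theorem geop_K_compact {h : S2 → ℝ} (hh : ∀ ν, h ν ≤ 2) : IsCompact (Kof h) := by
  have hc : IsClosed (Kof h) := by
    rw [Kof, Set.ofPred_forall]
    exact isClosed_iInter fun ν => isClosed_le (by fun_prop) continuous_const
  refine (isCompact_closedBall (0 : E3) 2).of_isClosed_subset hc fun x hx => ?_
  rw [mem_closedBall_zero_iff]
  by_cases h0 : x = 0
  · rw [h0, norm_zero]; norm_num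
  · have h1 := (hx (nrmz x)).trans (hh _)
    have hn : ‖x‖ ≠ 0 := norm_ne_zero_iff.2 h0
    rwa [nrmz_val h0, inner_smul_right, real_inner_self_eq_norm_sq, sq, inv_mul_cancel_left₀ hn]
      at h1

theorem geop_interior (v : S2) {h : S2 → ℝ} (hh : ∀ ν, 1 / 2 ≤ h ν) :
    (0 : E3) ∈ interior (geopM v (Kof h)) := by
  refine mem_interior_iff_mem_nhds.2 (Filter.mem_of_superset
    (Metric.closedBall_mem_nhds (0 : E3) (ε := 1 / 2) (by norm_num)) fun x hx => ?_)
  rw [mem_closedBall_zero_iff] at hx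
  have h1 : ∀ ν : S2, |inner ℝ x (ν : E3)| ≤ 1 / 2 := fun ν =>
    (abs_real_inner_le_norm _ _).trans (by rwa [base_norm, mul_one])
  have h2 := abs_le.1 (h1 v)
  rw [real_inner_comm] at h2
  exact ⟨(x, inner ℝ (v : E3) x), ⟨fun ν => ((le_abs_self _).trans (h1 ν)).trans (hh ν),
    by linarith [h2.1], by linarith [h2.2]⟩, by simp⟩

theorem geoP (hB : GeoBStmt) (hS : GeoSStmt) : GeoPStmt := by
  obtain ⟨δ, hδ, hB⟩ := hB
  refine ⟨min δ (1 / 2), lt_min hδ (by norm_num), fun u hu v => ?_⟩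
  have hp := hB u (hu.mono zero_le_one le_rfl le_rfl (min_le_left _ _))
  have hb : ∀ x, |u x| ≤ 1 / 2 := fun x => (hu.abs_le x).trans (min_le_right _ _)
  have hlo : ∀ x, 1 / 2 ≤ 1 + u x := fun x => by linarith [(abs_le.1 (hb x)).1]
  have hhi : ∀ x, 1 + u x ≤ 2 := fun x => by linarith [(abs_le.1 (hb x)).2]
  obtain ⟨e1, e2, hf⟩ := exists_Fr v
  obtain ⟨hc, hpos, hiff, harea⟩ := hS.2 (geopM v (Kof fun x => 1 + u x))
    (geop_convex v (geop_K_convex _)) (geop_compact v (geop_K_compact hhi)) (geop_interior v hlo)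
  have cc := geop_cont hf
  rw [← geop_sec, harea v e1 e2 hf]
  congr 1
  have hw : ∀ t a, HasDerivAt (fun s => (-sin s • e1 + cos s • e2) a)
      (-cos t * e1 a + -sin t * e2 a) t := fun t a =>
    ((hasDerivAt_sin t).neg.mul_const _).add ((hasDerivAt_cos t).mul_const _)
  have key := geop_int (g := fun t => 1 + u (circ e1 e2 t))
    (g1 := fun t => ∑ a, (-sin t • e1 + cos t • e2) a * D a u (circ e1 e2 t))
    (g2 := fun t => ∑ a, ((-cos t * e1 a + -sin t * e2 a) * D a u (circ e1 e2 t)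
      + (-sin t • e1 + cos t • e2) a
        * ∑ b, (-sin t • e1 + cos t • e2) b * D b (D a u) (circ e1 e2 t)))
    (ρ := fun t => rad (geopM v (Kof fun x => 1 + u x)) (circ e1 e2 t) ^ 2)
    (fun t => (hasDerivAt_curve u (geop_vel hf t)).const_add 1)
    (fun t => HasDerivAt.fun_sum fun a _ =>
      (hw t a).mul (hasDerivAt_curve (D a u) (geop_vel hf t))) ?_
    (fun t => lt_of_lt_of_le (by norm_num) (hlo _)) ?_ ?_ ((hc.comp cc).pow 2)
    (fun t => by simp only [geop_per t]) fun t => ?_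
  · have h1 : R2 (1 + u) (1 + u) v
        = R (∑ a, ∑ b, ((v : E3) a * (v : E3) b) • (D a (1 + u) * D b (1 + u))) v := by
      simp only [map_sum, map_smul, Sm.sum_apply, Sm.smul_apply, R2, Sm.mul_apply, X_apply]
    have h2 := congrArg (fun φ : Sm => φ v) (geop_alg u)
    simp only [Sm.add_apply, Sm.one_apply] at h2
    rw [← h2, h1, ← Sm.add_apply, ← map_add, R_apply hf, cav, key, cav]
    congr 1
    refine intervalIntegral.integral_congr fun t _ => ?_
    simp only [Sm.add_apply, Sm.sub_apply, Sm.mul_apply, Sm.one_apply, geop_grad hf, Sm.smul_apply,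
      Fin.sum_univ_three]
    ring
  · have c1 : ∀ φ : Sm, Continuous fun t => φ (circ e1 e2 t) := fun φ => φ.continuous.comp cc
    have c2 : ∀ a, Continuous fun t : ℝ => (-sin t • e1 + cos t • e2) a := fun a =>
      continuous_iff_continuousAt.2 fun t => (hw t a).continuousAt
    exact continuous_finsetSum _ fun a _ => (Continuous.mul (by fun_prop) (c1 _)).add
      ((c2 a).mul (continuous_finsetSum _ fun b _ => (c2 b).mul (c1 _)))
  · simp only [geop_per.eq]
  · simp only [geop_per.eq, sin_two_pi, cos_two_pi, sin_zero, cos_zero]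
  · generalize hg : 1 + u (circ e1 e2 t) = g
    generalize hg1 : ∑ a, (-sin t • e1 + cos t • e2) a * D a u (circ e1 e2 t) = g1
    have gpos : 0 < g := hg ▸ lt_of_lt_of_le (by norm_num) (hlo _)
    have cpos := cos_arctan_pos (g1 / g)
    have e0 : g = g / cos (arctan (g1 / g)) * cos (arctan (g1 / g)) := by field_simp
    have e1' : g1 = g / cos (arctan (g1 / g)) * sin (arctan (g1 / g)) := by
      rw [div_mul_eq_mul_div, mul_div_assoc, ← tan_eq_sin_div_cos, tan_arctan]
      field_simp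
    generalize arctan (g1 / g) = α at *
    have rpos : 0 < g / cos α := div_pos gpos cpos
    generalize g / cos α = r at *
    have hq := geop_pvec hf u t r α (hg.trans e0) (hg1.trans e1')
    have h1 : r ≤ rad (geopM v (Kof fun x => 1 + u x)) (circ e1 e2 (t + α)) := by
      refine (hiff _ r rpos.le).1 ⟨(pvec u (circ e1 e2 t), 0), ⟨hp _, by norm_num⟩, ?_⟩
      simp only [zero_smul, add_zero, hq]
    have h2 : rad (geopM v (Kof fun x => 1 + u x)) (circ e1 e2 (t + α)) ≤ r := by
      obtain ⟨⟨y, s⟩, ⟨hy, -⟩, e⟩ := (hiff (circ e1 e2 (t + α)) _ (hpos _).le).2 le_rfl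
      have h3 := congrArg (fun z : E3 => inner ℝ z (circ e1 e2 t : E3)) e
      simp only [inner_add_left, inner_sub_left, real_inner_smul_left, geop_o hf, geop_cos hf,
        mul_zero, sub_zero, add_zero] at h3
      have h4 : inner ℝ y (circ e1 e2 t : E3) ≤ 1 + u (circ e1 e2 t) := hy _
      rw [h3, hg, e0] at h4
      exact le_of_mul_le_mul_right h4 cpos
    rw [le_antisymm h2 h1, e0, e1']
    linear_combination -r ^ 2 * sin_sq_add_cos_sq α

end Pool.Agent.Lib.MP_2fa2a2_gt.PI
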