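import Pool.Agent.Lib.MP_2fa2a2_gt.PI.SGeo

namespace Pool.Agent.Lib.MP_2fa2a2_gt.PI

open MeasureTheory Real Set

/-- area of a star shaped plane set in polar coordinates -/
theorem geos_polar {A : Set ℂ} (hA : MeasurableSet A) {ρ : ℝ → ℝ} (hρ : Continuous ρ)
    (h0 : ∀ θ, 0 ≤ ρ θ)
    (h : ∀ r θ : ℝ, 0 < r → ((r : ℂ) * (cos θ + sin θ * Complex.I) ∈ A ↔ r ≤ ρ θ)) :
    volume A = ENNReal.ofReal (∫ θ in (-π)..π, ρ θ ^ 2 / 2) := by
  have hm : MeasurableSet {p : ℝ × ℝ | p.1 ≤ ρ p.2} :=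
    measurableSet_le measurable_fst (hρ.measurable.comp measurable_snd)
  have h1 : volume A = ∫⁻ p in Ioi (0 : ℝ) ×ˢ Ioo (-π) π,
      {p : ℝ × ℝ | p.1 ≤ ρ p.2}.indicator (fun p => ENNReal.ofReal p.1) p := by
    rw [← lintegral_indicator_one hA, ← Complex.lintegral_comp_polarCoord_symm, polarCoord_target]
    refine setLIntegral_congr_fun (measurableSet_Ioi.prod measurableSet_Ioo) fun p hp => ?_
    have e := h p.1 p.2 hp.1
    rw [← Complex.polarCoord_symm_apply] at e
    by_cases hq : p.1 ≤ ρ p.2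
    · simp only [indicator_of_mem (e.2 hq), indicator_of_mem (show p ∈ {p : ℝ × ℝ | p.1 ≤ ρ p.2}
        from hq), Pi.one_apply, smul_eq_mul, mul_one]
    · simp only [indicator_of_notMem (fun a => hq (e.1 a)), indicator_of_notMem
        (show p ∉ {p : ℝ × ℝ | p.1 ≤ ρ p.2} from hq), smul_zero]
  have h2 : ∀ θ, ∫⁻ r in Ioi (0 : ℝ), {p : ℝ × ℝ | p.1 ≤ ρ p.2}.indicator
      (fun p => ENNReal.ofReal p.1) (r, θ) = ENNReal.ofReal (ρ θ ^ 2 / 2) := by
    intro θ
    have e : ∀ r : ℝ, {p : ℝ × ℝ | p.1 ≤ ρ p.2}.indicator (fun p => ENNReal.ofReal p.1) (r, θ) =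
        (Iic (ρ θ)).indicator (fun r => ENNReal.ofReal r) r := fun r => rfl
    simp only [e]
    rw [lintegral_indicator measurableSet_Iic, Measure.restrict_restrict measurableSet_Iic,
      inter_comm, Ioi_inter_Iic, ← ofReal_integral_eq_lintegral_ofReal (f := fun r : ℝ => r)
        (μ := volume.restrict (Ioc 0 (ρ θ))) (continuous_id'.integrableOn_Icc.mono_set Ioc_subset_Icc_self)
        (ae_restrict_of_forall_mem measurableSet_Ioc fun r hr => hr.1.le),
      ← intervalIntegral.integral_of_le (h0 θ), integral_id]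
    simp
  rw [h1, Measure.volume_eq_prod, ← Measure.prod_restrict, lintegral_prod_symm _
    ((measurable_fst.ennreal_ofReal.indicator hm).aemeasurable)]
  simp only [h2]
  have hc : Continuous fun θ => ρ θ ^ 2 / 2 := by fun_prop
  rw [← ofReal_integral_eq_lintegral_ofReal (hc.integrableOn_Icc.mono_set Ioo_subset_Icc_self)
    (Filter.Eventually.of_forall fun θ => by positivity),
    intervalIntegral.integral_of_le (by linarith [pi_pos]), integral_Ioc_eq_integral_Ioo]

/-- the plane spanned by a frame -/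
noncomputable def geos_j (e1 e2 : E3) (z : ℂ) : E3 := z.re • e1 + z.im • e2

theorem geos_iso {v : S2} {e1 e2 : E3} (h : Fr v e1 e2) : Isometry (geos_j e1 e2) := by
  refine Isometry.of_dist_eq fun z w => ?_
  have e : geos_j e1 e2 z - geos_j e1 e2 w = (z - w).re • e1 + (z - w).im • e2 := by
    simp only [geos_j, Complex.sub_re, Complex.sub_im, sub_smul]; abel
  rw [dist_eq_norm, dist_eq_norm, e, ← sq_eq_sq₀ (norm_nonneg _) (norm_nonneg _),
    norm_add_sq_real, norm_smul, norm_smul, h.n1, h.n2, inner_smul_left, inner_smul_right, h.o12,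
    Complex.sq_norm, Complex.normSq_apply]
  simp only [norm_eq_abs, mul_one, sq_abs, mul_zero, add_zero]
  ring

theorem geos_image {v : S2} {e1 e2 : E3} (h : Fr v e1 e2) (K : Set E3) :
    K ∩ {y : E3 | inner ℝ (v : E3) y = 0} = geos_j e1 e2 '' (geos_j e1 e2 ⁻¹' K) := by
  rw [image_preimage_eq_inter_range]
  congr 1
  ext y
  constructor
  · intro hy
    obtain ⟨g, h1, h2, h3⟩ := circ_frame h
    obtain ⟨x, rfl⟩ := g.surjective y
    have hx : x 2 = 0 := by
      have e : inner ℝ (v : E3) (g x) = 0 := hy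
      rw [← h3, g.inner_map_map] at e
      simpa [EuclideanSpace.inner_single_left] using e
    refine ⟨⟨x 0, x 1⟩, ?_⟩
    rw [geos_j, ← h1, ← h2, ← map_smul, ← map_smul, ← map_add]
    congr 1
    ext a
    rcases alg_fin a with rfl | rfl | rfl <;> simp [hx]
  · rintro ⟨z, rfl⟩
    show inner ℝ (v : E3) (z.re • e1 + z.im • e2) = 0
    rw [inner_add_right, inner_smul_right, inner_smul_right, h.o1, h.o2]
    simp

theorem geos_haar :
    ∃ c : NNReal, 0 < c ∧ (Measure.hausdorffMeasure 2 : Measure ℂ) = c • volume := by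
  have h := isAddHaarMeasure_hausdorffMeasure (E := ℂ)
  rw [Complex.finrank_real_complex, Nat.cast_ofNat] at h
  exact ⟨_, Measure.addHaarScalarFactor_pos_of_isAddHaarMeasure _ _,
    Measure.isAddLeftInvariant_eq_smul _ _⟩

theorem geos_meas {c : NNReal} (hc : (Measure.hausdorffMeasure 2 : Measure ℂ) = c • volume)
    {v : S2} {e1 e2 : E3} (h : Fr v e1 e2) (K : Set E3) :
    (Measure.hausdorffMeasure 2 (K ∩ {y : E3 | inner ℝ (v : E3) y = 0})).toReal =
      c * (volume (geos_j e1 e2 ⁻¹' K)).toReal := by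
  rw [geos_image h, (geos_iso h).hausdorffMeasure_image (Or.inl (by norm_num)), hc]
  simp

theorem geos_kap {c : NNReal} (hc : (Measure.hausdorffMeasure 2 : Measure ℂ) = c • volume) :
    kap = c * π := by
  have h : Fr (circ_pt 2) (circ_pt 0) (circ_pt 1) :=
    ⟨base_norm _, base_norm _, by simp [circ_pt_coe, EuclideanSpace.inner_single_left],
      by simp [circ_pt_coe, EuclideanSpace.inner_single_left],
      by simp [circ_pt_coe, EuclideanSpace.inner_single_left]⟩
  have e : {y : E3 | y 2 = 0} = {y : E3 | inner ℝ (circ_pt 2 : E3) y = 0} := by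
    ext y
    simp [circ_pt_coe, EuclideanSpace.inner_single_left]
  have e0 : geos_j (circ_pt 0) (circ_pt 1) 0 = 0 := by simp [geos_j]
  have e1 := (geos_iso h).preimage_closedBall 0 1
  rw [e0] at e1
  rw [kap, e, geos_meas hc h, e1, Complex.volume_closedBall]
  simp

theorem geos_mem {K : Set E3} (h1 : Convex ℝ K) (h2 : IsCompact K) (h3 : (0 : E3) ∈ interior K)
    (v : S2) : 0 < gauge K (v : E3) ∧
      ∀ t : ℝ, 0 ≤ t → (t • (v : E3) ∈ K ↔ t ≤ (gauge K (v : E3))⁻¹) := by
  have hn : K ∈ nhds (0 : E3) := mem_interior_iff_mem_nhds.1 h3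
  have hv : (v : E3) ≠ 0 := fun e => by simpa [e] using base_norm v
  have hp : 0 < gauge K (v : E3) :=
    (gauge_pos (absorbent_nhds_zero hn) (h2.totallyBounded.isVonNBounded ℝ)).2 hv
  refine ⟨hp, fun t ht => ?_⟩
  rw [← h2.isClosed.closure_eq, ← gauge_le_one_iff_mem_closure h1 hn, h2.isClosed.closure_eq,
    gauge_smul_of_nonneg ht, smul_eq_mul, inv_eq_one_div, le_div_iff₀ hp]

theorem geos_rad {K : Set E3} (h1 : Convex ℝ K) (h2 : IsCompact K) (h3 : (0 : E3) ∈ interior K)
    (v : S2) : rad K v = (gauge K (v : E3))⁻¹ := by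
  obtain ⟨hp, h⟩ := geos_mem h1 h2 h3 v
  have e : {t : ℝ | 0 ≤ t ∧ t • (v : E3) ∈ K} = Icc 0 (gauge K (v : E3))⁻¹ :=
    Set.ext fun t => and_congr_right (h t)
  rw [rad, e, csSup_Icc (inv_pos.2 hp).le]

theorem geoS : GeoSStmt := by
  obtain ⟨c, hc0, hc⟩ := geos_haar
  have hk := geos_kap hc
  refine ⟨by rw [hk]; positivity, fun K h1 h2 h3 => ?_⟩
  have hcont : Continuous (rad K) := by
    rw [funext (geos_rad h1 h2 h3)]
    exact ((continuous_gauge h1 (mem_interior_iff_mem_nhds.1 h3)).comp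
      continuous_subtype_val).inv₀ fun v => (geos_mem h1 h2 h3 v).1.ne'
  have hpos : ∀ v : S2, 0 < rad K v := fun v => by
    rw [geos_rad h1 h2 h3]; exact inv_pos.2 (geos_mem h1 h2 h3 v).1
  have hmem : ∀ (v : S2) (t : ℝ), 0 ≤ t → (t • (v : E3) ∈ K ↔ t ≤ rad K v) := fun v => by
    rw [geos_rad h1 h2 h3]; exact (geos_mem h1 h2 h3 v).2
  refine ⟨hcont, hpos, hmem, fun v e1 e2 h => ?_⟩
  have hcirc : Continuous (circ e1 e2) := by
    refine continuous_induced_rng.2 ?_
    have : Subtype.val ∘ circ e1 e2 = fun τ => cos τ • e1 + sin τ • e2 := funext (circ_coe h)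
    rw [this]
    fun_prop
  have hper : Function.Periodic (fun θ => rad K (circ e1 e2 θ) ^ 2) (2 * π) := fun θ => by
    simp only [circ, cos_add_two_pi, sin_add_two_pi]
  have hv := geos_polar (A := geos_j e1 e2 ⁻¹' K) (ρ := fun θ => rad K (circ e1 e2 θ))
    (h2.isClosed.preimage (geos_iso h).continuous).measurableSet (hcont.comp hcirc)
    (fun θ => (hpos _).le) fun r θ hr => by
      rw [← hmem _ r hr.le, circ_coe h, mem_preimage, geos_j, smul_add, smul_smul, smul_smul]
      simp [-Complex.ofReal_cos, -Complex.ofReal_sin]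
  have hp := hper.intervalIntegral_add_eq (-π) 0
  rw [show -π + 2 * π = π by ring, zero_add] at hp
  rw [geos_meas hc h, hv, ENNReal.toReal_ofReal
    (intervalIntegral.integral_nonneg (by linarith [pi_pos]) fun θ _ => by positivity),
    intervalIntegral.integral_div, hp, hk, cav]
  field_simp

end Pool.Agent.Lib.MP_2fa2a2_gt.PI
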