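import Pool.Agent.Lib.MP_2fa2a2_gt.PI.SFm

namespace Pool.Agent.Lib.MP_2fa2a2_gt.PI

/-- polarisation of a bound for the defect of the quadratic form -/
theorem gtx_polar (G : Sm →ₗ[ℝ] Sm) (V : Submodule ℝ Sm) {c : ℝ}
    (h : ∀ y ∈ V, |‖G y‖ ^ 2 - ‖y‖ ^ 2| ≤ c * ‖y‖ ^ 2) {y y' : Sm} (hy : y ∈ V) (hy' : y' ∈ V) :
    |inner ℝ (G y) (G y') - inner ℝ y y'| ≤ c * ‖y‖ * ‖y'‖ := by
  have key : ∀ u ∈ V, ∀ v ∈ V,
      4 * |inner ℝ (G u) (G v) - inner ℝ u v| ≤ 2 * c * (‖u‖ ^ 2 + ‖v‖ ^ 2) := by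
    intro u hu v hv
    have h1 := h _ (V.add_mem hu hv)
    have h2 := h _ (V.sub_mem hu hv)
    rw [map_add, norm_add_sq_real, norm_add_sq_real] at h1
    rw [map_sub, norm_sub_sq_real, norm_sub_sq_real] at h2
    rw [abs_le] at h1 h2
    have : |4 * (inner ℝ (G u) (G v) - inner ℝ u v)| ≤ 2 * c * (‖u‖ ^ 2 + ‖v‖ ^ 2) := by
      rw [abs_le]
      constructor <;> nlinarith [h1.1, h1.2, h2.1, h2.2]
    rwa [abs_mul, abs_of_pos (by norm_num : (0 : ℝ) < 4)] at this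
  by_cases h0 : y = 0
  · simp [h0]
  by_cases h0' : y' = 0
  · simp [h0']
  have p1 : 0 < ‖y‖ := norm_pos_iff.2 h0
  have p2 : 0 < ‖y'‖ := norm_pos_iff.2 h0'
  have := key _ (V.smul_mem ‖y'‖ hy) _ (V.smul_mem ‖y‖ hy')
  simp only [map_smul, real_inner_smul_left, real_inner_smul_right, norm_smul, norm_norm] at this
  have e' : ‖y‖ * (‖y'‖ * inner ℝ (G y) (G y')) - ‖y‖ * (‖y'‖ * inner ℝ y y')
      = (‖y‖ * ‖y'‖) * (inner ℝ (G y) (G y') - inner ℝ y y') := by ring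
  rw [e', abs_mul, abs_of_pos (mul_pos p1 p2)] at this
  have p3 := mul_pos p1 p2
  refine le_of_mul_le_mul_left ?_ p3
  nlinarith

/-- the square of the Funk transform is a multiple of the weight of order `-1` up to order `-2` -/
theorem gtx_R_sq : ∃ (κ c : ℝ) (E : Sm →ₗ[ℝ] Sm), 0 < κ ∧ 0 ≤ c ∧
    (∀ t : ℝ, Bd 1 (t - 2) t c E) ∧
    ∀ w ∈ Ev, ‖R w‖ ^ 2 = κ * nrm 1 (-1 / 2) w ^ 2 + inner ℝ (E w) w := by
  obtain ⟨κ, C, hκ, hC⟩ := cR_asymp
  have hl : (1 : ℝ) ≤ 1 := le_rfl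
  let e : ℕ → ℝ := fun l => if Even l then cR l * cR l - κ * wt 1 (-1) l else 0
  have he : ∀ l, |e l| ≤ κ * |C| * wt 1 (-2) l := by
    intro l
    have w2 := nrmx_wt_pos hl (-2) l
    by_cases h : Even l
    · have h1 := hC l h
      have w1 := nrmx_wt_pos hl 1 l
      have wn : wt 1 (-1) l = (wt 1 1 l)⁻¹ := opsx_wt_neg 1 l
      have wsq : wt 1 1 l ^ 2 = 1 + ll l := by simpa using nrmx_wt_one_sq hl l
      have ws : √(1 + ll l) = wt 1 1 l := by rw [← wsq, Real.sqrt_sq w1.le]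
      have w3 : wt 1 (-2) l = (wt 1 1 l)⁻¹ * (wt 1 1 l)⁻¹ := by
        rw [← wn, ← nrmx_wt_add hl]; norm_num
      have hle : wt 1 1 l ≤ (l : ℝ) + 1 := by
        refine nrmx_sq ?_ (by positivity)
        rw [wsq, ll]; nlinarith [Nat.cast_nonneg (α := ℝ) l]
      rw [ws] at h1
      have e1 : e l = κ * (wt 1 1 l)⁻¹ * (cR l ^ 2 * wt 1 1 l / κ - 1) := by
        simp only [e, if_pos h, wn]; field_simp
      have h2 : C / ((l : ℝ) + 1) ≤ |C| * (wt 1 1 l)⁻¹ := by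
        calc C / ((l : ℝ) + 1) ≤ |C| / ((l : ℝ) + 1) := by gcongr; exact le_abs_self C
          _ ≤ |C| / wt 1 1 l := by gcongr
          _ = _ := div_eq_mul_inv _ _
      rw [e1, abs_mul, abs_of_pos (by positivity), w3]
      calc κ * (wt 1 1 l)⁻¹ * |cR l ^ 2 * wt 1 1 l / κ - 1|
          ≤ κ * (wt 1 1 l)⁻¹ * (|C| * (wt 1 1 l)⁻¹) := by gcongr; exact h1.trans h2
        _ = _ := by ring
    · simp only [e, if_neg h, abs_zero]; positivity
  have hκw : PG (fun l => κ * wt 1 (-1) l) := (fnx_const κ).mul (PG_wt hl _)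
  have hPe : PG e := PG.of_le ((fnx_const (κ * |C|)).mul (PG_wt hl (-2))) fun l =>
    (he l).trans (le_abs_self _)
  refine ⟨κ, κ * |C|, fn e, hκ, by positivity, fun t φ => ?_, fun w hw => ?_⟩
  · refine nrm_fn hl (by positivity) hPe fun l _ => ?_
    rw [show t - 2 - t = -2 by ring]; exact he l
  · have h1 : ‖R w‖ ^ 2 = inner ℝ (fn (fun l => cR l * cR l) w) w := by
      rw [← real_inner_self_eq_norm_sq, ← fn_fn PG_cR PG_cR, inner_fn]; rfl
    have h2 : nrm 1 (-1 / 2) w ^ 2 = inner ℝ (fn (wt 1 (-1)) w) w := by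
      rw [nrm, ← real_inner_self_eq_norm_sq, nrmx_inner hl, real_inner_comm]; norm_num
    have h3 : fn (fun l => cR l * cR l) w = fn (fun l => κ * wt 1 (-1) l + e l) w := by
      refine fn_congr (PG_cR.mul PG_cR) (hκw.add hPe) fun l hl' => ?_
      have : Even l := by
        by_contra h
        exact hl' (P_of_Ev hw (Nat.not_even_iff_odd.1 h))
      simp only [e, if_pos this]; ring
    rw [h1, h2, h3, fn_add hκw hPe, fn_smul (PG_wt hl _), inner_add_left, real_inner_smul_left]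

theorem gtx_sq {a a' k : ℝ} (ha : 0 ≤ a) (ha' : 0 ≤ a') (hk : 1 ≤ k) (h1 : a' ≤ k * a)
    (h2 : a ≤ k * a') : |a' ^ 2 - a ^ 2| ≤ (k ^ 2 - 1) * a ^ 2 := by
  have hk2 : 0 ≤ k ^ 2 - 1 := by nlinarith
  have q1 : a' ^ 2 ≤ (k * a) ^ 2 := pow_le_pow_left₀ ha' h1 2
  have q2 : a ^ 2 ≤ (k * a') ^ 2 := pow_le_pow_left₀ ha h2 2
  rw [abs_le]
  refine ⟨?_, by nlinarith⟩
  rcases le_total a a' with h | h
  · have : a ^ 2 ≤ a' ^ 2 := pow_le_pow_left₀ ha h 2
    nlinarith [mul_nonneg hk2 (sq_nonneg a)]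
  · have : a' ^ 2 ≤ a ^ 2 := pow_le_pow_left₀ ha' h 2
    nlinarith [mul_le_mul_of_nonneg_left this hk2]

theorem gt (hB : PullBStmt) (hC : PullCStmt) : GtStmt := by
  obtain ⟨K, C, δ, hC0, hδ, hB⟩ := hB
  obtain ⟨κ, c, E, hκ, hc, hE, hR⟩ := gtx_R_sq
  have hl : (1 : ℝ) ≤ 1 := le_rfl
  let M : ℝ := 4 * (κ * (C * (2 + C * δ)) + c * C * C + c * C)
  have hM : 0 ≤ M := by positivity
  refine ⟨K, 4 * C + M, δ, by positivity, hδ, fun U b hb hU hCb => ?_⟩
  have hb0 : 0 ≤ b := hCb.nonneg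
  obtain ⟨hG, hn, s0, s1, t0, t1, -⟩ := hB U b hb hCb
  have lev : ∀ n : ℤ, |n| ≤ 8 → Bd 1 (n / 2 + 1 / 2) (n / 2 + 1 / 2) (4 * C + M) (GG U) := by
    intro n h8
    have := (Bd_R_half (n / 2)).comp (by norm_num)
      ((hn n h8).1.comp hC0 (Bd_Ri hl (n / 2)))
    exact this.mono hl (by positivity) le_rfl le_rfl (by linarith)
  refine ⟨?_, ?_, fun y hy y' hy' => ?_⟩
  · have := lev (-1) (by norm_num)
    norm_num at this
    exact this
  · have := lev (-3) (by norm_num)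
    norm_num at this
    exact this
  have hk : 0 ≤ 1 + C * b := by positivity
  have u1 : Bd 1 (-1 / 2) (-1 / 2) (1 + C * b) (XX U) := by
    have := s0.mid hl hk s1
    norm_num at this
    norm_num
    exact this
  have u2 : Bd 1 (1 / 2) (1 / 2) (1 + C * b) (pull U) := by
    have := t0.mid hl hk t1
    norm_num at this
    norm_num
    exact this
  have u3 : Bd 1 (-1 / 2) (-1 / 2) C (XX U) := by
    have := (hn (-1) (by norm_num)).1
    norm_num at this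
    norm_num
    exact this
  have u4 : Bd 1 (-1 / 2) (-3 / 2) (C * b) (XX U - LinearMap.id) := by
    have := (hn (-3) (by norm_num)).2.2.1
    norm_num at this
    norm_num
    exact this
  have diag : ∀ y ∈ Ev, |‖GG U y‖ ^ 2 - ‖y‖ ^ 2| ≤ M * b * ‖y‖ ^ 2 := by
    intro y hy
    set φ := Ri y with hφ
    have hφE : φ ∈ Ev := Ri_mem_Ev y
    have hXE : XX U φ ∈ Ev := by
      have := hC.1 (LinearIsometryEquiv.neg ℝ) U φ
      change XX (ant U) (ant φ) = ant (XX U φ) at this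
      rw [mem_Ev.1 hU, mem_Ev.1 hφE] at this
      exact mem_Ev.2 this.symm
    have e1 : y = R φ := by rw [hφ, R_Ri, evp_of_Ev hy]
    have e2 : GG U y = R (XX U φ) := rfl
    set a := nrm 1 (-1 / 2) φ with ha
    set a' := nrm 1 (-1 / 2) (XX U φ) with ha'
    have a0 : 0 ≤ a := nrm_nonneg _ _ _
    have a0' : 0 ≤ a' := nrm_nonneg _ _ _
    have ay : a ≤ 2 * ‖y‖ := by
      have := Bd_Ri hl (-1 / 2) y
      rw [show (-1 / 2 : ℝ) + 1 / 2 = 0 by norm_num, nrm_zero hl] at this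
      exact this
    have low : a ≤ (1 + C * b) * a' := by
      refine nrm_le_of_dual hl (by positivity) fun ψ => ?_
      rw [← hG.inner_pull, show -(-1 / 2 : ℝ) = 1 / 2 by norm_num]
      have h1 := abs_inner_le_nrm hl (-1 / 2) (XX U φ) (pull U ψ)
      rw [show -(-1 / 2 : ℝ) = 1 / 2 by norm_num] at h1
      calc inner ℝ (XX U φ) (pull U ψ) ≤ a' * nrm 1 (1 / 2) (pull U ψ) := (le_abs_self _).trans h1
        _ ≤ a' * ((1 + C * b) * nrm 1 (1 / 2) ψ) := by gcongr; exact u2 ψ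
        _ = _ := by ring
    have main := gtx_sq a0 a0' (by nlinarith [mul_nonneg hC0 hb0]) (u1 φ) low
    have kb : (1 + C * b) ^ 2 - 1 ≤ C * (2 + C * δ) * b := by
      have : C * b * (C * b) ≤ C * b * (C * δ) := by gcongr
      nlinarith
    set d := XX U φ - φ with hd
    have nd : nrm 1 (-3 / 2) d ≤ C * b * a := u4 φ
    have nd0 : 0 ≤ nrm 1 (-3 / 2) d := nrm_nonneg _ _ _
    have split : inner ℝ (E (XX U φ)) (XX U φ) - inner ℝ (E φ) φ
        = inner ℝ (E d) (XX U φ) + inner ℝ (E φ) d := by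
      rw [hd, map_sub, inner_sub_left, inner_sub_right]; ring
    have b1 : |inner ℝ (E d) (XX U φ)| ≤ c * (C * b * a) * (C * a) := by
      have h1 := abs_inner_le_nrm hl (1 / 2) (E d) (XX U φ)
      have h2 := hE (1 / 2) d
      rw [show (1 / 2 : ℝ) - 2 = -3 / 2 by norm_num] at h2
      rw [show -(1 / 2 : ℝ) = -1 / 2 by norm_num] at h1
      refine h1.trans (mul_le_mul (h2.trans ?_) (u3 φ) a0' (by positivity))
      gcongr
    have b2 : |inner ℝ (E φ) d| ≤ c * a * (C * b * a) := by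
      have h1 := abs_inner_le_nrm hl (3 / 2) (E φ) d
      have h2 := hE (3 / 2) φ
      rw [show (3 / 2 : ℝ) - 2 = -1 / 2 by norm_num] at h2
      rw [show -(3 / 2 : ℝ) = -3 / 2 by norm_num] at h1
      exact h1.trans (mul_le_mul h2 nd nd0 (by positivity))
    have tot : |‖GG U y‖ ^ 2 - ‖y‖ ^ 2| ≤ (κ * (C * (2 + C * δ)) + c * C * C + c * C) * b * a ^ 2 := by
      have e3 : ‖GG U y‖ ^ 2 - ‖y‖ ^ 2 = κ * (a' ^ 2 - a ^ 2)
          + (inner ℝ (E d) (XX U φ) + inner ℝ (E φ) d) := by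
        rw [← split, e2, hR _ hXE]
        conv_lhs => rw [e1, hR _ hφE]
        ring
      have m2 : |κ * (a' ^ 2 - a ^ 2)| ≤ κ * (C * (2 + C * δ) * b * a ^ 2) := by
        rw [abs_mul, abs_of_pos hκ]
        gcongr
        exact main.trans (by gcongr)
      rw [e3]
      refine (abs_add_le _ _).trans ((add_le_add m2 ((abs_add_le _ _).trans
        (add_le_add b1 b2))).trans (le_of_eq (by ring)))
    refine tot.trans ?_
    have : a ^ 2 ≤ (2 * ‖y‖) ^ 2 := pow_le_pow_left₀ a0 ay 2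
    calc _ ≤ (κ * (C * (2 + C * δ)) + c * C * C + c * C) * b * (2 * ‖y‖) ^ 2 := by gcongr
      _ = _ := by simp only [M]; ring
  refine (gtx_polar (GG U) Ev diag hy hy').trans ?_
  gcongr
  linarith

end Pool.Agent.Lib.MP_2fa2a2_gt.PI
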