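import Pool.Agent.Lib.MP_2fa2a2_gt.PI.SMid

namespace Pool.Agent.Lib.MP_2fa2a2_gt.PI

theorem hf_op (f : Sm) : ∃ T : Sm →ₗ[ℝ] Sm, ∀ g y, tau f g y = inner ℝ (T g) y := by
  refine ⟨∑ a, ∑ b, Dp ∘ₗ Hs a b ∘ₗ ml (D a f) ∘ₗ D b
    - (2 : ℝ) • (Ri ∘ₗ ∑ c, ml (L c (R f)) ∘ₗ L c ∘ₗ R), fun g y => ?_⟩
  have h1 : ∀ (a b : Fin 3) (w : Sm), inner ℝ (Dp (Hs a b w)) y = I (H a b (Dp y) * w) :=
    fun a b w => by
      rw [show inner ℝ (Dp (Hs a b w)) y = inner ℝ (Hs a b w) (Dp y) from inner_fn _ _ _,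
        real_inner_comm, ← inner_H, inner_def]
  simp only [LinearMap.sub_apply, LinearMap.sum_apply, LinearMap.smul_apply, LinearMap.comp_apply,
    LinearMap.mulLeft_apply, inner_sub_left, sum_inner, real_inner_smul_left, h1]
  rw [tau_inner_Ri, inner_def, mul_comm _ (Ri y), tau_def, tb_def, tg_def, beta_def, gam_def, Hv,
    gd, map_sum]
  simp only [map_sum, gr, mul_assoc]

theorem hf_tau : ∃ C, 0 ≤ C ∧ ∀ f g y : Sm, |tau f g y| ≤ C * nrm 1 7 f * ‖g‖ * nrm 1 1 y := by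
  obtain ⟨C1, h1, H1⟩ := abs_tau_le
  obtain ⟨C2, h2, H2⟩ := abs_tau_le'
  refine ⟨C1 + C2, by positivity, fun f g y => ?_⟩
  obtain ⟨T, hT⟩ := hf_op f
  have hf := nrm_nonneg 1 7 f
  have a1 : Bd 1 1 0 ((C1 + C2) * nrm 1 7 f) T := fun g => by
    have hg := nrm_nonneg 1 1 g
    refine nrm_le_of_dual le_rfl (by positivity) fun ψ => ?_
    rw [← hT, neg_zero, nrm_zero le_rfl]
    refine (le_abs_self _).trans ((H1 f g ψ).trans ?_)
    have := nrm_mono (lam := 1) le_rfl (by norm_num : (5 : ℝ) ≤ 7) f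
    have := nrm_nonneg 1 5 f
    gcongr
    linarith
  have a2 : Bd 1 (-1) (-2) ((C1 + C2) * nrm 1 7 f) T := fun g => by
    have hg := nrm_nonneg 1 (-1) g
    refine nrm_le_of_dual le_rfl (by positivity) fun ψ => ?_
    rw [← hT, neg_neg]
    refine (le_abs_self _).trans ((H2 f g ψ).trans ?_)
    have := nrm_nonneg 1 2 ψ
    gcongr
    linarith
  have a3 := Bd.mid le_rfl (by positivity) a1 a2 g
  have a4 := abs_inner_le_nrm (lam := 1) le_rfl (-1) (T g) y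
  norm_num at a3 a4
  rw [nrm_zero le_rfl] at a3
  rw [hT]
  exact a4.trans (mul_le_mul_of_nonneg_right a3 (nrm_nonneg _ _ _))

theorem hf_inv (c : Fin 3) (f g y : Sm) :
    tau f g (L c y) + tau (L c f) g y + tau f (L c g) y = 0 := by
  have h1 := tb_L c f g y
  have h2 := tg_L c f g y
  simp only [tau_def]
  linarith

theorem hf_DI {h : ℝ} (hh : 0 < h) (h1 : h ≤ 1) (j : ℕ) (φ : Sm) :
    nrm 1 (2 * j) (DI h j φ) ≤ h⁻¹ ^ (2 * j) * ‖φ‖ := by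
  have := Bd_DI hh h1 j 0 φ
  rwa [zero_add, nrm_zero le_rfl] at this

theorem hf_err (j : ℕ) : ∃ C, 0 ≤ C ∧ ∀ (h : ℝ) (f y φ : Sm), 0 < h → h ≤ 1 →
    |Lf h j f y φ - 2 * tau f φ y| ≤ C * h⁻¹ ^ (2 * j) * nrm 1 (2 * j + 5) f * ‖y‖ * ‖φ‖ := by
  obtain ⟨C1, c1, H1⟩ := abs_tau_le
  obtain ⟨C2, c2, H2⟩ := leib_form j
  refine ⟨2 * (C2 * C1), by positivity, fun h f y φ hh h1 => ?_⟩
  have h2 := H2 (b := tau) (h := h) (f := f) (g := φ) (y := y)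
    (Y := C1 * nrm 1 (2 * j + 5) f * (h⁻¹ ^ (2 * j) * ‖φ‖) * ‖y‖) hf_inv hh.le
    fun v w hv hvw => by
      have := List.length_pos_iff.2 hv
      refine (mul_le_of_le_one_left (abs_nonneg _) (pow_le_one₀ hh.le h1)).trans
        ((H1 _ _ _).trans ?_)
      have a1 : nrm 1 5 (Lw v f) ≤ nrm 1 (2 * j + 5) f := (nrm_Lw le_rfl _ _ _).trans
        (nrm_mono le_rfl (by exact_mod_cast (by omega : 5 + v.length ≤ 2 * j + 5)) f)
      have a2 : nrm 1 1 (Lw w (DI h j φ)) ≤ h⁻¹ ^ (2 * j) * ‖φ‖ := (nrm_Lw le_rfl _ _ _).trans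
        ((nrm_mono le_rfl (by exact_mod_cast (by omega : 1 + w.length ≤ 2 * j)) _).trans
          (hf_DI hh h1 j φ))
      have := nrm_nonneg 1 (2 * j + 5) f
      have := nrm_nonneg 1 1 (Lw w (DI h j φ))
      gcongr
  rw [Lf_apply, ← mul_sub, abs_mul, abs_two]
  linarith

theorem hf_T (j : ℕ) {h : ℝ} (hh : 0 < h) (h1 : h ≤ 1) : ∃ K, 0 ≤ K ∧ ∀ f y φ : Sm,
    |Lf h j f y φ| ≤ K * nrm 1 (2 * j + 8) f * nrm 1 1 y * ‖φ‖ := by
  obtain ⟨C1, c1, H1⟩ := hf_err j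
  obtain ⟨C2, c2, H2⟩ := hf_tau
  refine ⟨C1 * h⁻¹ ^ (2 * j) + 2 * C2, by positivity, fun f y φ => ?_⟩
  have hj : (0 : ℝ) ≤ j := Nat.cast_nonneg j
  have a1 := nrm_mono (lam := 1) le_rfl (by linarith : (2 * j + 5 : ℝ) ≤ 2 * j + 8) f
  have a2 := nrm_mono (lam := 1) le_rfl (by linarith : (7 : ℝ) ≤ 2 * j + 8) f
  have a3 := nrm_mono (lam := 1) le_rfl zero_le_one y
  rw [nrm_zero le_rfl] at a3
  have hf := nrm_nonneg 1 (2 * j + 8) f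
  have hy := nrm_nonneg 1 1 y
  have b1 : |Lf h j f y φ - 2 * tau f φ y|
      ≤ C1 * h⁻¹ ^ (2 * j) * nrm 1 (2 * j + 8) f * nrm 1 1 y * ‖φ‖ :=
    (H1 h f y φ hh h1).trans (by gcongr)
  have b2 : |tau f φ y| ≤ C2 * nrm 1 (2 * j + 8) f * ‖φ‖ * nrm 1 1 y :=
    (H2 f φ y).trans (by gcongr)
  rw [abs_le] at b1 b2 ⊢
  constructor <;> linarith [b1.1, b1.2, b2.1, b2.2]

theorem hf_Lf_inv (h : ℝ) (j : ℕ) (c : Fin 3) (f y φ : Sm) :
    Lf h j f (L c y) φ + Lf h j (L c f) y φ + Lf h j f y (L c φ) = 0 := by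
  have := hf_inv c f (DI h j φ) (DD h j y)
  rw [Lf_apply, Lf_apply, Lf_apply, show DD h j (L c y) = L c (DD h j y) from fn_L _ _ _,
    show DI h j (L c φ) = L c (DI h j φ) from fn_L _ _ _]
  linarith

theorem hf_Lf_lap (h : ℝ) (j : ℕ) (f y φ : Sm) : Lf h j f (lap y) φ - Lf h j f y (lap φ)
    = ∑ c, (Lf h j (L c (L c f)) y φ + 2 * Lf h j (L c f) y (L c φ)) := by
  rw [lap_def, lap_def, map_sum, map_sum, LinearMap.sum_apply, ← Finset.sum_sub_distrib]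
  refine Finset.sum_congr rfl fun c _ => ?_
  linarith [hf_Lf_inv h j c f (L c y) φ, hf_Lf_inv h j c (L c f) y φ, hf_Lf_inv h j c f y (L c φ)]

theorem hf_Sh (h : ℝ) : Sh h = DI h 1 := by
  simp only [Sh, DI, pow_one]

theorem hf_fried (j : ℕ) {h : ℝ} (hh : 0 < h) (h1 : h ≤ 1) : ∃ K, 0 ≤ K ∧
    ∀ (r : ℝ) (f y ψ : Sm), 0 < r → r ≤ 1 → |Lf h j f y (Sh r ψ) - Lf h j f (Sh r y) ψ|
      ≤ K * nrm 1 (2 * j + 10) f * (r * nrm 1 1 (Sh r y)) * ‖ψ‖ := by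
  obtain ⟨K, hK, H⟩ := hf_T j hh h1
  refine ⟨9 * K, by positivity, fun r f y ψ hr r1 => ?_⟩
  have e : Lf h j f y (Sh r ψ) - Lf h j f (Sh r y) ψ = -∑ c, (r * (r * Lf h j (L c (L c f))
      (Sh r y) (Sh r ψ)) + 2 * (r * Lf h j (L c f) (Sh r y) (r • L c (Sh r ψ)))) := by
    have e1 := hf_Lf_lap h j f (Sh r y) (Sh r ψ)
    have e2 := congrArg (fun z => Lf h j f z (Sh r ψ)) (Sh_spec r y)
    have e3 := congrArg (Lf h j f (Sh r y)) (Sh_spec r ψ)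
    simp only [map_sub, map_smul, LinearMap.sub_apply, LinearMap.smul_apply, smul_eq_mul,
      Fin.sum_univ_three] at e1 e2 e3 ⊢
    linear_combination e3 - e2 - r ^ 2 * e1
  have hf := nrm_nonneg 1 (2 * j + 10) f
  have hy := nrm_nonneg 1 1 (Sh r y)
  have a1 : ∀ c, nrm 1 (2 * j + 8) (L c (L c f)) ≤ nrm 1 (2 * j + 10) f := fun c =>
    (nrm_L le_rfl _ _ _).trans ((nrm_L le_rfl _ _ _).trans (nrm_mono le_rfl (by linarith) f))
  have a2 : ∀ c, nrm 1 (2 * j + 8) (L c f) ≤ nrm 1 (2 * j + 10) f := fun c =>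
    (nrm_L le_rfl _ _ _).trans (nrm_mono le_rfl (by linarith) f)
  have a3 := norm_Sh_le r ψ
  have a4 : ∀ c, ‖r • L c (Sh r ψ)‖ ≤ ‖ψ‖ := fun c => by
    have := norm_Lw_DI hr.le (j := 1) (w := [c]) (by simp) ψ
    rw [norm_smul, Real.norm_of_nonneg hr.le, hf_Sh]
    simpa using this
  have b : ∀ c, |r * (r * Lf h j (L c (L c f)) (Sh r y) (Sh r ψ))
      + 2 * (r * Lf h j (L c f) (Sh r y) (r • L c (Sh r ψ)))|
      ≤ 3 * (r * (K * nrm 1 (2 * j + 10) f * nrm 1 1 (Sh r y) * ‖ψ‖)) := fun c => by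
    have b1 : |Lf h j (L c (L c f)) (Sh r y) (Sh r ψ)|
        ≤ K * nrm 1 (2 * j + 10) f * nrm 1 1 (Sh r y) * ‖ψ‖ := (H _ _ _).trans (by
      have := a1 c
      gcongr)
    have b2 : |Lf h j (L c f) (Sh r y) (r • L c (Sh r ψ))|
        ≤ K * nrm 1 (2 * j + 10) f * nrm 1 1 (Sh r y) * ‖ψ‖ := (H _ _ _).trans (by
      have := a2 c
      have := a4 c
      gcongr)
    refine (abs_add_le _ _).trans ?_
    simp only [abs_mul, abs_two, abs_of_pos hr]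
    have b3 := mul_le_mul_of_nonneg_left b2 hr.le
    have b4 := mul_le_mul_of_nonneg_left ((mul_le_of_le_one_left (abs_nonneg _) r1).trans b1) hr.le
    linarith
  rw [e, abs_neg]
  refine (Finset.abs_sum_le_sum_abs _ _).trans ((Finset.sum_le_sum fun c _ => b c).trans_eq ?_)
  simp only [Fin.sum_univ_three]
  ring

theorem hf_mult {a m : ℝ} (ha : 0 ≤ a) (hm : 0 ≤ m) : m * ((1 + a) * ((1 + m * a)⁻¹) ^ 2)
    ≤ 4 / 3 * (((1 + m / 4 * a)⁻¹ - m / 4) - ((1 + m * a)⁻¹ - m)) := by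
  have ht : 0 ≤ m * a := mul_nonneg hm ha
  rw [div_mul_eq_mul_div m 4 a, ← mul_assoc, mul_add m, mul_one]
  generalize m * a = t at ht ⊢
  have h1 : ((1 + t)⁻¹) ^ 2 ≤ 1 := pow_le_one₀ (by positivity) (inv_le_one_of_one_le₀ (by linarith))
  have h2 : t * ((1 + t)⁻¹) ^ 2 ≤ 4 / 3 * ((1 + t / 4)⁻¹ - (1 + t)⁻¹) := by
    rw [← sub_nonneg]
    have : 4 / 3 * ((1 + t / 4)⁻¹ - (1 + t)⁻¹) - t * ((1 + t)⁻¹) ^ 2
        = 3 * t ^ 2 / ((4 + t) * (1 + t) ^ 2) := by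
      field_simp
      ring
    rw [this]
    positivity
  have h3 := mul_le_of_le_one_right hm h1
  linarith

theorem hf_step (r : ℝ) (y : Sm) : (r * nrm 1 1 (Sh r y)) ^ 2 ≤ 4 / 3 *
    ((inner ℝ (Sh (r / 2) y) y - (r / 2) ^ 2 * ‖y‖ ^ 2) - (inner ℝ (Sh r y) y - r ^ 2 * ‖y‖ ^ 2)) := by
  have h1 := hasSum_fn_sq ((PG_wt le_rfl 1).mul (opsx_PG_Sh r)) y
  rw [← fn_fn (PG_wt le_rfl 1) (opsx_PG_Sh r)] at h1
  have h2 := hasSum_inner_fn (opsx_PG_Sh (r / 2)) y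
  have h3 := hasSum_inner_fn (opsx_PG_Sh r) y
  have h4 := parseval_sq y
  rw [mul_pow]
  refine hasSum_le (fun l => ?_) (h1.mul_left (r ^ 2)) (((h2.sub (h4.mul_left ((r / 2) ^ 2))).sub
    (h3.sub (h4.mul_left (r ^ 2)))).mul_left (4 / 3))
  have h5 := mul_le_mul_of_nonneg_right (hf_mult (nrmx_ll_nonneg l) (sq_nonneg r))
    (sq_nonneg ‖P l y‖)
  rw [mul_pow, nrmx_wt_one_sq le_rfl, one_pow, show (r / 2) ^ 2 = r ^ 2 / 4 by ring]
  linarith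

theorem hf_pigeon {κ : ℝ} (hκ : 0 < κ) : ∃ r0 : ℝ, 0 < r0 ∧ ∀ y : Sm, ‖y‖ ≤ 1 →
    ∃ r, r0 ≤ r ∧ r ≤ 1 ∧ r * nrm 1 1 (Sh r y) ≤ κ := by
  obtain ⟨n, hn⟩ := exists_nat_gt (4 / κ ^ 2)
  rw [div_lt_iff₀ (by positivity)] at hn
  refine ⟨(1 / 2) ^ n, by positivity, fun y hy => ?_⟩
  by_contra H
  push Not at H
  have hy2 : ‖y‖ ^ 2 ≤ 1 := pow_le_one₀ (norm_nonneg _) hy
  have hq : ∀ r, |inner ℝ (Sh r y) y| ≤ 1 := fun r => (abs_real_inner_le_norm _ _).trans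
    (mul_le_one₀ ((norm_Sh_le r y).trans hy) (norm_nonneg _) hy)
  have key : ∀ i ≤ n, -2 + i * (3 / 4 * κ ^ 2)
      ≤ inner ℝ (Sh ((1 / 2) ^ i) y) y - ((1 / 2) ^ i) ^ 2 * ‖y‖ ^ 2 := fun i hi => by
    induction i with
    | zero =>
      have := (abs_le.1 (hq 1)).1
      simp only [pow_zero, one_pow, Nat.cast_zero]
      linarith
    | succ i ih =>
      have h1 := ih (by omega)
      have h2 := hf_step ((1 / 2) ^ i) y
      have h3 := H ((1 / 2) ^ i) (pow_le_pow_of_le_one (by norm_num) (by norm_num) (by omega))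
        (pow_le_one₀ (by norm_num) (by norm_num))
      have h4 := pow_le_pow_left₀ hκ.le h3.le 2
      rw [show ((1 : ℝ) / 2) ^ (i + 1) = (1 / 2) ^ i / 2 by ring, Nat.cast_succ]
      linarith
  have h1 := key n le_rfl
  have h2 := (abs_le.1 (hq ((1 / 2) ^ n))).2
  have h3 : 0 ≤ (((1 : ℝ) / 2) ^ n) ^ 2 * ‖y‖ ^ 2 := by positivity
  linarith

theorem hf_low {r : ℝ} (hr : 0 ≤ r) (r1 : r ≤ 1) {y : Sm} (hy : ‖y‖ ≤ 1) :
    nrm 1 (-1) y ^ 2 ≤ ‖Sh r y‖ := by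
  have h1 := Bd_DD hr r1 1 (-2) (Sh r y)
  have h2 := nrm_mid (lam := 1) le_rfl (-2) 0 y
  rw [hf_Sh, DD_DI, ← hf_Sh] at h1
  norm_num at h1 h2
  rw [nrm_zero le_rfl] at h1 h2
  exact h2.trans ((mul_le_of_le_one_right (nrm_nonneg _ _ _) hy).trans h1)

theorem hf (hA : ChainAStmt) (hB : ChainBStmt) : HfStmt := by
  obtain ⟨jA, hA⟩ := hA
  obtain ⟨jB, hB⟩ := hB
  refine ⟨max jA jB, fun j hj => ?_⟩
  obtain ⟨C1, c1, H1⟩ := hf_err j
  refine ⟨2 * C1 + 1, 2 * j, by linarith, fun h m fl M θ ρ hh h1 hm hfl hM hI hρ γ hγ => ?_⟩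
  obtain ⟨hadd, -, CA, cA, HA⟩ := hA j (le_of_max_le_left hj) h hh h1
  have hF := nrm_nonneg 1 (2 * j + 10) fl
  set F := nrm 1 (2 * j + 10) fl + 1 with hFd
  set G := h⁻¹ ^ (2 * j) with hG
  have G1 : 1 ≤ G := one_le_pow₀ ((one_le_inv₀ hh).2 h1)
  obtain ⟨CB, ε0, cB, e0, HB⟩ := hB j (le_of_max_le_right hj) h hh h1 (F + G)
  obtain ⟨K, hK, HK⟩ := hf_fried j hh h1
  have F0 : 0 < F := by linarith
  obtain ⟨r0, hr0, HP⟩ := hf_pigeon (κ := γ ^ 2 / (4 * M * (K * F + 1))) (by positivity)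
  set W := 1 + (CB + CA * G) * r0⁻¹ ^ 2 with hW
  have W0 : 0 < W := by positivity
  refine ⟨min (min 1 ε0) (γ ^ 2 / (4 * M * W)), by positivity,
    fun ε f φ' y N hε εδ hf hfρ hφ' y1 y2 y3 hy H => ?_⟩
  set δ := min (min 1 ε0) (γ ^ 2 / (4 * M * W)) with hδ
  have δ0 : 0 < δ := by positivity
  have δ1 : δ ≤ 1 := (min_le_left _ _).trans (min_le_left _ _)
  have δ2 : δ ≤ ε0 := (min_le_left _ _).trans (min_le_right _ _)
  have δ3 : δ * (4 * M * W) ≤ γ ^ 2 := (le_div_iff₀ (by positivity)).1 (min_le_right _ _)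
  have hj0 : (0 : ℝ) ≤ j := Nat.cast_nonneg j
  have ρ0 : 0 ≤ ρ := (nrm_nonneg _ _ _).trans hfρ
  have ρ1 : ρ ≤ min 1 θ := by
    refine le_trans (le_mul_of_one_le_left ρ0 ?_) hρ
    exact one_le_mul_of_one_le_of_one_le (one_le_mul_of_one_le_of_one_le (by linarith) G1) hM
  have ρ2 : M * (C1 * G * ρ) ≤ 1 / 2 := by
    have a1 := hρ.trans (min_le_left _ _)
    have a2 : 0 ≤ G * M * ρ := by positivity
    linarith
  have hfF : nrm 1 (2 * j + 10) f ≤ F := by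
    have a1 := nrm_add_le 1 (2 * j + 10) fl (f - fl)
    rw [add_sub_cancel] at a1
    linarith [ρ1.trans (min_le_left _ _)]
  have hg : nrm 1 (2 * j) (DI h j φ') ≤ G * δ :=
    (hf_DI hh h1 j φ').trans (mul_le_mul_of_nonneg_left hφ' (by positivity))
  have hfg : nrm 1 (2 * j) (f + DI h j φ') ≤ F + G := (nrm_add_le _ _ _ _).trans (add_le_add
    ((nrm_mono le_rfl (by linarith) f).trans hfF)
    (hg.trans (mul_le_of_le_one_right (by positivity) δ1)))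
  obtain ⟨r, r1, r2, r3⟩ := HP y hy
  have r4 : 0 < r := hr0.trans_le r1
  have hS : ∀ ψ, nrm 1 2 (Sh r ψ) ≤ r0⁻¹ ^ 2 * ‖ψ‖ := fun ψ => by
    have a1 := hf_DI r4 r2 1 ψ
    rw [← hf_Sh, Nat.cast_one, mul_one, mul_one] at a1
    exact a1.trans (by gcongr)
  have b1 : ∀ ψ, |Lf h j f y (Sh r ψ)| ≤ δ * W * ‖ψ‖ := fun ψ => by
    have a1 := (H (Sh r ψ)).trans (mul_le_mul_of_nonneg_left (norm_Sh_le r ψ) δ0.le)
    have a2 := (((HB ε 0 _ hε (εδ.trans δ2) (by rw [abs_zero]; positivity) hfg).2.2.2 y y1).2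
      (Sh r ψ))
    have a3 := (HA 0 (DI h j φ') y (Sh r ψ) y1).2.1
    have a4 := hS ψ
    have a5 := (nrm_mono (lam := 1) le_rfl one_le_two (Sh r ψ)).trans a4
    have a6 := nrm_nonneg 1 2 (Sh r ψ)
    have a7 := nrm_nonneg 1 1 (Sh r ψ)
    have a8 := a2.trans (show _ ≤ CB * δ * 1 * (r0⁻¹ ^ 2 * ‖ψ‖) by gcongr)
    have a9 := a3.trans (show _ ≤ CA * (G * δ) * 1 * (r0⁻¹ ^ 2 * ‖ψ‖) by gcongr)
    rw [hadd] at a8
    simp only [AA, LinearMap.sub_apply, LinearMap.add_apply] at a1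
    rw [abs_le] at a1 a8 a9 ⊢
    rw [hW]
    constructor <;> linarith [a1.1, a1.2, a8.1, a8.2, a9.1, a9.2]
  have b2 : ∀ ψ, |Lf h j f y (Sh r ψ) - Lf h j f (Sh r y) ψ| ≤ γ ^ 2 / (4 * M) * ‖ψ‖ := fun ψ => by
    refine (HK r f y ψ r4 r2).trans (mul_le_mul_of_nonneg_right ?_ (norm_nonneg _))
    have a1 := mul_nonneg r4.le (nrm_nonneg 1 1 (Sh r y))
    calc _ ≤ (K * F + 1) * (γ ^ 2 / (4 * M * (K * F + 1))) := by
          refine mul_le_mul ?_ r3 a1 (by positivity)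
          linarith [mul_le_mul_of_nonneg_left hfF hK]
      _ = _ := by field_simp
  have b3 := hI (f - fl) (Sh r y) N (δ * W + γ ^ 2 / (4 * M) + C1 * G * ρ * ‖Sh r y‖)
    ((nrm_mono le_rfl (by linarith) _).trans (hfρ.trans (ρ1.trans (min_le_right _ _))))
    (fn_mem_Ev _ y1) (fn_mem_Zi _ y2) (fn_mem_Poly _ y3) (by positivity) fun ψ => by
      have a1 := b1 ψ
      have a2 := b2 ψ
      have a3 := (H1 h (f - fl) (Sh r y) ψ hh h1).trans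
        (show _ ≤ C1 * G * ρ * ‖Sh r y‖ * ‖ψ‖ by
          have := (nrm_mono (lam := 1) le_rfl
            (by linarith : (2 * j + 5 : ℝ) ≤ 2 * j + 10) (f - fl)).trans hfρ
          gcongr)
      have a4 : Lf h j (f - fl) (Sh r y) ψ = Lf h j f (Sh r y) ψ - Lf h j fl (Sh r y) ψ := by
        simp only [Lf_apply, map_sub, LinearMap.sub_apply, mul_sub]
      rw [a4] at a3
      rw [abs_le] at a1 a2 a3 ⊢
      constructor <;> linarith [a1.1, a1.2, a2.1, a2.2, a3.1, a3.2]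
  have b4 : M * (γ ^ 2 / (4 * M)) = γ ^ 2 / 4 := by field_simp
  have b5 := mul_le_mul_of_nonneg_right ρ2 (norm_nonneg (Sh r y))
  have b6 := hf_low r4.le r2 hy
  exact nrmx_sq (by nlinarith) hγ.le

end Pool.Agent.Lib.MP_2fa2a2_gt.PI
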