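import Pool.Agent.Lib.MP_2fa2a2_gt.PI.IdFX

namespace Pool.Agent.Lib.MP_2fa2a2_gt.PI

open MeasureTheory Filter Topology

theorem idf_tt (j : ℕ) (e : ℝ) (f y φ : Sm) : tt j e f y φ =
    2 / e * inner ℝ (GG (e • FF e f) y - XX (e • f) y) φ
      + 2 * inner ℝ (XX (e • FF e f) (Ri y)) (P1 1 j ((2 : ℝ) • R f) (R φ))
      + inner ℝ (GG (e • FF e f) y) (Bop f φ) - inner ℝ (XX (e • f) y) (P1 2 j f φ) := by
  have h : ∀ ψ, inner ℝ (XX (e • FF e f) (Ri y)) (R ψ) = inner ℝ (GG (e • FF e f) y) ψ :=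
    fun ψ => (inner_fn cR _ ψ).symm
  simp only [tt, LinearMap.add_apply, LinearMap.sub_apply, LinearMap.smul_apply, ip_apply,
    LinearMap.comp_apply, LinearMap.id_apply, smul_eq_mul, h, inner_sub_left]

theorem idf_le (u v : Sm) {p q : ℝ} (hu : ‖u‖ ≤ p) (hv : ‖v‖ ≤ q) : |inner ℝ u v| ≤ p * q :=
  (abs_real_inner_le_norm _ _).trans
    (mul_le_mul hu hv (norm_nonneg _) ((norm_nonneg _).trans hu))

theorem idf_FF_ev (e : ℝ) (f : Sm) : e • FF e f ∈ Ev := Ev.smul_mem e (R_mem_Ev _)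

theorem idf_w {K : ℕ} {C δ : ℝ} (hK : 9 ≤ K) (hC : 0 ≤ C) (hP : idfP K C δ) (j : ℕ) (B : ℝ) :
    ∃ C', ∀ (e d : ℝ) (f y : Sm), 0 < e → e ≤ 1 → e * B ≤ δ → Cb K 1 B f → Cb K 1 B (FF e f) →
      Cb K 1 (B * e) (FF e f - (2 : ℝ) • R f) → ‖y‖ = 1 → (∀ φ, |tt j e f y φ| ≤ d * ‖φ‖) →
      d ≤ 1 → ‖GG (e • FF e f) y - XX (e • f) y‖ ≤ C' * e := by
  obtain ⟨C1, hC1, p1⟩ := idf_P1 1 j
  obtain ⟨C2, hC2, p2⟩ := idf_P1 2 j
  refine ⟨(1 + 2 * (C * 2 * (C1 * (B + B) * 2)) + C * (C * B) + C * (C2 * B)) / 2,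
    fun e d f y he he1 hδ hf hF hF' hy ht hd => ?_⟩
  have hB := hf.nonneg
  obtain ⟨-, a1, -⟩ := hP.1 _ _ hδ (idf_Cb_smul he hf)
  obtain ⟨-, -, -, -, a2, -, -, a3⟩ := hP.1 _ _ hδ (idf_Cb_smul he hF)
  have a4 := a1 y
  have a5 := a3 (idf_FF_ev e f) y
  rw [hy, mul_one] at a4 a5
  have hR : Cb 3 1 (B + B) ((2 : ℝ) • R f) := by
    have := hF.sub hF'
    rw [sub_sub_cancel] at this
    exact this.mono zero_le_one (by omega) le_rfl (by nlinarith)
  set w := GG (e • FF e f) y - XX (e • f) y with hw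
  have b1 := ht w
  rw [idf_tt, ← hw, real_inner_self_eq_norm_mul_norm] at b1
  have b2 : |inner ℝ (XX (e • FF e f) (Ri y)) (P1 1 j ((2 : ℝ) • R f) (R w))| ≤
      C * 2 * (C1 * (B + B) * 2) * ‖w‖ := by
    have c1 := Bd_Ri (le_refl (1 : ℝ)) (-(1 / 2)) y
    rw [neg_add_cancel, nrm_zero le_rfl, hy, mul_one] at c1
    have c2 := Bd_R_half 0 w
    rw [zero_add, nrm_zero le_rfl] at c2
    have c3 := idf_congr (p1 _ _ 1 (by norm_num) hR) (s' := 1 / 2) (t' := 1 / 2) (by norm_num)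
      (by norm_num) (R w)
    refine (abs_inner_le_nrm le_rfl (-(1 / 2)) _ _).trans ?_
    rw [neg_neg]
    calc _ ≤ (C * 2) * (C1 * (B + B) * (2 * ‖w‖)) :=
          mul_le_mul ((a2 _).trans (mul_le_mul_of_nonneg_left c1 hC))
            (c3.trans (mul_le_mul_of_nonneg_left c2 (by positivity))) (nrm_nonneg _ _ _)
            (by positivity)
      _ = _ := by ring
  have b3 := idf_le _ _ a5 (hP.2.1 f B hf w)
  have b4 := idf_le _ _ a4 (idf_b0 (p2 f B 0 (by simp)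
    (hf.mono zero_le_one (by omega) le_rfl le_rfl)) (by simp) (by simp) w)
  rcases (norm_nonneg w).eq_or_lt with h0 | h0
  · rw [← h0]
    positivity
  refine le_of_mul_le_mul_right ?_ h0
  have b5 : d * ‖w‖ ≤ ‖w‖ := by nlinarith
  have b6 : 2 / e * (‖w‖ * ‖w‖) ≤
      (1 + 2 * (C * 2 * (C1 * (B + B) * 2)) + C * (C * B) + C * (C2 * B)) * ‖w‖ := by
    linarith [(abs_le.mp b1).2, (abs_le.mp b2).1, (abs_le.mp b3).1, (abs_le.mp b4).2]
  rw [div_mul_eq_mul_div, div_le_iff₀ he] at b6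
  linarith

theorem idf_lim {t ε : ℕ → ℝ} {𝒰 : Ultrafilter ℕ} {C : ℝ} (hε : Tendsto ε 𝒰 (𝓝 0))
    (h : ∀ᶠ n in 𝒰, |t n| ≤ C * ε n) : Tendsto t 𝒰 (𝓝 0) :=
  squeeze_zero_norm' h (by simpa using hε.const_mul C)

theorem idf_small {ε : ℕ → ℝ} {𝒰 : Ultrafilter ℕ} {δ : ℝ} (hε : Tendsto ε 𝒰 (𝓝 0)) (hδ : 0 < δ)
    (B : ℝ) : ∀ᶠ n in 𝒰, ε n ≤ 1 ∧ ε n * B ≤ δ := by
  have h := hε.mul_const B
  rw [zero_mul] at h
  exact (hε.eventually (ge_mem_nhds one_pos)).and (h.eventually (ge_mem_nhds hδ))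

theorem idf_rep {K K' j : ℕ} {C δ B : ℝ} (hK : 9 ≤ K) (hC : 0 ≤ C) (hδ : 0 < δ)
    (hP : idfP K C δ) (hW : WdStmt) (hK' : K ≤ K') {ε f y 𝒰 μ} (hs : Sq K' j B ε f y 𝒰 μ) {A α}
    (hA : Op0 A α) :
    Tendsto (fun n => inner ℝ (A (XX (ε n • f n) (y n))) (XX (ε n • f n) (y n))) 𝒰
      (𝓝 (∫ p, α p ∂μ)) := by
  obtain ⟨-, W, hw, hE⟩ := hA
  have hf : ∀ n, Cb K 1 B (f n) := fun n => (hs.bf n).mono zero_le_one hK' le_rfl le_rfl
  have hB := (hf 0).nonneg
  obtain ⟨C', h1⟩ := idf_eg hK hC hP hw B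
  obtain ⟨D, hD, d1, d2, -⟩ := hP.2.2 W α hw
  obtain ⟨D', hD', d3⟩ := hE 0
  have t1 := hs.rep.2.1 W α (idf_op_wd hW hw)
  have t2 : Tendsto (fun n => inner ℝ (W (XX (ε n • f n) (y n))) (XX (ε n • f n) (y n))
      - inner ℝ (W (y n)) (y n)) 𝒰 (𝓝 0) := by
    refine idf_lim (C := |C'| + (3 * B * D + D * B * C * C)) hs.lim ?_
    filter_upwards [idf_small hs.lim hδ B] with n hn
    have he := hs.pos n
    have a1 := h1 _ _ _ he hn.2 (hf n) (hs.one n)
    have a2 := (hP.1 _ _ hn.2 (idf_Cb_smul he (hf n))).2.1 (y n)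
    have a3 := idf_b0 (d1 0 (by norm_num) (by norm_num)) (by simp) (by simp) (y n)
    rw [hs.one n, mul_one] at a2 a3
    have a4 := idf_le _ _ ((norm_mul_le (idf_Cb_lap (k := 0) ((hf n).mono zero_le_one (by omega)
      le_rfl le_rfl)).abs_le (W (y n))).trans (mul_le_mul_of_nonneg_left a3 (by positivity)))
      (hs.one n).le
    have a5 := idf_le _ _ ((idf_b0 (d2 _ _ (hf n) 0 (by norm_num) (by norm_num)) (by simp)
      (by simp) _).trans (mul_le_mul_of_nonneg_left a2 (by positivity))) a2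
    have a6 : C' * ε n ^ 2 ≤ |C'| * ε n := by
      have : ε n ^ 2 ≤ ε n := by nlinarith [hn.1]
      exact (mul_le_mul_of_nonneg_right (le_abs_self _) (by positivity)).trans (by gcongr)
    have a7 := mul_le_mul_of_nonneg_left ((abs_sub _ _).trans (add_le_add a4 a5)) he.le
    rw [← abs_of_pos he, ← abs_mul, abs_of_pos he] at a7
    have a8 := abs_sub_abs_le_abs_sub _ _ |>.trans a1
    linarith
  have t3 : Tendsto (fun n => inner ℝ ((A - W) (XX (ε n • f n) (y n))) (XX (ε n • f n) (y n)))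
      𝒰 (𝓝 0) := by
    refine idf_lim (C := D' * C * C) hs.hf ?_
    filter_upwards [idf_small hs.lim hδ B] with n hn
    obtain ⟨-, a1, -, a2, -⟩ := hP.1 _ _ hn.2 (idf_Cb_smul (hs.pos n) (hf n))
    have a3 := a1 (y n)
    rw [hs.one n, mul_one] at a3
    have a4 := idf_congr d3 (s' := -1) (t' := 0) (by simp) (by simp) (XX (ε n • f n) (y n))
    rw [nrm_zero le_rfl] at a4
    refine (idf_le _ _ (a4.trans (mul_le_mul_of_nonneg_left (a2 _) hD')) a3).trans_eq ?_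
    ring
  have := (t1.add t2).add t3
  rw [add_zero, add_zero] at this
  refine this.congr fun n => ?_
  rw [LinearMap.sub_apply, inner_sub_left]
  ring

/-- the operator whose form collects the terms evaluated on the pulled back sequence -/
noncomputable def idfM (j : ℕ) (A S : Sm →ₗ[ℝ] Sm) (g : Sm) : Sm →ₗ[ℝ] Sm :=
  (-1 : ℝ) • cm (Vb g) A + (-(1 / 2) : ℝ) • (Bop g ∘ₗ S) + (1 / 2 : ℝ) • (P1 2 j g ∘ₗ S)

theorem idfM_inner (j : ℕ) (A S : Sm →ₗ[ℝ] Sm) (g a : Sm) : inner ℝ (idfM j A S g a) a =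
    -inner ℝ (cm (Vb g) A a) a - 1 / 2 * inner ℝ a (Bop g (S a))
      + 1 / 2 * inner ℝ a (P1 2 j g (S a)) := by
  simp only [idfM, LinearMap.add_apply, LinearMap.smul_apply, LinearMap.comp_apply,
    inner_add_left, real_inner_smul_left, real_inner_comm a (Bop g _),
    real_inner_comm a (P1 2 j g _)]
  ring

theorem idfM_add (j : ℕ) (A S : Sm →ₗ[ℝ] Sm) (g g' : Sm) :
    idfM j A S (g + g') = idfM j A S g + idfM j A S g' := by
  have h1 : Bop (g + g') = Bop g + Bop g' := by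
    simp only [Bop, map_add, LinearMap.comp_add, smul_add]
  have h2 : P1 2 j (g + g') = P1 2 j g + P1 2 j g' := by
    ext φ : 1
    simp only [P1, map_add, LinearMap.add_apply, LinearMap.sub_apply, LinearMap.smul_apply,
      LinearMap.sum_apply, LinearMap.comp_apply, LinearMap.mulLeft_apply, add_mul,
      Finset.sum_add_distrib, smul_add]
    abel
  simp only [idfM, h1, h2, idf_Vb_add, cm, LinearMap.add_comp, LinearMap.comp_add]
  module

theorem idfM_op (hW : WdStmt) (hS : SymStmt) (j : ℕ) {A A' α} (hA : Wd A α) (hA' : Wd A' α)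
    (g : Sm) : Op0 (idfM j A (A + A') g) (-(PP j g α + px (lap g) * α)) := by
  have := idf_op_add (idf_op_add (idf_op_smul (-1) (hS.1 g A α hA))
    (idf_op_smul (-(1 / 2)) (idf_op_comp hW (hS.2.1 g) (hA.add hA'))))
    (idf_op_smul (1 / 2) (idf_op_comp hW (hS.2.2 2 j g) (hA.add hA')))
  unfold idfM
  convert this using 1
  funext p
  simp only [PP, px, Pi.add_apply, Pi.neg_apply, Pi.mul_apply, Pi.smul_apply, smul_eq_mul]
  ring

theorem idf_form {A A' : Sm →ₗ[ℝ] Sm} (h : ∀ φ ψ, inner ℝ (A φ) ψ = inner ℝ φ (A' ψ))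
    (v a : Sm) : inner ℝ (v - a) ((A + A') v) =
      inner ℝ (A v) v - inner ℝ (A a) a + inner ℝ (v - a) (A (v - a)) := by
  simp only [LinearMap.add_apply, inner_add_right, ← h, map_sub, inner_sub_left, inner_sub_right,
    real_inner_comm (A v), real_inner_comm (A a)]
  ring

theorem idF (hB : PullBStmt) (hE : EgStmt) (hW : WdStmt) (hS : SymStmt) (hL : LowStmt)
    (hG : GtStmt) : IdFStmt := by
  obtain ⟨K, C, δ, hK, hC, hδ, hP⟩ := idf_bundle hB hE hL hG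
  refine ⟨K + 4, fun j => ⟨5000 * (j + 1), by positivity, fun B ε f y 𝒰 μ hs => ?_⟩⟩
  have := hs.prob
  have hf : ∀ n, Cb K 1 B (f n) := fun n => (hs.bf n).mono zero_le_one (by omega) le_rfl le_rfl
  have hF : ∀ n, Cb K 1 B (FF (ε n) (f n)) := fun n =>
    (hs.bF n).mono zero_le_one (by omega) le_rfl le_rfl
  have hB0 := (hf 0).nonneg
  obtain ⟨d, hd, hd'⟩ := hs.eqn
  obtain ⟨Cw, hw⟩ := idf_w hK hC hP j B
  have hw' : ∀ᶠ n in 𝒰, ‖GG (ε n • FF (ε n) (f n)) (y n) - XX (ε n • f n) (y n)‖ ≤ Cw * ε n := by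
    filter_upwards [idf_small hs.lim hδ B, hd.eventually (ge_mem_nhds one_pos)] with n h1 h2
    exact hw _ _ _ _ (hs.pos n) h1.1 h1.2 (hf n) (hF n)
      ((hs.bF' n).mono zero_le_one (by omega) le_rfl le_rfl) (hs.one n) (hd' n) h2
  refine ⟨⟨Cw, hw'⟩, fun u η hu A A' α hA hA' hadj θ hθ => ?_⟩
  have hα := (hW.1 A α hA).2.1
  have hint : ∀ g, Integrable (PP j g α) μ := fun g => idf_int (Sy_continuous (PP_mem j g hα)) μ
  have hPP : ∀ g b, Cb 2 1 b g → |∫ p, PP j g α p ∂μ| ≤ 5000 * (j + 1) * b * ∫ p, jet α p ∂μ := by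
    intro g b hg
    rw [← integral_const_mul]
    exact abs_integral_le_integral_abs.trans (integral_mono (hint g).abs
      ((idf_int (continuous_jet hα) μ).const_mul _) fun p => abs_PP_le j hg α p)
  obtain ⟨C2, hC2, p2⟩ := idf_P1 2 j
  have p2' : ∀ g b, Cb K 1 b g → ∀ φ, ‖P1 2 j g φ‖ ≤ C2 * b * ‖φ‖ := fun g b hg φ =>
    idf_b0 (p2 g b 0 (by simp) (hg.mono zero_le_one (by omega) le_rfl le_rfl)) (by simp)
      (by simp) φ
  obtain ⟨DA, hDA, dA, dV, -⟩ := hP.2.2 A α hA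
  obtain ⟨DS, hDS, dS, -⟩ := hP.2.2 _ _ (hA.add hA')
  have nA := idf_b0 (dA 0 (by norm_num) (by norm_num)) (by simp) (by simp)
  have nS := idf_b0 (dS 0 (by norm_num) (by norm_num)) (by simp) (by simp)
  have hav : ∀ᶠ n in 𝒰, ‖XX (ε n • f n) (y n)‖ ≤ C ∧ ‖GG (ε n • FF (ε n) (f n)) (y n)‖ ≤ C := by
    filter_upwards [idf_small hs.lim hδ B] with n h1
    have a1 := (hP.1 _ _ h1.2 (idf_Cb_smul (hs.pos n) (hf n))).2.1 (y n)
    have a2 := (hP.1 _ _ h1.2 (idf_Cb_smul (hs.pos n) (hF n))).2.2.2.2.2.2.2 (idf_FF_ev _ _) (y n)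
    rw [hs.one n, mul_one] at a1 a2
    exact ⟨a1, a2⟩
  set Λ : ℕ → Sm → ℝ := fun n g => inner ℝ (lap g * A (y n)) (y n)
    + inner ℝ (idfM j A (A + A') g (XX (ε n • f n) (y n))) (XX (ε n • f n) (y n))
    + ∫ p, PP j g α p ∂μ with hΛ
  have tΛ : Tendsto (fun n => Λ n (f n)) 𝒰 (𝓝 0) := by
    refine idf_compact (K := K) (B := B) (C := 3 * DA + (DA * C * C + 1 / 2 * (C * (C * (DS * C)))
      + 1 / 2 * (C * (C2 * (DS * C)))) + 5000 * (j + 1) * ∫ p, jet α p ∂μ) Λ ?_ ?_ ?_ hs.bf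
    · intro n g g'
      simp only [hΛ, map_add lap, add_mul, idfM_add, LinearMap.add_apply (idfM _ _ _ g),
        inner_add_left, PP_add_left, Pi.add_apply, integral_add (hint g) (hint g')]
      ring
    · filter_upwards [hav] with n hn g b hg
      have hb := hg.nonneg
      have a0 := nA (y n)
      rw [hs.one n, mul_one] at a0
      have a1 := idf_le _ _ ((norm_mul_le (idf_Cb_lap (k := 0) (hg.mono zero_le_one (by omega)
        le_rfl le_rfl)).abs_le (A (y n))).trans (mul_le_mul_of_nonneg_left a0 (by positivity)))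
        (hs.one n).le
      have a2 := idf_le _ _ ((idf_b0 (dV _ _ hg 0 (by norm_num) (by norm_num)) (by simp)
        (by simp) _).trans (mul_le_mul_of_nonneg_left hn.1 (by positivity))) hn.1
      have a3 := (nS _).trans (mul_le_mul_of_nonneg_left hn.1 hDS)
      have a4 := idf_le _ _ hn.1 ((hP.2.1 g b hg _).trans
        (mul_le_mul_of_nonneg_left a3 (by positivity)))
      have a5 := idf_le _ _ hn.1 ((p2' g b hg _).trans
        (mul_le_mul_of_nonneg_left a3 (by positivity)))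
      have a6 := hPP g b (hg.mono zero_le_one (by omega) le_rfl le_rfl)
      simp only [hΛ, idfM_inner]
      rw [abs_le] at a1 a2 a4 a5 a6 ⊢
      constructor <;> linarith [a1.1, a1.2, a2.1, a2.2, a4.1, a4.2, a5.1, a5.2, a6.1, a6.2]
    · intro g
      have w1 := (Wd.ml (lap g)).comp hA
      have t1 := hs.rep.2.1 _ _ (idf_op_wd hW w1)
      have t2 := idf_rep hK hC hδ hP hW (by omega) hs (idfM_op hW hS j hA hA' g)
      have := (t1.add t2).add_const (∫ p, PP j g α p ∂μ)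
      have e : ∫ p, (px (lap g) * α) p ∂μ + ∫ p, (-(PP j g α + px (lap g) * α)) p ∂μ
          + ∫ p, PP j g α p ∂μ = 0 := by
        simp only [Pi.neg_apply, Pi.add_apply]
        rw [integral_neg, integral_add (hint g) (idf_int (Sy_continuous (hW.1 _ _ w1).2.1) μ)]
        ring
      rw [e] at this
      exact this
  have tt0 : Tendsto (fun n => tt j (ε n) (f n) (y n)
      ((A + A') (GG (ε n • FF (ε n) (f n)) (y n)))) 𝒰 (𝓝 0) := by
    refine squeeze_zero_norm' (a := fun n => |d n| * (DS * C)) ?_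
      (by simpa using hd.abs.mul_const (DS * C))
    filter_upwards [hav] with n hn
    exact (hd' n _).trans (mul_le_mul (le_abs_self _)
      ((nS _).trans (mul_le_mul_of_nonneg_left hn.2 hDS)) (norm_nonneg _) (abs_nonneg _))
  obtain ⟨Ce, he⟩ := idf_eg hK hC hP hA B
  have tR : Tendsto (fun n => (ε n)⁻¹ * (inner ℝ (A (GG (ε n • FF (ε n) (f n)) (y n)))
      (GG (ε n • FF (ε n) (f n)) (y n)) - inner ℝ (A (y n)) (y n))
      + inner ℝ (XX (ε n • FF (ε n) (f n)) (Ri (y n))) (P1 1 j ((2 : ℝ) • R (f n))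
        (R ((A + A') (GG (ε n • FF (ε n) (f n)) (y n))))) + ∫ p, PP j (f n) α p ∂μ
      - (1 / 2 * tt j (ε n) (f n) (y n) ((A + A') (GG (ε n • FF (ε n) (f n)) (y n)))
        + Λ n (f n))) 𝒰 (𝓝 0) := by
    refine idf_lim (C := Ce + Cw * (DA * Cw) + 1 / 2 * (Cw * (C * B * (DS * C)))
      + 1 / 2 * (C * (C * B * (DS * Cw))) + 1 / 2 * (C * (C2 * B * (DS * Cw)))) hs.lim ?_
    filter_upwards [hav, hw', idf_small hs.lim hδ B] with n hn hn' hn''
    have e0 := hs.pos n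
    have a1 := he _ _ _ e0 hn''.2 (hf n) (hs.one n)
    simp only [hΛ, idfM_inner, idf_tt]
    rw [idf_form hadj]
    set a := XX (ε n • f n) (y n)
    set v := GG (ε n • FF (ε n) (f n)) (y n)
    have a2 := idf_le _ _ hn' ((nA _).trans (mul_le_mul_of_nonneg_left hn' hDA))
    have a3 := (nS _).trans (mul_le_mul_of_nonneg_left hn.2 hDS)
    have a4 := (nS _).trans (mul_le_mul_of_nonneg_left hn' hDS)
    have a5 := idf_le _ _ hn' ((hP.2.1 _ B (hf n) _).trans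
      (mul_le_mul_of_nonneg_left a3 (by positivity)))
    have a6 := idf_le _ _ hn.1 ((hP.2.1 _ B (hf n) _).trans
      (mul_le_mul_of_nonneg_left a4 (by positivity)))
    have a7 := idf_le _ _ hn.1 ((p2' _ B (hf n) _).trans
      (mul_le_mul_of_nonneg_left a4 (by positivity)))
    rw [inner_sub_left] at a5
    rw [map_sub, map_sub, inner_sub_right] at a6 a7
    have a8 := mul_le_mul_of_nonneg_left a1 (inv_pos.mpr e0).le
    have a9 := mul_le_mul_of_nonneg_left a2 (inv_pos.mpr e0).le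
    rw [← abs_of_pos (inv_pos.mpr e0), ← abs_mul, abs_of_pos (inv_pos.mpr e0)] at a8 a9
    have e1 : (ε n)⁻¹ * (Ce * ε n ^ 2) = Ce * ε n := by field_simp
    have e2 : (ε n)⁻¹ * (Cw * ε n * (DA * (Cw * ε n))) = Cw * (DA * Cw) * ε n := by field_simp
    rw [e1, mul_sub, ← mul_assoc, inv_mul_cancel₀ e0.ne', one_mul] at a8
    rw [e2] at a9
    rw [div_eq_mul_inv 2 (ε n)]
    rw [abs_le] at a5 a6 a7 a8 a9 ⊢
    constructor <;> linarith [a5.1, a5.2, a6.1, a6.2, a7.1, a7.2, a8.1, a8.2, a9.1, a9.2]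
  have tS := tR.add ((tt0.const_mul (1 / 2)).add tΛ)
  simp only [sub_add_cancel, mul_zero, add_zero] at tS
  filter_upwards [Metric.tendsto_nhds.mp tS θ hθ] with n hn
  rw [Real.dist_eq, sub_zero] at hn
  have a1 := hPP _ η ((hu n).mono zero_le_one (by omega) le_rfl le_rfl)
  have a2 : ∫ p, PP j (f n) α p ∂μ = ∫ p, PP j u α p ∂μ + ∫ p, PP j (f n - u) α p ∂μ := by
    rw [← integral_add (hint _) (hint _)]
    congr 1
    conv_lhs => rw [← add_sub_cancel u (f n), PP_add_left]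
    rfl
  rw [a2] at hn
  rw [abs_le] at a1 ⊢
  rw [abs_lt] at hn
  constructor <;> linarith [a1.1, a1.2, hn.1, hn.2]

end Pool.Agent.Lib.MP_2fa2a2_gt.PI
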