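import Pool.Agent.Lib.MP_2fa2a2_gt.PI.SFm

namespace Pool.Agent.Lib.MP_2fa2a2_gt.PI

open MeasureTheory Filter Topology

theorem ido_inner {φ ψ : Sm} (h1 : φ ∈ Od) (h2 : ψ ∈ Ev) : inner ℝ φ ψ = 0 := by
  rw [inner_def]
  refine I_of_Od ?_
  rw [mem_Od, map_mul, mem_Od.1 h1, mem_Ev.1 h2, neg_mul]

theorem ido_od {z : Sm} (h : ∀ w ∈ Ev, inner ℝ w z = 0) : z ∈ Od := by
  have h1 := h _ (evp_mem z)
  have h2 : inner ℝ (evp z) (odp z) = 0 := by
    rw [real_inner_comm]; exact ido_inner (odp_mem z) (evp_mem z)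
  have h3 : inner ℝ (evp z) (evp z) = 0 := by
    have e : inner ℝ (evp z) (evp z + odp z) = 0 := by rw [evp_add_odp]; exact h1
    rw [inner_add_right, h2, add_zero] at e
    exact e
  have h4 : evp z = 0 := inner_self_eq_zero.1 h3
  have h5 := evp_add_odp z
  rw [h4, zero_add] at h5
  rw [← h5]
  exact odp_mem z

theorem ido_int {μ : Measure Fm} [IsProbabilityMeasure μ] {F : Fm → ℝ} (hF : Continuous F) :
    Integrable F μ :=
  hF.integrable_of_hasCompactSupport (HasCompactSupport.of_compactSpace F)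

theorem ido_PP_add (j : ℕ) (u : Sm) {a b : Fm → ℝ} (ha : a ∈ Sy) (hb : b ∈ Sy) (p : Fm) :
    PP j u (a + b) p = PP j u a p + PP j u b p := by
  simp only [PP, Xl_add u ha hb, Pi.add_apply]
  ring

theorem ido_PP_smul (j : ℕ) (u : Sm) (r : ℝ) (a : Fm → ℝ) (p : Fm) :
    PP j u (r • a) p = r * PP j u a p := by
  simp only [PP, Xl, LL_smul, Pi.smul_apply, smul_eq_mul, mul_add, Finset.mul_sum]
  congr 1
  · exact Finset.sum_congr rfl fun c _ => by ring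
  · ring

theorem ido_jet_add {a b : Fm → ℝ} (ha : a ∈ Sy) (hb : b ∈ Sy) (p : Fm) :
    jet (a + b) p ≤ jet a p + jet b p := by
  have h1 : ∑ c, |LL c (a + b) p| ≤ ∑ c, |LL c a p| + ∑ c, |LL c b p| := by
    rw [← Finset.sum_add_distrib]
    exact Finset.sum_le_sum fun c _ => by rw [LL_add c ha hb]; exact abs_add_le _ _
  have h2 : |(a + b) p| ≤ |a p| + |b p| := abs_add_le _ _
  unfold jet
  linarith

theorem ido_jet_smul (r : ℝ) (a : Fm → ℝ) (p : Fm) : jet (r • a) p = |r| * jet a p := by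
  simp only [jet, LL_smul, Pi.smul_apply, smul_eq_mul, abs_mul, mul_add, Finset.mul_sum]

/-- symbols of words that send even functions to odd functions -/
def IdoW (α : Fm → ℝ) : Prop := ∃ A, Wd A α ∧ ∀ y ∈ Ev, A y ∈ Od

/-- symbols that are limits of such symbols -/
def IdoA (a : Fm → ℝ) : Prop :=
  a ∈ Sy ∧ ∀ η : ℝ, 0 < η → ∃ α, α ∈ Sy ∧ IdoW α ∧ ∀ p, jet (a + (-1 : ℝ) • α) p ≤ η

theorem ido_zero : IdoA 0 := by
  refine ⟨Sy.zero_mem, fun η hη => ⟨(0 : ℝ) • px 1, Sy.smul_mem (px_mem 1) 0,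
    ⟨_, Wd.smul 0 (Wd.ml 1), fun y _ => by rw [zero_smul]; exact Od.zero_mem⟩, fun p => ?_⟩⟩
  rw [zero_add, smul_smul, ido_jet_smul]
  simpa using hη.le

theorem ido_add {a b : Fm → ℝ} (ha : IdoA a) (hb : IdoA b) : IdoA (a + b) := by
  refine ⟨Sy.add_mem ha.1 hb.1, fun η hη => ?_⟩
  obtain ⟨α, h1, ⟨A, hA, hA'⟩, h2⟩ := ha.2 _ (half_pos hη)
  obtain ⟨β, h3, ⟨B, hB, hB'⟩, h4⟩ := hb.2 _ (half_pos hη)
  refine ⟨α + β, Sy.add_mem h1 h3,
    ⟨A + B, hA.add hB, fun y hy => Od.add_mem (hA' y hy) (hB' y hy)⟩, fun p => ?_⟩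
  have e : a + b + (-1 : ℝ) • (α + β) = (a + (-1 : ℝ) • α) + (b + (-1 : ℝ) • β) := by
    rw [smul_add]; abel
  have h5 := ido_jet_add (Sy.add_mem ha.1 (Sy.smul_mem h1 (-1)))
    (Sy.add_mem hb.1 (Sy.smul_mem h3 (-1))) p
  rw [e]
  linarith [h2 p, h4 p]

theorem ido_jet_mul {φ d : Sm} {B e : ℝ} (h1 : Cb 1 1 B φ) (h2 : Cb 1 1 e d) (p : Fm) :
    jet (px φ * pi' d) p ≤ 7 * (B * e) := by
  have a0 : |φ p.x| ≤ B := by simpa using h1 [] (by simp) p.x
  have b0 : |d p.xi| ≤ e := by simpa using h2 [] (by simp) p.xi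
  have a1 : ∀ c, |L c φ p.x| ≤ B := fun c => by simpa using h1 [c] (by simp) p.x
  have b1 : ∀ c, |L c d p.xi| ≤ e := fun c => by simpa using h2 [c] (by simp) p.xi
  have hB : 0 ≤ B := (abs_nonneg _).trans a0
  have k : ∀ {x y : ℝ}, |x| ≤ B → |y| ≤ e → |x * y| ≤ B * e := fun hx hy => by
    rw [abs_mul]; exact mul_le_mul hx hy (abs_nonneg _) hB
  have h3 : ∀ c, |LL c (px φ * pi' d) p| ≤ 2 * (B * e) := fun c => by
    rw [LL_mul c (px_mem φ) (pi'_mem d), LL_px, LL_pi']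
    have := abs_add_le (L c φ p.x * d p.xi) (φ p.x * L c d p.xi)
    have k1 := k (a1 c) b0
    have k2 := k a0 (b1 c)
    change |L c φ p.x * d p.xi + φ p.x * L c d p.xi| ≤ _
    linarith
  have h4 : |(px φ * pi' d) p| ≤ B * e := k a0 b0
  unfold jet
  rw [Fin.sum_univ_three]
  linarith [h3 0, h3 1, h3 2]

theorem ido_near (ψ : Sm) {e : ℝ} (he : 0 < e) : ∃ N, Cb 1 1 e (ψ - Pi N ψ) := by
  obtain ⟨C, hC, h⟩ := sobolev
  obtain ⟨N, hN⟩ := exists_nat_ge (C * nrm 1 5 ψ / e)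
  refine ⟨N, fun w hw x => (h 1 _ w hw x).trans ?_⟩
  have h0 : (0 : ℝ) < (N : ℝ) + 1 := by positivity
  have h1 := nrm_sub_Pi (s := ((1 : ℕ) : ℝ) + 3) (t := 5) (by norm_num) N ψ
  rw [show ((1 : ℕ) : ℝ) + 3 - 5 = -1 by norm_num, Real.rpow_neg_one] at h1
  rw [div_le_iff₀ he] at hN
  have h2 : C * (((N : ℝ) + 1)⁻¹ * nrm 1 5 ψ) ≤ e := by
    rw [mul_left_comm, inv_mul_le_iff₀ h0]
    nlinarith
  rw [one_pow, mul_one, mul_one]
  exact (mul_le_mul_of_nonneg_left h1 hC).trans h2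

theorem ido_mul (hW : WdStmt) {φ ψ : Sm} (h1 : φ ∈ Od) (h2 : ψ ∈ Ev) : IdoA (px φ * pi' ψ) := by
  refine ⟨Sy.mul_mem (px_mem φ) (pi'_mem ψ), fun η hη => ?_⟩
  obtain ⟨B, hB, hφ⟩ := exists_Cb 1 φ
  obtain ⟨N, hN⟩ := ido_near ψ (e := η / (7 * (B + 1))) (by positivity)
  have h3 : Pi N ψ ∈ Ev := by rw [mem_Ev, ← harm_Pi_ant, mem_Ev.1 h2]
  obtain ⟨A, A', hA, -, hy, -⟩ := hW.2.2.2.2.2.1 N _ h3 (Pi_mem N ψ)
  refine ⟨px φ * pi' (Pi N ψ), Sy.mul_mem (px_mem φ) (pi'_mem _),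
    ⟨_, (Wd.ml φ).comp hA, fun y hy' => ?_⟩, fun p => ?_⟩
  · rw [LinearMap.comp_apply, (hy y hy').1]
    change φ * R _ ∈ Od
    rw [mem_Od, map_mul, mem_Od.1 h1, mem_Ev.1 (R_mem_Ev _), neg_mul]
  · have e : px φ * pi' ψ + (-1 : ℝ) • (px φ * pi' (Pi N ψ)) = px φ * pi' (ψ - Pi N ψ) := by
      funext q
      simp only [Pi.add_apply, Pi.smul_apply, Pi.mul_apply, px, pi', Sm.sub_apply, smul_eq_mul]
      ring
    rw [e]
    refine (ido_jet_mul hφ hN p).trans ?_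
    rw [← mul_div_assoc, ← mul_div_assoc, div_le_iff₀ (by positivity)]
    nlinarith

/-- averaging over a symmetry of the measure -/
theorem ido_avg {μ : Measure Fm} [IsProbabilityMeasure μ] {σ : Fm → Fm} (hc : Continuous σ)
    (hσ : ∀ F : Fm → ℝ, Continuous F → ∫ p, F (σ p) ∂μ = ∫ p, F p ∂μ) {a : Fm → ℝ} (ha : a ∈ Sy)
    (h1 : a ∘ σ ∈ Sy) (h2 : ∀ c, LL c (a ∘ σ) = LL c a ∘ σ) {s : ℝ} (hs : |s| = 1) :
    ∫ p, jet ((1 / 2 : ℝ) • (a + s • (a ∘ σ))) p ∂μ ≤ ∫ p, jet a p ∂μ := by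
  have hj := continuous_jet ha
  have h3 : ∀ p, jet ((1 / 2 : ℝ) • (a + s • (a ∘ σ))) p ≤ 1 / 2 * (jet a p + jet a (σ p)) := by
    intro p
    have k := ido_jet_add ha (Sy.smul_mem h1 s) p
    have e : jet (a ∘ σ) p = jet a (σ p) := by simp only [jet, h2, Function.comp_apply]
    rw [ido_jet_smul, hs, one_mul, e] at k
    rw [ido_jet_smul, abs_of_pos (by norm_num : (0 : ℝ) < 1 / 2)]
    linarith
  have h4 : Continuous fun p => jet a (σ p) := hj.comp hc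
  refine (integral_mono (g := fun p => 1 / 2 * (jet a p + jet a (σ p))) (ido_int (continuous_jet
    (Sy.smul_mem (Sy.add_mem ha (Sy.smul_mem h1 s)) _)))
    (ido_int (continuous_const.mul (hj.add h4))) h3).trans ?_
  rw [integral_const_mul, integral_add (ido_int hj) (ido_int h4), hσ _ hj]
  linarith

theorem ido_lin {μ : Measure Fm} [IsProbabilityMeasure μ] (j : ℕ) (u : Sm) {a b : Fm → ℝ}
    (ha : a ∈ Sy) (hb : b ∈ Sy) (r s : ℝ) :
    ∫ p, PP j u (r • (a + s • b)) p ∂μ = r * (∫ p, PP j u a p ∂μ + s * ∫ p, PP j u b p ∂μ) := by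
  simp only [ido_PP_smul, ido_PP_add j u ha (Sy.smul_mem hb s)]
  rw [integral_const_mul, integral_add (ido_int (Sy_continuous (PP_mem j u ha)))
    ((ido_int (Sy_continuous (PP_mem j u hb))).const_mul s), integral_const_mul]

/-- passing to the limit in the symbol -/
theorem ido_lim {μ : Measure Fm} [IsProbabilityMeasure μ] (j : ℕ) (u : Sm) {k : ℝ} (hk : 0 ≤ k)
    (h : ∀ α, IdoW α → |∫ p, PP j u α p ∂μ| ≤ k * ∫ p, jet α p ∂μ) {a : Fm → ℝ} (ha : IdoA a) :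
    |∫ p, PP j u a p ∂μ| ≤ k * ∫ p, jet a p ∂μ := by
  obtain ⟨B, hB, hu⟩ := exists_Cb 2 u
  refine le_of_forall_pos_le_add fun θ hθ => ?_
  set M : ℝ := 5000 * (j + 1) * B with hM
  have hM0 : 0 ≤ M := by positivity
  obtain ⟨α, h1, h2, h3⟩ := ha.2 (θ / (M + k + 1)) (by positivity)
  set η := θ / (M + k + 1) with hη
  have hd := Sy.add_mem ha.1 (Sy.smul_mem h1 (-1))
  set d := a + (-1 : ℝ) • α with hdd
  have e1 : a = (1 : ℝ) • (α + (1 : ℝ) • d) := by rw [hdd]; module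
  have e2 : α = a + (-1 : ℝ) • d := by rw [hdd]; module
  have k1 : ∫ p, PP j u a p ∂μ = ∫ p, PP j u α p ∂μ + ∫ p, PP j u d p ∂μ := by
    have := ido_lin (μ := μ) j u h1 hd 1 1
    rw [← e1] at this
    linarith
  have k2 : |∫ p, PP j u d p ∂μ| ≤ M * η := by
    have := norm_integral_le_of_norm_le_const (μ := μ) (f := fun p => PP j u d p) (C := M * η)
      (Eventually.of_forall fun p => (abs_PP_le j hu d p).trans
        (mul_le_mul_of_nonneg_left (h3 p) hM0))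
    simpa using this
  have k3 : ∫ p, jet α p ∂μ ≤ ∫ p, jet a p ∂μ + η := by
    have hj := continuous_jet ha.1
    have k4 : ∀ p, jet α p ≤ jet a p + η := fun p => by
      have := ido_jet_add ha.1 (Sy.smul_mem hd (-1)) p
      rw [← e2, ido_jet_smul, abs_neg, abs_one, one_mul] at this
      linarith [h3 p]
    refine (integral_mono (g := fun p => jet a p + η) (ido_int (continuous_jet h1))
      (ido_int (hj.add continuous_const)) k4).trans ?_
    rw [integral_add (ido_int hj) (integrable_const _)]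
    simp
  have k5 := h α h2
  have k6 := mul_le_mul_of_nonneg_left k3 hk
  have k7 : (M + k + 1) * η = θ := by rw [hη]; field_simp
  have k8 : 0 < η := by positivity
  rw [k1]
  refine (abs_add_le _ _).trans ?_
  nlinarith

theorem idO (hW : WdStmt) (hF : IdFStmt) : IdOStmt := by
  obtain ⟨K, hK⟩ := hF
  refine ⟨K, fun j => ?_⟩
  obtain ⟨C, hC, h⟩ := hK j
  refine ⟨C, hC, fun B ε f y 𝒰 μ hS u η hu a ha => ?_⟩
  have := hS.prob
  have hη : 0 ≤ η := (hu 0).nonneg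
  have key : ∀ α, IdoW α → |∫ p, PP j u α p ∂μ| ≤ C * η * ∫ p, jet α p ∂μ := by
    rintro α ⟨A, hA, hO⟩
    obtain ⟨A', hA', had⟩ := hW.2.2.1 A α hA
    refine le_of_forall_pos_le_add fun θ hθ => ?_
    obtain ⟨n, hn⟩ := ((h B ε f y 𝒰 μ hS).2 u η hu A A' α hA hA' had θ hθ).exists
    have hv : GG (ε n • FF (ε n) (f n)) (y n) ∈ Ev := R_mem_Ev _
    have h1 : A' (GG (ε n • FF (ε n) (f n)) (y n)) ∈ Od :=
      ido_od fun w hw => by rw [← had]; exact ido_inner (hO w hw) hv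
    rw [ido_inner (hO _ hv) hv, ido_inner (hO _ (hS.ev n)) (hS.ev n), LinearMap.add_apply,
      R_of_Od (Od.add_mem (hO _ hv) h1), map_zero, inner_zero_right] at hn
    simpa using hn
  obtain ⟨m, φ, ψ, e⟩ := Sy_span ha
  have h1 := Sy.smul_mem (Sy.add_mem ha (Sy.smul_mem (ngx_mem ha) (-1))) (1 / 2)
  set a1 := (1 / 2 : ℝ) • (a + (-1 : ℝ) • (a ∘ ngx)) with e1
  have e2 : (1 / 2 : ℝ) • (a1 + (1 : ℝ) • (a1 ∘ ngi)) =
      ∑ i, px (odp (φ i)) * pi' (evp (ψ i)) := by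
    funext p
    have k1 : ∀ (v : Sm) x, odp v x = 1 / 2 * (v x - v (neg x)) := fun v x => by
      rw [← ant_apply]; rfl
    have k2 : ∀ (v : Sm) x, evp v x = 1 / 2 * (v x + v (neg x)) := fun v x => by
      rw [← ant_apply]; rfl
    have k3 : ∀ q : Fm, a q = ∑ i, φ i q.x * ψ i q.xi := fun q => by
      rw [e, Finset.sum_apply]; rfl
    have k4 : ∀ q : Fm, (ngx q).x = neg q.x ∧ (ngx q).xi = q.xi ∧ (ngi q).x = q.x ∧
      (ngi q).xi = neg q.xi := fun q => ⟨rfl, rfl, rfl, rfl⟩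
    simp only [e1, Pi.smul_apply, Pi.add_apply, Function.comp_apply, smul_eq_mul, k3, k4,
      Finset.sum_apply, Pi.mul_apply, px, pi', k1, k2, Finset.mul_sum, ← Finset.sum_add_distrib]
    exact Finset.sum_congr rfl fun i _ => by ring
  have hA : IdoA (∑ i, px (odp (φ i)) * pi' (evp (ψ i))) :=
    Finset.sum_induction _ IdoA (fun _ _ => ido_add) ido_zero
      fun i _ => ido_mul hW (odp_mem _) (evp_mem _)
  have k1 := ido_lim j u (mul_nonneg hC hη) key hA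
  have k2 := ido_avg continuous_ngi hS.rep.2.2.2 h1 (ngi_mem h1) (fun c => LL_ngi c a1) abs_one
  have k3 := ido_avg continuous_ngx hS.rep.2.2.1 ha (ngx_mem ha) (fun c => LL_ngx c a)
    (s := -1) (by simp)
  have k4 : ∫ p, PP j u (a1 ∘ ngi) p ∂μ = ∫ p, PP j u a1 p ∂μ := by
    rw [PP_ngi]; exact hS.rep.2.2.2 _ (Sy_continuous (PP_mem j u h1))
  have k5 : ∫ p, PP j u (a ∘ ngx) p ∂μ = ∫ p, PP j (ant u) a p ∂μ := by
    rw [PP_ngx]; exact hS.rep.2.2.1 _ (Sy_continuous (PP_mem j _ ha))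
  have k6 : ∫ p, PP j (odp u) a p ∂μ =
      1 / 2 * (∫ p, PP j u a p ∂μ + -1 * ∫ p, PP j (ant u) a p ∂μ) := by
    have e3 : odp u = (1 / 2 : ℝ) • (u + (-1 : ℝ) • ant u) := by
      rw [neg_one_smul, ← sub_eq_add_neg]; rfl
    rw [e3, PP_smul_left, PP_add_left, PP_smul_left]
    simp only [Pi.smul_apply, Pi.add_apply, smul_eq_mul]
    rw [integral_const_mul, integral_add (ido_int (Sy_continuous (PP_mem j u ha)))
      ((ido_int (Sy_continuous (PP_mem j _ ha))).const_mul _), integral_const_mul]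
  have k7 := ido_lin (μ := μ) j u ha (ngx_mem ha) (1 / 2) (-1)
  have k8 := ido_lin (μ := μ) j u h1 (ngi_mem h1) (1 / 2) 1
  rw [← e1, k5, ← k6] at k7
  rw [k4, k7] at k8
  rw [← e2, k8] at k1
  rw [← e1] at k3
  have k9 := mul_le_mul_of_nonneg_left (k2.trans k3) (mul_nonneg hC hη)
  rw [show ∀ x : ℝ, 1 / 2 * (x + 1 * x) = x from fun x => by ring] at k1
  exact k1.trans k9

end Pool.Agent.Lib.MP_2fa2a2_gt.PI
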