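import Pool.Agent.Lib.MP_2fa2a2_gt.PI.LocDY

namespace Pool.Agent.Lib.MP_2fa2a2_gt.PI

open Real Filter Set
open scoped ContDiff

theorem locd_geo {d : WD} {k : ℕ} {C0 : ℝ} (hd : d.Ok k C0) (hC : 1 ≤ C0) {z : ℝ}
    (hz : z ∈ Icc d.zl d.zr) : d.τ ≤ d.Γ z ∧ d.Γ z ≤ 2 * d.τ ∧ C0⁻¹ ≤ 1 - z ^ 2 ∧
      0 < 1 - z ^ 2 ∧ 0 < 1 - z ^ 2 - d.Γ z ^ 2 ∧ |deriv d.g z| ≤ C0 := by
  have hτ := hd.geo.τ_pos
  have hτ2 := hd.geo.τ2_pos
  have hl := hd.geo.zl_pos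
  have hr := hd.geo.zr_lt
  have hs := hd.geo.small
  have c1 : 0 < z := hl.trans_le hz.1
  have c2 : z < 1 := hz.2.trans_lt hr
  have a1 : d.τ ≤ d.Γ z := by unfold WG.Γ; nlinarith
  have a2 : d.Γ z ≤ d.τ + d.τ2 := by unfold WG.Γ; nlinarith
  have a3 : 1 - d.zr ^ 2 ≤ 1 - z ^ 2 := by nlinarith [hz.2]
  have a4 : C0⁻¹ ≤ 1 - z ^ 2 := hd.zr_le.trans a3
  have a5 : 0 < 1 - z ^ 2 := by nlinarith
  have a6 : d.Γ z ^ 2 ≤ (d.τ + d.τ2) ^ 2 := pow_le_pow_left₀ (by linarith) a2 2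
  have a7 : 0 < 1 - z ^ 2 - d.Γ z ^ 2 := by linarith
  have a8 : d.Γ z ≤ √(1 - z ^ 2 - d.Γ z ^ 2) := le_sqrt_of_sq_le (by linarith)
  refine ⟨a1, by linarith [hd.τ2_le], a4, a5, a7, ?_⟩
  have a9 := sqrt_pos.2 a7
  rw [hd.geo.g_deriv z hz, abs_of_nonneg (div_nonneg (by linarith) (by positivity)),
    div_le_iff₀ (by positivity), ← mul_assoc]
  have b1 : 1 ≤ C0 * (1 - z ^ 2) := by
    rwa [inv_le_iff_one_le_mul₀' (by linarith)] at a4
  exact a8.trans (le_mul_of_one_le_left a9.le b1)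

theorem locd_core {d : WD} {k : ℕ} {C0 : ℝ} (hd : d.Ok k C0) (h1 : 0 < d.b1) :
    ∃ z0 : ℝ, ∀ᶠ p in locd_F, p.1⁻¹ < z0 ∧ z0 + p.1⁻¹ < 1 ∧
      ∀ x, |X 2 x - z0| ≤ p.1⁻¹ → p.1⁻¹ ≤ Zf d.κ x := by
  obtain ⟨z0, h0⟩ := hd.κ_pos
  have hz : z0 ∈ Icc d.b1 d.b2 := not_not.1 fun h => h0.ne' (hd.κ_supp z0 h)
  obtain ⟨δ, hδ, h2⟩ := Metric.eventually_nhds_iff.1
    (hd.κ_smooth.continuous.continuousAt.eventually (lt_mem_nhds (half_lt_self h0)))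
  have h3 : 0 < 1 - z0 := by linarith [hz.2, hd.o4, hd.geo.zr_lt]
  have h4 : ∀ ε : ℝ, 0 < ε → ∀ᶠ p in locd_F, p.1⁻¹ < ε := fun ε hε =>
    (locd_C (ε⁻¹ + 1)).mono fun p hp => inv_lt_of_inv_lt₀ hε (by linarith)
  refine ⟨z0, ?_⟩
  filter_upwards [h4 z0 (h1.trans_le hz.1), h4 _ h3, h4 δ hδ, h4 _ (half_pos h0)] with p a1 a2 a3 a4
  refine ⟨a1, by linarith, fun x hx => ?_⟩
  rw [Zf_apply hd.κ_smooth]
  exact a4.le.trans (h2 (hx.trans_lt a3)).le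

theorem locd_prim {α : ℝ} {a : ℕ → Sm} (h : SO α a) (hz : ∀ m, Zon (a m)) :
    SO α fun m => prim (a m) := fun k => by
  obtain ⟨C, h⟩ := h k
  obtain ⟨A, -, hA⟩ := Cb_prim k
  exact ⟨A * C, h.mono fun m hm => by rw [mul_assoc]; exact hA (hz m) hm⟩

theorem locd_Zi {m : ℕ} {φ : Sm} (h : φ ∈ Zi m) : odE φ ∈ Zi m ∧ evE φ ∈ Zi m := by
  have h1 : ant φ ∈ Zi m := mem_Zi.2 (by rw [← ant_rotZ, mem_Zi.1 h])
  exact ⟨(Zi m).sub_mem h h1, (Zi m).add_mem h h1⟩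

theorem locd_inv {k m : ℕ} {B B' : ℝ} {φ : Sm} (h : Cb k m B φ) (hB : 2 * B ≤ B') :
    Cb k m (B' / m) (((m : ℝ)⁻¹) • odE φ) ∧ Cb k m (B' / m) (((m : ℝ)⁻¹) • evE φ) := by
  have e : |(m : ℝ)⁻¹| * (B + B) ≤ B' / m := by
    rw [abs_of_nonneg (by positivity), mul_comm, div_eq_mul_inv]
    exact mul_le_mul_of_nonneg_right (by linarith) (by positivity)
  exact ⟨((h.sub h.ant).smul _).mono (Nat.cast_nonneg m) le_rfl le_rfl e,
    ((h.add h.ant).smul _).mono (Nat.cast_nonneg m) le_rfl le_rfl e⟩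

theorem locd_sup {a b : ℝ} {φ : ℝ → ℝ} (h : ∀ z ∉ Icc a b, φ z = 0) (Φ : Pf) :
    Sup a b (sl φ * Φ) := fun z s hz => by
  rw [Pi.mul_apply, sl, h z hz, zero_mul]

theorem locD (hS : SPStmt) : LocDStmt := by
  intro k C0 Cs hC0 hCs
  obtain ⟨Cw, hCw, hw⟩ := locd_sharp k C0
  obtain ⟨Cp, -, hp⟩ := Cb_prim k
  set A0 := ∑ i ∈ Finset.range (k + 1), Cs i with hA0
  have hA : ∀ i ≤ k, Cs i ≤ A0 := fun i hi => Finset.single_le_sum
    (fun j _ => zero_le_one.trans (hCs j)) (Finset.mem_range.2 (Nat.lt_succ_of_le hi))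
  obtain ⟨C', n1, n2, n3, n4, n5, n6⟩ := ((eventually_ge_atTop (4 * C0)).and
    ((eventually_ge_atTop (Cp * (C0 + 1))).and
    ((eventually_ge_atTop (2 * (Cw * (C0 * (4 * π * A0)) + 1 + 1))).and
    ((eventually_ge_atTop (Cw * 1 + 1)).and ((eventually_ge_atTop (Cs 0)).and
    (eventually_ge_atTop (C0 * Cs 1))))))).exists
  have hC0p : 0 < C0 := by linarith
  have hC'p : 0 < C' := by linarith
  have ni : C'⁻¹ ≤ C0⁻¹ / 4 := by
    rw [div_eq_mul_inv, ← mul_inv]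
    exact inv_anti₀ (by positivity) (by linarith)
  have hi0 : 0 < C0⁻¹ := inv_pos.2 hC0p
  refine ⟨C', by linarith, fun d Uh Qh z1 z2 c o1 e1 o2 e2 hd hL hB h1 h2 hF => ?_⟩
  have hg := hd.geo.g_smooth
  have hκ := hd.κ_smooth
  have hzl := hd.geo.zl_pos
  have hzr := hd.geo.zr_lt
  have hτ := hd.geo.τ_pos
  have hb1 : d.zl < d.b1 := by linarith [hd.o1, hd.o2, hd.ρ_ge]
  have hy1 : d.zl < min z1 d.b1 := lt_min h1 hb1
  have hy2 : max z2 d.b2 < d.zr := max_lt h2 hd.o4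
  have hsub : ∀ z ∈ Icc (min z1 d.b1) (max z2 d.b2), z ∈ Icc d.zl d.zr :=
    fun z hz => ⟨hy1.le.trans hz.1, hz.2.trans hy2.le⟩
  have hκ0 : ∀ z ∉ Icc (min z1 d.b1) (max z2 d.b2), d.κ z = 0 := fun z hz =>
    hd.κ_supp z fun h => hz ⟨(min_le_right _ _).trans h.1, h.2.trans (le_max_right _ _)⟩
  have hκx : ∀ x, Zf d.κ x ≠ 0 → (x : E3) 2 ∈ Icc (min z1 d.b1) (max z2 d.b2) := fun x hx =>
    not_not.1 fun h => hx (by rw [Zf_apply hκ, hκ0 _ h])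
  obtain ⟨ζ, hζ, ζ1, ζ2, ζ3⟩ := locd_cut hy1 hy2
  have hκζ : ∀ z, d.κ z * ζ z = d.κ z := fun z => by
    by_cases hz : z ∈ Icc (min z1 d.b1) (max z2 d.b2)
    · rw [(ζ2 z hz).1, mul_one]
    · rw [hκ0 z hz, zero_mul]
  have hom : ∀ z, 0 < d.om z := fun z => hi0.trans_le (hd.om_ge z)
  have hΓ : ContDiff ℝ ∞ d.Γ := by unfold WG.Γ; fun_prop
  have hal : ContDiff ℝ ∞ fun z => d.Γ z / (1 - z ^ 2) * ζ z :=
    locd_smooth isClosed_Icc hζ ζ3 fun z hz =>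
      hΓ.contDiffAt.div (by fun_prop) (locd_geo hd hC0 hz).2.2.2.1.ne'
  have hbe : ContDiff ℝ ∞ fun z => √(1 - z ^ 2 - d.Γ z ^ 2) / (1 - z ^ 2) * ζ z :=
    locd_smooth isClosed_Icc hζ ζ3 fun z hz =>
      (ContDiffAt.sqrt (f := fun z => 1 - z ^ 2 - d.Γ z ^ 2) (by fun_prop)
        (locd_geo hd hC0 hz).2.2.2.2.1.ne').div (by fun_prop) (locd_geo hd hC0 hz).2.2.2.1.ne'
  have hφ : ContDiff ℝ ∞ fun z => (d.om z)⁻¹ * ζ z := (hd.om_smooth.inv fun z => (hom z).ne').mul hζ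
  set al := Zf fun z => d.Γ z / (1 - z ^ 2) * ζ z with hal'
  set be := Zf fun z => √(1 - z ^ 2 - d.Γ z ^ 2) / (1 - z ^ 2) * ζ z with hbe'
  set φ := fun z => (d.om z)⁻¹ * ζ z with hφ'
  have hq : ∀ x : S2, qq x = 1 - (x : E3) 2 ^ 2 := fun x => by rw [zon_qq_apply, sq]
  have eal : ∀ x : S2, (x : E3) 2 ∈ Icc (min z1 d.b1) (max z2 d.b2) →
      al x = d.Γ ((x : E3) 2) / (1 - (x : E3) 2 ^ 2) := fun x hx => by
    rw [hal', Zf_apply hal, (ζ2 _ hx).1, mul_one]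
  have ebe : ∀ x : S2, (x : E3) 2 ∈ Icc (min z1 d.b1) (max z2 d.b2) →
      be x = √(1 - (x : E3) 2 ^ 2 - d.Γ ((x : E3) 2) ^ 2) / (1 - (x : E3) 2 ^ 2) := fun x hx => by
    rw [hbe', Zf_apply hbe, (ζ2 _ hx).1, mul_one]
  have B : locd_Band d.g d.om (min z1 d.b1) (max z2 d.b2) al be := by
    refine ⟨hg, hd.om_smooth, hzl.trans hy1, hy2.trans hzr, fun x hx => ?_, fun x hx => ?_⟩
    · rw [hd.geo.g_deriv _ (hsub _ hx), hd.om_eq _ (hsub _ hx), eal x hx, WG.o0,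
        div_mul_eq_div_div, div_eq_inv_mul]
    · obtain ⟨-, -, -, a1, a2, -⟩ := locd_geo hd hC0 (hsub _ hx)
      have a3 := sqrt_pos.2 a2
      rw [hd.om_eq _ (hsub _ hx), ebe x hx, WG.o0, hq]
      field_simp
  have φ0 : ∀ z ∉ Icc d.zl d.zr, φ z = 0 := fun z hz => by simp only [hφ', ζ3 z hz, mul_zero]
  have φ1 : ∀ z, |φ z| ≤ C0 := fun z => by
    simp only [hφ', abs_mul, abs_of_pos (inv_pos.2 (hom z))]
    exact (mul_le_of_le_one_right (inv_pos.2 (hom z)).le (ζ1 z)).trans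
      (inv_le_of_inv_le₀ hC0p (hd.om_ge z))
  have φ2 : ∀ z, d.κ z * φ z = d.κ z * (d.om z)⁻¹ := fun z => by
    simp only [hφ']
    linear_combination (d.om z)⁻¹ * hκζ z
  have pκ := Per_sl hκ
  have pU := hL.perU.sinv hL.mzU
  have pQ := hL.perQ.sinv hL.mzQ
  have p2 : Per (sl φ * sinv Uh) := (Per_sl hφ).mul pU
  have p3 : Per (sl φ * sinv Qh) := (Per_sl hφ).mul pQ
  have ad : ∀ {Φ : Pf}, Per Φ → Sup d.zl d.zr Φ → Adm d.g Φ :=
    fun h hs => ⟨hg, h, _, _, by linarith, hzr, hs⟩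
  have up : ∀ {α : ℝ} {Φ : ℕ → Pf}, PF z1 z2 α Φ → PF (min z1 d.b1) (max z2 d.b2) α Φ :=
    fun h => h.mono (min_le_left _ _) (le_max_left _ _) le_rfl
  have ad' : ∀ {α : ℝ} {Φ : ℕ → Pf}, PF z1 z2 α Φ → ∀ m, Adm d.g (Φ m) :=
    fun h m => B.adm ((up h).1 m).1 ((up h).1 m).2
  have eo : ∀ m, c.o m = sl d.κ * (sl d.κ * (sl φ * sinv Uh)) + sl d.κ * o1 m + o2 m := fun m => by
    rw [hF.ho, sinv_sl_mul]
    ext p
    simp only [Pi.add_apply, Pi.mul_apply, sl]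
    linear_combination -(d.κ p.1 * sinv Uh p) * φ2 p.1
  have ee : ∀ m, c.e m = sl d.κ * (sl φ * sinv Qh) + sl d.κ * e1 m + e2 m := fun m => by
    rw [hF.he, sinv_sl_mul]
    ext p
    simp only [Pi.add_apply, Pi.mul_apply, sl]
    linear_combination -(sinv Qh p) * φ2 p.1
  have To : locd_T d.om (sl d.κ * (sl d.κ * (sl φ * sinv Uh))) = sl d.κ * (sl d.κ * Uh) := by
    rw [locd_T, ds_sl_mul (pκ.mul p2) hκ, ds_sl_mul p2 hκ, ds_sl_mul pU hφ, ds_sinv hL.perU]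
    ext p
    simp only [Pi.mul_apply, sl]
    linear_combination (d.om p.1 * d.κ p.1 * Uh p) * φ2 p.1
      + d.κ p.1 * d.κ p.1 * Uh p * mul_inv_cancel₀ (hom p.1).ne'
  have Te : locd_T d.om (sl d.κ * (sl φ * sinv Qh)) = sl d.κ * Qh := by
    rw [locd_T, ds_sl_mul p3 hκ, ds_sl_mul pQ hφ, ds_sinv hL.perQ]
    ext p
    simp only [Pi.mul_apply, sl]
    linear_combination (d.om p.1 * Qh p) * φ2 p.1
      + d.κ p.1 * Qh p * mul_inv_cancel₀ (hom p.1).ne'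
  have pκU := pκ.mul hL.perU
  have TTo : locd_T d.om (sl d.κ * (sl d.κ * Uh)) = sl d.om * (sl d.κ * ds (sl d.κ * Uh)) := by
    rw [locd_T, ds_sl_mul pκU hκ]
  have k2 : sl d.κ * (sl φ * sinv Uh) = sl φ * sinv (sl d.κ * Uh) := by
    rw [sinv_sl_mul, mul_left_comm]
  have kb := fun {Φ : Pf} (m : ℕ) (h : Per Φ) (hs : Sup d.zl d.zr Φ) =>
    B.kb hκ hκ0 m h hs hzl hzr
  have up' : ∀ {α : ℝ} {Φ : ℕ → Pf}, PF z1 z2 α Φ → ∀ m, Sup d.zl d.zr (Φ m) :=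
    fun h m => (h.1 m).2.mono h1.le h2.le
  have s2 : Sup d.zl d.zr (sl d.κ * (sl φ * sinv Uh)) := by rw [k2]; exact locd_sup φ0 _
  have gb : ∀ z ∈ Icc d.zl d.zr, C0⁻¹ ≤ 1 - z ^ 2 ∧ |deriv d.g z| ≤ C0 := fun z hz =>
    ⟨(locd_geo hd hC0 hz).2.2.1, (locd_geo hd hC0 hz).2.2.2.2.2⟩
  have pS : ∀ t, Per (sl ζ * locd_sc t) := fun t => (Per_sl hζ).mul (locd_sc_per t)
  have aS : ∀ t, Adm d.g (sl ζ * locd_sc t) := fun t => ad (pS t) (locd_sup ζ3 _)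
  have bS : ∀ t, ∀ᶠ m : ℕ in atTop, Cb k m (Cw * 1 + 1) (Wv d.g m (sl ζ * locd_sc t)) := fun t =>
    hw _ _ _ _ _ hg (pS t) (locd_sup ζ3 _) gb hC0p fun i _ p => by
      rw [locd_iter hζ i (locd_sc_per t), Pi.mul_apply, abs_mul]
      exact mul_le_one₀ (ζ1 _) (abs_nonneg _) (locd_sc_iter i t p)
  have vS : ∀ t (m : ℕ) (x : S2), Wv d.g m (sl ζ * locd_sc t) x =
      ζ ((x : E3) 2) * sin (m * (lon x + d.g ((x : E3) 2)) + t) := fun t m x => Wv_apply m (aS t) x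
  have lS : ∀ t (m : ℕ) (x : S2), |Wv d.g m (sl ζ * locd_sc t) x| ≤ 1 := fun t m x => by
    rw [vS, abs_mul]
    exact mul_le_one₀ (ζ1 _) (abs_nonneg _) (abs_sin_le_one _)
  have dS : ∀ t (m : ℕ) (x : S2), Zf d.κ x ≠ 0 → ∀ b, D b (Wv d.g m (sl ζ * locd_sc t)) x =
      m * Zf d.om x * Wv d.g m (sl ζ * locd_sc (t + π / 2)) x * locd_w al be b x := by
    intro t m x hx b
    rw [B.pt m (aS t) x (hκx x hx), Wv_apply m (aS t).dz, dz_mul (Per_sl hζ) (locd_sc_per t),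
      dz_sl hζ, locd_sc_dz, locd_T, ds_sl_mul (locd_sc_per t) hζ, locd_sc_ds,
      Wv_sl_mul m (aS _) hd.om_smooth]
    simp only [Pi.add_apply, Pi.mul_apply, sl, (ζ2 _ (hκx x hx)).2, Pi.zero_apply, Sm.mul_apply]
    ring
  have mzκU : Mz (sl d.κ * Uh) := fun z => by rw [mean_sl_mul, hL.mzU z, mul_zero]
  have b2 := hw _ _ _ _ _ hg ((Per_sl hφ).mul (pκU.sinv mzκU)) (locd_sup φ0 _) gb hC0p
    (locd_lead hφ φ1 pκU mzκU fun i hi p => (hB.1 i p).1.trans (hA i hi))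
  have b3 := hw _ _ _ _ _ hg p3 (locd_sup φ0 _) gb hC0p
    (locd_lead hφ φ1 hL.perQ hL.mzQ fun i hi p => (hB.1 i p).2.trans (hA i hi))
  obtain ⟨Θ, hΘ, hSP⟩ := hS d.toWG hd.geo
  obtain ⟨W, N, r1, r2, r3, r4⟩ := locd_R hd.geo hΘ hSP h1 h2 hF.ok.e_ord hF.ok.e_mean
  obtain ⟨ze, r5⟩ := locd_R_bd hτ k r1 r2 r3 r4
  obtain ⟨z0, hcore⟩ := locd_core hd (hzl.trans hb1)
  have fo := B.fam hκ hd.κ_nonneg (pκ.mul (pκ.mul p2)) (locd_sup hκ0 _) (up hF.o1_ord)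
    (up hF.o2_ord) (up hF.ok.o_ord) eo (locd_prim hF.ok.a_ord hF.ok.a_zon)
  have fe := B.fam hκ hd.κ_nonneg (pκ.mul p3) (locd_sup hκ0 _) (up hF.e1_ord)
    (up hF.e2_ord) (up hF.ok.e_ord) ee (SO.const 0)
  rw [To, TTo] at fo
  rw [Te] at fe
  have f2 : FO (0 + 1) fun m : ℕ => ((m : ℝ)⁻¹) • odE (Wv d.g m (sl φ * sinv Uh)) :=
    (locd_odE ((PF.const p2 (locd_sup φ0 _)).FO hg (by linarith) hzr)).inv
  refine locd_out (P := fun p => ∃ ld : LD, ld.fo + ld.fe = c.f d.toWG p.2 ∧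
    ∀ k' ≤ k, Loc k' C' d.τ p.1 p.2 ld) ?_
  filter_upwards [r5, hcore, fo, fe, locd_const k (Zf d.κ), locd_const k al, locd_const k be,
    locd_const k (Zf d.om), locd_const 1 ze, locd_FO f2 k,
    locd_FO (locd_odE (B.fo (up hF.o1_ord))).inv k, locd_FO (locd_odE (B.fo (up hF.o2_ord))).inv k,
    locd_FO (locd_evE (B.fo (up hF.e2_ord))).inv k, locd_m b2, locd_m b3, locd_m (bS 0),
    locd_m (bS (0 + π / 2)), locd_m (locd_FO_small (B.fo (up hF.e1_ord)) (by norm_num) k),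
    locd_m (locd_SO_small hF.ha one_pos k (ε := C0⁻¹ / 4) (by positivity))]
  rintro ⟨C1, m⟩ r5 hcore fo fe c1 c2 c3 c4 c5 c6 c7 c8 c9 b2 b3 b4 b5 b6 b7
  dsimp only at r5 hcore fo fe c1 c2 c3 c4 c5 c6 c7 c8 c9 b2 b3 b4 b5 b6 b7 ⊢
  set ld : LD :=
    { κ := Zf d.κ, a := c.a m, G := prim (c.a m)
      w2 := ((m : ℝ)⁻¹) • odE (Wv d.g m (sl φ * sinv Uh))
      w1 := ((m : ℝ)⁻¹) • odE (Wv d.g m (o1 m)), w0 := ((m : ℝ)⁻¹) • odE (Wv d.g m (o2 m))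
      w3 := ((m : ℝ)⁻¹) • evE (Wv d.g m (sl φ * sinv Qh + e1 m))
      w4 := ((m : ℝ)⁻¹) • evE (Wv d.g m (e2 m))
      al := al, be := be, om := Zf d.om, sn := Wv d.g m (sl ζ * locd_sc 0)
      cs := Wv d.g m (sl ζ * locd_sc (0 + π / 2)), ze := ze
      ut := Wv d.g m (sl d.κ * (sl d.κ * Uh)), qe := Wv d.g m (sl d.κ * Qh)
      mu := fun x => m * Wv d.g m (sl d.om * (sl d.κ * ds (sl d.κ * Uh))) x, z0 := z0 } with hld
  have a3 := ad p3 (locd_sup φ0 _)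
  have hfo : ld.fo = prim (c.a m) + ((m : ℝ)⁻¹) • odE (Wv d.g m (c.o m)) := by
    have e1 := (kb m p2 (locd_sup φ0 _)).1
    have e2 := (kb m (pκ.mul p2) s2).1
    have e3 := (kb m (hF.o1_ord.1 m).1 (up' hF.o1_ord m)).1
    have a1 := (ad (pκ.mul p2) s2).per_mul pκ
    have a2 := (ad' hF.o1_ord m).per_mul pκ
    show prim (c.a m) + (Zf d.κ + ant (Zf d.κ)) * (Zf d.κ + ant (Zf d.κ)) * (_ • _)
      + (Zf d.κ + ant (Zf d.κ)) * (_ • _) + _ • _ = _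
    rw [mul_assoc, mul_smul_comm, mul_smul_comm, mul_smul_comm, e1, e2, e3, eo, Wv_add m (a1.add a2) (ad' hF.o2_ord m), Wv_add m a1 a2]
    simp only [odE, map_add, smul_add, smul_sub]
    ring
  have hfe : ld.fe = ((m : ℝ)⁻¹) • evE (Wv d.g m (c.e m)) := by
    have e1 := (kb m (p3.add (hF.e1_ord.1 m).1) fun z s hz => by
      rw [Pi.add_apply, locd_sup φ0 _ z s hz, up' hF.e1_ord m z s hz, add_zero]).2
    have a2 := (a3.add (ad' hF.e1_ord m)).per_mul pκ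
    show (Zf d.κ + ant (Zf d.κ)) * (_ • _) + _ • _ = _
    rw [mul_smul_comm, e1, ee, ← mul_add, Wv_add m a2 (ad' hF.e2_ord m)]
    simp only [evE, map_add, smul_add]
    ring
  have so := B.south m ((up hF.ok.o_ord).1 m).1 ((up hF.ok.o_ord).1 m).2
  have se := B.south m ((up hF.ok.e_ord).1 m).1 ((up hF.ok.e_ord).1 m).2
  have ha : Cb k 1 (C0 + 1) (c.a m) := by
    have := hd.a0_Cb.add b7
    rw [add_sub_cancel] at this
    exact this.mono zero_le_one le_rfl le_rfl (by linarith [inv_le_one_of_one_le₀ hC0])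
  have ha' : ∀ x, |c.a m x - d.a0 x| ≤ C0⁻¹ / 4 := b7.abs_le
  have aU := B.adm (pκ.mul pκU) (locd_sup hκ0 _)
  have aQ := B.adm (pκ.mul hL.perQ) (locd_sup hκ0 _)
  have aM := (B.adm (pκ.mul pκU.ds) (locd_sup hκ0 _)).per_mul (Per_sl hd.om_smooth)
  have vsn : ∀ x, Zf d.κ x ≠ 0 → Wv d.g m (sl ζ * locd_sc 0) x =
      sin (m * (lon x + d.g ((x : E3) 2))) := fun x hx => by
    rw [vS, (ζ2 _ (hκx x hx)).1, one_mul, add_zero]
  refine ⟨ld, by rw [hfo, hfe, Cf.f], fun k' hk' => locd_mono (k := k) ?_ hk'⟩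
  rw [zero_add, rpow_neg_one, ← div_eq_mul_inv] at c6
  rw [locd_p3, ← div_eq_mul_inv] at c7
  rw [locd_p4, ← div_eq_mul_inv] at c8 c9
  exact
  { fo_odd := hfo ▸ Od.add_mem (prim_odd (hF.ok.a_even m)) (Od.smul_mem _ (odE_mem _))
    fe_even := hfe ▸ Ev.smul_mem _ (evE_mem _)
    fo_inv := hfo ▸ (Zi m).add_mem ((prim_zon (hF.ok.a_zon m)).mem_Zi m)
      ((Zi m).smul_mem _ (locd_Zi (Wv_mem_Zi m (ad' hF.ok.o_ord m))).1)
    fe_inv := hfe ▸ (Zi m).smul_mem _ (locd_Zi (Wv_mem_Zi m (ad' hF.ok.e_ord m))).2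
    κ_zon := Zon_Zf _
    κ_nonneg := fun x => (hd.κ_nonneg _).trans_eq (Zf_apply hκ x).symm
    κ_le := fun x => (Zf_apply hκ x).trans_le ((hd.κ_le _).trans (by linarith))
    κ_Cb := c1
    κ_supp := fun x hx => by
      have h := hsub _ (hκx x hx)
      rw [hq, X_apply]
      exact ⟨by linarith [hd.zl_ge, h.1], by linarith [(gb _ h).1]⟩
    core := hcore
    a_zon := hF.ok.a_zon m
    a_even := hF.ok.a_even m
    a_ge := fun x => by
      show _ ≤ c.a m x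
      linarith [(abs_le.1 (ha' x)).1, hd.a0_ge x]
    a_Cb := ha.mono zero_le_one le_rfl le_rfl (by linarith)
    G_zon := prim_zon (hF.ok.a_zon m)
    G_odd := prim_odd (hF.ok.a_even m)
    G_Cb := (hp (hF.ok.a_zon m) ha).mono zero_le_one le_rfl le_rfl n2
    G_grad := D_prim (hF.ok.a_zon m)
    w2_Cb := c6
    w2_Cb' := by
      show Cb k m _ ((Zf d.κ + ant (Zf d.κ)) * (_ • _))
      rw [mul_smul_comm, (kb m p2 (locd_sup φ0 _)).1, k2]
      exact (locd_inv b2 (by linarith)).1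
    w1_Cb := c7
    w0_Cb := c8
    w0_supp := fun x hx => by
      have h : ∀ y : S2, qq y < C'⁻¹ → Wv d.g m (o2 m) y = 0 := fun y hy =>
        B.off m ((up hF.o2_ord).1 m).1 ((up hF.o2_ord).1 m).2 y fun h => by
          rw [hq] at hy
          linarith [(gb _ (hsub _ h)).1]
      show _ * (Wv d.g m (o2 m) x - ant (Wv d.g m (o2 m)) x) = 0
      rw [ant_apply, h x hx, h (neg x) (by rwa [hq, neg_coe, PiLp.neg_apply, neg_sq, ← hq]), sub_zero,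
        mul_zero]
    w3_Cb := by
      show Cb k m _ (_ • evE (Wv d.g m (_ + _)))
      rw [Wv_add m a3 (ad' hF.e1_ord m)]
      exact (locd_inv (b3.add b6) n3).2
    w4_Cb := c9
    al_zon := Zon_Zf _
    be_zon := Zon_Zf _
    om_zon := Zon_Zf _
    al_Cb := c2
    be_Cb := c3
    om_Cb := c4
    om_ge := fun x => le_of_le_of_eq (by linarith [hd.om_ge ((x : E3) 2)])
      (Zf_apply hd.om_smooth x).symm
    om_le := fun x => (Zf_apply hd.om_smooth x).trans_le ((hd.om_le _).trans (by linarith))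
    unit := fun x hx => by
      obtain ⟨-, -, -, a1, a2, -⟩ := locd_geo hd hC0 (hsub _ (hκx x hx))
      show (al x ^ 2 + be x ^ 2) * qq x = 1
      rw [eal x (hκx x hx), ebe x (hκx x hx), hq, div_pow, div_pow, sq_sqrt a2.le]
      field_simp
      ring
    al_le := fun x hx => by
      obtain ⟨a1, a2, a3, a4, -⟩ := locd_geo hd hC0 (hsub _ (hκx x hx))
      show |al x| ≤ _
      rw [eal x (hκx x hx), abs_of_nonneg (div_nonneg (by linarith) a4.le), div_le_iff₀ a4]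
      rw [inv_le_iff_one_le_mul₀' hC0p] at a3
      nlinarith [mul_le_mul_of_nonneg_right n1 (mul_pos hτ a4).le, mul_le_mul_of_nonneg_left a3 hτ.le]
    om_be := fun x hx => by
      have := B.hbe x (hκx x hx)
      rwa [← Zf_apply hd.om_smooth] at this
    sn_inv := Wv_mem_Zi m (aS _)
    cs_inv := Wv_mem_Zi m (aS _)
    sn_Cb := b4.mono (Nat.cast_nonneg m) le_rfl le_rfl n4
    cs_Cb := b5.mono (Nat.cast_nonneg m) le_rfl le_rfl n4
    sn_le := lS _ m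
    cs_le := lS _ m
    pyth := fun x hx => by
      show Wv d.g m (sl ζ * locd_sc _) x ^ 2 + Wv d.g m (sl ζ * locd_sc _) x ^ 2 = 1
      simp only [vS, (ζ2 _ (hκx x hx)).1, one_mul, zero_add, add_zero, sin_add_pi_div_two,
        sin_sq_add_cos_sq]
    D_sn := fun x hx b => dS 0 m x hx b
    D_cs := fun x hx b => by
      refine (dS _ m x hx b).trans ?_
      show _ = -(_ * Zf d.om x * Wv d.g m (sl ζ * locd_sc _) x * locd_w al be b x)
      simp only [vS, zero_add, add_zero, add_halves, sin_add_pi]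
      ring
    sn_rot := fun x hx => ⟨m * (lon x + d.g ((x : E3) 2)), fun θ => by
      refine (Wv_rotZ m (aS 0) x θ).trans ?_
      simp only [Pi.mul_apply, sl, locd_sc, (ζ2 _ (hκx x hx)).1, one_mul, add_zero]⟩
    ut_le := fun x => by
      show |Wv d.g m _ x| ≤ _ * Zf d.κ x
      rw [Wv_apply m aU, Zf_apply hκ, Pi.mul_apply, abs_mul, sl, abs_of_nonneg (hd.κ_nonneg _), mul_comm]
      exact mul_le_mul_of_nonneg_right ((hB.1 0 _).1.trans n5) (hd.κ_nonneg _)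
    grad_o := fun x hx b => by
      refine le_of_eq_of_le (congrArg _ ?_) ((fo x).1 b)
      rw [hfo, map_add, D_prim (hF.ok.a_zon m), map_smul, map_smul, odE, map_sub]
      simp only [Sm.add_apply, Sm.smul_apply, Sm.sub_apply, Sm.mul_apply, (so x hx).1 b]
      show _ - c.a m x * _ - Wv d.g m _ x * locd_w al be b x = _
      ring
    u_ge := fun x hx hs => by
      have h := hsub _ (hκx x hx)
      obtain ⟨a1, -, -, a4, -⟩ := locd_geo hd hC0 h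
      have e1 := (hB.2 ((x : E3) 2, m * (lon x + d.g ((x : E3) 2)))).2.2 (vsn x hx ▸ hs)
      rw [hL.hU, mul_assoc, Pi.add_apply, ← Wv_apply m aU, sl, hd.p_eq _ h,
        ← hd.a0_zon.eq_az] at e1
      have e2 : al x * qq x = d.Γ ((x : E3) 2) := by
        rw [eal x (hκx x hx), hq, div_mul_cancel₀ _ a4.ne']
      show _ ≤ c.a m x * al x * qq x + Wv d.g m _ x
      rw [mul_assoc, e2, div_eq_mul_inv]
      have e3 := (abs_le.1 (ha' x)).1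
      have e4 := hd.a0_ge x
      have e5 := mul_le_mul a1 ni (inv_pos.2 hC'p).le (by linarith)
      have e6 : 0 ≤ d.Γ ((x : E3) 2) * (c.a m x - d.a0 x / 2 - C0⁻¹ / 4) :=
        mul_nonneg (by linarith) (by linarith)
      dsimp only at e1
      linarith
    grad_e := fun x hx b => by
      refine le_of_eq_of_le (congrArg _ ?_) ((fe x).1 b)
      rw [hfe, map_smul, map_smul, evE, map_add]
      simp only [Sm.add_apply, Sm.smul_apply, (se x hx).1 b, add_zero]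
      rfl
    qe_le := fun x => by
      show |Wv d.g m _ x| ≤ _ * Zf d.κ x * |Wv d.g m _ x|
      by_cases hx : Zf d.κ x = 0
      · rw [Wv_apply m aQ, Pi.mul_apply, sl, ← Zf_apply hκ, hx, zero_mul, mul_zero, zero_mul,
          abs_zero]
      · rw [vsn x hx, Wv_apply m aQ, Zf_apply hκ, Pi.mul_apply, abs_mul, sl,
          abs_of_nonneg (hd.κ_nonneg _), mul_comm C', mul_assoc]
        exact mul_le_mul_of_nonneg_left ((hB.2 _).2.1.trans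
          (mul_le_mul_of_nonneg_right n5 (abs_nonneg _))) (hd.κ_nonneg _)
    qe_ge := fun x => by
      show Zf d.κ x * Wv d.g m _ x ^ 2 / _ ≤ Wv d.g m _ x * Wv d.g m _ x
      by_cases hx : Zf d.κ x = 0
      · rw [Wv_apply m aQ, Pi.mul_apply, sl, ← Zf_apply hκ, hx, zero_mul, zero_mul, zero_mul,
          zero_div]
      · rw [vsn x hx, Wv_apply m aQ, Zf_apply hκ, Pi.mul_apply, sl, mul_div_assoc, mul_assoc]
        exact mul_le_mul_of_nonneg_left ((div_le_div_of_nonneg_left (sq_nonneg _)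
          (by linarith [hCs 0]) n5).trans
          (hB.2 ((x : E3) 2, m * (lon x + d.g ((x : E3) 2)))).1) (hd.κ_nonneg _)
    mu_le := fun x => by
      show |(m : ℝ) * Wv d.g m _ x| ≤ _ * _ * Zf d.κ x
      rw [Wv_apply m aM, Zf_apply hκ, Pi.mul_apply, Pi.mul_apply, abs_mul, abs_mul, abs_mul, sl,
        sl, Nat.abs_cast, abs_of_nonneg (hd.κ_nonneg _), abs_of_pos (hom _), mul_comm C', mul_assoc]
      refine mul_le_mul_of_nonneg_left ?_ (Nat.cast_nonneg m)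
      rw [mul_left_comm, mul_comm C']
      exact mul_le_mul_of_nonneg_left ((mul_le_mul (hd.om_le _) (hB.1 1 _).1 (abs_nonneg _)
        hC0p.le).trans n6) (hd.κ_nonneg _)
    hess_o := fun x hx b b' => by
      refine le_of_eq_of_le (congrArg _ ?_) ((fo x).2 b b')
      rw [hfo, map_add, map_add, map_smul, map_smul, odE, map_sub]
      simp only [Sm.add_apply, Sm.smul_apply, Sm.sub_apply, (so x hx).2 b b', sub_zero]
      rfl
    R_Cb := hfe ▸ r5.1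
    ze_Cb := c5
    R_off := hfe ▸ r5.2 }

end Pool.Agent.Lib.MP_2fa2a2_gt.PI
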