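import Pool.Agent.Lib.MP_2fa2a2_gt.PI.SChain
import Pool.Agent.Lib.MP_2fa2a2_gt.PI.Prod

namespace Pool.Agent.Lib.MP_2fa2a2_gt.PI

/-- the Sobolev norm as a seminorm -/
noncomputable def lowN (s : ℝ) : Seminorm ℝ Sm := (normSeminorm ℝ Sm).comp (fn (wt 1 s))

theorem lowN_apply (s : ℝ) (φ : Sm) : lowN s φ = nrm 1 s φ := rfl

theorem low_pow {h N Y : ℝ} (n : ℕ) (hh : 0 ≤ h) (h1 : h ≤ 1) (hN : 0 ≤ N) (H : N ≤ Y) :
    h ^ n * N ≤ Y :=
  (mul_le_of_le_one_left hN (pow_le_one₀ hh h1)).trans H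

theorem low_nine {s Y : ℝ} {T : Fin 3 → Fin 3 → Sm} (h : ∀ b c, nrm 1 s (T b c) ≤ Y) :
    nrm 1 s (∑ b, ∑ c, T b c) ≤ 9 * Y := by
  refine (nrm_sum_le _ _ _ _).trans ((Finset.sum_le_sum fun b _ => (nrm_sum_le _ _ _ _).trans
    (Finset.sum_le_sum fun c _ => h b c)).trans_eq ?_)
  simp only [Fin.sum_univ_three]
  ring

theorem low_prod : ∃ C, 0 ≤ C ∧ ∀ (m m' : ℕ) (σ : ℝ) (v w : List (Fin 3)) (f g : Sm),
    σ = 0 ∨ σ = 1 / 2 → v.length + 1 ≤ m → w.length + 1 ≤ m' → v.length + w.length + 8 ≤ m + m' →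
    nrm 1 (σ + 1) (Lw v f * Lw w g) ≤ C * nrm 1 (σ + m) f * nrm 1 (σ + m') g := by
  obtain ⟨C, hC, H⟩ := prodx_mul 1
  refine ⟨C, hC, fun m m' σ v w f g hσ h1 h2 h3 => ?_⟩
  obtain ⟨a, rfl⟩ : ∃ a, m = a + v.length := ⟨m - v.length, by omega⟩
  obtain ⟨b, rfl⟩ : ∃ b, m' = b + w.length := ⟨m' - w.length, by omega⟩
  have := H a b σ (Lw v f) (Lw w g) (by omega) (by omega) (by omega) hσ
  rw [Nat.cast_one] at this
  refine this.trans ?_
  rw [Nat.cast_add, Nat.cast_add, ← add_assoc, ← add_assoc]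
  exact mul_le_mul (mul_le_mul_of_nonneg_left (nrm_Lw le_rfl _ _ _) hC) (nrm_Lw le_rfl _ _ _)
    (nrm_nonneg _ _ _) (mul_nonneg hC (nrm_nonneg _ _ _))

theorem low_prod' : ∃ C, 0 ≤ C ∧ ∀ (j : ℕ) (σ : ℝ) (v w : List (Fin 3)) (f g : Sm),
    σ = 0 ∨ σ = 1 / 2 → v.length + 1 ≤ 2 * j → w.length + 1 ≤ 2 * j →
    v.length + w.length + 8 ≤ 4 * j →
    nrm 1 (σ + 1) (Lw v f * Lw w g) ≤ C * nrm 1 (σ + 2 * j) f * nrm 1 (σ + 2 * j) g := by
  obtain ⟨C, hC, H⟩ := low_prod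
  refine ⟨C, hC, fun j σ v w f g hσ h1 h2 h3 => ?_⟩
  have := H (2 * j) (2 * j) σ v w f g hσ h1 h2 (by omega)
  rwa [Nat.cast_mul, Nat.cast_two] at this

theorem low_A (j : ℕ) (hj : 4 ≤ j) : ∃ C, 0 ≤ C ∧ ∀ (h σ : ℝ) (u v : Sm), 0 ≤ h → h ≤ 1 →
    σ = 0 ∨ σ = 1 / 2 → nrm 1 (σ + 1) (DD h j (u * v) - u * DD h j v - DD h j u * v)
      ≤ C * nrm 1 (σ + 2 * j) u * nrm 1 (σ + 2 * j) v := by
  obtain ⟨C, hC, H⟩ := low_prod'
  obtain ⟨C1, hC1, H1⟩ := leib2 j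
  refine ⟨C1 * C + C, by positivity, fun h σ u v hh h1 hσ => ?_⟩
  have hu := nrm_nonneg 1 (σ + 2 * j) u
  have hv := nrm_nonneg 1 (σ + 2 * j) v
  have h2 := H1 (M := L) (b := LinearMap.mul ℝ Sm) (lowN (σ + 1)) (h := h) (f := u) (g := v)
    (Y := C * nrm 1 (σ + 2 * j) u * nrm 1 (σ + 2 * j) v) (fun c f g => L_mul c f g) hh
    (by positivity) fun a b ha hb hab => by
      have := List.length_pos_iff.2 ha
      have := List.length_pos_iff.2 hb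
      exact low_pow _ hh h1 (nrm_nonneg _ _ _) (H j σ a b u v hσ (by omega) (by omega) (by omega))
  have h3 := H j σ [] [] u v hσ (by simp; omega) (by simp; omega) (by simp; omega)
  rw [DG_L, lowN_apply] at h2
  simp only [LinearMap.mul_apply', Lw_nil] at h2 h3
  have h4 := nrm_sub_le 1 (σ + 1) (DD h j (u * v) - u * DD h j v - DD h j u * v + u * v) (u * v)
  rw [add_sub_cancel_right] at h4
  linarith

/-- the gradient form as a bilinear map -/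
noncomputable def lowG : Sm →ₗ[ℝ] Sm →ₗ[ℝ] Sm :=
  LinearMap.mk₂ ℝ gd tau_gd_add tau_gd_smul (fun k f g => tau_gd_add' f g k)
    fun c k f => tau_gd_smul' c f k

theorem lowG_apply (f g : Sm) : lowG f g = gd f g := rfl

/-- the pairing of second derivatives -/
noncomputable def lowQ (f g : Sm) : Sm := ∑ b, ∑ c, L b (L c f) * L b (L c g)

theorem lowQ_eq (f g : Sm) : ∑ c, gd (L c f) (L c g) = lowQ f g := by
  rw [lowQ, Finset.sum_comm]
  rfl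

theorem lowQ_comm (f g : Sm) : lowQ f g = lowQ g f := by
  simp only [lowQ, mul_comm]

theorem lowQ_lin (f g g' : Sm) (r r' : ℝ) :
    lowQ f (r • g - r' • g') = r • lowQ f g - r' • lowQ f g' := by
  simp only [lowQ, map_sub, map_smul, mul_sub, mul_smul_comm, Finset.sum_sub_distrib,
    Finset.smul_sum]

theorem low_B (j : ℕ) (hj : 5 ≤ j) : ∃ C, 0 ≤ C ∧ ∀ (h σ : ℝ) (u v : Sm), 0 ≤ h → h ≤ 1 →
    σ = 0 ∨ σ = 1 / 2 → nrm 1 (σ + 1) (DD h j (gd u v) - gd u (DD h j v) - gd v (DD h j u)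
      + (2 * j * h ^ 2) • (lowQ u (DD h (j - 1) v) + lowQ v (DD h (j - 1) u)))
      ≤ C * nrm 1 (σ + 2 * j) u * nrm 1 (σ + 2 * j) v := by
  obtain ⟨C, hC, H⟩ := low_prod'
  obtain ⟨C1, hC1, H1⟩ := leib3 j (by omega)
  refine ⟨C1 * (3 * C), by positivity, fun h σ u v hh h1 hσ => ?_⟩
  have h2 := H1 (M := L) (b := lowG) (lowN (σ + 1)) (h := h) (f := u) (g := v)
    (Y := 3 * (C * nrm 1 (σ + 2 * j) u * nrm 1 (σ + 2 * j) v)) (fun c f g => L_gd c f g) hh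
    fun a b ha hb hab => by
      refine low_pow _ hh h1 (nrm_nonneg _ _ _) ?_
      rw [lowN_apply, lowG_apply, gd]
      refine (nrm_sum_le _ _ _ _).trans
        ((Finset.sum_le_sum fun c _ => H j σ (c :: a) (c :: b) u v hσ ?_ ?_ ?_).trans_eq ?_)
      · rw [List.length_cons]; omega
      · rw [List.length_cons]; omega
      · rw [List.length_cons, List.length_cons]; omega
      · simp only [Fin.sum_univ_three]
        ring
  rw [DG_L, lowN_apply] at h2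
  simp only [lowG_apply, Finset.sum_add_distrib, lowQ_eq] at h2
  rw [gd_comm v, lowQ_comm v]
  linarith

theorem low_Sh (h : ℝ) (i : ℕ) (φ : Sm) :
    Sh 1 (DD h (i + 1) φ) = h ^ 2 • DD h i φ - (h ^ 2 - 1) • Sh 1 (DD h i φ) := by
  have h1 := Sh_spec' 1 (DD h i φ)
  rw [one_pow, one_smul, map_sub] at h1
  rw [leib_DD_succ, map_sub, map_smul, show Sh 1 (lap (DD h i φ)) = Sh 1 (DD h i φ) - DD h i φ by
    rw [eq_sub_iff_add_eq, add_comm, ← eq_sub_iff_add_eq, h1]]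
  module

theorem low_C : ∃ C, 0 ≤ C ∧ ∀ (i : ℕ) (h σ : ℝ) (u v : Sm), 3 ≤ i → 0 ≤ h → h ≤ 1 →
    σ = 0 ∨ σ = 1 / 2 → nrm 1 (σ + 1) (lowQ u (Sh 1 (DD h i v)))
      ≤ C * nrm 1 (σ + 2 * (i + 1 : ℕ)) u * nrm 1 (σ + 2 * (i + 1 : ℕ)) v := by
  obtain ⟨C, hC, H⟩ := low_prod
  refine ⟨9 * C, by positivity, fun i h σ u v hi hh h1 hσ => ?_⟩
  have h2 : nrm 1 (σ + (4 : ℕ)) (Sh 1 (DD h i v)) ≤ nrm 1 (σ + 2 * (i + 1 : ℕ)) v := by
    have h3 := Bd_Sh_one (σ + 2) (DD h i v)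
    have h4 := Bd_DD hh h1 i (σ + 2) v
    rw [show σ + ((4 : ℕ) : ℝ) = σ + 2 + 2 by push_cast; ring,
      show σ + 2 * ((i + 1 : ℕ) : ℝ) = σ + 2 + 2 * i by push_cast; ring]
    linarith
  refine (low_nine (Y := C * nrm 1 (σ + 2 * (i + 1 : ℕ)) u * nrm 1 (σ + 2 * (i + 1 : ℕ)) v)
    fun b c => ?_).trans_eq (by ring)
  have h3 := H (2 * (i + 1)) 4 σ [b, c] [b, c] u (Sh 1 (DD h i v)) hσ (by simp; omega) (by simp)
    (by simp; omega)
  rw [Nat.cast_mul, Nat.cast_two] at h3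
  exact h3.trans (mul_le_mul_of_nonneg_left h2 (mul_nonneg hC (nrm_nonneg _ _ _)))

theorem low_P1 (k : ℝ) (j : ℕ) (f φ : Sm) :
    P1 k j f φ = (k * (k - 1)) • (f * φ) + (2 * j * k) • lowQ f (Sh 1 φ) := by
  simp only [P1, Tm, lowQ, LinearMap.sub_apply, LinearMap.smul_apply, LinearMap.sum_apply,
    LinearMap.comp_apply, LinearMap.neg_apply, LinearMap.mulLeft_apply, mul_neg,
    Finset.sum_neg_distrib, smul_neg, sub_neg_eq_add]

theorem low_one (j : ℕ) (hj : 5 ≤ j) : ∃ C, 0 ≤ C ∧ ∀ (h k σ : ℝ) (u v : Sm), 0 ≤ h → h ≤ 1 →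
    k = 1 ∨ k = 2 → σ = 0 ∨ σ = 1 / 2 →
    nrm 1 (σ + 1) (Br k h j u v - (1 / 2 : ℝ) • (P1 k j u (DD h j v) + P1 k j v (DD h j u)))
      ≤ C * nrm 1 (σ + 2 * j) u * nrm 1 (σ + 2 * j) v := by
  obtain ⟨CA, hA, HA⟩ := low_A j (by omega)
  obtain ⟨CB, hB, HB⟩ := low_B j hj
  obtain ⟨CC, hC, HC⟩ := low_C
  obtain ⟨i, rfl⟩ : ∃ i, j = i + 1 := ⟨j - 1, by omega⟩
  refine ⟨CA + CB + 2 * (i + 1 : ℕ) * (2 * CC), by positivity, fun h k σ u v hh h1 hk hσ => ?_⟩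
  have a1 := HA h σ u v hh h1 hσ
  have a2 := HB h σ u v hh h1 hσ
  have a3 := HC i h σ u v (by omega) hh h1 hσ
  have a4 := HC i h σ v u (by omega) hh h1 hσ
  rw [Nat.add_sub_cancel] at a2
  have e : Br k h (i + 1) u v
      - (1 / 2 : ℝ) • (P1 k (i + 1) u (DD h (i + 1) v) + P1 k (i + 1) v (DD h (i + 1) u))
      = (k * (k - 1) / 2) • (DD h (i + 1) (u * v) - u * DD h (i + 1) v - DD h (i + 1) u * v)
        - (k / 2) • (DD h (i + 1) (gd u v) - gd u (DD h (i + 1) v) - gd v (DD h (i + 1) u)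
          + (2 * (i + 1 : ℕ) * h ^ 2) • (lowQ u (DD h i v) + lowQ v (DD h i u)))
        + ((i + 1 : ℕ) * (k * (h ^ 2 - 1))) •
          (lowQ u (Sh 1 (DD h i v)) + lowQ v (Sh 1 (DD h i u))) := by
    rw [Br, low_P1, low_P1, low_Sh, low_Sh, lowQ_lin, lowQ_lin, map_sub, map_smul, map_smul,
      mul_comm v (DD h (i + 1) u)]
    module
  have hj0 : (0 : ℝ) ≤ (i + 1 : ℕ) := Nat.cast_nonneg _
  have b1 : |k * (k - 1) / 2| ≤ 1 := by rcases hk with rfl | rfl <;> norm_num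
  have b2 : |k / 2| ≤ 1 := by rcases hk with rfl | rfl <;> norm_num [abs_le]
  have b3 : |((i + 1 : ℕ) : ℝ) * (k * (h ^ 2 - 1))| ≤ 2 * ((i + 1 : ℕ) : ℝ) := by
    rw [abs_mul, abs_of_nonneg hj0, mul_comm]
    refine mul_le_mul_of_nonneg_right ?_ hj0
    have := pow_le_one₀ (n := 2) hh h1
    have := sq_nonneg h
    rcases hk with rfl | rfl <;> rw [abs_le] <;> constructor <;> linarith
  rw [e]
  refine (nrm_add_le _ _ _ _).trans ((add_le_add (nrm_sub_le _ _ _ _) le_rfl).trans ?_)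
  rw [nrm_smul, nrm_smul, nrm_smul]
  have c1 := (mul_le_of_le_one_left (nrm_nonneg _ _ _) b1).trans a1
  have c2 := (mul_le_of_le_one_left (nrm_nonneg _ _ _) b2).trans a2
  have c3 := mul_le_mul b3 ((nrm_add_le _ _ _ _).trans (add_le_add a3 a4)) (nrm_nonneg _ _ _)
    (by positivity)
  linarith

theorem low_unif {p : ℤ → ℝ → Prop} (h : ∀ n, ∃ C, 0 ≤ C ∧ p n C)
    (hm : ∀ n C C', 0 ≤ C → C ≤ C' → p n C → p n C') (N : ℤ) :
    ∃ C, 0 ≤ C ∧ ∀ n, |n| ≤ N → p n C := by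
  choose c c0 hc using h
  refine ⟨∑ n ∈ Finset.Icc (-N) N, c n, Finset.sum_nonneg fun n _ => c0 n, fun n hn => ?_⟩
  exact hm n _ _ (c0 n) (Finset.single_le_sum (fun m _ => c0 m)
    (Finset.mem_Icc.2 (abs_le.1 hn))) (hc n)

theorem low_CbH {B : ℝ} {f : Sm} (h : Cb 6 1 B f) (a b : Fin 3) : Cb 4 1 (3072 * B) (H a b f) := by
  have h1 := (h.D le_rfl b).add ((Cb_X le_rfl 5 b).mul zero_le_one
    (h.mono zero_le_one (by norm_num) le_rfl le_rfl))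
  rw [H_def]
  exact (h1.D le_rfl a).mono zero_le_one le_rfl le_rfl (le_of_eq (by ring))

theorem low_Qf : ∃ C, 0 ≤ C ∧ ∀ (n : ℤ) (B : ℝ) (f : Sm), |n| ≤ 8 → Cb 6 1 B f →
    Bd 1 (n / 2 + 2) (n / 2) (C * B) (Qf f) := by
  obtain ⟨C1, h1, H1⟩ := Bd_ml 4
  obtain ⟨C2, h2, H2⟩ := low_unif (p := fun n C => ∀ a b, Bd 1 (n / 2 + 2) (n / 2) C (H a b))
    (fun n => (Bd_H n).imp fun C hC => ⟨hC.1, fun a b => (hC.2 a b le_rfl).1⟩)
    (fun n C C' c0 c1 hp a b => (hp a b).mono le_rfl c0 le_rfl le_rfl c1) 8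
  refine ⟨9 * (C1 * 3072 * C2), by positivity, fun n B f hn hf g => ?_⟩
  have hB := hf.nonneg
  have h3 : ∀ a b c d, nrm 1 (n / 2) (H a b f * H c d g)
      ≤ C1 * (3072 * B) * (C2 * nrm 1 (n / 2 + 2) g) := fun a b c d =>
    (H1 n le_rfl (low_CbH hf a b) (by exact_mod_cast hn) (H c d g)).trans
      (mul_le_mul_of_nonneg_left (H2 n hn c d g) (by positivity))
  rw [Qf_def, nrm_smul, ← H_trace, ← H_trace, Finset.sum_mul_sum, abs_of_pos one_half_pos]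
  have h4 := nrm_sub_le 1 (n / 2) (∑ a, ∑ b, H a a f * H b b g) (∑ a, ∑ b, H a b f * H a b g)
  have h5 := low_nine fun a b => h3 a a b b
  have h6 := low_nine fun a b => h3 a b a b
  linarith

theorem low_DpQf : ∃ C, 0 ≤ C ∧ ∀ f g : Sm,
    nrm 1 1 (Dp (Qf f g)) ≤ C * nrm 1 9 f * nrm 1 1 g := by
  obtain ⟨C1, h1, H1⟩ := low_Qf
  obtain ⟨C2, h2, H2⟩ := sobolev
  refine ⟨2 * (C1 * C2), by positivity, fun f g => ?_⟩
  have h3 := H1 (-2) _ f (by norm_num) (H2 6 f) g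
  have h4 := Bd_Dp (-1) (Qf f g)
  norm_num at h3 h4
  linarith

theorem low_two (j : ℕ) (hj : 9 ≤ j) : ∃ C, 0 ≤ C ∧ ∀ (h : ℝ) (u v : Sm), 0 ≤ h → h ≤ 1 →
    nrm 1 1 (DD h j ((2 : ℝ) • Dp (Qf u v))
        - (1 / 2 : ℝ) • (Bop u (DD h j v) + Bop v (DD h j u)))
        ≤ C * nrm 1 (2 * j) u * nrm 1 (2 * j) v := by
  obtain ⟨C, hC, H⟩ := low_DpQf
  obtain ⟨C1, hC1, H1⟩ := leib2 j
  refine ⟨2 * (C1 * C + C), by positivity, fun h u v hh h1 => ?_⟩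
  have hu := nrm_nonneg 1 (2 * j) u
  have hv := nrm_nonneg 1 (2 * j) v
  have h0 : ∀ (s : ℕ) (a : List (Fin 3)) (f : Sm), s + a.length ≤ 2 * j →
      nrm 1 s (Lw a f) ≤ nrm 1 (2 * j) f := fun s a f ha =>
    (nrm_Lw le_rfl _ _ _).trans (nrm_mono le_rfl (by exact_mod_cast ha) f)
  have key : ∀ (a b : List (Fin 3)) (f g : Sm), a.length ≤ j → b.length + 1 ≤ 2 * j →
      nrm 1 1 (Dp (Qf (Lw a f) (Lw b g))) ≤ C * nrm 1 (2 * j) f * nrm 1 (2 * j) g :=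
    fun a b f g ha hb => (H _ _).trans (mul_le_mul (mul_le_mul_of_nonneg_left
      (by exact_mod_cast h0 9 a f (by omega)) hC) (by exact_mod_cast h0 1 b g (by omega))
      (nrm_nonneg _ _ _) (mul_nonneg hC (nrm_nonneg _ _ _)))
  have h2 := H1 (M := L) (b := Qf.compr₂ Dp) (lowN 1) (h := h) (f := u) (g := v)
    (Y := C * nrm 1 (2 * j) u * nrm 1 (2 * j) v) (fun c f g => by
      simp only [LinearMap.compr₂_apply]
      rw [← tau_Dp_L, L_Qf, map_add]) hh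
    (by positivity) fun a b ha hb hab => by
      have := List.length_pos_iff.2 ha
      have := List.length_pos_iff.2 hb
      refine low_pow _ hh h1 (nrm_nonneg _ _ _) ?_
      rw [lowN_apply, LinearMap.compr₂_apply]
      rcases le_total a.length j with h3 | h3
      · exact key a b u v h3 (by omega)
      · rw [Qf_comm, mul_right_comm]
        exact key b a v u (by omega) (by omega)
  have h3 := key [] [] u v (by simp) (by simp; omega)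
  rw [DG_L, lowN_apply] at h2
  simp only [LinearMap.compr₂_apply, Lw_nil] at h2 h3
  have e : DD h j ((2 : ℝ) • Dp (Qf u v)) - (1 / 2 : ℝ) • (Bop u (DD h j v) + Bop v (DD h j u))
      = (2 : ℝ) • (DD h j (Dp (Qf u v)) - Dp (Qf u (DD h j v)) - Dp (Qf (DD h j u) v)
        + Dp (Qf u v) - Dp (Qf u v)) := by
    simp only [Bop, LinearMap.smul_apply, LinearMap.comp_apply, map_smul]
    rw [Qf_comm v]
    module
  rw [e, nrm_smul, abs_two]
  have h4 := nrm_sub_le 1 1 (DD h j (Dp (Qf u v)) - Dp (Qf u (DD h j v)) - Dp (Qf (DD h j u) v)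
    + Dp (Qf u v)) (Dp (Qf u v))
  linarith

theorem low_three (j : ℕ) : ∃ C, 0 ≤ C ∧ ∀ (k : ℝ) (u : Sm) (b : ℝ) (n : ℤ), k = 1 ∨ k = 2 →
    |n| ≤ 4 → Cb 8 1 b u →
    Bd 1 (n / 2) (n / 2) (C * b) (P1 k j u) ∧ Bd 1 (n / 2) (n / 2) (C * b) (Bop u) := by
  obtain ⟨C1, h1, H1⟩ := Bd_ml 2
  obtain ⟨C2, h2, H2⟩ := low_Qf
  refine ⟨2 * C1 + 4 * j * (9 * C1) + 8 * C2, by positivity, fun k u b n hk hn hu => ?_⟩
  have hb := hu.nonneg
  have hj : (0 : ℝ) ≤ j := Nat.cast_nonneg _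
  refine ⟨fun φ => ?_, fun φ => ?_⟩
  · have hφ := nrm_nonneg 1 (n / 2) φ
    have a1 : nrm 1 (n / 2) (u * φ) ≤ C1 * b * nrm 1 (n / 2) φ :=
      H1 n le_rfl (hu.mono zero_le_one (by norm_num) le_rfl le_rfl) (by exact_mod_cast hn) φ
    have a2 : nrm 1 (n / 2) (lowQ u (Sh 1 φ)) ≤ 9 * (C1 * b * nrm 1 (n / 2) φ) := by
      refine low_nine fun c d => ?_
      have a3 : Cb 2 1 b (L c (L d u)) := by
        have := (Cb.L (Cb.L (hu.mono (k' := 2 + 1 + 1) zero_le_one (by norm_num) le_rfl le_rfl) d) c)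
        rwa [mul_one, mul_one] at this
      refine (H1 n le_rfl a3 (by exact_mod_cast hn) _).trans
        (mul_le_mul_of_nonneg_left ?_ (by positivity))
      have a4 := Bd_Sh_one (n / 2) φ
      rw [one_mul, show (n : ℝ) / 2 + 2 = n / 2 + 1 + 1 by ring] at a4
      exact (nrm_L le_rfl _ _ _).trans ((nrm_L le_rfl _ _ _).trans a4)
    have b1 : |k * (k - 1)| ≤ 2 := by rcases hk with rfl | rfl <;> norm_num
    have b2 : |2 * j * k| ≤ 4 * j := by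
      rcases hk with rfl | rfl <;> rw [abs_le] <;> constructor <;> linarith
    rw [low_P1]
    refine (nrm_add_le _ _ _ _).trans ?_
    rw [nrm_smul, nrm_smul]
    have c1 := mul_le_mul b1 a1 (nrm_nonneg _ _ _) zero_le_two
    have c2 := mul_le_mul b2 a2 (nrm_nonneg _ _ _) (by positivity)
    have c3 : 0 ≤ C2 * b * nrm 1 (n / 2) φ := by positivity
    linarith
  · have hφ := nrm_nonneg 1 (n / 2) φ
    have a1 := H2 (n - 4) b u (by rw [abs_le] at hn ⊢; omega)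
      (hu.mono zero_le_one (by norm_num) le_rfl le_rfl) φ
    have a2 := Bd_Dp (((n - 4 : ℤ) : ℝ) / 2) (Qf u φ)
    rw [show ((n - 4 : ℤ) : ℝ) / 2 + 2 = n / 2 by push_cast; ring] at a1 a2
    rw [Bop, LinearMap.smul_apply, LinearMap.comp_apply, nrm_smul, abs_of_pos four_pos]
    have c1 : 0 ≤ C1 * b * nrm 1 (n / 2) φ := by positivity
    have c2 : 0 ≤ j * (C1 * b * nrm 1 (n / 2) φ) := by positivity
    linarith

theorem low : LowStmt := by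
  refine ⟨9, fun j hj h hh h1 => ?_⟩
  obtain ⟨C1, c1, H1⟩ := low_one j (by omega)
  obtain ⟨C2, c2, H2⟩ := low_two j hj
  obtain ⟨C3, c3, H3⟩ := low_three j
  have m : ∀ {C x y : ℝ}, C ≤ C1 + C2 + C3 → 0 ≤ x → 0 ≤ y → C * x * y ≤ (C1 + C2 + C3) * x * y :=
    fun h hx hy => mul_le_mul_of_nonneg_right (mul_le_mul_of_nonneg_right h hx) hy
  refine ⟨C1 + C2 + C3, by positivity, fun k σ u v hk hσ => ?_, fun u v => ?_,
    fun k u b n hk hn hu => ?_⟩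
  · exact (H1 h k σ u v hh.le h1 hk hσ).trans
      (m (by linarith) (nrm_nonneg _ _ _) (nrm_nonneg _ _ _))
  · exact (H2 h u v hh.le h1).trans (m (by linarith) (nrm_nonneg _ _ _) (nrm_nonneg _ _ _))
  · have hb := hu.nonneg
    obtain ⟨a1, a2⟩ := H3 k u b n hk hn hu
    have a3 : C3 * b ≤ (C1 + C2 + C3) * b := mul_le_mul_of_nonneg_right (by linarith) hb
    exact ⟨a1.mono le_rfl (by positivity) le_rfl le_rfl a3,
      a2.mono le_rfl (by positivity) le_rfl le_rfl a3⟩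

end Pool.Agent.Lib.MP_2fa2a2_gt.PI
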