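import Mathlib

/-! The weight function of the Lyapunov estimate. -/

namespace Pool.Agent.Lib.MP_2fa2a2_gt.PI

open Real
open scoped ContDiff

theorem lyax_s0 {y : ℝ} (h : y ≤ 0) : deriv smoothTransition y = 0 :=
  IsLocalMin.deriv_eq_zero (Filter.Eventually.of_forall fun t => by
    rw [smoothTransition.zero_of_nonpos h]
    exact smoothTransition.nonneg t)

theorem lyax_s1 {y : ℝ} (h : 1 ≤ y) : deriv smoothTransition y = 0 :=
  IsLocalMax.deriv_eq_zero (Filter.Eventually.of_forall fun t => by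
    rw [smoothTransition.one_of_one_le h]
    exact smoothTransition.le_one t)

theorem lyax_bd : ∃ M : ℝ, 1 ≤ M ∧ ∀ y, 0 ≤ deriv smoothTransition y ∧
    deriv smoothTransition y ≤ M := by
  have hc : Continuous (deriv smoothTransition) :=
    (smoothTransition.contDiff (n := 1)).continuous_deriv le_rfl
  obtain ⟨M, hM⟩ := (isCompact_Icc (a := (0 : ℝ)) (b := 1)).exists_bound_of_continuousOn
    hc.continuousOn
  refine ⟨max M 1, le_max_right _ _, fun y => ⟨smoothTransition.monotone.deriv_nonneg, ?_⟩⟩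
  rcases le_total y 0 with h | h
  · rw [lyax_s0 h]; positivity
  rcases le_total 1 y with h' | h'
  · rw [lyax_s1 h']; positivity
  exact ((le_abs_self _).trans (hM y ⟨h, h'⟩)).trans (le_max_left _ _)

theorem lyax_fun {lam K : ℝ} (hl : 1 ≤ lam) (hK : 0 ≤ K) : ∃ M : ℝ, 1 ≤ M ∧
    ∀ T1 T3 N : ℝ, 0 ≤ T3 → 0 ≤ N → ∃ g w : ℝ → ℝ, ContDiff ℝ ∞ g ∧ Continuous w ∧
      ∀ z, |z| ≤ 1 → 0 < w z ∧ w z ≤ exp K ∧ |g z| ≤ w z ∧ |deriv g z| ≤ M * (1 + N) * w z ∧
        (z ^ 2 ≤ T3 → exp (-K) ≤ w z ∧ |deriv g z| ≤ M * w z) ∧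
        (z ^ 2 ≤ T1 → z ^ 2 ≤ T3 → g z = -(z * w z) ∧ deriv g z = -(1 + 2 * K * z ^ 2) * w z) ∧
        (T1 + lam⁻¹ ≤ z ^ 2 → g z = z * w z ∧ ∃ e, 0 ≤ e ∧ (T3 + lam⁻¹ ≤ z ^ 2 → 1 ≤ e) ∧
          deriv g z = (1 - 2 * K * z ^ 2 - 2 * N * z ^ 2 * e) * w z) := by
  obtain ⟨M, hM, hs⟩ := lyax_bd
  have hl0 : 0 < lam := by linarith
  refine ⟨1 + 4 * lam * M * (1 + K) + 2 * K + 2 * lam * (1 + lam * M), by
    have : 0 ≤ 4 * lam * M * (1 + K) + 2 * K + 2 * lam * (1 + lam * M) := by positivity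
    linarith, fun T1 T3 N h3 hN => ?_⟩
  let σ : ℝ → ℝ := fun z => 2 * smoothTransition (lam * (z ^ 2 - T1)) - 1
  let ξ : ℝ → ℝ := fun z => lam * (z ^ 2 - T3) * smoothTransition (lam * (z ^ 2 - T3))
  let w : ℝ → ℝ := fun z => exp (-(σ z * K * z ^ 2) - N * ξ z)
  have hst : ∀ T : ℝ, ContDiff ℝ ∞ fun z : ℝ => smoothTransition (lam * (z ^ 2 - T)) := fun T =>
    smoothTransition.contDiff.comp (by fun_prop)
  have hσ : ContDiff ℝ ∞ σ := (contDiff_const.mul (hst T1)).sub contDiff_const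
  have hξ : ContDiff ℝ ∞ ξ := ContDiff.mul (by fun_prop) (hst T3)
  have hw : ContDiff ℝ ∞ w :=
    (((hσ.mul contDiff_const).mul (by fun_prop)).neg.sub (contDiff_const.mul hξ)).exp
  refine ⟨fun z => z * σ z * w z, w, (contDiff_id.mul hσ).mul hw, hw.continuous, fun z hz => ?_⟩
  have d0 : ∀ T : ℝ, HasDerivAt (fun z : ℝ => lam * (z ^ 2 - T)) (lam * (2 * z)) z := fun T => by
    simpa using ((hasDerivAt_pow 2 z).sub_const T).const_mul lam
  have d1 : ∀ T : ℝ, HasDerivAt (fun z : ℝ => smoothTransition (lam * (z ^ 2 - T)))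
      (deriv smoothTransition (lam * (z ^ 2 - T)) * (lam * (2 * z))) z := fun T =>
    ((smoothTransition.contDiffAt (n := 1)).differentiableAt (by simp)).hasDerivAt.comp z (d0 T)
  set s' := deriv smoothTransition (lam * (z ^ 2 - T1)) with hs'
  set y := lam * (z ^ 2 - T3) with hy
  set e := lam * (smoothTransition y + y * deriv smoothTransition y) with he
  have dσ : HasDerivAt σ (2 * (s' * (lam * (2 * z)))) z := ((d1 T1).const_mul 2).sub_const 1
  have dξ : HasDerivAt ξ (2 * z * e) z := by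
    refine ((d0 T3).mul (d1 T3)).congr_deriv ?_
    rw [he, ← hy]
    ring
  have dw := ((((dσ.mul_const K).mul (hasDerivAt_pow 2 z)).neg.sub (dξ.const_mul N))).exp
  have dg : deriv (fun z => z * σ z * w z) z = (σ z + 4 * lam * z ^ 2 * s' * (1 - σ z * K * z ^ 2)
      - 2 * K * σ z ^ 2 * z ^ 2 - 2 * N * z ^ 2 * σ z * e) * w z := by
    refine (((hasDerivAt_id z).mul dσ).mul dw).deriv.trans ?_
    simp only [w, id, Pi.mul_apply, Pi.sub_apply, Pi.neg_apply]
    push_cast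
    ring
  have hT : z ^ 2 ≤ 1 := by rwa [sq_le_one_iff_abs_le_one]
  have hT0 : 0 ≤ z ^ 2 := sq_nonneg z
  have aσ : |σ z| ≤ 1 := abs_le.2 ⟨by
      have := smoothTransition.nonneg (lam * (z ^ 2 - T1))
      simp only [σ]; linarith, by
      have := smoothTransition.le_one (lam * (z ^ 2 - T1))
      simp only [σ]; linarith⟩
  have aK : |σ z * K * z ^ 2| ≤ K := by
    rw [abs_mul, abs_mul, abs_of_nonneg hK, abs_of_nonneg hT0]
    calc _ ≤ 1 * K * 1 := by gcongr
      _ = K := by ring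
  have y0 : y ≤ 0 → e = 0 ∧ ξ z = 0 := fun h => by
    simp only [he, ξ, ← hy, smoothTransition.zero_of_nonpos h, lyax_s0 h]
    simp
  have e0 : 0 ≤ e ∧ 0 ≤ ξ z := by
    rcases le_total y 0 with h | h
    · rw [(y0 h).1, (y0 h).2]; simp
    · have := (hs y).1
      have := smoothTransition.nonneg y
      exact ⟨by positivity, mul_nonneg h this⟩
  have e1 : e ≤ lam * (1 + lam * M) := by
    refine mul_le_mul_of_nonneg_left (add_le_add (smoothTransition.le_one y) ?_) hl0.le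
    have h1 : y ≤ lam := by rw [hy]; nlinarith
    exact (mul_le_mul_of_nonneg_right h1 (hs y).1).trans
      (mul_le_mul_of_nonneg_left (hs y).2 hl0.le)
  have w0 : 0 < w z := exp_pos _
  have b1 : |σ z + 4 * lam * z ^ 2 * s' * (1 - σ z * K * z ^ 2) - 2 * K * σ z ^ 2 * z ^ 2| ≤
      1 + 4 * lam * M * (1 + K) + 2 * K := by
    refine (abs_sub _ _).trans (add_le_add ((abs_add_le _ _).trans (add_le_add aσ ?_)) ?_)
    · have h1 : 0 ≤ s' := (hs _).1
      have h3 : s' ≤ M := (hs _).2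
      have h2 : |1 - σ z * K * z ^ 2| ≤ 1 + K := (abs_sub _ _).trans (by rw [abs_one]; linarith)
      rw [abs_mul, abs_of_nonneg (a := 4 * lam * z ^ 2 * s') (by positivity)]
      calc _ ≤ 4 * lam * 1 * M * (1 + K) := by gcongr
        _ = _ := by ring
    · have h1 : σ z ^ 2 ≤ 1 := by rwa [sq_le_one_iff_abs_le_one]
      rw [abs_of_nonneg (by positivity)]
      calc _ ≤ 2 * K * 1 * 1 := by gcongr
        _ = _ := by ring
  have b2 : |2 * N * z ^ 2 * σ z * e| ≤ 2 * lam * (1 + lam * M) * N := by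
    rw [abs_mul, abs_mul, abs_of_nonneg e0.1, abs_of_nonneg (a := 2 * N * z ^ 2) (by positivity)]
    have := e0.1
    calc _ ≤ 2 * N * 1 * 1 * (lam * (1 + lam * M)) := by gcongr
      _ = _ := by ring
  have p1 : 0 ≤ 4 * lam * M * (1 + K) := by positivity
  have p2 : 0 ≤ 2 * lam * (1 + lam * M) := by positivity
  refine ⟨w0, exp_le_exp.2 ?_, ?_, ?_, fun h => ?_, fun h h' => ?_, fun h => ?_⟩
  · have := mul_nonneg hN e0.2
    linarith [(abs_le.1 aK).1]
  · rw [abs_mul, abs_mul, abs_of_pos w0]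
    calc _ ≤ 1 * 1 * w z := by gcongr
      _ = _ := by ring
  · rw [dg, abs_mul, abs_of_pos w0]
    refine mul_le_mul_of_nonneg_right ((abs_sub _ _).trans ?_) w0.le
    nlinarith [mul_nonneg hN p1, mul_nonneg hN hK]
  · obtain ⟨h1, h2⟩ := y0 (mul_nonpos_of_nonneg_of_nonpos hl0.le (by linarith))
    refine ⟨exp_le_exp.2 ?_, ?_⟩
    · rw [h2]
      linarith [(abs_le.1 aK).2]
    · rw [dg, h1, mul_zero, sub_zero, abs_mul, abs_of_pos w0]
      exact mul_le_mul_of_nonneg_right (by linarith) w0.le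
  · have h1 : lam * (z ^ 2 - T1) ≤ 0 := mul_nonpos_of_nonneg_of_nonpos hl0.le (by linarith)
    have h2 : σ z = -1 := by simp only [σ, smoothTransition.zero_of_nonpos h1]; ring
    rw [dg, (y0 (mul_nonpos_of_nonneg_of_nonpos hl0.le (by linarith))).1, hs', lyax_s0 h1, h2]
    exact ⟨by simp only [h2]; ring, by ring⟩
  · have k : ∀ T, T + lam⁻¹ ≤ z ^ 2 → 1 ≤ lam * (z ^ 2 - T) := fun T hT => by
      rw [← mul_inv_cancel₀ hl0.ne']
      exact mul_le_mul_of_nonneg_left (by linarith) hl0.le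
    have h2 : σ z = 1 := by simp only [σ, smoothTransition.one_of_one_le (k T1 h)]; ring
    refine ⟨by simp only [h2]; ring, e, e0.1, fun h' => ?_, ?_⟩
    · rw [he, smoothTransition.one_of_one_le (k T3 h'), lyax_s1 (k T3 h')]
      linarith
    · rw [dg, hs', lyax_s1 (k T1 h), h2]
      ring

end Pool.Agent.Lib.MP_2fa2a2_gt.PI
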