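import Pool.Agent.Lib.MP_2fa2a2_gt.PI.SZone
import Pool.Agent.Lib.MP_2fa2a2_gt.PI.Vf
import Pool.Agent.Lib.MP_2fa2a2_gt.PI.LyaX

namespace Pool.Agent.Lib.MP_2fa2a2_gt.PI

open MeasureTheory
open scoped ContDiff

theorem lya_H {G al : Sm} (hG : ∀ c, D c G = al * D c (X 2)) (a b : Fin 3) :
    H a b G = D a al * D b (X 2) + (kd a b - X a * X b) * (G - al * X 2) := by
  have h := H_X a b 2
  rw [hess_expand] at h
  rw [hess_expand, hG b, hG a, D_mul]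
  linear_combination al * h

theorem lya_lap {G al : Sm} (hG : ∀ c, D c G = al * D c (X 2)) :
    lap G = D 2 al - 2 * X 2 * al := by
  have h1 := lap_X 2
  have h2 := gd_X 2 al
  rw [gd_eq_D, Fin.sum_univ_three] at h2
  rw [lap_eq_D, Fin.sum_univ_three] at h1 ⊢
  simp only [hG, D_mul]
  linear_combination h2 + al * h1

theorem lya_Sxx {G al : Sm} (hG : ∀ c, D c G = al * D c (X 2)) (p : Fm) :
    Sxx G p = (∑ b, (p.xi : E3) b * D b al p.x) * (p.xi : E3) 2 - (p.x : E3) 2 * al p.x := by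
  have hY := fm_ii p
  have hZ := fm_xi p
  simp only [Sxx, lya_H hG, D_X, Sm.add_apply, Sm.mul_apply, Sm.sub_apply, X_apply,
    Fin.sum_univ_three]
  simp [kd]
  linear_combination (G p.x - al p.x * (p.x : E3) 2) * hY
    - ((G p.x - al p.x * (p.x : E3) 2) * ((p.x : E3) 0 * (p.xi : E3) 0
      + (p.x : E3) 1 * (p.xi : E3) 1 + (p.x : E3) 2 * (p.xi : E3) 2)
      + ((p.xi : E3) 0 * D 0 al p.x + (p.xi : E3) 1 * D 1 al p.x + (p.xi : E3) 2 * D 2 al p.x)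
        * (p.x : E3) 2) * hZ

theorem lya_PP (j : ℕ) {G al : Sm} (fw : Sm) (hG : ∀ c, D c G = al * D c (X 2)) {g : ℝ → ℝ}
    (hg : ContDiff ℝ ∞ g) (p : Fm) : PP j (G + fw) (px (Zf g)) p =
      (al p.x * qq p.x + D 2 fw p.x) * deriv g ((p.x : E3) 2) + (-(4 * j * (p.x : E3) 2 * al p.x)
        + (D 2 al p.x + (4 * j - 2) * ((∑ b, (p.xi : E3) b * D b al p.x) * (p.xi : E3) 2))
        + (lap fw p.x + (4 * j - 2) * Sxx fw p)) * g ((p.x : E3) 2) := by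
  have hd : ContDiff ℝ ∞ (deriv g) := (contDiff_infty_iff_deriv.1 hg).2
  have e : ∀ u : Sm, gd u (Zf g) = Zf (deriv g) * D 2 u := fun u => by
    rw [← gd_X, alg_gd, alg_gd]
    simp only [L_Zf _ hg]
    ring
  have e2 : D 2 G = al * qq := by rw [hG, D_X, alg_kd, qq]
  rw [PP_add_left, Pi.add_apply]
  simp only [PP, Xl_px, px, e, e2, lya_lap hG, lya_Sxx hG, Sm.mul_apply, Sm.sub_apply,
    Zf_apply hg, Zf_apply hd, X_apply, two_mul, Sm.add_apply]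
  ring

theorem lya_E (j : ℕ) {al : Sm} {B : ℝ} (hz : Zon al) (hB : Cb 2 1 B al) (p : Fm) :
    |D 2 al p.x + (4 * j - 2) * ((∑ b, (p.xi : E3) b * D b al p.x) * (p.xi : E3) 2)| ≤
      (80 + 120 * j) * B * qq p.x := by
  have hB0 := hB.nonneg
  have hq : qq p.x = (p.x : E3) 0 ^ 2 + (p.x : E3) 1 ^ 2 := by
    rw [qq_eq]; simp only [Sm.add_apply, Sm.mul_apply, X_apply]; ring
  have hq0 : 0 ≤ qq p.x := by rw [hq]; positivity
  set r := √(qq p.x) with hr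
  have hr0 : 0 ≤ r := Real.sqrt_nonneg _
  have hr2 : r ^ 2 = qq p.x := Real.sq_sqrt hq0
  have k : ∀ {v c : ℝ}, 0 ≤ c → v ^ 2 ≤ c ^ 2 * qq p.x → |v| ≤ c * r := fun hc h =>
    abs_le_of_sq_le_sq' (by rw [mul_pow, hr2]; exact h) (by positivity) |> abs_le.2
  have k1 : ∀ c, |L c al p.x| ≤ 10 * B * r := fun c =>
    k (by positivity) ((hz.L_sq_le hB c p.x).1.trans_eq (by ring))
  have k2 : ∀ c, |D c al p.x| ≤ 10 * B * r := fun c =>
    k (by positivity) ((hz.L_sq_le hB c p.x).2.trans_eq (by ring))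
  have k3 : |(p.x : E3) 0| ≤ 1 * r := k zero_le_one (by rw [hq]; nlinarith [sq_nonneg ((p.x : E3) 1)])
  have k4 : |(p.x : E3) 1| ≤ 1 * r := k zero_le_one (by rw [hq]; nlinarith [sq_nonneg ((p.x : E3) 0)])
  have k5 : |(p.xi : E3) 2| ≤ 1 * r := k zero_le_one (by
    have h1 := fm_frame p 2 2
    have h2 := fm_xx p
    rw [if_pos rfl] at h1
    rw [hq]; nlinarith [mul_self_nonneg (p.om 2)])
  have k6 : |D 2 al p.x| ≤ 20 * B * qq p.x := by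
    rw [alg_D2, Sm.sub_apply, Sm.mul_apply, Sm.mul_apply, X_apply, X_apply, ← hr2]
    refine (abs_sub _ _).trans ?_
    linarith [fm_abs_mul k4 (k1 0), fm_abs_mul k3 (k1 1)]
  have k7 := fm_abs_mul (fm_abs_sum fun b => fm_abs_mul (abs_X_le b p.xi) (k2 b)) k5
  have hj : (0 : ℝ) ≤ j := Nat.cast_nonneg j
  have k8 : |4 * (j : ℝ) - 2| ≤ 4 * j + 2 := abs_le.2 ⟨by linarith, by linarith⟩
  have k9 := fm_abs_mul k8 k7
  simp only [X_apply] at k9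
  refine (abs_add_le _ _).trans ((add_le_add k6 k9).trans_eq ?_)
  rw [← hr2]
  ring

theorem lya_loc {U : Set S2} (hU : IsOpen U) {φ : Sm} (h : ∀ x ∈ U, φ x = 0) (c : Fin 3) :
    ∀ x ∈ U, L c φ x = 0 := fun x hx => by
  have h0 : Continuous fun t => rotS (int_rot c t) x := (continuous_iff_continuousAt.2 fun t =>
    (int_hasDerivAt_rot c t (x : E3)).continuousAt).subtype_mk _
  have h1 := h0.tendsto 0
  rw [fm_rotS_zero] at h1
  have h2 : (fun t => φ (rotS (int_rot c t) x)) =ᶠ[nhds 0] fun _ => 0 :=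
    (h1.eventually (hU.mem_nhds hx)).mono fun t ht => h _ ht
  rw [← (fm_deriv c φ x).deriv, h2.deriv_eq, deriv_const]

theorem lya_W0 (j : ℕ) {U : Set S2} (hU : IsOpen U) {φ : Sm} (h : ∀ x ∈ U, φ x = 0) {p : Fm}
    (hp : p.x ∈ U) : lap φ p.x + (4 * j - 2) * Sxx φ p = 0 := by
  have k := fun b c => lya_loc hU (lya_loc hU h c) b _ hp
  rw [← sum_LL_om, lap_def, Sm.sum_apply]
  simp [k]

theorem lya_W1 (j : ℕ) {φ : Sm} {B : ℝ} (h : Cb 2 1 B φ) (p : Fm) :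
    |lap φ p.x + (4 * j - 2) * Sxx φ p| ≤ (365 + 724 * j) * B := by
  have hj : (0 : ℝ) ≤ j := Nat.cast_nonneg j
  have h1 : |lap φ p.x| ≤ 3 * B := by
    rw [lap_def, Sm.sum_apply]
    exact fm_abs_sum fun c => fm_b2 h c c p.x
  have h2 : |4 * (j : ℝ) - 2| ≤ 4 * j + 2 := abs_le.2 ⟨by linarith, by linarith⟩
  exact (abs_add_le _ _).trans ((add_le_add h1 (fm_abs_mul h2 (fm_abs_Sxx h p))).trans_eq (by ring))

theorem lya_jet {g : ℝ → ℝ} (hg : ContDiff ℝ ∞ g) (p : Fm) :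
    jet (px (Zf g)) p ≤ |g ((p.x : E3) 2)| + 3 * |deriv g ((p.x : E3) 2)| := by
  have hd : ContDiff ℝ ∞ (deriv g) := (contDiff_infty_iff_deriv.1 hg).2
  have k : ∀ c, |LL c (px (Zf g)) p| ≤ |deriv g ((p.x : E3) 2)| * 1 := fun c => by
    rw [LL_px, L_Zf c hg, px, Sm.mul_apply, Zf_apply hd]
    exact fm_abs_mul le_rfl (fm_b1 (Cb_X le_rfl 2 2) c p.x)
  rw [jet, px, Zf_apply hg, Fin.sum_univ_three]
  linarith [k 0, k 1, k 2]

theorem lya_int (μ : Measure Fm) [IsProbabilityMeasure μ] {P J W : Fm → ℝ} (hP : Continuous P)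
    (hJ : Continuous J) (hW : Continuous W) {S1 S3 : Set Fm} (h1 : MeasurableSet S1)
    (h3 : MeasurableSet S3) {c C B η e : ℝ} (hc : 0 < c) (he : 0 < e) (hη : 0 ≤ η)
    (hB : η * B ≤ c / 2) (a1 : ∀ p, p ∉ S1 → P p ≤ -c * W p) (a2 : ∀ p ∈ S1, P p ≤ C - c * W p)
    (a3 : ∀ p, J p ≤ B * W p) (a4 : ∀ p, 0 < W p) (a5 : ∀ p ∈ S3, e ≤ W p)
    (h : |∫ p, P p ∂μ| ≤ η * ∫ p, J p ∂μ) :
    μ.real S3 ≤ 2 * C / (c * e) * μ.real S1 ∧ 0 < μ.real S1 := by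
  have i : ∀ {f : Fm → ℝ}, Continuous f → Integrable f μ := fun hf =>
    hf.integrable_of_hasCompactSupport (HasCompactSupport.of_compactSpace _)
  have i1 : ∀ {S : Set Fm} (r : ℝ), MeasurableSet S → Integrable (S.indicator fun _ => r) μ :=
    fun r hS => (integrable_const r).indicator hS
  have b1 : ∫ p, P p ∂μ ≤ μ.real S1 * C - c * ∫ p, W p ∂μ := by
    rw [← smul_eq_mul, ← integral_indicator_const C h1, ← integral_const_mul,
      ← integral_sub (i1 C h1) ((i hW).const_mul c)]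
    refine integral_mono (i hP) ((i1 C h1).sub ((i hW).const_mul c)) fun p => ?_
    by_cases hp : p ∈ S1
    · simpa [hp] using a2 p hp
    · simpa [hp] using a1 p hp
  have b2 : ∫ p, J p ∂μ ≤ B * ∫ p, W p ∂μ := by
    rw [← integral_const_mul]
    exact integral_mono (i hJ) ((i hW).const_mul B) a3
  have b3 : μ.real S3 * e ≤ ∫ p, W p ∂μ := by
    rw [← smul_eq_mul, ← integral_indicator_const e h3]
    refine integral_mono (i1 e h3) (i hW) fun p => ?_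
    by_cases hp : p ∈ S3
    · simpa [hp] using a5 p hp
    · simpa [hp] using (a4 p).le
  have b4 : 0 < ∫ p, W p ∂μ := by
    rw [integral_pos_iff_support_of_nonneg (fun p => (a4 p).le) (i hW),
      show Function.support W = Set.univ from Set.eq_univ_of_forall fun p => (a4 p).ne']
    simp
  have b5 : c / 2 * ∫ p, W p ∂μ ≤ μ.real S1 * C := by
    have k1 := mul_le_mul_of_nonneg_left b2 hη
    have k2 := mul_le_mul_of_nonneg_right hB b4.le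
    linarith [(abs_le.1 h).1]
  refine ⟨?_, lt_of_le_of_ne measureReal_nonneg fun h0 => ?_⟩
  · rw [div_mul_eq_mul_div, le_div_iff₀ (by positivity)]
    nlinarith [mul_le_mul_of_nonneg_left b3 hc.le]
  · rw [← h0] at b5
    nlinarith [mul_pos hc b4]

theorem lya_r0 {i C0 j Ke K z q a A E : ℝ} (hi : 0 < i) (hC : i * C0 = 1) (h1 : 1 ≤ C0)
    (hj : 0 ≤ j) (hK : (Ke ^ 2 + 4 * j) * C0 ^ 3 ≤ K) (hq : i ≤ q) (ha : a ≤ C0)
    (hA : i * q / 2 ≤ A) (hE : |E| ≤ Ke * q) :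
    A * -(1 + 2 * K * z ^ 2) + (-(4 * j * z * a) + E + 0) * -z ≤ -(i ^ 3 / 4) := by
  have hq0 : 0 < q := hi.trans_le hq
  have hK0 : 0 ≤ K := le_trans (by positivity) hK
  have i1 : i ≤ 1 := by nlinarith
  have k1 : i * q / 2 * (1 + 2 * K * z ^ 2) ≤ A * (1 + 2 * K * z ^ 2) := by gcongr
  have k2 : |E * z| ≤ Ke * q * |z| := fm_abs_mul hE le_rfl
  have k3 : Ke * |z| ≤ i / 4 + C0 * Ke ^ 2 * z ^ 2 := by
    have : 0 ≤ C0 * (i / 2 - C0 * Ke * |z| * i) ^ 2 := by positivity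
    have e : C0 * (i / 2 - C0 * Ke * |z| * i) ^ 2 = (i * C0) * i / 4 - (i * C0) ^ 2 * Ke * |z|
        + (i * C0) ^ 2 * C0 * Ke ^ 2 * |z| ^ 2 := by ring
    rw [e, hC, sq_abs] at this
    linarith
  have k4 : (Ke ^ 2 + 4 * j) * C0 ^ 3 * (i * q * z ^ 2) ≤ K * (i * q * z ^ 2) := by gcongr
  have e4 : (Ke ^ 2 + 4 * j) * C0 ^ 3 * (i * q * z ^ 2) =
      (i * C0) * (C0 * (C0 * Ke ^ 2 * z ^ 2 * q) + 4 * j * z ^ 2 * (C0 * C0 * q)) := by ring
  rw [e4, hC] at k4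
  have k5 : 4 * j * z ^ 2 * a ≤ 4 * j * z ^ 2 * (C0 * C0 * q) := by
    have : C0 * (i * C0) ≤ C0 * (q * C0) := by gcongr
    rw [hC] at this
    gcongr
    linarith
  have k6 : 1 * (C0 * Ke ^ 2 * z ^ 2 * q) ≤ C0 * (C0 * Ke ^ 2 * z ^ 2 * q) := by gcongr
  have k7 := mul_le_mul_of_nonneg_left k3 hq0.le
  have k8 : i * i * i ≤ i * q * 1 := by gcongr
  linarith [(abs_le.1 k2).1]

theorem lya_r1 {i C0 j Ke K N z q a A E W e : ℝ} (hi : 0 < i) (hC : i * C0 = 1) (h1 : 1 ≤ C0)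
    (hj : 1 ≤ j) (hKe : 0 ≤ Ke) (hK : (1 + Ke) * C0 ^ 3 ≤ K) (hq : 0 ≤ q) (ha : i ≤ a)
    (hz : i ^ 2 ≤ z ^ 2) (hz1 : |z| ≤ 1) (hA : i * q / 2 ≤ A) (hE : |E| ≤ Ke * q) (hN : 0 ≤ N)
    (he : 0 ≤ e) (hW : W = 0 ∨ 1 ≤ e ∧ i ≤ q ∧ |W| ≤ N * i ^ 4) :
    A * (1 - 2 * K * z ^ 2 - 2 * N * z ^ 2 * e) + (-(4 * j * z * a) + E + W) * z ≤
      -(i ^ 3 / 4) := by
  have hA0 : 0 ≤ A := le_trans (by positivity) hA
  have hK0 : 0 ≤ K := le_trans (by positivity) hK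
  have k1 : (1 + Ke) * C0 ^ 3 * i ^ 2 * A ≤ K * z ^ 2 * A := by gcongr
  have e1 : (1 + Ke) * C0 ^ 3 * i ^ 2 * A = (i * C0) ^ 2 * (C0 * A + Ke * C0 * A) := by ring
  rw [e1, hC] at k1
  have k2 : 1 * A ≤ C0 * A := by gcongr
  have k3 : Ke * C0 * (i * q / 2) ≤ Ke * C0 * A := by gcongr
  have e3 : Ke * C0 * (i * q / 2) = (i * C0) * (Ke * q / 2) := by ring
  rw [e3, hC] at k3
  have k4 := fm_abs_mul hE hz1
  have k5 : 4 * 1 * i ^ 2 * i ≤ 4 * j * z ^ 2 * a := by gcongr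
  have k6 : W * z ≤ 2 * N * z ^ 2 * e * A := by
    rcases hW with rfl | ⟨w1, w2, w3⟩
    · rw [zero_mul]; positivity
    · have k7 : i * i / 2 ≤ A := le_trans (by gcongr) hA
      have k8 : 2 * N * i ^ 2 * 1 * (i * i / 2) ≤ 2 * N * z ^ 2 * e * A := by gcongr
      linarith [(abs_le.1 (fm_abs_mul w3 hz1)).2]
  have k9 : 0 < i ^ 3 := by positivity
  linarith [(abs_le.1 k4).2]

theorem lya_mem {d : ZD} (h0 : 0 ≤ d.zc) (r : ℝ) (p : Fm) :
    p ∈ slab d r ∪ slab' d r ↔ |(|(p.x : E3) 2| - d.zc)| ≤ r * d.ρ := by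
  simp only [slab, slab', Set.mem_union, Set.mem_ofPred_eq, X_apply, abs_le]
  rcases abs_cases ((p.x : E3) 2) with h | h <;> rw [h.1]
  · exact ⟨fun k => k.elim id fun k => ⟨by linarith [k.2, h.2], by linarith [k.2]⟩, Or.inl⟩
  · exact ⟨fun k => k.elim (fun k => ⟨by linarith [k.1, h.2], by linarith [k.1]⟩)
      fun k => ⟨by linarith [k.2], by linarith [k.1]⟩,
      fun k => Or.inr ⟨by linarith [k.2], by linarith [k.1]⟩⟩

theorem lya_meas (d : ZD) (r : ℝ) : MeasurableSet (slab d r ∪ slab' d r) := by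
  have h : Continuous fun p : Fm => X 2 p.x := (X 2).continuous.comp fm_cont_x
  exact ((isClosed_le (h.sub continuous_const).abs continuous_const).union
    (isClosed_le (h.add continuous_const).abs continuous_const)).measurableSet

theorem lya : LyaStmt := by
  intro j C0 hj h1
  have hj1 : (1 : ℝ) ≤ j := by exact_mod_cast hj
  have hC0 : 0 < C0 := by linarith
  obtain ⟨i, hi⟩ : ∃ i, i = C0⁻¹ := ⟨_, rfl⟩
  have i0 : 0 < i := by rw [hi]; positivity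
  have iC : i * C0 = 1 := by rw [hi]; exact inv_mul_cancel₀ hC0.ne'
  have i1 : i ≤ 1 := by nlinarith
  obtain ⟨Ke, hKe⟩ : ∃ Ke : ℝ, Ke = (80 + 120 * j) * C0 := ⟨_, rfl⟩
  have Ke0 : 0 ≤ Ke := by rw [hKe]; positivity
  obtain ⟨K, hK⟩ : ∃ K : ℝ, K = (Ke ^ 2 + 4 * j) * C0 ^ 3 + (1 + Ke) * C0 ^ 3 := ⟨_, rfl⟩
  have K1 : 0 ≤ (Ke ^ 2 + 4 * j) * C0 ^ 3 := by positivity
  have K2 : 0 ≤ (1 + Ke) * C0 ^ 3 := by positivity
  obtain ⟨M, hM, hf⟩ := lyax_fun (lam := C0 ^ 2) (K := K) (one_le_pow₀ h1) (by linarith)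
  obtain ⟨C, hC⟩ : ∃ C : ℝ, C = (2 * C0 * M + 4 * j * C0 + Ke + 1) * Real.exp K := ⟨_, rfl⟩
  refine ⟨max 1 (2 * C / (i ^ 3 / 4 * Real.exp (-K))), le_max_left _ _, fun C1 hC1 => ?_⟩
  obtain ⟨K', hK'⟩ : ∃ K' : ℝ, K' = (365 + 724 * j) * C1 * C0 ^ 4 := ⟨_, rfl⟩
  have K3 : 0 ≤ K' := by rw [hK']; positivity
  obtain ⟨m0, hm0⟩ := exists_nat_ge (8 * C0 ^ 3 * (1 + 3 * M * (1 + K')))
  refine ⟨m0 + 1, fun m hm t ℓ κ1 u χ d μ _ hZ hT => ?_⟩
  have m1 : (m0 : ℝ) + 1 ≤ m := by exact_mod_cast hm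
  have m2 : (1 : ℝ) ≤ m := by linarith [(Nat.cast_nonneg m0 : (0 : ℝ) ≤ m0)]
  have z1 := hZ.ρ_ge
  have z2 := hZ.lo
  have z3 := hZ.hi
  rw [← hi] at z1 z2 z3
  obtain ⟨g, w, hg, hw, hz⟩ := hf ((d.zc - d.ρ) ^ 2) ((d.zc + 3 * d.ρ) ^ 2) (K' * m)
    (sq_nonneg _) (by positivity)
  have il : (C0 ^ 2)⁻¹ = i ^ 2 := by rw [hi, inv_pow]
  have hb := px_mem (Zf g)
  have hz1 : ∀ p : Fm, |(p.x : E3) 2| ≤ 1 := fun p => abs_X_le 2 p.x
  have hq : ∀ p : Fm, qq p.x = 1 - |(p.x : E3) 2| ^ 2 := fun p => by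
    rw [qq, Sm.sub_apply, Sm.mul_apply, X_apply, sq_abs, sq]; rfl
  have hq0 : ∀ p : Fm, 0 ≤ qq p.x ∧ qq p.x ≤ 1 := fun p => by
    rw [hq]
    exact ⟨by nlinarith [hz1 p, abs_nonneg ((p.x : E3) 2)], by nlinarith⟩
  have ha : ∀ p : Fm, i ≤ d.a p.x ∧ d.a p.x ≤ C0 := fun p =>
    ⟨hi ▸ hZ.a_ge _, (abs_le.1 (hZ.a_Cb.abs_le _)).2⟩
  have hA : ∀ p : Fm, i * qq p.x / 2 ≤ d.a p.x * qq p.x + D 2 d.fw p.x ∧
      d.a p.x * qq p.x + D 2 d.fw p.x ≤ 2 * C0 := fun p => by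
    have k1 := abs_le.1 (hZ.fw_grad p.x)
    have e : qq p.x / (2 * C0) = i * qq p.x / 2 := by rw [hi]; field_simp
    rw [e] at k1
    have k2 := mul_le_mul_of_nonneg_right (ha p).1 (hq0 p).1
    have k3 : d.a p.x * qq p.x ≤ C0 * 1 := mul_le_mul (ha p).2 (hq0 p).2 (hq0 p).1 hC0.le
    have k4 : i * qq p.x ≤ 1 * 1 := mul_le_mul i1 (hq0 p).2 (hq0 p).1 zero_le_one
    exact ⟨by linarith [k1.1], by linarith [k1.2]⟩
  have hE := fun p => lya_E j hZ.a_zon (hZ.a_Cb.mono zero_le_one (by norm_num) le_rfl le_rfl) p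
  rw [← hKe] at hE
  have hU : IsOpen {x : S2 | |X 2 x| < d.zc + 4 * d.ρ ∨ qq x < C0⁻¹} :=
    (isOpen_lt (X 2).continuous.abs continuous_const).union
      (isOpen_lt qq.continuous continuous_const)
  have hW0 := fun (p : Fm) hp => lya_W0 j hU hZ.fw_zero (p := p) hp
  have hW1 : ∀ p : Fm, |lap d.fw p.x + (4 * j - 2) * Sxx d.fw p| ≤ K' * m * i ^ 4 := fun p => by
    have k : Cb 2 1 (C1 * m) d.fw := fun v hv x => (hZ.fw_Cb v hv x).trans (by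
      have k1 : (m : ℝ) ^ v.length ≤ m ^ 2 := pow_le_pow_right₀ m2 hv
      calc _ ≤ C1 / m * m ^ 2 := by gcongr
        _ = _ := by field_simp; simp)
    refine (lya_W1 j k p).trans_eq ?_
    calc _ = (365 + 724 * j) * (C1 * m) * (i * C0) ^ 4 := by rw [iC]; ring
      _ = _ := by rw [hK']; ring
  have sq1 : ∀ {x y : ℝ}, |x| ≤ y → x ^ 2 ≤ y ^ 2 := fun h =>
    sq_le_sq' (abs_le.1 h).1 (abs_le.1 h).2
  have sq2 : ∀ {x y : ℝ}, 0 ≤ y → y ≤ |x| → y ^ 2 ≤ x ^ 2 := fun h h' => by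
    rw [← sq_abs]; nth_rewrite 2 [← sq_abs]; rw [abs_of_nonneg h]; gcongr
  have key := lya_int μ (W := fun p => w ((p.x : E3) 2)) (c := i ^ 3 / 4) (C := C)
    (B := 1 + 3 * M * (1 + K' * m)) (e := Real.exp (-K))
    (Sy_continuous (PP_mem j (odp u) hb)) (continuous_jet hb)
    (hw.comp ((X 2).continuous.comp fm_cont_x)) (lya_meas d 1) (lya_meas d 3) (by positivity)
    (Real.exp_pos _) (by positivity) ?_ (fun p hp => ?_) (fun p hp => ?_) (fun p => ?_)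
    (fun p => (hz _ (hz1 p)).1) (fun p hp => ?_) (hT _ hb)
  · exact ⟨key.1.trans (mul_le_mul_of_nonneg_right (le_max_right _ _) measureReal_nonneg), key.2⟩
  · have k1 : 1 + 3 * M * (1 + K' * m) ≤ (1 + 3 * M * (1 + K')) * m := by nlinarith
    have k2 : (m : ℝ) ^ 2 ≤ m ^ 20 := pow_le_pow_right₀ m2 (by norm_num)
    have k3 : i ^ 3 * (8 * C0 ^ 3 * (1 + 3 * M * (1 + K'))) ≤ i ^ 3 * m := by
      gcongr
      linarith
    have e : i ^ 3 * (8 * C0 ^ 3 * (1 + 3 * M * (1 + K'))) =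
        (i * C0) ^ 3 * (8 * (1 + 3 * M * (1 + K'))) := by ring
    rw [e, iC] at k3
    have k4 := mul_le_mul_of_nonneg_right k3 (by positivity : (0 : ℝ) ≤ m)
    have k5 := mul_le_mul_of_nonneg_left k2 (by positivity : 0 ≤ i ^ 3)
    rw [one_div, inv_mul_le_iff₀ (by positivity)]
    linarith
  · obtain ⟨w0, -, -, -, -, w1, w2⟩ := hz _ (hz1 p)
    rw [lya_mem (by linarith), not_le, lt_abs] at hp
    rw [hZ.odd, lya_PP j _ hZ.G_grad hg]
    rcases hp with hp | hp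
    · have k1 := sq2 (by linarith) (show d.zc + d.ρ ≤ |(p.x : E3) 2| by linarith)
      obtain ⟨e1, e, e2, e3, e4⟩ := w2 (by rw [il]; nlinarith)
      have k := lya_r1 (K := K) i0 iC h1 hj1 Ke0 (by linarith) (hq0 p).1 (ha p).1
        (sq2 i0.le (by linarith)) (hz1 p) (hA p).1 (hE p) (N := K' * m) (by positivity) e2
        (W := lap d.fw p.x + (4 * j - 2) * Sxx d.fw p) (by
          by_cases hx : |X 2 p.x| < d.zc + 4 * d.ρ ∨ qq p.x < C0⁻¹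
          · exact Or.inl (hW0 p hx)
          · rw [not_or, not_lt, not_lt, ← hi, X_apply] at hx
            have k2 := sq2 (by linarith) hx.1
            exact Or.inr ⟨e3 (by rw [il]; nlinarith), hx.2, hW1 p⟩)
      rw [e1, e4]
      linarith [mul_le_mul_of_nonneg_right k w0.le]
    · obtain ⟨e1, e2⟩ := w1 (sq1 (by linarith)) (sq1 (by linarith))
      have k := lya_r0 (K := K) (z := (p.x : E3) 2) i0 iC h1 (by linarith : (0 : ℝ) ≤ j)
        (by linarith) (by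
          rw [hq]
          nlinarith [abs_nonneg ((p.x : E3) 2)]) (ha p).2 (hA p).1 (hE p)
      rw [e1, e2, hW0 p (Or.inl (by rw [X_apply]; linarith))]
      linarith [mul_le_mul_of_nonneg_right k w0.le]
  · obtain ⟨w0, w1, w2, -, w3, -⟩ := hz _ (hz1 p)
    rw [lya_mem (by linarith), abs_le] at hp
    rw [hZ.odd, lya_PP j _ hZ.G_grad hg, hW0 p (Or.inl (by rw [X_apply]; linarith)), add_zero]
    have k1 : |d.a p.x * qq p.x + D 2 d.fw p.x| ≤ 2 * C0 := abs_le.2 ⟨by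
      have := mul_nonneg i0.le (hq0 p).1
      linarith [(hA p).1], (hA p).2⟩
    have k2 := fm_abs_mul k1 (w3 (sq1 (by linarith))).2
    have k3 : |-(4 * j * (p.x : E3) 2 * d.a p.x)| ≤ 4 * j * 1 * C0 := by
      rw [abs_neg]
      exact fm_abs_mul (fm_abs_mul (abs_of_nonneg (by positivity)).le (hz1 p)) (hZ.a_Cb.abs_le _)
    have k4 := fm_abs_mul ((abs_add_le _ _).trans (add_le_add k3 ((hE p).trans
      (mul_le_mul_of_nonneg_left (hq0 p).2 Ke0)))) w2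
    have k5 : (2 * C0 * M + 4 * j * C0 + Ke + 1) * w ((p.x : E3) 2) ≤ C := by
      rw [hC]
      gcongr
    have k6 : i ^ 3 * w ((p.x : E3) 2) ≤ 1 ^ 3 * w ((p.x : E3) 2) := by gcongr
    linarith [(abs_le.1 k2).2, (abs_le.1 k4).2]
  · obtain ⟨-, -, w2, w3, -⟩ := hz _ (hz1 p)
    linarith [lya_jet hg p]
  · rw [lya_mem (by linarith), abs_le] at hp
    exact ((hz _ (hz1 p)).2.2.2.2.1 (sq1 (by linarith))).1

end Pool.Agent.Lib.MP_2fa2a2_gt.PI
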