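import Pool.Agent.Lib.MP_2fa2a2_gt.PI.SFm

/-! Positive bilinear forms on smooth functions are represented by measures. -/

namespace Pool.Agent.Lib.MP_2fa2a2_gt.PI

open MeasureTheory Filter Topology

namespace Meas

theorem char_eval (χ : Sm →ₗ[ℝ] ℝ) (h1 : χ 1 = 1) (hm : ∀ u v, χ (u * v) = χ u * χ v) :
    ∃ x : S2, ∀ φ, χ φ = φ x := by
  have hn : ‖(WithLp.toLp 2 fun a => χ (X a) : E3)‖ = 1 := by
    have h2 := congrArg χ sum_X_sq
    rw [map_sum, h1] at h2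
    simp only [hm] at h2
    rw [EuclideanSpace.norm_eq, Real.sqrt_eq_one]
    simpa [pow_two] using h2
  let x : S2 := ⟨WithLp.toLp 2 fun a => χ (X a), by simpa using hn⟩
  refine ⟨x, fun φ => by_contra fun hne => ?_⟩
  let h : Sm := (φ - χ φ • 1) * (φ - χ φ • 1) +
    ∑ a, (X a - χ (X a) • 1) * (X a - χ (X a) • 1)
  have h0 : χ h = 0 := by simp [h, hm, h1]
  have hz : ∀ z, h z ≠ 0 := fun z hz => by
    have e : (φ z - χ φ) * (φ z - χ φ) + ∑ a, ((z : E3) a - χ (X a)) * ((z : E3) a - χ (X a)) = 0 := by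
      simpa [h] using hz
    have p1 := mul_self_nonneg (φ z - χ φ)
    have p2 : 0 ≤ ∑ a, ((z : E3) a - χ (X a)) * ((z : E3) a - χ (X a)) :=
      Finset.sum_nonneg fun a _ => mul_self_nonneg _
    have q2 := (Finset.sum_eq_zero_iff_of_nonneg fun a _ => mul_self_nonneg _).1
      (show ∑ a, ((z : E3) a - χ (X a)) * ((z : E3) a - χ (X a)) = 0 by linarith)
    have e2 : z = x := Subtype.ext (by
      ext a
      exact sub_eq_zero.1 (mul_self_eq_zero.1 (q2 a (Finset.mem_univ a))))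
    rw [e2] at e p1 p2
    exact hne (sub_eq_zero.1 (mul_self_eq_zero.1 (by linarith))).symm
  have hi : h * cp (fun t => t⁻¹) h = 1 := Sm.ext fun z => by
    rw [Sm.mul_apply, cp_apply fun z => contDiffAt_inv ℝ (hz z), mul_inv_cancel₀ (hz z),
      Sm.one_apply]
  have := hm h (cp (fun t => t⁻¹) h)
  rw [hi, h1, h0, zero_mul] at this
  exact one_ne_zero this

/-- values between one quarter and three quarters -/
def Mid (f : Sm) : Prop := ∀ x, 1 / 4 < f x ∧ f x < 3 / 4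

theorem ext_mid {A B : Sm →ₗ[ℝ] ℝ} (h : ∀ f, Mid f → A f = B f) (u : Sm) : A u = B u := by
  obtain ⟨C, hC, hu⟩ := u.bounded
  have hs : 0 < (8 * (C + 1))⁻¹ := by positivity
  have h1 := h ((1 / 2 : ℝ) • 1) fun x => by norm_num
  have h2 := h ((1 / 2 : ℝ) • 1 + (8 * (C + 1))⁻¹ • u) fun x => by
    have h3 : |(8 * (C + 1))⁻¹ * u x| ≤ 1 / 8 := by
      rw [abs_mul, abs_of_pos hs, inv_mul_le_iff₀ (by positivity)]
      linarith [hu x]
    simp only [Sm.add_apply, Sm.smul_apply, Sm.one_apply]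
    constructor <;> linarith [abs_le.1 h3]
  rw [map_add, map_add, h1, add_right_inj, map_smul, map_smul] at h2
  exact mul_left_cancel₀ hs.ne' h2

/-- normalised positive bilinear forms that vanish on the ideal of the bundle -/
structure St (Λ : Sm → Sm → ℝ) : Prop where
  a1 : ∀ φ φ' ψ, Λ (φ + φ') ψ = Λ φ ψ + Λ φ' ψ
  s1 : ∀ (r : ℝ) φ ψ, Λ (r • φ) ψ = r • Λ φ ψ
  a2 : ∀ φ ψ ψ', Λ φ (ψ + ψ') = Λ φ ψ + Λ φ ψ'
  s2 : ∀ (r : ℝ) φ ψ, Λ φ (r • ψ) = r • Λ φ ψ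
  one : Λ 1 1 = 1
  pos : ∀ φ ψ : Sm, (∀ x, 0 < φ x) → (∀ x, 0 < ψ x) → 0 ≤ Λ φ ψ
  rel : ∀ φ ψ, ∑ a, ∑ b, Λ (X a * X b * φ) (X a * X b * ψ) = 0

theorem St.bil {Λ : Sm → Sm → ℝ} (h : St Λ) :
    ∃ B : Sm →ₗ[ℝ] Sm →ₗ[ℝ] ℝ, Λ = fun φ ψ => B φ ψ :=
  ⟨LinearMap.mk₂ ℝ Λ h.a1 h.s1 h.a2 h.s2, rfl⟩

theorem isCompact_St : IsCompact {Λ | St Λ} := by
  choose b hb0 hb using Sm.bounded
  refine (isCompact_univ_pi fun φ => isCompact_univ_pi fun ψ =>
    isCompact_Icc (a := -((b φ + 1) * (b ψ + 1))) (b := (b φ + 1) * (b ψ + 1))).of_isClosed_subset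
      ?_ fun Λ h φ _ ψ _ => ?_
  · have : {Λ | St Λ} = {Λ | (∀ φ φ' ψ, Λ (φ + φ') ψ = Λ φ ψ + Λ φ' ψ) ∧
        (∀ (r : ℝ) φ ψ, Λ (r • φ) ψ = r • Λ φ ψ) ∧ (∀ φ ψ ψ', Λ φ (ψ + ψ') = Λ φ ψ + Λ φ ψ') ∧
        (∀ (r : ℝ) φ ψ, Λ φ (r • ψ) = r • Λ φ ψ) ∧ Λ 1 1 = 1 ∧
        (∀ φ ψ : Sm, (∀ x, 0 < φ x) → (∀ x, 0 < ψ x) → 0 ≤ Λ φ ψ) ∧
        ∀ φ ψ, ∑ a, ∑ b, Λ (X a * X b * φ) (X a * X b * ψ) = 0} :=
      Set.ext fun Λ => ⟨fun h => ⟨h.1, h.2, h.3, h.4, h.5, h.6, h.7⟩,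
        fun ⟨h1, h2, h3, h4, h5, h6, h7⟩ => ⟨h1, h2, h3, h4, h5, h6, h7⟩⟩
    rw [this]
    simp only [Set.ofPred_and, Set.ofPred_forall]
    refine IsClosed.inter ?_ (IsClosed.inter ?_ (IsClosed.inter ?_ (IsClosed.inter ?_
      (IsClosed.inter ?_ (IsClosed.inter ?_ ?_)))))
    all_goals
      repeat refine isClosed_iInter fun _ => ?_
      first | exact isClosed_eq (by fun_prop) (by fun_prop)
            | exact isClosed_le (by fun_prop) (by fun_prop)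
  · obtain ⟨B, rfl⟩ := St.bil h
    have hp : ∀ φ : Sm, (∀ x, 0 < ((b φ + 1) • (1 : Sm) + φ) x) ∧
        ∀ x, 0 < ((b φ + 1) • (1 : Sm) - φ) x := fun φ => by
      constructor <;> intro x <;> have := abs_le.1 (hb φ x) <;> simp <;> linarith [this.1, this.2]
    have h1 := h.pos _ _ (hp φ).1 (hp ψ).1
    have h2 := h.pos _ _ (hp φ).1 (hp ψ).2
    have h3 := h.pos _ _ (hp φ).2 (hp ψ).1
    have h4 := h.pos _ _ (hp φ).2 (hp ψ).2
    have h5 : B 1 1 = 1 := h.one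
    simp only [map_add, map_sub, map_smul, LinearMap.add_apply, LinearMap.sub_apply,
      LinearMap.smul_apply, smul_eq_mul, h5] at h1 h2 h3 h4
    constructor <;> nlinarith

theorem convex_St : Convex ℝ {Λ | St Λ} := by
  intro Λ h Λ' h' a b ha hb hab
  refine ⟨fun φ φ' ψ => ?_, fun r φ ψ => ?_, fun φ ψ ψ' => ?_, fun r φ ψ => ?_, ?_,
    fun φ ψ h1 h2 => ?_, fun φ ψ => ?_⟩ <;> simp only [Pi.add_apply, Pi.smul_apply, smul_eq_mul]
  · rw [h.a1, h'.a1]; ring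
  · rw [h.s1, h'.s1, smul_eq_mul, smul_eq_mul]; ring
  · rw [h.a2, h'.a2]; ring
  · rw [h.s2, h'.s2, smul_eq_mul, smul_eq_mul]; ring
  · rw [h.one, h'.one, mul_one, mul_one, hab]
  · exact add_nonneg (mul_nonneg ha (h.pos _ _ h1 h2)) (mul_nonneg hb (h'.pos _ _ h1 h2))
  · simp only [Finset.sum_add_distrib, ← Finset.mul_sum, h.rel, h'.rel, mul_zero, add_zero]

theorem extreme_mid {B : Sm →ₗ[ℝ] Sm →ₗ[ℝ] ℝ}
    (hB : (fun φ ψ => B φ ψ) ∈ {Λ | St Λ}.extremePoints ℝ) {f g : Sm} (hf : Mid f) (hg : Mid g)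
    (φ ψ : Sm) : B (f * φ) (g * ψ) = B f g * B φ ψ := by
  have h : St fun φ ψ => B φ ψ := hB.1
  have h5 : B 1 1 = 1 := h.one
  have pc : ∀ x, 0 < ((1 / 8 : ℝ) • (1 : Sm)) x := fun x => by norm_num
  have p1 : ∀ x, 0 < (1 : Sm) x := fun x => by norm_num
  have pm : ∀ {f : Sm}, Mid f → (∀ x, 0 < f x) ∧ (∀ x, 0 < (1 - f) x) ∧
      (∀ x, 0 < (f - (1 / 8 : ℝ) • (1 : Sm)) x) ∧ ∀ x, 0 < ((7 / 8 : ℝ) • (1 : Sm) - f) x :=
    fun {f} hf => by
      refine ⟨fun x => ?_, fun x => ?_, fun x => ?_, fun x => ?_⟩ <;> have := hf x <;> simp <;>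
        linarith [this.1, this.2]
  have t1 := h.pos _ _ (pm hf).2.2.1 (pm hg).1
  have t2 := h.pos _ _ p1 (pm hg).2.2.1
  have t3 := h.pos _ _ (pm hf).2.2.2 p1
  have t4 := h.pos _ _ (pm hf).1 (pm hg).2.1
  simp only [map_sub, map_smul, LinearMap.sub_apply, LinearMap.smul_apply, smul_eq_mul, h5]
    at t1 t2 t3 t4
  have h0 : 0 < B f g := by linarith
  have h1 : 0 < 1 - B f g := by linarith
  have rel : ∀ φ ψ, ∑ a, ∑ b, B (f * (X a * X b * φ)) (g * (X a * X b * ψ)) = 0 := fun φ ψ => by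
    simpa only [mul_left_comm f, mul_left_comm g] using h.rel (f * φ) (g * ψ)
  have s1 : St fun φ ψ => (B f g)⁻¹ * B (f * φ) (g * ψ) := by
    refine ⟨fun _ _ _ => ?_, fun _ _ _ => ?_, fun _ _ _ => ?_, fun _ _ _ => ?_, ?_,
      fun φ ψ hφ hψ => ?_, fun φ ψ => ?_⟩
    · simp [mul_add]
    · simp [mul_left_comm]
    · simp [mul_add]
    · simp [mul_left_comm]
    · simp [h0.ne']
    · exact mul_nonneg (inv_pos.2 h0).le (h.pos _ _ (fun x => mul_pos ((pm hf).1 x) (hφ x))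
        fun x => mul_pos ((pm hg).1 x) (hψ x))
    · simp only [← Finset.mul_sum, rel, mul_zero]
  have s2 : St fun φ ψ => (1 - B f g)⁻¹ * (B φ ψ - B (f * φ) (g * ψ)) := by
    refine ⟨fun _ _ _ => ?_, fun _ _ _ => ?_, fun _ _ _ => ?_, fun _ _ _ => ?_, ?_,
      fun φ ψ hφ hψ => ?_, fun φ ψ => ?_⟩
    · simp only [mul_add, map_add, LinearMap.add_apply]; ring
    · simp only [mul_smul_comm, map_smul, LinearMap.smul_apply, smul_eq_mul]; ring
    · simp only [mul_add, map_add]; ring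
    · simp only [mul_smul_comm, map_smul, smul_eq_mul]; ring
    · simp [h5, h1.ne']
    · have q1 := h.pos ((1 - f) * φ) _ (fun x => mul_pos ((pm hf).2.1 x) (hφ x)) hψ
      have q2 := h.pos (f * φ) ((1 - g) * ψ) (fun x => mul_pos ((pm hf).1 x) (hφ x))
        fun x => mul_pos ((pm hg).2.1 x) (hψ x)
      simp only [sub_mul, one_mul, map_sub, LinearMap.sub_apply] at q1 q2
      exact mul_nonneg (inv_pos.2 h1).le (by linarith)
    · have := h.rel φ ψ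
      simp only [← Finset.mul_sum, Finset.sum_sub_distrib, rel, this, sub_zero, mul_zero]
  have e := hB.2 s1 s2 ⟨B f g, 1 - B f g, h0, h1, by ring, by
    funext φ ψ
    simp only [Pi.add_apply, Pi.smul_apply, smul_eq_mul]
    field_simp
    ring⟩
  have e2 := congrFun (congrFun e φ) ψ
  rw [← e2]
  field_simp

theorem extreme_eval {Λ : Sm → Sm → ℝ} (hΛ : Λ ∈ {Λ | St Λ}.extremePoints ℝ) :
    ∃ p : Fm, ∀ φ ψ, Λ φ ψ = φ p.x * ψ p.xi := by
  obtain ⟨B, rfl⟩ := St.bil hΛ.1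
  have h : St fun φ ψ => B φ ψ := hΛ.1
  have h5 : B 1 1 = 1 := h.one
  have key : ∀ u v φ ψ, B (u * φ) (v * ψ) = B u v * B φ ψ := fun u v φ ψ =>
    ext_mid (A := B (u * φ) ∘ₗ LinearMap.mulRight ℝ ψ) (B := B φ ψ • B u) (fun g hg =>
      ext_mid (A := B.flip (g * ψ) ∘ₗ LinearMap.mulRight ℝ φ) (B := B φ ψ • B.flip g)
        (fun f hf => (extreme_mid hΛ hf hg φ ψ).trans (mul_comm _ _)) u) v |>.trans (mul_comm _ _)
  obtain ⟨x, hx⟩ := char_eval (B.flip 1) h5 fun u v => by simpa using key u 1 v 1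
  obtain ⟨ξ, hξ⟩ := char_eval (B 1) h5 fun u v => by simpa using key 1 u 1 v
  have e : ∀ φ ψ, B φ ψ = φ x * ψ ξ := fun φ ψ => by
    rw [← hx, ← hξ]
    simpa using key φ 1 1 ψ
  refine ⟨⟨(x, ξ), ?_⟩, e⟩
  have := h.rel 1 1
  simp only [e, mul_one, Sm.mul_apply, X_apply, Fin.sum_univ_three] at this
  rw [tau_inner]
  exact mul_self_eq_zero.1 (by linear_combination this)

theorem cont (φ ψ : Sm) : Continuous fun p : Fm => φ p.x * ψ p.xi :=
  (φ.continuous.comp (continuous_fst.comp continuous_subtype_val)).mul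
    (ψ.continuous.comp (continuous_snd.comp continuous_subtype_val))

theorem intg {F : Fm → ℝ} (hF : Continuous F) (μ : Measure Fm) [IsFiniteMeasure μ] :
    Integrable F μ :=
  hF.integrable_of_hasCompactSupport (HasCompactSupport.of_compactSpace F)

theorem exists_measure {Λ : Sm → Sm → ℝ} (hΛ : St Λ) : ∃ μ : Measure Fm, IsProbabilityMeasure μ ∧
    ∀ φ ψ : Sm, Λ φ ψ = ∫ p, φ p.x * ψ p.xi ∂μ := by
  let Φ : ProbabilityMeasure Fm → Sm → Sm → ℝ := fun μ φ ψ => ∫ p, φ p.x * ψ p.xi ∂(μ : Measure Fm)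
  have hc : Continuous Φ := continuous_pi fun φ => continuous_pi fun ψ =>
    ProbabilityMeasure.continuous_integral_continuousMap (⟨_, cont φ ψ⟩ : C(Fm, ℝ))
  have hv : Convex ℝ (Set.range Φ) := by
    rintro _ ⟨μ, rfl⟩ _ ⟨ν, rfl⟩ a b ha hb hab
    refine ⟨⟨ENNReal.ofReal a • (μ : Measure Fm) + ENNReal.ofReal b • (ν : Measure Fm), ⟨?_⟩⟩, ?_⟩
    · simp [← ENNReal.ofReal_add ha hb, hab]
    · funext φ ψ
      simp only [Φ, ProbabilityMeasure.coe_mk, Pi.add_apply, Pi.smul_apply]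
      rw [integral_add_measure ((intg (cont φ ψ) _).smul_measure ENNReal.ofReal_ne_top)
        ((intg (cont φ ψ) _).smul_measure ENNReal.ofReal_ne_top), integral_smul_measure,
        integral_smul_measure, ENNReal.toReal_ofReal ha, ENNReal.toReal_ofReal hb]
  have hs : {Λ | St Λ} ⊆ Set.range Φ := by
    rw [← closure_convexHull_extremePoints isCompact_St convex_St]
    refine closure_minimal (convexHull_min (fun Λ h => ?_) hv) (isCompact_range hc).isClosed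
    obtain ⟨p, hp⟩ := extreme_eval h
    refine ⟨⟨Measure.dirac p, inferInstance⟩, ?_⟩
    funext φ ψ
    simp only [Φ, ProbabilityMeasure.coe_mk, integral_dirac, hp]
  obtain ⟨μ, rfl⟩ := hs hΛ
  exact ⟨μ, inferInstance, fun _ _ => rfl⟩

end Meas

end Pool.Agent.Lib.MP_2fa2a2_gt.PI
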