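import Pool.Agent.Lib.MP_2fa2a2_gt.PI.SFm
import Pool.Agent.Lib.MP_2fa2a2_gt.PI.MeasX

namespace Pool.Agent.Lib.MP_2fa2a2_gt.PI

open MeasureTheory Filter Topology

namespace Meas

variable {A B : Sm →ₗ[ℝ] Sm}

theorem ord_l (hA : Ord (-1) A) (hB : Ord 0 B) : Ord (-1) (A ∘ₗ B) := fun n => by
  obtain ⟨C, hC, h⟩ := hA n
  obtain ⟨C', hC', h'⟩ := hB (n - 2)
  have e : ((n - 2 : ℤ) : ℝ) / 2 = n / 2 + -1 := by push_cast; ring
  rw [add_zero, e] at h'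
  exact ⟨_, mul_nonneg hC hC', h.comp hC h'⟩

theorem ord_r (hA : Ord 0 A) (hB : Ord (-1) B) : Ord (-1) (A ∘ₗ B) := fun n => by
  obtain ⟨C, hC, h⟩ := hA n
  obtain ⟨C', hC', h'⟩ := hB n
  rw [add_zero] at h
  exact ⟨_, mul_nonneg hC hC', h.comp hC h'⟩

theorem ord_add {r : ℝ} (hA : Ord r A) (hB : Ord r B) : Ord r (A + B) := fun n => by
  obtain ⟨C, hC, h⟩ := hA n
  obtain ⟨C', hC', h'⟩ := hB n
  exact ⟨_, add_nonneg hC hC', h.add h'⟩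

theorem ord_smul {r : ℝ} (hA : Ord r A) (c : ℝ) : Ord r (c • A) := fun n => by
  obtain ⟨C, hC, h⟩ := hA n
  exact ⟨_, mul_nonneg (abs_nonneg c) hC, h.smul c⟩

theorem adj (hW : WdStmt) {α : Fm → ℝ} (h : Wd A α) : ∃ A', Wd A' α ∧
    (∀ φ ψ, inner ℝ (A φ) ψ = inner ℝ φ (A' ψ)) ∧ Ord (-1) (A - A') := by
  have hx : ∀ a b φ ψ, inner ℝ (Xi a b φ) ψ = inner ℝ φ (Xs a b ψ) := fun a b φ ψ =>
    (inner_H a b _ _).trans (inner_fn _ _ _)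
  induction h with
  | ml φ => exact ⟨_, .ml φ, inner_mul φ, by simpa using ord_smul (hW.2.2.2.1 0 0) 0⟩
  | xi a b => exact ⟨_, .xs a b, hx a b, hW.2.2.2.1 a b⟩
  | xs a b =>
    refine ⟨_, .xi a b, fun φ ψ => ?_, by simpa using ord_smul (hW.2.2.2.1 a b) (-1)⟩
    rw [real_inner_comm, ← hx, real_inner_comm]
  | add _ _ ih ih' =>
    obtain ⟨A', h1, h2, h3⟩ := ih
    obtain ⟨B', h1', h2', h3'⟩ := ih'
    refine ⟨A' + B', h1.add h1', fun φ ψ => ?_, by rw [add_sub_add_comm]; exact ord_add h3 h3'⟩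
    rw [LinearMap.add_apply, LinearMap.add_apply, inner_add_left, inner_add_right, h2, h2']
  | smul r _ ih =>
    obtain ⟨A', h1, h2, h3⟩ := ih
    refine ⟨r • A', h1.smul r, fun φ ψ => ?_, by rw [← smul_sub]; exact ord_smul h3 r⟩
    rw [LinearMap.smul_apply, LinearMap.smul_apply, real_inner_smul_left, real_inner_smul_right, h2]
  | @comp A B α β hA hB ih ih' =>
    obtain ⟨A', h1, h2, h3⟩ := ih
    obtain ⟨B', h1', h2', h3'⟩ := ih'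
    refine ⟨B' ∘ₗ A', mul_comm α β ▸ h1'.comp h1, fun φ ψ => (h2 _ _).trans (h2' _ _), ?_⟩
    have : A ∘ₗ B - B' ∘ₗ A' = cm A B + ((B - B') ∘ₗ A + B' ∘ₗ (A - A')) := by
      ext1 y
      simp [cm]
    rw [this]
    exact ord_add (hW.2.1 _ _ _ _ hA hB)
      (ord_add (ord_l h3' (hW.1 _ _ hA).1) (ord_r (hW.1 _ _ h1').1 h3))

theorem bound : ∃ C, 0 ≤ C ∧ ∀ (φ ψ y : Sm) (a b : ℝ), (∀ x, |φ x| ≤ a) → Cb 1 1 b ψ → ‖y‖ = 1 →
    |inner ℝ (φ * R (ψ * Ri y)) y| ≤ C * a * b := by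
  obtain ⟨C, hC, h⟩ := Bd_ml 1
  refine ⟨4 * C, by positivity, fun φ ψ y a b hφ hψ hy => ?_⟩
  have ha : 0 ≤ a := (abs_nonneg _).trans (hφ (circ_pt 0))
  have hb := hψ.nonneg
  have h1 := Bd_R_half (-1 / 2) (ψ * Ri y)
  have h2 : nrm 1 (-1 / 2) (ψ * Ri y) ≤ C * b * nrm 1 (-1 / 2) (Ri y) := by
    simpa using h (-1) le_rfl hψ (by norm_num) (Ri y)
  have h3 := Bd_Ri le_rfl (-1 / 2) y
  rw [show (-1 / 2 + 1 / 2 : ℝ) = 0 by norm_num, nrm_zero le_rfl] at h1 h3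
  have h4 := mul_le_mul_of_nonneg_left h3 (mul_nonneg hC hb)
  refine (abs_real_inner_le_norm _ _).trans ?_
  rw [hy, mul_one] at *
  refine (norm_mul_le hφ _).trans ?_
  nlinarith [mul_le_mul_of_nonneg_left (h1.trans (mul_le_mul_of_nonneg_left (h2.trans h4) two_pos.le)) ha]

theorem ev_mul {u v : Sm} (hu : u ∈ Ev) (hv : v ∈ Ev) : u * v ∈ Ev := by
  rw [mem_Ev] at *
  rw [map_mul, hu, hv]

theorem od_mul {u v : Sm} (hu : u ∈ Od) (hv : v ∈ Ev) : u * v ∈ Od := by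
  rw [mem_Od] at hu ⊢
  rw [map_mul, hu, mem_Ev.1 hv, neg_mul]

theorem sub_ant (u : Sm) : ant u - u ∈ Od := by
  rw [mem_Od, map_sub, ant_ant, neg_sub]

theorem exists_sqrt {φ : Sm} (h : ∀ x, 0 < φ x) : ∃ f : Sm, φ = f * f ∧ (φ ∈ Ev → f ∈ Ev) := by
  refine ⟨cp Real.sqrt φ, Sm.ext fun x => ?_, fun he => ?_⟩
  · rw [Sm.mul_apply, cp_apply fun x => Real.contDiffAt_sqrt (h x).ne', Real.mul_self_sqrt (h x).le]
  · exact (act_cp _ _ _).trans (congrArg _ he)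

variable {y : ℕ → Sm} {𝒰 : Ultrafilter ℕ}

theorem null (h1 : ∀ n, ‖y n‖ = 1) (h0 : Tendsto (fun n => nrm 1 (-1) (y n)) 𝒰 (𝓝 0))
    (hA : Ord (-1) A) : Tendsto (fun n => inner ℝ (A (y n)) (y n)) 𝒰 (𝓝 0) := by
  obtain ⟨C, -, h⟩ := hA 0
  have h2 := h0.const_mul C
  rw [mul_zero] at h2
  refine squeeze_zero_norm (fun n => (norm_inner_le_norm _ _).trans ?_) h2
  rw [h1, mul_one, ← nrm_zero le_rfl]
  simpa using h (y n)

theorem pos_poly (hW : WdStmt) (he : ∀ n, y n ∈ Ev) (h1 : ∀ n, ‖y n‖ = 1)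
    (h0 : Tendsto (fun n => nrm 1 (-1) (y n)) 𝒰 (𝓝 0)) (f : Sm) {g : Sm} {N : ℕ} (hg : g ∈ Ev)
    (hN : g ∈ Poly N) {c : ℝ}
    (hc : Tendsto (fun n => inner ℝ (f * f * R (g * g * Ri (y n))) (y n)) 𝒰 (𝓝 c)) : 0 ≤ c := by
  obtain ⟨A, A₂, hA, -, hA2, -⟩ := hW.2.2.2.2.2.1 N g hg hN
  obtain ⟨A', -, h2, h3⟩ := adj hW hA
  have h4 := hc.add (null h1 h0 (ord_add (ord_l (hW.2.1 _ _ _ _ hA (.ml (f * f))) (hW.1 _ _ hA).1)
    (ord_smul (ord_l h3 (hW.1 _ _ ((Wd.ml (f * f)).comp hA)).1) (-1))))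
  rw [add_zero] at h4
  refine ge_of_tendsto' h4 fun n => ?_
  have e : R (g * g * Ri (y n)) = A (A (y n)) := by
    rw [(hA2 _ (he n)).1, (hA2 _ (R_mem_Ev _)).1, Ri_R, evp_of_Ev (ev_mul hg (Ri_mem_Ev _)),
      mul_assoc]
  refine (real_inner_self_nonneg (x := f * A (y n))).trans_eq ?_
  rw [inner_mul, h2, real_inner_comm, ← inner_add_left, e]
  congr 1
  simp [cm, mul_assoc]

theorem exists_St (hW : WdStmt) (he : ∀ n, y n ∈ Ev) (h1 : ∀ n, ‖y n‖ = 1)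
    (h0 : Tendsto (fun n => nrm 1 (-1) (y n)) 𝒰 (𝓝 0)) : ∃ Λ : Sm → Sm → ℝ, St Λ ∧
      (∀ φ ψ, Tendsto (fun n => inner ℝ (φ * R (ψ * Ri (y n))) (y n)) 𝒰 (𝓝 (Λ φ ψ))) ∧
      (∀ φ ψ, Λ (ant φ) ψ = Λ φ ψ) ∧ ∀ φ ψ, Λ φ (ant ψ) = Λ φ ψ := by
  obtain ⟨C, hC, hb⟩ := bound
  have hex : ∀ φ ψ : Sm, ∃ c, Tendsto (fun n => inner ℝ (φ * R (ψ * Ri (y n))) (y n)) 𝒰 (𝓝 c) := by
    intro φ ψ
    obtain ⟨a, -, ha⟩ := φ.bounded
    obtain ⟨b, -, hb'⟩ := exists_Cb 1 ψ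
    obtain ⟨c, -, hc⟩ := (isCompact_Icc (a := -(C * a * b)) (b := C * a * b)).ultrafilter_le_nhds'
      (𝒰.map fun n => inner ℝ (φ * R (ψ * Ri (y n))) (y n))
      (Ultrafilter.mem_map.2 (univ_mem' fun n => abs_le.1 (hb φ ψ _ a b ha hb' (h1 n))))
    exact ⟨c, hc⟩
  choose Λ hΛ using hex
  have uniq : ∀ {φ ψ : Sm} {c : ℝ} {s : ℕ → ℝ}, Tendsto s 𝒰 (𝓝 c) →
      (∀ n, s n = inner ℝ (φ * R (ψ * Ri (y n))) (y n)) → Λ φ ψ = c :=
    fun hs e => tendsto_nhds_unique (hΛ _ _) (hs.congr e)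
  have a2 : ∀ φ ψ ψ', Λ φ (ψ + ψ') = Λ φ ψ + Λ φ ψ' := fun φ ψ ψ' =>
    uniq ((hΛ φ ψ).add (hΛ φ ψ')) fun n => by rw [add_mul, map_add, mul_add, inner_add_left]
  have o2 : ∀ φ ψ, ∀ ψ' ∈ Od, Λ φ (ψ + ψ') = Λ φ ψ := fun φ ψ ψ' h =>
    uniq (hΛ φ ψ) fun n => by rw [add_mul, map_add, R_of_Od (od_mul h (Ri_mem_Ev _)), add_zero]
  refine ⟨Λ, ⟨fun φ φ' ψ => uniq ((hΛ φ ψ).add (hΛ φ' ψ)) fun n => ?_,
    fun r φ ψ => uniq ((hΛ φ ψ).const_smul r) fun n => ?_, a2,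
    fun r φ ψ => uniq ((hΛ φ ψ).const_smul r) fun n => ?_, uniq tendsto_const_nhds fun n => ?_,
    fun φ ψ hφ hψ => ?_, fun φ ψ => ?_⟩, hΛ, fun φ ψ => uniq (hΛ φ ψ) fun n => ?_,
    fun φ ψ => by rw [← o2 φ ψ _ (sub_ant ψ), add_sub_cancel]⟩
  · rw [add_mul, inner_add_left]
  · rw [smul_mul_assoc, real_inner_smul_left, smul_eq_mul]
  · rw [smul_mul_assoc, map_smul, mul_smul_comm, real_inner_smul_left, smul_eq_mul]
  · rw [one_mul, one_mul, R_Ri, evp_of_Ev (he n), real_inner_self_eq_norm_sq, h1, one_pow]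
  · obtain ⟨f, rfl, -⟩ := exists_sqrt hφ
    obtain ⟨g, hg, hge⟩ := exists_sqrt (φ := evp ψ) fun x => by
      have := hψ x
      have := hψ (neg x)
      simp only [evp, LinearMap.smul_apply, LinearMap.add_apply, LinearMap.id_apply,
        AlgHom.toLinearMap_apply, Sm.smul_apply, Sm.add_apply, ant_apply]
      positivity
    replace hge := hge (evp_mem ψ)
    rw [← evp_add_odp ψ, o2 _ _ _ (odp_mem ψ), hg]
    obtain ⟨a, ha0, ha⟩ := (f * f).bounded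
    obtain ⟨S, hS, hs⟩ := sobolev
    have hl := tendsto_one_div_add_atTop_nhds_zero_nat (𝕜 := ℝ) |>.const_mul
      (-(C * a * (2 * (S * nrm 1 5 g) * (S * (2 * nrm 1 4 g)))))
    rw [mul_zero] at hl
    refine le_of_tendsto' hl fun N => ?_
    have q1 : Cb 1 1 (S * nrm 1 5 g * (1 / (N + 1))) (g - Pi N g) := by
      refine (hs 1 _).mono zero_le_one le_rfl le_rfl ?_
      have := nrm_sub_Pi (s := (1 : ℕ) + 3) (t := 5) (by norm_num) N g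
      rw [show ((1 : ℕ) + 3 - 5 : ℝ) = -1 by norm_num, Real.rpow_neg_one] at this
      rw [mul_assoc, mul_comm (nrm 1 5 g), one_div]
      exact mul_le_mul_of_nonneg_left this hS
    have q2 : Cb 1 1 (S * (2 * nrm 1 4 g)) (g + Pi N g) := by
      refine (hs 1 _).mono zero_le_one le_rfl le_rfl (mul_le_mul_of_nonneg_left ?_ hS)
      rw [show ((1 : ℕ) + 3 : ℝ) = 4 by norm_num]
      linarith [nrm_add_le 1 4 g (Pi N g), nrm_Pi_le le_rfl 4 N g]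
    have q3 := abs_le.1 (le_of_tendsto' (hΛ (f * f) _).abs fun n =>
      hb _ _ _ _ _ ha (q1.mul zero_le_one q2) (h1 n))
    have q4 := pos_poly hW he h1 h0 f
      (show Pi N g ∈ Ev from (harm_Pi_ant N g).symm.trans (congrArg _ hge)) (Pi_mem N g) (hΛ _ _)
    rw [show g * g = Pi N g * Pi N g + (g - Pi N g) * (g + Pi N g) by ring, a2]
    linarith [q3.1]
  · refine tendsto_nhds_unique (tendsto_finsetSum _ fun a _ => tendsto_finsetSum _ fun b _ =>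
      hΛ (X a * X b * φ) (X a * X b * ψ)) (tendsto_const_nhds.congr fun n => ?_)
    have : ∑ a, ∑ b, X a * X b * φ * R (X a * X b * ψ * Ri (y n)) =
        ∑ b, X b * φ * ∑ a, X a * H a b (Dp (R (ψ * Ri (y n)))) := by
      rw [Finset.sum_comm]
      simp only [mul_assoc _ ψ, R_XX, Finset.mul_sum]
      exact Finset.sum_congr rfl fun b _ => Finset.sum_congr rfl fun a _ => by ring
    simp only [← sum_inner, this, sum_X_H, mul_zero, Finset.sum_const_zero, inner_zero_left]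
  · have := I_of_Od (od_mul (od_mul (sub_ant φ) (R_mem_Ev (ψ * Ri (y n)))) (he n))
    rw [sub_mul, sub_mul, map_sub, sub_eq_zero] at this
    exact this.symm

theorem int_sum (μ : Measure Fm) [IsFiniteMeasure μ] {n : ℕ} (φ ψ : Fin n → Sm) :
    ∫ p, (∑ i, px (φ i) * pi' (ψ i)) p ∂μ = ∑ i, ∫ p, φ i p.x * ψ i p.xi ∂μ := by
  rw [← integral_finsetSum _ fun i _ => intg (cont (φ i) (ψ i)) μ]
  simp only [Finset.sum_apply]
  rfl

theorem inv_of (μ : Measure Fm) [IsProbabilityMeasure μ] {T : Fm → Fm} (hT : Continuous T)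
    (h : ∀ φ ψ : Sm, ∫ p, φ (T p).x * ψ (T p).xi ∂μ = ∫ p, φ p.x * ψ p.xi ∂μ)
    (F : Fm → ℝ) (hF : Continuous F) : ∫ p, F (T p) ∂μ = ∫ p, F p ∂μ := by
  refine eq_of_forall_dist_le fun η hη => ?_
  obtain ⟨a, ha, h1⟩ := exists_Sy_near hF (half_pos hη)
  have hc := Sy_continuous ha
  have e : ∫ p, a (T p) ∂μ = ∫ p, a p ∂μ := by
    obtain ⟨n, φ, ψ, rfl⟩ := Sy_span ha
    rw [int_sum]
    simp only [← h]
    rw [← integral_finsetSum _ fun i _ => intg ((cont (φ i) (ψ i)).comp' hT) μ]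
    simp only [Finset.sum_apply]
    rfl
  have k : ∀ F G : Fm → ℝ, Continuous F → Continuous G → (∀ p, |F p - G p| ≤ η / 2) →
      |∫ p, F p ∂μ - ∫ p, G p ∂μ| ≤ η / 2 := fun F G hF hG h => by
    rw [← integral_sub (intg hF μ) (intg hG μ)]
    simpa using norm_integral_le_of_norm_le_const (μ := μ) (f := fun p => F p - G p)
      (Eventually.of_forall h)
  have k1 := abs_le.1 (k _ _ hF hc h1)
  have k2 := abs_le.1 (k _ _ (hF.comp' hT) (hc.comp' hT) fun p => h1 (T p))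
  rw [Real.dist_eq, abs_le]
  constructor <;> linarith [k1.1, k1.2, k2.1, k2.2]

end Meas

open Meas in
theorem meas (hW : WdStmt) : MeasStmt := by
  intro y 𝒰 he h1 h0
  obtain ⟨Λ, hΛ, hl, hx, hi⟩ := exists_St hW he h1 h0
  obtain ⟨μ, _, hμ⟩ := exists_measure hΛ
  refine ⟨μ, inferInstance, fun φ ψ => hμ φ ψ ▸ hl φ ψ, ?_,
    inv_of μ continuous_ngx fun φ ψ => ?_, inv_of μ continuous_ngi fun φ ψ => ?_⟩
  rotate_left
  · rw [← hμ, ← hx, hμ]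
    simp only [ant_apply]
    rfl
  · rw [← hμ, ← hi, hμ]
    simp only [ant_apply]
    rfl
  rintro A α ⟨-, B, hB, hAB⟩
  obtain ⟨n, N, φ, ψ, B', -, rfl, hBB, hB'⟩ := hW.2.2.2.2.1 B α hB
  rw [int_sum]
  have h2 := (null h1 h0 (ord_add hAB hBB)).add
    (tendsto_finsetSum Finset.univ fun i _ => hl (φ i) (ψ i))
  simp only [zero_add, hμ] at h2
  refine h2.congr fun n => ?_
  rw [← sum_inner, ← hB' _ (he n), ← inner_add_left]
  simp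

end Pool.Agent.Lib.MP_2fa2a2_gt.PI
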