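import Pool.Agent.Lib.MP_2fa2a2_gt.PI.SZone

namespace Pool.Agent.Lib.MP_2fa2a2_gt.PI

open MeasureTheory

theorem nom_jet (a : Fm → ℝ) (μ : Measure Fm) (ha : a ∈ Sy) :
    ∫ p, jet a p ∂(μ.map ngx) = ∫ p, jet (a ∘ ngx) p ∂μ := by
  rw [integral_map continuous_ngx.measurable.aemeasurable (continuous_jet ha).aestronglyMeasurable]
  simp only [jet, LL_ngx, Function.comp_apply]

theorem nom_PP (j : ℕ) (v : Sm) (a : Fm → ℝ) (μ : Measure Fm) (ha : a ∈ Sy) :
    ∫ p, PP j v a p ∂(μ.map ngx) = ∫ p, PP j (ant v) (a ∘ ngx) p ∂μ := by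
  rw [integral_map continuous_ngx.measurable.aemeasurable
    (Sy_continuous (PP_mem j v ha)).aestronglyMeasurable, PP_ngx, ant_ant]
  rfl

theorem nom_TrO {j : ℕ} {u : Sm} {η : ℝ} {μ : Measure Fm} (h : TrO j u η μ) :
    TrO j u η (μ.map ngx) := fun a ha => by
  rw [nom_jet a μ ha, nom_PP j _ a μ ha, mem_Od.1 (odp_mem u), ← neg_one_smul ℝ (odp u),
    PP_smul_left]
  simpa [integral_neg] using h _ (ngx_mem ha)

theorem nom_TrE {j : ℕ} {u χ : Sm} {η : ℝ} {μ : Measure Fm} (h : TrE j u χ η μ) :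
    TrE j u χ η (μ.map ngx) := fun a ha h' => by
  rw [nom_jet a μ ha, nom_PP j _ a μ ha, mem_Ev.1 (evp_mem u)]
  exact h _ (ngx_mem ha) fun p hp => h' (ngx p) hp

theorem nom_slab (d : ZD) (r : ℝ) (μ : Measure Fm) :
    (μ.map ngx).real (slab d r) = μ.real (slab' d r) := by
  have h : MeasurableSet (slab d r) := (isClosed_le
    (((Sy_continuous (px_mem (X 2))).sub continuous_const).abs) continuous_const).measurableSet
  rw [map_measureReal_apply continuous_ngx.measurable h]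
  congr 1
  ext p
  have e : X 2 (ngx p).x = -X 2 p.x := by
    have := ant_apply (X 2) p.x
    rw [ant_X] at this
    exact this.symm
  simp only [slab, slab', Set.mem_preimage, Set.mem_ofPred_eq, e]
  rw [← abs_neg]
  ring_nf

theorem noM (hL : LyaStmt) (hT : ThinStmt) (hB : BrkStmt) : NoMeasStmt := by
  intro j C0 hj hC0
  obtain ⟨C, hC, h1⟩ := hL j C0 hj hC0
  have hγ : 0 < 1 / (8 * C) := by positivity
  obtain ⟨ℓ, l0, l1, h2⟩ := hT j C0 _ hC0 hγ
  refine ⟨ℓ, l0, l1, fun t C1 ht hC1 => ?_⟩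
  obtain ⟨m1, h1⟩ := h1 C1 hC1
  obtain ⟨m2, h2⟩ := h2 t ht
  obtain ⟨m3, h3⟩ := hB j C0 t ℓ C1 _ hj hC0 ht l0 hC1 hγ
  refine ⟨m1 + m2 + m3, fun m hm κ1 u χ d k0 k1 hZ μ hμ o e => ?_⟩
  have o' : TrO j u (1 / m ^ 20) μ := fun a ha => (o a ha).trans (mul_le_mul_of_nonneg_right
    (div_le_div_of_nonneg_right k1 (by positivity))
    (integral_nonneg fun p => by unfold jet; positivity))
  have key : ∀ μ : Measure Fm, IsProbabilityMeasure μ → TrO j u (1 / m ^ 20) μ →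
      TrE j u χ (κ1 / m ^ 20) μ → μ.real (slab d 1) ≤ 2 * (1 / (8 * C) * μ.real (slab d 3)) := by
    intro μ hμ o e
    have a1 := h2 m (by omega) C1 κ1 u χ d μ hμ hZ o
    have a2 := h3 m (by omega) κ1 u χ d μ k0 hμ hZ o e
    have a3 := measureReal_union_le (μ := μ) (slab d 1 ∩ strip t ℓ) (slab d 1 \ strip t ℓ)
    rw [Set.inter_union_sdiff] at a3
    linarith
  have b1 := key μ hμ o' e
  have b2 := key (μ.map ngx)
    (Measure.isProbabilityMeasure_map continuous_ngx.measurable.aemeasurable) (nom_TrO o')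
    (nom_TrE e)
  rw [nom_slab, nom_slab] at b2
  obtain ⟨b3, b4⟩ := h1 m (by omega) t ℓ κ1 u χ d μ hμ hZ o'
  have b5 := measureReal_union_le (μ := μ) (slab d 1) (slab' d 1)
  have b6 : μ.real (slab d 3) ≤ μ.real (slab d 3 ∪ slab' d 3) :=
    measureReal_mono Set.subset_union_left
  have b7 : μ.real (slab' d 3) ≤ μ.real (slab d 3 ∪ slab' d 3) :=
    measureReal_mono Set.subset_union_right
  have b8 := mul_le_mul_of_nonneg_left (b6.trans b3) hγ.le
  have b9 := mul_le_mul_of_nonneg_left (b7.trans b3) hγ.le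
  have e1 : 1 / (8 * C) * (C * μ.real (slab d 1 ∪ slab' d 1)) =
      μ.real (slab d 1 ∪ slab' d 1) / 8 := by field_simp
  linarith

end Pool.Agent.Lib.MP_2fa2a2_gt.PI
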