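import Pool.Agent.Lib.MP_2fa2a2_gt.PI.Cls

/-! Model profiles of the leading wave and the linear solve. -/

namespace Pool.Agent.Lib.MP_2fa2a2_gt.PI

open Real Filter Set
open scoped ContDiff

theorem prof_iter {z T c : ℝ} (i : ℕ) : ∀ {Φ G : Pf}, Per Φ → Per G →
    (∀ s, Φ (z, s) = c * G (T, s)) → ∀ s, ds^[i] Φ (z, s) = c * ds^[i] G (T, s) := by
  induction i with
  | zero => intro Φ G _ _ h s; exact h s
  | succ i ih =>
    intro Φ G hΦ hG h s
    rw [Function.iterate_succ_apply, Function.iterate_succ_apply]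
    apply ih hΦ.ds hG.ds
    intro s
    have h1 := hasDerivAt_ds hΦ z s
    have h2 := (hasDerivAt_ds hG T s).const_mul c
    have e : (fun t => Φ (z, t)) = fun t => c * G (T, t) := funext h
    rw [e] at h1
    exact h1.unique h2

theorem prof_per_iter (i : ℕ) : ∀ {G : Pf}, Per G → Per (ds^[i] G) := by
  induction i with
  | zero => intro G h; exact h
  | succ i ih => intro G h; rw [Function.iterate_succ_apply]; exact ih h.ds

theorem prof_bdd {G : Pf} (hG : Per G) :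
    ∃ C : ℝ, 0 ≤ C ∧ ∀ T ∈ Icc (0 : ℝ) 2, ∀ s, |G (T, s)| ≤ C := by
  have hc : IsCompact (Icc (0 : ℝ) 2 ×ˢ Icc (0 : ℝ) (2 * π)) := isCompact_Icc.prod isCompact_Icc
  obtain ⟨C, hC⟩ := hc.exists_bound_of_continuousOn hG.1.continuous.continuousOn
  refine ⟨max C 0, le_max_right _ _, fun T hT s => ?_⟩
  have hp : Function.Periodic (fun s => G (T, s)) (2 * π) := fun s => hG.2 T s
  obtain ⟨y, hy, e⟩ := hp.exists_mem_Ico₀ (by positivity) s
  have := hC (T, y) ⟨hT, hy.1, hy.2.le⟩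
  rw [Real.norm_eq_abs] at this
  rw [e]
  exact le_trans this (le_max_left _ _)

theorem prof_comp {G : Pf} (hG : Per G) {T : ℝ → ℝ} (hT : ContDiff ℝ ∞ T) :
    Per (fun x => G (T x.1, x.2)) :=
  ⟨hG.1.comp ((hT.comp contDiff_fst).prodMk contDiff_snd), fun z s => hG.2 (T z) s⟩

theorem prof_anti {Φ : Pf} (h : Per Φ) (ha : ∀ z s, Φ (z, s + π) = -Φ (z, s)) : Mz Φ := by
  intro z
  have e := mean_shift h z π
  simp only [ha, intervalIntegral.integral_neg] at e
  unfold mean at e ⊢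
  linarith

/-- even model profile -/
noncomputable def profE : Pf := fun x =>
  (√(1 + x.1 ^ 2) * (1 + √(1 + x.1 ^ 2)))⁻¹ - sin x.2 ^ 2 / (1 + x.1 ^ 2 * sin x.2 ^ 2)
/-- odd model profile -/
noncomputable def profY : Pf := fun x => sin x.2 / (1 + x.1 ^ 2 * sin x.2 ^ 2)

theorem prof_perY : Per profY := by
  refine ⟨?_, fun z s => by simp [profY]⟩
  unfold profY
  refine ContDiff.div (by fun_prop) (by fun_prop) fun x => ?_
  positivity

theorem prof_perE : Per profE := by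
  refine ⟨?_, fun z s => by simp [profE]⟩
  unfold profE
  have h1 : ContDiff ℝ ∞ (fun x : ℝ × ℝ => √(1 + x.1 ^ 2)) :=
    ContDiff.sqrt (by fun_prop) fun x => by positivity
  refine ContDiff.sub (ContDiff.inv (h1.mul (contDiff_const.add h1)) fun x => ?_)
    (ContDiff.div (by fun_prop) (by fun_prop) fun x => ?_)
  · positivity
  · positivity

theorem prof_prim {a : ℝ} (ha : 0 < a) (s : ℝ) :
    HasDerivAt (fun s => s + arctan ((a - 1) * (sin s * cos s) / (cos s ^ 2 + a * sin s ^ 2)))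
      (a / (cos s ^ 2 + a ^ 2 * sin s ^ 2)) s := by
  have hsc := sin_sq_add_cos_sq s
  have pos : ∀ b : ℝ, 0 < b → 0 < cos s ^ 2 + b * sin s ^ 2 := by
    intro b hb
    rcases le_total b 1 with h | h
    · nlinarith [sq_nonneg (cos s), sq_nonneg (sin s)]
    · nlinarith [sq_nonneg (cos s), sq_nonneg (sin s)]
  have hD := pos a ha
  have hD2 := pos (a ^ 2) (by positivity)
  have h1 : HasDerivAt (fun s => (a - 1) * (sin s * cos s))
      ((a - 1) * (cos s * cos s + sin s * -sin s)) s :=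
    ((hasDerivAt_sin s).mul (hasDerivAt_cos s)).const_mul _
  have h2 : HasDerivAt (fun s => cos s ^ 2 + a * sin s ^ 2)
      (2 * cos s * -sin s + a * (2 * sin s * cos s)) s := by
    exact (((hasDerivAt_cos s).pow 2).add
      (((hasDerivAt_sin s).pow 2).const_mul a)).congr_deriv (by simp)
  have h3 := (hasDerivAt_id s).add (h1.div h2 hD.ne').arctan
  refine h3.congr_deriv ?_
  simp only [Pi.div_apply]
  have key : (cos s ^ 2 + a * sin s ^ 2) ^ 2 + ((a - 1) * (sin s * cos s)) ^ 2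
      = cos s ^ 2 + a ^ 2 * sin s ^ 2 := by
    linear_combination (cos s ^ 2 + a ^ 2 * sin s ^ 2) * hsc
  have e1 : 1 + ((a - 1) * (sin s * cos s) / (cos s ^ 2 + a * sin s ^ 2)) ^ 2
      = (cos s ^ 2 + a ^ 2 * sin s ^ 2) / (cos s ^ 2 + a * sin s ^ 2) ^ 2 := by
    rw [← key]; field_simp
  rw [e1]
  field_simp
  linear_combination (a + (a - 1) * (cos s ^ 2 - a * sin s ^ 2)) * hsc

theorem prof_int (T : ℝ) :
    ∫ s in (0 : ℝ)..2 * π, (1 + T ^ 2 * sin s ^ 2)⁻¹ = 2 * π / √(1 + T ^ 2) := by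
  have ha : 0 < √(1 + T ^ 2) := by positivity
  have ha2 : √(1 + T ^ 2) ^ 2 = 1 + T ^ 2 := Real.sq_sqrt (by positivity)
  generalize √(1 + T ^ 2) = a at ha ha2
  have hd : ∀ s ∈ uIcc (0 : ℝ) (2 * π), HasDerivAt
      (fun s => (s + arctan ((a - 1) * (sin s * cos s) / (cos s ^ 2 + a * sin s ^ 2))) / a)
      ((1 + T ^ 2 * sin s ^ 2)⁻¹) s := by
    intro s _
    refine ((prof_prim ha s).div_const a).congr_deriv ?_
    have e : cos s ^ 2 + a ^ 2 * sin s ^ 2 = 1 + T ^ 2 * sin s ^ 2 := by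
      rw [ha2]; linear_combination sin_sq_add_cos_sq s
    rw [e]; field_simp
  have hc : Continuous fun s : ℝ => (1 + T ^ 2 * sin s ^ 2)⁻¹ :=
    Continuous.inv₀ (by fun_prop) fun s => by positivity
  rw [intervalIntegral.integral_eq_sub_of_hasDerivAt hd (hc.intervalIntegrable _ _)]
  simp

theorem prof_mzE : Mz profE := by
  intro T
  unfold mean profE
  have ha : 0 < √(1 + T ^ 2) := by positivity
  have ha2 : √(1 + T ^ 2) ^ 2 = 1 + T ^ 2 := Real.sq_sqrt (by positivity)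
  have hc : Continuous fun s : ℝ => (1 + T ^ 2 * sin s ^ 2)⁻¹ :=
    Continuous.inv₀ (by fun_prop) fun s => by positivity
  have hc2 : Continuous fun s : ℝ => sin s ^ 2 / (1 + T ^ 2 * sin s ^ 2) :=
    Continuous.div (by fun_prop) (by fun_prop) fun s => by positivity
  simp only
  rw [intervalIntegral.integral_sub (by simp) (hc2.intervalIntegrable _ _)]
  apply mul_eq_zero_of_right
  rcases eq_or_ne T 0 with rfl | hT
  · simp [integral_sin_sq]
    ring
  · have e : ∀ s : ℝ, sin s ^ 2 / (1 + T ^ 2 * sin s ^ 2)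
        = (T ^ 2)⁻¹ * (1 - (1 + T ^ 2 * sin s ^ 2)⁻¹) := by
      intro s
      have : 0 < 1 + T ^ 2 * sin s ^ 2 := by positivity
      field_simp
      ring
    simp only [e]
    rw [intervalIntegral.integral_const_mul,
      intervalIntegral.integral_sub (by simp) (hc.intervalIntegrable _ _), prof_int]
    generalize √(1 + T ^ 2) = a at ha ha2
    simp only [intervalIntegral.integral_const, sub_zero, smul_eq_mul, mul_one]
    field_simp
    linear_combination (-2 * π) * ha2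

/-- the linear solve -/
theorem prof_solve {U Q Uh Qh : Pf} {κ p : ℝ → ℝ} (hκ : ContDiff ℝ ∞ κ) (hp : ContDiff ℝ ∞ p)
    (p0 : ∀ z, 0 < p z) (hUh : Per Uh) (hQh : Per Qh) (mU : Mz Uh)
    (eU : U = sl p + sl κ * sl κ * Uh) (eQ : Q = sl κ * Qh)
    (eR : U * U + Q * Q = sl (fun z => p z ^ 2 + κ z ^ 2))
    (sU : ∀ z s, Uh (z, s + π) = Uh (z, s)) (sQ : ∀ z s, Qh (z, s + π) = -Qh (z, s))
    (hμ : ∀ z, 0 < mean (Qh * fun x => sin x.2) z)
    (z1 z2 β : ℝ) (r : ℕ → Pf) (hr : PF z1 z2 β r) (mr : ∀ m, Mz (r m)) :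
    ∃ γo γe : ℕ → Pf, PF z1 z2 β γo ∧ PF z1 z2 β γe ∧ (∀ m, Mz (γo m)) ∧ (∀ m, Mz (γe m)) ∧
      ∀ m, U * γo m + Q * γe m = r m := by
  have hU : Per U := eU ▸ (Per_sl hp).add (((Per_sl hκ).mul (Per_sl hκ)).mul hUh)
  have hQ : Per Q := eQ ▸ (Per_sl hκ).mul hQh
  obtain ⟨y, hy⟩ : ∃ y : Pf, y = fun x => sin x.2 := ⟨_, rfl⟩
  have py : Per y := hy ▸ Per_sin
  rw [← hy] at hμ
  obtain ⟨μ, eμ⟩ : ∃ μ, μ = mean (Qh * y) := ⟨_, rfl⟩
  have sμ : ContDiff ℝ ∞ μ := eμ ▸ (hQh.mul py).mean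
  rw [← eμ] at hμ
  have R0 : ∀ z, 0 < p z ^ 2 + κ z ^ 2 := fun z => by have := p0 z; positivity
  obtain ⟨ι, eι⟩ : ∃ ι : ℝ → ℝ, ι = fun z => (p z ^ 2 + κ z ^ 2)⁻¹ := ⟨_, rfl⟩
  have sι : ContDiff ℝ ∞ ι := eι ▸ ContDiff.inv (by fun_prop) fun z => (R0 z).ne'
  obtain ⟨f1, e1⟩ : ∃ f : ℝ → ℝ, f = fun z => -(ι z / p z) := ⟨_, rfl⟩
  have s1 : ContDiff ℝ ∞ f1 := e1 ▸ (sι.div hp fun z => (p0 z).ne').neg
  obtain ⟨f2, e2⟩ : ∃ f : ℝ → ℝ, f = fun z => κ z * ι z / μ z := ⟨_, rfl⟩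
  have s2 : ContDiff ℝ ∞ f2 := e2 ▸ (hκ.mul sι).div sμ fun z => (hμ z).ne'
  have F1 := (hr.per_mul hQ).mean
  have F2 := (hr.per_mul hUh).mean
  have mQ : Mz Q := prof_anti hQ fun z s => by simp [eQ, sl, sQ]
  have mUy : Mz (U * y) := prof_anti (hU.mul py) fun z s => by simp [eU, hy, sl, sU]
  have mU' : ∀ z, mean U z = p z := by
    intro z
    rw [eU, mean_add (Per_sl hp) (((Per_sl hκ).mul (Per_sl hκ)).mul hUh), mean_sl, mul_assoc,
      mean_sl_mul, mean_sl_mul, mU z]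
    ring
  refine ⟨fun m => sl ι * U * r m - sl f1 * Q * sl (mean (Q * r m))
      - sl f2 * (Q * y) * sl (mean (Uh * r m)),
    fun m => sl ι * Q * r m + sl f1 * U * sl (mean (Q * r m))
      + sl f2 * (U * y) * sl (mean (Uh * r m)), ?_, ?_, fun m z => ?_, fun m z => ?_, fun m => ?_⟩
  · exact ((hr.per_mul ((Per_sl sι).mul hU)).sub (F1.per_mul ((Per_sl s1).mul hQ))).sub
      (F2.per_mul ((Per_sl s2).mul (hQ.mul py)))
  · exact ((hr.per_mul ((Per_sl sι).mul hQ)).add (F1.per_mul ((Per_sl s1).mul hU))).add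
      (F2.per_mul ((Per_sl s2).mul (hU.mul py)))
  · have pr := (hr.1 m).1
    have p1 := (F1.1 m).1
    have p2 := (F2.1 m).1
    have a1 := ((Per_sl sι).mul hU).mul pr
    have a2 := ((Per_sl s1).mul hQ).mul p1
    have a3 := ((Per_sl s2).mul (hQ.mul py)).mul p2
    rw [mean_sub (a1.sub a2) a3, mean_sub a1 a2, mul_comm _ (sl (mean (Q * r m))),
      mul_comm _ (sl (mean (Uh * r m))), mean_sl_mul, mean_sl_mul, mean_sl_mul, mean_sl_mul,
      mul_assoc, mean_sl_mul, mQ z]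
    have b1 : U * r m = sl p * r m + sl κ * (sl κ * (Uh * r m)) := by rw [eU]; ring
    have b2 : Q * y = sl κ * (Qh * y) := by rw [eQ]; ring
    rw [b1, b2, mean_add ((Per_sl hp).mul pr) ((Per_sl hκ).mul ((Per_sl hκ).mul (hUh.mul pr))),
      mean_sl_mul, mean_sl_mul, mean_sl_mul, mean_sl_mul, mr m z, ← eμ, e2]
    have := (hμ z).ne'
    field_simp
    ring
  · have pr := (hr.1 m).1
    have p1 := (F1.1 m).1
    have p2 := (F2.1 m).1
    have a1 := ((Per_sl sι).mul hQ).mul pr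
    have a2 := ((Per_sl s1).mul hU).mul p1
    have a3 := ((Per_sl s2).mul (hU.mul py)).mul p2
    rw [mean_add (a1.add a2) a3, mean_add a1 a2, mul_comm _ (sl (mean (Q * r m))),
      mul_comm _ (sl (mean (Uh * r m))), mean_sl_mul, mean_sl_mul, mean_sl_mul, mean_sl_mul,
      mul_assoc, mean_sl_mul, mUy z, mU' z, e1]
    have := (p0 z).ne'
    field_simp
    ring
  · have e : sl ι * sl (fun z => p z ^ 2 + κ z ^ 2) = 1 := by
      funext x
      simp only [sl, eι, Pi.mul_apply, Pi.one_apply]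
      exact inv_mul_cancel₀ (R0 _).ne'
    linear_combination (sl ι * r m) * eR + r m * e

end Pool.Agent.Lib.MP_2fa2a2_gt.PI
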