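import Pool.Agent.Lib.MP_2fa2a2_gt.PI.SWkb
import Pool.Agent.Lib.MP_2fa2a2_gt.PI.ProfX

namespace Pool.Agent.Lib.MP_2fa2a2_gt.PI

open Real Filter Set
open scoped ContDiff

/-- the shape parameter divided by the amplitude -/
noncomputable def proft (κ p : ℝ) : ℝ := √(3 * rho κ p + p) / (rho κ p + p) ^ (3 / 2 : ℝ)

theorem prof_TT (κ p : ℝ) : TT κ p = κ * proft κ p := by
  unfold TT proft; rw [mul_div_assoc]

theorem prof_pt {κ p : ℝ} (hκ : 0 ≤ κ) (hp : 0 < p) :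
    p ≤ rho κ p ∧ rho κ p ^ 2 = p ^ 2 + κ ^ 2 ∧ 0 ≤ TT κ p ∧ TT κ p ^ 2 ≤ 3 ∧
    √(1 + TT κ p ^ 2) = 2 * rho κ p / (rho κ p + p) ∧
    1 / 2 ≤ rho κ p * proft κ p ∧ rho κ p * proft κ p ≤ 2 := by
  have h2 : rho κ p ^ 2 = p ^ 2 + κ ^ 2 := Real.sq_sqrt (by positivity)
  have h1 : p ≤ rho κ p := Real.le_sqrt_of_sq_le (by nlinarith [sq_nonneg κ])
  have ht0 : 0 ≤ proft κ p := by
    unfold proft
    have : 0 < rho κ p + p := by linarith
    positivity
  have ht2 : proft κ p ^ 2 = (3 * rho κ p + p) / (rho κ p + p) ^ 3 := by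
    unfold proft
    have : 0 < rho κ p + p := by linarith
    rw [div_pow, Real.sq_sqrt (by linarith), ← Real.rpow_natCast, ← Real.rpow_mul this.le]
    norm_num
  rw [prof_TT]
  generalize rho κ p = ρ at *
  generalize proft κ p = t at *
  have hρ : 0 < ρ := by linarith
  have hs : 0 < ρ + p := by linarith
  have hk : κ ^ 2 = (ρ - p) * (ρ + p) := by linear_combination -h2
  have hT : 1 + (κ * t) ^ 2 = (2 * ρ / (ρ + p)) ^ 2 := by
    rw [mul_pow, ht2, hk]; field_simp; ring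
  have hl : (ρ * t) ^ 2 * (ρ + p) ^ 3 = ρ ^ 2 * (3 * ρ + p) := by
    rw [mul_pow, ht2]; field_simp
  have ha : 2 * ρ / (ρ + p) ≤ 2 := by rw [div_le_iff₀ hs]; linarith
  have ha0 : 0 ≤ 2 * ρ / (ρ + p) := by positivity
  have c1 : (ρ + p) ^ 3 ≤ (2 * ρ) ^ 3 := pow_le_pow_left₀ hs.le (by linarith) 3
  have c2 : ρ ^ 3 ≤ (ρ + p) ^ 3 := pow_le_pow_left₀ hρ.le (by linarith) 3
  have c3 : 0 < (ρ + p) ^ 3 := by positivity
  have c4 : 0 < ρ ^ 3 := by positivity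
  have c5 : 0 < ρ ^ 2 * p := by positivity
  have c6 : ρ ^ 2 * p ≤ ρ ^ 3 := by nlinarith [sq_nonneg ρ]
  refine ⟨h1, h2, by positivity, by nlinarith, by rw [hT, Real.sqrt_sq ha0], ?_, ?_⟩
  · apply le_of_sq_le_sq _ (by positivity)
    apply le_of_mul_le_mul_right _ c3
    rw [hl]; nlinarith
  · apply le_of_sq_le_sq _ (by norm_num)
    apply le_of_mul_le_mul_right _ c3
    rw [hl]; nlinarith

theorem prof : ProfStmt := by
  choose C1 h10 h1 using fun i => prof_bdd (prof_per_iter i prof_perE)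
  choose C2 h20 h2 using fun i => prof_bdd (prof_per_iter i prof_perY)
  refine ⟨fun i => 4 + 8 * C1 i + 4 * C2 i, fun i => by linarith [h10 i, h20 i],
    fun κ p hκ hp κ0 p0 => ?_⟩
  have pt := fun z => prof_pt (κ0 z) (p0 z)
  have sρ : ContDiff ℝ ∞ (fun z => rho (κ z) (p z)) :=
    ContDiff.sqrt (by fun_prop) fun z => by have := p0 z; positivity
  have st : ContDiff ℝ ∞ (fun z => proft (κ z) (p z)) := by
    unfold proft
    refine ContDiff.div (ContDiff.sqrt (by fun_prop) fun z => ?_)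
      (ContDiff.rpow_const_of_ne (by fun_prop) fun z => ?_) fun z => ?_
    · have := (pt z).1; have := p0 z; linarith
    · have := (pt z).1; have := p0 z; linarith
    · have : 0 < rho (κ z) (p z) + p z := by have := (pt z).1; have := p0 z; linarith
      positivity
  have sT : ContDiff ℝ ∞ (fun z => TT (κ z) (p z)) := by
    simp only [prof_TT]; exact hκ.mul st
  have eT := fun z => prof_TT (κ z) (p z)
  unfold uu qe
  obtain ⟨ρ, hρ⟩ : ∃ ρ : ℝ → ℝ, ∀ z, rho (κ z) (p z) = ρ z := ⟨_, fun _ => rfl⟩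
  obtain ⟨t, ht⟩ : ∃ t : ℝ → ℝ, ∀ z, proft (κ z) (p z) = t z := ⟨_, fun _ => rfl⟩
  obtain ⟨T, hT⟩ : ∃ T : ℝ → ℝ, ∀ z, TT (κ z) (p z) = T z := ⟨_, fun _ => rfl⟩
  simp only [hρ, ht, hT] at pt sρ st sT eT ⊢
  have T2 : ∀ z, T z ∈ Icc (0 : ℝ) 2 := fun z =>
    ⟨(pt z).2.2.1, by nlinarith [(pt z).2.2.1, (pt z).2.2.2.1]⟩
  have pE := prof_comp prof_perE sT
  have pY := prof_comp prof_perY sT
  have pU : Per (sl (fun z => 2 * ρ z * t z ^ 2) * fun x => profE (T x.1, x.2)) :=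
    (Per_sl (by fun_prop)).mul pE
  have pQ : Per (sl (fun z => 2 * ρ z * t z) * fun x => profY (T x.1, x.2)) :=
    (Per_sl (by fun_prop)).mul pY
  have mU : Mz (sl (fun z => 2 * ρ z * t z ^ 2) * fun x => profE (T x.1, x.2)) := by
    intro z
    rw [mean_sl_mul]
    exact mul_eq_zero_of_right _ (prof_mzE (T z))
  have sU : ∀ z s, (sl (fun z => 2 * ρ z * t z ^ 2) * fun x : ℝ × ℝ => profE (T x.1, x.2))
      (z, s + π) = (sl (fun z => 2 * ρ z * t z ^ 2) * fun x : ℝ × ℝ => profE (T x.1, x.2))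
      (z, s) := fun z s => by simp [sl, profE]
  have sQ : ∀ z s, (sl (fun z => 2 * ρ z * t z) * fun x : ℝ × ℝ => profY (T x.1, x.2))
      (z, s + π) = -(sl (fun z => 2 * ρ z * t z) * fun x : ℝ × ℝ => profY (T x.1, x.2))
      (z, s) := fun z s => by simp [sl, profY, neg_div]
  have eU : (fun x : ℝ × ℝ => ρ x.1 * (2 / (1 + T x.1 ^ 2 * sin x.2 ^ 2) - 1)) =
      sl p + sl κ * sl κ * (sl (fun z => 2 * ρ z * t z ^ 2) * fun x => profE (T x.1, x.2)) := by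
    funext x
    obtain ⟨q1, -, -, -, q5, -⟩ := pt x.1
    have q6 : √(1 + T x.1 ^ 2) ^ 2 = 1 + T x.1 ^ 2 := Real.sq_sqrt (by positivity)
    have q0 := p0 x.1
    have q7 : 0 < √(1 + T x.1 ^ 2) := by positivity
    have q8 : p x.1 = ρ x.1 * (2 / √(1 + T x.1 ^ 2) - 1) := by
      rw [q5]
      have : 0 < ρ x.1 := by linarith
      field_simp
      ring
    have q9 : κ x.1 * κ x.1 * (2 * ρ x.1 * t x.1 ^ 2) = 2 * ρ x.1 * T x.1 ^ 2 := by
      rw [eT]; ring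
    simp only [sl, profE, Pi.add_apply, Pi.mul_apply]
    rw [← mul_assoc, q9, q8]
    generalize √(1 + T x.1 ^ 2) = a at q6 q7
    have : 0 < 1 + T x.1 ^ 2 * sin x.2 ^ 2 := by positivity
    field_simp
    linear_combination (2 * ρ x.1 * (1 + T x.1 ^ 2 * sin x.2 ^ 2)) * q6
  have eQ : (fun x : ℝ × ℝ => 2 * ρ x.1 * T x.1 * sin x.2 / (1 + T x.1 ^ 2 * sin x.2 ^ 2)) =
      sl κ * (sl (fun z => 2 * ρ z * t z) * fun x => profY (T x.1, x.2)) := by
    funext x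
    simp only [sl, profY, Pi.mul_apply]
    have q9 : κ x.1 * (2 * ρ x.1 * t x.1) = 2 * ρ x.1 * T x.1 := by rw [eT]; ring
    rw [← mul_assoc, q9, mul_div_assoc]
  have eR : (fun x : ℝ × ℝ => ρ x.1 * (2 / (1 + T x.1 ^ 2 * sin x.2 ^ 2) - 1)) *
      (fun x : ℝ × ℝ => ρ x.1 * (2 / (1 + T x.1 ^ 2 * sin x.2 ^ 2) - 1)) +
      (fun x : ℝ × ℝ => 2 * ρ x.1 * T x.1 * sin x.2 / (1 + T x.1 ^ 2 * sin x.2 ^ 2)) *
      (fun x : ℝ × ℝ => 2 * ρ x.1 * T x.1 * sin x.2 / (1 + T x.1 ^ 2 * sin x.2 ^ 2)) =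
      sl (fun z => p z ^ 2 + κ z ^ 2) := by
    funext x
    simp only [sl, Pi.mul_apply, Pi.add_apply]
    rw [← (pt x.1).2.1]
    have : 0 < 1 + T x.1 ^ 2 * sin x.2 ^ 2 := by positivity
    field_simp
    ring
  have lowQ : ∀ x : ℝ × ℝ, sin x.2 ^ 2 / 4 ≤
      (sl (fun z => 2 * ρ z * t z) * fun x : ℝ × ℝ => profY (T x.1, x.2)) x * sin x.2 := by
    intro x
    obtain ⟨-, -, -, q4, -, q6, -⟩ := pt x.1
    simp only [sl, profY, Pi.mul_apply]
    have q1 : 0 < 1 + T x.1 ^ 2 * sin x.2 ^ 2 := by positivity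
    have q2 : T x.1 ^ 2 * sin x.2 ^ 2 ≤ 3 * 1 :=
      mul_le_mul q4 (sin_sq_le_one _) (sq_nonneg _) (by norm_num)
    have e : 2 * ρ x.1 * t x.1 * (sin x.2 / (1 + T x.1 ^ 2 * sin x.2 ^ 2)) * sin x.2
        = 2 * (ρ x.1 * t x.1) * sin x.2 ^ 2 / (1 + T x.1 ^ 2 * sin x.2 ^ 2) := by ring
    rw [e]
    apply div_le_div₀ (by positivity) _ q1 (by linarith)
    nlinarith [sq_nonneg (sin x.2)]
  refine ⟨_, _, pU, pQ, mU, prof_anti pQ sQ, eU, eQ, eR, fun i x => ⟨?_, ?_⟩,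
    fun x => ⟨?_, ?_, fun hx => ?_⟩, prof_solve hκ hp p0 pU pQ mU eU eQ eR sU sQ fun z => ?_⟩
  · obtain ⟨-, -, -, -, -, q6, q7⟩ := pt x.1
    have e := prof_iter (z := x.1) (T := T x.1) (c := 2 * (ρ x.1 * t x.1) * T x.1) i
      ((Per_sl hκ).mul pU) prof_perE (fun s => by simp only [sl, Pi.mul_apply, eT]; ring) x.2
    rw [e, abs_mul, abs_of_nonneg (by have := (T2 x.1).1; positivity)]
    have c1 : 2 * (ρ x.1 * t x.1) * T x.1 ≤ 4 * 2 :=
      mul_le_mul (by linarith) (T2 x.1).2 (T2 x.1).1 (by norm_num)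
    have := mul_le_mul c1 (h1 i _ (T2 x.1) x.2) (abs_nonneg _) (by norm_num)
    linarith [h20 i]
  · obtain ⟨-, -, -, -, -, q6, q7⟩ := pt x.1
    have e := prof_iter (z := x.1) (T := T x.1) (c := 2 * (ρ x.1 * t x.1)) i
      pQ prof_perY (fun s => by simp only [sl, Pi.mul_apply]; ring) x.2
    rw [e, abs_mul, abs_of_nonneg (by positivity)]
    have c1 : 2 * (ρ x.1 * t x.1) ≤ 4 := by linarith
    have := mul_le_mul c1 (h2 i _ (T2 x.1) x.2) (abs_nonneg _) (by norm_num)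
    linarith [h10 i]
  · refine le_trans ?_ (lowQ x)
    exact div_le_div_of_nonneg_left (sq_nonneg _) (by norm_num) (by linarith [h10 0, h20 0])
  · obtain ⟨-, -, -, -, -, q6, q7⟩ := pt x.1
    simp only [sl, profY, Pi.mul_apply]
    have q1 : 0 < 1 + T x.1 ^ 2 * sin x.2 ^ 2 := by positivity
    have q2 : |sin x.2| / (1 + T x.1 ^ 2 * sin x.2 ^ 2) ≤ |sin x.2| :=
      div_le_self (abs_nonneg _) (le_add_of_nonneg_right (by positivity))
    rw [abs_mul, abs_div, abs_of_pos q1, abs_of_nonneg (by linarith)]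
    exact mul_le_mul (by linarith [h10 0, h20 0]) q2 (by positivity) (by linarith [h10 0, h20 0])
  · obtain ⟨q1, -, -, q4, -⟩ := pt x.1
    have q0 := p0 x.1
    have q2 : sin x.2 ^ 2 ≤ (1 / 3) ^ 2 := by
      rw [← sq_abs]; exact pow_le_pow_left₀ (abs_nonneg _) hx 2
    have q3 : T x.1 ^ 2 * sin x.2 ^ 2 ≤ 3 * (1 / 3) ^ 2 :=
      mul_le_mul q4 q2 (sq_nonneg _) (by norm_num)
    have q5 : 3 / 2 ≤ 2 / (1 + T x.1 ^ 2 * sin x.2 ^ 2) := by
      rw [le_div_iff₀ (by positivity)]; linarith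
    nlinarith
  · unfold mean
    have c := (pQ.mul Per_sin).1.continuous
    have c' : Continuous fun s : ℝ => ((sl (fun z => 2 * ρ z * t z) *
        fun x : ℝ × ℝ => profY (T x.1, x.2)) * fun x : ℝ × ℝ => sin x.2) (z, s) :=
      c.comp (by fun_prop)
    have := intervalIntegral.integral_mono_on (μ := MeasureTheory.volume) (a := 0) (b := 2 * π)
      (f := fun s : ℝ => sin s ^ 2 / 4) (by positivity)
      ((by fun_prop : Continuous fun s : ℝ => sin s ^ 2 / 4).intervalIntegrable _ _)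
      (c'.intervalIntegrable _ _) fun s _ => lowQ (z, s)
    rw [intervalIntegral.integral_div, integral_sin_sq] at this
    simp only [sin_zero, zero_mul, sin_two_pi, sub_zero, zero_add] at this
    have hpi := pi_pos
    exact mul_pos (by positivity) (by linarith)

end Pool.Agent.Lib.MP_2fa2a2_gt.PI
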