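import Pool.Agent.Lib.MP_2fa2a2_gt.PI.PullBZ

namespace Pool.Agent.Lib.MP_2fa2a2_gt.PI

open MeasureTheory Filter Topology
open scoped ContDiff

/-- divergence of the product of a vector field and a function -/
noncomputable def pbdv (W : Fin 3 → Sm) : Sm →ₗ[ℝ] Sm := ∑ b, (D b - ml (2 * X b)) ∘ₗ ml (W b)

theorem pbdv_apply (W : Fin 3 → Sm) (y : Sm) :
    pbdv W y = ∑ b, (D b (W b) * y + W b * D b y - 2 * X b * (W b * y)) := by
  simp only [pbdv, LinearMap.sum_apply, LinearMap.comp_apply, LinearMap.sub_apply,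
    LinearMap.mulLeft_apply, D_mul]

theorem pb_div_L (a : Fin 3) : ∑ b, D b (L a (X b)) = 0 := by
  rw [Fin.sum_univ_three]
  rcases alg_fin a with rfl | rfl | rfl <;>
    simp only [L_X_self, alg_01, alg_02, alg_10, alg_12, alg_20, alg_21, map_zero, map_neg, D_X,
      hess_kd_comm 0, hess_kd_comm 1 2] <;> ring

theorem pbdv_L (a : Fin 3) (y : Sm) : pbdv (fun b => L a (X b)) y = L a y := by
  have h1 := pb_div_L a
  have h2 := pb_sum_X_LX a
  rw [pbdv_apply, L_eq_sum_D a y]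
  simp only [Fin.sum_univ_three] at h1 h2 ⊢
  linear_combination y * h1 - 2 * y * h2

theorem pb_Vb (f y : Sm) : Vb f y = lap f * y + gd f y := by
  simp only [Vb, LinearMap.sum_apply, LinearMap.comp_apply, LinearMap.mulLeft_apply, L_mul,
    Finset.sum_add_distrib, lap_def, gd, Finset.sum_mul]

theorem pbdv_D (f y : Sm) : pbdv (fun b => D b f) y = Vb f y := by
  have h := sum_X_D f
  rw [pbdv_apply, pb_Vb, lap_eq_D, gd_eq_D]
  simp only [Fin.sum_univ_three] at h ⊢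
  linear_combination -2 * y * h

theorem pbdv_sub (W W' : Fin 3 → Sm) (y : Sm) :
    pbdv (fun b => W b - W' b) y = pbdv W y - pbdv W' y := by
  simp only [pbdv_apply, map_sub, Fin.sum_univ_three]
  ring

theorem pb_Vb_L (a : Fin 3) (f y : Sm) : Vb f (L a y) = L a (Vb f y) - Vb (L a f) y := by
  simp only [pb_Vb, map_add, L_mul, L_gd, lap_L]
  ring

theorem pb_OB_D (z : ℤ) (b : Fin 3) : PbOB z (z - 1) 0 fun _ => D b := by
  obtain ⟨C, h0, h⟩ := Bd_D (2 * (z - 1))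
  refine (PbOB.fix h0 (h b le_rfl)).mono ?_ ?_ le_rfl <;> push_cast <;> linarith

theorem pb_OB_L (z : ℤ) (a : Fin 3) : PbOB z (z - 1) 0 fun _ => L a :=
  (PbOB.fix zero_le_one (Bd_L le_rfl (z - 1) a)).mono (by linarith) le_rfl le_rfl

theorem pb_OB_dv {j : ℕ} {W : Fin 3 → PbP → Sm} (h : ∀ b, PbOC 5 j (W b)) (z : ℤ) (hz : |z| ≤ 4) :
    PbOB z (z - 1) j fun p => pbdv fun b => W b p := by
  refine PbOB.sum fun b => ?_
  have h1 : |z| ≤ (5 : ℕ) := hz.trans (by norm_num)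
  have h2 := ((pb_OB_D z b).sub
    ((PbOB.ml (PbOC.fix 5 (2 * X b)) z h1).mono le_rfl (by linarith) le_rfl)).comp (PbOB.ml (h b) z h1)
  rwa [zero_add] at h2

section
variable (hA : PullAStmt)
include hA

theorem pb_W5 (a b : Fin 3) : PbEx 5 (fun p => Wf p.u a b) (L a (X b)) fun p => -D b (L a p.u) :=
  (pb_ex_Wf hA a b).mono (by norm_num)

theorem pb_oP (k : ℕ) (hk : k ≤ 4) : PbOB k k 0 fun p => pull p.u :=
  PbOB.of_ON (pb_P hA pb_scale_nrm k (by omega))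

theorem pb_oE (k : ℕ) (hk : k ≤ 4) : PbOB (k + 1) k 1 fun p => pull p.u - LinearMap.id :=
  (PbOB.of_ON (T := fun p => pull p.u - LinearMap.id)
    ((pb_E hA pb_scale_nrm k (by omega)).congr (.of_forall fun p φ => by
      rw [LinearMap.sub_apply, LinearMap.id_apply]))).mono (by push_cast; rfl) le_rfl le_rfl

theorem pb_oEE (k : ℕ) (hk : k ≤ 4) :
    PbOB (k + 2) k 2 fun p => pull p.u - LinearMap.id - ∑ a, ml (L a p.u) ∘ₗ L a :=
  (PbOB.of_ON (T := fun p => pull p.u - LinearMap.id - ∑ a, ml (L a p.u) ∘ₗ L a)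
    ((pb_EE hA pb_scale_nrm k (by omega)).congr (.of_forall fun p φ => by simp [gd]))).mono
    (by push_cast; rfl) le_rfl le_rfl

omit hA in
theorem pb_ml_nat {j : ℕ} {v : PbP → Sm} (h : PbOC 6 j v) (k : ℕ) (hk : k ≤ 4) :
    PbOB k k j fun p => ml (v p) := by
  exact_mod_cast PbOB.ml h k (by rw [abs_of_nonneg (by omega)]; omega)

theorem pb_oX (z : ℤ) (hz : |z| ≤ 4) : PbOB z z 0 fun p => XX p.u := by
  have h := PbOB.int (r := 0) (j := 0) (T := fun p => XX p.u) (fun k hk => by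
    rw [add_zero]
    exact (pb_ml_nat (pb_ex_Jac hA).zero k hk).comp (pb_oP hA k hk)) (fun z h1 h2 h => by
    rw [add_zero] at h ⊢
    refine PbOB.down (h.mono (by linarith) (by linarith) le_rfl) fun a => ?_
    refine (((pb_OB_dv (fun b => (pb_W5 hA a b).zero) z (by rw [abs_le]; omega)).comp h).mono
      (by linarith) le_rfl le_rfl).congr ((pb_good hA).mono fun p hp φ => ?_)
    exact (hp.piola a φ).symm) z hz
  rwa [add_zero] at h

theorem pb_oF (z : ℤ) (hz : |z| ≤ 4) : PbOB (z + 1) z 1 fun p => XX p.u - LinearMap.id := by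
  refine PbOB.int (fun k hk => ?_) (fun z h1 h2 h => ?_) z hz
  · refine ((((pb_ml_nat (pb_ex_Jac hA).one k hk).comp (pb_oP hA k hk)).mono (by linarith) le_rfl
      le_rfl).add (pb_oE hA k hk)).congr (.of_forall fun p φ => ?_)
    simp only [XX, LinearMap.add_apply, LinearMap.sub_apply, LinearMap.comp_apply,
      LinearMap.mulLeft_apply, LinearMap.id_apply]
    ring
  · have hz : |z| ≤ 4 := by rw [abs_le]; omega
    refine PbOB.down (h.mono (by linarith) (by linarith) le_rfl) fun a => ?_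
    refine ((((pb_OB_dv (fun b => (pb_W5 hA a b).one) z hz).comp (pb_oX hA z hz)).mono
      (by linarith) le_rfl le_rfl).add (((pb_OB_L z a).comp h).mono (by linarith) le_rfl
      le_rfl)).congr ((pb_good hA).mono fun p hp φ => ?_)
    simp only [LinearMap.add_apply, LinearMap.sub_apply, LinearMap.comp_apply, LinearMap.id_apply,
      pbdv_sub, pbdv_L, map_sub, hp.piola]
    exact sub_add_sub_cancel _ _ _

theorem pb_oFF (z : ℤ) (hz : |z| ≤ 4) :
    PbOB (z + 2) z 2 fun p => XX p.u - LinearMap.id - Vb p.u := by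
  refine PbOB.int (fun k hk => ?_) (fun z h1 h2 h => ?_) z hz
  · refine (((((pb_ml_nat (pb_ex_Jac hA).2 k hk).comp (pb_oP hA k hk)).mono (by linarith) le_rfl
      le_rfl).add (((pb_ml_nat (pb_ex_Jac hA).1 k hk).comp (pb_oE hA k hk)).mono (by linarith)
      le_rfl le_rfl)).add (pb_oEE hA k hk)).congr (.of_forall fun p φ => ?_)
    simp only [XX, LinearMap.add_apply, LinearMap.sub_apply, LinearMap.comp_apply,
      LinearMap.mulLeft_apply, LinearMap.id_apply, LinearMap.sum_apply, pb_Vb, gd]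
    ring
  · have hz : |z| ≤ 4 := by rw [abs_le]; omega
    refine PbOB.down (h.mono (by linarith) (by linarith) le_rfl) fun a => ?_
    refine (((((pb_OB_dv (fun b => (pb_W5 hA a b).2) z hz).comp (pb_oX hA z hz)).mono
      (by linarith) le_rfl le_rfl).sub (((pb_OB_dv (fun b => (pb_W5 hA a b).1.neg) z hz).comp
      (pb_oF hA z hz)).mono (by linarith) le_rfl le_rfl)).add (((pb_OB_L z a).comp h).mono
      (by linarith) le_rfl le_rfl)).congr ((pb_good hA).mono fun p hp φ => ?_)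
    have e : ∀ b, Wf p.u a b - L a (X b) - -D b (L a p.u) =
        Wf p.u a b - (L a (X b) - D b (L a p.u)) := fun b => by ring
    simp only [LinearMap.add_apply, LinearMap.sub_apply, LinearMap.comp_apply, LinearMap.id_apply,
      e, neg_neg, pbdv_sub, pbdv_L, pbdv_D, map_sub, hp.piola, pb_Vb_L]
    show _ = pbdv (Wf p.u a) (XX p.u φ) - _ - _
    ring

theorem pb_oP' (z : ℤ) (hz : |z| ≤ 4) : PbOB (z + 0) z 0 fun p => pull p.u := by
  rw [add_zero]
  refine ((PbOB.ml (pb_ex_Ji hA).zero z (hz.trans (by norm_num))).comp (pb_oX hA z hz)).congr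
    ((pb_good hA).mono fun p hp φ => ?_)
  show pbJi p.u * (Jac p.u * pull p.u φ) = _
  rw [← mul_assoc, pb_Ji_mul hp, one_mul]

theorem pb_oE' (z : ℤ) (hz : |z| ≤ 4) : PbOB (z + 1) z 1 fun p => pull p.u - LinearMap.id := by
  refine ((((PbOB.ml (pb_ex_Ji hA).one z (hz.trans (by norm_num))).comp (pb_oX hA z hz)).mono
    (by linarith) le_rfl le_rfl).add (pb_oF hA z hz)).congr ((pb_good hA).mono fun p hp φ => ?_)
  show (pbJi p.u - 1) * (Jac p.u * pull p.u φ) + (Jac p.u * pull p.u φ - φ) = pull p.u φ - φ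
  linear_combination pull p.u φ * pb_Ji_mul hp

end

/-- bounds with a constant close to one -/
def PbSB (s : ℝ) (T : PbP → Sm →ₗ[ℝ] Sm) : Prop :=
  ∃ C, 0 ≤ C ∧ ∀ᶠ p in pbF, Bd 1 s s (1 + C * p.b) (T p)

theorem PbSB.sub {s : ℝ} {T T' T'' : PbP → Sm →ₗ[ℝ] Sm} (h : PbSB s T) (h' : PbOB s s 1 T')
    (e : ∀ᶠ p in pbF, ∀ φ, T'' p φ = T p φ - T' p φ) : PbSB s T'' := by
  obtain ⟨C, h0, h⟩ := h
  obtain ⟨C', h0', h'⟩ := h'
  refine ⟨C + C', by positivity, ?_⟩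
  filter_upwards [h, h', e] with p hp hp' he φ
  have h1 := hp.sub hp' φ
  rw [he]
  exact h1.trans (le_of_eq (by ring))

theorem pb_cs {a0 a1 a2 a3 b0 b1 b2 b3 M N : ℝ} (hM : 0 ≤ M) (hN : 0 ≤ N)
    (ha : a0 ^ 2 + (a1 ^ 2 + a2 ^ 2 + a3 ^ 2) ≤ M ^ 2)
    (hb : N ^ 2 = b0 ^ 2 + (b1 ^ 2 + b2 ^ 2 + b3 ^ 2)) :
    a0 * b0 + (a1 * b1 + a2 * b2 + a3 * b3) ≤ M * N := by
  refine nrmx_sq ?_ (mul_nonneg hM hN)
  rw [mul_pow]
  refine le_trans ?_ (mul_le_mul_of_nonneg_right ha (sq_nonneg N))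
  rw [hb]
  nlinarith [sq_nonneg (a0 * b1 - a1 * b0), sq_nonneg (a0 * b2 - a2 * b0),
    sq_nonneg (a0 * b3 - a3 * b0), sq_nonneg (a1 * b2 - a2 * b1), sq_nonneg (a1 * b3 - a3 * b1),
    sq_nonneg (a2 * b3 - a3 * b2)]

theorem pb_nrm_one (φ : Sm) : nrm 1 1 φ ^ 2 = ‖φ‖ ^ 2 + ∑ a, ‖L a φ‖ ^ 2 := by
  have h := nrm_succ (lam := 1) le_rfl 0 φ
  simpa only [zero_add, nrm_zero le_rfl, one_pow, one_mul] using h

theorem pb_dual {z0 : Sm} {z : Fin 3 → Sm} {M : ℝ} (hM : 0 ≤ M)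
    (h : ‖z0‖ ^ 2 + ∑ a, ‖z a‖ ^ 2 ≤ M ^ 2) : nrm 1 (-1) (z0 - ∑ a, L a (z a)) ≤ M := by
  refine nrm_le_of_dual le_rfl hM fun ψ => ?_
  have h1 := pb_nrm_one ψ
  rw [Fin.sum_univ_three] at h h1
  rw [neg_neg, inner_sub_left, sum_inner]
  simp only [inner_L, Fin.sum_univ_three]
  refine le_trans ?_ (pb_cs hM (nrm_nonneg _ _ _) h h1)
  linarith [real_inner_le_norm z0 ψ, real_inner_le_norm (z 0) (L 0 ψ),
    real_inner_le_norm (z 1) (L 1 ψ), real_inner_le_norm (z 2) (L 2 ψ)]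

section
variable (hA : PullAStmt)
include hA

theorem pb_sX0 : PbSB 0 fun p => XX p.u := by
  obtain ⟨C, h0, h⟩ := (pb_ex_Jac hA).one
  refine ⟨C, h0, ?_⟩
  filter_upwards [h, pb_good hA, pb_base] with p hp hg hb φ
  have hc : 0 ≤ C * p.b := mul_nonneg h0 hb.1
  rw [nrm_zero le_rfl, nrm_zero le_rfl]
  have h1 := hg.inner_pull φ φ
  rw [real_inner_self_eq_norm_sq, inner_def] at h1
  have h2 : I (XX p.u φ * XX p.u φ) ≤ I ((1 + C * p.b) • (XX p.u φ * pull p.u φ)) :=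
    I_mono fun x => by
      have h3 := hg.jac_ge x
      have h4 := (abs_le.1 (hp.abs_le x)).2
      rw [pow_one, Sm.sub_apply, Sm.one_apply] at h4
      show Jac p.u x * pull p.u φ x * (Jac p.u x * pull p.u φ x) ≤
        (1 + C * p.b) * (Jac p.u x * pull p.u φ x * pull p.u φ x)
      have h5 : 0 ≤ Jac p.u x * (pull p.u φ x * pull p.u φ x) :=
        mul_nonneg (by linarith) (mul_self_nonneg _)
      nlinarith
  rw [map_smul, h1, ← norm_sq_eq, smul_eq_mul] at h2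
  refine nrmx_sq ?_ (by positivity)
  nlinarith [mul_nonneg hc (sq_nonneg ‖φ‖), mul_nonneg (mul_nonneg hc hc) (sq_nonneg ‖φ‖)]

theorem pb_sP0 : PbSB 0 fun p => pull p.u := by
  have h := (pb_ml_nat (pb_ex_Jac hA).one 0 (by norm_num)).comp (pb_oP hA 0 (by norm_num))
  rw [Nat.cast_zero] at h
  refine (pb_sX0 hA).sub h (.of_forall fun p φ => ?_)
  show _ = Jac p.u * pull p.u φ - (Jac p.u - 1) * pull p.u φ
  ring

theorem pb_sX1 : PbSB (-1) fun p => XX p.u := by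
  have h1 : PbSB (-1) fun p => XX p.u ∘ₗ Sh 1 - ∑ a, L a ∘ₗ XX p.u ∘ₗ L a ∘ₗ Sh 1 := by
    obtain ⟨C, h0, h⟩ := pb_sX0 hA
    refine ⟨C, h0, ?_⟩
    filter_upwards [h, pb_base] with p hp hb φ
    have hc : 0 ≤ 1 + C * p.b := by have := hb.1; positivity
    have h2 : ∀ ψ, ‖XX p.u ψ‖ ^ 2 ≤ (1 + C * p.b) ^ 2 * ‖ψ‖ ^ 2 := fun ψ => by
      have h3 := hp ψ
      rw [nrm_zero le_rfl, nrm_zero le_rfl] at h3
      rw [← mul_pow]
      exact pow_le_pow_left₀ (norm_nonneg _) h3 2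
    have h4 := Bd_Sh_one (-1) φ
    rw [one_mul, show (-1 + 2 : ℝ) = 1 by norm_num] at h4
    simp only [LinearMap.sub_apply, LinearMap.sum_apply, LinearMap.comp_apply]
    refine pb_dual (mul_nonneg hc (nrm_nonneg _ _ _)) ?_
    refine (add_le_add (h2 _) (Finset.sum_le_sum fun a _ => h2 _)).trans ?_
    rw [← Finset.mul_sum, ← mul_add, ← pb_nrm_one, mul_pow]
    exact mul_le_mul_of_nonneg_left (pow_le_pow_left₀ (nrm_nonneg _ _ _) h4 2) (sq_nonneg _)
  have h2 : ∀ a, PbOB (-1) 0 0 fun _ => L a ∘ₗ Sh 1 := fun a =>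
    (PbOB.fix zero_le_one (Bd_L le_rfl 0 a)).comp
      ((PbOB.fix zero_le_one (Bd_Sh_one (-1))).mono le_rfl (by norm_num) le_rfl)
  have h3 : ∀ a, PbOB 0 (-1) 1 fun p => (pbdv fun b => Wf p.u a b - L a (X b)) ∘ₗ XX p.u := fun a =>
    ((pb_OB_dv (fun b => (pb_W5 hA a b).one) 0 (by norm_num)).comp
      (pb_oX hA 0 (by norm_num))).mono (by norm_num) (by norm_num) le_rfl
  refine h1.sub (PbOB.sum fun a => (h3 a).comp (h2 a)) ((pb_good hA).mono fun p hp φ => ?_)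
  conv_lhs => rw [← Sh_spec 1 φ, one_pow, one_smul, lap_def, map_sub, map_sum]
  simp only [LinearMap.sub_apply, LinearMap.comp_apply, LinearMap.sum_apply, pbdv_sub, pbdv_L,
    hp.piola, Finset.sum_sub_distrib]
  show _ - ∑ a, pbdv (Wf p.u a) _ = _
  ring

theorem pb_sP1 : PbSB 1 fun p => pull p.u := by
  obtain ⟨C, h0, h⟩ := pb_sP0 hA
  have h1 : ∀ a, PbOB 1 0 1 fun p => (∑ b, ml (Wf p.u a b - L a (X b)) ∘ₗ D b) ∘ₗ pull p.u :=
    fun a => (PbOB.sum (j := 1) (s := 1) fun b => ((pb_ml_nat (pb_ex_Wf hA a b).one 0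
      (by norm_num)).mono (s' := 0) (by norm_num) (by norm_num) le_rfl).comp ((pb_OB_D 1 b).mono
      (by norm_num) (by norm_num) le_rfl)).comp ((pb_oP hA 1 (by norm_num)).mono (by norm_num)
      (by norm_num) le_rfl)
  choose A hA0 hA1 using h1
  have hS : 0 ≤ ∑ a, A a := Finset.sum_nonneg fun a _ => hA0 a
  refine ⟨4 * (C + ∑ a, A a), by positivity, ?_⟩
  filter_upwards [h, eventually_all.2 hA1, pb_good hA, pb_base] with p hp hq hg hb φ
  have hb0 := hb.1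
  set c := (C + ∑ a, A a) * p.b with hc
  have hc0 : 0 ≤ c := by positivity
  have hN := nrm_nonneg 1 1 φ
  have h2 : ∀ ψ, ‖pull p.u ψ‖ ≤ (1 + c) * ‖ψ‖ := fun ψ => by
    have h3 := hp ψ
    rw [nrm_zero le_rfl, nrm_zero le_rfl] at h3
    refine h3.trans (mul_le_mul_of_nonneg_right ?_ (norm_nonneg _))
    nlinarith [mul_nonneg hS hb0]
  have h4 : ∀ a, ‖L a φ‖ ≤ nrm 1 1 φ := fun a => by
    have h5 := nrm_L (lam := 1) le_rfl 0 a φ
    rwa [nrm_zero le_rfl, zero_add] at h5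
  have h5 : ∀ a, ‖L a (pull p.u φ)‖ ≤ (1 + c) * ‖L a φ‖ + c * nrm 1 1 φ := fun a => by
    have h6 := hq a φ
    rw [nrm_zero le_rfl, pow_one] at h6
    have e : L a (pull p.u φ) = pull p.u (L a φ) -
        ((∑ b, ml (Wf p.u a b - L a (X b)) ∘ₗ D b) ∘ₗ pull p.u) φ := by
      rw [hg.pull_L, L_eq_sum_D a (pull p.u φ)]
      simp only [Lt, LinearMap.comp_apply, LinearMap.add_apply, LinearMap.mulLeft_apply,
        Fin.sum_univ_three]
      ring
    rw [e]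
    refine (norm_sub_le _ _).trans (add_le_add (h2 _) (h6.trans
      (mul_le_mul_of_nonneg_right (mul_le_mul_of_nonneg_right ?_ hb0) hN)))
    exact le_add_of_nonneg_of_le h0 (Finset.single_le_sum (fun a _ => hA0 a) (Finset.mem_univ a))
  have h6 : ∀ a, ‖L a (pull p.u φ)‖ ^ 2 ≤
      (1 + c) ^ 2 * ‖L a φ‖ ^ 2 + (2 * (1 + c) * c + c ^ 2) * nrm 1 1 φ ^ 2 := fun a => by
    refine (pow_le_pow_left₀ (norm_nonneg _) (h5 a) 2).trans ?_
    have h7 := mul_le_mul_of_nonneg_left (h4 a) (show 0 ≤ 2 * (1 + c) * c * nrm 1 1 φ by positivity)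
    nlinarith
  have h7 := pow_le_pow_left₀ (norm_nonneg _) (h2 φ) 2
  have h8 := pb_nrm_one φ
  rw [mul_assoc, ← hc]
  refine nrmx_sq ?_ (by positivity)
  rw [pb_nrm_one, Fin.sum_univ_three, mul_pow]
  rw [Fin.sum_univ_three] at h8
  have h9 : (1 + c) ^ 2 * nrm 1 1 φ ^ 2 = _ := congrArg ((1 + c) ^ 2 * ·) h8
  nlinarith [h6 0, h6 1, h6 2, mul_nonneg (mul_nonneg hc0 hc0) (sq_nonneg (nrm 1 1 φ))]

end

theorem PbOB.ev {s t : ℝ} {j : ℕ} {T : PbP → Sm →ₗ[ℝ] Sm} (h : PbOB s t j T) :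
    ∀ᶠ C in atTop, ∀ᶠ p in pbF, Bd 1 s t (C * p.b ^ j) (T p) := by
  obtain ⟨C, h0, h⟩ := h
  filter_upwards [eventually_ge_atTop C] with C' hC
  filter_upwards [h, pb_base] with p hp hb
  have := hb.1
  exact hp.mono le_rfl (by positivity) le_rfl le_rfl (by gcongr)

theorem PbSB.ev {s : ℝ} {T : PbP → Sm →ₗ[ℝ] Sm} (h : PbSB s T) :
    ∀ᶠ C in atTop, ∀ᶠ p in pbF, Bd 1 s s (1 + C * p.b) (T p) := by
  obtain ⟨C, h0, h⟩ := h
  filter_upwards [eventually_ge_atTop C] with C' hC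
  filter_upwards [h, pb_base] with p hp hb
  have := hb.1
  exact hp.mono le_rfl (by positivity) le_rfl le_rfl (by gcongr)

theorem PbOC.ev {k j : ℕ} {F : PbP → Sm} (h : PbOC k j F) :
    ∀ᶠ C in atTop, ∀ᶠ p in pbF, Cb k 1 (C * p.b ^ j) (F p) := by
  obtain ⟨C, h0, h⟩ := h
  filter_upwards [eventually_ge_atTop C] with C' hC
  filter_upwards [h, pb_base] with p hp hb
  have := hb.1
  exact hp.mono zero_le_one le_rfl le_rfl (by gcongr)

theorem PbON.ev {k' k j : ℕ} {T : PbP → Sm → Sm} (h : PbON pbcn k' k j T) :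
    ∀ᶠ C in atTop, ∀ᶠ p in pbF, ∀ φ B, Cb k' 1 B φ → Cb k 1 (C * B * p.b ^ j) (T p φ) := by
  obtain ⟨C, h0, h⟩ := h
  filter_upwards [eventually_ge_atTop C] with C' hC
  filter_upwards [h, pb_base] with p hp hb φ B hB
  have := hb.1
  have h1 := pbcn_le hB
  have h2 := (pbcn_spec k' φ).nonneg
  have h3 := h0.trans hC
  refine pbcn_Cb ((hp φ).trans ?_)
  rw [mul_right_comm C']
  gcongr

theorem pullB (hA : PullAStmt) : PullBStmt := by
  have h1 : ∀ n ∈ Set.Icc (-8 : ℤ) 8, ∀ᶠ C in atTop, ∀ᶠ p in pbF,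
      Bd 1 (n / 2) (n / 2) C (XX p.u) ∧ Bd 1 (n / 2) (n / 2) C (pull p.u) ∧
      Bd 1 (n / 2 + 1) (n / 2) (C * p.b) (XX p.u - LinearMap.id) ∧
      Bd 1 (n / 2 + 1) (n / 2) (C * p.b) (pull p.u - LinearMap.id) ∧
      Bd 1 (n / 2 + 2) (n / 2) (C * p.b ^ 2) (XX p.u - LinearMap.id - Vb p.u) := by
    intro n hn
    have hn' : |n| ≤ 8 := abs_le.2 hn
    filter_upwards [(PbOB.half (r := 0) (fun z hz => by rw [add_zero]; exact pb_oX hA z hz) n hn').ev,
      (PbOB.half (pb_oP' hA) n hn').ev, (PbOB.half (pb_oF hA) n hn').ev,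
      (PbOB.half (pb_oE' hA) n hn').ev, (PbOB.half (pb_oFF hA) n hn').ev] with C a b c d e
    filter_upwards [a, b, c, d, e] with p a b c d e
    rw [add_zero, pow_zero, mul_one] at a b
    rw [pow_one] at c d
    exact ⟨a, b, c, d, e⟩
  have h2 : ∀ a c : Fin 3, ∀ᶠ C in atTop, ∀ᶠ p in pbF,
      Cb 5 1 (C * p.b) (Wf p.u a c - L a (X c)) ∧
      Cb 5 1 (C * p.b ^ 2) (Wf p.u a c - L a (X c) + D c (L a p.u)) := by
    intro a c
    filter_upwards [(pb_W5 hA a c).one.ev, (pb_W5 hA a c).2.ev] with C h h'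
    filter_upwards [h, h'] with p h h'
    rw [pow_one] at h
    rw [sub_neg_eq_add] at h'
    exact ⟨h, h'⟩
  have hJ := (pb_ex_Jac hA).mono (show 5 ≤ 6 by norm_num)
  obtain ⟨C, c0, c1, c2, c3, c4, c5, c6, c7, c8, c9, c10⟩ := ((eventually_ge_atTop (0 : ℝ)).and
    (((eventually_all_finite (Set.finite_Icc _ _)).2 h1).and ((pb_sX0 hA).ev.and
    ((pb_sX1 hA).ev.and ((pb_sP0 hA).ev.and ((pb_sP1 hA).ev.and (hJ.one.ev.and (hJ.2.ev.and
    ((eventually_all.2 fun a => eventually_all.2 (h2 a)).and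
    ((((pb_E hA pb_scale_cn 5 (by norm_num)).up pb_scale_cn).ev).and
    (pb_EE hA pb_scale_cn 5 (by norm_num)).ev)))))))))).exists
  obtain ⟨δ, hδ, h⟩ := pb_ev.1 ((pb_good hA).and
    (((eventually_all_finite (Set.finite_Icc _ _)).2 c1).and (c2.and (c3.and (c4.and (c5.and
    (c6.and (c7.and ((eventually_all.2 fun a => eventually_all.2 (c8 a)).and (c9.and c10))))))))))
  refine ⟨8, C, δ, c0, hδ, fun u b hb hu => ?_⟩
  obtain ⟨d0, d1, d2, d3, d4, d5, d6, d7, d8, d9, d10⟩ := h ⟨0, u, b⟩ le_rfl zero_le_one hb hu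
  rw [pow_one] at d6
  simp only [pow_one] at d9
  exact ⟨d0, fun n hn => d1 n (abs_le.1 hn), d2, d3, d4, d5, d6, d7, d8,
    fun φ B hB => ⟨d9 φ B hB, d10 φ B hB⟩⟩

end Pool.Agent.Lib.MP_2fa2a2_gt.PI
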