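import Pool.Agent.Lib.MP_2fa2a2_gt.PI.SPull
import Pool.Agent.Lib.MP_2fa2a2_gt.PI.Prod

namespace Pool.Agent.Lib.MP_2fa2a2_gt.PI

open Filter Topology
open scoped ContDiff

/-! ### Equivariance -/

theorem pullc_one_add (g : E3 ≃ₗᵢ[ℝ] E3) (u : Sm) : 1 + act g u = act g (1 + u) := by
  rw [map_add, map_one]

theorem pullc_pv_act (g : E3 ≃ₗᵢ[ℝ] E3) (u : Sm) (a : Fin 3) :
    pv (act g u) a = ∑ b, ent g b a • act g (pv u b) := by
  unfold pv
  rw [D_act, rot_X g a, pullc_one_add, Finset.mul_sum, ← Finset.sum_add_distrib]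
  refine Finset.sum_congr rfl fun b _ => ?_
  rw [map_add (act g) ((1 + u) * X b), map_mul, smul_add, mul_smul_comm]

theorem pullc_pvec_act (g : E3 ≃ₗᵢ[ℝ] E3) (u : Sm) (x : S2) :
    pvec (act g u) x = g.symm (pvec u (rotS g x)) := by
  rw [rot_expand (pvec u (rotS g x)), map_sum]
  ext a
  show pv (act g u) a x = _
  rw [pullc_pv_act, Sm.sum_apply, WithLp.ofLp_sum, Finset.sum_apply]
  refine Finset.sum_congr rfl fun b _ => ?_
  rw [Sm.smul_apply, act_apply, map_smul, rot_ent, mul_comm]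
  rfl

theorem pullc_nrmz (g : E3 ≃ₗᵢ[ℝ] E3) {y : E3} (hy : y ≠ 0) :
    rotS g (nrmz (g.symm y)) = nrmz y := by
  have h : g.symm y ≠ 0 := fun h => hy (g.symm.injective (h.trans (map_zero _).symm))
  refine Subtype.ext ?_
  rw [rotS_coe, nrmz_val h, nrmz_val hy, map_smul, g.apply_symm_apply, g.symm.norm_map]

theorem pullc_p2_act (g : E3 ≃ₗᵢ[ℝ] E3) (u : Sm) : p2 (act g u) = act g (p2 u) := by
  unfold p2
  rw [gd_act, pullc_one_add, map_add (act g) ((1 + u) * (1 + u)), map_mul]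

theorem pullc_pk_act (g : E3 ≃ₗᵢ[ℝ] E3) (k : ℝ) (u : Sm) : pk k (act g u) = act g (pk k u) := by
  unfold pk
  rw [pullc_p2_act, act_cp]

theorem pullc_Jac_act (g : E3 ≃ₗᵢ[ℝ] E3) (u : Sm) : Jac (act g u) = act g (Jac u) := by
  unfold Jac
  rw [pullc_pk_act, pullc_one_add, Qf_act, map_mul, map_mul]

theorem pullc_sum_pv (u : Sm) : ∑ a, pv u a * pv u a = p2 u := by
  have h1 := sum_X_D u
  have h2 := alg_s
  unfold pv p2
  rw [gd_eq_D]
  rw [Fin.sum_univ_three] at h1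
  simp only [Fin.sum_univ_three]
  linear_combination (1 + u) * (1 + u) * h2 + 2 * (1 + u) * h1

theorem pullc_p2_zero {u : Sm} {x : S2} (h : pvec u x = 0) : p2 u x = 0 := by
  rw [← pullc_sum_pv, Sm.sum_apply]
  refine Finset.sum_eq_zero fun a _ => ?_
  have : pv u a x = 0 := congrArg (fun y : E3 => y a) h
  rw [Sm.mul_apply, this, mul_zero]

/-- the pull back is the composition as soon as the boundary point does not vanish -/
theorem pullc_pull_apply {u : Sm} (h : ∀ x, pvec u x ≠ 0) (φ : Sm) (x : S2) :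
    pull u φ x = φ (xm u x) := by
  have hs : ∀ φ : Sm, (fun ν => φ (xm u ν)) ∈ smAlg := by
    intro φ y hy
    have hG : ContDiffAt ℝ ∞ (fun y : E3 => pvec u (nrmz y)) y :=
      contDiffAt_euclidean.2 fun a => (pv u a).smoothAt hy
    exact (ContDiffAt.comp (f := fun y : E3 => pvec u (nrmz y)) y
      (φ.smoothAt (h (nrmz y))) hG).contDiffWithinAt
  rw [pull, dif_pos hs]
  rfl

theorem pullc_pull_act (g : E3 ≃ₗᵢ[ℝ] E3) {u : Sm} (h : ∀ x, pvec u x ≠ 0) (y : Sm) :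
    pull (act g u) (act g y) = act g (pull u y) := by
  have h' : ∀ x, pvec (act g u) x ≠ 0 := fun x hx => by
    rw [pullc_pvec_act] at hx
    exact h _ (g.symm.injective (hx.trans (map_zero _).symm))
  ext x
  rw [pullc_pull_apply h', act_apply, act_apply, pullc_pull_apply h, xm, xm, pullc_pvec_act,
    pullc_nrmz g (h _)]

theorem pullc_XX (u y : Sm) : XX u y = Jac u * pull u y := rfl

theorem pullc_Jac_zero {u : Sm} {x : S2} (h : pvec u x = 0) : Jac u = 0 := by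
  have h1 : ¬ ∀ x, ContDiffAt ℝ ∞ (fun t : ℝ => t ^ ((-3 : ℝ) / 2)) (p2 u x) := by
    intro hc
    have h2 := (hc x).continuousAt
    rw [pullc_p2_zero h] at h2
    exact not_tendsto_nhds_of_tendsto_atTop
      (tendsto_rpow_neg_nhdsGT_zero (y := (-3 : ℝ) / 2) (by norm_num)) _
      (h2.tendsto.mono_left nhdsWithin_le_nhds)
  rw [Jac, pk, cp, dif_neg h1, mul_zero]

theorem pullc_XX_act (g : E3 ≃ₗᵢ[ℝ] E3) (u y : Sm) :
    XX (act g u) (act g y) = act g (XX u y) := by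
  rw [pullc_XX, pullc_XX, pullc_Jac_act, map_mul]
  by_cases h : ∀ x, pvec u x ≠ 0
  · rw [pullc_pull_act g h]
  · push Not at h
    obtain ⟨x, hx⟩ := h
    rw [pullc_Jac_zero hx, map_zero, zero_mul, zero_mul]

theorem pullc_ne {u : Sm} (h : Good u) (x : S2) : pvec u x ≠ 0 := fun hx => by
  have h1 := h.p2_ge x
  rw [pullc_p2_zero hx] at h1
  norm_num at h1

/-! ### Locality -/

/-- agreement where `χ` does not vanish -/
def pullc_Ag (χ f f' : Sm) : Prop := ∀ x, χ x ≠ 0 → f x = f' x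

section
variable {χ f f' k k' : Sm}

theorem pullc_Ag.rfl : pullc_Ag χ f f := fun _ _ => Eq.refl _

theorem pullc_Ag.add (h : pullc_Ag χ f f') (h' : pullc_Ag χ k k') :
    pullc_Ag χ (f + k) (f' + k') := fun x hx => by
  rw [Sm.add_apply, Sm.add_apply, h x hx, h' x hx]

theorem pullc_Ag.sub (h : pullc_Ag χ f f') (h' : pullc_Ag χ k k') :
    pullc_Ag χ (f - k) (f' - k') := fun x hx => by
  rw [Sm.sub_apply, Sm.sub_apply, h x hx, h' x hx]

theorem pullc_Ag.mul (h : pullc_Ag χ f f') (h' : pullc_Ag χ k k') :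
    pullc_Ag χ (f * k) (f' * k') := fun x hx => by
  rw [Sm.mul_apply, Sm.mul_apply, h x hx, h' x hx]

theorem pullc_Ag.smul (h : pullc_Ag χ f f') (r : ℝ) : pullc_Ag χ (r • f) (r • f') :=
  fun x hx => by rw [Sm.smul_apply, Sm.smul_apply, h x hx]

theorem pullc_Ag.sum {F F' : Fin 3 → Sm} (h : ∀ a, pullc_Ag χ (F a) (F' a)) :
    pullc_Ag χ (∑ a, F a) (∑ a, F' a) := fun x hx => by
  rw [Sm.sum_apply, Sm.sum_apply]
  exact Finset.sum_congr (Eq.refl _) fun a _ => h a x hx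

theorem pullc_Ag.L (h : pullc_Ag χ f f') (a : Fin 3) : pullc_Ag χ (L a f) (L a f') := by
  have h0 : χ * (f - f') = 0 := by
    ext x
    by_cases hx : χ x = 0
    · simp [hx]
    · simp [h x hx]
  intro x hx
  have h1 := congrArg (fun φ : Sm => PI.L a φ x) h0
  simp only [L_mul, map_zero, map_sub, Sm.add_apply, Sm.mul_apply, Sm.sub_apply, Sm.zero_apply,
    h x hx, sub_self, mul_zero, zero_add] at h1
  exact sub_eq_zero.1 ((mul_eq_zero.1 h1).resolve_left hx)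

theorem pullc_Ag.D (h : pullc_Ag χ f f') (a : Fin 3) : pullc_Ag χ (D a f) (D a f') :=
  (pullc_Ag.rfl.mul (h.L _)).sub (pullc_Ag.rfl.mul (h.L _))

theorem pullc_Ag.H (h : pullc_Ag χ f f') (a b : Fin 3) : pullc_Ag χ (H a b f) (H a b f') :=
  ((h.D b).add (pullc_Ag.rfl.mul h)).D a

theorem pullc_Ag.Dop (h : pullc_Ag χ f f') : pullc_Ag χ (Dop f) (Dop f') := by
  rw [Dop_def, Dop_def, lap_def, lap_def]
  exact (pullc_Ag.sum fun a => (h.L a).L a).add (pullc_Ag.rfl.mul h)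

theorem pullc_Ag.Qf (h : pullc_Ag χ f f') : pullc_Ag χ (Qf f f) (Qf f' f') := by
  rw [Qf_def, Qf_def]
  exact ((h.Dop.mul h.Dop).sub
    (pullc_Ag.sum fun a => pullc_Ag.sum fun b => (h.H a b).mul (h.H a b))).smul _

end

theorem pullc_local (u u' χ y : Sm) (hu : Good u) (hu' : Good u')
    (h : ∀ x, χ x ≠ 0 → u x = u' x) : χ * XX u y = χ * XX u' y := by
  have h0 : pullc_Ag χ u u' := h
  have h1 : pullc_Ag χ (1 + u) (1 + u') := pullc_Ag.rfl.add h0
  have h2 : pullc_Ag χ (p2 u) (p2 u') :=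
    (h1.mul h1).add (pullc_Ag.sum fun a => (h0.L a).mul (h0.L a))
  have h3 : pullc_Ag χ (pk (-3) u) (pk (-3) u') := fun x hx => by
    rw [hu.pk_apply, hu'.pk_apply, h2 x hx]
  have h4 : pullc_Ag χ (Jac u) (Jac u') := (h1.Qf.mul h1).mul h3
  have h5 : pullc_Ag χ (pull u y) (pull u' y) := fun x hx => by
    have e : pvec u x = pvec u' x := by
      ext a
      exact ((h1.mul pullc_Ag.rfl).add (h0.D a)) x hx
    rw [hu.pull_apply, hu'.pull_apply, xm, xm, e]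
  ext x
  by_cases hx : χ x = 0
  · rw [Sm.mul_apply, Sm.mul_apply, hx, zero_mul, zero_mul]
  · rw [Sm.mul_apply, Sm.mul_apply, pullc_XX, pullc_XX, (h4.mul h5) x hx]

/-! ### Continuity -/

/-- continuity at `u` from `C^2` to `C^k` -/
def pullc_Cv (u : Sm) (k : ℕ) (F : Sm → Sm) : Prop :=
  ∀ η : ℝ, 0 < η → ∃ b, 0 < b ∧ ∀ u', Good u' → Cb 2 1 b (u' - u) → Cb k 1 η (F u' - F u)

section
variable {u : Sm} {k : ℕ} {F G : Sm → Sm}

theorem pullc_Cv.id (hk : k ≤ 2) : pullc_Cv u k fun v => v := fun η hη =>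
  ⟨η, hη, fun _ _ h => h.mono zero_le_one hk le_rfl le_rfl⟩

theorem pullc_Cv.const (f : Sm) : pullc_Cv u k fun _ => f := fun η hη =>
  ⟨1, one_pos, fun _ _ _ w _ x => by
    rw [sub_self, map_zero, Sm.zero_apply, abs_zero, one_pow, mul_one]
    exact hη.le⟩

theorem pullc_both (hF : pullc_Cv u k F) (hG : pullc_Cv u k G) {η : ℝ} (hη : 0 < η) :
    ∃ b, 0 < b ∧ ∀ u', Good u' → Cb 2 1 b (u' - u) →
      Cb k 1 η (F u' - F u) ∧ Cb k 1 η (G u' - G u) := by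
  obtain ⟨b, hb, h⟩ := hF η hη
  obtain ⟨b', hb', h'⟩ := hG η hη
  exact ⟨min b b', lt_min hb hb', fun u' hu' hc =>
    ⟨h u' hu' (hc.mono zero_le_one le_rfl le_rfl (min_le_left _ _)),
      h' u' hu' (hc.mono zero_le_one le_rfl le_rfl (min_le_right _ _))⟩⟩

theorem pullc_Cv.add (hF : pullc_Cv u k F) (hG : pullc_Cv u k G) :
    pullc_Cv u k fun v => F v + G v := by
  intro η hη
  obtain ⟨b, hb, h⟩ := pullc_both hF hG (half_pos hη)
  refine ⟨b, hb, fun u' hu' hc => ?_⟩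
  have h1 := (h u' hu' hc).1.add (h u' hu' hc).2
  rw [add_halves] at h1
  show Cb k 1 η (F u' + G u' - (F u + G u))
  rw [add_sub_add_comm]
  exact h1

theorem pullc_Cv.mul (hF : pullc_Cv u k F) (hG : pullc_Cv u k G) :
    pullc_Cv u k fun v => F v * G v := by
  intro η hη
  obtain ⟨A, hA, hFA⟩ := exists_Cb k (F u)
  obtain ⟨B, hB, hGB⟩ := exists_Cb k (G u)
  have hM : (0 : ℝ) < 2 ^ k * (1 + A + B) := by positivity
  set ε : ℝ := min 1 (η / (2 ^ k * (1 + A + B))) with hε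
  have hε0 : 0 < ε := lt_min one_pos (div_pos hη hM)
  have hε1 : ε ≤ 1 := min_le_left _ _
  have hε2 : ε * (2 ^ k * (1 + A + B)) ≤ η := (le_div_iff₀ hM).1 (min_le_right _ _)
  obtain ⟨b, hb, h⟩ := pullc_both hF hG hε0
  refine ⟨b, hb, fun u' hu' hc => ?_⟩
  obtain ⟨h1, h2⟩ := h u' hu' hc
  have h3 := ((h1.mul zero_le_one h2).add (h1.mul zero_le_one hGB)).add (hFA.mul zero_le_one h2)
  have e : F u' * G u' - F u * G u =
      (F u' - F u) * (G u' - G u) + (F u' - F u) * G u + F u * (G u' - G u) := by ring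
  show Cb k 1 η (F u' * G u' - F u * G u)
  rw [e]
  refine h3.mono zero_le_one le_rfl le_rfl (le_trans ?_ hε2)
  have h4 : (2 : ℝ) ^ k * ε * ε ≤ 2 ^ k * ε * 1 :=
    mul_le_mul_of_nonneg_left hε1 (by positivity)
  linarith

theorem pullc_Cv.smul (hF : pullc_Cv u k F) (r : ℝ) : pullc_Cv u k fun v => r • F v := by
  simpa only [Algebra.smul_def] using (pullc_Cv.const (algebraMap ℝ Sm r)).mul hF

theorem pullc_Cv.sub (hF : pullc_Cv u k F) (hG : pullc_Cv u k G) :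
    pullc_Cv u k fun v => F v - G v := by
  simpa only [neg_one_smul, ← sub_eq_add_neg] using hF.add (hG.smul (-1))

theorem pullc_Cv.sum {T : Fin 3 → Sm → Sm} (h : ∀ a, pullc_Cv u k (T a)) :
    pullc_Cv u k fun v => ∑ a, T a v := by
  simpa only [Fin.sum_univ_three] using ((h 0).add (h 1)).add (h 2)

theorem pullc_Cv.L (hF : pullc_Cv u (k + 1) F) (a : Fin 3) :
    pullc_Cv u k fun v => L a (F v) := by
  intro η hη
  obtain ⟨b, hb, h⟩ := hF η hη
  refine ⟨b, hb, fun u' hu' hc => ?_⟩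
  have h1 := (h u' hu' hc).L a
  rw [mul_one, map_sub] at h1
  exact h1

theorem pullc_Cv.low (hF : pullc_Cv u (k + 1) F) : pullc_Cv u k F := fun η hη => by
  obtain ⟨b, hb, h⟩ := hF η hη
  exact ⟨b, hb, fun u' hu' hc => (h u' hu' hc).mono zero_le_one (Nat.le_succ _) le_rfl le_rfl⟩

theorem pullc_Cv.D (hF : pullc_Cv u (k + 1) F) (a : Fin 3) :
    pullc_Cv u k fun v => D a (F v) :=
  ((pullc_Cv.const _).mul (hF.L _)).sub ((pullc_Cv.const _).mul (hF.L _))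

theorem pullc_Cv.H (hF : pullc_Cv u (k + 2) F) (a b : Fin 3) :
    pullc_Cv u k fun v => H a b (F v) :=
  ((hF.D b).add ((pullc_Cv.const _).mul hF.low)).D a

theorem pullc_Cv.Dop (hF : pullc_Cv u (k + 2) F) : pullc_Cv u k fun v => Dop (F v) := by
  simpa only [Dop_def, lap_def] using
    (pullc_Cv.sum fun a => (hF.L a).L a).add ((pullc_Cv.const 2).mul hF.low.low)

theorem pullc_Cv.Qf (hF : pullc_Cv u (k + 2) F) : pullc_Cv u k fun v => Qf (F v) (F v) :=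
  ((hF.Dop.mul hF.Dop).sub
    (pullc_Cv.sum fun a => pullc_Cv.sum fun b => (hF.H a b).mul (hF.H a b))).smul _

theorem pullc_Cb_zero {η : ℝ} {v : Sm} (h : ∀ x, |v x| ≤ η) : Cb 0 1 η v := by
  intro w hw x
  rw [List.length_eq_zero_iff.1 (Nat.le_zero.1 hw)]
  simpa using h x

end

theorem pullc_Cv_h (u : Sm) : pullc_Cv u 2 fun v => 1 + v :=
  (pullc_Cv.const 1).add (pullc_Cv.id le_rfl)

theorem pullc_Cv_p2 (u : Sm) : pullc_Cv u 0 p2 :=
  ((pullc_Cv_h u).low.low.mul (pullc_Cv_h u).low.low).add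
    (pullc_Cv.sum fun a => ((pullc_Cv.id one_le_two).L a).mul ((pullc_Cv.id one_le_two).L a))

theorem pullc_Cv_pv (u : Sm) (a : Fin 3) : pullc_Cv u 0 fun v => pv v a :=
  ((pullc_Cv_h u).low.low.mul (pullc_Cv.const _)).add ((pullc_Cv.id one_le_two).D a)

theorem pullc_Cv_pk {u : Sm} (hu : Good u) (k : ℝ) : pullc_Cv u 0 (pk k) := by
  intro η hη
  have hc : ContinuousOn (fun t : ℝ => t ^ (k / 2)) (Set.Icc (1 / 2) 2) := fun t ht =>
    (Real.continuousAt_rpow_const t _ (Or.inl (by linarith [ht.1]))).continuousWithinAt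
  obtain ⟨δ, hδ, h⟩ := Metric.uniformContinuousOn_iff_le.1
    (isCompact_Icc.uniformContinuousOn_of_continuous hc) η hη
  obtain ⟨b, hb, h'⟩ := pullc_Cv_p2 u δ hδ
  refine ⟨b, hb, fun u' hu' hb' => pullc_Cb_zero fun x => ?_⟩
  rw [Sm.sub_apply, hu.pk_apply, hu'.pk_apply]
  exact h _ ⟨hu'.p2_ge x, hu'.p2_le x⟩ _ ⟨hu.p2_ge x, hu.p2_le x⟩ ((h' u' hu' hb').abs_le x)

theorem pullc_Cv_pull {u : Sm} (hu : Good u) (y : Sm) : pullc_Cv u 0 fun v => pull v y := by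
  intro η hη
  obtain ⟨δ, hδ, h⟩ := Metric.uniformContinuous_iff_le.1
    (CompactSpace.uniformContinuous_of_continuous y.continuous) η hη
  have hc : ∀ a, pullc_Cv u 0 fun v => pk (-1) v * pv v a := fun a =>
    (pullc_Cv_pk hu _).mul (pullc_Cv_pv u a)
  have hδ' : 0 < δ / 2 := half_pos hδ
  obtain ⟨b, hb, h1⟩ := pullc_both (hc 0) (hc 1) hδ'
  obtain ⟨b', hb', h2⟩ := hc 2 _ hδ'
  refine ⟨min b b', lt_min hb hb', fun u' hu' hcb => pullc_Cb_zero fun x => ?_⟩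
  obtain ⟨k0, k1⟩ := h1 u' hu' (hcb.mono zero_le_one le_rfl le_rfl (min_le_left _ _))
  have k2 := h2 u' hu' (hcb.mono zero_le_one le_rfl le_rfl (min_le_right _ _))
  rw [Sm.sub_apply, hu.pull_apply, hu'.pull_apply]
  refine h ?_
  rw [Subtype.dist_eq, hu.xm_coe, hu'.xm_coe, EuclideanSpace.dist_eq, Fin.sum_univ_three]
  refine Real.sqrt_le_iff.2 ⟨hδ.le, ?_⟩
  have e0 : dist ((pk (-1) u' x • pvec u' x) 0) ((pk (-1) u x • pvec u x) 0) ≤ δ / 2 := k0.abs_le x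
  have e1 : dist ((pk (-1) u' x • pvec u' x) 1) ((pk (-1) u x • pvec u x) 1) ≤ δ / 2 := k1.abs_le x
  have e2 : dist ((pk (-1) u' x • pvec u' x) 2) ((pk (-1) u x • pvec u x) 2) ≤ δ / 2 := k2.abs_le x
  have f0 := pow_le_pow_left₀ dist_nonneg e0 2
  have f1 := pow_le_pow_left₀ dist_nonneg e1 2
  have f2 := pow_le_pow_left₀ dist_nonneg e2 2
  nlinarith [sq_nonneg δ]

theorem pullc_Cv_XX {u : Sm} (hu : Good u) (y : Sm) : pullc_Cv u 0 fun v => XX v y :=
  (((pullc_Cv_h u).Qf.mul (pullc_Cv_h u).low.low).mul (pullc_Cv_pk hu _)).mul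
    (pullc_Cv_pull hu y)

theorem pullc_cont (u y : Sm) (k η : ℝ) (hu : Good u) (hη : 0 < η) :
    ∃ b, 0 < b ∧ ∀ u', Good u' → Cb 2 1 b (u' - u) →
      ∀ x, |XX u' y x - XX u y x| ≤ η ∧ |pk k u' x - pk k u x| ≤ η := by
  obtain ⟨b, hb, h⟩ := pullc_both (pullc_Cv_XX hu y) (pullc_Cv_pk hu k) hη
  exact ⟨b, hb, fun u' hu' hc x => ⟨(h u' hu' hc).1.abs_le x, (h u' hu' hc).2.abs_le x⟩⟩

theorem pullC : PullCStmt :=
  ⟨pullc_XX_act, pullc_pk_act, fun g _ y hu => pullc_pull_act g (pullc_ne hu) y, pullc_local,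
    pullc_cont⟩

end Pool.Agent.Lib.MP_2fa2a2_gt.PI
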