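import Pool.Agent.Lib.MP_2fa2a2_gt.PI.StatAX

/-! A Morse lemma with a parameter. -/

namespace Pool.Agent.Lib.MP_2fa2a2_gt.PI.Sta

open Real Filter Set MeasureTheory Topology
open scoped ContDiff

theorem exists_homeo {σ : ℝ × ℝ → ℝ} (hσ : ContDiff ℝ ∞ σ) (hz : ∀ p, fderiv ℝ σ p (0, 1) ≠ 0)
    (hb : ∀ x, Function.Bijective fun z => σ (x, z)) :
    ∃ Φ : ℝ × ℝ ≃ₜ ℝ × ℝ, ContDiff ℝ ∞ Φ.symm ∧ ∀ p, Φ p = (p.1, σ p) := by
  have hf : ContDiff ℝ ∞ fun p : ℝ × ℝ => (p.1, σ p) := contDiff_fst.prodMk hσ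
  have hbij : Function.Bijective fun p : ℝ × ℝ => (p.1, σ p) := by
    refine ⟨fun p q h => ?_, fun q => ?_⟩
    · obtain ⟨h1, h2⟩ := Prod.ext_iff.1 h
      refine Prod.ext h1 ((hb p.1).1 ?_)
      dsimp only at h1 h2 ⊢
      rw [h2, h1]
    · obtain ⟨z, hz⟩ := (hb q.1).2 q.2
      exact ⟨(q.1, z), Prod.ext rfl hz⟩
  have : ∀ p, ∃ e : (ℝ × ℝ) ≃L[ℝ] ℝ × ℝ,
      HasStrictFDerivAt (fun p : ℝ × ℝ => (p.1, σ p)) (e : ℝ × ℝ →L[ℝ] ℝ × ℝ) p := fun p => by
    have h1 := hasStrictFDerivAt_fst.prodMk (hσ.contDiffAt.hasStrictFDerivAt (x := p) (by simp))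
    refine ⟨(LinearEquiv.ofInjectiveEndo ((ContinuousLinearMap.fst ℝ ℝ ℝ).prod
      (fderiv ℝ σ p)).toLinearMap ((injective_iff_map_eq_zero _).2 fun v hv => ?_)
      ).toContinuousLinearEquiv, h1⟩
    obtain ⟨h2, h3⟩ := Prod.ext_iff.1 hv
    have h4 : v = v.2 • (0, 1) := Prod.ext (by simpa using h2) (by simp)
    change fderiv ℝ σ p v = 0 at h3
    rw [h4, map_smul, smul_eq_zero] at h3
    rw [h4, h3.resolve_right (hz p), zero_smul]
  choose e he using this
  exact ⟨(Equiv.ofBijective _ hbij).toHomeomorphOfContinuousOpen hf.continuous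
    (isOpenMap_of_hasStrictFDerivAt_equiv he),
    Homeomorph.contDiff_symm _ (fun p => (he p).hasFDerivAt) hf, fun _ => rfl⟩

/-- Morse coordinates for the phase with derivative `(z - x) * k (x, z)` -/
structure Morse (k σ sz : ℝ × ℝ → ℝ) (Φ : ℝ × ℝ ≃ₜ ℝ × ℝ) : Prop where
  sm : ContDiff ℝ ∞ σ
  smz : ContDiff ℝ ∞ sz
  sms : ContDiff ℝ ∞ Φ.symm
  eq : ∀ p, Φ p = (p.1, σ p)
  pos : ∀ p, 0 < sz p
  zero : ∀ x, σ (x, x) = 0
  diag : ∀ x, sz (x, x) = √(k (x, x))
  sq : ∀ x z, σ (x, z) ^ 2 / 2 = ∫ y in x..z, (y - x) * k (x, y)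
  sub : ∀ x (H : ℝ → ℝ), ∫ s, H s = ∫ z, sz (x, z) * H (σ (x, z))

theorem morse {l : ℝ × ℝ → ℝ} (hl : ContDiff ℝ ∞ l) (hc : HasCompactSupport l) :
    ∃ σ sz Φ, Morse (fun p => exp (l p)) σ sz Φ := by
  obtain ⟨C, hC⟩ := hl.continuous.bounded_above_of_compact_support hc
  have hk : BB 0 1 (fun (_ : Unit × Ioc (0 : ℝ) 1) p => exp (l p)) := by
    simpa using (BB.of_compact (hl.exp.sub (contDiff_const (c := 1)))
      (hc.comp_left (g := fun y => exp y - 1) (by simp))).add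
      (BB.const0 (c := fun _ => (1 : ℝ)) (C := 1) fun _ => by simp)
  have hlc := hl.continuous
  set g : ℝ × ℝ → ℝ := fun p => ∫ t in Ioc (0 : ℝ) 1, t • exp (l (p.1, p.1 + t * (p.2 - p.1)))
    with hg
  have g1 : ContDiff ℝ ∞ g := (BB.int (ι := Unit) (ε := 1) (μ := volume.restrict (Ioc 0 1))
    (u := fun t => t) (Continuous.integrableOn_Ioc continuous_id)
    (ae_restrict_mem measurableSet_Ioc) (fun _ => zero_le_one)
    (Φ := fun _ (x : ℝ × ℝ × ℝ) => exp (l (x.2.1, x.2.1 + x.1 * (x.2.2 - x.2.1))))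
    (fun _ => (hl.comp (by fun_prop)).exp) (hk.comp ((BB.lin' (ContinuousLinearMap.fst ℝ ℝ ℝ)).prod
      ((BB.lin' (ContinuousLinearMap.fst ℝ ℝ ℝ)).add (BB.lin (L := fun j : Unit × Ioc (0 : ℝ) 1 =>
        (j.2 : ℝ) • (ContinuousLinearMap.snd ℝ ℝ ℝ - ContinuousLinearMap.fst ℝ ℝ ℝ))
        (C := 1 * ‖ContinuousLinearMap.snd ℝ ℝ ℝ - ContinuousLinearMap.fst ℝ ℝ ℝ‖) fun j => by
          rw [norm_smul]
          exact mul_le_mul_of_nonneg_right
            (by rw [Real.norm_eq_abs, abs_of_pos j.2.2.1]; exact j.2.2.2) (norm_nonneg _)))))).sm ()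
  have g2 : ∀ p, exp (-C) ≤ 2 * g p := fun p => by
    have := intervalIntegral.integral_mono_on (μ := volume) (f := fun t => t * exp (-C))
      (g := fun t => t • exp (l (p.1, p.1 + t * (p.2 - p.1)))) zero_le_one
      (Continuous.intervalIntegrable (by fun_prop) _ _)
      (Continuous.intervalIntegrable (by fun_prop) _ _) fun t ht =>
        mul_le_mul_of_nonneg_left (exp_le_exp.2 (neg_le_of_abs_le (hC _))) ht.1
    rw [intervalIntegral.integral_mul_const, integral_id,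
      intervalIntegral.integral_of_le zero_le_one] at this
    simp only [hg]
    linarith
  have g3 : ∀ p, 0 < 2 * g p := fun p => (exp_pos _).trans_le (g2 p)
  have g4 : ∀ x z, (z - x) ^ 2 * g (x, z) = ∫ y in x..z, (y - x) * exp (l (x, y)) := fun x z => by
    have := intervalIntegral.smul_integral_comp_add_mul (a := 0) (b := 1)
      (fun y => (y - x) * exp (l (x, y))) (z - x) x
    simp only [mul_zero, add_zero, mul_one, add_sub_cancel, add_sub_cancel_left, mul_assoc,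
      intervalIntegral.integral_const_mul, smul_eq_mul] at this
    simp only [hg, ← this, ← intervalIntegral.integral_of_le zero_le_one, smul_eq_mul,
      mul_comm _ (z - x)]
    ring
  have g5 : ∀ x, 2 * g (x, x) = exp (l (x, x)) := fun x => by
    simp only [hg, sub_self, mul_zero, add_zero, ← intervalIntegral.integral_of_le zero_le_one,
      smul_eq_mul, intervalIntegral.integral_mul_const, integral_id]
    ring
  have s0 : ContDiff ℝ ∞ fun p => √(2 * g p) := (contDiff_const.mul g1).sqrt fun p => (g3 p).ne'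
  set σ : ℝ × ℝ → ℝ := fun p => (p.2 - p.1) * √(2 * g p) with hσ
  have s1 : ContDiff ℝ ∞ σ := (contDiff_snd.sub contDiff_fst).mul s0
  have s2 : ∀ x z, HasDerivAt (fun z => σ (x, z)) (fderiv ℝ σ (x, z) (0, 1)) z := fun x z =>
    (s1.differentiable (by simp) (x, z)).hasFDerivAt.comp_hasDerivAt z
      ((hasDerivAt_const z x).prodMk (hasDerivAt_id z))
  have s3 : ∀ x z, σ (x, z) ^ 2 / 2 = ∫ y in x..z, (y - x) * exp (l (x, y)) := fun x z => by
    rw [← g4, hσ, mul_pow, sq_sqrt (g3 _).le]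
    ring
  have s4 : ∀ x, fderiv ℝ σ (x, x) (0, 1) = √(exp (l (x, x))) := fun x => by
    have := ((hasDerivAt_id x).sub_const x).mul (((s0.differentiable (by simp)).comp
      (differentiable_const x |>.prodMk differentiable_id)) x).hasDerivAt
    rw [(s2 x x).unique this]
    simp [← g5]
  have s5 : ∀ p, 0 < fderiv ℝ σ p (0, 1) := by
    rintro ⟨x, z⟩
    rcases eq_or_ne z x with rfl | h
    · rw [s4]
      positivity
    have h1 := ((s2 x z).pow 2).div_const 2
    simp only [Pi.pow_def, s3] at h1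
    have h2 := h1.unique ((show Continuous fun y => (y - x) * exp (l (x, y)) by
      fun_prop).integral_hasStrictDerivAt x z).hasDerivAt
    have h3 : √(2 * g (x, z)) * fderiv ℝ σ (x, z) (0, 1) = exp (l (x, z)) :=
      mul_left_cancel₀ (sub_ne_zero.2 h) (by rw [← h2]; simp [hσ]; ring)
    exact (mul_pos_iff_of_pos_left (sqrt_pos.2 (g3 (x, z)))).1 (h3 ▸ exp_pos _)
  have s6 : ∀ x, Function.Bijective fun z => σ (x, z) := fun x => by
    have h1 : ∀ z, √(exp (-C)) ≤ √(2 * g (x, z)) := fun z => sqrt_le_sqrt (g2 _)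
    have h2 : 0 < √(exp (-C)) := by positivity
    refine ⟨(strictMono_of_hasDerivAt_pos (s2 x) fun z => s5 _).injective,
      (s1.continuous.comp (by fun_prop)).surjective ?_ ?_⟩
    · refine tendsto_atTop_mono' _ ?_
        ((tendsto_atTop_add_const_right _ (-x) tendsto_id).atTop_mul_const h2)
      filter_upwards [eventually_ge_atTop x] with z hz
      exact mul_le_mul_of_nonneg_left (h1 z) (sub_nonneg.2 hz)
    · refine tendsto_atBot_mono' _ ?_
        ((tendsto_atBot_add_const_right _ (-x) tendsto_id).atBot_mul_const h2)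
      filter_upwards [eventually_le_atBot x] with z hz
      exact mul_le_mul_of_nonpos_left (h1 z) (sub_nonpos.2 hz)
  obtain ⟨Φ, h1, h2⟩ := exists_homeo s1 (fun p => (s5 p).ne') s6
  refine ⟨σ, fun p => fderiv ℝ σ p (0, 1), Φ, s1,
    (s1.fderiv_right (m := ∞) le_rfl).clm_apply contDiff_const, h1, h2, s5, fun x => by simp [hσ],
    s4, s3, fun x H => ?_⟩
  have := integral_image_eq_integral_abs_deriv_smul MeasurableSet.univ
    (fun z _ => (s2 x z).hasDerivWithinAt) (s6 x).1.injOn H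
  simpa [image_univ_of_surjective (s6 x).2, abs_of_pos (s5 _)] using this

end Pool.Agent.Lib.MP_2fa2a2_gt.PI.Sta
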