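import Pool.Agent.Lib.MP_2fa2a2_gt.PI.Cls

/-! The Gaussian stationary phase operator. -/

namespace Pool.Agent.Lib.MP_2fa2a2_gt.PI

open Real Filter Set
open scoped ContDiff

section
open MeasureTheory
variable {Φ Ψ : Pf}

theorem gau_bdd (h : Per Φ) (R : ℝ) : ∃ C, ∀ z s, |z| ≤ R → |Φ (z, s)| ≤ C := by
  obtain ⟨C, hC⟩ := (isCompact_Icc.prod isCompact_Icc :
    IsCompact (Icc (-R) R ×ˢ Icc 0 (2 * π))).exists_bound_of_continuousOn
      h.1.continuous.continuousOn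
  refine ⟨C, fun z s hz => ?_⟩
  obtain ⟨t, ht, e⟩ := Function.Periodic.exists_mem_Ico₀ (f := fun s => Φ (z, s)) (h.2 z)
    two_pi_pos s
  rw [e]
  exact hC (z, t) ⟨abs_le.1 hz, ht.1, ht.2.le⟩

theorem gau_int : Integrable fun σ : ℝ => exp (-σ ^ 2 / 2) := by
  refine (integrable_exp_neg_mul_sq (b := 1 / 2) (by norm_num)).congr (.of_forall fun σ => ?_)
  simp only
  ring_nf

theorem gau_cont (h : Per Φ) (m : ℕ) (p : ℝ × ℝ) :
    Continuous fun σ : ℝ => Φ (p.1, p.2 + m * σ ^ 2 / 2) := h.1.continuous.comp (by fun_prop)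

theorem gau_int' (h : Per Φ) (m : ℕ) (p : ℝ × ℝ) :
    Integrable fun σ : ℝ => exp (-σ ^ 2 / 2) * Φ (p.1, p.2 + m * σ ^ 2 / 2) := by
  obtain ⟨C, hC⟩ := gau_bdd h |p.1|
  exact gau_int.mul_bdd (gau_cont h m p).aestronglyMeasurable (.of_forall fun σ => hC _ _ le_rfl)

theorem gau_fderiv (Φ : Pf) (p : ℝ × ℝ) : fderiv ℝ Φ p
    = dz Φ p • ContinuousLinearMap.fst ℝ ℝ ℝ + ds Φ p • ContinuousLinearMap.snd ℝ ℝ ℝ := by
  ext <;> simp [dz, ds]

theorem gau_hasFDerivAt (h : Per Φ) (m : ℕ) (p : ℝ × ℝ) : HasFDerivAt (JG m Φ)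
    (JG m (dz Φ) p • ContinuousLinearMap.fst ℝ ℝ ℝ
      + JG m (ds Φ) p • ContinuousLinearMap.snd ℝ ℝ ℝ) p := by
  obtain ⟨C1, h1⟩ := gau_bdd h.dz (|p.1| + 1)
  obtain ⟨C2, h2⟩ := gau_bdd h.ds (|p.1| + 1)
  have i1 := (gau_int' h.dz m p).smul_const (ContinuousLinearMap.fst ℝ ℝ ℝ)
  have i2 := (gau_int' h.ds m p).smul_const (ContinuousLinearMap.snd ℝ ℝ ℝ)
  have k := hasFDerivAt_integral_of_dominated_of_fderiv_le (μ := volume) (x₀ := p)
    (F := fun (q : ℝ × ℝ) (σ : ℝ) => exp (-σ ^ 2 / 2) * Φ (q.1, q.2 + m * σ ^ 2 / 2))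
    (F' := fun (q : ℝ × ℝ) (σ : ℝ) =>
      (exp (-σ ^ 2 / 2) * dz Φ (q.1, q.2 + m * σ ^ 2 / 2)) • ContinuousLinearMap.fst ℝ ℝ ℝ
      + (exp (-σ ^ 2 / 2) * ds Φ (q.1, q.2 + m * σ ^ 2 / 2)) • ContinuousLinearMap.snd ℝ ℝ ℝ)
    (bound := fun σ => exp (-σ ^ 2 / 2) * (C1 + C2)) (Metric.ball_mem_nhds p one_pos)
    (.of_forall fun q => (gau_int' h m q).1) (gau_int' h m p)
    (by exact i1.aestronglyMeasurable.add i2.aestronglyMeasurable)
    (.of_forall fun σ q hq => ?_)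
    (gau_int.mul_const _) (.of_forall fun σ q _ => ?_)
  · rwa [integral_add i1 i2, integral_smul_const, integral_smul_const] at k
  · have hz : |q.1| ≤ |p.1| + 1 := by
      rw [Metric.mem_ball, Prod.dist_eq, max_lt_iff, Real.dist_eq] at hq
      linarith [abs_sub_abs_le_abs_sub q.1 p.1, hq.1]
    have e0 := (exp_pos (-σ ^ 2 / 2)).le
    refine (norm_add_le _ _).trans ?_
    rw [norm_smul, norm_smul, ContinuousLinearMap.norm_fst, ContinuousLinearMap.norm_snd, mul_one,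
      mul_one, norm_mul, norm_mul, Real.norm_of_nonneg e0, mul_add]
    exact add_le_add (mul_le_mul_of_nonneg_left (h1 _ _ hz) e0)
      (mul_le_mul_of_nonneg_left (h2 _ _ hz) e0)
  · have e : (fun q : ℝ × ℝ => Φ (q.1, q.2 + m * σ ^ 2 / 2))
        = fun q => Φ (q + (0, m * σ ^ 2 / 2)) := by
      funext q
      congr 1
      ext <;> simp
    have e' : (q.1, q.2 + m * σ ^ 2 / 2) = q + (0, m * σ ^ 2 / 2) := by ext <;> simp
    have d : HasFDerivAt (fun q : ℝ × ℝ => Φ (q.1, q.2 + m * σ ^ 2 / 2))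
        (fderiv ℝ Φ (q.1, q.2 + m * σ ^ 2 / 2)) q := by
      rw [e, e', hasFDerivAt_comp_add_right]
      exact (h.1.differentiable (by simp) _).hasFDerivAt
    have d' := d.const_mul (exp (-σ ^ 2 / 2))
    rwa [gau_fderiv, smul_add, smul_smul, smul_smul] at d'

theorem gau_smooth (m n : ℕ) : ∀ Φ : Pf, Per Φ → ContDiff ℝ n (JG m Φ) := by
  induction n with
  | zero => exact fun Φ h => contDiff_zero.2 (continuous_iff_continuousAt.2 fun p =>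
      (gau_hasFDerivAt h m p).continuousAt)
  | succ n ih =>
    intro Φ h
    rw [Nat.cast_succ]
    exact contDiff_succ_iff_hasFDerivAt.2 ⟨_, ((ih _ h.dz).smul contDiff_const).add
      ((ih _ h.ds).smul contDiff_const), gau_hasFDerivAt h m⟩

theorem gau_per (m : ℕ) (h : Per Φ) : Per (JG m Φ) :=
  ⟨contDiff_infty.2 fun n => gau_smooth m n Φ h, fun z s => by
    simp only [JG, add_right_comm s (2 * π), h.2]⟩

theorem gau_ds (m : ℕ) (h : Per Φ) : ds (JG m Φ) = JG m (ds Φ) := by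
  funext p
  rw [ds, (gau_hasFDerivAt h m p).fderiv]
  simp

theorem gau_dz (m : ℕ) (h : Per Φ) : dz (JG m Φ) = JG m (dz Φ) := by
  funext p
  rw [dz, (gau_hasFDerivAt h m p).fderiv]
  simp

theorem gau_mz (m : ℕ) (h0 : Mz Φ) (h : Per Φ) : Mz (JG m Φ) := by
  rw [← ds_sinv h, ← gau_ds m (h.sinv h0)]
  exact Mz_ds (gau_per m (h.sinv h0))

theorem gau_sup {z1 z2 : ℝ} (m : ℕ) (h : Sup z1 z2 Φ) : Sup z1 z2 (JG m Φ) := fun z s hz => by
  simp only [JG, h z _ hz, mul_zero, integral_zero]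

theorem gau_polar {b : ℝ → ℝ} (hb : Continuous b) {C : ℝ} (hC : ∀ t, |b t| ≤ C) :
    ∫ x : ℝ, exp (-x ^ 2 / 2) * ∫ y : ℝ, exp (-y ^ 2 / 2) * b (x ^ 2 + y ^ 2)
      = 2 * π * ∫ r in Ioi (0 : ℝ), r * exp (-r ^ 2 / 2) * b (r ^ 2) := by
  have i : Integrable (fun p : ℝ × ℝ => exp (-p.1 ^ 2 / 2) * exp (-p.2 ^ 2 / 2)
      * b (p.1 ^ 2 + p.2 ^ 2)) (volume.prod volume) :=
    (gau_int.mul_prod gau_int).mul_bdd (Continuous.aestronglyMeasurable (by fun_prop))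
      (.of_forall fun p => hC _)
  have e := integral_prod _ i
  simp only [mul_assoc, integral_const_mul] at e
  rw [← e, ← Measure.volume_eq_prod, ← integral_comp_polarCoord_symm, polarCoord_target,
    Measure.volume_eq_prod]
  have k := setIntegral_prod_mul (μ := volume) (ν := volume)
    (fun r : ℝ => r * exp (-r ^ 2 / 2) * b (r ^ 2)) (fun _ : ℝ => (1 : ℝ)) (Ioi 0) (Ioo (-π) π)
  have v : ∫ _ in Ioo (-π) π, (1 : ℝ) = 2 * π := by
    rw [setIntegral_const, Real.volume_real_Ioo_of_le (by linarith [pi_pos])]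
    simp [two_mul]
  rw [v, mul_comm] at k
  rw [← k]
  refine integral_congr_ae (.of_forall fun p => ?_)
  have : (p.1 * cos p.2) ^ 2 + (p.1 * sin p.2) ^ 2 = p.1 ^ 2 := by
    linear_combination p.1 ^ 2 * cos_sq_add_sin_sq p.2
  simp only [polarCoord_symm_apply, smul_eq_mul, this, mul_one]
  rw [← mul_assoc (exp _), ← exp_add, ← this]
  ring_nf

theorem gau_JG_JG (m : ℕ) (h : Per Φ) (p : ℝ × ℝ) : JG m (JG m Φ) p
    = 2 * π * ∫ r in Ioi (0 : ℝ), r * exp (-r ^ 2 / 2) * Φ (p.1, p.2 + m * r ^ 2 / 2) := by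
  obtain ⟨C, hC⟩ := gau_bdd h |p.1|
  rw [← gau_polar (b := fun t => Φ (p.1, p.2 + m * t / 2)) (h.1.continuous.comp (by fun_prop))
    fun t => hC _ _ le_rfl]
  simp only [JG, mul_add, add_div, add_assoc]

theorem gau_comp (h : Per Φ) (m : ℕ) (p : ℝ × ℝ) (x : ℝ) :
    HasDerivAt (fun x : ℝ => Φ (p.1, p.2 + m * x ^ 2 / 2))
      (ds Φ (p.1, p.2 + m * x ^ 2 / 2) * (m * x)) x := by
  have d : HasDerivAt (fun x : ℝ => p.2 + m * x ^ 2 / 2) (m * x) x :=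
    ((((hasDerivAt_pow 2 x).const_mul (m : ℝ)).div_const 2).const_add p.2).congr_deriv
      (by simp; ring)
  exact (hasDerivAt_ds h p.1 _).comp x d

theorem gau_exp (x : ℝ) :
    HasDerivAt (fun x : ℝ => exp (-x ^ 2 / 2)) (exp (-x ^ 2 / 2) * -x) x :=
  ((((hasDerivAt_pow 2 x).neg).div_const 2).congr_deriv (by simp; ring)).exp

theorem gau_int'' (h : Per Φ) (m : ℕ) (p : ℝ × ℝ) :
    Integrable fun r : ℝ => r * exp (-r ^ 2 / 2) * Φ (p.1, p.2 + m * r ^ 2 / 2) := by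
  obtain ⟨C, hC⟩ := gau_bdd h |p.1|
  have i : Integrable fun r : ℝ => r * exp (-r ^ 2 / 2) := by
    refine (integrable_mul_exp_neg_mul_sq (b := 1 / 2) (by norm_num)).congr
      (.of_forall fun σ => ?_)
    simp only
    ring_nf
  exact i.mul_bdd (gau_cont h m p).aestronglyMeasurable (.of_forall fun σ => hC _ _ le_rfl)

theorem gau_inv (m : ℕ) (h : Per Φ) (p : ℝ × ℝ) :
    JG m (JG m Φ) p - m * JG m (JG m (ds Φ)) p = 2 * π * Φ p := by
  obtain ⟨C, hC⟩ := gau_bdd h |p.1|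
  have i1 := (gau_int'' h m p).integrableOn (s := Ioi 0)
  have i2 := ((gau_int'' h.ds m p).integrableOn (s := Ioi 0)).const_mul (m : ℝ)
  have t : Tendsto (fun x : ℝ => exp (-x ^ 2 / 2)) atTop (nhds 0) :=
    tendsto_exp_atBot.comp ((tendsto_neg_atTop_atBot.comp
      (tendsto_pow_atTop two_ne_zero)).atBot_div_const two_pos)
  have t' : Tendsto (fun x : ℝ => -(exp (-x ^ 2 / 2) * Φ (p.1, p.2 + m * x ^ 2 / 2))) atTop
      (nhds (-0)) :=
    (t.zero_mul_isBoundedUnder_le (isBoundedUnder_of ⟨C, fun x => hC _ _ le_rfl⟩)).neg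
  have k := integral_Ioi_of_hasDerivAt_of_tendsto' (a := 0)
    (fun x _ => ((gau_exp x).mul (gau_comp h m p x)).neg.congr_deriv
      (by simp only [Pi.sub_apply]; ring)) (i1.sub i2) t'
  simp only [Pi.sub_apply] at k
  rw [gau_JG_JG m h, gau_JG_JG m h.ds, mul_left_comm, ← mul_sub, ← integral_const_mul,
    ← integral_sub i1 i2, k]
  simp

theorem gau_bound {m : ℕ} (hm : 1 ≤ m) (h : Per Φ) {A B : ℝ} (hB : ∀ p, |Φ p| ≤ B)
    (hA : ∀ p, |ds Φ p| ≤ A) (p : ℝ × ℝ) :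
    |JG m (ds Φ) p| ≤ π * (A + 2 * B) * (m : ℝ) ^ (-(1 / 2) : ℝ) := by
  have m0 : (0 : ℝ) < m := Nat.cast_pos.2 hm
  have B0 : 0 ≤ B := (abs_nonneg _).trans (hB p)
  have s0 : √(m : ℝ) ≠ 0 := (sqrt_pos.2 m0).ne'
  have e : (fun x : ℝ => (1 + m * x ^ 2)⁻¹) = fun x => (1 + (√(m : ℝ) * x) ^ 2)⁻¹ := by
    funext x
    rw [mul_pow, sq_sqrt m0.le]
  have i : Integrable fun x : ℝ => (1 + m * x ^ 2)⁻¹ :=
    e ▸ integrable_inv_one_add_sq.comp_mul_left' s0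
  have v : ∫ x : ℝ, (1 + m * x ^ 2)⁻¹ = π * (m : ℝ) ^ (-(1 / 2) : ℝ) := by
    rw [e, Measure.integral_comp_mul_left (fun x : ℝ => (1 + x ^ 2)⁻¹), integral_univ_inv_one_add_sq,
      abs_of_nonneg (by positivity), rpow_neg m0.le, sqrt_eq_rpow, smul_eq_mul, mul_comm]
  have q0 : ∀ x : ℝ, 0 < 1 + m * x ^ 2 := fun x => by positivity
  have g : ∀ x : ℝ, exp (-x ^ 2 / 2) * (1 + x ^ 2) ≤ 2 := fun x => by
    have h1 := add_one_le_exp (x ^ 2 / 2)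
    have h2 : exp (-x ^ 2 / 2) * exp (x ^ 2 / 2) = 1 := by rw [← exp_add]; simp [neg_div]
    nlinarith [exp_pos (-x ^ 2 / 2)]
  have c0 := gau_cont h m p
  have c1 := gau_cont h.ds m p
  have ce : Continuous fun x : ℝ => exp (-x ^ 2 / 2) := by fun_prop
  have ci : Continuous fun x : ℝ => (1 + m * x ^ 2)⁻¹ :=
    Continuous.inv₀ (by fun_prop) fun x => (q0 x).ne'
  obtain ⟨R, hR⟩ : ∃ R : ℝ → ℝ, R = fun x => (exp (-x ^ 2 / 2) * ds Φ (p.1, p.2 + m * x ^ 2 / 2)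
      - exp (-x ^ 2 / 2) * (2 * (1 + m * x ^ 2)⁻¹ - 1 - x ^ 2) * Φ (p.1, p.2 + m * x ^ 2 / 2))
      * (1 + m * x ^ 2)⁻¹ := ⟨_, rfl⟩
  have bR : ∀ x, ‖R x‖ ≤ (A + 2 * B) * (1 + m * x ^ 2)⁻¹ := fun x => by
    have e0 := (exp_pos (-x ^ 2 / 2)).le
    have e1 : exp (-x ^ 2 / 2) ≤ 1 := exp_le_one_iff.2 (by nlinarith [sq_nonneg x])
    have u0 := inv_pos.2 (q0 x)
    have u1 : (1 + m * x ^ 2)⁻¹ ≤ 1 := inv_le_one_of_one_le₀ (by nlinarith [sq_nonneg x])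
    have a1 : |2 * (1 + m * x ^ 2)⁻¹ - 1 - x ^ 2| ≤ 1 + x ^ 2 :=
      abs_le.2 ⟨by linarith, by nlinarith [sq_nonneg x]⟩
    rw [hR, Real.norm_eq_abs, abs_mul, abs_of_pos u0]
    refine mul_le_mul_of_nonneg_right ((abs_sub _ _).trans (add_le_add ?_ ?_)) u0.le
    · rw [abs_mul, abs_of_nonneg e0]
      exact (mul_le_of_le_one_left (abs_nonneg _) e1).trans (hA _)
    · rw [abs_mul, abs_mul, abs_of_nonneg e0]
      exact mul_le_mul ((mul_le_mul_of_nonneg_left a1 e0).trans (g x)) (hB _) (abs_nonneg _)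
        zero_le_two
  have iR : Integrable R := (i.const_mul _).mono'
    (hR ▸ ((ce.mul c1).sub ((ce.mul (by fun_prop)).mul c0)).mul ci :
      Continuous R).aestronglyMeasurable (.of_forall bR)
  have i0 := gau_int' h.ds m p
  have k := integral_eq_zero_of_hasDerivAt_of_integrable
    (f := fun x : ℝ => x * exp (-x ^ 2 / 2) * Φ (p.1, p.2 + m * x ^ 2 / 2) * (1 + m * x ^ 2)⁻¹)
    (fun x => ?_) (i0.sub iR) ((gau_int'' h m p).mul_bdd (c := 1) ci.aestronglyMeasurable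
      (.of_forall fun x => by
        rw [Real.norm_of_nonneg (inv_pos.2 (q0 x)).le]
        exact inv_le_one_of_one_le₀ (by nlinarith [sq_nonneg x])))
  · simp only [Pi.sub_apply] at k
    rw [integral_sub i0 iR, sub_eq_zero] at k
    rw [JG, k, mul_comm π, mul_assoc, ← v, ← integral_const_mul]
    exact norm_integral_le_of_norm_le (i.const_mul _) (.of_forall bR)
  · have d : HasDerivAt (fun x : ℝ => 1 + m * x ^ 2) (m * (2 * x)) x :=
      (((hasDerivAt_pow 2 x).const_mul (m : ℝ)).const_add 1).congr_deriv (by simp)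
    refine ((((hasDerivAt_id' x).mul (gau_exp x)).mul (gau_comp h m p x)).mul
      (d.inv (q0 x).ne')).congr_deriv ?_
    have := (q0 x).ne'
    simp only [hR, Pi.sub_apply, Pi.mul_apply, Pi.inv_apply]
    field_simp
    ring
end

section
variable {Φ Ψ : Pf} {z1 z2 : ℝ} (m : ℕ)
theorem Per.JG (h : Per Φ) : Per (JG m Φ) := gau_per m h
theorem Sup.JG (h : Sup z1 z2 Φ) : Sup z1 z2 (JG m Φ) := gau_sup m h
theorem Mz.JG (h0 : Mz Φ) (h : Per Φ) : Mz (JG m Φ) := gau_mz m h0 h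
theorem JG_add (h : Per Φ) (h' : Per Ψ) : JG m (Φ + Ψ) = JG m Φ + JG m Ψ := by
  funext p
  simp only [JG, Pi.add_apply, mul_add]
  exact MeasureTheory.integral_add (gau_int' h m p) (gau_int' h' m p)
theorem JG_sub (h : Per Φ) (h' : Per Ψ) : JG m (Φ - Ψ) = JG m Φ - JG m Ψ := by
  funext p
  simp only [JG, Pi.sub_apply, mul_sub]
  exact MeasureTheory.integral_sub (gau_int' h m p) (gau_int' h' m p)
theorem JG_smul (r : ℝ) (Φ : Pf) : JG m (r • Φ) = r • JG m Φ := by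
  funext p
  simp only [JG, Pi.smul_apply, smul_eq_mul, mul_left_comm _ r, MeasureTheory.integral_const_mul]
theorem JG_sl_mul (φ : ℝ → ℝ) (Φ : Pf) : JG m (sl φ * Φ) = sl φ * JG m Φ := by
  funext p
  simp only [JG, sl, Pi.mul_apply, mul_left_comm _ (φ p.1), MeasureTheory.integral_const_mul]
theorem ds_JG (h : Per Φ) : ds (JG m Φ) = JG m (ds Φ) := gau_ds m h
theorem dz_JG (h : Per Φ) (hs : Sup z1 z2 Φ) : dz (JG m Φ) = JG m (dz Φ) :=
  (fun _ => gau_dz m h) hs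
theorem JG_Jsh (h : Per Φ) : JG m (Jsh m Φ) = Φ := by
  rw [Jsh, JG_smul, JG_sub m (h.JG m) ((h.JG m).ds.smul _), JG_smul, ds_JG m h]
  funext p
  simp only [Pi.smul_apply, Pi.sub_apply, smul_eq_mul, gau_inv m h]
  exact inv_mul_cancel_left₀ two_pi_pos.ne' _
theorem Per.Jsh (h : Per Φ) : Per (Jsh m Φ) := ((h.JG m).sub ((h.JG m).ds.smul _)).smul _
theorem Mz.Jsh (h0 : Mz Φ) (h : Per Φ) : Mz (Jsh m Φ) := fun z => by
  rw [PI.Jsh, mean_smul, mean_sub (h.JG m) ((h.JG m).ds.smul _), mean_smul, h0.JG m h z,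
    Mz_ds (h.JG m) z, mul_zero, sub_zero, mul_zero]
theorem Jsh_sl_mul {φ : ℝ → ℝ} (hφ : ContDiff ℝ ∞ φ) (h : Per Φ) :
    Jsh m (sl φ * Φ) = sl φ * Jsh m Φ := by
  rw [Jsh, Jsh, JG_sl_mul, ds_sl_mul (h.JG m) hφ, mul_smul_comm, mul_sub, mul_smul_comm]
theorem Jsh_add (h : Per Φ) (h' : Per Ψ) : Jsh m (Φ + Ψ) = Jsh m Φ + Jsh m Ψ := by
  rw [Jsh, Jsh, Jsh, JG_add m h h', ds_add (h.JG m) (h'.JG m), ← smul_add, smul_add (m : ℝ),
    add_sub_add_comm]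
end

theorem PF.JG {Φ : ℕ → Pf} {z1 z2 α : ℝ} (h : PF z1 z2 α Φ) (h0 : ∀ m, Mz (Φ m)) :
    PF z1 z2 (α + 1 / 2) (fun m => JG m (Φ m)) := by
  refine ⟨fun m => ⟨gau_per m (h.1 m).1, gau_sup m (h.1 m).2⟩, OO_of_sup
    (S := fun Ψ => ∃ Φ, PF z1 z2 α Φ ∧ (∀ m, Mz (Φ m)) ∧ Ψ = fun m => PI.JG m (Φ m))
    ?_ ?_ ?_ ?_ ⟨Φ, h, h0, rfl⟩⟩ <;> rintro _ ⟨Φ, h, h0, rfl⟩
  · exact fun m => (gau_per m (h.1 m).1).1
  · obtain ⟨A, -, hA⟩ := h.abs_le
    obtain ⟨B, -, hB⟩ := (h.sinv h0).abs_le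
    refine ⟨π * (A + 2 * B), ?_⟩
    filter_upwards [hA, hB, eventually_ge_atTop 1] with m hA hB hm p
    have k := gau_bound hm ((h.1 m).1.sinv (h0 m)) hB (by rw [ds_sinv (h.1 m).1]; exact hA) p
    rw [ds_sinv (h.1 m).1] at k
    refine k.trans_eq ?_
    rw [neg_add, rpow_add (Nat.cast_pos.2 hm)]
    ring
  · exact ⟨_, h.dz, fun m => (h0 m).dz (h.1 m).1, funext fun m => gau_dz m (h.1 m).1⟩
  · exact ⟨_, h.ds, fun m => Mz_ds (h.1 m).1, funext fun m => gau_ds m (h.1 m).1⟩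
theorem PF.Jsh {Φ : ℕ → Pf} {z1 z2 α : ℝ} (h : PF z1 z2 α Φ) (h0 : ∀ m, Mz (Φ m)) :
    PF z1 z2 (α - 1 / 2) (fun m => Jsh m (Φ m)) :=
  (((h.JG h0).mono le_rfl le_rfl (by linarith)).sub
    ((h.JG h0).ds.nat.mono le_rfl le_rfl (by linarith))).smul _

end Pool.Agent.Lib.MP_2fa2a2_gt.PI
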