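import Pool.Agent.Lib.MP_2fa2a2_gt.PI.StatAY
import Pool.Agent.Lib.MP_2fa2a2_gt.PI.Gau

/-! The stationary phase lemma for the model phase. -/

namespace Pool.Agent.Lib.MP_2fa2a2_gt.PI.Sta

open Real Filter Set MeasureTheory Topology
open scoped ContDiff

/-- the weight of order `α` -/
noncomputable def ee (α : ℝ) (m : ℕ) : ℝ := (max (m : ℝ) 1) ^ (-α)

theorem ee_pos (α : ℝ) (m : ℕ) : 0 < ee α m := rpow_pos_of_pos (by positivity) _

theorem ee_eq (α : ℝ) {m : ℕ} (hm : 1 ≤ m) : ee α m = (m : ℝ) ^ (-α) := by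
  rw [ee, max_eq_left (by exact_mod_cast hm)]

variable {a b α : ℝ} {A : ℕ → Pf} {β : ℕ → (ℝ × ℝ) × ℝ → ℝ}

theorem KK.of_PF (h : PF a b α A) (h0 : ∀ m, Mz (A m)) : KK (ee α) A := by
  refine ⟨⟨fun m => (ee_pos α m).le, fun m => (h.1 m).1.1, fun i _ => ?_⟩, fun m => (h.1 m).1.2,
    fun m y => (mul_eq_zero.1 (h0 m y)).resolve_left (by positivity)⟩
  obtain ⟨C, hC⟩ := h.2 i
  obtain ⟨M, hM⟩ := eventually_atTop.1 (hC.and (eventually_ge_atTop 1))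
  have : ∀ m, ∃ c, 0 ≤ c ∧ ∀ p, ‖iteratedFDeriv ℝ i (A m) p‖ ≤ c * ee α m := fun m => by
    obtain ⟨c, hc⟩ := (PF.const (h.1 m).1 (h.1 m).2).2 i
    obtain ⟨n, hn⟩ := hc.exists
    refine ⟨|c| / ee α m, div_nonneg (abs_nonneg _) (ee_pos α m).le, fun p => ?_⟩
    rw [div_mul_cancel₀ _ (ee_pos α m).ne']
    exact (hn p).trans (by simpa using le_abs_self c)
  choose c h1 h2 using this
  have h3 := Finset.sum_nonneg fun m (_ : m ∈ Finset.range M) => h1 m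
  refine ⟨|C| + ∑ m ∈ Finset.range M, c m, by positivity, fun m p => ?_⟩
  rcases lt_or_ge m M with hm | hm
  · refine (h2 m p).trans (mul_le_mul_of_nonneg_right ?_ (ee_pos α m).le)
    linarith [Finset.single_le_sum (fun m (_ : m ∈ Finset.range M) => h1 m) (Finset.mem_range.2 hm),
      abs_nonneg C]
  · refine ((hM m hm).1 p).trans ?_
    rw [← ee_eq α (hM m hm).2]
    exact mul_le_mul_of_nonneg_right (by linarith [le_abs_self C]) (ee_pos α m).le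

theorem KK.toPF (h : KK (ee α) A) (hs : ∀ m, Sup a b (A m)) : PF a b α A :=
  ⟨fun m => ⟨⟨h.bb.sm m, h.per m⟩, hs m⟩, fun i => by
    obtain ⟨C, -, hC⟩ := h.bb.bd i (Nat.zero_le i)
    exact ⟨C, (eventually_ge_atTop 1).mono fun m hm p => ee_eq α hm ▸ hC m p⟩⟩

theorem KK.toMz {ε : ℕ → ℝ} (h : KK ε A) (m : ℕ) : Mz (A m) := fun z => by simp [mean, h.mz]

/-- the model oscillatory integral -/
noncomputable def II (u : ℝ → ℝ) (β : ℕ → (ℝ × ℝ) × ℝ → ℝ) : ℕ → Pf :=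
  fun m p => ∫ σ, u σ • β m ((p.1, σ), p.2 + m * σ ^ 2 / 2)

/-- the Gaussian weight -/
noncomputable def u0 (σ : ℝ) : ℝ := exp (-σ ^ 2 / 2)
/-- the odd Gaussian weight -/
noncomputable def u1 (σ : ℝ) : ℝ := σ * exp (-σ ^ 2 / 2)

theorem int_u0 : Integrable u0 :=
  (integrable_exp_neg_mul_sq (b := 1 / 2) (by norm_num)).congr
    (Eventually.of_forall fun x => by simp only [u0]; congr 1; ring)

theorem int_u1 : Integrable u1 :=
  (integrable_mul_exp_neg_mul_sq (b := 1 / 2) (by norm_num)).congr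
    (Eventually.of_forall fun x => by simp only [u1]; congr 2; ring)

variable {ε : ℕ → ℝ} {u : ℝ → ℝ}

theorem KK.sl (h : KK ε β) : KK (fun j : ℕ × (univ : Set ℝ) => ε j.1)
    (fun j (p : ℝ × ℝ) => β j.1 ((p.1, j.2), p.2 + j.1 * (j.2 : ℝ) ^ 2 / 2)) :=
  (h.reindex Prod.fst).comp (Λ := fun (j : ℕ × (univ : Set ℝ)) (x : ℝ) => (x, (j.2 : ℝ)))
    ((BB.lin' (ContinuousLinearMap.fst ℝ ℝ ℝ)).prod (BB.const1 _)) _

theorem KK.II (h : KK ε β) (hu : Integrable u) : KK ε (II u β) :=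
  KK.int (Φ := fun m (x : ℝ × (ℝ × ℝ)) => β m ((x.2.1, x.1), x.2.2 + m * x.1 ^ 2 / 2)) hu
    (T := univ) (by simp) h.bb.nn (fun j => (h.bb.sm j).comp (by fun_prop)) h.sl

theorem KK.fderiv_II (h : KK ε β) (hu : Integrable u) (m : ℕ) (p v : ℝ × ℝ) :
    fderiv ℝ (Sta.II u β m) p v = Sta.II u (Sta.dir ((v.1, 0), v.2) β) m p := by
  refine (fderiv_int hu (T := univ) (by simp)
    (Φ := fun x : ℝ × (ℝ × ℝ) => β m ((x.2.1, x.1), x.2.2 + m * x.1 ^ 2 / 2))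
    ((h.bb.sm m).comp (by fun_prop)) (BB.slice
      (Φ := fun m (x : ℝ × (ℝ × ℝ)) => β m ((x.2.1, x.1), x.2.2 + m * x.1 ^ 2 / 2)) h.sl.bb m)
    p v).trans (integral_congr_ae (Eventually.of_forall fun σ => ?_))
  have := ((h.bb.sm m).differentiable (by simp) ((p.1, σ), p.2 + m * σ ^ 2 / 2)).hasFDerivAt.comp p
    (f := fun p : ℝ × ℝ => ((p.1, σ), p.2 + m * σ ^ 2 / 2))
    ((hasFDerivAt_fst.prodMk (hasFDerivAt_const σ p)).prodMk
      (hasFDerivAt_snd.add_const (m * σ ^ 2 / 2 : ℝ)))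
  exact congrArg (u σ • ·) (congrArg (· v) this.fderiv)

theorem KK.integrable (h : KK ε β) (hu : Integrable u) (m : ℕ) (p : ℝ × ℝ) :
    Integrable fun σ => u σ • β m ((p.1, σ), p.2 + m * σ ^ 2 / 2) := by
  obtain ⟨C, -, hC⟩ := h.bb.abs_le
  exact integrable_smul hu (T := univ) (by simp) ((h.bb.sm m).continuous.comp (by fun_prop))
    fun t _ => hC m _

theorem KK.ibp (h : KK ε β) (m : ℕ) (p : ℝ × ℝ) : m * Sta.II u1 β m p =
    Sta.II u1 (Sta.sv β) m p - Sta.II u0 (Sta.dir ((0, 1), 0) (Sta.sv β)) m p := by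
  have i1 := (h.integrable int_u1 m p).const_mul m
  have i2 := h.sv.integrable int_u1 m p
  have i3 := (h.sv.dir ((0, 1), 0)).integrable int_u0 m p
  have := integral_eq_zero_of_hasDerivAt_of_integrable (fun σ => ?_) ((i1.sub i2).add i3)
    (h.sv.integrable int_u0 m p)
  · rw [integral_add' (i1.sub i2) i3, integral_sub' i1 i2, integral_const_mul] at this
    simp only [Sta.II]
    linarith
  have d1 : HasDerivAt u0 (-u1 σ) σ :=
    ((hasDerivAt_pow 2 σ).neg.div_const 2).exp.congr_deriv (by simp [u1]; ring)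
  have d2 := ((h.sv.bb.sm m).differentiable (by simp)
    ((p.1, σ), p.2 + m * σ ^ 2 / 2)).hasFDerivAt.comp_hasDerivAt σ
    (((hasDerivAt_const σ p.1).prodMk (hasDerivAt_id σ)).prodMk
      ((((hasDerivAt_pow 2 σ).const_mul (m : ℝ)).div_const 2).const_add p.2))
  refine (d1.mul d2).congr_deriv ?_
  have e : (((0, 1), (m : ℝ) * (((2 : ℕ) : ℝ) * σ ^ (2 - 1)) / 2) : (ℝ × ℝ) × ℝ)
      = ((0, 1), 0) + (m * σ) • (0, 1) := by simp; ring
  rw [e, map_add, map_smul, fderiv_snd_eq (h.sv.bb.sm m) (h.hasDerivAt_sv m _ _)]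
  simp [Sta.dir, u1, u0]
  ring

/-- the Hadamard quotient in the middle variable -/
noncomputable def had (β : ℕ → (ℝ × ℝ) × ℝ → ℝ) : ℕ → (ℝ × ℝ) × ℝ → ℝ :=
  fun m p => ∫ t in Ioc (0 : ℝ) 1, (1 : ℝ) • dir ((0, 1), 0) β m ((p.1.1, t * p.1.2), p.2 + 0)

theorem KK.had (h : KK ε β) : KK ε (had β) := by
  have h1 := h.dir ((0, 1), 0)
  refine KK.int (Φ := fun m (x : ℝ × ((ℝ × ℝ) × ℝ)) =>
    Sta.dir ((0, 1), 0) β m ((x.2.1.1, x.1 * x.2.1.2), x.2.2 + 0)) (integrable_const 1)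
    (ae_restrict_mem measurableSet_Ioc) h.bb.nn (fun j => (h1.bb.sm j).comp (by fun_prop))
    ((h1.reindex Prod.fst).comp
      (Λ := fun (j : ℕ × Ioc (0 : ℝ) 1) (y : ℝ × ℝ) => (y.1, (j.2 : ℝ) * y.2))
      ((BB.lin' (ContinuousLinearMap.fst ℝ ℝ ℝ ∘L ContinuousLinearMap.fst ℝ (ℝ × ℝ) ℝ)).prod
        (BB.lin (L := fun j : ℕ × Ioc (0 : ℝ) 1 => (j.2 : ℝ) •
          (ContinuousLinearMap.snd ℝ ℝ ℝ ∘L ContinuousLinearMap.fst ℝ (ℝ × ℝ) ℝ))
          (C := 1 * ‖ContinuousLinearMap.snd ℝ ℝ ℝ ∘L ContinuousLinearMap.fst ℝ (ℝ × ℝ) ℝ‖)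
          fun j => ?_)) fun _ => 0)
  rw [norm_smul]
  exact mul_le_mul_of_nonneg_right (by rw [Real.norm_eq_abs, abs_of_pos j.2.2.1]; exact j.2.2.2)
    (norm_nonneg _)

theorem KK.had_eq (h : KK ε β) (m : ℕ) (x σ s : ℝ) :
    β m ((x, σ), s) = β m ((x, 0), s) + σ * Sta.had β m ((x, σ), s) := by
  have hc := ((h.dir ((0, 1), 0)).bb.sm m).continuous
  have := intervalIntegral.integral_eq_sub_of_hasDerivAt (a := 0) (b := 1)
    (f := fun t => β m ((x, t * σ), s))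
    (f' := fun t => σ * Sta.dir ((0, 1), 0) β m ((x, t * σ), s))
    (fun t _ => (((h.bb.sm m).differentiable (by simp) ((x, t * σ), s)).hasFDerivAt.comp_hasDerivAt t
      (((hasDerivAt_const t x).prodMk (hasDerivAt_mul_const σ)).prodMk
        (hasDerivAt_const t s))).congr_deriv (by
          rw [Sta.dir, ← smul_eq_mul σ, ← map_smul]
          simp))
    (Continuous.intervalIntegrable (by fun_prop) _ _)
  rw [intervalIntegral.integral_const_mul, intervalIntegral.integral_of_le zero_le_one] at this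
  simp only [Sta.had, one_smul, add_zero, this, one_mul, zero_mul]
  ring

theorem KK.res (h : KK ε β) : KK ε (fun m (p : ℝ × ℝ) => β m ((p.1, 0), p.2)) := by
  simpa using h.comp (Λ := fun _ (x : ℝ) => (x, (0 : ℝ)))
    ((BB.lin' (ContinuousLinearMap.fst ℝ ℝ ℝ)).prod (BB.const1 _)) fun _ => 0

theorem KK.II_eq (h : KK ε β) (m : ℕ) :
    Sta.II u0 β m = JG m (fun p => β m ((p.1, 0), p.2)) + Sta.II u1 (Sta.had β) m := by
  funext p
  have i1 := h.integrable int_u0 m p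
  have i2 := h.had.integrable int_u1 m p
  rw [Pi.add_apply, ← sub_eq_iff_eq_add, Sta.II, Sta.II, ← integral_sub i1 i2, JG]
  refine integral_congr_ae (Eventually.of_forall fun σ => ?_)
  simp only [smul_eq_mul, u0, u1]
  rw [h.had_eq m p.1 σ]
  ring

/-- vanishing outside of a strip -/
def Str (a b : ℝ) (β : ℕ → (ℝ × ℝ) × ℝ → ℝ) : Prop :=
  Van (fun _ => {y : ℝ × ℝ | y.1 ∈ Icc a b}) β

theorem Str.dir (h : Str a b β) (v : (ℝ × ℝ) × ℝ) : Str a b (dir v β) :=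
  Van.dir h (fun _ => isClosed_Icc.preimage continuous_fst) v

theorem Str.had (h : Str a b β) : Str a b (had β) := fun m y hy s => by
  simp [Sta.had, fun t => h.dir ((0, 1), 0) m (y.1, t) hy]

theorem Str.II (h : Str a b β) (u : ℝ → ℝ) (m : ℕ) : Sup a b (II u β m) := fun z s hz => by
  simp [Sta.II, fun t => h m (z, t) hz]

theorem KK.step (h : KK ε β) {γ : ℝ} {C C' : ℝ}
    (h1 : ∀ᶠ m : ℕ in atTop, ∀ p, |Sta.II u1 (Sta.sv β) m p| ≤ C * (m : ℝ) ^ (-γ))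
    (h2 : ∀ᶠ m : ℕ in atTop, ∀ p,
      |Sta.II u0 (Sta.dir ((0, 1), 0) (Sta.sv β)) m p| ≤ C' * (m : ℝ) ^ (-γ)) :
    ∀ᶠ m : ℕ in atTop, ∀ p, |Sta.II u1 β m p| ≤ (C + C') * (m : ℝ) ^ (-(γ + 1)) := by
  filter_upwards [h1, h2, eventually_ge_atTop 1] with m h1 h2 hm p
  have hm' : (0 : ℝ) < m := by exact_mod_cast hm
  rw [neg_add, rpow_add hm', rpow_neg_one, ← mul_assoc, ← div_eq_mul_inv, le_div_iff₀' hm',
    ← abs_of_pos hm', ← abs_mul, h.ibp, abs_of_pos hm', add_mul]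
  exact (abs_sub _ _).trans (add_le_add (h1 p) (h2 p))

theorem KK.b0 (h : KK (ee α) β) (hu : Integrable u) :
    ∃ C, 0 ≤ C ∧ ∀ᶠ m : ℕ in atTop, ∀ p, |Sta.II u β m p| ≤ C * (m : ℝ) ^ (-α) :=
  (h.II hu).bb.abs_le.imp fun _ hC =>
    ⟨hC.1, (eventually_ge_atTop 1).mono fun m hm p => ee_eq α hm ▸ hC.2 m p⟩

theorem KK.b1 (h : KK (ee α) β) :
    ∃ C, 0 ≤ C ∧ ∀ᶠ m : ℕ in atTop, ∀ p, |Sta.II u1 β m p| ≤ C * (m : ℝ) ^ (-(α + 1 / 2)) := by
  obtain ⟨C, c1, c2⟩ := h.sv.b0 int_u1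
  obtain ⟨C', c1', c2'⟩ := (h.sv.dir ((0, 1), 0)).b0 int_u0
  refine ⟨C + C', by positivity, ?_⟩
  filter_upwards [h.step c2 c2', eventually_ge_atTop 1] with m hm hm' p
  exact (hm p).trans (mul_le_mul_of_nonneg_left (rpow_le_rpow_of_exponent_le
    (by exact_mod_cast hm') (by linarith)) (by positivity))

theorem KK.b2 (h : KK (ee α) β) (hs : Str a b β) :
    ∃ C, ∀ᶠ m : ℕ in atTop, ∀ p, |Sta.II u0 β m p| ≤ C * (m : ℝ) ^ (-(α + 1 / 2)) := by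
  obtain ⟨C, -, c2⟩ := h.had.b1
  obtain ⟨C', -, c2'⟩ := ((h.res.toPF (a := a) (b := b) fun m z s hz => hs m (z, 0) hz s).JG
    h.res.toMz).abs_le
  refine ⟨C' + C, ?_⟩
  filter_upwards [c2, c2'] with m h1 h2 p
  rw [h.II_eq, Pi.add_apply, add_mul]
  exact (abs_add_le _ _).trans (add_le_add (h2 p) (h1 p))

theorem KK.PF_II (h : KK (ee α) β) (hs : Str a b β) : PF a b (α + 3 / 2) (Sta.II u1 β) := by
  refine ⟨fun m => ⟨⟨(h.II int_u1).bb.sm m, (h.II int_u1).per m⟩, hs.II u1 m⟩, OO_of_sup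
    (S := fun Φ => ∃ β, KK (ee α) β ∧ Str a b β ∧ Φ = Sta.II u1 β) ?_ ?_ ?_ ?_ ⟨β, h, hs, rfl⟩⟩
  · rintro _ ⟨β, h, -, rfl⟩
    exact (h.II int_u1).bb.sm
  · rintro _ ⟨β, h, hs, rfl⟩
    obtain ⟨C, -, c2⟩ := h.sv.b1
    obtain ⟨C', c2'⟩ := (h.sv.dir ((0, 1), 0)).b2 (Str.dir (Van.sv hs) _)
    exact ⟨C + C', by simpa only [show α + 1 / 2 + 1 = α + 3 / 2 by ring] using h.step c2 c2'⟩
  · rintro _ ⟨β, h, hs, rfl⟩
    exact ⟨_, h.dir _, hs.dir _, funext fun m => funext fun p => h.fderiv_II int_u1 m p (1, 0)⟩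
  · rintro _ ⟨β, h, hs, rfl⟩
    exact ⟨_, h.dir _, hs.dir _, funext fun m => funext fun p => h.fderiv_II int_u1 m p (0, 1)⟩

theorem model (h : KK (ee α) β) (hs : Str a b β) : ∃ Ψ : ℕ → Pf, PF a b (α + 3 / 2) Ψ ∧
    (∀ m, Mz (Ψ m)) ∧ ∀ m, II u0 β m = JG m (fun p => β m ((p.1, 0), p.2)) + Ψ m :=
  ⟨_, h.had.PF_II hs.had, (h.had.II int_u1).toMz, h.II_eq⟩

end Pool.Agent.Lib.MP_2fa2a2_gt.PI.Sta
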