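import Pool.Agent.Lib.MP_2fa2a2_gt.PI.SWkb
import Pool.Agent.Lib.MP_2fa2a2_gt.PI.StatAZ
import Pool.Agent.Lib.MP_2fa2a2_gt.PI.StatAW

namespace Pool.Agent.Lib.MP_2fa2a2_gt.PI

open Real Filter Set MeasureTheory Topology
open scoped ContDiff

namespace Sta

/-- the argument of `a + b i` -/
noncomputable def ar (a b : ℝ) : ℝ := Complex.arg (a + b * Complex.I)

theorem slit {a b : ℝ} (h : 0 < a ∨ b ≠ 0) : (a + b * Complex.I : ℂ) ∈ Complex.slitPlane := by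
  simpa [Complex.mem_slitPlane_iff] using h

theorem hasDerivAt_ar {a b : ℝ → ℝ} {a' b' y : ℝ} (ha : HasDerivAt a a' y) (hb : HasDerivAt b b' y)
    (h : 0 < a y ∨ b y ≠ 0) : HasDerivAt (fun y => ar (a y) (b y))
      ((a y * b' - a' * b y) / (a y ^ 2 + b y ^ 2)) y := by
  have := Complex.imCLM.hasFDerivAt.comp_hasDerivAt y
    ((ha.ofReal_comp.add (hb.ofReal_comp.mul_const Complex.I)).clog_real (slit h))
  refine (this.congr_of_eventuallyEq (Eventually.of_forall fun y => ?_)).congr_deriv ?_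
  · simp [ar, Complex.log_im]
  · simp [Complex.div_im, Complex.normSq_apply]
    ring

theorem contDiffAt_ar {a b : ℝ → ℝ} {x : ℝ} (ha : ContDiffAt ℝ ∞ a x) (hb : ContDiffAt ℝ ∞ b x)
    (h : 0 < a x ∨ b x ≠ 0) : ContDiffAt ℝ ∞ (fun x => ar (a x) (b x)) x := by
  have := Complex.imCLM.contDiff.contDiffAt.comp x
    (((Complex.contDiffAt_log (slit h)).restrict_scalars ℝ).comp x
      (f := fun x => (a x + b x * Complex.I : ℂ))
      ((Complex.ofRealCLM.contDiff.contDiffAt.comp x ha).add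
        ((Complex.ofRealCLM.contDiff.contDiffAt.comp x hb).mul contDiffAt_const)))
  exact this.congr_of_eventuallyEq (Eventually.of_forall fun y => by simp [ar, Complex.log_im])

theorem ar_mul {r : ℝ} (hr : 0 < r) (a b : ℝ) : ar (r * a) (r * b) = ar a b := by
  rw [ar, ar, ← Complex.arg_real_mul (a + b * Complex.I) hr]
  congr 1
  push_cast
  ring

theorem per_ar {Φ : Pf} (h : Per Φ) {a c : ℝ} (hac : 0 < a ∨ -c ≠ 0) (z S G : ℝ) (m : ℕ) :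
    Φ (z, S + m * (Complex.arg (-(a : ℂ) + c * Complex.I) + G))
      = Φ (z, S + m * (π + ar a (-c) + G)) := by
  have h1 := Complex.arg_neg_coe_angle (Complex.slitPlane_ne_zero (slit hac))
  rw [← Real.Angle.coe_add, Real.Angle.angle_eq_iff_two_pi_dvd_sub] at h1
  obtain ⟨k, hk⟩ := h1
  rw [show -((a : ℂ) + ((-c : ℝ) : ℂ) * Complex.I) = -(a : ℂ) + c * Complex.I by
    push_cast; ring] at hk
  refine Eq.trans ?_ (Function.Periodic.int_mul (f := fun s => Φ (z, s)) (h.2 z) (m * k) _)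
  rw [ar]
  congr 2
  push_cast at hk ⊢
  linear_combination (m : ℝ) * hk

variable {w : WG} {z1 z2 α : ℝ} {A : ℕ → Pf}

theorem facts (hw : w.Ok) {x : ℝ} (hx : x ∈ Icc w.zl w.zr) :
    0 < w.Γ x ∧ w.zr ^ 2 < 1 - w.Γ x ^ 2 ∧ ∀ z ∈ Icc w.zl w.zr, 0 < 1 - z ^ 2 - w.Γ x ^ 2 := by
  have h1 := hw.zl_pos
  have h2 := hw.zr_lt
  have h3 := hw.τ_pos
  have h4 := hw.τ2_pos
  have h5 := hw.small
  have h6 : 0 < w.Γ x := add_pos h3 (mul_pos h4 (by linarith [hx.1]))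
  have h7 : w.Γ x ≤ w.τ + w.τ2 := by
    unfold WG.Γ
    nlinarith [hx.2]
  have h8 : w.Γ x ^ 2 ≤ (1 - w.zr ^ 2) / 4 := (pow_le_pow_left₀ h6.le h7 2).trans h5
  have h9 : w.zr ^ 2 < 1 := by nlinarith [hx.1, hx.2]
  exact ⟨h6, by linarith, fun z hz => by nlinarith [hz.1, hz.2]⟩

/-- the smooth branch of the phase -/
noncomputable def ph (w : WG) (t θ : ℝ) : ℝ :=
  π + ar (t * sin θ) (-cos θ) + w.g (√(1 - t ^ 2) * sin θ)

/-- the integrand -/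
noncomputable def fi (w : WG) (i m : ℕ) (A : Pf) (t S θ : ℝ) : ℝ :=
  (√(1 - t ^ 2) * cos θ) ^ i * A (√(1 - t ^ 2) * sin θ, S + m * ph w t θ)

theorem q_eq {t : ℝ} (ht : t ∈ Icc (0 : ℝ) 1) (θ : ℝ) :
    (√(1 - t ^ 2) * cos θ) ^ 2 = 1 - (√(1 - t ^ 2) * sin θ) ^ 2 - t ^ 2 ∧
    (t * sin θ) ^ 2 + (-cos θ) ^ 2 = 1 - (√(1 - t ^ 2) * sin θ) ^ 2 := by
  have := sq_sqrt (show 0 ≤ 1 - t ^ 2 by nlinarith [ht.1, ht.2])
  have := sin_sq_add_cos_sq θ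
  constructor <;> grind

theorem slit_of (hw : w.Ok) {t θ : ℝ} (ht : t ∈ Icc (0 : ℝ) 1) (hθ : θ ∈ Icc 0 π)
    (hz : √(1 - t ^ 2) * sin θ ∈ Icc w.zl w.zr) : 0 < t * sin θ ∨ -cos θ ≠ 0 := by
  by_contra h
  push Not at h
  have h1 := (q_eq ht θ).2
  rw [le_antisymm h.1 (mul_nonneg ht.1 (sin_nonneg_of_mem_Icc hθ)), h.2] at h1
  nlinarith [(facts hw hz).2.2 _ hz, sq_nonneg (w.Γ (√(1 - t ^ 2) * sin θ))]

theorem Iw_eq (hw : w.Ok) (hI : Icc z1 z2 ⊆ Icc w.zl w.zr) {Φ : Pf} (h : Per Φ) (hs : Sup z1 z2 Φ)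
    (i m : ℕ) {t : ℝ} (ht : t ∈ Icc (0 : ℝ) 1) (S : ℝ) :
    Iw w i m Φ t S = (2 * π)⁻¹ * ∫ θ in (0 : ℝ)..π, fi w i m Φ t S θ := by
  rw [Iw]
  congr 1
  refine intervalIntegral.integral_congr fun θ hθ => ?_
  rw [uIcc_of_le pi_pos.le] at hθ
  by_cases hz : √(1 - t ^ 2) * sin θ ∈ Icc z1 z2
  · exact congrArg _ (per_ar h (slit_of hw ht hθ (hI hz)) _ _ _ _)
  · simp only [fi, hs _ _ hz]

theorem fi_ii (hw : w.Ok) {B : ℝ × ℝ → ℝ} (hB : Per B) {t : ℝ} (ht : 0 < t) (i m : ℕ) (S : ℝ) :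
    IntervalIntegrable (fi w i m B t S) volume (π / 2) π := by
  refine ContinuousOn.intervalIntegrable fun θ hθ => ContinuousAt.continuousWithinAt ?_
  rw [uIcc_of_le (by linarith [pi_pos])] at hθ
  have h1 := (hasDerivAt_ar ((hasDerivAt_sin θ).const_mul t) (hasDerivAt_cos θ).neg (by
    by_contra h
    push Not at h
    have h2 := sin_nonneg_of_mem_Icc ⟨by linarith [hθ.1, pi_pos], hθ.2⟩
    have h3 : sin θ = 0 := le_antisymm (by nlinarith [h.1]) h2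
    have h4 := sin_sq_add_cos_sq θ
    rw [h3, neg_eq_zero.1 h.2] at h4
    norm_num at h4)).continuousAt
  have h2 := hB.1.continuous
  have h3 := hw.g_smooth.continuous
  refine ContinuousAt.mul (by fun_prop) (h2.continuousAt.comp (ContinuousAt.prodMk (by fun_prop)
    (continuousAt_const.add (continuousAt_const.mul ((continuousAt_const.add h1).add
      (by fun_prop))))))

/-- intervals without stationary points -/
structure NoSt (w : WG) (z1 z2 e t a b : ℝ) : Prop where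
  ht : t ∈ Icc (0 : ℝ) 1
  ha : 0 ≤ a
  hab : a ≤ b
  hb : b ≤ π
  na : √(1 - t ^ 2) * sin a ∉ Icc z1 z2
  nb : √(1 - t ^ 2) * sin b ∉ Icc z1 z2
  ns : ∀ θ ∈ Icc a b, √(1 - t ^ 2) * sin θ ∈ Icc z1 z2 →
    0 ≤ cos θ ∨ e ≤ |t - w.Γ (√(1 - t ^ 2) * sin θ)|

theorem D_ne (hw : w.Ok) {t z c e : ℝ} (he : 0 < e) (ht : 0 ≤ t) (hz : z ∈ Icc w.zl w.zr)
    (hc : c ^ 2 = 1 - z ^ 2 - t ^ 2) (h : 0 ≤ c ∨ e ≤ |t - w.Γ z|) :
    t + (1 - z ^ 2) * deriv w.g z * c ≠ 0 := by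
  obtain ⟨h1, -, h2⟩ := facts hw hz
  have h3 := h2 z hz
  have h4 : 0 < 1 - z ^ 2 := by nlinarith
  have h5 := sqrt_pos.2 h3
  have h6 := sq_sqrt h3.le
  rw [hw.g_deriv z hz]
  intro h0
  field_simp at h0
  rw [mul_zero] at h0
  have h7 : t = w.Γ z := (pow_left_inj₀ ht h1.le two_ne_zero).1
    (mul_left_cancel₀ h4.ne' (by grind))
  rcases h with h | h
  · nlinarith [mul_pos h1 h5, mul_nonneg h1.le h]
  · rw [h7, sub_self, abs_zero] at h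
    linarith

theorem ns (hw : w.Ok) (hI : Icc z1 z2 ⊆ Icc w.zl w.zr) {e : ℝ} (he : 0 < e)
    (hA : PF z1 z2 α A) (h0 : ∀ m, Mz (A m)) (i N : ℕ) : ∃ C, 0 ≤ C ∧ ∀ (m : ℕ) t a b S,
      NoSt w z1 z2 e t a b → (m : ℝ) ^ N * |∫ θ in a..b, fi w i m (A m) t S θ| ≤ C * ee α m ∧
        IntervalIntegrable (fi w i m (A m) t S) volume a b := by
  have hg : ContDiff ℝ ∞ (deriv w.g) := (contDiff_infty_iff_deriv.1 hw.g_smooth).2
  have hgc := hg.continuous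
  obtain ⟨κ, k1, k2, k3, -⟩ := exists_ext (E := ℝ × ℝ × ℝ)
    (K := Icc 0 1 ×ˢ Icc z1 z2 ×ˢ Icc (-1) 1 ∩ ({x | x.2.2 ^ 2 = 1 - x.2.1 ^ 2 - x.1 ^ 2} ∩
      ({x | 0 ≤ x.2.2} ∪ {x | e ≤ |x.1 - w.Γ x.2.1|})))
    (U := {x | x.1 + (1 - x.2.1 ^ 2) * deriv w.g x.2.1 * x.2.2 ≠ 0})
    ((isCompact_Icc.prod (isCompact_Icc.prod isCompact_Icc)).inter_right
      ((isClosed_eq (by fun_prop) (by fun_prop)).inter ((isClosed_le (by fun_prop) (by fun_prop)).union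
        (isClosed_le (by fun_prop) (by unfold WG.Γ; fun_prop)))))
    (isOpen_ne_fun (by fun_prop) (by fun_prop))
    (fun x hx => D_ne hw he hx.1.1.1 (hI hx.1.2.1) hx.2.1 hx.2.2)
    (f := fun x => (1 - x.2.1 ^ 2) / (x.1 + (1 - x.2.1 ^ 2) * deriv w.g x.2.1 * x.2.2))
    (fun x hx => ContDiffAt.div (f := fun x : ℝ × ℝ × ℝ => 1 - x.2.1 ^ 2)
      (g := fun x => x.1 + (1 - x.2.1 ^ 2) * deriv w.g x.2.1 * x.2.2) (by fun_prop)
      (ContDiff.contDiffAt (by fun_prop)) hx)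
  let J := {j : ℕ × ℝ × ℝ × ℝ // NoSt w z1 z2 e j.2.1 j.2.2.1 j.2.2.2}
  have hr1 : ∀ t : ℝ, ‖√(1 - t ^ 2)‖ ≤ 1 := fun t => by
    rw [Real.norm_eq_abs, abs_of_nonneg (sqrt_nonneg _), sqrt_le_one]
    nlinarith
  have hr : BB 0 1 (fun (j : J) (_ : ℝ) => √(1 - j.1.2.1 ^ 2)) := BB.const0 fun j => hr1 _
  have hs := hr.smul BB.sin
  have hc := hr.smul BB.cos
  have hp : ∀ n : ℕ, BB 0 1 (fun (j : J) θ => (√(1 - j.1.2.1 ^ 2) * cos θ) ^ n) := fun n => by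
    induction n with
    | zero => simpa using BB.const0 (c := fun _ : J => (1 : ℝ)) (C := 1) (E := ℝ) fun _ => by simp
    | succ n ih => simpa only [pow_succ', smul_eq_mul] using hc.smul ih
  have hβ := (((KK.of_PF hA h0).reindex fun j : J => j.1.1).comp
    (Λ := fun j θ => √(1 - j.1.2.1 ^ 2) * sin θ)
    (hs.comp (BB.lin' (ContinuousLinearMap.fst ℝ ℝ ℝ))).weak fun _ => 0).mul (hp i)
  simp only [add_zero] at hβ
  have hV : Van (fun j : J => {θ | √(1 - j.1.2.1 ^ 2) * sin θ ∈ Icc z1 z2}) fun j p =>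
      (√(1 - j.1.2.1 ^ 2) * cos p.1) ^ i * A j.1.1 (√(1 - j.1.2.1 ^ 2) * sin p.1, p.2) :=
    fun j y hy s => by simp only [(hA.1 _).2 _ _ hy, mul_zero]
  have hD : NSD (fun j : J => j.1.2.2.1) (fun j => j.1.2.2.2)
      (fun j : J => {θ | √(1 - j.1.2.1 ^ 2) * sin θ ∈ Icc z1 z2}) fun j => ph w j.1.2.1 := by
    refine ⟨fun j => isClosed_Icc.preimage (by fun_prop), fun j => j.2.na, fun j => j.2.nb,
      fun j => abs_le.2 ⟨by linarith [j.2.hab, pi_pos], by linarith [j.2.ha, j.2.hb]⟩,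
      fun j θ => j.1.2.1 / (1 - (√(1 - j.1.2.1 ^ 2) * sin θ) ^ 2)
        + deriv w.g (√(1 - j.1.2.1 ^ 2) * sin θ) * (√(1 - j.1.2.1 ^ 2) * cos θ), _,
      (BB.of_compact k1 k2).comp ((BB.const1 fun j : J => j.1.2.1).prod (hs.prod hc).weak), ?_⟩
    rintro ⟨⟨m, t, a, b⟩, hj⟩ θ hθ hz
    dsimp only [mem_ofPred_eq] at hj hθ hz ⊢
    rw [uIcc_of_le hj.hab] at hθ
    obtain ⟨q1, q2⟩ := q_eq hj.ht θ
    have h1 := (facts hw (hI hz)).2.2 _ (hI hz)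
    have h2 : 1 - (√(1 - t ^ 2) * sin θ) ^ 2 ≠ 0 := by
      nlinarith [sq_nonneg (w.Γ (√(1 - t ^ 2) * sin θ))]
    have h3 := (hj.ns θ hθ hz).imp_left (mul_nonneg (sqrt_nonneg (1 - t ^ 2)))
    constructor
    · refine (((hasDerivAt_ar ((hasDerivAt_sin θ).const_mul t) (hasDerivAt_cos θ).neg
        (slit_of hw hj.ht ⟨hj.ha.trans hθ.1, hθ.2.trans hj.hb⟩ (hI hz))).const_add π).add
        ((hw.g_smooth.differentiable (by simp) _).hasDerivAt.comp θ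
          ((hasDerivAt_sin θ).const_mul _))).congr_deriv ?_
      simp only [Pi.neg_apply, q2]
      congr 2
      linear_combination t * sin_sq_add_cos_sq θ
    · have h4 := D_ne hw he hj.ht.1 (hI hz) q1 h3
      simp only [smul_eq_mul]
      rw [k3 (t, √(1 - t ^ 2) * sin θ, √(1 - t ^ 2) * cos θ) ⟨⟨hj.ht, hz, abs_le.1 (by
        rw [abs_mul]
        exact mul_le_one₀ (hr1 t) (abs_nonneg _) (abs_cos_le_one θ))⟩, q1, h3⟩, div_mul_eq_mul_div,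
        div_eq_one_iff_eq h4, mul_add, mul_div_cancel₀ _ h2, mul_assoc]
  obtain ⟨C, c1, c2⟩ := hD.bound (fun j => (j.1.1 : ℝ)) N _ hβ hV
  exact ⟨C, c1, fun m t a b S hj => ⟨by simpa [fi] using c2 ⟨(m, t, a, b), hj⟩ S,
    hD.ii hβ hV ⟨(m, t, a, b), hj⟩ S m⟩⟩

/-- the weight `|c|` -/
noncomputable def WW (w : WG) (x z : ℝ) : ℝ := √(1 - z ^ 2 - w.Γ x ^ 2)

/-- the phase in the variable `z` -/
noncomputable def pz (w : WG) (x z : ℝ) : ℝ := π + ar (w.Γ x * z) (WW w x z) + w.g z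

/-- the derivative of the phase divided by `z - x` -/
noncomputable def kk (w : WG) (p : ℝ × ℝ) : ℝ := w.τ2 * (w.Γ p.2 + w.Γ p.1) /
  (WW w p.2 p.2 * WW w p.1 p.2 * (w.Γ p.2 * WW w p.1 p.2 + w.Γ p.1 * WW w p.2 p.2))

theorem hasDerivAt_pz (hw : w.Ok) {x z : ℝ} (hx : x ∈ Icc w.zl w.zr) (hz : z ∈ Icc w.zl w.zr) :
    HasDerivAt (pz w x) ((z - x) * kk w (x, z)) z := by
  obtain ⟨a1, a2, a3⟩ := facts hw hx
  obtain ⟨b1, -, b3⟩ := facts hw hz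
  have h1 : 0 < WW w x z := sqrt_pos.2 (a3 z hz)
  have h2 : 0 < WW w z z := sqrt_pos.2 (b3 z hz)
  have h3 : WW w x z ^ 2 = _ := sq_sqrt (a3 z hz).le
  have h4 : WW w z z ^ 2 = _ := sq_sqrt (b3 z hz).le
  have h5 : 0 < 1 - z ^ 2 := by nlinarith [a3 z hz]
  have h6 : 0 < 1 - w.Γ x ^ 2 := by nlinarith
  have h7 : w.Γ z - w.Γ x = w.τ2 * (z - x) := by unfold WG.Γ; ring
  refine (((hasDerivAt_ar ((hasDerivAt_id z).const_mul (w.Γ x)) (b := WW w x)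
    ((((hasDerivAt_pow 2 z).const_sub 1).sub_const _).sqrt (a3 z hz).ne') (Or.inr h1.ne')).const_add
    π).add (hw.g_smooth.differentiable (by simp) _).hasDerivAt).congr_deriv ?_
  rw [hw.g_deriv z hz, show (w.Γ x * id z) ^ 2 + WW w x z ^ 2 = (1 - w.Γ x ^ 2) * (1 - z ^ 2) by
    rw [h3, id]; ring]
  change (_ * (_ / (2 * WW w x z)) - _) / _ + _ / (_ * WW w z z) = _
  simp only [kk, id]
  field_simp
  grind

theorem exists_morse (hw : w.Ok) : ∃ k σ sz Φ, Morse k σ sz Φ ∧ ∀ x ∈ Icc w.zl w.zr,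
    k (x, x) = kk w (x, x) ∧ ∀ z ∈ Icc w.zl w.zr, σ (x, z) ^ 2 / 2 = pz w x z - pz w x x := by
  have hp : ∀ p : ℝ × ℝ, 0 < w.Γ p.1 → 0 < w.Γ p.2 → 0 < 1 - p.2 ^ 2 - w.Γ p.1 ^ 2 →
      0 < 1 - p.2 ^ 2 - w.Γ p.2 ^ 2 → 0 < kk w p := fun p h1 h2 h3 h4 => by
    have := hw.τ2_pos
    unfold kk WW
    positivity
  obtain ⟨l, l1, l2, l3, -⟩ := exists_ext (K := Icc w.zl w.zr ×ˢ Icc w.zl w.zr)
    (U := {p | 0 < w.Γ p.1} ∩ ({p | 0 < w.Γ p.2} ∩ ({p | 0 < 1 - p.2 ^ 2 - w.Γ p.1 ^ 2} ∩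
      {p | 0 < 1 - p.2 ^ 2 - w.Γ p.2 ^ 2}))) (isCompact_Icc.prod isCompact_Icc)
    (by
      unfold WG.Γ
      refine IsOpen.inter ?_ (IsOpen.inter ?_ (IsOpen.inter ?_ ?_)) <;>
        exact isOpen_lt (by fun_prop) (by fun_prop))
    (fun p hp => ⟨(facts hw hp.1).1, (facts hw hp.2).1, (facts hw hp.1).2.2 _ hp.2,
      (facts hw hp.2).2.2 _ hp.2⟩) (f := fun p => log (kk w p)) (by
      rintro p ⟨h1, h2, h3, h4⟩
      simp only [mem_ofPred_eq] at h1 h2 h3 h4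
      refine ContDiffAt.log ?_ (hp p h1 h2 h3 h4).ne'
      have e1 : ContDiffAt ℝ ∞ (fun p : ℝ × ℝ => WW w p.1 p.2) p :=
        ContDiffAt.sqrt (by unfold WG.Γ; fun_prop) h3.ne'
      have e2 : ContDiffAt ℝ ∞ (fun p : ℝ × ℝ => WW w p.2 p.2) p :=
        ContDiffAt.sqrt (by unfold WG.Γ; fun_prop) h4.ne'
      have e3 : ContDiffAt ℝ ∞ (fun p : ℝ × ℝ => w.Γ p.1) p := by unfold WG.Γ; fun_prop
      have e4 : ContDiffAt ℝ ∞ (fun p : ℝ × ℝ => w.Γ p.2) p := by unfold WG.Γ; fun_prop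
      refine ContDiffAt.div (contDiffAt_const.mul (e4.add e3))
        ((e2.mul e1).mul ((e4.mul e1).add (e3.mul e2))) ?_
      unfold WW
      positivity)
  obtain ⟨σ, sz, Φ, h⟩ := morse l1 l2
  have hk : ∀ x ∈ Icc w.zl w.zr, ∀ z ∈ Icc w.zl w.zr, exp (l (x, z)) = kk w (x, z) :=
    fun x hx z hz => by
      rw [l3 _ ⟨hx, hz⟩, exp_log (hp _ (facts hw hx).1 (facts hw hz).1 ((facts hw hx).2.2 _ hz)
        ((facts hw hz).2.2 _ hz))]
  have hc := l1.continuous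
  refine ⟨_, σ, sz, Φ, h, fun x hx => ⟨hk x hx x hx, fun z hz => (h.sq x z).trans
    (intervalIntegral.integral_eq_sub_of_hasDerivAt (fun y hy => ?_)
      (Continuous.intervalIntegrable (by fun_prop) _ _))⟩⟩
  rw [hk x hx y (uIcc_subset_Icc hx hz hy)]
  exact hasDerivAt_pz hw hx (uIcc_subset_Icc hx hz hy)

theorem amp_diag (hw : w.Ok) {x : ℝ} (hx : x ∈ Icc w.zl w.zr) (i : ℕ) :
    (2 * π)⁻¹ * (-WW w x x) ^ i / WW w x x / √(kk w (x, x)) = w.k0 x * w.c0 x ^ i := by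
  obtain ⟨a1, -, a3⟩ := facts hw hx
  have h1 : 0 < WW w x x := sqrt_pos.2 (a3 x hx)
  have h2 := sqrt_pos.2 h1
  have h3 := sqrt_pos.2 hw.τ2_pos
  have h4 : (1 - x ^ 2 - w.Γ x ^ 2) ^ (1 / 4 : ℝ) = √(WW w x x) := by
    rw [WW, sqrt_eq_rpow, sqrt_eq_rpow, ← rpow_mul (a3 x hx).le]
    norm_num
  have h5 : √(kk w (x, x)) = √w.τ2 / √(WW w x x) ^ 3 := by
    rw [sqrt_eq_iff_eq_sq _ (by positivity), div_pow, sq_sqrt hw.τ2_pos.le, ← pow_mul, mul_comm 3,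
      pow_mul, sq_sqrt h1.le, kk]
    · field_simp
    · have := hw.τ2_pos
      unfold kk
      positivity
  rw [h5, WG.k0, h4, show w.c0 x = -WW w x x from rfl]
  field_simp
  rw [sq_sqrt h1.le, mul_comm]

theorem stat (hw : w.Ok) (hI : Icc z1 z2 ⊆ Icc w.zl w.zr) {k σ sz : ℝ × ℝ → ℝ} {Φ}
    (hM : Morse k σ sz Φ) {B : ℝ × ℝ → ℝ} (hB : Per B) (hs : Sup z1 z2 B) {a : ℝ × ℝ → ℝ}
    (ha : Continuous a) {i : ℕ} {x : ℝ} (hx : x ∈ Icc w.zl w.zr)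
    (hk : ∀ z ∈ Icc w.zl w.zr, σ (x, z) ^ 2 / 2 = pz w x z - pz w x x) (hax : ∀ z ∈ Icc w.zl w.zr,
      a (x, z) = (2 * π)⁻¹ * (-WW w x z) ^ i / WW w x z / sz (x, z) * exp (σ (x, z) ^ 2 / 2))
    (m : ℕ) (S : ℝ) :
    ∫ s, u0 s * (a (Φ.symm (x, s)) * B ((Φ.symm (x, s)).2, S + m * pz w x x + m * s ^ 2 / 2))
      = (2 * π)⁻¹ * ∫ θ in π / 2..π, fi w i m B (w.Γ x) S θ := by
  obtain ⟨a1, a2, a3⟩ := facts hw hx
  have h1 : w.zr < √(1 - w.Γ x ^ 2) := lt_sqrt_of_sq_lt a2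
  have h2 : 0 < √(1 - w.Γ x ^ 2) := (hw.zl_pos.trans hw.lt).trans h1
  have h3 : ∀ z, Φ.symm (x, σ (x, z)) = (x, z) := fun z => Φ.symm_apply_eq.2 (hM.eq (x, z)).symm
  have c1 := hM.sm.continuous
  have c2 := hM.smz.continuous
  have c3 := hB.1.continuous
  rw [hM.sub x]
  simp only [h3]
  rw [← intervalIntegral.integral_eq_integral_of_support_subset (a := √(1 - w.Γ x ^ 2) * sin π)
    (b := √(1 - w.Γ x ^ 2) * sin (π / 2)), ← intervalIntegral.integral_comp_mul_deriv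
    (fun θ _ => (hasDerivAt_sin θ).const_mul √(1 - w.Γ x ^ 2)) (by fun_prop)
    (by unfold u0; fun_prop), intervalIntegral.integral_symm, ← intervalIntegral.integral_neg,
    ← intervalIntegral.integral_const_mul]
  · refine intervalIntegral.integral_congr fun θ hθ => ?_
    rw [uIcc_of_le (by linarith [pi_pos])] at hθ
    by_cases hz : √(1 - w.Γ x ^ 2) * sin θ ∈ Icc z1 z2
    swap
    · simp [fi, hs _ _ hz]
    have h4 : WW w x (√(1 - w.Γ x ^ 2) * sin θ) = √(1 - w.Γ x ^ 2) * -cos θ := by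
      rw [WW, ← (q_eq ⟨a1.le, by nlinarith [sq_nonneg w.zr]⟩ θ).1, sqrt_sq_eq_abs, abs_of_nonpos
        (mul_nonpos_of_nonneg_of_nonpos h2.le
          (cos_nonpos_of_pi_div_two_le_of_le hθ.1 (by linarith [hθ.2, pi_pos]))), mul_neg]
    have h5 : 0 < WW w x (√(1 - w.Γ x ^ 2) * sin θ) := sqrt_pos.2 (a3 _ (hI hz))
    have h6 := hk _ (hI hz)
    have h7 : pz w x (√(1 - w.Γ x ^ 2) * sin θ) = ph w (w.Γ x) θ := by
      rw [pz, ph, h4, mul_left_comm, ar_mul h2]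
    have h8 := (hM.pos (x, √(1 - w.Γ x ^ 2) * sin θ)).ne'
    simp only [Function.comp, fi, hax _ (hI hz), u0]
    rw [← h7, show S + m * pz w x x + m * σ (x, √(1 - w.Γ x ^ 2) * sin θ) ^ 2 / 2
      = S + m * pz w x (√(1 - w.Γ x ^ 2) * sin θ) by linear_combination m * h6,
      show √(1 - w.Γ x ^ 2) * cos θ = -WW w x (√(1 - w.Γ x ^ 2) * sin θ) by rw [h4]; ring,
      neg_div, exp_neg]
    field_simp
  · intro z hz
    have : z ∈ Icc z1 z2 := by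
      by_contra h
      simp [hs _ _ h] at hz
    simp only [sin_pi, mul_zero, sin_pi_div_two, mul_one]
    exact ⟨hw.zl_pos.trans_le (hI this).1, (hI this).2.trans h1.le⟩

theorem profile (hw : w.Ok) {k σ sz : ℝ × ℝ → ℝ} {Φ} (hM : Morse k σ sz Φ)
    (hk : ∀ x ∈ Icc w.zl w.zr, k (x, x) = kk w (x, x) ∧
      ∀ z ∈ Icc w.zl w.zr, σ (x, z) ^ 2 / 2 = pz w x z - pz w x x) (i : ℕ) {z1' z2' : ℝ}
    (hI : Icc z1 z2 ⊆ Icc w.zl w.zr) (hI' : Icc z1' z2' ⊆ Icc w.zl w.zr) {η : ℝ → ℝ}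
    (e1 : ContDiff ℝ ∞ η) (e2 : ∀ x ∈ Icc z1 z2, η x = 1) (e3 : ∀ x ∉ Icc z1' z2', η x = 0)
    (hA : PF z1 z2 α A) (h0 : ∀ m, Mz (A m)) :
    ∃ Ψ : ℕ → Pf, PF z1' z2' (α + 3 / 2) Ψ ∧ (∀ m, Mz (Ψ m)) ∧ ∀ (m : ℕ) x S,
      (sl (fun z => w.k0 z * w.c0 z ^ i) * JG m (A m) + Ψ m) (x, S + m * pz w x x)
        = η x * ((2 * π)⁻¹ * ∫ θ in π / 2..π, fi w i m (A m) (w.Γ x) S θ) := by
  obtain ⟨a, a1, a2, a3, -⟩ := exists_ext (K := Icc w.zl w.zr ×ˢ Icc w.zl w.zr)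
    (U := {p | 0 < 1 - p.2 ^ 2 - w.Γ p.1 ^ 2}) (isCompact_Icc.prod isCompact_Icc)
    (isOpen_lt (by fun_prop) (by unfold WG.Γ; fun_prop)) (fun p hp => (facts hw hp.1).2.2 _ hp.2)
    (f := fun p => (2 * π)⁻¹ * (-WW w p.1 p.2) ^ i / WW w p.1 p.2 / sz p * exp (σ p ^ 2 / 2))
    (fun p hp => by
      have e1 : ContDiffAt ℝ ∞ (fun p : ℝ × ℝ => WW w p.1 p.2) p :=
        ContDiffAt.sqrt (by unfold WG.Γ; fun_prop) (ne_of_gt hp)
      exact (((contDiffAt_const.mul (e1.neg.pow i)).div e1 (sqrt_pos.2 hp).ne').div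
        hM.smz.contDiffAt (hM.pos p).ne').mul ((hM.sm.contDiffAt.pow 2).div_const 2).exp)
  have b1 : ContDiff ℝ ∞ fun q : ℝ × ℝ => η q.1 * a (Φ.symm q) :=
    (e1.comp contDiff_fst).mul (a1.comp hM.sms)
  have b2 : HasCompactSupport fun q : ℝ × ℝ => η q.1 * a (Φ.symm q) :=
    (a2.comp_homeomorph Φ.symm).mul_left (f := fun q : ℝ × ℝ => η q.1)
  obtain ⟨Z, c1, c2, c3, -⟩ := exists_ext b2 isOpen_univ (subset_univ _)
    (f := fun q => (Φ.symm q).2) fun q _ => (contDiff_snd.comp hM.sms).contDiffAt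
  have hβ := ((KK.of_PF hA h0).comp (Λ := fun _ => Z) ((BB.of_compact c1 c2).comp
    (BB.lin' (ContinuousLinearMap.fst ℝ (ℝ × ℝ) ℝ))).weak fun _ => 0).mul (BB.of_compact b1 b2)
  have e : ∀ m (p : (ℝ × ℝ) × ℝ), η p.1.1 * a (Φ.symm p.1) * A m (Z p.1, p.2 + 0)
      = η p.1.1 * a (Φ.symm p.1) * A m ((Φ.symm p.1).2, p.2) := fun m p => by
    by_cases hp : p.1 ∈ tsupport fun q : ℝ × ℝ => η q.1 * a (Φ.symm q)
    · rw [c3 _ hp, add_zero]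
    · rw [image_eq_zero_of_notMem_tsupport hp, zero_mul, zero_mul]
  simp only [e] at hβ
  obtain ⟨Ψ, p1, p2, p3⟩ := model (a := z1') (b := z2') hβ fun m y hy s => by simp [e3 _ hy]
  refine ⟨Ψ, p1, p2, fun m x S => ?_⟩
  have r : (fun p : ℝ × ℝ => η p.1 * a (Φ.symm (p.1, 0)) * A m ((Φ.symm (p.1, 0)).2, p.2))
      = sl (fun z => w.k0 z * w.c0 z ^ i) * A m := by
    funext ⟨y, s⟩
    rw [show Φ.symm (y, 0) = (y, y) from Φ.symm_apply_eq.2 (by rw [hM.eq, hM.zero])]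
    by_cases hy : y ∈ Icc z1 z2
    · simp only [e2 y hy, a3 (y, y) ⟨hI hy, hI hy⟩, hM.zero, hM.diag, (hk y (hI hy)).1,
        amp_diag hw (hI hy)]
      simp [sl]
    · simp [(hA.1 m).2 y s hy]
  have := p3 m
  rw [r, JG_sl_mul] at this
  rw [← this]
  by_cases hx : x ∈ Icc z1' z2'
  · rw [← stat hw hI hM (hA.1 m).1 (hA.1 m).2 a1.continuous (hI' hx) (hk x (hI' hx)).2
      (fun z hz => a3 (x, z) ⟨hI' hx, hz⟩), ← integral_const_mul]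
    exact integral_congr_ae (Eventually.of_forall fun s => by simp only [smul_eq_mul]; ring)
  · simp [II, e3 x hx]

end Sta

open Sta in
theorem statA : OscStmt := by
  intro w hw
  obtain ⟨k, σ, sz, Φ, hM, hk⟩ := exists_morse hw
  obtain ⟨Θ, t1, -, t3, -⟩ := exists_ext (K := Icc w.zl w.zr) (U := {x | 0 < 1 - x ^ 2 - w.Γ x ^ 2})
    isCompact_Icc (isOpen_lt (by fun_prop) (by unfold WG.Γ; fun_prop))
    (fun x hx => (facts hw hx).2.2 x hx) (f := fun x => pz w x x) fun x hx =>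
      (contDiffAt_const.add (contDiffAt_ar (by unfold WG.Γ; fun_prop)
        (ContDiffAt.sqrt (f := fun x => 1 - x ^ 2 - w.Γ x ^ 2) (by unfold WG.Γ; fun_prop)
          (ne_of_gt hx))
        (Or.inr (sqrt_pos.2 hx).ne'))).add hw.g_smooth.contDiffAt
  refine ⟨fun t => Θ ((t - w.τ) / w.τ2), t1.comp (by fun_prop),
    fun i z1 z2 z1' z2' α A h1 h2 h3 h4 hA h0 => ?_⟩
  have hI : Icc z1 z2 ⊆ Icc w.zl w.zr := Icc_subset_Icc (by linarith) (by linarith)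
  have hI' : Icc z1' z2' ⊆ Icc w.zl w.zr := Icc_subset_Icc h1.le h4.le
  obtain ⟨η, e1, e2, e3, e4⟩ := exists_ext (K := Icc ((z1' + z1) / 2) ((z2 + z2') / 2))
    (U := Ioo z1' z2') isCompact_Icc isOpen_Ioo (Icc_subset_Ioo (by linarith) (by linarith))
    (f := fun _ => (1 : ℝ)) fun _ _ => contDiffAt_const
  obtain ⟨B, hB⟩ := e1.continuous.bounded_above_of_compact_support e2
  obtain ⟨Ψ, p1, p2, p3⟩ := profile hw hM hk i hI hI' e1
    (fun x hx => e3 x ⟨by linarith [hx.1], by linarith [hx.2]⟩)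
    (fun x hx => e4 x fun h => hx (Ioo_subset_Icc_self h)) hA h0
  refine ⟨Ψ, p1, p2, fun N => ?_⟩
  obtain ⟨n, hn⟩ := exists_nat_ge (N - α)
  have hτ := hw.τ2_pos
  obtain ⟨C, c1, c2⟩ := ns hw hI (e := w.τ2 * min ((z1 - z1') / 2) ((z2' - z2) / 2))
    (mul_pos hτ (lt_min (by linarith) (by linarith))) hA h0 i n
  have hB0 : 0 ≤ B := (norm_nonneg _).trans (hB 0)
  refine ⟨(2 * π)⁻¹ * (2 + B) * C, (eventually_ge_atTop 1).mono fun m hm t ht S => ?_⟩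
  have hm' : (1 : ℝ) ≤ m := by exact_mod_cast hm
  have c3 : ∀ a b, NoSt w z1 z2 (w.τ2 * min ((z1 - z1') / 2) ((z2' - z2) / 2)) t a b →
      |∫ θ in a..b, fi w i m (A m) t S θ| ≤ C * (m : ℝ) ^ (-N) := fun a b h => by
    have := (c2 m t a b S h).1
    rw [ee_eq α hm, ← le_div_iff₀' (by positivity), mul_div_assoc, ← rpow_natCast,
      ← rpow_sub (by positivity)] at this
    exact this.trans (mul_le_mul_of_nonneg_left (rpow_le_rpow_of_exponent_le hm' (by linarith)) c1)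
  obtain ⟨x, rfl⟩ : ∃ x, t = w.Γ x := ⟨(t - w.τ) / w.τ2, by unfold WG.Γ; field_simp; ring⟩
  have far : x ∉ Icc ((z1' + z1) / 2) ((z2 + z2') / 2) → ∀ z ∈ Icc z1 z2,
      w.τ2 * min ((z1 - z1') / 2) ((z2' - z2) / 2) ≤ |w.Γ x - w.Γ z| := fun hx z hz => by
    rw [show w.Γ x - w.Γ z = w.τ2 * (x - z) by unfold WG.Γ; ring, abs_mul, abs_of_pos hτ]
    refine mul_le_mul_of_nonneg_left ?_ hτ.le
    rcases not_and_or.1 hx with h | h
    · exact (min_le_left _ _).trans (le_abs.2 (Or.inr (by linarith [hz.1])))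
    · exact (min_le_right _ _).trans (le_abs.2 (Or.inl (by linarith [hz.2])))
  have n0 : ∀ θ, sin θ = 0 → √(1 - w.Γ x ^ 2) * sin θ ∉ Icc z1 z2 := fun θ h hz => by
    rw [h, mul_zero] at hz
    linarith [hz.1, hw.zl_pos]
  have hp := pi_pos
  have hC : 0 ≤ C * (m : ℝ) ^ (-N) := by positivity
  simp only [show (w.Γ x - w.τ) / w.τ2 = x by unfold WG.Γ; field_simp; ring]
  rw [Iw_eq hw hI (hA.1 m).1 (hA.1 m).2 i m ht, mul_assoc, mul_assoc]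
  by_cases hx : x ∈ Icc z1' z2'
  · have n1 : √(1 - w.Γ x ^ 2) * sin (π / 2) ∉ Icc z1 z2 := fun hz => by
      rw [sin_pi_div_two, mul_one] at hz
      linarith [hz.2, lt_sqrt_of_sq_lt (facts hw (hI' hx)).2.1]
    have j1 : NoSt w z1 z2 (w.τ2 * min ((z1 - z1') / 2) ((z2' - z2) / 2)) (w.Γ x) 0 (π / 2) :=
      ⟨ht, le_rfl, by linarith, by linarith, n0 _ sin_zero, n1, fun θ hθ _ =>
        Or.inl (cos_nonneg_of_mem_Icc ⟨by linarith [hθ.1], hθ.2⟩)⟩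
    have i2 := fi_ii hw (hA.1 m).1 (facts hw (hI' hx)).1 i m S
    rw [t3 x (hI' hx), p3, ← intervalIntegral.integral_add_adjacent_intervals (c2 m _ _ _ S j1).2 i2,
      mul_left_comm, ← mul_sub, abs_mul, abs_of_pos (by positivity), add_sub_assoc, ← one_sub_mul]
    refine mul_le_mul_of_nonneg_left ((abs_add_le _ _).trans ?_) (by positivity)
    rw [show (2 + B) * (C * (m : ℝ) ^ (-N)) = C * (m : ℝ) ^ (-N) + (1 + B) * (C * (m : ℝ) ^ (-N))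
      by ring]
    refine add_le_add (c3 _ _ j1) ?_
    by_cases hx' : x ∈ Icc ((z1' + z1) / 2) ((z2 + z2') / 2)
    · rw [e3 x hx', sub_self, zero_mul, abs_zero]
      positivity
    · rw [abs_mul]
      exact mul_le_mul ((abs_sub _ _).trans (by simpa using hB x)) (c3 _ _ ⟨ht, by linarith,
        by linarith, le_rfl, n1, n0 _ sin_pi, fun θ _ hz => Or.inr (far hx' _ hz)⟩)
        (abs_nonneg _) (by positivity)
  · rw [Pi.add_apply, Pi.mul_apply, (p1.1 m).2 x _ hx, Sup.JG m (hA.1 m).2 x _ fun h =>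
      hx ⟨by linarith [h.1], by linarith [h.2]⟩, mul_zero, add_zero, sub_zero, abs_mul,
      abs_of_pos (by positivity)]
    refine mul_le_mul_of_nonneg_left ((c3 _ _ ⟨ht, le_rfl, hp.le, le_rfl, n0 _ sin_zero,
      n0 _ sin_pi, fun θ _ hz => Or.inr (far (fun h => hx ⟨by linarith [h.1], by linarith [h.2]⟩)
        _ hz)⟩).trans (by nlinarith)) (by positivity)

end Pool.Agent.Lib.MP_2fa2a2_gt.PI
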