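import Pool.Agent.Lib.MP_2fa2a2_gt.PI.SWkb

namespace Pool.Agent.Lib.MP_2fa2a2_gt.PI

open Real Filter Set
open scoped ContDiff

/-- families with crude bounds -/
def statbFE (F : ℕ → Sm) : Prop := ∃ β, FO β F

theorem statbFE.add {F G : ℕ → Sm} (h : statbFE F) (h' : statbFE G) :
    statbFE fun m => F m + G m := by
  obtain ⟨a, ha⟩ := h
  obtain ⟨b, hb⟩ := h'
  exact ⟨min a b, (ha.mono (min_le_left _ _)).add (hb.mono (min_le_right _ _))⟩

theorem statbFE.sub {F G : ℕ → Sm} (h : statbFE F) (h' : statbFE G) :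
    statbFE fun m => F m - G m := by
  obtain ⟨a, ha⟩ := h
  obtain ⟨b, hb⟩ := h'
  exact ⟨min a b, (ha.mono (min_le_left _ _)).sub (hb.mono (min_le_right _ _))⟩

theorem statbFE.cmul {F : ℕ → Sm} (h : statbFE F) (φ : Sm) : statbFE fun m => φ * F m := by
  obtain ⟨a, ha⟩ := h
  exact ⟨_, (SO.const φ).FO.mul ha⟩

theorem statbFE.R {F : ℕ → Sm} (h : statbFE F) : statbFE fun m => R (F m) := by
  obtain ⟨a, ha⟩ := h
  exact ha.R

theorem statbFE.ant {F : ℕ → Sm} (h : statbFE F) : statbFE fun m => ant (F m) := by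
  obtain ⟨a, ha⟩ := h
  exact ⟨a, ha.ant⟩

theorem statb_R1 (φ : Sm) : R1 φ = X 0 * R (X 1 * φ) - X 1 * R (X 0 * φ) := by
  have h0 : L 2 (X 0) = -X 1 := L_X_add_one 2
  have h1 : L 2 (X 1) = X 0 := L_X_add_two 2
  rw [R1, Fin.sum_univ_three, h0, h1, L_X_self, zero_mul, map_zero, neg_mul, map_neg]
  ring

theorem statb_R1_od (φ : Sm) : ant (R1 φ) = -R1 φ := by
  rw [statb_R1, map_sub, map_mul ant, map_mul ant, ant_X, ant_X, mem_Ev.1 (R_mem_Ev _),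
    mem_Ev.1 (R_mem_Ev _)]
  ring

theorem statb_R1_apply (φ : Sm) (u : S2) :
    R1 φ u = R ((((u : E3) 0) • X 1 - ((u : E3) 1) • X 0) * φ) u := by
  rw [statb_R1, sub_mul, smul_mul_assoc, smul_mul_assoc, map_sub, map_smul, map_smul]
  simp only [Sm.sub_apply, Sm.mul_apply, Sm.smul_apply, X_apply]

theorem statb_polar (u : S2) : (u : E3) 0 = √(1 - (u : E3) 2 ^ 2) * cos (lon u) ∧
    (u : E3) 1 = √(1 - (u : E3) 2 ^ 2) * sin (lon u) := by
  have h : ‖((u : E3) 0 + (u : E3) 1 * Complex.I : ℂ)‖ = √(1 - (u : E3) 2 ^ 2) := by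
    rw [Complex.norm_add_mul_I]
    congr 1
    linarith [base_sum_sq u]
  have h1 := Complex.norm_mul_cos_arg ((u : E3) 0 + (u : E3) 1 * Complex.I)
  have h2 := Complex.norm_mul_sin_arg ((u : E3) 0 + (u : E3) 1 * Complex.I)
  rw [h] at h1 h2
  exact ⟨by simpa [lon] using h1.symm, by simpa [lon] using h2.symm⟩

theorem statb_key (w : WG) (i m : ℕ) {A : Pf} {z1 z2 : ℝ} (hA : Adm w.g A) (hs : Sup z1 z2 A)
    (hz : 0 < z1) (u : S2) :
    R ((((u : E3) 0) • X 1 - ((u : E3) 1) • X 0) ^ i * Wv w.g m A) u =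
      Iw w i m A ((u : E3) 2) (m * lon u) := by
  obtain ⟨p0, p1⟩ := statb_polar u
  set t := (u : E3) 2 with ht
  set ψ := lon u with hψ
  set r := √(1 - t ^ 2) with hr
  have hr2 : r ^ 2 = 1 - t ^ 2 := Real.sq_sqrt (by nlinarith [base_sum_sq u])
  have cs := cos_sq_add_sin_sq ψ
  have hF : Fr u !₂[-sin ψ, cos ψ, 0] !₂[-t * cos ψ, -t * sin ψ, r] := by
    refine ⟨?_, ?_, ?_, ?_, ?_⟩
    · rw [EuclideanSpace.norm_eq, Real.sqrt_eq_one]
      simp [Fin.sum_univ_three]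
    · rw [EuclideanSpace.norm_eq, Real.sqrt_eq_one]
      simp [Fin.sum_univ_three, mul_pow]
      linear_combination hr2 + t ^ 2 * cs
    · rw [rot_inner]; simp [Fin.sum_univ_three]; ring
    · rw [rot_inner]; simp [Fin.sum_univ_three, p0, p1]; ring
    · rw [rot_inner]; simp [Fin.sum_univ_three, p0, p1, ← ht]; linear_combination -t * r * cs
  have hy : ∀ θ : ℝ, (!₂[-(t * sin θ), cos θ, r * sin θ] : E3) ∈ Metric.sphere (0 : E3) 1 := by
    intro θ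
    rw [mem_sphere_zero_iff_norm, EuclideanSpace.norm_eq, Real.sqrt_eq_one]
    simp [Fin.sum_univ_three, mul_pow]
    linear_combination sin θ ^ 2 * hr2 + cos_sq_add_sin_sq θ
  have hc : ∀ θ : ℝ, circ !₂[-sin ψ, cos ψ, 0] !₂[-t * cos ψ, -t * sin ψ, r] θ =
      rotS (rotZ ψ) ⟨_, hy θ⟩ := fun θ => by
    refine Subtype.ext ?_
    rw [circ_coe hF, rotS_coe]
    refine rotz_ext ?_ ?_ ?_
    · rw [rotZ_0]; simp; ring
    · rw [rotZ_1]; simp; ring
    · rw [rotZ_2]; simp; ring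
  set φ := (((u : E3) 0) • X 1 - ((u : E3) 1) • X 0) ^ i * Wv w.g m A with hφ
  have hv : ∀ θ : ℝ, φ (circ !₂[-sin ψ, cos ψ, 0] !₂[-t * cos ψ, -t * sin ψ, r] θ) =
      (r * cos θ) ^ i * A (r * sin θ, m * ψ + m *
        (Complex.arg (-(t * sin θ : ℝ) + (cos θ : ℝ) * Complex.I) + w.g (r * sin θ))) := by
    intro θ
    rw [hφ, hc, Sm.mul_apply, Sm.pow_apply, Wv_rotZ m hA, add_comm (m * ψ)]
    congr 2
    · simp only [Sm.sub_apply, Sm.smul_apply, X_apply, rotS_coe, rotZ_0, rotZ_1, p0, p1]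
      simp
      linear_combination r * cos θ * cs
    · simp [lon]
  have hcont : Continuous fun θ : ℝ =>
      φ (circ !₂[-sin ψ, cos ψ, 0] !₂[-t * cos ψ, -t * sin ψ, r] θ) := by
    refine φ.continuous.comp (continuous_induced_rng.2 ?_)
    have : (Subtype.val ∘ circ !₂[-sin ψ, cos ψ, 0] !₂[-t * cos ψ, -t * sin ψ, r]) =
        fun θ => cos θ • (!₂[-sin ψ, cos ψ, 0] : E3) + sin θ • !₂[-t * cos ψ, -t * sin ψ, r] :=
      funext fun θ => circ_coe hF θ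
    rw [this]
    fun_prop
  rw [R_apply hF, cav, Iw, ← intervalIntegral.integral_add_adjacent_intervals (b := π)
    (hcont.intervalIntegrable _ _) (hcont.intervalIntegrable _ _)]
  have h0 : ∫ θ in π..2 * π, φ (circ !₂[-sin ψ, cos ψ, 0] !₂[-t * cos ψ, -t * sin ψ, r] θ) = 0 := by
    refine (intervalIntegral.integral_congr fun θ hθ => ?_).trans intervalIntegral.integral_zero
    rw [uIcc_of_le (by linarith [pi_pos])] at hθ
    have h1 : sin θ ≤ 0 := by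
      rw [← sin_sub_two_pi]
      exact sin_nonpos_of_nonpos_of_neg_pi_le (by linarith [hθ.2]) (by linarith [hθ.1])
    have h2 : r * sin θ ≤ 0 := mul_nonpos_of_nonneg_of_nonpos (Real.sqrt_nonneg _) h1
    refine (hv θ).trans ?_
    rw [hs _ _ fun h => by linarith [h.1], mul_zero]
  rw [h0, add_zero]
  exact congrArg _ (intervalIntegral.integral_congr fun θ _ => hv θ)

theorem statb_pos {w : WG} (hw : w.Ok) {z : ℝ} (h1 : w.zl ≤ z) (h2 : z ≤ w.zr) :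
    0 < 1 - z ^ 2 - w.Γ z ^ 2 ∧ 0 < w.Γ z ∧ w.Γ z < 1 := by
  have a0 := hw.zl_pos
  have a1 := hw.zr_lt
  have a2 := hw.τ_pos
  have a3 := hw.τ2_pos
  have a4 := hw.small
  have b1 : 0 < w.Γ z := by unfold WG.Γ; have : 0 < z := by linarith
                            positivity
  have b2 : w.Γ z ≤ w.τ + w.τ2 := by unfold WG.Γ; nlinarith
  have b3 : w.Γ z ^ 2 ≤ (w.τ + w.τ2) ^ 2 := pow_le_pow_left₀ b1.le b2 2
  have b4 : z ^ 2 ≤ w.zr ^ 2 := pow_le_pow_left₀ (by linarith) h2 2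
  have b5 : w.zr ^ 2 < 1 := by nlinarith
  exact ⟨by linarith, b1, by nlinarith⟩

theorem statb_smooth {w : WG} (hw : w.Ok) (i : ℕ) {z : ℝ} (h1 : w.zl ≤ z) (h2 : z ≤ w.zr) :
    ContDiffAt ℝ ∞ (fun z => w.k0 z * w.c0 z ^ i) z := by
  have h := (statb_pos hw h1 h2).1
  have hb : ContDiffAt ℝ ∞ (fun z => 1 - z ^ 2 - w.Γ z ^ 2) z := by unfold WG.Γ; fun_prop
  exact ((hb.rpow_const_of_ne h.ne').div_const _).mul ((hb.sqrt h.ne').neg.pow i)

theorem statb_main {w : WG} (hw : w.Ok) {Θ : ℝ → ℝ} (hΘ : ContDiff ℝ ∞ Θ) (i : ℕ)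
    {z1 z2 z1' z2' α : ℝ} {A Ψ : ℕ → Pf} (h1 : w.zl < z1') (h2 : z1' < z1) (h3 : z2 < z2')
    (h4 : z2' < w.zr) (hA : PF z1 z2 α A) (h0 : ∀ m, Mz (A m)) (hΨ : PF z1' z2' (α + 3 / 2) Ψ)
    (hb : ∀ N : ℝ, ∃ C : ℝ, ∀ᶠ m : ℕ in atTop, ∀ t ∈ Icc (0 : ℝ) 1, ∀ S : ℝ,
      |Iw w i m (A m) t S - (sl (fun z => w.k0 z * w.c0 z ^ i) * JG m (A m) + Ψ m)
        ((t - w.τ) / w.τ2, S + m * Θ t)| ≤ C * (m : ℝ) ^ (-N))
    {F : ℕ → Sm} {ε : ℝ} (hε : |ε| = 1) (hF : statbFE F) (hFa : ∀ m, ant (F m) = ε • F m)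
    (hFv : ∀ m u, F m u = R ((((u : E3) 0) • X 1 - ((u : E3) 1) • X 0) ^ i * Wv w.g m (A m)) u) :
    Ng (fun m => F m - (w.Wo Θ m (sl (fun z => w.k0 z * w.c0 z ^ i) * JG m (A m) + Ψ m) +
      ε • ant (w.Wo Θ m (sl (fun z => w.k0 z * w.c0 z ^ i) * JG m (A m) + Ψ m)))) := by
  have a0 := hw.zl_pos
  have a1 := hw.zr_lt
  have a2 := hw.τ_pos
  have a3 := hw.τ2_pos
  set B : ℕ → Pf := fun m => sl (fun z => w.k0 z * w.c0 z ^ i) * JG m (A m) + Ψ m with hB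
  have hBP : PF z1' z2' (α + 1 / 2) B :=
    (((hA.mono h2.le h3.le le_rfl).JG h0).sl_mul fun z hz =>
      statb_smooth hw i (by linarith [hz.1]) (by linarith [hz.2])).add
      (hΨ.mono le_rfl le_rfl (by linarith))
  have hBa := hBP.affine (a := w.τ) a3
  have l1 : -1 < w.τ + w.τ2 * z1' := by
    have : 0 < w.τ2 * z1' := mul_pos a3 (by linarith)
    linarith
  have l2 : w.τ + w.τ2 * z2' < 1 := by
    have := (statb_pos hw hw.lt.le le_rfl).2.2
    unfold WG.Γ at this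
    nlinarith
  have hW : FO (α + 1 / 2) fun m => w.Wo Θ m (B m) := hBa.FO hΘ l1 l2
  have hWv : ∀ m (u : S2), w.Wo Θ m (B m) u =
      B m (((u : E3) 2 - w.τ) / w.τ2, m * (lon u + Θ ((u : E3) 2))) := fun m u =>
    Wv_apply m (hBa.adm hΘ l1 l2 m) u
  have hε2 : ε * ε = 1 := by rw [← abs_mul_abs_self, hε, one_mul]
  obtain ⟨β, hβ⟩ := hF.sub (statbFE.add ⟨_, hW⟩ ⟨_, hW.ant.smul ε⟩)
  refine Ng_of_sup hβ fun N => ?_
  obtain ⟨C, hC⟩ := hb N
  refine ⟨C, hC.mono fun m hm => ?_⟩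
  have key : ∀ u : S2, 0 ≤ (u : E3) 2 →
      |(F m - (w.Wo Θ m (B m) + ε • ant (w.Wo Θ m (B m)))) u| ≤ C * (m : ℝ) ^ (-N) := by
    intro u hu
    have hu1 : (u : E3) 2 ≤ 1 := le_trans (le_abs_self _) (abs_X_le 2 u)
    have e : w.Wo Θ m (B m) (neg u) = 0 := by
      rw [hWv]
      refine (hBP.1 m).2 _ _ fun h => ?_
      have h5 := h.1
      rw [neg_coe, le_div_iff₀ a3] at h5
      have : 0 < z1' * w.τ2 := mul_pos (by linarith) a3
      simp only [PiLp.neg_apply] at h5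
      linarith
    rw [Sm.sub_apply, Sm.add_apply, Sm.smul_apply, ant_apply, e, mul_zero, add_zero, hFv, hWv,
      statb_key w i m (hA.adm hw.g_smooth (by linarith) (by linarith) m) (hA.1 m).2 (by linarith),
      mul_add]
    exact hm _ ⟨hu, hu1⟩ _
  intro u
  rcases le_total 0 ((u : E3) 2) with hu | hu
  · exact key u hu
  · have h5 := key (neg u) (by rw [neg_coe]; simpa using hu)
    rw [← ant_apply, map_sub, map_add, map_smul, ant_ant, hFa] at h5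
    refine le_trans (le_of_eq ?_) h5
    rw [← one_mul |_|, ← hε, ← abs_mul]
    congr 1
    simp only [Sm.sub_apply, Sm.add_apply, Sm.smul_apply]
    linear_combination -(ant (w.Wo Θ m (B m)) u) * hε2

theorem statB (hO : OscStmt) : SPStmt := by
  intro w hw
  obtain ⟨Θ, hΘ, H⟩ := hO w hw
  refine ⟨Θ, hΘ, fun z1 z2 z1' z2' α A h1 h2 h3 h4 hA h0 => ?_⟩
  obtain ⟨Ψ0, p0, m0, b0⟩ := H 0 z1 z2 z1' z2' α A h1 h2 h3 h4 hA h0
  obtain ⟨Ψ1, p1, m1, b1⟩ := H 1 z1 z2 z1' z2' α A h1 h2 h3 h4 hA h0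
  have hW : statbFE fun m => Wv w.g m (A m) :=
    ⟨α, hA.FO hw.g_smooth (by linarith [hw.zl_pos]) (by linarith [hw.zr_lt])⟩
  refine ⟨Ψ0, Ψ1, p0, p1, m0, m1, ?_, ?_⟩
  · have := statb_main hw hΘ 0 h1 h2 h3 h4 hA h0 p0 b0 (ε := 1) abs_one hW.R
      (fun m => by rw [one_smul]; exact mem_Ev.1 (R_mem_Ev _))
      (fun m u => by rw [pow_zero, one_mul])
    simpa only [pow_zero, mul_one, one_smul, evE] using this
  · have hF : statbFE fun m => R1 (Wv w.g m (A m)) := by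
      simp only [statb_R1]
      exact ((hW.cmul _).R.cmul _).sub ((hW.cmul _).R.cmul _)
    have := statb_main hw hΘ 1 h1 h2 h3 h4 hA h0 p1 b1 (ε := -1) (by simp) hF
      (fun m => by rw [statb_R1_od, neg_one_smul])
      (fun m u => by rw [pow_one, statb_R1_apply])
    simpa only [pow_one, neg_one_smul, ← sub_eq_add_neg, odE] using this

end Pool.Agent.Lib.MP_2fa2a2_gt.PI
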