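import Pool.Agent.Lib.MP_2fa2a2_gt.PI.SFm

namespace Pool.Agent.Lib.MP_2fa2a2_gt.PI

namespace Symb

/-- operators of integer order -/
structure O (r : ℤ) (A : Sm →ₗ[ℝ] Sm) : Prop where
  out : Ord (r : ℝ) A

variable {r s t : ℤ} {A B A' : Sm →ₗ[ℝ] Sm} {α β : Fm → ℝ}

theorem O_zero : O 0 A ↔ Ord 0 A :=
  ⟨fun h => by simpa using h.out, fun h => ⟨by simpa using h⟩⟩

theorem O_neg : O (-1) A ↔ Ord (-1) A :=
  ⟨fun h => by simpa using h.out, fun h => ⟨by simpa using h⟩⟩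

theorem O.add (h : O r A) (h' : O r B) : O r (A + B) := ⟨fun n => by
  obtain ⟨C, hC, h⟩ := h.out n
  obtain ⟨C', hC', h'⟩ := h'.out n
  exact ⟨C + C', by positivity, h.add h'⟩⟩

theorem O.sub (h : O r A) (h' : O r B) : O r (A - B) := ⟨fun n => by
  obtain ⟨C, hC, h⟩ := h.out n
  obtain ⟨C', hC', h'⟩ := h'.out n
  exact ⟨C + C', by positivity, h.sub h'⟩⟩

theorem O.smul (h : O r A) (c : ℝ) : O r (c • A) := ⟨fun n => by
  obtain ⟨C, hC, h⟩ := h.out n
  exact ⟨|c| * C, by positivity, h.smul c⟩⟩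

theorem O.sum {T : Fin 3 → Sm →ₗ[ℝ] Sm} (h : ∀ a, O r (T a)) : O r (∑ a, T a) := by
  rw [Fin.sum_univ_three]
  exact ((h 0).add (h 1)).add (h 2)

theorem O.mono (h : O r A) (hr : r ≤ s) : O s A := ⟨fun n => by
  obtain ⟨C, hC, h⟩ := h.out n
  have : (r : ℝ) ≤ s := by exact_mod_cast hr
  exact ⟨C, hC, h.mono le_rfl hC (by linarith) le_rfl le_rfl⟩⟩

theorem O.comp' (h : O r A) (h' : O s B) : O (r + s) (A ∘ₗ B) := ⟨fun n => by
  obtain ⟨C, hC, h⟩ := h.out n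
  obtain ⟨C', hC', h'⟩ := h'.out (n + 2 * r)
  refine ⟨C * C', by positivity, h.comp hC (h'.mono le_rfl hC' ?_ ?_ le_rfl)⟩ <;>
    (push_cast; linarith)⟩

theorem O.comp (h : O r A) (h' : O s B) (ht : r + s ≤ t) : O t (A ∘ₗ B) := (h.comp' h').mono ht

theorem O.adj (h : O r A) (ha : ∀ φ ψ, inner ℝ (A φ) ψ = inner ℝ φ (A' ψ)) : O r A' := ⟨fun n => by
  obtain ⟨C, hC, h⟩ := h.out (-n - 2 * r)
  refine ⟨C, hC, (h.adj le_rfl hC ha).mono le_rfl hC ?_ ?_ le_rfl⟩ <;> (push_cast; linarith)⟩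

theorem O.of_eq (h : O r A) (e : ∀ y, B y = A y) : O r B := by
  rwa [show B = A from LinearMap.ext e]

theorem O_ml (φ : Sm) : O 0 (ml φ) := ⟨fun n => by
  obtain ⟨C, hC, h⟩ := Bd_ml n.natAbs
  obtain ⟨B, hB, h'⟩ := exists_Cb n.natAbs φ
  exact ⟨C * B, by positivity, (h n le_rfl h' (abs_le.2 ⟨by omega, by omega⟩)).mono le_rfl
    (by positivity) (by simp) le_rfl le_rfl⟩⟩

theorem O_L (a : Fin 3) : O 1 (L a) := ⟨fun n =>
  ⟨1, zero_le_one, (Bd_L le_rfl (n / 2) a).mono le_rfl zero_le_one (by simp) le_rfl le_rfl⟩⟩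

theorem O_D (a : Fin 3) : O 1 (D a) :=
  ((O_ml _).comp (O_L _) le_rfl).sub ((O_ml _).comp (O_L _) le_rfl)

theorem O_H (a b : Fin 3) : O 2 (H a b) :=
  (O_D a).comp ((O_D b).add ((O_ml _).mono zero_le_one)) le_rfl

theorem O_Dop : O 2 Dop :=
  (O.sum fun a => O_H a a).of_eq fun y => by rw [LinearMap.sum_apply, H_trace]

theorem O_Dp : O (-2) Dp := ⟨fun n =>
  ⟨2, zero_le_two, (Bd_Dp (n / 2 - 2)).mono le_rfl zero_le_two (by push_cast; linarith)
    (by linarith) le_rfl⟩⟩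

theorem O_Sh : O (-2) (Sh 1) := ⟨fun n =>
  ⟨1, zero_le_one, (Bd_Sh_one (n / 2 - 2)).mono le_rfl zero_le_one (by push_cast; linarith)
    (by linarith) le_rfl⟩⟩

theorem O_P (l : ℕ) (r : ℤ) : O r (P l) := ⟨fun _ => Bd_P l _ _⟩

theorem O_gd (φ : Sm) : O 1 (∑ c, ml (L c φ) ∘ₗ L c) := O.sum fun c => (O_ml _).comp (O_L c) le_rfl

theorem gd_op (φ y : Sm) : (∑ c, ml (L c φ) ∘ₗ L c) y = gd φ y := by
  simp only [gd, LinearMap.sum_apply, LinearMap.comp_apply, LinearMap.mulLeft_apply]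

theorem Vb_apply (f y : Sm) : Vb f y = lap f * y + gd f y := by
  simp only [Vb, LinearMap.sum_apply, LinearMap.comp_apply, LinearMap.mulLeft_apply, L_mul,
    lap_def, gd, Finset.sum_add_distrib, Finset.sum_mul]

theorem O_Vb (f : Sm) : O 1 (Vb f) := O.sum fun c => (O_L c).comp (O_ml _) le_rfl

/-- commutators with the pseudo-inverse -/
theorem O_cm_Dp (h : O r A) (t : ℤ) : O t (cm A Dp - Dp ∘ₗ cm lap A ∘ₗ Dp) := by
  refine (((O_P 1 (t - r + 2)).comp (h.comp' O_Dp) (by omega)).sub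
    (O_Dp.comp (h.comp' (O_P 1 (t - r + 2))) (by omega))).of_eq fun y => ?_
  have e : ∀ z, lap z = Dop z - (2 : ℝ) • z := fun z => by
    rw [Dop_def, two_mul, two_smul]
    ring
  simp only [cm, LinearMap.sub_apply, LinearMap.comp_apply, map_sub, e, map_smul, Dp_Dop, Dop_Dp]
  abel

theorem O_cm_lap_ml (φ : Sm) : O 1 (cm lap (ml φ)) :=
  (((O_ml (lap φ)).mono zero_le_one).add ((O_gd φ).smul 2)).of_eq fun y => by
    rw [LinearMap.add_apply, LinearMap.smul_apply, gd_op, two_smul]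
    simp only [cm, LinearMap.sub_apply, LinearMap.comp_apply, LinearMap.mulLeft_apply, lap_mul]
    ring

theorem O_cm_ml_Dp (φ : Sm) : O (-3) (cm (ml φ) Dp) :=
  ((O_cm_Dp (O_ml φ) (-3)).add (O_Dp.comp ((O_cm_lap_ml φ).comp' O_Dp) (by omega))).of_eq
    fun y => by rw [sub_add_cancel]

theorem O_H_sub_Hs (a b : Fin 3) : O 1 (H a b - Hs a b) := by
  refine ((((((O_ml (X a)).comp (O_D b) le_rfl).sub ((O_ml (X b)).comp (O_D a) le_rfl)).add
    ((O_D a).comp (O_ml (X b)) le_rfl)).sub ((O_ml (3 * X b)).comp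
      (((O_ml (2 * X a)).mono zero_le_one).sub (O_D a)) le_rfl)).add
    ((O_D b).comp (O_ml (2 * X a)) le_rfl)).of_eq fun y => ?_
  simp only [H, Hs, LinearMap.add_apply, LinearMap.sub_apply, LinearMap.comp_apply,
    LinearMap.mulLeft_apply, map_add, map_sub]
  linear_combination D_D a b y

/-! Closure properties of `Op0`. -/

theorem op_wd (hW : WdStmt) (h : Wd A α) : Op0 A α :=
  ⟨(hW.1 A α h).1, A, h, O_neg.1 ((O_P 1 (-1)).smul 0 |>.of_eq fun y => by simp)⟩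

theorem op_add (h : Op0 A α) (h' : Op0 B β) : Op0 (A + B) (α + β) := by
  obtain ⟨h0, A1, h1, h2⟩ := h
  obtain ⟨h0', B1, h1', h2'⟩ := h'
  refine ⟨O_zero.1 ((O_zero.2 h0).add (O_zero.2 h0')), A1 + B1, h1.add h1',
    O_neg.1 (((O_neg.2 h2).add (O_neg.2 h2')).of_eq fun y => ?_)⟩
  simp only [LinearMap.add_apply, LinearMap.sub_apply]
  abel

theorem op_smul (c : ℝ) (h : Op0 A α) : Op0 (c • A) (c • α) := by
  obtain ⟨h0, A1, h1, h2⟩ := h
  refine ⟨O_zero.1 ((O_zero.2 h0).smul c), c • A1, h1.smul c,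
    O_neg.1 (((O_neg.2 h2).smul c).of_eq fun y => ?_)⟩
  rw [smul_sub]

theorem op_comp (hW : WdStmt) (h : Op0 A α) (h' : Op0 B β) : Op0 (A ∘ₗ B) (α * β) := by
  obtain ⟨h0, A1, h1, h2⟩ := h
  obtain ⟨h0', B1, h1', h2'⟩ := h'
  refine ⟨O_zero.1 ((O_zero.2 h0).comp (O_zero.2 h0') le_rfl), A1 ∘ₗ B1, h1.comp h1',
    O_neg.1 ((((O_neg.2 h2).comp (O_zero.2 h0') le_rfl).add
      ((O_zero.2 (hW.1 _ _ h1).1).comp (O_neg.2 h2') le_rfl)).of_eq fun y => ?_)⟩
  simp only [LinearMap.add_apply, LinearMap.sub_apply, LinearMap.comp_apply, map_sub]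
  abel

theorem op_sum {T : Fin 3 → Sm →ₗ[ℝ] Sm} {σ : Fin 3 → Fm → ℝ} (h : ∀ a, Op0 (T a) (σ a)) :
    Op0 (∑ a, T a) (∑ a, σ a) := by
  rw [Fin.sum_univ_three, Fin.sum_univ_three]
  exact op_add (op_add (h 0) (h 1)) (h 2)

theorem op_congr {E : Sm →ₗ[ℝ] Sm} (h : Op0 A α) (hE : O (-1) E) (e : ∀ y, B y = A y + E y)
    (e' : ∀ p, β p = α p) : Op0 B β := by
  obtain ⟨h0, A1, h1, h2⟩ := h
  obtain rfl : β = α := funext e'
  refine ⟨O_zero.1 (((O_zero.2 h0).add (hE.mono (by omega))).of_eq e), A1, h1,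
    O_neg.1 (((O_neg.2 h2).add hE).of_eq fun y => ?_)⟩
  simp only [LinearMap.add_apply, LinearMap.sub_apply, e]
  abel

theorem op_adj (hW : WdStmt) (h : Op0 A α) (ha : ∀ φ ψ, inner ℝ (A φ) ψ = inner ℝ φ (A' ψ)) :
    Op0 A' α := by
  obtain ⟨h0, A1, h1, h2⟩ := h
  obtain ⟨A2, h3, h4⟩ := hW.2.2.1 A1 α h1
  refine ⟨O_zero.1 ((O_zero.2 h0).adj ha), A2, h3, O_neg.1 ((O_neg.2 h2).adj fun φ ψ => ?_)⟩
  rw [LinearMap.sub_apply, LinearMap.sub_apply, inner_sub_left, inner_sub_right, ha, h4]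

theorem op_ml (hW : WdStmt) (φ : Sm) (h : Op0 A α) : Op0 (ml φ ∘ₗ A) (px φ * α) :=
  op_comp hW (op_wd hW (Wd.ml φ)) h

theorem op_DD (hW : WdStmt) (a b : Fin 3) : Op0 (D a ∘ₗ D b ∘ₗ Dp) (pi' (X a * X b)) :=
  op_congr (op_wd hW (Wd.xi a b)) 
    (((O_D a).comp ((O_ml (X b)).comp' O_Dp) (by omega)).smul (-1))
    (fun y => by
      simp only [Xi, H, LinearMap.add_apply, LinearMap.comp_apply, LinearMap.smul_apply, map_add]
      module) fun _ => rfl

theorem op_LL (hW : WdStmt) (b c : Fin 3) :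
    Op0 (L b ∘ₗ L c ∘ₗ Dp) (fun p => p.om b * p.om c) := by
  refine op_congr (hW.2.2.2.2.2.2 b c) ((O_L b).comp ((O_L c).comp'
    (((O_Dp.comp' O_Sh).smul 3).add ((O_P 1 (-2)).comp' O_Sh))) (by omega)) (fun y => ?_)
    fun _ => rfl
  have h1 := Dp_Dop (Sh 1 y)
  have h2 := congrArg Dp (Sh_spec 1 y)
  have e : Dp y = -Sh 1 y + ((3 : ℝ) • Dp (Sh 1 y) + P 1 (Sh 1 y)) := by
    rw [Dop_def, two_mul, map_add, map_add] at h1
    rw [one_pow, one_smul, map_sub] at h2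
    rw [← h2, eq_sub_of_add_eq h1]
    module
  simp only [Tm, LinearMap.add_apply, LinearMap.comp_apply, LinearMap.smul_apply,
    LinearMap.neg_apply]
  rw [e, map_add, map_add, map_neg, map_neg]

theorem op_Sxx {T : Fin 3 → Fin 3 → Sm →ₗ[ℝ] Sm} (hW : WdStmt) (f : Sm)
    (h : ∀ b c, Op0 (T b c) (fun p => p.om b * p.om c)) :
    Op0 (∑ b, ∑ c, ml (L b (L c f)) ∘ₗ T b c) (Sxx f) := by
  have h1 := op_sum fun b => op_sum fun c => op_ml hW (L b (L c f)) (h b c)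
  convert h1 using 1
  ext p
  rw [← sum_LL_om]
  simp only [Finset.sum_apply, Pi.mul_apply, px, mul_assoc]

theorem op_P1 (hW : WdStmt) (k : ℝ) (j : ℕ) (f : Sm) :
    Op0 (P1 k j f) (fun p => k * (k - 1) * f p.x - 2 * j * k * Sxx f p) := by
  have h := op_add (op_smul (k * (k - 1)) (op_wd hW (Wd.ml f)))
    (op_smul (-(2 * j * k)) (op_Sxx hW f hW.2.2.2.2.2.2))
  convert h using 1
  · rw [P1, neg_smul, sub_eq_add_neg]
  · ext p
    simp only [Pi.add_apply, Pi.smul_apply, px, smul_eq_mul]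
    ring

theorem op_Bop (hW : WdStmt) (f : Sm) :
    Op0 (Bop f) (fun p => 2 * (lap f p.x + f p.x - Sxx f p)) := by
  refine op_congr (op_add (op_smul 2 (op_wd hW (Wd.ml (Dop f)))) (op_smul (-2)
    (op_sum fun a => op_sum fun b => op_ml hW (H a b f) (op_wd hW (Wd.xs a b)))))
    (((((O_cm_ml_Dp (Dop f)).comp O_Dop (by omega)).add
      ((O_ml (Dop f)).comp (O_P 1 (-1)) le_rfl)).smul (-2)).add
      ((O.sum fun a => O.sum fun b => ((O_cm_ml_Dp (H a b f)).comp (O_H a b) (by omega)).sub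
        ((O_ml (H a b f)).comp (O_Dp.comp' (O_H_sub_Hs a b)) (by omega))).smul 2))
    (fun y => ?_) fun p => ?_
  · simp only [Bop, Qf_def, cm, Xs, LinearMap.add_apply, LinearMap.sub_apply,
      LinearMap.comp_apply, LinearMap.smul_apply, LinearMap.mulLeft_apply, map_smul, map_sub,
      map_add, Dp_Dop, Fin.sum_univ_three]
    module
  · simp only [Pi.add_apply, Pi.smul_apply, Pi.mul_apply, px, pi', smul_eq_mul,
      Sxx, Dop_def, two_mul f, Sm.add_apply, Sm.mul_apply, X_apply, Fin.sum_univ_three]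
    ring

theorem cm_ml (u φ : Sm) : cm (Vb u) (ml φ) = ml (gd u φ) := by
  refine LinearMap.ext fun y => ?_
  simp only [cm, LinearMap.sub_apply, LinearMap.comp_apply, LinearMap.mulLeft_apply, Vb_apply,
    gd_mul]
  ring

/-- coefficients of the commutator with a tangential derivative -/
noncomputable def mc (f : Sm) (a c : Fin 3) : Sm := -(D a (D c f) + X a * D c f)

theorem cm_D (f : Sm) (a : Fin 3) :
    cm (Vb f) (D a) = ∑ c, ml (mc f a c) ∘ₗ D c - ml (D a (lap f)) := by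
  refine LinearMap.ext fun y => ?_
  have h := sum_X_D f
  simp only [cm, mc, LinearMap.sub_apply, LinearMap.comp_apply, LinearMap.mulLeft_apply, Vb_apply,
    gd_eq_D, map_add, D_mul, Fin.sum_univ_three, LinearMap.add_apply] at h ⊢
  linear_combination D 0 f * D_D 0 a y + D 1 f * D_D 1 a y + D 2 f * D_D 2 a y + D a y * h

theorem O_cm_D (f : Sm) (a : Fin 3) : O 1 (cm (Vb f) (D a)) := by
  rw [cm_D]
  exact (O.sum fun c => (O_ml _).comp (O_D c) le_rfl).sub ((O_ml _).mono zero_le_one)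

theorem cm_lap (f y : Sm) : cm lap (Vb f) y = lap (lap f) * y + (3 : ℝ) • gd (lap f) y
    + (2 : ℝ) • ∑ b, ∑ c, L b (L c f) * L b (L c y) := by
  have h : lap (gd f y) = gd (lap f) y + 2 * ∑ c, gd (L c f) (L c y) + gd f (lap y) := by
    simp only [alg_lap, L_gd, map_add, tau_gd_add, tau_gd_add', Fin.sum_univ_three]
    ring
  have e3 : ∀ z : Sm, (3 : ℝ) • z = 3 * z := fun z => by
    rw [show (3 : ℝ) = 2 + 1 by norm_num, add_smul, two_smul, one_smul]
    ring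
  simp only [cm, LinearMap.sub_apply, LinearMap.comp_apply, Vb_apply, map_add, lap_mul, h, e3,
    two_smul]
  simp only [alg_gd (L _ f), Fin.sum_univ_three]
  ring

theorem op_cm_lap (hW : WdStmt) (f : Sm) : Op0 (cm lap (Vb f) ∘ₗ Dp) ((2 : ℝ) • Sxx f) := by
  refine op_congr (op_smul 2 (op_Sxx hW f (op_LL hW)))
    ((((O_ml (lap (lap f))).mono zero_le_one).add ((O_gd (lap f)).smul 3)).comp O_Dp (by omega))
    (fun y => ?_) fun _ => rfl
  rw [LinearMap.comp_apply, cm_lap, LinearMap.comp_apply, LinearMap.add_apply,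
    LinearMap.smul_apply 3, gd_op]
  simp only [LinearMap.comp_apply, LinearMap.smul_apply, LinearMap.mulLeft_apply,
    LinearMap.sum_apply]
  abel

theorem sym_xi (f : Sm) (a : Fin 3) (p : Fm) :
    Xl f (pi' (X a)) p = ∑ c, mc f a c p.x * (p.xi : E3) c + Sxx f p * (p.xi : E3) a := by
  have ho : (p.x : E3) 0 * (p.xi : E3) 0 + (p.x : E3) 1 * (p.xi : E3) 1
      + (p.x : E3) 2 * (p.xi : E3) 2 = 0 := by
    rw [← tau_inner]
    exact p.2
  have hk : ∑ c, kd a c p.x * (p.xi : E3) c = (p.xi : E3) a := by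
    rcases alg_fin a with rfl | rfl | rfl <;> simp [kd, Fin.sum_univ_three]
  have he := fun c => congrArg (fun φ : Sm => φ p.x) (hess_expand a c f)
  have hx := fun c => congrArg (fun φ : Sm => φ p.x) (sum_X_H c f)
  have hf : ∀ c, H a c f p.x = ∑ d, ((p.x : E3) a * (p.x : E3) d
      + (p.xi : E3) a * (p.xi : E3) d + p.om a * p.om d) * H d c f p.x := fun c => by
    simp only [fm_frame]
    simp
  have hs := fun c d => congrArg (fun φ : Sm => φ p.x) (H_symm c d f)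
  rw [Xl_xi]
  simp only [mc, Sxx, Sxw, Fin.sum_univ_three, Sm.add_apply, Sm.mul_apply, Sm.neg_apply,
    Sm.sub_apply, X_apply, Sm.zero_apply] at *
  linear_combination (p.xi : E3) 0 * (hf 0 - he 0 + (p.x : E3) a * hx 0)
    + (p.xi : E3) 1 * (hf 1 - he 1 + (p.x : E3) a * hx 1)
    + (p.xi : E3) 2 * (hf 2 - he 2 + (p.x : E3) a * hx 2)
    - f p.x * hk - (D a f p.x - (p.x : E3) a * f p.x) * ho
    + p.om a * (((p.xi : E3) 0 * p.om 1 - (p.xi : E3) 1 * p.om 0) * hs 1 0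
      + ((p.xi : E3) 0 * p.om 2 - (p.xi : E3) 2 * p.om 0) * hs 2 0
      + ((p.xi : E3) 1 * p.om 2 - (p.xi : E3) 2 * p.om 1) * hs 2 1)

theorem op_Xi (hW : WdStmt) (f : Sm) (a b : Fin 3) :
    Op0 (cm (Vb f) (Xi a b)) (Xl f (pi' (X a * X b))) := by
  refine op_congr (op_add (op_add (op_sum fun c => op_ml hW (mc f a c) (op_DD hW c b))
      (op_sum fun c => op_ml hW (mc f b c) (op_DD hW a c)))
      (op_comp hW (op_wd hW (Wd.xi a b)) (op_cm_lap hW f)))
    (((((O.sum fun c => (O_ml (D a (mc f b c))).comp ((O_D c).comp' O_Dp) (by omega)).sub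
      ((O_ml (D a (lap f))).comp ((O_D b).comp' O_Dp) (by omega))).sub
      ((O_D a).comp ((O_ml (D b (lap f))).comp' O_Dp) (by omega))).add
      ((((O_cm_D f a).comp' (O_ml (X b))).add ((O_D a).comp' (O_ml (gd f (X b))))).comp O_Dp
        (by omega))).add
      ((O_H a b).comp (O_cm_Dp (O_Vb f) (-3)) (by omega))) (fun y => ?_) fun p => ?_
  · have e : cm (Vb f) (Xi a b) y = cm (Vb f) (D a) (D b (Dp y)) + D a (cm (Vb f) (D b) (Dp y))
        + (cm (Vb f) (D a) (X b * Dp y) + D a (cm (Vb f) (ml (X b)) (Dp y)))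
        + H a b (cm (Vb f) Dp y) := by
      simp only [cm, Xi, H, LinearMap.add_apply, LinearMap.sub_apply, LinearMap.comp_apply,
        LinearMap.mulLeft_apply, map_add, map_sub]
      abel
    rw [e, cm_ml, cm_D f b]
    nth_rewrite 1 [cm_D f a]
    simp only [Xi, LinearMap.add_apply, LinearMap.sub_apply, LinearMap.comp_apply,
      LinearMap.mulLeft_apply, map_add, map_sub, D_mul a (mc f b _), Fin.sum_univ_three]
    abel
  · rw [pi'_mul, Xl_mul f (pi'_mem _) (pi'_mem _)]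
    simp only [Pi.add_apply, Pi.mul_apply, Pi.smul_apply, sym_xi, px,
      smul_eq_mul, Fin.sum_univ_three]
    simp only [pi', Sm.mul_apply, X_apply]
    ring

theorem inner_Vb (f φ ψ : Sm) :
    inner ℝ (Vb f φ) ψ = inner ℝ φ (lap f * ψ - Vb f ψ) := by
  have h : I (Vb f (φ * ψ)) = 0 := by
    simp only [Vb, LinearMap.sum_apply, LinearMap.comp_apply, map_sum, I_L, Finset.sum_const_zero]
  rw [inner_def, inner_def, ← sub_eq_zero, ← map_sub, ← h]
  congr 1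
  simp only [Vb_apply, gd_mul]
  ring

theorem op_Xs (hW : WdStmt) (f : Sm) (a b : Fin 3) :
    Op0 (cm (Vb f) (Xs a b)) (Xl f (pi' (X a * X b))) := by
  have hx : ∀ φ ψ, inner ℝ (Xi a b φ) ψ = inner ℝ φ (Xs a b ψ) := fun φ ψ =>
    (inner_H a b _ _).trans (inner_fn _ _ _)
  have h := op_adj hW (A' := cm (Vb f) (Xs a b) - cm (ml (lap f)) (Xs a b)) (op_Xi hW f a b)
    fun φ ψ => by
      simp only [cm, LinearMap.sub_apply, LinearMap.comp_apply, LinearMap.mulLeft_apply,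
        inner_sub_left, inner_Vb, hx, map_sub, inner_sub_right]
      ring
  refine op_congr h (O_neg.2 (hW.2.1 _ _ _ _ (Wd.ml (lap f)) (Wd.xs a b))) (fun y => ?_)
    fun _ => rfl
  rw [LinearMap.sub_apply, sub_add_cancel]

theorem Xl_smul (f : Sm) (c : ℝ) (α : Fm → ℝ) : Xl f (c • α) = c • Xl f α := by
  ext p
  simp only [Xl, LL_smul, Pi.smul_apply, smul_eq_mul, Fin.sum_univ_three]
  ring

theorem op_cm (hW : WdStmt) (f : Sm) (h : Wd A α) : Op0 (cm (Vb f) A) (Xl f α) := by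
  induction h with
  | ml φ =>
    rw [cm_ml, Xl_px]
    exact op_wd hW (Wd.ml _)
  | xi a b => exact op_Xi hW f a b
  | xs a b => exact op_Xs hW f a b
  | add h1 h2 i1 i2 =>
    rw [Xl_add f (hW.1 _ _ h1).2.1 (hW.1 _ _ h2).2.1]
    convert op_add i1 i2 using 1
    simp only [cm, LinearMap.comp_add, LinearMap.add_comp]
    abel
  | smul c h1 i1 =>
    rw [Xl_smul]
    convert op_smul c i1 using 1
    simp only [cm, LinearMap.comp_smul, LinearMap.smul_comp, smul_sub]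
  | comp h1 h2 i1 i2 =>
    rw [Xl_mul f (hW.1 _ _ h1).2.1 (hW.1 _ _ h2).2.1]
    convert op_add (op_comp hW i1 (op_wd hW h2)) (op_comp hW (op_wd hW h1) i2) using 1
    simp only [cm, LinearMap.comp_sub, LinearMap.sub_comp, LinearMap.comp_assoc]
    abel

end Symb

theorem symb (hW : WdStmt) : SymStmt :=
  ⟨fun f _ _ h => Symb.op_cm hW f h, Symb.op_Bop hW, Symb.op_P1 hW⟩

end Pool.Agent.Lib.MP_2fa2a2_gt.PI
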