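import Pool.Agent.Lib.MP_2fa2a2_gt.PI.SZone
import Pool.Agent.Lib.MP_2fa2a2_gt.PI.Vf

namespace Pool.Agent.Lib.MP_2fa2a2_gt.PI

open MeasureTheory
open scoped ContDiff

/-- locality of the rotation fields -/
theorem thin_L_zero {U : Set S2} (hU : IsOpen U) {φ : Sm} (h : ∀ x ∈ U, φ x = 0) (c : Fin 3) :
    ∀ x ∈ U, L c φ x = 0 := fun x hx => by
  have hc : Continuous fun t => rotS (int_rot c t) x :=
    (continuous_iff_continuousAt.2 fun t =>
      (int_hasDerivAt_rot c t (x : E3)).continuousAt).subtype_mk _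
  have h1 := hc.tendsto 0
  rw [fm_rotS_zero] at h1
  have h2 : (fun t => φ (rotS (int_rot c t) x)) =ᶠ[nhds 0] fun _ => (0 : ℝ) :=
    (h1.eventually (hU.mem_nhds hx)).mono fun t ht => h _ ht
  rw [← (fm_deriv c φ x).deriv, h2.deriv_eq, deriv_const]

theorem thin_D_zero {U : Set S2} (hU : IsOpen U) {φ : Sm} (h : ∀ x ∈ U, φ x = 0) (c : Fin 3) :
    ∀ x ∈ U, D c φ x = 0 := fun x hx => by
  rw [D_def, Sm.sub_apply, Sm.mul_apply, Sm.mul_apply, thin_L_zero hU h _ x hx,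
    thin_L_zero hU h _ x hx]
  ring

theorem thin_PP_zero {U : Set S2} (hU : IsOpen U) {φ : Sm} (h : ∀ x ∈ U, φ x = 0) (j : ℕ)
    (a : Fm → ℝ) {p : Fm} (hp : p.x ∈ U) : PP j φ a p = 0 := by
  have hH : ∀ b c, H b c φ p.x = 0 := fun b c => by
    rw [H_def]
    refine thin_D_zero hU (fun x hx => ?_) b _ hp
    rw [Sm.add_apply, Sm.mul_apply, thin_D_zero hU h c x hx, h x hx]
    ring
  have hl : lap φ p.x = 0 := by
    rw [lap_def, Sm.sum_apply]
    exact Finset.sum_eq_zero fun c _ => thin_L_zero hU (thin_L_zero hU h c) c _ hp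
  simp only [PP, Xl, Sxw, Sxx, hH, hl, h _ hp, thin_L_zero hU h _ _ hp, mul_zero,
    Finset.sum_const_zero, zero_mul, sub_self, add_zero]

theorem thin_DX (b : Fin 3) (x : S2) :
    D b (X 2) x = (if b = 2 then 1 else 0) - (x : E3) b * (x : E3) 2 := by
  rw [D_X, Sm.sub_apply, Sm.mul_apply, X_apply, X_apply, kd]
  split_ifs <;> simp

/-- the mixed Hessian of a function with gradient `a grad z` -/
theorem thin_Sxw {G a : Sm} (h : ∀ c, D c G = a * D c (X 2)) (p : Fm) :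
    Sxw G p = dxi a p * p.om 2 := by
  have hH : ∀ b c, H b c G = D b a * D c (X 2) - a * (D b (X c) * X 2 + X c * D b (X 2))
      + X c * (a * D b (X 2)) + D b (X c) * G := fun b c => by
    rw [hess_expand, h c, h b, D_mul, D_X c 2, map_sub, hess_D_kd, D_mul, D_X b c]
    ring
  have hZ := fm_xi p
  simp only [Sxw, dxi, hH, D_X, kd, Fin.sum_univ_three, Sm.add_apply, Sm.sub_apply, Sm.mul_apply,
    X_apply]
  simp
  simp only [fm_om0, fm_om1, fm_om2]
  ring

theorem thin_dxi {G a : Sm} (h : ∀ c, D c G = a * D c (X 2)) (p : Fm) :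
    ∑ b, D b G p.x * (p.xi : E3) b = a p.x * (p.xi : E3) 2 := by
  have hZ := fm_xi p
  simp only [h, Sm.mul_apply, thin_DX, Fin.sum_univ_three]
  simp
  linear_combination -(a p.x * (p.x : E3) 2) * hZ

theorem thin_Xl_Zf (G : Sm) {g : ℝ → ℝ} (hg : ContDiff ℝ ∞ g) (p : Fm) :
    Xl G (pi' (Zf g)) p = deriv g ((p.xi : E3) 2) * Xl G (pi' (X 2)) p := by
  have hg' : ContDiff ℝ ∞ (deriv g) := hg.iterate_deriv 1
  simp only [Xl, LL_pi', pi', L_Zf _ hg, Sm.mul_apply, Zf_apply hg', Fin.sum_univ_three]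
  ring

theorem thin_abs_LX (c : Fin 3) (x : S2) : |L c (X 2) x| ≤ 1 := by
  rcases alg_fin c with rfl | rfl | rfl
  · rw [alg_02]; exact abs_X_le _ _
  · rw [alg_12, Sm.neg_apply, abs_neg]; exact abs_X_le _ _
  · rw [L_X_self]; simp

/-- a fixed cut-off -/
theorem thin_bump : ∃ (s : ℝ → ℝ) (K : ℝ), 0 ≤ K ∧ ContDiff ℝ ∞ s ∧ (∀ x, 0 ≤ s x ∧ s x ≤ 1) ∧
    (∀ x, |x| ≤ 1 → s x = 1) ∧ (∀ x, 3 < |x| → s x = 0 ∧ deriv s x = 0) ∧
    ∀ x, |deriv s x| ≤ K := by
  let b : ContDiffBump (0 : ℝ) := ⟨1, 2, one_pos, one_lt_two⟩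
  have hs : ContDiff ℝ ∞ b := b.contDiff
  have hd : Continuous (deriv b) := hs.continuous_deriv (by simp)
  obtain ⟨K, hK⟩ := hd.bounded_above_of_compact_support b.hasCompactSupport.deriv
  have h0 : ∀ x, 2 < |x| → b x = 0 := fun x hx =>
    b.zero_of_le_dist (by rw [Real.dist_eq, sub_zero]; exact hx.le)
  refine ⟨b, K, (norm_nonneg _).trans (hK 0), hs, fun x => ⟨b.nonneg, b.le_one⟩, fun x hx => ?_,
    fun x hx => ⟨h0 x (by linarith), ?_⟩, hK⟩
  · exact b.one_of_mem_closedBall (by rwa [Metric.mem_closedBall, Real.dist_eq, sub_zero])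
  · have h1 : ∀ᶠ y in nhds x, 2 < |y| :=
      (isOpen_lt continuous_const continuous_abs).mem_nhds (by show 2 < |x|; linarith)
    have h2 : (b : ℝ → ℝ) =ᶠ[nhds x] fun _ => (0 : ℝ) := h1.mono fun y hy => h0 y hy
    rw [h2.deriv_eq, deriv_const]

/-- the weight in the direction variable -/
theorem thin_dir {t l : ℝ} (ht : 0 < t) (hl : 0 < l) (hl1 : l ≤ 1) : ∃ g : ℝ → ℝ,
    ContDiff ℝ ∞ g ∧ (∀ y, |g y| ≤ 2) ∧ (∀ y, |y| ≤ 1 → |deriv g y| ≤ 2 / (t * l)) ∧
    (∀ y, ∃ e, 0 ≤ e ∧ deriv g y = e * y) ∧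
    ∀ y, t / (1 + l) ≤ y ^ 2 → y ^ 2 ≤ t * (1 + l) ^ 2 → 1 / (10 * l) ≤ y * deriv g y := by
  have hd : ∀ y, deriv (fun y : ℝ => Real.arctan ((y ^ 2 / t - 1) / l)) y
      = 1 / (1 + ((y ^ 2 / t - 1) / l) ^ 2) * (2 * y / t / l) := fun y => by
    have h1 : HasDerivAt (fun y : ℝ => (y ^ 2 / t - 1) / l) (2 * y / t / l) y := by
      have := (((hasDerivAt_pow 2 y).div_const t).sub_const 1).div_const l
      simpa using this
    exact h1.arctan.deriv
  refine ⟨fun y => Real.arctan ((y ^ 2 / t - 1) / l), ?_, fun y => ?_, fun y hy => ?_,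
    fun y => ?_, fun y h1 h2 => ?_⟩
  · exact Real.contDiff_arctan.comp (by fun_prop)
  · have h1 := Real.arctan_lt_pi_div_two ((y ^ 2 / t - 1) / l)
    have h2 := Real.neg_pi_div_two_lt_arctan ((y ^ 2 / t - 1) / l)
    have h3 := Real.pi_le_four
    rw [abs_le]
    constructor <;> linarith
  · rw [hd, abs_mul]
    have h1 : |1 / (1 + ((y ^ 2 / t - 1) / l) ^ 2)| ≤ 1 := by
      rw [abs_of_pos (by positivity), div_le_one (by positivity)]
      nlinarith [sq_nonneg ((y ^ 2 / t - 1) / l)]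
    have h2 : |2 * y / t / l| ≤ 2 / (t * l) := by
      rw [div_div, abs_div, abs_of_pos (mul_pos ht hl), abs_mul, abs_two]
      gcongr
      linarith
    calc _ ≤ 1 * (2 / (t * l)) := mul_le_mul h1 h2 (abs_nonneg _) zero_le_one
      _ = _ := one_mul _
  · refine ⟨1 / (1 + ((y ^ 2 / t - 1) / l) ^ 2) * (2 / t / l), by positivity, ?_⟩
    rw [hd]
    ring
  · rw [hd]
    set T := y ^ 2 / t with hT
    have e : y * (1 / (1 + ((T - 1) / l) ^ 2) * (2 * y / t / l))
        = 1 / (1 + ((T - 1) / l) ^ 2) * (2 * T / l) := by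
      rw [hT]
      ring
    have a1 : 1 ≤ T * (1 + l) := by
      rw [div_le_iff₀ (by linarith)] at h1
      rw [hT, div_mul_eq_mul_div, le_div_iff₀ ht]
      linarith
    have a2 : T ≤ (1 + l) ^ 2 := by
      rw [hT, div_le_iff₀ ht]
      linarith
    have a0 : 0 ≤ T := by positivity
    have a3 : 1 / 2 ≤ T := by nlinarith
    have a4 : -(3 * l) ≤ T - 1 := by nlinarith
    have a5 : T - 1 ≤ 3 * l := by nlinarith
    have a6 : ((T - 1) / l) ^ 2 ≤ 9 := by
      rw [div_pow, div_le_iff₀ (by positivity)]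
      nlinarith
    have a7 : 1 / 10 ≤ 1 / (1 + ((T - 1) / l) ^ 2) :=
      one_div_le_one_div_of_le (by positivity) (by linarith)
    have a8 : 1 / l ≤ 2 * T / l := by
      gcongr
      linarith
    rw [e]
    calc 1 / (10 * l) = 1 / 10 * (1 / l) := by field_simp
      _ ≤ _ := mul_le_mul a7 a8 (by positivity) (by positivity)

theorem thin_int {F : Fm → ℝ} (hF : Continuous F) (μ : Measure Fm) [IsProbabilityMeasure μ] :
    Integrable F μ :=
  hF.integrable_of_hasCompactSupport (HasCompactSupport.of_compactSpace F)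

theorem thin_meas_slab (d : ZD) (r : ℝ) : MeasurableSet (slab d r) :=
  (isClosed_le (((X 2).continuous.comp fm_cont_x).sub continuous_const).abs
    continuous_const).measurableSet

theorem thin_meas_strip (t l : ℝ) : MeasurableSet (strip t l) :=
  ((isClosed_le continuous_const (((X 2).continuous.comp fm_cont_xi).pow 2)).inter
    (isClosed_le (((X 2).continuous.comp fm_cont_xi).pow 2) continuous_const)).measurableSet

section
variable {C0 t l C1 κ1 : ℝ} {m : ℕ} {u χ : Sm} {d : ZD}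

/-- the sign of the transport of the direction -/
theorem thin_sign (hC : 1 ≤ C0) (hZ : Zone C0 t l C1 κ1 m u χ d) {p : Fm}
    (hp : |X 2 p.x - d.zc| < 4 * d.ρ) :
    (p.xi : E3) 2 * Xl d.G (pi' (X 2)) p ≤ -(C0⁻¹ ^ 2 * (p.xi : E3) 2 ^ 2) := by
  have hi : 0 < C0⁻¹ := by positivity
  have h1 := abs_lt.1 hp
  rw [X_apply] at h1
  have z0 : C0⁻¹ ≤ (p.x : E3) 2 := by linarith [hZ.lo]
  have z1 : (p.x : E3) 2 < 1 := by linarith [hZ.hi]
  have hq : 0 < qq p.x := by
    rw [qq, Sm.sub_apply, Sm.mul_apply, Sm.one_apply, X_apply]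
    nlinarith
  have h2 := qq_dxi d.a p
  rw [hZ.a_zon.L2, Sm.zero_apply, zero_mul, add_zero] at h2
  have h3 : 0 ≤ dxi d.a p * (p.xi : E3) 2 := by
    have h4 : 0 ≤ qq p.x * (dxi d.a p * (p.xi : E3) 2) := by
      rw [← mul_assoc, h2, mul_assoc]
      exact mul_nonneg (hZ.mono _ hp).2.1 (mul_self_nonneg _)
    exact (mul_nonneg_iff_of_pos_left hq).1 h4
  have h5 : C0⁻¹ * C0⁻¹ ≤ d.a p.x * (p.x : E3) 2 :=
    mul_le_mul (hZ.a_ge _) z0 hi.le (hi.le.trans (hZ.a_ge _))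
  rw [Xl_xi]
  simp only [thin_dxi hZ.G_grad, thin_Sxw hZ.G_grad]
  nlinarith [mul_nonneg h3 (mul_self_nonneg (p.om 2)),
    mul_le_mul_of_nonneg_right h5 (sq_nonneg ((p.xi : E3) 2))]

end

theorem thin : ThinStmt := by
  intro j C0 γ hC hγ
  obtain ⟨s, K, hK, hs, s01, s1, s0, sK⟩ := thin_bump
  set A : ℝ := 2 * (5000 * (j + 1) * C0 * (1 + 3 * (K * C0))) with hA
  have hA0 : 0 ≤ A := by positivity
  set l : ℝ := min 1 (γ / (10 * C0 ^ 2 * (A + 1))) with hl
  have l0 : 0 < l := lt_min one_pos (by positivity)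
  have l1 : l ≤ 1 := min_le_left _ _
  have l2 : l * (10 * C0 ^ 2 * (A + 1)) ≤ γ :=
    (le_div_iff₀ (by positivity)).1 (min_le_right _ _)
  refine ⟨l, l0, l1, fun t ht => ?_⟩
  obtain ⟨g, hg, g2, g1, ge, gs⟩ := thin_dir ht l0 l1
  set B : ℝ := 2 + 3 * (K * C0 * 2 + 2 / (t * l)) with hB
  have hB0 : 0 ≤ B := by positivity
  obtain ⟨m0, hm0⟩ := exists_nat_ge (B + 1)
  refine ⟨m0, fun m hm C1 κ1 u χ d μ hμ hZ hT => ?_⟩
  have hi : 0 < C0⁻¹ := by positivity
  have hρ : 0 < d.ρ := hi.trans_le hZ.ρ_ge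
  have hρ' : d.ρ⁻¹ ≤ C0 := inv_le_of_inv_le₀ (by positivity) hZ.ρ_ge
  have hm1 : B + 1 ≤ (m : ℝ) := hm0.trans (Nat.cast_le.2 hm)
  have hmB : 1 / (m : ℝ) ^ 20 * B ≤ 1 := by
    have h1 : (1 : ℝ) ≤ m := by linarith
    have h2 : (m : ℝ) ≤ m ^ 20 := le_self_pow₀ h1 (by norm_num)
    rw [one_div, inv_mul_le_iff₀ (by positivity)]
    linarith
  -- the cut-off in the height
  set ζ : ℝ → ℝ := fun z => s ((z - d.zc) / d.ρ) with hζ
  have hζs : ContDiff ℝ ∞ ζ := hs.comp (by fun_prop)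
  have hζd : ∀ z, deriv ζ z = deriv s ((z - d.zc) / d.ρ) * d.ρ⁻¹ := fun z => by
    have h1 : HasDerivAt (fun z : ℝ => (z - d.zc) / d.ρ) (d.ρ⁻¹) z := by
      have := ((hasDerivAt_id z).sub_const d.zc).div_const d.ρ
      simpa using this
    exact (((hs.differentiable (by simp)) _).hasDerivAt.comp z h1).deriv
  have hζ' : ContDiff ℝ ∞ (deriv ζ) := hζs.iterate_deriv 1
  have hg' : ContDiff ℝ ∞ (deriv g) := hg.iterate_deriv 1
  have out : ∀ p, p ∉ slab d 3 → Zf ζ p.x = 0 ∧ ∀ c, L c (Zf ζ) p.x = 0 := fun p hp => by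
    have h1 : 3 < |((p.x : E3) 2 - d.zc) / d.ρ| := by
      rw [abs_div, abs_of_pos hρ, lt_div_iff₀ hρ]
      exact not_le.1 hp
    refine ⟨by rw [Zf_apply hζs]; exact (s0 _ h1).1, fun c => ?_⟩
    rw [L_Zf _ hζs, Sm.mul_apply, Zf_apply hζ', hζd, (s0 _ h1).2, zero_mul, zero_mul]
  have z01 : ∀ x, 0 ≤ Zf ζ x ∧ Zf ζ x ≤ 1 := fun x => by
    rw [Zf_apply hζs]
    exact s01 _
  have zabs : ∀ x, |Zf ζ x| ≤ 1 := fun x => by
    rw [abs_of_nonneg (z01 x).1]
    exact (z01 x).2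
  have zL : ∀ c x, |L c (Zf ζ) x| ≤ K * C0 := fun c x => by
    rw [L_Zf _ hζs, Sm.mul_apply, Zf_apply hζ', hζd]
    have h1 : |d.ρ⁻¹| ≤ C0 := by rwa [abs_of_pos (inv_pos.2 hρ)]
    exact (fm_abs_mul (fm_abs_mul (sK _) h1) (thin_abs_LX c x)).trans_eq (mul_one _)
  have gabs : ∀ x, |Zf g x| ≤ 2 := fun x => by
    rw [Zf_apply hg]
    exact g2 _
  have gL : ∀ c x, |L c (Zf g) x| ≤ 2 / (t * l) := fun c x => by
    rw [L_Zf _ hg, Sm.mul_apply, Zf_apply hg']
    exact (fm_abs_mul (g1 _ (abs_X_le 2 x)) (thin_abs_LX c x)).trans_eq (mul_one _)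
  set a : Fm → ℝ := px (Zf ζ) * pi' (Zf g) with ha
  have haS : a ∈ Sy := fm_mul_mem _ _
  have aLL : ∀ c p, LL c a p = L c (Zf ζ) p.x * Zf g p.xi + Zf ζ p.x * L c (Zf g) p.xi :=
    fun c p => by
      rw [ha, fm_LL_gen]
      rfl
  have aval : ∀ p, a p = Zf ζ p.x * Zf g p.xi := fun p => rfl
  have hjet : ∀ p, jet a p ≤ (slab d 3).indicator (fun _ => B) p := fun p => by
    by_cases hp : p ∈ slab d 3
    · rw [Set.indicator_of_mem hp, jet, Fin.sum_univ_three]
      have h1 : |a p| ≤ 1 * 2 := fm_abs_mul (zabs _) (gabs _)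
      have h2 : ∀ c, |LL c a p| ≤ K * C0 * 2 + 1 * (2 / (t * l)) := fun c => by
        rw [aLL]
        exact (abs_add_le _ _).trans (add_le_add (fm_abs_mul (zL c _) (gabs _))
          (fm_abs_mul (zabs _) (gL c _)))
      linarith [h2 0, h2 1, h2 2]
    · rw [Set.indicator_of_notMem hp, jet]
      simp only [aLL, aval, (out p hp).1, (out p hp).2, zero_mul, add_zero, abs_zero,
        Finset.sum_const_zero, le_refl]
  have hPP : ∀ p, PP j (odp u) a p ≤ (slab d 3).indicator (fun _ => A) p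
      - (slab d 1 ∩ strip t l).indicator (fun _ => C0⁻¹ ^ 2 * (1 / (10 * l))) p := fun p => by
    by_cases hp : p ∈ slab d 3
    · have hp4 : |X 2 p.x - d.zc| < 4 * d.ρ := lt_of_le_of_lt hp (by linarith)
      have hU : IsOpen {x : S2 | |X 2 x| < d.zc + 4 * d.ρ} :=
        isOpen_lt (X 2).continuous.abs continuous_const
      have hpU : p.x ∈ {x : S2 | |X 2 x| < d.zc + 4 * d.ρ} := by
        have h1 := abs_lt.1 hp4
        show |X 2 p.x| < d.zc + 4 * d.ρ
        rw [abs_lt]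
        constructor <;> linarith [hZ.lo]
      have e1 : PP j (odp u) a p = PP j d.G (px (Zf ζ)) p * Zf g p.xi
          + Zf ζ p.x * (deriv g ((p.xi : E3) 2) * Xl d.G (pi' (X 2)) p) := by
        rw [hZ.odd, PP_add_left, Pi.add_apply,
          thin_PP_zero hU (fun x hx => hZ.fw_zero x (Or.inl hx)) j a hpU, add_zero,
          ← thin_Xl_Zf _ hg]
        simp only [PP, ha, Xl_mul _ (px_mem _) (pi'_mem _), Pi.add_apply, Pi.mul_apply, px, pi']
        ring
      have e2 : |PP j d.G (px (Zf ζ)) p| ≤ 5000 * (j + 1) * C0 * (1 + 3 * (K * C0)) := by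
        refine (abs_PP_le j (hZ.G_Cb.mono zero_le_one (by norm_num) le_rfl le_rfl) _ p).trans ?_
        refine mul_le_mul_of_nonneg_left ?_ (by positivity)
        rw [jet, Fin.sum_univ_three]
        simp only [LL_px, px]
        linarith [zabs p.x, zL 0 p.x, zL 1 p.x, zL 2 p.x]
      have e3 : PP j d.G (px (Zf ζ)) p * Zf g p.xi ≤ A := by
        refine (le_abs_self _).trans ((fm_abs_mul e2 (gabs _)).trans_eq ?_)
        rw [hA]
        ring
      obtain ⟨e, he, hge⟩ := ge ((p.xi : E3) 2)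
      have e4 : deriv g ((p.xi : E3) 2) * Xl d.G (pi' (X 2)) p
          ≤ -(C0⁻¹ ^ 2 * ((p.xi : E3) 2 * deriv g ((p.xi : E3) 2))) := by
        have h1 := mul_le_mul_of_nonneg_left (thin_sign hC hZ hp4) he
        rw [hge]
        linarith
      have e5 : 0 ≤ (p.xi : E3) 2 * deriv g ((p.xi : E3) 2) := by
        rw [hge]
        nlinarith [mul_nonneg he (mul_self_nonneg ((p.xi : E3) 2))]
      rw [Set.indicator_of_mem hp, e1]
      by_cases hq : p ∈ slab d 1 ∩ strip t l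
      · have z1 : Zf ζ p.x = 1 := by
          rw [Zf_apply hζs]
          refine s1 _ ?_
          rw [abs_div, abs_of_pos hρ, div_le_iff₀ hρ]
          exact hq.1
        have h2 := mul_le_mul_of_nonneg_left (gs _ hq.2.1 hq.2.2) (sq_nonneg C0⁻¹)
        rw [Set.indicator_of_mem hq, z1]
        simp only [X_apply] at h2
        linarith
      · rw [Set.indicator_of_notMem hq]
        have h2 : Zf ζ p.x * (deriv g ((p.xi : E3) 2) * Xl d.G (pi' (X 2)) p) ≤ 0 :=
          mul_nonpos_of_nonneg_of_nonpos (z01 _).1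
            (e4.trans (neg_nonpos.2 (mul_nonneg (sq_nonneg _) e5)))
        linarith
    · have hq : p ∉ slab d 1 ∩ strip t l := fun hq =>
        hp (le_trans hq.1 (show 1 * d.ρ ≤ 3 * d.ρ by linarith))
      rw [Set.indicator_of_notMem hp, Set.indicator_of_notMem hq]
      simp only [PP, Xl, aLL, aval, (out p hp).1, (out p hp).2, zero_mul, add_zero, mul_zero,
        Finset.sum_const_zero, sub_self, le_refl]
  have m3 := thin_meas_slab d 3
  have m1 := (thin_meas_slab d 1).inter (thin_meas_strip t l)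
  have i1 := integral_mono (thin_int (continuous_jet haS) μ)
    ((integrable_const B).indicator m3) hjet
  have i2 := integral_mono (thin_int (Sy_continuous (PP_mem j (odp u) haS)) μ)
    (((integrable_const A).indicator m3).sub ((integrable_const _).indicator m1)) hPP
  rw [integral_indicator_const _ m3, smul_eq_mul] at i1
  rw [integral_sub' ((integrable_const A).indicator m3) ((integrable_const _).indicator m1),
    integral_indicator_const _ m3, integral_indicator_const _ m1, smul_eq_mul, smul_eq_mul] at i2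
  have i3 := (abs_le.1 (hT a haS)).1
  have i4 := mul_le_mul_of_nonneg_left i1 (show (0 : ℝ) ≤ 1 / (m : ℝ) ^ 20 by positivity)
  have n3 : 0 ≤ μ.real (slab d 3) := measureReal_nonneg
  have i5 := mul_le_mul_of_nonneg_left hmB n3
  have i6 : μ.real (slab d 1 ∩ strip t l) * (C0⁻¹ ^ 2 * (1 / (10 * l)))
      ≤ μ.real (slab d 3) * (A + 1) := by nlinarith
  have i7 : μ.real (slab d 1 ∩ strip t l) = μ.real (slab d 1 ∩ strip t l)
      * (C0⁻¹ ^ 2 * (1 / (10 * l))) * (10 * l * C0 ^ 2) := by field_simp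
  rw [i7]
  calc _ ≤ μ.real (slab d 3) * (A + 1) * (10 * l * C0 ^ 2) :=
        mul_le_mul_of_nonneg_right i6 (by positivity)
    _ = l * (10 * C0 ^ 2 * (A + 1)) * μ.real (slab d 3) := by ring
    _ ≤ _ := mul_le_mul_of_nonneg_right l2 n3

end Pool.Agent.Lib.MP_2fa2a2_gt.PI
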