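import Pool.Agent.Lib.MP_2fa2a2_gt.PI.SMid

namespace Pool.Agent.Lib.MP_2fa2a2_gt.PI

open MeasureTheory Filter Topology

/-- invariant tests suffice -/
theorem uni_avg {h ε d : ℝ} {j m : ℕ} (hm : 0 < m) {f φ' y : Sm} (hf : f ∈ Zi m)
    (hφ : φ' ∈ Zi m) (hy : y ∈ Zi m) (hd : 0 ≤ d)
    (h0 : ∀ (k : E3 ≃ₗᵢ[ℝ] E3) f y φ, t0 j (act k f) (act k y) (act k φ) = t0 j f y φ)
    (h1 : ∀ (k : E3 ≃ₗᵢ[ℝ] E3) f y φ, tt j ε (act k f) (act k y) (act k φ) = tt j ε f y φ)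
    (hb : ∀ φ ∈ Zi m, |AA h j ε f φ' y φ| ≤ d * ‖φ‖) (φ : Sm) :
    |AA h j ε f φ' y φ| ≤ d * ‖φ‖ := by
  have hg : f + DI h j φ' ∈ Zi m := (Zi m).add_mem hf (fn_mem_Zi _ hφ)
  have hD : DD h j y ∈ Zi m := fn_mem_Zi _ hy
  rw [← form_avZ hm (AA h j ε f φ' y) (fun ψ => ?_) φ]
  · exact (hb _ (avZ_mem hm φ)).trans (mul_le_mul_of_nonneg_left (norm_avZ_le m φ) hd)
  · have e1 := h1 (rotZ (2 * Real.pi / m)) (f + DI h j φ') y ψ
    have e2 := h0 (rotZ (2 * Real.pi / m)) f y ψ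
    have e3 := tau_act (rotZ (2 * Real.pi / m)) f (DI h j ψ) (DD h j y)
    have e4 : DI h j (act (rotZ (2 * Real.pi / m)) ψ) = act (rotZ (2 * Real.pi / m)) (DI h j ψ) :=
      fn_act _ _ _
    rw [mem_Zi.1 hg, mem_Zi.1 hy] at e1
    rw [mem_Zi.1 hf, mem_Zi.1 hy] at e2
    rw [mem_Zi.1 hf, mem_Zi.1 hD, ← e4] at e3
    simp only [AA, LinearMap.sub_apply, LinearMap.add_apply, Lf_apply, e1, e2, e3]

theorem uni_DI {h : ℝ} (hh : 0 < h) (h1 : h ≤ 1) (j : ℕ) (φ : Sm) :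
    nrm 1 (2 * j) (DI h j φ) ≤ h⁻¹ ^ (2 * j) * ‖φ‖ := by
  have := Bd_DI hh h1 j 0 φ
  rwa [zero_add, nrm_zero le_rfl] at this

theorem uni_half {y : Sm} {γ : ℝ} (hy : ‖y‖ = 1) (h : nrm 1 (-1) y ≤ γ) :
    nrm 1 (-(1 / 2)) y ≤ √γ := by
  have := nrm_mid (lam := 1) le_rfl (-1) 0 y
  rw [nrm_zero le_rfl, hy, mul_one, show ((-1 : ℝ) + 0) / 2 = -(1 / 2) by norm_num] at this
  exact Real.le_sqrt_of_sq_le (this.trans h)

/-- the lower order part of the form is small on high frequencies -/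
theorem uni_low {h CA B : ℝ} {j : ℕ} (hh : 0 < h) (h1 : h ≤ 1) (hCA : 0 ≤ CA)
    (hA : ∀ f g y φ : Sm, y ∈ Ev →
      |2 * tau f g (DD h j y) - t0 j f y (DD h j g) - t0 j g y (DD h j f)|
        ≤ CA * nrm 1 (2 * j) f * nrm 1 (2 * j) g * nrm 1 (-(1 / 2)) y ∧
      |t0 j g y φ| ≤ CA * nrm 1 (2 * j) g * ‖y‖ * nrm 1 1 φ ∧
      |t0 j g y φ| ≤ CA * nrm 1 (2 * j) g * nrm 1 (-(1 / 2)) y * nrm 1 10 φ)
    {f y : Sm} (hf : nrm 1 (2 * j + 10) f ≤ B) (hy : y ∈ Ev) (φ : Sm) :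
    |Lf h j f y φ - t0 j f y φ| ≤ 2 * CA * B * h⁻¹ ^ (2 * j) * nrm 1 (-(1 / 2)) y * ‖φ‖ := by
  obtain ⟨a1, -, a2⟩ := hA f (DI h j φ) y (DD h j f) hy
  rw [DD_DI] at a1
  have b1 : nrm 1 (2 * j) f ≤ B := (nrm_mono le_rfl (by linarith) f).trans hf
  have b2 : nrm 1 10 (DD h j f) ≤ B := by
    have := Bd_DD hh.le h1 j 10 f
    rw [one_mul, add_comm] at this
    exact this.trans hf
  have b3 := uni_DI hh h1 j φ
  have n1 := nrm_nonneg 1 (-(1 / 2)) y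
  have n2 := nrm_nonneg 1 (2 * j) (DI h j φ)
  have n3 := nrm_nonneg 1 10 (DD h j f)
  have n4 := nrm_nonneg 1 (2 * j) f
  have hB : 0 ≤ B := n4.trans b1
  have c1 : CA * nrm 1 (2 * j) f * nrm 1 (2 * j) (DI h j φ) * nrm 1 (-(1 / 2)) y ≤
      CA * B * (h⁻¹ ^ (2 * j) * ‖φ‖) * nrm 1 (-(1 / 2)) y := by gcongr
  have c2 : CA * nrm 1 (2 * j) (DI h j φ) * nrm 1 (-(1 / 2)) y * nrm 1 10 (DD h j f) ≤
      CA * (h⁻¹ ^ (2 * j) * ‖φ‖) * nrm 1 (-(1 / 2)) y * B := by gcongr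
  have e : Lf h j f y φ - t0 j f y φ =
      (2 * tau f (DI h j φ) (DD h j y) - t0 j f y φ - t0 j (DI h j φ) y (DD h j f)) +
        t0 j (DI h j φ) y (DD h j f) := by
    rw [Lf_apply]
    ring
  rw [e]
  refine (abs_add_le _ _).trans ?_
  linarith

theorem uni_jet (μ : Measure Fm) (a : Fm → ℝ) : 0 ≤ ∫ p, jet a p ∂μ :=
  integral_nonneg fun _ => add_nonneg (abs_nonneg _) (Finset.sum_nonneg fun _ _ => abs_nonneg _)

/-- the cut off function kills the large part of `FF` -/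
theorem uni_cut {K : ℕ} {Bχ η1 η2 Cs : ℝ} {χ' F f fa : Sm} (h1 : Cb K 1 Bχ χ')
    (h2 : Cb K 1 η2 (χ' * R fa)) (h3 : Cb K 1 η1 (F - (2 : ℝ) • R f))
    (h4 : Cb K 1 (Cs * (2 * η1)) (R (f - fa))) (hs : 0 ≤ Cs) :
    Cb K 1 ((2 ^ K * (1 + 4 * Cs) + 2 + 2 * Cs) * (1 + Bχ) * (η1 + η2)) (χ' * F) := by
  have e : χ' * F = χ' * (F - (2 : ℝ) • R f) + (2 : ℝ) • (χ' * R (f - fa)) +
      (2 : ℝ) • (χ' * R fa) := by
    rw [map_sub, ← funk_two, ← funk_two, ← funk_two]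
    ring
  rw [e]
  refine (((h1.mul zero_le_one h3).add ((h1.mul zero_le_one h4).smul 2)).add (h2.smul 2)).mono
    zero_le_one le_rfl le_rfl ?_
  have n1 := h1.nonneg
  have n2 := h2.nonneg
  have n3 := h3.nonneg
  have n4 : (0 : ℝ) ≤ 2 ^ K := by positivity
  rw [abs_two]
  have : (2 ^ K * (1 + 4 * Cs) + 2 + 2 * Cs) * (1 + Bχ) * (η1 + η2) =
      2 ^ K * Bχ * η1 + 2 * (2 ^ K * Bχ * (Cs * (2 * η1))) + 2 * η2 +
        (2 ^ K * (1 + 4 * Cs) * (η1 + η2 + Bχ * η2) + 2 * (η1 + Bχ * (η1 + η2)) +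
          2 * Cs * (1 + Bχ) * (η1 + η2)) := by ring
  rw [this]
  exact le_add_of_nonneg_right (by positivity)

theorem uni (hA : ChainAStmt) (hB : ChainBStmt) (hC : ChainCStmt) (hH : HfStmt)
    (hM : MeasStmt) (hO : IdOStmt) (hE : IdEStmt) : UnifStmt := by
  obtain ⟨jA, hA⟩ := hA
  obtain ⟨jB, hB⟩ := hB
  obtain ⟨jC, hC⟩ := hC
  obtain ⟨jH, hH⟩ := hH
  obtain ⟨KO, hO⟩ := hO
  obtain ⟨KE, hE⟩ := hE
  obtain ⟨Cs, hCs, hs⟩ := tau_sob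
  refine ⟨jA + jB + jC + jH + (KO + KE) + 3, KO + KE, fun j hj => ?_⟩
  obtain ⟨CH, c, hCH, hH⟩ := hH j (by omega)
  obtain ⟨CO, hCO, hO⟩ := hO j
  obtain ⟨CE, hCE, hE⟩ := hE j
  obtain ⟨A, hAe⟩ : ∃ A : ℝ, A = 2 ^ (KO + KE) * (1 + 4 * Cs) + 2 + 2 * Cs := ⟨_, rfl⟩
  have hA0 : 0 ≤ A := by rw [hAe]; positivity
  have hA1 : 2 * Cs ≤ A := by
    have : (0 : ℝ) ≤ 2 ^ (KO + KE) * (1 + 4 * Cs) := by positivity
    linarith
  have hx : 0 ≤ (CO + CE) * A := by positivity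
  refine ⟨CH + (CO + CE) * A, c, by linarith, ?_⟩
  intro h m fl fa χ χ' M θ η1 η2 η Bχ hh h1 hm hfl hfa hM1 hη1 hinj hsm hχ hχ' hχχ hBχ hη2 hη hno
  obtain ⟨-, hA2, CA, hCA, hA3⟩ := hA j (by omega) h hh h1
  obtain ⟨hC1, -⟩ := hC j (by omega) h hh h1
  have nB := hBχ.nonneg
  have n2 := hη2.nonneg
  have n20 := nrm_nonneg 1 (2 * j + 20) (fa - fl)
  have n10 := nrm_nonneg 1 (2 * j + 10) fa
  have hH' := hH h m fl M θ (nrm 1 (2 * j + 20) (fa - fl) + η1) hh h1 hm hfl hM1 hinj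
    (le_trans (by gcongr; linarith) hsm)
  obtain ⟨CB, ε0, hCB, hε0, hB'⟩ := hB j (by omega) h hh h1 (nrm 1 (2 * j + 10) fa + 2 * η1)
  obtain ⟨η', hη'⟩ : ∃ η', η' = A * (1 + Bχ) * (η1 + η2) := ⟨_, rfl⟩
  obtain ⟨A1, hA1e⟩ : ∃ A1, A1 = 2 * CA * (nrm 1 (2 * j + 10) fa + η1) * h⁻¹ ^ (2 * j) := ⟨_, rfl⟩
  have hK : KO + KE ≤ 2 * j - 3 := by omega
  have hK' : ((KO + KE : ℕ) : ℝ) + 3 ≤ 2 * j := by
    have : KO + KE + 3 ≤ 2 * j := by omega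
    exact_mod_cast this
  by_contra hcon
  have step : ∀ γ : ℝ, 0 < γ → ∃ (ε : ℝ) (f y : Sm), 0 < ε ∧ ε ≤ γ ∧ Cb (KO + KE) 1 CB f ∧
      Cb (KO + KE) 1 CB (FF ε f) ∧ Cb (KO + KE) 1 (CB * ε) (FF ε f - (2 : ℝ) • R f) ∧ y ∈ Ev ∧
      ‖y‖ = 1 ∧ nrm 1 (-1) y ≤ γ ∧ (∀ φ, |tt j ε f y φ| ≤ (γ + A1 * √γ) * ‖φ‖) ∧
      Cb (KO + KE) 1 η' (f - fa) ∧ Cb (KO + KE) 1 η' (χ' * FF ε f) := by
    intro γ hγ
    obtain ⟨δH, hδH, hH2⟩ := hH' γ hγ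
    have hp : 0 < h⁻¹ ^ (2 * j) := by positivity
    obtain ⟨δ, hδ, d1, d2, d3, d4, d5⟩ : ∃ δ : ℝ, 0 < δ ∧ δ ≤ γ ∧ δ ≤ δH ∧ δ ≤ ε0 ∧
        h⁻¹ ^ (2 * j) * δ ≤ η1 ∧ CB * δ ≤ η1 := by
      refine ⟨min (min γ δH) (min ε0 (min (η1 / h⁻¹ ^ (2 * j)) (η1 / (CB + 1)))), by positivity,
        (min_le_left _ _).trans (min_le_left _ _), (min_le_left _ _).trans (min_le_right _ _),
        (min_le_right _ _).trans (min_le_left _ _), ?_, ?_⟩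
      · rw [← le_div_iff₀' hp]
        exact (min_le_right _ _).trans ((min_le_right _ _).trans (min_le_left _ _))
      · refine (mul_le_mul_of_nonneg_left ((min_le_right _ _).trans ((min_le_right _ _).trans
          (min_le_right _ _))) hCB).trans ?_
        rw [← mul_div_assoc, div_le_iff₀ (by positivity)]
        nlinarith
    have hcon' : ¬ ∀ (ε : ℝ) (f φ' y : Sm) (N : ℕ) (d : ℝ), 0 < ε → ε ≤ δ → f ∈ Zi m →
        nrm 1 (2 * j + 10) (f - fa) ≤ η1 → φ' ∈ Zi m → ‖φ'‖ ≤ δ → y ∈ Ev → y ∈ Zi m →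
        y ∈ Poly N → 0 ≤ d → (∀ φ ∈ Zi m, |AA h j ε f φ' y φ| ≤ d * ‖φ‖) → ‖y‖ ≤ δ⁻¹ * d :=
      fun hh' => hcon ⟨δ⁻¹, δ, by positivity, hδ, hh'⟩
    push Not at hcon'
    obtain ⟨ε, f, φ', y, N, d, hε, hεδ, hf, hff, hφ', hφδ, hy, hyZ, hyP, hd, hb, hlt⟩ := hcon'
    have hy0 : 0 < ‖y‖ := lt_of_le_of_lt (by positivity) hlt
    have hb' := uni_avg hm hf hφ' hyZ hd hA2 (fun k f y φ => (hC1 k ε 0 f y φ).1) hb
    have hn : ‖‖y‖⁻¹ • y‖ = 1 := by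
      rw [norm_smul, norm_inv, norm_norm, inv_mul_cancel₀ hy0.ne']
    have hb2 : ∀ φ, |AA h j ε f φ' (‖y‖⁻¹ • y) φ| ≤ δ * ‖φ‖ := fun φ => by
      rw [map_smul, LinearMap.smul_apply, smul_eq_mul, abs_mul, abs_of_pos (inv_pos.2 hy0),
        inv_mul_le_iff₀ hy0]
      refine (hb' φ).trans ?_
      rw [← mul_assoc]
      refine mul_le_mul_of_nonneg_right ?_ (norm_nonneg _)
      rw [inv_mul_lt_iff₀ hδ] at hlt
      linarith
    have hyE : ‖y‖⁻¹ • y ∈ Ev := Ev.smul_mem _ hy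
    have t1 : nrm 1 (2 * j + 10) (f - fl) ≤ nrm 1 (2 * j + 20) (fa - fl) + η1 := by
      have := nrm_add_le 1 (2 * j + 10) (f - fa) (fa - fl)
      have := nrm_mono (lam := 1) le_rfl (show (2 * j + 10 : ℝ) ≤ 2 * j + 20 by linarith) (fa - fl)
      rw [show f - fl = f - fa + (fa - fl) by abel]
      linarith
    have hγ' := hH2 ε f φ' _ N hε (hεδ.trans d2) hf t1 (hφδ.trans d2) hyE
      ((Zi m).smul_mem _ hyZ) ((Poly N).smul_mem _ hyP) hn.le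
      (fun φ => (hb2 φ).trans (mul_le_mul_of_nonneg_right d2 (norm_nonneg _)))
    have t2 : nrm 1 (2 * j + 10) f ≤ nrm 1 (2 * j + 10) fa + η1 := by
      have := nrm_add_le 1 (2 * j + 10) fa (f - fa)
      rw [add_sub_cancel] at this
      linarith
    have t3 : nrm 1 (2 * j) (DI h j φ') ≤ η1 :=
      (uni_DI hh h1 j φ').trans ((mul_le_mul_of_nonneg_left hφδ hp.le).trans d4)
    have hle : (2 * j : ℝ) ≤ 2 * j + 10 := by linarith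
    have t4 : nrm 1 (2 * j) (f + DI h j φ') ≤ nrm 1 (2 * j + 10) fa + 2 * η1 := by
      have := nrm_add_le 1 (2 * j) f (DI h j φ')
      have := nrm_mono (lam := 1) le_rfl hle f
      linarith
    have t5 : nrm 1 (2 * j) (f + DI h j φ' - fa) ≤ 2 * η1 := by
      have := nrm_add_le 1 (2 * j) (f - fa) (DI h j φ')
      have := nrm_mono (lam := 1) le_rfl hle (f - fa)
      rw [show f + DI h j φ' - fa = f - fa + DI h j φ' by abel]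
      linarith
    obtain ⟨u1, u2, u3, -⟩ := hB' ε 0 (f + DI h j φ') hε (hεδ.trans d3)
      (by rw [abs_zero]; positivity) t4
    obtain ⟨v1, v2⟩ := hs (KO + KE) (2 * j) (f + DI h j φ' - fa) hK'
    have w : Cs * nrm 1 (2 * j) (f + DI h j φ' - fa) ≤ Cs * (2 * η1) :=
      mul_le_mul_of_nonneg_left t5 hCs
    refine ⟨ε, f + DI h j φ', ‖y‖⁻¹ • y, hε, hεδ.trans d1, u1.mono zero_le_one hK le_rfl le_rfl,
      u2.mono zero_le_one hK le_rfl le_rfl, u3.mono zero_le_one hK le_rfl le_rfl, hyE, hn, hγ',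
      fun φ => ?_, v1.mono zero_le_one le_rfl le_rfl (w.trans ?_), ?_⟩
    · have x1 := uni_low hh h1 hCA hA3 t2 hyE φ
      rw [← hA1e] at x1
      have hA10 : 0 ≤ A1 := by rw [hA1e]; positivity
      have x2 : A1 * nrm 1 (-(1 / 2)) (‖y‖⁻¹ • y) * ‖φ‖ ≤ A1 * √γ * ‖φ‖ := by
        have := uni_half hn hγ'
        gcongr
      have x3 : δ * ‖φ‖ ≤ γ * ‖φ‖ := mul_le_mul_of_nonneg_right d1 (norm_nonneg _)
      have e : tt j ε (f + DI h j φ') (‖y‖⁻¹ • y) φ = AA h j ε f φ' (‖y‖⁻¹ • y) φ -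
          (Lf h j f (‖y‖⁻¹ • y) φ - t0 j f (‖y‖⁻¹ • y) φ) := by
        simp only [AA, LinearMap.sub_apply, LinearMap.add_apply]
        ring
      rw [e]
      refine (abs_sub _ _).trans ?_
      have := hb2 φ
      linarith
    · rw [hη']
      calc Cs * (2 * η1) = 2 * Cs * 1 * η1 := by ring
        _ ≤ A * (1 + Bχ) * (η1 + η2) := by gcongr <;> linarith
    · rw [hη', hAe]
      exact uni_cut hBχ hη2 (u3.mono zero_le_one hK le_rfl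
        ((mul_le_mul_of_nonneg_left hεδ hCB).trans d5)) (v2.mono zero_le_one le_rfl le_rfl w) hCs
  choose ε f y p1 p2 p3 p4 p5 p6 p7 p8 p9 p10 p11 using
    fun n : ℕ => step (1 / ((n : ℝ) + 1)) Nat.one_div_pos_of_nat
  have lim : Tendsto (fun n : ℕ => 1 / ((n : ℝ) + 1)) (hyperfilter ℕ) (𝓝 0) :=
    tendsto_one_div_add_atTop_nhds_zero_nat.mono_left Nat.hyperfilter_le_atTop
  have hfy : Tendsto (fun n => nrm 1 (-1) (y n)) (hyperfilter ℕ) (𝓝 0) :=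
    squeeze_zero (fun n => nrm_nonneg _ _ _) p8 lim
  obtain ⟨μ, hμ, hrep⟩ := hM y (hyperfilter ℕ) p6 p7 hfy
  have hSq : ∀ K ≤ KO + KE, Sq K j CB ε f y (hyperfilter ℕ) μ := fun K hK =>
    { prob := hμ
      pos := p1
      lim := squeeze_zero (fun n => (p1 n).le) p2 lim
      bf := fun n => (p3 n).mono zero_le_one hK le_rfl le_rfl
      bF := fun n => (p4 n).mono zero_le_one hK le_rfl le_rfl
      bF' := fun n => (p5 n).mono zero_le_one hK le_rfl le_rfl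
      ev := p6
      one := p7
      hf := hfy
      eqn := ⟨_, by simpa using lim.add (lim.sqrt.const_mul A1), p9⟩
      rep := hrep }
  have q0 : 0 ≤ η' := (p10 0).nonneg
  have q1 : (CO + CE) * η' ≤ η := by
    refine le_trans ?_ hη
    rw [hη', ← mul_assoc, ← mul_assoc]
    gcongr
    linarith
  refine hno μ hμ (fun a ha => ?_) (fun a ha hχa => ?_)
  · refine (hO CB ε f y _ μ (hSq KO (by omega)) fa η'
      (fun n => (p10 n).mono zero_le_one (by omega) le_rfl le_rfl) a ha).trans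
      (mul_le_mul_of_nonneg_right ?_ (uni_jet μ a))
    nlinarith [mul_nonneg hCE q0]
  · refine (hE CB ε f y _ μ (hSq KE (by omega)) fa χ χ' η' hχ hχ' hχχ
      (fun n => (p10 n).mono zero_le_one (by omega) le_rfl le_rfl)
      (fun n => (p11 n).mono zero_le_one (by omega) le_rfl le_rfl) a ha hχa).trans
      (mul_le_mul_of_nonneg_right ?_ (uni_jet μ a))
    nlinarith [mul_nonneg hCO q0]

end Pool.Agent.Lib.MP_2fa2a2_gt.PI
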