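import Pool.Agent.Lib.MP_2fa2a2_gt.PI.SPull

/-! The filtered algebra generated by functions, rotation fields and the two resolvents. -/

namespace Pool.Agent.Lib.MP_2fa2a2_gt.PI

/-- operators of integer order `r` -/
inductive Wo : ℤ → (Sm →ₗ[ℝ] Sm) → Prop
  | ml (φ : Sm) : Wo 0 (ml φ)
  | L (a : Fin 3) : Wo 1 (L a)
  | Sh : Wo (-2) (Sh 1)
  | Dp : Wo (-2) Dp
  | P (r : ℤ) : Wo r (P 1)
  | add {r A B} : Wo r A → Wo r B → Wo r (A + B)
  | smul (c : ℝ) {r A} : Wo r A → Wo r (c • A)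
  | comp {r s A B} : Wo r A → Wo s B → Wo (r + s) (A ∘ₗ B)
  | mono {r s A} : Wo r A → r ≤ s → Wo s A

namespace Wo

variable {r s t : ℤ} {A B : Sm →ₗ[ℝ] Sm}

/-- the Sobolev bounds; this is `Ord r A` -/
theorem bd (h : Wo r A) : ∀ n : ℤ, ∃ C, 0 ≤ C ∧ Bd 1 (n / 2 + (r : ℝ)) (n / 2) C A := by
  induction h with
  | ml φ =>
    intro n
    obtain ⟨C, hC, h⟩ := Bd_ml n.natAbs
    obtain ⟨B, hB, h'⟩ := exists_Cb n.natAbs φ
    exact ⟨C * B, by positivity, by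
      simpa using h n le_rfl h' (abs_le.2 ⟨by omega, by omega⟩)⟩
  | L a => exact fun n => ⟨1, zero_le_one, by simpa using Bd_L le_rfl (n / 2) a⟩
  | Sh =>
    exact fun n => ⟨1, zero_le_one, (Bd_Sh_one (n / 2 - 2)).mono le_rfl zero_le_one
      (by push_cast; linarith) (by linarith) le_rfl⟩
  | Dp =>
    exact fun n => ⟨2, zero_le_two, (Bd_Dp (n / 2 - 2)).mono le_rfl zero_le_two
      (by push_cast; linarith) (by linarith) le_rfl⟩
  | P r => exact fun n => Bd_P 1 _ _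
  | add _ _ ih ih' =>
    intro n
    obtain ⟨C, hC, h⟩ := ih n
    obtain ⟨C', hC', h'⟩ := ih' n
    exact ⟨C + C', by positivity, h.add h'⟩
  | smul c _ ih =>
    intro n
    obtain ⟨C, hC, h⟩ := ih n
    exact ⟨|c| * C, by positivity, h.smul c⟩
  | @comp r s A B _ _ ih ih' =>
    intro n
    obtain ⟨C, hC, h⟩ := ih n
    obtain ⟨C', hC', h'⟩ := ih' (n + 2 * r)
    refine ⟨C * C', by positivity, h.comp hC (h'.mono le_rfl hC' ?_ ?_ le_rfl)⟩ <;>
      push_cast <;> linarith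
  | @mono r s A _ hrs ih =>
    intro n
    obtain ⟨C, hC, h⟩ := ih n
    have : (r : ℝ) ≤ s := by exact_mod_cast hrs
    exact ⟨C, hC, h.mono le_rfl hC (by linarith) le_rfl le_rfl⟩

theorem of_eq (h : Wo r A) (e : ∀ y, B y = A y) : Wo r B := by
  rwa [show B = A from LinearMap.ext e]

theorem zero (r : ℤ) : Wo r 0 := by simpa using (P r).smul 0

theorem neg (h : Wo r A) : Wo r (-A) := by simpa using h.smul (-1)

theorem sub (h : Wo r A) (h' : Wo r B) : Wo r (A - B) := by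
  rw [sub_eq_add_neg]; exact h.add h'.neg

theorem comp' (h : Wo r A) (h' : Wo s B) (ht : r + s ≤ t) : Wo t (A ∘ₗ B) := (h.comp h').mono ht

theorem sum {ι : Type*} (u : Finset ι) {T : ι → Sm →ₗ[ℝ] Sm} (h : ∀ i ∈ u, Wo r (T i)) :
    Wo r (∑ i ∈ u, T i) :=
  Finset.sum_induction T (Wo r) (fun _ _ => add) (zero r) h

theorem id : Wo 0 LinearMap.id := (ml 1).of_eq fun y => by simp

theorem D (a : Fin 3) : Wo 1 (D a) :=
  ((ml _).comp' (L _) le_rfl).sub ((ml _).comp' (L _) le_rfl)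

theorem lap : Wo 2 lap := sum _ fun a _ => (L a).comp' (L a) le_rfl

theorem Dop : Wo 2 Dop := lap.add ((id.mono (by omega)).smul 2)

theorem H (a b : Fin 3) : Wo 2 (H a b) :=
  (D a).comp' ((D b).add ((ml _).mono (by omega))) le_rfl

theorem Hs (a b : Fin 3) : Wo 2 (Hs a b) :=
  (((ml _).mono (by omega)).sub (D b)).comp' (((ml _).mono (by omega)).sub (D a)) le_rfl

theorem Xi (a b : Fin 3) : Wo 0 (Xi a b) := (H a b).comp' Dp le_rfl

theorem Xs (a b : Fin 3) : Wo 0 (Xs a b) := Dp.comp' (Hs a b) le_rfl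

theorem Tm (b c : Fin 3) : Wo 0 (Tm b c) := ((L b).comp' ((L c).comp Sh) le_rfl).neg

end Wo

theorem cm_apply (A B : Sm →ₗ[ℝ] Sm) (y : Sm) : cm A B y = A (B y) - B (A y) := rfl

theorem cm_swap (A B : Sm →ₗ[ℝ] Sm) : cm A B = -cm B A := (neg_sub _ _).symm

theorem cm_add_right (A B C : Sm →ₗ[ℝ] Sm) : cm A (B + C) = cm A B + cm A C :=
  LinearMap.ext fun y => by
    simp only [cm_apply, LinearMap.add_apply, map_add]; abel

theorem cm_smul_right (c : ℝ) (A B : Sm →ₗ[ℝ] Sm) : cm A (c • B) = c • cm A B :=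
  LinearMap.ext fun y => by
    simp only [cm_apply, LinearMap.smul_apply, map_smul, smul_sub]

theorem cm_comp_right (A B C : Sm →ₗ[ℝ] Sm) : cm A (B ∘ₗ C) = cm A B ∘ₗ C + B ∘ₗ cm A C :=
  LinearMap.ext fun y => by
    simp only [cm_apply, LinearMap.add_apply, LinearMap.comp_apply, map_sub]; abel

theorem cm_L_ml (a : Fin 3) (φ : Sm) : cm (L a) (ml φ) = ml (L a φ) :=
  LinearMap.ext fun y => by
    simp only [cm_apply, LinearMap.mulLeft_apply, L_mul]; abel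

theorem cm_L_L (c a : Fin 3) : cm (L c) (L a) = ∑ d, ev c a d • L d :=
  LinearMap.ext fun y => by
    simp only [cm_apply, L_L c a, LinearMap.sum_apply, LinearMap.smul_apply]; abel

theorem cm_L_fn (a : Fin 3) (c : ℕ → ℝ) : cm (L a) (fn c) = 0 :=
  LinearMap.ext fun y => by simp only [cm_apply, fn_L, sub_self, LinearMap.zero_apply]

theorem cm_Sh (A : Sm →ₗ[ℝ] Sm) : cm (Sh 1) A = Sh 1 ∘ₗ cm lap A ∘ₗ Sh 1 :=
  LinearMap.ext fun y => by
    have h1 := Sh_spec 1 y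
    have h2 := Sh_spec' 1 (A (Sh 1 y))
    rw [one_pow, one_smul] at h1 h2
    have h3 : A y = A (Sh 1 y) - A (lap (Sh 1 y)) := by rw [← map_sub, h1]
    rw [map_sub] at h2
    simp only [cm_apply, LinearMap.comp_apply, map_sub, h3]
    linear_combination h2

theorem cm_Dp (A : Sm →ₗ[ℝ] Sm) :
    cm Dp A = Dp ∘ₗ A ∘ₗ P 1 - P 1 ∘ₗ A ∘ₗ Dp - Dp ∘ₗ cm lap A ∘ₗ Dp :=
  LinearMap.ext fun y => by
    have h0 : cm lap A (Dp y) = Dop (A (Dp y)) - A (Dop (Dp y)) := by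
      simp only [cm_apply, Dop, LinearMap.add_apply, LinearMap.smul_apply, LinearMap.id_apply,
        map_add, map_smul]
      abel
    simp only [LinearMap.sub_apply, LinearMap.comp_apply, h0, map_sub, Dp_Dop, Dop_Dp]
    rw [cm_apply]
    abel

namespace Wo

variable {r s t : ℤ} {A B : Sm →ₗ[ℝ] Sm}

/-- reduction of commutators to the generators -/
theorem cm_gen (hA : Wo r A) (h1 : ∀ φ, Wo (r - 1) (cm A (PI.ml φ)))
    (h2 : ∀ a, Wo r (cm A (PI.L a))) (h3 : Wo (r - 3) (cm A (PI.Sh 1)))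
    (h4 : Wo (r - 3) (cm A PI.Dp)) (h : Wo s B) : Wo (r + s - 1) (cm A B) := by
  induction h with
  | ml φ => exact (h1 φ).mono (by omega)
  | L a => exact (h2 a).mono (by omega)
  | Sh => exact h3.mono (by omega)
  | Dp => exact h4.mono (by omega)
  | P s => exact (hA.comp' (P (s - 1)) (by omega)).sub ((P (s - 1)).comp' hA (by omega))
  | add _ _ ih ih' => rw [cm_add_right]; exact ih.add ih'
  | smul c _ ih => rw [cm_smul_right]; exact ih.smul c
  | comp h h' ih ih' =>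
    rw [cm_comp_right]
    exact (ih.comp' h' (by omega)).add (h.comp' ih' (by omega))
  | mono _ hrs ih => exact ih.mono (by omega)

theorem cm_symm (h : Wo r (cm A B)) : Wo r (cm B A) := by rw [cm_swap]; exact h.neg

theorem cm_L (a : Fin 3) (h : Wo s B) : Wo s (cm (PI.L a) B) := by
  refine (cm_gen (L a) (fun φ => ?_) (fun b => ?_) ?_ ?_ h).mono (by omega)
  · rw [cm_L_ml]; exact ml _
  · rw [cm_L_L]; exact sum _ fun d _ => (L d).smul _
  · rw [PI.Sh, cm_L_fn]; exact zero _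
  · rw [PI.Dp, cm_L_fn]; exact zero _

theorem cm_lap (h : Wo s B) : Wo (s + 1) (cm PI.lap B) := by
  refine (sum Finset.univ fun a _ => ((h.cm_L a).comp' (L a) le_rfl).add
    ((L a).comp' (h.cm_L a) (by omega))).of_eq fun y => ?_
  simp only [cm_apply, lap_def, map_sum, LinearMap.sum_apply, LinearMap.add_apply,
    LinearMap.comp_apply, map_sub, ← Finset.sum_sub_distrib]
  exact Finset.sum_congr rfl fun a _ => by abel

theorem cm_Sh (h : Wo s B) : Wo (s - 3) (cm (PI.Sh 1) B) := by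
  rw [PI.cm_Sh]; exact Sh.comp' (h.cm_lap.comp Sh) (by omega)

theorem cm_Dp (h : Wo s B) : Wo (s - 3) (cm PI.Dp B) := by
  rw [PI.cm_Dp]
  exact ((Dp.comp' (h.comp (P (-1))) (by omega)).sub ((P (-1)).comp' (h.comp Dp) (by omega))).sub
    (Dp.comp' (h.cm_lap.comp Dp) (by omega))

theorem cm_ml (φ : Sm) (h : Wo s B) : Wo (s - 1) (cm (PI.ml φ) B) := by
  refine (cm_gen (ml φ) (fun ψ => ?_) (fun b => ((ml φ).cm_L b).cm_symm)
    (ml φ).cm_Sh.cm_symm (ml φ).cm_Dp.cm_symm h).mono (by omega)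
  exact (zero _).of_eq fun y => by
    simp only [cm_apply, LinearMap.mulLeft_apply, LinearMap.zero_apply]; ring

/-- commutators lower the order by one -/
theorem cm (h : Wo r A) (h' : Wo s B) : Wo (r + s - 1) (cm A B) :=
  cm_gen h (fun φ => (h.cm_ml φ).cm_symm) (fun a => (h.cm_L a).cm_symm) h.cm_Sh.cm_symm
    h.cm_Dp.cm_symm h'

theorem cm' (h : Wo r A) (h' : Wo s B) (ht : r + s - 1 ≤ t) : Wo t (PI.cm A B) :=
  (h.cm h').mono ht

theorem H_sub (a b : Fin 3) : Wo 1 (PI.H a b - PI.D a ∘ₗ PI.D b) :=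
  ((D a).comp' (ml (X b)) le_rfl).of_eq fun y => by
    simp only [LinearMap.sub_apply, LinearMap.comp_apply, H_def, map_add, LinearMap.mulLeft_apply]
    abel

theorem Hs_sub (a b : Fin 3) : Wo 1 (PI.Hs a b - PI.D a ∘ₗ PI.D b) :=
  ((((ml (3 * X b)).comp' (((ml (2 * X a)).mono (by omega)).sub (D a)) le_rfl).sub
    ((D b).comp' (ml (2 * X a)) le_rfl)).add ((D b).cm' (D a) le_rfl)).of_eq fun y => by
    simp only [PI.Hs, LinearMap.sub_apply, LinearMap.add_apply, LinearMap.comp_apply, map_sub,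
      cm_apply]
    abel

theorem Xi_sub (a b : Fin 3) : Wo (-1) (PI.Xi a b - PI.D a ∘ₗ PI.D b ∘ₗ PI.Dp) :=
  ((H_sub a b).comp' Dp le_rfl).of_eq fun _ => rfl

theorem Xi_sub_Xs (a b : Fin 3) : Wo (-1) (PI.Xi a b - PI.Xs a b) :=
  ((Dp.comp' ((H_sub a b).sub (Hs_sub a b)) le_rfl).sub ((H a b).cm_Dp.mono le_rfl)).of_eq
    fun y => by
      simp only [PI.Xi, PI.Xs, LinearMap.sub_apply, LinearMap.comp_apply, map_sub, cm_apply]
      abel

theorem Dp_add_Sh : Wo (-4) (PI.Dp + PI.Sh 1) :=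
  (((Dp.comp' Sh le_rfl).smul 3).add ((P (-2)).comp' Sh le_rfl)).of_eq fun y => by
    have h1 := Sh_spec 1 y
    have h2 := Dp_Dop (PI.Sh 1 y)
    rw [one_pow, one_smul] at h1
    have h3 : PI.Dp y = PI.Dp (PI.Sh 1 y) - PI.Dp (PI.lap (PI.Sh 1 y)) := by rw [← map_sub, h1]
    simp only [PI.Dop, LinearMap.add_apply, LinearMap.smul_apply, LinearMap.id_apply, map_add,
      map_smul] at h2
    simp only [LinearMap.add_apply, LinearMap.smul_apply, LinearMap.comp_apply, h3]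
    linear_combination (exp := 1) (-1 : Sm) * h2
      + (show (3 : ℝ) • PI.Dp (PI.Sh 1 y) = PI.Dp (PI.Sh 1 y) + (2 : ℝ) • PI.Dp (PI.Sh 1 y) by
        module).symm

end Wo

/-- the word with the symbol of `Tm b c` -/
noncomputable def TmW (b c : Fin 3) : Sm →ₗ[ℝ] Sm :=
  ml (X (b + 1) * X (c + 1)) ∘ₗ Xi (b + 2) (c + 2) + (-1 : ℝ) • (ml (X (b + 2) * X (c + 1)) ∘ₗ
    Xi (b + 1) (c + 2)) + (-1 : ℝ) • (ml (X (b + 1) * X (c + 2)) ∘ₗ Xi (b + 2) (c + 1))
    + ml (X (b + 2) * X (c + 2)) ∘ₗ Xi (b + 1) (c + 1)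

theorem Wo.Tm_sub (b c : Fin 3) : Wo (-1) (PI.Tm b c - TmW b c) := by
  have g : ∀ p a e, Wo (-1) (PI.ml p ∘ₗ PI.D a ∘ₗ PI.ml (X e) ∘ₗ PI.Dp) := fun p a e =>
    (ml p).comp' ((D a).comp ((ml _).comp Dp)) le_rfl
  have g' : ∀ p a, Wo (-1) (PI.ml p ∘ₗ PI.D a ∘ₗ PI.Dp) := fun p a =>
    (ml p).comp' ((D a).comp Dp) le_rfl
  refine (((((((g' (PI.L b (X (c + 1))) (c + 2)).sub (g' (PI.L b (X (c + 2))) (c + 1))).sub
    (g (X (b + 1) * X (c + 1)) (b + 2) (c + 2))).add (g (X (b + 2) * X (c + 1)) (b + 1) (c + 2))).add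
    (g (X (b + 1) * X (c + 2)) (b + 2) (c + 1))).sub (g (X (b + 2) * X (c + 2)) (b + 1) (c + 1))).sub
    ((L b).comp' ((L c).comp Dp_add_Sh) (by omega))).of_eq fun y => ?_
  have e : PI.L b (PI.L c (PI.Dp y)) = PI.L b (X (c + 1)) * PI.D (c + 2) (PI.Dp y)
      + X (c + 1) * (X (b + 1) * PI.D (b + 2) (PI.D (c + 2) (PI.Dp y))
        - X (b + 2) * PI.D (b + 1) (PI.D (c + 2) (PI.Dp y)))
      - (PI.L b (X (c + 2)) * PI.D (c + 1) (PI.Dp y)
      + X (c + 2) * (X (b + 1) * PI.D (b + 2) (PI.D (c + 1) (PI.Dp y))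
        - X (b + 2) * PI.D (b + 1) (PI.D (c + 1) (PI.Dp y)))) := by
    rw [L_eq_D c, map_sub, L_mul, L_mul, L_eq_D b (PI.D (c + 2) _), L_eq_D b (PI.D (c + 1) _)]
  simp only [PI.Tm, TmW, PI.Xi, H_def, LinearMap.sub_apply, LinearMap.add_apply,
    LinearMap.comp_apply, LinearMap.neg_apply, LinearMap.mulLeft_apply, map_add, neg_smul, one_smul,
    e]
  ring

end Pool.Agent.Lib.MP_2fa2a2_gt.PI
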