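import Pool.Agent.Lib.MP_2fa2a2_gt.PI.SFm
import Pool.Agent.Lib.MP_2fa2a2_gt.PI.WordX

namespace Pool.Agent.Lib.MP_2fa2a2_gt.PI

theorem Wo.ord {r : ℤ} {A : Sm →ₗ[ℝ] Sm} (h : Wo r A) : Ord r A := h.bd

theorem Wo.ord0 {A : Sm →ₗ[ℝ] Sm} (h : Wo 0 A) : Ord 0 A := by simpa using h.ord

theorem Wo.ord1 {A : Sm →ₗ[ℝ] Sm} (h : Wo (-1) A) : Ord (-1) A := by simpa using h.ord

theorem Wd.wo {A : Sm →ₗ[ℝ] Sm} {α : Fm → ℝ} (h : Wd A α) : Wo 0 A := by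
  induction h with
  | ml φ => exact Wo.ml φ
  | xi a b => exact Wo.Xi a b
  | xs a b => exact Wo.Xs a b
  | add _ _ ih ih' => exact ih.add ih'
  | smul r _ ih => exact ih.smul r
  | comp _ _ ih ih' => exact ih.comp' ih' le_rfl

theorem Wd.mem {A : Sm →ₗ[ℝ] Sm} {α : Fm → ℝ} (h : Wd A α) : α ∈ Sy := by
  induction h with
  | ml φ => exact px_mem φ
  | xi a b => exact pi'_mem _
  | xs a b => exact pi'_mem _
  | add _ _ ih ih' => exact Sy.add_mem ih ih'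
  | smul r _ ih => exact Sy.smul_mem ih r
  | comp _ _ ih ih' => exact Sy.mul_mem ih ih'

theorem word_ngi (a b : Fin 3) : pi' (X a * X b) ∘ ngi = pi' (X a * X b) := by
  funext p
  show (-(p.xi : E3)) a * (-(p.xi : E3)) b = (p.xi : E3) a * (p.xi : E3) b
  simp

theorem Wd.ngi {A : Sm →ₗ[ℝ] Sm} {α : Fm → ℝ} (h : Wd A α) : α ∘ ngi = α := by
  induction h with
  | ml φ => rfl
  | xi a b => exact word_ngi a b
  | xs a b => exact word_ngi a b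
  | add _ _ ih ih' => exact (Pi.add_comp _ _ _).trans (by rw [ih, ih'])
  | smul r _ ih => exact (Pi.smul_comp _ _ _).trans (by rw [ih])
  | comp _ _ ih ih' => exact (Pi.mul_comp _ _ _).trans (by rw [ih, ih'])

theorem word_inner_Xi (a b : Fin 3) (φ ψ : Sm) :
    inner ℝ (Xi a b φ) ψ = inner ℝ φ (Xs a b ψ) :=
  (inner_H a b _ _).trans (inner_fn _ _ _)

theorem word_inner_Xs (a b : Fin 3) (φ ψ : Sm) :
    inner ℝ (Xs a b φ) ψ = inner ℝ φ (Xi a b ψ) := by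
  rw [real_inner_comm, ← word_inner_Xi, real_inner_comm]

theorem Wd.adj {A : Sm →ₗ[ℝ] Sm} {α : Fm → ℝ} (h : Wd A α) :
    ∃ A', Wd A' α ∧ ∀ φ ψ, inner ℝ (A φ) ψ = inner ℝ φ (A' ψ) := by
  induction h with
  | ml φ => exact ⟨_, Wd.ml φ, inner_mul φ⟩
  | xi a b => exact ⟨_, Wd.xs a b, word_inner_Xi a b⟩
  | xs a b => exact ⟨_, Wd.xi a b, word_inner_Xs a b⟩
  | add _ _ ih ih' =>
    obtain ⟨A', h1, h2⟩ := ih
    obtain ⟨B', h3, h4⟩ := ih'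
    exact ⟨_, h1.add h3, fun φ ψ => by
      simp only [LinearMap.add_apply, inner_add_left, inner_add_right, h2, h4]⟩
  | smul r _ ih =>
    obtain ⟨A', h1, h2⟩ := ih
    exact ⟨_, h1.smul r, fun φ ψ => by
      simp only [LinearMap.smul_apply, real_inner_smul_left, real_inner_smul_right, h2]⟩
  | comp _ _ ih ih' =>
    obtain ⟨A', h1, h2⟩ := ih
    obtain ⟨B', h3, h4⟩ := ih'
    exact ⟨B' ∘ₗ A', by rw [mul_comm]; exact h3.comp h1, fun φ ψ => by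
      simp only [LinearMap.comp_apply, h2, h4]⟩

theorem word_mul_Ev {φ ψ : Sm} (h : φ ∈ Ev) (h' : ψ ∈ Ev) : φ * ψ ∈ Ev := by
  rw [mem_Ev] at *
  rw [map_mul, h, h']

theorem word_one_Ev : (1 : Sm) ∈ Ev := map_one ant

theorem word_XX_Ev (a b : Fin 3) : X a * X b ∈ Ev := by
  rw [mem_Ev, map_mul, ant_X, ant_X, neg_mul_neg]

theorem word_Xi_R (a b : Fin 3) (e : Sm) : Xi a b (R e) = R (X a * X b * e) := (R_XX a b e).symm

theorem word_R_Xs (a b : Fin 3) (f : Sm) : R (Xs a b f) = X a * X b * R f :=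
  ext_inner_left ℝ fun e => by
    rw [← tau_inner_R, ← word_inner_Xi, word_Xi_R, tau_inner_R, inner_mul]

theorem word_Xs_Ev (a b : Fin 3) {f : Sm} (h : f ∈ Ev) : Xs a b f ∈ Ev :=
  fn_mem_Ev _ (show ant (Hs a b f) = Hs a b f by rw [ant_Hs, mem_Ev.1 h])

theorem word_Xs_Ri (a b : Fin 3) {e : Sm} (h : e ∈ Ev) :
    Xs a b (Ri e) = Ri (X a * X b * e) := by
  rw [← evp_of_Ev (word_Xs_Ev a b (Ri_mem_Ev e)), ← Ri_R, word_R_Xs, R_Ri, evp_of_Ev h]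

/-- the two words attached to a function of the direction -/
def WordG (ψ : Sm) : Prop := ∃ A A', Wd A (pi' ψ) ∧ Wd A' (pi' ψ) ∧
  (∀ y ∈ Ev, A y = R (ψ * Ri y) ∧ A' y = Ri (ψ * R y)) ∧
  ∀ K δ, (∀ G, Gen G → Eg K δ G) → (∀ G G', Eg K δ G → Eg K δ G' → Eg K δ (G ∘ₗ G')) →
    (∀ G G', Eg K δ G → Eg K δ G' → Eg K δ (G + G')) →
    (∀ (r : ℝ) G, Eg K δ G → Eg K δ (r • G)) → Eg K δ A ∧ Eg K δ A'

theorem wordG_one : WordG 1 :=
  ⟨ml 1, ml 1, Wd.ml 1, Wd.ml 1, fun y hy => by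
    simp only [LinearMap.mulLeft_apply, one_mul, R_Ri, Ri_R, evp_of_Ev hy, and_self],
    fun _ _ h _ _ _ => ⟨h _ (Or.inl ⟨1, rfl⟩), h _ (Or.inl ⟨1, rfl⟩)⟩⟩

theorem WordG.smul {ψ : Sm} (h : WordG ψ) (r : ℝ) : WordG (r • ψ) := by
  obtain ⟨A, A', h1, h2, h3, h4⟩ := h
  refine ⟨r • A, r • A', h1.smul r, h2.smul r, fun y hy => ?_, fun K δ g1 g2 g3 g4 => ?_⟩
  · simp only [LinearMap.smul_apply, smul_mul_assoc, map_smul, (h3 y hy).1, (h3 y hy).2, and_self]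
  · exact ⟨g4 r _ (h4 K δ g1 g2 g3 g4).1, g4 r _ (h4 K δ g1 g2 g3 g4).2⟩

theorem wordG_zero : WordG 0 := by simpa using wordG_one.smul 0

theorem WordG.add {φ ψ : Sm} (h : WordG φ) (h' : WordG ψ) : WordG (φ + ψ) := by
  obtain ⟨A, A', h1, h2, h3, h4⟩ := h
  obtain ⟨B, B', k1, k2, k3, k4⟩ := h'
  refine ⟨A + B, A' + B', h1.add k1, h2.add k2, fun y hy => ?_, fun K δ g1 g2 g3 g4 => ?_⟩
  · simp only [LinearMap.add_apply, add_mul, map_add, (h3 y hy).1, (h3 y hy).2, (k3 y hy).1,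
      (k3 y hy).2, and_self]
  · exact ⟨g3 _ _ (h4 K δ g1 g2 g3 g4).1 (k4 K δ g1 g2 g3 g4).1,
      g3 _ _ (h4 K δ g1 g2 g3 g4).2 (k4 K δ g1 g2 g3 g4).2⟩

theorem WordG.step {ψ : Sm} (h : WordG ψ) (hψ : ψ ∈ Ev) (a b : Fin 3) :
    WordG (X a * X b * ψ) := by
  obtain ⟨A, A', h1, h2, h3, h4⟩ := h
  refine ⟨Xi a b ∘ₗ A, Xs a b ∘ₗ A', (Wd.xi a b).comp h1, (Wd.xs a b).comp h2, fun y hy => ?_,
    fun K δ g1 g2 g3 g4 => ?_⟩
  · simp only [LinearMap.comp_apply, (h3 y hy).1, (h3 y hy).2, word_Xi_R,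
      word_Xs_Ri a b (word_mul_Ev hψ (R_mem_Ev y)), mul_assoc, and_self]
  · exact ⟨g2 _ _ (g1 _ (Or.inr (Or.inl ⟨a, b, rfl⟩))) (h4 K δ g1 g2 g3 g4).1,
      g2 _ _ (g1 _ (Or.inr (Or.inr (Or.inl ⟨a, b, rfl⟩)))) (h4 K δ g1 g2 g3 g4).2⟩

theorem word_evp (φ : Sm) : evp φ = (1 / 2 : ℝ) • (φ + ant φ) := rfl

theorem wordG_mono : ∀ w : List (Fin 3), WordG (evp (w.map X).prod)
  | [] => by simpa [evp_of_Ev word_one_Ev] using wordG_one
  | [a] => by simpa [word_evp] using wordG_zero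
  | a :: b :: w => by
    have e : evp ((a :: b :: w).map X).prod = X a * X b * evp (w.map X).prod := by
      simp only [word_evp, List.map_cons, List.prod_cons, map_mul, ant_X, mul_smul_comm]
      congr 1
      ring
    rw [e]
    exact (wordG_mono w).step (evp_mem _) a b

theorem wordG_of_Poly {N : ℕ} {ψ : Sm} (h : ψ ∈ Ev) (h' : ψ ∈ Poly N) : WordG ψ := by
  rw [← evp_of_Ev h]
  clear h
  induction h' using Submodule.span_induction with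
  | mem φ hφ =>
    obtain ⟨w, -, rfl⟩ := hφ
    exact wordG_mono w
  | zero => simpa using wordG_zero
  | add φ ψ _ _ ih ih' => rw [map_add]; exact ih.add ih'
  | smul r φ _ ih => rw [map_smul]; exact ih.smul r

/-- normal form with an arbitrary finite index type -/
def WordN (A : Sm →ₗ[ℝ] Sm) (α : Fm → ℝ) : Prop :=
  ∃ (ι : Type) (_ : Fintype ι) (N : ℕ) (φ ψ : ι → Sm) (T : ι → Sm →ₗ[ℝ] Sm),
    (∀ i, ψ i ∈ Ev ∧ ψ i ∈ Poly N ∧ Wo 0 (T i) ∧ ∀ y ∈ Ev, T i y = R (ψ i * Ri y)) ∧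
    α = ∑ i, px (φ i) * pi' (ψ i) ∧ Wo (-1) (A - ∑ i, ml (φ i) ∘ₗ T i)

theorem wordN_one {A T : Sm →ₗ[ℝ] Sm} {α : Fm → ℝ} {N : ℕ} (φ ψ : Sm) (h1 : ψ ∈ Ev)
    (h2 : ψ ∈ Poly N) (h3 : Wo 0 T) (h4 : ∀ y ∈ Ev, T y = R (ψ * Ri y)) (h5 : α = px φ * pi' ψ)
    (h6 : Wo (-1) (A - ml φ ∘ₗ T)) : WordN A α :=
  ⟨Unit, inferInstance, N, fun _ => φ, fun _ => ψ, fun _ => T, fun _ => ⟨h1, h2, h3, h4⟩,
    by simpa using h5, by simpa using h6⟩

theorem wordN_xi {A : Sm →ₗ[ℝ] Sm} (a b : Fin 3) (h : Wo (-1) (A - Xi a b)) :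
    WordN A (pi' (X a * X b)) :=
  wordN_one 1 (X a * X b) (word_XX_Ev a b) (mul_mem_Poly (poly_X_mem a) (poly_X_mem b))
    (Wo.Xi a b) (fun y hy => by rw [← word_Xi_R, R_Ri, evp_of_Ev hy])
    (funext fun p => (one_mul _).symm) (h.of_eq fun y => by simp)

theorem Wd.nf {A : Sm →ₗ[ℝ] Sm} {α : Fm → ℝ} (h : Wd A α) : WordN A α := by
  induction h with
  | ml φ =>
    exact wordN_one φ 1 word_one_Ev (one_mem_Poly 0) Wo.id
      (fun y hy => by rw [one_mul, R_Ri, evp_of_Ev hy]; rfl) (funext fun p => (mul_one _).symm)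
      ((Wo.zero _).of_eq fun y => by simp)
  | xi a b => exact wordN_xi a b ((Wo.zero _).of_eq fun y => by simp)
  | xs a b => exact wordN_xi a b ((Wo.Xi_sub_Xs a b).neg.of_eq fun y => by simp)
  | add _ _ ih ih' =>
    obtain ⟨ι, _, N, φ, ψ, T, h1, h2, h3⟩ := ih
    obtain ⟨κ, _, M, φ', ψ', T', k1, k2, k3⟩ := ih'
    refine ⟨ι ⊕ κ, inferInstance, N + M, Sum.elim φ φ', Sum.elim ψ ψ', Sum.elim T T', ?_, ?_, ?_⟩
    · rintro (i | i)
      · exact ⟨(h1 i).1, Poly_mono (Nat.le_add_right _ _) (h1 i).2.1, (h1 i).2.2⟩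
      · exact ⟨(k1 i).1, Poly_mono (Nat.le_add_left _ _) (k1 i).2.1, (k1 i).2.2⟩
    · rw [h2, k2, Fintype.sum_sum_type]; rfl
    · rw [Fintype.sum_sum_type, add_sub_add_comm]
      exact h3.add k3
  | smul r _ ih =>
    obtain ⟨ι, _, N, φ, ψ, T, h1, h2, h3⟩ := ih
    refine ⟨ι, inferInstance, N, fun i => r • φ i, ψ, T, h1, ?_, (h3.smul r).of_eq fun y => ?_⟩
    · simp only [h2, Finset.smul_sum, px_smul, smul_mul_assoc]
    · simp only [LinearMap.sub_apply, LinearMap.smul_apply, LinearMap.sum_apply,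
        LinearMap.comp_apply, LinearMap.mulLeft_apply, smul_sub, Finset.smul_sum, smul_mul_assoc]
  | @comp A B α β hA hB ih ih' =>
    obtain ⟨ι, _, N, φ, ψ, T, h1, h2, h3⟩ := ih
    obtain ⟨κ, _, M, φ', ψ', T', k1, k2, k3⟩ := ih'
    refine ⟨ι × κ, inferInstance, N + M, fun q => φ q.1 * φ' q.2, fun q => ψ q.1 * ψ' q.2,
      fun q => T q.1 ∘ₗ T' q.2, fun q => ⟨word_mul_Ev (h1 _).1 (k1 _).1,
        mul_mem_Poly (h1 _).2.1 (k1 _).2.1, (h1 _).2.2.1.comp' (k1 _).2.2.1 le_rfl,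
        fun y hy => ?_⟩, ?_, ?_⟩
    · rw [LinearMap.comp_apply, (k1 _).2.2.2 y hy, (h1 _).2.2.2 _ (R_mem_Ev _), Ri_R,
        evp_of_Ev (word_mul_Ev (k1 _).1 (Ri_mem_Ev y)), mul_assoc]
    · rw [h2, k2, Finset.sum_mul_sum, Fintype.sum_prod_type]
      simp only [px_mul, pi'_mul, mul_mul_mul_comm]
    · have hS : Wo 0 (∑ i, PI.ml (φ i) ∘ₗ T i) :=
        Wo.sum _ fun i _ => (Wo.ml _).comp' (h1 i).2.2.1 le_rfl
      have hC : Wo (-1) (∑ q : ι × κ, PI.ml (φ q.1) ∘ₗ cm (T q.1) (PI.ml (φ' q.2)) ∘ₗ T' q.2) :=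
        Wo.sum _ fun q _ => (Wo.ml _).comp'
          (((h1 _).2.2.1.cm (Wo.ml _)).comp (k1 _).2.2.1) le_rfl
      refine (((h3.comp' hB.wo le_rfl).add (hS.comp' k3 le_rfl)).add hC).of_eq fun y => ?_
      simp only [LinearMap.sub_apply, LinearMap.add_apply, LinearMap.sum_apply,
        LinearMap.comp_apply, LinearMap.mulLeft_apply, cm_apply, map_sub, map_sum,
        Finset.sum_sub_distrib, Fintype.sum_prod_type, mul_assoc]
      rw [Finset.sum_comm (f := fun j i => φ i * T i (φ' j * T' j y))]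
      abel

theorem word_TmW (b c : Fin 3) : Wd (TmW b c) fun p => p.om b * p.om c := by
  have h := (((((Wd.ml (X (b + 1) * X (c + 1))).comp (Wd.xi (b + 2) (c + 2))).add
    (((Wd.ml (X (b + 2) * X (c + 1))).comp (Wd.xi (b + 1) (c + 2))).smul (-1))).add
    (((Wd.ml (X (b + 1) * X (c + 2))).comp (Wd.xi (b + 2) (c + 1))).smul (-1))).add
    ((Wd.ml (X (b + 2) * X (c + 2))).comp (Wd.xi (b + 1) (c + 1))))
  convert h using 1
  · rfl
  funext p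
  simp only [Fm.om, px, pi', Pi.add_apply, Pi.mul_apply, Pi.smul_apply, smul_eq_mul, Sm.mul_apply,
    X_apply]
  ring

theorem word : WdStmt := by
  refine ⟨fun A α h => ⟨h.wo.ord0, h.mem, h.ngi⟩, fun A B α β h h' => (h.wo.cm' h'.wo le_rfl).ord1,
    fun A α h => h.adj, fun a b => (Wo.Xi_sub_Xs a b).ord1, fun A α h => ?_,
    fun N ψ h h' => wordG_of_Poly h h',
    fun b c => ⟨(Wo.Tm b c).ord0, _, word_TmW b c, (Wo.Tm_sub b c).ord1⟩⟩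
  obtain ⟨ι, _, N, φ, ψ, T, h1, h2, h3⟩ := h.nf
  have e := (Fintype.equivFin ι).symm
  refine ⟨_, N, φ ∘ e, ψ ∘ e, _, fun i => ⟨(h1 _).1, (h1 _).2.1⟩, ?_, h3.ord1, fun y hy => ?_⟩
  · rw [h2, ← e.sum_comp]; rfl
  · rw [LinearMap.sum_apply, ← e.sum_comp]
    exact Finset.sum_congr rfl fun i _ => congrArg (φ (e i) * ·) ((h1 _).2.2.2 y hy)

end Pool.Agent.Lib.MP_2fa2a2_gt.PI
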