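import Pool.Agent.Lib.MP_2fa2a2_gt.PI.SWkb

namespace Pool.Agent.Lib.MP_2fa2a2_gt.PI

open Real Filter Set
open scoped ContDiff

theorem zoned_split {o e : Sm} (ho : o ∈ Od) (he : e ∈ Ev) :
    odp (o + e) = o ∧ evp (o + e) = e := by
  have h1 : ∀ x, o (neg x) = -o x := fun x => by
    rw [← ant_apply, mem_Od.1 ho, Sm.neg_apply]
  have h2 : ∀ x, e (neg x) = e x := fun x => by rw [← ant_apply, mem_Ev.1 he]
  constructor
  · show (1 / 2 : ℝ) • (o + e - ant (o + e)) = o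
    ext x
    simp only [Sm.add_apply, Sm.sub_apply, Sm.smul_apply, ant_apply, h1, h2]
    ring
  · show (1 / 2 : ℝ) • (o + e + ant (o + e)) = e
    ext x
    simp only [Sm.add_apply, Sm.smul_apply, ant_apply, h1, h2]
    ring

theorem zoned_tend {C α ε : ℝ} (hα : 0 < α) (hε : 0 < ε) :
    ∀ᶠ m : ℕ in atTop, C * (m : ℝ) ^ (-α) ≤ ε := by
  have h := ((tendsto_rpow_neg_atTop hα).comp tendsto_natCast_atTop_atTop).const_mul C
  rw [mul_zero] at h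
  exact h.eventually (ge_mem_nhds hε)

theorem zoned_SO {F : ℕ → Sm} (h : SO 1 F) (k : ℕ) {ε : ℝ} (hε : 0 < ε) :
    ∀ᶠ m : ℕ in atTop, Cb k 1 ε (F m) := by
  obtain ⟨C, hC⟩ := h k
  filter_upwards [hC, zoned_tend (C := C) one_pos hε] with m h1 h2
  exact h1.mono zero_le_one le_rfl le_rfl h2

theorem zoned_PF {z1 z2 α : ℝ} {Φ : ℕ → Pf} (h : PF z1 z2 α Φ) (hα : 0 < α) {ε : ℝ}
    (hε : 0 < ε) : ∀ᶠ m : ℕ in atTop, ∀ p, |Φ m p| ≤ ε := by
  obtain ⟨C, -, hC⟩ := h.abs_le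
  filter_upwards [hC, zoned_tend (C := C) hα hε] with m h1 h2 p
  exact (h1 p).trans h2

theorem zoned_FO {F : ℕ → Sm} (h : FO 0 F) (k : ℕ) :
    ∃ C : ℝ, 0 ≤ C ∧ ∀ᶠ m : ℕ in atTop, Cb k m C (F m) := by
  obtain ⟨C, hC⟩ := h k
  refine ⟨max C 0, le_max_right _ _, ?_⟩
  filter_upwards [hC] with m h1
  rw [neg_zero, rpow_zero, mul_one] at h1
  exact h1.mono (Nat.cast_nonneg m) le_rfl le_rfl (le_max_left _ _)

theorem zoned_pos (F : Sm) (c r : ℝ) (h : ∀ x, |X 2 x - c| ≤ r → 0 < F x) :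
    ∃ ε, 0 < ε ∧ ∀ x, |X 2 x - c| ≤ r → ε ≤ F x := by
  have hK : IsCompact {x : S2 | |X 2 x - c| ≤ r} :=
    (isClosed_le ((X 2).continuous.sub continuous_const).abs continuous_const).isCompact
  rcases Set.eq_empty_or_nonempty {x : S2 | |X 2 x - c| ≤ r} with h0 | h0
  · exact ⟨1, one_pos, fun x hx => absurd (show x ∈ {x : S2 | |X 2 x - c| ≤ r} from hx)
      (by rw [h0]; exact notMem_empty x)⟩
  · obtain ⟨y, hy, h1⟩ := hK.exists_isMinOn h0 F.continuous.continuousOn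
    exact ⟨F y, h y hy, fun x hx => h1 hx⟩

theorem zoned_ds_sin : ds (fun p : ℝ × ℝ => sin p.2) = fun p => cos p.2 := by
  funext p
  exact (hasDerivAt_ds Per_sin p.1 p.2).unique (hasDerivAt_sin p.2)

theorem zoned_ds_cos : ds (fun p : ℝ × ℝ => cos p.2) = fun p => -sin p.2 := by
  funext p
  exact (hasDerivAt_ds Per_cos p.1 p.2).unique (hasDerivAt_cos p.2)

theorem zoned_dz_mul {b f : ℝ → ℝ} (hb : ContDiff ℝ ∞ b) (hf : Per fun p => f p.2) (z s : ℝ) :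
    dz (sl b * fun p => f p.2) (z, s) = deriv b z * f s :=
  (hasDerivAt_dz ((Per_sl hb).mul hf) z s).unique
    ((hb.differentiable (by simp) z).hasDerivAt.mul_const (f s))

/-- derivatives of a wave with a cut-off at a point where the cut-off is locally one -/
theorem zoned_wave {g b f f' : ℝ → ℝ} {z1 z2 c r : ℝ} (m : ℕ) (hg : ContDiff ℝ ∞ g)
    (hb : ContDiff ℝ ∞ b) (hf : Per fun p => f p.2)
    (hd : ds (fun p : ℝ × ℝ => f p.2) = fun p => f' p.2) (h1 : -1 < z1) (h2 : z2 < 1)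
    (hs : ∀ z, z ∉ Icc z1 z2 → b z = 0) (ho : ∀ z, |z - c| ≤ r → b z = 1) (x : S2)
    (hx : |X 2 x - c| < r) :
    Wv g m (sl b * fun p => f p.2) x = f (m * (lon x + g ((x : E3) 2))) ∧
    L 2 (Wv g m (sl b * fun p => f p.2)) x = m * f' (m * (lon x + g ((x : E3) 2))) ∧
    D 2 (Wv g m (sl b * fun p => f p.2)) x
      = m * (qq x * deriv g ((x : E3) 2)) * f' (m * (lon x + g ((x : E3) 2))) := by
  have hA : Adm g (sl b * fun p => f p.2) :=
    ⟨hg, (Per_sl hb).mul hf, z1, z2, h1, h2, fun z s hz => by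
      show b z * f s = 0
      rw [hs z hz, zero_mul]⟩
  rw [X_apply] at hx
  have e1 : b ((x : E3) 2) = 1 := ho _ hx.le
  have e2 : deriv b ((x : E3) 2) = 0 := by
    have : b =ᶠ[nhds ((x : E3) 2)] fun _ => 1 := by
      have hU : IsOpen {z : ℝ | |z - c| < r} :=
        isOpen_lt (continuous_id.sub continuous_const).abs continuous_const
      filter_upwards [hU.mem_nhds hx] with z hz
      exact ho z (le_of_lt hz)
    rw [this.deriv_eq, deriv_const]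
  have e3 : ds (sl b * fun p => f p.2) = sl b * fun p => f' p.2 := by
    rw [ds_sl_mul hf hb, hd]
  refine ⟨?_, ?_, ?_⟩
  · rw [Wv_apply m hA]
    show b _ * f _ = _
    rw [e1, one_mul]
  · rw [L2_Wv m hA, Sm.smul_apply, Wv_apply m hA.ds, e3]
    show _ * (b _ * f' _) = _
    rw [e1, one_mul]
  · rw [D2_Wv m hA, Sm.mul_apply, Sm.add_apply, Sm.smul_apply, Wv_apply m hA.dz,
      Wv_apply m (hA.ds.per_mul (Per_sl (zon_deriv hg))), zoned_dz_mul hb hf, e2, e3]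
    show _ * (_ + _ * (deriv g _ * (b _ * f' _))) = _
    rw [e1]
    ring

/-- the slope of the phase is small -/
theorem zoned_slope {d : WD} {k : ℕ} {C0 : ℝ} (hd : d.Ok k C0) (hC : 1 ≤ C0) {z : ℝ}
    (hz : z ∈ Icc d.zl d.zr) : 0 < deriv d.g z * (1 - z ^ 2) ∧ |deriv d.g z| ≤ 4 * C0 ^ 2 * d.τ := by
  have hg := hd.geo
  have hi : 0 < C0⁻¹ := by positivity
  have hz0 : 0 < z := hg.zl_pos.trans_le hz.1
  have hz1 : z < 1 := hz.2.trans_lt hg.zr_lt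
  have h1 : 1 - d.zr ^ 2 ≤ 1 - z ^ 2 := by nlinarith [hz.2]
  have hΓ0 : 0 < d.Γ z := by
    unfold WG.Γ
    have := mul_pos hg.τ2_pos hz0
    linarith [hg.τ_pos]
  have hΓ1 : d.Γ z ≤ d.τ + d.τ2 := by
    unfold WG.Γ
    nlinarith [hg.τ2_pos]
  have h2 : d.Γ z ^ 2 ≤ (1 - d.zr ^ 2) / 4 :=
    (pow_le_pow_left₀ hΓ0.le hΓ1 2).trans hg.small
  have h3 : C0⁻¹ / 2 ≤ 1 - z ^ 2 - d.Γ z ^ 2 := by linarith [hd.zr_le]
  have h4 : 1 - z ^ 2 - d.Γ z ^ 2 ≤ 1 := by nlinarith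
  have h5 : C0⁻¹ / 2 ≤ √(1 - z ^ 2 - d.Γ z ^ 2) := by
    refine h3.trans (Real.le_sqrt_of_sq_le ?_)
    nlinarith
  have h6 : C0⁻¹ ≤ 1 - z ^ 2 := hd.zr_le.trans h1
  have h7 : C0⁻¹ * (C0⁻¹ / 2) ≤ (1 - z ^ 2) * √(1 - z ^ 2 - d.Γ z ^ 2) :=
    mul_le_mul h6 h5 (by positivity) (by linarith)
  have h8 : 0 < (1 - z ^ 2) * √(1 - z ^ 2 - d.Γ z ^ 2) := lt_of_lt_of_le (by positivity) h7
  rw [hg.g_deriv z hz]
  refine ⟨mul_pos (div_pos hΓ0 h8) (by linarith), ?_⟩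
  rw [abs_of_pos (div_pos hΓ0 h8), div_le_iff₀ h8]
  have h9 : 4 * C0 ^ 2 * d.τ * (C0⁻¹ * (C0⁻¹ / 2)) = 2 * d.τ := by field_simp; ring
  have h10 : 0 ≤ 4 * C0 ^ 2 * d.τ := by have := hg.τ_pos; positivity
  have h11 := mul_le_mul_of_nonneg_left h7 h10
  linarith [hd.τ2_le]

/-- the fast derivative of the odd profile is bounded by an absolute constant -/
theorem zoned_ds {d : WD} {k : ℕ} {C0 : ℝ} {Cs : ℕ → ℝ} {Uh Qh : Pf} {z1 z2 : ℝ} {c : Cf}
    {o1 e1 o2 e2 : ℕ → Pf} (hd : d.Ok k C0) (hC : 1 ≤ C0) (hL : Lead d Uh Qh)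
    (hB : LeadB Cs d Uh Qh) (hF : Fam d Uh Qh z1 z2 c o1 e1 o2 e2) :
    ∀ᶠ m : ℕ in atTop, ∀ p, |ds (c.o m) p| ≤ C0 ^ 2 * Cs 0 + 1 := by
  have hi : 0 < C0⁻¹ := by positivity
  have hom : ∀ z, 0 < d.om z := fun z => hi.trans_le (hd.om_ge z)
  have h1 : ContDiff ℝ ∞ fun z => (d.om z)⁻¹ := hd.om_smooth.inv fun z => (hom z).ne'
  have h2 : Per (sl (fun z => (d.om z)⁻¹) * Uh) := (Per_sl h1).mul hL.perU
  have h3 : Per (sinv (sl (fun z => (d.om z)⁻¹) * Uh)) := h2.sinv fun z => by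
    rw [mean_sl_mul, hL.mzU z, mul_zero]
  have hκ := Per_sl hd.κ_smooth
  filter_upwards [zoned_PF hF.o1_ord.ds (by norm_num) (ε := C0⁻¹ / 2) (by positivity),
    zoned_PF hF.o2_ord.ds one_pos (ε := 1 / 2) (by positivity)] with m a1 a2 p
  have p1 := (hF.o1_ord.1 m).1
  have p2 := (hF.o2_ord.1 m).1
  rw [hF.ho m, ds_add (((hκ.mul hκ).mul h3).add (hκ.mul p1)) p2,
    ds_add ((hκ.mul hκ).mul h3) (hκ.mul p1), mul_assoc, ds_sl_mul (hκ.mul h3) hd.κ_smooth,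
    ds_sl_mul h3 hd.κ_smooth, ds_sinv h2, ds_sl_mul p1 hd.κ_smooth]
  show |d.κ p.1 * (d.κ p.1 * ((d.om p.1)⁻¹ * Uh p)) + d.κ p.1 * ds (o1 m) p + ds (o2 m) p| ≤ _
  have b1 : |d.κ p.1 * Uh p| ≤ Cs 0 := (hB.1 0 p).1
  have b2 : (d.om p.1)⁻¹ ≤ C0 := by
    rw [← inv_inv C0]
    exact inv_anti₀ hi (hd.om_ge p.1)
  have b3 : |d.κ p.1 * (d.κ p.1 * ((d.om p.1)⁻¹ * Uh p))| ≤ C0 ^ 2 * Cs 0 := by
    rw [show d.κ p.1 * (d.κ p.1 * ((d.om p.1)⁻¹ * Uh p))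
      = d.κ p.1 * (d.om p.1)⁻¹ * (d.κ p.1 * Uh p) by ring, abs_mul,
      abs_of_nonneg (mul_nonneg (hd.κ_nonneg _) (inv_pos.2 (hom _)).le), sq]
    exact mul_le_mul (mul_le_mul (hd.κ_le _) b2 (inv_pos.2 (hom _)).le (by linarith)) b1
      (abs_nonneg _) (by positivity)
  have b4 : |d.κ p.1 * ds (o1 m) p| ≤ 1 / 2 := by
    rw [abs_mul, abs_of_nonneg (hd.κ_nonneg _)]
    refine (mul_le_mul (hd.κ_le _) (a1 p) (abs_nonneg _) (by linarith)).trans_eq ?_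
    field_simp
  refine (abs_add_three _ _ _).trans ?_
  linarith [a2 p]

theorem zoned_grad {g : ℝ → ℝ} {Φ : Pf} {m : ℕ} (hm : 0 < m) (hA : Adm g Φ) {ε : ℝ}
    (h1 : ∀ p, |((m : ℝ)⁻¹ • dz Φ) p| ≤ ε) (h2 : ∀ p : ℝ × ℝ, |deriv g p.1 * ds Φ p| ≤ ε)
    (x : S2) : |D 2 ((m : ℝ)⁻¹ • odE (Wv g m Φ)) x| ≤ qq x * (4 * ε) := by
  have hm' : (m : ℝ) ≠ 0 := by positivity
  have key : ∀ y : S2, |(m : ℝ)⁻¹ * D 2 (Wv g m Φ) y| ≤ qq y * (2 * ε) := fun y => by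
    rw [D2_Wv m hA, Sm.mul_apply, Sm.add_apply, Sm.smul_apply, Wv_apply m hA.dz,
      Wv_apply m (hA.ds.per_mul (Per_sl (zon_deriv hA.1))), mul_left_comm, abs_mul,
      abs_of_nonneg (zon_qq_nonneg y), mul_add, ← mul_assoc, inv_mul_cancel₀ hm', one_mul]
    refine mul_le_mul_of_nonneg_left ((abs_add_le _ _).trans ?_) (zon_qq_nonneg y)
    have a1 := h1 ((y : E3) 2, m * (lon y + g ((y : E3) 2)))
    have a2 := h2 ((y : E3) 2, m * (lon y + g ((y : E3) 2)))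
    exact (add_le_add a1 a2).trans_eq (by ring)
  have e : D 2 (ant (Wv g m Φ)) = -ant (D 2 (Wv g m Φ)) := by rw [ant_D, neg_neg]
  have e2 : qq (neg x) = qq x := by simp [zon_qq_apply]
  rw [map_smul, odE, map_sub, e, sub_neg_eq_add, Sm.smul_apply, Sm.add_apply, ant_apply, mul_add]
  refine (abs_add_le _ _).trans ?_
  have a1 := key x
  have a2 := key (neg x)
  rw [e2] at a2
  linarith

theorem zoneD : ZoneDStmt := by
  intro C0 Cs hC hCs
  obtain ⟨Cp, hCp, hP⟩ := Cb_prim 12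
  have hs0 := hCs 0
  set C0' : ℝ := (Cp + 2) * (C0 + 1) with hC0'
  have hC1 : 2 * (C0 + 1) ≤ C0' := by nlinarith
  have hC2 : Cp * (C0 + 1) ≤ C0' := by nlinarith
  have hC3 : 0 < C0' := by linarith
  have hi : 0 < C0⁻¹ := by positivity
  have hi1 : C0'⁻¹ ≤ C0⁻¹ / 2 := by
    rw [div_eq_mul_inv, ← mul_inv]
    exact inv_anti₀ (by positivity) (by linarith)
  refine ⟨C0', (8 * C0' * (4 * C0 ^ 2 * (C0 ^ 2 * Cs 0 + 1)))⁻¹, by linarith, by positivity, ?_⟩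
  intro d k Uh Qh z1 z2 c o1 e1 o2 e2 b hk hd hτ hL hB hz1 hz2 hF hb
  have hg := hd.geo
  have hρ : 0 < d.ρ := hi.trans_le hd.ρ_ge
  have t1 := hd.o1
  have t2 := hd.o2
  have t3 := hd.o3
  have t4 := hd.o4
  have t5 := hg.zl_pos
  have t6 := hg.zr_lt
  have u1 : -1 < z1 := by linarith
  have u2 : z2 < 1 := by linarith
  have v1 : -1 < d.zc - 5 * d.ρ := by linarith
  have v2 : d.zc + 5 * d.ρ < 1 := by linarith
  have hAo := hF.ok.o_ord.adm hg.g_smooth u1 u2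
  have hAe := hF.ok.e_ord.adm hg.g_smooth u1 u2
  have hsup : ∀ f : ℝ → ℝ,
      Sup (d.zc - 5 * d.ρ) (d.zc + 5 * d.ρ) (sl b * fun p => f p.2) := fun f z s hz => by
    show b z * f s = 0
    rw [hb.supp z hz, zero_mul]
  have hPs := PF.const ((Per_sl hb.smooth).mul Per_sin) (hsup sin)
  have hPc := PF.const ((Per_sl hb.smooth).mul Per_cos) (hsup cos)
  obtain ⟨A1, hA1, hB1⟩ := zoned_FO (hF.ok.o_ord.FO hg.g_smooth u1 u2) 2
  obtain ⟨A2, hA2, hB2⟩ := zoned_FO (hPs.FO hg.g_smooth v1 v2) 12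
  obtain ⟨A3, hA3, hB3⟩ := zoned_FO (hPc.FO hg.g_smooth v1 v2) 12
  obtain ⟨A4, hA4, hB4⟩ := exists_Cb 12 d.wz
  obtain ⟨ε1, hε1, hE1⟩ := zoned_pos d.wz d.zc (4 * d.ρ) fun x hx => by
    rw [hd.wz_eq x (by linarith), mul_comm, zon_qq_apply, ← sq]
    rw [abs_le] at hx
    exact (zoned_slope hd hC ⟨by linarith [hx.1], by linarith [hx.2]⟩).1
  obtain ⟨ε2, hε2, hE2⟩ := zoned_pos (D 2 d.a0) d.zc (4 * d.ρ) fun x hx => (hd.mono x hx).1
  obtain ⟨ε3, hε3, hE3⟩ := zoned_pos (D 2 (d.a0 * d.wz)) d.zc (4 * d.ρ)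
    fun x hx => (hd.mono x hx).2.1
  obtain ⟨ε4, hε4, hE4⟩ := zoned_pos (d.wz * D 2 d.a0 - d.a0 * D 2 d.wz) d.zc (4 * d.ρ)
    fun x hx => by
      have := (hd.mono x hx).2.2
      simp only [Sm.sub_apply, Sm.mul_apply]
      linarith
  set C1 : ℝ := 1 + 2 * A1 + A2 + A3 + A4 + ε1⁻¹ + (ε3 / 2)⁻¹ + (ε4 / 2)⁻¹ with hC1'
  have i1 : 0 < ε1⁻¹ := by positivity
  have i3 : 0 < (ε3 / 2)⁻¹ := by positivity
  have i4 : 0 < (ε4 / 2)⁻¹ := by positivity
  have j : ∀ ε : ℝ, 0 < ε → ε⁻¹ ≤ C1 → C1⁻¹ ≤ ε := fun ε h h' => by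
    rw [← inv_inv ε]
    exact inv_anti₀ (by positivity) h'
  have j1 := j ε1 hε1 (by linarith)
  have j3 := j (ε3 / 2) (by positivity) (by linarith)
  have j4 := j (ε4 / 2) (by positivity) (by linarith)
  have s3 : SO 1 fun m => D 2 ((c.a m - d.a0) * d.wz) := by
    have := (hF.ha.mul (SO.const d.wz)).D 2
    rwa [add_zero] at this
  have s4 : SO 1 fun m => (c.a m - d.a0) * D 2 d.wz - D 2 (c.a m - d.a0) * d.wz := by
    have := (hF.ha.mul (SO.const (D 2 d.wz))).sub ((hF.ha.D 2).mul (SO.const d.wz))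
    rwa [add_zero] at this
  have s5 : PF z1 z2 1 fun m => (m : ℝ)⁻¹ • dz (c.o m) := by
    have := hF.ok.o_ord.dz.inv
    rwa [zero_add] at this
  refine ⟨C1, by linarith, ?_⟩
  filter_upwards [hB1, hB2, hB3, zoned_SO hF.ha 12 (ε := C0⁻¹ / 2) (by positivity),
    zoned_SO (hF.ha.D 2) 0 hε2, zoned_SO s3 0 (ε := ε3 / 2) (by positivity),
    zoned_SO s4 0 (ε := ε4 / 2) (by positivity),
    zoned_PF s5 one_pos (ε := (8 * C0')⁻¹) (by positivity), zoned_ds hd hC hL hB hF,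
    eventually_gt_atTop 0] with m a1 a2 a3 a4 a5 a6 a7 a8 a9 hm
  have hm' : (0 : ℝ) < m := by positivity
  have hi2 : C0⁻¹ ≤ 1 := inv_le_one_of_one_le₀ hC
  have ha : Cb 12 1 (C0 + 1) (c.a m) := by
    have := ((hd.a0_Cb.mono zero_le_one hk le_rfl le_rfl).add a4).mono zero_le_one le_rfl le_rfl
      (show C0 + C0⁻¹ / 2 ≤ C0 + 1 by linarith)
    rwa [add_sub_cancel] at this
  refine ⟨⟨c.a m, prim (c.a m), (m : ℝ)⁻¹ • odE (Wv d.g m (c.o m)),
    Wv d.g m (sl b * fun p => sin p.2), Wv d.g m (sl b * fun p => cos p.2), d.wz, d.zc, d.ρ⟩,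
    fun t ℓ κ1 χ hχ => ?_⟩
  have hsp := zoned_split
    (Od.add_mem (prim_odd (hF.ok.a_even m)) (Od.smul_mem (m : ℝ)⁻¹ (odE_mem (Wv d.g m (c.o m)))))
    (Ev.add_mem (Ev.smul_mem (m : ℝ)⁻¹ (evE_mem (Wv d.g m (c.e m))))
      (Ev.smul_mem κ1 (evE_mem (Wv d.g m (sl b * fun p => sin p.2)))))
  rw [← add_assoc] at hsp
  refine
    { ρ_ge := by linarith [hd.ρ_ge]
      lo := by linarith [hd.zl_ge]
      hi := by linarith [hd.ρ_ge]
      odd := hsp.1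
      G_zon := prim_zon (hF.ok.a_zon m)
      G_odd := prim_odd (hF.ok.a_even m)
      G_Cb := (hP (hF.ok.a_zon m) ha).mono zero_le_one le_rfl le_rfl hC2
      G_grad := D_prim (hF.ok.a_zon m)
      a_zon := hF.ok.a_zon m
      a_even := hF.ok.a_even m
      a_ge := fun x => ?_
      a_Cb := ha.mono zero_le_one le_rfl le_rfl (by linarith)
      fw_zero := fun x hx => ?_
      fw_grad := fun x => ?_
      fw_Cb := ?_
      even := fun x hx => ?_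
      sn_Cb := a2.mono hm'.le le_rfl le_rfl (by linarith)
      cs_Cb := a3.mono hm'.le le_rfl le_rfl (by linarith)
      w_zon := hd.wz_zon
      w_Cb := hB4.mono zero_le_one le_rfl le_rfl (by linarith)
      wave := fun x hx => ?_
      mono := fun x hx => ?_
      cut := hχ }
  · have h1 := abs_le.1 (a4.abs_le x)
    have h2 := hd.a0_ge x
    rw [Sm.sub_apply] at h1
    show _ ≤ c.a m x
    linarith [h1.1]
  · have key : ∀ y : S2, |(y : E3) 2| = |(x : E3) 2| → Wv d.g m (c.o m) y = 0 := fun y hy => by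
      rw [Wv_apply m (hAo m)]
      refine (hF.ok.o_ord.1 m).2 _ _ fun hz => ?_
      have h0 : 0 < (y : E3) 2 := by linarith [hz.1]
      rw [abs_of_pos h0] at hy
      rcases hx with hx | hx
      · change |(x : E3) 2| < d.zc + 4 * d.ρ at hx
        linarith [hz.1]
      · rw [zon_qq_apply, ← abs_mul_abs_self, ← hy] at hx
        have := hd.zr_le
        nlinarith [hz.2]
    dsimp only
    rw [odE, Sm.smul_apply, Sm.sub_apply, ant_apply, key x rfl, key (neg x) (by simp), sub_zero,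
      mul_zero]
  · refine (zoned_grad hm (hAo m) a8 (fun p => ?_) x).trans_eq (by field_simp; ring)
    by_cases hp : p.1 ∈ Icc z1 z2
    · have h1 := (zoned_slope hd hC (z := p.1) ⟨by linarith [hp.1], by linarith [hp.2]⟩).2
      rw [abs_mul]
      refine (mul_le_mul (h1.trans (mul_le_mul_of_nonneg_left hτ (by positivity))) (a9 p)
        (abs_nonneg _) (by positivity)).trans_eq ?_
      field_simp
    · rw [show ds (c.o m) p = 0 from (hF.ok.o_ord.1 m).2.ds p.1 p.2 hp, mul_zero, abs_zero]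
      positivity
  · refine ((a1.sub a1.ant).smul (m : ℝ)⁻¹).mono hm'.le le_rfl le_rfl ?_
    rw [abs_of_pos (inv_pos.2 hm'), div_eq_inv_mul]
    exact mul_le_mul_of_nonneg_left (by linarith) (inv_pos.2 hm').le
  · change |(x : E3) 2 - d.zc| < 4 * d.ρ at hx
    rw [abs_lt] at hx
    have h1 : Wv d.g m (c.e m) x = 0 := by
      rw [Wv_apply m (hAe m)]
      exact (hF.ok.e_ord.1 m).2 _ _ fun hz => by linarith [hz.1, hx.2]
    have h0 : (neg x : E3) 2 = -(x : E3) 2 := by simp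
    have h2 : Wv d.g m (c.e m) (neg x) = 0 := by
      rw [Wv_apply m (hAe m)]
      exact (hF.ok.e_ord.1 m).2 _ _ fun hz => by linarith [hz.1, hx.1]
    have h3 : Wv d.g m (sl b * fun p => sin p.2) (neg x) = 0 := by
      rw [Wv_apply m (hPs.adm hg.g_smooth v1 v2 m)]
      exact hsup sin _ _ fun hz => by linarith [hz.1, hx.1]
    refine (congrArg (fun f : Sm => f x) hsp.2).trans ?_
    simp only [evE, Sm.add_apply, Sm.smul_apply, ant_apply]
    rw [h1, h2, h3, add_zero, mul_zero, zero_add, add_zero]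
  · obtain ⟨p1, p2, p3⟩ := zoned_wave (f' := cos) m hg.g_smooth hb.smooth Per_sin zoned_ds_sin
      v1 v2 hb.supp hb.one x hx
    obtain ⟨q1, q2, q3⟩ := zoned_wave (f' := fun s => -sin s) m hg.g_smooth hb.smooth Per_cos
      zoned_ds_cos v1 v2 hb.supp hb.one x hx
    have e := hd.wz_eq x (le_trans (le_of_lt hx) (by show 4 * d.ρ ≤ _; linarith))
    rw [X_apply] at e
    dsimp only
    rw [p1, p2, p3, q1, q2, q3, e]
    exact ⟨sin_sq_add_cos_sq _, rfl, by ring, rfl, by ring⟩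
  · have hx' : |X 2 x - d.zc| ≤ 4 * d.ρ := le_of_lt hx
    have h2 := abs_le.1 (a5.abs_le x)
    have h3 := abs_le.1 (a6.abs_le x)
    have h4 := abs_le.1 (a7.abs_le x)
    have k2 := hE2 x hx'
    have k3 := hE3 x hx'
    have k4 := hE4 x hx'
    simp only [sub_mul, map_sub, Sm.sub_apply, Sm.mul_apply] at h2 h3 h4 k4
    dsimp only
    exact ⟨j1.trans (hE1 x hx'), by linarith [h2.1], by linarith [h3.1], by linarith [h4.2]⟩

end Pool.Agent.Lib.MP_2fa2a2_gt.PI
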