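import Pool.Agent.Lib.MP_2fa2a2_gt.PI.PullA
import Pool.Agent.Lib.MP_2fa2a2_gt.PI.PullB
import Pool.Agent.Lib.MP_2fa2a2_gt.PI.PullC
import Pool.Agent.Lib.MP_2fa2a2_gt.PI.Egor
import Pool.Agent.Lib.MP_2fa2a2_gt.PI.Ch
import Pool.Agent.Lib.MP_2fa2a2_gt.PI.Low
import Pool.Agent.Lib.MP_2fa2a2_gt.PI.ChainA
import Pool.Agent.Lib.MP_2fa2a2_gt.PI.ChainB
import Pool.Agent.Lib.MP_2fa2a2_gt.PI.ChainC
import Pool.Agent.Lib.MP_2fa2a2_gt.PI.GeoB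
import Pool.Agent.Lib.MP_2fa2a2_gt.PI.GeoS
import Pool.Agent.Lib.MP_2fa2a2_gt.PI.GeoP
import Pool.Agent.Lib.MP_2fa2a2_gt.PI.GeoC
import Pool.Agent.Lib.MP_2fa2a2_gt.PI.Word
import Pool.Agent.Lib.MP_2fa2a2_gt.PI.Symb
import Pool.Agent.Lib.MP_2fa2a2_gt.PI.Meas
import Pool.Agent.Lib.MP_2fa2a2_gt.PI.Gt
import Pool.Agent.Lib.MP_2fa2a2_gt.PI.IdF
import Pool.Agent.Lib.MP_2fa2a2_gt.PI.IdO
import Pool.Agent.Lib.MP_2fa2a2_gt.PI.IdE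
import Pool.Agent.Lib.MP_2fa2a2_gt.PI.GalA
import Pool.Agent.Lib.MP_2fa2a2_gt.PI.Hf
import Pool.Agent.Lib.MP_2fa2a2_gt.PI.Uni
import Pool.Agent.Lib.MP_2fa2a2_gt.PI.GalB
import Pool.Agent.Lib.MP_2fa2a2_gt.PI.Fin
import Pool.Agent.Lib.MP_2fa2a2_gt.PI.EstO
import Pool.Agent.Lib.MP_2fa2a2_gt.PI.EstS
import Pool.Agent.Lib.MP_2fa2a2_gt.PI.EstE
import Pool.Agent.Lib.MP_2fa2a2_gt.PI.EstZ
import Pool.Agent.Lib.MP_2fa2a2_gt.PI.EstT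
import Pool.Agent.Lib.MP_2fa2a2_gt.PI.EstAll
import Pool.Agent.Lib.MP_2fa2a2_gt.PI.Lya
import Pool.Agent.Lib.MP_2fa2a2_gt.PI.Thin
import Pool.Agent.Lib.MP_2fa2a2_gt.PI.Brk
import Pool.Agent.Lib.MP_2fa2a2_gt.PI.NoM
import Pool.Agent.Lib.MP_2fa2a2_gt.PI.StatA
import Pool.Agent.Lib.MP_2fa2a2_gt.PI.StatB
import Pool.Agent.Lib.MP_2fa2a2_gt.PI.Bil
import Pool.Agent.Lib.MP_2fa2a2_gt.PI.Prof
import Pool.Agent.Lib.MP_2fa2a2_gt.PI.Wkb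
import Pool.Agent.Lib.MP_2fa2a2_gt.PI.Data
import Pool.Agent.Lib.MP_2fa2a2_gt.PI.LocD
import Pool.Agent.Lib.MP_2fa2a2_gt.PI.ZoneD
import Pool.Agent.Lib.MP_2fa2a2_gt.PI.Ctl
import Pool.Agent.Lib.MP_2fa2a2_gt.PI.Core

/-! Assembly of the construction. -/

namespace Pool.Agent.Lib.MP_2fa2a2_gt.PI

theorem target : Target := by
  have hPB := pullB pullA
  have hEg := egor hPB
  have hCA := chainA low
  have hCB := chainB hPB (ch pullA) low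
  have hCC := chainC hPB pullC low
  have hGeo := geoC pullA pullC geoB geoS (geoP geoB geoS)
  have hGt := gt hPB pullC
  have hSy := symb word
  have hF := idF hPB hEg word hSy low hGt
  have hSP := statB statA
  exact fin_target galA
    (uni hCA hCB hCC (hf hCA hCB) (meas word) (idO word hF)
      (idE hPB pullC hEg word hSy low hGt hF))
    (galB low hCA hCB hCC hGeo)
    (core prof data (wkb hSP bil prof) (locD hSP) zoneD (ctl hSP)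
      (estAll estO estS estE (estT estZ)) (noM lya thin brk))

end Pool.Agent.Lib.MP_2fa2a2_gt.PI
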