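import Mathlib
import Pool.Agent.Lib.MP_5b78b3_gt.Base

/-! Smooth functions on the two-sphere, rotation fields, the normalised integral. -/

namespace Pool.Agent.Lib.MP_2fa2a2_gt.PI

open MeasureTheory
open scoped ContDiff

abbrev E3 : Type := EuclideanSpace ℝ (Fin 3)
abbrev S2 : Type := Metric.sphere (0 : E3) 1

/-- radial projection (junk value at zero) -/
noncomputable def nrmz (y : E3) : S2 :=
  if h : y = 0 then ⟨EuclideanSpace.single 0 1, by simp⟩
  else ⟨‖y‖⁻¹ • y, by simp [norm_smul, h]⟩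

/-- the extension that is homogeneous of degree zero -/
noncomputable def ext0 (φ : S2 → ℝ) (y : E3) : ℝ := φ (nrmz y)

/-- smooth functions on the sphere as a subalgebra -/
def smAlg : Subalgebra ℝ (S2 → ℝ) where
  carrier := {φ | ContDiffOn ℝ ∞ (ext0 φ) {0}ᶜ}
  mul_mem' := fun ha hb => ContDiffOn.mul ha hb
  add_mem' := fun ha hb => ContDiffOn.add ha hb
  algebraMap_mem' := fun _ => contDiffOn_const

/-- smooth functions on the sphere -/
def Sm : Type := smAlg

noncomputable instance : CommRing Sm := inferInstanceAs (CommRing smAlg)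
noncomputable instance : Algebra ℝ Sm := inferInstanceAs (Algebra ℝ smAlg)

instance : FunLike Sm S2 ℝ where
  coe φ := (show smAlg from φ).1
  coe_injective _ _ h := Subtype.ext h

@[ext] theorem Sm.ext {φ ψ : Sm} (h : ∀ x, φ x = ψ x) : φ = ψ := DFunLike.ext _ _ h

@[simp] theorem Sm.add_apply (φ ψ : Sm) (x : S2) : (φ + ψ) x = φ x + ψ x := rfl
@[simp] theorem Sm.sub_apply (φ ψ : Sm) (x : S2) : (φ - ψ) x = φ x - ψ x := rfl
@[simp] theorem Sm.neg_apply (φ : Sm) (x : S2) : (-φ) x = -φ x := rfl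
@[simp] theorem Sm.mul_apply (φ ψ : Sm) (x : S2) : (φ * ψ) x = φ x * ψ x := rfl
@[simp] theorem Sm.smul_apply (c : ℝ) (φ : Sm) (x : S2) : (c • φ) x = c * φ x := rfl
@[simp] theorem Sm.zero_apply (x : S2) : (0 : Sm) x = 0 := rfl
@[simp] theorem Sm.one_apply (x : S2) : (1 : Sm) x = 1 := rfl
@[simp] theorem Sm.pow_apply (φ : Sm) (n : ℕ) (x : S2) : (φ ^ n) x = φ x ^ n := rfl
@[simp] theorem Sm.algebraMap_apply (c : ℝ) (x : S2) : (algebraMap ℝ Sm c) x = c := rfl
@[simp] theorem Sm.natCast_apply (n : ℕ) (x : S2) : (n : Sm) x = n := rfl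
@[simp] theorem Sm.ofNat_apply (n : ℕ) [n.AtLeastTwo] (x : S2) :
    (OfNat.ofNat n : Sm) x = OfNat.ofNat n := rfl
@[simp] theorem Sm.sum_apply {ι : Type*} (s : Finset ι) (φ : ι → Sm) (x : S2) :
    (∑ i ∈ s, φ i) x = ∑ i ∈ s, φ i x := by
  induction s using Finset.cons_induction with
  | empty => rfl
  | cons a s ha ih => rw [Finset.sum_cons, Finset.sum_cons, Sm.add_apply, ih]

theorem base_norm (x : S2) : ‖(x : E3)‖ = 1 := norm_eq_of_mem_sphere x

theorem base_ne (x : S2) : (x : E3) ≠ 0 := ne_zero_of_mem_unit_sphere x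

theorem nrmz_coe (x : S2) : nrmz (x : E3) = x := by
  refine Subtype.ext ?_
  rw [nrmz, dif_neg (base_ne x)]
  show ‖(x : E3)‖⁻¹ • (x : E3) = x
  rw [base_norm, inv_one, one_smul]

theorem nrmz_val {y : E3} (hy : y ≠ 0) : (nrmz y : E3) = ‖y‖⁻¹ • y := by
  rw [nrmz, dif_neg hy]

theorem base_ext0_coe (φ : S2 → ℝ) (x : S2) : ext0 φ (x : E3) = φ x := by
  rw [ext0, nrmz_coe]

theorem base_N_smooth {y : E3} (hy : y ≠ 0) : ContDiffAt ℝ ∞ (fun y : E3 => ‖y‖⁻¹ • y) y :=
  ((contDiffAt_norm ℝ hy).inv (norm_ne_zero_iff.2 hy)).smul contDiffAt_id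

theorem base_ext0_ev (F : E3 → ℝ) {y : E3} (hy : y ≠ 0) :
    ext0 (fun x : S2 => F x) =ᶠ[nhds y] fun y => F (‖y‖⁻¹ • y) := by
  filter_upwards [isOpen_compl_singleton.mem_nhds hy] with z hz
  rw [ext0, nrmz_val hz]

theorem base_N_deriv (x : S2) : HasFDerivAt (fun y : E3 => ‖y‖⁻¹ • y)
    (ContinuousLinearMap.id ℝ E3 - (innerSL ℝ (x : E3)).smulRight (x : E3)) (x : E3) := by
  have h1 : HasFDerivAt (fun y : E3 => ‖y‖) (innerSL ℝ (x : E3)) (x : E3) := by
    have h2 := (hasStrictFDerivAt_norm_sq (x : E3)).hasFDerivAt.sqrt (by rw [base_norm]; norm_num)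
    simp only [Real.sqrt_sq (norm_nonneg _), base_norm] at h2
    refine h2.congr_fderiv ?_
    ext v
    simp
  have h3 := (hasDerivAt_inv (x := ‖(x : E3)‖) (by rw [base_norm]; norm_num)).comp_hasFDerivAt
    (x : E3) h1
  have h4 := h3.smul (hasFDerivAt_id (𝕜 := ℝ) (x : E3))
  refine h4.congr_fderiv ?_
  ext1 v
  simp [sub_eq_add_neg]

theorem base_fderiv {F : E3 → ℝ} {x : S2} (hF : DifferentiableAt ℝ F (x : E3)) (v : E3) :
    fderiv ℝ (ext0 fun x : S2 => F x) (x : E3) v =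
      fderiv ℝ F (x : E3) (v - inner ℝ (x : E3) v • (x : E3)) := by
  have h1 : HasFDerivAt F (fderiv ℝ F (x : E3)) (‖(x : E3)‖⁻¹ • (x : E3)) := by
    rw [base_norm, inv_one, one_smul]; exact hF.hasFDerivAt
  have h2 := (HasFDerivAt.comp (f := fun y : E3 => ‖y‖⁻¹ • y) (x : E3) h1
    (base_N_deriv x)).congr_of_eventuallyEq
    (base_ext0_ev F (base_ne x))
  rw [h2.fderiv]
  rfl

theorem Sm.smooth (φ : Sm) : ContDiffOn ℝ ∞ (ext0 φ) {0}ᶜ := (show smAlg from φ).2

theorem Sm.smoothAt (φ : Sm) {y : E3} (hy : y ≠ 0) : ContDiffAt ℝ ∞ (ext0 φ) y :=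
  φ.smooth.contDiffAt (isOpen_compl_singleton.mem_nhds hy)

theorem base_diff (φ : Sm) (x : S2) : DifferentiableAt ℝ (ext0 φ) (x : E3) :=
  (φ.smoothAt (base_ne x)).differentiableAt (by simp)

theorem base_radial (φ : Sm) (x : S2) : fderiv ℝ (ext0 φ) (x : E3) x = 0 := by
  have h := base_fderiv (base_diff φ x) (x : E3)
  have e : (fun z : S2 => ext0 φ z) = φ := funext (base_ext0_coe φ)
  rw [e, real_inner_self_eq_norm_sq, base_norm, one_pow, one_smul, sub_self, map_zero] at h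
  exact h

theorem Sm.continuous (φ : Sm) : Continuous φ := by
  have e : (fun z : S2 => ext0 φ z) = φ := funext (base_ext0_coe φ)
  rw [← e]
  exact φ.smooth.continuousOn.comp_continuous continuous_subtype_val base_ne

theorem Sm.bounded (φ : Sm) : ∃ C, 0 ≤ C ∧ ∀ x, |φ x| ≤ C := by
  obtain ⟨C, hC⟩ := (isCompact_range φ.continuous.abs).bddAbove
  exact ⟨max C 0, le_max_right _ _, fun x => le_max_of_le_left (hC ⟨x, rfl⟩)⟩

/-- restriction of a function that is smooth near the sphere -/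
def Sm.ofFun (F : E3 → ℝ) (hF : ∀ x : S2, ContDiffAt ℝ ∞ F (x : E3)) : Sm :=
  (⟨fun x => F x, fun y hy => by
    have h1 : ContDiffAt ℝ ∞ F (‖y‖⁻¹ • y) := by rw [← nrmz_val hy]; exact hF _
    exact ((ContDiffAt.comp (f := fun y : E3 => ‖y‖⁻¹ • y) y h1
      (base_N_smooth hy)).congr_of_eventuallyEq
      (base_ext0_ev F hy)).contDiffWithinAt⟩ : smAlg)

@[simp] theorem Sm.ofFun_apply (F : E3 → ℝ) (hF : ∀ x : S2, ContDiffAt ℝ ∞ F (x : E3)) (x : S2) :
    Sm.ofFun F hF x = F x := rfl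

/-- coordinate functions -/
noncomputable def X (a : Fin 3) : Sm := Sm.ofFun (fun y => y a) (fun _ => by fun_prop)

@[simp] theorem X_apply (a : Fin 3) (x : S2) : X a x = (x : E3) a := rfl

/-- composition with a real function that is smooth near the values -/
def Sm.comp (g : ℝ → ℝ) (φ : Sm) (hg : ∀ x, ContDiffAt ℝ ∞ g (φ x)) : Sm :=
  (⟨fun x => g (φ x), fun y hy =>
    (ContDiffAt.comp (f := ext0 φ) y (hg (nrmz y)) (φ.smoothAt hy)).contDiffWithinAt⟩ : smAlg)

@[simp] theorem Sm.comp_apply (g : ℝ → ℝ) (φ : Sm) (hg : ∀ x, ContDiffAt ℝ ∞ g (φ x)) (x : S2) :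
    Sm.comp g φ hg x = g (φ x) := rfl

open Classical in
/-- total version of the composition (junk value zero) -/
noncomputable def cp (g : ℝ → ℝ) (φ : Sm) : Sm :=
  if h : ∀ x, ContDiffAt ℝ ∞ g (φ x) then Sm.comp g φ h else 0

theorem cp_apply {g : ℝ → ℝ} {φ : Sm} (hg : ∀ x, ContDiffAt ℝ ∞ g (φ x)) (x : S2) :
    cp g φ x = g (φ x) := by
  rw [cp, dif_pos hg]; rfl

/-- zonal functions `g (z)` -/
noncomputable def Zf (g : ℝ → ℝ) : Sm := cp g (X 2)

theorem Zf_apply {g : ℝ → ℝ} (hg : ContDiff ℝ ∞ g) (x : S2) : Zf g x = g ((x : E3) 2) :=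
  cp_apply (fun _ => hg.contDiffAt) x

/-- the vector `e a × y` -/
noncomputable def rv (a : Fin 3) (y : E3) : E3 :=
  y (a + 1) • EuclideanSpace.single (a + 2) (1 : ℝ) - y (a + 2) • EuclideanSpace.single (a + 1) (1 : ℝ)

/-- the rotation field as a linear map -/
noncomputable def base_rvL (a : Fin 3) : E3 →L[ℝ] E3 :=
  (EuclideanSpace.proj (a + 1)).smulRight (EuclideanSpace.single (a + 2) (1 : ℝ)) -
    (EuclideanSpace.proj (a + 2)).smulRight (EuclideanSpace.single (a + 1) (1 : ℝ))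

theorem base_rv_eq (a : Fin 3) : rv a = base_rvL a := rfl

theorem base_inner_rv (a : Fin 3) (y : E3) : inner ℝ y (rv a y) = 0 := by
  simp only [rv, inner_sub_right, inner_smul_right, EuclideanSpace.inner_single_right]
  simp [mul_comm]

theorem base_fderiv_smooth (φ : Sm) (x : S2) :
    ContDiffAt ℝ ∞ (fderiv ℝ (ext0 φ)) (x : E3) :=
  (φ.smoothAt (base_ne x)).fderiv_right (m := ∞) (by simp)

/-- the rotation fields -/
noncomputable def L (a : Fin 3) : Sm →ₗ[ℝ] Sm where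
  toFun φ := Sm.ofFun (fun y => fderiv ℝ (ext0 φ) y (rv a y))
    (fun x => (base_fderiv_smooth φ x).clm_apply (base_rvL a).contDiff.contDiffAt)
  map_add' φ ψ := by
    ext x
    show fderiv ℝ (ext0 φ + ext0 ψ) (x : E3) (rv a x) =
      fderiv ℝ (ext0 φ) (x : E3) (rv a x) + fderiv ℝ (ext0 ψ) (x : E3) (rv a x)
    rw [fderiv_add (base_diff φ x) (base_diff ψ x)]
    rfl
  map_smul' c φ := by
    ext x
    show fderiv ℝ (c • ext0 φ) (x : E3) (rv a x) = c * fderiv ℝ (ext0 φ) (x : E3) (rv a x)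
    rw [fderiv_const_smul (base_diff φ x)]
    rfl

theorem L_apply (a : Fin 3) (φ : Sm) (x : S2) :
    L a φ x = fderiv ℝ (ext0 φ) (x : E3) (rv a x) := rfl

theorem L_ofFun (a : Fin 3) (F : E3 → ℝ) (hF : ∀ x : S2, ContDiffAt ℝ ∞ F (x : E3)) (x : S2) :
    L a (Sm.ofFun F hF) x = fderiv ℝ F (x : E3) (rv a x) := by
  have h := base_fderiv ((hF x).differentiableAt (by simp)) (rv a x)
  rw [base_inner_rv, zero_smul, sub_zero] at h
  exact h

theorem L_mul (a : Fin 3) (φ ψ : Sm) : L a (φ * ψ) = L a φ * ψ + φ * L a ψ := by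
  ext x
  show fderiv ℝ (ext0 φ * ext0 ψ) (x : E3) (rv a x) =
    fderiv ℝ (ext0 φ) (x : E3) (rv a x) * ψ x + φ x * fderiv ℝ (ext0 ψ) (x : E3) (rv a x)
  rw [fderiv_mul (base_diff φ x) (base_diff ψ x), base_ext0_coe, base_ext0_coe]
  simp only [add_apply, smul_apply, smul_eq_mul]
  ring

@[simp] theorem L_one (a : Fin 3) : L a 1 = 0 := by
  have h := L_mul a 1 1
  rw [one_mul, mul_one, one_mul] at h
  exact left_eq_add.1 h

@[simp] theorem L_algebraMap (a : Fin 3) (c : ℝ) : L a (algebraMap ℝ Sm c) = 0 := by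
  rw [Algebra.algebraMap_eq_smul_one, map_smul, L_one, smul_zero]

theorem L_pow (a : Fin 3) (φ : Sm) (n : ℕ) :
    L a (φ ^ (n + 1)) = ((n : ℝ) + 1) • (φ ^ n * L a φ) := by
  induction n with
  | zero => simp
  | succ n ih =>
    rw [pow_succ, L_mul, ih]
    ext x
    simp only [Sm.add_apply, Sm.mul_apply, Sm.smul_apply, Sm.pow_apply]
    push_cast
    ring

theorem L_cp (a : Fin 3) {g : ℝ → ℝ} {φ : Sm} (hg : ∀ x, ContDiffAt ℝ ∞ g (φ x)) :
    L a (cp g φ) = cp (deriv g) φ * L a φ := by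
  have hd : ∀ x, ContDiffAt ℝ ∞ (deriv g) (φ x) := fun x =>
    ((hg x).fderiv_right (m := ∞) (by simp)).clm_apply (contDiffAt_const (c := (1 : ℝ)))
  ext x
  rw [Sm.mul_apply, cp_apply hd, cp, dif_pos hg]
  have h1 : HasDerivAt g (deriv g (φ x)) (ext0 φ (x : E3)) := by
    rw [base_ext0_coe]; exact ((hg x).differentiableAt (by simp)).hasDerivAt
  have h2 := (h1.comp_hasFDerivAt (x : E3) (base_diff φ x).hasFDerivAt).fderiv
  show fderiv ℝ (g ∘ ext0 φ) (x : E3) (rv a x) = _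
  rw [h2]
  rfl

theorem base_L_X (a b : Fin 3) (x : S2) : L a (X b) x = rv a x b := by
  rw [X, L_ofFun]
  exact congrArg (fun T : E3 →L[ℝ] ℝ => T (rv a x))
    (EuclideanSpace.proj b : E3 →L[ℝ] ℝ).fderiv

@[simp] theorem L_X_self (a : Fin 3) : L a (X a) = 0 := by
  ext x
  rw [base_L_X]
  fin_cases a <;> simp [rv]

theorem L_X_add_one (a : Fin 3) : L a (X (a + 1)) = -X (a + 2) := by
  ext x
  rw [base_L_X]
  fin_cases a <;> simp [rv]

theorem L_X_add_two (a : Fin 3) : L a (X (a + 2)) = X (a + 1) := by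
  ext x
  rw [base_L_X]
  fin_cases a <;> simp [rv]

theorem base_L_L (a b : Fin 3) (φ : Sm) (x : S2) : L a (L b φ) x =
    fderiv ℝ (fderiv ℝ (ext0 φ)) (x : E3) (rv a x) (rv b x) +
      fderiv ℝ (ext0 φ) (x : E3) (rv b (rv a x)) := by
  have h1 := ((base_fderiv_smooth φ x).differentiableAt (by simp)).hasFDerivAt.clm_apply
    (base_rvL b).hasFDerivAt
  have h2 := L_ofFun a (fun y => fderiv ℝ (ext0 φ) y (rv b y))
    (fun x => (base_fderiv_smooth φ x).clm_apply (base_rvL b).contDiff.contDiffAt) x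
  refine h2.trans ?_
  rw [base_rv_eq b, h1.fderiv, add_comm]
  rfl

theorem base_rv_comm (a : Fin 3) (y : E3) :
    rv (a + 1) (rv a y) - rv a (rv (a + 1) y) = -rv (a + 2) y := by
  ext b
  fin_cases a <;> fin_cases b <;> simp [rv]

/-- commutation relations -/
theorem L_comm (a : Fin 3) (φ : Sm) :
    L a (L (a + 1) φ) - L (a + 1) (L a φ) = -L (a + 2) φ := by
  ext x
  have hs : IsSymmSndFDerivAt ℝ (ext0 φ) (x : E3) :=
    (φ.smoothAt (base_ne x)).isSymmSndFDerivAt (by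
      rw [minSmoothness_of_isRCLikeNormedField]; exact WithTop.coe_le_coe.2 le_top)
  rw [Sm.sub_apply, base_L_L, base_L_L, hs.eq (rv a x), add_sub_add_left_eq_sub, ← map_sub,
    base_rv_comm, map_neg]
  rfl

theorem base_sum_sq (x : S2) :
    (x : E3) 0 * (x : E3) 0 + (x : E3) 1 * (x : E3) 1 + (x : E3) 2 * (x : E3) 2 = 1 := by
  have h := EuclideanSpace.real_norm_sq_eq (x : E3)
  rw [base_norm, Fin.sum_univ_three] at h
  linarith

theorem sum_X_sq : ∑ a, X a * X a = 1 := by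
  ext x
  rw [Fin.sum_univ_three]
  exact base_sum_sq x

theorem sum_X_L (φ : Sm) : ∑ a, X a * L a φ = 0 := by
  ext x
  have h : ∑ a, (x : E3) a • rv a (x : E3) = 0 := by
    ext b
    fin_cases b <;> simp [rv, Fin.sum_univ_three] <;> ring
  have h2 := congrArg (fderiv ℝ (ext0 φ) (x : E3)) h
  rw [map_sum, map_zero] at h2
  rw [Sm.sum_apply]
  refine Eq.trans (Finset.sum_congr rfl fun a _ => ?_) h2
  rw [map_smul]
  rfl

/-- tangential derivative in the direction of a coordinate axis -/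
noncomputable def D (a : Fin 3) : Sm →ₗ[ℝ] Sm :=
  LinearMap.mulLeft ℝ (X (a + 2)) ∘ₗ L (a + 1) - LinearMap.mulLeft ℝ (X (a + 1)) ∘ₗ L (a + 2)

theorem D_def (a : Fin 3) (φ : Sm) :
    D a φ = X (a + 2) * L (a + 1) φ - X (a + 1) * L (a + 2) φ := rfl

theorem D_apply (a : Fin 3) (φ : Sm) (x : S2) :
    D a φ x = fderiv ℝ (ext0 φ) (x : E3) (EuclideanSpace.single a 1) := by
  have h : EuclideanSpace.single a (1 : ℝ) = (x : E3) (a + 2) • rv (a + 1) (x : E3) -
      (x : E3) (a + 1) • rv (a + 2) (x : E3) + (x : E3) a • (x : E3) := by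
    have := base_sum_sq x
    ext b
    fin_cases a <;> fin_cases b <;> simp [rv] <;> linarith
  rw [h, map_add, map_sub, map_smul, map_smul, map_smul, base_radial, smul_zero, add_zero]
  rfl

/-- derivative along a curve on the sphere -/
theorem hasDerivAt_curve (φ : Sm) {γ : ℝ → S2} {v : E3} {t : ℝ}
    (h : HasDerivAt (fun s => (γ s : E3)) v t) :
    HasDerivAt (fun s => φ (γ s)) (∑ a, v a * D a φ (γ t)) t := by
  have h1 := (base_diff φ (γ t)).hasFDerivAt.comp_hasDerivAt t h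
  have e : (ext0 φ ∘ fun s => (γ s : E3)) = fun s => φ (γ s) :=
    funext fun s => base_ext0_coe φ (γ s)
  have hv : v = ∑ a, v a • EuclideanSpace.single a (1 : ℝ) := by
    ext b
    fin_cases b <;> simp [Fin.sum_univ_three]
  rw [e] at h1
  refine h1.congr_deriv ?_
  rw [congrArg (fderiv ℝ (ext0 φ) (γ t : E3)) hv, map_sum]
  refine Finset.sum_congr rfl fun a _ => ?_
  rw [map_smul, D_apply]
  rfl

/-- the Laplacian -/
noncomputable def lap : Sm →ₗ[ℝ] Sm := ∑ a, L a ∘ₗ L a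

theorem lap_def (φ : Sm) : lap φ = ∑ a, L a (L a φ) := by
  rw [lap, LinearMap.sum_apply]
  rfl

/-- words in the rotation fields; the head of the list acts last -/
noncomputable def Lw : List (Fin 3) → Sm →ₗ[ℝ] Sm
  | [] => LinearMap.id
  | a :: w => L a ∘ₗ Lw w

@[simp] theorem Lw_nil (φ : Sm) : Lw [] φ = φ := rfl
@[simp] theorem Lw_cons (a : Fin 3) (w : List (Fin 3)) (φ : Sm) :
    Lw (a :: w) φ = L a (Lw w φ) := rfl

theorem Lw_append (v w : List (Fin 3)) (φ : Sm) : Lw (v ++ w) φ = Lw v (Lw w φ) := by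
  induction v with
  | nil => rfl
  | cons a v ih => rw [List.cons_append, Lw_cons, Lw_cons, ih]

/-- scalar product of gradients -/
noncomputable def gd (f g : Sm) : Sm := ∑ a, L a f * L a g

theorem abs_X_le (a : Fin 3) (x : S2) : |X a x| ≤ 1 := by
  have h := PiLp.norm_apply_le (x : E3) a
  rw [base_norm] at h
  exact h

/-- `C^k` bounds at frequency `lam` -/
def Cb (k : ℕ) (lam B : ℝ) (v : Sm) : Prop :=
  ∀ w : List (Fin 3), w.length ≤ k → ∀ x, |Lw w v x| ≤ B * lam ^ w.length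

theorem exists_Cb (k : ℕ) (v : Sm) : ∃ B, 0 ≤ B ∧ Cb k 1 B v := by
  choose C _ hC using fun w => (Lw w v).bounded
  obtain ⟨B, hB⟩ := ((List.finite_length_le (Fin 3) k).image C).bddAbove
  refine ⟨max B 0, le_max_right _ _, fun w hw x => ?_⟩
  rw [one_pow, mul_one]
  exact le_max_of_le_left ((hC w x).trans (hB ⟨w, hw, rfl⟩))

end Pool.Agent.Lib.MP_2fa2a2_gt.PI
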