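import Pool.Agent.Lib.MP_2fa2a2_gt.PI.SWkb

/-! The quadratic model in the frame of the height and the longitude. -/

namespace Pool.Agent.Lib.MP_2fa2a2_gt.PI

open Real Filter Set
open scoped ContDiff

theorem bil_XR (ψ : Sm) : ∑ a, X a * R (X a * ψ) = 0 := by
  have e : ∀ a, X a * R (X a * ψ) = ∑ b, X a * H a b (Dp (R (X b * ψ))) := fun a => by
    simp only [← R_XX, ← Finset.mul_sum, ← map_sum]
    congr 2
    simp only [Fin.sum_univ_three]
    linear_combination (-(X a * ψ)) * alg_s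
  simp only [e]
  rw [Finset.sum_comm]
  simp only [sum_X_H, Finset.sum_const_zero]

theorem bil_zR (ψ : Sm) : ∑ a, X a * R (D a (X 2) * ψ) = X 2 * R ψ := by
  have h := bil_XR (X 2 * ψ)
  simp only [D_X, sub_mul, map_sub, mul_sub, Finset.sum_sub_distrib, mul_assoc, h, sub_zero]
  simp [Fin.sum_univ_three, kd]

theorem bil_s1 (Y : Fin 3 → Sm) :
    ∑ a, ∑ b, X a * X b * R (D a (X 2) * Y b) = X 2 * ∑ b, X b * R (Y b) := by
  rw [Finset.sum_comm, Finset.mul_sum]
  refine Finset.sum_congr rfl fun b _ => ?_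
  rw [mul_left_comm, ← bil_zR, Finset.mul_sum]
  exact Finset.sum_congr rfl fun a _ => by ring

theorem bil_s2 (Y : Fin 3 → Sm) :
    ∑ a, ∑ b, X a * X b * R (D b (X 2) * Y a) = X 2 * ∑ b, X b * R (Y b) := by
  rw [Finset.sum_comm, ← bil_s1]
  simp only [mul_comm (X _) (X _)]

theorem bil_s3 (ψ : Sm) : ∑ a, ∑ b, X a * X b * R (L 2 (X a) * L 2 (X b) * ψ)
    = R (qq * ψ) - X 2 * X 2 * R ψ := by
  have e : ∀ a b, L 2 (X a) * L 2 (X b) * ψ = kd a b * (qq * ψ) - X a * (X b * (qq * ψ))
      - D a (X 2) * (D b (X 2) * ψ) := fun a b => by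
    have h := qq_D a (X b)
    rw [D_X a b, D_X 2 b, hess_kd_comm 2 b, mul_comm (X 2) (X b), ← D_X b 2] at h
    linear_combination (-ψ) * h
  have h1 : ∑ a, ∑ b, X a * X b * R (kd a b * (qq * ψ)) = R (qq * ψ) := by
    simp [Fin.sum_univ_three, kd]
    linear_combination R (qq * ψ) * alg_s
  have h2 : ∑ a, ∑ b, X a * X b * R (X a * (X b * (qq * ψ))) = 0 := by
    rw [Finset.sum_comm]
    refine Finset.sum_eq_zero fun b _ => ?_
    rw [← mul_zero (X b), ← bil_XR (X b * (qq * ψ)), Finset.mul_sum]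
    exact Finset.sum_congr rfl fun a _ => by ring
  simp only [e, map_sub, mul_sub, Finset.sum_sub_distrib, h1, h2, bil_s1, bil_zR]
  ring

/-- components of the gradient -/
def bilG (φ A B : Sm) : Prop := ∀ c, D c φ = A * D c (X 2) + B * L 2 (X c)

section
variable {f f' A A' B B' : Sm}

theorem bil_R2 (h : bilG f A B) (h' : bilG f' A' B') : R2 f f'
    = X 2 * X 2 * R (A * A' - B * B') + R (qq * (B * B')) - X 2 * R1 (A * B' + B * A') := by
  have e : ∀ a b, D a f * D b f' = D a (X 2) * (D b (X 2) * (A * A'))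
      + D a (X 2) * (L 2 (X b) * (A * B')) + D b (X 2) * (L 2 (X a) * (B * A'))
      + L 2 (X a) * L 2 (X b) * (B * B') := fun a b => by rw [h a, h' b]; ring
  simp only [R2, R1, e, map_add, mul_add, Finset.sum_add_distrib, bil_s1, bil_s2, bil_s3, bil_zR,
    map_sub]
  ring

theorem bil_gd (h : bilG f A B) (h' : bilG f' A' B') : gd f f' = qq * (A * A' + B * B') := by
  rw [gd_eq_D, Fin.sum_univ_three, h 0, h 1, h 2, h' 0, h' 1, h' 2]
  simp only [D_X, alg_20, alg_21, L_X_self, qq, alg_kd, alg_kd_ne (by decide : (0 : Fin 3) ≠ 2),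
    alg_kd_ne (by decide : (1 : Fin 3) ≠ 2)]
  linear_combination (A * A' * (X 2 * X 2) + B * B') * alg_s

theorem bilG.add (h : bilG f A B) (h' : bilG f' A' B') : bilG (f + f') (A + A') (B + B') :=
  fun c => by rw [map_add, h c, h' c]; ring

theorem bilG.ant (h : bilG f A B) : bilG (ant f) (-ant A) (ant B) := fun c => by
  have e := congrArg PI.ant (h c)
  simp only [map_add, map_mul, ant_D, ant_L, ant_X, map_neg] at e
  linear_combination -e

theorem bilG.evE (h : bilG f A B) : bilG (evE f) (odE A) (evE B) := fun c => by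
  simp only [PI.evE, odE, map_add, h c, h.ant c]; ring

theorem bilG.odE (h : bilG f A B) : bilG (odE f) (PI.evE A) (odE B) := fun c => by
  simp only [PI.evE, PI.odE, map_sub, h c, h.ant c]; ring

theorem bilG_prim (h : Zon A) : bilG (prim A) A 0 := fun c => by
  rw [D_prim h, zero_mul, add_zero]

theorem bilG_of (h1 : D 2 f = qq * A) (h2 : L 2 f = qq * B) : bilG f A B := fun c => by
  have h := qq_D c f
  rw [h1, h2] at h
  have e : qq * (D c f - (A * D c (X 2) + B * L 2 (X c))) = 0 := by linear_combination h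
  rw [← sub_eq_zero]
  ext x
  exact rotz_pole (Sm.continuous _) (fun y => congrArg (fun φ : Sm => φ y) e) x
end

theorem bil_R_ant (φ : Sm) : R (ant φ) = R φ :=
  (fnx_ant cR φ).symm.trans (mem_Ev.1 (R_mem_Ev φ))

theorem bil_R_evE (φ : Sm) : R (evE φ) = 2 * R φ := by
  rw [evE, map_add, bil_R_ant, two_mul]

theorem bil_R1_add (φ ψ : Sm) : R1 (φ + ψ) = R1 φ + R1 ψ := by
  simp only [R1, mul_add, map_add, Finset.sum_add_distrib, neg_add]

theorem bil_R1_odE (φ : Sm) : R1 (odE φ) = 2 * R1 φ := by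
  have e : ∀ a, R (L 2 (X a) * ant φ) = -R (L 2 (X a) * φ) := fun a => by
    rw [← bil_R_ant, map_mul, ant_ant, ant_L, ant_X, map_neg, neg_mul, map_neg]
  simp only [R1, odE, mul_sub, map_sub, e, Fin.sum_univ_three]
  ring

theorem bil_R1_zon {φ : Sm} (h : Zon φ) : R1 φ = 0 := by
  have e : ∀ a, L 2 (X a) * φ = -L a (prim φ) := fun a => by
    rw [L_prim h]
    rcases alg_fin a with rfl | rfl | rfl <;>
      simp only [alg_20, alg_21, alg_02, alg_12, L_X_self] <;> ring
  simp only [R1, e, map_neg, tau_R_L, mul_neg, Finset.sum_neg_distrib, sum_X_L, neg_zero]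

/-- functions that vanish on the southern half -/
def bilN (φ : Sm) : Prop := ∀ x : S2, (x : E3) 2 ≤ 0 → φ x = 0

theorem bilN.mul {φ ψ : Sm} (h : bilN φ) (h' : bilN ψ) : φ * ant ψ = 0 ∧ ant φ * ψ = 0 := by
  constructor <;> ext x <;> rw [Sm.mul_apply, ant_apply, Sm.zero_apply] <;>
    rcases le_total ((x : E3) 2) 0 with hx | hx
  · rw [h x hx, zero_mul]
  · rw [h' (neg x) (by simpa using hx), mul_zero]
  · rw [h' x hx, mul_zero]
  · rw [h (neg x) (by simpa using hx), zero_mul]

theorem bilN.ee {φ ψ : Sm} (h : bilN φ) (h' : bilN ψ) : evE φ * evE ψ = evE (φ * ψ) := by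
  simp only [evE, map_mul]
  linear_combination (h.mul h').1 + (h.mul h').2
theorem bilN.oo {φ ψ : Sm} (h : bilN φ) (h' : bilN ψ) : odE φ * odE ψ = evE (φ * ψ) := by
  simp only [evE, odE, map_mul]
  linear_combination -(h.mul h').1 - (h.mul h').2
theorem bilN.eo {φ ψ : Sm} (h : bilN φ) (h' : bilN ψ) : evE φ * odE ψ = odE (φ * ψ) := by
  simp only [evE, odE, map_mul]
  linear_combination -(h.mul h').1 + (h.mul h').2
theorem bilN.oe {φ ψ : Sm} (h : bilN φ) (h' : bilN ψ) : odE φ * evE ψ = odE (φ * ψ) := by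
  simp only [evE, odE, map_mul]
  linear_combination (h.mul h').1 - (h.mul h').2

theorem bil_ant_qq : ant qq = qq := by
  simp only [qq, map_sub, map_mul, ant_X, map_one]; ring

/-- the model for an odd part and an even part given by northern waves -/
theorem bil_Bq {a a' u u' v v' A A' B B' C C' E E' : Sm} (ha : Zon a) (ha' : Zon a')
    (he : a ∈ Ev) (he' : a' ∈ Ev) (hu : bilG u A B) (hu' : bilG u' A' B') (hv : bilG v C E)
    (hv' : bilG v' C' E') (nA : bilN A) (nA' : bilN A') (nB : bilN B) (nB' : bilN B')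
    (nC : bilN C) (nC' : bilN C') (nE : bilN E) (nE' : bilN E') :
    Bq (prim a + odE u + evE v) (prim a' + odE u' + evE v')
      = X 2 * X 2 * R (a * a' + evE (a * A' + a' * A + A * A' + C * C' - (B * B' + E * E')))
        + R (evE (qq * (B * B' + E * E')))
        - X 2 * R1 (odE (a * B' + a' * B + (A * B' + B * A') + (C * E' + E * C')))
        - 8 * gd (R v) (R v') := by
  have o1 := Od.add_mem (prim_odd he) (odE_mem u)
  have o2 := Od.add_mem (prim_odd he') (odE_mem u')
  have e1 := mem_Ev.1 he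
  have e2 := mem_Ev.1 he'
  have bl : ∀ p q p' q' : Sm, Bq (p + q) (p' + q') = Bq p p' + Bq q p' + (Bq p q' + Bq q q') :=
    fun p q p' q' => by simp only [map_add, LinearMap.add_apply]
  rw [bl, Bq_Ev_Od (evE_mem v) o2,
    Bq_comm _ (evE v'), Bq_Ev_Od (evE_mem v') o1, Bq_def, Bq_def, R_of_Od o2, tau_gd_zero,
    bil_R2 ((bilG_prim ha).add hu.odE) ((bilG_prim ha').add hu'.odE), bil_R2 hv.evE hv'.evE,
    bil_R_evE v, bil_R_evE v']
  have k1 : a * a' + evE (a * A' + a' * A + A * A' + C * C' - (B * B' + E * E'))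
      = ((a + evE A) * (a' + evE A') - (0 + odE B) * (0 + odE B'))
        + (odE C * odE C' - evE E * evE E') := by
    simp only [evE, odE, map_add, map_sub, map_mul, e1, e2]
    linear_combination -(nA.mul nA').1 - (nA.mul nA').2 - (nB.mul nB').1 - (nB.mul nB').2
      + (nC.mul nC').1 + (nC.mul nC').2 + (nE.mul nE').1 + (nE.mul nE').2
  have k2 : evE (qq * (B * B' + E * E'))
      = qq * ((0 + odE B) * (0 + odE B')) + qq * (evE E * evE E') := by
    simp only [evE, odE, map_add, map_mul, bil_ant_qq]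
    linear_combination qq * ((nB.mul nB').1 + (nB.mul nB').2 - (nE.mul nE').1 - (nE.mul nE').2)
  have k3 : odE (a * B' + a' * B + (A * B' + B * A') + (C * E' + E * C'))
      = ((a + evE A) * (0 + odE B') + (0 + odE B) * (a' + evE A'))
        + (odE C * evE E' + evE E * odE C') := by
    simp only [evE, odE, map_add, map_mul, e1, e2]
    linear_combination (nA.mul nB').1 - (nA.mul nB').2 - (nB.mul nA').1 + (nB.mul nA').2
      - (nC.mul nE').1 + (nC.mul nE').2 + (nE.mul nC').1 - (nE.mul nC').2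
  have k4 : gd (2 * R v) (2 * R v') = 4 * gd (R v) (R v') := by
    simp only [alg_gd, alg_L_two]; ring
  rw [k1, k2, k3, k4, map_add R, map_add R, bil_R1_add (_ + _)]
  ring

theorem bil_gd_evE {v v' C C' E E' : Sm} (hv : bilG v C E) (hv' : bilG v' C' E')
    (nC : bilN C) (nC' : bilN C') (nE : bilN E) (nE' : bilN E') :
    gd (evE v) (evE v') = evE (qq * (C * C' + E * E')) := by
  rw [bil_gd hv.evE hv'.evE, nC.oo nC', nE.ee nE']
  simp only [evE, map_add, map_mul, bil_ant_qq]
  ring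

section
variable {F G : ℕ → Sm} {α : ℝ}
theorem bil_Ng_add (h : Ng F) (h' : Ng G) : Ng fun m => F m + G m := fun N => (h N).add (h' N)
theorem bil_Ng_sub (h : Ng F) (h' : Ng G) : Ng fun m => F m - G m := fun N => (h N).sub (h' N)
theorem bil_Ng_mul (h : Ng F) (φ : Sm) : Ng fun m => φ * F m := by
  simpa only [mul_comm] using h.mul_FO (SO.const φ).FO
theorem bil_Ng_gd (h : Ng F) (h' : FO α G) : Ng fun m => gd (F m) (G m) := by
  have k : ∀ c, Ng fun m => L c (F m) * L c (G m) := fun c =>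
    Ng.mul_FO (F := fun m => L c (F m)) (fun N => (h N).L c) (h'.L c)
  simpa only [alg_gd] using bil_Ng_add (bil_Ng_add (k 0) (k 1)) (k 2)
theorem bil_Ng_gd2 {U U' : ℕ → Sm} {β : ℝ} (h : Ng fun m => F m - U m) (h' : Ng fun m => G m - U' m)
    (hU : FO α U) (hU' : FO β U') : Ng fun m => gd (F m) (G m) - gd (U m) (U' m) := by
  have k := bil_Ng_add (bil_Ng_add (bil_Ng_gd h hU') (bil_Ng_gd h' hU)) (bil_Ng_gd h (h' 0).FO)
  refine fun N => (k N).congr (Eventually.of_forall fun m => ?_)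
  simp only [alg_gd, map_sub]
  ring
end

end Pool.Agent.Lib.MP_2fa2a2_gt.PI
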