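import Pool.Agent.Lib.MP_2fa2a2_gt.PI.SZone
import Pool.Agent.Lib.MP_2fa2a2_gt.PI.Vf

/-! Orders of magnitude for families of symbols. -/

namespace Pool.Agent.Lib.MP_2fa2a2_gt.PI.Brk

open scoped ContDiff

theorem L_loc {U : Set S2} (hU : IsOpen U) {φ ψ : Sm} (h : ∀ x ∈ U, φ x = ψ x) (c : Fin 3) :
    ∀ x ∈ U, L c φ x = L c ψ x := fun x hx => by
  have hc : Continuous fun t => rotS (int_rot c t) x :=
    (continuous_iff_continuousAt.2 fun t =>
      (int_hasDerivAt_rot c t (x : E3)).continuousAt).subtype_mk _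
  have h1 := hc.tendsto 0
  rw [fm_rotS_zero] at h1
  have h2 : (fun t => φ (rotS (int_rot c t) x)) =ᶠ[nhds 0] fun t => ψ (rotS (int_rot c t) x) :=
    (h1.eventually (hU.mem_nhds hx)).mono fun t ht => h _ ht
  rw [← (fm_deriv c φ x).deriv, h2.deriv_eq, (fm_deriv c ψ x).deriv]

theorem D_loc {U : Set S2} (hU : IsOpen U) {φ ψ : Sm} (h : ∀ x ∈ U, φ x = ψ x) (c : Fin 3) :
    ∀ x ∈ U, D c φ x = D c ψ x := fun x hx => by
  simp only [D_def, Sm.sub_apply, Sm.mul_apply, L_loc hU h _ x hx]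

/-- a large parameter and an open set for every index -/
structure Sc (ι : Type) where
  M : ι → ℝ
  U : ι → Set S2
  hM : ∀ i, 1 ≤ M i
  hU : ∀ i, IsOpen (U i)

variable {ι : Type} {S : Sc ι} {e k n n' : ℕ} {F G A B : ι → Fm → ℝ}

/-- equality on the open sets -/
def Eu (S : Sc ι) (F G : ι → Fm → ℝ) : Prop := ∀ i (p : Fm), p.x ∈ S.U i → F i p = G i p

/-- size at most `M ^ n` -/
def Ob (S : Sc ι) (n : ℕ) (F : ι → Fm → ℝ) : Prop :=
  ∃ C, 0 ≤ C ∧ ∀ i (p : Fm), p.x ∈ S.U i → |F i p| ≤ C * S.M i ^ n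

/-- size at most `M ^ n`, each of `k` derivatives costs `M ^ e` -/
def Bj (S : Sc ι) (e : ℕ) : ℕ → ℕ → (ι → Fm → ℝ) → Prop
  | 0, n, F => (∀ i, F i ∈ Sy) ∧ Ob S n F
  | k + 1, n, F => ((∀ i, F i ∈ Sy) ∧ Ob S n F) ∧ ∀ c, Bj S e k (n + e) fun i => LL c (F i)

theorem Sc.pos (S : Sc ι) (i : ι) : 0 < S.M i := one_pos.trans_le (S.hM i)

theorem Ob.congr (h : Ob S n F) (he : Eu S G F) : Ob S n G := by
  obtain ⟨C, hC, h⟩ := h
  exact ⟨C, hC, fun i p hp => he i p hp ▸ h i p hp⟩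

theorem Ob.mono (h : Ob S n F) (hn : n ≤ n') : Ob S n' F := by
  obtain ⟨C, hC, h⟩ := h
  exact ⟨C, hC, fun i p hp => (h i p hp).trans
    (mul_le_mul_of_nonneg_left (pow_le_pow_right₀ (S.hM i) hn) hC)⟩

theorem Ob.add (h : Ob S n F) (h' : Ob S n G) : Ob S n (F + G) := by
  obtain ⟨C, hC, h⟩ := h
  obtain ⟨C', hC', h'⟩ := h'
  refine ⟨C + C', by positivity, fun i p hp => (abs_add_le _ _).trans ?_⟩
  rw [add_mul]
  exact add_le_add (h i p hp) (h' i p hp)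

theorem Ob.mul (h : Ob S n F) (h' : Ob S n' G) : Ob S (n + n') (F * G) := by
  obtain ⟨C, hC, h⟩ := h
  obtain ⟨C', hC', h'⟩ := h'
  refine ⟨C * C', by positivity, fun i p hp => (fm_abs_mul (h i p hp) (h' i p hp)).trans_eq ?_⟩
  ring

theorem Ob.neg (h : Ob S n F) : Ob S n (-F) := by
  obtain ⟨C, hC, h⟩ := h
  exact ⟨C, hC, fun i p hp => (abs_neg (F i p)).trans_le (h i p hp)⟩

theorem Ob.pw (S : Sc ι) (n : ℕ) : Ob S n fun i _ => S.M i ^ n :=
  ⟨1, zero_le_one, fun i _ _ => by rw [one_mul, abs_of_pos (pow_pos (S.pos i) n)]⟩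

theorem Bj.base (h : Bj S e k n F) : (∀ i, F i ∈ Sy) ∧ Ob S n F := by
  cases k with
  | zero => exact h
  | succ k => exact h.1

theorem Bj.mem (h : Bj S e k n F) (i : ι) : F i ∈ Sy := h.base.1 i
theorem Bj.ob (h : Bj S e k n F) : Ob S n F := h.base.2
theorem Bj.ll (h : Bj S e (k + 1) n F) (c : Fin 3) : Bj S e k (n + e) fun i => LL c (F i) := h.2 c

theorem Bj.mono {e' k' : ℕ} (h : Bj S e k n F) (he : e ≤ e') (hk : k' ≤ k) (hn : n ≤ n') :
    Bj S e' k' n' F := by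
  induction k' generalizing k n n' F with
  | zero => exact ⟨h.mem, h.ob.mono hn⟩
  | succ k' ih =>
    obtain ⟨k, rfl⟩ : ∃ j, k = j + 1 := ⟨k - 1, by omega⟩
    exact ⟨⟨h.mem, h.ob.mono hn⟩, fun c => ih (h.ll c) (by omega) (by omega)⟩

theorem Bj.up (h : Bj S e k n F) (hn : n ≤ n') : Bj S e k n' F := h.mono le_rfl le_rfl hn
theorem Bj.dn {k' : ℕ} (h : Bj S e k n F) (hk : k' ≤ k) : Bj S e k' n F := h.mono le_rfl hk le_rfl

theorem Eu.ll (he : Eu S G F) (c : Fin 3) : Eu S (fun i => LL c (G i)) fun i => LL c (F i) :=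
  fun i _ hp => LL_congr c (Filter.mem_of_superset
    (((S.hU i).preimage fm_cont_x).mem_nhds hp) fun q hq => he i q hq)

theorem Bj.congr (h : Bj S e k n F) (hG : ∀ i, G i ∈ Sy) (he : Eu S G F) : Bj S e k n G := by
  induction k generalizing n F G with
  | zero => exact ⟨hG, h.ob.congr he⟩
  | succ k ih =>
    exact ⟨⟨hG, h.ob.congr he⟩, fun c => ih (h.ll c) (fun i => LL_mem c (hG i)) (he.ll c)⟩

theorem Bj.of_eq (h : Bj S e k n F) (he : ∀ i p, G i p = F i p) : Bj S e k n G := by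
  rwa [show G = F from funext fun i => funext (he i)]

theorem Bj.add (h : Bj S e k n F) (h' : Bj S e k n G) : Bj S e k n (F + G) := by
  induction k generalizing n F G with
  | zero => exact ⟨fun i => add_mem (h.mem i) (h'.mem i), h.ob.add h'.ob⟩
  | succ k ih =>
    exact ⟨⟨fun i => add_mem (h.mem i) (h'.mem i), h.ob.add h'.ob⟩, fun c =>
      (ih (h.ll c) (h'.ll c)).of_eq fun i => congrFun (LL_add c (h.mem i) (h'.mem i))⟩

theorem Bj.mul (h : Bj S e k n F) (h' : Bj S e k n' G) : Bj S e k (n + n') (F * G) := by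
  induction k generalizing n n' F G with
  | zero => exact ⟨fun i => mul_mem (h.mem i) (h'.mem i), h.ob.mul h'.ob⟩
  | succ k ih =>
    refine ⟨⟨fun i => mul_mem (h.mem i) (h'.mem i), h.ob.mul h'.ob⟩, fun c => ?_⟩
    exact (((ih (h.ll c) (h'.dn k.le_succ)).up (by omega)).add
      ((ih (h.dn k.le_succ) (h'.ll c)).up (by omega))).of_eq
      fun i => congrFun (LL_mul c (h.mem i) (h'.mem i))

theorem Bj.cst {r : ι → ℝ} (h : Ob S n fun i _ => r i) : Bj S e k n fun i _ => r i := by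
  induction k generalizing n r with
  | zero => exact ⟨fun i => Sy.algebraMap_mem (r i), h⟩
  | succ k ih =>
    refine ⟨⟨fun i => Sy.algebraMap_mem (r i), h⟩, fun c => (ih (r := fun _ => 0)
      ⟨0, le_rfl, fun _ _ _ => by simp⟩).of_eq fun i => congrFun (LL_const c (r i))⟩

theorem Bj.fix {a : Fm → ℝ} (ha : a ∈ Sy) : Bj S e k n fun _ => a := by
  have h0 : ∀ {a : Fm → ℝ}, a ∈ Sy → ∀ n, Ob S n fun _ => a := fun ha n => by
    obtain ⟨C, hC⟩ := (isCompact_range (Sy_continuous ha).abs).bddAbove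
    refine Ob.mono ⟨max C 0, le_max_right _ _, fun i p _ => ?_⟩ n.zero_le
    rw [pow_zero, mul_one]
    exact le_max_of_le_left (hC ⟨p, rfl⟩)
  induction k generalizing n a with
  | zero => exact ⟨fun _ => ha, h0 ha n⟩
  | succ k ih => exact ⟨⟨fun _ => ha, h0 ha n⟩, fun c => ih (LL_mem c ha)⟩

theorem Bj.pw (S : Sc ι) (e k n : ℕ) : Bj S e k n fun i _ => S.M i ^ n := Bj.cst (Ob.pw S n)

theorem Bj.num (r : ℝ) : Bj S e k 0 fun _ _ => r := Bj.fix (Sy.algebraMap_mem r)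

theorem Bj.mul0 (h : Bj S e k 0 F) (h' : Bj S e k n G) : Bj S e k n (F * G) :=
  (h.mul h').up (by omega)

theorem Bj.neg (h : Bj S e k n F) : Bj S e k n (-F) :=
  ((Bj.num (-1)).mul0 h).of_eq fun _ _ => (neg_one_mul _).symm

theorem Bj.sub (h : Bj S e k n F) (h' : Bj S e k n G) : Bj S e k n (F - G) :=
  (h.add h'.neg).of_eq fun _ _ => sub_eq_add_neg _ _

theorem Bj.sum {T : Fin 3 → ι → Fm → ℝ} (h : ∀ c, Bj S e k n (T c)) :
    Bj S e k n fun i p => ∑ c, T c i p :=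
  (((h 0).add (h 1)).add (h 2)).of_eq fun _ _ => Fin.sum_univ_three _

/-- families of functions of the base point -/
def PX (φ : ι → Sm) : ι → Fm → ℝ := fun i => px (φ i)

variable {φ ψ : ι → Sm}

theorem Bj.L (h : Bj S e (k + 1) n (PX φ)) (c : Fin 3) :
    Bj S e k (n + e) (PX fun i => L c (φ i)) :=
  (h.ll c).of_eq fun i => congrFun (LL_px c (φ i)).symm

theorem Bj.X (c : Fin 3) : Bj S e k 0 (PX fun _ : ι => X c) := Bj.fix (px_mem _)

theorem Bj.D (h : Bj S e (k + 1) n (PX φ)) (c : Fin 3) :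
    Bj S e k (n + e) (PX fun i => D c (φ i)) :=
  ((Bj.X _).mul0 (h.L _)).sub ((Bj.X _).mul0 (h.L _))

theorem Bj.of_Cb {C : ℝ} (h : ∀ i, Cb k (S.M i ^ e) (C * S.M i ^ n) (φ i)) (hC : 0 ≤ C) :
    Bj S e k n (PX φ) := by
  induction k generalizing n φ with
  | zero => exact ⟨fun i => px_mem _, C, hC, fun i p _ => (h i).abs_le _⟩
  | succ k ih =>
    refine ⟨⟨fun i => px_mem _, C, hC, fun i p _ => (h i).abs_le _⟩, fun c =>
      (ih (φ := fun i => PI.L c (φ i)) fun i => ?_).of_eq fun i => congrFun (LL_px c (φ i))⟩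
    rw [pow_add, ← mul_assoc]
    exact (h i).L c

theorem Bj.cp {g : ℝ → ℝ} (hg : ContDiff ℝ ∞ g) (h : Bj S 0 k 0 (PX φ)) :
    Bj S 0 k 0 (PX fun i => cp g (φ i)) := by
  have h0 : ∀ {g : ℝ → ℝ}, ContDiff ℝ ∞ g → Ob S 0 (PX fun i => PI.cp g (φ i)) := fun {g} hg => by
    obtain ⟨C, -, h⟩ := h.ob
    obtain ⟨K, hK⟩ := ((isCompact_Icc (a := -C) (b := C)).image hg.continuous.abs).bddAbove
    refine ⟨max K 0, le_max_right _ _, fun i p hp => ?_⟩
    have h1 := h i p hp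
    rw [pow_zero, mul_one] at h1 ⊢
    rw [PX, px, cp_apply fun _ => hg.contDiffAt]
    exact le_max_of_le_left (hK ⟨_, abs_le.1 h1, rfl⟩)
  induction k generalizing g with
  | zero => exact ⟨fun i => px_mem _, h0 hg⟩
  | succ k ih =>
    refine ⟨⟨fun i => px_mem _, h0 hg⟩, fun c =>
      ((ih (hg.iterate_deriv 1) (h.dn k.le_succ)).mul (h.L c)).of_eq fun i p => ?_⟩
    rw [PX, LL_px, L_cp c fun _ => hg.contDiffAt]
    rfl

theorem Bj.JJ (h : Bj S e (k + 1) n F) : Bj S e k (n + e) fun i => JJ (F i) :=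
  Bj.sum fun c => (Bj.X c).mul0 (h.ll c)

/-- derivative along a field of directions -/
noncomputable def dv (η : Fin 3 → ι → Fm → ℝ) (φ : ι → Sm) : ι → Fm → ℝ :=
  fun i p => ∑ b, D b (φ i) p.x * η b i p

/-- the direction -/
noncomputable def eXi : Fin 3 → ι → Fm → ℝ := fun b _ => pi' (X b)
/-- the orthogonal direction -/
def eOm : Fin 3 → ι → Fm → ℝ := fun b _ p => p.om b

variable {η : Fin 3 → ι → Fm → ℝ}

theorem Bj.xi (b : Fin 3) : Bj S e k 0 (eXi b) := Bj.fix (pi'_mem _)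
theorem Bj.om (b : Fin 3) : Bj S e k 0 (eOm b) := Bj.fix (om_mem _)

theorem Bj.dv (h : Bj S e (k + 1) n (PX φ)) (hη : ∀ b, Bj S e k 0 (η b)) :
    Bj S e k (n + e) (dv η φ) := Bj.sum fun b => (h.D b).mul (hη b)

theorem dv_add (η : Fin 3 → ι → Fm → ℝ) (φ ψ : ι → Sm) (i : ι) (p : Fm) :
    dv η (φ + ψ) i p = dv η φ i p + dv η ψ i p := by
  simp only [dv, Pi.add_apply, map_add, Sm.add_apply, Fin.sum_univ_three]
  ring

theorem dv_sub (η : Fin 3 → ι → Fm → ℝ) (φ ψ : ι → Sm) (i : ι) (p : Fm) :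
    dv η (φ - ψ) i p = dv η φ i p - dv η ψ i p := by
  simp only [dv, Pi.sub_apply, map_sub, Sm.sub_apply, Fin.sum_univ_three]
  ring

theorem dv_mul (η : Fin 3 → ι → Fm → ℝ) (φ ψ : ι → Sm) (i : ι) (p : Fm) :
    dv η (φ * ψ) i p = dv η φ i p * ψ i p.x + φ i p.x * dv η ψ i p := by
  simp only [dv, Pi.mul_apply, D_mul, Sm.add_apply, Sm.mul_apply, Fin.sum_univ_three]
  ring

/-- powers of the large parameter -/
noncomputable def mp (S : Sc ι) (n : ℕ) : ι → Sm := fun i => algebraMap ℝ Sm (S.M i ^ n)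

theorem mp_apply (n : ℕ) (i : ι) (x : S2) : mp S n i x = S.M i ^ n := rfl

theorem Bj.mp (S : Sc ι) (e k n : ℕ) : Bj S e k n (PX (mp S n)) := Bj.pw S e k n

theorem dv_mp (η : Fin 3 → ι → Fm → ℝ) (n : ℕ) (i : ι) (p : Fm) : dv η (mp S n) i p = 0 := by
  simp only [dv, mp, D_algebraMap, Sm.zero_apply, zero_mul, Finset.sum_const_zero]

theorem Bj.PV (σ : ℝ) {v : ι → Fin 3 → Sm} (hv : ∀ c, Bj S 1 (k + 1) n (PX fun i => v i c))
    (h : Bj S 1 (k + 1) n' F) : Bj S 1 k (n + n' + 2) fun i => PV σ (v i) (F i) :=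
  Bj.sum fun c => ((((((hv c).dn k.le_succ).mul (h.ll c)).up (by omega)).sub
    ((((Bj.om c).mul0 ((hv c).dv Bj.om)).mul h.JJ).up (by omega))).sub
    (((((Bj.num σ).mul0 (Bj.om c)).mul0 ((hv c).dv Bj.xi)).mul (h.dn k.le_succ)).up
      (by omega))).add ((((hv c).L c).mul (h.dn k.le_succ)).up (by omega))

theorem Bj.br {v v' : ι → Fin 3 → Sm} (hv : ∀ c, Bj S 1 (k + 1) n (PX fun i => v i c))
    (hv' : ∀ c, Bj S 1 (k + 1) n' (PX fun i => v' i c)) (c : Fin 3) :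
    Bj S 1 k (n + n' + 1) (PX fun i => br (v i) (v' i) c) := by
  refine ((Bj.sum fun d => ((((hv d).dn k.le_succ).mul ((hv' c).L d)).up (by omega)).sub
    ((((hv' d).dn k.le_succ).mul ((hv c).L d)).up (by omega))).add
    (Bj.sum fun d => Bj.sum fun b => ((Bj.num (ev d b c)).mul0
      (((hv d).dn k.le_succ).mul ((hv' b).dn k.le_succ))).up (by omega))).of_eq fun i p => ?_
  simp only [PX, px, PI.br, Sm.add_apply, Sm.sum_apply]
  rfl

/-- leading term -/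
def Ld (S : Sc ι) (n : ℕ) (F A : ι → Fm → ℝ) : Prop :=
  Ob S 0 A ∧ Ob S n fun i p => S.M i * (F i p - S.M i ^ n * A i p)

theorem Ld.ob (h : Ld S n F A) : Ob S n F := by
  obtain ⟨h1, C, hC, h2⟩ := h
  refine Ob.congr (Ob.add (F := fun i p => F i p - S.M i ^ n * A i p) ⟨C, hC, fun i p hp => ?_⟩
    ((Ob.pw S n).mul h1)) fun i p _ => (sub_add_cancel _ _).symm
  refine le_trans ?_ (h2 i p hp)
  rw [abs_mul, abs_of_pos (S.pos i)]
  exact le_mul_of_one_le_left (abs_nonneg _) (S.hM i)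

theorem Ld.congr {F' A' : ι → Fm → ℝ} (h : Ld S n F A) (hF : Eu S F' F) (hA : Eu S A' A) :
    Ld S n F' A' :=
  ⟨h.1.congr hA, h.2.congr fun i p hp => by rw [hF i p hp, hA i p hp]⟩

theorem Ld.add (h : Ld S n F A) (h' : Ld S n G B) : Ld S n (F + G) (A + B) :=
  ⟨h.1.add h'.1, (h.2.add h'.2).congr fun i p _ => by
    simp only [Pi.add_apply]
    ring⟩

theorem Ld.sub (h : Ld S n F A) (h' : Ld S n G B) : Ld S n (F - G) (A - B) :=
  ⟨(h.1.add h'.1.neg).congr fun _ _ _ => sub_eq_add_neg _ _,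
    (h.2.add h'.2.neg).congr fun i p _ => by
    simp only [Pi.add_apply, Pi.sub_apply, Pi.neg_apply]
    ring⟩

theorem Ld.mul (h : Ld S n F A) (h' : Ld S n' G B) : Ld S (n + n') (F * G) (A * B) :=
  ⟨h.1.mul h'.1, ((h.2.mul h'.ob).add (((Ob.pw S n).mul h.1).mul h'.2)).congr fun i p _ => by
    simp only [Pi.add_apply, Pi.mul_apply]
    ring⟩

theorem Ld.self (h : Ob S 0 A) : Ld S 0 A A :=
  ⟨h, 0, le_rfl, fun i p _ => by simp⟩

theorem Ld.pw (S : Sc ι) (n : ℕ) : Ld S n (fun i _ => S.M i ^ n) 1 :=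
  ⟨⟨1, zero_le_one, fun i p _ => by simp⟩, 0, le_rfl, fun i p _ => by simp⟩

theorem Ld.of_ob (hA : Ob S 0 A) (h : Ob S n fun i p => F i p - S.M i ^ (n + 1) * A i p) :
    Ld S (n + 1) F A :=
  ⟨hA, (((Ob.pw S 1).mul h).mono (by omega)).congr fun i p _ => by
    simp only [Pi.mul_apply, pow_one]⟩

/-- a smooth function that agrees with the inverse to the right of `c` -/
noncomputable def iv (c t : ℝ) : ℝ := t / (t ^ 2 + expNegInvGlue (c - t))

theorem iv_smooth {c : ℝ} (hc : 0 < c) : ContDiff ℝ ∞ (iv c) := by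
  refine contDiff_id.div ((contDiff_id.pow 2).add
    (expNegInvGlue.contDiff.comp (contDiff_const.sub contDiff_id))) fun t => ne_of_gt ?_
  rcases eq_or_ne t 0 with rfl | h
  · exact add_pos_of_nonneg_of_pos (sq_nonneg _) (expNegInvGlue.pos_of_pos (by simpa using hc))
  · exact add_pos_of_pos_of_nonneg (by positivity) (expNegInvGlue.nonneg _)

theorem iv_mul {c t : ℝ} (hc : 0 < c) (h : c ≤ t) : iv c t * t = 1 := by
  have h0 : t ≠ 0 := (hc.trans_le h).ne'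
  rw [iv, expNegInvGlue.zero_of_nonpos (sub_nonpos.2 h)]
  field_simp
  ring

open MeasureTheory in
/-- the data of the statement -/
structure Dt (j : ℕ) (C0 t ℓ C1 : ℝ) where
  m : ℕ
  κ1 : ℝ
  u : Sm
  χ : Sm
  d : ZD
  μ : Measure Fm
  hm : 1 ≤ m
  hκ : 0 < κ1
  prob : IsProbabilityMeasure μ
  z : Zone C0 t ℓ C1 κ1 m u χ d
  tro : TrO j u (1 / m ^ 20) μ
  tre : TrE j u χ (κ1 / m ^ 20) μ

section
variable {j : ℕ} {C0 t ℓ C1 : ℝ}

theorem zone_open (d : ZD) : IsOpen {x : S2 | |X 2 x - d.zc| < 4 * d.ρ} :=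
  isOpen_lt ((X 2).continuous.sub continuous_const).abs continuous_const

/-- the frequency and the open zone -/
noncomputable def sc : Sc (Dt j C0 t ℓ C1) where
  M i := i.m
  U i := {x | |X 2 x - i.d.zc| < 4 * i.d.ρ}
  hM i := by exact_mod_cast i.hm
  hU i := zone_open i.d

def fa : Dt j C0 t ℓ C1 → Sm := fun i => i.d.a
def fw : Dt j C0 t ℓ C1 → Sm := fun i => i.d.w
def sn : Dt j C0 t ℓ C1 → Sm := fun i => i.d.sn
def cs : Dt j C0 t ℓ C1 → Sm := fun i => i.d.cs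
noncomputable def fo : Dt j C0 t ℓ C1 → Sm := fa * fw
noncomputable def be : Dt j C0 t ℓ C1 → Sm := fun _ => cp (iv C0⁻¹) qq
noncomputable def ai : Dt j C0 t ℓ C1 → Sm := fun i => cp (iv C0⁻¹) i.d.a
/-- the derivative along the gradient of the odd part -/
noncomputable def dd (φ : Dt j C0 t ℓ C1 → Sm) : Dt j C0 t ℓ C1 → Sm := fun i => i.d.a * D 2 (φ i)
/-- the wave with amplitude `u` -/
noncomputable def wv (u : Dt j C0 t ℓ C1 → Sm) : Dt j C0 t ℓ C1 → Sm := mp sc 1 * (cs * u)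
noncomputable def f1 : Dt j C0 t ℓ C1 → Sm := wv be
noncomputable def g1 : Dt j C0 t ℓ C1 → Sm := wv (be * (fw * ai))
noncomputable def oo : Dt j C0 t ℓ C1 → Sm := mp sc 2 * (fo * fo)

noncomputable def Wk (η : Fin 3 → ι → Fm → ℝ) (f f' h h' : ι → Sm) : ι → Fm → ℝ :=
  PX f' * dv η h - PX f * dv η h'
noncomputable def VA (η : Fin 3 → Dt j C0 t ℓ C1 → Fm → ℝ) (f f' g g' : Dt j C0 t ℓ C1 → Sm) :
    Dt j C0 t ℓ C1 → Fm → ℝ := PX fa * eXi 2 * Wk η f f' g g' + eOm 2 * Wk η f f' f f'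
noncomputable def VC (f f' g g' : Dt j C0 t ℓ C1 → Sm) : Dt j C0 t ℓ C1 → Fm → ℝ :=
  PX fa * eOm 2 * Wk eOm f f' g g' - eXi 2 * Wk eOm f f' f f' - VA eXi f f' g g'
noncomputable def A1 (η : Fin 3 → Dt j C0 t ℓ C1 → Fm → ℝ) : Dt j C0 t ℓ C1 → Fm → ℝ :=
  VA η f1 (dd f1) g1 (dd g1)
noncomputable def A2 (η : Fin 3 → Dt j C0 t ℓ C1 → Fm → ℝ) : Dt j C0 t ℓ C1 → Fm → ℝ :=
  PX oo * VA η f1 (dd (dd f1)) g1 (dd (dd g1))
    + VA η (dd f1) (dd (dd (dd f1))) (dd g1) (dd (dd (dd g1)))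
noncomputable def J1 : Dt j C0 t ℓ C1 → Fm → ℝ := VC f1 (dd f1) g1 (dd g1)
noncomputable def J2 : Dt j C0 t ℓ C1 → Fm → ℝ :=
  PX oo * VC f1 (dd (dd f1)) g1 (dd (dd g1))
    + VC (dd f1) (dd (dd (dd f1))) (dd g1) (dd (dd (dd g1)))
/-- the curvature term -/
noncomputable def Th : Dt j C0 t ℓ C1 → Fm → ℝ :=
  A1 eOm * J2 - A2 eOm * J1 + (fun _ _ => (2 - 4 * j : ℝ)) * (A1 eXi * A2 eOm - A2 eXi * A1 eOm)

variable (h0 : 1 ≤ C0) (h1 : 1 ≤ C1)
include h0 in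
theorem fa_bd : Bj sc 0 12 0 (PX (fa : Dt j C0 t ℓ C1 → Sm)) :=
  Bj.of_Cb (C := C0) (fun i => by
    rw [pow_zero, mul_one]; exact i.z.a_Cb) (by linarith)
include h1 in
theorem fw_bd : Bj sc 0 12 0 (PX (fw : Dt j C0 t ℓ C1 → Sm)) :=
  Bj.of_Cb (C := C1) (fun i => by
    rw [pow_zero, mul_one]; exact i.z.w_Cb) (by linarith)
include h1 in
theorem sn_bd : Bj sc 1 12 0 (PX (sn : Dt j C0 t ℓ C1 → Sm)) :=
  Bj.of_Cb (C := C1) (fun i => by
    rw [pow_zero, mul_one, pow_one]; exact i.z.sn_Cb) (by linarith)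
include h1 in
theorem cs_bd : Bj sc 1 12 0 (PX (cs : Dt j C0 t ℓ C1 → Sm)) :=
  Bj.of_Cb (C := C1) (fun i => by
    rw [pow_zero, mul_one, pow_one]; exact i.z.cs_Cb) (by linarith)
theorem be_bd : Bj sc 0 12 0 (PX (be : Dt j C0 t ℓ C1 → Sm)) := Bj.fix (px_mem _)
include h0 in
theorem ai_bd : Bj sc 0 12 0 (PX (ai : Dt j C0 t ℓ C1 → Sm)) :=
  (fa_bd h0).cp (iv_smooth (by positivity))
include h0 h1 in
theorem fo_bd : Bj sc 0 12 0 (PX (fo : Dt j C0 t ℓ C1 → Sm)) := (fa_bd h0).mul (fw_bd h1)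
include h0 h1 in
theorem ug_bd : Bj sc 0 12 0 (PX (be * (fw * ai) : Dt j C0 t ℓ C1 → Sm)) :=
  be_bd.mul ((fw_bd h1).mul (ai_bd h0))
include h0 in
theorem Bj.dd {φ : Dt j C0 t ℓ C1 → Sm} (h : Bj sc e (k + 1) n (PX φ)) (hk : k ≤ 12) :
    Bj sc e k (n + e) (PX (dd φ)) := ((fa_bd h0).mono e.zero_le hk le_rfl).mul0 (h.D 2)
include h1 in
theorem Bj.wv {u : Dt j C0 t ℓ C1 → Sm} (h : Bj sc 0 12 0 (PX u)) : Bj sc 1 12 1 (PX (wv u)) :=
  (Bj.mp sc 1 12 1).mul ((cs_bd h1).mul (h.mono zero_le_one le_rfl le_rfl))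

include h0 in
theorem ai_mul (i : Dt j C0 t ℓ C1) (x : S2) : ai i x * i.d.a x = 1 := by
  have hc : 0 < C0⁻¹ := by positivity
  rw [ai, cp_apply fun _ => (iv_smooth hc).contDiffAt]
  exact iv_mul hc (i.z.a_ge x)

include h0 in
theorem be_mul (i : Dt j C0 t ℓ C1) {x : S2} (hx : x ∈ sc.U i) : be i x * qq x = 1 := by
  have hc : 0 < C0⁻¹ := by positivity
  rw [be, cp_apply fun _ => (iv_smooth hc).contDiffAt]
  refine iv_mul hc ?_
  have h2 := abs_lt.1 (show |X 2 x - i.d.zc| < 4 * i.d.ρ from hx)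
  have h3 := i.z.lo
  have h4 := i.z.hi
  rw [qq, Sm.sub_apply, Sm.mul_apply, Sm.one_apply]
  nlinarith [h2.1, h2.2]
end

end Pool.Agent.Lib.MP_2fa2a2_gt.PI.Brk
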