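import Pool.Agent.Lib.MP_2fa2a2_gt.PI.SChain

/-! Exact identities for the comparison of the equation with the quadratic model. -/

namespace Pool.Agent.Lib.MP_2fa2a2_gt.PI

theorem chb_DT {u : Sm} (hu : Good u) (h : ℝ) (j : ℕ) : ∀ φ y : Sm,
    inner ℝ φ (XX u (DD h j y)) = inner ℝ (DT u h j φ) (XX u y) := by
  induction j with
  | zero => intro φ y; rw [leib_DD_zero, DT, leib_DG_zero]
  | succ j ih =>
    intro φ y
    have e : ∀ a z, inner ℝ φ (XX u (L a (L a z))) = inner ℝ (Lt u a (Lt u a φ)) (XX u z) := by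
      intro a z
      rw [inner_def, inner_def, hu.piola', hu.piola', neg_neg]
    rw [leib_DD_succ, DT, leib_DG_succ', ← DT, ← ih, map_sub, map_smul, lap_def, map_sum,
      inner_sub_right, inner_sub_left, inner_smul_right, real_inner_smul_left, inner_sum,
      sum_inner]
    simp only [e]

theorem chb_Vb (f y ψ : Sm) : inner ℝ (Vb f y) ψ = -inner ℝ y (gd f ψ) := by
  simp only [Vb, gd, LinearMap.sum_apply, LinearMap.comp_apply, LinearMap.mulLeft_apply,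
    sum_inner, inner_sum, inner_L, inner_mul, Finset.sum_neg_distrib]

theorem chb_Vb_add (f g y : Sm) : Vb (f + g) y = Vb f y + Vb g y := by
  simp only [Vb, LinearMap.sum_apply, LinearMap.comp_apply, LinearMap.mulLeft_apply, map_add,
    add_mul, Finset.sum_add_distrib]

theorem chb_Vb_smul (r : ℝ) (f y : Sm) : Vb (r • f) y = r • Vb f y := by
  simp only [Vb, LinearMap.sum_apply, LinearMap.comp_apply, LinearMap.mulLeft_apply, map_smul,
    smul_mul_assoc, Finset.smul_sum]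

theorem chb_DD_R (h : ℝ) (j : ℕ) (φ : Sm) : DD h j (R φ) = R (DD h j φ) := fn_comm _ _ φ
theorem chb_DD_Ri (h : ℝ) (j : ℕ) (φ : Sm) : Ri (DD h j φ) = DD h j (Ri φ) := fn_comm _ _ φ
theorem chb_DD_Dp (h : ℝ) (j : ℕ) (φ : Sm) : DD h j (Dp φ) = Dp (DD h j φ) := fn_comm _ _ φ
theorem chb_inner_DD (h : ℝ) (j : ℕ) (φ ψ : Sm) :
    inner ℝ φ (DD h j ψ) = inner ℝ (DD h j φ) ψ := (inner_fn _ φ ψ).symm
theorem chb_inner_Dp (φ ψ : Sm) : inner ℝ φ (Dp ψ) = inner ℝ (Dp φ) ψ := (inner_fn _ φ ψ).symm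

theorem chb_Ri_R {y : Sm} (hy : y ∈ Ev) (φ : Sm) : inner ℝ (Ri y) (R φ) = inner ℝ y φ := by
  rw [← tau_inner_R, R_Ri, evp_of_Ev hy]

theorem chb_I_Ri (y : Sm) : I (Ri y) = I y := by
  rw [Ri, I_fn PG_cRi, funk_zero, inv_one, one_mul]

theorem chb_one (φ : Sm) : inner ℝ (1 : Sm) φ = I φ := by rw [inner_def, one_mul]

theorem chb_Br_add (k h : ℝ) (j : ℕ) (u u' v : Sm) :
    Br k h j (u + u') v = Br k h j u v + Br k h j u' v := by
  simp only [Br, add_mul, tau_gd_add, tau_gd_add', map_add, map_sub, map_smul, smul_add]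
  abel

theorem chb_Br_smul (k h : ℝ) (j : ℕ) (r : ℝ) (u v : Sm) :
    Br k h j (r • u) v = r • Br k h j u v := by
  simp only [Br, smul_mul_assoc, tau_gd_smul, tau_gd_smul', map_sub, map_smul]
  module

theorem chb_Br_comm (k h : ℝ) (j : ℕ) (u v : Sm) : Br k h j u v = Br k h j v u := by
  simp only [Br, mul_comm u v, gd_comm u v, add_comm (gd u (DD h j v))]

theorem chb_Br_sq (k h : ℝ) (j : ℕ) (r : ℝ) (u : Sm) :
    Br k h j (r • u) (r • u) = r ^ 2 • Br k h j u u := by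
  rw [chb_Br_smul, chb_Br_comm, chb_Br_smul, smul_smul, sq]

theorem chb_Br_exp (k h : ℝ) (j : ℕ) (r : ℝ) (u v : Sm) :
    Br k h j (u + r • v) (u + r • v)
      = Br k h j u u + r • (Br k h j v (u + r • v) + Br k h j v u) := by
  rw [chb_Br_add, chb_Br_smul, chb_Br_comm k h j u (u + r • v), chb_Br_add k h j u (r • v) u,
    chb_Br_smul]
  module

/-- the second order part of `FF` -/
noncomputable def chbG (f : Sm) : Sm := R ((2 : ℝ) • Dp (Qf f f))

theorem chb_FF (ε : ℝ) (f : Sm) : FF ε f = (2 : ℝ) • R f + ε • chbG f := by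
  simp only [FF, chbG, map_add, map_smul]
  module

/-- the three lower order terms -/
noncomputable def chbL (k h : ℝ) (j : ℕ) (u : Sm) : Sm := Br k h j u u - P1 k j u (DD h j u)
/-- the lower order term of the determinant -/
noncomputable def chbB (h : ℝ) (j : ℕ) (u : Sm) : Sm :=
  DD h j ((2 : ℝ) • Dp (Qf u u)) - Bop u (DD h j u)

theorem chb_Qf (ψ f : Sm) : 2 * inner ℝ ψ (Qf f f)
    = inner ℝ (Dop ψ) (f * f) - inner ℝ (Dop ψ) (gd f f) + beta ψ f f := by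
  have h1 := I_mul_Qf f ψ f
  rw [Qf_comm ψ f, ← I_mul_Qf_symm ψ f f, map_sub] at h1
  rw [inner_def, inner_def, inner_def, beta_def, h1, mul_comm (f * f)]
  ring

theorem chb_t0 (j : ℕ) (f y φ : Sm) : t0 j f y φ
    = 2 * (inner ℝ (Vb ((2 : ℝ) • R f) (Ri y)) (R φ) - inner ℝ (Vb f y) φ)
      + 2 * inner ℝ (Ri y) (P1 1 j ((2 : ℝ) • R f) (R φ))
      + inner ℝ y (Bop f φ) - inner ℝ y (P1 2 j f φ) := rfl

theorem chb_tt (j : ℕ) (ε : ℝ) (f y φ : Sm) : tt j ε f y φ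
    = 2 / ε * (inner ℝ (XX (ε • FF ε f) (Ri y)) (R φ) - inner ℝ (XX (ε • f) y) φ)
      + 2 * inner ℝ (XX (ε • FF ε f) (Ri y)) (P1 1 j ((2 : ℝ) • R f) (R φ))
      + inner ℝ (XX (ε • FF ε f) (Ri y)) (R (Bop f φ))
      - inner ℝ (XX (ε • f) y) (P1 2 j f φ) := rfl

theorem chb_EE (h : ℝ) (j : ℕ) (ε C : ℝ) (f y : Sm) : EE h j ε C f y
    = (ε ^ 2)⁻¹ * (inner ℝ (pk 1 (ε • FF ε f)) (XX (ε • FF ε f) (Ri (DD h j y)))
      - (1 + ε ^ 2 * C) * inner ℝ (p2 (ε • f)) (XX (ε • f) (DD h j y))) := rfl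

/-- the exact identity for the quadratic model -/
theorem chb_ident (h : ℝ) (j : ℕ) (f : Sm) {y : Sm} (hy : y ∈ Ev) :
    tau f f (DD h j y) - t0 j f y (DD h j f)
      = inner ℝ (Ri y) (R (chbB h j f) + chbL 1 h j ((2 : ℝ) • R f))
        - inner ℝ y (chbL 2 h j f) := by
  have hD : Dop (Dp (DD h j y)) = DD h j y := Dop_Dp_Ev (fn_mem_Ev _ hy)
  have h1 := chb_Qf (Dp (DD h j y)) f
  rw [hD] at h1
  have h2 : inner ℝ y (DD h j (Dp (Qf f f))) = inner ℝ (Dp (DD h j y)) (Qf f f) := by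
    rw [chb_inner_DD, chb_inner_Dp]
  have h3 : tg f f (DD h j y) = inner ℝ (Ri y) (DD h j (gd (R f) (R f))) := by
    rw [tg_def, gam_def, chb_inner_DD, inner_def, chb_DD_Ri]
  rw [tau_def, tb_def, h3, chb_t0, chb_Vb, chb_Vb, inner_add_right, chb_Ri_R hy]
  simp only [chbB, chbL, Br, map_sub, map_smul, inner_sub_right, inner_add_right,
    inner_smul_right, tau_gd_smul, tau_gd_smul', chb_DD_R, smul_mul_assoc, mul_smul_comm, h2,
    ← chb_inner_DD] at h1 ⊢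
  linear_combination -h1

/-- remainder in the chain rule -/
noncomputable def chbE (k h : ℝ) (j : ℕ) (u : Sm) : Sm :=
  DT u h j (pk k u) - 1 - k • DD h j u - Br k h j u u

theorem chb_chain {u : Sm} (hu : Good u) (k h : ℝ) (j : ℕ) (y : Sm) :
    inner ℝ (pk k u) (XX u (DD h j y)) = I y + k * inner ℝ (XX u y) (DD h j u)
      + inner ℝ (XX u y) (Br k h j u u) + inner ℝ (XX u y) (chbE k h j u) := by
  rw [chb_DT hu, real_inner_comm, ← hu.I_XX, ← chb_one, real_inner_comm (XX u y) 1, chbE,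
    inner_sub_right, inner_sub_right, inner_sub_right, inner_smul_right]
  ring

theorem chb_split1 (h : ℝ) (j : ℕ) {ε : ℝ} (hε : ε ≠ 0) (C : ℝ) {f y : Sm} (hy : y ∈ Ev)
    (h1 : Good (ε • FF ε f)) (h2 : Good (ε • f)) :
    EE h j ε C f y - tt j ε f y (DD h j f)
        - (tau f f (DD h j y) - C * I y - t0 j f y (DD h j f))
      = inner ℝ ((XX (ε • FF ε f) - LinearMap.id : Sm →ₗ[ℝ] Sm) (Ri y))
          (R (chbB h j f) + chbL 1 h j ((2 : ℝ) • R f))
        - inner ℝ ((XX (ε • f) - LinearMap.id : Sm →ₗ[ℝ] Sm) y) (chbL 2 h j f)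
        + ε * inner ℝ (XX (ε • FF ε f) (Ri y))
          (Br 1 h j (chbG f) (FF ε f) + Br 1 h j (chbG f) ((2 : ℝ) • R f))
        - ε * C * (2 * inner ℝ (XX (ε • f) y) (DD h j f)
          + ε * inner ℝ (XX (ε • f) y) (Br 2 h j f f))
        + (ε ^ 2)⁻¹ * (inner ℝ (XX (ε • FF ε f) (Ri y)) (chbE 1 h j (ε • FF ε f))
          - (1 + ε ^ 2 * C) * inner ℝ (XX (ε • f) y) (chbE 2 h j (ε • f))) := by
  have e0 := chb_ident h j f hy
  have e1 : Br 1 h j (FF ε f) (FF ε f) = Br 1 h j ((2 : ℝ) • R f) ((2 : ℝ) • R f)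
      + ε • (Br 1 h j (chbG f) (FF ε f) + Br 1 h j (chbG f) ((2 : ℝ) • R f)) := by
    rw [chb_FF, chb_Br_exp]
  have e2 : DD h j (FF ε f) = (2 : ℝ) • R (DD h j f)
      + ε • R (DD h j ((2 : ℝ) • Dp (Qf f f))) := by
    rw [chb_FF, map_add, map_smul, map_smul, chbG, chb_DD_R, chb_DD_R]
  have e3 : DD h j ((2 : ℝ) • R f) = (2 : ℝ) • R (DD h j f) := by rw [map_smul, chb_DD_R]
  rw [chb_EE, chb_tt, chb_DD_Ri, ← h2.pk_two, chb_chain h1, chb_chain h2, chb_I_Ri, chb_Br_sq,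
    chb_Br_sq, map_smul (DD h j), map_smul (DD h j), e1, e2, LinearMap.sub_apply,
    LinearMap.sub_apply, LinearMap.id_apply, LinearMap.id_apply, inner_sub_left, inner_sub_left]
  have e4 : tau f f (DD h j y) - C * I y - t0 j f y (DD h j f)
      = inner ℝ (Ri y) (R (chbB h j f) + chbL 1 h j ((2 : ℝ) • R f))
        - inner ℝ y (chbL 2 h j f) - C * I y := by linear_combination e0
  rw [e4]
  generalize XX (ε • FF ε f) (Ri y) = z1
  generalize XX (ε • f) y = z2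
  generalize inner ℝ (Ri y) (R (chbB h j f) + chbL 1 h j ((2 : ℝ) • R f)) = a1
  generalize inner ℝ y (chbL 2 h j f) = a2
  rw [chbB, chbL, chbL, e3, map_sub R, map_smul (P1 1 j _)]
  simp only [inner_add_right, inner_sub_right, inner_smul_right]
  field_simp
  ring

theorem chb_split2 (j : ℕ) {ε : ℝ} (hε : ε ≠ 0) {f y : Sm} (hy : y ∈ Ev) (φ : Sm) :
    tt j ε f y φ - t0 j f y φ
      = 2 / ε * (inner ℝ ((XX (ε • FF ε f) - LinearMap.id - Vb (ε • FF ε f) : Sm →ₗ[ℝ] Sm) (Ri y)) (R φ)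
          - inner ℝ ((XX (ε • f) - LinearMap.id - Vb (ε • f) : Sm →ₗ[ℝ] Sm) y) φ)
        - 2 * ε * inner ℝ (Ri y) (gd (chbG f) (R φ))
        + inner ℝ ((XX (ε • FF ε f) - LinearMap.id : Sm →ₗ[ℝ] Sm) (Ri y))
          ((2 : ℝ) • P1 1 j ((2 : ℝ) • R f) (R φ) + R (Bop f φ))
        - inner ℝ ((XX (ε • f) - LinearMap.id : Sm →ₗ[ℝ] Sm) y) (P1 2 j f φ) := by
  have e1 : Vb (ε • FF ε f) (Ri y)
      = ε • (Vb ((2 : ℝ) • R f) (Ri y) + ε • Vb (chbG f) (Ri y)) := by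
    rw [chb_Vb_smul, chb_FF, chb_Vb_add, chb_Vb_smul ε]
  have e2 := chb_Vb (chbG f) (Ri y) (R φ)
  rw [chb_tt, chb_t0]
  simp only [LinearMap.sub_apply, LinearMap.id_apply]
  rw [e1, chb_Vb_smul ε f]
  generalize XX (ε • FF ε f) (Ri y) = z1
  generalize XX (ε • f) y = z2
  generalize P1 1 j ((2 : ℝ) • R f) (R φ) = w
  generalize Vb ((2 : ℝ) • R f) (Ri y) = w'
  simp only [inner_add_right, inner_sub_left, inner_add_left, inner_smul_right,
    real_inner_smul_left, chb_Ri_R hy, e2]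
  field_simp
  ring

end Pool.Agent.Lib.MP_2fa2a2_gt.PI
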