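import Pool.Agent.Lib.MP_2fa2a2_gt.PI.Funk

/-! The Funk transform as a mean over great circles. -/

namespace Pool.Agent.Lib.MP_2fa2a2_gt.PI

open Real

/-- point of the great circle spanned by `e1, e2` -/
noncomputable def circ (e1 e2 : E3) (τ : ℝ) : S2 := nrmz (cos τ • e1 + sin τ • e2)

/-- mean over a great circle -/
noncomputable def cav (F : S2 → ℝ) (e1 e2 : E3) : ℝ :=
  (2 * π)⁻¹ * ∫ τ in (0 : ℝ)..2 * π, F (circ e1 e2 τ)

/-- `e1, e2` is an orthonormal basis of the plane orthogonal to `u` -/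
structure Fr (u : S2) (e1 e2 : E3) : Prop where
  n1 : ‖e1‖ = 1
  n2 : ‖e2‖ = 1
  o12 : inner ℝ e1 e2 = (0 : ℝ)
  o1 : inner ℝ (u : E3) e1 = (0 : ℝ)
  o2 : inner ℝ (u : E3) e2 = (0 : ℝ)

theorem exists_Fr (u : S2) : ∃ e1 e2, Fr u e1 e2 := by
  have hv : Orthonormal ℝ (({2} : Set (Fin 3)).domRestrict fun _ => (u : E3)) :=
    ⟨fun _ => base_norm u, fun i j hij =>
      (hij (Subtype.ext (i.2.trans j.2.symm))).elim⟩
  obtain ⟨b, hb⟩ := hv.exists_orthonormalBasis_extension_of_card_eq (by simp)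
  have h2 : (u : E3) = b 2 := (hb 2 rfl).symm
  refine ⟨b 0, b 1, b.orthonormal.1 0, b.orthonormal.1 1, b.orthonormal.2 (by decide), ?_, ?_⟩
  · rw [h2]; exact b.orthonormal.2 (by decide)
  · rw [h2]; exact b.orthonormal.2 (by decide)

/-- the coordinate points of the sphere -/
noncomputable def circ_pt (a : Fin 3) : S2 := ⟨EuclideanSpace.single a 1, by simp⟩

theorem circ_pt_coe (a : Fin 3) : (circ_pt a : E3) = EuclideanSpace.single a 1 := rfl

theorem circ_rot_e0 (θ : ℝ) : rotZ θ (EuclideanSpace.single 0 1) =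
    cos θ • EuclideanSpace.single 0 (1 : ℝ) + sin θ • EuclideanSpace.single 1 (1 : ℝ) := by
  ext a
  rcases alg_fin a with rfl | rfl | rfl <;> simp

theorem circ_rot_n (θ : ℝ) : rotS (rotZ θ) (circ_pt 2) = circ_pt 2 := by
  refine Subtype.ext ?_
  rw [rotS_coe, circ_pt_coe]
  ext a
  rcases alg_fin a with rfl | rfl | rfl <;> simp

theorem circ_frame {u : S2} {e1 e2 : E3} (h : Fr u e1 e2) : ∃ g : E3 ≃ₗᵢ[ℝ] E3,
    g (EuclideanSpace.single 0 1) = e1 ∧ g (EuclideanSpace.single 1 1) = e2 ∧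
      g (EuclideanSpace.single 2 1) = u := by
  have o21 : inner ℝ e2 e1 = (0 : ℝ) := by rw [real_inner_comm]; exact h.o12
  have o1 : inner ℝ e1 (u : E3) = (0 : ℝ) := by rw [real_inner_comm]; exact h.o1
  have o2 : inner ℝ e2 (u : E3) = (0 : ℝ) := by rw [real_inner_comm]; exact h.o2
  have hv : Orthonormal ℝ ((Set.univ : Set (Fin 3)).domRestrict ![e1, e2, (u : E3)]) := by
    constructor
    · rintro ⟨i, -⟩
      rcases alg_fin i with rfl | rfl | rfl
      · exact h.n1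
      · exact h.n2
      · exact base_norm u
    · rintro ⟨i, hi⟩ ⟨j, hj⟩ hij
      have hij' : i ≠ j := fun e => hij (Subtype.ext e)
      rcases alg_fin i with rfl | rfl | rfl <;> rcases alg_fin j with rfl | rfl | rfl
      · exact (hij' rfl).elim
      · exact h.o12
      · exact o1
      · exact o21
      · exact (hij' rfl).elim
      · exact o2
      · exact h.o1
      · exact h.o2
      · exact (hij' rfl).elim
  obtain ⟨b, hb⟩ := hv.exists_orthonormalBasis_extension_of_card_eq (by simp)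
  exact ⟨b.repr.symm, (b.repr_symm_single 0).trans (hb 0 trivial),
    (b.repr_symm_single 1).trans (hb 1 trivial), (b.repr_symm_single 2).trans (hb 2 trivial)⟩

theorem circ_eq {e1 e2 : E3} {g : E3 ≃ₗᵢ[ℝ] E3} (h1 : g (EuclideanSpace.single 0 1) = e1)
    (h2 : g (EuclideanSpace.single 1 1) = e2) (τ : ℝ) :
    (rotS g (rotS (rotZ τ) (circ_pt 0)) : E3) = cos τ • e1 + sin τ • e2 := by
  rw [rotS_coe, rotS_coe, circ_pt_coe, circ_rot_e0, map_add, map_smul, map_smul, h1, h2]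

theorem circ_eq' {e1 e2 : E3} {g : E3 ≃ₗᵢ[ℝ] E3} (h1 : g (EuclideanSpace.single 0 1) = e1)
    (h2 : g (EuclideanSpace.single 1 1) = e2) (τ : ℝ) :
    circ e1 e2 τ = rotS g (rotS (rotZ τ) (circ_pt 0)) := by
  rw [circ, ← circ_eq h1 h2, nrmz_coe]

theorem circ_coe {u : S2} {e1 e2 : E3} (h : Fr u e1 e2) (τ : ℝ) :
    (circ e1 e2 τ : E3) = cos τ • e1 + sin τ • e2 := by
  obtain ⟨g, h1, h2, -⟩ := circ_frame h
  rw [circ_eq' h1 h2, circ_eq h1 h2]

theorem circ_D_pole (y : Sm) : D 2 y (circ_pt 2) = 0 := by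
  rw [D_apply]
  exact base_radial y (circ_pt 2)

theorem circ_R_P {l : ℕ} {y : Sm} (hy : P l y = y) : R y = cR l • y := by
  have h := fn_P PG_cR l y
  rw [hy] at h
  exact h

theorem circ_harm (l : ℕ) {y : Sm} (hy : P l y = y) : R (X 2 * y) (circ_pt 2) = 0 := by
  obtain ⟨yp, ym, h1, h2, h3, h4, h5⟩ := ladder l 2 hy
  have h6 := circ_D_pole y
  rw [h5] at h6
  rw [h4, map_add, circ_R_P h1, circ_R_P h3]
  simp only [Sm.add_apply, Sm.smul_apply] at h6 ⊢
  cases l with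
  | zero =>
    rw [h2 rfl]
    simp [cR]
  | succ l =>
    have e : cR (l + 1 + 1) = -((l : ℝ) + 1) / (l + 2) * cR l := rfl
    have hl : (l : ℝ) + 2 ≠ 0 := by positivity
    rw [e, Nat.add_sub_cancel]
    push_cast at h6
    have h7 : ym (circ_pt 2) = ((l : ℝ) + 1) / (l + 2) * yp (circ_pt 2) := by
      field_simp
      linarith
    rw [h7]
    ring

theorem circ_poly {N : ℕ} {ψ : Sm} (h : ψ ∈ Poly N) : R (X 2 * ψ) (circ_pt 2) = 0 := by
  rw [← Pi_of_mem h, Pi_eq_sum, Finset.mul_sum, map_sum, Sm.sum_apply]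
  exact Finset.sum_eq_zero fun l _ => circ_harm l (by rw [P_P, if_pos rfl])

theorem circ_aeval (p : Polynomial ℝ) :
    R (Polynomial.aeval (X 2) p) (circ_pt 2) = p.eval 0 := by
  induction p using Polynomial.induction_on' with
  | add p q hp hq => rw [map_add, map_add, Sm.add_apply, hp, hq, Polynomial.eval_add]
  | monomial n c =>
    rw [Polynomial.aeval_monomial, ← Algebra.smul_def, map_smul, Sm.smul_apply,
      Polynomial.eval_monomial]
    cases n with
    | zero => rw [pow_zero, R_one, pow_zero, Sm.one_apply]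
    | succ n =>
      rw [pow_succ', circ_poly (poly_pow_mem (poly_X_mem 2) n), pow_succ, mul_zero, mul_zero,
        mul_zero]

theorem circ_aeval_apply (p : Polynomial ℝ) (x : S2) :
    (Polynomial.aeval (X 2) p : Sm) x = p.eval ((x : E3) 2) := by
  induction p using Polynomial.induction_on' with
  | add p q hp hq => rw [map_add, Sm.add_apply, hp, hq, Polynomial.eval_add]
  | monomial n c =>
    rw [Polynomial.aeval_monomial, Sm.mul_apply, Sm.algebraMap_apply, Sm.pow_apply, X_apply,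
      Polynomial.eval_monomial]

theorem circ_mean (c : ℝ) : (2 * π)⁻¹ * ∫ _ in (0 : ℝ)..2 * π, c = c := by
  have := pi_pos.ne'
  rw [intervalIntegral.integral_const, sub_zero, smul_eq_mul]
  field_simp

theorem circ_zav_pole (F : S2 → ℝ) : zav F (circ_pt 2) = F (circ_pt 2) := by
  unfold zav
  simp only [circ_rot_n]
  exact circ_mean _

theorem circ_zav_aeval (p : Polynomial ℝ) (x : S2) :
    zav (Polynomial.aeval (X 2) p : Sm) x = p.eval ((x : E3) 2) := by
  unfold zav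
  simp only [circ_aeval_apply, rotS_coe, rotZ_2]
  exact circ_mean _

theorem circ_zav_sub (φ ψ : Sm) (x : S2) : zav (φ - ψ : Sm) x = zav φ x - zav ψ x := by
  have h := fnx_zav_add (φ - ψ) ψ x
  rw [sub_add_cancel] at h
  linarith

theorem circ_pole_poly {N : ℕ} {φ : Sm} (h : φ ∈ Poly N) :
    R φ (circ_pt 2) = zav φ (circ_pt 0) := by
  obtain ⟨p, -, hp⟩ := zav_Poly h
  simp only [poly_Zf_apply] at hp
  have h1 := zav_fn cR (φ := φ - Polynomial.aeval (X 2) p)
    (fun x => by rw [circ_zav_sub, hp, circ_zav_aeval, sub_self]) (circ_pt 2)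
  rw [circ_zav_pole, map_sub, Sm.sub_apply] at h1
  have h2 := circ_aeval p
  have h3 : ((circ_pt 0 : S2) : E3) 2 = 0 := by simp [circ_pt_coe]
  rw [hp, h3, ← h2]
  exact sub_eq_zero.1 h1

theorem circ_mean_le {f : ℝ → ℝ} {B : ℝ} (h : ∀ t, |f t| ≤ B) :
    |(2 * π)⁻¹ * ∫ t in (0 : ℝ)..2 * π, f t| ≤ B := by
  have h0 : 0 < 2 * π := two_pi_pos
  have h1 := intervalIntegral.norm_integral_le_of_norm_le_const (a := 0) (b := 2 * π) (f := f)
    (C := B) fun t _ => h t
  rw [Real.norm_eq_abs, sub_zero, abs_of_pos h0] at h1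
  rw [abs_mul, abs_of_pos (inv_pos.2 h0), inv_mul_le_iff₀ h0]
  linarith

theorem circ_pole (φ : Sm) : R φ (circ_pt 2) = zav φ (circ_pt 0) := by
  obtain ⟨C, hC, hs⟩ := sobolev
  have hs' : ∀ (ψ : Sm) x, |ψ x| ≤ C * nrm 1 ((0 : ℕ) + 3) ψ := fun ψ x => by
    have h := hs 0 ψ [] le_rfl x
    rw [List.length_nil, pow_zero, mul_one] at h
    exact h
  have key : ∀ N, |R φ (circ_pt 2) - zav φ (circ_pt 0)| ≤
      2 * C * ‖fn (wt 1 ((0 : ℕ) + 3)) φ - Pi N (fn (wt 1 ((0 : ℕ) + 3)) φ)‖ := fun N => by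
    have e : ‖fn (wt 1 ((0 : ℕ) + 3)) φ - Pi N (fn (wt 1 ((0 : ℕ) + 3)) φ)‖ =
        nrm 1 ((0 : ℕ) + 3) (φ - Pi N φ) := by rw [nrm, map_sub, fn_Pi]
    have h1 := hs' (R (φ - Pi N φ)) (circ_pt 2)
    have h2 := mul_le_mul_of_nonneg_left (Bd_R le_rfl ((0 : ℕ) + 3) (φ - Pi N φ)) hC
    have h3 : |zav (φ - Pi N φ : Sm) (circ_pt 0)| ≤ C * nrm 1 ((0 : ℕ) + 3) (φ - Pi N φ) :=
      circ_mean_le fun t => hs' _ _
    have h4 := circ_pole_poly (Pi_mem N φ)
    rw [map_sub, Sm.sub_apply] at h1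
    rw [circ_zav_sub] at h3
    rw [map_sub] at h2
    rw [e]
    have h5 := abs_le.1 h1
    have h6 := abs_le.1 h3
    exact abs_le.2 ⟨by linarith [h5.1, h6.2], by linarith [h5.2, h6.1]⟩
  have h1 := ge_of_tendsto' ((tendsto_Pi (fn (wt 1 ((0 : ℕ) + 3)) φ)).const_mul (2 * C)) key
  rw [mul_zero] at h1
  exact sub_eq_zero.1 (abs_nonpos_iff.1 h1)

theorem R_apply {u : S2} {e1 e2 : E3} (h : Fr u e1 e2) (φ : Sm) : R φ u = cav φ e1 e2 := by
  obtain ⟨g, h1, h2, h3⟩ := circ_frame h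
  have e : rotS g (circ_pt 2) = u := Subtype.ext h3
  have h4 := circ_pole (act g φ)
  have h5 : R (act g φ) = act g (R φ) := fn_act cR g φ
  rw [h5, act_apply, e] at h4
  rw [h4]
  unfold zav cav
  simp only [act_apply, circ_eq' h1 h2]

theorem abs_R_le {φ : Sm} {B : ℝ} (h : ∀ x, |φ x| ≤ B) (u : S2) : |R φ u| ≤ B := by
  obtain ⟨e1, e2, hf⟩ := exists_Fr u
  rw [R_apply hf]
  exact circ_mean_le fun t => h _

end Pool.Agent.Lib.MP_2fa2a2_gt.PI
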