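import Mathlib

/-! Parametric interval integrals and pointwise Leibniz bounds. -/

namespace Pool.Agent.Lib.MP_2fa2a2_gt.PI

open Real Filter Set Topology MeasureTheory
open scoped ContDiff

section param
variable {E : Type} [NormedAddCommGroup E] [NormedSpace ℝ E] [FiniteDimensional ℝ E]

theorem cls_hasFDerivAt_int {F : E × ℝ → ℝ} (hF : ContDiff ℝ 1 F) (a b : ℝ) (p : E) :
    HasFDerivAt (fun q : E => ∫ t in a..b, F (q, t))
      (∫ t in a..b, (fderiv ℝ F (p, t)).comp (ContinuousLinearMap.inl ℝ E ℝ)) p := by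
  have : ProperSpace E := FiniteDimensional.proper_real E
  have hc : Continuous F := hF.continuous
  have hd : Continuous (fderiv ℝ F) := hF.continuous_fderiv one_ne_zero
  have hd' : Continuous (fun x : E × ℝ => (fderiv ℝ F x).comp (ContinuousLinearMap.inl ℝ E ℝ)) :=
    hd.clm_comp continuous_const
  have hK : IsCompact (Metric.closedBall p 1 ×ˢ uIcc a b) :=
    (isCompact_closedBall p 1).prod isCompact_uIcc
  obtain ⟨C, hC⟩ := hK.exists_bound_of_continuousOn hd'.continuousOn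
  have h1 : ∀ q : E, Continuous (fun t : ℝ => F (q, t)) := fun q =>
    hc.comp (continuous_const.prodMk continuous_id)
  have h2 : Continuous
      (fun t : ℝ => (fderiv ℝ F (p, t)).comp (ContinuousLinearMap.inl ℝ E ℝ)) :=
    hd'.comp (continuous_const.prodMk continuous_id)
  refine intervalIntegral.hasFDerivAt_integral_of_dominated_of_fderiv_le
    (F := fun q t => F (q, t))
    (F' := fun q t => (fderiv ℝ F (q, t)).comp (ContinuousLinearMap.inl ℝ E ℝ))
    (bound := fun _ => C) (Metric.closedBall_mem_nhds p one_pos)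
    (Eventually.of_forall fun q => (h1 q).aestronglyMeasurable) ((h1 p).intervalIntegrable a b)
    h2.aestronglyMeasurable (Eventually.of_forall fun t ht q hq => ?_)
    (continuous_const.intervalIntegrable a b) (Eventually.of_forall fun t _ q _ => ?_)
  · exact hC (q, t) ⟨hq, uIoc_subset_uIcc ht⟩
  · have h3 : HasFDerivAt F (fderiv ℝ F (q, t)) (q, t) :=
      (hF.differentiable one_ne_zero _).hasFDerivAt
    exact h3.comp q (hasFDerivAt_prodMk_left q t)

theorem cls_fderiv_int {F : E × ℝ → ℝ} (hF : ContDiff ℝ 1 F) (a b : ℝ) (p v : E) :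
    fderiv ℝ (fun q : E => ∫ t in a..b, F (q, t)) p v
      = ∫ t in a..b, fderiv ℝ F (p, t) (v, 0) := by
  have hd : Continuous (fderiv ℝ F) := hF.continuous_fderiv one_ne_zero
  have hd' : Continuous (fun x : E × ℝ => (fderiv ℝ F x).comp (ContinuousLinearMap.inl ℝ E ℝ)) :=
    hd.clm_comp continuous_const
  have h2 : Continuous
      (fun t : ℝ => (fderiv ℝ F (p, t)).comp (ContinuousLinearMap.inl ℝ E ℝ)) :=
    hd'.comp (continuous_const.prodMk continuous_id)
  rw [(cls_hasFDerivAt_int hF a b p).fderiv,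
    ContinuousLinearMap.intervalIntegral_apply (h2.intervalIntegrable a b)]
  simp

theorem cls_int_nat (n : ℕ) : ∀ {F : E × ℝ → ℝ}, ContDiff ℝ ∞ F → ∀ a b : ℝ,
    ContDiff ℝ n (fun q : E => ∫ t in a..b, F (q, t)) := by
  induction n with
  | zero =>
    intro F hF a b
    have h1 : ContDiff ℝ 1 F := hF.of_le (by exact_mod_cast le_top)
    have : Differentiable ℝ (fun q : E => ∫ t in a..b, F (q, t)) := fun p =>
      (cls_hasFDerivAt_int h1 a b p).differentiableAt
    simpa using this.continuous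
  | succ n ih =>
    intro F hF a b
    have h1 : ContDiff ℝ 1 F := hF.of_le (by exact_mod_cast le_top)
    rw [Nat.cast_succ, contDiff_succ_iff_fderiv_apply]
    refine ⟨fun p => (cls_hasFDerivAt_int h1 a b p).differentiableAt, by simp, fun v => ?_⟩
    have h2 : ContDiff ℝ ∞ (fun x : E × ℝ => fderiv ℝ F x (v, 0)) :=
      (hF.fderiv_right (m := ∞) (by simp)).clm_apply contDiff_const
    have h3 := ih h2 a b
    convert h3 using 2 with p
    exact cls_fderiv_int h1 a b p v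

/-- smoothness of a parametric interval integral -/
theorem cls_int_smooth {F : E × ℝ → ℝ} (hF : ContDiff ℝ ∞ F) (a b : ℝ) :
    ContDiff ℝ ∞ (fun q : E => ∫ t in a..b, F (q, t)) :=
  contDiff_infty.2 fun n => cls_int_nat n hF a b

end param

section leib
variable {E : Type} [NormedAddCommGroup E] [NormedSpace ℝ E]

theorem cls_mul_bound {f g : E → ℝ} {x : E} (hf : ContDiffAt ℝ ∞ f x) (hg : ContDiffAt ℝ ∞ g x)
    (n : ℕ) : ‖iteratedFDeriv ℝ n (fun y => f y * g y) x‖ ≤ ∑ i ∈ Finset.range (n + 1),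
      (n.choose i : ℝ) * ‖iteratedFDeriv ℝ i f x‖ * ‖iteratedFDeriv ℝ (n - i) g x‖ := by
  obtain ⟨u, hu, hfu⟩ := hf.contDiffOn (m := n) (by exact_mod_cast le_top) (by simp)
  obtain ⟨v, hv, hgv⟩ := hg.contDiffOn (m := n) (by exact_mod_cast le_top) (by simp)
  have ho : IsOpen (interior (u ∩ v)) := isOpen_interior
  have hx : x ∈ interior (u ∩ v) := mem_interior_iff_mem_nhds.2 (inter_mem hu hv)
  have h := norm_iteratedFDerivWithin_mul_le
    (hfu.mono (interior_subset.trans inter_subset_left))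
    (hgv.mono (interior_subset.trans inter_subset_right)) ho.uniqueDiffOn hx (n := n) le_rfl
  simpa only [iteratedFDerivWithin_of_isOpen _ ho hx] using h

theorem cls_iter_zero {f : E → ℝ} {x : E} (h : f =ᶠ[𝓝 x] fun _ => 0) (n : ℕ) :
    iteratedFDeriv ℝ n f x = 0 := by
  have := (h.iteratedFDeriv ℝ n).self_of_nhds
  simpa using this

end leib

/-- derivatives of a periodic function are bounded on a strip -/
theorem cls_strip_bound {f : ℝ × ℝ → ℝ} {z1 z2 : ℝ}
    (hf : ∀ p : ℝ × ℝ, p.1 ∈ Icc z1 z2 → ContDiffAt ℝ ∞ f p)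
    (hp : ∀ z s, f (z, s + 2 * π) = f (z, s)) (n : ℕ) :
    ∃ C : ℝ, 0 ≤ C ∧ ∀ p : ℝ × ℝ, p.1 ∈ Icc z1 z2 → ‖iteratedFDeriv ℝ n f p‖ ≤ C := by
  have hK : IsCompact (Icc z1 z2 ×ˢ Icc (0 : ℝ) (2 * π)) := isCompact_Icc.prod isCompact_Icc
  have hc : ContinuousOn (iteratedFDeriv ℝ n f) (Icc z1 z2 ×ˢ Icc (0 : ℝ) (2 * π)) :=
    fun p hp => ((hf p hp.1).continuousAt_iteratedFDeriv
      (by exact_mod_cast le_top)).continuousWithinAt
  obtain ⟨C, hC⟩ := hK.exists_bound_of_continuousOn hc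
  refine ⟨max C 0, le_max_right _ _, fun p hz => ?_⟩
  have hper : Function.Periodic (fun s : ℝ => iteratedFDeriv ℝ n f (p.1, s)) (2 * π) := by
    intro s
    have h1 : (fun q : ℝ × ℝ => f (q + ((0 : ℝ), 2 * π))) = f := by
      funext q
      have := hp q.1 q.2
      simpa [Prod.add_def] using this
    have h2 := iteratedFDeriv_comp_add_right (𝕜 := ℝ) (f := f) n ((0 : ℝ), 2 * π) (p.1, s)
    rw [h1] at h2
    simpa using h2.symm
  obtain ⟨y, hy, hyy⟩ := hper.exists_mem_Ico₀ (by positivity) p.2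
  have : iteratedFDeriv ℝ n f p = iteratedFDeriv ℝ n f (p.1, y) := hyy
  rw [this]
  exact (hC (p.1, y) ⟨hz, hy.1, hy.2.le⟩).trans (le_max_left _ _)

theorem cls_fd_split (f : ℝ × ℝ → ℝ) : fderiv ℝ f =
    (ContinuousLinearMap.toSpanSingleton ℝ (ContinuousLinearMap.fst ℝ ℝ ℝ)) ∘
        (fun p => fderiv ℝ f p (1, 0)) +
      (ContinuousLinearMap.toSpanSingleton ℝ (ContinuousLinearMap.snd ℝ ℝ ℝ)) ∘
        (fun p => fderiv ℝ f p (0, 1)) := by
  funext p
  refine ContinuousLinearMap.ext fun v => ?_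
  have hv : v = v.1 • ((1 : ℝ), (0 : ℝ)) + v.2 • ((0 : ℝ), (1 : ℝ)) := by ext <;> simp
  conv_lhs => rw [hv, map_add, map_smul, map_smul]
  simp [mul_comm]

theorem cls_iter_succ_le {f : ℝ × ℝ → ℝ} (hf : ContDiff ℝ ∞ f) (n : ℕ) (p : ℝ × ℝ) :
    ‖iteratedFDeriv ℝ (n + 1) f p‖ ≤ ‖iteratedFDeriv ℝ n (fun p => fderiv ℝ f p (1, 0)) p‖
      + ‖iteratedFDeriv ℝ n (fun p => fderiv ℝ f p (0, 1)) p‖ := by
  have hv : ∀ v : ℝ × ℝ, ContDiff ℝ n (fun p => fderiv ℝ f p v) := fun v =>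
    ((hf.fderiv_right (m := ∞) (by simp)).clm_apply contDiff_const).of_le
      (by exact_mod_cast le_top)
  rw [← norm_iteratedFDeriv_fderiv]
  have e := congrArg (fun g => iteratedFDeriv ℝ n g p) (cls_fd_split f)
  rw [e, iteratedFDeriv_add_apply
    ((ContinuousLinearMap.contDiff _).comp (hv _)).contDiffAt
    ((ContinuousLinearMap.contDiff _).comp (hv _)).contDiffAt]
  refine (norm_add_le _ _).trans (add_le_add ?_ ?_)
  · refine (ContinuousLinearMap.norm_iteratedFDeriv_comp_left _ (hv _).contDiffAt le_rfl).trans ?_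
    refine mul_le_of_le_one_left (norm_nonneg _) ?_
    rw [ContinuousLinearMap.norm_toSpanSingleton]
    exact ContinuousLinearMap.norm_fst_le ..
  · refine (ContinuousLinearMap.norm_iteratedFDeriv_comp_left _ (hv _).contDiffAt le_rfl).trans ?_
    refine mul_le_of_le_one_left (norm_nonneg _) ?_
    rw [ContinuousLinearMap.norm_toSpanSingleton]
    exact ContinuousLinearMap.norm_snd_le ..

theorem cls_iter_dir_le {f : ℝ × ℝ → ℝ} (hf : ContDiff ℝ ∞ f) (n : ℕ) (p v : ℝ × ℝ)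
    (hv : ‖v‖ ≤ 1) :
    ‖iteratedFDeriv ℝ n (fun p => fderiv ℝ f p v) p‖ ≤ ‖iteratedFDeriv ℝ (n + 1) f p‖ := by
  have h1 : ContDiff ℝ n (fderiv ℝ f) :=
    (hf.fderiv_right (m := ∞) (by simp)).of_le (by exact_mod_cast le_top)
  refine (norm_iteratedFDeriv_clm_apply_const h1.contDiffAt le_rfl).trans ?_
  rw [norm_iteratedFDeriv_fderiv]
  exact mul_le_of_le_one_left (norm_nonneg _) hv

theorem cls_hd_s {f : ℝ × ℝ → ℝ} {z s : ℝ} (h : DifferentiableAt ℝ f (z, s)) :
    HasDerivAt (fun t => f (z, t)) (fderiv ℝ f (z, s) (0, 1)) s := by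
  have h2 : HasDerivAt (fun t : ℝ => ((z, t) : ℝ × ℝ)) ((0, 1) : ℝ × ℝ) s :=
    (hasDerivAt_const s z).prodMk (hasDerivAt_id s)
  exact h.hasFDerivAt.comp_hasDerivAt s h2

theorem cls_hd_z {f : ℝ × ℝ → ℝ} {z s : ℝ} (h : DifferentiableAt ℝ f (z, s)) :
    HasDerivAt (fun t => f (t, s)) (fderiv ℝ f (z, s) (1, 0)) z := by
  have h2 : HasDerivAt (fun t : ℝ => ((t, s) : ℝ × ℝ)) ((1, 0) : ℝ × ℝ) z :=
    (hasDerivAt_id z).prodMk (hasDerivAt_const z s)
  exact h.hasFDerivAt.comp_hasDerivAt z h2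

/-- the primitive in the second variable is smooth -/
theorem cls_prim_smooth {f : ℝ × ℝ → ℝ} (hf : ContDiff ℝ ∞ f) :
    ContDiff ℝ ∞ (fun p : ℝ × ℝ => ∫ s in (0 : ℝ)..p.2, f (p.1, s)) := by
  have h1 : ContDiff ℝ ∞ (fun x : (ℝ × ℝ) × ℝ => f (x.1.1, x.1.2 * x.2)) :=
    hf.comp (by fun_prop)
  have h2 := contDiff_snd.mul (cls_int_smooth h1 0 1)
  have e : (fun p : ℝ × ℝ => ∫ s in (0 : ℝ)..p.2, f (p.1, s))
      = fun p : ℝ × ℝ => p.2 * ∫ t in (0 : ℝ)..1, f (p.1, p.2 * t) := by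
    funext p
    have := intervalIntegral.mul_integral_comp_mul_left (f := fun s => f (p.1, s)) (a := 0)
      (b := 1) p.2
    simpa using this.symm
  rw [e]
  exact h2

/-- derivative in the first variable under the integral -/
theorem cls_hd_int {f : ℝ × ℝ → ℝ} (hf : ContDiff ℝ ∞ f) (a b z : ℝ) :
    HasDerivAt (fun t => ∫ s in a..b, f (t, s)) (∫ s in a..b, fderiv ℝ f (z, s) (1, 0)) z := by
  have h1 : ContDiff ℝ 1 f := hf.of_le (by exact_mod_cast le_top)
  have h2 := (cls_hasFDerivAt_int h1 a b z).differentiableAt.hasDerivAt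
  rwa [← fderiv_apply_one_eq_deriv, cls_fderiv_int h1 a b z 1] at h2

end Pool.Agent.Lib.MP_2fa2a2_gt.PI
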