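import Mathlib
import Pool.Agent.Lib.MP_2fa2a2_gt.PI.ClsX

/-! Periodic profiles and classes of families with uniform bounds. -/

namespace Pool.Agent.Lib.MP_2fa2a2_gt.PI

open Real Filter Set
open scoped ContDiff

/-- profiles: functions of the slow variable `z` and the fast variable `s` -/
abbrev Pf : Type := ℝ × ℝ → ℝ

/-- derivative in the slow variable -/
noncomputable def dz (Φ : Pf) : Pf := fun p => fderiv ℝ Φ p (1, 0)
/-- derivative in the fast variable -/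
noncomputable def ds (Φ : Pf) : Pf := fun p => fderiv ℝ Φ p (0, 1)
/-- mean over a period -/
noncomputable def mean (Φ : Pf) (z : ℝ) : ℝ := (2 * π)⁻¹ * ∫ s in (0 : ℝ)..2 * π, Φ (z, s)
/-- oscillating part -/
noncomputable def osc (Φ : Pf) : Pf := fun p => Φ p - mean Φ p.1
/-- primitive with mean zero -/
noncomputable def sinv (Φ : Pf) : Pf := osc (fun p => ∫ s in (0 : ℝ)..p.2, Φ (p.1, s))
/-- a function of the slow variable as a profile -/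
def sl (φ : ℝ → ℝ) : Pf := fun p => φ p.1

/-- smooth and periodic -/
def Per (Φ : Pf) : Prop := ContDiff ℝ ∞ Φ ∧ ∀ z s, Φ (z, s + 2 * π) = Φ (z, s)
/-- supported in a strip -/
def Sup (z1 z2 : ℝ) (Φ : Pf) : Prop := ∀ z s, z ∉ Icc z1 z2 → Φ (z, s) = 0
/-- mean zero -/
def Mz (Φ : Pf) : Prop := ∀ z, mean Φ z = 0
/-- all derivatives are of order `m ^ (-α)` -/
def OO (α : ℝ) (Φ : ℕ → Pf) : Prop :=
  ∀ i : ℕ, ∃ C : ℝ, ∀ᶠ m : ℕ in atTop, ∀ p, ‖iteratedFDeriv ℝ i (Φ m) p‖ ≤ C * (m : ℝ) ^ (-α)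
/-- families of profiles of order `α` supported in a fixed strip -/
def PF (z1 z2 α : ℝ) (Φ : ℕ → Pf) : Prop := (∀ m, Per (Φ m) ∧ Sup z1 z2 (Φ m)) ∧ OO α Φ

section aux
variable {Φ Ψ : Pf} {φ : ℝ → ℝ} {z1 z2 : ℝ}

theorem cls_diff (h : ContDiff ℝ ∞ Φ) (p : ℝ × ℝ) : DifferentiableAt ℝ Φ p :=
  h.differentiable (by simp) p

theorem cls_at (h : ContDiff ℝ ∞ Φ) (i : ℕ) (p : ℝ × ℝ) : ContDiffAt ℝ i Φ p :=
  h.contDiffAt.of_le (by exact_mod_cast le_top)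

theorem cls_cont (h : ContDiff ℝ ∞ Φ) (z : ℝ) : Continuous (fun s => Φ (z, s)) :=
  h.continuous.comp (continuous_const.prodMk continuous_id)

theorem cls_dir_smooth (h : ContDiff ℝ ∞ Φ) (v : ℝ × ℝ) :
    ContDiff ℝ ∞ (fun p => fderiv ℝ Φ p v) :=
  (h.fderiv_right (m := ∞) (by simp)).clm_apply contDiff_const

theorem cls_fd_per (h : Per Φ) (z s : ℝ) : fderiv ℝ Φ (z, s + 2 * π) = fderiv ℝ Φ (z, s) := by
  have h1 : (fun q : ℝ × ℝ => Φ (q + ((0 : ℝ), 2 * π))) = Φ := by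
    funext q
    have := h.2 q.1 q.2
    simpa [Prod.add_def] using this
  have h2 := fderiv_comp_add_right (𝕜 := ℝ) (f := Φ) (x := (z, s)) ((0 : ℝ), 2 * π)
  rw [h1] at h2
  simpa using h2.symm

theorem cls_mean_smooth (h : ContDiff ℝ ∞ Φ) : ContDiff ℝ ∞ (mean Φ) :=
  contDiff_const.mul (cls_int_smooth h 0 (2 * π))

theorem cls_osc_smooth (h : ContDiff ℝ ∞ Φ) : ContDiff ℝ ∞ (osc Φ) :=
  h.sub ((cls_mean_smooth h).comp contDiff_fst)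

theorem cls_hd_mean (h : ContDiff ℝ ∞ Φ) (z : ℝ) : HasDerivAt (mean Φ) (mean (dz Φ) z) z :=
  (cls_hd_int h 0 (2 * π) z).const_mul _

theorem cls_ev_zero (h : Sup z1 z2 Φ) {p : ℝ × ℝ} (hp : p.1 ∉ Icc z1 z2) :
    Φ =ᶠ[nhds p] fun _ => 0 := by
  have ho : IsOpen {q : ℝ × ℝ | q.1 ∉ Icc z1 z2} :=
    (isClosed_Icc.preimage continuous_fst).isOpen_compl
  filter_upwards [ho.mem_nhds hp] with q hq
  exact h q.1 q.2 hq

theorem cls_ev_zero_mul (h : Sup z1 z2 Φ) (Ψ : Pf) {p : ℝ × ℝ} (hp : p.1 ∉ Icc z1 z2) :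
    Ψ * Φ =ᶠ[nhds p] fun _ => 0 :=
  (cls_ev_zero h hp).mono fun q hq => by simp [hq]

theorem cls_per_mul (h : Per Φ) (hs : Sup z1 z2 Φ)
    (hΨ : ∀ p : ℝ × ℝ, p.1 ∈ Icc z1 z2 → ContDiffAt ℝ ∞ Ψ p)
    (hp : ∀ z s, Ψ (z, s + 2 * π) = Ψ (z, s)) : Per (Ψ * Φ) := by
  refine ⟨contDiff_iff_contDiffAt.2 fun p => ?_, fun z s => by simp only [Pi.mul_apply, h.2, hp]⟩
  by_cases hz : p.1 ∈ Icc z1 z2
  · exact (hΨ p hz).mul h.1.contDiffAt
  · exact contDiffAt_const.congr_of_eventuallyEq (cls_ev_zero_mul hs Ψ hz)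

theorem cls_mean_sub (h : ContDiff ℝ ∞ Φ) (h' : ContDiff ℝ ∞ Ψ) (z : ℝ) :
    mean (Φ - Ψ) z = mean Φ z - mean Ψ z := by
  simp only [mean, Pi.sub_apply]
  rw [intervalIntegral.integral_sub ((cls_cont h z).intervalIntegrable _ _)
    ((cls_cont h' z).intervalIntegrable _ _), mul_sub]

theorem cls_mean_sl (φ : ℝ → ℝ) (z : ℝ) : mean (sl φ) z = φ z := by
  have := pi_pos
  simp only [mean, sl, intervalIntegral.integral_const, sub_zero, smul_eq_mul]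
  field_simp

theorem cls_Mz_osc (h : ContDiff ℝ ∞ Φ) : Mz (osc Φ) := fun z => by
  have e : osc Φ = Φ - sl (mean Φ) := rfl
  rw [e, cls_mean_sub (Ψ := sl (mean Φ)) h ((cls_mean_smooth h).comp contDiff_fst), cls_mean_sl,
    sub_self]

theorem cls_ds_sl (hφ : ContDiff ℝ ∞ φ) : ds (sl φ) = 0 := by
  funext p
  obtain ⟨z, s⟩ := p
  have h1 : HasDerivAt (fun t => sl φ (z, t)) (ds (sl φ) (z, s)) s :=
    cls_hd_s (cls_diff (hφ.comp contDiff_fst) _)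
  exact h1.unique (hasDerivAt_const s (φ z))

theorem cls_dz_sinv (h : ContDiff ℝ ∞ Φ) : dz (sinv Φ) = sinv (dz Φ) := by
  have hF := cls_prim_smooth h
  have e : dz (fun p : ℝ × ℝ => ∫ s in (0 : ℝ)..p.2, Φ (p.1, s))
      = fun p : ℝ × ℝ => ∫ s in (0 : ℝ)..p.2, dz Φ (p.1, s) := by
    funext p
    obtain ⟨z, s⟩ := p
    exact (cls_hd_z (cls_diff hF (z, s))).unique (cls_hd_int h 0 s z)
  funext p
  obtain ⟨z, s⟩ := p
  have h1 : HasDerivAt (fun t => sinv Φ (t, s)) (dz (sinv Φ) (z, s)) z :=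
    cls_hd_z (cls_diff (cls_osc_smooth hF) _)
  have h2 := (cls_hd_int h 0 s z).sub (cls_hd_mean hF z)
  rw [e] at h2
  exact h1.unique h2

theorem cls_mean_le {B : ℝ} (h : ∀ p, |Φ p| ≤ B) (z : ℝ) : |mean Φ z| ≤ B := by
  have := pi_pos
  have h1 := intervalIntegral.norm_integral_le_of_norm_le_const (a := 0) (b := 2 * π)
    (f := fun s => Φ (z, s)) (C := B) fun s _ => h _
  rw [sub_zero, abs_of_pos (by positivity : 0 < 2 * π), norm_eq_abs] at h1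
  rw [mean, abs_mul, abs_of_pos (by positivity : 0 < (2 * π)⁻¹), inv_mul_le_iff₀ (by positivity)]
  linarith

theorem cls_sinv_le {B : ℝ} (hp : ∀ z s, sinv Φ (z, s + 2 * π) = sinv Φ (z, s))
    (h : ∀ p, |Φ p| ≤ B) (p : ℝ × ℝ) : |sinv Φ p| ≤ 4 * π * B := by
  have := pi_pos
  have hB : 0 ≤ B := (abs_nonneg _).trans (h p)
  obtain ⟨z, s⟩ := p
  have hper : Function.Periodic (fun s : ℝ => sinv Φ (z, s)) (2 * π) := hp z
  obtain ⟨y, hy, hyy⟩ := hper.exists_mem_Ico₀ (by positivity) s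
  have h1 : ∀ t ∈ Icc 0 (2 * π), |∫ s in (0 : ℝ)..t, Φ (z, s)| ≤ 2 * π * B := fun t ht => by
    have h2 := intervalIntegral.norm_integral_le_of_norm_le_const (a := 0) (b := t)
      (f := fun s => Φ (z, s)) (C := B) fun s _ => h _
    rw [sub_zero, abs_of_nonneg ht.1, norm_eq_abs] at h2
    refine h2.trans ?_
    rw [mul_comm]
    exact mul_le_mul_of_nonneg_right ht.2 hB
  have h3 := intervalIntegral.norm_integral_le_of_norm_le_const (a := 0) (b := 2 * π)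
    (f := fun t => ∫ s in (0 : ℝ)..t, Φ (z, s)) (C := 2 * π * B) fun t ht => h1 t (by
      rw [uIoc_of_le (by positivity)] at ht
      exact ⟨ht.1.le, ht.2⟩)
  rw [sub_zero, abs_of_pos (by positivity : 0 < 2 * π), norm_eq_abs] at h3
  have h4 : |(2 * π)⁻¹ * ∫ t in (0 : ℝ)..2 * π, ∫ s in (0 : ℝ)..t, Φ (z, s)| ≤ 2 * π * B := by
    rw [abs_mul, abs_of_pos (by positivity : 0 < (2 * π)⁻¹), inv_mul_le_iff₀ (by positivity)]
    linarith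
  have h5 := h1 y ⟨hy.1, hy.2.le⟩
  have e : sinv Φ (z, s) = (∫ s in (0 : ℝ)..y, Φ (z, s))
      - (2 * π)⁻¹ * ∫ t in (0 : ℝ)..2 * π, ∫ s in (0 : ℝ)..t, Φ (z, s) := hyy
  rw [e]
  refine (abs_sub _ _).trans ?_
  linarith

end aux

section
variable {Φ Ψ : Pf} {φ : ℝ → ℝ} {z1 z2 : ℝ}
theorem Per.add (h : Per Φ) (h' : Per Ψ) : Per (Φ + Ψ) := ⟨h.1.add h'.1, fun z s => by simp only [Pi.add_apply, h.2, h'.2]⟩
theorem Per.sub (h : Per Φ) (h' : Per Ψ) : Per (Φ - Ψ) := ⟨h.1.sub h'.1, fun z s => by simp only [Pi.sub_apply, h.2, h'.2]⟩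
theorem Per.mul (h : Per Φ) (h' : Per Ψ) : Per (Φ * Ψ) := ⟨h.1.mul h'.1, fun z s => by simp only [Pi.mul_apply, h.2, h'.2]⟩
theorem Per.smul (h : Per Φ) (r : ℝ) : Per (r • Φ) := ⟨h.1.const_smul r, fun z s => by simp only [Pi.smul_apply, h.2]⟩
theorem Per.dz (h : Per Φ) : Per (dz Φ) := ⟨cls_dir_smooth h.1 _, fun z s => by simp only [PI.dz, cls_fd_per h]⟩
theorem Per.ds (h : Per Φ) : Per (ds Φ) := ⟨cls_dir_smooth h.1 _, fun z s => by simp only [PI.ds, cls_fd_per h]⟩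
theorem Per.mean (h : Per Φ) : ContDiff ℝ ∞ (mean Φ) := cls_mean_smooth h.1
theorem Per.osc (h : Per Φ) : Per (osc Φ) := ⟨cls_osc_smooth h.1, fun z s => by simp only [PI.osc, h.2]⟩
theorem Per.sinv (h : Per Φ) (h0 : Mz Φ) : Per (sinv Φ) := by
  refine ⟨cls_osc_smooth (cls_prim_smooth h.1), fun z s => ?_⟩
  have hp : Function.Periodic (fun t => Φ (z, t)) (2 * π) := fun t => h.2 z t
  have h1 := hp.intervalIntegral_add_eq s 0
  have h2 := h0 z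
  have h3 : ∫ t in (0 : ℝ)..2 * π, Φ (z, t) = 0 := by
    unfold PI.mean at h2
    rcases mul_eq_zero.1 h2 with h4 | h4
    · exact absurd h4 (by positivity)
    · exact h4
  have h4 := intervalIntegral.integral_add_adjacent_intervals
    ((cls_cont h.1 z).intervalIntegrable (μ := MeasureTheory.volume) 0 s)
    ((cls_cont h.1 z).intervalIntegrable s (s + 2 * π))
  rw [h1, zero_add, h3, add_zero] at h4
  simp only [PI.sinv, PI.osc, h4]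
theorem Per_sl (h : ContDiff ℝ ∞ φ) : Per (sl φ) := ⟨h.comp contDiff_fst, fun _ _ => rfl⟩
theorem Per_sin : Per (fun p => sin p.2) := ⟨contDiff_sin.comp contDiff_snd, fun _ s => sin_add_two_pi s⟩
theorem Per_cos : Per (fun p => cos p.2) := ⟨contDiff_cos.comp contDiff_snd, fun _ s => cos_add_two_pi s⟩
/-- multiplication by a function that is smooth near the support -/
theorem Per.sl_mul (h : Per Φ) (hs : Sup z1 z2 Φ) (hφ : ∀ z ∈ Icc z1 z2, ContDiffAt ℝ ∞ φ z) :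
    Per (sl φ * Φ) :=
  cls_per_mul h hs (fun p hp => (hφ p.1 hp).comp p contDiffAt_fst) (fun _ _ => rfl)
theorem Sup.mono {z1' z2' : ℝ} (h : Sup z1 z2 Φ) (h1 : z1' ≤ z1) (h2 : z2 ≤ z2') :
    Sup z1' z2' Φ := fun z s hz => h z s fun hz' => hz ⟨h1.trans hz'.1, hz'.2.trans h2⟩
theorem Sup.dz (h : Sup z1 z2 Φ) : Sup z1 z2 (dz Φ) := fun z s hz => by
  simp [PI.dz, (cls_ev_zero h (p := (z, s)) hz).fderiv_eq]
theorem Sup.ds (h : Sup z1 z2 Φ) : Sup z1 z2 (ds Φ) := fun z s hz => by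
  simp [PI.ds, (cls_ev_zero h (p := (z, s)) hz).fderiv_eq]
theorem Sup.mean (h : Sup z1 z2 Φ) : Sup z1 z2 (sl (mean Φ)) := fun z _ hz => by
  simp [sl, PI.mean, h z _ hz]
theorem Sup.osc (h : Sup z1 z2 Φ) : Sup z1 z2 (osc Φ) := fun z s hz => by
  simp [PI.osc, PI.mean, h z _ hz]
theorem Sup.sinv (h : Sup z1 z2 Φ) : Sup z1 z2 (sinv Φ) :=
  Sup.osc (fun z s hz => by simp [h z _ hz])
theorem mean_add (h : Per Φ) (h' : Per Ψ) (z : ℝ) : mean (Φ + Ψ) z = mean Φ z + mean Ψ z := by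
  simp only [PI.mean, Pi.add_apply]
  rw [intervalIntegral.integral_add ((cls_cont h.1 z).intervalIntegrable _ _)
    ((cls_cont h'.1 z).intervalIntegrable _ _), mul_add]
theorem mean_sub (h : Per Φ) (h' : Per Ψ) (z : ℝ) : mean (Φ - Ψ) z = mean Φ z - mean Ψ z :=
  cls_mean_sub h.1 h'.1 z
theorem mean_smul (r : ℝ) (Φ : Pf) (z : ℝ) : mean (r • Φ) z = r * mean Φ z := by
  simp only [PI.mean, Pi.smul_apply, smul_eq_mul, intervalIntegral.integral_const_mul]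
  ring
theorem mean_sl_mul (φ : ℝ → ℝ) (Φ : Pf) (z : ℝ) : mean (sl φ * Φ) z = φ z * mean Φ z := by
  simp only [PI.mean, Pi.mul_apply, sl, intervalIntegral.integral_const_mul]
  ring
theorem mean_sl (φ : ℝ → ℝ) (z : ℝ) : mean (sl φ) z = φ z := cls_mean_sl φ z
theorem mean_shift (h : Per Φ) (z c : ℝ) :
    (2 * π)⁻¹ * ∫ s in (0 : ℝ)..2 * π, Φ (z, s + c) = PI.mean Φ z := by
  have hp : Function.Periodic (fun t => Φ (z, t)) (2 * π) := fun t => h.2 z t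
  have h1 := hp.intervalIntegral_add_eq c 0
  have h2 := intervalIntegral.integral_comp_add_right (a := 0) (b := 2 * π)
    (fun t => Φ (z, t)) c
  rw [h2, zero_add, add_comm (2 * π) c, h1, zero_add]
  rfl
theorem Mz_osc (h : Per Φ) : Mz (osc Φ) := cls_Mz_osc h.1
theorem Mz_ds (h : Per Φ) : Mz (ds Φ) := fun z => by
  have h1 : ∫ s in (0 : ℝ)..2 * π, PI.ds Φ (z, s) = Φ (z, 2 * π) - Φ (z, 0) :=
    intervalIntegral.integral_eq_sub_of_hasDerivAt (f := fun t => Φ (z, t))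
      (fun s _ => cls_hd_s (cls_diff h.1 _)) ((cls_cont h.ds.1 z).intervalIntegrable _ _)
  have h2 := h.2 z 0
  rw [zero_add] at h2
  simp [PI.mean, h1, h2]
theorem Mz.dz (h0 : Mz Φ) (h : Per Φ) : Mz (dz Φ) := fun z => by
  have h1 := cls_hd_mean h.1 z
  have h2 : PI.mean Φ = fun _ => 0 := funext h0
  rw [h2] at h1
  exact h1.unique (hasDerivAt_const z 0)
theorem Mz_sinv (h : Per Φ) : Mz (sinv Φ) := cls_Mz_osc (cls_prim_smooth h.1)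
theorem osc_of_Mz (h0 : Mz Φ) : osc Φ = Φ := by
  funext p
  simp [osc, h0 p.1]
theorem ds_sinv (h : Per Φ) : ds (sinv Φ) = Φ := by
  funext p
  obtain ⟨z, s⟩ := p
  have h1 : HasDerivAt (fun t => sinv Φ (z, t)) (ds (sinv Φ) (z, s)) s :=
    cls_hd_s (cls_diff (cls_osc_smooth (cls_prim_smooth h.1)) _)
  have h2 : HasDerivAt (fun t => sinv Φ (z, t)) (Φ (z, s)) s :=
    ((cls_cont h.1 z).integral_hasStrictDerivAt 0 s).hasDerivAt.sub_const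
      (mean (fun p => ∫ s in (0 : ℝ)..p.2, Φ (p.1, s)) z)
  exact h1.unique h2
theorem sinv_sl_mul (φ : ℝ → ℝ) (Φ : Pf) : sinv (sl φ * Φ) = sl φ * sinv Φ := by
  funext p
  simp only [sinv, osc, mean, sl, Pi.mul_apply, intervalIntegral.integral_const_mul]
  ring
theorem ds_add (h : Per Φ) (h' : Per Ψ) : ds (Φ + Ψ) = ds Φ + ds Ψ := by
  funext p
  simp [ds, fderiv_add (cls_diff h.1 p) (cls_diff h'.1 p)]
theorem ds_mul (h : Per Φ) (h' : Per Ψ) : ds (Φ * Ψ) = ds Φ * Ψ + Φ * ds Ψ := by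
  funext p
  simp only [ds, fderiv_mul (cls_diff h.1 p) (cls_diff h'.1 p), Pi.add_apply, Pi.mul_apply,
    _root_.add_apply, _root_.smul_apply, smul_eq_mul]
  ring
theorem ds_smul (h : Per Φ) (r : ℝ) : ds (r • Φ) = r • ds Φ := by
  funext p
  simp [ds, fderiv_const_smul (cls_diff h.1 p)]
theorem ds_sl_mul (h : Per Φ) (hφ : ContDiff ℝ ∞ φ) : ds (sl φ * Φ) = sl φ * ds Φ := by
  rw [ds_mul (Per_sl hφ) h, cls_ds_sl hφ, zero_mul, zero_add]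
theorem dz_add (h : Per Φ) (h' : Per Ψ) : dz (Φ + Ψ) = dz Φ + dz Ψ := by
  funext p
  simp [dz, fderiv_add (cls_diff h.1 p) (cls_diff h'.1 p)]
theorem dz_mul (h : Per Φ) (h' : Per Ψ) : dz (Φ * Ψ) = dz Φ * Ψ + Φ * dz Ψ := by
  funext p
  simp only [dz, fderiv_mul (cls_diff h.1 p) (cls_diff h'.1 p), Pi.add_apply, Pi.mul_apply,
    _root_.add_apply, _root_.smul_apply, smul_eq_mul]
  ring
theorem dz_sl (hφ : ContDiff ℝ ∞ φ) : dz (sl φ) = sl (deriv φ) := by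
  funext p
  obtain ⟨z, s⟩ := p
  have h1 : HasDerivAt (fun t => sl φ (t, s)) (dz (sl φ) (z, s)) z :=
    cls_hd_z (cls_diff (Per_sl hφ).1 _)
  exact h1.deriv.symm
theorem hasDerivAt_ds (h : Per Φ) (z s : ℝ) : HasDerivAt (fun t => Φ (z, t)) (ds Φ (z, s)) s :=
  cls_hd_s (cls_diff h.1 _)
theorem hasDerivAt_dz (h : Per Φ) (z s : ℝ) : HasDerivAt (fun t => Φ (t, s)) (dz Φ (z, s)) z :=
  cls_hd_z (cls_diff h.1 _)
end

section aux
variable {Φ : ℕ → Pf} {z1 z2 α β : ℝ}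

theorem cls_OO (h : OO α Φ) (i : ℕ) : ∃ C : ℝ, 0 ≤ C ∧
    ∀ᶠ m : ℕ in atTop, ∀ p, ‖iteratedFDeriv ℝ i (Φ m) p‖ ≤ C * (m : ℝ) ^ (-α) := by
  obtain ⟨C, hC⟩ := h i
  exact ⟨max C 0, le_max_right _ _, hC.mono fun m hm p => (hm p).trans
    (mul_le_mul_of_nonneg_right (le_max_left _ _) (by positivity))⟩

theorem cls_abs_le (h : OO α Φ) :
    ∃ C : ℝ, 0 ≤ C ∧ ∀ᶠ m : ℕ in atTop, ∀ p, |Φ m p| ≤ C * (m : ℝ) ^ (-α) := by
  obtain ⟨C, hC0, hC⟩ := cls_OO h 0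
  exact ⟨C, hC0, hC.mono fun m hm p => by simpa using hm p⟩

theorem cls_OO_of_sup {S : (ℕ → Pf) → Prop} (hs : ∀ Φ, S Φ → ∀ m, ContDiff ℝ ∞ (Φ m))
    (h0 : ∀ Φ, S Φ → ∃ C : ℝ, ∀ᶠ m : ℕ in atTop, ∀ p, |Φ m p| ≤ C * (m : ℝ) ^ (-α))
    (hz : ∀ Φ, S Φ → S (fun m => dz (Φ m))) (hd : ∀ Φ, S Φ → S (fun m => ds (Φ m)))
    (h : S Φ) : OO α Φ := by
  intro i
  induction i generalizing Φ with
  | zero =>
    obtain ⟨C, hC⟩ := h0 Φ h
    exact ⟨C, hC.mono fun m hm p => by simpa using hm p⟩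
  | succ i ih =>
    obtain ⟨C, hC⟩ := ih (hz Φ h)
    obtain ⟨C', hC'⟩ := ih (hd Φ h)
    refine ⟨C + C', ?_⟩
    filter_upwards [hC, hC'] with m hm hm' p
    rw [add_mul]
    exact (cls_iter_succ_le (hs Φ h m) i p).trans (add_le_add (hm p) (hm' p))

theorem cls_smul (h : PF z1 z2 α Φ) {c : ℕ → ℝ} {K : ℝ}
    (hc : ∀ᶠ m : ℕ in atTop, |c m| ≤ K * (m : ℝ) ^ (-β)) :
    PF z1 z2 (α + β) (fun m => c m • Φ m) := by
  refine ⟨fun m => ⟨(h.1 m).1.smul _, fun z s hz => by simp [(h.1 m).2 z s hz]⟩, fun i => ?_⟩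
  obtain ⟨C, hC⟩ := h.2 i
  refine ⟨K * C, ?_⟩
  filter_upwards [hC, hc, eventually_gt_atTop 0] with m hm hm' hm0 p
  have hm1 : (0 : ℝ) < m := by exact_mod_cast hm0
  rw [iteratedFDeriv_const_smul_apply (cls_at (h.1 m).1.1 i p), norm_smul, norm_eq_abs]
  have e : K * C * (m : ℝ) ^ (-(α + β)) = K * (m : ℝ) ^ (-β) * (C * (m : ℝ) ^ (-α)) := by
    rw [neg_add, rpow_add hm1]; ring
  rw [e]
  exact mul_le_mul hm' (hm p) (norm_nonneg _) ((abs_nonneg _).trans hm')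

theorem cls_PF_mul {Ψ : Pf} (h : PF z1 z2 α Φ)
    (hΨ : ∀ p : ℝ × ℝ, p.1 ∈ Icc z1 z2 → ContDiffAt ℝ ∞ Ψ p)
    (hp : ∀ z s, Ψ (z, s + 2 * π) = Ψ (z, s)) : PF z1 z2 α (fun m => Ψ * Φ m) := by
  refine ⟨fun m => ⟨cls_per_mul (h.1 m).1 (h.1 m).2 hΨ hp, fun z s hz => by
    simp [(h.1 m).2 z s hz]⟩, fun n => ?_⟩
  choose C hC0 hC using cls_strip_bound hΨ hp
  choose C' hC0' hC' using cls_OO h.2
  refine ⟨∑ i ∈ Finset.range (n + 1), (n.choose i : ℝ) * C i * C' (n - i), ?_⟩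
  have e2 := (eventually_all_finset (Finset.range (n + 1))).2 fun i _ => hC' (n - i)
  filter_upwards [e2] with m hm' p
  by_cases hz : p.1 ∈ Icc z1 z2
  · refine (cls_mul_bound (hΨ p hz) (h.1 m).1.1.contDiffAt n).trans ?_
    rw [Finset.sum_mul]
    refine Finset.sum_le_sum fun i hi => ?_
    rw [mul_assoc _ (C' _)]
    have := hC0 i
    exact mul_le_mul (mul_le_mul_of_nonneg_left (hC i p hz) (by positivity)) (hm' i hi p)
      (norm_nonneg _) (by positivity)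
  · rw [cls_iter_zero (cls_ev_zero_mul (h.1 m).2 Ψ hz), norm_zero]
    refine mul_nonneg (Finset.sum_nonneg fun i _ => ?_) (by positivity)
    have := hC0 i
    have := hC0' (n - i)
    positivity

end aux

section
variable {Φ Ψ : ℕ → Pf} {z1 z2 α β : ℝ}
theorem PF.const {Φ0 : Pf} (h : Per Φ0) (hs : Sup z1 z2 Φ0) : PF z1 z2 0 (fun _ => Φ0) := by
  refine ⟨fun _ => ⟨h, hs⟩, fun i => ?_⟩
  obtain ⟨C, hC0, hC⟩ := cls_strip_bound (z1 := z1) (z2 := z2) (fun p _ => h.1.contDiffAt) h.2 i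
  refine ⟨C, Eventually.of_forall fun m p => ?_⟩
  rw [neg_zero, rpow_zero, mul_one]
  by_cases hp : p.1 ∈ Icc z1 z2
  · exact hC p hp
  · rw [cls_iter_zero (cls_ev_zero hs hp), norm_zero]
    exact hC0
theorem PF.zero (z1 z2 α : ℝ) : PF z1 z2 α (fun _ => 0) :=
  ⟨fun _ => ⟨⟨contDiff_const, fun _ _ => rfl⟩, fun _ _ _ => rfl⟩,
    fun i => ⟨0, Eventually.of_forall fun m p => by simp⟩⟩
theorem PF.mono {z1' z2' : ℝ} (h : PF z1 z2 α Φ) (h1 : z1' ≤ z1) (h2 : z2 ≤ z2') (hβ : β ≤ α) :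
    PF z1' z2' β Φ := by
  refine ⟨fun m => ⟨(h.1 m).1, (h.1 m).2.mono h1 h2⟩, fun i => ?_⟩
  obtain ⟨C, hC0, hC⟩ := cls_OO h.2 i
  refine ⟨C, ?_⟩
  filter_upwards [hC, eventually_ge_atTop 1] with m hm hm1 p
  refine (hm p).trans (mul_le_mul_of_nonneg_left ?_ hC0)
  exact rpow_le_rpow_of_exponent_le (by exact_mod_cast hm1) (by linarith)
theorem PF.add (h : PF z1 z2 α Φ) (h' : PF z1 z2 α Ψ) : PF z1 z2 α (fun m => Φ m + Ψ m) := by
  refine ⟨fun m => ⟨(h.1 m).1.add (h'.1 m).1, fun z s hz => by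
    simp [(h.1 m).2 z s hz, (h'.1 m).2 z s hz]⟩, fun i => ?_⟩
  obtain ⟨C, hC⟩ := h.2 i
  obtain ⟨C', hC'⟩ := h'.2 i
  refine ⟨C + C', ?_⟩
  filter_upwards [hC, hC'] with m hm hm' p
  rw [iteratedFDeriv_add_apply (cls_at (h.1 m).1.1 i p) (cls_at (h'.1 m).1.1 i p), add_mul]
  exact (norm_add_le _ _).trans (add_le_add (hm p) (hm' p))
theorem PF.sub (h : PF z1 z2 α Φ) (h' : PF z1 z2 α Ψ) : PF z1 z2 α (fun m => Φ m - Ψ m) := by
  refine ⟨fun m => ⟨(h.1 m).1.sub (h'.1 m).1, fun z s hz => by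
    simp [(h.1 m).2 z s hz, (h'.1 m).2 z s hz]⟩, fun i => ?_⟩
  obtain ⟨C, hC⟩ := h.2 i
  obtain ⟨C', hC'⟩ := h'.2 i
  refine ⟨C + C', ?_⟩
  filter_upwards [hC, hC'] with m hm hm' p
  rw [iteratedFDeriv_sub_apply (cls_at (h.1 m).1.1 i p) (cls_at (h'.1 m).1.1 i p), add_mul]
  exact (norm_sub_le _ _).trans (add_le_add (hm p) (hm' p))
theorem PF.mul {z1' z2' : ℝ} (h : PF z1 z2 α Φ) (h' : PF z1' z2' β Ψ) :
    PF z1 z2 (α + β) (fun m => Φ m * Ψ m) := by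
  refine ⟨fun m => ⟨(h.1 m).1.mul (h'.1 m).1, fun z s hz => by
    simp [(h.1 m).2 z s hz]⟩, fun n => ?_⟩
  choose C hC0 hC using cls_OO h.2
  choose C' hC0' hC' using cls_OO h'.2
  refine ⟨∑ i ∈ Finset.range (n + 1), (n.choose i : ℝ) * C i * C' (n - i), ?_⟩
  have e1 := (eventually_all_finset (Finset.range (n + 1))).2 fun i _ => hC i
  have e2 := (eventually_all_finset (Finset.range (n + 1))).2 fun i _ => hC' (n - i)
  filter_upwards [e1, e2, eventually_gt_atTop 0] with m hm hm' hm0 p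
  refine (cls_mul_bound (h.1 m).1.1.contDiffAt (h'.1 m).1.1.contDiffAt n).trans ?_
  rw [Finset.sum_mul]
  refine Finset.sum_le_sum fun i hi => ?_
  have hm1 : (0 : ℝ) < m := by exact_mod_cast hm0
  have e : (n.choose i : ℝ) * C i * C' (n - i) * (m : ℝ) ^ (-(α + β))
      = (n.choose i : ℝ) * (C i * (m : ℝ) ^ (-α)) * (C' (n - i) * (m : ℝ) ^ (-β)) := by
    rw [neg_add, rpow_add hm1]; ring
  rw [e]
  have := hC0 i
  exact mul_le_mul (mul_le_mul_of_nonneg_left (hm i hi p) (by positivity)) (hm' i hi p)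
    (norm_nonneg _) (by positivity)
theorem PF.smul (h : PF z1 z2 α Φ) (r : ℝ) : PF z1 z2 α (fun m => r • Φ m) := by
  have := cls_smul h (c := fun _ => r) (β := 0) (K := |r|) (by simp)
  rwa [add_zero] at this
theorem PF.rpow (h : PF z1 z2 α Φ) (β : ℝ) :
    PF z1 z2 (α + β) (fun m => ((m : ℝ) ^ (-β)) • Φ m) :=
  cls_smul h (K := 1) (Eventually.of_forall fun m => by
    rw [abs_of_nonneg (by positivity), one_mul])
theorem PF.inv (h : PF z1 z2 α Φ) : PF z1 z2 (α + 1) (fun m => ((m : ℝ)⁻¹) • Φ m) :=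
  cls_smul h (K := 1) (Eventually.of_forall fun m => by
    rw [abs_of_nonneg (by positivity), one_mul, rpow_neg_one])
theorem PF.nat (h : PF z1 z2 α Φ) : PF z1 z2 (α - 1) (fun m => (m : ℝ) • Φ m) :=
  cls_smul h (β := -1) (K := 1) (Eventually.of_forall fun m => by
    rw [abs_of_nonneg (by positivity), one_mul, neg_neg, rpow_one])
theorem PF.per_mul {Φ0 : Pf} (h : PF z1 z2 α Φ) (h0 : Per Φ0) :
    PF z1 z2 α (fun m => Φ0 * Φ m) :=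
  cls_PF_mul h (fun _ _ => h0.1.contDiffAt) h0.2
theorem PF.sl_mul {φ : ℝ → ℝ} (h : PF z1 z2 α Φ) (hφ : ∀ z ∈ Icc z1 z2, ContDiffAt ℝ ∞ φ z) :
    PF z1 z2 α (fun m => sl φ * Φ m) :=
  cls_PF_mul h (fun p hp => (hφ p.1 hp).comp p contDiffAt_fst) (fun _ _ => rfl)
theorem PF.dz (h : PF z1 z2 α Φ) : PF z1 z2 α (fun m => dz (Φ m)) := by
  refine ⟨fun m => ⟨(h.1 m).1.dz, (h.1 m).2.dz⟩, fun i => ?_⟩
  obtain ⟨C, hC⟩ := h.2 (i + 1)
  exact ⟨C, hC.mono fun m hm p =>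
    (cls_iter_dir_le (h.1 m).1.1 i p (1, 0) (by simp)).trans (hm p)⟩
theorem PF.ds (h : PF z1 z2 α Φ) : PF z1 z2 α (fun m => ds (Φ m)) := by
  refine ⟨fun m => ⟨(h.1 m).1.ds, (h.1 m).2.ds⟩, fun i => ?_⟩
  obtain ⟨C, hC⟩ := h.2 (i + 1)
  exact ⟨C, hC.mono fun m hm p =>
    (cls_iter_dir_le (h.1 m).1.1 i p (0, 1) (by simp)).trans (hm p)⟩
theorem PF.mean (h : PF z1 z2 α Φ) : PF z1 z2 α (fun m => sl (mean (Φ m))) := by
  refine ⟨fun m => ⟨Per_sl (h.1 m).1.mean, (h.1 m).2.mean⟩, ?_⟩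
  refine cls_OO_of_sup (S := fun Ψ => ∃ Φ, PF z1 z2 α Φ ∧ Ψ = fun m => sl (PI.mean (Φ m)))
    ?_ ?_ ?_ ?_ ⟨Φ, h, rfl⟩
  · rintro _ ⟨Φ, h, rfl⟩ m
    exact (Per_sl (h.1 m).1.mean).1
  · rintro _ ⟨Φ, h, rfl⟩
    obtain ⟨C, -, hC⟩ := cls_abs_le h.2
    exact ⟨C, hC.mono fun m hm p => cls_mean_le hm p.1⟩
  · rintro _ ⟨Φ, h, rfl⟩
    refine ⟨_, h.dz, funext fun m => ?_⟩
    rw [dz_sl (h.1 m).1.mean]
    congr 1
    funext z
    exact (cls_hd_mean (h.1 m).1.1 z).deriv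
  · rintro _ ⟨Φ, h, rfl⟩
    refine ⟨_, PF.zero z1 z2 α, funext fun m => ?_⟩
    rw [cls_ds_sl (h.1 m).1.mean]
    funext p
    simp [sl, PI.mean]
theorem PF.osc (h : PF z1 z2 α Φ) : PF z1 z2 α (fun m => osc (Φ m)) := h.sub h.mean
theorem PF.sinv (h : PF z1 z2 α Φ) (h0 : ∀ m, Mz (Φ m)) :
    PF z1 z2 α (fun m => sinv (Φ m)) := by
  refine ⟨fun m => ⟨(h.1 m).1.sinv (h0 m), (h.1 m).2.sinv⟩, ?_⟩
  refine cls_OO_of_sup (S := fun Ψ => PF z1 z2 α Ψ ∨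
    ∃ Φ, PF z1 z2 α Φ ∧ (∀ m, Mz (Φ m)) ∧ Ψ = fun m => PI.sinv (Φ m))
    ?_ ?_ ?_ ?_ (Or.inr ⟨Φ, h, h0, rfl⟩)
  · rintro Ψ (h | ⟨Φ, h, h0, rfl⟩) m
    · exact (h.1 m).1.1
    · exact ((h.1 m).1.sinv (h0 m)).1
  · rintro Ψ (h | ⟨Φ, h, h0, rfl⟩)
    · obtain ⟨C, -, hC⟩ := cls_abs_le h.2
      exact ⟨C, hC⟩
    · obtain ⟨C, -, hC⟩ := cls_abs_le h.2
      refine ⟨4 * π * C, hC.mono fun m hm p => ?_⟩
      rw [mul_assoc]
      exact cls_sinv_le ((h.1 m).1.sinv (h0 m)).2 hm p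
  · rintro Ψ (h | ⟨Φ, h, h0, rfl⟩)
    · exact Or.inl h.dz
    · exact Or.inr ⟨_, h.dz, fun m => (h0 m).dz (h.1 m).1,
        funext fun m => cls_dz_sinv (h.1 m).1.1⟩
  · rintro Ψ (h | ⟨Φ, h, h0, rfl⟩)
    · exact Or.inl h.ds
    · refine Or.inl ?_
      have : (fun m => PI.ds (PI.sinv (Φ m))) = Φ := funext fun m => ds_sinv (h.1 m).1
      rw [this]
      exact h
theorem PF.abs_le (h : PF z1 z2 α Φ) :
    ∃ C : ℝ, 0 ≤ C ∧ ∀ᶠ m : ℕ in atTop, ∀ p, |Φ m p| ≤ C * (m : ℝ) ^ (-α) := cls_abs_le h.2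
/-- a criterion in terms of partial derivatives -/
theorem OO_of_sup {S : (ℕ → Pf) → Prop} (hs : ∀ Φ, S Φ → ∀ m, ContDiff ℝ ∞ (Φ m))
    (h0 : ∀ Φ, S Φ → ∃ C : ℝ, ∀ᶠ m : ℕ in atTop, ∀ p, |Φ m p| ≤ C * (m : ℝ) ^ (-α))
    (hz : ∀ Φ, S Φ → S (fun m => PI.dz (Φ m))) (hd : ∀ Φ, S Φ → S (fun m => PI.ds (Φ m)))
    (h : S Φ) : OO α Φ := cls_OO_of_sup hs h0 hz hd h
/-- affine change of the slow variable -/
theorem PF.affine (h : PF z1 z2 α Φ) {a b : ℝ} (hb : 0 < b) :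
    PF (a + b * z1) (a + b * z2) α (fun m p => Φ m ((p.1 - a) / b, p.2)) := by
  have hA : ContDiff ℝ ∞ (fun p : ℝ × ℝ => (((p.1 - a) / b, p.2) : ℝ × ℝ)) := by fun_prop
  refine ⟨fun m => ⟨⟨(h.1 m).1.1.comp hA, fun z s => (h.1 m).1.2 _ _⟩, fun z s hz => ?_⟩, ?_⟩
  · refine (h.1 m).2 _ _ fun hz' => hz ⟨?_, ?_⟩
    · have := (le_div_iff₀ hb).1 hz'.1
      linarith
    · have := (div_le_iff₀ hb).1 hz'.2
      linarith
  refine cls_OO_of_sup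
    (S := fun Ψ => ∃ Φ, PF z1 z2 α Φ ∧ Ψ = fun m p => Φ m ((p.1 - a) / b, p.2))
    ?_ ?_ ?_ ?_ ⟨Φ, h, rfl⟩
  · rintro _ ⟨Φ, h, rfl⟩ m
    exact (h.1 m).1.1.comp hA
  · rintro _ ⟨Φ, h, rfl⟩
    obtain ⟨C, -, hC⟩ := cls_abs_le h.2
    exact ⟨C, hC.mono fun m hm p => hm _⟩
  · rintro _ ⟨Φ, h, rfl⟩
    refine ⟨_, h.dz.smul b⁻¹, funext fun m => funext fun p => ?_⟩
    obtain ⟨z, s⟩ := p
    have h1 := cls_hd_z (cls_diff ((h.1 m).1.1.comp hA) (z, s))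
    have h2 := (hasDerivAt_dz (h.1 m).1 ((z - a) / b) s).comp z
      (((hasDerivAt_id z).sub_const a).div_const b)
    have h3 := h1.unique h2
    refine h3.trans ?_
    simp [mul_comm]
  · rintro _ ⟨Φ, h, rfl⟩
    refine ⟨_, h.ds, funext fun m => funext fun p => ?_⟩
    obtain ⟨z, s⟩ := p
    have h1 := cls_hd_s (cls_diff ((h.1 m).1.1.comp hA) (z, s))
    exact h1.unique (hasDerivAt_ds (h.1 m).1 ((z - a) / b) s)
end

/-- the model stationary phase operator -/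
noncomputable def JG (m : ℕ) (Φ : Pf) : Pf :=
  fun p => ∫ σ : ℝ, exp (-σ ^ 2 / 2) * Φ (p.1, p.2 + m * σ ^ 2 / 2)
/-- its inverse -/
noncomputable def Jsh (m : ℕ) (Φ : Pf) : Pf :=
  (2 * π)⁻¹ • (JG m Φ - (m : ℝ) • ds (JG m Φ))

end Pool.Agent.Lib.MP_2fa2a2_gt.PI
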