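import Pool.Agent.Lib.MP_2fa2a2_gt.PI.SPull

/-! Families of operators depending on the support function, and the graded Egorov classes. -/

namespace Pool.Agent.Lib.MP_2fa2a2_gt.PI

namespace Egor

/-- a family of operators from level `m / 2` to level `n / 2` of size `b ^ p` -/
def F (K : ℕ) (δ : ℝ) (p : ℕ) (m n : ℤ) (T : Sm → Sm →ₗ[ℝ] Sm) : Prop :=
  ∃ C, 0 ≤ C ∧ ∀ u b, b ≤ δ → Cb K 1 b u → Bd 1 (m / 2) (n / 2) (C * b ^ p) (T u)

/-- a family of functions of size `b ^ p` -/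
def Fc (K : ℕ) (δ : ℝ) (p : ℕ) (f : Sm → Sm) : Prop :=
  ∃ C, 0 ≤ C ∧ ∀ u b, b ≤ δ → Cb K 1 b u → Cb 5 1 (C * b ^ p) (f u)

variable {K : ℕ} {δ : ℝ} {p q r : ℕ} {k m n m' n' : ℤ} {T T' : Sm → Sm →ₗ[ℝ] Sm}
  {A B : Sm →ₗ[ℝ] Sm}

theorem F.const {s t C : ℝ} (h : Bd 1 s t C A) (hC : 0 ≤ C) (hs : s ≤ m / 2) (ht : n / 2 ≤ t) :
    F K δ 0 m n fun _ => A :=
  ⟨C, hC, fun _ _ _ _ => h.mono le_rfl hC hs ht (by simp)⟩

theorem F.zero : F K δ p m n fun _ => 0 :=
  ⟨0, le_rfl, fun _ _ _ _ φ => by simp [nrm]⟩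

theorem F.add (h : F K δ p m n T) (h' : F K δ p m n T') : F K δ p m n fun u => T u + T' u := by
  obtain ⟨C, hC, h⟩ := h
  obtain ⟨C', hC', h'⟩ := h'
  exact ⟨C + C', by positivity, fun u b hb hu => by
    rw [add_mul]; exact (h u b hb hu).add (h' u b hb hu)⟩

theorem F.sub (h : F K δ p m n T) (h' : F K δ p m n T') : F K δ p m n fun u => T u - T' u := by
  obtain ⟨C, hC, h⟩ := h
  obtain ⟨C', hC', h'⟩ := h'
  exact ⟨C + C', by positivity, fun u b hb hu => by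
    rw [add_mul]; exact (h u b hb hu).sub (h' u b hb hu)⟩

theorem F.smul (h : F K δ p m n T) (c : ℝ) : F K δ p m n fun u => c • T u := by
  obtain ⟨C, hC, h⟩ := h
  exact ⟨|c| * C, by positivity, fun u b hb hu => by
    rw [mul_assoc]; exact (h u b hb hu).smul c⟩

theorem F.neg (h : F K δ p m n T) : F K δ p m n fun u => -T u := by
  simpa using h.smul (-1)

theorem F.sum {T : Fin 3 → Sm → Sm →ₗ[ℝ] Sm} (h : ∀ a, F K δ p m n (T a)) :
    F K δ p m n fun u => ∑ a, T a u := by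
  simp only [Fin.sum_univ_three]
  exact ((h 0).add (h 1)).add (h 2)

theorem F.mono (h : F K δ p m n T) (hm : m ≤ m') (hn : n' ≤ n) : F K δ p m' n' T := by
  obtain ⟨C, hC, h⟩ := h
  have h1 : (m : ℝ) ≤ m' := by exact_mod_cast hm
  have h2 : (n' : ℝ) ≤ n := by exact_mod_cast hn
  exact ⟨C, hC, fun u b hb hu => (h u b hb hu).mono le_rfl
    (mul_nonneg hC (pow_nonneg hu.nonneg _)) (by linarith) (by linarith) le_rfl⟩

theorem F.comp (hδ : δ ≤ 1) (h : F K δ p k n T) (h' : F K δ q m k T') (hr : r ≤ p + q) :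
    F K δ r m n fun u => T u ∘ₗ T' u := by
  obtain ⟨C, hC, h⟩ := h
  obtain ⟨C', hC', h'⟩ := h'
  refine ⟨C * C', by positivity, fun u b hb hu => ?_⟩
  have h0 := hu.nonneg
  refine ((h u b hb hu).comp (by positivity) (h' u b hb hu)).mono le_rfl (by positivity) le_rfl
    le_rfl ?_
  rw [mul_mul_mul_comm, ← pow_add]
  exact mul_le_mul_of_nonneg_left (pow_le_pow_of_le_one h0 (hb.trans hδ) hr) (by positivity)

theorem F.weak (hδ : δ ≤ 1) (h : F K δ p m n T) (hr : r ≤ p) : F K δ r m n T :=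
  h.comp hδ (F.const (Bd_id 1 _) zero_le_one le_rfl le_rfl) (by omega)

theorem Fc.ml {f : Sm → Sm} (h : Fc K δ p f) (hn : |n| ≤ 10) : F K δ p n n fun u => ml (f u) := by
  obtain ⟨C, hC, h⟩ := h
  obtain ⟨C', hC', h'⟩ := Bd_ml 5
  exact ⟨C' * C, by positivity, fun u b hb hu => by
    rw [mul_assoc]; exact h' n le_rfl (h u b hb hu) (by simpa using hn)⟩

theorem F_L (a : Fin 3) (n : ℤ) : F K δ 0 (n + 2) n fun _ => L a :=
  F.const (Bd_L le_rfl (n / 2) a) zero_le_one (by push_cast; linarith) le_rfl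

theorem F_D (a : Fin 3) (n : ℤ) : F K δ 0 (n + 2) n fun _ => D a := by
  obtain ⟨C, hC, h⟩ := Bd_D n
  exact F.const (h a le_rfl) hC (by push_cast; linarith) le_rfl

theorem F_ml (φ : Sm) (n : ℤ) : F K δ 0 n n fun _ => ml φ := by
  obtain ⟨C, hC, h⟩ := Bd_ml n.natAbs
  obtain ⟨B, hB, h'⟩ := exists_Cb n.natAbs φ
  exact F.const (h n le_rfl h' (abs_le.2 ⟨by omega, by omega⟩)) (by positivity) le_rfl le_rfl

theorem F_id (n : ℤ) : F K δ 0 n n fun _ => LinearMap.id :=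
  F.const (Bd_id 1 _) zero_le_one le_rfl le_rfl

theorem F_Sh (n : ℤ) : F K δ 0 n (n + 4) fun _ => Sh 1 :=
  F.const (Bd_Sh_one (n / 2)) zero_le_one le_rfl (by push_cast; linarith)

theorem F_Dp (n : ℤ) : F K δ 0 n (n + 4) fun _ => Dp :=
  F.const (Bd_Dp (n / 2)) zero_le_two le_rfl (by push_cast; linarith)

theorem F_P (l : ℕ) (m n : ℤ) : F K δ 0 m n fun _ => P l := by
  obtain ⟨C, hC, h⟩ := Bd_P l (m / 2) (n / 2)
  exact F.const h hC le_rfl le_rfl

/-- what is used of the pull back -/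
structure Ctx (K : ℕ) (δ : ℝ) : Prop where
  pos : 0 < δ
  le : δ ≤ 1
  hK : 7 ≤ K
  good : ∀ u b, b ≤ δ → Cb K 1 b u → Good u
  hX : ∀ n : ℤ, |n| ≤ 8 → F K δ 0 n n XX
  hX1 : ∀ n : ℤ, |n| ≤ 8 → F K δ 1 (n + 2) n fun u => XX u - LinearMap.id
  hQ : ∀ n : ℤ, |n| ≤ 8 → F K δ 2 (n + 4) n fun u => XX u - LinearMap.id - Vb u
  hW : ∀ a c, Fc K δ 2 fun u => Wf u a c - L a (X c) + D c (L a u)
  hP : ∀ φ, Fc K δ 2 fun u => pull u φ - φ - gd u φ

theorem exists_ctx (hB : PullBStmt) : ∃ K δ, Ctx K δ := by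
  obtain ⟨K, C, δ, hC, hδ, h⟩ := hB
  have h' := fun u b (hb : b ≤ min δ 1) (hu : Cb (max K 7) 1 b u) =>
    h u b (hb.trans (min_le_left _ _)) (hu.mono zero_le_one (le_max_left _ _) le_rfl le_rfl)
  refine ⟨max K 7, min δ 1, lt_min hδ one_pos, min_le_right _ _, le_max_right _ _,
    fun u b hb hu => (h' u b hb hu).1, fun n hn => ⟨C, hC, fun u b hb hu => ?_⟩,
    fun n hn => ⟨C, hC, fun u b hb hu => ?_⟩, fun n hn => ⟨C, hC, fun u b hb hu => ?_⟩,
    fun a c => ⟨C, hC, fun u b hb hu => ((h' u b hb hu).2.2.2.2.2.2.2.2.1 a c).2⟩, fun φ => ?_⟩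
  · simpa using ((h' u b hb hu).2.1 n hn).1
  · rw [show ((n + 2 : ℤ) : ℝ) / 2 = n / 2 + 1 by push_cast; ring, pow_one]
    exact ((h' u b hb hu).2.1 n hn).2.2.1
  · rw [show ((n + 4 : ℤ) : ℝ) / 2 = n / 2 + 2 by push_cast; ring]
    exact ((h' u b hb hu).2.1 n hn).2.2.2.2
  · obtain ⟨B, hB, hφ⟩ := exists_Cb 7 φ
    exact ⟨C * B, by positivity, fun u b hb hu => ((h' u b hb hu).2.2.2.2.2.2.2.2.2 φ B hφ).2⟩

theorem F.congr (c : Ctx K δ) (h : F K δ p m n T) (e : ∀ u, Good u → T' u = T u) :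
    F K δ p m n T' := by
  obtain ⟨C, hC, h⟩ := h
  exact ⟨C, hC, fun u b hb hu => by rw [e u (c.good u b hb hu)]; exact h u b hb hu⟩

theorem Fc_L (c : Ctx K δ) (a : Fin 3) : Fc K δ 1 fun u => L a u :=
  ⟨1, zero_le_one, fun u b _ hu => by
    simpa using (hu.mono zero_le_one (by have := c.hK; omega : 5 + 1 ≤ K) le_rfl le_rfl).L a⟩

theorem Fc_LL (c : Ctx K δ) (a d : Fin 3) : Fc K δ 1 fun u => L d (L a u) :=
  ⟨1, zero_le_one, fun u b _ hu => by
    simpa using ((hu.mono zero_le_one (c.hK : 5 + 1 + 1 ≤ K) le_rfl le_rfl).L a).L d⟩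

theorem F_V (c : Ctx K δ) (hn : |n + 2| ≤ 10) : F K δ 1 (n + 2) n Vb :=
  F.sum fun a => (F_L a n).comp c.le ((Fc_L c a).ml hn) le_rfl

theorem F_VL (c : Ctx K δ) (a : Fin 3) (hn : |n + 2| ≤ 10) :
    F K δ 1 (n + 2) n fun u => Vb (L a u) :=
  F.sum fun d => (F_L d n).comp c.le ((Fc_LL c a d).ml hn) le_rfl

/-- the second order remainder -/
noncomputable def Rm (A : Sm →ₗ[ℝ] Sm) (u : Sm) : Sm →ₗ[ℝ] Sm :=
  cm (XX u) A - cm (Vb u) A ∘ₗ XX u

/-- graded Egorov class -/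
structure E (K : ℕ) (δ : ℝ) (m n : ℤ) (A : Sm →ₗ[ℝ] Sm) : Prop where
  h0 : F K δ 0 m n fun _ => A
  h1 : F K δ 1 m n fun u => cm (Vb u) A
  h2 : F K δ 2 m n (Rm A)

theorem F.of_eq (h : F K δ p m n T) (e : ∀ u y, T' u y = T u y) : F K δ p m n T' := by
  rwa [show T' = T from funext fun u => LinearMap.ext (e u)]

theorem E.mono (h : E K δ m n A) (hm : m ≤ m') (hn : n' ≤ n) : E K δ m' n' A :=
  ⟨h.h0.mono hm hn, h.h1.mono hm hn, h.h2.mono hm hn⟩

theorem E.add (h : E K δ m n A) (h' : E K δ m n B) : E K δ m n (A + B) :=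
  ⟨h.h0.add h'.h0,
    (h.h1.add h'.h1).of_eq fun u y => by
      simp only [cm, LinearMap.add_apply, LinearMap.sub_apply, LinearMap.comp_apply, map_add]
      abel,
    (h.h2.add h'.h2).of_eq fun u y => by
      simp only [Rm, cm, LinearMap.add_apply, LinearMap.sub_apply, LinearMap.comp_apply, map_add]
      abel⟩

theorem E.smul (h : E K δ m n A) (c : ℝ) : E K δ m n (c • A) :=
  ⟨h.h0.smul c,
    (h.h1.smul c).of_eq fun u y => by
      simp only [cm, LinearMap.smul_apply, LinearMap.sub_apply, LinearMap.comp_apply, map_smul,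
        smul_sub],
    (h.h2.smul c).of_eq fun u y => by
      simp only [Rm, cm, LinearMap.smul_apply, LinearMap.sub_apply, LinearMap.comp_apply, map_smul,
        smul_sub]⟩

theorem E.neg (h : E K δ m n A) : E K δ m n (-A) := by
  simpa using h.smul (-1)

theorem E.sub (h : E K δ m n A) (h' : E K δ m n B) : E K δ m n (A - B) := by
  rw [sub_eq_add_neg]
  exact h.add h'.neg

theorem E_id (n : ℤ) : E K δ n n LinearMap.id :=
  ⟨F_id n, F.zero.of_eq fun u y => by simp [cm], F.zero.of_eq fun u y => by simp [Rm, cm]⟩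

theorem E.comp (c : Ctx K δ) (h : E K δ k n A) (h' : E K δ m k B) (hm : |m| ≤ 8) :
    E K δ m n (A ∘ₗ B) :=
  ⟨h.h0.comp c.le h'.h0 le_rfl,
    ((h.h1.comp c.le h'.h0 le_rfl).add (h.h0.comp c.le h'.h1 le_rfl)).of_eq fun u y => by
      simp only [cm, LinearMap.add_apply, LinearMap.sub_apply, LinearMap.comp_apply, map_sub]
      abel,
    ((((h.h0.comp c.le h'.h2 le_rfl).add
      (h.h1.comp c.le (h'.h1.comp c.le (c.hX m hm) le_rfl) le_rfl)).add
      (h.h1.comp c.le h'.h2 (by omega))).add (h.h2.comp c.le h'.h0 le_rfl)).of_eq fun u y => by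
      simp only [Rm, cm, LinearMap.add_apply, LinearMap.sub_apply, LinearMap.comp_apply, map_sub]
      abel⟩

/-- the inverse of an operator of the class -/
theorem E.inv (c : Ctx K δ) (h : E K δ m n A) (hB : F K δ 0 n m fun _ => B)
    (hAB : ∀ y, A (B y) = y) (hBA : ∀ y, B (A y) = y) (hm : |m| ≤ 8) : E K δ n m B := by
  have h1 : F K δ 1 n m fun u => cm (XX u) B :=
    (hB.comp c.le (((h.h1.comp c.le (c.hX m hm) le_rfl).add
      (h.h2.weak c.le one_le_two)).comp c.le hB le_rfl) le_rfl).neg.of_eq fun u y => by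
      simp only [Rm, cm, LinearMap.add_apply, LinearMap.sub_apply, LinearMap.comp_apply, map_sub,
        LinearMap.neg_apply, map_add, hAB, hBA]
      abel
  exact ⟨hB,
    (hB.comp c.le (h.h1.comp c.le hB le_rfl) le_rfl).neg.of_eq fun u y => by
      simp only [cm, LinearMap.sub_apply, LinearMap.comp_apply, map_sub, LinearMap.neg_apply,
        hAB, hBA]
      abel,
    ((hB.comp c.le (h.h1.comp c.le h1 le_rfl) le_rfl).neg.sub
      (hB.comp c.le (h.h2.comp c.le hB le_rfl) le_rfl)).of_eq fun u y => by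
      simp only [Rm, cm, LinearMap.sub_apply, LinearMap.comp_apply, map_sub, LinearMap.neg_apply,
        hAB, hBA]
      abel⟩

end Egor

end Pool.Agent.Lib.MP_2fa2a2_gt.PI
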