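import Pool.Agent.Lib.MP_2fa2a2_gt.PI.SLoc

/-! The test function for the estimate of the even part: pointwise identities. -/

namespace Pool.Agent.Lib.MP_2fa2a2_gt.PI

open Real
open scoped ContDiff

/-- smoothed sign of the wave -/
noncomputable def esteS (d : LD) (δ : ℝ) : Sm := cp (fun t => t / √(t ^ 2 + δ ^ 2)) d.sn
/-- primitive of the smoothed sign -/
noncomputable def esteJ (d : LD) (δ : ℝ) : Sm := cp (fun t => -arcsin (t / √(1 + δ ^ 2))) d.cs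
/-- derivative in the direction of the wave -/
noncomputable def esteP (d : LD) (ψ : Sm) : Sm := ∑ c, d.w c * D c ψ
/-- the test function without the amplitude -/
noncomputable def esteF (d : LD) (δ u : ℝ) (ψ : Sm) (g : ℝ → ℝ) : Sm :=
  esteS d δ * esteP d (ψ - Zf g) + u • (esteJ d δ * (d.be * (qq * zB g)))
/-- the small part of the gradient of the test function -/
noncomputable def esteE (d : LD) (δ u : ℝ) (ψ : Sm) (g : ℝ → ℝ) (b : Fin 3) : Sm :=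
  D b d.κ * esteF d δ u ψ g
    + d.κ * (esteS d δ * (∑ c, D b (d.w c) * D c (ψ - Zf g) - d.w b * (ψ - Zf g))
      + u • (esteJ d δ * (D b d.be * (qq * zB g) - d.be * (X 2 * (D b (X 2) * Dop (Zf g))))))

theorem estey_D_cp {g : ℝ → ℝ} {φ : Sm} (hg : ∀ x, ContDiffAt ℝ ∞ g (φ x)) {x : S2} {g' : ℝ}
    (h : HasDerivAt g g' (φ x)) (a : Fin 3) : D a (cp g φ) x = g' * D a φ x := by
  have hd : ∀ x, ContDiffAt ℝ ∞ (deriv g) (φ x) := fun x =>
    ((hg x).fderiv_right (m := ∞) (by simp)).clm_apply (contDiffAt_const (c := (1 : ℝ)))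
  rw [D_cp a hg, Sm.mul_apply, cp_apply hd, h.deriv]

theorem estey_D_zero {κ : Sm} (h : ∀ x, 0 ≤ κ x) {x : S2} (hx : κ x = 0) (b : Fin 3) :
    D b κ x = 0 := by
  have hm : IsLocalMin (ext0 κ) (x : E3) := Filter.Eventually.of_forall fun y => by
    rw [base_ext0_coe, hx]; exact h _
  rw [D_apply, hm.fderiv_eq_zero]
  rfl

theorem estey_sS {δ : ℝ} (hδ : 0 < δ) (t : ℝ) :
    ContDiffAt ℝ ∞ (fun t : ℝ => t / √(t ^ 2 + δ ^ 2)) t :=
  ContDiffAt.div (by fun_prop) (ContDiffAt.sqrt (by fun_prop) (by positivity)) (by positivity)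

theorem estey_dS {δ : ℝ} (hδ : 0 < δ) (t : ℝ) :
    HasDerivAt (fun t : ℝ => t / √(t ^ 2 + δ ^ 2)) (δ ^ 2 / √(t ^ 2 + δ ^ 2) ^ 3) t := by
  have p0 : 0 < t ^ 2 + δ ^ 2 := by positivity
  have h1 : HasDerivAt (fun t : ℝ => t ^ 2 + δ ^ 2) (2 * t) t := by
    simpa using (hasDerivAt_pow 2 t).add_const (δ ^ 2)
  have h2 := (hasDerivAt_id t).div (h1.sqrt p0.ne') (sqrt_pos.2 p0).ne'
  refine h2.congr_deriv ?_
  have r0 := sqrt_pos.2 p0
  have r3 := sq_sqrt p0.le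
  simp only [id]
  generalize √(t ^ 2 + δ ^ 2) = ρ at *
  field_simp
  linear_combination r3

theorem estey_lt {δ t : ℝ} (hδ : 0 < δ) (ht : |t| ≤ 1) : |t / √(1 + δ ^ 2)| < 1 := by
  have : 1 < √(1 + δ ^ 2) := lt_sqrt_of_sq_lt (by nlinarith)
  rw [abs_div, abs_of_pos (by linarith : 0 < √(1 + δ ^ 2)), div_lt_one (by linarith)]
  linarith

theorem estey_sJ {δ t : ℝ} (hδ : 0 < δ) (ht : |t| ≤ 1) :
    ContDiffAt ℝ ∞ (fun t : ℝ => -arcsin (t / √(1 + δ ^ 2))) t := by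
  have h := abs_lt.1 (estey_lt hδ ht)
  exact (ContDiffAt.comp (f := fun t : ℝ => t / √(1 + δ ^ 2)) t
    (contDiffAt_arcsin h.1.ne' h.2.ne) (by fun_prop)).neg

theorem estey_dJ {δ s t : ℝ} (hδ : 0 < δ) (ht : |t| ≤ 1) (hp : s ^ 2 + t ^ 2 = 1) :
    HasDerivAt (fun t : ℝ => -arcsin (t / √(1 + δ ^ 2))) (-(1 / √(s ^ 2 + δ ^ 2))) t := by
  have h := abs_lt.1 (estey_lt hδ ht)
  have h2 := (HasDerivAt.comp (h := fun t : ℝ => t / √(1 + δ ^ 2)) t
    (hasDerivAt_arcsin h.1.ne' h.2.ne) ((hasDerivAt_id t).div_const _)).neg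
  refine h2.congr_deriv ?_
  have p1 : 0 < 1 + δ ^ 2 := by positivity
  have e : s ^ 2 + δ ^ 2 = (1 - (t / √(1 + δ ^ 2)) ^ 2) * (1 + δ ^ 2) := by
    rw [div_pow, sq_sqrt p1.le]
    field_simp
    linarith
  rw [e, sqrt_mul' _ p1.le]
  ring

theorem estey_J {k m : ℕ} {C0 τ C1 δ : ℝ} {d : LD} (h : Loc k C0 τ C1 m d) (hδ : 0 < δ) (x : S2) :
    |esteJ d δ x| ≤ 2 := by
  rw [esteJ, cp_apply fun x => estey_sJ hδ (h.cs_le x), abs_neg, abs_le]
  have := arcsin_le_pi_div_two (d.cs x / √(1 + δ ^ 2))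
  have := neg_pi_div_two_le_arcsin (d.cs x / √(1 + δ ^ 2))
  have := pi_lt_four
  constructor <;> linarith

theorem estey_S {δ : ℝ} (d : LD) (hδ : 0 < δ) (x : S2) : |esteS d δ x| ≤ 1 := by
  have p0 : 0 < √(d.sn x ^ 2 + δ ^ 2) := by positivity
  rw [esteS, cp_apply fun x => estey_sS hδ _, abs_div, abs_of_pos p0, div_le_one p0]
  exact abs_le_sqrt (by nlinarith)

theorem estey_w (d : LD) : ∑ c, d.w c * d.w c = (d.al * d.al + d.be * d.be) * qq ∧
    ∑ c, X c * d.w c = 0 ∧ ∑ c, L 2 (X c) * d.w c = d.be * qq := by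
  have hs := alg_s
  simp only [LD.w, Fin.sum_univ_three, D_X, alg_20, alg_21, L_X_self, qq, alg_kd,
    alg_kd_ne (by decide : (0 : Fin 3) ≠ 2), alg_kd_ne (by decide : (1 : Fin 3) ≠ 2)]
  refine ⟨?_, ?_, ?_⟩
  · linear_combination (d.al * d.al * (X 2 * X 2) + d.be * d.be) * hs
  · linear_combination (-d.al * X 2) * hs
  · linear_combination d.be * hs

theorem estey_P (d : LD) (ψ : Sm) : esteP d ψ = d.al * D 2 ψ + d.be * L 2 ψ := by
  rw [← gd_X, gd_eq_D, L_eq_sum_D 2 ψ, esteP]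
  simp only [LD.w, Fin.sum_univ_three]
  ring

theorem estey_DP (d : LD) (ψ : Sm) (b : Fin 3) : D b (esteP d ψ)
    = ∑ c, H b c ψ * d.w c + (∑ c, D b (d.w c) * D c ψ - d.w b * ψ) := by
  have h1 := (estey_w d).2.1
  have h2 := hess_sum_kd b d.w
  simp only [esteP, map_add, D_mul, hess_expand, Fin.sum_univ_three, hess_kd_comm b] at h1 h2 ⊢
  linear_combination (-D b ψ + X b * ψ) * h1 - ψ * h2

theorem estey_H0 (d : LD) {g : ℝ → ℝ} (hg : ContDiff ℝ ∞ g) (b : Fin 3) :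
    ∑ c, H b c (Zf g) * d.w c = zB g * d.w b + d.al * (zA g - zB g) * D b (X 2) := by
  have h1 := H_Zf_z hg b
  have h2 := H_Zf_l hg b
  simp only [LD.w, Fin.sum_univ_three] at h1 h2 ⊢
  linear_combination d.al * h1 + d.be * h2

theorem estey_DB {g : ℝ → ℝ} (hg : ContDiff ℝ ∞ g) (b : Fin 3) :
    D b (qq * zB g) = -(X 2 * (D b (X 2) * Dop (Zf g))) := by
  have h : D b qq = -(D b (X 2) * X 2 + X 2 * D b (X 2)) := by
    rw [qq, map_sub, D_one, D_mul, zero_sub]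
  rw [D_mul, D_zB hg, Dop_Zf hg, h]
  ring

/-- the gradient of the test function -/
theorem estey_V {k m : ℕ} {C0 τ C1 δ : ℝ} {d : LD} (h : Loc k C0 τ C1 m d) (hδ : 0 < δ)
    (hm : (m : ℝ) ≠ 0) (ψ : Sm) {g : ℝ → ℝ} (hg : ContDiff ℝ ∞ g) {x : S2} (hx : d.κ x ≠ 0)
    (b : Fin 3) : D b (d.κ * esteF d δ (1 / m) ψ g) x = esteE d δ (1 / m) ψ g b x
      + d.κ x * (d.sn x / √(d.sn x ^ 2 + δ ^ 2)) * ((∑ c, H b c ψ * d.w c) x
        - (d.al * (zA g - zB g) * D b (X 2)) x)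
      + d.κ x * (δ ^ 2 / √(d.sn x ^ 2 + δ ^ 2) ^ 3 * d.om x * d.cs x
        * (m * esteP d (ψ - Zf g) x)) * d.w b x := by
  have e1 : D b (esteS d δ) x = δ ^ 2 / √(d.sn x ^ 2 + δ ^ 2) ^ 3
      * (m * d.om x * d.cs x * d.w b x) := by
    rw [esteS, estey_D_cp (fun x => estey_sS hδ _) (estey_dS hδ _), h.D_sn x hx]
  have e2 : D b (esteJ d δ) x = -(1 / √(d.sn x ^ 2 + δ ^ 2))
      * -(m * d.om x * d.sn x * d.w b x) := by
    rw [esteJ, estey_D_cp (fun x => estey_sJ hδ (h.cs_le x))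
      (estey_dJ hδ (h.cs_le x) (h.pyth x hx)), h.D_cs x hx]
  have e3 : esteS d δ x = d.sn x / √(d.sn x ^ 2 + δ ^ 2) := cp_apply (fun x => estey_sS hδ _) x
  have e4 : ∑ c, H b c (ψ - Zf g) * d.w c = ∑ c, H b c ψ * d.w c
      - (zB g * d.w b + d.al * (zA g - zB g) * D b (X 2)) := by
    rw [← estey_H0 d hg, ← Finset.sum_sub_distrib]
    exact Finset.sum_congr rfl fun c _ => by rw [map_sub, sub_mul]
  have e5 : D b (esteF d δ (1 / m) ψ g) = D b (esteS d δ) * esteP d (ψ - Zf g)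
      + esteS d δ * D b (esteP d (ψ - Zf g)) + (1 / m : ℝ) • (D b (esteJ d δ) * (d.be * (qq * zB g))
        + esteJ d δ * (D b d.be * (qq * zB g) + d.be * D b (qq * zB g))) := by
    rw [esteF, map_add, map_smul, D_mul, D_mul, D_mul b d.be]
  have e6 := h.om_be x hx
  rw [D_mul, esteE, e5, estey_DP, estey_DB hg, e4]
  generalize ∑ c, H b c ψ * d.w c = U, ∑ c, D b (d.w c) * D c (ψ - Zf g) = U'
  simp only [Sm.add_apply, Sm.sub_apply, Sm.mul_apply, Sm.smul_apply, Sm.neg_apply, e1, e2, e3]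
  have e7 : 1 / (m : ℝ) * m = 1 := by field_simp
  linear_combination (d.κ x * (d.sn x / √(d.sn x ^ 2 + δ ^ 2)) * zB g x * d.w b x) *
    (e6 + d.om x * d.be x * qq x * e7)

theorem estey_V0 {k m : ℕ} {C0 τ C1 : ℝ} {d : LD} (h : Loc k C0 τ C1 m d) (F : Sm) {x : S2}
    (hx : d.κ x = 0) (b : Fin 3) : D b (d.κ * F) x = 0 := by
  rw [D_mul, Sm.add_apply, Sm.mul_apply, Sm.mul_apply, hx, estey_D_zero h.κ_nonneg hx]
  ring

/-- the mean of the weight over a parallel is small -/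
theorem estey_vp {k m : ℕ} {C0 τ C1 δ : ℝ} {d : LD} (h : Loc k C0 τ C1 m d) (hδ : 0 < δ)
    (hm : (0 : ℝ) < m) : ∃ W : Sm, (∀ x, zav W x ≤ ((3 * δ) • (d.κ * d.κ)) x) ∧
      ∀ x, d.κ x * d.κ x * (δ ^ 2 / (d.sn x ^ 2 + δ ^ 2)) ≤ W x := by
  have sm : ∀ t, ContDiffAt ℝ ∞ (fun t => arctan (t / δ)) t := fun t =>
    (contDiff_arctan.comp (contDiff_id.div_const δ)).contDiffAt
  have hz := h.κ_zon.mul h.κ_zon
  refine ⟨(δ / m) • (d.κ * d.κ * L 2 (d.cs * cp (fun t => arctan (t / δ)) d.sn))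
    + (3 * δ) • (d.κ * d.κ), fun x => ?_, fun x => ?_⟩
  · rw [fnx_zav_add, fnx_zav_smul, hz.zav_mul, zav_L2, (hz.smul _).zav]
    simp
  by_cases hx : d.κ x = 0
  · simp [hx]
  have p0 : 0 < d.sn x ^ 2 + δ ^ 2 := by positivity
  have hd : HasDerivAt (fun t => arctan (t / δ)) (δ / (d.sn x ^ 2 + δ ^ 2)) (d.sn x) := by
    refine ((hasDerivAt_id (d.sn x)).div_const δ).arctan.congr_deriv ?_
    simp only [id]
    field_simp
    ring
  have w := congrArg (fun φ : Sm => φ x) (estey_w d).2.2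
  have e : L 2 (d.cs * cp (fun t => arctan (t / δ)) d.sn) x = m * (d.cs x ^ 2
      * (δ / (d.sn x ^ 2 + δ ^ 2)) - d.sn x * arctan (d.sn x / δ)) := by
    rw [L_eq_sum_D]
    simp only [D_mul, Fin.sum_univ_three, Sm.add_apply, Sm.mul_apply,
      estey_D_cp (fun x => sm _) hd, cp_apply fun x => sm (d.sn x), h.D_sn x hx,
      h.D_cs x hx] at w ⊢
    linear_combination (m * (d.cs x ^ 2 * (δ / (d.sn x ^ 2 + δ ^ 2))
      - d.sn x * arctan (d.sn x / δ))) * (d.om x * w + h.om_be x hx)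
  have a1 : d.sn x * arctan (d.sn x / δ) ≤ 2 := by
    refine (le_abs_self _).trans ?_
    have := arctan_lt_pi_div_two (d.sn x / δ)
    have := neg_pi_div_two_lt_arctan (d.sn x / δ)
    have := pi_lt_four
    have a : |arctan (d.sn x / δ)| ≤ 2 := by rw [abs_le]; constructor <;> linarith
    rw [abs_mul]
    exact (mul_le_of_le_one_left (abs_nonneg _) (h.sn_le x)).trans a
  have a2 : δ / (d.sn x ^ 2 + δ ^ 2) ≤ d.cs x ^ 2 * (δ / (d.sn x ^ 2 + δ ^ 2)) + 1 := by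
    have e1 : d.cs x ^ 2 = 1 - d.sn x ^ 2 := by linarith [h.pyth x hx]
    by_cases h1 : δ ≤ 1
    · have : d.sn x ^ 2 * (δ / (d.sn x ^ 2 + δ ^ 2)) ≤ 1 := by
        rw [← mul_div_assoc, div_le_one p0]
        nlinarith [sq_nonneg (d.sn x), sq_nonneg δ]
      rw [e1]; linarith
    · have : δ / (d.sn x ^ 2 + δ ^ 2) ≤ 1 := by
        rw [div_le_one p0]
        nlinarith [sq_nonneg (d.sn x)]
      have : 0 ≤ d.cs x ^ 2 * (δ / (d.sn x ^ 2 + δ ^ 2)) := by positivity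
      linarith
  simp only [Sm.add_apply, Sm.mul_apply, Sm.smul_apply, e]
  have a3 := mul_le_mul_of_nonneg_left (add_le_add a1 a2)
    (mul_nonneg hδ.le (mul_self_nonneg (d.κ x)))
  have e2 : ∀ r : ℝ, δ / m * (d.κ x * d.κ x * (m * r)) = δ * (d.κ x * d.κ x) * r := fun r => by
    field_simp
  rw [e2]
  simp only [div_eq_mul_inv] at a3 ⊢
  linarith

end Pool.Agent.Lib.MP_2fa2a2_gt.PI
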