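import Pool.Agent.Lib.MP_2fa2a2_gt.PI.Circ
import Pool.Agent.Lib.MP_2fa2a2_gt.PI.Prod

/-! Zonal functions. -/

namespace Pool.Agent.Lib.MP_2fa2a2_gt.PI

open Real
open scoped ContDiff

/-- zonal functions -/
def Zon (φ : Sm) : Prop := ∀ θ, act (rotZ θ) φ = φ

section
variable {φ ψ : Sm}
theorem Zon.L2 (h : Zon φ) : L 2 φ = 0 := by
  ext x
  have h1 := hasDerivAt_rotZ φ x 0
  have e : (fun t => φ (rotS (rotZ t) x)) = fun _ => φ x := funext fun t => rotz_inv h t x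
  rw [e, rotz_rotS_zero] at h1
  exact h1.unique (hasDerivAt_const _ _)
theorem Zon_of_L2 (h : L 2 φ = 0) : Zon φ := by
  intro θ
  ext x
  have h1 : ∀ t, HasDerivAt (fun t => φ (rotS (rotZ t) x)) 0 t := fun t => by
    have h2 := hasDerivAt_rotZ φ x t
    rwa [h] at h2
  have h2 := is_const_of_deriv_eq_zero (fun t => (h1 t).differentiableAt)
    (fun t => (h1 t).deriv) θ 0
  rw [rotz_rotS_zero] at h2
  rw [act_apply, h2]
theorem Zon.add (h : Zon φ) (h' : Zon ψ) : Zon (φ + ψ) := fun θ => by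
  rw [map_add, h, h']
theorem Zon.sub (h : Zon φ) (h' : Zon ψ) : Zon (φ - ψ) := fun θ => by
  rw [map_sub, h, h']
theorem Zon.mul (h : Zon φ) (h' : Zon ψ) : Zon (φ * ψ) := fun θ => by
  rw [map_mul, h, h']
theorem Zon.smul (h : Zon φ) (r : ℝ) : Zon (r • φ) := fun θ => by
  rw [map_smul, h]
theorem Zon.cp (h : Zon φ) (g : ℝ → ℝ) : Zon (cp g φ) := fun θ => by
  rw [act_cp, h]
theorem Zon.fn (h : Zon φ) (c : ℕ → ℝ) : Zon (fn c φ) := fun θ => by
  rw [← fn_act, h]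
theorem Zon.D2 (h : Zon φ) : Zon (D 2 φ) := fun θ => by
  rw [← D2_rotZ, h]
theorem Zon.lap (h : Zon φ) : Zon (lap φ) := fun θ => by
  rw [← lap_act, h]
theorem Zon.ant (h : Zon φ) : Zon (ant φ) := fun θ => by
  rw [← ant_rotZ, h]
theorem Zon.gd (h : Zon φ) (h' : Zon ψ) : Zon (gd φ ψ) := fun θ => by
  rw [← gd_act, h, h']
theorem Zon.mem_Zi (h : Zon φ) (m : ℕ) : φ ∈ Zi m := PI.mem_Zi.2 (h _)
theorem Zon.eq (h : Zon φ) {x y : S2} (hz : (x : E3) 2 = (y : E3) 2) : φ x = φ y := by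
  obtain ⟨r, α, h0, h1, h2⟩ := poly_polar x
  obtain ⟨s, β, k0, k1, k2⟩ := poly_polar y
  have e : ∃ θ, rotS (rotZ θ) x = y := by
    rcases sq_eq_sq_iff_eq_or_eq_neg.1 (show s ^ 2 = r ^ 2 by rw [h2, k2, hz]) with hs | hs
    · refine ⟨β - α, Subtype.ext (rotz_ext ?_ ?_ hz)⟩
      · rw [rotS_coe, rotZ_0, h0, h1, k0, hs, show β = β - α + α by ring, cos_add]
        simp only [add_sub_cancel_right]
        ring
      · rw [rotS_coe, rotZ_1, h0, h1, k1, hs, show β = β - α + α by ring, sin_add]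
        simp only [add_sub_cancel_right]
        ring
    · refine ⟨β - α + π, Subtype.ext (rotz_ext ?_ ?_ hz)⟩
      · rw [rotS_coe, rotZ_0, h0, h1, k0, hs, cos_add_pi, sin_add_pi,
          show β = β - α + α by ring, cos_add]
        simp only [add_sub_cancel_right]
        ring
      · rw [rotS_coe, rotZ_1, h0, h1, k1, hs, cos_add_pi, sin_add_pi,
          show β = β - α + α by ring, sin_add]
        simp only [add_sub_cancel_right]
        ring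
  obtain ⟨θ, rfl⟩ := e
  exact (rotz_inv h θ x).symm
theorem Zon.zav (h : Zon φ) (x : S2) : zav φ x = φ x := by
  unfold PI.zav
  simp only [rotz_inv h]
  exact circ_mean _
theorem Zon.zav_mul (h : Zon φ) (ψ : Sm) (x : S2) :
    PI.zav (φ * ψ : Sm) x = φ x * PI.zav ψ x :=
  rotz_zav_mul ψ (rotz_inv h) x
theorem Zon_const (r : ℝ) : Zon (algebraMap ℝ Sm r) := fun _ => AlgHom.commutes _ r
theorem Zon_one : Zon 1 := fun _ => map_one _
theorem Zon_X2 : Zon (X 2) := Zon_of_L2 (L_X_self 2)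
theorem Zon_qq : Zon qq := Zon_one.sub (Zon_X2.mul Zon_X2)
theorem Zon_Zf (g : ℝ → ℝ) : Zon (Zf g) := fun θ => rotZ_Zf θ g
end

theorem zon_qq_apply (x : S2) : qq x = 1 - (x : E3) 2 * (x : E3) 2 := rfl

theorem zon_qq_nonneg (x : S2) : 0 ≤ qq x := by
  rw [qq_eq]
  exact add_nonneg (mul_self_nonneg _) (mul_self_nonneg _)

theorem zon_L2_sq (ψ : Sm) (x : S2) : L 2 ψ x ^ 2 ≤ qq x * gd ψ ψ x := by
  have h : qq x * gd ψ ψ x = D 2 ψ x * D 2 ψ x + L 2 ψ x * L 2 ψ x :=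
    congrArg (fun f : Sm => f x) (qq_gd ψ ψ)
  nlinarith [mul_self_nonneg (D 2 ψ x)]

theorem zon_gd_le {ψ : Sm} {B : ℝ} (h : Cb 1 1 B ψ) (x : S2) : gd ψ ψ x ≤ 3 * B ^ 2 := by
  have h1 : ∀ a, L a ψ x * L a ψ x ≤ B ^ 2 := fun a => by
    have h2 := (Cb.L (k := 0) h a).abs_le x
    rw [mul_one] at h2
    rw [← sq]
    exact sq_le_sq' (abs_le.1 h2).1 (abs_le.1 h2).2
  rw [alg_gd]
  simp only [Sm.add_apply, Sm.mul_apply]
  linarith [h1 0, h1 1, h1 2]

/-- the gradient of a zonal function vanishes at the poles -/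
theorem Zon.L_sq_le {a : Sm} {B : ℝ} (h : Zon a) (hB : Cb 2 1 B a) (c : Fin 3) (x : S2) :
    L c a x ^ 2 ≤ 100 * B ^ 2 * qq x ∧ D c a x ^ 2 ≤ 100 * B ^ 2 * qq x := by
  have hq := zon_qq_nonneg x
  have h1 : ∀ b, L 2 (L b a) x ^ 2 ≤ qq x * (3 * B ^ 2) := fun b => by
    have h2 := Cb.L (k := 1) hB b
    rw [mul_one] at h2
    exact (zon_L2_sq _ x).trans (mul_le_mul_of_nonneg_left (zon_gd_le h2 x) hq)
  have e0 := h1 0
  have e1 := h1 1
  rw [alg_c20, h.L2, map_zero, zero_sub, Sm.neg_apply] at e0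
  rw [alg_c21, h.L2, map_zero, zero_add] at e1
  have h3 : PI.gd a a x ≤ 100 * B ^ 2 * qq x := by
    rw [alg_gd, h.L2]
    simp only [Sm.add_apply, Sm.mul_apply, Sm.zero_apply]
    nlinarith [mul_nonneg hq (sq_nonneg B)]
  exact ⟨(abs_L_le c a x).trans h3, (abs_D_le c a x).trans h3⟩

theorem zon_cancel {φ ψ : Sm} (h : qq * φ = qq * ψ) : φ = ψ := by
  refine sub_eq_zero.1 (Sm.ext (rotz_pole (φ - ψ).continuous fun x => ?_))
  rw [← Sm.mul_apply, mul_sub, h, sub_self, Sm.zero_apply]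

theorem zon_D2_X : D 2 (X 2) = qq := by rw [D_X, alg_kd]; rfl

theorem zon_D2_qq : D 2 qq = -(2 * X 2 * qq) := by
  have e : D 2 qq = D 2 1 - D 2 (X 2 * X 2) := map_sub _ _ _
  rw [e, D_one, D_mul, zon_D2_X]
  ring

theorem zon_qq_D {φ : Sm} (h : Zon φ) (c : Fin 3) : qq * D c φ = D c (X 2) * D 2 φ := by
  rw [qq_D, h.L2, mul_zero, add_zero]

theorem zon_qq_L {φ : Sm} (h : Zon φ) (c : Fin 3) : qq * L c φ = L c (X 2) * D 2 φ := by
  rw [qq_L, h.L2, mul_zero, mul_zero, add_zero, sub_zero]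

/-- primitive with respect to the height -/
noncomputable def prim : Sm →ₗ[ℝ] Sm :=
  fn (fun l => -(ll l)⁻¹) ∘ₗ ∑ c, L c ∘ₗ ml (L c (X 2))

theorem zon_PG : PG (fun l => -(ll l)⁻¹) := by
  refine PG.of_bdd (B := 1) fun l => ?_
  rw [abs_neg, abs_of_nonneg (inv_nonneg.2 (nrmx_ll_nonneg l))]
  rcases opsx_ll_cases l with h | h | h
  · rw [h, inv_zero]; exact zero_le_one
  · exact inv_le_one_of_one_le₀ (by linarith [h.2])
  · exact inv_le_one_of_one_le₀ (by linarith [h.2])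

theorem zon_sum (v : Sm) : ∑ c, L c (L c (X 2) * v) = D 2 v - 2 * X 2 * v := by
  simp only [L_mul, Finset.sum_add_distrib]
  rw [← Finset.sum_mul, ← lap_def, lap_X, ← gd_X]
  unfold gd
  ring

theorem zon_prim_def (v : Sm) :
    prim v = fn (fun l => -(ll l)⁻¹) (D 2 v - 2 * X 2 * v) := by
  rw [← zon_sum, prim, LinearMap.comp_apply, LinearMap.sum_apply]
  rfl

theorem zon_lap_prim (v : Sm) : lap (prim v) = D 2 v - 2 * X 2 * v := by
  refine eq_of_P fun l => ?_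
  rw [P_lap, zon_prim_def, P_fn zon_PG, smul_smul]
  rcases l with _ | l
  · rw [P_zero, ← zon_sum, map_sum]
    simp
  · have h : ll (l + 1) ≠ 0 := by unfold ll; positivity
    rw [neg_mul_neg, mul_inv_cancel₀ h, one_smul]

theorem prim_zon {v : Sm} (h : Zon v) : Zon (prim v) := by
  rw [zon_prim_def, two_mul, add_mul]
  exact (h.D2.sub ((Zon_X2.mul h).add (Zon_X2.mul h))).fn _

theorem zon_const {f : Sm} (h : Zon f) (h2 : D 2 f = 0) : f = algebraMap ℝ Sm (I f) := by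
  have h3 : lap f = 0 := zon_cancel (by rw [qq_lap, h.L2, h2, map_zero, map_zero]; ring)
  rw [← P_zero, P_eq_of_eigen]
  rw [h3]
  simp [ll]

theorem zon_D2_prim {v : Sm} (h : Zon v) : D 2 (prim v) = qq * v := by
  have hz := (prim_zon h).D2.sub (Zon_qq.mul h)
  have h1 := qq_lap (prim v)
  rw [(prim_zon h).L2, map_zero, add_zero, zon_lap_prim] at h1
  have h2 := zon_const hz (by rw [map_sub, ← h1, D_mul, zon_D2_qq]; ring)
  have h3 : (D 2 (prim v) - qq * v) (circ_pt 2) = 0 := by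
    rw [Sm.sub_apply, circ_D_pole, Sm.mul_apply, zon_qq_apply, circ_pt_coe]
    simp
  rw [h2, Sm.algebraMap_apply] at h3
  rw [h3, map_zero] at h2
  exact sub_eq_zero.1 h2

theorem D_prim {v : Sm} (h : Zon v) (c : Fin 3) : D c (prim v) = v * D c (X 2) :=
  zon_cancel (by rw [zon_qq_D (prim_zon h), zon_D2_prim h]; ring)
theorem L_prim {v : Sm} (h : Zon v) (c : Fin 3) : L c (prim v) = v * L c (X 2) :=
  zon_cancel (by rw [zon_qq_L (prim_zon h), zon_D2_prim h]; ring)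
theorem I_prim (v : Sm) : I (prim v) = 0 := by
  rw [zon_prim_def, I_fn zon_PG]
  simp [ll]
theorem prim_odd {v : Sm} (h : v ∈ Ev) : prim v ∈ Od := by
  rw [zon_prim_def]
  refine fn_mem_Od _ (mem_Od.2 ?_)
  rw [map_sub, map_mul, map_mul, ant_D, ant_X, mem_Ev.1 h, map_ofNat]
  ring

theorem zon_osc {u : Sm} {B : ℝ} (h : Zon u) (hB : ∀ x, |L 1 u x| ≤ B) (x : S2) :
    |u x - u (circ_pt 2)| ≤ B * π := by
  have h1 := fun t => int_hasDerivAt_comp 1 u (circ_pt 2) t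
  have h2 := Convex.norm_image_sub_le_of_norm_hasDerivWithin_le (s := Set.univ) (C := B)
    (fun t _ => (h1 t).hasDerivWithinAt) (fun t _ => hB _) convex_univ (Set.mem_univ 0)
    (Set.mem_univ (arccos ((x : E3) 2)))
  have hx := abs_le.1 (abs_X_le 2 x)
  have e : ∀ t, ((MP_5b78b3_gt.rot (int_rot 1 t) (circ_pt 2) : S2) : E3) 2 = cos t := fun t => by
    show int_rot 1 t (EuclideanSpace.single 2 1) 2 = _
    rw [int_rot_apply, int_rotL_apply]
    simp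
  rw [h.eq (y := x) ((e _).trans (cos_arccos hx.1 hx.2)),
    h.eq (y := circ_pt 2) ((e _).trans (by simp [circ_pt_coe])), sub_zero, Real.norm_eq_abs,
    Real.norm_eq_abs, abs_of_nonneg (arccos_nonneg _)] at h2
  exact h2.trans (mul_le_mul_of_nonneg_left (arccos_le_pi _) ((abs_nonneg _).trans (hB x)))

theorem zon_prim_sup {v : Sm} {B : ℝ} (h : Zon v) (hB : ∀ x, |v x| ≤ B) (x : S2) :
    |prim v x| ≤ 8 * B := by
  have hB0 : 0 ≤ B := (abs_nonneg _).trans (hB x)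
  have h1 : ∀ y, |prim v y - prim v (circ_pt 2)| ≤ B * π := zon_osc (prim_zon h) fun y => by
    rw [L_prim h, alg_12, Sm.mul_apply, Sm.neg_apply, abs_mul, abs_neg]
    exact (mul_le_mul (hB y) (abs_X_le 0 y) (abs_nonneg _) hB0).trans (mul_one B).le
  have h2 := abs_I_le (φ := prim v - algebraMap ℝ Sm (prim v (circ_pt 2)))
    (ψ := algebraMap ℝ Sm (B * π)) h1
  rw [map_sub, I_prim, harm_I_alg, harm_I_alg, zero_sub, abs_neg] at h2
  have h3 := abs_sub_abs_le_abs_sub (prim v x) (prim v (circ_pt 2))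
  nlinarith [h1 x, pi_le_four]

theorem Cb_prim (k : ℕ) : ∃ C, 0 ≤ C ∧ ∀ {v : Sm} {B : ℝ}, Zon v → Cb k 1 B v →
    Cb k 1 (C * B) (prim v) := by
  refine ⟨8 + 2 ^ k, by positivity, fun {v B} h hB => ?_⟩
  have hB0 := hB.nonneg
  have hp : (0 : ℝ) ≤ 2 ^ k * B := by positivity
  refine Cb.mono (k := k + 1) (B := (8 + 2 ^ k) * B) (Cb_of_succ (fun x => ?_) fun a => ?_)
    zero_le_one (Nat.le_succ k) le_rfl le_rfl
  · exact (zon_prim_sup h hB.abs_le x).trans (by linarith)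
  · rw [L_prim h]
    exact (Cb.mul zero_le_one hB ((Cb_X le_rfl (k + 1) 2).L a)).mono zero_le_one le_rfl le_rfl
      (by linarith)

/-- maximum principle -/
theorem zon_max (φ : Sm) : ∃ x0, (∀ x, |φ x| ≤ |φ x0|) ∧ φ x0 * D 2 φ x0 = 0 := by
  obtain ⟨x0, -, h0⟩ := isCompact_univ.exists_isMaxOn ⟨circ_pt 2, Set.mem_univ _⟩
    (φ * φ).continuous.continuousOn
  have h1 : ∀ x, (φ * φ) x ≤ (φ * φ) x0 := fun x => h0 (Set.mem_univ x)
  have h2 : ∀ a, L a (φ * φ) x0 = 0 := fun a => by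
    have e : MP_5b78b3_gt.rot (int_rot a 0) x0 = x0 := Subtype.ext (int_rot_zero a _)
    have h3 := int_hasDerivAt_comp a (φ * φ) x0 0
    rw [e] at h3
    refine IsLocalMax.hasDerivAt_eq_zero (Filter.Eventually.of_forall fun s => ?_) h3
    beta_reduce
    rw [e]
    exact h1 _
  refine ⟨x0, fun x => sq_le_sq.1 (by rw [sq, sq]; exact h1 x), ?_⟩
  have h3 : D 2 (φ * φ) x0 = 0 := by
    rw [alg_D2, Sm.sub_apply, Sm.mul_apply, Sm.mul_apply, h2, h2]
    ring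
  rw [D_mul, Sm.add_apply, Sm.mul_apply, Sm.mul_apply] at h3
  linarith

theorem zon_ode {γ G : Sm} {n : ℕ} {B B' : ℝ}
    (h : X 2 * D 2 γ + ((n : ℝ) + 1) • (qq * γ) = G) (hG : ∀ x, |G x| ≤ B)
    (hz : ∀ x, |(X 2 ^ (n + 1) * γ) x| ≤ B') (x : S2) : |γ x| ≤ 2 * B + 2 ^ (n + 1) * B' := by
  obtain ⟨y, h1, h2⟩ := zon_max γ
  have hB : 0 ≤ B := (abs_nonneg _).trans (hG x)
  have hB' : 0 ≤ 2 ^ (n + 1) * B' := mul_nonneg (by positivity) ((abs_nonneg _).trans (hz x))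
  refine (h1 x).trans ?_
  rcases mul_eq_zero.1 h2 with h3 | h3
  · rw [h3, abs_zero]
    linarith
  have h4 := hG y
  have h5 := hz y
  rw [← h, Sm.add_apply, Sm.mul_apply, h3, mul_zero, zero_add, Sm.smul_apply, Sm.mul_apply,
    abs_mul, abs_mul, abs_of_nonneg (zon_qq_nonneg y), abs_of_nonneg (by positivity),
    zon_qq_apply] at h4
  rw [Sm.mul_apply, Sm.pow_apply, abs_mul, abs_pow, X_apply] at h5
  have ha := abs_nonneg (γ y)
  have hn : (0 : ℝ) ≤ n := n.cast_nonneg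
  rcases le_total (1 / 2) |(y : E3) 2| with h6 | h6
  · have h7 : 1 ≤ 2 ^ (n + 1) * |(y : E3) 2| ^ (n + 1) := by
      rw [← mul_pow]
      exact one_le_pow₀ (by linarith)
    have h8 := mul_le_mul_of_nonneg_left h5 (show (0 : ℝ) ≤ 2 ^ (n + 1) by positivity)
    nlinarith
  · have h7 : 1 / 2 ≤ 1 - (y : E3) 2 * (y : E3) 2 := by
      rw [← abs_mul_abs_self]
      nlinarith [abs_nonneg ((y : E3) 2)]
    have h8 := mul_le_mul_of_nonneg_right h7 ha
    nlinarith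

theorem zon_cancelX {φ : Sm} (h : X 2 * φ = 0) : φ = 0 := by
  have h1 := congrArg (D 2) h
  rw [D_mul, zon_D2_X, map_zero] at h1
  ext x
  have h2 := zon_ode (γ := φ) (G := 0) (n := 0) (B := 0) (B' := 0)
    (by rw [Nat.cast_zero, zero_add, one_smul, add_comm, h1]) (fun _ => by simp)
    (fun _ => by rw [zero_add, pow_one, h]; simp) x
  rw [mul_zero, mul_zero, add_zero] at h2
  exact abs_nonpos_iff.1 h2

/-- uniform bounds for a family -/
def zon_U {ι : Type} (k : ℕ) (B : ι → ℝ) (v : ι → Sm) : Prop :=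
  ∃ C, 0 ≤ C ∧ ∀ i, Cb k 1 (C * B i) (v i)

section
variable {ι : Type} {k : ℕ} {B : ι → ℝ} {u v : ι → Sm}

theorem zon_U.add (h : zon_U k B u) (h' : zon_U k B v) : zon_U k B fun i => u i + v i := by
  obtain ⟨C, hC, h⟩ := h
  obtain ⟨C', hC', h'⟩ := h'
  exact ⟨C + C', by positivity, fun i => by rw [add_mul]; exact (h i).add (h' i)⟩

theorem zon_U.mul (h : zon_U k B v) (a : Sm) : zon_U k B fun i => a * v i := by
  obtain ⟨C, hC, h⟩ := h
  obtain ⟨A, hA, ha⟩ := exists_Cb k a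
  exact ⟨2 ^ k * A * C, by positivity, fun i => by
    rw [mul_assoc]; exact Cb.mul zero_le_one ha (h i)⟩

theorem zon_U.congr (h : zon_U k B v) (e : ∀ i, v i = u i) : zon_U k B u := by
  rwa [← funext e]

theorem zon_U.lower (h : zon_U (k + 1) B v) : zon_U k B v := by
  obtain ⟨C, hC, h⟩ := h
  exact ⟨C, hC, fun i => (h i).mono zero_le_one k.le_succ le_rfl le_rfl⟩

theorem zon_U.L (h : zon_U (k + 1) B v) (a : Fin 3) : zon_U k B fun i => L a (v i) := by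
  obtain ⟨C, hC, h⟩ := h
  exact ⟨C, hC, fun i => by simpa only [mul_one] using (h i).L a⟩

theorem zon_U.D (h : zon_U (k + 1) B v) (a : Fin 3) : zon_U k B fun i => D a (v i) := by
  obtain ⟨C, hC, h⟩ := h
  exact ⟨2 ^ (k + 1) * C, by positivity, fun i => by
    simpa only [mul_one, mul_assoc] using (h i).D le_rfl a⟩

theorem zon_U.succ (hB : ∀ i, 0 ≤ B i) (h : zon_U k B v)
    (h' : ∀ a, zon_U k B fun i => PI.L a (v i)) : zon_U (k + 1) B v := by
  obtain ⟨C, hC, h⟩ := h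
  choose A hA h' using h'
  have hs : 0 ≤ ∑ a, A a := Finset.sum_nonneg fun a _ => hA a
  refine ⟨C + ∑ a, A a, by positivity, fun i => Cb_of_succ (fun x => ?_) fun a => ?_⟩
  · exact ((h i).abs_le x).trans (mul_le_mul_of_nonneg_right (by linarith) (hB i))
  · refine (h' a i).mono zero_le_one le_rfl le_rfl ?_
    rw [mul_one]
    have h1 : A a ≤ ∑ a, A a := Finset.single_le_sum (fun a _ => hA a) (Finset.mem_univ a)
    exact mul_le_mul_of_nonneg_right (by linarith) (hB i)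
end

theorem zon_div {ι : Type} {B : ι → ℝ} (hB : ∀ i, 0 ≤ B i) (k : ℕ) : ∀ (n : ℕ) (γ G : ι → Sm),
    (∀ i, Zon (γ i)) → (∀ i, X 2 * D 2 (γ i) + ((n : ℝ) + 1) • (qq * γ i) = G i) →
    zon_U k B G → zon_U k B (fun i => X 2 ^ (n + 1) * γ i) → zon_U k B γ := by
  induction k with
  | zero =>
    rintro n γ G - h ⟨C, hC, hG⟩ ⟨C', hC', hz⟩
    refine ⟨2 * C + 2 ^ (n + 1) * C', by positivity, fun i w hw x => ?_⟩
    rw [List.length_eq_zero_iff.1 (Nat.le_zero.1 hw), Lw_nil, one_pow, mul_one]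
    exact (zon_ode (h i) (hG i).abs_le (hz i).abs_le x).trans_eq (by ring)
  | succ k ih =>
    intro n γ G hγ h hG hz
    have h1 := ih n γ G hγ h hG.lower hz.lower
    have h2 := ih (n + 1) (fun i => D 2 (γ i))
      (fun i => D 2 (G i) + algebraMap ℝ Sm ((n : ℝ) + 1) * (2 * X 2 * qq) * γ i)
      (fun i => (hγ i).D2)
      (fun i => by
        rw [← h i, map_add, map_smul, D_mul, D_mul, zon_D2_X, zon_D2_qq]
        simp only [Algebra.smul_def, Nat.cast_succ, map_add, map_one]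
        ring)
      ((hG.D 2).add (h1.mul _))
      ((((hz.D 2).mul (X 2)).add (hz.lower.mul (-(algebraMap ℝ Sm ((n : ℝ) + 1) * qq)))).congr
        fun i => by
          have e : D 2 (X 2 ^ (n + 1)) = ((n : ℝ) + 1) • (X 2 ^ n * qq) := by
            rw [← zon_D2_X, alg_D2, alg_D2, L_pow, L_pow]
            simp only [Algebra.smul_def]
            ring
          rw [D_mul, e, Algebra.smul_def]
          ring)
    refine h1.succ hB fun a => ?_
    refine (((((hz.L a).mul (X 2)).add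
      (hz.lower.mul (-(algebraMap ℝ Sm ((n : ℝ) + 1) * L a (X 2))))).mul (X 2 ^ n)).add
      (h2.mul ((∑ j ∈ Finset.range (n + 1), (X 2 * X 2) ^ j) * L a (X 2)))).congr fun i => ?_
    have e := mul_neg_geom_sum (X 2 * X 2) (n + 1)
    have e2 := zon_qq_L (hγ i) a
    unfold qq at e2
    rw [L_mul, L_pow, Algebra.smul_def]
    linear_combination L a (γ i) * e - (∑ j ∈ Finset.range (n + 1), (X 2 * X 2) ^ j) * e2

theorem zon_div1 {ι : Type} {B : ι → ℝ} (hB : ∀ i, 0 ≤ B i) {k : ℕ} {γ : ι → Sm}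
    (hγ : ∀ i, Zon (γ i)) (h : zon_U (k + 1) B fun i => X 2 * γ i) : zon_U k B γ :=
  zon_div hB k 0 γ _ hγ
    (fun i => by rw [Nat.cast_zero, zero_add, one_smul, add_comm, ← zon_D2_X, ← D_mul]) (h.D 2)
    (h.lower.congr fun i => by rw [zero_add, pow_one])

theorem zon_of_div {Y β : Sm} {c : ℝ} (h : Zon Y)
    (e : X 2 * X 2 * β = Y - algebraMap ℝ Sm c) : Zon β := by
  have h1 := congrArg (L 2) e
  rw [map_sub, h.L2, L_algebraMap, sub_zero, L_mul, L_mul, L_X_self] at h1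
  exact Zon_of_L2 (zon_cancelX (zon_cancelX (by linear_combination h1)))

theorem zon_div_c {Y β : Sm} {c : ℝ} (e : X 2 * X 2 * β = Y - algebraMap ℝ Sm c) :
    c = Y (circ_pt 0) := by
  have h1 := congrArg (fun f : Sm => f (circ_pt 0)) e
  simp only [Sm.mul_apply, Sm.sub_apply, Sm.algebraMap_apply, X_apply, circ_pt_coe] at h1
  rw [show (EuclideanSpace.single (0 : Fin 3) (1 : ℝ)) 2 = 0 by simp] at h1
  linarith

theorem zon_Cb_div (k : ℕ) : ∃ C, 0 ≤ C ∧ ∀ {Y β : Sm} {c B : ℝ}, Zon Y →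
    X 2 * X 2 * β = Y - algebraMap ℝ Sm c → Cb (k + 2) 1 B Y →
    Cb k 1 (C * B) β ∧ |c| ≤ B := by
  have hc : ∀ {Y β : Sm} {c B : ℝ}, X 2 * X 2 * β = Y - algebraMap ℝ Sm c → Cb (k + 2) 1 B Y →
      |c| ≤ B := fun e h => by rw [zon_div_c e]; exact h.abs_le _
  let ι : Type := {p : Sm × Sm × ℝ × ℝ // Zon p.1 ∧
    X 2 * X 2 * p.2.1 = p.1 - algebraMap ℝ Sm p.2.2.1 ∧ Cb (k + 2) 1 p.2.2.2 p.1}
  have hB : ∀ i : ι, 0 ≤ i.1.2.2.2 := fun i => i.2.2.2.nonneg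
  have hz : ∀ i : ι, Zon i.1.2.1 := fun i => zon_of_div i.2.1 i.2.2.1
  have h0 : zon_U (k + 2) (fun i : ι => i.1.2.2.2) fun i => X 2 * (X 2 * i.1.2.1) :=
    ⟨2, zero_le_two, fun i => by
      beta_reduce
      rw [← mul_assoc, i.2.2.1]
      exact (i.2.2.2.sub (Cb_const zero_le_one _ _)).mono zero_le_one le_rfl le_rfl
        (by linarith [hc i.2.2.1 i.2.2.2])⟩
  obtain ⟨C, hC, h⟩ := zon_div1 hB hz (zon_div1 hB (fun i => Zon_X2.mul (hz i)) h0)
  exact ⟨C, hC, fun {Y β c B} h1 h2 h3 => ⟨h ⟨(Y, β, c, B), h1, h2, h3⟩, hc h2 h3⟩⟩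

theorem zon_div_poly {Y : Sm} {N : ℕ} (h : Zon Y) (he : Y ∈ Ev) (hp : Y ∈ Poly N) :
    ∃ (β : Sm) (c : ℝ), X 2 * X 2 * β = Y - algebraMap ℝ Sm c := by
  obtain ⟨p, -, h1⟩ := zav_Poly hp
  have h2 : Y = Polynomial.aeval (X 2) p := Sm.ext fun x => by
    rw [← h.zav, h1, poly_Zf_apply, circ_aeval_apply]
  rw [← p.divX_mul_X_add, ← p.divX.divX_mul_X_add] at h2
  simp only [map_add, map_mul, Polynomial.aeval_X, Polynomial.aeval_C] at h2
  have h3 := congrArg ant h2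
  simp only [mem_Ev.1 he, map_add, map_mul, ant_X, AlgHom.commutes] at h3
  refine ⟨algebraMap ℝ Sm (1 / 2) * (Polynomial.aeval (X 2) p.divX.divX +
    ant (Polynomial.aeval (X 2) p.divX.divX)), p.coeff 0, ?_⟩
  have h4 : algebraMap ℝ Sm (1 / 2) * 2 = 1 := Sm.ext fun x => by
    rw [Sm.mul_apply, harm_two, Sm.algebraMap_apply, Sm.one_apply]
    norm_num
  linear_combination -(algebraMap ℝ Sm (1 / 2)) * (h2 + h3)
    + (Y - algebraMap ℝ Sm (p.coeff 0)) * h4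

theorem zon_hasSum (Y : Sm) (x : S2) {a : ℝ} (h : HasSum (fun l => P l Y x) a) : a = Y x := by
  have h1 := h.tendsto_sum_nat.comp (Filter.tendsto_add_atTop_nat 1)
  refine tendsto_nhds_unique h1 (tendsto_iff_norm_sub_tendsto_zero.2 ?_)
  have h2 := tendsto_one_div_add_atTop_nhds_zero_nat (𝕜 := ℝ).mul_const (5 * nrm 1 4 Y)
  rw [zero_mul] at h2
  refine squeeze_zero (fun _ => norm_nonneg _) (fun N => ?_) h2
  have h3 := nrmx_sup (Y - Pi N Y) x
  have h4 := nrm_sub_Pi (s := 3) (t := 4) (by norm_num) N Y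
  rw [show (3 : ℝ) - 4 = -1 by norm_num, Real.rpow_neg_one, ← one_div] at h4
  rw [Sm.sub_apply, abs_sub_comm, Pi_eq_sum, Sm.sum_apply] at h3
  rw [← Pi_eq_sum] at h3
  exact h3.trans (by linarith)

/-- division by the square of the height -/
theorem exists_div {Y : Sm} (h : Zon Y) (he : Y ∈ Ev) : ∃ (β : Sm) (c : ℝ), Zon β ∧ β ∈ Ev ∧
    X 2 * X 2 * β = Y - algebraMap ℝ Sm c := by
  have hz : ∀ l, Zon (P l Y) := fun l θ => by rw [← P_act, h]
  have hev : ∀ l, P l Y ∈ Ev := fun l => mem_Ev.2 (by rw [← harm_P_ant, mem_Ev.1 he])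
  choose b c hb using fun l => zon_div_poly (hz l) (hev l) (P_mem l Y)
  have key : ∀ k, ∃ B : ℕ → ℝ, Summable B ∧ ∀ n, Cb k 1 (B n) (P n Y) := fun k => by
    simpa only [one_smul] using fnx_hyp (fnx_const 1) Y k
  obtain ⟨β, hβ⟩ := exists_sum b fun k => by
    obtain ⟨C, -, hC⟩ := zon_Cb_div k
    obtain ⟨B, hB, h1⟩ := key (k + 2)
    exact ⟨fun n => C * B n, hB.mul_left C, fun n => (hC (hz n) (hb n) (h1 n)).1⟩
  obtain ⟨B, hB, h1⟩ := key 0
  have hc : Summable c := Summable.of_norm_bounded hB fun n => by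
    rw [zon_div_c (hb n)]; exact (h1 n).abs_le _
  have e : X 2 * X 2 * β = Y - algebraMap ℝ Sm (∑' n, c n) := Sm.ext fun x => by
    have h2 := ((hβ x).mul_left ((X 2 * X 2 : Sm) x)).add hc.hasSum
    have h3 : ∀ n, (X 2 * X 2 : Sm) x * b n x + c n = P n Y x := fun n => by
      rw [← Sm.mul_apply, hb, Sm.sub_apply, Sm.algebraMap_apply, sub_add_cancel]
    simp only [h3] at h2
    rw [Sm.sub_apply, Sm.algebraMap_apply, ← zon_hasSum Y x h2, add_sub_cancel_right,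
      Sm.mul_apply]
  refine ⟨β, _, zon_of_div h e, mem_Ev.2 ?_, e⟩
  have h2 := congrArg ant e
  rw [map_sub, mem_Ev.1 he, AlgHom.commutes, map_mul, map_mul, ant_X, ← e] at h2
  exact sub_eq_zero.1 (zon_cancelX (zon_cancelX (by linear_combination h2)))
theorem Cb_div (k : ℕ) : ∃ C, 0 ≤ C ∧ ∀ {Y β : Sm} {c B : ℝ}, Zon Y →
    X 2 * X 2 * β = Y - algebraMap ℝ Sm c → Cb (k + 2) 1 B Y →
    Cb k 1 (C * B) β ∧ |c| ≤ B := zon_Cb_div k

theorem zon_X2_R (β : Sm) : X 2 * X 2 * R β = R (Dp (Hs 2 2 β)) := by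
  refine ext_inner_right ℝ fun e => ?_
  rw [inner_mul, R, inner_fn, ← R, R_XX, real_inner_comm, inner_H, real_inner_comm, Dp,
    ← inner_fn, R, ← inner_fn]

theorem zon_X2_sq_R {β : Sm} (h : Zon β) :
    X 2 * X 2 * R β = R (qq * β - X 2 * prim β) := by
  have e : Hs 2 2 β = Dop (qq * β - X 2 * prim β) := by
    have e1 : Hs 2 2 β = 3 * X 2 * (2 * X 2 * β - D 2 β) - D 2 (2 * X 2 * β - D 2 β) := rfl
    rw [← zon_D2_prim h, Dop_def, lap_D_sub, zon_lap_prim, e1, map_sub, map_sub]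
    ring
  have e2 : ∀ φ, R (P 1 φ) = 0 := fun φ => by
    rw [R, fn_P PG_cR, cR_odd odd_one, zero_smul]
  rw [zon_X2_R, e, Dp_Dop, map_sub R, e2, sub_zero]

theorem X2_sq_R {β : Sm} (h : Zon β) (he : β ∈ Ev) :
    X 2 * X 2 * R β = R (qq * β - X 2 * prim β) := by
  have _ := he
  exact zon_X2_sq_R h

/-- principal radii of a zonal function -/
noncomputable def zA (g : ℝ → ℝ) : Sm := qq * Zf (deriv (deriv g)) - X 2 * Zf (deriv g) + Zf g
noncomputable def zB (g : ℝ → ℝ) : Sm := Zf g - X 2 * Zf (deriv g)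

theorem zon_Dz : D 0 (X 2) = -(X 0 * X 2) ∧ D 1 (X 2) = -(X 1 * X 2) ∧
    D 2 (X 2) = 1 - X 2 * X 2 := by
  refine ⟨?_, ?_, zon_D2_X⟩ <;> rw [D_X, alg_kd_ne (by decide), zero_sub]

theorem zon_kd : kd 0 1 = 0 ∧ kd 0 2 = 0 ∧ kd 1 0 = 0 ∧ kd 1 2 = 0 ∧ kd 2 0 = 0 ∧ kd 2 1 = 0 :=
  ⟨alg_kd_ne (by decide), alg_kd_ne (by decide), alg_kd_ne (by decide), alg_kd_ne (by decide),
    alg_kd_ne (by decide), alg_kd_ne (by decide)⟩

section
variable {g : ℝ → ℝ}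
theorem zon_deriv (hg : ContDiff ℝ ∞ g) : ContDiff ℝ ∞ (deriv g) :=
  (contDiff_infty_iff_deriv.1 hg).2

theorem zon_H (hg : ContDiff ℝ ∞ g) (a b : Fin 3) : H a b (Zf g) =
    Zf (deriv (deriv g)) * D a (X 2) * D b (X 2) + zB g * (kd a b - X a * X b) := by
  have e : D a (D b (X 2)) = -((kd a b - X a * X b) * X 2 + X b * D a (X 2)) := by
    rw [D_X b, map_sub, hess_D_kd, D_mul, D_X a b, zero_sub]
  rw [hess_expand, D_Zf b hg, D_Zf a hg, D_mul, D_Zf a (zon_deriv hg), e, zB]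
  ring

theorem zon_zA (g : ℝ → ℝ) : zA g = (1 - X 2 * X 2) * Zf (deriv (deriv g)) + zB g := by
  unfold zA zB qq
  ring

theorem H_Zf_z (hg : ContDiff ℝ ∞ g) (a : Fin 3) :
    ∑ b, H a b (Zf g) * D b (X 2) = zA g * D a (X 2) := by
  obtain ⟨d0, d1, d2⟩ := zon_Dz
  obtain ⟨k1, k2, k3, k4, k5, k6⟩ := zon_kd
  have s := alg_s
  simp only [zon_H hg, Fin.sum_univ_three, zon_zA]
  rcases alg_fin a with rfl | rfl | rfl <;>
    simp only [d0, d1, d2, k1, k2, k3, k4, k5, k6, alg_kd]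
  · linear_combination (-(Zf (deriv (deriv g)) * X 0 * X 2 ^ 3) + zB g * X 0 * X 2) * s
  · linear_combination (-(Zf (deriv (deriv g)) * X 1 * X 2 ^ 3) + zB g * X 1 * X 2) * s
  · linear_combination (Zf (deriv (deriv g)) * (1 - X 2 * X 2) * X 2 ^ 2 + zB g * X 2 * X 2) * s
theorem H_Zf_l (hg : ContDiff ℝ ∞ g) (a : Fin 3) :
    ∑ b, H a b (Zf g) * L 2 (X b) = zB g * L 2 (X a) := by
  obtain ⟨d0, d1, d2⟩ := zon_Dz
  obtain ⟨k1, k2, k3, k4, k5, k6⟩ := zon_kd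
  simp only [zon_H hg, Fin.sum_univ_three]
  rcases alg_fin a with rfl | rfl | rfl <;>
    simp only [d0, d1, d2, k1, k2, k3, k4, k5, k6, alg_kd, alg_20, alg_21, L_X_self] <;> ring
theorem Hn_Zf (hg : ContDiff ℝ ∞ g) : Hn (Zf g) = zA g * zA g + zB g * zB g := by
  refine zon_cancel (zon_cancel ?_)
  have e1 : H 2 2 (Zf g) = zA g * qq := by
    rw [zon_H hg, zon_D2_X, alg_kd, zon_zA, qq]
    ring
  have e2 : Hv (Zf g) (gr (X 2)) rl = 0 := by
    rw [Hv_z_l, L2_Zf hg, map_zero, mul_zero, add_zero]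
  have e3 : Hv (Zf g) rl rl = zB g * qq := by
    rw [Hv_l_l, L2_Zf hg, map_zero, D2_Zf hg, zB]
    ring
  rw [← mul_assoc, qq_sq_Hn, e1, e2, e3]
  ring
theorem Dop_Zf (hg : ContDiff ℝ ∞ g) : Dop (Zf g) = zA g + zB g := by
  refine zon_cancel ?_
  rw [Dop_def, mul_add, qq_lap, L2_Zf hg, map_zero, D2_Zf hg, D_mul, zon_D2_qq,
    D2_Zf (zon_deriv hg), zA, zB]
  ring
theorem zon_D_zB (hg : ContDiff ℝ ∞ g) (c : Fin 3) :
    D c (zB g) = -(X 2 * Zf (deriv (deriv g)) * D c (X 2)) := by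
  rw [zB, map_sub, D_mul, D_Zf c hg, D_Zf c (zon_deriv hg)]
  ring
theorem D2_zB (hg : ContDiff ℝ ∞ g) : D 2 (zB g) - X 2 * zB g = -(X 2 * zA g) := by
  rw [zon_D_zB hg, zon_D2_X, zon_zA, qq]
  ring
theorem D_zB (hg : ContDiff ℝ ∞ g) (c : Fin 3) :
    qq * D c (zB g) = -(X 2 * (zA g - zB g)) * D c (X 2) := by
  rw [zon_D_zB hg, zon_zA, qq]
  ring
end

/-- the components of the Hessian commute with the zonal mean -/
theorem zav_H {ψ ψ0 : Sm} (h : ∀ x, zav ψ x = ψ0 x) (x : S2) :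
    zav (H 2 2 ψ) x = H 2 2 ψ0 x ∧
    zav (Hv ψ (gr (X 2)) rl) x = Hv ψ0 (gr (X 2)) rl x ∧
    zav (Hv ψ rl rl) x = Hv ψ0 rl rl x := by
  have h1 := zav_D2 h
  have h2 := zav_D2 h1
  refine ⟨?_, ?_, ?_⟩
  · rw [H22_eq, H22_eq, fnx_zav_add, fnx_zav_add, Zon_X2.zav_mul, Zon_qq.zav_mul, h, h1, h2]
    rfl
  · rw [Hv_z_l, Hv_z_l, fnx_zav_add, Zon_X2.zav_mul, D2_L2, zav_L2, zav_L2, rotz_L2_zero h]
    simp
  · rw [Hv_l_l, Hv_l_l, fnx_zav_add, circ_zav_sub, Zon_X2.zav_mul, Zon_qq.zav_mul, h, h1,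
      zav_L2, rotz_L2_zero h, map_zero]
    rfl

/-- the non zonal part of `Dp y` is small -/
theorem nonzonal_small {m : ℕ} (hm : 0 < m) {ψ : Sm} (hψ : ψ ∈ Zi m) (h0 : ∀ x, zav ψ x = 0) :
    (m : ℝ) ^ 2 * nrm 1 1 ψ ^ 2 ≤ 1000 * I (Dop ψ * Dop ψ) ∨ m < 100 := by
  refine or_iff_not_imp_right.2 fun hm' => ?_
  have h1 : (100 : ℝ) ≤ m := by exact_mod_cast not_lt.1 hm'
  have hd : PG fun l => 2 - ll l := (fnx_const 2).sub PG_ll
  have e : fn (fun l => 2 - ll l) ψ = Dop ψ := eq_of_P fun l => by rw [P_fn hd, opsx_P_Dop]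
  have h2 := norm_fn_le (PG_wt le_rfl 1) hd (B := 30 / m) (by positivity) (φ := ψ) fun l hl => by
    have h3 : (m : ℝ) ^ 2 ≤ (2 * π) ^ 2 * ll l := not_lt.1 fun h => hl (P_of_Zi hm hψ h0 h)
    have h4 := nrmx_ll_nonneg l
    have h5 : (2 * π) ^ 2 ≤ 40 := by nlinarith [pi_lt_d2, pi_pos]
    have h6 : (m : ℝ) ^ 2 ≤ 40 * ll l := h3.trans (mul_le_mul_of_nonneg_right h5 h4)
    have h7 : 250 ≤ ll l := by nlinarith
    rw [div_mul_eq_mul_div, le_div_iff₀ (by positivity)]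
    refine nrmx_sq ?_ (by positivity)
    rw [mul_pow, mul_pow, sq_abs, sq_abs, nrmx_wt_one_sq le_rfl]
    nlinarith
  rw [e, div_mul_eq_mul_div, le_div_iff₀ (by positivity)] at h2
  have h3 := pow_le_pow_left₀ (by positivity) h2 2
  rw [← norm_sq_eq, nrm]
  nlinarith [sq_nonneg ‖Dop ψ‖]

end Pool.Agent.Lib.MP_2fa2a2_gt.PI
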