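import Pool.Agent.Lib.MP_2fa2a2_gt.PI.Tau
import Pool.Agent.Lib.MP_2fa2a2_gt.PI.Zon

/-! General tools for the estimate of the odd equation. -/

namespace Pool.Agent.Lib.MP_2fa2a2_gt.PI

open MeasureTheory Real

/-- `F` is a continuous majorant with `L2` norm at most `N` (dual form) -/
def EDom (F : S2 → ℝ) (N : ℝ) : Prop :=
  Continuous F ∧ (∀ x, 0 ≤ F x) ∧ 0 ≤ N ∧ ∀ u : Sm, ∫ x, |u x| * F x ∂sig ≤ N * ‖u‖

theorem esto_cs (u p : Sm) : ∫ x, |u x| * |p x| ∂sig ≤ ‖p‖ * ‖u‖ := by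
  rcases (norm_nonneg u).eq_or_lt with hu | hu
  · have : u = 0 := norm_eq_zero.1 hu.symm
    subst this
    simp
  rcases (norm_nonneg p).eq_or_lt with hp | hp
  · have : p = 0 := norm_eq_zero.1 hp.symm
    subst this
    simp
  have h1 : ∫ x, |u x| * |p x| ∂sig
      ≤ I ((‖p‖ / ‖u‖ / 2) • (u * u) + (‖u‖ / ‖p‖ / 2) • (p * p)) := by
    rw [I_def]
    refine integral_mono (integrable_of_continuous
      (u.continuous.abs.mul p.continuous.abs)) (int_integrable _) fun x => ?_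
    simp only [Sm.add_apply, Sm.smul_apply, Sm.mul_apply]
    rw [← abs_mul_abs_self (u x), ← abs_mul_abs_self (p x)]
    have h2 : ‖p‖ / ‖u‖ / 2 * (|u x| * |u x|) + ‖u‖ / ‖p‖ / 2 * (|p x| * |p x|) - |u x| * |p x|
        = (‖p‖ * |u x| - ‖u‖ * |p x|) ^ 2 / (2 * ‖u‖ * ‖p‖) := by
      field_simp
      ring
    have h3 : 0 ≤ (‖p‖ * |u x| - ‖u‖ * |p x|) ^ 2 / (2 * ‖u‖ * ‖p‖) := by positivity
    linarith
  rw [map_add, map_smul, map_smul, ← norm_sq_eq, ← norm_sq_eq, smul_eq_mul, smul_eq_mul] at h1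
  refine h1.trans (le_of_eq ?_)
  field_simp
  ring

theorem EDom.abs {p : Sm} {α N : ℝ} (hα : 0 ≤ α) (h : ‖p‖ ≤ N) :
    EDom (fun x => α * |p x|) (α * N) := by
  refine ⟨continuous_const.mul p.continuous.abs, fun x => by positivity,
    mul_nonneg hα ((norm_nonneg _).trans h), fun u => ?_⟩
  have h1 : ∫ x, |u x| * (α * |p x|) ∂sig = α * ∫ x, |u x| * |p x| ∂sig := by
    rw [← integral_const_mul]
    congr 1
    ext x
    ring
  rw [h1, mul_assoc]
  exact mul_le_mul_of_nonneg_left ((esto_cs u p).trans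
    (mul_le_mul_of_nonneg_right h (norm_nonneg _))) hα

theorem EDom.add {F G : S2 → ℝ} {N M : ℝ} (h : EDom F N) (h' : EDom G M) :
    EDom (fun x => F x + G x) (N + M) := by
  refine ⟨h.1.add h'.1, fun x => add_nonneg (h.2.1 x) (h'.2.1 x), add_nonneg h.2.2.1 h'.2.2.1,
    fun u => ?_⟩
  simp only [mul_add]
  rw [integral_add (f := fun x => |u x| * F x) (g := fun x => |u x| * G x)
    (integrable_of_continuous (u.continuous.abs.mul h.1))
    (integrable_of_continuous (u.continuous.abs.mul h'.1)), add_mul]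
  exact add_le_add (h.2.2.2 u) (h'.2.2.2 u)

theorem EDom.sum3 {F : Fin 3 → S2 → ℝ} {N : ℝ} (h : ∀ c, EDom (F c) N) :
    EDom (fun x => F 0 x + F 1 x + F 2 x) (3 * N) := by
  have := ((h 0).add (h 1)).add (h 2)
  rwa [show N + N + N = 3 * N by ring] at this

theorem esto_fin {u : Sm} {N : ℝ} (hN : 0 ≤ N) (h : ‖u‖ ^ 2 ≤ N * ‖u‖) : ‖u‖ ≤ N := by
  rcases (norm_nonneg u).eq_or_lt with hu | hu
  · rw [← hu]; exact hN
  · nlinarith

theorem esto_sq_int (u : Sm) : ‖u‖ ^ 2 = ∫ x, |u x| * |u x| ∂sig := by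
  rw [norm_sq_eq, I_def]
  simp only [Sm.mul_apply, abs_mul_abs_self]

theorem EDom.le {F : S2 → ℝ} {N : ℝ} {u : Sm} (h : EDom F N) (hu : ∀ x, |u x| ≤ F x) :
    ‖u‖ ≤ N := by
  refine esto_fin h.2.2.1 (le_trans ?_ (h.2.2.2 u))
  rw [esto_sq_int]
  exact integral_mono (integrable_of_continuous (u.continuous.abs.mul u.continuous.abs))
    (integrable_of_continuous (u.continuous.abs.mul h.1))
    fun x => mul_le_mul_of_nonneg_left (hu x) (abs_nonneg _)

theorem EDom.half {F : S2 → ℝ} {N : ℝ} {u : Sm} (h : EDom F N) (he : ant u = u)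
    (hu : ∀ x, 0 ≤ X 2 x → |u x| ≤ F x) : ‖u‖ ≤ 2 * N := by
  have hp : ∀ x, u (neg x) = u x := fun x => by rw [← ant_apply, he]
  have hn : Continuous neg := by
    refine Continuous.subtype_mk ?_ _
    fun_prop
  have h1 : ∀ x, |u x| ≤ F x + F (neg x) := by
    intro x
    rcases le_total 0 (X 2 x) with h0 | h0
    · linarith [hu x h0, h.2.1 (neg x)]
    · have := hu (neg x) (by simpa using h0)
      rw [hp] at this
      linarith [h.2.1 x]
  have h2 : ∫ x, |u x| * F (neg x) ∂sig = ∫ x, |u x| * F x ∂sig := by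
    rw [← integral_rotS (LinearIsometryEquiv.neg ℝ) (fun x => |u x| * F x)]
    congr 1
    ext x
    rw [← hp x]
    rfl
  refine esto_fin (by linarith [h.2.2.1]) ?_
  have h3 : ‖u‖ ^ 2 ≤ ∫ x, (|u x| * F x + |u x| * F (neg x)) ∂sig := by
    rw [esto_sq_int]
    refine integral_mono (integrable_of_continuous (u.continuous.abs.mul u.continuous.abs))
      (integrable_of_continuous ((u.continuous.abs.mul h.1).add
        (u.continuous.abs.mul (h.1.comp hn)))) fun x => ?_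
    rw [← mul_add]
    exact mul_le_mul_of_nonneg_left (h1 x) (abs_nonneg _)
  rw [integral_add (f := fun x => |u x| * F x) (g := fun x => |u x| * F (neg x))
    (integrable_of_continuous (u.continuous.abs.mul h.1))
    (integrable_of_continuous (u.continuous.abs.mul (h.1.comp hn))), h2] at h3
  linarith [h.2.2.2 u]

/-- the norm is below the root of the integral of a majorant of the square -/
theorem esto_le_sqrt {u F : Sm} (h : ∀ x, u x ^ 2 ≤ F x) : ‖u‖ ≤ √(I F) := by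
  refine Real.le_sqrt_of_sq_le ?_
  rw [norm_sq_eq]
  exact I_mono fun x => by rw [Sm.mul_apply, ← sq]; exact h x

theorem esto_sqrt_le (k : Sm) (U : Fin 3 → Sm) :
    √(I (k * k * ∑ a, U a * U a)) ≤ ‖k * U 0‖ + ‖k * U 1‖ + ‖k * U 2‖ := by
  refine Real.sqrt_le_iff.2 ⟨by positivity, ?_⟩
  have h1 : k * k * ∑ a, U a * U a
      = k * U 0 * (k * U 0) + k * U 1 * (k * U 1) + k * U 2 * (k * U 2) := by
    rw [Fin.sum_univ_three]; ring
  rw [h1, map_add, map_add, ← norm_sq_eq, ← norm_sq_eq, ← norm_sq_eq]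
  have h0 := norm_nonneg (k * U 0)
  have h1 := norm_nonneg (k * U 1)
  have h2 := norm_nonneg (k * U 2)
  nlinarith [mul_nonneg h0 h1, mul_nonneg h0 h2, mul_nonneg h1 h2]

/-- pointwise Leibniz remainder for a slowly varying factor -/
theorem esto_leib {lam : ℝ} (hl : 1 ≤ lam) (n : ℕ) : ∀ {B B' : ℝ} {v u : Sm}
    (w : List (Fin 3)), w.length = n → Cb n 1 B v → Cb n lam B' u → ∀ x,
    lam * |Lw w (v * u) x - v x * Lw w u x| ≤ 2 ^ n * B * B' * lam ^ n := by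
  induction n with
  | zero =>
    intro B B' v u w hw hv hu x
    rw [List.length_eq_zero_iff.1 hw]
    have := mul_nonneg hv.nonneg hu.nonneg
    simpa using this
  | succ n ih =>
    intro B B' v u w hw hv hu x
    have hne : w ≠ [] := by rintro rfl; simp at hw
    obtain ⟨w', a, rfl⟩ : ∃ w' a, w = w' ++ [a] :=
      ⟨_, _, (List.dropLast_append_getLast hne).symm⟩
    have hw' : w'.length = n := by simpa using hw
    have h0 : 0 ≤ lam := by linarith
    have h1 : Cb n lam (2 ^ n * (B * 1) * B') (L a v * u) :=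
      Cb.mul h0 ((hv.L a).mono zero_le_one le_rfl hl le_rfl)
        (hu.mono h0 (Nat.le_succ n) le_rfl le_rfl)
    have h2 := h1 w' hw'.le x
    have h3 := ih w' hw' (hv.mono zero_le_one (Nat.le_succ n) le_rfl le_rfl) (hu.L a) x
    rw [hw'] at h2
    have h4 : Lw (w' ++ [a]) (v * u) x - v x * Lw (w' ++ [a]) u x
        = Lw w' (L a v * u) x + (Lw w' (v * L a u) x - v x * Lw w' (L a u) x) := by
      simp only [Lw_append, Lw_cons, Lw_nil, L_mul, map_add, Sm.add_apply]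
      ring
    rw [h4]
    calc lam * |Lw w' (L a v * u) x + (Lw w' (v * L a u) x - v x * Lw w' (L a u) x)|
        ≤ lam * |Lw w' (L a v * u) x|
          + lam * |Lw w' (v * L a u) x - v x * Lw w' (L a u) x| := by
          rw [← mul_add]
          exact mul_le_mul_of_nonneg_left (abs_add_le _ _) h0
      _ ≤ lam * (2 ^ n * (B * 1) * B' * lam ^ n) + 2 ^ n * B * (B' * lam) * lam ^ n :=
          add_le_add (mul_le_mul_of_nonneg_left h2 h0) h3
      _ = 2 ^ (n + 1) * B * B' * lam ^ (n + 1) := by ring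

theorem esto_DD (a b : Fin 3) (φ : Sm) :
    D a (D b φ) = H a b φ - X b * D a φ - (kd a b - X a * X b) * φ := by
  rw [hess_expand]; ring

theorem esto_proj (c : Fin 3) (g : Sm) : ∑ a, (kd c a - X c * X a) * D a g = D c g := by
  have h1 := hess_sum_kd c (fun a => D a g)
  have h2 := sum_X_D g
  simp only [Fin.sum_univ_three] at h1 h2 ⊢
  rw [hess_kd_comm c 0, hess_kd_comm c 1, hess_kd_comm c 2]
  linear_combination h1 - X c * h2

/-- gradient of a scalar product of gradients -/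
theorem esto_D_gd (c : Fin 3) (f g : Sm) : D c (gd f g)
    = ∑ a, H c a f * D a g - f * D c g + ∑ a, H c a g * D a f - g * D c f := by
  have h1 := esto_proj c f
  have h2 := esto_proj c g
  have h3 := sum_X_D f
  have h4 := sum_X_D g
  rw [gd_eq_D]
  simp only [Fin.sum_univ_three, map_add, D_mul, esto_DD] at h1 h2 h3 h4 ⊢
  linear_combination -(D c f * h4) - f * h2 - D c g * h3 - g * h1

theorem esto_sum_D (φ : Sm) :
    ∑ a, ‖L a φ‖ ^ 2 = ‖D 0 φ‖ ^ 2 + ‖D 1 φ‖ ^ 2 + ‖D 2 φ‖ ^ 2 := by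
  have h1 : I (gd φ φ) = ∑ a, ‖L a φ‖ ^ 2 := by
    simp only [gd, map_sum, norm_sq_eq]
  rw [← h1, gd_eq_D]
  simp only [Fin.sum_univ_three, map_add, norm_sq_eq]

/-- functions of mean zero are controlled by their gradient -/
theorem esto_mean {φ : Sm} (h : I φ = 0) :
    nrm 1 1 φ ≤ 2 * (‖D 0 φ‖ + ‖D 1 φ‖ + ‖D 2 φ‖) := by
  have h1 := nrm_succ (lam := 1) le_rfl 0 φ
  simp only [zero_add, nrm_zero (le_refl (1 : ℝ)), one_pow, one_mul] at h1
  have h2 : inner ℝ (fn (fun _ => 1) φ) φ ≤ inner ℝ (fn ll φ) φ := by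
    refine inner_fn_le (fnx_const 1) PG_ll fun l hl => ?_
    rcases Nat.eq_zero_or_pos l with rfl | h0
    · exact absurd (by rw [P_zero, h, map_zero]) hl
    · have : (1 : ℝ) ≤ l := by exact_mod_cast h0
      unfold ll
      nlinarith
  have h3 : inner ℝ (fn ll φ) φ = ∑ a, ‖L a φ‖ ^ 2 := by
    rw [fn_ll, inner_neg_left, real_inner_comm, inner_def, ← I_gd]
    simp only [gd, map_sum, norm_sq_eq]
  rw [fn_const, one_smul, real_inner_self_eq_norm_sq, h3] at h2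
  rw [esto_sum_D] at h1 h2
  refine nrmx_sq ?_ (by positivity)
  have a0 := norm_nonneg (D 0 φ)
  have a1 := norm_nonneg (D 1 φ)
  have a2 := norm_nonneg (D 2 φ)
  nlinarith [mul_nonneg a0 a1, mul_nonneg a0 a2, mul_nonneg a1 a2]

theorem esto_D_le (a : Fin 3) (g : Sm) : ‖D a g‖ ≤ nrm 1 1 g := by
  have h := tau_sum_D_sq g
  refine nrmx_sq ?_ (nrm_nonneg _ _ _)
  rcases alg_fin a with rfl | rfl | rfl <;>
    nlinarith [sq_nonneg ‖D 0 g‖, sq_nonneg ‖D 1 g‖, sq_nonneg ‖D 2 g‖]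

theorem esto_L_le (a : Fin 3) (g : Sm) : ‖L a g‖ ≤ nrm 1 1 g := by
  have h := nrm_L (lam := 1) le_rfl 0 a g
  rwa [nrm_zero le_rfl, zero_add] at h

theorem esto_0_le (g : Sm) : ‖g‖ ≤ nrm 1 1 g := by
  have h := nrm_mono (lam := 1) le_rfl (zero_le_one' ℝ) g
  rwa [nrm_zero le_rfl] at h

theorem esto_DI {h : ℝ} (hh : 0 ≤ h) {j : ℕ} {w : List (Fin 3)} (hw : w.length ≤ 2 * j)
    (b : Fin 3) (g : Sm) : h ^ w.length * ‖D b (Lw w (DI h j g))‖ ≤ nrm 1 1 g := by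
  refine le_trans (mul_le_mul_of_nonneg_left (esto_D_le b _) (by positivity)) ?_
  unfold nrm
  rw [fn_Lw, DI, fn_comm]
  exact norm_Lw_DI hh hw _

theorem esto_zav_norm {φ φ0 : Sm} (h : ∀ x, zav φ x = φ0 x) : ‖φ0‖ ≤ ‖φ‖ := by
  have h1 := I_zav_le h (W := 1) (fun _ => zero_le_one) Zon_one
  rw [one_mul, one_mul, ← norm_sq_eq, ← norm_sq_eq] at h1
  exact nrmx_sq h1 (norm_nonneg _)

theorem esto_zav_wt {k φ φ0 : Sm} (hk : Zon k) (h : ∀ x, zav φ x = φ0 x) :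
    ‖k * φ0‖ ≤ ‖k * φ‖ :=
  esto_zav_norm fun x => by rw [hk.zav_mul, h, Sm.mul_apply]

theorem esto_Zi_mul {m : ℕ} {u v : Sm} (hu : u ∈ Zi m) (hv : v ∈ Zi m) : u * v ∈ Zi m := by
  rw [mem_Zi] at hu hv ⊢
  rw [map_mul, hu, hv]

theorem esto_Zi_D2 {m : ℕ} {u : Sm} (hu : u ∈ Zi m) : D 2 u ∈ Zi m := by
  rw [mem_Zi] at hu ⊢
  rw [← D2_rotZ, hu]

theorem esto_Zi_L2 {m : ℕ} {u : Sm} (hu : u ∈ Zi m) : L 2 u ∈ Zi m := by
  rw [mem_Zi] at hu ⊢
  rw [← L2_rotZ, hu]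

/-- weighted Poincare inequality along the parallels -/
theorem esto_poin {m : ℕ} (hm : 0 < m) {k φ : Sm} (hk : Zon k) (hφ : φ ∈ Zi m)
    (h0 : ∀ x, zav φ x = 0) : m * ‖k * φ‖ ≤ 7 * ‖k * L 2 φ‖ := by
  have h1 := poincare hm (esto_Zi_mul (hk.mem_Zi m) hφ)
    (fun x => by rw [hk.zav_mul, h0, mul_zero]) (w := 1) (W := 1) (fun _ => zero_le_one)
    (fun x => (Zon_one.zav x).le) Zon_one
  rw [one_mul, one_mul, ← norm_sq_eq, ← norm_sq_eq, L_mul, hk.L2, zero_mul, zero_add] at h1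
  have hm' : (0 : ℝ) < m := by exact_mod_cast hm
  refine nrmx_sq ?_ (by positivity)
  have h2 : (m * ‖k * φ‖) ^ 2 ≤ (2 * π) ^ 2 * ‖k * L 2 φ‖ ^ 2 := by
    have h3 := mul_le_mul_of_nonneg_left h1 (sq_nonneg (m : ℝ))
    have h4 : (m : ℝ) ^ 2 * ((2 * π / m) ^ 2 * ‖k * L 2 φ‖ ^ 2)
        = (2 * π) ^ 2 * ‖k * L 2 φ‖ ^ 2 := by field_simp
    rw [mul_pow]
    linarith
  have h5 : (2 * π) ^ 2 ≤ 49 := by nlinarith [pi_lt_d2, pi_pos]
  nlinarith [sq_nonneg ‖k * L 2 φ‖]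

/-- the squared length of the Hessian applied to a field, in the frame of the parallels -/
theorem esto_frame (ψ : Sm) (V : Fin 3 → Sm) :
    qq * ∑ a, (∑ b, H a b ψ * V b) * (∑ b, H a b ψ * V b)
      = Hv ψ (gr (X 2)) V * Hv ψ (gr (X 2)) V + Hv ψ rl V * Hv ψ rl V := by
  have h0 := sum_X_H 0 ψ
  have h1 := sum_X_H 1 ψ
  have h2 := sum_X_H 2 ψ
  have h := hess_tang (X 0) (X 1) (X 2) (∑ b, H 0 b ψ * V b) (∑ b, H 1 b ψ * V b)
    (∑ b, H 2 b ψ * V b) alg_s (by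
      simp only [Fin.sum_univ_three] at h0 h1 h2 ⊢
      linear_combination V 0 * h0 + V 1 * h1 + V 2 * h2)
  rw [hess_Hv_z, qq_eq, Fin.sum_univ_three (fun a => (∑ b, H a b ψ * V b) * ∑ b, H a b ψ * V b),
    h]
  simp only [Hv, Fin.sum_univ_three, hess_rl0, hess_rl1, hess_rl2]
  ring

theorem esto_qq (x : S2) : 0 ≤ qq x ∧ qq x ≤ 1 := by
  constructor
  · rw [qq_eq]
    simp only [Sm.add_apply, Sm.mul_apply]
    nlinarith [mul_self_nonneg (X 0 x), mul_self_nonneg (X 1 x)]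
  · simp only [qq, Sm.sub_apply, Sm.mul_apply, Sm.one_apply]
    nlinarith [mul_self_nonneg (X 2 x)]

theorem esto_gz (x : S2) : D 0 (X 2) x ^ 2 + D 1 (X 2) x ^ 2 + D 2 (X 2) x ^ 2 = qq x ∧
    L 2 (X 0) x ^ 2 + L 2 (X 1) x ^ 2 + L 2 (X 2) x ^ 2 = qq x ∧
    D 0 (X 2) x * L 2 (X 0) x + D 1 (X 2) x * L 2 (X 1) x + D 2 (X 2) x * L 2 (X 2) x = 0 := by
  have h := base_sum_sq x
  simp only [D_X, alg_20, alg_21, L_X_self, qq, alg_kd, alg_kd_ne (show (0 : Fin 3) ≠ 2 by decide),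
    alg_kd_ne (show (1 : Fin 3) ≠ 2 by decide), Sm.sub_apply, Sm.mul_apply, Sm.neg_apply,
    Sm.zero_apply, Sm.one_apply, X_apply]
  refine ⟨?_, ?_, ?_⟩
  · linear_combination (x : E3) 2 * (x : E3) 2 * h
  · linear_combination h
  · ring

theorem esto_abs3 {u : Fin 3 → ℝ} (h : u 0 ^ 2 + u 1 ^ 2 + u 2 ^ 2 ≤ 1) (c : Fin 3) :
    |u c| ≤ 1 := by
  rw [← sq_le_one_iff_abs_le_one]
  rcases alg_fin c with rfl | rfl | rfl <;>
    nlinarith [sq_nonneg (u 0), sq_nonneg (u 1), sq_nonneg (u 2)]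

theorem esto_Dz (c : Fin 3) (x : S2) : |D c (X 2) x| ≤ 1 :=
  esto_abs3 (u := fun c => D c (X 2) x) ((esto_gz x).1.le.trans (esto_qq x).2) c

theorem esto_rl (c : Fin 3) (x : S2) : |L 2 (X c) x| ≤ 1 :=
  esto_abs3 (u := fun c => L 2 (X c) x) ((esto_gz x).2.1.le.trans (esto_qq x).2) c

theorem esto_D_pt (a : Fin 3) (φ : Sm) (x : S2) :
    |D a φ x| ≤ |L (a + 1) φ x| + |L (a + 2) φ x| := by
  rw [D_def, Sm.sub_apply, Sm.mul_apply, Sm.mul_apply]
  refine (abs_sub _ _).trans (add_le_add ?_ ?_) <;> rw [abs_mul] <;>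
    exact mul_le_of_le_one_left (abs_nonneg _) (abs_X_le _ _)

theorem esto_H_le (a b : Fin 3) (ψ : Sm) (x : S2) : H a b ψ x ^ 2 ≤ Hn ψ x := by
  have h1 : H a b ψ x * H a b ψ x ≤ ∑ b, H a b ψ x * H a b ψ x :=
    Finset.single_le_sum (f := fun b => H a b ψ x * H a b ψ x) (fun _ _ => mul_self_nonneg _)
      (Finset.mem_univ b)
  have h2 : ∑ b, H a b ψ x * H a b ψ x ≤ ∑ a, ∑ b, H a b ψ x * H a b ψ x :=
    Finset.single_le_sum (f := fun a => ∑ b, H a b ψ x * H a b ψ x)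
      (fun _ _ => Finset.sum_nonneg fun _ _ => mul_self_nonneg _) (Finset.mem_univ a)
  simp only [Hn, Sm.sum_apply, Sm.mul_apply]
  nlinarith

theorem esto_Cb {g : Sm} {B : ℝ} (h : nrm 1 8 g ≤ B) : Cb 2 1 (5 * B) g := by
  intro w hw x
  have h1 := nrmx_sup (Lw w g) x
  have h2 := nrm_Lw (lam := 1) le_rfl 3 w g
  have h3 : (w.length : ℝ) ≤ 2 := by exact_mod_cast hw
  have h4 := nrm_mono (lam := 1) le_rfl (show (3 : ℝ) + w.length ≤ 8 by linarith) g
  rw [one_pow, mul_one]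
  linarith

theorem esto_H_pt {g : Sm} {B : ℝ} (h : Cb 2 1 B g) (a b : Fin 3) (x : S2) :
    |H a b g x| ≤ 12 * B := by
  have h1 := (Cb.D le_rfl (Cb.D le_rfl h b) a).abs_le x
  have h2 := (Cb.D le_rfl (h.mono zero_le_one (show 0 + 1 ≤ 2 by norm_num) le_rfl le_rfl) a).abs_le x
  have h3 := h.abs_le x
  have h4 : |kd a b x - X a x * X b x| ≤ 2 := by
    have h5 : |kd a b x| ≤ 1 := by
      unfold kd
      split_ifs <;> simp
    have h6 : |X a x * X b x| ≤ 1 := by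
      rw [abs_mul]
      exact mul_le_one₀ (abs_X_le _ _) (abs_nonneg _) (abs_X_le _ _)
    linarith [abs_sub (kd a b x) (X a x * X b x)]
  have h7 : |X b x * D a g x| ≤ |D a g x| := by
    rw [abs_mul]
    exact mul_le_of_le_one_left (abs_nonneg _) (abs_X_le _ _)
  have h8 : |(kd a b x - X a x * X b x) * g x| ≤ 2 * B := by
    rw [abs_mul]
    exact mul_le_mul h4 h3 (abs_nonneg _) zero_le_two
  rw [hess_expand]
  simp only [Sm.add_apply, Sm.mul_apply, Sm.sub_apply]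
  have h9 := abs_add_three (D a (D b g) x) (X b x * D a g x) ((kd a b x - X a x * X b x) * g x)
  norm_num at h1 h2
  linarith

end Pool.Agent.Lib.MP_2fa2a2_gt.PI
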