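import Pool.Agent.Lib.MP_2fa2a2_gt.PI.SLoc
import Pool.Agent.Lib.MP_2fa2a2_gt.PI.EstOX

/-! Weighted bounds for the estimate of the odd equation. -/

namespace Pool.Agent.Lib.MP_2fa2a2_gt.PI

open Real
open scoped ContDiff

theorem esto_zon0 {y y0 : Sm} (h : ∀ x, zav y x = y0 x) : Zon y0 := fun θ => by
  ext x
  rw [act_apply, ← h, ← h, zav_rotZ]

theorem esto_ev0 {y y0 : Sm} (h : ∀ x, zav y x = y0 x) (he : y ∈ Ev) : y0 ∈ Ev := by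
  rw [mem_Ev] at he ⊢
  ext x
  rw [ant_apply, ← h, ← h]
  unfold zav
  congr 2
  ext θ
  have h1 : rotS (rotZ θ) (neg x) = neg (rotS (rotZ θ) x) := Subtype.ext (by simp)
  rw [h1, ← ant_apply, he]

theorem esto_zavp {y y0 : Sm} (h : ∀ x, zav y x = y0 x) (x : S2) : zav (y - y0 : Sm) x = 0 := by
  rw [circ_zav_sub, (esto_zon0 h).zav, h, sub_self]

theorem esto_zavD {y y0 : Sm} (h : ∀ x, zav y x = y0 x) (x : S2) : zav (Dp y) x = Dp y0 x := by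
  have h1 : Dp y = Dp y0 + Dp (y - y0) := by rw [map_sub]; ring
  have h2 : zav (Dp (y - y0)) x = 0 := zav_fn _ (esto_zavp h) x
  have h3 : Zon (Dp y0) := (esto_zon0 h).fn _
  rw [h1, fnx_zav_add, h2, h3.zav, add_zero]

theorem esto_Hv_sub (ψ ψ' : Sm) (U V : Fin 3 → Sm) :
    Hv (ψ - ψ') U V = Hv ψ U V - Hv ψ' U V := by
  simp only [Hv, map_sub, sub_mul, Finset.sum_sub_distrib]

theorem esto_U1 (d : LD) (ψ : Sm) :
    Hv ψ (gr (X 2)) d.w = d.al * H 2 2 ψ + d.be * Hv ψ (gr (X 2)) rl := by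
  rw [← Hv_z_z]
  simp only [Hv, LD.w, gr, rl, Fin.sum_univ_three]
  ring

theorem esto_U2 (d : LD) (ψ : Sm) :
    Hv ψ rl d.w = d.al * Hv ψ (gr (X 2)) rl + d.be * Hv ψ rl rl := by
  rw [hess_Hv_comm ψ (gr (X 2)) rl]
  simp only [Hv, LD.w, gr, rl, Fin.sum_univ_three]
  ring

theorem esto_Hn_nonneg (ψ : Sm) (x : S2) : 0 ≤ Hn ψ x :=
  (sq_nonneg _).trans (esto_H_le 0 0 ψ x)

theorem esto_Hsq_nonneg (ψ : Sm) (V : Fin 3 → Sm) (x : S2) : 0 ≤ Hsq ψ V x := by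
  rw [Hsq, Sm.sum_apply]
  exact Finset.sum_nonneg fun a _ => by rw [Sm.mul_apply]; exact mul_self_nonneg _

theorem esto_Hsq_le (ψ : Sm) (V : Fin 3 → Sm) (b : Fin 3) (x : S2) :
    (∑ e, H b e ψ * V e) x ^ 2 ≤ Hsq ψ V x := by
  rw [Hsq, Sm.sum_apply _ (fun a => (∑ b, H a b ψ * V b) * ∑ b, H a b ψ * V b), sq,
    ← Sm.mul_apply]
  exact Finset.single_le_sum (f := fun a => ((∑ b, H a b ψ * V b) * ∑ b, H a b ψ * V b) x)
    (fun a _ => by rw [Sm.mul_apply]; exact mul_self_nonneg _) (Finset.mem_univ b)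

theorem esto_qHn (ψ : Sm) (x : S2) : qq x ^ 2 * Hn ψ x
    = H 2 2 ψ x ^ 2 + 2 * Hv ψ (gr (X 2)) rl x ^ 2 + Hv ψ rl rl x ^ 2 := by
  have h := congrArg (fun φ : Sm => φ x) (qq_sq_Hn ψ)
  simp only [Sm.mul_apply, Sm.add_apply, harm_two] at h
  linear_combination h

theorem esto_qHsq (ψ : Sm) (V : Fin 3 → Sm) (x : S2) :
    qq x * Hsq ψ V x = Hv ψ (gr (X 2)) V x ^ 2 + Hv ψ rl V x ^ 2 := by
  have h := congrArg (fun φ : Sm => φ x) (esto_frame ψ V)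
  simp only [Sm.mul_apply, Sm.add_apply] at h
  rw [Hsq]
  linear_combination h

theorem esto_comp (ψ : Sm) (x : S2) : H 2 2 ψ x ^ 2 ≤ Hn ψ x ∧
    Hv ψ (gr (X 2)) rl x ^ 2 ≤ Hn ψ x ∧ Hv ψ rl rl x ^ 2 ≤ Hn ψ x := by
  have h := esto_qHn ψ x
  have h1 : qq x ^ 2 * Hn ψ x ≤ Hn ψ x :=
    mul_le_of_le_one_left (esto_Hn_nonneg ψ x) (pow_le_one₀ (esto_qq x).1 (esto_qq x).2)
  refine ⟨?_, ?_, ?_⟩ <;> nlinarith [sq_nonneg (H 2 2 ψ x), sq_nonneg (Hv ψ (gr (X 2)) rl x),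
    sq_nonneg (Hv ψ rl rl x)]

theorem esto_compw (ψ : Sm) (V : Fin 3 → Sm) (x : S2) :
    Hv ψ (gr (X 2)) V x ^ 2 ≤ Hsq ψ V x ∧ Hv ψ rl V x ^ 2 ≤ Hsq ψ V x := by
  have h := esto_qHsq ψ V x
  have h1 : qq x * Hsq ψ V x ≤ Hsq ψ V x :=
    mul_le_of_le_one_left (esto_Hsq_nonneg ψ V x) (esto_qq x).2
  constructor <;> nlinarith [sq_nonneg (Hv ψ (gr (X 2)) V x), sq_nonneg (Hv ψ rl V x)]

theorem esto_wt_le {k u F : Sm} (h : ∀ x, u x ^ 2 ≤ F x) : ‖k * u‖ ≤ √(I (k * k * F)) :=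
  esto_le_sqrt fun x => by
    simp only [Sm.mul_apply]
    nlinarith [mul_le_mul_of_nonneg_left (h x) (mul_self_nonneg (k x))]

theorem esto_two {k u u0 : Sm} {N : ℝ} (hk : Zon k) (h : ∀ x, zav u x = u0 x)
    (hN : ‖k * u‖ ≤ N) : ‖k * (u - u0)‖ ≤ 2 * N := by
  rw [mul_sub]
  linarith [norm_sub_le (k * u) (k * u0), esto_zav_wt hk h]

theorem esto_term {a r κ α β : ℝ} (hκ : 0 ≤ κ) (hr : |r| ≤ α * κ + β) :
    |a * r| ≤ α * |κ * a| + β * |a| := by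
  rw [abs_mul, abs_mul, abs_of_nonneg hκ]
  nlinarith [mul_le_mul_of_nonneg_left hr (abs_nonneg a)]

/-- the data of the estimate -/
structure EO (j : ℕ) (C0 τ C1 Λ : ℝ) (m : ℕ) (d : LD) (go ge y y0 : Sm) (p : ℝ → ℝ)
    (r σ : ℝ) : Prop where
  hC0 : 1 ≤ C0
  hC1 : 1 ≤ C1
  hΛ : 1 ≤ Λ
  hm : 100 ≤ m
  loc : Loc (2 * j + 10) C0 τ C1 m d
  adj : Adj j Λ m d go ge y
  hp : ContDiff ℝ ∞ p
  hy0 : ∀ x, zav y x = y0 x
  hψ0 : Dp y0 = Zf p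
  hr : r = (m : ℝ)⁻¹
  hσ : σ = (√m)⁻¹

section
variable {j : ℕ} {C0 τ C1 Λ : ℝ} {m : ℕ} {d : LD} {go ge y y0 : Sm} {p : ℝ → ℝ} {r σ : ℝ}
  (c : EO j C0 τ C1 Λ m d go ge y y0 p r σ)
include c

theorem EO.m1 : (1 : ℝ) ≤ m := by
  have := c.hm
  exact_mod_cast (by omega : 1 ≤ m)

theorem EO.basic : 0 < r ∧ 0 < σ ∧ σ ≤ 1 ∧ r ≤ 1 ∧ m * r = 1 ∧ σ * σ = r ∧ √m = m * σ := by
  have h1 := c.m1
  have h0 : (0 : ℝ) < m := by linarith
  have h2 : 1 ≤ √(m : ℝ) := one_le_sqrt.2 h1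
  have h3 : √(m : ℝ) * √m = m := mul_self_sqrt h0.le
  have h4 : 0 < √(m : ℝ) := by linarith
  rw [c.hr, c.hσ]
  refine ⟨by positivity, by positivity, inv_le_one_of_one_le₀ h2, inv_le_one_of_one_le₀ h1,
    mul_inv_cancel₀ h0.ne', by rw [← mul_inv, h3], ?_⟩
  rw [eq_mul_inv_iff_mul_eq₀ h4.ne', h3]

theorem EO.kb_ge (x : S2) : 0 ≤ d.κ x ∧ d.κ x ≤ d.kb x ∧ d.kb x ≤ 2 * C0 := by
  have h1 := c.loc.κ_nonneg (neg x)
  have h2 := c.loc.κ_le (neg x)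
  have h3 := c.loc.κ_le x
  simp only [LD.kb, Sm.add_apply, ant_apply]
  exact ⟨c.loc.κ_nonneg x, by linarith, by linarith⟩

theorem EO.q_ge {x : S2} (h : d.κ x ≠ 0) : 1 ≤ C0 * qq x := by
  have h1 := (c.loc.κ_supp x h).2
  have h0 : 0 < C0 := by linarith [c.hC0]
  have := mul_le_mul_of_nonneg_left h1 h0.le
  rwa [mul_inv_cancel₀ h0.ne'] at this

theorem EO.w_le {x : S2} (h : d.κ x ≠ 0) (b : Fin 3) : |d.w b x| ≤ 1 := by
  refine esto_abs3 (u := fun b => d.w b x) (le_of_eq ?_) b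
  obtain ⟨h1, h2, h3⟩ := esto_gz x
  have h4 := c.loc.unit x h
  simp only [LD.w, Sm.add_apply, Sm.mul_apply]
  linear_combination d.al x ^ 2 * h1 + d.be x ^ 2 * h2 + 2 * d.al x * d.be x * h3 + h4

theorem EO.kb_le {u : Sm} (h : ∀ x, u x ^ 2 ≤ Hn (Dp y) x) : ‖d.kb * u‖ ≤ XN d y :=
  esto_wt_le h

theorem EO.κ_le {u : Sm} (h : ∀ x, u x ^ 2 ≤ Hn (Dp y) x) : ‖d.κ * u‖ ≤ XN d y := by
  refine le_trans (norm_le_of_abs_le fun x => ?_) (c.kb_le h)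
  obtain ⟨h1, h2, -⟩ := c.kb_ge x
  rw [Sm.mul_apply, Sm.mul_apply, abs_mul, abs_mul, abs_of_nonneg h1,
    abs_of_nonneg (h1.trans h2)]
  exact mul_le_mul_of_nonneg_right h2 (abs_nonneg _)

theorem EO.H_le (a b : Fin 3) : ‖H a b (Dp y)‖ ≤ 2 := by
  linarith [norm_H_Dp a b y, c.adj.le]

theorem EO.H0_le (a b : Fin 3) : ‖H a b (Dp y0)‖ ≤ 2 := by
  linarith [norm_H_Dp a b y0, c.adj.le, esto_zav_norm c.hy0]

theorem EO.p_inv : Dp (y - y0) ∈ Zi m :=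
  fn_mem_Zi _ (Submodule.sub_mem _ c.adj.inv ((esto_zon0 c.hy0).mem_Zi m))

theorem EO.p_zav (x : S2) : zav (Dp (y - y0)) x = 0 := zav_fn _ (esto_zavp c.hy0) x

theorem EO.p_ev : Dp (y - y0) ∈ Ev :=
  fn_mem_Ev _ (Submodule.sub_mem _ c.adj.ev (esto_ev0 c.hy0 c.adj.ev))

theorem EO.p_le : nrm 1 1 (Dp (y - y0)) ≤ 64 * r := by
  obtain ⟨r0, -, -, -, hmr, -, -⟩ := c.basic
  have hm := c.hm
  have h1 := (nonzonal_small (by omega) c.p_inv c.p_zav).resolve_right (by omega)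
  rw [Dop_Dp_Ev (Submodule.sub_mem _ c.adj.ev (esto_ev0 c.hy0 c.adj.ev)), ← norm_sq_eq] at h1
  have h2 : ‖y - y0‖ ≤ 2 := by
    linarith [norm_sub_le y y0, c.adj.le, esto_zav_norm c.hy0]
  have h3 : ‖y - y0‖ ^ 2 ≤ 4 := by nlinarith [norm_nonneg (y - y0)]
  have h4 : m * nrm 1 1 (Dp (y - y0)) ≤ 64 := nrmx_sq (by rw [mul_pow]; linarith) (by norm_num)
  calc nrm 1 1 (Dp (y - y0)) = m * nrm 1 1 (Dp (y - y0)) * r := by
        rw [mul_right_comm, hmr, one_mul]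
    _ ≤ 64 * r := mul_le_mul_of_nonneg_right h4 r0.le

theorem EO.zav_U (x : S2) : zav (Hv (Dp y) (gr (X 2)) d.w) x = Hv (Dp y0) (gr (X 2)) d.w x ∧
    zav (Hv (Dp y) rl d.w) x = Hv (Dp y0) rl d.w x := by
  obtain ⟨h1, h2, h3⟩ := zav_H (esto_zavD c.hy0) x
  rw [esto_U1, esto_U1, esto_U2, esto_U2, fnx_zav_add, fnx_zav_add, c.loc.al_zon.zav_mul,
    c.loc.al_zon.zav_mul, c.loc.be_zon.zav_mul, c.loc.be_zon.zav_mul, h1, h2, h3]
  exact ⟨rfl, rfl⟩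

theorem EO.κH0_le (a b : Fin 3) : ‖d.κ * H a b (Dp y0)‖ ≤ 4 * C0 * XN d y := by
  have h0 : 0 ≤ C0 := by linarith [c.hC0]
  have hz := fun x => zav_H (esto_zavD c.hy0) x
  have h1 := (esto_zav_wt c.loc.κ_zon fun x => (hz x).1).trans
    (c.κ_le fun x => (esto_comp _ x).1)
  have h2 := (esto_zav_wt c.loc.κ_zon fun x => (hz x).2.1).trans
    (c.κ_le fun x => (esto_comp _ x).2.1)
  have h3 := (esto_zav_wt c.loc.κ_zon fun x => (hz x).2.2).trans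
    (c.κ_le fun x => (esto_comp _ x).2.2)
  refine le_trans ((((EDom.abs h0 h1).add (EDom.abs (α := 2 * C0) (by positivity) h2)).add
    (EDom.abs h0 h3)).le fun x => ?_) (le_of_eq (by ring))
  simp only [Sm.mul_apply, abs_mul]
  rcases eq_or_ne (d.κ x) 0 with hx | hx
  · simp [hx]
  have h4 : |H a b (Dp y0) x| ≤ C0 * (|H 2 2 (Dp y0) x| + 2 * |Hv (Dp y0) (gr (X 2)) rl x|
      + |Hv (Dp y0) rl rl x|) := by
    refine nrmx_sq ?_ (by positivity)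
    have h5 := esto_qHn (Dp y0) x
    have h6 := esto_H_le a b (Dp y0) x
    have h7 : Hn (Dp y0) x ≤ (C0 * qq x) ^ 2 * Hn (Dp y0) x :=
      le_mul_of_one_le_left (esto_Hn_nonneg _ x) (one_le_pow₀ (c.q_ge hx))
    rw [mul_pow, mul_assoc, h5] at h7
    rw [sq_abs, mul_pow]
    refine (h6.trans h7).trans (mul_le_mul_of_nonneg_left ?_ (sq_nonneg _))
    rw [← sq_abs (H 2 2 (Dp y0) x), ← sq_abs (Hv (Dp y0) (gr (X 2)) rl x),
      ← sq_abs (Hv (Dp y0) rl rl x)]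
    have a1 := abs_nonneg (H 2 2 (Dp y0) x)
    have a2 := abs_nonneg (Hv (Dp y0) (gr (X 2)) rl x)
    have a3 := abs_nonneg (Hv (Dp y0) rl rl x)
    nlinarith [mul_nonneg a1 a2, mul_nonneg a1 a3, mul_nonneg a2 a3, mul_nonneg a2 a2]
  nlinarith [mul_le_mul_of_nonneg_left h4 (abs_nonneg (d.κ x))]

theorem EO.κHw_le (b : Fin 3) : ‖d.κ * ∑ e, H b e (Dp y) * d.w e‖ ≤ XW d y :=
  esto_wt_le fun x => esto_Hsq_le _ _ b x

theorem EO.κH0w_le (b : Fin 3) : ‖d.κ * ∑ e, H b e (Dp y0) * d.w e‖ ≤ 2 * C0 * XW d y := by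
  have h0 : 0 ≤ C0 := by linarith [c.hC0]
  have h1 : ‖d.κ * Hv (Dp y0) (gr (X 2)) d.w‖ ≤ XW d y :=
    (esto_zav_wt c.loc.κ_zon fun x => (c.zav_U x).1).trans
      (esto_wt_le fun x => (esto_compw _ _ x).1)
  have h2 : ‖d.κ * Hv (Dp y0) rl d.w‖ ≤ XW d y :=
    (esto_zav_wt c.loc.κ_zon fun x => (c.zav_U x).2).trans
      (esto_wt_le fun x => (esto_compw _ _ x).2)
  refine le_trans (((EDom.abs h0 h1).add (EDom.abs h0 h2)).le fun x => ?_) (le_of_eq (by ring))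
  simp only [Sm.mul_apply, abs_mul]
  rcases eq_or_ne (d.κ x) 0 with hx | hx
  · simp [hx]
  have h4 : |(∑ e, H b e (Dp y0) * d.w e) x|
      ≤ C0 * (|Hv (Dp y0) (gr (X 2)) d.w x| + |Hv (Dp y0) rl d.w x|) := by
    refine nrmx_sq ?_ (by positivity)
    have h5 := esto_qHsq (Dp y0) d.w x
    have h6 := esto_Hsq_le (Dp y0) d.w b x
    have h8 : 1 ≤ C0 ^ 2 * qq x := by
      nlinarith [c.q_ge hx, c.hC0, mul_le_mul_of_nonneg_left (c.q_ge hx) h0]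
    have h7 : Hsq (Dp y0) d.w x ≤ C0 ^ 2 * qq x * Hsq (Dp y0) d.w x :=
      le_mul_of_one_le_left (esto_Hsq_nonneg _ _ x) h8
    rw [mul_assoc, h5] at h7
    rw [sq_abs, mul_pow]
    refine (h6.trans h7).trans (mul_le_mul_of_nonneg_left ?_ (sq_nonneg _))
    rw [← sq_abs (Hv (Dp y0) (gr (X 2)) d.w x), ← sq_abs (Hv (Dp y0) rl d.w x)]
    nlinarith [mul_nonneg (abs_nonneg (Hv (Dp y0) (gr (X 2)) d.w x))
      (abs_nonneg (Hv (Dp y0) rl d.w x))]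
  nlinarith [mul_le_mul_of_nonneg_left h4 (abs_nonneg (d.κ x))]

/-- lower order terms: a bounded coefficient times a first derivative of the non zonal part -/
theorem EO.low {v u : Sm} {B : ℝ} (hv : ∀ x, |v x| ≤ B) (hu : ‖u‖ ≤ nrm 1 1 (Dp (y - y0))) :
    ‖d.κ * (v * u)‖ ≤ 64 * C0 * B * r := by
  have h0 : 0 ≤ C0 := by linarith [c.hC0]
  have hB : 0 ≤ B := (abs_nonneg _).trans (hv (circ_pt 0))
  have h1 : ∀ x, |(d.κ * v) x| ≤ C0 * B := fun x => by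
    rw [Sm.mul_apply, abs_mul, abs_of_nonneg (c.loc.κ_nonneg x)]
    exact mul_le_mul (c.loc.κ_le x) (hv x) (abs_nonneg _) h0
  rw [← mul_assoc]
  refine (norm_mul_le h1 u).trans ?_
  calc C0 * B * ‖u‖ ≤ C0 * B * (64 * r) :=
        mul_le_mul_of_nonneg_left (hu.trans c.p_le) (by positivity)
    _ = _ := by ring

theorem EO.zav_DL (x : S2) : zav (D 2 (Dp (y - y0))) x = 0 ∧ zav (L 2 (Dp (y - y0))) x = 0 :=
  ⟨by rw [zav_D2 (φ0 := 0) c.p_zav, map_zero, Sm.zero_apply], zav_L2 _ x⟩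

theorem EO.pw_le : m * ‖d.κ * ∑ e, d.w e * D e (Dp (y - y0))‖
    ≤ 7 * (2 * XW d y + 192 * C0 * C1 * r) := by
  have hm := c.hm
  set ψ := Dp (y - y0) with hψ
  have h1 : ∑ e, d.w e * D e ψ = d.al * D 2 ψ + d.be * L 2 ψ := by
    rw [← gd_X 2 ψ, gd_eq_D, L_eq_sum_D 2 ψ]
    simp only [LD.w, Fin.sum_univ_three]
    ring
  have h2 := esto_poin (m := m) (by omega) c.loc.κ_zon (φ := d.al * D 2 ψ + d.be * L 2 ψ)
    (Submodule.add_mem _ (esto_Zi_mul (c.loc.al_zon.mem_Zi m) (esto_Zi_D2 c.p_inv))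
      (esto_Zi_mul (c.loc.be_zon.mem_Zi m) (esto_Zi_L2 c.p_inv)))
    (fun x => by
      rw [fnx_zav_add, c.loc.al_zon.zav_mul, c.loc.be_zon.zav_mul, (c.zav_DL x).1,
        (c.zav_DL x).2]
      ring)
  have h3 : d.κ * L 2 (d.al * D 2 ψ + d.be * L 2 ψ)
      = d.κ * (Hv (Dp y) rl d.w - Hv (Dp y0) rl d.w) - d.κ * (d.al * X 2 * L 2 ψ)
        + d.κ * (d.be * X 2 * D 2 ψ) - d.κ * (d.be * qq * ψ) := by
    rw [← esto_Hv_sub, ← map_sub, ← hψ, esto_U2, Hv_z_l, Hv_l_l, map_add, L_mul, L_mul,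
      c.loc.al_zon.L2, c.loc.be_zon.L2, D2_L2]
    ring
  have hb : ∀ {v u : Sm}, Cb (2 * j + 10) 1 C1 v → (∀ x, |u x| ≤ 1) → ∀ x, |(v * u) x| ≤ C1 :=
    fun hv hu x => by
      rw [Sm.mul_apply, abs_mul]
      exact (mul_le_of_le_one_right (abs_nonneg _) (hu x)).trans (hv.abs_le x)
  have h4 := esto_two c.loc.κ_zon (fun x => (c.zav_U x).2)
    (esto_wt_le fun x => (esto_compw (Dp y) d.w x).2)
  have h5 := c.low (hb c.loc.al_Cb (abs_X_le 2)) (esto_L_le 2 ψ)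
  have h6 := c.low (hb c.loc.be_Cb (abs_X_le 2)) (esto_D_le 2 ψ)
  have h7 := c.low (hb c.loc.be_Cb (u := qq) fun x => by
    rw [abs_of_nonneg (esto_qq x).1]; exact (esto_qq x).2) (esto_0_le ψ)
  rw [h1]
  refine h2.trans (mul_le_mul_of_nonneg_left ?_ (by norm_num))
  rw [h3]
  refine (norm_sub_le _ _).trans ?_
  refine (add_le_add_left (norm_add_le _ _) _).trans ?_
  refine (add_le_add_left (add_le_add_left (norm_sub_le _ _) _) _).trans ?_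
  unfold XW
  linarith

theorem EO.κD_le (e : Fin 3) : m * ‖d.κ * D e (Dp (y - y0))‖
    ≤ 7 * C0 * (4 * XN d y + 192 * C0 * r) := by
  have hm := c.hm
  have h0 : 0 ≤ C0 := by linarith [c.hC0]
  have hz := fun x => zav_H (esto_zavD c.hy0) x
  set ψ := Dp (y - y0) with hψ
  have h1 := esto_poin (m := m) (by omega) c.loc.κ_zon (esto_Zi_D2 c.p_inv)
    fun x => (c.zav_DL x).1
  have h2 := esto_poin (m := m) (by omega) c.loc.κ_zon (esto_Zi_L2 c.p_inv)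
    fun x => (c.zav_DL x).2
  have h3 : d.κ * L 2 (D 2 ψ) = d.κ * (Hv (Dp y) (gr (X 2)) rl - Hv (Dp y0) (gr (X 2)) rl)
      - d.κ * (X 2 * L 2 ψ) := by
    rw [← esto_Hv_sub, ← map_sub, ← hψ, Hv_z_l, D2_L2]
    ring
  have h4 : d.κ * L 2 (L 2 ψ) = d.κ * (Hv (Dp y) rl rl - Hv (Dp y0) rl rl)
      + d.κ * (X 2 * D 2 ψ) - d.κ * (qq * ψ) := by
    rw [← esto_Hv_sub, ← map_sub, ← hψ, Hv_l_l]
    ring
  have h5 := esto_two c.loc.κ_zon (fun x => (hz x).2.1) (c.κ_le fun x => (esto_comp _ x).2.1)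
  have h6 := esto_two c.loc.κ_zon (fun x => (hz x).2.2) (c.κ_le fun x => (esto_comp _ x).2.2)
  have h7 := c.low (abs_X_le 2) (esto_L_le 2 ψ)
  have h8 := c.low (abs_X_le 2) (esto_D_le 2 ψ)
  have h9 := c.low (v := qq) (B := 1) (fun x => by
    rw [abs_of_nonneg (esto_qq x).1]; exact (esto_qq x).2) (esto_0_le ψ)
  have h10 : ‖d.κ * L 2 (D 2 ψ)‖ ≤ 2 * XN d y + 64 * C0 * r := by
    rw [h3]
    refine (norm_sub_le _ _).trans ?_
    linarith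
  have h11 : ‖d.κ * L 2 (L 2 ψ)‖ ≤ 2 * XN d y + 128 * C0 * r := by
    rw [h4]
    refine (norm_sub_le _ _).trans ((add_le_add_left (norm_add_le _ _) _).trans ?_)
    linarith
  have h12 : ‖d.κ * D e ψ‖ ≤ C0 * ‖d.κ * D 2 ψ‖ + C0 * ‖d.κ * L 2 ψ‖ := by
    refine ((EDom.abs h0 le_rfl).add (EDom.abs h0 le_rfl)).le fun x => ?_
    simp only [Sm.mul_apply, abs_mul]
    rcases eq_or_ne (d.κ x) 0 with hx | hx
    · simp [hx]
    have h13 := congrArg (fun φ : Sm => |φ x|) (qq_D e ψ)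
    simp only [Sm.mul_apply, Sm.add_apply, abs_mul, abs_of_nonneg (esto_qq x).1] at h13
    have h14 := abs_add_le (D e (X 2) x * D 2 ψ x) (L 2 (X e) x * L 2 ψ x)
    rw [abs_mul, abs_mul] at h14
    have h15 := mul_le_of_le_one_left (abs_nonneg (D 2 ψ x)) (esto_Dz e x)
    have h16 := mul_le_of_le_one_left (abs_nonneg (L 2 ψ x)) (esto_rl e x)
    have h17 : qq x * |D e ψ x| ≤ |D 2 ψ x| + |L 2 ψ x| := by linarith
    have h18 : |D e ψ x| ≤ C0 * (|D 2 ψ x| + |L 2 ψ x|) := by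
      nlinarith [mul_le_mul_of_nonneg_left h17 h0,
        mul_le_mul_of_nonneg_right (c.q_ge hx) (abs_nonneg (D e ψ x))]
    nlinarith [mul_le_mul_of_nonneg_left h18 (abs_nonneg (d.κ x))]
  have h19 : m * ‖d.κ * D 2 ψ‖ + m * ‖d.κ * L 2 ψ‖ ≤ 7 * (4 * XN d y + 192 * C0 * r) := by
    linarith
  have hm0 : (0 : ℝ) ≤ m := Nat.cast_nonneg m
  nlinarith [mul_le_mul_of_nonneg_left h12 hm0, mul_le_mul_of_nonneg_left h19 h0]

end

end Pool.Agent.Lib.MP_2fa2a2_gt.PI
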