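import Pool.Agent.Lib.MP_2fa2a2_gt.PI.Tau
import Pool.Agent.Lib.MP_2fa2a2_gt.PI.Zon
import Pool.Agent.Lib.MP_2fa2a2_gt.PI.Comm

/-! Weighted norm of the Hessian; the last step of the transport estimate. -/

namespace Pool.Agent.Lib.MP_2fa2a2_gt.PI

theorem estt_t3 {F : Fin 3 → ℝ} {A : ℝ} (h : ∀ a, |F a| ≤ A) : |∑ a, F a| ≤ 3 * A := by
  have a2 : |∑ a, F a| ≤ ∑ _a : Fin 3, A :=
    (Finset.abs_sum_le_sum_abs _ _).trans (Finset.sum_le_sum fun a _ => h a)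
  simpa using a2

theorem estt_H_sq (a b : Fin 3) (ψ : Sm) (x : S2) : H a b ψ x ^ 2 ≤ Hn ψ x := by
  simp only [Hn, Sm.sum_apply, Sm.mul_apply, sq]
  exact (Finset.single_le_sum (f := fun b => H a b ψ x * H a b ψ x)
    (fun _ _ => mul_self_nonneg _) (Finset.mem_univ b)).trans
    (Finset.single_le_sum (f := fun a => ∑ b, H a b ψ x * H a b ψ x)
      (fun _ _ => Finset.sum_nonneg fun _ _ => mul_self_nonneg _) (Finset.mem_univ a))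

theorem estt_q01 (x : S2) : 0 ≤ qq x ∧ qq x ≤ 1 := by
  have h := abs_le.1 (abs_X_le 2 x)
  have e : qq x = 1 - X 2 x * X 2 x := rfl
  constructor <;> nlinarith [h.1, h.2, sq_nonneg (X 2 x)]

theorem estt_q_le {B : ℝ} {v u ψ : Sm} (hv : ∀ x, |v x| ≤ B) (hu : ∀ x, u x ^ 2 ≤ 2 * Hn ψ x) :
    I (qq * (v * u * (v * u))) ≤ 2 * B ^ 2 * I (qq * Hn ψ) := by
  rw [← smul_eq_mul (2 * B ^ 2), ← map_smul]
  refine I_mono fun x => ?_
  have a1 : v x ^ 2 ≤ B ^ 2 := sq_le_sq' (abs_le.1 (hv x)).1 (abs_le.1 (hv x)).2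
  have a2 := mul_le_mul_of_nonneg_left (mul_le_mul a1 (hu x) (sq_nonneg _) (sq_nonneg _))
    (estt_q01 x).1
  simp only [Sm.mul_apply, Sm.smul_apply]
  linarith

theorem estt_hess {B : ℝ} (hB : 1 ≤ B) : ∃ C, 0 ≤ C ∧ ∀ {h : ℝ} {W ψ0 ψ : Sm}, 0 ≤ h →
    Cb 2 1 B W → nrm 1 1 ψ ≤ B * h → I (qq * Hn ψ0) ≤ (B * h) ^ 2 → ∀ a b,
    ‖qq * W * H a b (ψ0 + ψ)‖ ≤ ‖qq * W * Dop (ψ0 + ψ)‖ + C * h := by
  obtain ⟨Q, hQ, H2⟩ := exists_Cb 2 qq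
  have b0 : 0 ≤ B := by linarith
  set E := 2 ^ 2 * (2 ^ 2 * Q * B) * (2 ^ 2 * Q * B) with hE
  have E0 : 0 ≤ E := by positivity
  refine ⟨4 * B ^ 2 + (252 * E + 1) * B, by positivity, fun {h W ψ0 ψ} hh hW hn h0 a b => ?_⟩
  have t1 : ∀ u : Sm, (∀ x, u x ^ 2 ≤ 2 * Hn ψ0 x) → ‖qq * W * u‖ ≤ 2 * B ^ 2 * h := fun u hu => by
    refine nrmx_sq ?_ (by positivity)
    have a1 : I (qq * W * u * (qq * W * u)) ≤ I (qq * (W * u * (W * u))) := I_mono fun x => by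
      have := mul_le_mul_of_nonneg_left (estt_q01 x).2
        (mul_nonneg (estt_q01 x).1 (mul_self_nonneg (W x * u x)))
      simp only [Sm.mul_apply]
      linarith
    have a2 := mul_le_mul_of_nonneg_left h0 (by positivity : 0 ≤ 2 * B ^ 2)
    have a3 : 0 ≤ B ^ 4 * h ^ 2 := by positivity
    rw [norm_sq_eq]
    linarith [estt_q_le hW.abs_le hu]
  have c1 := Cb.mul zero_le_one H2 hW
  have c2 : Cb 2 1 E (qq * W * (qq * W)) := c1.mul zero_le_one c1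
  set η := qq * W * (qq * W) with hη
  have c3 : ∀ a b x, |H a b η x| ≤ 12 * E := fun a b x => by
    have := (Cb.D (k := 0) le_rfl ((Cb.D (k := 1) le_rfl c2 b).add
      ((Cb_X le_rfl 1 b).mul zero_le_one (commx_Cb_mono c2 one_le_two))) a).abs_le x
    rw [H_def]
    exact this.trans (le_of_eq (by ring))
  have c4 : ∀ x, |Dop η x| ≤ 36 * E := fun x => by
    rw [← H_trace, Sm.sum_apply]
    exact (estt_t3 fun a => c3 a a x).trans (le_of_eq (by ring))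
  have n0 : ‖ψ‖ ≤ B * h := by
    rw [← nrm_zero (lam := 1) le_rfl]
    exact (nrm_mono le_rfl zero_le_one ψ).trans hn
  have n1 : ∀ c, ‖D c ψ‖ ≤ B * h := fun c => by
    refine le_trans (nrmx_sq ?_ (nrm_nonneg 1 1 ψ)) hn
    have := tau_sum_D_sq ψ
    rcases alg_fin c with rfl | rfl | rfl <;>
      linarith [sq_nonneg ‖D 0 ψ‖, sq_nonneg ‖D 1 ψ‖, sq_nonneg ‖D 2 ψ‖]
  have r0 : ∀ {A : ℝ} {w φ χ : Sm}, (∀ x, |w x| ≤ A) → ‖φ‖ ≤ B * h → ‖χ‖ ≤ B * h →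
      |I (w * φ * χ)| ≤ A * (B * h) ^ 2 := fun {A w φ χ} hw h1 h2 => by
    have hA : 0 ≤ A := (abs_nonneg _).trans (hw (nrmz 0))
    refine (tau_I_sq hw φ χ).trans ?_
    calc _ ≤ A * (B * h) * (B * h) := by gcongr
      _ = _ := by ring
  have r1 : |I (Dop η * gd ψ ψ)| ≤ 3 * (36 * E * (B * h) ^ 2) := by
    rw [gd_eq_D, Finset.mul_sum, map_sum]
    refine estt_t3 fun c => ?_
    rw [← mul_assoc]
    exact r0 c4 (n1 c) (n1 c)
  have r2 : |I (Hv η (gr ψ) (gr ψ))| ≤ 3 * (3 * (12 * E * (B * h) ^ 2)) := by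
    simp only [Hv, map_sum, gr]
    exact estt_t3 fun c => estt_t3 fun d => r0 (c3 c d) (n1 c) (n1 d)
  have r3 : |I (ψ * ψ * Dop η)| ≤ 36 * E * (B * h) ^ 2 := by
    rw [mul_comm, ← mul_assoc]
    exact r0 c4 n0 n0
  have t2 : ‖qq * W * H a b ψ‖ ≤ ‖qq * W * Dop ψ‖ + (252 * E + 1) * (B * h) := by
    refine nrmx_sq ?_ (by positivity)
    have a1 : I (qq * W * H a b ψ * (qq * W * H a b ψ)) ≤ I (η * Hn ψ) := I_mono fun x => by
      have := mul_le_mul_of_nonneg_left (estt_H_sq a b ψ x) (mul_self_nonneg (qq x * W x))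
      simp only [hη, Sm.mul_apply]
      linarith
    have a2 : I (η * (Dop ψ * Dop ψ)) = ‖qq * W * Dop ψ‖ ^ 2 := by
      rw [norm_sq_eq, hη]
      congr 1
      ring
    rw [I_Hn, a2, map_sub, ← norm_sq_eq] at a1
    have a3 : 0 ≤ ‖qq * W * Dop ψ‖ * ((252 * E + 1) * (B * h)) := by positivity
    have a4 : 0 ≤ ((252 * E) ^ 2 + 252 * E + 1) * (B * h) ^ 2 := by positivity
    linarith [(abs_le.1 r1).2, (abs_le.1 r2).1, (abs_le.1 r3).1]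
  have t3 := norm_sub_le (qq * W * Dop (ψ0 + ψ)) (qq * W * Dop ψ0)
  rw [show qq * W * Dop (ψ0 + ψ) - qq * W * Dop ψ0 = qq * W * Dop ψ by rw [map_add]; ring] at t3
  have t4 := t1 (Dop ψ0) (Dop_sq_le ψ0)
  have t5 := t1 (H a b ψ0) fun x => by linarith [estt_H_sq a b ψ0 x, sq_nonneg (H a b ψ0 x)]
  rw [map_add, mul_add]
  linarith [norm_add_le (qq * W * H a b ψ0) (qq * W * H a b ψ)]

theorem estt_Q_nonneg (h : ℝ) (u : Sm) : 0 ≤ inner ℝ (u - Sh h u) u := by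
  rw [inner_one_sub_Sh]
  have := I_nonneg (φ := gd (Sh h u) (Sh h u)) fun x =>
    (sq_nonneg _).trans (abs_L_le 0 (Sh h u) x)
  positivity

theorem estt_high {Λ : ℝ} {m : ℕ} {u : Sm} (hΛ : 1 ≤ Λ) (hm : 0 < m) (hu : u ∈ Zi m)
    (h0 : ∀ x, zav u x = 0) :
    ‖u‖ ^ 2 ≤ (1 + (2 * Real.pi * Λ) ^ 2) * inner ℝ (u - Sh (Λ * m)⁻¹ u) u := by
  set h : ℝ := (Λ * m)⁻¹ with hh
  set T := (2 * Real.pi * Λ) ^ 2 with hT
  have p1 := (fnx_const 1).sub (opsx_PG_Sh h)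
  have a1 := inner_fn_le (φ := u) (fnx_const 1) ((fnx_const (1 + T)).mul p1) fun l hl => by
    have b1 : (m : ℝ) ^ 2 ≤ (2 * Real.pi) ^ 2 * ll l :=
      not_lt.1 fun hlt => hl (P_of_Zi hm hu h0 hlt)
    have b2 : (0 : ℝ) < m := by exact_mod_cast hm
    have b3 : 1 ≤ T * (h ^ 2 * ll l) := by
      have : T * (h ^ 2 * ll l) = (2 * Real.pi) ^ 2 * ll l / (m : ℝ) ^ 2 := by
        rw [hT, hh]
        field_simp
      rw [this, one_le_div (by positivity)]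
      exact b1
    have b4 := opsx_pos h l
    have b5 : 1 - (1 + h ^ 2 * ll l)⁻¹ = h ^ 2 * ll l / (1 + h ^ 2 * ll l) := by
      field_simp
      ring
    show 1 ≤ (1 + T) * (1 - (1 + h ^ 2 * ll l)⁻¹)
    rw [b5, ← mul_div_assoc, one_le_div (by linarith)]
    linarith
  rw [fn_const, one_smul, real_inner_self_eq_norm_sq, fn_smul p1,
    fn_sub (fnx_const 1) (opsx_PG_Sh h), fn_const, one_smul, real_inner_smul_left] at a1
  exact a1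

theorem estt_final (B : ℝ) {Λ : ℝ} (hΛ : 1 ≤ Λ) : ∃ C, 0 ≤ C ∧ ∀ {m : ℕ} {u0 u : Sm} {ε : ℝ},
    0 < m → Zon u0 → u - u0 ∈ Zi m → (∀ x, zav (u - u0 : Sm) x = 0) → ‖u0‖ ≤ B →
    I (qq * (u0 * u0)) ≤ (B * (Λ * m)⁻¹) ^ 2 → 0 ≤ ε → ε ≤ 1 → (Λ * m)⁻¹ ≤ ε →
    inner ℝ (u - Sh (Λ * m)⁻¹ u) u ≤ ε ^ 2 → ‖u‖ ^ 2 ≤ C * ε := by
  obtain ⟨C, hC, H1⟩ := uncertainty
  refine ⟨1 + (2 * Real.pi * Λ) ^ 2 + C * (1 + 2 * B ^ 2 + 2 * |B|) + B ^ 2, by positivity,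
    fun {m u0 u ε} hm hz hu h0 hn hq he he1 hhe hQ => ?_⟩
  have hB : 0 ≤ B := (norm_nonneg _).trans hn
  rw [abs_of_nonneg hB]
  obtain ⟨v, rfl⟩ : ∃ v, u = u0 + v := ⟨u - u0, by ring⟩
  rw [add_sub_cancel_left] at hu h0
  have t1 := estt_high hΛ hm hu h0
  have hm0 : (0 : ℝ) < m := by exact_mod_cast hm
  have hh : 0 < (Λ * m)⁻¹ := by positivity
  set h : ℝ := (Λ * m)⁻¹
  have o1 : ∀ w, Zon w → inner ℝ w v = 0 := fun w hw => by
    rw [inner_def, ← I_zav_eq (φ0 := 0) h0 hw, mul_zero, map_zero]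
  have o2 : inner ℝ (Sh h v) u0 = 0 := by
    rw [Sh, inner_fn, real_inner_comm]
    exact o1 _ (hz.fn _)
  have e1 : inner ℝ (u0 + v - Sh h (u0 + v)) (u0 + v)
      = inner ℝ (u0 - Sh h u0) u0 + inner ℝ (v - Sh h v) v := by
    rw [map_add, add_sub_add_comm, inner_add_left, inner_add_right, inner_add_right,
      o1 (u0 - Sh h u0) (hz.sub (hz.fn _)), inner_sub_left v _ u0, o2, real_inner_comm u0 v, o1 _ hz]
    ring
  have q0 := estt_Q_nonneg h u0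
  have q1 := estt_Q_nonneg h v
  have e2 : ‖u0‖ ^ 2 = I (X 2 * X 2 * (u0 * u0)) + I (qq * (u0 * u0)) := by
    rw [norm_sq_eq, ← map_add, qq]
    congr 1
    ring
  have e3 : ε ^ 2 ≤ ε := by nlinarith
  have e4 : h ^ 2 ≤ ε := by nlinarith
  have s1 : √(I (qq * (u0 * u0))) ≤ B * h := Real.sqrt_le_iff.2 ⟨by positivity, hq⟩
  have s2 : √(inner ℝ (u0 - Sh h u0) u0) ≤ ε := Real.sqrt_le_iff.2 ⟨he, by linarith⟩
  have s3 : (B * h) ^ 2 ≤ B ^ 2 * ε := by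
    rw [mul_pow]
    gcongr
  have t2 : I (X 2 * X 2 * (u0 * u0)) ≤ C * (ε + B ^ 2 * ε + ε * B ^ 2 + 2 * B * ε) := by
    refine (H1 u0 hh (hhe.trans he1)).trans (mul_le_mul_of_nonneg_left ?_ hC)
    refine add_le_add (add_le_add (add_le_add (by linarith) (hq.trans s3)) (by gcongr)) ?_
    rw [div_le_iff₀ hh]
    calc _ ≤ (B * h + h * B) * ε := by gcongr
      _ = _ := by ring
  have t3 : (1 + (2 * Real.pi * Λ) ^ 2) * inner ℝ (v - Sh h v) v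
      ≤ (1 + (2 * Real.pi * Λ) ^ 2) * ε := mul_le_mul_of_nonneg_left (by linarith) (by positivity)
  rw [norm_add_sq_real, o1 _ hz]
  linarith

theorem estt_even {c : ℝ} {ρ y : Sm} (hy : y ∈ Ev) (hc : 0 ≤ c)
    (h : ∀ x, 0 ≤ X 2 x → c ≤ ρ x) : c ^ 2 * ‖y‖ ^ 2 ≤ 2 * ‖ρ * y‖ ^ 2 := by
  have a1 := I_le_of_Ev (φ := c ^ 2 • (y * y)) (ψ := ρ * y * (ρ * y) + ant (ρ * y * (ρ * y)))
    (Ev.smul_mem _ (by rw [mem_Ev, map_mul, mem_Ev.1 hy]))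
    (by rw [mem_Ev, map_add, ant_ant, add_comm]) fun x hx => by
      have b1 := mul_le_mul_of_nonneg_right (pow_le_pow_left₀ hc (h x hx) 2)
        (mul_self_nonneg (y x))
      have b2 := mul_self_nonneg ((ρ * y) (neg x))
      simp only [Sm.mul_apply, Sm.smul_apply, Sm.add_apply, ant_apply] at b2 ⊢
      linarith
  rw [map_smul, map_add, ant, I_act, ← norm_sq_eq, ← norm_sq_eq, smul_eq_mul] at a1
  linarith

end Pool.Agent.Lib.MP_2fa2a2_gt.PI
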