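import Pool.Agent.Lib.MP_2fa2a2_gt.PI.SLoc

/-! Pointwise bounds for the wave part, the inverse of the speed and the exponential weight. -/

namespace Pool.Agent.Lib.MP_2fa2a2_gt.PI

open scoped ContDiff

/-- bounds for the derivatives at one point -/
def esttAt (k : ℕ) (lam A : ℝ) (v : Sm) (x : S2) : Prop :=
  ∀ w : List (Fin 3), w.length ≤ k → |Lw w v x| ≤ A * lam ^ w.length

section
variable {k : ℕ} {lam A A' : ℝ} {u v : Sm} {x : S2}
theorem esttAt.abs_le (h : esttAt k lam A v x) : |v x| ≤ A := by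
  simpa using h [] (Nat.zero_le _)
theorem esttAt.nonneg (h : esttAt k lam A v x) : 0 ≤ A := (abs_nonneg _).trans h.abs_le
theorem esttAt.pred (h : esttAt (k + 1) lam A v x) : esttAt k lam A v x :=
  fun w hw => h w (hw.trans (Nat.le_succ k))
theorem esttAt.add (h : esttAt k lam A u x) (h' : esttAt k lam A' v x) :
    esttAt k lam (A + A') (u + v) x := fun w hw => by
  rw [map_add, Sm.add_apply, add_mul]
  exact (abs_add_le _ _).trans (add_le_add (h w hw) (h' w hw))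
theorem esttAt.L (h : esttAt (k + 1) lam A v x) (a : Fin 3) :
    esttAt k lam (A * lam) (L a v) x := fun w hw => by
  have h1 := h (w ++ [a]) (by simpa using hw)
  rw [Lw_append, List.length_append, List.length_singleton, pow_succ'] at h1
  rw [mul_assoc]
  exact h1
theorem estt_at_succ (h0 : |v x| ≤ A) (h : ∀ a, esttAt k lam (A * lam) (L a v) x) :
    esttAt (k + 1) lam A v x := fun w hw => by
  rcases List.eq_nil_or_concat w with rfl | ⟨w', a, rfl⟩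
  · simpa using h0
  · have h1 := h a w' (by simpa using hw)
    rw [List.concat_eq_append, Lw_append, List.length_append, List.length_singleton, pow_succ',
      ← mul_assoc]
    exact h1
theorem esttAt.mul (h : esttAt k lam A u x) (h' : esttAt k lam A' v x) :
    esttAt k lam (2 ^ k * A * A') (u * v) x := by
  induction k generalizing A A' u v with
  | zero =>
    intro w hw
    obtain rfl : w = [] := List.length_eq_zero_iff.1 (Nat.le_zero.1 hw)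
    simp only [Lw_nil, Sm.mul_apply, abs_mul, pow_zero, one_mul, List.length_nil, mul_one]
    exact mul_le_mul h.abs_le h'.abs_le (abs_nonneg _) h.nonneg
  | succ k ih =>
    refine estt_at_succ ?_ fun a => ?_
    · rw [Sm.mul_apply, abs_mul, mul_assoc]
      exact (mul_le_mul h.abs_le h'.abs_le (abs_nonneg _) h.nonneg).trans
        (le_mul_of_one_le_left (mul_nonneg h.nonneg h'.nonneg) (one_le_pow₀ one_le_two))
    · rw [L_mul]
      have h1 := (ih (h.L a) h'.pred).add (ih h.pred (h'.L a))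
      convert h1 using 1
      ring
theorem estt_at_slow (hl : 1 ≤ lam) (h : Cb k 1 A v) (x : S2) :
    esttAt k lam (|v x| + A / lam) v x := fun w hw => by
  have hA := h.nonneg
  have h0 : 0 < lam := by linarith
  cases w with
  | nil =>
    have : 0 ≤ A / lam := by positivity
    simpa using this
  | cons a w =>
    have h1 := h (a :: w) hw x
    rw [one_pow, mul_one] at h1
    have h2 : (1 : ℝ) ≤ lam ^ w.length := one_le_pow₀ hl
    have h3 : A / lam * lam ^ (a :: w).length = A * lam ^ w.length := by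
      rw [List.length_cons, pow_succ]
      field_simp
    have h4 : 0 ≤ |v x| * lam ^ (a :: w).length := by positivity
    rw [add_mul, h3]
    nlinarith
end

theorem estt_L_zero {v : Sm} {c : ℝ} (h : ∀ x, qq x < c → v x = 0) (a : Fin 3) :
    ∀ x, qq x < c → L a v x = 0 := fun x hx => by
  have h1 : ContinuousAt (ext0 qq) (x : E3) := (qq.smoothAt (base_ne x)).continuousAt
  have h2 : ∀ᶠ y in nhds (x : E3), ext0 qq y < c :=
    h1.eventually_lt continuousAt_const (by rwa [base_ext0_coe])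
  have h3 : ext0 v =ᶠ[nhds (x : E3)] fun _ => 0 := h2.mono fun y hy => h _ hy
  rw [L_apply, h3.fderiv_eq]
  simp

theorem estt_Lw_zero {v : Sm} {c : ℝ} (h : ∀ x, qq x < c → v x = 0) (w : List (Fin 3)) :
    ∀ x, qq x < c → Lw w v x = 0 := by
  induction w with
  | nil => exact h
  | cons a w ih => exact estt_L_zero ih a

theorem estt_real1 {κ q s Λ β P1 P2 P3 e e' : ℝ} (hκ : 0 ≤ κ) (hs : 0 < s) (hs1 : s ≤ 1)
    (hΛ : 1 ≤ Λ) (hβ : 1 ≤ β) (he : e = Λ * s ^ 2) (he' : e' ≤ Λ ^ 2 * s ^ 3)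
    (h1 : 0 ≤ P1) (h2 : 0 ≤ P2) (h3 : 0 ≤ P3) :
    s ^ 3 * ((P1 * (κ + β * e) ^ 2 * e + P2 * (κ + β * e) * e' + P3 * q ^ 2 * e ^ 2) / (s ^ 2) ^ 2)
      ≤ (2 * P1 * Λ ^ 3 * β ^ 2 + 2 * P2 * Λ ^ 3 * β + P3 * Λ ^ 2)
        * (κ ^ 2 + s ^ 4 + s ^ 3 * q ^ 2) := by
  subst he
  have hb : 1 ≤ β * Λ := one_le_mul_of_one_le_of_one_le hβ hΛ
  have hb2 : 1 ≤ (β * Λ) ^ 2 := one_le_pow₀ hb
  have hT : 0 ≤ s ^ 3 * q ^ 2 := by positivity
  have hs4 : 0 ≤ s ^ 4 := by positivity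
  have hk2 : 0 ≤ κ ^ 2 := by positivity
  set T := κ ^ 2 + s ^ 4 + s ^ 3 * q ^ 2 with hTd
  have a1 : (κ + β * (Λ * s ^ 2)) ^ 2 ≤ 2 * (β * Λ) ^ 2 * T := by
    have : (κ + β * (Λ * s ^ 2)) ^ 2 ≤ 2 * κ ^ 2 + 2 * (β * Λ) ^ 2 * s ^ 4 := by
      nlinarith [sq_nonneg (κ - β * (Λ * s ^ 2))]
    nlinarith [mul_le_mul_of_nonneg_right hb2 hk2, mul_nonneg (zero_le_one.trans hb2) hT]
  have a2 : (κ + β * (Λ * s ^ 2)) * s ^ 2 ≤ 2 * (β * Λ) * T := by
    have : κ * s ^ 2 ≤ κ ^ 2 + s ^ 4 := by nlinarith [sq_nonneg (κ - s ^ 2)]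
    nlinarith [mul_le_mul_of_nonneg_right hb hk2, mul_le_mul_of_nonneg_right hb hs4,
      mul_nonneg (zero_le_one.trans hb) hT]
  have hT0 : 0 ≤ T := by positivity
  have b1 : P1 * (κ + β * (Λ * s ^ 2)) ^ 2 * (Λ * s ^ 2) ≤ s * (2 * P1 * Λ ^ 3 * β ^ 2 * T) := by
    calc _ = P1 * Λ * s * s * (κ + β * (Λ * s ^ 2)) ^ 2 := by ring
      _ ≤ P1 * Λ * s * 1 * (2 * (β * Λ) ^ 2 * T) := by gcongr
      _ = _ := by ring
  have b2 : P2 * (κ + β * (Λ * s ^ 2)) * e' ≤ s * (2 * P2 * Λ ^ 3 * β * T) := by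
    calc _ ≤ P2 * (κ + β * (Λ * s ^ 2)) * (Λ ^ 2 * s ^ 3) := by gcongr
      _ = P2 * Λ ^ 2 * s * ((κ + β * (Λ * s ^ 2)) * s ^ 2) := by ring
      _ ≤ P2 * Λ ^ 2 * s * (2 * (β * Λ) * T) := by gcongr
      _ = _ := by ring
  have b3 : P3 * q ^ 2 * (Λ * s ^ 2) ^ 2 ≤ s * (P3 * Λ ^ 2 * T) := by
    calc _ = P3 * Λ ^ 2 * s * (s ^ 3 * q ^ 2) := by ring
      _ ≤ P3 * Λ ^ 2 * s * T := by gcongr; linarith
      _ = _ := by ring
  rw [← mul_div_assoc, div_le_iff₀ (by positivity)]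
  calc _ ≤ s ^ 3 * (s * (2 * P1 * Λ ^ 3 * β ^ 2 * T) + s * (2 * P2 * Λ ^ 3 * β * T)
        + s * (P3 * Λ ^ 2 * T)) := by gcongr
    _ = _ := by ring

theorem estt_kb {k : ℕ} {C0 τ C1 : ℝ} {m : ℕ} {d : LD} (h : Loc k C0 τ C1 m d) :
    Cb k 1 (2 * C1) d.kb ∧ (∀ x, 0 ≤ d.kb x) ∧
      ∀ x, |X 2 x + d.z0| ≤ C1⁻¹ → C1⁻¹ ≤ d.kb x := by
  refine ⟨?_, fun x => ?_, fun x hx => ?_⟩
  · rw [two_mul]
    exact h.κ_Cb.add h.κ_Cb.ant
  · rw [LD.kb, Sm.add_apply, ant_apply]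
    exact add_nonneg (h.κ_nonneg x) (h.κ_nonneg (neg x))
  · have h1 := h.core.2.2 (neg x) (by
      rw [← ant_apply, ant_X, Sm.neg_apply, ← abs_neg]
      convert hx using 2
      ring)
    have h2 := h.κ_nonneg x
    rw [LD.kb, Sm.add_apply, ant_apply]
    linarith

theorem estt_fw (k : ℕ) {C0 C1 Λ : ℝ} (hC0 : 1 ≤ C0) (hC1 : 1 ≤ C1) (hΛ : 1 ≤ Λ) :
    ∃ B0, 0 ≤ B0 ∧ ∀ {τ s : ℝ} {m : ℕ} {d : LD}, Loc k C0 τ C1 m d → 1 ≤ m → 0 < s →
      s ^ 2 = (Λ * m)⁻¹ → ∀ w : List (Fin 3), w.length ≤ k → ∀ x,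
      s ^ 3 * |(((s ^ 2) ^ w.length / (s ^ 2) ^ 2)
          • Lw w (d.kb * d.kb * d.w2 + d.kb * d.w1 + d.w0)) x|
        ≤ B0 * (d.kb x ^ 2 + s ^ 4 + s ^ 3 * qq x ^ 2) := by
  refine ⟨2 * (2 ^ k * 2 ^ k * C1) * Λ ^ 3 * (2 * C1) ^ 2 + 2 * (2 ^ k * C1) * Λ ^ 3 * (2 * C1)
    + C1 * C0 ^ 2 * Λ ^ 2, by positivity, fun {τ s m d} h hm hs hs2 w hw x => ?_⟩
  have hm1 : (1 : ℝ) ≤ m := by exact_mod_cast hm
  have hm0 : (0 : ℝ) < m := by linarith
  obtain ⟨k1, k2, -⟩ := estt_kb h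
  have a0 := estt_at_slow hm1 k1 x
  rw [abs_of_nonneg (k2 x)] at a0
  have a1 := (a0.mul a0).mul fun w hw => h.w2_Cb w hw x
  have a2 := a0.mul fun w hw => h.w1_Cb w hw x
  have a3 : esttAt k m (C1 * C0 ^ 2 * qq x ^ 2 * (1 / m) ^ 2) d.w0 x := fun w hw => by
    rcases lt_or_ge (qq x) C0⁻¹ with hq | hq
    · rw [estt_Lw_zero h.w0_supp w x hq, abs_zero]
      positivity
    · refine (h.w0_Cb w hw x).trans (mul_le_mul_of_nonneg_right ?_ (by positivity))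
      have b1 : 1 ≤ C0 * qq x := by rwa [inv_le_iff_one_le_mul₀' (by linarith)] at hq
      have b2 : 1 ≤ (C0 * qq x) ^ 2 := one_le_pow₀ b1
      calc C1 / (m : ℝ) ^ 2 = C1 / (m : ℝ) ^ 2 * 1 := by ring
        _ ≤ C1 / (m : ℝ) ^ 2 * (C0 * qq x) ^ 2 := by gcongr
        _ = _ := by ring
  have a4 := (a1.add a2).add a3
  have a5 := a4 w hw
  have hA := a4.nonneg
  have hsm : s ^ 2 * m ≤ 1 := by
    rw [hs2, mul_inv, mul_assoc, inv_mul_cancel₀ hm0.ne', mul_one]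
    exact inv_le_one_of_one_le₀ hΛ
  have hs1 : s ≤ 1 := by nlinarith
  have he : 1 / (m : ℝ) = Λ * s ^ 2 := by
    rw [hs2]
    field_simp
  have he' : 1 / (m * √m) ≤ Λ ^ 2 * s ^ 3 := by
    refine nrmx_sq ?_ (by positivity)
    have b1 : (1 / (m * √m)) ^ 2 = (1 / (m : ℝ)) ^ 3 := by
      rw [div_pow, mul_pow, Real.sq_sqrt hm0.le]
      ring
    rw [b1, he]
    calc (Λ * s ^ 2) ^ 3 = Λ ^ 3 * 1 * s ^ 6 := by ring
      _ ≤ Λ ^ 3 * Λ * s ^ 6 := by gcongr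
      _ = _ := by ring
  refine le_trans ?_ (estt_real1 (q := qq x) (β := 2 * C1) (k2 x) hs hs1 hΛ (by linarith) he he'
    (by positivity) (by positivity) (by positivity))
  refine mul_le_mul_of_nonneg_left ?_ (by positivity)
  rw [Sm.smul_apply, abs_mul, abs_of_nonneg (by positivity), div_mul_eq_mul_div]
  refine div_le_div_of_nonneg_right ?_ (by positivity)
  refine (mul_le_mul_of_nonneg_left a5 (by positivity)).trans ?_
  rw [mul_left_comm, ← mul_pow]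
  refine (mul_le_of_le_one_right hA (pow_le_one₀ (by positivity) hsm)).trans (le_of_eq ?_)
  ring

theorem estt_iter {g : ℝ → ℝ} {a b : ℝ} (hg : ∀ t ∈ Set.Icc a b, ContDiffAt ℝ ∞ g t) (k : ℕ) :
    ∃ A, 0 ≤ A ∧ ∀ i ≤ k, ∀ t ∈ Set.Icc a b, |iteratedDeriv i g t| ≤ A := by
  have h1 : ∀ i : ℕ, ∃ A, ∀ t ∈ Set.Icc a b, |iteratedDeriv i g t| ≤ A := fun i => by
    have h2 : ContinuousOn (iteratedFDeriv ℝ i g) (Set.Icc a b) := fun t ht =>
      ((hg t ht).iteratedFDeriv_right (m := 0) (by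
        rw [zero_add]
        exact_mod_cast le_top)).continuousAt.continuousWithinAt
    obtain ⟨A, hA⟩ := isCompact_Icc.exists_bound_of_continuousOn h2
    exact ⟨A, fun t ht => by
      rw [← Real.norm_eq_abs, ← norm_iteratedFDeriv_eq_norm_iteratedDeriv]
      exact hA t ht⟩
  choose A hA using h1
  refine ⟨∑ i ∈ Finset.range (k + 1), |A i|, by positivity, fun i hi t ht => ?_⟩
  exact (hA i t ht).trans ((le_abs_self _).trans (Finset.single_le_sum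
    (f := fun i => |A i|) (fun _ _ => abs_nonneg _) (Finset.mem_range.2 (by omega))))

theorem estt_ai (k : ℕ) {C0 : ℝ} (hC0 : 1 ≤ C0) : ∃ B, ∀ {a : Sm}, (∀ x, C0⁻¹ ≤ a x) →
    Cb k 1 C0 a → ∃ ai : Sm, a * ai = 1 ∧ Cb k 1 B ai ∧ ∀ x, |ai x| ≤ C0 := by
  have h0 : 0 < C0⁻¹ := by positivity
  obtain ⟨A, -, hA⟩ := estt_iter (g := fun t : ℝ => t⁻¹) (a := C0⁻¹) (b := C0)
    (fun t ht => contDiffAt_inv ℝ (h0.trans_le ht.1).ne') k
  obtain ⟨C, hC⟩ := Cb_cp k C0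
  refine ⟨C * A, fun {a} h1 h2 => ?_⟩
  have h3 : ∀ x, ContDiffAt ℝ ∞ (fun t : ℝ => t⁻¹) (a x) := fun x =>
    contDiffAt_inv ℝ (h0.trans_le (h1 x)).ne'
  refine ⟨cp (fun t => t⁻¹) a, Sm.ext fun x => ?_, hC le_rfl h2 h3 fun i hi x =>
    hA i hi _ ⟨h1 x, (le_abs_self _).trans (h2.abs_le x)⟩, fun x => ?_⟩
  · rw [Sm.mul_apply, cp_apply h3, mul_inv_cancel₀ (h0.trans_le (h1 x)).ne', Sm.one_apply]
  · rw [cp_apply h3, abs_of_pos (inv_pos.2 (h0.trans_le (h1 x)))]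
    exact inv_le_of_inv_le₀ (by linarith) (h1 x)

theorem estt_qq (x : S2) : 0 ≤ qq x ∧ qq x ≤ 1 ∧ qq x = (1 - X 2 x) * (1 + X 2 x) := by
  have h := abs_le.1 (abs_X_le 2 x)
  have e : qq x = (1 - X 2 x) * (1 + X 2 x) := by
    rw [qq, Sm.sub_apply, Sm.mul_apply, Sm.one_apply]
    ring
  refine ⟨?_, ?_, e⟩ <;> rw [e] <;> nlinarith [h.1, h.2, sq_nonneg (X 2 x)]

theorem estt_W (k : ℕ) {C1 K : ℝ} (hC : 1 ≤ C1) (hK : 0 ≤ K) : ∃ B, ∀ (z0 : ℝ) (kb : Sm),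
    C1⁻¹ < z0 → z0 + C1⁻¹ < 1 → (∀ x, |X 2 x + z0| ≤ C1⁻¹ → C1⁻¹ ≤ kb x) →
    ∃ W : Sm, Zon W ∧ Cb k 1 B W ∧
      (∀ x, D 2 (W * W) x ≤ -K * (qq x * W x) ^ 2 + B * kb x ^ 2) ∧
      (∀ x, |(1 - X 2 x) * W x| ≤ 2 * C1 * |qq x * W x|) ∧
      ∀ x, 0 ≤ X 2 x → Real.exp (-K) ≤ W x := by
  set g : ℝ → ℝ := fun t => Real.smoothTransition (C1 * t + 1 / 2) * Real.exp (-K / 2 * t) with hg
  have hs : ContDiff ℝ ∞ g :=
    (Real.smoothTransition.contDiff.comp (by fun_prop)).mul (by fun_prop)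
  have hC0 : 0 < C1 := by linarith
  have hi : 0 < C1⁻¹ := by positivity
  have g0 : ∀ t, C1 * t ≤ -(1 / 2) → g t = 0 := fun t ht => by
    simp only [hg]
    rw [Real.smoothTransition.zero_of_nonpos (by linarith), zero_mul]
  have g1 : ∀ t, 1 / 2 ≤ C1 * t → g t = Real.exp (-K / 2 * t) := fun t ht => by
    simp only [hg]
    rw [Real.smoothTransition.one_of_one_le (by linarith), one_mul]
  have gd : ∀ t, C1⁻¹ < |t| → deriv g t = -K / 2 * g t := fun t ht => by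
    have hc : ContinuousAt (fun t : ℝ => C1 * t) t := by fun_prop
    rw [inv_lt_iff_one_lt_mul₀' hC0] at ht
    rcases le_total 0 t with h0 | h0
    · rw [abs_of_nonneg h0] at ht
      have e : g =ᶠ[nhds t] fun t => Real.exp (-K / 2 * t) :=
        (continuousAt_const.eventually_lt hc (by linarith : (1 / 2 : ℝ) < C1 * t)).mono
          fun u hu => g1 u hu.le
      rw [e.deriv_eq, g1 t (by linarith),
        (((hasDerivAt_id' t).const_mul (-K / 2)).exp).deriv]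
      ring
    · rw [abs_of_nonpos h0] at ht
      have e : g =ᶠ[nhds t] fun _ => 0 :=
        (hc.eventually_lt continuousAt_const (by linarith : C1 * t < -(1 / 2 : ℝ))).mono
          fun u hu => g0 u hu.le
      rw [e.deriv_eq, g0 t (by linarith), deriv_const, mul_zero]
  obtain ⟨A, -, hA⟩ := estt_iter (g := g) (a := -2) (b := 2) (fun t _ => hs.contDiffAt) (k + 1)
  obtain ⟨C, hC'⟩ := Cb_cp (k + 1) 2
  refine ⟨C * A + (4 + K) * (C * A) ^ 2 * C1 ^ 2, fun z0 kb h1 h2 h3 => ?_⟩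
  set v : Sm := X 2 + algebraMap ℝ Sm z0 with hv
  have hvx : ∀ x, v x = X 2 x + z0 := fun x => rfl
  have hvC : Cb (k + 1) 1 2 v := ((Cb_X le_rfl _ 2).add (Cb_const zero_le_one _ z0)).mono
    zero_le_one le_rfl le_rfl (by rw [abs_of_pos (by linarith)]; linarith)
  have hsm : ∀ x, ContDiffAt ℝ ∞ g (v x) := fun x => hs.contDiffAt
  have hW : Cb (k + 1) 1 (C * A) (cp g v) :=
    hC' le_rfl hvC hsm fun i hi x => hA i hi _ (abs_le.1 (hvC.abs_le x))
  have hB := hW.nonneg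
  refine ⟨cp g v, (Zon_X2.add (Zon_const z0)).cp g, hW.mono zero_le_one (Nat.le_succ k) le_rfl
    (le_add_of_nonneg_right (by positivity)), fun x => ?_, fun x => ?_, fun x hx => ?_⟩
  · obtain ⟨q0, q1, -⟩ := estt_qq x
    rw [D_mul, Sm.add_apply, Sm.mul_apply, Sm.mul_apply]
    rcases lt_or_ge C1⁻¹ |v x| with hx | hx
    · have e : D 2 v = qq := by rw [hv, map_add, D_algebraMap, add_zero, D_X, alg_kd, qq]
      have hs' : ∀ x, ContDiffAt ℝ ∞ (deriv g) (v x) := fun x =>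
        (contDiff_infty_iff_deriv.1 hs).2.contDiffAt
      rw [D_cp 2 hsm, e, Sm.mul_apply, cp_apply hs', cp_apply hsm, gd _ hx]
      have b1 : 0 ≤ K * (qq x * (1 - qq x)) * g (v x) ^ 2 :=
        mul_nonneg (mul_nonneg hK (mul_nonneg q0 (by linarith))) (sq_nonneg _)
      have b2 : 0 ≤ (C * A + (4 + K) * (C * A) ^ 2 * C1 ^ 2) * kb x ^ 2 := by positivity
      nlinarith
    · have b1 := abs_le.1 (hW.abs_le x)
      have b2 := abs_le.1 ((Cb.D (k := 0) le_rfl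
        (hW.mono zero_le_one (by omega) le_rfl le_rfl) 2).abs_le x)
      have b3 : 1 ≤ C1 * kb x := by
        have := h3 x hx
        rwa [inv_le_iff_one_le_mul₀' hC0] at this
      have b4 : 1 ≤ (C1 * kb x) ^ 2 := one_le_pow₀ b3
      have b5 : cp g v x ^ 2 ≤ (C * A) ^ 2 := sq_le_sq' b1.1 b1.2
      rw [zero_add, pow_one, mul_one] at b2
      have b6 : D 2 (cp g v) x ^ 2 ≤ (2 * (C * A)) ^ 2 := sq_le_sq' b2.1 b2.2
      have b7 : (qq x * cp g v x) ^ 2 ≤ (C * A) ^ 2 := by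
        rw [mul_pow]
        exact (mul_le_of_le_one_left (sq_nonneg _) (pow_le_one₀ q0 q1)).trans b5
      have b8 : (4 + K) * (C * A) ^ 2 * 1 ≤ (4 + K) * (C * A) ^ 2 * (C1 * kb x) ^ 2 := by gcongr
      have b9 : 0 ≤ C * A * kb x ^ 2 := by positivity
      have b10 := mul_le_mul_of_nonneg_left b7 hK
      have b11 := sq_nonneg (D 2 (cp g v) x - 2 * cp g v x)
      linarith
  · obtain ⟨q0, q1, q2⟩ := estt_qq x
    rcases le_or_gt (C1 * v x) (-(1 / 2)) with hx | hx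
    · rw [cp_apply hsm, g0 _ hx]
      simp
    · have b0 := abs_le.1 (abs_X_le 2 x)
      have b1 : 1 ≤ 2 * C1 * (1 + X 2 x) := by
        rw [hvx] at hx
        have := mul_lt_mul_of_pos_left h2 hC0
        rw [mul_add, mul_inv_cancel₀ hC0.ne'] at this
        nlinarith
      rw [abs_mul, abs_mul, abs_of_nonneg q0, abs_of_nonneg (by linarith [b0.2]), q2]
      have b2 : 0 ≤ (1 - X 2 x) * |cp g v x| := mul_nonneg (by linarith [b0.2]) (abs_nonneg _)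
      nlinarith [mul_le_mul_of_nonneg_right b1 b2]
  · have b0 := abs_le.1 (hvC.abs_le x)
    have b1 : 1 / 2 ≤ C1 * v x := by
      rw [hvx]
      have := mul_lt_mul_of_pos_left h1 hC0
      rw [mul_inv_cancel₀ hC0.ne'] at this
      nlinarith
    rw [cp_apply hsm, g1 _ b1]
    exact Real.exp_le_exp.2 (by nlinarith [b0.2])

end Pool.Agent.Lib.MP_2fa2a2_gt.PI
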