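import Mathlib

/-! Abstract Leibniz expansions in an algebra with two commuting families. -/

namespace Pool.Agent.Lib.MP_2fa2a2_gt.PI

section abstract

variable {R : Type*} [Ring R] [Algebra ℝ R] (a b : Fin 3 → R)

/-- span of the words in a class -/
def leibS (P : List (Fin 3) → List (Fin 3) → Prop) : Submodule ℝ R :=
  Submodule.span ℝ {x | ∃ v w, P v w ∧ x = (v.map a).prod * (w.map b).prod}

variable {a b}

theorem leib_mono {P Q : List (Fin 3) → List (Fin 3) → Prop} (h : ∀ v w, P v w → Q v w)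
    {x : R} (hx : x ∈ leibS a b P) : x ∈ leibS a b Q := by
  refine Submodule.span_mono ?_ hx
  rintro y ⟨v, w, hp, rfl⟩
  exact ⟨v, w, h v w hp, rfl⟩

theorem leib_one {P : List (Fin 3) → List (Fin 3) → Prop} (h : P [] []) :
    (1 : R) ∈ leibS a b P :=
  Submodule.subset_span ⟨[], [], h, by simp⟩

theorem leib_a {P Q : List (Fin 3) → List (Fin 3) → Prop} (c : Fin 3)
    (h : ∀ v w, P v w → Q (c :: v) w) {x : R} (hx : x ∈ leibS a b P) :
    a c * x ∈ leibS a b Q := by
  induction hx using Submodule.span_induction with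
  | mem y hy =>
    obtain ⟨v, w, hp, rfl⟩ := hy
    exact Submodule.subset_span ⟨c :: v, w, h v w hp, by simp [mul_assoc]⟩
  | zero => simp
  | add y z _ _ hy hz => rw [mul_add]; exact Submodule.add_mem _ hy hz
  | smul r y _ hy => rw [mul_smul_comm]; exact Submodule.smul_mem _ _ hy

theorem leib_b (hab : ∀ c d, Commute (a c) (b d)) {P Q : List (Fin 3) → List (Fin 3) → Prop}
    (c : Fin 3) (h : ∀ v w, P v w → Q v (c :: w)) {x : R} (hx : x ∈ leibS a b P) :
    b c * x ∈ leibS a b Q := by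
  induction hx using Submodule.span_induction with
  | mem y hy =>
    obtain ⟨v, w, hp, rfl⟩ := hy
    have hc : Commute (b c) (v.map a).prod := by
      refine Commute.list_prod_right _ _ ?_
      intro x hx
      obtain ⟨d, _, rfl⟩ := List.mem_map.1 hx
      exact (hab d c).symm
    refine Submodule.subset_span ⟨v, c :: w, h v w hp, ?_⟩
    rw [← mul_assoc, hc.eq, List.map_cons, List.prod_cons, mul_assoc]
  | zero => simp
  | add y z _ _ hy hz => rw [mul_add]; exact Submodule.add_mem _ hy hz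
  | smul r y _ hy => rw [mul_smul_comm]; exact Submodule.smul_mem _ _ hy

/-- sum of products of two families -/
def leibQ (a b : Fin 3 → R) : R := ∑ c, a c * b c

theorem leib_aa {P Q : List (Fin 3) → List (Fin 3) → Prop}
    (h : ∀ c d v w, P v w → Q (c :: d :: v) w) {x : R} (hx : x ∈ leibS a b P) :
    leibQ a a * x ∈ leibS a b Q := by
  rw [leibQ, Finset.sum_mul]
  refine Submodule.sum_mem _ fun c _ => ?_
  rw [mul_assoc]
  exact leib_a (P := fun v w => Q (c :: v) w) c (fun _ _ h => h)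
    (leib_a c (fun v w hp => h c c v w hp) hx)

theorem leib_bb (hab : ∀ c d, Commute (a c) (b d)) {P Q : List (Fin 3) → List (Fin 3) → Prop}
    (h : ∀ c d v w, P v w → Q v (c :: d :: w)) {x : R} (hx : x ∈ leibS a b P) :
    leibQ b b * x ∈ leibS a b Q := by
  rw [leibQ, Finset.sum_mul]
  refine Submodule.sum_mem _ fun c _ => ?_
  rw [mul_assoc]
  exact leib_b hab (P := fun v w => Q v (c :: w)) c (fun _ _ h => h)
    (leib_b hab c (fun v w hp => h c c v w hp) hx)

theorem leib_ab (hab : ∀ c d, Commute (a c) (b d)) {P Q : List (Fin 3) → List (Fin 3) → Prop}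
    (h : ∀ c d v w, P v w → Q (c :: v) (d :: w)) {x : R} (hx : x ∈ leibS a b P) :
    leibQ a b * x ∈ leibS a b Q := by
  rw [leibQ, Finset.sum_mul]
  refine Submodule.sum_mem _ fun c _ => ?_
  rw [mul_assoc]
  exact leib_a (P := fun v w => Q (c :: v) w) c (fun _ _ h => h)
    (leib_b hab c (fun v w hp => h c c v w hp) hx)

theorem leib_two {P : List (Fin 3) → List (Fin 3) → Prop} {x : R} (hx : x ∈ leibS a b P) :
    2 * x ∈ leibS a b P := by
  rw [two_mul]; exact Submodule.add_mem _ hx hx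

theorem leib_nat {P : List (Fin 3) → List (Fin 3) → Prop} (n : ℕ) {x : R}
    (hx : x ∈ leibS a b P) : (n : R) * x ∈ leibS a b P := by
  rw [← nsmul_eq_mul]; exact Submodule.smul_of_tower_mem _ n hx

/-- the full weight -/
def leibE (a b : Fin 3 → R) : R := 1 - leibQ a a - leibQ b b - 2 * leibQ a b

omit [Algebra ℝ R] in
theorem leib_E_eq (hab : ∀ c d, Commute (a c) (b d)) :
    leibE a b = 1 - ∑ c, (a c + b c) * (a c + b c) := by
  have : ∀ c, (a c + b c) * (a c + b c) = a c * a c + b c * b c + 2 * (a c * b c) := by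
    intro c
    have := (hab c c).eq
    rw [add_mul, mul_add, mul_add, ← this, two_mul]; abel
  simp only [this, Finset.sum_add_distrib, ← Finset.mul_sum, leibE, leibQ]
  abel

theorem leib_E (hab : ∀ c d, Commute (a c) (b d)) {P Q : List (Fin 3) → List (Fin 3) → Prop}
    (h0 : ∀ v w, P v w → Q v w) (h1 : ∀ c d v w, P v w → Q (c :: d :: v) w)
    (h2 : ∀ c d v w, P v w → Q v (c :: d :: w)) (h3 : ∀ c d v w, P v w → Q (c :: v) (d :: w))
    {x : R} (hx : x ∈ leibS a b P) : leibE a b * x ∈ leibS a b Q := by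
  have : leibE a b * x = x - leibQ a a * x - leibQ b b * x - 2 * (leibQ a b * x) := by
    rw [leibE]; noncomm_ring
  rw [this]
  exact Submodule.sub_mem _ (Submodule.sub_mem _ (Submodule.sub_mem _ (leib_mono h0 hx)
    (leib_aa h1 hx)) (leib_bb hab h2 hx)) (leib_two (leib_ab hab h3 hx))

theorem leib_Db (hab : ∀ c d, Commute (a c) (b d)) (j : ℕ) :
    (1 - leibQ b b) ^ j - 1 ∈ leibS a b (fun v w => v = [] ∧ w ≠ [] ∧ w.length ≤ 2 * j) := by
  induction j with
  | zero => simp
  | succ j ih =>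
    have : (1 - leibQ b b) ^ (j + 1) - 1 = ((1 - leibQ b b) ^ j - 1)
        - leibQ b b * ((1 - leibQ b b) ^ j - 1) - leibQ b b * 1 := by
      rw [pow_succ']; noncomm_ring
    rw [this]
    refine Submodule.sub_mem _ (Submodule.sub_mem _ (leib_mono ?_ ih) (leib_bb hab ?_ ih))
      (leib_bb hab (P := fun v w => v = [] ∧ w = []) ?_ (leib_one ⟨rfl, rfl⟩))
    · rintro v w ⟨h1, h2, h3⟩; exact ⟨h1, h2, by omega⟩
    · rintro c d v w ⟨h1, h2, h3⟩; exact ⟨h1, by simp, by simp; omega⟩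
    · rintro c d v w ⟨h1, rfl⟩; exact ⟨h1, by simp, by simp only [List.length_cons, List.length_nil]; omega⟩

theorem leib_Da (j : ℕ) :
    (1 - leibQ a a) ^ j - 1 ∈ leibS a b (fun v w => w = [] ∧ v ≠ [] ∧ v.length ≤ 2 * j) := by
  induction j with
  | zero => simp
  | succ j ih =>
    have : (1 - leibQ a a) ^ (j + 1) - 1 = ((1 - leibQ a a) ^ j - 1)
        - leibQ a a * ((1 - leibQ a a) ^ j - 1) - leibQ a a * 1 := by
      rw [pow_succ']; noncomm_ring
    rw [this]
    refine Submodule.sub_mem _ (Submodule.sub_mem _ (leib_mono ?_ ih) (leib_aa ?_ ih))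
      (leib_aa (P := fun v w => v = [] ∧ w = []) ?_ (leib_one ⟨rfl, rfl⟩))
    · rintro v w ⟨h1, h2, h3⟩; exact ⟨h1, h2, by omega⟩
    · rintro c d v w ⟨h1, h2, h3⟩; exact ⟨h1, by simp, by simp; omega⟩
    · rintro c d v w ⟨rfl, h1⟩; exact ⟨h1, by simp, by simp only [List.length_cons, List.length_nil]; omega⟩

theorem leib_Db' (hab : ∀ c d, Commute (a c) (b d)) (j : ℕ) :
    (1 - leibQ b b) ^ j ∈ leibS a b (fun v w => v = [] ∧ w.length ≤ 2 * j) := by
  have h := Submodule.add_mem _ (leib_mono (Q := fun v w => v = [] ∧ w.length ≤ 2 * j)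
    (fun v w h => ⟨h.1, h.2.2⟩) (leib_Db hab j)) (leib_one ⟨rfl, by simp⟩)
  simpa using h

theorem leib_Da' (j : ℕ) :
    (1 - leibQ a a) ^ j ∈ leibS a b (fun v w => w = [] ∧ v.length ≤ 2 * j) := by
  have h := Submodule.add_mem _ (leib_mono (Q := fun v w => w = [] ∧ v.length ≤ 2 * j)
    (fun v w h => ⟨h.1, h.2.2⟩) (leib_Da (a := a) (b := b) j)) (leib_one ⟨rfl, by simp⟩)
  simpa using h

theorem leib_abs1 (hab : ∀ c d, Commute (a c) (b d)) (j : ℕ) :
    leibE a b ^ j - (1 - leibQ b b) ^ j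
      ∈ leibS a b (fun v w => v ≠ [] ∧ v.length + w.length ≤ 2 * j) := by
  induction j with
  | zero => simp
  | succ j ih =>
    have : leibE a b ^ (j + 1) - (1 - leibQ b b) ^ (j + 1)
        = leibE a b * (leibE a b ^ j - (1 - leibQ b b) ^ j)
          - leibQ a a * (1 - leibQ b b) ^ j - 2 * (leibQ a b * (1 - leibQ b b) ^ j) := by
      rw [pow_succ', pow_succ']
      generalize leibE a b ^ j = X
      generalize (1 - leibQ b b) ^ j = Y
      rw [leibE]; noncomm_ring
    rw [this]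
    refine Submodule.sub_mem _ (Submodule.sub_mem _ (leib_E hab ?_ ?_ ?_ ?_ ih)
      (leib_aa ?_ (leib_Db' hab j))) (leib_two (leib_ab hab ?_ (leib_Db' hab j)))
    · rintro v w ⟨h1, h2⟩; exact ⟨h1, by omega⟩
    · rintro c d v w ⟨h1, h2⟩; exact ⟨by simp, by simp; omega⟩
    · rintro c d v w ⟨h1, h2⟩; exact ⟨h1, by simp; omega⟩
    · rintro c d v w ⟨h1, h2⟩; exact ⟨by simp, by simp; omega⟩
    · rintro c d v w ⟨rfl, h2⟩; exact ⟨by simp, by simp; omega⟩
    · rintro c d v w ⟨rfl, h2⟩; exact ⟨by simp, by simp; omega⟩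

theorem leib_abs2 (hab : ∀ c d, Commute (a c) (b d)) (j : ℕ) :
    leibE a b ^ j - (1 - leibQ b b) ^ j - (1 - leibQ a a) ^ j + 1
      ∈ leibS a b (fun v w => v ≠ [] ∧ w ≠ [] ∧ v.length + w.length ≤ 2 * j) := by
  induction j with
  | zero => simp
  | succ j ih =>
    have : leibE a b ^ (j + 1) - (1 - leibQ b b) ^ (j + 1) - (1 - leibQ a a) ^ (j + 1) + 1
        = leibE a b * (leibE a b ^ j - (1 - leibQ b b) ^ j - (1 - leibQ a a) ^ j + 1)
          - leibQ a a * ((1 - leibQ b b) ^ j - 1) - leibQ b b * ((1 - leibQ a a) ^ j - 1)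
          - 2 * (leibQ a b * (1 - leibQ b b) ^ j)
          - 2 * (leibQ a b * ((1 - leibQ a a) ^ j - 1)) := by
      rw [pow_succ', pow_succ', pow_succ']
      generalize leibE a b ^ j = X
      generalize (1 - leibQ b b) ^ j = Y
      generalize (1 - leibQ a a) ^ j = Z
      rw [leibE]; noncomm_ring
    rw [this]
    refine Submodule.sub_mem _ (Submodule.sub_mem _ (Submodule.sub_mem _ (Submodule.sub_mem _
      (leib_E hab ?_ ?_ ?_ ?_ ih) (leib_aa ?_ (leib_Db hab j))) (leib_bb hab ?_ (leib_Da j)))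
      (leib_two (leib_ab hab ?_ (leib_Db' hab j)))) (leib_two (leib_ab hab ?_ (leib_Da j)))
    · rintro v w ⟨h1, h2, h3⟩; exact ⟨h1, h2, by omega⟩
    · rintro c d v w ⟨h1, h2, h3⟩; exact ⟨by simp, h2, by simp; omega⟩
    · rintro c d v w ⟨h1, h2, h3⟩; exact ⟨h1, by simp, by simp; omega⟩
    · rintro c d v w ⟨h1, h2, h3⟩; exact ⟨by simp, by simp, by simp; omega⟩
    · rintro c d v w ⟨rfl, h2, h3⟩; exact ⟨by simp, h2, by simp; omega⟩
    · rintro c d v w ⟨rfl, h2, h3⟩; exact ⟨h2, by simp, by simp; omega⟩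
    · rintro c d v w ⟨rfl, h2⟩; exact ⟨by simp, by simp, by simp; omega⟩
    · rintro c d v w ⟨rfl, h2, h3⟩; exact ⟨by simp, by simp, by simp; omega⟩

theorem leib_abs3 (hab : ∀ c d, Commute (a c) (b d))
    (hα : Commute (leibQ a a) (leibQ a b)) (hβ : Commute (leibQ b b) (leibQ a b)) (i : ℕ) :
    leibE a b ^ (i + 2) - (1 - leibQ b b) ^ (i + 2) - (1 - leibQ a a) ^ (i + 2)
      + ((2 * (i + 2) : ℕ) : R) * (leibQ a b * (1 - leibQ b b) ^ (i + 1)
        + leibQ a b * (1 - leibQ a a) ^ (i + 1))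
      ∈ leibS a b (fun v w => v.length ≤ 2 * i + 2 ∧ w.length ≤ 2 * i + 2
        ∧ v.length + w.length ≤ 2 * i + 4) := by
  have h1 : (1 : R) ∈ leibS a b (fun v w => v = [] ∧ w = []) := leib_one ⟨rfl, rfl⟩
  induction i with
  | zero =>
    have : leibE a b ^ (0 + 2) - (1 - leibQ b b) ^ (0 + 2) - (1 - leibQ a a) ^ (0 + 2)
      + ((2 * (0 + 2) : ℕ) : R) * (leibQ a b * (1 - leibQ b b) ^ (0 + 1)
        + leibQ a b * (1 - leibQ a a) ^ (0 + 1))
        = 2 * (2 * (leibQ a b * 1)) + 2 * (2 * (leibQ a b * (leibQ a b * 1)))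
          + leibQ a a * (leibQ b b * 1) + leibQ b b * (leibQ a a * 1) - 1
          + 2 * (leibQ a a * leibQ a b - leibQ a b * leibQ a a)
          + 2 * (leibQ b b * leibQ a b - leibQ a b * leibQ b b) := by
      rw [leibE]; push_cast; noncomm_ring
    rw [this, hα.eq, hβ.eq, sub_self, sub_self, mul_zero (2 : R), add_zero, add_zero]
    refine Submodule.sub_mem _ (Submodule.add_mem _ (Submodule.add_mem _ (Submodule.add_mem _
      (leib_two (leib_two (leib_ab hab ?_ h1)))
      (leib_two (leib_two (leib_ab hab ?_ (leib_ab hab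
        (Q := fun v w => v.length = 1 ∧ w.length = 1) ?_ h1)))))
      (leib_aa ?_ (leib_bb hab (Q := fun v w => v.length = 0 ∧ w.length = 2) ?_ h1)))
      (leib_bb hab ?_ (leib_aa (Q := fun v w => v.length = 2 ∧ w.length = 0) ?_ h1)))
      (leib_one (by simp))
    · rintro c d v w ⟨rfl, rfl⟩; simp
    · rintro c d v w ⟨h2, h3⟩; simp [h2, h3]
    · rintro c d v w ⟨rfl, rfl⟩; simp
    · rintro c d v w ⟨h2, h3⟩; simp [h2, h3]
    · rintro c d v w ⟨rfl, rfl⟩; simp
    · rintro c d v w ⟨h2, h3⟩; simp [h2, h3]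
    · rintro c d v w ⟨rfl, rfl⟩; simp
  | succ i ih =>
    have e1 : leibQ a b * (1 - leibQ b b) = (1 - leibQ b b) * leibQ a b := by
      rw [mul_sub, sub_mul, hβ.eq, mul_one, one_mul]
    have e2 : leibQ a b * (1 - leibQ a a) = (1 - leibQ a a) * leibQ a b := by
      rw [mul_sub, sub_mul, hα.eq, mul_one, one_mul]
    have : leibE a b ^ (i + 1 + 2) - (1 - leibQ b b) ^ (i + 1 + 2) - (1 - leibQ a a) ^ (i + 1 + 2)
      + ((2 * (i + 1 + 2) : ℕ) : R) * (leibQ a b * (1 - leibQ b b) ^ (i + 1 + 1)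
        + leibQ a b * (1 - leibQ a a) ^ (i + 1 + 1))
      = leibE a b * (leibE a b ^ (i + 2) - (1 - leibQ b b) ^ (i + 2) - (1 - leibQ a a) ^ (i + 2)
          + ((2 * (i + 2) : ℕ) : R) * (leibQ a b * (1 - leibQ b b) ^ (i + 1)
            + leibQ a b * (1 - leibQ a a) ^ (i + 1)))
        - leibQ a a * (1 - leibQ b b) ^ (i + 2) - leibQ b b * (1 - leibQ a a) ^ (i + 2)
        + ((2 * (i + 2) : ℕ) : R) * (leibQ a a * (leibQ a b * (1 - leibQ b b) ^ (i + 1))
          + 2 * (leibQ a b * (leibQ a b * (1 - leibQ b b) ^ (i + 1)))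
          + leibQ b b * (leibQ a b * (1 - leibQ a a) ^ (i + 1))
          + 2 * (leibQ a b * (leibQ a b * (1 - leibQ a a) ^ (i + 1)))) := by
      have f1 : leibQ a b * (1 - leibQ b b) ^ (i + 1 + 1)
          = (1 - leibQ b b) * (leibQ a b * (1 - leibQ b b) ^ (i + 1)) := by
        rw [pow_succ' _ (i + 1), ← mul_assoc, e1, mul_assoc]
      have f2 : leibQ a b * (1 - leibQ a a) ^ (i + 1 + 1)
          = (1 - leibQ a a) * (leibQ a b * (1 - leibQ a a) ^ (i + 1)) := by
        rw [pow_succ' _ (i + 1), ← mul_assoc, e2, mul_assoc]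
      have hn : ((2 * (i + 1 + 2) : ℕ) : R) = ((2 * (i + 2) : ℕ) : R) + 2 := by
        rw [show 2 * (i + 1 + 2) = 2 * (i + 2) + 2 by ring, Nat.cast_add]; norm_num
      have hE : ∀ x : R, leibE a b * (((2 * (i + 2) : ℕ) : R) * x)
          = ((2 * (i + 2) : ℕ) : R) * (leibE a b * x) := fun x => by
        rw [← mul_assoc, ← (Nat.cast_commute _ (leibE a b)).eq, mul_assoc]
      rw [hn, add_mul, mul_add (leibE a b), hE]
      nth_rewrite 1 [f1, f2]
      rw [show i + 1 + 2 = (i + 2) + 1 from rfl, pow_succ' _ (i + 2), pow_succ' _ (i + 2),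
        pow_succ' _ (i + 2), show i + 1 + 1 = i + 2 from rfl]
      generalize leibE a b ^ (i + 2) = X
      generalize (1 - leibQ b b) ^ (i + 2) = Y
      generalize (1 - leibQ a a) ^ (i + 2) = Z
      generalize leibQ a b * (1 - leibQ b b) ^ (i + 1) = Y'
      generalize leibQ a b * (1 - leibQ a a) ^ (i + 1) = Z'
      generalize ((2 * (i + 2) : ℕ) : R) = n
      rw [leibE]; noncomm_ring
    rw [this]
    have gb := leib_ab hab (Q := fun v w => v.length = 1 ∧ w.length ≤ 2 * i + 3)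
      (by rintro c d v w ⟨rfl, h2⟩; exact ⟨rfl, by simp; omega⟩) (leib_Db' hab (i + 1))
    have ga := leib_ab hab (Q := fun v w => w.length = 1 ∧ v.length ≤ 2 * i + 3)
      (by rintro c d v w ⟨rfl, h2⟩; exact ⟨rfl, by simp; omega⟩) (leib_Da' (i + 1))
    refine Submodule.add_mem _ (Submodule.sub_mem _ (Submodule.sub_mem _
      (leib_E hab ?_ ?_ ?_ ?_ ih) (leib_aa ?_ (leib_Db' hab (i + 2))))
      (leib_bb hab ?_ (leib_Da' (i + 2))))
      (leib_nat _ (Submodule.add_mem _ (Submodule.add_mem _ (Submodule.add_mem _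
        (leib_aa ?_ gb) (leib_two (leib_ab hab ?_ gb))) (leib_bb hab ?_ ga))
        (leib_two (leib_ab hab ?_ ga))))
    · rintro v w ⟨h1, h2, h3⟩; omega
    · rintro c d v w ⟨h1, h2, h3⟩; simp only [List.length_cons]; omega
    · rintro c d v w ⟨h1, h2, h3⟩; simp only [List.length_cons]; omega
    · rintro c d v w ⟨h1, h2, h3⟩; simp only [List.length_cons]; omega
    · rintro c d v w ⟨rfl, h2⟩; simp only [List.length_cons, List.length_nil]; omega
    · rintro c d v w ⟨rfl, h2⟩; simp only [List.length_cons, List.length_nil]; omega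
    · rintro c d v w ⟨h1, h2⟩; simp only [List.length_cons]; omega
    · rintro c d v w ⟨h1, h2⟩; simp only [List.length_cons]; omega
    · rintro c d v w ⟨h1, h2⟩; simp only [List.length_cons]; omega
    · rintro c d v w ⟨h1, h2⟩; simp only [List.length_cons]; omega

end abstract

end Pool.Agent.Lib.MP_2fa2a2_gt.PI
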