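import Pool.Agent.Lib.MP_2fa2a2_gt.PI.Ops
import Pool.Agent.Lib.MP_2fa2a2_gt.PI.LeibX

/-! Leibniz expansions of the weight for invariant bilinear maps. -/

namespace Pool.Agent.Lib.MP_2fa2a2_gt.PI

variable {W : Type*} [AddCommGroup W] [Module ℝ W]

/-- the weight for an abstract action of the three fields -/
noncomputable def DG (M : Fin 3 → W →ₗ[ℝ] W) (h : ℝ) (j : ℕ) : W →ₗ[ℝ] W :=
  ((1 : Module.End ℝ W) - h ^ 2 • ∑ a, M a ∘ₗ M a) ^ j

/-- invariant bilinear maps -/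
def Inv (M : Fin 3 → W →ₗ[ℝ] W) (b : Sm →ₗ[ℝ] Sm →ₗ[ℝ] W) : Prop :=
  ∀ c f g, M c (b f g) = b (L c f) g + b f (L c g)

/-- the action on linear forms -/
noncomputable def Ld (c : Fin 3) : (Sm →ₗ[ℝ] ℝ) →ₗ[ℝ] (Sm →ₗ[ℝ] ℝ) := -(LinearMap.lcomp ℝ ℝ (L c))

theorem DG_L (h : ℝ) (j : ℕ) : DG L h j = DD h j := by
  rw [DD_eq_pow, DG, lap]

theorem leib_DD_succ (h : ℝ) (j : ℕ) (y : Sm) :
    DD h (j + 1) y = DD h j y - h ^ 2 • lap (DD h j y) := by
  rw [DD_eq_pow, DD_eq_pow, pow_succ', Module.End.mul_apply]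
  rfl

theorem leib_DD_zero (h : ℝ) (y : Sm) : DD h 0 y = y := by
  rw [DD_eq_pow, pow_zero]; rfl

theorem leib_DG_zero (M : Fin 3 → W →ₗ[ℝ] W) (h : ℝ) (x : W) : DG M h 0 x = x := by
  rw [DG, pow_zero]; rfl

theorem leib_DG_succ (M : Fin 3 → W →ₗ[ℝ] W) (h : ℝ) (j : ℕ) (x : W) :
    DG M h (j + 1) x = DG M h j x - h ^ 2 • ∑ a, M a (M a (DG M h j x)) := by
  rw [DG, DG, pow_succ', Module.End.mul_apply]
  simp [LinearMap.sum_apply]

theorem leib_DG_succ' (M : Fin 3 → W →ₗ[ℝ] W) (h : ℝ) (j : ℕ) (x : W) :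
    DG M h (j + 1) x = DG M h j (x - h ^ 2 • ∑ a, M a (M a x)) := by
  rw [DG, DG, pow_succ, Module.End.mul_apply]
  simp [LinearMap.sum_apply]

theorem leib_Ld_apply (c : Fin 3) (A : Sm →ₗ[ℝ] ℝ) (y : Sm) : Ld c A y = -A (L c y) := rfl

theorem DG_Ld (h : ℝ) (j : ℕ) (A : Sm →ₗ[ℝ] ℝ) (y : Sm) : DG Ld h j A y = A (DD h j y) := by
  induction j generalizing A with
  | zero => rw [leib_DG_zero, leib_DD_zero]
  | succ j ih =>
    rw [leib_DG_succ', ih, leib_DD_succ, map_sub, map_smul, lap_def, map_sum,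
      LinearMap.sub_apply, LinearMap.smul_apply, LinearMap.sum_apply]
    simp only [leib_Ld_apply, neg_neg]

open TensorProduct

/-- the scaled fields on the left factor -/
noncomputable def leibA (c : Fin 3) : ℝ → Module.End ℝ (Sm ⊗[ℝ] Sm) :=
  fun h => h • LinearMap.rTensor Sm (L c)

/-- the scaled fields on the right factor -/
noncomputable def leibB (c : Fin 3) : ℝ → Module.End ℝ (Sm ⊗[ℝ] Sm) :=
  fun h => h • LinearMap.lTensor Sm (L c)

theorem leibA_tmul (c : Fin 3) (h : ℝ) (f g : Sm) :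
    leibA c h (f ⊗ₜ g) = h • (L c f ⊗ₜ g) := by simp [leibA]

theorem leibB_tmul (c : Fin 3) (h : ℝ) (f g : Sm) :
    leibB c h (f ⊗ₜ g) = h • (f ⊗ₜ L c g) := by simp [leibB]

theorem leib_mul_app (x y : ℝ → Module.End ℝ (Sm ⊗[ℝ] Sm)) (h : ℝ) (z : Sm ⊗[ℝ] Sm) :
    (x * y) h z = x h (y h z) := rfl

theorem leib_comm (c d : Fin 3) : Commute (leibA c) (leibB d) := by
  funext h
  refine TensorProduct.ext' fun f g => ?_
  simp only [leib_mul_app, leibA_tmul, leibB_tmul, map_smul]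

theorem leib_Aw (v : List (Fin 3)) (h : ℝ) (f g : Sm) :
    (v.map leibA).prod h (f ⊗ₜ g) = h ^ v.length • (Lw v f ⊗ₜ g) := by
  induction v with
  | nil => simp
  | cons c v ih =>
    rw [List.map_cons, List.prod_cons, leib_mul_app, ih, map_smul, leibA_tmul, smul_smul,
      List.length_cons, pow_succ, Lw_cons]

theorem leib_Bw (w : List (Fin 3)) (h : ℝ) (f g : Sm) :
    (w.map leibB).prod h (f ⊗ₜ g) = h ^ w.length • (f ⊗ₜ Lw w g) := by
  induction w with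
  | nil => simp
  | cons c v ih =>
    rw [List.map_cons, List.prod_cons, leib_mul_app, ih, map_smul, leibB_tmul, smul_smul,
      List.length_cons, pow_succ, Lw_cons]

theorem leib_Q_app (a b : Fin 3 → ℝ → Module.End ℝ (Sm ⊗[ℝ] Sm)) (h : ℝ) (z : Sm ⊗[ℝ] Sm) :
    leibQ a b h z = ∑ c, a c h (b c h z) := by
  rw [leibQ, Finset.sum_apply, LinearMap.sum_apply]
  rfl

theorem leib_QAA (h : ℝ) (f g : Sm) : leibQ leibA leibA h (f ⊗ₜ g) = h ^ 2 • (lap f ⊗ₜ g) := by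
  rw [leib_Q_app, lap_def, sum_tmul, Finset.smul_sum]
  simp only [leibA_tmul, map_smul, smul_smul, sq]

theorem leib_QBB (h : ℝ) (f g : Sm) : leibQ leibB leibB h (f ⊗ₜ g) = h ^ 2 • (f ⊗ₜ lap g) := by
  rw [leib_Q_app, lap_def, tmul_sum, Finset.smul_sum]
  simp only [leibB_tmul, map_smul, smul_smul, sq]

theorem leib_QAB (h : ℝ) (f g : Sm) :
    leibQ leibA leibB h (f ⊗ₜ g) = h ^ 2 • ∑ c, (L c f ⊗ₜ L c g) := by
  rw [leib_Q_app, Finset.smul_sum]
  simp only [leibA_tmul, leibB_tmul, map_smul, smul_smul, sq]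

theorem leib_commA : Commute (leibQ leibA leibA) (leibQ leibA leibB) := by
  funext h
  refine TensorProduct.ext' fun f g => ?_
  simp only [leib_mul_app, leib_QAA, leib_QAB, map_smul, map_sum, lap_L, Finset.smul_sum]

theorem leib_commB : Commute (leibQ leibB leibB) (leibQ leibA leibB) := by
  funext h
  refine TensorProduct.ext' fun f g => ?_
  simp only [leib_mul_app, leib_QBB, leib_QAB, map_smul, map_sum, lap_L, Finset.smul_sum]

theorem leib_sub_app (x y : ℝ → Module.End ℝ (Sm ⊗[ℝ] Sm)) (h : ℝ) (z : Sm ⊗[ℝ] Sm) :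
    (x - y) h z = x h z - y h z := rfl

theorem leib_add_app (x y : ℝ → Module.End ℝ (Sm ⊗[ℝ] Sm)) (h : ℝ) (z : Sm ⊗[ℝ] Sm) :
    (x + y) h z = x h z + y h z := rfl

theorem leib_one_app (h : ℝ) (z : Sm ⊗[ℝ] Sm) :
    (1 : ℝ → Module.End ℝ (Sm ⊗[ℝ] Sm)) h z = z := rfl

theorem leib_nat_app (n : ℕ) (x : ℝ → Module.End ℝ (Sm ⊗[ℝ] Sm)) (h : ℝ) (z : Sm ⊗[ℝ] Sm) :
    ((n : ℝ → Module.End ℝ (Sm ⊗[ℝ] Sm)) * x) h z = (n : ℝ) • x h z := by
  rw [← nsmul_eq_mul, Nat.cast_smul_eq_nsmul]; rfl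

theorem leib_DB (j : ℕ) (h : ℝ) (f g : Sm) :
    ((1 - leibQ leibB leibB) ^ j) h (f ⊗ₜ g) = f ⊗ₜ DD h j g := by
  induction j with
  | zero => rw [pow_zero, leib_DD_zero]; rfl
  | succ j ih =>
    rw [pow_succ', leib_mul_app, ih, leib_sub_app, leib_one_app, leib_QBB, leib_DD_succ, tmul_sub,
      tmul_smul]

theorem leib_DA (j : ℕ) (h : ℝ) (f g : Sm) :
    ((1 - leibQ leibA leibA) ^ j) h (f ⊗ₜ g) = DD h j f ⊗ₜ g := by
  induction j with
  | zero => rw [pow_zero, leib_DD_zero]; rfl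
  | succ j ih =>
    rw [pow_succ', leib_mul_app, ih, leib_sub_app, leib_one_app, leib_QAA, leib_DD_succ, sub_tmul,
      smul_tmul']

theorem leib_lift_M {M : Fin 3 → W →ₗ[ℝ] W} {b : Sm →ₗ[ℝ] Sm →ₗ[ℝ] W} (hb : Inv M b)
    (c : Fin 3) (h : ℝ) (z : Sm ⊗[ℝ] Sm) :
    lift b ((leibA c + leibB c) h z) = h • M c (lift b z) := by
  induction z using TensorProduct.induction_on with
  | zero => simp
  | tmul f g =>
    rw [leib_add_app, leibA_tmul, leibB_tmul, map_add, map_smul, map_smul, lift.tmul, lift.tmul,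
      lift.tmul, hb c f g, smul_add]
  | add x y hx hy => simp only [map_add, hx, hy, smul_add]

theorem leib_lift_E {M : Fin 3 → W →ₗ[ℝ] W} {b : Sm →ₗ[ℝ] Sm →ₗ[ℝ] W} (hb : Inv M b)
    (j : ℕ) (h : ℝ) (z : Sm ⊗[ℝ] Sm) :
    lift b ((leibE leibA leibB ^ j) h z) = DG M h j (lift b z) := by
  induction j with
  | zero => rw [pow_zero, leib_DG_zero]; rfl
  | succ j ih =>
    rw [pow_succ', leib_mul_app, leib_DG_succ, ← ih]
    generalize (leibE leibA leibB ^ j) h z = u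
    rw [leib_E_eq leib_comm, leib_sub_app, leib_one_app, map_sub, Finset.sum_apply,
      LinearMap.sum_apply, map_sum, Finset.smul_sum]
    simp only [leib_mul_app, leib_lift_M hb, map_smul, smul_smul, sq]

theorem leib_bound {P : List (Fin 3) → List (Fin 3) → Prop}
    {x : ℝ → Module.End ℝ (Sm ⊗[ℝ] Sm)} (hx : x ∈ leibS leibA leibB P) :
    ∃ C, 0 ≤ C ∧ ∀ {W : Type} [AddCommGroup W] [Module ℝ W]
      {b : Sm →ₗ[ℝ] Sm →ₗ[ℝ] W} (N : Seminorm ℝ W) {h Y : ℝ} {f g : Sm}, 0 ≤ h →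
      (∀ v w : List (Fin 3), P v w →
        h ^ (v.length + w.length) * N (b (Lw v f) (Lw w g)) ≤ Y) →
      N (lift b (x h (f ⊗ₜ g))) ≤ C * Y := by
  induction hx using Submodule.span_induction with
  | mem y hy =>
    obtain ⟨v, w, hp, rfl⟩ := hy
    refine ⟨1, zero_le_one, ?_⟩
    intro W _ _ b N h Y f g hh H
    rw [leib_mul_app, leib_Bw, map_smul, leib_Aw, smul_smul, map_smul, lift.tmul, map_smul_eq_mul,
      Real.norm_of_nonneg (by positivity), one_mul, ← pow_add, add_comm]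
    exact H v w hp
  | zero =>
    refine ⟨0, le_rfl, ?_⟩
    intro W _ _ b N h Y f g hh H
    simp
  | add y z _ _ hy hz =>
    obtain ⟨C1, h1, H1⟩ := hy
    obtain ⟨C2, h2, H2⟩ := hz
    refine ⟨C1 + C2, by positivity, ?_⟩
    intro W _ _ b N h Y f g hh H
    rw [leib_add_app, map_add, add_mul]
    exact (map_add_le_add N _ _).trans (add_le_add (H1 N hh H) (H2 N hh H))
  | smul r y _ hy =>
    obtain ⟨C1, h1, H1⟩ := hy
    refine ⟨‖r‖ * C1, by positivity, ?_⟩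
    intro W _ _ b N h Y f g hh H
    have : (r • y) h (f ⊗ₜ g) = r • y h (f ⊗ₜ g) := rfl
    rw [this, map_smul, map_smul_eq_mul, mul_assoc]
    exact mul_le_mul_of_nonneg_left (H1 N hh H) (norm_nonneg _)

theorem leib1 (j : ℕ) : ∃ C, 0 ≤ C ∧ ∀ {W : Type} [AddCommGroup W] [Module ℝ W]
    {M : Fin 3 → W →ₗ[ℝ] W} {b : Sm →ₗ[ℝ] Sm →ₗ[ℝ] W} (N : Seminorm ℝ W) {h Y : ℝ} {f g : Sm},
    Inv M b → 0 ≤ h →
    (∀ v w : List (Fin 3), v ≠ [] → v.length + w.length ≤ 2 * j →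
      h ^ (v.length + w.length) * N (b (Lw v f) (Lw w g)) ≤ Y) →
    N (DG M h j (b f g) - b f (DD h j g)) ≤ C * Y := by
  obtain ⟨C, hC, H⟩ := leib_bound (leib_abs1 leib_comm j)
  refine ⟨C, hC, ?_⟩
  intro W _ _ M b N h Y f g hb hh hY
  have := H (b := b) N (f := f) (g := g) hh (fun v w hp => hY v w hp.1 hp.2)
  rwa [leib_sub_app, map_sub, leib_lift_E hb, leib_DB, lift.tmul, lift.tmul] at this

theorem leib2 (j : ℕ) : ∃ C, 0 ≤ C ∧ ∀ {W : Type} [AddCommGroup W] [Module ℝ W]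
    {M : Fin 3 → W →ₗ[ℝ] W} {b : Sm →ₗ[ℝ] Sm →ₗ[ℝ] W} (N : Seminorm ℝ W) {h Y : ℝ} {f g : Sm},
    Inv M b → 0 ≤ h → 0 ≤ Y →
    (∀ v w : List (Fin 3), v ≠ [] → w ≠ [] → v.length + w.length ≤ 2 * j →
      h ^ (v.length + w.length) * N (b (Lw v f) (Lw w g)) ≤ Y) →
    N (DG M h j (b f g) - b f (DD h j g) - b (DD h j f) g + b f g) ≤ C * Y := by
  obtain ⟨C, hC, H⟩ := leib_bound (leib_abs2 leib_comm j)
  refine ⟨C, hC, ?_⟩
  intro W _ _ M b N h Y f g hb hh _ hY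
  have := H (b := b) N (f := f) (g := g) hh (fun v w hp => hY v w hp.1 hp.2.1 hp.2.2)
  rwa [leib_add_app, leib_sub_app, leib_sub_app, map_add, map_sub, map_sub, leib_lift_E hb,
    leib_DB, leib_DA, leib_one_app, lift.tmul, lift.tmul, lift.tmul] at this

theorem leib3 (j : ℕ) (hj : 2 ≤ j) : ∃ C, 0 ≤ C ∧ ∀ {W : Type} [AddCommGroup W] [Module ℝ W]
    {M : Fin 3 → W →ₗ[ℝ] W} {b : Sm →ₗ[ℝ] Sm →ₗ[ℝ] W} (N : Seminorm ℝ W) {h Y : ℝ} {f g : Sm},
    Inv M b → 0 ≤ h →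
    (∀ v w : List (Fin 3), v.length ≤ 2 * j - 2 → w.length ≤ 2 * j - 2 →
      v.length + w.length ≤ 2 * j →
      h ^ (v.length + w.length) * N (b (Lw v f) (Lw w g)) ≤ Y) →
    N (DG M h j (b f g) - b f (DD h j g) - b (DD h j f) g
      + (2 * j * h ^ 2) • ∑ c, (b (L c f) (L c (DD h (j - 1) g))
        + b (L c (DD h (j - 1) f)) (L c g))) ≤ C * Y := by
  obtain ⟨i, rfl⟩ : ∃ i, j = i + 2 := ⟨j - 2, by omega⟩
  obtain ⟨C, hC, H⟩ := leib_bound (leib_abs3 leib_comm leib_commA leib_commB i)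
  refine ⟨C, hC, ?_⟩
  intro W _ _ M b N h Y f g hb hh hY
  have := H (b := b) N (f := f) (g := g) hh
    (fun v w hp => hY v w (by omega) (by omega) (by omega))
  rw [leib_add_app, leib_sub_app, leib_sub_app, map_add, map_sub, map_sub, leib_lift_E hb,
    leib_DB, leib_DA, leib_nat_app, leib_add_app, leib_mul_app, leib_mul_app, leib_DB, leib_DA,
    leib_QAB, leib_QAB, ← smul_add, smul_smul, ← Finset.sum_add_distrib, map_smul, map_sum]
    at this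
  simp only [map_add, lift.tmul] at this
  rw [show i + 2 - 1 = i + 1 from rfl]
  convert this using 4
  push_cast
  ring

/-- the forms of the quadratic model after moving the weight -/
theorem leib_form (j : ℕ) : ∃ C, 0 ≤ C ∧ ∀ {b : Sm →ₗ[ℝ] Sm →ₗ[ℝ] Sm →ₗ[ℝ] ℝ} {h Y : ℝ}
    {f g y : Sm}, (∀ c f g y, b f g (L c y) + b (L c f) g y + b f (L c g) y = 0) → 0 ≤ h →
    (∀ v w : List (Fin 3), v ≠ [] → v.length + w.length ≤ 2 * j →
      h ^ (v.length + w.length) * |b (Lw v f) (Lw w (DI h j g)) y| ≤ Y) →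
    |b f (DI h j g) (DD h j y) - b f g y| ≤ C * Y := by
  obtain ⟨C, hC, H⟩ := leib1 j
  refine ⟨C, hC, ?_⟩
  intro b h Y f g y hb hh hY
  have hI : Inv Ld b := by
    intro c f g
    ext z
    rw [leib_Ld_apply, LinearMap.add_apply]
    linarith [hb c f g z]
  have := H ((normSeminorm ℝ ℝ).comp (LinearMap.applyₗ y)) (f := f) (g := DI h j g) hI hh
    (fun v w h1 h2 => hY v w h1 h2)
  rw [DD_DI] at this
  rw [← DG_Ld]
  exact this

end Pool.Agent.Lib.MP_2fa2a2_gt.PI
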