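import Pool.Agent.Lib.MP_2fa2a2_gt.PI.Funk

/-! Conjugation of the axial field by the weight. -/

namespace Pool.Agent.Lib.MP_2fa2a2_gt.PI

theorem polex_pow (j : ℕ) : ∃ K : ℝ, 0 ≤ K ∧ ∀ x : ℝ, |x| ≤ 2 →
    |(1 + x) ^ j - 1 - j * x| ≤ K * x ^ 2 := by
  induction j with
  | zero => exact ⟨0, le_rfl, fun x _ => by simp⟩
  | succ j ih =>
    obtain ⟨K, hK, h⟩ := ih
    refine ⟨3 * K + j, by positivity, fun x hx => ?_⟩
    have e : (1 + x) ^ (j + 1) - 1 - ((j + 1 : ℕ) : ℝ) * x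
        = (1 + x) * ((1 + x) ^ j - 1 - j * x) + j * x ^ 2 := by
      push_cast; ring
    have h1 : |1 + x| ≤ 3 := by
      have := abs_add_le 1 x
      rw [abs_one] at this
      linarith
    have h2 : |(1 + x) * ((1 + x) ^ j - 1 - j * x)| ≤ 3 * (K * x ^ 2) := by
      rw [abs_mul]
      exact mul_le_mul h1 (h x hx) (abs_nonneg _) (by norm_num)
    have h3 : |(j : ℝ) * x ^ 2| = j * x ^ 2 := abs_of_nonneg (by positivity)
    rw [e]
    refine (abs_add_le _ _).trans ?_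
    rw [h3]
    nlinarith

/-- the two elementary bounds on `x = 2 h ^ 2 n / d` -/
theorem polex_x {h n d : ℝ} (hh : 0 < h) (hn : 0 ≤ n) (hd : 1 + (h * n) ^ 2 ≤ 2 * d) :
    0 ≤ 2 * h ^ 2 * n / d ∧ 2 * h ^ 2 * n / d ≤ 2 * h ∧ n * (2 * h ^ 2 * n / d) ^ 2 ≤ 16 * h := by
  have hu : 0 ≤ h * n := by positivity
  have hd0 : 0 < d := by nlinarith [sq_nonneg (h * n)]
  refine ⟨by positivity, ?_, ?_⟩
  · rw [div_le_iff₀ hd0]
    have : h * n ≤ d := by nlinarith [sq_nonneg (h * n - 1)]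
    nlinarith
  · rw [div_pow, ← mul_div_assoc, div_le_iff₀ (by positivity)]
    have h1 : (h * n) ^ 3 ≤ (1 + (h * n) ^ 2) ^ 2 := by
      nlinarith [sq_nonneg (h * n), sq_nonneg ((h * n) ^ 2 - h * n), sq_nonneg (h * n - 1)]
    have h2 : (1 + (h * n) ^ 2) ^ 2 ≤ (2 * d) ^ 2 := by
      exact pow_le_pow_left₀ (by positivity) hd 2
    have h3 : n * (2 * h ^ 2 * n) ^ 2 = 4 * h * (h * n) ^ 3 := by ring
    rw [h3]
    nlinarith

theorem polex_coef (j : ℕ) : ∃ C : ℝ, 0 ≤ C ∧ ∀ (h : ℝ) (k : ℕ), 0 < h → h ≤ 1 →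
    |((k : ℝ) + 1) * (((1 + h ^ 2 * ll k) ^ j)⁻¹ * (1 + h ^ 2 * ll (k + 1)) ^ j - 1)
        - 2 * j * (1 - (1 + h ^ 2 * ll (k + 1))⁻¹)| ≤ C * h ∧
    |-((k : ℝ) + 1) * (((1 + h ^ 2 * ll (k + 1)) ^ j)⁻¹ * (1 + h ^ 2 * ll k) ^ j - 1)
        - 2 * j * (1 - (1 + h ^ 2 * ll k)⁻¹)| ≤ C * h := by
  obtain ⟨K, hK, hpow⟩ := polex_pow j
  refine ⟨16 * K + 2 * j, by positivity, fun h k hh h1 => ?_⟩
  have hk : (0 : ℝ) ≤ k := Nat.cast_nonneg k
  have hj : (0 : ℝ) ≤ j := Nat.cast_nonneg j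
  obtain ⟨n, hn⟩ : ∃ n : ℝ, n = k + 1 := ⟨_, rfl⟩
  have hn0 : 0 < n := by rw [hn]; positivity
  obtain ⟨p, hp⟩ : ∃ p : ℝ, p = 1 + h ^ 2 * ll k := ⟨_, rfl⟩
  obtain ⟨q, hq⟩ : ∃ q : ℝ, q = 1 + h ^ 2 * ll (k + 1) := ⟨_, rfl⟩
  rw [← hn, ← hp, ← hq]
  have hp' : p = 1 + h ^ 2 * ((n - 1) * n) := by rw [hp, hn, ll]; ring
  have hq' : q = p + 2 * h ^ 2 * n := by rw [hq, hp, hn, ll, ll]; push_cast; ring
  have hh2 : h ^ 2 ≤ 1 := by nlinarith
  have hp1 : 1 ≤ p := by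
    rw [hp, ll]
    have : 0 ≤ h ^ 2 * (k * (k + 1)) := by positivity
    linarith
  have hp0 : 0 < p := by linarith
  have hpq : p ≤ q := by
    rw [hq']
    have : 0 ≤ 2 * h ^ 2 * n := by positivity
    linarith
  have hq0 : 0 < q := by linarith
  have hdp : 1 + (h * n) ^ 2 ≤ 2 * p := by
    rw [hp', hn]
    have : 0 ≤ h ^ 2 * k ^ 2 := by positivity
    nlinarith
  have hdq : 1 + (h * n) ^ 2 ≤ 2 * q := by linarith
  constructor
  · obtain ⟨a0, a1, a2⟩ := polex_x hh hn0.le hdp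
    obtain ⟨x, hx⟩ : ∃ x : ℝ, x = 2 * h ^ 2 * n / p := ⟨_, rfl⟩
    rw [← hx] at a0 a1 a2
    have e1 : (p ^ j)⁻¹ * q ^ j = (1 + x) ^ j := by
      have : 1 + x = q / p := by rw [hx, hq']; field_simp
      rw [this, div_pow]; ring
    have e2 : n * ((1 + x) ^ j - 1) - 2 * j * (1 - q⁻¹)
        = n * ((1 + x) ^ j - 1 - j * x) + j * x * ((q - 2) / q) := by
      have : n * x - 2 * (1 - q⁻¹) = x * ((q - 2) / q) := by
        rw [hx]
        field_simp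
        rw [hq', hp']
        ring
      linear_combination j * this
    have b1 := hpow x (by rw [abs_of_nonneg a0]; linarith)
    have b2 : |(q - 2) / q| ≤ 1 := by
      rw [abs_div, abs_of_pos hq0, div_le_one hq0, abs_le]
      constructor <;> linarith
    rw [e1, e2]
    refine (abs_add_le _ _).trans ?_
    rw [abs_mul, abs_mul, abs_of_pos hn0, abs_of_nonneg (mul_nonneg hj a0)]
    have c1 : n * |(1 + x) ^ j - 1 - j * x| ≤ K * (16 * h) := by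
      calc n * |(1 + x) ^ j - 1 - j * x| ≤ n * (K * x ^ 2) :=
            mul_le_mul_of_nonneg_left b1 hn0.le
        _ = K * (n * x ^ 2) := by ring
        _ ≤ K * (16 * h) := mul_le_mul_of_nonneg_left a2 hK
    have c2 : j * x * |(q - 2) / q| ≤ j * (2 * h) := by
      calc j * x * |(q - 2) / q| ≤ j * x * 1 := mul_le_mul_of_nonneg_left b2 (mul_nonneg hj a0)
        _ ≤ j * (2 * h) := by rw [mul_one]; exact mul_le_mul_of_nonneg_left a1 hj
    linarith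
  · obtain ⟨a0, a1, a2⟩ := polex_x hh hn0.le hdq
    obtain ⟨x, hx⟩ : ∃ x : ℝ, x = 2 * h ^ 2 * n / q := ⟨_, rfl⟩
    rw [← hx] at a0 a1 a2
    have e1 : (q ^ j)⁻¹ * p ^ j = (1 + -x) ^ j := by
      have : 1 + -x = p / q := by rw [hx]; field_simp; rw [hq']; ring
      rw [this, div_pow]; ring
    have e2 : -n * ((1 + -x) ^ j - 1) - 2 * j * (1 - p⁻¹)
        = -n * ((1 + -x) ^ j - 1 - j * -x) + j * x * ((2 - p) / p) := by
      have : n * x - 2 * (1 - p⁻¹) = x * ((2 - p) / p) := by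
        rw [hx]
        field_simp
        rw [hq', hp']
        ring
      linear_combination j * this
    have b1 := hpow (-x) (by rw [abs_neg, abs_of_nonneg a0]; linarith)
    have b2 : |(2 - p) / p| ≤ 1 := by
      rw [abs_div, abs_of_pos hp0, div_le_one hp0, abs_le]
      constructor <;> linarith
    rw [e1, e2]
    refine (abs_add_le _ _).trans ?_
    rw [abs_mul, abs_mul, abs_neg, abs_of_pos hn0, abs_of_nonneg (mul_nonneg hj a0)]
    have c1 : n * |(1 + -x) ^ j - 1 - j * -x| ≤ K * (16 * h) := by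
      calc n * |(1 + -x) ^ j - 1 - j * -x| ≤ n * (K * (-x) ^ 2) :=
            mul_le_mul_of_nonneg_left b1 hn0.le
        _ = K * (n * x ^ 2) := by ring
        _ ≤ K * (16 * h) := mul_le_mul_of_nonneg_left a2 hK
    have c2 : j * x * |(2 - p) / p| ≤ j * (2 * h) := by
      calc j * x * |(2 - p) / p| ≤ j * x * 1 := mul_le_mul_of_nonneg_left b2 (mul_nonneg hj a0)
        _ ≤ j * (2 * h) := by rw [mul_one]; exact mul_le_mul_of_nonneg_left a1 hj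
    linarith

/-- operators with two bands -/
theorem polex_band {w y : Sm} {B : ℝ} (hB : 0 ≤ B)
    (h : ∀ k, ‖P k w‖ ≤ B * (‖P (k + 1) y‖ + ‖P (k - 1) y‖)) : ‖w‖ ≤ 3 * B * ‖y‖ := by
  have hy := parseval_sq y
  have h0 : ‖P 0 y‖ ^ 2 ≤ ‖y‖ ^ 2 := pow_le_pow_left₀ (norm_nonneg _) (fnx_norm_P 0 y) 2
  have h1 : HasSum (fun k => ‖P (k + 1) y‖ ^ 2) (‖y‖ ^ 2 - ‖P 0 y‖ ^ 2) := by
    have := (hasSum_nat_add_iff' 1).2 hy
    simpa using this
  have h2 : HasSum (fun k => ‖P (k - 1) y‖ ^ 2) (‖y‖ ^ 2 + ‖P 0 y‖ ^ 2) := by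
    have := (hasSum_nat_add_iff (f := fun k => ‖P (k - 1) y‖ ^ 2) 1).1 (by simpa using hy)
    simpa using this
  have h3 := (h1.add h2).mul_left (2 * B ^ 2)
  have h4 : ‖w‖ ^ 2 ≤ 2 * B ^ 2 * (‖y‖ ^ 2 - ‖P 0 y‖ ^ 2 + (‖y‖ ^ 2 + ‖P 0 y‖ ^ 2)) := by
    refine hasSum_le (fun k => ?_) (parseval_sq w) h3
    have h5 := pow_le_pow_left₀ (norm_nonneg _) (h k) 2
    nlinarith [sq_nonneg (B * (‖P (k + 1) y‖ - ‖P (k - 1) y‖))]
  refine nrmx_sq ?_ (by positivity)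
  nlinarith [sq_nonneg (B * ‖y‖)]

theorem polex_skew (φ ψ : Sm) :
    inner ℝ (D 2 φ - X 2 * φ) ψ = -inner ℝ φ (D 2 ψ - X 2 * ψ) := by
  have h := I_D 2 (φ * ψ)
  rw [D_mul, map_add] at h
  rw [inner_def, inner_def, sub_mul, mul_sub, map_sub, map_sub]
  have e1 : X 2 * φ * ψ = X 2 * (φ * ψ) := by ring
  have e2 : φ * (X 2 * ψ) = X 2 * (φ * ψ) := by ring
  rw [e1, e2]
  linarith

theorem polex_one_le (h : ℝ) (l : ℕ) : 1 ≤ 1 + h ^ 2 * ll l := by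
  have := mul_nonneg (sq_nonneg h) (nrmx_ll_nonneg l)
  linarith

theorem polex_PG (h : ℝ) : PG (fun l => 1 + h ^ 2 * ll l) :=
  (fnx_const 1).add ((fnx_const (h ^ 2)).mul PG_ll)

theorem polex_PG_inv {c : ℕ → ℝ} (hc : ∀ l, 1 ≤ c l) : PG (fun l => (c l)⁻¹) := by
  refine PG.of_bdd (B := 1) fun l => ?_
  have h0 : 0 < c l := lt_of_lt_of_le one_pos (hc l)
  rw [abs_of_pos (inv_pos.2 h0)]
  exact inv_le_one_of_one_le₀ (hc l)

theorem polex_eig {c : ℕ → ℝ} (hc : PG c) {l : ℕ} {u : Sm} (hu : P l u = u) :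
    fn c u = c l • u := by
  have := fn_P hc l u
  rwa [hu] at this

theorem polex_inner_le {l : ℕ} {u v : Sm} (y : Sm) (hv : P l v = v) (hn : ‖v‖ ≤ ‖u‖) :
    |inner ℝ y v| ≤ ‖P l y‖ * ‖u‖ := by
  have e : inner ℝ y v = inner ℝ (P l y) v := by rw [inner_P, hv]
  rw [e]
  exact (abs_real_inner_le_norm _ _).trans (mul_le_mul_of_nonneg_left hn (norm_nonneg _))

/-- conjugation of the skew operator `D 2 - z` by the weight -/
theorem pole_conj (j : ℕ) : ∃ C, 0 ≤ C ∧ ∀ {h : ℝ} (y : Sm), 0 < h → h ≤ 1 →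
    ‖DI h j (D 2 (DD h j y) - X 2 * DD h j y) - (D 2 y - X 2 * y)
      - (2 * j : ℝ) • (X 2 * (y - Sh h y))‖ ≤ C * h * ‖y‖ := by
  obtain ⟨C, hC, hcoef⟩ := polex_coef j
  refine ⟨3 * C, by positivity, fun {h} y hh h1 => ?_⟩
  have hd := polex_PG h
  have hdj : PG (fun l => (1 + h ^ 2 * ll l) ^ j) := hd.pow j
  have hdi : PG (fun l => ((1 + h ^ 2 * ll l) ^ j)⁻¹) :=
    polex_PG_inv fun l => one_le_pow₀ (polex_one_le h l)
  have hsh : PG (fun l => (1 + h ^ 2 * ll l)⁻¹) := polex_PG_inv (polex_one_le h)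
  obtain ⟨w, hw⟩ : ∃ w, w = DI h j (D 2 (DD h j y) - X 2 * DD h j y) - (D 2 y - X 2 * y)
      - (2 * j : ℝ) • (X 2 * (y - Sh h y)) := ⟨_, rfl⟩
  rw [← hw]
  have hB : 0 ≤ C * h := by positivity
  refine (polex_band (y := y) hB fun k => ?_).trans_eq (by ring)
  obtain ⟨u, hu⟩ : ∃ u, u = P k w := ⟨_, rfl⟩
  have hPu : P k u = u := by rw [hu, P_P, if_pos rfl]
  obtain ⟨up, um, hup, -, hum, hX, hD⟩ := ladder k 2 hPu
  have hzu : ‖X 2 * u‖ ≤ ‖u‖ := by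
    have := norm_mul_le (abs_X_le 2) u
    rwa [one_mul] at this
  have hup' : ‖up‖ ≤ ‖u‖ := by
    have e : P (k + 1) (X 2 * u) = up := by
      rw [hX, map_add, hup, ← hum, P_P, if_neg (by omega), add_zero]
    rw [← e]
    exact (fnx_norm_P _ _).trans hzu
  have hum' : ‖um‖ ≤ ‖u‖ := by
    have e : P (k - 1) (X 2 * u) = um := by
      rw [hX, map_add, hum, ← hup, P_P, if_neg (by omega), zero_add]
    rw [← e]
    exact (fnx_norm_P _ _).trans hzu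
  have ha := polex_inner_le y hup hup'
  have hb := polex_inner_le y hum hum'
  obtain ⟨a, ha'⟩ : ∃ a, a = inner ℝ y up := ⟨_, rfl⟩
  obtain ⟨b, hb'⟩ : ∃ b, b = inner ℝ y um := ⟨_, rfl⟩
  have hE : D 2 u - X 2 * u = -((k : ℝ) + 1) • up + (k : ℝ) • um := by
    rw [hD, hX]; module
  have t1 : inner ℝ (DI h j (D 2 (DD h j y) - X 2 * DD h j y)) u
      = ((1 + h ^ 2 * ll k) ^ j)⁻¹ * (((k : ℝ) + 1) * ((1 + h ^ 2 * ll (k + 1)) ^ j * a)
        - k * ((1 + h ^ 2 * ll (k - 1)) ^ j * b)) := by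
    unfold DI DD
    rw [inner_fn, polex_eig hdi hPu, inner_smul_right, polex_skew, inner_fn, hE, map_add, map_smul,
      map_smul, polex_eig hdj hup, polex_eig hdj hum, inner_add_right, inner_smul_right,
      inner_smul_right, inner_smul_right, inner_smul_right, ← ha', ← hb']
    ring
  have t2 : inner ℝ (D 2 y - X 2 * y) u = ((k : ℝ) + 1) * a - k * b := by
    rw [polex_skew, hE, inner_add_right, inner_smul_right, inner_smul_right, ← ha', ← hb']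
    ring
  have t3 : inner ℝ (X 2 * (y - Sh h y)) u
      = (1 - (1 + h ^ 2 * ll (k + 1))⁻¹) * a + (1 - (1 + h ^ 2 * ll (k - 1))⁻¹) * b := by
    unfold Sh
    rw [inner_mul, hX, inner_sub_left, inner_fn, map_add, polex_eig hsh hup, polex_eig hsh hum,
      inner_add_right, inner_add_right, inner_smul_right, inner_smul_right, ← ha', ← hb']
    ring
  have hA := (hcoef h k hh h1).1
  have hBk : |-(k : ℝ) * (((1 + h ^ 2 * ll k) ^ j)⁻¹ * (1 + h ^ 2 * ll (k - 1)) ^ j - 1)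
      - 2 * j * (1 - (1 + h ^ 2 * ll (k - 1))⁻¹)| ≤ C * h := by
    cases k with
    | zero => simpa [ll] using hB
    | succ m =>
      have := (hcoef h m hh h1).2
      simpa using this
  obtain ⟨A, hA'⟩ : ∃ A, A = ((k : ℝ) + 1) * (((1 + h ^ 2 * ll k) ^ j)⁻¹
      * (1 + h ^ 2 * ll (k + 1)) ^ j - 1) - 2 * j * (1 - (1 + h ^ 2 * ll (k + 1))⁻¹) := ⟨_, rfl⟩
  obtain ⟨B, hB'⟩ : ∃ B, B = -(k : ℝ) * (((1 + h ^ 2 * ll k) ^ j)⁻¹
      * (1 + h ^ 2 * ll (k - 1)) ^ j - 1) - 2 * j * (1 - (1 + h ^ 2 * ll (k - 1))⁻¹) := ⟨_, rfl⟩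
  rw [← hA'] at hA
  rw [← hB'] at hBk
  have hwu : inner ℝ w u = A * a + B * b := by
    rw [hw, inner_sub_left, inner_sub_left, inner_smul_left, t1, t2, t3, hA', hB']
    simp only [conj_trivial]
    ring
  have hsq : ‖u‖ ^ 2 = inner ℝ w u := by
    rw [← real_inner_self_eq_norm_sq]
    conv_lhs => rw [hu, inner_P, ← hu, hPu]
  rw [← ha'] at ha
  rw [← hb'] at hb
  have hle : ‖u‖ ^ 2 ≤ C * h * (‖P (k + 1) y‖ + ‖P (k - 1) y‖) * ‖u‖ := by
    rw [hsq, hwu]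
    have c1 : A * a ≤ C * h * (‖P (k + 1) y‖ * ‖u‖) :=
      (le_abs_self _).trans ((abs_mul A a).trans_le (mul_le_mul hA ha (abs_nonneg _) hB))
    have c2 : B * b ≤ C * h * (‖P (k - 1) y‖ * ‖u‖) :=
      (le_abs_self _).trans ((abs_mul B b).trans_le (mul_le_mul hBk hb (abs_nonneg _) hB))
    linarith
  rw [← hu]
  rcases (norm_nonneg u).eq_or_lt with h0 | h0
  · rw [← h0]; positivity
  · rw [sq] at hle
    exact le_of_mul_le_mul_right hle h0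

end Pool.Agent.Lib.MP_2fa2a2_gt.PI
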