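import Pool.Agent.Lib.MP_2fa2a2_gt.PI.Tau
import Pool.Agent.Lib.MP_2fa2a2_gt.PI.Leib
import Pool.Agent.Lib.MP_2fa2a2_gt.PI.Comm
import Pool.Agent.Lib.MP_2fa2a2_gt.PI.Pole

/-! The zonal part of the transport estimate. -/

namespace Pool.Agent.Lib.MP_2fa2a2_gt.PI

theorem estt_comm (j : ℕ) : ∃ C, 0 ≤ C ∧ ∀ {h B : ℝ} {v : Sm} (p : Sm), 0 < h → h ≤ 1 →
    Cb (2 * j + 1) 1 B v → ‖DD h j (v * DI h j p) - v * p‖ ≤ C * B * h * ‖p‖ ∧
      ∀ c, ‖L c (DD h j (v * DI h j p) - v * p)‖ ≤ C * B * ‖p‖ := by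
  obtain ⟨C1, h1, H1⟩ := commw_DD_mul j
  obtain ⟨C2, h2, H2⟩ := leib1 j
  refine ⟨C1 + 2 * C2, by positivity, fun {h B v} p hh hh1 hv => ⟨?_, fun c => ?_⟩⟩
  · have hB := hv.nonneg
    have a1 := H1 (u := DI h j p) (M := ‖p‖) hh.le hh1 (commx_Cb_mono hv (Nat.le_succ _))
      fun w hw => norm_Lw_DI hh.le hw p
    rw [DD_DI] at a1
    refine a1.trans ?_
    gcongr
    linarith
  · have hB := hv.nonneg
    have a1 := H2 (M := L) (b := LinearMap.mul ℝ Sm) ((normSeminorm ℝ Sm).comp (L c)) (h := h)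
      (Y := 2 * B * ‖p‖) (f := v) (g := DI h j p) (fun c f g => L_mul c f g) hh.le
      (fun u w hu hl => by
        obtain ⟨n, hn⟩ : ∃ n, u.length = n + 1 :=
          Nat.exists_eq_succ_of_ne_zero (by simpa using hu)
        have b1 := norm_mul_le (hv (c :: u) (by simp; omega)) (Lw w (DI h j p))
        have b2 := norm_mul_le (hv u (by omega)) (Lw (c :: w) (DI h j p))
        have b3 := norm_Lw_DI hh.le (j := j) (w := w) (by omega) p
        have b4 := norm_Lw_DI hh.le (j := j) (w := c :: w) (by simp; omega) p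
        have b5 : h ^ u.length ≤ 1 := pow_le_one₀ hh.le hh1
        have b6 : h ^ n ≤ 1 := pow_le_one₀ hh.le hh1
        rw [one_pow, mul_one, Lw_cons] at b1 b2
        rw [List.length_cons, Lw_cons] at b4
        show _ * ‖L c (Lw u v * Lw w (DI h j p))‖ ≤ _
        rw [L_mul]
        calc _ ≤ h ^ (u.length + w.length) * (B * ‖Lw w (DI h j p)‖
              + B * ‖L c (Lw w (DI h j p))‖) :=
              mul_le_mul_of_nonneg_left ((norm_add_le _ _).trans (add_le_add b1 b2))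
                (by positivity)
          _ = B * (h ^ u.length * (h ^ w.length * ‖Lw w (DI h j p)‖))
              + B * (h ^ n * (h ^ (w.length + 1) * ‖L c (Lw w (DI h j p))‖)) := by
              rw [hn]
              ring
          _ ≤ B * (1 * ‖p‖) + B * (1 * ‖p‖) := by gcongr
          _ = _ := by ring)
    rw [DG_L, DD_DI] at a1
    refine le_trans a1 ?_
    have : 0 ≤ C1 * B * ‖p‖ := by positivity
    linarith

/-- the order zero part of the form -/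
noncomputable def esttB : Sm →ₗ[ℝ] Sm →ₗ[ℝ] Sm →ₗ[ℝ] ℝ :=
  LinearMap.mk₂ ℝ (fun f g => -tb f g - gam g f ∘ₗ Dop ∘ₗ Dp)
    (by intro f f' g; ext y; simp; ring)
    (by intro c f g; ext y; simp; ring)
    (by intro f g g'; ext y; simp; ring)
    (by intro c f g; ext y; simp; ring)

theorem estt_B_def (f g y : Sm) : esttB f g y = -tb f g y - I (g * gd f (Dop (Dp y))) := rfl

theorem estt_B_eq (f g y : Sm) :
    esttB f g y = I (g * ∑ a, ∑ b, H a b (Dp y) * D b (D a f)) := by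
  rw [estt_B_def, tb_def, beta_eq, mul_add, map_add]
  ring

theorem estt_B_L (c : Fin 3) (f g y : Sm) :
    esttB f g (L c y) + esttB (L c f) g y + esttB f (L c g) y = 0 := by
  have h1 := tb_L c f g y
  have h2 := I_L c (g * gd f (Dop (Dp y)))
  rw [L_mul, L_gd, mul_add, map_add, map_add] at h2
  rw [estt_B_def, estt_B_def, estt_B_def, tau_Dp_L, ← hess_L_Dop]
  linarith

theorem estt_sum9 {F : Fin 3 → Fin 3 → ℝ} {A : ℝ} (h : ∀ a b, |F a b| ≤ A) :
    |∑ a, ∑ b, F a b| ≤ 9 * A := by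
  have a2 : |∑ a, ∑ b, F a b| ≤ ∑ _a : Fin 3, ∑ _b : Fin 3, A :=
    (Finset.abs_sum_le_sum_abs _ _).trans (Finset.sum_le_sum fun a _ =>
      (Finset.abs_sum_le_sum_abs _ _).trans (Finset.sum_le_sum fun b _ => h a b))
  simp only [Finset.sum_const, Finset.card_univ, Fintype.card_fin, nsmul_eq_mul,
    Nat.cast_ofNat] at a2
  linarith

theorem estt_sum3 {F : Fin 3 → ℝ} {A : ℝ} (h : ∀ a, |F a| ≤ A) : |∑ a, F a| ≤ 3 * A := by
  have a2 : |∑ a, F a| ≤ ∑ _a : Fin 3, A :=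
    (Finset.abs_sum_le_sum_abs _ _).trans (Finset.sum_le_sum fun a _ => h a)
  simpa using a2

theorem estt_B_le {B : ℝ} {f : Sm} (hf : Cb 2 1 B f) (g y : Sm) :
    |esttB f g y| ≤ 144 * B * ‖g‖ * ‖y‖ := by
  have hB := hf.nonneg
  rw [estt_B_eq]
  simp only [Finset.mul_sum, map_sum]
  refine (estt_sum9 (A := 16 * B * ‖g‖ * ‖y‖) fun a b => ?_).trans (le_of_eq (by ring))
  have a1 : Cb 0 1 (8 * B) (D b (D a f)) := by
    have := Cb.D le_rfl (Cb.D (k := 1) le_rfl hf a) b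
    convert this using 1
    ring
  have a3 := tau_I_sq a1.abs_le g (H a b (Dp y))
  have a4 := mul_le_mul_of_nonneg_left (norm_H_Dp a b y) (by positivity : 0 ≤ 8 * B * ‖g‖)
  rw [show g * (H a b (Dp y) * D b (D a f)) = D b (D a f) * g * H a b (Dp y) by ring]
  exact (a3.trans a4).trans (le_of_eq (by ring))

theorem estt_alg {a G : Sm} (hG : ∀ c, D c G = a * D c (X 2)) (ψ : Sm) :
    ∑ c, ∑ b, H c b ψ * D b (D c G) = ∑ b, D b a * H 2 b ψ - a * X 2 * Dop ψ := by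
  have e1 : ∀ c b, D b (D c G) = D b a * (kd c 2 - X c * X 2)
      - a * (X c * D b (X 2) + (kd b c - X b * X c) * X 2) := fun c b => by
    have h1 := hess_expand b c (X 2)
    rw [H_X] at h1
    rw [hG, D_mul]
    nth_rewrite 1 [D_X]
    linear_combination (-a) * h1
  have s0 := sum_X_H 0 ψ
  have s1 := sum_X_H 1 ψ
  have s2 := sum_X_H 2 ψ
  rw [← H_trace]
  simp only [e1, Fin.sum_univ_three, alg_kd] at s0 s1 s2 ⊢
  rw [alg_kd_ne (a := 0) (b := 2) (by decide), alg_kd_ne (a := 1) (b := 2) (by decide),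
    alg_kd_ne (a := 1) (b := 0) (by decide), alg_kd_ne (a := 2) (b := 0) (by decide),
    alg_kd_ne (a := 0) (b := 1) (by decide), alg_kd_ne (a := 2) (b := 1) (by decide)]
  linear_combination (-D 0 a * X 2 - a * D 0 (X 2) + a * X 0 * X 2) * s0
    + (-D 1 a * X 2 - a * D 1 (X 2) + a * X 1 * X 2) * s1
    + (-D 2 a * X 2 - a * D 2 (X 2) + a * X 2 * X 2) * s2

theorem estt_G (j : ℕ) (B : ℝ) : ∃ C, 0 ≤ C ∧ ∀ {h : ℝ} {a ai G p y : Sm}, 0 < h → h ≤ 1 →
    y ∈ Ev → ‖y‖ ≤ 1 → ‖p‖ ≤ B → a * ai = 1 → Cb 1 1 B a → Cb (2 * j + 2) 1 B G →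
    Cb (2 * j + 1) 1 B ai → (∀ c, D c G = a * D c (X 2)) → (∀ b, ‖H 2 b (Dp y)‖ ≤ B * h) →
    |tb G (ai * DI h j p) (DD h j y) + inner ℝ p (D 2 y - X 2 * y)
      + 2 * j * inner ℝ p (X 2 * (y - Sh h y))| ≤ C * h := by
  obtain ⟨C1, h1, H1⟩ := estt_comm j
  obtain ⟨C2, h2, H2⟩ := leib_form j
  obtain ⟨C3, h3, H3⟩ := pole_conj j
  refine ⟨C2 * (144 * |B| * (B ^ 2 + C1 * B ^ 2)) + 3 * (2 * B ^ 2 * (B ^ 2 + C1 * B ^ 2))
    + |B| * (C1 * B ^ 2) + |B| * C3 + C1 * |B|, by positivity,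
    fun {h a ai G p y} hh hh1 hy hn hp hai ha hG hi hD hZ => ?_⟩
  have hB := ha.nonneg
  rw [abs_of_nonneg hB]
  set u := DI h j p with hu
  set φ := DD h j (ai * u) with hφ
  set Y := DD h j y with hY
  have hE : ‖φ - ai * p‖ ≤ C1 * B ^ 2 * h :=
    (H1 p hh hh1 hi).1.trans (by
      calc C1 * B * h * ‖p‖ ≤ C1 * B * h * B := by gcongr
        _ = _ := by ring)
  have hφn : ‖φ‖ ≤ B ^ 2 + C1 * B ^ 2 := by
    have a1 := norm_add_le (ai * p) (φ - ai * p)
    have a2 := (norm_mul_le hi.abs_le p).trans (mul_le_mul_of_nonneg_left hp hB)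
    have a3 : C1 * B ^ 2 * h ≤ C1 * B ^ 2 * 1 := by gcongr
    rw [add_sub_cancel] at a1
    linarith
  have t1 : |esttB G (ai * u) Y - esttB G φ y| ≤ C2 * (144 * B * (B ^ 2 + C1 * B ^ 2) * h) := by
    have a1 := H2 (b := esttB) (h := h) (Y := 144 * B * (B ^ 2 + C1 * B ^ 2) * h) (f := G)
      (g := φ) (y := y) estt_B_L hh.le fun v w hv hl => by
        obtain ⟨n, hn'⟩ : ∃ n, v.length = n + 1 :=
          Nat.exists_eq_succ_of_ne_zero (by simpa using hv)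
        have b1 : Cb 2 1 B (Lw v G) := by
          simpa using Cb.Lw (k := 2) v (commx_Cb_mono hG (by omega))
        have b2 := estt_B_le b1 (Lw w (DI h j φ)) y
        have b3 := (norm_Lw_DI hh.le (j := j) (w := w) (by omega) φ).trans hφn
        have b6 : h ^ n ≤ 1 := pow_le_one₀ hh.le hh1
        calc _ ≤ h ^ (v.length + w.length) * (144 * B * ‖Lw w (DI h j φ)‖ * ‖y‖) := by gcongr
          _ = 144 * B * (h ^ w.length * ‖Lw w (DI h j φ)‖) * h * (h ^ n * ‖y‖) := by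
              rw [hn']
              ring
          _ ≤ 144 * B * (B ^ 2 + C1 * B ^ 2) * h * (1 * 1) := by gcongr
          _ = _ := by ring
    rwa [hφ, DI_DD] at a1
  have t2 : |∑ b, I (D b a * φ * H 2 b (Dp y))| ≤ 3 * (2 * B ^ 2 * (B ^ 2 + C1 * B ^ 2) * h) :=
    estt_sum3 fun b => (tau_I_sq (Cb.D (k := 0) le_rfl ha b).abs_le φ _).trans (by
      calc _ ≤ 2 ^ (0 + 1) * B * 1 * (B ^ 2 + C1 * B ^ 2) * (B * h) := by gcongr; exact hZ b
        _ = _ := by ring)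
  have t3 : |I (a * X 2 * (φ - ai * p) * y)| ≤ B * (C1 * B ^ 2 * h) := by
    have a1 : ∀ x, |(a * X 2) x| ≤ B := fun x => by
      rw [Sm.mul_apply, abs_mul]
      exact (mul_le_of_le_one_right (abs_nonneg _) (abs_X_le 2 x)).trans (ha.abs_le x)
    refine (tau_I_sq a1 _ _).trans ?_
    calc _ ≤ B * (C1 * B ^ 2 * h) * 1 := by gcongr
      _ = _ := by ring
  have t4 : |inner ℝ p (DI h j (D 2 Y - X 2 * Y) - (D 2 y - X 2 * y)
      - (2 * j : ℝ) • (X 2 * (y - Sh h y)))| ≤ B * (C3 * h) :=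
    (abs_real_inner_le_norm _ _).trans (mul_le_mul hp ((H3 y hh hh1).trans
      (mul_le_of_le_one_right (by positivity) hn)) (norm_nonneg _) hB)
  have t5 : |inner ℝ (DD h j (X 2 * u) - X 2 * p) y| ≤ C1 * B * h := by
    refine (abs_real_inner_le_norm _ _).trans ?_
    calc _ ≤ C1 * 1 * h * ‖p‖ * 1 :=
          mul_le_mul (H1 p hh hh1 (Cb_X le_rfl _ 2)).1 hn (norm_nonneg _) (by positivity)
      _ ≤ C1 * 1 * h * B * 1 := by gcongr
      _ = _ := by ring
  have e1 : esttB G (ai * u) Y = -tb G (ai * u) Y - inner ℝ p (DI h j (D 2 Y - X 2 * Y))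
      - inner ℝ (DD h j (X 2 * u)) y := by
    have b1 : gd G Y = a * D 2 Y := by
      rw [← gd_X, gd_eq_D, gd_eq_D, Finset.mul_sum]
      exact Finset.sum_congr rfl fun c _ => by rw [hD, mul_assoc]
    have b2 : inner ℝ p (DI h j (D 2 Y - X 2 * Y)) = I (u * (D 2 Y - X 2 * Y)) := by
      rw [← inner_def]
      exact (inner_fn _ _ _).symm
    have b3 : inner ℝ (DD h j (X 2 * u)) y = I (X 2 * u * Y) := by
      rw [← inner_def]
      exact inner_fn _ _ _
    have b4 : Y ∈ Ev := fn_mem_Ev _ hy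
    rw [estt_B_def, Dop_Dp_Ev b4, b2, b3, sub_sub (-tb _ _ _), ← map_add]
    congr 2
    show ai * u * gd G Y = _
    rw [b1]
    linear_combination (u * D 2 Y) * hai
  have e2 : esttB G φ y = ∑ b, I (D b a * φ * H 2 b (Dp y)) - I (a * X 2 * (φ - ai * p) * y)
      - inner ℝ (X 2 * p) y := by
    rw [estt_B_eq, estt_alg hD, Dop_Dp_Ev hy, ← map_sum, inner_def, ← map_sub, ← map_sub]
    congr 1
    simp only [Fin.sum_univ_three]
    linear_combination (-X 2 * p * y) * hai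
  rw [inner_sub_right, inner_sub_right _ (DI h j _), real_inner_smul_right] at t4
  rw [inner_sub_left] at t5
  rw [e1, e2] at t1
  rw [abs_le] at t1 t2 t3 t4 t5 ⊢
  constructor <;> linarith [t1.1, t1.2, t2.1, t2.2, t3.1, t3.2, t4.1, t4.2, t5.1, t5.2]

theorem estt_main (j : ℕ) (B : ℝ) : ∃ C, 0 ≤ C ∧ ∀ {h K B0 : ℝ} {y W kb : Sm}, 0 < h → h ≤ 1 →
    0 ≤ B0 → ‖y‖ ≤ 1 → Cb 2 1 B W → ‖kb * y‖ ≤ B * h →
    (∀ x, D 2 (W * W) x ≤ -K * (qq x * W x) ^ 2 + B * kb x ^ 2) →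
    (∀ x, |(1 - X 2 x) * W x| ≤ B0 * |qq x * W x|) →
    -inner ℝ (W * W * y) (D 2 y - X 2 * y) - 2 * j * inner ℝ (W * W * y) (X 2 * (y - Sh h y))
      ≤ -(K / 2 - j * B0 ^ 2) * ‖qq * W * y‖ ^ 2
        - j / 2 * inner ℝ ((1 + X 2) * W * y - Sh h ((1 + X 2) * W * y)) ((1 + X 2) * W * y)
        + C * h := by
  obtain ⟨C1, h1, H1⟩ := comm_Sh
  refine ⟨|B| ^ 3 / 2 + j * (C1 * (8 * B) ^ 2), by positivity,
    fun {h K B0 y W kb} hh hh1 h0 hn hW hk hD hm => ?_⟩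
  have hB := hW.nonneg
  rw [abs_of_nonneg hB]
  have e1 : -inner ℝ (W * W * y) (D 2 y - X 2 * y) = I (D 2 (W * W) * (y * y)) / 2 := by
    have a1 := polex_skew (W * W * y) y
    have a2 : inner ℝ (D 2 (W * W * y) - X 2 * (W * W * y)) y
        = I (D 2 (W * W) * (y * y)) + inner ℝ (W * W * y) (D 2 y - X 2 * y) := by
      rw [inner_def, inner_def, ← map_add, D_mul 2 _ y]
      congr 1
      ring
    linarith
  have t1 : I (D 2 (W * W) * (y * y)) ≤ -K * ‖qq * W * y‖ ^ 2 + B ^ 3 * h := by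
    have a1 : I (D 2 (W * W) * (y * y)) ≤ I ((-K) • (qq * W * y * (qq * W * y))
        + B • (kb * y * (kb * y))) := I_mono fun x => by
      have := mul_le_mul_of_nonneg_right (hD x) (mul_self_nonneg (y x))
      simp only [Sm.mul_apply, Sm.add_apply, Sm.smul_apply]
      linarith
    rw [map_add, map_smul, map_smul, ← norm_sq_eq, ← norm_sq_eq, smul_eq_mul, smul_eq_mul] at a1
    have a2 : B * ‖kb * y‖ ^ 2 ≤ B ^ 3 * h := by
      calc _ ≤ B * (B * h) ^ 2 := by gcongr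
        _ = B ^ 3 * h * h := by ring
        _ ≤ B ^ 3 * h * 1 := by gcongr
        _ = _ := by ring
    linarith
  have t2 : ∀ v : Sm, Cb 2 1 (8 * B) v → |inner ℝ (v * y) (v * (y - Sh h y))
      - inner ℝ (v * y - Sh h (v * y)) (v * y)| ≤ C1 * (8 * B) ^ 2 * h := fun v hv => by
    rw [real_inner_comm (v * y) (v * y - _), ← inner_sub_right,
      show v * (y - Sh h y) - (v * y - Sh h (v * y)) = -(v * Sh h y - Sh h (v * y)) by ring,
      inner_neg_right, abs_neg]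
    refine (abs_real_inner_le_norm _ _).trans ?_
    calc _ ≤ 8 * B * ‖y‖ * (C1 * (8 * B) * h * ‖y‖) :=
          mul_le_mul (norm_mul_le hv.abs_le y) (H1 y hh hh1 hv) (norm_nonneg _) (by positivity)
      _ ≤ 8 * B * 1 * (C1 * (8 * B) * h * 1) := by gcongr
      _ = _ := by ring
  have c1 : Cb 2 1 1 (1 : Sm) := by simpa using Cb_const (lam := 1) zero_le_one 2 1
  have c2 : Cb 2 1 (8 * B) ((1 + X 2) * W) := by
    convert Cb.mul zero_le_one (c1.add (Cb_X le_rfl 2 2)) hW using 1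
    ring
  have c3 : Cb 2 1 (8 * B) ((1 - X 2) * W) := by
    convert Cb.mul zero_le_one (c1.sub (Cb_X le_rfl 2 2)) hW using 1
    ring
  have t3 := abs_le.1 (t2 _ c2)
  have t4 := abs_le.1 (t2 _ c3)
  have t5 : inner ℝ ((1 - X 2) * W * y - Sh h ((1 - X 2) * W * y)) ((1 - X 2) * W * y)
      ≤ 2 * B0 ^ 2 * ‖qq * W * y‖ ^ 2 := by
    have a1 : ‖(1 - X 2) * W * y‖ ≤ B0 * ‖qq * W * y‖ := by
      rw [← Real.norm_of_nonneg h0, ← norm_smul]
      refine norm_le_of_abs_le fun x => ?_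
      have := mul_le_mul_of_nonneg_right (hm x) (abs_nonneg (y x))
      simp only [Sm.mul_apply, Sm.sub_apply, Sm.smul_apply, Sm.one_apply, abs_mul,
        abs_of_nonneg h0] at this ⊢
      linarith
    have a2 := (norm_sub_le _ _).trans (add_le_add_right (norm_Sh_le h ((1 - X 2) * W * y))
      ‖(1 - X 2) * W * y‖)
    refine (real_inner_le_norm _ _).trans ?_
    calc _ ≤ (B0 * ‖qq * W * y‖ + B0 * ‖qq * W * y‖) * (B0 * ‖qq * W * y‖) :=
          mul_le_mul (a2.trans (add_le_add a1 a1)) a1 (norm_nonneg _) (by positivity)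
      _ = _ := by ring
  have e2 : 4 * inner ℝ (W * W * y) (X 2 * (y - Sh h y))
      = inner ℝ ((1 + X 2) * W * y) ((1 + X 2) * W * (y - Sh h y))
        - inner ℝ ((1 - X 2) * W * y) ((1 - X 2) * W * (y - Sh h y)) := by
    rw [inner_def, inner_def, inner_def, ← map_sub, ← smul_eq_mul, ← map_smul]
    congr 1
    ext x
    simp only [Sm.mul_apply, Sm.sub_apply, Sm.smul_apply, Sm.one_apply, Sm.add_apply]
    ring
  have hj : (0 : ℝ) ≤ j := Nat.cast_nonneg j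
  have t6 : inner ℝ ((1 + X 2) * W * y - Sh h ((1 + X 2) * W * y)) ((1 + X 2) * W * y)
      - 2 * B0 ^ 2 * ‖qq * W * y‖ ^ 2 - 2 * (C1 * (8 * B) ^ 2 * h)
      ≤ 4 * inner ℝ (W * W * y) (X 2 * (y - Sh h y)) := by linarith [t3.1, t4.2]
  have t7 := mul_le_mul_of_nonneg_left t6 hj
  rw [e1]
  linarith

end Pool.Agent.Lib.MP_2fa2a2_gt.PI
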