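import Pool.Agent.Lib.MP_2fa2a2_gt.PI.Tau
import Pool.Agent.Lib.MP_2fa2a2_gt.PI.Leib
import Pool.Agent.Lib.MP_2fa2a2_gt.PI.Comm

/-! The wave part of the transport estimate. -/

namespace Pool.Agent.Lib.MP_2fa2a2_gt.PI

/-- size of the coefficients of the wave part -/
def esttF (s c : ℝ) (kb F : Sm) : Prop :=
  ∀ x, s ^ 3 * |F x| ≤ c * (kb x ^ 2 + s ^ 4 + s ^ 3 * qq x ^ 2)

/-- admissible first factor -/
def esttA (s M N : ℝ) (kb W A : Sm) : Prop :=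
  ‖A‖ ≤ M ∧ ‖kb * A‖ ≤ M * s ^ 2 ∧ ‖qq * W * A‖ ≤ N + M * s ^ 2

/-- admissible second factor -/
def esttC (s M N : ℝ) (kb W Γ : Sm) : Prop :=
  ‖Γ‖ ≤ M ∧ ‖kb * Γ‖ ≤ M * s ^ 2 ∧ ∃ Γ', ‖Γ - W * Γ'‖ ≤ M * s ^ 2 ∧ ‖qq * Γ'‖ ≤ N + M * s ^ 2

section
variable {s c c' M M' N N' : ℝ} {kb W F F' A Γ u f g y v : Sm}

theorem esttF.add (hs : 0 < s) (h : esttF s c kb F) (h' : esttF s c' kb F') :
    esttF s (c + c') kb (F + F') := fun x => by
  have := mul_le_mul_of_nonneg_left (abs_add_le (F x) (F' x)) (pow_pos hs 3).le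
  rw [Sm.add_apply]
  linarith [h x, h' x]

theorem esttF.sub (hs : 0 < s) (h : esttF s c kb F) (h' : esttF s c' kb F') :
    esttF s (c + c') kb (F - F') := fun x => by
  have := mul_le_mul_of_nonneg_left (abs_sub (F x) (F' x)) (pow_pos hs 3).le
  rw [Sm.sub_apply]
  linarith [h x, h' x]

theorem esttF.mul (hs : 0 < s) (hu : ∀ x, |u x| ≤ 1) (h : esttF s c kb F) :
    esttF s c kb (u * F) := fun x => by
  rw [Sm.mul_apply, abs_mul]
  exact (mul_le_mul_of_nonneg_left (mul_le_of_le_one_left (abs_nonneg _) (hu x))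
    (pow_pos hs 3).le).trans (h x)

theorem estt_F_D (hs : 0 < s) (h : ∀ a, esttF s c kb (L a f)) (a : Fin 3) :
    esttF s (c + c) kb (D a f) :=
  ((h _).mul hs (abs_X_le _)).sub hs ((h _).mul hs (abs_X_le _))

theorem estt_F_DD (hs : 0 < s) (h : ∀ a, esttF s c kb (L a f))
    (h' : ∀ a b, esttF s c kb (L a (L b f))) (a b : Fin 3) :
    esttF s (8 * c) kb (D b (D a f)) := by
  have a1 : ∀ d e i, esttF s (c + c) kb (L d (X e * L i f)) := fun d e i => by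
    rw [L_mul]
    exact ((h _).mul hs (commx_CbL (k := 0) (Cb_X le_rfl 1 e) d).abs_le).add hs
      ((h' _ _).mul hs (abs_X_le _))
  have a2 : ∀ d, esttF s (c + c + (c + c)) kb (L d (D a f)) := fun d => by
    rw [D_def, map_sub]
    exact (a1 _ _ _).sub hs (a1 _ _ _)
  convert estt_F_D hs a2 b using 1
  ring

theorem esttC.mono (h : esttC s M N kb W Γ) (hM : M ≤ M') : esttC s M' N kb W Γ := by
  obtain ⟨h1, h2, Γ', h3, h4⟩ := h
  have := mul_le_mul_of_nonneg_right hM (sq_nonneg s)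
  exact ⟨h1.trans hM, h2.trans this, Γ', h3.trans this, by linarith⟩

theorem estt_C_small {B T : ℝ} (hs : 0 < s) (hs1 : s ≤ 1) (hN : 0 ≤ N) (hB : 1 ≤ B) (hT : 0 ≤ T)
    (hk : ∀ x, |kb x| ≤ B) (h : ‖Γ‖ ≤ T * s ^ 2) : esttC s (B * T) N kb W Γ := by
  have a1 : T * s ^ 2 ≤ B * T * s ^ 2 := by
    rw [mul_assoc]
    exact le_mul_of_one_le_left (by positivity) hB
  have a2 : B * T * s ^ 2 ≤ B * T := mul_le_of_le_one_right (by positivity) (pow_le_one₀ hs.le hs1)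
  refine ⟨h.trans (a1.trans a2), (norm_mul_le hk _).trans ?_, 0, ?_, ?_⟩
  · rw [mul_assoc]
    gcongr
  · rw [mul_zero, sub_zero]
    exact h.trans a1
  · rw [mul_zero, norm_zero]
    positivity

theorem estt_real2 {s a g e k q w g' : ℝ} (hs : 0 < s) (q0 : 0 ≤ q) (q1 : q ≤ 1)
    (he : e = g - w * g') :
    (k ^ 2 + s ^ 4 + s ^ 3 * q ^ 2) * |a * g| ≤ ((k * a) ^ 2 + (k * g) ^ 2) / 2
      + s ^ 4 * (a ^ 2 + g ^ 2) / 2 + (s ^ 4 * a ^ 2 + s ^ 2 * e ^ 2) / 2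
      + s ^ 3 * ((q * w * a) ^ 2 + (q * g') ^ 2) / 2 := by
  have am : ∀ u v : ℝ, |u * v| ≤ (u ^ 2 + v ^ 2) / 2 := fun u v => by
    rw [abs_le]
    constructor <;> nlinarith [sq_nonneg (u + v), sq_nonneg (u - v)]
  have a1 := mul_le_mul_of_nonneg_left (am a g) (sq_nonneg k)
  have a2 := mul_le_mul_of_nonneg_left (am a g) (pow_pos hs 4).le
  have a3 : q ^ 2 * |a * g| ≤ |a * e| + |q * w * a * (q * g')| := by
    rw [← abs_of_nonneg (sq_nonneg q), ← abs_mul,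
      show q ^ 2 * (a * g) = q ^ 2 * (a * e) + q * w * a * (q * g') by rw [he]; ring]
    refine (abs_add_le _ _).trans (add_le_add_left ?_ _)
    rw [abs_mul, abs_of_nonneg (sq_nonneg q)]
    exact mul_le_of_le_one_left (abs_nonneg _) (pow_le_one₀ q0 q1)
  have a4 := mul_le_mul_of_nonneg_left a3 (pow_pos hs 3).le
  have a5 := mul_le_mul_of_nonneg_left (am (q * w * a) (q * g')) (pow_pos hs 3).le
  have a6 := mul_le_mul_of_nonneg_left (am (s * a) e) (pow_pos hs 2).le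
  rw [mul_assoc s, abs_mul s, abs_of_pos hs] at a6
  linarith

theorem estt_pair (hs : 0 < s) (hs1 : s ≤ 1) (hc : 0 ≤ c) (hF : esttF s c kb F)
    (hA : esttA s M N kb W A) (hC : esttC s M N' kb W Γ) :
    |I (F * A * Γ)| ≤ c * (N ^ 2 + N' ^ 2 + 5 * M ^ 2 * s) := by
  obtain ⟨a1, a2, a3⟩ := hA
  obtain ⟨b1, b2, Γ', b3, b4⟩ := hC
  have hM : 0 ≤ M := (norm_nonneg _).trans a1
  have t1 : |I (s ^ 3 • (F * A * Γ))| ≤ I ((c / 2) • (kb * A * (kb * A) + kb * Γ * (kb * Γ)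
      + s ^ 4 • (A * A + Γ * Γ) + (s ^ 4 • (A * A) + s ^ 2 • ((Γ - W * Γ') * (Γ - W * Γ')))
      + s ^ 3 • (qq * W * A * (qq * W * A) + qq * Γ' * (qq * Γ')))) := abs_I_le fun x => by
    have h := abs_le.1 (abs_X_le 2 x)
    have e : qq x = 1 - X 2 x * X 2 x := rfl
    have c1 := mul_le_mul_of_nonneg_left (estt_real2 (a := A x) (g := Γ x) (k := kb x) (q := qq x)
      (w := W x) (g' := Γ' x) hs (by nlinarith [h.1, h.2]) (by nlinarith [sq_nonneg (X 2 x)]) rfl) hc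
    have c2 := mul_le_mul_of_nonneg_right (hF x) (abs_nonneg (A x * Γ x))
    simp only [Sm.mul_apply, Sm.add_apply, Sm.smul_apply, Sm.sub_apply]
    rw [abs_mul, abs_of_pos (pow_pos hs 3), mul_assoc (F x), abs_mul (F x)]
    linarith
  simp only [map_smul, map_add, ← norm_sq_eq, smul_eq_mul] at t1
  rw [abs_mul, abs_of_pos (pow_pos hs 3)] at t1
  refine le_of_mul_le_mul_left (t1.trans ?_) (pow_pos hs 3)
  have s2 : s ^ 2 ≤ 1 := pow_le_one₀ hs.le hs1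
  have s3 : s ^ 3 ≤ 1 := pow_le_one₀ hs.le hs1
  have d1 : ‖qq * W * A‖ ^ 2 ≤ 2 * N ^ 2 + 2 * (M * s ^ 2) ^ 2 :=
    (pow_le_pow_left₀ (norm_nonneg _) a3 2).trans (by nlinarith [sq_nonneg (N - M * s ^ 2)])
  have d2 : ‖qq * Γ'‖ ^ 2 ≤ 2 * N' ^ 2 + 2 * (M * s ^ 2) ^ 2 :=
    (pow_le_pow_left₀ (norm_nonneg _) b4 2).trans (by nlinarith [sq_nonneg (N' - M * s ^ 2)])
  have d3 : 0 ≤ M ^ 2 * s ^ 4 := by positivity
  calc _ ≤ c / 2 * ((M * s ^ 2) ^ 2 + (M * s ^ 2) ^ 2 + s ^ 4 * (M ^ 2 + M ^ 2)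
        + (s ^ 4 * M ^ 2 + s ^ 2 * (M * s ^ 2) ^ 2)
        + s ^ 3 * (2 * N ^ 2 + 2 * (M * s ^ 2) ^ 2 + (2 * N' ^ 2 + 2 * (M * s ^ 2) ^ 2))) := by
        gcongr
    _ = c * (s ^ 3 * (N ^ 2 + N' ^ 2) + 5 / 2 * (M ^ 2 * s ^ 4) + M ^ 2 * s ^ 4 * s ^ 2 / 2
        + 2 * (M ^ 2 * s ^ 4 * s ^ 3)) := by ring
    _ ≤ c * (s ^ 3 * (N ^ 2 + N' ^ 2) + 5 / 2 * (M ^ 2 * s ^ 4) + M ^ 2 * s ^ 4 * 1 / 2
        + 2 * (M ^ 2 * s ^ 4 * 1)) := by gcongr
    _ = _ := by ring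

theorem estt_s3 {F : Fin 3 → ℝ} {A : ℝ} (h : ∀ a, |F a| ≤ A) : |∑ a, F a| ≤ 3 * A := by
  have a2 : |∑ a, F a| ≤ ∑ _a : Fin 3, A :=
    (Finset.abs_sum_le_sum_abs _ _).trans (Finset.sum_le_sum fun a _ => h a)
  simpa using a2

theorem estt_tb (hs : 0 < s) (hs1 : s ≤ 1) (hc : 0 ≤ c) (hF : ∀ a, esttF s c kb (L a f))
    (hA : ∀ a b, esttA s M N kb W (H a b (Dp y))) (hC : ∀ a, esttC s M N' kb W (L a g)) :
    |tb f g y| ≤ 36 * c * (N ^ 2 + N' ^ 2 + 5 * M ^ 2 * s) := by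
  rw [tb_def, beta_def, Hv]
  simp only [map_sum, gr]
  refine (estt_s3 fun a => estt_s3 (A := 4 * c * (N ^ 2 + N' ^ 2 + 5 * M ^ 2 * s))
    fun b => ?_).trans (le_of_eq (by ring))
  have t := fun i e => estt_pair hs hs1 (add_nonneg hc hc)
    ((estt_F_D hs hF a).mul hs (abs_X_le i)) (hA a b) (hC e)
  rw [show H a b (Dp y) * D a f * D b g = X (b + 2) * D a f * H a b (Dp y) * L (b + 1) g
    - X (b + 1) * D a f * H a b (Dp y) * L (b + 2) g by rw [D_def b g]; ring, map_sub]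
  exact (abs_sub _ _).trans ((add_le_add (t _ _) (t _ _)).trans (le_of_eq (by ring)))

theorem estt_self (hs : 0 < s) (hs1 : s ≤ 1) (hc : 0 ≤ c) (hy : y ∈ Ev)
    (hF : ∀ a, esttF s c kb ((s ^ 2)⁻¹ • L a f)) (hF' : ∀ a b, esttF s c kb (L a (L b f)))
    (hA : ∀ a b, esttA s M N kb W (H a b (Dp y))) (hA' : esttA s M N kb W y)
    (hC : esttC s M N' kb W (v * y)) (hC' : ∀ a, esttC s M N' kb W (s ^ 2 • (L a v * y))) :
    |tb f (v * y) y| ≤ 75 * c * (N ^ 2 + N' ^ 2 + 5 * M ^ 2 * s) := by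
  have h2 : 0 < s ^ 2 := pow_pos hs 2
  have hF1 : ∀ a, esttF s c kb (L a f) := fun a => by
    have := (hF a).mul (u := algebraMap ℝ Sm (s ^ 2)) hs fun x => by
      rw [Sm.algebraMap_apply, abs_of_pos h2]
      exact pow_le_one₀ hs.le hs1
    rwa [← Algebra.smul_def, smul_smul, mul_inv_cancel₀ h2.ne', one_smul] at this
  have t1 : ∀ a, |I (v * y * (L a f * L a y))| ≤ c * (N ^ 2 + N' ^ 2 + 5 * M ^ 2 * s) := fun a => by
    have a1 := estt_pair hs hs1 hc (hF a) hA' (hC' a)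
    have a2 := estt_pair hs hs1 hc (hF' a a) hA' hC
    rw [smul_mul_assoc, smul_mul_smul_comm, inv_mul_cancel₀ h2.ne', one_smul] at a1
    have a6 := I_L a (v * L a f * y * y)
    have a7 : L a (v * L a f * y * y) = L a f * y * (L a v * y) + L a (L a f) * y * (v * y)
        + (v * y * (L a f * L a y) + v * y * (L a f * L a y)) := by
      rw [L_mul a _ y, L_mul a _ y, L_mul]
      ring
    rw [a7, map_add, map_add, map_add] at a6
    rw [abs_le] at a1 a2 ⊢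
    constructor <;> linarith [a1.1, a1.2, a2.1, a2.2]
  have t2 : ∀ a b, |I (v * y * (H a b (Dp y) * D b (D a f)))|
      ≤ 8 * c * (N ^ 2 + N' ^ 2 + 5 * M ^ 2 * s) := fun a b => by
    rw [show v * y * (H a b (Dp y) * D b (D a f)) = D b (D a f) * H a b (Dp y) * (v * y) by ring]
    exact estt_pair hs hs1 (by positivity) (estt_F_DD hs hF1 hF' a b) (hA a b) hC
  rw [tb_def, beta_eq, abs_neg, Dop_Dp_Ev hy, mul_add, map_add, gd]
  simp only [Finset.mul_sum, map_sum]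
  exact (abs_add_le _ _).trans ((add_le_add (estt_s3 t1) (estt_s3 fun a => estt_s3 (t2 a))).trans
    (le_of_eq (by ring)))
end

theorem estt_Cd (j : ℕ) {B : ℝ} (hB : 1 ≤ B) : ∃ M, 0 ≤ M ∧ ∀ {s N : ℝ} {kb W p φ : Sm},
    0 < s → s ≤ 1 → Cb (2 * j + 2) 1 B kb → Cb (2 * j + 2) 1 B W → ‖p‖ ≤ B →
    ‖kb * p‖ ≤ B * s ^ 2 → ‖qq * p‖ ≤ N → ‖φ - W * p‖ ≤ B * s ^ 2 →
    ∀ w : List (Fin 3), w.length ≤ 2 * j →
      esttC s M N kb W ((s ^ 2) ^ w.length • Lw w (DI (s ^ 2) j φ)) := by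
  obtain ⟨C, h1, H1⟩ := comm_DI j
  obtain ⟨Q, h2, H2⟩ := exists_Cb (2 * j + 2) qq
  refine ⟨2 * B ^ 2 + C * B * (2 * B ^ 2) + C * Q * B, by positivity,
    fun {s N kb W p φ} hs hs1 hk hW hp hkp hqp hE w hw => ?_⟩
  have hh : 0 < s ^ 2 := pow_pos hs 2
  have hh1 : s ^ 2 ≤ 1 := pow_le_one₀ hs.le hs1
  set h := s ^ 2
  set T : Sm →ₗ[ℝ] Sm := h ^ w.length • (Lw w ∘ₗ DI h j) with hT
  have T0 : ∀ u, ‖T u‖ ≤ ‖u‖ := fun u => by
    show ‖h ^ w.length • Lw w (DI h j u)‖ ≤ _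
    rw [norm_smul, Real.norm_of_nonneg (by positivity)]
    exact norm_Lw_DI hh.le hw u
  have T1 : ∀ {B : ℝ} {v : Sm} (u : Sm), Cb (2 * j + 2) 1 B v →
      ‖v * T u - T (v * u)‖ ≤ C * B * h * ‖u‖ := fun {B v} u hv => by
    show ‖v * h ^ w.length • Lw w (DI h j u) - h ^ w.length • Lw w (DI h j (v * u))‖ ≤ _
    rw [mul_smul_comm, ← smul_sub, norm_smul, Real.norm_of_nonneg (by positivity)]
    exact H1 u hh hh1 hv hw
  have T2 : ∀ {B : ℝ} {v : Sm} (u : Sm), Cb (2 * j + 2) 1 B v →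
      ‖v * T u‖ ≤ ‖v * u‖ + C * B * h * ‖u‖ := fun {B v} u hv => by
    have := norm_add_le (T (v * u)) (v * T u - T (v * u))
    rw [add_sub_cancel] at this
    exact this.trans (add_le_add (T0 _) (T1 u hv))
  have b1 : B ≤ B ^ 2 := by nlinarith
  have b0 : 0 ≤ B := by linarith
  have hφ : ‖φ‖ ≤ 2 * B ^ 2 := by
    have a1 := norm_add_le (W * p) (φ - W * p)
    have a2 := (norm_mul_le hW.abs_le p).trans (mul_le_mul_of_nonneg_left hp b0)
    have a3 : B * h ≤ B := mul_le_of_le_one_right b0 hh1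
    rw [add_sub_cancel] at a1
    linarith
  have hkφ : ‖kb * φ‖ ≤ 2 * B ^ 2 * h := by
    have a1 := norm_add_le (W * (kb * p)) (kb * (φ - W * p))
    have a2 := (norm_mul_le hW.abs_le _).trans (mul_le_mul_of_nonneg_left hkp b0)
    have a3 := (norm_mul_le hk.abs_le _).trans (mul_le_mul_of_nonneg_left hE b0)
    rw [show W * (kb * p) + kb * (φ - W * p) = kb * φ by ring] at a1
    linarith
  have c1 : 0 ≤ C * B * (2 * B ^ 2) := by positivity
  have c2 : 0 ≤ C * Q * B := by positivity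
  have c3 := mul_nonneg c1 hh.le
  have c4 := mul_nonneg c2 hh.le
  have c5 : 0 ≤ B ^ 2 * h := by positivity
  show esttC s _ N kb W (T φ)
  refine ⟨(T0 φ).trans (by linarith), ?_, T p, ?_, ?_⟩
  · have a1 : C * B * h * ‖φ‖ ≤ C * B * h * (2 * B ^ 2) := by gcongr
    have a2 := T2 φ hk
    linarith
  · have a1 := norm_sub_le (T (φ - W * p)) (W * T p - T (W * p))
    rw [show T (φ - W * p) - (W * T p - T (W * p)) = T φ - W * T p by rw [map_sub]; ring] at a1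
    have a2 : C * B * h * ‖p‖ ≤ C * B * h * B ^ 2 := by gcongr; linarith
    have a3 := mul_le_mul_of_nonneg_right b1 hh.le
    have a4 := T0 (φ - W * p)
    have a5 := T1 p hW
    linarith
  · have a1 : C * Q * h * ‖p‖ ≤ C * Q * h * B := by gcongr
    have a2 := T2 p H2
    linarith

theorem estt_wave (j : ℕ) (hj : 1 ≤ j) : ∃ Cj, 0 ≤ Cj ∧ ∀ B : ℝ, 1 ≤ B → ∃ C, 0 ≤ C ∧
    ∀ {s B0 : ℝ} {y kb W ai f φ : Sm}, 0 < s → s ≤ 1 → 0 ≤ B0 → y ∈ Ev → ‖y‖ ≤ 1 →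
    Cb (2 * j + 2) 1 B kb → Cb (2 * j + 2) 1 B W → Cb 1 1 B ai → (∀ x, |ai x| ≤ B0) →
    ‖kb * y‖ ≤ B * s ^ 2 → (∀ a b, ‖kb * H a b (Dp y)‖ ≤ B * s ^ 2) →
    (∀ a b, ‖qq * W * H a b (Dp y)‖ ≤ ‖qq * W * y‖ + B * s ^ 2) →
    ‖φ - ai * (W * W * y)‖ ≤ B * s ^ 2 → (∀ c, ‖L c (φ - ai * (W * W * y))‖ ≤ B) →
    (∀ w : List (Fin 3), w.length ≤ 2 * j + 1 →
      esttF s B0 kb (((s ^ 2) ^ w.length / (s ^ 2) ^ 2) • Lw w f)) →
    |tb f (DI (s ^ 2) j φ) (DD (s ^ 2) j y)|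
      ≤ Cj * B0 * ((1 + B0 ^ 2) * ‖qq * W * y‖ ^ 2 + C * s) := by
  obtain ⟨C, h1, H1⟩ := leib_form j
  refine ⟨36 * C + 111, by positivity, fun B hB => ?_⟩
  have b3 : 1 ≤ B ^ 3 := one_le_pow₀ hB
  obtain ⟨M0, h2, H2⟩ := estt_Cd j b3
  refine ⟨5 * (M0 + 4 * B ^ 4) ^ 2, by positivity,
    fun {s B0 y kb W ai f φ} hs hs1 h0 hy hn hk hW hi hi0 hky hkH hqH hE hE' hF => ?_⟩
  have hh : 0 < s ^ 2 := pow_pos hs 2
  have b0 : 0 ≤ B := by linarith
  have p1 : B ≤ B ^ 3 := le_self_pow₀ hB (by norm_num)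
  have p2 : B ^ 2 ≤ B ^ 3 := pow_le_pow_right₀ hB (by norm_num)
  have p4 : B ^ 3 ≤ B ^ 4 := pow_le_pow_right₀ hB (by norm_num)
  set N := ‖qq * W * y‖ with hN
  set M := M0 + 4 * B ^ 4 with hM
  have hN0 : 0 ≤ B0 * N := by positivity
  have hBM : B * s ^ 2 ≤ M * s ^ 2 := mul_le_mul_of_nonneg_right (by linarith) hh.le
  have A1 : ∀ a b, esttA s M N kb W (H a b (Dp y)) := fun a b =>
    ⟨(norm_H_Dp a b y).trans (by linarith), (hkH a b).trans hBM, (hqH a b).trans (by linarith)⟩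
  have A2 : esttA s M N kb W y :=
    ⟨hn.trans (by linarith), hky.trans hBM, le_add_of_nonneg_right (by positivity)⟩
  have m2 : ∀ u, ‖ai * (W * u)‖ ≤ B ^ 2 * ‖u‖ := fun u =>
    (norm_mul_le hi.abs_le _).trans ((mul_le_mul_of_nonneg_left (norm_mul_le hW.abs_le u) b0).trans
      (le_of_eq (by ring)))
  have q1 : ‖ai * (W * y)‖ ≤ B ^ 2 := (m2 y).trans (mul_le_of_le_one_right (by positivity) hn)
  have q2 : ‖kb * (ai * (W * y))‖ ≤ B ^ 3 * s ^ 2 := by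
    rw [show kb * (ai * (W * y)) = ai * (W * (kb * y)) by ring]
    exact (m2 _).trans ((mul_le_mul_of_nonneg_left hky (by positivity)).trans (le_of_eq (by ring)))
  have q3 : ‖qq * (ai * (W * y))‖ ≤ B0 * N := by
    rw [show qq * (ai * (W * y)) = ai * (qq * W * y) by ring]
    exact norm_mul_le hi0 _
  have C1 := fun w hw => (H2 (φ := φ) hs hs1 (hk.mono zero_le_one le_rfl le_rfl p1)
    (hW.mono zero_le_one le_rfl le_rfl p1) (q1.trans p2) q2 q3 (by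
      rw [show W * (ai * (W * y)) = ai * (W * W * y) by ring]
      exact hE.trans (mul_le_mul_of_nonneg_right p1 hh.le)) w hw).mono
    (le_add_of_nonneg_right (by positivity) : M0 ≤ M)
  have C2 : esttC s M (B0 * N) kb W (ai * (W * W) * y) := by
    refine ⟨?_, ?_, ai * (W * y), ?_, q3.trans (le_add_of_nonneg_right (by positivity))⟩
    · rw [show ai * (W * W) * y = W * (ai * (W * y)) by ring]
      refine (norm_mul_le hW.abs_le _).trans ((mul_le_mul_of_nonneg_left q1 b0).trans ?_)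
      linarith
    · rw [show kb * (ai * (W * W) * y) = W * (kb * (ai * (W * y))) by ring]
      refine (norm_mul_le hW.abs_le _).trans ((mul_le_mul_of_nonneg_left q2 b0).trans ?_)
      rw [← mul_assoc]
      exact mul_le_mul_of_nonneg_right (by nlinarith) hh.le
    · rw [show ai * (W * W) * y - W * (ai * (W * y)) = 0 by ring, norm_zero]
      positivity
  have C3 : ∀ a, esttC s M (B0 * N) kb W (s ^ 2 • (L a (ai * (W * W)) * y)) := fun a => by
    have w1 : Cb 1 1 B W := commx_Cb_mono hW (by omega)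
    have w2 := (commx_CbL (k := 0) (hi.mul zero_le_one (w1.mul zero_le_one w1)) a).abs_le
    refine (estt_C_small (T := 4 * B ^ 3) hs hs1 hN0 hB (by positivity) hk.abs_le ?_).mono
      (by linarith)
    rw [norm_smul, Real.norm_of_nonneg hh.le, mul_comm]
    refine mul_le_mul_of_nonneg_right ((norm_mul_le w2 y).trans ?_) hh.le
    exact (mul_le_of_le_one_right (by positivity) hn).trans (le_of_eq (by ring))
  have C4 : ∀ a, esttC s M (B0 * N) kb W (L a (s ^ 2 • (φ - ai * (W * W * y)))) := fun a => by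
    refine (estt_C_small (T := B) hs hs1 hN0 hB b0 hk.abs_le ?_).mono (by linarith)
    rw [map_smul, norm_smul, Real.norm_of_nonneg hh.le, mul_comm]
    exact mul_le_mul_of_nonneg_right (hE' a) hh.le
  have F1 : ∀ a, esttF s B0 kb ((s ^ 2)⁻¹ • L a f) := fun a => by
    have := hF [a] (by simp)
    rwa [List.length_singleton, show (s ^ 2) ^ 1 / (s ^ 2) ^ 2 = (s ^ 2)⁻¹ by field_simp] at this
  have F2 : ∀ a b, esttF s B0 kb (L a (L b f)) := fun a b => by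
    have := hF [a, b] (by simp; omega)
    rwa [show [a, b].length = 2 from rfl, div_self (by positivity), one_smul] at this
  have t1 := estt_self hs hs1 h0 hy F1 F2 A1 A2 C2 C3
  have t2 := estt_tb (f := (s ^ 2)⁻¹ • f) hs hs1 h0 (fun a => by rw [map_smul]; exact F1 a) A1 C4
  have t3 := H1 (b := tb) (h := s ^ 2) (f := f) (g := φ) (y := y)
    (Y := 36 * B0 * (N ^ 2 + (B0 * N) ^ 2 + 5 * M ^ 2 * s)) tb_L hh.le fun v w hv hl => by
      have hv' : 1 ≤ v.length := List.length_pos_iff.2 hv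
      have a1 := estt_tb (f := ((s ^ 2) ^ (v.length + 1) / (s ^ 2) ^ 2) • Lw v f)
        (g := (s ^ 2) ^ (w.length + 1) • Lw w (DI (s ^ 2) j φ)) hs hs1 h0
        (fun a => by rw [map_smul]; exact hF (a :: v) (by simp; omega)) A1
        (fun a => by rw [map_smul]; exact C1 (a :: w) (by simp; omega))
      simp only [map_smul, LinearMap.smul_apply, smul_eq_mul] at a1
      rw [← mul_assoc, abs_mul, abs_of_nonneg (by positivity)] at a1
      convert a1 using 2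
      field_simp
      ring
  simp only [map_smul, LinearMap.smul_apply, smul_eq_mul] at t2
  rw [← mul_assoc, mul_inv_cancel₀ hh.ne', one_mul, map_sub, LinearMap.sub_apply,
    ← mul_assoc ai] at t2
  rw [abs_le] at t1 t2 t3 ⊢
  constructor <;> linarith [t1.1, t1.2, t2.1, t2.2, t3.1, t3.2]

end Pool.Agent.Lib.MP_2fa2a2_gt.PI
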