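import Pool.Agent.Lib.MP_2fa2a2_gt.PI.SLoc
import Pool.Agent.Lib.MP_2fa2a2_gt.PI.Comm
import Pool.Agent.Lib.MP_2fa2a2_gt.PI.Pole
import Pool.Agent.Lib.MP_2fa2a2_gt.PI.EstTX
import Pool.Agent.Lib.MP_2fa2a2_gt.PI.EstTY
import Pool.Agent.Lib.MP_2fa2a2_gt.PI.EstTZ
import Pool.Agent.Lib.MP_2fa2a2_gt.PI.EstTW

namespace Pool.Agent.Lib.MP_2fa2a2_gt.PI

theorem estt_XN {d : LD} {y : Sm} {t : ℝ} (hy : y ∈ Ev) (h : XN d y ≤ t) :
    ‖d.kb * y‖ ≤ 2 * t ∧ ∀ a b, ‖d.kb * H a b (Dp y)‖ ≤ t := by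
  have a1 : ∀ u : Sm, (∀ x, u x ^ 2 ≤ Hn (Dp y) x) → ‖d.kb * u‖ ≤ t := fun u hu => by
    refine le_trans ((le_abs_self _).trans (Real.abs_le_sqrt ?_)) h
    rw [norm_sq_eq]
    refine I_mono fun x => ?_
    have := mul_le_mul_of_nonneg_left (hu x) (mul_self_nonneg (d.kb x))
    simp only [Sm.mul_apply]
    linarith
  refine ⟨?_, fun a b => a1 _ (estt_H_sq a b _)⟩
  have a2 := a1 ((1 / 2 : ℝ) • y) fun x => by
    have := Dop_sq_le (Dp y) x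
    rw [Dop_Dp_Ev hy] at this
    rw [Sm.smul_apply]
    nlinarith [sq_nonneg (y x)]
  rw [mul_smul_comm, norm_smul, Real.norm_of_nonneg (by norm_num)] at a2
  linarith

theorem estt_XZ {y : Sm} {t : ℝ} (h : XZ y ≤ t) (b : Fin 3) : ‖H 2 b (Dp y)‖ ≤ t := by
  refine le_trans ((le_abs_self _).trans (Real.abs_le_sqrt ?_)) h
  have e : ∀ a, ∑ c, H a c (Dp y) * gr (X 2) c = H 2 a (Dp y) := fun a => by
    have s := sum_X_H a (Dp y)
    simp only [gr, D_X, Fin.sum_univ_three, alg_kd, H_symm a] at s ⊢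
    rw [alg_kd_ne (a := 0) (b := 2) (by decide), alg_kd_ne (a := 1) (b := 2) (by decide)]
    linear_combination (-X 2) * s
  rw [norm_sq_eq]
  refine I_mono fun x => ?_
  simp only [Hsq, e, Sm.sum_apply, Sm.mul_apply]
  exact Finset.single_le_sum (f := fun a => H 2 a (Dp y) x * H 2 a (Dp y) x)
    (fun _ _ => mul_self_nonneg _) (Finset.mem_univ b)

theorem estt_split {m N : ℕ} {y : Sm} (hm : 100 ≤ m) (hy : y ∈ Ev) (hi : y ∈ Zi m)
    (hp : y ∈ Poly N) (hn : ‖y‖ ≤ 1) : ∃ ψ0 : Sm, (∀ x, zav (Dp y) x = ψ0 x) ∧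
      nrm 1 1 (Dp y - ψ0) ≤ 64 / m ∧ ‖Dop ψ0‖ ≤ 1 ∧ Zon (Dop ψ0) ∧
      ∀ x, zav (y - Dop ψ0 : Sm) x = 0 := by
  obtain ⟨p, -, h0⟩ := zav_Poly (φ := Dp y) (fn_mem_Poly _ hp)
  have hz := Zon_Zf fun t => p.eval t
  generalize Zf (fun t => p.eval t) = ψ0 at h0 hz
  have z1 : Zon (Dop ψ0) := hz.lap.add (hz.smul 2)
  have z2 : ∀ x, zav y x = Dop ψ0 x := fun x => by
    have e : ∀ ψ : Sm, Dop ψ = lap ψ + (2 : ℝ) • ψ := fun _ => rfl
    conv_lhs => rw [← Dop_Dp_Ev hy]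
    rw [e, e, fnx_zav_add, fnx_zav_smul, zav_lap h0, h0, Sm.add_apply, Sm.smul_apply]
  have z3 : ‖Dop ψ0‖ ≤ 1 := by
    have := I_zav_le z2 (W := 1) (fun _ => zero_le_one) Zon_one
    rw [one_mul, one_mul, ← norm_sq_eq, ← norm_sq_eq] at this
    exact (nrmx_sq this (norm_nonneg _)).trans hn
  refine ⟨ψ0, h0, ?_, z3, z1, fun x => by rw [circ_zav_sub, z2, z1.zav, sub_self]⟩
  have hm0 : (0 : ℝ) < m := by exact_mod_cast (by omega : 0 < m)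
  have a1 := (nonzonal_small (by omega) (ψ := Dp y - ψ0)
    (Submodule.sub_mem _ (fn_mem_Zi _ hi) (hz.mem_Zi m))
    fun x => by rw [circ_zav_sub, h0, hz.zav, sub_self]).resolve_right (by omega)
  rw [← norm_sq_eq, map_sub, Dop_Dp_Ev hy] at a1
  have a2 := pow_le_pow_left₀ (norm_nonneg _) ((norm_sub_le y _).trans (add_le_add hn z3)) 2
  rw [le_div_iff₀ hm0]
  refine nrmx_sq ?_ (by norm_num)
  rw [mul_pow]
  linarith

theorem estt_go {B : ℝ} (hB : 1 ≤ B) : ∃ C, 0 ≤ C ∧ ∀ {t : ℝ} {go v E y : Sm}, y ∈ Ev → ‖y‖ ≤ 1 →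
    nrm 1 8 go ≤ t → Cb 1 1 B v → ‖E‖ ≤ B → (∀ c, ‖L c E‖ ≤ B) →
    |tb go (E + v * y) y| ≤ C * t := by
  obtain ⟨C1, h1, H1⟩ := abs_tb_self
  obtain ⟨C2, h2, H2⟩ := sobolev
  have b0 : 0 ≤ B := by linarith
  refine ⟨3 * C2 * (4 * B) + C1 * C2 * B, by positivity, fun {t go v E y} hy hn hg hv hE hE' => ?_⟩
  have ht : 0 ≤ t := (nrm_nonneg _ _ _).trans hg
  have a1 : Cb 2 1 (C2 * t) go := (H2 2 go).mono zero_le_one le_rfl le_rfl
    (mul_le_mul_of_nonneg_left ((nrm_mono le_rfl (by norm_num) go).trans hg) h2)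
  have a2 : nrm 1 1 E ≤ 4 * B := by
    have := prodx_succ 0 E
    simp only [zero_add, nrm_zero le_rfl, Fin.sum_univ_three] at this
    linarith [hE' 0, hE' 1, hE' 2]
  have a3 : |tb go E y| ≤ 3 * (C2 * t) * (4 * B) * 1 :=
    (abs_tb_le (fun a => (commx_CbL (k := 1) a1 a).abs_le) E y).trans (by gcongr)
  have a4 : |tb go (v * y) y| ≤ C1 * (C2 * t) * B * 1 ^ 2 := (H1 hy a1 hv).trans (by gcongr)
  rw [map_add, LinearMap.add_apply]
  linarith [abs_add_le (tb go E y) (tb go (v * y) y)]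

theorem estt_s {Λ C ε m : ℝ} (hΛ : 1 ≤ Λ) (hC : 1 ≤ C) (e0 : 0 < ε) (e1 : ε ≤ 1) (hm1 : 1 ≤ m)
    (a1 : (C / ε ^ 2) ^ 2 ≤ m) : ∃ s : ℝ, 0 < s ∧ s ^ 2 = (Λ * m)⁻¹ ∧ 1 / m = Λ * s ^ 2 ∧
      C * s ≤ ε ^ 2 ∧ s ≤ ε ∧ s ≤ 1 ∧ s ^ 2 ≤ s ∧ 1 / m ^ 2 ≤ Λ * s := by
  have hm0 : (0 : ℝ) < m := by linarith
  obtain ⟨s, hs, hs2⟩ : ∃ s : ℝ, 0 < s ∧ s ^ 2 = (Λ * m)⁻¹ :=
    ⟨√((Λ * m)⁻¹), by positivity, Real.sq_sqrt (by positivity)⟩
  have hh : 0 < s ^ 2 := pow_pos hs 2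
  have he : 1 / (m : ℝ) = Λ * s ^ 2 := by
    rw [hs2]
    field_simp
  have hsε : C * s ≤ ε ^ 2 := by
    have a2 : m * s ^ 2 ≤ 1 := by
      rw [div_eq_iff hm0.ne'] at he
      nlinarith [mul_pos hm0 hh]
    rw [← div_le_one (by positivity)]
    refine nrmx_sq ?_ zero_le_one
    calc _ = (C / ε ^ 2) ^ 2 * s ^ 2 := by ring
      _ ≤ m * s ^ 2 := by gcongr
      _ ≤ _ := by linarith
  have hs1' : s ≤ ε := by nlinarith only [hsε, hC, e0, e1, hs]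
  have hs1 : s ≤ 1 := hs1'.trans e1
  have hss : s ^ 2 ≤ s := by nlinarith only [hs, hs1]
  refine ⟨s, hs, hs2, he, hsε, hs1', hs1, hss, ?_⟩
  calc 1 / (m : ℝ) ^ 2 ≤ 1 / m := one_div_le_one_div_of_le hm0 (by nlinarith only [hm1])
    _ ≤ Λ * s := by rw [he]; gcongr

theorem estT (hZ : EstZStmt) : EstTStmt := by
  intro j C0 τ C1 Λ CX hj hC0 hC1 hΛ
  obtain ⟨CZ, hCZ, HZ⟩ := hZ (2 * j + 10) C0 τ C1 hC0 hC1
  obtain ⟨Bf, hBf, HF⟩ := estt_fw (2 * j + 10) hC0 hC1 hΛ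
  obtain ⟨Ba, HA⟩ := estt_ai (2 * j + 10) hC0
  obtain ⟨Cj, hCj, HW⟩ := estt_wave j hj
  obtain ⟨B0, hB0⟩ : ∃ B0, B0 = Bf + C0 + 2 * C1 := ⟨_, rfl⟩
  have b0 : 0 ≤ B0 := by linarith
  obtain ⟨K, hK⟩ : ∃ K, K = 2 * (j * B0 ^ 2 + Cj * B0 * (1 + B0 ^ 2)) := ⟨_, rfl⟩
  have k0 : 0 ≤ K := by rw [hK]; positivity
  obtain ⟨BW, HV⟩ := estt_W (2 * j + 2) hC1 k0
  obtain ⟨B1, hB1⟩ : ∃ B1, B1 = |BW| + 2 * C1 + C0 + |Ba| + 2 * (|CX| * Λ) + 64 * Λ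
    + CZ * (|CX| * Λ + |CX| * Λ) := ⟨_, rfl⟩
  have u1 := abs_nonneg BW
  have u2 := abs_nonneg Ba
  have u3 : 0 ≤ |CX| * Λ := by positivity
  have u4 : 0 ≤ CZ * (|CX| * Λ + |CX| * Λ) := by positivity
  have u5 := le_abs_self BW
  have u6 := le_abs_self Ba
  have b1 : 1 ≤ B1 := by linarith
  have b1' : 0 ≤ B1 := by linarith
  obtain ⟨Ch, hCh, HH⟩ := estt_hess b1
  obtain ⟨Ce, hCe, HE⟩ := estt_comm j
  obtain ⟨B2, hB2⟩ : ∃ B2, B2 = 4 * B1 ^ 3 + Ch + Ce * B1 * B1 ^ 2 := ⟨_, rfl⟩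
  have u7 : 0 ≤ Ce * B1 * B1 ^ 2 := by positivity
  have p1 : B1 ≤ B1 ^ 3 := le_self_pow₀ b1 (by norm_num)
  have p2 : B1 ^ 2 ≤ B1 ^ 3 := pow_le_pow_right₀ b1 (by norm_num)
  have p3 : B1 ≤ B1 ^ 2 := le_self_pow₀ b1 (by norm_num)
  have b12 : B1 ≤ B2 := by linarith
  have b2 : 1 ≤ B2 := b1.trans b12
  obtain ⟨CG, hCG, HG⟩ := estt_G j B2
  obtain ⟨Cm, hCm, HM⟩ := estt_main j B1
  obtain ⟨Cw, hCw, HW⟩ := HW B2 b2
  obtain ⟨Cg, hCg, HO⟩ := estt_go b2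
  obtain ⟨Cf, hCf, HL⟩ := estt_final (3 * B1 ^ 2) hΛ
  obtain ⟨CQ, hCQ⟩ : ∃ CQ, CQ = 1 + 2 * (Cm + CG + Cj * B0 * Cw + Cg * Λ + B2 * Λ) := ⟨_, rfl⟩
  have cq : 1 ≤ CQ := by
    rw [hCQ]
    exact le_add_of_nonneg_right (by positivity)
  obtain ⟨ε, hε⟩ : ∃ ε, ε = Real.exp (-K) ^ 2 / (8 * (Cf + 1)) := ⟨_, rfl⟩
  have e0 : 0 < ε := by rw [hε]; positivity
  have e1 : ε ≤ 1 := by
    rw [hε, div_le_one (by positivity)]
    have := pow_le_one₀ (n := 2) (Real.exp_pos (-K)).le (Real.exp_le_one_iff.2 (by linarith))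
    linarith
  refine ⟨100 + ⌈(CQ / ε ^ 2) ^ 2⌉₊, fun m hm d go ge y hL hA hN hX => ?_⟩
  obtain ⟨s, hs, hs2, he, hsε, hs1', hs1, hss, hm2⟩ := estt_s (m := m) hΛ cq e0 e1
    (by exact_mod_cast (by omega : 1 ≤ m)) (Nat.ceil_le.1 (by omega))
  have hh : 0 < s ^ 2 := pow_pos hs 2
  have hh1 : s ^ 2 ≤ 1 := hss.trans hs1
  have hCX : CX / m ≤ |CX| * Λ * s ^ 2 := by
    rw [mul_assoc, ← he, mul_one_div]
    gcongr
    exact le_abs_self _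
  have up : ∀ {a b : ℝ}, a ≤ b → a * s ^ 2 ≤ b * s ^ 2 := fun h =>
    mul_le_mul_of_nonneg_right h hh.le
  obtain ⟨k1, -, k3⟩ := estt_kb hL
  obtain ⟨W, w1, w2, w3, w4, w5⟩ := HV d.z0 d.kb hL.core.1 hL.core.2.1 k3
  obtain ⟨ai, i1, i2, i3⟩ := HA hL.a_ge hL.a_Cb
  obtain ⟨N, hp⟩ := hA.poly
  obtain ⟨ψ0, z0, z1, z2, z3, z4⟩ := estt_split (by omega) hA.ev hA.inv hp hA.le
  obtain ⟨n1, n2⟩ := estt_XN hA.ev (hN.trans hCX)
  have n3 := estt_XZ (hX.trans hCX)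
  have n4 : I (qq * Hn ψ0) ≤ (B1 * s ^ 2) ^ 2 := by
    refine (Real.sqrt_le_iff.1 ((HZ m d y ψ0 hL hA.ev hA.poly z0).trans ?_)).2
    refine (mul_le_mul_of_nonneg_left (add_le_add (hN.trans hCX) (hX.trans hCX)) hCZ).trans ?_
    rw [← add_mul, ← mul_assoc]
    exact up (by linarith)
  have n5 : nrm 1 1 (Dp y - ψ0) ≤ B1 * s ^ 2 := by
    refine z1.trans ?_
    rw [← mul_one_div, he, ← mul_assoc]
    exact up (by linarith)
  have n6 : ‖d.kb * y‖ ≤ B1 * s ^ 2 := n1.trans (by rw [← mul_assoc]; exact up (by linarith))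
  have w2' : Cb (2 * j + 2) 1 B1 W := w2.mono zero_le_one le_rfl le_rfl (by linarith)
  have w22 : Cb 2 1 B1 W := commx_Cb_mono w2' (by omega)
  have w21 : Cb 1 1 B1 W := commx_Cb_mono w2' (by omega)
  have i2' : Cb (2 * j + 1) 1 B1 ai := i2.mono zero_le_one (by omega) le_rfl (by linarith)
  have n7 := HH hh.le w22 n5 n4
  rw [add_sub_cancel, Dop_Dp_Ev hA.ev] at n7
  have n8 : ‖W * W * y‖ ≤ B1 ^ 2 := by
    rw [mul_assoc]
    refine (norm_mul_le w22.abs_le _).trans ?_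
    rw [sq]
    exact mul_le_mul_of_nonneg_left ((norm_mul_le w22.abs_le _).trans
      (mul_le_of_le_one_right b1' hA.le)) b1'
  obtain ⟨g1, g2⟩ := HE (W * W * y) hh hh1 i2'
  set φ := DD (s ^ 2) j (ai * DI (s ^ 2) j (W * W * y)) with hφ
  have g3 : ‖φ - ai * (W * W * y)‖ ≤ Ce * B1 * B1 ^ 2 * s ^ 2 := g1.trans (by
    rw [mul_right_comm]
    gcongr)
  have g4 : ∀ c, ‖L c (φ - ai * (W * W * y))‖ ≤ B2 := fun c =>
    (g2 c).trans ((mul_le_mul_of_nonneg_left n8 (by positivity)).trans (by linarith))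
  have g5 : ‖φ - ai * (W * W * y)‖ ≤ Ce * B1 * B1 ^ 2 :=
    g3.trans (mul_le_of_le_one_right u7 hh1)
  have g6 : ‖φ‖ ≤ B2 := by
    have a1 := norm_add_le (φ - ai * (W * W * y)) (ai * (W * W * y))
    have a2 := (norm_mul_le i2'.abs_le _).trans (mul_le_mul_of_nonneg_left n8 b1')
    rw [sub_add_cancel] at a1
    linarith
  have t1 := HG (G := d.G) hh hh1 hA.ev hA.le (n8.trans (by linarith)) i1
    (hL.a_Cb.mono zero_le_one (by omega) le_rfl (by linarith))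
    (hL.G_Cb.mono zero_le_one (by omega) le_rfl (by linarith))
    (i2'.mono zero_le_one le_rfl le_rfl b12) hL.G_grad fun b => (n3 b).trans (up (by linarith))
  have t2 := HM (K := K) (B0 := B0) hh hh1 b0 hA.le w22 n6
    (fun x => (w3 x).trans (add_le_add_right
      (mul_le_mul_of_nonneg_right (by linarith) (sq_nonneg _)) _))
    fun x => (w4 x).trans (mul_le_mul_of_nonneg_right (by linarith) (abs_nonneg _))
  have t3 := HW (f := d.kb * d.kb * d.w2 + d.kb * d.w1 + d.w0) (φ := φ) hs hs1 b0 hA.ev hA.le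
    (k1.mono zero_le_one (by omega) le_rfl (by linarith))
    (w2'.mono zero_le_one le_rfl le_rfl b12) (i2'.mono zero_le_one (by omega) le_rfl b12)
    (fun x => (i3 x).trans (by linarith)) (n6.trans (up b12))
    (fun a b => (n2 a b).trans (up (by linarith)))
    (fun a b => (n7 a b).trans (add_le_add_right (up (by linarith)) _))
    (g3.trans (up (by linarith))) g4 fun w hw x =>
      (HF hL (by omega) hs hs2 w (by omega) x).trans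
        (mul_le_mul_of_nonneg_right (by linarith) (by positivity))
  have t4 := HO (E := φ - ai * (W * W * y)) (v := ai * (W * W)) hA.ev hA.le (hA.go_le.trans hm2)
    (((commx_Cb_mono i2' (by omega)).mul zero_le_one (w21.mul zero_le_one w21)).mono zero_le_one
      le_rfl le_rfl (by linarith)) (g5.trans (by linarith)) g4
  rw [mul_assoc ai, sub_add_cancel] at t4
  have t5 := (hA.eqo φ).trans (mul_le_mul hm2 g6 (norm_nonneg _) (by positivity))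
  rw [← hs2, show d.fo = d.G + (d.kb * d.kb * d.w2 + d.kb * d.w1 + d.w0) by rw [LD.fo]; ring,
    map_add, LinearMap.add_apply, LinearMap.add_apply] at t5
  rw [← DI_DD (s ^ 2) j (ai * _), ← hφ] at t1
  have q0 := estt_Q_nonneg (s ^ 2) ((1 + X 2) * W * y)
  have q1 := mul_le_mul_of_nonneg_right (show (1 : ℝ) ≤ j by exact_mod_cast hj) q0
  have q2 := mul_le_mul_of_nonneg_left hss hCm
  have q3 := mul_le_mul_of_nonneg_left hss hCG
  have q4 : 0 ≤ Λ * s * B2 := by positivity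
  have t6 : inner ℝ ((1 + X 2) * W * y - Sh (s ^ 2) ((1 + X 2) * W * y)) ((1 + X 2) * W * y)
      ≤ ε ^ 2 := by
    refine le_trans ?_ hsε
    rw [hCQ]
    rw [hK] at t2
    linarith [(abs_le.1 t1).2, (abs_le.1 t3).2, (abs_le.1 t4).2, (abs_le.1 t5).1]
  have r1 : Zon ((1 + X 2) * W) := (Zon_one.add Zon_X2).mul w1
  have r2 : ∀ x, |((1 + X 2) * W) x| ≤ 2 * B1 := fun x => by
    rw [Sm.mul_apply, abs_mul, Sm.add_apply, Sm.one_apply]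
    refine mul_le_mul ((abs_add_le _ _).trans ?_) (w22.abs_le x) (abs_nonneg _) zero_le_two
    linarith [abs_X_le 2 x, abs_one (α := ℝ)]
  rw [hs2] at t6 n4
  have t7 := HL (u0 := (1 + X 2) * W * Dop ψ0) (by omega) (r1.mul z3)
    (by
      rw [← mul_sub, mem_Zi, map_mul, r1,
        mem_Zi.1 (Submodule.sub_mem _ hA.inv (z3.mem_Zi m))])
    (fun x => by rw [← mul_sub, r1.zav_mul, z4, mul_zero])
    ((norm_mul_le r2 _).trans ((mul_le_of_le_one_right (by positivity) z2).trans (by linarith)))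
    ((estt_q_le r2 (Dop_sq_le ψ0)).trans ((mul_le_mul_of_nonneg_left n4 (by positivity)).trans
      (by linarith only [sq_nonneg (B1 ^ 2 * (Λ * m)⁻¹)])))
    e0.le e1 (by rw [← hs2]; exact hss.trans hs1') t6
  have t8 := estt_even (ρ := (1 + X 2) * W) hA.ev (Real.exp_pos (-K)).le fun x hx => by
    have := w5 x hx
    rw [Sm.mul_apply, Sm.add_apply, Sm.one_apply]
    linarith only [this, mul_nonneg hx ((Real.exp_pos (-K)).le.trans this)]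
  refine nrmx_sq (le_of_mul_le_mul_left (t8.trans ?_) (pow_pos (Real.exp_pos (-K)) 2)) (by norm_num)
  rw [eq_div_iff (by positivity)] at hε
  linarith only [hε, t7, e0]

end Pool.Agent.Lib.MP_2fa2a2_gt.PI
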