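import Pool.Agent.Lib.MP_2fa2a2_gt.PI.Poly

/-! Functions on the bundle of unit cotangent vectors. -/

namespace Pool.Agent.Lib.MP_2fa2a2_gt.PI

open MeasureTheory

/-- pairs of orthogonal unit vectors -/
abbrev Fm : Type := {p : S2 × S2 // inner ℝ (p.1 : E3) (p.2 : E3) = 0}

/-- base point -/
def Fm.x (p : Fm) : S2 := p.1.1
/-- direction -/
def Fm.xi (p : Fm) : S2 := p.1.2
/-- the cross product of base point and direction -/
def Fm.om (p : Fm) (b : Fin 3) : ℝ :=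
  (p.x : E3) (b + 1) * (p.xi : E3) (b + 2) - (p.x : E3) (b + 2) * (p.xi : E3) (b + 1)

instance : CompactSpace Fm :=
  isCompact_iff_compactSpace.1 (IsClosed.isCompact (isClosed_eq
    (f := fun p : S2 × S2 => inner ℝ (p.1 : E3) (p.2 : E3)) (by fun_prop) continuous_const))

/-- simultaneous action of an isometry -/
noncomputable def rotF (g : E3 ≃ₗᵢ[ℝ] E3) (p : Fm) : Fm :=
  ⟨(rotS g p.x, rotS g p.xi), (g.inner_map_map _ _).trans p.2⟩

/-- exchange of base point and direction -/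
def swF (p : Fm) : Fm := ⟨(p.xi, p.x), (real_inner_comm _ _).trans p.2⟩
/-- reflection of the base point -/
noncomputable def ngx (p : Fm) : Fm :=
  ⟨(neg p.x, p.xi), (inner_neg_left _ _).trans (neg_eq_zero.2 p.2)⟩
/-- reflection of the direction -/
noncomputable def ngi (p : Fm) : Fm :=
  ⟨(p.x, neg p.xi), (inner_neg_right _ _).trans (neg_eq_zero.2 p.2)⟩

/-- functions of the base point -/
def px (φ : Sm) : Fm → ℝ := fun p => φ p.x
/-- functions of the direction -/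
def pi' (ψ : Sm) : Fm → ℝ := fun p => ψ p.xi

/-- the algebra of symbols -/
noncomputable def Sy : Subalgebra ℝ (Fm → ℝ) := Algebra.adjoin ℝ (Set.range px ∪ Set.range pi')

/-- the rotation fields on the bundle -/
noncomputable def LL (c : Fin 3) (a : Fm → ℝ) : Fm → ℝ :=
  fun p => deriv (fun t => a (rotF (int_rot c t) p)) 0

/-- the Hessian of `u` on `(ξ, ξ)` -/
noncomputable def Sxx (u : Sm) (p : Fm) : ℝ :=
  ∑ a, ∑ b, (p.xi : E3) a * (p.xi : E3) b * H a b u p.x - u p.x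
/-- the Hessian of `u` on `(ξ, ω)` -/
noncomputable def Sxw (u : Sm) (p : Fm) : ℝ :=
  ∑ a, ∑ b, (p.xi : E3) a * p.om b * H a b u p.x

/-- the lift of the gradient field of `u` -/
noncomputable def Xl (u : Sm) (a : Fm → ℝ) : Fm → ℝ :=
  fun p => ∑ c, (L c u p.x - Sxw u p * (p.x : E3) c) * LL c a p

/-- the transport operator -/
noncomputable def PP (j : ℕ) (u : Sm) (a : Fm → ℝ) : Fm → ℝ :=
  fun p => Xl u a p + (lap u p.x + (4 * j - 2) * Sxx u p) * a p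

/-- size of the first jet -/
noncomputable def jet (a : Fm → ℝ) (p : Fm) : ℝ := |a p| + ∑ c, |LL c a p|

theorem px_mem (φ : Sm) : px φ ∈ Sy := Algebra.subset_adjoin (Or.inl ⟨φ, rfl⟩)
theorem pi'_mem (ψ : Sm) : pi' ψ ∈ Sy := Algebra.subset_adjoin (Or.inr ⟨ψ, rfl⟩)
theorem px_mul (φ ψ : Sm) : px (φ * ψ) = px φ * px ψ := rfl
theorem px_add (φ ψ : Sm) : px (φ + ψ) = px φ + px ψ := rfl
theorem px_smul (r : ℝ) (φ : Sm) : px (r • φ) = r • px φ := rfl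
theorem pi'_mul (φ ψ : Sm) : pi' (φ * ψ) = pi' φ * pi' ψ := rfl
theorem pi'_add (φ ψ : Sm) : pi' (φ + ψ) = pi' φ + pi' ψ := rfl
theorem pi'_smul (r : ℝ) (φ : Sm) : pi' (r • φ) = r • pi' φ := rfl
theorem fm_om_eq (b : Fin 3) : (fun p : Fm => p.om b) =
    px (X (b + 1)) * pi' (X (b + 2)) - px (X (b + 2)) * pi' (X (b + 1)) := rfl
theorem fm_mul_mem (φ ψ : Sm) : px φ * pi' ψ ∈ Sy := Sy.mul_mem (px_mem φ) (pi'_mem ψ)
theorem om_mem (b : Fin 3) : (fun p : Fm => p.om b) ∈ Sy :=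
  Sy.sub_mem (fm_mul_mem (X (b + 1)) (X (b + 2))) (fm_mul_mem (X (b + 2)) (X (b + 1)))
theorem Sxx_mem (u : Sm) : Sxx u ∈ Sy := by
  have e : Sxx u = ∑ a, ∑ b, pi' (X a) * pi' (X b) * px (H a b u) - px u := by
    funext p
    simp only [Sxx, Pi.sub_apply, Finset.sum_apply]
    rfl
  rw [e]
  exact Sy.sub_mem (Sy.sum_mem fun a _ => Sy.sum_mem fun b _ =>
    Sy.mul_mem (Sy.mul_mem (pi'_mem _) (pi'_mem _)) (px_mem _)) (px_mem _)
theorem Sxw_mem (u : Sm) : Sxw u ∈ Sy := by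
  have e : Sxw u = ∑ a, ∑ b, pi' (X a) * (fun p : Fm => p.om b) * px (H a b u) := by
    funext p
    simp only [Sxw, Finset.sum_apply]
    rfl
  rw [e]
  exact Sy.sum_mem fun a _ => Sy.sum_mem fun b _ =>
    Sy.mul_mem (Sy.mul_mem (pi'_mem _) (om_mem _)) (px_mem _)

/-- sums of products of functions in a class -/
def fmGen (T : Sm → Prop) : AddSubmonoid (Fm → ℝ) :=
  AddSubmonoid.closure {a | ∃ φ ψ, T φ ∧ T ψ ∧ a = px φ * pi' ψ}

theorem fm_gen_mem {T : Sm → Prop} {φ ψ : Sm} (h : T φ) (h' : T ψ) : px φ * pi' ψ ∈ fmGen T :=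
  AddSubmonoid.subset_closure ⟨φ, ψ, h, h', rfl⟩

theorem fm_gen_ind {T : Sm → Prop} {Q : (Fm → ℝ) → Prop} (h0 : Q 0)
    (h1 : ∀ φ ψ, T φ → T ψ → Q (px φ * pi' ψ)) (h2 : ∀ a b, Q a → Q b → Q (a + b))
    {a : Fm → ℝ} (ha : a ∈ fmGen T) : Q a := by
  induction ha using AddSubmonoid.closure_induction with
  | mem a h =>
    obtain ⟨φ, ψ, h, h', rfl⟩ := h
    exact h1 φ ψ h h'
  | zero => exact h0
  | add a b _ _ ha hb => exact h2 a b ha hb

theorem fm_gen_mul {T : Sm → Prop} (hT : ∀ φ ψ, T φ → T ψ → T (φ * ψ)) {a b : Fm → ℝ}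
    (ha : a ∈ fmGen T) (hb : b ∈ fmGen T) : a * b ∈ fmGen T := by
  refine fm_gen_ind (Q := fun a => a * b ∈ fmGen T) ?_ (fun φ ψ h h' => ?_)
    (fun a a' h h' => ?_) ha
  · rw [zero_mul]
    exact zero_mem _
  · refine fm_gen_ind (Q := fun b => px φ * pi' ψ * b ∈ fmGen T) ?_ (fun φ' ψ' k k' => ?_)
      (fun b b' k k' => ?_) hb
    · rw [mul_zero]
      exact zero_mem _
    · rw [mul_mul_mul_comm, ← px_mul, ← pi'_mul]
      exact fm_gen_mem (hT _ _ h k) (hT _ _ h' k')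
    · rw [mul_add]
      exact add_mem k k'
  · rw [add_mul]
    exact add_mem h h'

theorem fm_mem_gen {a : Fm → ℝ} (ha : a ∈ Sy) : a ∈ fmGen fun _ => True := by
  induction ha using Algebra.adjoin_induction with
  | mem a h =>
    rcases h with ⟨φ, rfl⟩ | ⟨ψ, rfl⟩
    · have h := fm_gen_mem (T := fun _ => True) (φ := φ) (ψ := 1) trivial trivial
      rwa [show pi' 1 = 1 from rfl, mul_one] at h
    · have h := fm_gen_mem (T := fun _ => True) (φ := 1) (ψ := ψ) trivial trivial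
      rwa [show px 1 = 1 from rfl, one_mul] at h
  | algebraMap r =>
    have h := fm_gen_mem (T := fun _ => True) (φ := algebraMap ℝ Sm r) (ψ := 1) trivial trivial
    rwa [show pi' 1 = 1 from rfl, mul_one] at h
  | add a b _ _ ha hb => exact add_mem ha hb
  | mul a b _ _ ha hb => exact fm_gen_mul (fun _ _ _ _ => trivial) ha hb

theorem fm_ind {Q : (Fm → ℝ) → Prop} (h0 : Q 0) (h1 : ∀ φ ψ, Q (px φ * pi' ψ))
    (h2 : ∀ a b, a ∈ Sy → b ∈ Sy → Q a → Q b → Q (a + b)) {a : Fm → ℝ} (ha : a ∈ Sy) : Q a :=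
  (fm_gen_ind (Q := fun a => a ∈ Sy ∧ Q a) ⟨zero_mem _, h0⟩
    (fun φ ψ _ _ => ⟨fm_mul_mem φ ψ, h1 φ ψ⟩)
    (fun a b h h' => ⟨add_mem h.1 h'.1, h2 a b h.1 h'.1 h.2 h'.2⟩) (fm_mem_gen ha)).2

theorem fm_append {n m : ℕ} (φ ψ : Fin n → Sm) (φ' ψ' : Fin m → Sm) :
    ∑ i, px (Fin.append φ φ' i) * pi' (Fin.append ψ ψ' i) =
      ∑ i, px (φ i) * pi' (ψ i) + ∑ i, px (φ' i) * pi' (ψ' i) := by
  rw [Fin.sum_univ_add]
  simp only [Fin.append_left, Fin.append_right]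

/-- symbols are finite sums of products -/
theorem Sy_span {a : Fm → ℝ} (ha : a ∈ Sy) :
    ∃ (n : ℕ) (φ ψ : Fin n → Sm), a = ∑ i, px (φ i) * pi' (ψ i) := by
  refine fm_ind (Q := fun a => ∃ (n : ℕ) (φ ψ : Fin n → Sm), a = ∑ i, px (φ i) * pi' (ψ i))
    ⟨0, Fin.elim0, Fin.elim0, (Fin.sum_univ_zero _).symm⟩
    (fun φ ψ => ⟨1, fun _ => φ, fun _ => ψ, by simp⟩) ?_ ha
  rintro _ _ - - ⟨n, φ, ψ, rfl⟩ ⟨m, φ', ψ', rfl⟩
  exact ⟨n + m, _, _, (fm_append φ ψ φ' ψ').symm⟩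
theorem fm_cont_x : Continuous Fm.x := continuous_subtype_val.fst
theorem fm_cont_xi : Continuous Fm.xi := continuous_subtype_val.snd
theorem Sy_continuous {a : Fm → ℝ} (ha : a ∈ Sy) : Continuous a :=
  fm_ind (Q := fun a => Continuous a) continuous_zero
    (fun φ ψ => (φ.continuous.comp fm_cont_x).mul (ψ.continuous.comp fm_cont_xi))
    (fun _ _ _ _ h h' => h.add h') ha
theorem fm_rotS_zero (c : Fin 3) (x : S2) : rotS (int_rot c 0) x = x :=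
  Subtype.ext (int_rot_zero c x)
theorem fm_rotF_zero (c : Fin 3) (p : Fm) : rotF (int_rot c 0) p = p :=
  Subtype.ext (Prod.ext (fm_rotS_zero c _) (fm_rotS_zero c _))
theorem fm_deriv (c : Fin 3) (φ : Sm) (x : S2) :
    HasDerivAt (fun t => φ (rotS (int_rot c t) x)) (L c φ x) 0 := by
  have h : HasDerivAt (fun t => φ (rotS (int_rot c t) x)) (L c φ (rotS (int_rot c 0) x)) 0 :=
    int_hasDerivAt_comp c φ x 0
  rwa [fm_rotS_zero] at h
theorem Sy_hasDerivAt {a : Fm → ℝ} (ha : a ∈ Sy) (c : Fin 3) (p : Fm) :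
    HasDerivAt (fun t => a (rotF (int_rot c t) p)) (LL c a p) 0 :=
  (fm_ind (Q := fun a => DifferentiableAt ℝ (fun t => a (rotF (int_rot c t) p)) 0)
    (differentiableAt_const _)
    (fun φ ψ => (fm_deriv c φ p.x).differentiableAt.mul (fm_deriv c ψ p.xi).differentiableAt)
    (fun _ _ _ _ h h' => h.add h') ha).hasDerivAt
theorem LL_px (c : Fin 3) (φ : Sm) : LL c (px φ) = px (L c φ) :=
  funext fun p => (fm_deriv c φ p.x).deriv
theorem LL_pi' (c : Fin 3) (ψ : Sm) : LL c (pi' ψ) = pi' (L c ψ) :=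
  funext fun p => (fm_deriv c ψ p.xi).deriv
theorem LL_const (c : Fin 3) (r : ℝ) : LL c (fun _ => r) = 0 :=
  funext fun _ => deriv_const _ _
theorem LL_add (c : Fin 3) {a b : Fm → ℝ} (ha : a ∈ Sy) (hb : b ∈ Sy) :
    LL c (a + b) = LL c a + LL c b :=
  funext fun p => ((Sy_hasDerivAt ha c p).add (Sy_hasDerivAt hb c p)).deriv
theorem LL_sub (c : Fin 3) {a b : Fm → ℝ} (ha : a ∈ Sy) (hb : b ∈ Sy) :
    LL c (a - b) = LL c a - LL c b :=
  funext fun p => ((Sy_hasDerivAt ha c p).sub (Sy_hasDerivAt hb c p)).deriv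
theorem LL_smul (c : Fin 3) (r : ℝ) (a : Fm → ℝ) : LL c (r • a) = r • LL c a :=
  funext fun p => deriv_const_mul_field (v := fun t => a (rotF (int_rot c t) p)) r
theorem LL_mul (c : Fin 3) {a b : Fm → ℝ} (ha : a ∈ Sy) (hb : b ∈ Sy) :
    LL c (a * b) = LL c a * b + a * LL c b := by
  funext p
  have h := ((Sy_hasDerivAt ha c p).mul (Sy_hasDerivAt hb c p)).deriv
  rw [fm_rotF_zero] at h
  exact h
theorem fm_LL_zero (c : Fin 3) : LL c 0 = 0 := LL_const c 0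
theorem fm_LL_gen (c : Fin 3) (φ ψ : Sm) :
    LL c (px φ * pi' ψ) = px (L c φ) * pi' ψ + px φ * pi' (L c ψ) := by
  rw [LL_mul c (px_mem φ) (pi'_mem ψ), LL_px, LL_pi']
theorem LL_sum {ι : Type*} (c : Fin 3) (t : Finset ι) {a : ι → Fm → ℝ} (ha : ∀ i ∈ t, a i ∈ Sy) :
    LL c (∑ i ∈ t, a i) = ∑ i ∈ t, LL c (a i) := by
  induction t using Finset.cons_induction with
  | empty => exact fm_LL_zero c
  | cons i t hi ih =>
    have h1 : ∀ k ∈ t, a k ∈ Sy := fun k hk => ha k (Finset.mem_cons_of_mem hk)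
    rw [Finset.sum_cons, Finset.sum_cons, LL_add c (ha i (Finset.mem_cons_self i t))
      (Sy.sum_mem h1), ih h1]
theorem LL_mem (c : Fin 3) {a : Fm → ℝ} (ha : a ∈ Sy) : LL c a ∈ Sy := by
  refine fm_ind (Q := fun a => LL c a ∈ Sy) ?_ (fun φ ψ => ?_) (fun a b h h' k k' => ?_) ha
  · rw [fm_LL_zero]
    exact zero_mem _
  · rw [fm_LL_gen]
    exact add_mem (fm_mul_mem _ _) (fm_mul_mem _ _)
  · rw [LL_add c h h']
    exact add_mem k k'
theorem LL_LL (c d : Fin 3) {a : Fm → ℝ} (ha : a ∈ Sy) :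
    LL c (LL d a) = LL d (LL c a) + ∑ e, ev c d e • LL e a := by
  refine fm_ind (Q := fun a => LL c (LL d a) = LL d (LL c a) + ∑ e, ev c d e • LL e a) ?_
    (fun φ ψ => ?_) (fun a b h h' k k' => ?_) ha
  · simp only [fm_LL_zero, smul_zero, Finset.sum_const_zero, add_zero]
  · simp only [fm_LL_gen, LL_add _ (fm_mul_mem _ _) (fm_mul_mem _ _)]
    rw [L_L c d φ, L_L c d ψ]
    funext p
    simp only [Pi.add_apply, Pi.mul_apply, Pi.smul_apply, Fin.sum_univ_three, px, pi',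
      Sm.add_apply, Sm.smul_apply, smul_eq_mul]
    ring
  · simp only [LL_add _ h h', LL_add _ (LL_mem _ h) (LL_mem _ h'), smul_add,
      Finset.sum_add_distrib]
    rw [k, k']
    abel
theorem LL_om (c b : Fin 3) :
    LL c (fun p : Fm => p.om b) = fun p => ∑ d, ev c b d * p.om d := by
  rw [fm_om_eq, LL_sub c (fm_mul_mem _ _) (fm_mul_mem _ _), fm_LL_gen, fm_LL_gen]
  funext p
  simp only [Pi.add_apply, Pi.mul_apply, Pi.sub_apply, px, pi', base_L_X, X_apply]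
  rcases alg_fin c with rfl | rfl | rfl <;> rcases alg_fin b with rfl | rfl | rfl <;>
    simp [rv, ev, Fm.om] <;> ring
theorem fm_cont_rot (c : Fin 3) (p : Fm) : Continuous fun t => rotF (int_rot c t) p := by
  have h : ∀ x : S2, Continuous fun t => rotS (int_rot c t) x := fun x =>
    (continuous_iff_continuousAt.2 fun t =>
      (int_hasDerivAt_rot c t (x : E3)).continuousAt).subtype_mk _
  exact ((h p.x).prodMk (h p.xi)).subtype_mk _
/-- locality -/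
theorem LL_congr (c : Fin 3) {a b : Fm → ℝ} {p : Fm} (h : a =ᶠ[nhds p] b) :
    LL c a p = LL c b p := by
  have h1 := (fm_cont_rot c p).tendsto 0
  rw [fm_rotF_zero] at h1
  exact Filter.EventuallyEq.deriv_eq (h1.eventually h)
theorem fm_neg_rot (g : E3 ≃ₗᵢ[ℝ] E3) (x : S2) : neg (rotS g x) = rotS g (neg x) :=
  Subtype.ext (map_neg g (x : E3)).symm
theorem LL_swF (c : Fin 3) (a : Fm → ℝ) : LL c (a ∘ swF) = LL c a ∘ swF := rfl
theorem LL_ngx (c : Fin 3) (a : Fm → ℝ) : LL c (a ∘ ngx) = LL c a ∘ ngx := by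
  funext p
  have h : ∀ g, ngx (rotF g p) = rotF g (ngx p) := fun g =>
    Subtype.ext (Prod.ext (fm_neg_rot g p.x) rfl)
  simp only [LL, Function.comp_apply, h]
theorem LL_ngi (c : Fin 3) (a : Fm → ℝ) : LL c (a ∘ ngi) = LL c a ∘ ngi := by
  funext p
  have h : ∀ g, ngi (rotF g p) = rotF g (ngi p) := fun g =>
    Subtype.ext (Prod.ext rfl (fm_neg_rot g p.xi))
  simp only [LL, Function.comp_apply, h]
theorem fm_gen_ngx (φ ψ : Sm) : (px φ * pi' ψ) ∘ ngx = px (ant φ) * pi' ψ :=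
  funext fun p => congrArg (· * ψ p.xi) (ant_apply φ p.x).symm
theorem fm_gen_ngi (φ ψ : Sm) : (px φ * pi' ψ) ∘ ngi = px φ * pi' (ant ψ) :=
  funext fun p => congrArg (φ p.x * ·) (ant_apply ψ p.xi).symm
theorem swF_mem {a : Fm → ℝ} (ha : a ∈ Sy) : a ∘ swF ∈ Sy :=
  fm_ind (Q := fun a => a ∘ swF ∈ Sy) (zero_mem Sy)
    (fun φ ψ => Sy.mul_mem (pi'_mem φ) (px_mem ψ)) (fun _ _ _ _ h h' => Sy.add_mem h h') ha
theorem ngx_mem {a : Fm → ℝ} (ha : a ∈ Sy) : a ∘ ngx ∈ Sy :=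
  fm_ind (Q := fun a => a ∘ ngx ∈ Sy) (zero_mem Sy)
    (fun φ ψ => fm_gen_ngx φ ψ ▸ fm_mul_mem _ _) (fun _ _ _ _ h h' => Sy.add_mem h h') ha
theorem ngi_mem {a : Fm → ℝ} (ha : a ∈ Sy) : a ∘ ngi ∈ Sy :=
  fm_ind (Q := fun a => a ∘ ngi ∈ Sy) (zero_mem Sy)
    (fun φ ψ => fm_gen_ngi φ ψ ▸ fm_mul_mem _ _) (fun _ _ _ _ h h' => Sy.add_mem h h') ha
theorem fm_cont_neg : Continuous neg := continuous_subtype_val.neg.subtype_mk _
theorem continuous_swF : Continuous swF := (fm_cont_xi.prodMk fm_cont_x).subtype_mk _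
theorem continuous_ngx : Continuous ngx :=
  ((fm_cont_neg.comp fm_cont_x).prodMk fm_cont_xi).subtype_mk _
theorem continuous_ngi : Continuous ngi :=
  (fm_cont_x.prodMk (fm_cont_neg.comp fm_cont_xi)).subtype_mk _
theorem Xl_mem (u : Sm) {a : Fm → ℝ} (ha : a ∈ Sy) : Xl u a ∈ Sy := by
  have e : Xl u a = ∑ c, (px (L c u) - Sxw u * px (X c)) * LL c a := by
    funext p
    simp only [Xl, Finset.sum_apply]
    rfl
  rw [e]
  exact Sy.sum_mem fun c _ => Sy.mul_mem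
    (Sy.sub_mem (px_mem _) (Sy.mul_mem (Sxw_mem u) (px_mem _))) (LL_mem c ha)
theorem PP_mem (j : ℕ) (u : Sm) {a : Fm → ℝ} (ha : a ∈ Sy) : PP j u a ∈ Sy :=
  Sy.add_mem (Xl_mem u ha) (Sy.mul_mem
    (Sy.add_mem (px_mem (lap u)) (Sy.smul_mem (Sxx_mem u) (4 * j - 2 : ℝ))) ha)
theorem continuous_jet {a : Fm → ℝ} (ha : a ∈ Sy) : Continuous (jet a) :=
  (Sy_continuous ha).abs.add
    (continuous_finsetSum _ fun c _ => (Sy_continuous (LL_mem c ha)).abs)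
theorem Xl_mul (u : Sm) {a b : Fm → ℝ} (ha : a ∈ Sy) (hb : b ∈ Sy) :
    Xl u (a * b) = Xl u a * b + a * Xl u b := by
  funext p
  simp only [Xl, LL_mul _ ha hb, Pi.add_apply, Pi.mul_apply, Fin.sum_univ_three]
  ring
theorem Xl_add (u : Sm) {a b : Fm → ℝ} (ha : a ∈ Sy) (hb : b ∈ Sy) :
    Xl u (a + b) = Xl u a + Xl u b := by
  funext p
  simp only [Xl, LL_add _ ha hb, Pi.add_apply, Fin.sum_univ_three]
  ring
theorem Xl_px (u φ : Sm) : Xl u (px φ) = px (gd u φ) := by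
  funext p
  have h := congrArg (fun ψ : Sm => ψ p.x) (alg_r φ)
  simp only [Sm.add_apply, Sm.mul_apply, X_apply, Sm.zero_apply] at h
  simp only [Xl, LL_px, px, alg_gd, Sm.add_apply, Sm.mul_apply, Fin.sum_univ_three]
  linear_combination (-Sxw u p) * h
theorem fm_xx (p : Fm) : (p.x : E3) 0 * (p.x : E3) 0 + (p.x : E3) 1 * (p.x : E3) 1
    + (p.x : E3) 2 * (p.x : E3) 2 = 1 := base_sum_sq p.x
theorem fm_ii (p : Fm) : (p.xi : E3) 0 * (p.xi : E3) 0 + (p.xi : E3) 1 * (p.xi : E3) 1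
    + (p.xi : E3) 2 * (p.xi : E3) 2 = 1 := base_sum_sq p.xi
theorem fm_xi (p : Fm) : (p.x : E3) 0 * (p.xi : E3) 0 + (p.x : E3) 1 * (p.xi : E3) 1
    + (p.x : E3) 2 * (p.xi : E3) 2 = 0 := by
  have h : inner ℝ (p.x : E3) (p.xi : E3) = (0 : ℝ) := p.2
  rwa [rot_inner, Fin.sum_univ_three] at h
theorem fm_om0 (p : Fm) :
    p.om 0 = (p.x : E3) 1 * (p.xi : E3) 2 - (p.x : E3) 2 * (p.xi : E3) 1 := rfl
theorem fm_om1 (p : Fm) :
    p.om 1 = (p.x : E3) 2 * (p.xi : E3) 0 - (p.x : E3) 0 * (p.xi : E3) 2 := rfl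
theorem fm_om2 (p : Fm) :
    p.om 2 = (p.x : E3) 0 * (p.xi : E3) 1 - (p.x : E3) 1 * (p.xi : E3) 0 := rfl
theorem fm_L0 (φ : Sm) (x : S2) :
    L 0 φ x = (x : E3) 1 * D 2 φ x - (x : E3) 2 * D 1 φ x := by rw [L_eq_D]; rfl
theorem fm_L1 (φ : Sm) (x : S2) :
    L 1 φ x = (x : E3) 2 * D 0 φ x - (x : E3) 0 * D 2 φ x := by rw [L_eq_D]; rfl
theorem fm_L2 (φ : Sm) (x : S2) :
    L 2 φ x = (x : E3) 0 * D 1 φ x - (x : E3) 1 * D 0 φ x := by rw [L_eq_D]; rfl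
theorem Xl_xi (u : Sm) (a : Fin 3) : Xl u (pi' (X a)) = fun p =>
    -(∑ b, D b u p.x * (p.xi : E3) b) * (p.x : E3) a - Sxw u p * p.om a := by
  funext p
  have h := fm_xi p
  simp only [Xl, LL_pi', pi', Fin.sum_univ_three, fm_L0 u, fm_L1 u, fm_L2 u]
  rcases alg_fin a with rfl | rfl | rfl <;>
    simp only [L_X_self, alg_01, alg_02, alg_12, alg_10, alg_20, alg_21, Sm.neg_apply,
      Sm.zero_apply, X_apply, fm_om0, fm_om1, fm_om2]
  · linear_combination D 0 u p.x * h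
  · linear_combination D 1 u p.x * h
  · linear_combination D 2 u p.x * h
theorem Xl_om (u : Sm) (a : Fin 3) : Xl u (fun p => p.om a) = fun p =>
    -(∑ b, D b u p.x * p.om b) * (p.x : E3) a + Sxw u p * (p.xi : E3) a := by
  funext p
  have h := fm_xi p
  have k := fm_xx p
  simp only [Xl, LL_om, Fin.sum_univ_three, fm_L0 u, fm_L1 u, fm_L2 u]
  rcases alg_fin a with rfl | rfl | rfl <;> simp [ev] <;> simp only [fm_om0, fm_om1, fm_om2]
  · linear_combination Sxw u p * (p.xi : E3) 0 * k - Sxw u p * (p.x : E3) 0 * h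
  · linear_combination Sxw u p * (p.xi : E3) 1 * k - Sxw u p * (p.x : E3) 1 * h
  · linear_combination Sxw u p * (p.xi : E3) 2 * k - Sxw u p * (p.x : E3) 2 * h
theorem PP_add_left (j : ℕ) (u v : Sm) (a : Fm → ℝ) : PP j (u + v) a = PP j u a + PP j v a := by
  funext p
  simp only [PP, Xl, Sxw, Sxx, map_add, Sm.add_apply, Pi.add_apply, Fin.sum_univ_three]
  ring
theorem PP_smul_left (j : ℕ) (r : ℝ) (u : Sm) (a : Fm → ℝ) : PP j (r • u) a = r • PP j u a := by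
  funext p
  simp only [PP, Xl, Sxw, Sxx, map_smul, Sm.smul_apply, Pi.smul_apply, smul_eq_mul,
    Fin.sum_univ_three]
  ring
theorem fm_om_ngi (p : Fm) (b : Fin 3) : (ngi p).om b = -p.om b := by
  show (p.x : E3) (b + 1) * -(p.xi : E3) (b + 2) - (p.x : E3) (b + 2) * -(p.xi : E3) (b + 1) = _
  rw [Fm.om]
  ring
theorem fm_om_ngx (p : Fm) (b : Fin 3) : (ngx p).om b = -p.om b := by
  show -(p.x : E3) (b + 1) * (p.xi : E3) (b + 2) - -(p.x : E3) (b + 2) * (p.xi : E3) (b + 1) = _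
  rw [Fm.om]
  ring
theorem PP_ngi (j : ℕ) (u : Sm) (a : Fm → ℝ) : PP j u (a ∘ ngi) = PP j u a ∘ ngi := by
  funext p
  have e1 : (ngi p).x = p.x := rfl
  have e2 : ∀ b, ((ngi p).xi : E3) b = -(p.xi : E3) b := fun _ => rfl
  simp only [PP, Xl, Sxw, Sxx, LL_ngi, Function.comp_apply, e1, e2, fm_om_ngi, neg_mul_neg]
theorem PP_ngx (j : ℕ) (u : Sm) (a : Fm → ℝ) : PP j u (a ∘ ngx) = PP j (ant u) a ∘ ngx := by
  funext p
  have e1 : (ngx p).xi = p.xi := rfl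
  have e2 : ∀ b, ((ngx p).x : E3) b = -(p.x : E3) b := fun _ => rfl
  have e3 : ∀ φ : Sm, ant φ (ngx p).x = φ p.x := fun φ =>
    (ant_apply φ _).trans (congrArg φ (rot_neg_neg p.x))
  have e4 : lap (ant u) = ant (lap u) := lap_act _ u
  simp only [PP, Xl, Sxw, Sxx, LL_ngx, Function.comp_apply, e1, e2, fm_om_ngx, e4, ← ant_L,
    ← ant_H, e3, mul_neg, neg_mul, Finset.sum_neg_distrib, neg_neg]
theorem fm_abs_mul {a b A B : ℝ} (ha : |a| ≤ A) (hb : |b| ≤ B) : |a * b| ≤ A * B := by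
  rw [abs_mul]
  exact mul_le_mul ha hb (abs_nonneg _) ((abs_nonneg _).trans ha)
theorem fm_abs_sum {f : Fin 3 → ℝ} {A : ℝ} (h : ∀ a, |f a| ≤ A) : |∑ a, f a| ≤ 3 * A := by
  refine (Finset.abs_sum_le_sum_abs _ _).trans ?_
  rw [Fin.sum_univ_three]
  linarith [h 0, h 1, h 2]
theorem fm_abs_D {φ : Sm} {x : S2} {A : ℝ} (h : ∀ c, |L c φ x| ≤ A) (a : Fin 3) :
    |D a φ x| ≤ 2 * A := by
  rw [D_def, Sm.sub_apply, Sm.mul_apply, Sm.mul_apply]
  refine (abs_sub _ _).trans ?_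
  linarith [fm_abs_mul (abs_X_le (a + 2) x) (h (a + 1)), fm_abs_mul (abs_X_le (a + 1) x) (h (a + 2))]
theorem fm_abs_ev (c a d : Fin 3) : |ev c a d| ≤ 1 := by
  unfold ev
  split_ifs <;> simp
theorem fm_abs_om (p : Fm) (b : Fin 3) : |p.om b| ≤ 2 := by
  refine (abs_sub _ _).trans ?_
  have h1 := fm_abs_mul (abs_X_le (b + 1) p.x) (abs_X_le (b + 2) p.xi)
  have h2 := fm_abs_mul (abs_X_le (b + 2) p.x) (abs_X_le (b + 1) p.xi)
  simp only [X_apply] at h1 h2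
  linarith
section
variable {u : Sm} {B : ℝ} (hu : Cb 2 1 B u)
include hu
theorem fm_b0 (x : S2) : |u x| ≤ B := by simpa using hu [] (by simp) x
theorem fm_b1 (c : Fin 3) (x : S2) : |L c u x| ≤ B := by simpa using hu [c] (by simp) x
theorem fm_b2 (c d : Fin 3) (x : S2) : |L c (L d u) x| ≤ B := by simpa using hu [c, d] (by simp) x
theorem fm_abs_H (a b : Fin 3) (x : S2) : |H a b u x| ≤ 20 * B := by
  have h1 : ∀ d, |D d u x| ≤ 2 * B := fm_abs_D fun c => fm_b1 hu c x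
  have h2 : ∀ c, |L c (D b u) x| ≤ 8 * B := fun c => by
    rw [L_D, Sm.add_apply, Sm.sum_apply]
    refine (abs_add_le _ _).trans ?_
    have k1 := fm_abs_D (fun d => fm_b2 hu d c x) b
    have k2 := fm_abs_sum (f := fun d => (ev c b d • D d u) x)
      fun d => fm_abs_mul (fm_abs_ev c b d) (h1 d)
    linarith
  have h3 := fm_abs_D h2 a
  have h4 := fm_abs_mul (abs_X_le b x) (h1 a)
  have h5 : |(kd a b - X a * X b) x| ≤ 2 := by
    have k1 := fm_abs_mul (abs_X_le a x) (abs_X_le b x)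
    have k2 : |kd a b x| ≤ 1 := by
      unfold kd
      split_ifs <;> simp
    rw [Sm.sub_apply, Sm.mul_apply]
    refine (abs_sub _ _).trans ?_
    linarith
  have h6 := fm_abs_mul h5 (fm_b0 hu x)
  rw [hess_expand, Sm.add_apply, Sm.add_apply, Sm.mul_apply, Sm.mul_apply]
  refine (abs_add_three _ _ _).trans ?_
  linarith
theorem fm_abs_Sxw (p : Fm) : |Sxw u p| ≤ 360 * B :=
  (fm_abs_sum fun a => fm_abs_sum fun b => fm_abs_mul (fm_abs_mul (abs_X_le a p.xi)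
    (fm_abs_om p b)) (fm_abs_H hu a b p.x)).trans_eq (by ring)
theorem fm_abs_Sxx (p : Fm) : |Sxx u p| ≤ 181 * B := by
  have h1 := fm_abs_sum fun a => fm_abs_sum fun b => fm_abs_mul (fm_abs_mul (abs_X_le a p.xi)
    (abs_X_le b p.xi)) (fm_abs_H hu a b p.x)
  simp only [X_apply] at h1
  refine (abs_sub _ _).trans ?_
  linarith [fm_b0 hu p.x]
end
theorem abs_Xl_le {u : Sm} {B : ℝ} (hu : Cb 2 1 B u) (a : Fm → ℝ) (p : Fm) :
    |Xl u a p| ≤ 1000 * B * ∑ c, |LL c a p| := by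
  rw [Finset.mul_sum]
  refine (Finset.abs_sum_le_sum_abs _ _).trans (Finset.sum_le_sum fun c _ =>
    fm_abs_mul ((abs_sub _ _).trans ?_) le_rfl)
  have h1 := fm_abs_mul (fm_abs_Sxw hu p) (abs_X_le c p.x)
  have h2 := fm_b1 hu c p.x
  rw [X_apply] at h1
  linarith [abs_nonneg (L c u p.x)]
theorem abs_PP_le (j : ℕ) {u : Sm} {B : ℝ} (hu : Cb 2 1 B u) (a : Fm → ℝ) (p : Fm) :
    |PP j u a p| ≤ 5000 * (j + 1) * B * jet a p := by
  have hB : 0 ≤ B := (abs_nonneg _).trans (fm_b0 hu p.x)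
  have hj : (0 : ℝ) ≤ j := Nat.cast_nonneg j
  have hjB := mul_nonneg hj hB
  have h1 : |lap u p.x| ≤ 3 * B := by
    rw [lap_def, Sm.sum_apply]
    exact fm_abs_sum fun c => fm_b2 hu c c p.x
  have h2 : |4 * (j : ℝ) - 2| ≤ 4 * j + 2 := abs_le.2 ⟨by linarith, by linarith⟩
  have h3 := fm_abs_mul h2 (fm_abs_Sxx hu p)
  have h4 : |lap u p.x + (4 * j - 2) * Sxx u p| ≤ 5000 * (j + 1) * B :=
    (abs_add_le _ _).trans (by nlinarith)
  have h5 : 1000 * B * ∑ c, |LL c a p| ≤ 5000 * (j + 1) * B * ∑ c, |LL c a p| :=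
    mul_le_mul_of_nonneg_right (by nlinarith) (Finset.sum_nonneg fun _ _ => abs_nonneg _)
  have h6 := fm_abs_mul h4 (le_refl |a p|)
  have h7 := abs_Xl_le hu a p
  rw [PP, jet, mul_add]
  refine (abs_add_le _ _).trans ?_
  linarith
/-- frame identities -/
theorem fm_frame (p : Fm) (a b : Fin 3) : (p.x : E3) a * (p.x : E3) b
    + (p.xi : E3) a * (p.xi : E3) b + p.om a * p.om b = if a = b then 1 else 0 := by
  have hX := fm_xx p
  have hY := fm_ii p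
  have hZ := fm_xi p
  have key : ∀ δ : ℝ, (((p.x : E3) 0 * (p.x : E3) 0 + (p.x : E3) 1 * (p.x : E3) 1
      + (p.x : E3) 2 * (p.x : E3) 2) * ((p.xi : E3) 0 * (p.xi : E3) 0
      + (p.xi : E3) 1 * (p.xi : E3) 1 + (p.xi : E3) 2 * (p.xi : E3) 2)
      - ((p.x : E3) 0 * (p.xi : E3) 0 + (p.x : E3) 1 * (p.xi : E3) 1
      + (p.x : E3) 2 * (p.xi : E3) 2) ^ 2) * δ = p.om a * p.om b
      + ((p.xi : E3) 0 * (p.xi : E3) 0 + (p.xi : E3) 1 * (p.xi : E3) 1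
      + (p.xi : E3) 2 * (p.xi : E3) 2) * ((p.x : E3) a * (p.x : E3) b)
      + ((p.x : E3) 0 * (p.x : E3) 0 + (p.x : E3) 1 * (p.x : E3) 1
      + (p.x : E3) 2 * (p.x : E3) 2) * ((p.xi : E3) a * (p.xi : E3) b)
      - ((p.x : E3) 0 * (p.xi : E3) 0 + (p.x : E3) 1 * (p.xi : E3) 1
      + (p.x : E3) 2 * (p.xi : E3) 2) * ((p.x : E3) a * (p.xi : E3) b
      + (p.x : E3) b * (p.xi : E3) a) → (p.x : E3) a * (p.x : E3) b
      + (p.xi : E3) a * (p.xi : E3) b + p.om a * p.om b = δ := fun δ h => by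
    rw [hX, hY, hZ] at h
    linarith
  refine key _ ?_
  rcases alg_fin a with rfl | rfl | rfl <;> rcases alg_fin b with rfl | rfl | rfl <;>
    simp only [fm_om0, fm_om1, fm_om2, if_true, Fin.reduceEq, if_false] <;> ring
theorem fm_om_L (φ : Sm) (p : Fm) :
    ∑ b, L b φ p.x * p.om b = ∑ a, (p.xi : E3) a * D a φ p.x := by
  simp only [Fin.sum_univ_three, fm_L0, fm_L1, fm_L2, fm_om0, fm_om1, fm_om2]
  linear_combination ((p.xi : E3) 0 * D 0 φ p.x + (p.xi : E3) 1 * D 1 φ p.x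
    + (p.xi : E3) 2 * D 2 φ p.x) * fm_xx p - ((p.x : E3) 0 * D 0 φ p.x
    + (p.x : E3) 1 * D 1 φ p.x + (p.x : E3) 2 * D 2 φ p.x) * fm_xi p
theorem sum_LL_om (u : Sm) (p : Fm) :
    ∑ b, ∑ c, L b (L c u) p.x * p.om b * p.om c = Sxx u p := by
  have hY := fm_ii p
  have hZ := fm_xi p
  have h0 := congrArg (fun ψ : Sm => ψ p.x) (sum_X_D u)
  simp only [Fin.sum_univ_three, Sm.add_apply, Sm.mul_apply, X_apply, Sm.zero_apply] at h0
  have h1 : ∑ b, ∑ c, L b (L c u) p.x * p.om b * p.om c =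
      ∑ a, (p.xi : E3) a * ∑ c, D a (L c u) p.x * p.om c := by
    rw [Finset.sum_comm]
    simp only [← Finset.sum_mul, fm_om_L]
    simp only [Fin.sum_univ_three]
    ring
  have h2 : ∀ a, ∑ c, D a (L c u) p.x * p.om c = ∑ b, (p.xi : E3) b * D b (D a u) p.x
      - ∑ c, (∑ d, ev c a d * D d u p.x) * p.om c := fun a => by
    rw [← fm_om_L, ← Finset.sum_sub_distrib]
    refine Finset.sum_congr rfl fun c _ => ?_
    rw [L_D, Sm.add_apply, Sm.sum_apply]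
    simp only [Sm.smul_apply]
    ring
  rw [h1]
  simp only [h2, Sxx, hess_expand, Sm.add_apply, Sm.mul_apply, Sm.sub_apply, X_apply,
    Fin.sum_univ_three, fm_om0, fm_om1, fm_om2]
  simp [ev, kd]
  linear_combination (-u p.x - ((p.x : E3) 0 * D 0 u p.x + (p.x : E3) 1 * D 1 u p.x
    + (p.x : E3) 2 * D 2 u p.x)) * hY - h0 + u p.x * ((p.x : E3) 0 * (p.xi : E3) 0
    + (p.x : E3) 1 * (p.xi : E3) 1 + (p.x : E3) 2 * (p.xi : E3) 2) * hZ

/-- polynomial symbols as an algebra of continuous functions -/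
def fmAlg : Subalgebra ℝ C(Fm, ℝ) where
  carrier := {f | (f : Fm → ℝ) ∈ fmGen fun φ => ∃ N, φ ∈ Poly N}
  mul_mem' := fun ha hb => fm_gen_mul
    (fun _ _ ⟨M, h⟩ ⟨N, h'⟩ => ⟨M + N, poly_mul_mem h h'⟩) ha hb
  add_mem' := fun ha hb => (fmGen _).add_mem ha hb
  algebraMap_mem' := fun r => by
    have h := fm_gen_mem (T := fun φ => ∃ N, φ ∈ Poly N) (φ := r • (1 : Sm)) (ψ := 1)
      ⟨0, Submodule.smul_mem _ _ (one_mem_Poly 0)⟩ ⟨0, one_mem_Poly 0⟩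
    have e : px (r • (1 : Sm)) * pi' 1 = (algebraMap ℝ C(Fm, ℝ) r : C(Fm, ℝ)) := by
      funext p
      simp [px, pi']
    rwa [e] at h

theorem fm_sep : fmAlg.SeparatesPoints := by
  intro p q hpq
  have h : (∃ a, (p.x : E3) a ≠ (q.x : E3) a) ∨ ∃ a, (p.xi : E3) a ≠ (q.xi : E3) a := by
    by_contra hc
    push Not at hc
    exact hpq (Subtype.ext (Prod.ext (Subtype.ext (PiLp.ext hc.1)) (Subtype.ext (PiLp.ext hc.2))))
  rcases h with ⟨a, ha⟩ | ⟨a, ha⟩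
  · refine ⟨px (X a) * pi' 1, ⟨⟨_, Sy_continuous (fm_mul_mem _ _)⟩,
      fm_gen_mem ⟨1, poly_X_mem a⟩ ⟨0, one_mem_Poly 0⟩, rfl⟩, ?_⟩
    simpa [px, pi'] using ha
  · refine ⟨px 1 * pi' (X a), ⟨⟨_, Sy_continuous (fm_mul_mem _ _)⟩,
      fm_gen_mem ⟨0, one_mem_Poly 0⟩ ⟨1, poly_X_mem a⟩, rfl⟩, ?_⟩
    simpa [px, pi'] using ha

theorem fm_near {F : Fm → ℝ} (hF : Continuous F) {η : ℝ} (hη : 0 < η) :
    ∃ a ∈ fmGen fun φ => ∃ N, φ ∈ Poly N, ∀ p, |F p - a p| ≤ η := by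
  obtain ⟨⟨g, hg⟩, h⟩ :=
    ContinuousMap.exists_mem_subalgebra_near_continuous_of_separatesPoints fmAlg fm_sep F hF η hη
  refine ⟨g, hg, fun p => ?_⟩
  have h1 : ‖g p - F p‖ < η := h p
  rw [Real.norm_eq_abs, abs_sub_comm] at h1
  exact h1.le

theorem fm_evp_apply (φ : Sm) (x : S2) : evp φ x = 1 / 2 * (φ x + φ (neg x)) := by
  rw [← ant_apply]
  rfl

theorem fm_evp_mem {N : ℕ} {φ : Sm} (h : φ ∈ Poly N) : evp φ ∈ Poly N :=
  (Poly N).smul_mem _ ((Poly N).add_mem h (act_mem_Poly h _))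

theorem fm_sym {a : Fm → ℝ} (ha : a ∈ fmGen fun φ => ∃ N, φ ∈ Poly N) :
    ∃ (n N : ℕ) (φ ψ : Fin n → Sm), (∀ i, φ i ∈ Ev ∧ φ i ∈ Poly N ∧ ψ i ∈ Ev ∧ ψ i ∈ Poly N) ∧
      ∀ p, (a p + a (ngx p) + a (ngi p) + a (ngx (ngi p))) / 4
        = (∑ i, px (φ i) * pi' (ψ i)) p := by
  refine fm_gen_ind (Q := fun a => ∃ (n N : ℕ) (φ ψ : Fin n → Sm),
    (∀ i, φ i ∈ Ev ∧ φ i ∈ Poly N ∧ ψ i ∈ Ev ∧ ψ i ∈ Poly N) ∧
      ∀ p, (a p + a (ngx p) + a (ngi p) + a (ngx (ngi p))) / 4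
        = (∑ i, px (φ i) * pi' (ψ i)) p)
    ⟨0, 0, Fin.elim0, Fin.elim0, fun i => i.elim0, fun p => by simp⟩ ?_ ?_ ha
  · rintro φ ψ ⟨M, hφ⟩ ⟨N, hψ⟩
    refine ⟨1, M + N, fun _ => evp φ, fun _ => evp ψ, fun _ => ⟨evp_mem φ,
      Poly_mono (Nat.le_add_right _ _) (fm_evp_mem hφ), evp_mem ψ,
      Poly_mono (Nat.le_add_left _ _) (fm_evp_mem hψ)⟩, fun p => ?_⟩
    rw [Fin.sum_univ_one]
    show (φ p.x * ψ p.xi + φ (neg p.x) * ψ p.xi + φ p.x * ψ (neg p.xi)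
      + φ (neg p.x) * ψ (neg p.xi)) / 4 = evp φ p.x * evp ψ p.xi
    rw [fm_evp_apply, fm_evp_apply]
    ring
  · rintro a b ⟨n, M, φ, ψ, h, e⟩ ⟨m, N, φ', ψ', h', e'⟩
    refine ⟨n + m, M + N, Fin.append φ φ', Fin.append ψ ψ', fun i => ?_, fun p => ?_⟩
    · refine Fin.addCases (fun i => ?_) (fun i => ?_) i
      · rw [Fin.append_left, Fin.append_left]
        exact ⟨(h i).1, Poly_mono (Nat.le_add_right _ _) (h i).2.1, (h i).2.2.1,
          Poly_mono (Nat.le_add_right _ _) (h i).2.2.2⟩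
      · rw [Fin.append_right, Fin.append_right]
        exact ⟨(h' i).1, Poly_mono (Nat.le_add_left _ _) (h' i).2.1, (h' i).2.2.1,
          Poly_mono (Nat.le_add_left _ _) (h' i).2.2.2⟩
    · rw [fm_append, Pi.add_apply (∑ i, px (φ i) * pi' (ψ i)), ← e, ← e']
      simp only [Pi.add_apply]
      ring

/-- polynomials that are even in both variables are dense -/
theorem exists_poly_near {F : Fm → ℝ} (hF : Continuous F) (h1 : F ∘ ngx = F) (h2 : F ∘ ngi = F)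
    {η : ℝ} (hη : 0 < η) : ∃ (n N : ℕ) (φ ψ : Fin n → Sm),
      (∀ i, φ i ∈ Ev ∧ φ i ∈ Poly N ∧ ψ i ∈ Ev ∧ ψ i ∈ Poly N) ∧
      ∀ p, |F p - (∑ i, px (φ i) * pi' (ψ i)) p| ≤ η := by
  obtain ⟨a, ha, h⟩ := fm_near hF hη
  obtain ⟨n, N, φ, ψ, hm, e⟩ := fm_sym ha
  refine ⟨n, N, φ, ψ, hm, fun p => ?_⟩
  have e1 : ∀ q, F (ngx q) = F q := congrFun h1
  have e2 : ∀ q, F (ngi q) = F q := congrFun h2
  have k0 := abs_le.1 (h p)
  have k1 := abs_le.1 (h (ngx p))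
  have k2 := abs_le.1 (h (ngi p))
  have k3 := abs_le.1 (h (ngx (ngi p)))
  rw [e1] at k1 k3
  rw [e2] at k2 k3
  rw [← e]
  exact abs_le.2 ⟨by linarith [k0.1, k1.1, k2.1, k3.1], by linarith [k0.2, k1.2, k2.2, k3.2]⟩
theorem exists_Sy_near {F : Fm → ℝ} (hF : Continuous F) {η : ℝ} (hη : 0 < η) :
    ∃ a ∈ Sy, ∀ p, |F p - a p| ≤ η := by
  obtain ⟨a, ha, h⟩ := fm_near hF hη
  exact ⟨a, fm_gen_ind (Q := fun a => a ∈ Sy) (zero_mem _) (fun φ ψ _ _ => fm_mul_mem φ ψ)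
    (fun _ _ h h' => add_mem h h') ha, h⟩

end Pool.Agent.Lib.MP_2fa2a2_gt.PI
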