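import Pool.Agent.Lib.MP_2fa2a2_gt.PI.Alg

/-! Normally convergent series of smooth functions. -/

namespace Pool.Agent.Lib.MP_2fa2a2_gt.PI

open scoped ContDiff

theorem sum_nrmz_smul {c : ℝ} (hc : 0 < c) (z : E3) : nrmz (c • z) = nrmz z := by
  by_cases hz : z = 0
  · simp [hz]
  · have h1 : c • z ≠ 0 := smul_ne_zero hc.ne' hz
    apply Subtype.ext
    rw [nrmz_val h1, nrmz_val hz, norm_smul, Real.norm_eq_abs, abs_of_pos hc, smul_smul]
    congr 1
    have : ‖z‖ ≠ 0 := norm_ne_zero_iff.mpr hz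
    field_simp

theorem sum_fderiv_unit (φ : Sm) (x : S2) :
    fderiv ℝ (ext0 φ) (x : E3) = ∑ a, D a φ x • (EuclideanSpace.proj a : E3 →L[ℝ] ℝ) := by
  ext v
  have hv : v = ∑ a, v a • EuclideanSpace.single a (1 : ℝ) := by
    ext b
    simp [Pi.single_apply]
  conv_lhs => rw [hv]
  simp only [map_sum, map_smul, sum_apply, smul_apply,
    ← D_apply, smul_eq_mul]
  refine Finset.sum_congr rfl fun a _ => ?_
  simp [mul_comm]

theorem sum_hasFDerivAt (φ : Sm) {y : E3} (hy : y ≠ 0) :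
    HasFDerivAt (ext0 φ)
      (‖y‖⁻¹ • ∑ a, ext0 (D a φ) y • (EuclideanSpace.proj a : E3 →L[ℝ] ℝ)) y := by
  have hc : 0 < ‖y‖⁻¹ := inv_pos.mpr (norm_pos_iff.mpr hy)
  have e : ext0 φ = ext0 φ ∘ fun z : E3 => ‖y‖⁻¹ • z := by
    funext z
    simp only [Function.comp, ext0, sum_nrmz_smul hc]
  have hne : (nrmz y : E3) ≠ 0 := by
    rw [nrmz_val hy]; exact smul_ne_zero hc.ne' hy
  have h1 : HasFDerivAt (ext0 φ) (fderiv ℝ (ext0 φ) (nrmz y : E3)) (‖y‖⁻¹ • y) := by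
    rw [← nrmz_val hy]
    exact ((φ.smoothAt hne).differentiableAt (by simp)).hasFDerivAt
  have h2 : HasFDerivAt (fun z : E3 => ‖y‖⁻¹ • z) (‖y‖⁻¹ • ContinuousLinearMap.id ℝ E3) y :=
    (hasFDerivAt_id y).fun_const_smul _
  have h3 := HasFDerivAt.comp y h1 h2
  rw [← e] at h3
  have e2 : (fderiv ℝ (ext0 φ) (nrmz y : E3)).comp (‖y‖⁻¹ • ContinuousLinearMap.id ℝ E3) =
      ‖y‖⁻¹ • ∑ a, ext0 (D a φ) y • (EuclideanSpace.proj a : E3 →L[ℝ] ℝ) := by
    rw [ContinuousLinearMap.comp_smul, ContinuousLinearMap.comp_id, sum_fderiv_unit]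
    rfl
  rw [e2] at h3
  exact h3

/-- the hypothesis of normal convergence -/
def sum_Hyp (φ : ℕ → Sm) : Prop := ∀ k, ∃ B : ℕ → ℝ, Summable B ∧ ∀ n, Cb k 1 (B n) (φ n)

theorem sum_Hyp.L {φ : ℕ → Sm} (h : sum_Hyp φ) (b : Fin 3) : sum_Hyp fun n => L b (φ n) := by
  intro k
  obtain ⟨B, hB, hb⟩ := h (k + 1)
  refine ⟨B, hB, fun n w hw x => ?_⟩
  have := hb n (w ++ [b]) (by simp; omega) x
  rw [Lw_append] at this
  simpa using this

theorem sum_Hyp.bound {φ : ℕ → Sm} (h : sum_Hyp φ) :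
    ∃ B : ℕ → ℝ, Summable B ∧ ∀ n x, |φ n x| ≤ B n := by
  obtain ⟨B, hB, hb⟩ := h 0
  exact ⟨B, hB, fun n x => by simpa using hb n [] (by simp) x⟩

theorem sum_Hyp.summable {φ : ℕ → Sm} (h : sum_Hyp φ) (x : S2) : Summable fun n => φ n x := by
  obtain ⟨B, hB, hb⟩ := h.bound
  exact Summable.of_norm_bounded hB fun n => by simpa using hb n x

/-- the sum of the extensions -/
noncomputable def sum_S (φ : ℕ → Sm) (y : E3) : ℝ := ∑' n, ext0 (φ n) y

/-- its derivative -/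
noncomputable def sum_G (φ : ℕ → Sm) (y : E3) : E3 →L[ℝ] ℝ :=
  ‖y‖⁻¹ • ∑ a : Fin 3, (ext0 (X (a + 2)) y * sum_S (fun n => L (a + 1) (φ n)) y
    - ext0 (X (a + 1)) y * sum_S (fun n => L (a + 2) (φ n)) y) •
      (EuclideanSpace.proj a : E3 →L[ℝ] ℝ)

theorem sum_hasSum_G {φ : ℕ → Sm} (h : sum_Hyp φ) (y : E3) :
    HasSum (fun n => ‖y‖⁻¹ • ∑ a, ext0 (D a (φ n)) y • (EuclideanSpace.proj a : E3 →L[ℝ] ℝ))
      (sum_G φ y) := by
  refine HasSum.const_smul _ (hasSum_sum fun a _ => HasSum.smul_const ?_ _)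
  have h1 := ((h.L (a + 1)).summable (nrmz y)).hasSum.mul_left (ext0 (X (a + 2)) y)
  have h2 := ((h.L (a + 2)).summable (nrmz y)).hasSum.mul_left (ext0 (X (a + 1)) y)
  exact h1.sub h2

theorem sum_abs_D {B : ℝ} {v : Sm} (h : Cb 1 1 B v) (a : Fin 3) (x : S2) : |D a v x| ≤ 2 * B := by
  have h1 : |L (a + 1) v x| ≤ B := by simpa using h [a + 1] (by simp) x
  have h2 : |L (a + 2) v x| ≤ B := by simpa using h [a + 2] (by simp) x
  have h3 := abs_X_le (a + 2) x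
  have h4 := abs_X_le (a + 1) x
  have e : D a v x = X (a + 2) x * L (a + 1) v x - X (a + 1) x * L (a + 2) v x := rfl
  rw [e]
  have h5 : |X (a + 2) x * L (a + 1) v x| ≤ B := by
    rw [abs_mul]
    calc _ ≤ 1 * B := mul_le_mul h3 h1 (abs_nonneg _) zero_le_one
      _ = B := one_mul B
  have h6 : |X (a + 1) x * L (a + 2) v x| ≤ B := by
    rw [abs_mul]
    calc _ ≤ 1 * B := mul_le_mul h4 h2 (abs_nonneg _) zero_le_one
      _ = B := one_mul B
  calc _ ≤ |X (a + 2) x * L (a + 1) v x| + |X (a + 1) x * L (a + 2) v x| := abs_sub _ _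
    _ ≤ 2 * B := by linarith

theorem sum_norm_proj (a : Fin 3) : ‖(EuclideanSpace.proj a : E3 →L[ℝ] ℝ)‖ ≤ 1 := by
  refine ContinuousLinearMap.opNorm_le_bound _ zero_le_one fun v => ?_
  simpa using PiLp.norm_apply_le v a

theorem sum_hasFDerivAt_S {φ : ℕ → Sm} (h : sum_Hyp φ) {y : E3} (hy : y ≠ 0) :
    HasFDerivAt (sum_S φ) (sum_G φ y) y := by
  obtain ⟨B, hB, hb⟩ := h 1
  have hp : 0 < ‖y‖ := norm_pos_iff.mpr hy
  have hlow : ∀ z ∈ Metric.ball y (‖y‖ / 2), ‖y‖ / 2 ≤ ‖z‖ := by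
    intro z hz
    rw [mem_ball_iff_norm] at hz
    have := norm_sub_norm_le y z
    rw [norm_sub_rev] at this
    linarith
  have hne : ∀ z ∈ Metric.ball y (‖y‖ / 2), z ≠ 0 := by
    intro z hz h0
    have := hlow z hz
    rw [h0, norm_zero] at this
    linarith
  have key := hasFDerivAt_tsum_of_isPreconnected (𝕜 := ℝ) (f := fun n => ext0 (φ n))
    (f' := fun n z => ‖z‖⁻¹ • ∑ a, ext0 (D a (φ n)) z • (EuclideanSpace.proj a : E3 →L[ℝ] ℝ))
    (u := fun n => (‖y‖ / 2)⁻¹ * (3 * (2 * B n))) (s := Metric.ball y (‖y‖ / 2)) (x₀ := y) (x := y)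
    (((hB.mul_left 2).mul_left 3).mul_left _) Metric.isOpen_ball
    (convex_ball y _).isPreconnected
    (fun n z hz => sum_hasFDerivAt (φ n) (hne z hz))
    (fun n z hz => by
      rw [norm_smul, norm_inv, norm_norm]
      have h1 : ‖z‖⁻¹ ≤ (‖y‖ / 2)⁻¹ := inv_anti₀ (by linarith) (hlow z hz)
      have h2 : ‖∑ a, ext0 (D a (φ n)) z • (EuclideanSpace.proj a : E3 →L[ℝ] ℝ)‖
          ≤ 3 * (2 * B n) := by
        refine (norm_sum_le _ _).trans ?_
        have : ∀ a : Fin 3, ‖ext0 (D a (φ n)) z • (EuclideanSpace.proj a : E3 →L[ℝ] ℝ)‖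
            ≤ 2 * B n := by
          intro a
          rw [norm_smul]
          have h3 : |D a (φ n) (nrmz z)| ≤ 2 * B n := sum_abs_D (hb n) a _
          calc _ ≤ (2 * B n) * 1 :=
                mul_le_mul h3 (sum_norm_proj a) (norm_nonneg _) ((abs_nonneg _).trans h3)
            _ = 2 * B n := mul_one _
        calc _ ≤ ∑ _a : Fin 3, 2 * B n := Finset.sum_le_sum fun a _ => this a
          _ = 3 * (2 * B n) := by simp
      exact mul_le_mul h1 h2 (norm_nonneg _) (by positivity))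
    (Metric.mem_ball_self (by linarith)) (sum_Hyp.summable h (nrmz y))
    (Metric.mem_ball_self (by linarith))
  rw [(sum_hasSum_G h y).tsum_eq] at key
  exact key

theorem sum_contDiffOn (k : ℕ) : ∀ {φ : ℕ → Sm}, sum_Hyp φ → ContDiffOn ℝ k (sum_S φ) {0}ᶜ := by
  induction k with
  | zero =>
    intro φ h
    refine contDiffOn_zero.mpr fun y hy => ?_
    exact (sum_hasFDerivAt_S h hy).continuousAt.continuousWithinAt
  | succ k ih =>
    intro φ h
    have e : ((k + 1 : ℕ) : WithTop ℕ∞) = (k : WithTop ℕ∞) + 1 := by push_cast; rfl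
    rw [e, contDiffOn_succ_iff_fderiv_of_isOpen isOpen_compl_singleton]
    refine ⟨fun y hy => (sum_hasFDerivAt_S h hy).differentiableAt.differentiableWithinAt,
      fun h0 => absurd h0 (by simp), ?_⟩
    have hG : ContDiffOn ℝ k (sum_G φ) {0}ᶜ := by
      have hn : ContDiffOn ℝ k (fun y : E3 => ‖y‖⁻¹) {0}ᶜ := fun y hy =>
        ((contDiffAt_norm ℝ hy).inv (norm_ne_zero_iff.mpr hy)).contDiffWithinAt
      have hX : ∀ a, ContDiffOn ℝ k (ext0 (X a)) {0}ᶜ := fun a =>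
        (X a).smooth.of_le (by exact_mod_cast le_top)
      refine hn.smul (ContDiffOn.sum fun a _ => ContDiffOn.fun_smul ?_ contDiffOn_const)
      exact ((hX _).mul (ih (h.L _))).sub ((hX _).mul (ih (h.L _)))
    exact hG.congr fun y hy => (sum_hasFDerivAt_S h hy).fderiv

/-- a series all of whose derivatives converge normally has a smooth sum -/
theorem exists_sum (φ : ℕ → Sm)
    (h : ∀ k, ∃ B : ℕ → ℝ, Summable B ∧ ∀ n, Cb k 1 (B n) (φ n)) :
    ∃ ψ : Sm, ∀ x, HasSum (fun n => φ n x) (ψ x) := by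
  have hs : ContDiffOn ℝ ∞ (ext0 fun x => ∑' n, φ n x) {0}ᶜ :=
    contDiffOn_infty.mpr fun k => sum_contDiffOn k h
  exact ⟨(⟨fun x => ∑' n, φ n x, hs⟩ : smAlg), fun x => (sum_Hyp.summable h x).hasSum⟩

end Pool.Agent.Lib.MP_2fa2a2_gt.PI
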