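import Pool.Agent.Lib.MP_2fa2a2_gt.PI.Harm
import Pool.Agent.Lib.MP_2fa2a2_gt.PI.Sum

/-! Functions of the Laplacian and Sobolev norms. -/

namespace Pool.Agent.Lib.MP_2fa2a2_gt.PI

open scoped ContDiff

/-- polynomial growth -/
def PG (c : ℕ → ℝ) : Prop := ∃ (C : ℝ) (k : ℕ), ∀ l, |c l| ≤ C * ((l : ℝ) + 1) ^ k

theorem fnx_one_le (l : ℕ) : (1 : ℝ) ≤ (l : ℝ) + 1 := by
  have : (0 : ℝ) ≤ l := Nat.cast_nonneg l
  linarith

theorem fnx_C_nonneg {c : ℕ → ℝ} {C : ℝ} {k : ℕ} (h : ∀ l, |c l| ≤ C * ((l : ℝ) + 1) ^ k) :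
    0 ≤ C := by
  have := (abs_nonneg _).trans (h 0)
  simpa using this

theorem PG.of_le {c d : ℕ → ℝ} (h : PG d) (hc : ∀ l, |c l| ≤ |d l|) : PG c := by
  obtain ⟨C, k, h⟩ := h
  exact ⟨C, k, fun l => (hc l).trans (h l)⟩
theorem PG.of_bdd {c : ℕ → ℝ} {B : ℝ} (hc : ∀ l, |c l| ≤ B) : PG c :=
  ⟨B, 0, fun l => by simpa using hc l⟩
theorem PG.mul {c d : ℕ → ℝ} (h : PG c) (h' : PG d) : PG (fun l => c l * d l) := by
  obtain ⟨C, k, h⟩ := h
  obtain ⟨C', k', h'⟩ := h'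
  refine ⟨C * C', k + k', fun l => ?_⟩
  rw [abs_mul, pow_add, mul_mul_mul_comm]
  exact mul_le_mul (h l) (h' l) (abs_nonneg _) ((abs_nonneg _).trans (h l))
theorem PG.add {c d : ℕ → ℝ} (h : PG c) (h' : PG d) : PG (fun l => c l + d l) := by
  obtain ⟨C, k, h⟩ := h
  obtain ⟨C', k', h'⟩ := h'
  refine ⟨C + C', k + k', fun l => ?_⟩
  have h1 : C * ((l : ℝ) + 1) ^ k ≤ C * ((l : ℝ) + 1) ^ (k + k') :=
    mul_le_mul_of_nonneg_left (pow_le_pow_right₀ (fnx_one_le l) (by omega)) (fnx_C_nonneg h)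
  have h2 : C' * ((l : ℝ) + 1) ^ k' ≤ C' * ((l : ℝ) + 1) ^ (k + k') :=
    mul_le_mul_of_nonneg_left (pow_le_pow_right₀ (fnx_one_le l) (by omega)) (fnx_C_nonneg h')
  have h3 := abs_add_le (c l) (d l)
  rw [add_mul]
  linarith [h l, h' l]
theorem PG.sub {c d : ℕ → ℝ} (h : PG c) (h' : PG d) : PG (fun l => c l - d l) := by
  have h1 : PG (fun l => -d l) := h'.of_le fun l => by rw [abs_neg]
  simpa only [sub_eq_add_neg] using h.add h1
theorem PG.pow {c : ℕ → ℝ} (h : PG c) (n : ℕ) : PG (fun l => c l ^ n) := by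
  induction n with
  | zero => exact PG.of_bdd (B := 1) fun l => by simp
  | succ n ih => simpa only [pow_succ] using ih.mul h
theorem PG_ll : PG ll := by
  refine ⟨1, 2, fun l => ?_⟩
  have : (0 : ℝ) ≤ l := Nat.cast_nonneg l
  unfold ll
  rw [abs_of_nonneg (by positivity)]
  nlinarith

theorem fnx_norm_P (l : ℕ) (φ : Sm) : ‖P l φ‖ ≤ ‖φ‖ := by
  rw [← sq_le_sq₀ (norm_nonneg _) (norm_nonneg _)]
  exact le_hasSum (parseval_sq φ) l fun _ _ => sq_nonneg _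

theorem fnx_decay (j : ℕ) : ∀ ψ : Sm, ∃ A, ∀ l : ℕ, ((l : ℝ) + 1) ^ j * ‖P l ψ‖ ≤ A := by
  induction j with
  | zero => exact fun ψ => ⟨‖ψ‖, fun l => by simpa using fnx_norm_P l ψ⟩
  | succ j ih =>
    intro ψ
    obtain ⟨A, hA⟩ := ih ψ
    obtain ⟨A', hA'⟩ := ih (lap ψ)
    refine ⟨A + A', fun l => ?_⟩
    have h0 : (0 : ℝ) ≤ l := Nat.cast_nonneg l
    have h1 := hA' l
    have h2 : 0 ≤ ll l := by unfold ll; positivity
    rw [P_lap, norm_smul, norm_neg, Real.norm_eq_abs, abs_of_nonneg h2] at h1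
    have h3 : (l : ℝ) + 1 ≤ 1 + ll l := by unfold ll; nlinarith
    have h4 : 0 ≤ ((l : ℝ) + 1) ^ j * ‖P l ψ‖ := by positivity
    have h5 := mul_le_mul_of_nonneg_right h3 h4
    have h6 := hA l
    rw [pow_succ]
    nlinarith

theorem fnx_P_Lw (l : ℕ) (w : List (Fin 3)) (φ : Sm) : P l (Lw w φ) = Lw w (P l φ) := by
  induction w with
  | nil => rfl
  | cons a w ih => rw [Lw_cons, Lw_cons, P_L, ih]

theorem fnx_sup (l : ℕ) (φ : Sm) (x : S2) : |P l φ x| ≤ ((l : ℝ) + 1) ^ 2 * ‖P l φ‖ := by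
  have h1 := sq_le_of_Poly (P_mem l φ) x
  have h2 : ((l : ℝ) + 1) ^ 3 ≤ ((l : ℝ) + 1) ^ 4 := pow_le_pow_right₀ (fnx_one_le l) (by omega)
  have h3 := mul_le_mul_of_nonneg_right h2 (sq_nonneg ‖P l φ‖)
  refine abs_le_of_sq_le_sq' ?_ (by positivity) |> abs_le.2
  rw [mul_pow, ← pow_mul]
  exact h1.trans h3

theorem fnx_hyp {c : ℕ → ℝ} (hc : PG c) (φ : Sm) (k : ℕ) :
    ∃ B : ℕ → ℝ, Summable B ∧ ∀ n, Cb k 1 (B n) (c n • P n φ) := by
  obtain ⟨C, m, hC⟩ := hc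
  choose A hA using fun w => fnx_decay (m + 4) (Lw w φ)
  obtain ⟨A0, hA0⟩ := ((List.finite_length_le (Fin 3) k).image A).bddAbove
  have hs : Summable fun n : ℕ => 1 / ((n : ℝ) + 1) ^ 2 := by
    have := (summable_nat_add_iff 1).2 (Real.summable_one_div_nat_pow.2 one_lt_two)
    simpa only [Nat.cast_add, Nat.cast_one] using this
  refine ⟨fun n => (C * A0) * (1 / ((n : ℝ) + 1) ^ 2), hs.mul_left _, fun n w hw x => ?_⟩
  have h1 : A w ≤ A0 := hA0 ⟨w, hw, rfl⟩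
  have h2 := (hA w n).trans h1
  have h3 := fnx_sup n (Lw w φ) x
  have h0 : (0 : ℝ) < (n : ℝ) + 1 := by positivity
  beta_reduce
  rw [one_pow, mul_one, map_smul, ← fnx_P_Lw, Sm.smul_apply, abs_mul, mul_one_div,
    le_div_iff₀ (by positivity)]
  have h4 := mul_le_mul (hC n) h3 (abs_nonneg _) ((abs_nonneg _).trans (hC n))
  have h5 := mul_le_mul_of_nonneg_right h4 (sq_nonneg ((n : ℝ) + 1))
  have h6 := mul_le_mul_of_nonneg_left h2 (fnx_C_nonneg hC)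
  refine h5.trans (le_of_eq_of_le ?_ h6)
  ring

theorem exists_fn {c : ℕ → ℝ} (hc : PG c) (φ : Sm) : ∃ ψ, ∀ l, P l ψ = c l • P l φ := by
  obtain ⟨ψ, hψ⟩ := exists_sum (fun n => c n • P n φ) (fnx_hyp hc φ)
  obtain ⟨B, hB, hb⟩ := fnx_hyp hc φ 0
  refine ⟨ψ, fun l => ?_⟩
  have key : ∀ N, l < N → ‖P l ψ - c l • P l φ‖ ≤ ∑' n, B (n + N) := by
    intro N hN
    have e : P l (∑ n ∈ Finset.range N, c n • P n φ) = c l • P l φ := by
      rw [map_sum, Finset.sum_eq_single l]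
      · rw [map_smul, P_P, if_pos rfl]
      · intro n _ hn
        rw [map_smul, P_P, if_neg hn.symm, smul_zero]
      · intro h
        exact absurd (Finset.mem_range.2 hN) h
    rw [← e, ← map_sub]
    refine (fnx_norm_P _ _).trans (norm_le_of_sup fun x => ?_)
    have h1 := (hasSum_nat_add_iff' N).2 (hψ x)
    rw [Sm.sub_apply, Sm.sum_apply, ← Real.norm_eq_abs]
    refine h1.norm_le_of_bounded ((summable_nat_add_iff N).2 hB).hasSum fun n => ?_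
    simpa using hb (n + N) [] le_rfl x
  have h0 : ‖P l ψ - c l • P l φ‖ ≤ 0 :=
    ge_of_tendsto (tendsto_sum_nat_add B)
      (Filter.eventually_atTop.2 ⟨l + 1, fun N hN => key N hN⟩)
  exact sub_eq_zero.1 (norm_le_zero_iff.1 h0)

open Classical in
/-- the multiplier with eigenvalue `c l` on the harmonics of degree `l` -/
noncomputable def fn (c : ℕ → ℝ) : Sm →ₗ[ℝ] Sm :=
  if h : PG c then
    { toFun := fun φ => (exists_fn h φ).choose
      map_add' := fun φ ψ => eq_of_P fun l => by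
        rw [map_add, (exists_fn h _).choose_spec, (exists_fn h _).choose_spec,
          (exists_fn h _).choose_spec, map_add, smul_add]
      map_smul' := fun r φ => eq_of_P fun l => by
        rw [RingHom.id_apply, map_smul, (exists_fn h _).choose_spec,
          (exists_fn h _).choose_spec, map_smul, smul_comm] }
  else 0

theorem fnx_zero {c : ℕ → ℝ} (hc : ¬PG c) (φ : Sm) : fn c φ = 0 := by
  rw [fn, dif_neg hc, LinearMap.zero_apply]

theorem P_fn {c : ℕ → ℝ} (hc : PG c) (l : ℕ) (φ : Sm) : P l (fn c φ) = c l • P l φ := by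
  rw [fn, dif_pos hc]
  exact (exists_fn hc φ).choose_spec l
theorem fn_P {c : ℕ → ℝ} (hc : PG c) (l : ℕ) (φ : Sm) : fn c (P l φ) = c l • P l φ := by
  refine eq_of_P fun k => ?_
  rw [P_fn hc, map_smul, P_P]
  split_ifs with h
  · rw [h]
  · rw [smul_zero, smul_zero]
theorem fn_fn {c d : ℕ → ℝ} (hc : PG c) (hd : PG d) (φ : Sm) :
    fn c (fn d φ) = fn (fun l => c l * d l) φ :=
  eq_of_P fun l => by rw [P_fn hc, P_fn hd, P_fn (hc.mul hd), smul_smul]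

theorem fnx_comm (c : ℕ → ℝ) (A : Sm →ₗ[ℝ] Sm) (hA : ∀ l φ, P l (A φ) = A (P l φ)) (φ : Sm) :
    fn c (A φ) = A (fn c φ) := by
  by_cases hc : PG c
  · exact eq_of_P fun l => by rw [P_fn hc, hA, hA, P_fn hc, map_smul]
  · rw [fnx_zero hc, fnx_zero hc, map_zero]

theorem fn_comm (c d : ℕ → ℝ) (φ : Sm) : fn c (fn d φ) = fn d (fn c φ) := by
  refine fnx_comm c (fn d) (fun l ψ => ?_) φ
  by_cases hd : PG d
  · rw [P_fn hd, fn_P hd]
  · rw [fnx_zero hd, fnx_zero hd, map_zero]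
theorem fn_add {c d : ℕ → ℝ} (hc : PG c) (hd : PG d) (φ : Sm) :
    fn (fun l => c l + d l) φ = fn c φ + fn d φ :=
  eq_of_P fun l => by rw [map_add, P_fn hc, P_fn hd, P_fn (hc.add hd), add_smul]
theorem fn_sub {c d : ℕ → ℝ} (hc : PG c) (hd : PG d) (φ : Sm) :
    fn (fun l => c l - d l) φ = fn c φ - fn d φ :=
  eq_of_P fun l => by rw [map_sub, P_fn hc, P_fn hd, P_fn (hc.sub hd), sub_smul]

theorem fnx_const (r : ℝ) : PG (fun _ => r) := PG.of_bdd (B := |r|) fun _ => le_rfl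

theorem fn_const (r : ℝ) (φ : Sm) : fn (fun _ => r) φ = r • φ :=
  eq_of_P fun l => by rw [P_fn (fnx_const r), map_smul]
theorem fn_smul {c : ℕ → ℝ} (hc : PG c) (r : ℝ) (φ : Sm) :
    fn (fun l => r * c l) φ = r • fn c φ := by
  rw [← fn_fn (fnx_const r) hc, fn_const]
theorem fn_ll (φ : Sm) : fn ll φ = -lap φ :=
  eq_of_P fun l => by rw [P_fn PG_ll, map_neg, P_lap, neg_smul, neg_neg]
theorem fn_congr {c d : ℕ → ℝ} (hc : PG c) (hd : PG d) {φ : Sm}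
    (h : ∀ l, P l φ ≠ 0 → c l = d l) : fn c φ = fn d φ := by
  refine eq_of_P fun l => ?_
  rw [P_fn hc, P_fn hd]
  by_cases h0 : P l φ = 0
  · rw [h0, smul_zero, smul_zero]
  · rw [h l h0]
theorem fn_L (c : ℕ → ℝ) (a : Fin 3) (φ : Sm) : fn c (L a φ) = L a (fn c φ) :=
  fnx_comm c (L a) (fun l ψ => P_L l a ψ) φ
theorem fn_Lw (c : ℕ → ℝ) (w : List (Fin 3)) (φ : Sm) : fn c (Lw w φ) = Lw w (fn c φ) :=
  fnx_comm c (Lw w) (fun l ψ => fnx_P_Lw l w ψ) φ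
theorem fn_act (c : ℕ → ℝ) (g : E3 ≃ₗᵢ[ℝ] E3) (φ : Sm) :
    fn c (act g φ) = act g (fn c φ) :=
  fnx_comm c (act g).toLinearMap (fun l ψ => P_act l g ψ) φ
theorem fn_Pi (c : ℕ → ℝ) (N : ℕ) (φ : Sm) : fn c (Pi N φ) = Pi N (fn c φ) := by
  refine fnx_comm c (Pi N) (harm_comm_P (Pi N) fun M ψ => ?_) φ
  rcases le_total M N with h | h
  · rw [harm_Pi_Pi h, Pi_of_mem (Poly_mono h (Pi_mem M ψ))]
  · rw [harm_Pi_Pi h, Pi_of_mem (Poly_mono h (Pi_mem N ψ))]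
theorem fn_mem_Poly (c : ℕ → ℝ) {N : ℕ} {φ : Sm} (h : φ ∈ Poly N) : fn c φ ∈ Poly N := by
  rw [← Pi_of_mem h, fn_Pi]
  exact Pi_mem _ _

theorem fnx_ant (c : ℕ → ℝ) (φ : Sm) : ant (fn c φ) = fn c (ant φ) := (fn_act c _ φ).symm

theorem fn_mem_Ev (c : ℕ → ℝ) {φ : Sm} (h : φ ∈ Ev) : fn c φ ∈ Ev := by
  rw [mem_Ev, fnx_ant, mem_Ev.1 h]
theorem fn_mem_Od (c : ℕ → ℝ) {φ : Sm} (h : φ ∈ Od) : fn c φ ∈ Od := by
  rw [mem_Od, fnx_ant, mem_Od.1 h, map_neg]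
theorem fn_mem_Zi (c : ℕ → ℝ) {m : ℕ} {φ : Sm} (h : φ ∈ Zi m) : fn c φ ∈ Zi m := by
  rw [mem_Zi, ← fn_act, mem_Zi.1 h]
theorem inner_fn (c : ℕ → ℝ) (φ ψ : Sm) : inner ℝ (fn c φ) ψ = inner ℝ φ (fn c ψ) := by
  by_cases hc : PG c
  · have h1 := parseval (fn c φ) ψ
    have h2 := parseval φ (fn c ψ)
    simp only [P_fn hc, real_inner_smul_left, real_inner_smul_right] at h1 h2
    exact h1.unique h2
  · rw [fnx_zero hc, fnx_zero hc, inner_zero_left, inner_zero_right]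
theorem I_fn {c : ℕ → ℝ} (hc : PG c) (φ : Sm) : I (fn c φ) = c 0 * I φ := by
  have h := congrArg I (P_fn hc 0 φ)
  rwa [P_zero, P_zero, map_smul, harm_I_alg, harm_I_alg, smul_eq_mul] at h
theorem hasSum_inner_fn {c : ℕ → ℝ} (hc : PG c) (φ : Sm) :
    HasSum (fun l => c l * ‖P l φ‖ ^ 2) (inner ℝ (fn c φ) φ) := by
  have h := parseval (fn c φ) φ
  simpa only [P_fn hc, real_inner_smul_left, real_inner_self_eq_norm_sq] using h
theorem hasSum_fn_sq {c : ℕ → ℝ} (hc : PG c) (φ : Sm) :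
    HasSum (fun l => c l ^ 2 * ‖P l φ‖ ^ 2) (‖fn c φ‖ ^ 2) := by
  have h := parseval_sq (fn c φ)
  simpa only [P_fn hc, norm_smul, mul_pow, Real.norm_eq_abs, sq_abs] using h
theorem norm_fn_le {c d : ℕ → ℝ} (hc : PG c) (hd : PG d) {B : ℝ} (hB : 0 ≤ B) {φ : Sm}
    (h : ∀ l, P l φ ≠ 0 → |c l| ≤ B * |d l|) : ‖fn c φ‖ ≤ B * ‖fn d φ‖ := by
  rw [← sq_le_sq₀ (norm_nonneg _) (by positivity), mul_pow]
  refine hasSum_le (fun l => ?_) (hasSum_fn_sq hc φ) ((hasSum_fn_sq hd φ).mul_left (B ^ 2))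
  by_cases h0 : P l φ = 0
  · simp [h0]
  · have h1 := pow_le_pow_left₀ (abs_nonneg _) (h l h0) 2
    rw [mul_pow, sq_abs, sq_abs] at h1
    rw [← mul_assoc]
    exact mul_le_mul_of_nonneg_right h1 (sq_nonneg _)
theorem norm_fn_le_bdd {c : ℕ → ℝ} {B : ℝ} (h : ∀ l, |c l| ≤ B) (φ : Sm) :
    ‖fn c φ‖ ≤ B * ‖φ‖ := by
  have h1 := norm_fn_le (φ := φ) (PG.of_bdd h) (fnx_const 1) ((abs_nonneg _).trans (h 0))
    fun l _ => by simpa using h l
  rwa [fn_const, one_smul] at h1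
theorem inner_fn_le {c d : ℕ → ℝ} (hc : PG c) (hd : PG d) {φ : Sm}
    (h : ∀ l, P l φ ≠ 0 → c l ≤ d l) : inner ℝ (fn c φ) φ ≤ inner ℝ (fn d φ) φ := by
  refine hasSum_le (fun l => ?_) (hasSum_inner_fn hc φ) (hasSum_inner_fn hd φ)
  by_cases h0 : P l φ = 0
  · simp [h0]
  · exact mul_le_mul_of_nonneg_right (h l h0) (sq_nonneg _)

theorem fnx_zav_add (φ ψ : Sm) (x : S2) : zav (φ + ψ : Sm) x = zav φ x + zav ψ x := by
  unfold zav
  simp only [Sm.add_apply]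
  rw [intervalIntegral.integral_add ((poly_cont φ x).intervalIntegrable _ _)
    ((poly_cont ψ x).intervalIntegrable _ _), mul_add]

theorem fnx_zav_smul (r : ℝ) (φ : Sm) (x : S2) : zav (r • φ : Sm) x = r * zav φ x := by
  unfold zav
  simp only [Sm.smul_apply]
  rw [intervalIntegral.integral_const_mul, mul_left_comm]

theorem fnx_zav_zero (x : S2) : zav (0 : Sm) x = 0 := by simp [zav]

theorem fnx_zav_of_P {ψ : Sm} (h : ∀ l x, zav (P l ψ) x = 0) (x : S2) : zav ψ x = 0 := by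
  have h1 : ∀ N y, zav (Pi N ψ) y = 0 := by
    intro N y
    induction N with
    | zero => exact h 0 y
    | succ N ih =>
      have e : Pi (N + 1) ψ = P (N + 1) ψ + Pi N ψ := by rw [harm_P_succ, sub_add_cancel]
      rw [e, fnx_zav_add, h, ih, add_zero]
  have hc : Continuous fun y => zav ψ y ^ 2 := (continuous_zav ψ.continuous).pow 2
  have h2 : ∀ N, ∫ y, zav ψ y ^ 2 ∂sig ≤ ‖ψ - Pi N ψ‖ ^ 2 := by
    intro N
    have hc2 : Continuous fun y => (ψ - Pi N ψ : Sm) y ^ 2 := (ψ - Pi N ψ).continuous.pow 2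
    have e : ‖ψ - Pi N ψ‖ ^ 2 = ∫ y, (ψ - Pi N ψ : Sm) y ^ 2 ∂sig := by
      rw [norm_sq_eq, I_def]
      simp only [Sm.mul_apply, sq]
    rw [e, ← integral_zav hc2]
    refine MeasureTheory.integral_mono (integrable_of_continuous hc)
      (integrable_of_continuous (continuous_zav hc2)) fun y => ?_
    have e2 : zav ψ y = zav (ψ - Pi N ψ : Sm) y := by
      have := fnx_zav_add (ψ - Pi N ψ) (Pi N ψ) y
      rwa [sub_add_cancel, h1, add_zero] at this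
    have := zav_sq_le (ψ - Pi N ψ).continuous y
    rwa [← e2] at this
  have h3 : ∫ y, zav ψ y ^ 2 ∂sig ≤ 0 ^ 2 :=
    ge_of_tendsto' ((tendsto_Pi ψ).pow 2) h2
  have h4 : ∫ y, zav ψ y ^ 2 ∂sig = 0 :=
    le_antisymm (by simpa using h3) (MeasureTheory.integral_nonneg fun y => sq_nonneg _)
  have h5 := (MeasureTheory.integral_eq_zero_iff_of_nonneg (fun y => sq_nonneg _)
    (integrable_of_continuous hc)).1 h4
  have h6 := congrFun ((hc.ae_eq_iff_eq sig continuous_zero).1 h5) x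
  exact pow_eq_zero_iff two_ne_zero |>.1 h6

theorem zav_fn (c : ℕ → ℝ) {φ : Sm} (h0 : ∀ x, zav φ x = 0) (x : S2) :
    zav (fn c φ) x = 0 := by
  by_cases hc : PG c
  · refine fnx_zav_of_P (fun l y => ?_) x
    rw [P_fn hc, fnx_zav_smul, zav_P h0, mul_zero]
  · rw [fnx_zero hc, fnx_zav_zero]

end Pool.Agent.Lib.MP_2fa2a2_gt.PI
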