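import Pool.Agent.Lib.MP_2fa2a2_gt.PI.Ops

/-! The ladder relations and the Funk transform. -/

namespace Pool.Agent.Lib.MP_2fa2a2_gt.PI

open Real

/-- eigenvalues of the Funk transform -/
noncomputable def cR : ℕ → ℝ
  | 0 => 1
  | 1 => 0
  | l + 2 => -((l : ℝ) + 1) / (l + 2) * cR l

/-- the Funk transform (mean over great circles) -/
noncomputable def R : Sm →ₗ[ℝ] Sm := fn cR
/-- its inverse on even functions (the inverse of zero is zero) -/
noncomputable def Ri : Sm →ₗ[ℝ] Sm := fn (fun l => (cR l)⁻¹)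

theorem funk_rec (l : ℕ) : cR (l + 2) = -((l : ℝ) + 1) / (l + 2) * cR l := rfl

theorem funk_odd (k : ℕ) : cR (2 * k + 1) = 0 := by
  induction k with
  | zero => rfl
  | succ k ih => rw [show 2 * (k + 1) + 1 = 2 * k + 1 + 2 by ring, funk_rec, ih, mul_zero]

theorem cR_odd {l : ℕ} (h : Odd l) : cR l = 0 := by
  obtain ⟨k, rfl⟩ := h
  exact funk_odd k

theorem funk_sq (l : ℕ) : cR (l + 2) ^ 2 * ((l : ℝ) + 2) ^ 2 = cR l ^ 2 * ((l : ℝ) + 1) ^ 2 := by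
  have h : (l : ℝ) + 2 ≠ 0 := by positivity
  rw [funk_rec]
  field_simp

theorem funk_up (l : ℕ) :
    cR l ^ 2 * ((l : ℝ) + 1 / 2) ≤ cR (l + 2) ^ 2 * (((l + 2 : ℕ) : ℝ) + 1 / 2) := by
  have h : (0 : ℝ) < ((l : ℝ) + 2) ^ 2 := by positivity
  refine le_of_mul_le_mul_right ?_ h
  have e : cR (l + 2) ^ 2 * (((l + 2 : ℕ) : ℝ) + 1 / 2) * ((l : ℝ) + 2) ^ 2
      = cR l ^ 2 * (((l : ℝ) + 1) ^ 2 * ((l : ℝ) + 2 + 1 / 2)) := by
    rw [← mul_assoc, ← funk_sq]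
    push_cast
    ring
  rw [e, mul_assoc]
  refine mul_le_mul_of_nonneg_left ?_ (sq_nonneg _)
  nlinarith

theorem funk_down (l : ℕ) :
    cR (l + 2) ^ 2 * (((l + 2 : ℕ) : ℝ) + 1) ≤ cR l ^ 2 * ((l : ℝ) + 1) := by
  have h : (0 : ℝ) < ((l : ℝ) + 2) ^ 2 := by positivity
  refine le_of_mul_le_mul_right ?_ h
  have e : cR (l + 2) ^ 2 * (((l + 2 : ℕ) : ℝ) + 1) * ((l : ℝ) + 2) ^ 2
      = cR l ^ 2 * (((l : ℝ) + 1) ^ 2 * ((l : ℝ) + 2 + 1)) := by
    rw [← mul_assoc, ← funk_sq]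
    push_cast
    ring
  rw [e, mul_assoc]
  refine mul_le_mul_of_nonneg_left ?_ (sq_nonneg _)
  have : (0 : ℝ) ≤ l := Nat.cast_nonneg l
  nlinarith

theorem funk_mono : Monotone fun k : ℕ => cR (2 * k) ^ 2 * (((2 * k : ℕ) : ℝ) + 1 / 2) :=
  monotone_nat_of_le_succ fun k => funk_up (2 * k)

theorem funk_anti : Antitone fun k : ℕ => cR (2 * k) ^ 2 * (((2 * k : ℕ) : ℝ) + 1) :=
  antitone_nat_of_succ_le fun k => funk_down (2 * k)

theorem funk_le (l : ℕ) : cR l ^ 2 * ((l : ℝ) + 1 / 2) ≤ cR l ^ 2 * ((l : ℝ) + 1) :=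
  mul_le_mul_of_nonneg_left (by linarith) (sq_nonneg _)

theorem funk_zero : cR 0 = 1 := rfl

theorem cR_bounds {l : ℕ} (h : Even l) :
    1 / 2 ≤ cR l ^ 2 * (l + 1) ∧ cR l ^ 2 * (l + 1) ≤ 1 := by
  obtain ⟨k, rfl⟩ := even_iff_exists_two_mul.1 h
  have h1 := funk_mono (Nat.zero_le k)
  have h2 := funk_anti (Nat.zero_le k)
  simp only [mul_zero, funk_zero, Nat.cast_zero, one_pow, one_mul, zero_add] at h1 h2
  exact ⟨h1.trans (funk_le _), h2⟩

theorem funk_cross (j k : ℕ) : cR (2 * j) ^ 2 * (((2 * j : ℕ) : ℝ) + 1 / 2)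
    ≤ cR (2 * k) ^ 2 * (((2 * k : ℕ) : ℝ) + 1) := by
  rcases le_total j k with h | h
  · exact (funk_mono h).trans (funk_le _)
  · exact (funk_le _).trans (funk_anti h)

/-- Wallis asymptotics -/
theorem cR_asymp : ∃ κ C : ℝ, 0 < κ ∧ ∀ l, Even l →
    |cR l ^ 2 * √(1 + ll l) / κ - 1| ≤ C / (l + 1) := by
  set f : ℕ → ℝ := fun k => cR (2 * k) ^ 2 * (((2 * k : ℕ) : ℝ) + 1 / 2) with hf
  have hb : BddAbove (Set.range f) := ⟨_, by rintro _ ⟨j, rfl⟩; exact funk_cross j 0⟩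
  have hlo : ∀ k, f k ≤ ⨆ j, f j := fun k => le_ciSup hb k
  have hhi : ∀ k, ⨆ j, f j ≤ cR (2 * k) ^ 2 * (((2 * k : ℕ) : ℝ) + 1) :=
    fun k => ciSup_le fun j => funk_cross j k
  have h0 : 1 / 2 ≤ ⨆ j, f j := by
    have := hlo 0
    simpa only [hf, mul_zero, funk_zero, Nat.cast_zero, one_pow, one_mul, zero_add] using this
  set κ := ⨆ j, f j
  have hκ : 0 < κ := by linarith
  refine ⟨κ, 1, hκ, fun l hl => ?_⟩
  have hB := (cR_bounds hl).2
  obtain ⟨k, rfl⟩ := even_iff_exists_two_mul.1 hl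
  have h1 := hlo k
  have h2 := hhi k
  simp only [hf] at h1
  set n : ℝ := ((2 * k : ℕ) : ℝ) with hn
  have hn0 : 0 ≤ n := Nat.cast_nonneg _
  have hll : ll (2 * k) = n * (n + 1) := rfl
  have s1 : n + 1 / 2 ≤ √(1 + ll (2 * k)) := by
    refine Real.le_sqrt_of_sq_le ?_
    rw [hll]
    nlinarith
  have s2 : √(1 + ll (2 * k)) ≤ n + 1 := by
    refine Real.sqrt_le_iff.2 ⟨by linarith, ?_⟩
    rw [hll]
    nlinarith
  set b := cR (2 * k) ^ 2
  have hb0 : 0 ≤ b := sq_nonneg _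
  have t1 := mul_le_mul_of_nonneg_left s1 hb0
  have t2 := mul_le_mul_of_nonneg_left s2 hb0
  have hd : |b * √(1 + ll (2 * k)) - κ| ≤ b / 2 := by
    rw [abs_le]
    constructor <;> nlinarith
  have e : b * √(1 + ll (2 * k)) / κ - 1 = (b * √(1 + ll (2 * k)) - κ) / κ := by
    field_simp
  rw [e, abs_div, abs_of_pos hκ, div_le_div_iff₀ hκ (by linarith)]
  have := mul_le_mul_of_nonneg_right hd (show 0 ≤ n + 1 by linarith)
  nlinarith

theorem funk_sq_le (l : ℕ) : cR l ^ 2 * (l + 1) ≤ 1 := by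
  rcases Nat.even_or_odd l with h | h
  · exact (cR_bounds h).2
  · rw [cR_odd h]
    simp

theorem funk_abs_le (l : ℕ) : |cR l| ≤ 1 := by
  have h := funk_sq_le l
  have : (0 : ℝ) ≤ l := Nat.cast_nonneg l
  refine abs_le_one_iff_mul_self_le_one.2 ?_
  nlinarith [sq_nonneg (cR l)]

theorem funk_inv_sq_le (l : ℕ) : (cR l)⁻¹ ^ 2 ≤ 2 * ((l : ℝ) + 1) := by
  have hl : (0 : ℝ) < l + 1 := by positivity
  rcases Nat.even_or_odd l with h | h
  · have h1 := (cR_bounds h).1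
    have h2 : 0 < cR l ^ 2 := by
      by_contra hc
      have : cR l ^ 2 = 0 := le_antisymm (not_lt.1 hc) (sq_nonneg _)
      rw [this] at h1
      linarith
    rw [inv_pow, inv_le_iff_one_le_mul₀ h2]
    linarith
  · rw [cR_odd h]
    simp only [inv_zero, ne_eq, OfNat.ofNat_ne_zero, not_false_eq_true, zero_pow]
    positivity

theorem funk_ne {l : ℕ} (h : Even l) : cR l ≠ 0 := by
  intro h0
  have h1 := (cR_bounds h).1
  rw [h0] at h1
  norm_num at h1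

theorem PG_cR : PG cR := PG.of_bdd funk_abs_le

theorem PG_cRi : PG (fun l => (cR l)⁻¹) := by
  refine ⟨2, 1, fun l => ?_⟩
  have h := funk_inv_sq_le l
  have : (0 : ℝ) ≤ l := Nat.cast_nonneg l
  refine abs_le_of_sq_le_sq' ?_ (by positivity) |> abs_le.2
  nlinarith

theorem funk_mem_Ev {c : ℕ → ℝ} (hc : PG c) (h : ∀ l, Odd l → c l = 0) (φ : Sm) :
    fn c φ ∈ Ev := by
  rw [mem_Ev]
  refine eq_of_P fun l => ?_
  rw [harm_P_ant, ant_P, P_fn hc]
  rcases Nat.even_or_odd l with hl | hl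
  · rw [hl.neg_one_pow, one_smul]
  · rw [h l hl, zero_smul, smul_zero]

theorem R_mem_Ev (φ : Sm) : R φ ∈ Ev := funk_mem_Ev PG_cR (fun _ => cR_odd) φ

theorem Ri_mem_Ev (φ : Sm) : Ri φ ∈ Ev :=
  funk_mem_Ev PG_cRi (fun _ h => by rw [cR_odd h, inv_zero]) φ

theorem funk_P_R (l : ℕ) (φ : Sm) : P l (R φ) = cR l • P l φ := P_fn PG_cR l φ

theorem funk_P_Ri (l : ℕ) (φ : Sm) : P l (Ri φ) = (cR l)⁻¹ • P l φ := P_fn PG_cRi l φ

theorem R_of_Od {φ : Sm} (h : φ ∈ Od) : R φ = 0 := by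
  refine eq_of_P fun l => ?_
  rw [funk_P_R, map_zero]
  rcases Nat.even_or_odd l with hl | hl
  · rw [P_of_Od h hl, smul_zero]
  · rw [cR_odd hl, zero_smul]

theorem funk_P_evp (l : ℕ) (φ : Sm) : P l (evp φ) = (cR l * (cR l)⁻¹) • P l φ := by
  rcases Nat.even_or_odd l with hl | hl
  · rw [mul_inv_cancel₀ (funk_ne hl), one_smul]
    show P l ((1 / 2 : ℝ) • (φ + ant φ)) = _
    rw [map_smul, map_add, harm_P_ant, ant_P, hl.neg_one_pow, one_smul, ← two_smul ℝ, smul_smul]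
    norm_num
  · rw [P_of_Ev (evp_mem φ) hl, cR_odd hl, zero_mul, zero_smul]

theorem R_Ri (φ : Sm) : R (Ri φ) = evp φ :=
  eq_of_P fun l => by rw [funk_P_R, funk_P_Ri, funk_P_evp, smul_smul]

theorem Ri_R (φ : Sm) : Ri (R φ) = evp φ :=
  eq_of_P fun l => by rw [funk_P_Ri, funk_P_R, funk_P_evp, smul_smul, mul_comm]

theorem evp_of_Ev {φ : Sm} (h : φ ∈ Ev) : evp φ = φ := by
  show (1 / 2 : ℝ) • (φ + ant φ) = φ
  rw [mem_Ev.1 h, ← two_smul ℝ, smul_smul]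
  norm_num

theorem R_one : R 1 = 1 := by
  refine eq_of_P fun l => ?_
  rw [funk_P_R]
  rcases Nat.eq_zero_or_pos l with rfl | hl
  · rw [funk_zero, one_smul]
  · rw [P_of_lt (one_mem_Poly 0) hl, smul_zero]

theorem Bd_R {lam : ℝ} (hl : 1 ≤ lam) (s : ℝ) : Bd lam s s 1 R := by
  intro φ
  refine nrm_fn hl zero_le_one PG_cR fun l _ => ?_
  rw [sub_self, nrmx_wt_zero, one_mul]
  exact funk_abs_le l

theorem funk_wt_half {lam : ℝ} (hl : 1 ≤ lam) (l : ℕ) :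
    (wt lam (1 / 2) l ^ 2) ^ 2 = lam ^ 2 + ll l := by
  rw [← nrmx_wt_one_sq hl, sq (wt lam (1 / 2) l), ← nrmx_wt_add hl]
  norm_num

theorem funk_wt_ge {lam : ℝ} (hl : 1 ≤ lam) (l : ℕ) :
    (l : ℝ) + 1 ≤ 2 * wt lam (1 / 2) l ^ 2 := by
  have h := funk_wt_half hl l
  have : (0 : ℝ) ≤ l := Nat.cast_nonneg l
  have e : ll l = l * (l + 1) := rfl
  refine nrmx_sq ?_ (by positivity)
  nlinarith

theorem Bd_R_half (s : ℝ) : Bd 1 s (s + 1 / 2) 2 R := by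
  intro φ
  refine nrm_fn le_rfl two_pos.le PG_cR fun l _ => ?_
  have hw := nrmx_wt_pos (lam := 1) le_rfl (1 / 2) l
  rw [show s - (s + 1 / 2) = -(1 / 2) by ring, opsx_wt_neg, ← div_eq_mul_inv, le_div_iff₀ hw]
  have h := funk_wt_half (lam := 1) le_rfl l
  have : (0 : ℝ) ≤ l := Nat.cast_nonneg l
  have e : ll l = l * (l + 1) := rfl
  have h1 : wt 1 (1 / 2) l ^ 2 ≤ (l : ℝ) + 1 := by
    refine nrmx_sq ?_ (by positivity)
    nlinarith
  have h2 := funk_sq_le l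
  have h3 := mul_le_mul_of_nonneg_left h1 (sq_nonneg (cR l))
  refine nrmx_sq ?_ two_pos.le
  rw [mul_pow, sq_abs]
  linarith

theorem Bd_Ri {lam : ℝ} (hl : 1 ≤ lam) (s : ℝ) : Bd lam (s + 1 / 2) s 2 Ri := by
  intro φ
  refine nrm_fn hl two_pos.le PG_cRi fun l _ => ?_
  have hw := nrmx_wt_pos hl (1 / 2) l
  rw [show s + 1 / 2 - s = 1 / 2 by ring]
  have h1 := funk_wt_ge hl l
  have h2 := funk_inv_sq_le l
  refine nrmx_sq ?_ (by positivity)
  rw [mul_pow, sq_abs]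
  linarith

theorem Bd_L_R {lam : ℝ} (hl : 1 ≤ lam) (s : ℝ) (a : Fin 3) :
    Bd lam (s + 1 / 2) s 2 (L a ∘ₗ R) := by
  intro φ
  have h0 : nrm lam s (L a (R φ)) ≤ nrm lam s (fn (fun l => √(ll l) * cR l) φ) := by
    unfold nrm R
    rw [fn_L, ← fn_fn opsx_PG_sqrt PG_cR, fn_comm (wt lam s) (fun l => √(ll l))]
    exact opsx_norm_L a _
  refine h0.trans (nrm_fn hl two_pos.le (opsx_PG_sqrt.mul PG_cR) fun l _ => ?_)
  have hw := nrmx_wt_pos hl (1 / 2) l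
  rw [show s + 1 / 2 - s = 1 / 2 by ring]
  have h1 := funk_wt_ge hl l
  have h2 := funk_sq_le l
  have : (0 : ℝ) ≤ l := Nat.cast_nonneg l
  have e : ll l = l * (l + 1) := rfl
  refine nrmx_sq ?_ (by positivity)
  rw [mul_pow, sq_abs, mul_pow, Real.sq_sqrt (nrmx_ll_nonneg l), e]
  nlinarith

theorem funk_two (φ : Sm) : 2 * φ = (2 : ℝ) • φ := by rw [two_mul, two_smul]

theorem funk_D_one (a : Fin 3) : D a 1 = 0 := by
  rw [← hess_kd_self a]
  exact hess_D_kd a a a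

theorem funk_ll_pred (l : ℕ) : ll (l - 1) = l * (l - 1) := by
  cases l with
  | zero => simp [ll]
  | succ n =>
    simp only [ll, Nat.add_sub_cancel]
    push_cast
    ring

/-- ladder relations -/
theorem ladder (l : ℕ) (a : Fin 3) {y : Sm} (hy : P l y = y) :
    ∃ yp ym : Sm, P (l + 1) yp = yp ∧ (l = 0 → ym = 0) ∧ P (l - 1) ym = ym ∧
      X a * y = yp + ym ∧ D a y = -(l : ℝ) • yp + ((l : ℝ) + 1) • ym := by
  have hlap : lap y = -ll l • y := by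
    have := lap_P l y
    rwa [hy] at this
  have hU := lap_X_mul a y
  have hW := lap_D_sub a y
  rw [hlap, mul_smul_comm, funk_two] at hU
  rw [hlap, mul_smul_comm, map_smul, map_sub, hU, funk_two, funk_two] at hW
  set U := X a * y with hUdef
  set V := D a y with hVdef
  have hV : lap V = -ll l • V + (2 * ll l) • U := by
    rw [sub_eq_iff_eq_add] at hW
    rw [hW]
    module
  have e : ll l = l * (l + 1) := rfl
  have e1 : ll (l + 1) = (l + 1) * (l + 2) := by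
    simp only [ll]
    push_cast
    ring
  have hn : (2 * (l : ℝ) + 1) ≠ 0 := by positivity
  refine ⟨(2 * (l : ℝ) + 1)⁻¹ • (((l : ℝ) + 1) • U - V), (2 * (l : ℝ) + 1)⁻¹ • (V + (l : ℝ) • U),
    P_eq_of_eigen ?_, ?_, P_eq_of_eigen ?_, ?_, ?_⟩
  · rw [map_smul, map_sub, map_smul, hU, hV, e1, e]
    module
  · rintro rfl
    have h0 : V = 0 := by
      rw [hVdef, ← hy, P_zero, Algebra.algebraMap_eq_smul_one, map_smul, funk_D_one, smul_zero]
    rw [h0]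
    simp
  · rw [map_smul, map_add, map_smul, hU, hV, funk_ll_pred, e]
    module
  · match_scalars <;> field_simp <;> ring
  · match_scalars <;> field_simp <;> ring

theorem funk_R_of {j : ℕ} {z : Sm} (hz : P j z = z) : R z = cR j • z := by
  have := fn_P PG_cR j z
  rwa [hz] at this

theorem funk_Dp_of {j : ℕ} {z : Sm} (hz : P j z = z) : Dp z = (2 - ll j)⁻¹ • z := by
  have := fn_P opsx_PG_Dp j z
  rwa [hz] at this

theorem funk_XX (a b : Fin 3) (l : ℕ) {y : Sm} (hy : P l y = y) :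
    R (X a * X b * y) = H a b (Dp (R y)) := by
  obtain ⟨p, m, hp, hm0, hm, hX, hD⟩ := ladder l b hy
  obtain ⟨pp, pm, hpp, -, hpm, hXp, hDp⟩ := ladder (l + 1) a hp
  obtain ⟨mp, mm, hmp, hmm0, hmm, hXm, hDm⟩ := ladder (l - 1) a hm
  rw [Nat.add_sub_cancel] at hpm
  rw [funk_R_of hy, map_smul, funk_Dp_of hy, map_smul, map_smul, H_def, hD, hX, mul_assoc, hX,
    mul_add]
  simp only [map_add, map_smul]
  rw [hXp, hDp, map_add, funk_R_of hpp, funk_R_of hpm, funk_rec]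
  rcases l with _ | _ | k
  · rw [hm0 rfl]
    simp only [mul_zero, map_zero, funk_zero, ll]
    match_scalars <;> norm_num
  · rw [hXm, map_add, funk_R_of hmp, hmm0 rfl]
    have h1 : cR (0 + 1) = 0 := rfl
    simp only [h1, map_zero, mul_zero, zero_smul, add_zero]
  · have e1 : k + 1 + 1 - 1 + 1 = k + 2 := rfl
    have e2 : k + 1 + 1 - 1 - 1 = k := rfl
    have e3 : k + 1 + 1 - 1 = k + 1 := rfl
    have e4 : 2 - ll (k + 1 + 1) = -((k + 1) * (k + 4)) := by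
      simp only [ll]
      push_cast
      ring
    rw [hXm, hDm, map_add, funk_R_of hmp, funk_R_of hmm, e1, e2, e3, e4, funk_rec]
    have h1 : (k : ℝ) + 1 ≠ 0 := by positivity
    have h2 : (k : ℝ) + 2 ≠ 0 := by positivity
    have h4 : (k : ℝ) + 4 ≠ 0 := by positivity
    have h5 : (k : ℝ) + 1 + 1 + 2 ≠ 0 := by positivity
    match_scalars <;> field_simp <;> ring

theorem funk_ext {A B A' B' : Sm → Sm} (hA : ∀ φ ψ, inner ℝ (A φ) ψ = inner ℝ φ (A' ψ))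
    (hB : ∀ φ ψ, inner ℝ (B φ) ψ = inner ℝ φ (B' ψ)) (h : ∀ l φ, A (P l φ) = B (P l φ))
    (φ : Sm) : A φ = B φ := by
  refine ext_inner_right ℝ fun ψ => ?_
  rw [hA, hB]
  refine congrArg _ (eq_of_P fun l => ext_inner_left ℝ fun χ => ?_)
  rw [← inner_P, ← inner_P, ← hA, ← hB, h]

theorem R_XX (a b : Fin 3) (e : Sm) : R (X a * X b * e) = H a b (Dp (R e)) := by
  refine funk_ext (A := fun e => R (X a * X b * e)) (B := fun e => H a b (Dp (R e)))
    (A' := fun ψ => X a * X b * R ψ) (B' := fun ψ => R (Dp (Hs a b ψ)))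
    (fun φ ψ => ?_) (fun φ ψ => ?_) (fun l φ => funk_XX a b l ?_) e
  · unfold R
    rw [inner_fn, inner_mul]
  · unfold R Dp
    rw [inner_H, inner_fn, inner_fn]
  · rw [P_P, if_pos rfl]

end Pool.Agent.Lib.MP_2fa2a2_gt.PI
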