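import Pool.Agent.Lib.MP_2fa2a2_gt.PI.SGeo

namespace Pool.Agent.Lib.MP_2fa2a2_gt.PI

open Real

/-- comparison for the equation `g'' + g ≥ 0` on an interval of length at most `π` -/
theorem geob_ode {g g1 g2 : ℝ → ℝ} (h1 : ∀ t, HasDerivAt g (g1 t) t)
    (h2 : ∀ t, HasDerivAt g1 (g2 t) t) (hp : ∀ t, 0 ≤ g t + g2 t) {T : ℝ} (h0 : 0 ≤ T)
    (hT : T ≤ π) : g 0 * cos T + g1 0 * sin T ≤ g T := by
  have hW : ∀ s, HasDerivAt (fun s => g s * cos (T - s) + g1 s * sin (T - s))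
      ((g s + g2 s) * sin (T - s)) s := fun s => by
    have hs : HasDerivAt (fun s => T - s) (-1) s := by simpa using (hasDerivAt_id s).const_sub T
    refine (((h1 s).mul hs.cos).add ((h2 s).mul hs.sin)).congr_deriv ?_
    ring
  have hm : MonotoneOn (fun s => g s * cos (T - s) + g1 s * sin (T - s)) (Set.Icc 0 T) := by
    refine monotoneOn_of_deriv_nonneg (convex_Icc 0 T)
      (fun s _ => (hW s).continuousAt.continuousWithinAt)
      (fun s _ => (hW s).differentiableAt.differentiableWithinAt) fun s hs => ?_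
    rw [interior_Icc] at hs
    rw [(hW s).deriv]
    exact mul_nonneg (hp s) (sin_nonneg_of_nonneg_of_le_pi (by linarith [hs.2]) (by linarith [hs.1]))
  simpa using hm ⟨le_rfl, h0⟩ ⟨h0, le_rfl⟩ h0

/-- the great circle through `ν` in the direction `e` -/
noncomputable def geobC (ν : S2) (e : E3) (t : ℝ) : S2 := nrmz (cos t • (ν : E3) + sin t • e)

/-- its axis -/
noncomputable def geobW (ν : S2) (e : E3) (c : Fin 3) : ℝ :=
  (ν : E3) (c + 1) * e (c + 2) - (ν : E3) (c + 2) * e (c + 1)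

section
variable {ν : S2} {e : E3} (he : ‖e‖ = 1) (ho : inner ℝ (ν : E3) e = (0 : ℝ))
include he ho

theorem geob_coe (t : ℝ) : (geobC ν e t : E3) = cos t • (ν : E3) + sin t • e := by
  have h : ‖cos t • (ν : E3) + sin t • e‖ = 1 := by
    have h2 : ‖cos t • (ν : E3) + sin t • e‖ ^ 2 = 1 := by
      rw [norm_add_sq_real, norm_smul, norm_smul, inner_smul_left, inner_smul_right, ho, he,
        base_norm]
      simp
    exact (pow_eq_one_iff_of_nonneg (norm_nonneg _) two_ne_zero).1 h2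
  have h0 : cos t • (ν : E3) + sin t • e ≠ 0 := by
    rw [← norm_ne_zero_iff, h]; exact one_ne_zero
  rw [geobC, nrmz_val h0, h, inv_one, one_smul]

omit ho in
theorem geob_e_sq : e 0 * e 0 + e 1 * e 1 + e 2 * e 2 = 1 := by
  have h := EuclideanSpace.real_norm_sq_eq e
  rw [he, Fin.sum_univ_three] at h
  linarith

omit he in
theorem geob_o : (ν : E3) 0 * e 0 + (ν : E3) 1 * e 1 + (ν : E3) 2 * e 2 = 0 := by
  have h := ho
  simp only [PiLp.inner_apply, Fin.sum_univ_three, RCLike.inner_apply, conj_trivial] at h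
  linarith

theorem geob_W_le (c : Fin 3) : |geobW ν e c| ≤ 1 := by
  have h1 := geob_e_sq he
  have h2 := geob_o ho
  have h3 := base_sum_sq ν
  have h4 : geobW ν e 0 ^ 2 + geobW ν e 1 ^ 2 + geobW ν e 2 ^ 2 = 1 := by
    have e0 : geobW ν e 0 = (ν : E3) 1 * e 2 - (ν : E3) 2 * e 1 := rfl
    have e1 : geobW ν e 1 = (ν : E3) 2 * e 0 - (ν : E3) 0 * e 2 := rfl
    have e2 : geobW ν e 2 = (ν : E3) 0 * e 1 - (ν : E3) 1 * e 0 := rfl
    rw [e0, e1, e2]
    linear_combination (e 0 * e 0 + e 1 * e 1 + e 2 * e 2) * h3 + h1 -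
      ((ν : E3) 0 * e 0 + (ν : E3) 1 * e 1 + (ν : E3) 2 * e 2) * h2
  rw [← sq_le_one_iff_abs_le_one]
  rcases alg_fin c with rfl | rfl | rfl <;> nlinarith [sq_nonneg (geobW ν e 0),
    sq_nonneg (geobW ν e 1), sq_nonneg (geobW ν e 2)]

theorem geob_vel (t : ℝ) (a : Fin 3) : (-sin t • (ν : E3) + cos t • e) a =
    ∑ c, geobW ν e c * rv c (geobC ν e t : E3) a := by
  have h1 := geob_e_sq he
  have h2 := geob_o ho
  have h3 := base_sum_sq ν
  have e0 : geobW ν e 0 = (ν : E3) 1 * e 2 - (ν : E3) 2 * e 1 := rfl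
  have e1 : geobW ν e 1 = (ν : E3) 2 * e 0 - (ν : E3) 0 * e 2 := rfl
  have e2 : geobW ν e 2 = (ν : E3) 0 * e 1 - (ν : E3) 1 * e 0 := rfl
  rw [Fin.sum_univ_three, e0, e1, e2, geob_coe he ho]
  rcases alg_fin a with rfl | rfl | rfl
  · simp [rv]
    linear_combination (-cos t * e 0) * h3 + (cos t * (ν : E3) 0 - sin t * e 0) * h2
      + sin t * (ν : E3) 0 * h1
  · simp [rv]
    linear_combination (-cos t * e 1) * h3 + (cos t * (ν : E3) 1 - sin t * e 1) * h2
      + sin t * (ν : E3) 1 * h1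
  · simp [rv]
    linear_combination (-cos t * e 2) * h3 + (cos t * (ν : E3) 2 - sin t * e 2) * h2
      + sin t * (ν : E3) 2 * h1

theorem geob_der0 (φ : Sm) (t : ℝ) : HasDerivAt (fun s => φ (geobC ν e s))
    (∑ a, (-sin t • (ν : E3) + cos t • e) a * D a φ (geobC ν e t)) t := by
  refine hasDerivAt_curve φ ?_
  simp only [geob_coe he ho]
  exact ((hasDerivAt_cos t).smul_const _).add ((hasDerivAt_sin t).smul_const _)

theorem geob_der (φ : Sm) (t : ℝ) : HasDerivAt (fun s => φ (geobC ν e s))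
    ((∑ c, geobW ν e c • L c φ) (geobC ν e t)) t := by
  refine (geob_der0 he ho φ t).congr_deriv ?_
  simp only [geob_vel he ho, Sm.sum_apply, Sm.smul_apply, L_eq_sum_D _ φ, Sm.mul_apply, base_L_X,
    Finset.mul_sum, Finset.sum_mul]
  rw [Finset.sum_comm]
  exact Finset.sum_congr rfl fun c _ => Finset.sum_congr rfl fun a _ => by ring

theorem geob_main {u : Sm} (hu : Cb 2 1 (1 / 10) u) {T : ℝ} (h0 : 0 ≤ T) (hT : T ≤ π) :
    inner ℝ (pvec u ν) (geobC ν e T : E3) ≤ 1 + u (geobC ν e T) := by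
  have key := geob_ode (g := fun s => 1 + u (geobC ν e s))
    (fun t => (geob_der he ho u t).const_add 1)
    (fun t => geob_der he ho (∑ c, geobW ν e c • L c u) t) (fun t => ?_) h0 hT
  · have hz : geobC ν e 0 = ν := Subtype.ext (by rw [geob_coe he ho]; simp)
    have hd := (geob_der he ho u 0).unique (geob_der0 he ho u 0)
    rw [hd, hz] at key
    refine le_trans (le_of_eq ?_) key
    have h2 := geob_o ho
    have h3 := base_sum_sq ν
    have h4 := congrArg (fun φ : Sm => φ ν) (sum_X_D u)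
    simp only [Fin.sum_univ_three, Sm.add_apply, Sm.mul_apply, X_apply, Sm.zero_apply] at h4
    rw [geob_coe he ho]
    simp [pvec, pv, PiLp.inner_apply, Fin.sum_univ_three]
    linear_combination (1 + u ν) * cos T * h3 + (1 + u ν) * sin T * h2 + cos T * h4
  · have hb : ∀ c d, |geobW ν e c * (geobW ν e d * L c (L d u) (geobC ν e t))| ≤ 1 / 10 := by
      intro c d
      have h1 : |L c (L d u) (geobC ν e t)| ≤ 1 / 10 := by simpa using hu [c, d] le_rfl _
      rw [abs_mul, abs_mul]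
      exact (mul_le_of_le_one_left (by positivity) (geob_W_le he ho c)).trans
        ((mul_le_of_le_one_left (abs_nonneg _) (geob_W_le he ho d)).trans h1)
    have h0' := (abs_le.1 (hu.abs_le (geobC ν e t))).1
    simp only [map_smul, Sm.smul_apply, Fin.sum_univ_three, map_add,
      Sm.add_apply, mul_add]
    linarith [(abs_le.1 (hb 0 0)).1, (abs_le.1 (hb 0 1)).1, (abs_le.1 (hb 0 2)).1,
      (abs_le.1 (hb 1 0)).1, (abs_le.1 (hb 1 1)).1, (abs_le.1 (hb 1 2)).1,
      (abs_le.1 (hb 2 0)).1, (abs_le.1 (hb 2 1)).1, (abs_le.1 (hb 2 2)).1]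

end

/-- two points of the sphere lie on an arc of length at most `π` -/
theorem geob_arc (ν μ : S2) : ∃ (e : E3) (T : ℝ), ‖e‖ = 1 ∧ inner ℝ (ν : E3) e = (0 : ℝ) ∧
    0 ≤ T ∧ T ≤ π ∧ (μ : E3) = cos T • (ν : E3) + sin T • e := by
  set c : ℝ := inner ℝ (ν : E3) (μ : E3) with hc
  have hc1 : |c| ≤ 1 := by
    simpa [base_norm] using abs_real_inner_le_norm (ν : E3) (μ : E3)
  set w : E3 := (μ : E3) - c • (ν : E3) with hw
  have hνν : inner ℝ (ν : E3) (ν : E3) = (1 : ℝ) := by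
    rw [real_inner_self_eq_norm_sq, base_norm, one_pow]
  have hwo : inner ℝ (ν : E3) w = (0 : ℝ) := by
    rw [hw, inner_sub_right, inner_smul_right, hνν, mul_one, sub_self]
  have hwn : ‖w‖ = sin (arccos c) := by
    rw [sin_arccos, ← sqrt_sq (norm_nonneg w), hw, norm_sub_sq_real, norm_smul, inner_smul_right,
      real_inner_comm, ← hc, base_norm, base_norm]
    congr 1
    rw [mul_one, Real.norm_eq_abs, sq_abs]
    ring
  have hcos : cos (arccos c) = c := cos_arccos (abs_le.1 hc1).1 (abs_le.1 hc1).2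
  obtain ⟨e, he, ho, hwe⟩ : ∃ e : E3, ‖e‖ = 1 ∧ inner ℝ (ν : E3) e = (0 : ℝ) ∧ w = ‖w‖ • e := by
    by_cases h0 : w = 0
    · obtain ⟨e1, e2, hf⟩ := exists_Fr ν
      exact ⟨e1, hf.n1, hf.o1, by rw [h0, norm_zero, zero_smul]⟩
    · have hn : ‖w‖ ≠ 0 := norm_ne_zero_iff.2 h0
      refine ⟨‖w‖⁻¹ • w, ?_, by rw [inner_smul_right, hwo, mul_zero], ?_⟩
      · rw [norm_smul, norm_inv, norm_norm, inv_mul_cancel₀ hn]
      · rw [smul_smul, mul_inv_cancel₀ hn, one_smul]
  refine ⟨e, arccos c, he, ho, arccos_nonneg c, arccos_le_pi c, ?_⟩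
  rw [hcos, ← hwn, ← hwe, hw, add_sub_cancel]

theorem geoB : GeoBStmt := by
  refine ⟨1 / 10, by norm_num, fun u hu ν μ => ?_⟩
  obtain ⟨e, T, he, ho, h0, hT, hμ⟩ := geob_arc ν μ
  have : μ = geobC ν e T := Subtype.ext (by rw [geob_coe he ho, hμ])
  rw [this]
  exact geob_main he ho hu h0 hT

end Pool.Agent.Lib.MP_2fa2a2_gt.PI
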