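import Pool.Agent.Lib.MP_2fa2a2_gt.PI.Poly

/-! Spherical harmonics. -/

namespace Pool.Agent.Lib.MP_2fa2a2_gt.PI

open scoped ContDiff

/-- orthogonal projection onto the polynomials of degree at most `N` -/
noncomputable def Pi (N : ℕ) : Sm →ₗ[ℝ] Sm :=
  (Poly N).subtype ∘ₗ ((Poly N).orthogonalProjectionOnto : Sm →ₗ[ℝ] Poly N)

/-- projection onto the spherical harmonics of degree `l` -/
noncomputable def P : ℕ → Sm →ₗ[ℝ] Sm
  | 0 => Pi 0
  | l + 1 => Pi (l + 1) - Pi l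

/-- eigenvalues of `-lap` -/
def ll (l : ℕ) : ℝ := l * (l + 1)

theorem harm_star (N : ℕ) (φ : Sm) : Pi N φ = (Poly N).starProjection φ := rfl

theorem Pi_mem (N : ℕ) (φ : Sm) : Pi N φ ∈ Poly N := by
  rw [harm_star]; exact Submodule.starProjection_apply_mem _ _

theorem Pi_of_mem {N : ℕ} {φ : Sm} (h : φ ∈ Poly N) : Pi N φ = φ := by
  rw [harm_star]; exact Submodule.starProjection_eq_self_iff.2 h

theorem inner_Pi (N : ℕ) (φ ψ : Sm) : inner ℝ (Pi N φ) ψ = inner ℝ φ (Pi N ψ) := by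
  rw [harm_star, harm_star]; exact Submodule.inner_starProjection_left_eq_right _ _ _

theorem norm_Pi_le (N : ℕ) (φ : Sm) : ‖Pi N φ‖ ≤ ‖φ‖ := by
  rw [harm_star]; exact Submodule.norm_starProjection_apply_le _ _

theorem harm_orth {N : ℕ} (φ : Sm) {q : Sm} (hq : q ∈ Poly N) : inner ℝ (φ - Pi N φ) q = 0 := by
  rw [harm_star]; exact Submodule.starProjection_inner_eq_zero _ _ hq

theorem harm_Pi_eq {N : ℕ} {φ p : Sm} (hp : p ∈ Poly N)
    (h : ∀ q ∈ Poly N, inner ℝ (φ - p) q = 0) : Pi N φ = p := by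
  rw [harm_star]; exact Submodule.eq_starProjection_of_mem_of_inner_eq_zero hp h

theorem harm_P_zero (φ : Sm) : P 0 φ = Pi 0 φ := rfl
theorem harm_P_succ (l : ℕ) (φ : Sm) : P (l + 1) φ = Pi (l + 1) φ - Pi l φ := rfl

theorem harm_comm (N : ℕ) (A B : Sm →ₗ[ℝ] Sm) (hAB : ∀ φ ψ, inner ℝ (A φ) ψ = inner ℝ φ (B ψ))
    (hA : ∀ φ ∈ Poly N, A φ ∈ Poly N) (hB : ∀ φ ∈ Poly N, B φ ∈ Poly N) (φ : Sm) :
    Pi N (A φ) = A (Pi N φ) := by
  refine harm_Pi_eq (hA _ (Pi_mem N φ)) fun q hq => ?_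
  rw [← map_sub, hAB]
  exact harm_orth φ (hB q hq)

theorem harm_comm_P (A : Sm →ₗ[ℝ] Sm) (h : ∀ N φ, Pi N (A φ) = A (Pi N φ)) (l : ℕ) (φ : Sm) :
    P l (A φ) = A (P l φ) := by
  cases l with
  | zero => rw [harm_P_zero, harm_P_zero, h]
  | succ l => rw [harm_P_succ, harm_P_succ, h, h, map_sub]

theorem harm_Pi_Pi {M N : ℕ} (h : M ≤ N) (φ : Sm) : Pi M (Pi N φ) = Pi M φ := by
  refine harm_Pi_eq (Pi_mem M φ) fun q hq => ?_
  have h1 := harm_orth φ hq
  have h2 := harm_orth φ (Poly_mono h hq)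
  rw [inner_sub_left] at h1 h2 ⊢
  linarith

theorem Pi_eq_sum (N : ℕ) (φ : Sm) : Pi N φ = ∑ l ∈ Finset.range (N + 1), P l φ := by
  induction N with
  | zero => simp [harm_P_zero]
  | succ N ih => rw [Finset.sum_range_succ, ← ih, harm_P_succ]; abel

theorem P_mem (l : ℕ) (φ : Sm) : P l φ ∈ Poly l := by
  cases l with
  | zero => exact Pi_mem 0 φ
  | succ l =>
    rw [harm_P_succ]
    exact (Poly (l + 1)).sub_mem (Pi_mem _ φ) (Poly_mono (Nat.le_succ l) (Pi_mem l φ))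

theorem inner_P (l : ℕ) (φ ψ : Sm) : inner ℝ (P l φ) ψ = inner ℝ φ (P l ψ) := by
  cases l with
  | zero => exact inner_Pi 0 φ ψ
  | succ l => rw [harm_P_succ, harm_P_succ, inner_sub_left, inner_sub_right, inner_Pi, inner_Pi]

theorem harm_Pi_P_lt {m l : ℕ} (h : m < l) (φ : Sm) : Pi m (P l φ) = 0 := by
  cases l with
  | zero => omega
  | succ l =>
    rw [harm_P_succ, map_sub, harm_Pi_Pi (by omega), harm_Pi_Pi (by omega), sub_self]

theorem harm_Pi_P_ge {m l : ℕ} (h : l ≤ m) (φ : Sm) : Pi m (P l φ) = P l φ :=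
  Pi_of_mem (Poly_mono h (P_mem l φ))

theorem P_P (k l : ℕ) (φ : Sm) : P k (P l φ) = if k = l then P l φ else 0 := by
  cases k with
  | zero =>
    rw [harm_P_zero]
    split_ifs with h
    · exact harm_Pi_P_ge h.ge φ
    · exact harm_Pi_P_lt (by omega) φ
  | succ k =>
    rw [harm_P_succ]
    split_ifs with h
    · rw [harm_Pi_P_ge h.ge, harm_Pi_P_lt (by omega), sub_zero]
    · rcases lt_or_gt_of_ne h with h | h
      · rw [harm_Pi_P_lt h, harm_Pi_P_lt (by omega), sub_zero]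
      · rw [harm_Pi_P_ge h.le, harm_Pi_P_ge (by omega), sub_self]

theorem P_of_lt {N l : ℕ} {φ : Sm} (h : φ ∈ Poly N) (hl : N < l) : P l φ = 0 := by
  cases l with
  | zero => omega
  | succ l =>
    rw [harm_P_succ, Pi_of_mem (Poly_mono (by omega) h), Pi_of_mem (Poly_mono (by omega) h),
      sub_self]

theorem harm_mono_mem {N : ℕ} {w : List (Fin 3)} (h : w.length ≤ N) : (w.map X).prod ∈ Poly N :=
  Submodule.subset_span ⟨w, h, rfl⟩

theorem harm_span_zero {V : Type} [AddCommGroup V] [Module ℝ V] (T : Sm →ₗ[ℝ] V)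
    (S : Submodule ℝ V) (h1 : T 1 ∈ S) : ∀ φ ∈ Poly 0, T φ ∈ S := by
  have : Poly 0 ≤ S.comap T := by
    refine Submodule.span_le.2 ?_
    rintro _ ⟨w, hw, rfl⟩
    have : w = [] := List.length_eq_zero_iff.1 (by omega)
    subst this
    simpa using h1
  exact fun φ hφ => this hφ

theorem harm_span_succ {V : Type} [AddCommGroup V] [Module ℝ V] (T : Sm →ₗ[ℝ] V)
    (S : Submodule ℝ V) (n : ℕ) (h1 : T 1 ∈ S) (h2 : ∀ b, ∀ ψ ∈ Poly n, T (X b * ψ) ∈ S) :
    ∀ φ ∈ Poly (n + 1), T φ ∈ S := by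
  have : Poly (n + 1) ≤ S.comap T := by
    refine Submodule.span_le.2 ?_
    rintro _ ⟨w, hw, rfl⟩
    cases w with
    | nil => simpa using h1
    | cons b w =>
      have hw' : w.length ≤ n := by simpa using hw
      simpa using h2 b _ (harm_mono_mem hw')
  exact fun φ hφ => this hφ

theorem harm_alg_mem (N : ℕ) (c : ℝ) : algebraMap ℝ Sm c ∈ Poly N := by
  rw [Algebra.algebraMap_eq_smul_one]
  exact (Poly N).smul_mem c (one_mem_Poly N)

theorem harm_I_alg (c : ℝ) : I (algebraMap ℝ Sm c) = c := by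
  rw [Algebra.algebraMap_eq_smul_one, map_smul, I_one, smul_eq_mul, mul_one]

theorem P_zero (φ : Sm) : P 0 φ = algebraMap ℝ Sm (I φ) := by
  refine harm_Pi_eq (harm_alg_mem 0 _) fun q hq => ?_
  have := harm_span_zero (innerₗ Sm (φ - algebraMap ℝ Sm (I φ))) ⊥ ?_ q hq
  · exact (Submodule.mem_bot ℝ).1 this
  · rw [Submodule.mem_bot, innerₗ_apply_apply, inner_def, mul_one, map_sub, harm_I_alg, sub_self]

theorem harm_two (x : S2) : (2 : Sm) x = 2 := rfl

theorem harm_I_X (a : Fin 3) : I (X a) = 0 := by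
  have h := I_lap (X a)
  rw [lap_X] at h
  have e : (-2 : Sm) * X a = (-2 : ℝ) • X a := by
    ext x; simp [harm_two]
  rw [e, map_smul, smul_eq_mul] at h
  linarith

theorem harm_I_XX (a b : Fin 3) : I (X a * X b) = if a = b then 1 / 3 else 0 := by
  have h := I_D a (X b)
  rw [D_X, map_sub] at h
  unfold kd at h
  split_ifs at h ⊢
  · rw [I_one] at h; linarith
  · rw [map_zero] at h; linarith

theorem harm_X_mem (a : Fin 3) : X a ∈ Poly 1 := by
  have := X_mul_mem (one_mem_Poly 0) a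
  simpa using this

theorem P_one (φ : Sm) : P 1 φ = ∑ a, (3 * I (X a * φ)) • X a := by
  have h0 : Pi 0 φ = algebraMap ℝ Sm (I φ) := P_zero φ
  have key : Pi 1 φ = algebraMap ℝ Sm (I φ) + ∑ a, (3 * I (X a * φ)) • X a := by
    refine harm_Pi_eq ((Poly 1).add_mem (harm_alg_mem 1 _)
      ((Poly 1).sum_mem fun a _ => (Poly 1).smul_mem _ (harm_X_mem a))) fun q hq => ?_
    have := harm_span_succ (innerₗ Sm (φ - (algebraMap ℝ Sm (I φ) +
      ∑ a, (3 * I (X a * φ)) • X a))) ⊥ 0 ?_ ?_ q hq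
    · exact (Submodule.mem_bot ℝ).1 this
    · rw [Submodule.mem_bot, innerₗ_apply_apply, inner_def, mul_one, map_sub, map_add, harm_I_alg,
        map_sum]
      simp [harm_I_X]
    · intro b ψ hψ
      refine harm_span_zero ((innerₗ Sm (φ - (algebraMap ℝ Sm (I φ) +
        ∑ a, (3 * I (X a * φ)) • X a))) ∘ₗ LinearMap.mulLeft ℝ (X b)) ⊥ ?_ ψ hψ
      rw [Submodule.mem_bot, LinearMap.comp_apply, LinearMap.mulLeft_apply, mul_one,
        innerₗ_apply_apply, inner_def, sub_mul, add_mul, Finset.sum_mul, map_sub, map_add, map_sum,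
        ← Algebra.smul_def, map_smul, harm_I_X, mul_comm φ]
      simp only [smul_mul_assoc, map_smul, harm_I_XX, smul_eq_mul, mul_ite, mul_zero,
        Finset.sum_ite_eq', Finset.mem_univ, if_true]
      ring
  have e : P 1 φ = Pi 1 φ - Pi 0 φ := rfl
  rw [e, key, h0]
  abel

theorem harm_Pi_L (N : ℕ) (a : Fin 3) (φ : Sm) : Pi N (L a φ) = L a (Pi N φ) := by
  refine harm_comm N (L a) (-L a) (fun φ ψ => ?_) (fun φ h => L_mem_Poly h a)
    (fun φ h => (Poly N).neg_mem (L_mem_Poly h a)) φ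
  rw [inner_L, LinearMap.neg_apply, inner_neg_right]

theorem P_L (l : ℕ) (a : Fin 3) (φ : Sm) : P l (L a φ) = L a (P l φ) :=
  harm_comm_P (L a) (fun N φ => harm_Pi_L N a φ) l φ

theorem harm_Pi_act (N : ℕ) (g : E3 ≃ₗᵢ[ℝ] E3) (φ : Sm) : Pi N (act g φ) = act g (Pi N φ) := by
  refine harm_comm N (act g).toLinearMap (act g.symm).toLinearMap (fun φ ψ => ?_)
    (fun φ h => act_mem_Poly h g) (fun φ h => act_mem_Poly h g.symm) φ
  have e : ψ = act g (act g.symm ψ) := by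
    rw [act_act, LinearIsometryEquiv.self_trans_symm, act_refl]
  show inner ℝ (act g φ) ψ = inner ℝ φ (act g.symm ψ)
  conv_lhs => rw [e]
  exact inner_act g φ _

theorem P_act (l : ℕ) (g : E3 ≃ₗᵢ[ℝ] E3) (φ : Sm) : P l (act g φ) = act g (P l φ) :=
  harm_comm_P (act g).toLinearMap (fun N φ => harm_Pi_act N g φ) l φ

theorem harm_Pi_lap (N : ℕ) (φ : Sm) : Pi N (lap φ) = lap (Pi N φ) := by
  rw [lap_def, lap_def, map_sum]
  exact Finset.sum_congr rfl fun a _ => by rw [harm_Pi_L, harm_Pi_L]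

theorem harm_lap_one : lap 1 = 0 := by
  rw [lap_def]; simp

theorem harm_kd_mul {n : ℕ} {ψ : Sm} (h : ψ ∈ Poly n) (a b : Fin 3) : kd a b * ψ ∈ Poly n := by
  unfold kd
  split_ifs
  · simpa using h
  · simp

theorem harm_D_mem (a : Fin 3) (n : ℕ) :
    ∀ φ ∈ Poly n, D a φ + (n : ℝ) • (X a * φ) ∈ Poly n := by
  induction n with
  | zero =>
    intro φ hφ
    have := harm_span_zero (D a) (Poly 0) (by simp) φ hφ
    simpa using this
  | succ n ih =>
    intro φ hφ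
    refine harm_span_succ (D a + ((n + 1 : ℕ) : ℝ) • LinearMap.mulLeft ℝ (X a)) (Poly (n + 1)) n
      ?_ ?_ φ hφ
    · simp only [LinearMap.add_apply, D_one, LinearMap.smul_apply, LinearMap.mulLeft_apply,
        zero_add]
      exact (Poly (n + 1)).smul_mem _ (X_mul_mem (one_mem_Poly n) a)
    · intro b ψ hψ
      have e : (D a + ((n + 1 : ℕ) : ℝ) • LinearMap.mulLeft ℝ (X a)) (X b * ψ) =
          kd a b * ψ + X b * (D a ψ + (n : ℝ) • (X a * ψ)) := by
        simp only [LinearMap.add_apply, LinearMap.smul_apply, LinearMap.mulLeft_apply, D_mul, D_X]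
        ext x
        simp only [Sm.add_apply, Sm.mul_apply, Sm.sub_apply, Sm.smul_apply]
        push_cast
        ring
      rw [e]
      exact (Poly (n + 1)).add_mem (Poly_mono (Nat.le_succ n) (harm_kd_mul hψ a b))
        (X_mul_mem (ih ψ hψ) b)

theorem harm_lap_step (n : ℕ)
    (hC : ∀ b, ∀ φ ∈ Poly n, X b * (lap φ + ll n • φ) ∈ Poly n) :
    ∀ φ ∈ Poly (n + 1), lap φ + ll (n + 1) • φ ∈ Poly n := by
  intro φ hφ
  refine harm_span_succ (lap + ll (n + 1) • LinearMap.id) (Poly n) n ?_ ?_ φ hφ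
  · simp only [LinearMap.add_apply, harm_lap_one, LinearMap.smul_apply, LinearMap.id_apply,
      zero_add]
    exact (Poly n).smul_mem _ (one_mem_Poly n)
  · intro b ψ hψ
    have e : (lap + ll (n + 1) • (LinearMap.id : Sm →ₗ[ℝ] Sm)) (X b * ψ) =
        X b * (lap ψ + ll n • ψ) + (2 : ℝ) • (D b ψ + (n : ℝ) • (X b * ψ)) := by
      simp only [LinearMap.add_apply, LinearMap.smul_apply, LinearMap.id_apply, lap_X_mul]
      ext x
      simp only [Sm.add_apply, Sm.mul_apply, Sm.sub_apply, Sm.smul_apply, harm_two, ll]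
      push_cast
      ring
    rw [e]
    exact (Poly n).add_mem (hC b ψ hψ) ((Poly n).smul_mem _ (harm_D_mem b n ψ hψ))

theorem harm_lap_C (n : ℕ) : ∀ b, ∀ φ ∈ Poly n, X b * (lap φ + ll n • φ) ∈ Poly n := by
  induction n with
  | zero =>
    intro b φ hφ
    have := harm_span_zero lap ⊥ (by simp [harm_lap_one]) φ hφ
    rw [Submodule.mem_bot] at this
    simp [this, ll]
  | succ n ih => exact fun b φ hφ => X_mul_mem (harm_lap_step n ih φ hφ) b

theorem lap_P (l : ℕ) (φ : Sm) : lap (P l φ) = -ll l • P l φ := by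
  cases l with
  | zero =>
    rw [P_zero, Algebra.algebraMap_eq_smul_one, map_smul, harm_lap_one]
    simp [ll]
  | succ n =>
    have h := Pi_of_mem (harm_lap_step n (harm_lap_C n) _ (P_mem (n + 1) φ))
    rw [map_add, map_smul, harm_Pi_lap, harm_Pi_P_lt (Nat.lt_succ_self n), map_zero, smul_zero,
      add_zero] at h
    rw [neg_smul]
    exact eq_neg_of_add_eq_zero_left h.symm

theorem P_lap (l : ℕ) (φ : Sm) : P l (lap φ) = -ll l • P l φ := by
  rw [harm_comm_P lap harm_Pi_lap, lap_P]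

theorem harm_ant_step (n : ℕ)
    (hC : ∀ b, ∀ φ ∈ Poly n, X b * (ant φ - (-1 : ℝ) ^ n • φ) ∈ Poly n) :
    ∀ φ ∈ Poly (n + 1), ant φ - (-1 : ℝ) ^ (n + 1) • φ ∈ Poly n := by
  intro φ hφ
  refine harm_span_succ (ant.toLinearMap - (-1 : ℝ) ^ (n + 1) • LinearMap.id) (Poly n) n
    ?_ ?_ φ hφ
  · simp only [LinearMap.sub_apply, AlgHom.toLinearMap_apply, map_one, LinearMap.smul_apply,
      LinearMap.id_apply]
    exact (Poly n).sub_mem (one_mem_Poly n) ((Poly n).smul_mem _ (one_mem_Poly n))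
  · intro b ψ hψ
    have e : (ant.toLinearMap - (-1 : ℝ) ^ (n + 1) • (LinearMap.id : Sm →ₗ[ℝ] Sm)) (X b * ψ) =
        -(X b * (ant ψ - (-1 : ℝ) ^ n • ψ)) := by
      simp only [LinearMap.sub_apply, AlgHom.toLinearMap_apply, map_mul, ant_X,
        LinearMap.smul_apply, LinearMap.id_apply]
      ext x
      simp only [Sm.neg_apply, Sm.mul_apply, Sm.sub_apply, Sm.smul_apply]
      ring
    rw [e]
    exact (Poly n).neg_mem (hC b ψ hψ)

theorem harm_ant_zero {φ : Sm} (hφ : φ ∈ Poly 0) : ant φ = φ := by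
  have := harm_span_zero (ant.toLinearMap - LinearMap.id) ⊥ (by simp) φ hφ
  rw [Submodule.mem_bot] at this
  exact sub_eq_zero.1 this

theorem harm_ant_C (n : ℕ) : ∀ b, ∀ φ ∈ Poly n, X b * (ant φ - (-1 : ℝ) ^ n • φ) ∈ Poly n := by
  induction n with
  | zero =>
    intro b φ hφ
    simp [harm_ant_zero hφ]
  | succ n ih => exact fun b φ hφ => X_mul_mem (harm_ant_step n ih φ hφ) b

theorem harm_Pi_ant (N : ℕ) (φ : Sm) : Pi N (ant φ) = ant (Pi N φ) := harm_Pi_act N _ φ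

theorem harm_P_ant (l : ℕ) (φ : Sm) : P l (ant φ) = ant (P l φ) := P_act l _ φ

theorem ant_P (l : ℕ) (φ : Sm) : ant (P l φ) = (-1 : ℝ) ^ l • P l φ := by
  cases l with
  | zero => simp [harm_ant_zero (P_mem 0 φ)]
  | succ n =>
    have h := Pi_of_mem (harm_ant_step n (harm_ant_C n) _ (P_mem (n + 1) φ))
    rw [map_sub, map_smul, harm_Pi_ant, harm_Pi_P_lt (Nat.lt_succ_self n), map_zero, smul_zero,
      sub_zero] at h
    exact sub_eq_zero.1 h.symm

theorem harm_eq_neg {u : Sm} (h : u = -u) : u = 0 := by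
  ext x
  have := congrArg (fun v : Sm => v x) h
  simp only [Sm.neg_apply] at this
  simp only [Sm.zero_apply]
  linarith

theorem P_of_Ev {φ : Sm} (h : φ ∈ Ev) {l : ℕ} (hl : Odd l) : P l φ = 0 := by
  have h1 := harm_P_ant l φ
  rw [mem_Ev.1 h, ant_P, hl.neg_one_pow, neg_smul, one_smul] at h1
  exact harm_eq_neg h1

theorem P_of_Od {φ : Sm} (h : φ ∈ Od) {l : ℕ} (hl : Even l) : P l φ = 0 := by
  have h1 := harm_P_ant l φ
  rw [mem_Od.1 h, ant_P, hl.neg_one_pow, one_smul, map_neg] at h1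
  exact harm_eq_neg h1.symm

theorem harm_norm_sub (N : ℕ) (ψ : Sm) : ‖ψ - Pi N ψ‖ ≤ ‖ψ‖ := by
  have h1 := harm_orth ψ (Pi_mem N ψ)
  have h2 : ‖ψ - Pi N ψ‖ ^ 2 = inner ℝ (ψ - Pi N ψ) ψ := by
    rw [← real_inner_self_eq_norm_sq]
    nth_rewrite 2 [sub_eq_add_neg]
    rw [inner_add_right, inner_neg_right, h1, neg_zero, add_zero]
  have h3 := real_inner_le_norm (ψ - Pi N ψ) ψ
  by_contra hc
  have h4 : ‖ψ‖ < ‖ψ - Pi N ψ‖ := lt_of_not_ge hc
  have h5 : 0 < ‖ψ - Pi N ψ‖ := (norm_nonneg _).trans_lt h4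
  nlinarith

theorem tendsto_Pi (φ : Sm) :
    Filter.Tendsto (fun N => ‖φ - Pi N φ‖) Filter.atTop (nhds 0) := by
  rw [Metric.tendsto_atTop]
  intro ε hε
  obtain ⟨N0, p, hp, h⟩ := exists_Poly_near φ.continuous (half_pos hε)
  refine ⟨N0, fun N hN => ?_⟩
  have h1 : ‖φ - p‖ ≤ ε / 2 := norm_le_of_sup fun x => h x
  have h2 := harm_norm_sub N (φ - p)
  have e : φ - p - Pi N (φ - p) = φ - Pi N φ := by
    rw [map_sub, Pi_of_mem (Poly_mono hN hp)]; abel
  rw [e] at h2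
  rw [Real.dist_eq, sub_zero, abs_of_nonneg (norm_nonneg _)]
  linarith

theorem parseval_sq (φ : Sm) : HasSum (fun l => ‖P l φ‖ ^ 2) (‖φ‖ ^ 2) := by
  rw [hasSum_iff_tendsto_nat_of_nonneg (fun l => sq_nonneg _), ← Filter.tendsto_add_atTop_iff_nat 1]
  have e : ∀ N, ∑ l ∈ Finset.range (N + 1), ‖P l φ‖ ^ 2 =
      ‖φ‖ ^ 2 - inner ℝ φ (φ - Pi N φ) := by
    intro N
    rw [inner_sub_right, real_inner_self_eq_norm_sq, Pi_eq_sum, inner_sum, sub_sub_cancel]
    refine Finset.sum_congr rfl fun l _ => ?_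
    rw [← real_inner_self_eq_norm_sq, inner_P, P_P, if_pos rfl]
  simp only [e]
  have h0 : Filter.Tendsto (fun N => inner ℝ φ (φ - Pi N φ)) Filter.atTop (nhds 0) := by
    have h1 := (tendsto_Pi φ).const_mul ‖φ‖
    rw [mul_zero] at h1
    exact squeeze_zero_norm (fun N => norm_inner_le_norm _ _) h1
  have := h0.const_sub (‖φ‖ ^ 2)
  rwa [sub_zero] at this

theorem harm_polar (u v : Sm) : inner ℝ u v = (‖u + v‖ ^ 2 - ‖u - v‖ ^ 2) / 4 := by
  rw [norm_add_sq_real, norm_sub_sq_real]; ring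

theorem parseval (φ ψ : Sm) : HasSum (fun l => inner ℝ (P l φ) (P l ψ)) (inner ℝ φ ψ) := by
  have h := ((parseval_sq (φ + ψ)).sub (parseval_sq (φ - ψ))).div_const 4
  rw [harm_polar φ ψ]
  simpa only [harm_polar, map_add, map_sub] using h

theorem eq_of_P {φ ψ : Sm} (h : ∀ l, P l φ = P l ψ) : φ = ψ := by
  have h1 := parseval_sq (φ - ψ)
  have e : (fun l => ‖P l (φ - ψ)‖ ^ 2) = fun _ => (0 : ℝ) := by
    funext l; rw [map_sub, h l, sub_self, norm_zero]; ring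
  rw [e] at h1
  have h2 := h1.unique hasSum_zero
  exact sub_eq_zero.1 (norm_eq_zero.1 (pow_eq_zero_iff (two_ne_zero) |>.1 h2))

theorem harm_ll_inj {k l : ℕ} (h : ll k = ll l) : k = l := by
  unfold ll at h
  have h' : k * (k + 1) = l * (l + 1) := by exact_mod_cast h
  nlinarith [Nat.le_total k l, lt_trichotomy k l, sq_nonneg ((k : ℤ) - l)]

theorem P_eq_of_eigen {l : ℕ} {φ : Sm} (h : lap φ = -ll l • φ) : P l φ = φ := by
  refine eq_of_P fun k => ?_
  rw [P_P]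
  split_ifs with hk
  · rw [hk]
  · have h1 := P_lap k φ
    rw [h, map_smul] at h1
    have h2 : (ll k - ll l) • P k φ = 0 := by
      rw [sub_smul, sub_eq_add_neg, ← neg_smul, h1, ← add_smul, add_neg_cancel, zero_smul]
    rcases smul_eq_zero.1 h2 with h3 | h3
    · exact absurd (harm_ll_inj (sub_eq_zero.1 h3)) hk
    · exact h3.symm

theorem norm_L_P (l : ℕ) (φ : Sm) : ∑ a, ‖L a (P l φ)‖ ^ 2 = ll l * ‖P l φ‖ ^ 2 := by
  have e : ∀ a, ‖L a (P l φ)‖ ^ 2 = -inner ℝ (P l φ) (L a (L a (P l φ))) := fun a => by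
    rw [← real_inner_self_eq_norm_sq, inner_L]
  simp only [e]
  rw [Finset.sum_neg_distrib, ← inner_sum, ← lap_def, lap_P, real_inner_smul_right,
    real_inner_self_eq_norm_sq]
  ring

theorem zav_P {φ : Sm} (h0 : ∀ x, zav φ x = 0) (l : ℕ) (x : S2) : zav (P l φ) x = 0 := by
  obtain ⟨p, _, hp⟩ := zav_Poly (P_mem l φ)
  have hz : ∀ θ, act (rotZ θ) (Zf fun t => p.eval t) = Zf fun t => p.eval t :=
    fun θ => rotZ_Zf θ _
  generalize (Zf fun t => p.eval t) = W at hp hz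
  have h1 := I_zav_eq hp hz
  have hz' : ∀ θ, act (rotZ θ) (P l W) = P l W := fun θ => by rw [← P_act, hz]
  have h2 := I_zav_eq (φ0 := 0) (fun y => h0 y) hz'
  rw [mul_zero, map_zero, ← inner_def, inner_P, inner_def, ← h1] at h2
  rw [hp, eq_zero_of_I_sq h2.symm, Sm.zero_apply]

/-- invariant functions without zonal part have high degree -/
theorem P_of_Zi {m : ℕ} (hm : 0 < m) {φ : Sm} (hφ : φ ∈ Zi m) (h0 : ∀ x, zav φ x = 0) {l : ℕ}
    (hl : (2 * Real.pi) ^ 2 * ll l < (m : ℝ) ^ 2) : P l φ = 0 := by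
  have hu : P l φ ∈ Zi m := by
    rw [mem_Zi, ← P_act, mem_Zi.1 hφ]
  have hW : ∀ x, zav (1 : Sm) x ≤ (1 : Sm) x := by
    intro x
    have hpi : (2 * Real.pi) ≠ 0 := by positivity
    unfold zav
    simp only [Sm.one_apply, intervalIntegral.integral_const, sub_zero, smul_eq_mul, mul_one]
    rw [inv_mul_cancel₀ hpi]
  have h := poincare hm hu (zav_P h0 l) (w := 1) (W := 1) (fun x => by simp) hW
    (fun θ => map_one _)
  rw [one_mul, one_mul, ← norm_sq_eq, ← norm_sq_eq] at h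
  have h2 : ‖L 2 (P l φ)‖ ^ 2 ≤ ll l * ‖P l φ‖ ^ 2 := by
    rw [← norm_L_P]
    exact Finset.single_le_sum (f := fun a => ‖L a (P l φ)‖ ^ 2) (fun a _ => sq_nonneg _)
      (Finset.mem_univ 2)
  have hm' : (0 : ℝ) < (m : ℝ) ^ 2 := by positivity
  have h3 : (2 * Real.pi / m) ^ 2 * ll l < 1 := by
    rw [div_pow, div_mul_eq_mul_div, div_lt_one hm']
    exact hl
  have h4 : (2 * Real.pi / m) ^ 2 * ‖L 2 (P l φ)‖ ^ 2 ≤
      (2 * Real.pi / m) ^ 2 * (ll l * ‖P l φ‖ ^ 2) :=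
    mul_le_mul_of_nonneg_left h2 (sq_nonneg _)
  by_contra hc
  have h5 : 0 < ‖P l φ‖ ^ 2 := pow_pos (norm_pos_iff.2 hc) 2
  have h6 := mul_lt_mul_of_pos_right h3 h5
  nlinarith

end Pool.Agent.Lib.MP_2fa2a2_gt.PI
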