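import Pool.Agent.Lib.MP_2fa2a2_gt.PI.Alg

/-! The Hessian `H` and the invariant forms. -/

namespace Pool.Agent.Lib.MP_2fa2a2_gt.PI

open scoped ContDiff

/-- the operator `lap + 2` -/
noncomputable def Dop : Sm →ₗ[ℝ] Sm := lap + (2 : ℝ) • LinearMap.id

theorem Dop_def (φ : Sm) : Dop φ = lap φ + 2 * φ := by
  rw [two_mul, ← two_smul ℝ φ]
  rfl

/-- Hessian of the extension that is homogeneous of degree one -/
noncomputable def H (a b : Fin 3) : Sm →ₗ[ℝ] Sm := D a ∘ₗ (D b + LinearMap.mulLeft ℝ (X b))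

theorem H_def (a b : Fin 3) (ψ : Sm) : H a b ψ = D a (D b ψ + X b * ψ) := rfl

theorem hess_kd_comm (a b : Fin 3) : kd a b = kd b a := by
  unfold kd
  by_cases h : a = b
  · simp [h]
  · simp [h, Ne.symm h]

theorem hess_kd_self (a : Fin 3) : kd a a = 1 := by simp [kd]

theorem hess_D_kd (c a b : Fin 3) : D c (kd a b) = 0 := by
  unfold kd
  split_ifs <;> simp

theorem hess_sum_kd (b : Fin 3) (T : Fin 3 → Sm) : ∑ a, kd a b * T a = T b := by
  simp [kd, ite_mul]

theorem hess_expand (a b : Fin 3) (ψ : Sm) :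
    H a b ψ = D a (D b ψ) + X b * D a ψ + (kd a b - X a * X b) * ψ := by
  rw [H_def, map_add, D_mul, D_X]
  ring

theorem H_symm (a b : Fin 3) (ψ : Sm) : H a b ψ = H b a ψ := by
  rw [hess_expand, hess_expand, hess_kd_comm b a]
  linear_combination D_D a b ψ

theorem sum_X_H (b : Fin 3) (ψ : Sm) : ∑ a, X a * H a b ψ = 0 := by
  simp only [H_def]
  exact sum_X_D _

theorem H_trace (ψ : Sm) : ∑ a, H a a ψ = Dop ψ := by
  have h1 := sum_X_D ψ
  have h2 := sum_X_sq
  rw [Dop_def, lap_eq_D]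
  simp only [hess_expand, hess_kd_self, Fin.sum_univ_three] at *
  linear_combination h1 - ψ * h2

theorem H_X (a b c : Fin 3) : H a b (X c) = 0 := by
  rw [H_def, D_X, sub_add_cancel, hess_D_kd]

theorem H_one (a b : Fin 3) : H a b 1 = kd a b - X a * X b := by
  rw [H_def, D_one, zero_add, mul_one, D_X]

theorem L_H (c a b : Fin 3) (ψ : Sm) : L c (H a b ψ)
    = H a b (L c ψ) + ∑ d, ev c a d • H d b ψ + ∑ d, ev c b d • H a d ψ := by
  have h : L c (D b ψ + X b * ψ)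
      = (D b (L c ψ) + X b * L c ψ) + ∑ d, ev c b d • (D d ψ + X d * ψ) := by
    rw [map_add, L_D, L_mul, L_X]
    simp only [smul_add, Finset.sum_add_distrib, Finset.sum_mul, smul_mul_assoc]
    ring
  simp only [H_def]
  rw [L_D, h, map_add, map_sum]
  simp only [map_smul]
  ring

theorem codazzi (a b c : Fin 3) (ψ : Sm) :
    D c (H a b ψ) - X c * H a b ψ = D b (H a c ψ) - X b * H a c ψ := by
  rw [H_symm a b, H_symm a c, H_def, H_def]
  linear_combination D_D c b (D a ψ + X a * ψ)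

theorem div_H (a : Fin 3) (ψ : Sm) :
    ∑ b, D b (H a b ψ) = D a (Dop ψ) - X a * Dop ψ := by
  have h0 := codazzi 0 a 0 ψ
  have h1 := codazzi 1 a 1 ψ
  have h2 := codazzi 2 a 2 ψ
  have h3 := sum_X_H a ψ
  rw [← H_trace]
  simp only [Fin.sum_univ_three, map_add, H_symm a] at *
  linear_combination h0 + h1 + h2 + h3

/-- formal adjoint of `H a b` -/
noncomputable def Hs (a b : Fin 3) : Sm →ₗ[ℝ] Sm :=
  (LinearMap.mulLeft ℝ (3 * X b) - D b) ∘ₗ (LinearMap.mulLeft ℝ (2 * X a) - D a)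

theorem hess_I_two (φ : Sm) : I (2 * φ) = 2 * I φ := by
  rw [two_mul, map_add, two_mul]

/-- integration by parts -/
theorem hess_ibp (a : Fin 3) (f g : Sm) : I (D a f * g) = I (f * (2 * X a * g - D a g)) := by
  have h := I_D a (f * g)
  rw [D_mul, map_add, ← hess_I_two] at h
  have e : f * (2 * X a * g - D a g) = 2 * (X a * (f * g)) - f * D a g := by ring
  rw [e, map_sub, ← h]
  ring

theorem inner_H (a b : Fin 3) (φ ψ : Sm) :
    inner ℝ (H a b φ) ψ = inner ℝ φ (Hs a b ψ) := by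
  have e : Hs a b ψ = 3 * X b * (2 * X a * ψ - D a ψ) - D b (2 * X a * ψ - D a ψ) := rfl
  rw [inner_def, inner_def, e, H_def, hess_ibp, add_mul, map_add, hess_ibp, ← map_add]
  congr 1
  ring

/-- squared norm of the Hessian -/
noncomputable def Hn (ψ : Sm) : Sm := ∑ a, ∑ b, H a b ψ * H a b ψ

/-- the Hessian evaluated on two vector fields -/
noncomputable def Hv (ψ : Sm) (U V : Fin 3 → Sm) : Sm := ∑ a, ∑ b, H a b ψ * U a * V b

/-- gradient as a vector field -/
noncomputable def gr (f : Sm) : Fin 3 → Sm := fun a => D a f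

/-- the rotation field about the vertical axis as a vector field -/
noncomputable def rl : Fin 3 → Sm := fun a => L 2 (X a)

theorem hess_Hv_comm (ψ : Sm) (U V : Fin 3 → Sm) : Hv ψ U V = Hv ψ V U := by
  unfold Hv
  rw [Finset.sum_comm]
  refine Finset.sum_congr rfl fun a _ => Finset.sum_congr rfl fun b _ => ?_
  rw [H_symm b a]
  ring

theorem hess_Hv_z (ψ : Sm) (V : Fin 3 → Sm) :
    Hv ψ (gr (X 2)) V = ∑ b, H 2 b ψ * V b := by
  unfold Hv
  rw [Finset.sum_comm]
  refine Finset.sum_congr rfl fun b _ => ?_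
  have h1 := sum_X_H b ψ
  have h2 := hess_sum_kd 2 (fun a => H a b ψ)
  simp only [gr, D_X, Fin.sum_univ_three] at *
  linear_combination V b * h2 - X 2 * V b * h1

theorem hess_rl0 : rl 0 = -X 1 := L_X_add_one 2
theorem hess_rl1 : rl 1 = X 0 := L_X_add_two 2
theorem hess_rl2 : rl 2 = 0 := L_X_self 2

theorem Hv_z_z (ψ : Sm) : Hv ψ (gr (X 2)) (gr (X 2)) = H 2 2 ψ := by
  rw [hess_Hv_z]
  have h1 := sum_X_H 2 ψ
  have h2 := hess_sum_kd 2 (fun a => H a 2 ψ)
  simp only [gr, D_X, Fin.sum_univ_three, H_symm 2] at *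
  linear_combination h2 - X 2 * h1

theorem H22_eq (ψ : Sm) : H 2 2 ψ = D 2 (D 2 ψ) + X 2 * D 2 ψ + qq * ψ := by
  rw [hess_expand, hess_kd_self, qq]

theorem Hv_z_l (ψ : Sm) : Hv ψ (gr (X 2)) rl = D 2 (L 2 ψ) + X 2 * L 2 ψ := by
  have h := L_eq_sum_D 2 (D 2 ψ + X 2 * ψ)
  rw [map_add, L_mul, L_X_self, ← D2_L2] at h
  rw [hess_Hv_z]
  simp only [H_symm 2, rl]
  simp only [H_def, Fin.sum_univ_three] at *
  linear_combination -h

theorem Hv_l_l (ψ : Sm) : Hv ψ rl rl = L 2 (L 2 ψ) - X 2 * D 2 ψ + qq * ψ := by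
  have r0 : L 2 (X 0) = -X 1 := hess_rl0
  have r1 : L 2 (X 1) = X 0 := hess_rl1
  have r2 : L 2 (X 2) = 0 := hess_rl2
  have h0 := L_eq_sum_D 2 (D 0 ψ + X 0 * ψ)
  have h1 := L_eq_sum_D 2 (D 1 ψ + X 1 * ψ)
  have h2 := congrArg (L 2) (L_eq_sum_D 2 ψ)
  have h3 := sum_X_D ψ
  rw [map_add, L_mul] at h0 h1
  rw [qq_eq]
  simp only [← H_def] at h0 h1
  simp only [Fin.sum_univ_three, r0, r1, r2, map_add, L_mul, map_neg, zero_mul,
    map_zero, Hv, rl] at *
  linear_combination X 1 * h0 - X 0 * h1 - h2 + h3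

theorem hess_tang {R : Type} [CommRing R] (x0 x1 x2 v0 v1 v2 : R)
    (hx : x0 * x0 + x1 * x1 + x2 * x2 = 1) (hv : x0 * v0 + x1 * v1 + x2 * v2 = 0) :
    (x0 * x0 + x1 * x1) * (v0 * v0 + v1 * v1 + v2 * v2)
      = v2 * v2 + (x0 * v1 - x1 * v0) * (x0 * v1 - x1 * v0) := by
  linear_combination v2 * v2 * hx + (x0 * v0 + x1 * v1 - x2 * v2) * hv

theorem qq_sq_Hn (ψ : Sm) : qq * qq * Hn ψ = H 2 2 ψ * H 2 2 ψ
    + 2 * (Hv ψ (gr (X 2)) rl * Hv ψ (gr (X 2)) rl) + Hv ψ rl rl * Hv ψ rl rl := by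
  have hx := sum_X_sq
  have k0 := sum_X_H 0 ψ
  have k1 := sum_X_H 1 ψ
  have k2 := sum_X_H 2 ψ
  rw [hess_Hv_z, qq_eq]
  simp only [Hn, Hv, Fin.sum_univ_three, hess_rl0, hess_rl1, hess_rl2, H_symm 1 0, H_symm 2 0,
    H_symm 2 1] at *
  generalize H 0 0 ψ = h00 at *
  generalize H 0 1 ψ = h01 at *
  generalize H 0 2 ψ = h02 at *
  generalize H 1 1 ψ = h11 at *
  generalize H 1 2 ψ = h12 at *
  generalize H 2 2 ψ = h22 at *
  generalize X 0 = x0 at *
  generalize X 1 = x1 at *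
  generalize X 2 = x2 at *
  have t0 := hess_tang _ _ _ _ _ _ hx k0
  have t1 := hess_tang _ _ _ _ _ _ hx k1
  have t2 := hess_tang _ _ _ _ _ _ hx k2
  have t3 := hess_tang x0 x1 x2 (x0 * h01 - x1 * h00) (x0 * h11 - x1 * h01) (x0 * h12 - x1 * h02)
    hx (by linear_combination x0 * k1 - x1 * k0)
  linear_combination (x0 * x0 + x1 * x1) * (t0 + t1 + t2) + t2 + t3

theorem hess_sum_H_one (ψ : Sm) : ∑ a, ∑ b, H a b 1 * H a b ψ = Dop ψ := by
  have k0 := sum_X_H 0 ψ
  have k1 := sum_X_H 1 ψ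
  have k2 := sum_X_H 2 ψ
  rw [← H_trace]
  simp only [H_one, Fin.sum_univ_three, kd] at *
  simp only [Fin.reduceEq, if_true, if_false]
  linear_combination -X 0 * k0 - X 1 * k1 - X 2 * k2

theorem hess_Dop_one : Dop 1 = 2 := by
  rw [Dop_def, lap_eq_D]
  simp

theorem Dop_sq_le (ψ : Sm) (x : S2) : Dop ψ x ^ 2 ≤ 2 * Hn ψ x := by
  have h1 := hess_sum_H_one ψ
  have h2 := hess_sum_H_one 1
  rw [hess_Dop_one] at h2
  have e : ∑ a, ∑ b, (2 * H a b ψ - Dop ψ * H a b 1) * (2 * H a b ψ - Dop ψ * H a b 1)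
      = 4 * Hn ψ - 2 * (Dop ψ * Dop ψ) := by
    simp only [Hn, Fin.sum_univ_three] at *
    linear_combination -4 * Dop ψ * h1 + Dop ψ * Dop ψ * h2
  have h : 0 ≤ (4 * Hn ψ - 2 * (Dop ψ * Dop ψ)) x := by
    rw [← e, Sm.sum_apply]
    refine Finset.sum_nonneg fun a _ => ?_
    rw [Sm.sum_apply]
    exact Finset.sum_nonneg fun b _ => mul_self_nonneg _
  have h' : 0 ≤ 4 * Hn ψ x - 2 * (Dop ψ x * Dop ψ x) := h
  nlinarith

/-- polarised determinant of Hessians -/
noncomputable def Qf : Sm →ₗ[ℝ] Sm →ₗ[ℝ] Sm :=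
  LinearMap.mk₂ ℝ (fun h k => (1 / 2 : ℝ) • (Dop h * Dop k - ∑ a, ∑ b, H a b h * H a b k))
    (by
      intro h h' k
      simp only [map_add, add_mul, Finset.sum_add_distrib, ← smul_add]
      congr 1
      ring)
    (by
      intro c h k
      simp only [map_smul, smul_mul_assoc, ← Finset.smul_sum, ← smul_sub]
      rw [smul_comm])
    (by
      intro h k k'
      simp only [map_add, mul_add, Finset.sum_add_distrib, ← smul_add]
      congr 1
      ring)
    (by
      intro c h k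
      simp only [map_smul, mul_smul_comm, ← Finset.smul_sum, ← smul_sub]
      rw [smul_comm])

theorem Qf_def (h k : Sm) :
    Qf h k = (1 / 2 : ℝ) • (Dop h * Dop k - ∑ a, ∑ b, H a b h * H a b k) := rfl

theorem Qf_comm (h k : Sm) : Qf h k = Qf k h := by
  simp only [Qf_def, mul_comm]

theorem Qf_one (k : Sm) : Qf 1 k = (1 / 2 : ℝ) • Dop k := by
  rw [Qf_def, hess_sum_H_one, hess_Dop_one]
  congr 1
  ring

theorem hess_ev_anti (c a d : Fin 3) : ev c a d = -ev c d a := by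
  fin_cases c <;> fin_cases a <;> fin_cases d <;> simp [ev]

theorem hess_ev_cancel (c : Fin 3) (T S : Fin 3 → Sm) :
    ∑ a, (∑ d, ev c a d • T d) * S a + ∑ a, T a * ∑ d, ev c a d • S d = 0 := by
  simp only [Finset.sum_mul, Finset.mul_sum]
  rw [Finset.sum_comm, ← Finset.sum_add_distrib]
  refine Finset.sum_eq_zero fun a _ => ?_
  rw [← Finset.sum_add_distrib]
  refine Finset.sum_eq_zero fun d _ => ?_
  rw [hess_ev_anti c d a, smul_mul_assoc, mul_smul_comm, neg_smul, neg_add_cancel]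

theorem hess_L_Dop (c : Fin 3) (φ : Sm) : L c (Dop φ) = Dop (L c φ) := by
  rw [Dop_def, Dop_def, lap_L, two_mul, two_mul, map_add, map_add]

theorem L_Qf (c : Fin 3) (h k : Sm) : L c (Qf h k) = Qf (L c h) k + Qf h (L c k) := by
  have a0 := hess_ev_cancel c (fun a => H a 0 h) (fun a => H a 0 k)
  have a1 := hess_ev_cancel c (fun a => H a 1 h) (fun a => H a 1 k)
  have a2 := hess_ev_cancel c (fun a => H a 2 h) (fun a => H a 2 k)
  have b0 := hess_ev_cancel c (fun a => H 0 a h) (fun a => H 0 a k)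
  have b1 := hess_ev_cancel c (fun a => H 1 a h) (fun a => H 1 a k)
  have b2 := hess_ev_cancel c (fun a => H 2 a h) (fun a => H 2 a k)
  simp only [Qf_def, map_smul, ← smul_add]
  congr 1
  simp only [map_sub, map_sum, L_mul, hess_L_Dop, L_H]
  simp only [Fin.sum_univ_three (f := fun a => _ * _),
    Fin.sum_univ_three (f := fun a => _ + _)] at *
  linear_combination -a0 - a1 - a2 - b0 - b1 - b2

theorem hess_two_Qf (h k : Sm) :
    2 * Qf h k = Dop h * Dop k - ∑ a, ∑ b, H a b h * H a b k := by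
  rw [Qf_def, two_mul, ← add_smul]
  norm_num

theorem I_mul_Qf (η h k : Sm) : 2 * I (η * Qf h k)
    = -I (Dop h * gd η k - Hv h (gr η) (gr k)) + I (η * k * Dop h) := by
  have e1 : 2 * (η * Qf h k)
      = ∑ a, ∑ b, D a (D b k + X b * k) * (η * (Dop h * kd a b - H a b h)) := by
    have t := H_trace k
    rw [mul_left_comm, hess_two_Qf]
    simp only [← H_def, Fin.sum_univ_three, kd] at *
    simp only [Fin.reduceEq, if_true, if_false]
    linear_combination -η * Dop h * t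
  rw [← hess_I_two, e1]
  simp only [map_sum, hess_ibp]
  simp only [← map_sum]
  rw [← map_neg, ← map_add]
  congr 1
  have d0 := div_H 0 h
  have d1 := div_H 1 h
  have d2 := div_H 2 h
  have k0 := sum_X_H 0 h
  have k1 := sum_X_H 1 h
  have k2 := sum_X_H 2 h
  have s1 := sum_X_D η
  have s2 := sum_X_D k
  have hx := sum_X_sq
  simp only [D_mul, map_sub, hess_D_kd, gd_eq_D, Hv, gr]
  simp only [Fin.sum_univ_three, kd, H_symm 1 0, H_symm 2 0, H_symm 2 1] at *
  simp only [Fin.reduceEq, if_true, if_false]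
  linear_combination η * (D 0 k + X 0 * k) * (d0 - 2 * k0) + η * (D 1 k + X 1 * k) * (d1 - 2 * k1)
    + η * (D 2 k + X 2 * k) * (d2 - 2 * k2) + η * Dop h * s2 + η * k * Dop h * hx
    - k * Dop h * s1 + k * (D 0 η * k0 + D 1 η * k1 + D 2 η * k2)

theorem I_mul_Qf_symm (η h k : Sm) : I (η * Qf h k) = I (k * Qf h η) := by
  have h1 := I_mul_Qf η h k
  have h2 := I_mul_Qf k h η
  rw [gd_comm k η, hess_Hv_comm h (gr k), mul_comm k η] at h2
  linarith

/-- the weighted Hessian is controlled by its trace -/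
theorem I_Hn (η ψ : Sm) : I (η * Hn ψ) = I (η * (Dop ψ * Dop ψ))
    + I (Dop η * gd ψ ψ - Hv η (gr ψ) (gr ψ)) - I (ψ * ψ * Dop η) := by
  have h1 := I_mul_Qf ψ η ψ
  have h2 := I_mul_Qf_symm η ψ ψ
  have h3 : η * Hn ψ = η * (Dop ψ * Dop ψ) - 2 * (η * Qf ψ ψ) := by
    rw [mul_left_comm 2, hess_two_Qf, Hn]
    ring
  rw [Qf_comm ψ η] at h2
  rw [h3, map_sub, hess_I_two]
  linarith

/-- the form `∫ H ψ (∇ f, ∇ g)` -/
noncomputable def beta : Sm →ₗ[ℝ] Sm →ₗ[ℝ] Sm →ₗ[ℝ] ℝ where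
  toFun ψ := LinearMap.mk₂ ℝ (fun f g => I (Hv ψ (gr f) (gr g)))
    (by
      intro f f' g
      simp only [Hv, gr, map_add, add_mul, mul_add, Finset.sum_add_distrib])
    (by
      intro c f g
      simp only [Hv, gr, map_smul, smul_mul_assoc, mul_smul_comm, ← Finset.smul_sum])
    (by
      intro f g g'
      simp only [Hv, gr, map_add, mul_add, Finset.sum_add_distrib])
    (by
      intro c f g
      simp only [Hv, gr, map_smul, mul_smul_comm, ← Finset.smul_sum])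
  map_add' := by
    intro ψ ψ'
    ext f g
    simp only [Hv, map_add, add_mul, Finset.sum_add_distrib, LinearMap.mk₂_apply,
      LinearMap.add_apply]
  map_smul' := by
    intro c ψ
    ext f g
    simp only [Hv, map_smul, smul_mul_assoc, ← Finset.smul_sum, LinearMap.mk₂_apply,
      LinearMap.smul_apply, RingHom.id_apply]

theorem beta_def (ψ f g : Sm) : beta ψ f g = I (Hv ψ (gr f) (gr g)) := rfl

theorem beta_comm (ψ f g : Sm) : beta ψ f g = beta ψ g f := by
  rw [beta_def, beta_def, hess_Hv_comm]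

theorem beta_L (c : Fin 3) (ψ f g : Sm) :
    beta (L c ψ) f g + beta ψ (L c f) g + beta ψ f (L c g) = 0 := by
  have a0 := hess_ev_cancel c (fun a => H a 0 ψ) (fun a => D a f)
  have a1 := hess_ev_cancel c (fun a => H a 1 ψ) (fun a => D a f)
  have a2 := hess_ev_cancel c (fun a => H a 2 ψ) (fun a => D a f)
  have b0 := hess_ev_cancel c (fun a => H 0 a ψ) (fun a => D a g)
  have b1 := hess_ev_cancel c (fun a => H 1 a ψ) (fun a => D a g)
  have b2 := hess_ev_cancel c (fun a => H 2 a ψ) (fun a => D a g)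
  rw [← I_L c (Hv ψ (gr f) (gr g))]
  simp only [beta_def, ← map_add]
  congr 1
  simp only [Hv, gr, map_sum, L_mul, L_H, L_D]
  simp only [Fin.sum_univ_three (f := fun a => _ * _),
    Fin.sum_univ_three (f := fun a => _ + _)] at *
  linear_combination -D 0 g * a0 - D 1 g * a1 - D 2 g * a2 - D 0 f * b0 - D 1 f * b1 - D 2 f * b2

theorem beta_eq (ψ f g : Sm) : beta ψ f g
    = -I (g * (gd f (Dop ψ) + ∑ a, ∑ b, H a b ψ * D b (D a f))) := by
  have e1 : Hv ψ (gr f) (gr g) = ∑ a, ∑ b, D b g * (H a b ψ * D a f) := by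
    simp only [Hv, gr, mul_comm (D _ g)]
  rw [beta_def, e1]
  simp only [map_sum, hess_ibp]
  simp only [← map_sum]
  rw [← map_neg]
  congr 1
  have d0 := div_H 0 ψ
  have d1 := div_H 1 ψ
  have d2 := div_H 2 ψ
  have k0 := sum_X_H 0 ψ
  have k1 := sum_X_H 1 ψ
  have k2 := sum_X_H 2 ψ
  have s1 := sum_X_D f
  simp only [D_mul, gd_eq_D]
  simp only [Fin.sum_univ_three, H_symm 1 0, H_symm 2 0, H_symm 2 1] at *
  linear_combination g * D 0 f * (2 * k0 - d0) + g * D 1 f * (2 * k1 - d1)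
    + g * D 2 f * (2 * k2 - d2) + g * Dop ψ * s1

end Pool.Agent.Lib.MP_2fa2a2_gt.PI
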