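import Pool.Agent.Lib.MP_2fa2a2_gt.PI.IdEY

/-! The even transport identity: limits of conjugated forms. -/

namespace Pool.Agent.Lib.MP_2fa2a2_gt.PI

open MeasureTheory Filter Topology

/-- bounded sequences -/
def IdeBd (𝒰 : Ultrafilter ℕ) (s : ℕ → Sm) : Prop := ∃ C, 0 ≤ C ∧ ∀ᶠ n in 𝒰, ‖s n‖ ≤ C

/-- bounded sequences of high frequency -/
def IdeHf (𝒰 : Ultrafilter ℕ) (s : ℕ → Sm) : Prop :=
  IdeBd 𝒰 s ∧ Tendsto (fun n => nrm 1 (-1) (s n)) 𝒰 (𝓝 0)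

variable {c : IdeCtx} {𝒰 : Ultrafilter ℕ} {μ : Measure Fm} {s t t' : ℕ → Sm}
  {A T T' S S' T1 T2 S1 S2 : Sm →ₗ[ℝ] Sm} {α β β' b b1 b2 : Fm → ℝ}

theorem IdeHf.op (h : IdeHf 𝒰 s) (hA : Ord 0 A) : IdeHf 𝒰 fun n => A (s n) := by
  obtain ⟨⟨C, hC, h1⟩, h2⟩ := h
  obtain ⟨C0, c0, b0⟩ := hA 0
  obtain ⟨C1, -, b1⟩ := hA (-2)
  refine ⟨⟨C0 * C, by positivity, h1.mono fun n hn => ?_⟩, ?_⟩
  · have := b0 (s n)
    norm_num at this
    rw [nrm_zero le_rfl, nrm_zero le_rfl] at this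
    exact this.trans (mul_le_mul_of_nonneg_left hn c0)
  · refine squeeze_zero (fun n => nrm_nonneg _ _ _) (fun n => ?_)
      (by simpa using h2.const_mul C1)
    simpa using b1 (s n)

theorem IdeHf.add (h : IdeHf 𝒰 t) (h' : IdeHf 𝒰 t') : IdeHf 𝒰 fun n => t n + t' n := by
  obtain ⟨⟨C, hC, h1⟩, h2⟩ := h
  obtain ⟨⟨C', hC', h1'⟩, h2'⟩ := h'
  refine ⟨⟨C + C', by positivity, ?_⟩, squeeze_zero (fun n => nrm_nonneg _ _ _)
    (fun n => nrm_add_le _ _ _ _) (by simpa using h2.add h2')⟩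
  filter_upwards [h1, h1'] with n a b
  exact norm_add_le_of_le a b

theorem ide_null1 (hA : Ord (-1) A) (hs : IdeBd 𝒰 s) (ht : IdeHf 𝒰 t) :
    ideLS 𝒰 (fun n => inner ℝ (Ri (s n)) (A (R (t n)))) 0 := by
  obtain ⟨C, hC, hs⟩ := hs
  obtain ⟨C1, c1, b1⟩ := hA 1
  refine ideLS_of_bound (r := fun n => 2 * C * (C1 * (2 * nrm 1 (-1) (t n))))
    (hs.mono fun n hn => ?_) (by simpa using ((ht.2.const_mul 2).const_mul C1).const_mul (2 * C))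
  refine (abs_inner_le_nrm le_rfl (-(1 / 2)) _ _).trans ?_
  have a1 := b1 (R (t n))
  have a2 := Bd_R_half (-1) (t n)
  norm_num at a1 a2
  rw [neg_neg]
  exact mul_le_mul ((ide_Ri _).trans (by linarith))
    (by simpa using a1.trans (mul_le_mul_of_nonneg_left a2 c1)) (nrm_nonneg _ _ _) (by positivity)

theorem ide_null2 (hA : Ord (-1) A) (hs : IdeHf 𝒰 s) (ht : IdeBd 𝒰 t) :
    ideLS 𝒰 (fun n => inner ℝ (R (A (Ri (s n)))) (t n)) 0 := by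
  obtain ⟨C, hC, ht⟩ := ht
  obtain ⟨C1, c1, b1⟩ := hA (-1)
  refine ideLS_of_bound (r := fun n => 2 * (C1 * (2 * nrm 1 (-1) (s n))) * C)
    (ht.mono fun n hn => ?_)
    (by simpa using (((hs.2.const_mul 2).const_mul C1).const_mul 2).mul_const C)
  refine (abs_real_inner_le_norm _ _).trans ?_
  have a1 := b1 (Ri (s n))
  have a2 := Bd_Ri le_rfl (-(3 / 2)) (s n)
  have a3 := ide_R (A (Ri (s n)))
  norm_num at a1 a2 a3
  have a4 := a3.trans (mul_le_mul_of_nonneg_left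
    (a1.trans (mul_le_mul_of_nonneg_left a2 c1)) zero_le_two)
  exact mul_le_mul a4 hn (norm_nonneg _) ((norm_nonneg _).trans a4)

/-- pairs of sequences whose correlations are given by the density `β` -/
structure IdeLk (c : IdeCtx) (μ : Measure Fm) (𝒰 : Ultrafilter ℕ) (s t : ℕ → Sm)
    (β : Fm → ℝ) : Prop where
  prob : IsProbabilityMeasure μ
  inv : ∀ F : Fm → ℝ, Continuous F → ∫ p, F (ngi p) ∂μ = ∫ p, F p ∂μ
  ev : ∀ n, s n ∈ Ev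
  hs : IdeHf 𝒰 s
  hf : IdeHf 𝒰 t
  mem : β ∈ Sy
  sym : β ∘ ngi = β
  lim : ∀ T S τ, IdeCl c T S τ →
    Tendsto (fun n => inner ℝ (T (s n)) (t n)) 𝒰 (𝓝 (∫ p, (τ * β) p ∂μ))

theorem IdeLk.add (h : IdeLk c μ 𝒰 s t β) (h' : IdeLk c μ 𝒰 s t' β') :
    IdeLk c μ 𝒰 s (fun n => t n + t' n) (β + β') := by
  refine ⟨h.prob, h.inv, h.ev, h.hs, h.hf.add h'.hf, Sy.add_mem h.mem h'.mem,
    by rw [Pi.add_comp, h.sym, h'.sym], fun T S τ hT => ?_⟩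
  have := h.prob
  have hτ := (c.hW.1 _ _ hT.wd).2.1
  have h1 := (h.lim T S τ hT).add (h'.lim T S τ hT)
  rw [← integral_add (ide_int (Sy_continuous (Sy.mul_mem hτ h.mem)))
    (ide_int (Sy_continuous (Sy.mul_mem hτ h'.mem)))] at h1
  simpa only [inner_add_right, mul_add, Pi.add_apply] using h1

theorem ide_X : ∃ C, 0 ≤ C ∧ ∀ (B : ℝ) (φ y : Sm), Cb 1 1 B φ → ‖R (φ * Ri y)‖ ≤ C * B * ‖y‖ := by
  obtain ⟨C, hC, h⟩ := ide_ml
  refine ⟨4 * C, by positivity, fun B φ y hφ => (ide_R _).trans ?_⟩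
  have a1 := (h B φ (Ri y) hφ).2
  have a2 := mul_le_mul_of_nonneg_left (ide_Ri y) (mul_nonneg hC hφ.nonneg)
  linarith

theorem IdeLk.one_ev (h : IdeLk c μ 𝒰 s t β) {N : ℕ} {ψ φ : Sm} (h1 : ψ ∈ Ev) (h2 : ψ ∈ Poly N)
    (h3 : φ ∈ Ev) : ideLS 𝒰 (fun n => inner ℝ (ψ * R (φ * Ri (s n))) (t n) -
      ∫ p, (px ψ * pi' φ * β) p ∂μ) 0 := by
  have := h.prob
  obtain ⟨C, hC, hX⟩ := ide_X
  obtain ⟨Cs, cs, hs⟩ := h.hs.1
  obtain ⟨Ct, ct, ht⟩ := h.hf.1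
  obtain ⟨B, hB, hψ⟩ := ψ.bounded
  obtain ⟨B', hB', hβ⟩ := ide_jet_bdd h.mem
  obtain ⟨S, hS⟩ := ide_cl_px c h1 h2
  refine ideLS_clos (B * (C * Cs) * Ct + B * B') fun θ h0 _ => ?_
  obtain ⟨M, ρ, r1, r2, r3⟩ := ide_near 1 h3 h0
  obtain ⟨T, hT⟩ := ide_cl_pi c r1 r2
  have a1 := ideLS_of_tendsto' (h.lim _ _ _ (hS.comp hT))
  have a2 : ideLS 𝒰 (fun n => inner ℝ (ψ * R ((φ - ρ) * Ri (s n))) (t n))
      (B * (C * θ * Cs) * Ct) := by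
    refine ideLS_of_le ?_
    filter_upwards [hs, ht] with n b1 b2
    refine (abs_real_inner_le_norm _ _).trans (mul_le_mul ((norm_mul_le hψ _).trans ?_) b2
      (norm_nonneg _) (by positivity))
    exact mul_le_mul_of_nonneg_left ((hX _ _ _ r3).trans
      (mul_le_mul_of_nonneg_left b1 (by positivity))) hB
  have m : ∀ φ : Sm, Continuous (px ψ * pi' φ * β) := fun φ =>
    Sy_continuous (Sy.mul_mem (Sy.mul_mem (px_mem ψ) (pi'_mem φ)) h.mem)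
  have a3 : ideLS 𝒰 (fun _ => ∫ p, (px ψ * pi' (φ - ρ) * β) p ∂μ)
      (0 * ∫ _p, 0 ∂μ + B * θ * B') := by
    refine ideLS_of_le (Eventually.of_forall fun _ => ide_int_le continuous_const fun p => ?_)
    simp only [Pi.mul_apply, abs_mul, zero_mul, zero_add]
    exact mul_le_mul (mul_le_mul (hψ _) (r3.abs_le _) (abs_nonneg _) hB)
      ((ide_abs_le_jet β p).trans (hβ p)) (abs_nonneg _) (by positivity)
  refine (((a1.add a2).sub a3).congr (Eventually.of_forall fun n => ?_)).mono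
    (le_of_eq (by ring))
  have e1 : ∫ p, (px ψ * pi' (φ - ρ) * β) p ∂μ =
      ∫ p, (px ψ * pi' φ * β) p ∂μ - ∫ p, (px ψ * pi' ρ * β) p ∂μ := by
    rw [← integral_sub (ide_int (m φ)) (ide_int (m ρ))]
    refine integral_congr_ae (Eventually.of_forall fun p => ?_)
    simp only [Pi.mul_apply, pi', Sm.sub_apply]
    ring
  simp only [e1, LinearMap.comp_apply, hT.conj _ (h.ev n), LinearMap.mulLeft_apply, sub_mul,
    map_sub, mul_sub, inner_sub_left]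
  ring

theorem IdeLk.one (h : IdeLk c μ 𝒰 s t β) {N : ℕ} {ψ : Sm} (h1 : ψ ∈ Ev) (h2 : ψ ∈ Poly N)
    (φ : Sm) : Tendsto (fun n => inner ℝ (ψ * R (φ * Ri (s n))) (t n)) 𝒰
      (𝓝 (∫ p, (px ψ * pi' φ * β) p ∂μ)) := by
  have := h.prob
  have h3 := (h.one_ev h1 h2 (evp_mem φ)).tendsto
  have e1 : ∀ n, R (evp φ * Ri (s n)) = R (φ * Ri (s n)) := fun n => by
    conv_rhs => rw [← evp_add_odp φ, add_mul, map_add]
    rw [R_of_Od (φ := odp φ * Ri (s n)), add_zero]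
    rw [mem_Od, map_mul, mem_Od.1 (odp_mem φ), mem_Ev.1 (Ri_mem_Ev _), neg_mul]
  have m : Continuous (px ψ * pi' φ * β) :=
    Sy_continuous (Sy.mul_mem (Sy.mul_mem (px_mem ψ) (pi'_mem φ)) h.mem)
  have e2 : ∫ p, (px ψ * pi' (evp φ) * β) p ∂μ = ∫ p, (px ψ * pi' φ * β) p ∂μ := by
    have a1 := h.inv _ m
    have a2 : ∀ p, (px ψ * pi' (evp φ) * β) p =
        1 / 2 * ((px ψ * pi' φ * β) p + (px ψ * pi' φ * β) (ngi p)) := fun p => by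
      have a3 : β (ngi p) = β p := congrFun h.sym p
      have a4 : evp φ p.xi = 1 / 2 * (φ p.xi + φ (neg p.xi)) := by
        simp [evp, mul_add]
      have a5 : px ψ (ngi p) = px ψ p := rfl
      have a6 : pi' φ (ngi p) = φ (neg p.xi) := rfl
      simp only [Pi.mul_apply, a3, a5, a6]
      simp only [pi', a4]
      ring
    simp only [a2]
    rw [integral_const_mul, integral_add (ide_int m)
      (ide_int (F := fun p => (px ψ * pi' φ * β) (ngi p)) (m.comp continuous_ngi)), a1]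
    ring
  simpa only [e1, e2] using h3

theorem IdeLk.wd (h : IdeLk c μ 𝒰 s t β) (hA : Wd A α) :
    ideLS 𝒰 (fun n => inner ℝ (Ri (s n)) (A (R (t n))) - ∫ p, (α ∘ swF * β) p ∂μ) 0 := by
  have := h.prob
  obtain ⟨m, N, φ, ψ, B, h1, rfl, h3, h4⟩ := c.hW.2.2.2.2.1 A α hA
  have a1 := ide_null1 h3 h.hs.1 h.hf
  have a2 := ideLS_of_tendsto' (tendsto_finsetSum Finset.univ fun i _ =>
    h.one (h1 i).1 (h1 i).2 (φ i))
  refine ((a1.add a2).congr (Eventually.of_forall fun n => ?_)).mono (by simp)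
  have e1 : ∫ p, ((∑ i, px (φ i) * pi' (ψ i)) ∘ swF * β) p ∂μ =
      ∑ i, ∫ p, (px (ψ i) * pi' (φ i) * β) p ∂μ := by
    rw [← integral_finsetSum _ fun i _ => ide_int
      (Sy_continuous (Sy.mul_mem (Sy.mul_mem (px_mem _) (pi'_mem _)) h.mem))]
    refine integral_congr_ae (Eventually.of_forall fun p => ?_)
    simp only [Pi.mul_apply, Function.comp_apply, Finset.sum_apply, Finset.sum_mul]
    exact Finset.sum_congr rfl fun i _ => by rw [mul_comm (px (ψ i) p)]; rfl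
  have e2 : ∀ i, inner ℝ (Ri (s n)) (φ i * R (ψ i * Ri (R (t n)))) =
      inner ℝ (ψ i * R (φ i * Ri (s n))) (t n) := fun i => by
    rw [← inner_mul, ← tau_inner_R, ← inner_mul, ← tau_inner_Ri, ← tau_inner_R, R_Ri,
      evp_of_Ev (ide_mul_ev (h1 i).1 (R_mem_Ev _))]
  simp only [e1, LinearMap.sub_apply, inner_sub_right, h4 _ (R_mem_Ev _), inner_sum, e2]
  ring

theorem IdeLk.op (h : IdeLk c μ 𝒰 s t β) (hA : Op0 A α) :
    ideLS 𝒰 (fun n => inner ℝ (Ri (s n)) (A (R (t n))) - ∫ p, (α ∘ swF * β) p ∂μ) 0 := by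
  obtain ⟨-, B, hB, hE⟩ := hA
  refine (((ide_null1 hE h.hs.1 h.hf).add (h.wd hB)).congr
    (Eventually.of_forall fun n => ?_)).mono (by simp)
  simp only [LinearMap.sub_apply, inner_sub_right]
  ring

theorem IdeLk.op' (h : IdeLk c μ 𝒰 s t β) (hA : Op0 A α) :
    ideLS 𝒰 (fun n => inner ℝ (R (A (Ri (s n)))) (t n) - ∫ p, (α ∘ swF * β) p ∂μ) 0 := by
  obtain ⟨-, B, hB, hE⟩ := hA
  obtain ⟨B', hB', hadj⟩ := c.hW.2.2.1 B α hB
  refine (((ide_null2 hE h.hs h.hf.1).add (h.wd hB')).congr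
    (Eventually.of_forall fun n => ?_)).mono (by simp)
  simp only [LinearMap.sub_apply, map_sub, inner_sub_left, ← hadj, tau_inner_R]
  ring

theorem IdeLk.P1 (h : IdeLk c μ 𝒰 s t β) (j : ℕ) : ∃ k, ∀ (e : ℕ → Sm) (g : Sm) (r : ℕ → ℝ)
    (θ : ℝ), (∀ᶠ n in 𝒰, Cb 3 1 (r n) (e n - g)) → Tendsto r 𝒰 (𝓝 θ) →
    ideLS 𝒰 (fun n => inner ℝ (Ri (s n)) (P1 1 j (e n) (R (t n))) -
      ∫ p, -(2 * j) * Sxx g (swF p) * β p ∂μ) (k * θ) := by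
  obtain ⟨C, hC, hP⟩ := ide_P1
  obtain ⟨Cs, cs, hs⟩ := h.hs.1
  obtain ⟨Ct, ct, ht⟩ := h.hf.1
  refine ⟨2 * Cs * (C * j * (2 * Ct)), fun e g r θ he hr => ?_⟩
  have a1 := h.op (c.hS.2.2 1 j g)
  have a2 : ideLS 𝒰 (fun n => inner ℝ (Ri (s n)) (PI.P1 1 j (e n - g) (R (t n))))
      (2 * Cs * (C * j * (2 * Ct)) * θ) := by
    refine ideLS_of_bound ?_ (hr.const_mul _)
    filter_upwards [he, hs, ht] with n b1 b2 b3
    refine (abs_inner_le_nrm le_rfl (-(1 / 2)) _ _).trans ?_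
    rw [neg_neg]
    have b4 := Bd_R_half 0 (t n)
    rw [zero_add, nrm_zero le_rfl] at b4
    have b5 := b1.nonneg
    have b6 := (hP j _ _ (R (t n)) b1).trans (mul_le_mul_of_nonneg_left
      (b4.trans (mul_le_mul_of_nonneg_left b3 zero_le_two)) (by positivity))
    refine (mul_le_mul ((ide_Ri _).trans (mul_le_mul_of_nonneg_left b2 zero_le_two)) b6
      (nrm_nonneg _ _ _) (by positivity)).trans_eq (by ring)
  refine ((a1.add a2).congr (Eventually.of_forall fun n => ?_)).mono (by simp)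
  simp only [ide_P1_sub, inner_sub_right, Pi.mul_apply, Function.comp_apply]
  norm_num

/-- sequences with the same defect measure for conjugable words -/
structure IdeRc (c : IdeCtx) (μ : Measure Fm) (𝒰 : Ultrafilter ℕ) (s : ℕ → Sm) : Prop where
  prob : IsProbabilityMeasure μ
  inv : ∀ F : Fm → ℝ, Continuous F → ∫ p, F (ngi p) ∂μ = ∫ p, F p ∂μ
  ev : ∀ n, s n ∈ Ev
  hs : IdeHf 𝒰 s
  lim : ∀ T S b T' S' b', IdeCl c T S b → IdeCl c T' S' b' →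
    Tendsto (fun n => inner ℝ (T (s n)) (T' (s n))) 𝒰 (𝓝 (∫ p, (b * b') p ∂μ))

theorem IdeRc.lk (h : IdeRc c μ 𝒰 s) (hT : IdeCl c T S b) :
    IdeLk c μ 𝒰 s (fun n => T (s n)) b :=
  have hb := c.hW.1 _ _ hT.wd
  ⟨h.prob, h.inv, h.ev, h.hs, h.hs.op hb.1, hb.2.1, hb.2.2, fun _ _ _ h' => h.lim _ _ _ _ _ _ h' hT⟩

theorem IdeRc.lk' (h : IdeRc c μ 𝒰 s) (h1 : IdeCl c T1 S1 b1) (h2 : IdeCl c T2 S2 b2)
    (h3 : Wd T' b2) (h4 : ∀ φ ψ, inner ℝ (T2 φ) ψ = inner ℝ φ (T' ψ)) :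
    IdeLk c μ 𝒰 s (fun n => T' (T1 (s n))) (b2 * b1) := by
  have hb := c.hW.1 _ _ (h3.comp h1.wd)
  refine ⟨h.prob, h.inv, h.ev, h.hs, h.hs.op hb.1, hb.2.1, hb.2.2, fun T S τ h' => ?_⟩
  have := h.lim _ _ _ _ _ _ (h2.comp h') h1
  rw [mul_comm b2 τ, mul_assoc] at this
  simpa only [← h4, LinearMap.comp_apply] using this

theorem ide_rc {K j : ℕ} {B : ℝ} {ε : ℕ → ℝ} {f y : ℕ → Sm} (c : IdeCtx)
    (h : Sq K j B ε f y 𝒰 μ) : IdeRc c μ 𝒰 y := by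
  refine ⟨h.prob, h.rep.2.2.2, h.ev, ⟨⟨1, zero_le_one, Eventually.of_forall fun n => (h.one n).le⟩,
    h.hf⟩, fun T S b T' S' b' h1 h2 => ?_⟩
  obtain ⟨A, hA, hadj⟩ := c.hW.2.2.1 _ _ h1.wd
  have hw := hA.comp h2.wd
  have := h.rep.2.1 _ _ ⟨(c.hW.1 _ _ hw).1, _, hw, fun n => ⟨0, le_rfl, fun φ => by simp [nrm]⟩⟩
  refine this.congr fun n => ?_
  rw [hadj, real_inner_comm, LinearMap.comp_apply]

theorem ide_T_GG (h : IdeCl c T S b) {U : Sm} (hU : U ∈ Ev) (y : Sm) :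
    T (GG U y) = R (S (XX U (Ri y))) := by
  have e : GG U y = R (XX U (Ri y)) := rfl
  rw [e, h.conj _ (R_mem_Ev _), Ri_R, evp_of_Ev (c.ev U hU _ (Ri_mem_Ev y))]

theorem ide_Z_eq (h1 : IdeCl c T1 S1 b1) (h2 : IdeCl c T2 S2 b2) {U y : Sm} (hU : U ∈ Ev)
    (hy : y ∈ Ev) : inner ℝ (T1 (GG U y)) (T2 (GG U y)) - inner ℝ (T1 y) (T2 y) =
      ideZ U S1 S2 (Ri y) := by
  rw [ide_T_GG h1 hU, ide_T_GG h2 hU, h1.conj y hy, h2.conj y hy, ideZ]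

theorem ide_Cb_smul {k : ℕ} {B r : ℝ} {v : Sm} (hr : 0 < r) (h : Cb k 1 B v) :
    Cb k 1 (r * B) (r • v) := by
  simpa [abs_of_pos hr] using h.smul r

theorem ide_nz {y : Sm} (h : ‖y‖ = 1) : nrm 1 (-(1 / 2)) (Ri y) ^ 2 ≤ 4 := by
  have h1 := ide_Ri y
  rw [h] at h1
  nlinarith [nrm_nonneg 1 (-(1 / 2)) (Ri y)]

section
variable {ε : ℕ → ℝ} {y h : ℕ → Sm} {B : ℝ}

theorem IdeRc.gg (hy : IdeRc c μ 𝒰 y) (h1 : ∀ n, ‖y n‖ = 1) (hε : ∀ n, 0 < ε n)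
    (hε' : Tendsto ε 𝒰 (𝓝 0)) (he : ∀ n, h n ∈ Ev) (hb : ∀ n, Cb c.K 1 B (h n)) :
    IdeRc c μ 𝒰 fun n => GG (ε n • h n) (y n) := by
  have hδ := ide_ev_le hε' B c.pos
  have hg := hδ.mono fun n hn =>
    c.gg _ _ hn (Ev.smul_mem (ε n) (he n)) (ide_Cb_smul (hε n) (hb n))
  refine ⟨hy.prob, hy.inv, fun n => R_mem_Ev _, ⟨⟨c.C, c.hC, hg.mono fun n hn => ?_⟩,
    squeeze_zero' (Eventually.of_forall fun n => nrm_nonneg _ _ _) (hg.mono fun n hn => hn.2.1 _)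
      (by simpa using hy.hs.2.const_mul c.C)⟩, fun T S b T' S' b' a1 a2 => ?_⟩
  · simpa [h1 n] using hn.1 (y n)
  · obtain ⟨k1, t1⟩ := ide_tame_eg a1.eg a1.ev
    obtain ⟨k2, t2⟩ := ide_tame_eg a2.eg a2.ev
    have a3 : ideLS 𝒰 (fun n => ideZ (ε n • h n) S S' (Ri (y n))) 0 := by
      refine ideLS_eps hε' (C := 12 * c.C * k1 * k2 * B * 4) (hδ.mono fun n hn => ?_)
      have b1 := ide_Cb_smul (hε n) (hb n)
      refine (ide_Zb t1 t2 hn (Ev.smul_mem (ε n) (he n)) b1 (Ri_mem_Ev _)).trans ?_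
      have := c.hC
      have := t1.nn
      have := t2.nn
      have := b1.nonneg
      exact (mul_le_mul_of_nonneg_left (ide_nz (h1 n)) (by positivity)).trans_eq (by ring)
    refine ideLS.tendsto (((a3.add (ideLS_of_tendsto' (hy.lim _ _ _ _ _ _ a1 a2))).congr
      (Eventually.of_forall fun n => ?_)).mono (by simp))
    rw [← ide_Z_eq a1 a2 (Ev.smul_mem (ε n) (he n)) (hy.ev n)]
    ring

theorem IdeRc.comm (hy : IdeRc c μ 𝒰 y) (h1 : ∀ n, ‖y n‖ = 1) (hε : ∀ n, 0 < ε n)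
    (hε' : Tendsto ε 𝒰 (𝓝 0)) (he : ∀ n, h n ∈ Ev) (hb : ∀ n, Cb c.K 1 B (h n))
    (a1 : IdeCl c T1 S1 b1) (a2 : IdeCl c T2 S2 b2) : ∃ k, ∀ (θ : ℝ) (g : Sm),
    (∀ᶠ n in 𝒰, Cb c.K 1 θ (h n - g)) →
    ideLS 𝒰 (fun n => inner ℝ (R (cm (Vb (h n)) S1 (XX (ε n • h n) (Ri (y n)))))
      (R (S2 (XX (ε n • h n) (Ri (y n))))) - ∫ p, (Xl g (b1 ∘ swF) ∘ swF * b2) p ∂μ) (k * θ) := by
  obtain ⟨k1, n1, -, u1, -⟩ := ide_eg c a1.eg
  obtain ⟨k2, n2, u2, -, -⟩ := ide_eg c a2.eg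
  refine ⟨4 * (k1 * (c.C * 2)) * (k2 * (c.C * 2)), fun θ g hg => ?_⟩
  have a3 := ((hy.gg h1 hε hε' he hb).lk a2).op' (c.hS.1 g _ _ a1.ws)
  have a4 : ideLS 𝒰 (fun n => inner ℝ (R (PI.cm (Vb (h n - g)) S1 (XX (ε n • h n) (Ri (y n)))))
      (R (S2 (XX (ε n • h n) (Ri (y n)))))) (4 * (k1 * (c.C * 2)) * (k2 * (c.C * 2)) * θ) := by
    refine ideLS_of_le ?_
    filter_upwards [hg, ide_ev_le hε' B c.pos] with n b1 b2
    have b3 : nrm 1 (-(1 / 2)) (XX (ε n • h n) (Ri (y n))) ≤ c.C * 2 :=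
      (c.xx _ _ b2 (ide_Cb_smul (hε n) (hb n)) _).trans
        (mul_le_mul_of_nonneg_left (by simpa [h1 n] using ide_Ri (y n)) c.hC)
    exact (ide_RR _ _ ((u1 _ _ b1 _).trans (mul_le_mul_of_nonneg_left b3 (mul_nonneg n1 b1.nonneg)))
      ((u2 _).trans (mul_le_mul_of_nonneg_left b3 n2))).trans_eq (by ring)
  refine ((a3.add a4).congr (Eventually.of_forall fun n => ?_)).mono (by simp)
  have e : Ri (GG (ε n • h n) (y n)) = XX (ε n • h n) (Ri (y n)) :=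
    (Ri_R _).trans (evp_of_Ev (c.ev _ (Ev.smul_mem (ε n) (he n)) _ (Ri_mem_Ev _)))
  simp only [e, ide_T_GG a2 (Ev.smul_mem (ε n) (he n)), ide_V_sub, map_sub, inner_sub_left]
  ring

theorem IdeRc.Z (hy : IdeRc c μ 𝒰 y) (h1 : ∀ n, ‖y n‖ = 1) (hε : ∀ n, 0 < ε n)
    (hε' : Tendsto ε 𝒰 (𝓝 0)) (he : ∀ n, h n ∈ Ev) (hb : ∀ n, Cb c.K 1 B (h n))
    (a1 : IdeCl c T1 S1 b1) (a2 : IdeCl c T2 S2 b2) : ∃ k, ∀ (θ : ℝ) (g : Sm),
    (∀ᶠ n in 𝒰, Cb c.K 1 θ (h n - g)) →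
    ideLS 𝒰 (fun n => (ε n)⁻¹ * ideZ (ε n • h n) S1 S2 (Ri (y n)) +
      ∫ p, Xl g ((b1 * b2) ∘ swF) (swF p) ∂μ)
      (c.C * B * √(∫ p, (b1 * b1) p ∂μ) * √(∫ p, (b2 * b2) p ∂μ) + k * θ) := by
  have := hy.prob
  obtain ⟨k1, u1⟩ := hy.comm h1 hε hε' he hb a1 a2
  obtain ⟨k2, u2⟩ := hy.comm h1 hε hε' he hb a2 a1
  obtain ⟨k, u⟩ := ide_Zp a1.eg a2.eg a1.ev a2.ev
  refine ⟨k1 + k2, fun θ g hg => ?_⟩
  have l : ∀ {T S b}, IdeCl c T S b →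
      Tendsto (fun n => ‖R (S (Ri (y n)))‖) 𝒰 (𝓝 √(∫ p, (b * b) p ∂μ)) := fun a =>
    (hy.lim _ _ _ _ _ _ a a).sqrt.congr fun n => by
      rw [a.conj _ (hy.ev n), norm_eq_sqrt_real_inner]
  have a3 : ideLS 𝒰 (fun n => (ε n)⁻¹ * ideZ (ε n • h n) S1 S2 (Ri (y n)) +
      inner ℝ (R (cm (Vb (h n)) S1 (XX (ε n • h n) (Ri (y n)))))
        (R (S2 (XX (ε n • h n) (Ri (y n))))) +
      inner ℝ (R (cm (Vb (h n)) S2 (XX (ε n • h n) (Ri (y n)))))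
        (R (S1 (XX (ε n • h n) (Ri (y n))))))
      (c.C * B * √(∫ p, (b1 * b1) p ∂μ) * √(∫ p, (b2 * b2) p ∂μ) + |k| * B ^ 2 * 4 * 0) := by
    refine ideLS_of_bound ?_ ((((l a1).const_mul _).mul (l a2)).add (hε'.const_mul _))
    filter_upwards [ide_ev_le hε' B c.pos] with n hn
    have b1 := u _ _ _ hn (Ev.smul_mem (ε n) (he n)) (ide_Cb_smul (hε n) (hb n))
      (Ri_mem_Ev (y n))
    have b2 := hε n
    rw [ide_V_smul, ide_V_smul, map_smul, map_smul, real_inner_smul_left, real_inner_smul_right,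
      real_inner_comm _ (R (S1 _))] at b1
    have b3 : k * (ε n * B) ^ 2 * nrm 1 (-(1 / 2)) (Ri (y n)) ^ 2 ≤ |k| * (ε n * B) ^ 2 * 4 :=
      mul_le_mul (mul_le_mul_of_nonneg_right (le_abs_self k) (sq_nonneg _)) (ide_nz (h1 n))
        (sq_nonneg _) (by positivity)
    refine le_of_mul_le_mul_left ?_ b2
    rw [← abs_of_pos b2, ← abs_mul, abs_of_pos b2, mul_add, mul_add, ← mul_assoc,
      mul_inv_cancel₀ b2.ne', one_mul]
    linarith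
  have m1 := (c.hW.1 _ _ a1.ws).2.1
  have m2 := (c.hW.1 _ _ a2.ws).2.1
  have e : ∫ p, Xl g ((b1 * b2) ∘ swF) (swF p) ∂μ =
      ∫ p, (Xl g (b1 ∘ swF) ∘ swF * b2) p ∂μ + ∫ p, (Xl g (b2 ∘ swF) ∘ swF * b1) p ∂μ := by
    rw [← integral_add
      (ide_int (Sy_continuous (Sy.mul_mem (swF_mem (Xl_mem g m1)) (c.hW.1 _ _ a2.wd).2.1)))
      (ide_int (Sy_continuous (Sy.mul_mem (swF_mem (Xl_mem g m2)) (c.hW.1 _ _ a1.wd).2.1))),
      Pi.mul_comp, Xl_mul g m1 m2]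
    refine integral_congr_ae (Eventually.of_forall fun p => ?_)
    simp only [Pi.add_apply, Pi.mul_apply, Function.comp_apply]
    rw [mul_comm (b1 _)]
    rfl
  refine (((a3.sub (u1 θ g hg)).sub (u2 θ g hg)).congr (Eventually.of_forall fun n => ?_)).mono
    (le_of_eq (by ring))
  simp only [e]
  ring

end

end Pool.Agent.Lib.MP_2fa2a2_gt.PI
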