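import Pool.Agent.Lib.MP_2fa2a2_gt.PI.SFm
import Pool.Agent.Lib.MP_2fa2a2_gt.PI.IdEZ

namespace Pool.Agent.Lib.MP_2fa2a2_gt.PI

open MeasureTheory Filter Topology

section
variable {c : IdeCtx} {𝒰 : Ultrafilter ℕ} {μ : Measure Fm} {T1 T2 S1 S2 : Sm →ₗ[ℝ] Sm}
  {a a' b1 b2 : Fm → ℝ}

theorem IdeP.mem (h : IdeP c a) : a ∈ Sy := let ⟨_, _, h⟩ := h; (c.hW.1 _ _ h.wd).2.1

theorem ide_poly (c : IdeCtx) {F : Fm → ℝ} (hF : Continuous F) (h1 : F ∘ ngx = F)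
    (h2 : F ∘ ngi = F) {d : ℝ} (hd : 0 < d) : ∃ b, IdeP c b ∧ ∀ p, |F p - b p| ≤ d := by
  obtain ⟨n, N, φ, ψ, h3, h4⟩ := exists_poly_near hF h1 h2 hd
  exact ⟨_, ideP_sum c _ fun i _ => ⟨(h3 i).1, (h3 i).2.2.1, ⟨N, (h3 i).2.1⟩, N, (h3 i).2.2.2⟩, h4⟩

theorem ide_split (h : IdeP c a) : ∃ m, 0 ≤ m ∧ ∀ d : ℝ, 0 < d → d ≤ 1 → ∃ b1 b2, IdeP c b1 ∧
    IdeP c b2 ∧ ∀ p, b1 p * b1 p ≤ |a p| + m * d ∧ b2 p * b2 p ≤ |a p| + m * d ∧
      |a p - b1 p * b2 p| ≤ m * d := by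
  obtain ⟨B, hB, hb⟩ := ide_jet_bdd h.mem
  have hc := Sy_continuous h.mem
  obtain ⟨T, S, hT⟩ := h
  have s1 : ∀ p, a (ngx p) = a p := congrFun hT.sym
  have s2 : ∀ p, a (ngi p) = a p := congrFun (c.hW.1 _ _ hT.wd).2.2
  refine ⟨2 * (B + 2) + 2, by positivity, fun d d0 d1 => ?_⟩
  have hp : ∀ p, 0 < √(|a p| + d) := fun p => Real.sqrt_pos.2 (by positivity)
  obtain ⟨b1, p1, q1⟩ := ide_poly c (F := fun p => a p / √(|a p| + d))
    (hc.div (by fun_prop) fun p => (hp p).ne') (funext fun p => by simp [s1])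
    (funext fun p => by simp [s2]) d0
  obtain ⟨b2, p2, q2⟩ := ide_poly c (F := fun p => √(|a p| + d)) (by fun_prop)
    (funext fun p => by simp [s1]) (funext fun p => by simp [s2]) d0
  refine ⟨b1, b2, p1, p2, fun p => ?_⟩
  have e1 := q1 p
  have e2 := q2 p
  have e3 := (ide_abs_le_jet a p).trans (hb p)
  have e4 := hp p
  have e5 : √(|a p| + d) * √(|a p| + d) = |a p| + d := Real.mul_self_sqrt (by positivity)
  have e6 : a p / √(|a p| + d) * √(|a p| + d) = a p := div_mul_cancel₀ _ e4.ne'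
  generalize a p / √(|a p| + d) = x at *
  generalize √(|a p| + d) = z, b1 p = v, b2 p = w at *
  have e7 : |x| * z = |a p| := by rw [← e6, abs_mul, abs_of_pos e4]
  have e8 : |x| ≤ z := by nlinarith
  have e9 : z ≤ B + 2 := by nlinarith
  have f1 : |v| ≤ z + d := by linarith [abs_sub_abs_le_abs_sub v x, abs_sub_comm v x]
  have f2 : |w| ≤ z + d := by
    linarith [abs_sub_abs_le_abs_sub w z, abs_sub_comm w z, abs_of_pos e4]
  have f3 : (z + d) * (z + d) ≤ |a p| + (2 * (B + 2) + 2) * d := by nlinarith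
  refine ⟨?_, ?_, ?_⟩
  · rw [← abs_mul_abs_self]
    exact (mul_self_le_mul_self (abs_nonneg _) f1).trans f3
  · rw [← abs_mul_abs_self]
    exact (mul_self_le_mul_self (abs_nonneg _) f2).trans f3
  · rw [← e6, show x * z - v * w = x * (z - w) + (x - v) * w by ring]
    refine (abs_add_le _ _).trans ?_
    rw [abs_mul, abs_mul]
    have g1 := mul_le_mul (e8.trans e9) e2 (abs_nonneg _) (by positivity)
    have g2 := mul_le_mul e1 (f2.trans (add_le_add e9 d1)) (abs_nonneg _) d0.le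
    linarith

theorem ide_adj (h1 : IdeCl c T1 S1 b1) (h2 : IdeCl c T2 S2 b2) : ∃ A A', Wd A (b1 * b2) ∧
    Wd A' (b1 * b2) ∧ (∀ φ ψ, inner ℝ (A φ) ψ = inner ℝ φ (A' ψ)) ∧
    (∀ φ, inner ℝ (A φ) φ = inner ℝ (T1 φ) (T2 φ)) ∧ ∀ s, IdeRc c μ 𝒰 s →
      IdeLk c μ 𝒰 s (fun n => A (s n) + A' (s n)) (b1 * b2 + b1 * b2) := by
  obtain ⟨A1, w1, a1⟩ := c.hW.2.2.1 _ _ h1.wd
  obtain ⟨A2, w2, a2⟩ := c.hW.2.2.1 _ _ h2.wd
  have e : ∀ φ ψ, inner ℝ ((A2 ∘ₗ T1) φ) ψ = inner ℝ (T1 φ) (T2 ψ) := fun φ ψ => by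
    rw [real_inner_comm, LinearMap.comp_apply, ← a2, real_inner_comm]
  refine ⟨A2 ∘ₗ T1, A1 ∘ₗ T2, mul_comm b2 b1 ▸ w2.comp h1.wd, w1.comp h2.wd,
    fun φ ψ => by rw [e, a1, LinearMap.comp_apply], fun φ => e φ φ, fun s hs => ?_⟩
  have := (hs.lk' h1 h2 w2 a2).add (hs.lk' h2 h1 w1 a1)
  rwa [mul_comm b2 b1] at this

theorem ide_pair {ε : ℕ → ℝ} {y F : ℕ → Sm} {B η : ℝ} {χ χ' : Sm} (hy : IdeRc c μ 𝒰 y)
    (h1 : ∀ n, ‖y n‖ = 1) (hε : ∀ n, 0 < ε n) (hε' : Tendsto ε 𝒰 (𝓝 0)) (he : ∀ n, F n ∈ Ev)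
    (hb : ∀ n, Cb c.K 1 B (F n)) (hχ : χ ∈ Ev) (hχ' : χ' ∈ Ev) (hl : ∀ x, χ x ≠ 0 → χ' x = 1)
    (hη : ∀ n, Cb c.K 1 η (χ' * F n)) (a1 : IdeCl c T1 S1 b1) (a2 : IdeCl c T2 S2 b2) :
    ∃ k, ∀ (t : ℝ) (ρ : Sm) (X : Sm →ₗ[ℝ] Sm), t ≤ 1 → ρ ∈ Ev → Cb 7 1 t (χ - ρ) →
      IdeCl c X (ml ρ) (pi' ρ) → ∃ k', ∀ (θ : ℝ) (g : Sm),
      (∀ᶠ n in 𝒰, Cb c.K 1 θ (χ' * F n - g)) →
      ideLS 𝒰 (fun n => (ε n)⁻¹ * (inner ℝ ((T1 ∘ₗ X) (GG (ε n • F n) (y n)))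
          ((T2 ∘ₗ X) (GG (ε n • F n) (y n))) - inner ℝ ((T1 ∘ₗ X) (y n)) ((T2 ∘ₗ X) (y n))) +
        ∫ p, Xl g ((b1 * pi' ρ * (b2 * pi' ρ)) ∘ swF) (swF p) ∂μ)
        (c.C * η * √(∫ p, (b1 * pi' ρ * (b1 * pi' ρ)) p ∂μ) *
          √(∫ p, (b2 * pi' ρ * (b2 * pi' ρ)) p ∂μ) + k' * θ + k * t) := by
  obtain ⟨k1, t1⟩ := ide_tame_eg a1.eg a1.ev
  obtain ⟨k2, t2⟩ := ide_tame_eg a2.eg a2.ev
  obtain ⟨k, hk⟩ := ide_Zloc t1 t2 hχ
  have he' : ∀ n, χ' * F n ∈ Ev := fun n => ide_mul_ev hχ' (he n)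
  have B0 := (hb 0).nonneg
  have η0 := (hη 0).nonneg
  refine ⟨|k| * (B + η) * 4, fun t ρ X ht hρ hd hX => ?_⟩
  obtain ⟨k', hk'⟩ := hy.Z h1 hε hε' he' hη (a1.comp hX) (a2.comp hX)
  refine ⟨k', fun θ g hg => ?_⟩
  have a3 : ideLS 𝒰 (fun n => (ε n)⁻¹ * (ideZ (ε n • F n) (S1 ∘ₗ ml ρ) (S2 ∘ₗ ml ρ) (Ri (y n)) -
      ideZ (ε n • (χ' * F n)) (S1 ∘ₗ ml ρ) (S2 ∘ₗ ml ρ) (Ri (y n)))) (|k| * (B + η) * 4 * t) := by
    refine ideLS_of_le ?_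
    filter_upwards [ide_ev_le hε' (B + η) c.pos] with n hn
    have b2 := hε n
    have t0 := hd.nonneg
    have b1 := hk t ρ _ _ _ _ ht hρ hd hn (Ev.smul_mem (ε n) (he n)) (Ev.smul_mem (ε n) (he' n))
      (ide_Cb_smul b2 ((hb n).mono zero_le_one le_rfl le_rfl (by linarith)))
      (ide_Cb_smul b2 ((hη n).mono zero_le_one le_rfl le_rfl (by linarith)))
      (fun x hx => by simp [hl x hx]) (Ri_mem_Ev (y n))
    have b3 : k * t * (ε n * (B + η)) * nrm 1 (-(1 / 2)) (Ri (y n)) ^ 2 ≤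
        |k| * t * (ε n * (B + η)) * 4 :=
      mul_le_mul (by gcongr; exact le_abs_self k) (ide_nz (h1 n)) (sq_nonneg _) (by positivity)
    rw [abs_mul, abs_of_pos (inv_pos.2 b2), inv_mul_le_iff₀ b2]
    linarith
  refine ((hk' θ g hg).add a3).congr (Eventually.of_forall fun n => ?_)
  simp only [ide_Z_eq (a1.comp hX) (a2.comp hX) (Ev.smul_mem (ε n) (he n)) (hy.ev n)]
  ring

theorem ide_sqrt {x z E : ℝ} (h1 : |x| ≤ E) (h2 : |z| ≤ E) : √x * √z ≤ E := by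
  have h0 := (abs_nonneg x).trans h1
  rw [← Real.mul_self_sqrt h0]
  exact mul_le_mul (Real.sqrt_le_sqrt ((le_abs_self x).trans h1))
    (Real.sqrt_le_sqrt ((le_abs_self z).trans h2)) (Real.sqrt_nonneg _) (Real.sqrt_nonneg _)

theorem ide_sqrt' [IsProbabilityMeasure μ] {E : ℝ} (h : ∀ p, |a p| ≤ E) (hE : 0 ≤ E) :
    √(∫ p, (a * a) p ∂μ) ≤ E := by
  have h1 := ide_int_le (μ := μ) (F := a * a) (G := fun _ => 0) continuous_const (k := 0)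
    (d := E ^ 2) fun p => by
      rw [zero_mul, zero_add, Pi.mul_apply, abs_mul, sq]
      exact mul_self_le_mul_self (abs_nonneg _) (h p)
  exact Real.sqrt_le_iff.2 ⟨hE, (le_abs_self _).trans (by simpa using h1)⟩

theorem ide_Cb_g {k : ℕ} {h : ℕ → Sm} {g : Sm} {B θ : ℝ} (hB : ∀ n, Cb k 1 B (h n))
    (hg : ∀ᶠ n in 𝒰, Cb k 1 θ (h n - g)) : Cb k 1 (B + θ) g := by
  obtain ⟨n, hn⟩ := hg.exists
  simpa using (hB n).sub hn

theorem ide_core {j : ℕ} {B η CF : ℝ} {ε : ℕ → ℝ} {f y : ℕ → Sm} {u χ χ' : Sm} (hCF : 0 ≤ CF)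
    (hs : Sq (c.K + 7) j B ε f y 𝒰 μ) (hχ : χ ∈ Ev) (hχ' : χ' ∈ Ev)
    (hl : ∀ x, χ x ≠ 0 → χ' x = 1) (hη : ∀ n, Cb (c.K + 7) 1 η (χ' * FF (ε n) (f n)))
    (hF : ∀ A A' α, Wd A α → Wd A' α → (∀ φ ψ, inner ℝ (A φ) ψ = inner ℝ φ (A' ψ)) →
      ideLS 𝒰 (fun n => (ε n)⁻¹ * (inner ℝ (A (GG (ε n • FF (ε n) (f n)) (y n)))
          (GG (ε n • FF (ε n) (f n)) (y n)) - inner ℝ (A (y n)) (y n))
        + inner ℝ (XX (ε n • FF (ε n) (f n)) (Ri (y n))) (P1 1 j ((2 : ℝ) • R (f n))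
          (R ((A + A') (GG (ε n • FF (ε n) (f n)) (y n)))))
        + ∫ p, PP j u α p ∂μ) (CF * η * ∫ p, jet α p ∂μ))
    (ha : IdeP c a) : |∫ p, PP j u (a * (pi' χ * pi' χ)) p ∂μ| ≤
      (CF + c.C + 1000 + 36 * j) * η * ∫ p, jet (a * (pi' χ * pi' χ)) p ∂μ := by
  have := hs.prob
  have hC := c.hC
  have η0 := (hη 0).nonneg
  have B0 := (hs.bF 0).nonneg
  have hy := ide_rc c hs
  have he : ∀ n, FF (ε n) (f n) ∈ Ev := fun n => R_mem_Ev _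
  have hb : ∀ k, k ≤ c.K + 7 → ∀ n, Cb k 1 B (FF (ε n) (f n)) := fun k hk n =>
    (hs.bF n).mono zero_le_one hk le_rfl le_rfl
  have hη' : ∀ k, k ≤ c.K + 7 → ∀ n, Cb k 1 η (χ' * FF (ε n) (f n)) := fun k hk n =>
    (hη n).mono zero_le_one hk le_rfl le_rfl
  have hv := hy.gg hs.one hs.pos hs.lim he (hb _ (by omega))
  obtain ⟨m, m0, hm⟩ := ide_split ha
  obtain ⟨J, J0, hJ⟩ := ide_jet_bdd ha.mem
  obtain ⟨Bχ, Bχ0, hBχ⟩ := exists_Cb 1 χ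
  obtain ⟨Bχ', Bχ0', hBχ'⟩ := exists_Cb 2 χ'
  obtain ⟨So, ho⟩ := ide_cl_px c (show (1 : Sm) ∈ Ev from map_one ant) (one_mem_Poly 0)
  refine ide_close j u (by positivity) (Sy.mul_mem ha.mem (Sy.mul_mem (pi'_mem χ) (pi'_mem χ)))
    (J * (4 * (4 * (Bχ + (Bχ + 1)))) + (c.C * η * (2 * (m * (Bχ + 1) ^ 2)) + 1 +
      36 * j * (B + 1) * J)) fun t t0 t1 => ?_
  obtain ⟨b1, b2, p1, p2, hb12⟩ := hm t t0 t1
  obtain ⟨T3, S3, c3⟩ := ha.sub (p1.mul p2)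
  obtain ⟨T1, S1, c1⟩ := p1
  obtain ⟨T2, S2, c2⟩ := p2
  obtain ⟨k1, hk1⟩ := ide_pair hy hs.one hs.pos hs.lim he (hb _ (by omega)) hχ hχ' hl
    (hη' _ (by omega)) c1 c2
  obtain ⟨k2, hk2⟩ := ide_pair hy hs.one hs.pos hs.lim he (hb _ (by omega)) hχ hχ' hl
    (hη' _ (by omega)) c3 ho
  obtain ⟨s, s0, s1, hs2⟩ := ide_small (|k1 + k2| + 1) t0
  have s2 : s ≤ t := by nlinarith [abs_nonneg (k1 + k2)]
  have s3 : k1 * s + k2 * s ≤ t := by nlinarith [le_abs_self (k1 + k2)]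
  obtain ⟨N, ρ, r1, r2, r3⟩ := ide_near 7 hχ s0
  obtain ⟨X, hX⟩ := ide_cl_pi c r1 r2
  obtain ⟨l1, hl1⟩ := hk1 s ρ X s1 r1 r3 hX
  obtain ⟨l2, hl2⟩ := hk2 s ρ X s1 r1 r3 hX
  obtain ⟨A1, A1', w1, w1', j1, i1, q1⟩ := ide_adj (μ := μ) (𝒰 := 𝒰) (c1.comp hX) (c2.comp hX)
  obtain ⟨A2, A2', w2, w2', j2, i2, q2⟩ := ide_adj (μ := μ) (𝒰 := 𝒰) (c3.comp hX) (ho.comp hX)
  have r4 : Cb 1 1 t (χ - ρ) := r3.mono zero_le_one (by norm_num) le_rfl s2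
  have r5 : Cb 1 1 (Bχ + 1) ρ := by
    simpa using (hBχ.sub r4).mono zero_le_one le_rfl le_rfl (add_le_add le_rfl t1)
  have r6 : ∀ p, |pi' ρ p| ≤ Bχ + 1 := fun p => r5.abs_le _
  set α := a * (pi' ρ * pi' ρ) with hα
  have mα : α ∈ Sy := Sy.mul_mem ha.mem (Sy.mul_mem (pi'_mem ρ) (pi'_mem ρ))
  have eα : b1 * pi' ρ * (b2 * pi' ρ) + (a - b1 * b2) * pi' ρ * (px 1 * pi' ρ) = α := by
    rw [hα, show px 1 = 1 from rfl]
    ring
  have K0 : 0 ≤ J * (4 * (4 * (Bχ + (Bχ + 1)))) * t := by positivity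
  refine ⟨α, mα, fun p => ?_, ?_⟩
  · have e : a * (pi' χ * pi' χ) - α = a * (pi' (χ - ρ) * pi' (χ + ρ)) := by
      rw [hα, show pi' (χ - ρ) = pi' χ - pi' ρ from rfl, pi'_add]
      ring
    have a1 := (ide_jet_mul (pi'_mem _) (pi'_mem _) p).trans (mul_le_mul (ide_jet_pi r4 p)
      (ide_jet_pi (hBχ.add r5) p) (ide_jet_nonneg _ _) (by positivity))
    have a2 := (ide_jet_mul ha.mem (Sy.mul_mem (pi'_mem _) (pi'_mem _)) p).trans
      (mul_le_mul (hJ p) a1 (ide_jet_nonneg _ _) J0)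
    have a3 : 0 ≤ (c.C * η * (2 * (m * (Bχ + 1) ^ 2)) + 1 + 36 * j * (B + 1) * J) * t := by
      positivity
    rw [e]
    linarith
  have z1 := hF (A1 + A2) (A1' + A2') α (eα ▸ w1.add w2) (eα ▸ w1'.add w2') fun φ ψ => by
    simp only [LinearMap.add_apply, inner_add_left, inner_add_right, j1, j2]
  obtain ⟨k3, hk3⟩ := ((q1 _ hv).add (q2 _ hv)).P1 j
  set Jα := ∫ p, jet α p ∂μ with hJα
  have Jα0 : 0 ≤ Jα := integral_nonneg (ide_jet_nonneg α)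
  have n1 : ∀ b : Fm → ℝ, (∀ p, b p * b p ≤ |a p| + m * t) →
      |∫ p, (b * pi' ρ * (b * pi' ρ)) p ∂μ| ≤ 1 * Jα + m * t * (Bχ + 1) ^ 2 := fun b hb =>
    ide_int_le (continuous_jet mα) fun p => by
      have a1 := ide_abs_le_jet α p
      have a2 := mul_self_nonneg (pi' ρ p)
      have a3 : pi' ρ p * pi' ρ p ≤ (Bχ + 1) ^ 2 := by
        rw [← abs_mul_abs_self, sq]
        exact mul_self_le_mul_self (abs_nonneg _) (r6 p)
      have a4 := mul_le_mul_of_nonneg_right (hb p) a2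
      have a5 := mul_le_mul_of_nonneg_left a3 (mul_nonneg m0 t0.le)
      rw [hα, Pi.mul_apply, Pi.mul_apply, abs_mul, abs_of_nonneg a2] at a1
      rw [Pi.mul_apply, Pi.mul_apply, abs_mul_self]
      linarith
  have n2 := mul_le_mul_of_nonneg_left (ide_sqrt (n1 b1 fun p => (hb12 p).1)
    (n1 b2 fun p => (hb12 p).2.1)) (mul_nonneg hC η0)
  have n3 := mul_le_mul_of_nonneg_left (mul_le_mul
    (ide_sqrt' (μ := μ) (a := (a - b1 * b2) * pi' ρ) (E := m * t * (Bχ + 1)) (fun p => by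
      rw [Pi.mul_apply, abs_mul]
      exact mul_le_mul (hb12 p).2.2 (r6 p) (abs_nonneg _) (by positivity)) (by positivity))
    (ide_sqrt' (μ := μ) (a := px 1 * pi' ρ) (E := Bχ + 1) (fun p => by simpa [px] using r6 p)
      (by positivity)) (Real.sqrt_nonneg _) (by positivity)) (mul_nonneg hC η0)
  refine ideLS.const (𝒰 := 𝒰) (ideLS_clos (l1 + l2 + 1000 * Jα + k3 +
    36 * j * (2 ^ 2 * Bχ') * Jα) fun θ θ0 θ1 => ?_)
  obtain ⟨g, hg⟩ := ide_cpt 𝒰 (c.K + 2) (hη' _ (by omega)) θ0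
  obtain ⟨g', hg'⟩ := ide_cpt 𝒰 3 (hb _ (by omega)) θ0
  have hg1 := hg.mono fun n hn => hn.mono zero_le_one (show c.K ≤ c.K + 2 by omega) le_rfl le_rfl
  have hg2 : Cb 2 1 (η + θ) g :=
    (ide_Cb_g (hη' _ (by omega)) hg).mono zero_le_one (by omega) le_rfl le_rfl
  have hg3 := hg'.mono fun n hn => hn.mono zero_le_one (show 2 ≤ 3 by omega) le_rfl le_rfl
  have hg4 : Cb 2 1 (B + θ) g' := ide_Cb_g (hb _ (by omega)) hg3
  have hg5 : Cb 2 1 (η + 2 ^ 2 * Bχ' * θ) (χ' * g') := ide_Cb_g (hη' _ (by omega))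
    (hg3.mono fun n hn => by simpa only [mul_sub] using hBχ'.mul zero_le_one hn)
  have z2 := hl1 θ g hg1
  have z3 := hl2 θ g hg1
  have z4 := hk3 (fun n => (2 : ℝ) • R (f n)) g' (fun n => θ + B * ε n) θ
    (hg'.mono fun n hn => by
      have := hn.sub ((hs.bF' n).mono zero_le_one (show 3 ≤ c.K + 7 by omega) le_rfl le_rfl)
      rwa [sub_sub_sub_cancel_left] at this)
    (by simpa using (hs.lim.const_mul B).const_add θ)
  have z5 : ideLS 𝒰 (fun _ => ∫ p, Xl g (α ∘ swF) (swF p) ∂μ) (1000 * (η + θ) * Jα + 0) :=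
    ideLS_of_le (Eventually.of_forall fun _ => ide_int_le (continuous_jet mα) fun p => by
      refine (abs_Xl_le hg2 _ _).trans ?_
      rw [add_zero]
      refine mul_le_mul_of_nonneg_left ?_ (by positivity)
      simp only [LL_swF]
      exact le_add_of_nonneg_left (abs_nonneg _))
  have z6 : ideLS 𝒰 (fun _ => ∫ p, -(2 * j) * Sxx g' (swF p) * (α + α) p ∂μ)
      (36 * j * (η + 2 ^ 2 * Bχ' * θ) * Jα + 36 * j * (B + 1) * J * t) :=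
    ideLS_of_le (Eventually.of_forall fun _ => ide_int_le (continuous_jet mα) fun p => by
      have a0 : |-(2 * j : ℝ) * Sxx g' (swF p) * (α + α) p| =
          4 * j * (|Sxx g' (swF p)| * |α p|) := by
        rw [Pi.add_apply, ← two_mul, abs_mul, abs_mul, abs_mul, abs_neg, abs_two,
          abs_of_nonneg (show (0 : ℝ) ≤ 2 * j by positivity)]
        ring
      have a1 := ide_jet_nonneg α p
      have a2 : (0 : ℝ) ≤ 4 * j := by positivity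
      rw [a0]
      by_cases hp : χ p.xi = 0
      · have a3 : |pi' ρ p| ≤ t := by simpa [hp, pi'] using r4.abs_le p.xi
        have a4 : |α p| ≤ J * (1 * t) := by
          rw [hα, Pi.mul_apply, Pi.mul_apply, abs_mul, abs_mul]
          exact mul_le_mul ((ide_abs_le_jet a p).trans (hJ p))
            (mul_le_mul (a3.trans t1) a3 (abs_nonneg _) zero_le_one) (by positivity) J0
        have a5 := mul_le_mul_of_nonneg_left (mul_le_mul ((ide_Sxx_le hg4 (swF p)).trans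
          (show _ ≤ 9 * (B + 1) by linarith)) a4 (abs_nonneg _) (by positivity)) a2
        have a6 : 0 ≤ 36 * j * (η + 2 ^ 2 * Bχ' * θ) * jet α p := by positivity
        linarith
      · have a3 := ide_Sxx_le hg5 (swF p)
        rw [← ide_Sxx_loc hl g' (p := swF p) hp] at a3
        have a5 := mul_le_mul_of_nonneg_left
          (mul_le_mul a3 (ide_abs_le_jet α p) (abs_nonneg _) (by positivity)) a2
        have a6 : 0 ≤ 36 * j * (B + 1) * J * t := by positivity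
        linarith)
  have m1 := swF_mem (c.hW.1 _ _ w1).2.1
  have m2 := swF_mem (c.hW.1 _ _ w2).2.1
  have e1 : ∫ p, Xl g (α ∘ swF) (swF p) ∂μ =
      ∫ p, Xl g ((b1 * pi' ρ * (b2 * pi' ρ)) ∘ swF) (swF p) ∂μ +
      ∫ p, Xl g (((a - b1 * b2) * pi' ρ * (px 1 * pi' ρ)) ∘ swF) (swF p) ∂μ := by
    rw [← eα, Pi.add_comp, Xl_add g m1 m2]
    exact integral_add (ide_int (Sy_continuous (swF_mem (Xl_mem g m1))))
      (ide_int (Sy_continuous (swF_mem (Xl_mem g m2))))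
  rw [add_add_add_comm, eα] at z4
  refine ((((((z1.sub z2).sub z3).add z5).sub z4).sub z6).congr
    (Eventually.of_forall fun n => ?_)).mono (by linarith)
  have e2 : Ri (GG (ε n • FF (ε n) (f n)) (y n)) = XX (ε n • FF (ε n) (f n)) (Ri (y n)) :=
    (Ri_R _).trans (evp_of_Ev (c.ev _ (Ev.smul_mem (ε n) (he n)) _ (Ri_mem_Ev _)))
  simp only [e1, e2, LinearMap.add_apply, inner_add_left, i1, i2, map_add, inner_add_right]
  ring

theorem ide_approx (c : IdeCtx) {ι : Type*} (s : Finset ι) {φ ψ : ι → Sm} (h1 : ∀ i, φ i ∈ Ev)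
    (h2 : ∀ i, ψ i ∈ Ev) : ∑ i ∈ s, px (φ i) * pi' (ψ i) ∈ Sy ∧ ∀ θ : ℝ, 0 < θ →
      ∃ b, IdeP c b ∧ ∀ p, jet (∑ i ∈ s, px (φ i) * pi' (ψ i) - b) p ≤ θ := by
  refine Finset.sum_induction _
    (fun a => a ∈ Sy ∧ ∀ θ : ℝ, 0 < θ → ∃ b, IdeP c b ∧ ∀ p, jet (a - b) p ≤ θ) ?_ ?_ fun i _ => ?_
  · rintro a a' ⟨m, h⟩ ⟨m', h'⟩
    refine ⟨Sy.add_mem m m', fun θ hθ => ?_⟩
    obtain ⟨b, p1, q1⟩ := h _ (half_pos hθ)
    obtain ⟨b', p2, q2⟩ := h' _ (half_pos hθ)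
    refine ⟨b + b', p1.add p2, fun p => ?_⟩
    rw [add_sub_add_comm]
    linarith [ide_jet_add (Sy.sub_mem m p1.mem) (Sy.sub_mem m' p2.mem) p, q1 p, q2 p]
  · refine ⟨Sy.zero_mem, fun θ hθ => ⟨0, ideP_sum c (∅ : Finset ι) (φ := φ) (ψ := ψ) (by simp),
      fun p => ?_⟩⟩
    have := ide_jet_smul 0 (0 : Fm → ℝ) p
    rw [zero_smul, abs_zero, zero_mul] at this
    rw [sub_self, this]
    exact hθ.le
  · refine ⟨Sy.mul_mem (px_mem _) (pi'_mem _), fun θ hθ => ?_⟩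
    obtain ⟨B1, B10, hB1⟩ := exists_Cb 1 (φ i)
    obtain ⟨B2, B20, hB2⟩ := exists_Cb 1 (ψ i)
    obtain ⟨t, t0, t1, ht⟩ := ide_small (4 * (4 * B2) + 4 * (B1 + 1) * 4) hθ
    obtain ⟨N, φ', a1, a2, a3⟩ := ide_near 1 (h1 i) t0
    obtain ⟨M, ψ', a4, a5, a6⟩ := ide_near 1 (h2 i) t0
    obtain ⟨S, hS⟩ := ide_cl_px c a1 a2
    obtain ⟨T, hT⟩ := ide_cl_pi c a4 a5
    refine ⟨_, ⟨_, _, hS.comp hT⟩, fun p => ?_⟩
    have a7 : Cb 1 1 (B1 + 1) φ' := by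
      simpa using (hB1.sub a3).mono zero_le_one le_rfl le_rfl (add_le_add le_rfl t1)
    have e : px (φ i) * pi' (ψ i) - px φ' * pi' ψ' =
        px (φ i - φ') * pi' (ψ i) + px φ' * pi' (ψ i - ψ') := by
      rw [show px (φ i - φ') = px (φ i) - px φ' from rfl,
        show pi' (ψ i - ψ') = pi' (ψ i) - pi' ψ' from rfl]
      ring
    have a8 := (ide_jet_mul (px_mem _) (pi'_mem _) p).trans (mul_le_mul (ide_jet_px a3 p)
      (ide_jet_pi hB2 p) (ide_jet_nonneg _ _) (by positivity))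
    have a9 := (ide_jet_mul (px_mem _) (pi'_mem _) p).trans (mul_le_mul (ide_jet_px a7 p)
      (ide_jet_pi a6 p) (ide_jet_nonneg _ _) (by positivity))
    rw [e]
    refine (ide_jet_add (Sy.mul_mem (px_mem _) (pi'_mem _)) (Sy.mul_mem (px_mem _) (pi'_mem _))
      p).trans (by linarith)

theorem ide_avg [IsProbabilityMeasure μ] {σ : Fm → Fm} (hc : Continuous σ)
    (hσ : ∀ F : Fm → ℝ, Continuous F → ∫ p, F (σ p) ∂μ = ∫ p, F p ∂μ)
    (hL : ∀ c, LL c (a ∘ σ) = LL c a ∘ σ) (ha : a ∈ Sy) (ha' : a ∘ σ ∈ Sy) :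
    ∫ p, jet ((1 / 2 : ℝ) • (a + a ∘ σ)) p ∂μ ≤ ∫ p, jet a p ∂μ := by
  have m := continuous_jet ha
  have h1 : |∫ p, jet ((1 / 2 : ℝ) • (a + a ∘ σ)) p ∂μ| ≤
      1 / 2 * ∫ p, (jet a p + jet a (σ p)) ∂μ + 0 :=
    ide_int_le (G := fun p => jet a p + jet a (σ p)) (m.add (m.comp hc)) fun p => by
      have e : jet (a ∘ σ) p = jet a (σ p) := by simp only [jet, hL, Function.comp_apply]
      rw [abs_of_nonneg (ide_jet_nonneg _ _), ide_jet_smul, ← e, abs_of_pos (by norm_num)]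
      linarith [ide_jet_add ha ha' p]
  rw [integral_add (ide_int m) (ide_int (F := fun p => jet a (σ p)) (m.comp hc)), hσ _ m] at h1
  linarith [le_abs_self (∫ p, jet ((1 / 2 : ℝ) • (a + a ∘ σ)) p ∂μ)]

theorem ide_PP_avg [IsProbabilityMeasure μ] (j : ℕ) (u : Sm) (ha : a ∈ Sy) (ha' : a' ∈ Sy) :
    ∫ p, PP j u ((1 / 2 : ℝ) • (a + a')) p ∂μ =
      1 / 2 * (∫ p, PP j u a p ∂μ + ∫ p, PP j u a' p ∂μ) := by
  rw [ide_PP_smul, ide_PP_add j u ha ha', ← integral_add (ide_int (Sy_continuous (PP_mem j u ha)))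
    (ide_int (Sy_continuous (PP_mem j u ha'))), ← integral_const_mul]
  rfl

end

theorem idE (hB : PullBStmt) (hC : PullCStmt) (hE : EgStmt) (hW : WdStmt) (hS : SymStmt)
    (_hL : LowStmt) (hG : GtStmt) (hF : IdFStmt) : IdEStmt := by
  obtain ⟨c⟩ := ide_ctx hB hC hE hW hS hG
  obtain ⟨KF, hF⟩ := hF
  refine ⟨KF + (c.K + 7), fun j => ?_⟩
  obtain ⟨CF, hCF, hF⟩ := hF j
  have hC := c.hC
  refine ⟨CF + c.C + 1000 + 36 * j, by positivity,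
    fun B ε f y 𝒰 μ hs u χ χ' η hχ hχ' hl hu hη a ha hsupp => ?_⟩
  have := hs.prob
  have η0 := (hu 0).nonneg
  have mono : ∀ K, K ≤ KF + (c.K + 7) → Sq K j B ε f y 𝒰 μ := fun K hK =>
    ⟨hs.prob, hs.pos, hs.lim, fun n => (hs.bf n).mono zero_le_one hK le_rfl le_rfl,
      fun n => (hs.bF n).mono zero_le_one hK le_rfl le_rfl,
      fun n => (hs.bF' n).mono zero_le_one hK le_rfl le_rfl, hs.ev, hs.one, hs.hf, hs.eqn, hs.rep⟩
  have core := fun b (hb : IdeP c b) => ide_core hCF (mono _ (by omega)) hχ hχ' hl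
    (fun n => (hη n).mono zero_le_one (by omega) le_rfl le_rfl)
    ((hF B ε f y 𝒰 μ (mono _ (by omega))).2 u η
      fun n => (hu n).mono zero_le_one (by omega) le_rfl le_rfl) hb
  set a1 := (1 / 2 : ℝ) • (a + a ∘ ngi) with ha1
  have m1 : a1 ∈ Sy := Sy.smul_mem (Sy.add_mem ha (ngi_mem ha)) _
  set a2 := (1 / 2 : ℝ) • (a1 + a1 ∘ ngx) with ha2
  have m2 : a2 ∈ Sy := Sy.smul_mem (Sy.add_mem m1 (ngx_mem m1)) _
  have e1 : ∫ p, PP j (evp u) a p ∂μ = ∫ p, PP j u a2 p ∂μ := by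
    have i1 := hs.rep.2.2.2 _ (Sy_continuous (PP_mem j (evp u) ha))
    have i2 := ide_PP_avg (μ := μ) j (evp u) ha (ngi_mem ha)
    have i3 := hs.rep.2.2.1 _ (Sy_continuous (PP_mem j (ant u) m1))
    have i4 := ide_PP_avg (μ := μ) j u m1 (ngx_mem m1)
    have i5 : ∫ p, PP j (evp u) a1 p ∂μ =
        1 / 2 * (∫ p, PP j u a1 p ∂μ + ∫ p, PP j (ant u) a1 p ∂μ) := by
      rw [show evp u = (1 / 2 : ℝ) • (u + ant u) from rfl, PP_smul_left, PP_add_left,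
        ← integral_add (ide_int (Sy_continuous (PP_mem j u m1)))
          (ide_int (Sy_continuous (PP_mem j _ m1))), ← integral_const_mul]
      rfl
    simp only [PP_ngi, PP_ngx, Function.comp_apply] at i2 i4
    rw [← ha1, i1] at i2
    rw [← ha2, i3] at i4
    linarith
  have e2 : ∫ p, jet a2 p ∂μ ≤ ∫ p, jet a p ∂μ :=
    (ide_avg continuous_ngx hs.rep.2.2.1 (fun c => LL_ngx c a1) m1 (ngx_mem m1)).trans
      (ide_avg continuous_ngi hs.rep.2.2.2 (fun c => LL_ngi c a) ha (ngi_mem ha))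
  have e3 : a2 * (pi' χ * pi' χ) = a2 := by
    funext p
    by_cases hp : χ p.xi = 1
    · simp [pi', hp]
    · have z : ∀ q : Fm, χ q.xi = χ p.xi → a q = 0 := fun q hq => by
        by_contra h
        exact hp (hq ▸ hsupp q h)
      have z1 := z p rfl
      have z2 := z (ngi p) (ide_ev_apply hχ _)
      have z3 := z (ngx p) rfl
      have z4 := z (ngi (ngx p)) (ide_ev_apply hχ _)
      simp [ha2, ha1, z1, z2, z3, z4]
  obtain ⟨n, φ, ψ, hsum⟩ := Sy_span ha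
  have e4 : a2 = ∑ i, px (evp (φ i)) * pi' (evp (ψ i)) := by
    funext p
    have v : ∀ (w : Sm) (x : S2), evp w x = 1 / 2 * (w x + w (neg x)) := fun w x => by
      simp [evp, mul_add]
    simp only [ha2, ha1, hsum, Pi.smul_apply, Pi.add_apply, Function.comp_apply, Finset.sum_apply,
      Pi.mul_apply, smul_eq_mul, ← Finset.sum_add_distrib, Finset.mul_sum]
    refine Finset.sum_congr rfl fun i _ => ?_
    change 1 / 2 * (1 / 2 * (φ i p.x * ψ i p.xi + φ i p.x * ψ i (neg p.xi)) +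
      1 / 2 * (φ i (neg p.x) * ψ i p.xi + φ i (neg p.x) * ψ i (neg p.xi))) =
      evp (φ i) p.x * evp (ψ i) p.xi
    rw [v, v]
    ring
  obtain ⟨-, happ⟩ := ide_approx c Finset.univ (fun i => evp_mem (φ i)) fun i => evp_mem (ψ i)
  rw [← e4] at happ
  obtain ⟨J, J0, hJ⟩ := ide_jet_bdd (Sy.mul_mem (pi'_mem χ) (pi'_mem χ))
  rw [e1]
  refine (ide_close j u (by positivity) m2 J fun t t0 _ => ?_).trans
    (mul_le_mul_of_nonneg_left e2 (by positivity))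
  obtain ⟨b, hb, hj⟩ := happ t t0
  refine ⟨_, Sy.mul_mem hb.mem (Sy.mul_mem (pi'_mem χ) (pi'_mem χ)), fun p => ?_,
    (core b hb).trans (le_add_of_nonneg_right (by positivity))⟩
  rw [← e3, ← sub_mul, mul_comm J]
  exact (ide_jet_mul (Sy.sub_mem m2 hb.mem) (Sy.mul_mem (pi'_mem χ) (pi'_mem χ)) p).trans
    (mul_le_mul (hj p) (hJ p) (ide_jet_nonneg _ _) t0.le)

end Pool.Agent.Lib.MP_2fa2a2_gt.PI
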