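import Pool.Agent.Lib.MP_2fa2a2_gt.PI.SFm

/-! Tools for the even transport identity: limits, compactness, jets. -/

namespace Pool.Agent.Lib.MP_2fa2a2_gt.PI

open MeasureTheory Filter Topology

/-- bound for the upper limit of the absolute value -/
def ideLS (𝒰 : Ultrafilter ℕ) (x : ℕ → ℝ) (c : ℝ) : Prop :=
  ∀ θ : ℝ, 0 < θ → ∀ᶠ n in 𝒰, |x n| ≤ c + θ

section
variable {𝒰 : Ultrafilter ℕ} {x x' : ℕ → ℝ} {c c' : ℝ}

theorem ideLS.add (h : ideLS 𝒰 x c) (h' : ideLS 𝒰 x' c') :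
    ideLS 𝒰 (fun n => x n + x' n) (c + c') := fun θ hθ => by
  filter_upwards [h (θ / 2) (by positivity), h' (θ / 2) (by positivity)] with n a b
  linarith [abs_add_le (x n) (x' n)]

theorem ideLS.sub (h : ideLS 𝒰 x c) (h' : ideLS 𝒰 x' c') :
    ideLS 𝒰 (fun n => x n - x' n) (c + c') := fun θ hθ => by
  filter_upwards [h (θ / 2) (by positivity), h' (θ / 2) (by positivity)] with n a b
  linarith [abs_sub (x n) (x' n)]

theorem ideLS.mono (h : ideLS 𝒰 x c) (hc : c ≤ c') : ideLS 𝒰 x c' := fun θ hθ => by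
  filter_upwards [h θ hθ] with n a
  linarith

theorem ideLS.congr (h : ideLS 𝒰 x c) (e : ∀ᶠ n in 𝒰, x' n = x n) : ideLS 𝒰 x' c :=
  fun θ hθ => by
    filter_upwards [h θ hθ, e] with n a b
    rwa [b]

theorem ideLS_of_bound {r : ℕ → ℝ} (h : ∀ᶠ n in 𝒰, |x n| ≤ r n) (hr : Tendsto r 𝒰 (𝓝 c)) :
    ideLS 𝒰 x c := fun θ hθ => by
  filter_upwards [h, hr.eventually (gt_mem_nhds (lt_add_of_pos_right c hθ))] with n a b
  linarith

theorem ideLS_of_le (h : ∀ᶠ n in 𝒰, |x n| ≤ c) : ideLS 𝒰 x c :=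
  ideLS_of_bound h tendsto_const_nhds

theorem ideLS_of_tendsto (h : Tendsto x 𝒰 (𝓝 c)) : ideLS 𝒰 x |c| :=
  ideLS_of_bound (Eventually.of_forall fun _ => le_rfl) h.abs

theorem ideLS_of_tendsto' (h : Tendsto x 𝒰 (𝓝 c)) : ideLS 𝒰 (fun n => x n - c) 0 := by
  simpa using ideLS_of_tendsto (h.sub_const c)

theorem ide_small (K : ℝ) {θ : ℝ} (hθ : 0 < θ) : ∃ t : ℝ, 0 < t ∧ t ≤ 1 ∧ K * t ≤ θ := by
  refine ⟨min 1 (θ / (|K| + 1)), by positivity, min_le_left _ _, ?_⟩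
  have h1 : min 1 (θ / (|K| + 1)) * (|K| + 1) ≤ θ :=
    (le_div_iff₀ (by positivity)).1 (min_le_right _ _)
  have h2 : 0 ≤ min 1 (θ / (|K| + 1)) := by positivity
  nlinarith [mul_le_mul_of_nonneg_right (le_abs_self K) h2]

theorem ideLS_clos (K : ℝ) (h : ∀ t : ℝ, 0 < t → t ≤ 1 → ideLS 𝒰 x (c + K * t)) :
    ideLS 𝒰 x c := fun θ hθ => by
  obtain ⟨t, h0, h1, h2⟩ := ide_small K (half_pos hθ)
  filter_upwards [h t h0 h1 (θ / 2) (half_pos hθ)] with n a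
  linarith

theorem ideLS.const {r : ℝ} (h : ideLS 𝒰 (fun _ => r) c) : |r| ≤ c :=
  le_of_forall_pos_le_add fun θ hθ => (h θ hθ).exists.choose_spec

theorem ideLS.tendsto (h : ideLS 𝒰 (fun n => x n - c) 0) : Tendsto x 𝒰 (𝓝 c) := by
  refine Metric.tendsto_nhds.2 fun θ hθ => ?_
  filter_upwards [h (θ / 2) (half_pos hθ)] with n a
  rw [Real.dist_eq]
  linarith

theorem ideLS_eps {ε : ℕ → ℝ} (hε : Tendsto ε 𝒰 (𝓝 0)) {C : ℝ}
    (h : ∀ᶠ n in 𝒰, |x n| ≤ C * ε n) : ideLS 𝒰 x 0 :=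
  ideLS_of_bound h (by simpa using hε.const_mul C)

theorem ide_ev_le {ε : ℕ → ℝ} (hε : Tendsto ε 𝒰 (𝓝 0)) (B : ℝ) {δ : ℝ} (hδ : 0 < δ) :
    ∀ᶠ n in 𝒰, ε n * B ≤ δ :=
  (by simpa using hε.mul_const B : Tendsto (fun n => ε n * B) 𝒰 (𝓝 0)).eventually
    (ge_mem_nhds hδ)

end

theorem ide_tail (k : ℕ) : ∃ C, 0 ≤ C ∧ ∀ (N : ℕ) (B : ℝ) (φ : Sm), Cb (k + 4) 1 B φ →
    Cb k 1 (C * B / (N + 1)) (φ - Pi N φ) := by
  obtain ⟨Cs, hCs, hs⟩ := sobolev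
  refine ⟨Cs * 2 ^ (k + 4), by positivity, fun N B φ h => ?_⟩
  refine (hs k _).mono zero_le_one le_rfl le_rfl ?_
  have h1 := nrm_sub_Pi (s := (k : ℝ) + 3) (t := ((k + 4 : ℕ) : ℝ)) (by push_cast; linarith) N φ
  have h2 := nrmx_Cb (k + 4) le_rfl h
  rw [show (k : ℝ) + 3 - ((k + 4 : ℕ) : ℝ) = -1 by push_cast; ring, Real.rpow_neg_one] at h1
  rw [one_pow, mul_one] at h2
  calc _ ≤ Cs * (((N : ℝ) + 1)⁻¹ * (2 ^ (k + 4) * B)) := by
        refine mul_le_mul_of_nonneg_left (h1.trans ?_) hCs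
        gcongr
    _ = _ := by field_simp

theorem ide_exN (A : ℝ) {θ : ℝ} (hθ : 0 < θ) : ∃ N : ℕ, A / (N + 1) ≤ θ := by
  obtain ⟨N, hN⟩ := exists_nat_gt (A / θ)
  rw [div_lt_iff₀ hθ] at hN
  exact ⟨N, by rw [div_le_iff₀ (by positivity)]; nlinarith⟩

theorem ide_Pi_ev {φ : Sm} (h : φ ∈ Ev) (N : ℕ) : Pi N φ ∈ Ev := by
  rw [mem_Ev, ← harm_Pi_ant, mem_Ev.1 h]

theorem ide_near (k : ℕ) {φ : Sm} (h : φ ∈ Ev) {θ : ℝ} (hθ : 0 < θ) :
    ∃ N, ∃ ψ ∈ Ev, ψ ∈ Poly N ∧ Cb k 1 θ (φ - ψ) := by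
  obtain ⟨C, -, hC⟩ := ide_tail k
  obtain ⟨B, -, hB⟩ := exists_Cb (k + 4) φ
  obtain ⟨N, hN⟩ := ide_exN (C * B) hθ
  exact ⟨N, Pi N φ, ide_Pi_ev h N, Pi_mem N φ, (hC N B φ hB).mono zero_le_one le_rfl le_rfl hN⟩

theorem ide_cpt (𝒰 : Ultrafilter ℕ) (k : ℕ) {h : ℕ → Sm} {B : ℝ}
    (hB : ∀ n, Cb (k + 4) 1 B (h n)) {θ : ℝ} (hθ : 0 < θ) :
    ∃ g : Sm, ∀ᶠ n in 𝒰, Cb k 1 θ (h n - g) := by
  obtain ⟨C, -, hC⟩ := ide_tail k
  obtain ⟨Cs, hCs, hs⟩ := sobolev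
  obtain ⟨N, hN⟩ := ide_exN (C * B) (half_pos hθ)
  let x : ℕ → Poly N := fun n => ⟨Pi N (h n), Pi_mem N _⟩
  have : ProperSpace (Poly N) := FiniteDimensional.proper_real _
  obtain ⟨g, -, hg⟩ := (isCompact_closedBall (0 : Poly N) B).ultrafilter_le_nhds' (𝒰.map x)
    (Ultrafilter.mem_map.2 (Filter.univ_mem' fun n => mem_closedBall_zero_iff.2
      ((norm_Pi_le N _).trans (norm_le_of_sup (hB n).abs_le))))
  obtain ⟨t, t0, -, ht⟩ := ide_small (Cs * ((N : ℝ) + 1) ^ ((k : ℝ) + 3 - 0)) (half_pos hθ)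
  refine ⟨g, ?_⟩
  filter_upwards [Metric.tendsto_nhds.1 (show Tendsto x 𝒰 (𝓝 g) from hg) t t0] with n hn
  rw [dist_eq_norm] at hn
  have h1 : ‖Pi N (h n) - g‖ ≤ t := hn.le
  have h2 := nrm_of_Poly (s := 0) (t := (k : ℝ) + 3) (by positivity)
    ((Poly N).sub_mem (Pi_mem N (h n)) g.2)
  rw [nrm_zero le_rfl] at h2
  have h3 := (hC N B _ (hB n)).add (hs k (Pi N (h n) - g))
  rw [sub_add_sub_cancel] at h3
  refine h3.mono zero_le_one le_rfl le_rfl ?_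
  have h4 : Cs * nrm 1 (k + 3) (Pi N (h n) - g) ≤ Cs * (((N : ℝ) + 1) ^ ((k : ℝ) + 3 - 0) * t) := by
    refine mul_le_mul_of_nonneg_left (h2.trans ?_) hCs
    gcongr
  linarith

/-! Jets. -/

section
variable {a b : Fm → ℝ}

theorem ide_jet_nonneg (a : Fm → ℝ) (p : Fm) : 0 ≤ jet a p :=
  add_nonneg (abs_nonneg _) (Finset.sum_nonneg fun _ _ => abs_nonneg _)

theorem ide_abs_le_jet (a : Fm → ℝ) (p : Fm) : |a p| ≤ jet a p :=
  le_add_of_nonneg_right (Finset.sum_nonneg fun _ _ => abs_nonneg _)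

theorem ide_jet_add (ha : a ∈ Sy) (hb : b ∈ Sy) (p : Fm) : jet (a + b) p ≤ jet a p + jet b p := by
  simp only [jet, LL_add _ ha hb, Pi.add_apply, Fin.sum_univ_three]
  linarith [abs_add_le (a p) (b p), abs_add_le (LL 0 a p) (LL 0 b p),
    abs_add_le (LL 1 a p) (LL 1 b p), abs_add_le (LL 2 a p) (LL 2 b p)]

theorem ide_jet_smul (r : ℝ) (a : Fm → ℝ) (p : Fm) : jet (r • a) p = |r| * jet a p := by
  simp only [jet, LL_smul, Pi.smul_apply, smul_eq_mul, abs_mul, Fin.sum_univ_three]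
  ring

theorem ide_jet_mul (ha : a ∈ Sy) (hb : b ∈ Sy) (p : Fm) : jet (a * b) p ≤ jet a p * jet b p := by
  have h : ∀ c, |LL c (a * b) p| ≤ |LL c a p| * |b p| + |a p| * |LL c b p| := fun c => by
    rw [LL_mul c ha hb, ← abs_mul, ← abs_mul]
    exact abs_add_le _ _
  have h1 : 0 ≤ (∑ c, |LL c a p|) * ∑ c, |LL c b p| := by positivity
  simp only [jet, Pi.mul_apply, abs_mul, Fin.sum_univ_three] at h1 ⊢
  nlinarith [h 0, h 1, h 2]

theorem ide_jet_px {φ : Sm} {B : ℝ} (h : Cb 1 1 B φ) (p : Fm) : jet (px φ) p ≤ 4 * B := by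
  have h1 : ∀ c, |L c φ p.x| ≤ B := fun c => by simpa using (h.L c).abs_le p.x
  simp only [jet, LL_px, px, Fin.sum_univ_three]
  linarith [h.abs_le p.x, h1 0, h1 1, h1 2]

theorem ide_jet_pi {φ : Sm} {B : ℝ} (h : Cb 1 1 B φ) (p : Fm) : jet (pi' φ) p ≤ 4 * B := by
  have h1 : ∀ c, |L c φ p.xi| ≤ B := fun c => by simpa using (h.L c).abs_le p.xi
  simp only [jet, LL_pi', pi', Fin.sum_univ_three]
  linarith [h.abs_le p.xi, h1 0, h1 1, h1 2]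

theorem ide_jet_bdd (ha : a ∈ Sy) : ∃ B, 0 ≤ B ∧ ∀ p, jet a p ≤ B := by
  obtain ⟨B, hB⟩ := (isCompact_range (continuous_jet ha)).bddAbove
  exact ⟨|B|, abs_nonneg _, fun p => (hB ⟨p, rfl⟩).trans (le_abs_self B)⟩

theorem ide_PP_add (j : ℕ) (u : Sm) (ha : a ∈ Sy) (hb : b ∈ Sy) :
    PP j u (a + b) = PP j u a + PP j u b := by
  funext p
  simp only [PP, Xl_add u ha hb, Pi.add_apply]
  ring

theorem ide_PP_smul (j : ℕ) (u : Sm) (r : ℝ) (a : Fm → ℝ) : PP j u (r • a) = r • PP j u a := by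
  funext p
  simp only [PP, Xl, LL_smul, Pi.smul_apply, smul_eq_mul, Fin.sum_univ_three]
  ring

theorem ide_int {μ : Measure Fm} [IsProbabilityMeasure μ] {F : Fm → ℝ} (hF : Continuous F) :
    Integrable F μ :=
  hF.integrable_of_hasCompactSupport (HasCompactSupport.of_compactSpace F)

theorem ide_int_le {μ : Measure Fm} [IsProbabilityMeasure μ] {F G : Fm → ℝ} (hG : Continuous G)
    {k d : ℝ} (h : ∀ p, |F p| ≤ k * G p + d) : |∫ p, F p ∂μ| ≤ k * ∫ p, G p ∂μ + d := by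
  have h1 := norm_integral_le_of_norm_le (μ := μ) (f := F) (g := fun p => k * G p + d)
    (ide_int (by fun_prop)) (Eventually.of_forall h)
  rwa [integral_add ((ide_int hG).const_mul k) (integrable_const d), integral_const_mul,
    integral_const, probReal_univ, one_smul] at h1

theorem ide_close {μ : Measure Fm} [IsProbabilityMeasure μ] (j : ℕ) (u : Sm) {κ : ℝ} (hκ : 0 ≤ κ)
    (ha : a ∈ Sy) (K : ℝ) (h : ∀ t : ℝ, 0 < t → t ≤ 1 → ∃ b ∈ Sy, (∀ p, jet (a - b) p ≤ K * t) ∧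
      |∫ p, PP j u b p ∂μ| ≤ κ * ∫ p, jet b p ∂μ + K * t) :
    |∫ p, PP j u a p ∂μ| ≤ κ * ∫ p, jet a p ∂μ := by
  obtain ⟨B, hB, hu⟩ := exists_Cb 2 u
  refine le_of_forall_pos_le_add fun θ hθ => ?_
  obtain ⟨t, t0, t1, ht⟩ := ide_small ((5000 * (j + 1) * B + κ + 1) * K) hθ
  obtain ⟨b, hb, h1, h2⟩ := h t t0 t1
  have hd := Sy.sub_mem ha hb
  have e : ∫ p, PP j u a p ∂μ = ∫ p, PP j u (a - b) p ∂μ + ∫ p, PP j u b p ∂μ := by
    rw [← integral_add (ide_int (Sy_continuous (PP_mem j u hd)))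
      (ide_int (Sy_continuous (PP_mem j u hb)))]
    conv_lhs => rw [← sub_add_cancel a b, ide_PP_add j u hd hb]
    rfl
  have h3 : |∫ p, PP j u (a - b) p ∂μ| ≤ 0 * ∫ _p, 0 ∂μ + 5000 * (j + 1) * B * (K * t) :=
    ide_int_le continuous_const fun p => by
      rw [zero_mul, zero_add]
      exact (abs_PP_le j hu _ p).trans (mul_le_mul_of_nonneg_left (h1 p) (by positivity))
  have h4 : |∫ p, jet b p ∂μ| ≤ 1 * ∫ p, jet a p ∂μ + K * t :=
    ide_int_le (continuous_jet ha) fun p => by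
      have a1 := ide_jet_add ha (Sy.smul_mem hd (-1)) p
      rw [ide_jet_smul, neg_one_smul, ← sub_eq_add_neg, sub_sub_cancel] at a1
      rw [abs_of_nonneg (ide_jet_nonneg b p)]
      norm_num at a1
      linarith [h1 p]
  have h5 := mul_le_mul_of_nonneg_left ((le_abs_self _).trans h4) hκ
  rw [e]
  refine (abs_add_le _ _).trans ?_
  nlinarith

end

/-! Locality and bounds for the Hessian symbol. -/

theorem ide_loc {χ w : Sm} (h : χ * w = 0) (c : Fin 3) : χ * L c w = 0 := by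
  have h1 := congrArg (L c) h
  rw [L_mul, map_zero] at h1
  have h2 : χ * χ * L c w = 0 := by linear_combination χ * h1 - L c χ * h
  ext x
  have h3 := congrArg (fun v : Sm => v x) h2
  simp only [Sm.mul_apply, Sm.zero_apply, mul_eq_zero, or_self] at h3 ⊢
  exact h3

theorem ide_om_le (p : Fm) (b : Fin 3) : |p.om b| ≤ 1 := by
  have h := fm_frame p b b
  rw [if_pos rfl] at h
  exact abs_le_one_iff_mul_self_le_one.2
    (by nlinarith [mul_self_nonneg ((p.x : E3) b), mul_self_nonneg ((p.xi : E3) b)])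

theorem ide_Sxx_le {g : Sm} {B : ℝ} (h : Cb 2 1 B g) (p : Fm) : |Sxx g p| ≤ 9 * B := by
  rw [← sum_LL_om]
  have h1 : ∀ b c, |L b (L c g) p.x * p.om b * p.om c| ≤ B := fun b c => by
    have a1 : |L b (L c g) p.x| ≤ B := by simpa using ((h.L c).L b).abs_le p.x
    rw [abs_mul, abs_mul]
    have a2 := ide_om_le p b
    have a3 := ide_om_le p c
    calc _ ≤ B * 1 * 1 := by have := h.nonneg; gcongr
      _ = B := by ring
  refine (Finset.abs_sum_le_sum_abs _ _).trans ((Finset.sum_le_sum fun b _ =>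
    (Finset.abs_sum_le_sum_abs _ _).trans (Finset.sum_le_sum fun c _ => h1 b c)).trans_eq ?_)
  simp only [Fin.sum_univ_three]
  ring

theorem ide_Sxx_loc {χ χ' : Sm} (h : ∀ x, χ x ≠ 0 → χ' x = 1) (g : Sm) {p : Fm}
    (hp : χ p.x ≠ 0) : Sxx g p = Sxx (χ' * g) p := by
  have h0 : χ * (g - χ' * g) = 0 := by
    ext x
    by_cases hx : χ x = 0
    · simp [hx]
    · simp [h x hx]
  rw [← sum_LL_om, ← sum_LL_om]
  refine Finset.sum_congr rfl fun b _ => Finset.sum_congr rfl fun c _ => ?_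
  have h1 := congrArg (fun v : Sm => v p.x) (ide_loc (ide_loc h0 c) b)
  simp only [map_sub, Sm.mul_apply, Sm.sub_apply, Sm.zero_apply, mul_eq_zero, hp, false_or] at h1
  rw [sub_eq_zero.1 h1]

theorem ide_ml : ∃ C, 0 ≤ C ∧ ∀ (B : ℝ) (v φ : Sm), Cb 1 1 B v →
    nrm 1 (1 / 2) (v * φ) ≤ C * B * nrm 1 (1 / 2) φ ∧
    nrm 1 (-(1 / 2)) (v * φ) ≤ C * B * nrm 1 (-(1 / 2)) φ := by
  obtain ⟨C, hC, h⟩ := Bd_ml 1
  refine ⟨C, hC, fun B v φ hv => ⟨?_, ?_⟩⟩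
  · simpa using h 1 le_rfl hv (by norm_num) φ
  · simpa [neg_div] using h (-1) le_rfl hv (by norm_num) φ

theorem ide_P1 : ∃ C, 0 ≤ C ∧ ∀ (j : ℕ) (B : ℝ) (g φ : Sm), Cb 3 1 B g →
    nrm 1 (1 / 2) (P1 1 j g φ) ≤ C * j * B * nrm 1 (1 / 2) φ := by
  obtain ⟨C, hC, h⟩ := ide_ml
  refine ⟨18 * C, by positivity, fun j B g φ hg => ?_⟩
  have h1 : ∀ b c, nrm 1 (1 / 2) (L b (L c g) * Tm b c φ) ≤ C * B * nrm 1 (1 / 2) φ := fun b c => by
    refine (h B _ _ (by simpa using (hg.L c).L b)).1.trans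
      (mul_le_mul_of_nonneg_left ?_ (mul_nonneg hC hg.nonneg))
    have a1 := Bd_Sh_one (1 / 2) φ
    rw [Tm, LinearMap.neg_apply, nrm_neg]
    refine (nrm_L le_rfl _ _ _).trans ((nrm_L le_rfl _ _ _).trans ?_)
    rwa [one_mul, show (1 / 2 + 2 : ℝ) = 1 / 2 + 1 + 1 by ring] at a1
  have e : P1 1 j g φ = (-(2 * j : ℝ)) • ∑ b, ∑ c, L b (L c g) * Tm b c φ := by
    simp [P1]
  rw [e, nrm_smul, abs_neg, abs_of_nonneg (by positivity)]
  have h2 := (nrm_sum_le Finset.univ 1 (1 / 2) fun b => ∑ c, L b (L c g) * Tm b c φ).trans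
    (Finset.sum_le_sum fun b _ => (nrm_sum_le _ _ _ _).trans (Finset.sum_le_sum fun c _ => h1 b c))
  refine (mul_le_mul_of_nonneg_left h2 (by positivity)).trans_eq ?_
  simp only [Fin.sum_univ_three]
  ring

theorem ide_P1_sub (j : ℕ) (f g φ : Sm) : P1 1 j (f - g) φ = P1 1 j f φ - P1 1 j g φ := by
  simp only [P1, map_sub, LinearMap.sub_apply, LinearMap.smul_apply, LinearMap.sum_apply,
    LinearMap.comp_apply, LinearMap.mulLeft_apply, sub_mul, Finset.sum_sub_distrib, smul_sub]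
  abel

theorem ide_V_sub (f g : Sm) (S : Sm →ₗ[ℝ] Sm) (φ : Sm) :
    cm (Vb (f - g)) S φ = cm (Vb f) S φ - cm (Vb g) S φ := by
  simp only [cm, Vb, map_sub, LinearMap.sub_apply, LinearMap.sum_apply, LinearMap.comp_apply,
    LinearMap.mulLeft_apply, sub_mul, Finset.sum_sub_distrib]
  abel

theorem ide_V_smul (r : ℝ) (f : Sm) (S : Sm →ₗ[ℝ] Sm) (φ : Sm) :
    cm (Vb (r • f)) S φ = r • cm (Vb f) S φ := by
  simp only [cm, Vb, map_smul, LinearMap.sub_apply, LinearMap.sum_apply, LinearMap.comp_apply,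
    LinearMap.mulLeft_apply, smul_mul_assoc, ← Finset.smul_sum, smul_sub]

theorem ide_R (z : Sm) : ‖R z‖ ≤ 2 * nrm 1 (-(1 / 2)) z := by
  have h := Bd_R_half (-(1 / 2)) z
  rwa [neg_add_cancel, nrm_zero le_rfl] at h

theorem ide_Ri (y : Sm) : nrm 1 (-(1 / 2)) (Ri y) ≤ 2 * ‖y‖ := by
  have h := Bd_Ri le_rfl (-(1 / 2)) y
  rwa [neg_add_cancel, nrm_zero le_rfl] at h

end Pool.Agent.Lib.MP_2fa2a2_gt.PI
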