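import Pool.Agent.Lib.MP_2fa2a2_gt.PI.IdEX

/-! The even transport identity: conjugated operators and the defect of their forms. -/

namespace Pool.Agent.Lib.MP_2fa2a2_gt.PI

open MeasureTheory Filter Topology

/-- the constants and facts used in the proof -/
structure IdeCtx where
  /-- derivatives in the Egorov class -/
  K0 : ℕ
  /-- derivatives in the other bounds -/
  K : ℕ
  /-- radius in the Egorov class -/
  δ0 : ℝ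
  /-- radius in the other bounds -/
  δ : ℝ
  /-- the constant -/
  C : ℝ
  hK : K0 ≤ K
  hδ : δ ≤ δ0
  pos : 0 < δ
  hC : 0 ≤ C
  hW : WdStmt
  hS : SymStmt
  gen : ∀ A, Gen A → Eg K0 δ0 A
  comp : ∀ A B, Eg K0 δ0 A → Eg K0 δ0 B → Eg K0 δ0 (A ∘ₗ B)
  add : ∀ A B, Eg K0 δ0 A → Eg K0 δ0 B → Eg K0 δ0 (A + B)
  smul : ∀ (r : ℝ) A, Eg K0 δ0 A → Eg K0 δ0 (r • A)
  good : ∀ U b, b ≤ δ → Cb K 1 b U → Good U
  xx : ∀ U b, b ≤ δ → Cb K 1 b U → ∀ z, nrm 1 (-(1 / 2)) (XX U z) ≤ C * nrm 1 (-(1 / 2)) z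
  pb : ∀ U b, b ≤ δ → Cb K 1 b U → ∀ ρ β, Cb 7 1 β ρ → Cb 1 1 (C * β * b) (pull U ρ - ρ)
  gg : ∀ U b, b ≤ δ → U ∈ Ev → Cb K 1 b U → (∀ y, ‖GG U y‖ ≤ C * ‖y‖) ∧
    (∀ y, nrm 1 (-1) (GG U y) ≤ C * nrm 1 (-1) y) ∧
    ∀ y ∈ Ev, ∀ y' ∈ Ev, |inner ℝ (GG U y) (GG U y') - inner ℝ y y'| ≤ C * b * ‖y‖ * ‖y'‖
  ev : ∀ U ∈ Ev, ∀ z ∈ Ev, XX U z ∈ Ev
  loc : ∀ u u' χ y : Sm, Good u → Good u' → (∀ x, χ x ≠ 0 → u x = u' x) →
    χ * XX u y = χ * XX u' y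

theorem ide_ctx (hB : PullBStmt) (hC : PullCStmt) (hE : EgStmt) (hW : WdStmt) (hS : SymStmt)
    (hG : GtStmt) : Nonempty IdeCtx := by
  obtain ⟨KB, CB, δB, cB, dB, hB⟩ := hB
  obtain ⟨KE, δE, dE, e1, e2, e3, e4⟩ := hE
  obtain ⟨KG, CG, δG, cG, dG, hG⟩ := hG
  have hB' := fun U b (hb : b ≤ min δE (min δB δG)) (hU : Cb (KE + KB + KG) 1 b U) =>
    hB U b (hb.trans ((min_le_right _ _).trans (min_le_left _ _)))
      (hU.mono zero_le_one (by omega) le_rfl le_rfl)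
  refine ⟨⟨KE, KE + KB + KG, δE, min δE (min δB δG), CB + CG, by omega, min_le_left _ _,
    by positivity, by positivity, hW, hS, e1, e2, e3, e4, fun U b hb hU => (hB' U b hb hU).1,
    fun U b hb hU z => ?_, fun U b hb hU ρ β hρ => ?_, fun U b hb hUe hU => ?_,
    fun U hU z hz => ?_, hC.2.2.2.1⟩⟩
  · have h := ((hB' U b hb hU).2.1 (-1) (by norm_num)).1 z
    have h0 := nrm_nonneg 1 (-(1 / 2)) z
    norm_num at h ⊢
    nlinarith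
  · refine ((hB' U b hb hU).2.2.2.2.2.2.2.2.2 ρ β hρ).1.mono zero_le_one (by norm_num) le_rfl ?_
    have := hρ.nonneg
    have := hU.nonneg
    gcongr
    linarith
  · obtain ⟨h1, h2, h3⟩ := hG U b (hb.trans ((min_le_right _ _).trans (min_le_right _ _))) hUe
      (hU.mono zero_le_one (by omega) le_rfl le_rfl)
    refine ⟨fun y => ?_, fun y => (h2 y).trans ?_, fun y hy y' hy' => (h3 y hy y' hy').trans ?_⟩
    · have h := h1 y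
      rw [nrm_zero le_rfl, nrm_zero le_rfl] at h
      nlinarith [norm_nonneg y]
    · nlinarith [nrm_nonneg 1 (-1) y]
    · have := hU.nonneg
      gcongr
      linarith
  · have h := hC.1 (LinearIsometryEquiv.neg ℝ) U z
    rw [show act (LinearIsometryEquiv.neg ℝ) U = U from hU,
      show act (LinearIsometryEquiv.neg ℝ) z = z from hz] at h
    exact h.symm

theorem ide_mul_ev {φ ψ : Sm} (h : φ ∈ Ev) (h' : ψ ∈ Ev) : φ * ψ ∈ Ev := by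
  rw [mem_Ev, map_mul, mem_Ev.1 h, mem_Ev.1 h']

theorem ide_ev_apply {φ : Sm} (h : φ ∈ Ev) (x : S2) : φ (neg x) = φ x := by
  rw [← ant_apply, mem_Ev.1 h]

variable {c : IdeCtx} {T T' S S' S1 S2 : Sm →ₗ[ℝ] Sm} {b b' : Fm → ℝ}

theorem ide_eg (c : IdeCtx) (h : Eg c.K0 c.δ0 S) : ∃ k, 0 ≤ k ∧
    (∀ z, nrm 1 (-(1 / 2)) (S z) ≤ k * nrm 1 (-(1 / 2)) z) ∧
    (∀ u β, Cb c.K 1 β u → ∀ z,
      nrm 1 (-(1 / 2)) (cm (Vb u) S z) ≤ k * β * nrm 1 (-(1 / 2)) z) ∧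
    ∀ u β, β ≤ c.δ → Cb c.K 1 β u → ∀ z,
      nrm 1 (-(1 / 2)) (cm (XX u) S z - cm (Vb u) S (XX u z)) ≤ k * β ^ 2 * nrm 1 (-(1 / 2)) z := by
  obtain ⟨k, hk, h1, h2, h3⟩ := h
  refine ⟨k, hk, fun z => ?_, fun u β hu z => ?_, fun u β hβ hu z => ?_⟩
  · simpa [neg_div] using h1 (-1) (by norm_num) (by norm_num) z
  · simpa [neg_div] using h2 u β (hu.mono zero_le_one c.hK le_rfl le_rfl) (-1) (by norm_num)
      (by norm_num) z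
  · simpa [neg_div] using h3 u β (hβ.trans c.hδ) (hu.mono zero_le_one c.hK le_rfl le_rfl) (-1)
      (by norm_num) (by norm_num) z

/-- operators that almost commute with the pull back -/
structure IdeTame (c : IdeCtx) (S : Sm →ₗ[ℝ] Sm) (k : ℝ) : Prop where
  nn : 0 ≤ k
  ev : ∀ z ∈ Ev, S z ∈ Ev
  bd : ∀ z, nrm 1 (-(1 / 2)) (S z) ≤ k * nrm 1 (-(1 / 2)) z
  cm : ∀ U β, β ≤ c.δ → Cb c.K 1 β U → ∀ z,
    nrm 1 (-(1 / 2)) (XX U (S z) - S (XX U z)) ≤ k * β * nrm 1 (-(1 / 2)) z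

theorem ide_tame_eg (h : Eg c.K0 c.δ0 S) (he : ∀ z ∈ Ev, S z ∈ Ev) : ∃ k, IdeTame c S k := by
  obtain ⟨k, hk, h1, h2, h3⟩ := ide_eg c h
  have := c.hC
  have := c.pos
  refine ⟨k * (1 + c.C + c.δ), by positivity, he, fun z => (h1 z).trans ?_, fun U β hβ hU z => ?_⟩
  · exact mul_le_mul_of_nonneg_right (le_mul_of_one_le_right hk (by linarith)) (nrm_nonneg _ _ _)
  · have a1 := nrm_add_le 1 (-(1 / 2)) (PI.cm (XX U) S z - PI.cm (Vb U) S (XX U z))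
      (PI.cm (Vb U) S (XX U z))
    rw [sub_add_cancel] at a1
    have a2 := h3 U β hβ hU z
    have a3 := h2 U β hU (XX U z)
    have a4 := mul_le_mul_of_nonneg_left (c.xx U β hβ hU z) (mul_nonneg hk hU.nonneg)
    have a5 : 0 ≤ k * β * nrm 1 (-(1 / 2)) z :=
      mul_nonneg (mul_nonneg hk hU.nonneg) (nrm_nonneg _ _ _)
    have a6 := mul_le_mul_of_nonneg_left hβ a5
    refine a1.trans ?_
    nlinarith

theorem ide_tame_ml (c : IdeCtx) : ∃ k, 0 ≤ k ∧ ∀ ρ ∈ Ev, ∀ β, Cb 7 1 β ρ →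
    IdeTame c (ml ρ) (k * β) := by
  obtain ⟨C, hC, h⟩ := ide_ml
  have := c.hC
  refine ⟨C * (1 + c.C ^ 2), by positivity, fun ρ hρ β hβ => ⟨?_, fun z hz => ide_mul_ev hρ hz,
    fun z => ?_, fun U t ht hU z => ?_⟩⟩
  · have := hβ.nonneg
    positivity
  · refine (h β ρ z (hβ.mono zero_le_one (by norm_num) le_rfl le_rfl)).2.trans ?_
    have := hβ.nonneg
    have := nrm_nonneg 1 (-(1 / 2)) z
    gcongr
    exact le_mul_of_one_le_right hC (by nlinarith)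
  · have e : XX U (ml ρ z) - ml ρ (XX U z) = (pull U ρ - ρ) * XX U z := by
      have hg := c.good U t ht hU
      ext x
      simp [XX, hg.pull_apply]
      ring
    rw [e]
    refine (h _ _ _ (c.pb U t ht hU ρ β hβ)).2.trans ?_
    have a0 := hβ.nonneg
    have a1 := hU.nonneg
    have a2 := mul_le_mul_of_nonneg_left (c.xx U t ht hU z)
      (show 0 ≤ C * (c.C * β * t) by positivity)
    have a3 : 0 ≤ C * β * t * nrm 1 (-(1 / 2)) z := mul_nonneg (by positivity) (nrm_nonneg _ _ _)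
    nlinarith

theorem IdeTame.comp {k k' : ℝ} (h : IdeTame c S k) (h' : IdeTame c S' k') :
    IdeTame c (S ∘ₗ S') (2 * k * k') := by
  have a0 := h.nn
  have a1 := h'.nn
  refine ⟨by positivity, fun z hz => h.ev _ (h'.ev z hz), fun z => ?_, fun U β hβ hU z => ?_⟩
  · have a2 := mul_le_mul_of_nonneg_left (h'.bd z) a0
    have a3 : 0 ≤ k * k' * nrm 1 (-(1 / 2)) z := mul_nonneg (by positivity) (nrm_nonneg _ _ _)
    exact (h.bd _).trans (by nlinarith)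
  · have e : XX U ((S ∘ₗ S') z) - (S ∘ₗ S') (XX U z) =
        (XX U (S (S' z)) - S (XX U (S' z))) + S (XX U (S' z) - S' (XX U z)) := by
      simp
    rw [e]
    refine (nrm_add_le _ _ _ _).trans ?_
    have a2 := h.cm U β hβ hU (S' z)
    have a3 := mul_le_mul_of_nonneg_left (h'.bd z) (mul_nonneg a0 hU.nonneg)
    have a4 := h.bd (XX U (S' z) - S' (XX U z))
    have a5 := mul_le_mul_of_nonneg_left (h'.cm U β hβ hU z) a0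
    linarith

/-- the defect of the conjugated form -/
noncomputable def ideZ (U : Sm) (S1 S2 : Sm →ₗ[ℝ] Sm) (z : Sm) : ℝ :=
  inner ℝ (R (S1 (XX U z))) (R (S2 (XX U z))) - inner ℝ (R (S1 z)) (R (S2 z))

theorem ide_RR (z z' : Sm) {p q : ℝ} (h : nrm 1 (-(1 / 2)) z ≤ p) (h' : nrm 1 (-(1 / 2)) z' ≤ q) :
    |inner ℝ (R z) (R z')| ≤ 4 * p * q := by
  refine (abs_real_inner_le_norm _ _).trans ?_
  have a1 := (ide_R z).trans (mul_le_mul_of_nonneg_left h zero_le_two)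
  have a2 := (ide_R z').trans (mul_le_mul_of_nonneg_left h' zero_le_two)
  exact (mul_le_mul a1 a2 (norm_nonneg _) ((norm_nonneg _).trans a1)).trans_eq (by ring)

theorem ide_Q (c : IdeCtx) {U z z' : Sm} {β : ℝ} (hβ : β ≤ c.δ) (hUe : U ∈ Ev)
    (hU : Cb c.K 1 β U) (hz : z ∈ Ev) (hz' : z' ∈ Ev) :
    |inner ℝ (R (XX U z)) (R (XX U z')) - inner ℝ (R z) (R z')| ≤ c.C * β * ‖R z‖ * ‖R z'‖ := by
  have h := (c.gg U β hβ hUe hU).2.2 _ (R_mem_Ev z) _ (R_mem_Ev z')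
  simpa only [GG, LinearMap.comp_apply, Ri_R, evp_of_Ev hz, evp_of_Ev hz'] using h

theorem ide_Zb {k1 k2 : ℝ} (h1 : IdeTame c S1 k1) (h2 : IdeTame c S2 k2) {U z : Sm} {β : ℝ}
    (hβ : β ≤ c.δ) (hUe : U ∈ Ev) (hU : Cb c.K 1 β U) (hz : z ∈ Ev) :
    |ideZ U S1 S2 z| ≤ 12 * c.C * k1 * k2 * β * nrm 1 (-(1 / 2)) z ^ 2 := by
  have e : ideZ U S1 S2 z = (inner ℝ (R (XX U (S1 z))) (R (XX U (S2 z))) -
      inner ℝ (R (S1 z)) (R (S2 z))) -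
      inner ℝ (R (XX U (S1 z) - S1 (XX U z))) (R (S2 (XX U z))) -
      inner ℝ (R (XX U (S1 z))) (R (XX U (S2 z) - S2 (XX U z))) := by
    simp only [ideZ, map_sub, inner_sub_left, inner_sub_right]
    ring
  have hC := c.hC
  have a1 := ide_Q c hβ hUe hU (h1.ev z hz) (h2.ev z hz)
  have a2 := ide_RR _ _ (h1.cm U β hβ hU z)
    ((h2.bd _).trans (mul_le_mul_of_nonneg_left (c.xx U β hβ hU z) h2.nn))
  have a3 := ide_RR _ _ ((c.xx U β hβ hU _).trans (mul_le_mul_of_nonneg_left (h1.bd z) hC))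
    (h2.cm U β hβ hU z)
  have a4 := (ide_R _).trans (mul_le_mul_of_nonneg_left (h1.bd z) zero_le_two)
  have a5 := (ide_R _).trans (mul_le_mul_of_nonneg_left (h2.bd z) zero_le_two)
  have a6 := mul_le_mul_of_nonneg_left
    (mul_le_mul a4 a5 (norm_nonneg _) ((norm_nonneg _).trans a4)) (mul_nonneg hC hU.nonneg)
  rw [e]
  rw [abs_le] at a1 a2 a3 ⊢
  constructor <;> linarith [a1.1, a1.2, a2.1, a2.2, a3.1, a3.2]

theorem ide_Zp (h1 : Eg c.K0 c.δ0 S1) (h2 : Eg c.K0 c.δ0 S2) (e1 : ∀ z ∈ Ev, S1 z ∈ Ev)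
    (e2 : ∀ z ∈ Ev, S2 z ∈ Ev) : ∃ k, ∀ (U z : Sm) (β : ℝ), β ≤ c.δ → U ∈ Ev → Cb c.K 1 β U →
      z ∈ Ev → |ideZ U S1 S2 z + inner ℝ (R (cm (Vb U) S1 (XX U z))) (R (S2 (XX U z)))
        + inner ℝ (R (S1 (XX U z))) (R (cm (Vb U) S2 (XX U z)))|
        ≤ c.C * β * ‖R (S1 z)‖ * ‖R (S2 z)‖ + k * β ^ 2 * nrm 1 (-(1 / 2)) z ^ 2 := by
  obtain ⟨k1, t1⟩ := ide_tame_eg h1 e1
  obtain ⟨k2, t2⟩ := ide_tame_eg h2 e2
  obtain ⟨l1, -, -, -, u1⟩ := ide_eg c h1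
  obtain ⟨l2, -, -, -, u2⟩ := ide_eg c h2
  refine ⟨4 * (l1 * k2 * c.C + k1 * c.C * l2 + k1 * k2), fun U z β hβ hUe hU hz => ?_⟩
  have e : ideZ U S1 S2 z + inner ℝ (R (cm (Vb U) S1 (XX U z))) (R (S2 (XX U z)))
      + inner ℝ (R (S1 (XX U z))) (R (cm (Vb U) S2 (XX U z))) =
      (inner ℝ (R (XX U (S1 z))) (R (XX U (S2 z))) - inner ℝ (R (S1 z)) (R (S2 z))) -
      inner ℝ (R (cm (XX U) S1 z - cm (Vb U) S1 (XX U z))) (R (S2 (XX U z))) -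
      inner ℝ (R (S1 (XX U z))) (R (cm (XX U) S2 z - cm (Vb U) S2 (XX U z))) -
      inner ℝ (R (XX U (S1 z) - S1 (XX U z))) (R (XX U (S2 z) - S2 (XX U z))) := by
    generalize cm (Vb U) S1 (XX U z) = p, cm (Vb U) S2 (XX U z) = q
    simp only [ideZ, cm, LinearMap.sub_apply, LinearMap.comp_apply, map_sub, inner_sub_left,
      inner_sub_right]
    ring
  have a1 := ide_Q c hβ hUe hU (e1 z hz) (e2 z hz)
  have a2 := ide_RR _ _ (u1 U β hβ hU z)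
    ((t2.bd _).trans (mul_le_mul_of_nonneg_left (c.xx U β hβ hU z) t2.nn))
  have a3 := ide_RR _ _ ((t1.bd _).trans (mul_le_mul_of_nonneg_left (c.xx U β hβ hU z) t1.nn))
    (u2 U β hβ hU z)
  have a4 := ide_RR _ _ (t1.cm U β hβ hU z) (t2.cm U β hβ hU z)
  rw [e]
  rw [abs_le] at a1 a2 a3 a4 ⊢
  constructor <;> linarith [a1.1, a1.2, a2.1, a2.2, a3.1, a3.2, a4.1, a4.2]

theorem ide_Zloc {k1 k2 : ℝ} (h1 : IdeTame c S1 k1) (h2 : IdeTame c S2 k2) {χ : Sm}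
    (hχ : χ ∈ Ev) : ∃ k, ∀ (t : ℝ) (ρ U U' z : Sm) (β : ℝ), t ≤ 1 → ρ ∈ Ev →
      Cb 7 1 t (χ - ρ) → β ≤ c.δ → U ∈ Ev → U' ∈ Ev → Cb c.K 1 β U → Cb c.K 1 β U' →
      (∀ x, χ x ≠ 0 → U x = U' x) → z ∈ Ev →
      |ideZ U (S1 ∘ₗ ml ρ) (S2 ∘ₗ ml ρ) z - ideZ U' (S1 ∘ₗ ml ρ) (S2 ∘ₗ ml ρ) z| ≤
        k * t * β * nrm 1 (-(1 / 2)) z ^ 2 := by
  obtain ⟨k, hk, hm⟩ := ide_tame_ml c
  obtain ⟨B, hB, hχB⟩ := exists_Cb 7 χ
  refine ⟨2 * (12 * c.C * (2 * k1 * k) * (2 * k2 * (k * (B + 1))) +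
    12 * c.C * (2 * k1 * (k * B)) * (2 * k2 * k)), ?_⟩
  intro t ρ U U' z β ht hρ hd hβ hUe hUe' hU hU' hloc hz
  have hρB : Cb 7 1 (B + 1) ρ := by
    have := hχB.sub hd
    rw [sub_sub_cancel] at this
    exact this.mono zero_le_one le_rfl le_rfl (by linarith)
  have m1 := hm _ (Ev.sub_mem hχ hρ) t hd
  have m2 := hm ρ hρ _ hρB
  have m3 := hm χ hχ _ hχB
  have e : ∀ V, ideZ V (S1 ∘ₗ ml ρ) (S2 ∘ₗ ml ρ) z = ideZ V (S1 ∘ₗ ml χ) (S2 ∘ₗ ml χ) z -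
      ideZ V (S1 ∘ₗ ml (χ - ρ)) (S2 ∘ₗ ml ρ) z - ideZ V (S1 ∘ₗ ml χ) (S2 ∘ₗ ml (χ - ρ)) z := by
    intro V
    simp only [ideZ, LinearMap.comp_apply, LinearMap.mulLeft_apply, sub_mul, map_sub,
      inner_sub_left, inner_sub_right]
    ring
  have e0 : ideZ U (S1 ∘ₗ ml χ) (S2 ∘ₗ ml χ) z = ideZ U' (S1 ∘ₗ ml χ) (S2 ∘ₗ ml χ) z := by
    simp only [ideZ, LinearMap.comp_apply, LinearMap.mulLeft_apply,
      c.loc U U' χ z (c.good U β hβ hU) (c.good U' β hβ hU') hloc]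
  have a1 := ide_Zb (h1.comp m1) (h2.comp m2) hβ hUe hU hz
  have a2 := ide_Zb (h1.comp m3) (h2.comp m1) hβ hUe hU hz
  have a3 := ide_Zb (h1.comp m1) (h2.comp m2) hβ hUe' hU' hz
  have a4 := ide_Zb (h1.comp m3) (h2.comp m1) hβ hUe' hU' hz
  rw [e U, e U', e0]
  rw [abs_le] at a1 a2 a3 a4 ⊢
  constructor <;> linarith [a1.1, a1.2, a2.1, a2.2, a3.1, a3.2, a4.1, a4.2]

/-- words whose conjugate by the Funk transform is again a word -/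
structure IdeCl (c : IdeCtx) (T S : Sm →ₗ[ℝ] Sm) (b : Fm → ℝ) : Prop where
  wd : Wd T b
  ws : Wd S (b ∘ swF)
  eg : Eg c.K0 c.δ0 S
  conj : ∀ y ∈ Ev, T y = R (S (Ri y))
  ev : ∀ z ∈ Ev, S z ∈ Ev
  sym : b ∘ ngx = b

theorem IdeCl.add (h : IdeCl c T S b) (h' : IdeCl c T' S' b') :
    IdeCl c (T + T') (S + S') (b + b') :=
  ⟨h.wd.add h'.wd, h.ws.add h'.ws, c.add _ _ h.eg h'.eg,
    fun y hy => by simp only [LinearMap.add_apply, map_add, h.conj y hy, h'.conj y hy],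
    fun z hz => Ev.add_mem (h.ev z hz) (h'.ev z hz),
    by rw [Pi.add_comp, h.sym, h'.sym]⟩

theorem IdeCl.smul (h : IdeCl c T S b) (r : ℝ) : IdeCl c (r • T) (r • S) (r • b) :=
  ⟨h.wd.smul r, h.ws.smul r, c.smul r _ h.eg,
    fun y hy => by simp only [LinearMap.smul_apply, map_smul, h.conj y hy],
    fun z hz => Ev.smul_mem r (h.ev z hz), by rw [Pi.smul_comp, h.sym]⟩

theorem IdeCl.tev (h : IdeCl c T S b) {y : Sm} (hy : y ∈ Ev) : T y ∈ Ev := by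
  rw [h.conj y hy]
  exact R_mem_Ev _

theorem IdeCl.comp (h : IdeCl c T S b) (h' : IdeCl c T' S' b') :
    IdeCl c (T ∘ₗ T') (S ∘ₗ S') (b * b') :=
  ⟨h.wd.comp h'.wd, h.ws.comp h'.ws, c.comp _ _ h.eg h'.eg,
    fun y hy => by
      rw [LinearMap.comp_apply, h.conj _ (h'.tev hy), h'.conj y hy, Ri_R,
        evp_of_Ev (h'.ev _ (Ri_mem_Ev y)), LinearMap.comp_apply],
    fun z hz => h.ev _ (h'.ev z hz), by rw [Pi.mul_comp, h.sym, h'.sym]⟩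

theorem ide_cl_px (c : IdeCtx) {N : ℕ} {φ : Sm} (h : φ ∈ Ev) (hN : φ ∈ Poly N) :
    ∃ S, IdeCl c (ml φ) S (px φ) := by
  obtain ⟨A, A', -, h2, h3, h4⟩ := c.hW.2.2.2.2.2.1 N φ h hN
  refine ⟨A', Wd.ml φ, h2, (h4 _ _ c.gen c.comp c.add c.smul).2, fun y hy => ?_,
    fun z hz => ?_, funext fun p => ide_ev_apply h p.x⟩
  · rw [(h3 _ (Ri_mem_Ev y)).2, R_Ri, R_Ri, evp_of_Ev hy, evp_of_Ev (ide_mul_ev h hy)]
    rfl
  · rw [(h3 z hz).2]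
    exact Ri_mem_Ev _

theorem ide_cl_pi (c : IdeCtx) {N : ℕ} {ψ : Sm} (h : ψ ∈ Ev) (hN : ψ ∈ Poly N) :
    ∃ T, IdeCl c T (ml ψ) (pi' ψ) := by
  obtain ⟨A, A', h1, -, h3, -⟩ := c.hW.2.2.2.2.2.1 N ψ h hN
  exact ⟨A, h1, Wd.ml ψ, c.gen _ (Or.inl ⟨ψ, rfl⟩), fun y hy => (h3 y hy).1,
    fun z hz => ide_mul_ev h hz, rfl⟩

/-- symbols of such words -/
def IdeP (c : IdeCtx) (b : Fm → ℝ) : Prop := ∃ T S, IdeCl c T S b

theorem IdeP.add (h : IdeP c b) (h' : IdeP c b') : IdeP c (b + b') :=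
  let ⟨_, _, h⟩ := h; let ⟨_, _, h'⟩ := h'; ⟨_, _, h.add h'⟩

theorem IdeP.mul (h : IdeP c b) (h' : IdeP c b') : IdeP c (b * b') :=
  let ⟨_, _, h⟩ := h; let ⟨_, _, h'⟩ := h'; ⟨_, _, h.comp h'⟩

theorem IdeP.sub (h : IdeP c b) (h' : IdeP c b') : IdeP c (b - b') := by
  obtain ⟨_, _, h⟩ := h
  obtain ⟨_, _, h'⟩ := h'
  have := h.add (h'.smul (-1))
  rw [neg_one_smul ℝ b', ← sub_eq_add_neg] at this
  exact ⟨_, _, this⟩

theorem ideP_sum (c : IdeCtx) {ι : Type*} (s : Finset ι) {φ ψ : ι → Sm}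
    (h : ∀ i ∈ s, φ i ∈ Ev ∧ ψ i ∈ Ev ∧ (∃ N, φ i ∈ Poly N) ∧ ∃ N, ψ i ∈ Poly N) :
    IdeP c (∑ i ∈ s, px (φ i) * pi' (ψ i)) := by
  refine Finset.sum_induction _ (IdeP c) (fun _ _ => IdeP.add) ?_ fun i hi => ?_
  · obtain ⟨S, hS⟩ := ide_cl_px c Ev.zero_mem (Poly 0).zero_mem
    exact ⟨_, _, hS⟩
  · obtain ⟨h1, h2, ⟨N, h3⟩, M, h4⟩ := h i hi
    obtain ⟨S, hS⟩ := ide_cl_px c h1 h3
    obtain ⟨T, hT⟩ := ide_cl_pi c h2 h4
    exact ⟨_, _, hS.comp hT⟩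

end Pool.Agent.Lib.MP_2fa2a2_gt.PI
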