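import Pool.Agent.Lib.MP_2fa2a2_gt.PI.SFm

/-! Auxiliary facts for the identity on the side of the body. -/

namespace Pool.Agent.Lib.MP_2fa2a2_gt.PI

open MeasureTheory Filter Topology

theorem idf_congr {s t s' t' C : ℝ} {T : Sm →ₗ[ℝ] Sm} (h : Bd 1 s t C T) (hs : s = s')
    (ht : t = t') : Bd 1 s' t' C T := hs ▸ ht ▸ h

theorem idf_b0 {s t C : ℝ} {T : Sm →ₗ[ℝ] Sm} (h : Bd 1 s t C T) (hs : s = 0) (ht : t = 0)
    (φ : Sm) : ‖T φ‖ ≤ C * ‖φ‖ := by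
  have := h φ
  rwa [hs, ht, nrm_zero le_rfl, nrm_zero le_rfl] at this

theorem idf_ord_zero (r : ℝ) : Ord r 0 := fun _ => ⟨0, le_rfl, fun φ => by simp [nrm]⟩

theorem idf_ord_add {r : ℝ} {A B : Sm →ₗ[ℝ] Sm} (hA : Ord r A) (hB : Ord r B) : Ord r (A + B) :=
  fun n => by
    obtain ⟨C, hC, h⟩ := hA n
    obtain ⟨C', hC', h'⟩ := hB n
    exact ⟨C + C', by positivity, h.add h'⟩

theorem idf_ord_smul {r : ℝ} (c : ℝ) {A : Sm →ₗ[ℝ] Sm} (hA : Ord r A) : Ord r (c • A) :=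
  fun n => by
    obtain ⟨C, hC, h⟩ := hA n
    exact ⟨|c| * C, by positivity, h.smul c⟩

theorem idf_ord_comp {k : ℤ} {A B : Sm →ₗ[ℝ] Sm} (hA : Ord k A) (hB : Ord 0 B) :
    Ord k (A ∘ₗ B) := fun n => by
  obtain ⟨C, hC, h⟩ := hA n
  obtain ⟨C', hC', h'⟩ := hB (n + 2 * k)
  exact ⟨C * C', by positivity, h.comp hC
    (idf_congr h' (by push_cast; ring) (by push_cast; ring))⟩

theorem idf_op_wd (hW : WdStmt) {A α} (h : Wd A α) : Op0 A α :=
  ⟨(hW.1 A α h).1, A, h, by rw [sub_self]; exact idf_ord_zero _⟩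

theorem idf_op_add {A B α β} (hA : Op0 A α) (hB : Op0 B β) : Op0 (A + B) (α + β) := by
  obtain ⟨h1, A', h2, h3⟩ := hA
  obtain ⟨h4, B', h5, h6⟩ := hB
  refine ⟨idf_ord_add h1 h4, A' + B', h2.add h5, ?_⟩
  rw [add_sub_add_comm]
  exact idf_ord_add h3 h6

theorem idf_op_smul (c : ℝ) {A α} (hA : Op0 A α) : Op0 (c • A) (c • α) := by
  obtain ⟨h1, A', h2, h3⟩ := hA
  refine ⟨idf_ord_smul c h1, c • A', h2.smul c, ?_⟩
  rw [← smul_sub]
  exact idf_ord_smul c h3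

theorem idf_op_comp (hW : WdStmt) {A B α β} (hA : Op0 A α) (hB : Wd B β) :
    Op0 (A ∘ₗ B) (α * β) := by
  obtain ⟨h1, A', h2, h3⟩ := hA
  have h4 := (hW.1 B β hB).1
  refine ⟨by simpa using idf_ord_comp (k := 0) (by simpa using h1) h4, A' ∘ₗ B, h2.comp hB, ?_⟩
  rw [← LinearMap.sub_comp]
  simpa using idf_ord_comp (k := -1) (by simpa using h3) h4

theorem idf_op_mem (hW : WdStmt) {A α} (hA : Op0 A α) : α ∈ Sy := by
  obtain ⟨-, A', h2, -⟩ := hA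
  exact (hW.1 A' α h2).2.1

theorem idf_int {α : Fm → ℝ} (h : Continuous α) (μ : Measure Fm) [IsProbabilityMeasure μ] :
    Integrable α μ :=
  h.integrable_of_hasCompactSupport (HasCompactSupport.of_compactSpace α)

theorem idf_eg_mono {K K' : ℕ} {δ δ' : ℝ} {A : Sm →ₗ[ℝ] Sm} (h : Eg K δ A) (hK : K ≤ K')
    (hδ : δ' ≤ δ) : Eg K' δ' A := by
  obtain ⟨C, hC, h1, h2, h3⟩ := h
  exact ⟨C, hC, h1, fun u b hu => h2 u b (hu.mono zero_le_one hK le_rfl le_rfl),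
    fun u b hb hu => h3 u b (hb.trans hδ) (hu.mono zero_le_one hK le_rfl le_rfl)⟩

theorem idf_Cb_LL {k : ℕ} {B : ℝ} {f : Sm} (h : Cb (k + 2) 1 B f) (a b : Fin 3) :
    Cb k 1 B (L a (L b f)) := by
  simpa using (h.L b).L a

theorem idf_Cb_lap {k : ℕ} {B : ℝ} {f : Sm} (h : Cb (k + 2) 1 B f) : Cb k 1 (3 * B) (lap f) := by
  rw [lap_def]
  simpa using Cb.sum Finset.univ (C := fun _ => B) fun a _ => idf_Cb_LL h a a

theorem idf_Tm (s : ℝ) (b c : Fin 3) (φ : Sm) : nrm 1 s (Tm b c φ) ≤ nrm 1 s φ := by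
  have h1 : Tm b c φ = -L b (L c (Sh 1 φ)) := rfl
  rw [h1, nrm_neg]
  refine (nrm_L le_rfl _ _ _).trans ((nrm_L le_rfl _ _ _).trans ?_)
  have := Bd_Sh_one s φ
  rw [one_mul] at this
  rwa [show s + 1 + 1 = s + 2 by ring]

theorem idf_P1 (k : ℝ) (j : ℕ) : ∃ C, 0 ≤ C ∧ ∀ (u : Sm) (b : ℝ) (n : ℤ), |n| ≤ 2 →
    Cb 3 1 b u → Bd 1 (n / 2) (n / 2) (C * b) (P1 k j u) := by
  obtain ⟨C, hC, h⟩ := Bd_ml 1
  refine ⟨|k * (k - 1)| * C + |2 * j * k| * (9 * C), by positivity, fun u b n hn hu φ => ?_⟩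
  have hb := hu.nonneg
  have e : P1 k j u φ = (k * (k - 1)) • ml u φ
      - (2 * j * k) • ∑ b, ∑ c, ml (L b (L c u)) (Tm b c φ) := by
    simp only [P1, LinearMap.sub_apply, LinearMap.smul_apply, LinearMap.sum_apply,
      LinearMap.comp_apply]
  have h1 := h n le_rfl (hu.mono zero_le_one (by norm_num : 1 ≤ 3) le_rfl le_rfl)
    (by simpa using hn) φ
  have h2 : nrm 1 (n / 2) (∑ b, ∑ c, ml (L b (L c u)) (Tm b c φ)) ≤
      9 * C * b * nrm 1 (n / 2) φ := by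
    have h3 : ∀ a c, nrm 1 (n / 2) (ml (L a (L c u)) (Tm a c φ)) ≤ C * b * nrm 1 (n / 2) φ :=
      fun a c => (h n le_rfl (idf_Cb_LL hu a c) (by simpa using hn) _).trans
        (mul_le_mul_of_nonneg_left (idf_Tm _ _ _ _) (by positivity))
    refine (nrm_sum_le _ _ _ _).trans ((Finset.sum_le_sum fun a _ => (nrm_sum_le _ _ _ _).trans
      (Finset.sum_le_sum fun c _ => h3 a c)).trans (le_of_eq ?_))
    simp only [Finset.sum_const, Finset.card_univ, Fintype.card_fin, nsmul_eq_mul]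
    push_cast
    ring
  rw [e]
  refine (nrm_sub_le _ _ _ _).trans ?_
  rw [nrm_smul, nrm_smul]
  have a1 := mul_le_mul_of_nonneg_left h1 (abs_nonneg (k * (k - 1)))
  have a2 := mul_le_mul_of_nonneg_left h2 (abs_nonneg (2 * j * k))
  linarith

/-- the bounds that are used, with common constants -/
def idfP (K : ℕ) (C δ : ℝ) : Prop :=
  (∀ (u : Sm) (b : ℝ), b ≤ δ → Cb K 1 b u → Good u ∧ (∀ y, ‖XX u y‖ ≤ C * ‖y‖) ∧
    (∀ y, ‖pull u y‖ ≤ C * ‖y‖) ∧ Bd 1 (-1) (-1) C (XX u) ∧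
    Bd 1 (-(1 / 2)) (-(1 / 2)) C (XX u) ∧ (∀ x, |(Jac u - 1 - lap u) x| ≤ C * b ^ 2) ∧
    (∀ φ B, Cb 7 1 B φ → ∀ x, |(pull u φ - φ) x| ≤ C * B * b) ∧
    (u ∈ Ev → ∀ y, ‖GG u y‖ ≤ C * ‖y‖)) ∧
  (∀ (u : Sm) (b : ℝ), Cb K 1 b u → ∀ φ, ‖Bop u φ‖ ≤ C * b * ‖φ‖) ∧
  ∀ W α, Wd W α → Eg K δ W

theorem idf_bundle (hB : PullBStmt) (hE : EgStmt) (hL : LowStmt) (hG : GtStmt) :
    ∃ (K : ℕ) (C δ : ℝ), 9 ≤ K ∧ 0 ≤ C ∧ 0 < δ ∧ idfP K C δ := by
  obtain ⟨K1, C1, δ1, hC1, hδ1, h1⟩ := hB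
  obtain ⟨K2, δ2, hδ2, g1, g2, g3, g4⟩ := hE
  obtain ⟨K3, C3, δ3, hC3, hδ3, h3⟩ := hG
  obtain ⟨j0, h4⟩ := hL
  obtain ⟨C4, hC4, -, -, h4⟩ := h4 j0 le_rfl 1 one_pos le_rfl
  refine ⟨K1 + K2 + K3 + 9, C1 + C3 + C4, min δ1 (min δ2 δ3), by omega, by positivity,
    by positivity, fun u b hb hu => ?_, fun u b hu φ => ?_, fun W α hW => ?_⟩
  · have hb0 := hu.nonneg
    have hc : C1 ≤ C1 + C3 + C4 := by linarith
    obtain ⟨a1, a2, -, -, -, -, -, a3, -, a4⟩ := h1 u b (hb.trans (min_le_left _ _))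
      (hu.mono zero_le_one (by omega) le_rfl le_rfl)
    refine ⟨a1, fun y => ?_, fun y => ?_, ?_, ?_, fun x => ?_, fun φ B hφ x => ?_,
      fun he y => ?_⟩
    · exact (idf_b0 (a2 0 (by simp)).1 (by simp) (by simp) y).trans (by gcongr)
    · exact (idf_b0 (a2 0 (by simp)).2.1 (by simp) (by simp) y).trans (by gcongr)
    · exact (a2 (-2) (by norm_num)).1.mono le_rfl hC1 (by norm_num) (by norm_num) hc
    · exact (a2 (-1) (by norm_num)).1.mono le_rfl hC1 (by norm_num) (by norm_num) hc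
    · exact (a3.abs_le x).trans (by gcongr)
    · have := hφ.nonneg
      exact ((a4 φ B hφ).1.abs_le x).trans (by gcongr)
    · refine (idf_b0 (h3 u b (hb.trans ((min_le_right _ _).trans (min_le_right _ _))) he
        (hu.mono zero_le_one (by omega) le_rfl le_rfl)).1 rfl rfl y).trans ?_
      gcongr
      linarith
  · have hb0 := hu.nonneg
    refine (idf_b0 (h4 1 u b 0 (Or.inl rfl) (by simp)
      (hu.mono zero_le_one (by omega) le_rfl le_rfl)).2 (by simp) (by simp) φ).trans ?_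
    gcongr
    linarith
  · refine idf_eg_mono (K := K2) (δ := δ2) ?_ (by omega)
      ((min_le_right _ _).trans (min_le_left _ _))
    induction hW with
    | ml φ => exact g1 _ (Or.inl ⟨φ, rfl⟩)
    | xi a b => exact g1 _ (Or.inr (Or.inl ⟨a, b, rfl⟩))
    | xs a b => exact g1 _ (Or.inr (Or.inr (Or.inl ⟨a, b, rfl⟩)))
    | add _ _ ha hb => exact g3 _ _ ha hb
    | smul r _ ha => exact g4 r _ ha
    | comp _ _ ha hb => exact g2 _ _ ha hb

theorem idf_Cb_smul {K : ℕ} {e B : ℝ} {f : Sm} (he : 0 < e) (hf : Cb K 1 B f) :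
    Cb K 1 (e * B) (e • f) := by
  simpa only [abs_of_pos he] using hf.smul e

theorem idf_XX {K : ℕ} {C δ : ℝ} (hK : 9 ≤ K) (hC : 0 ≤ C) (hP : idfP K C δ) {e B : ℝ} {f : Sm}
    (he : 0 < e) (hδ : e * B ≤ δ) (hf : Cb K 1 B f) (y y' : Sm) :
    |inner ℝ (XX (e • f) y') (XX (e • f) y) - inner ℝ y' y - e * inner ℝ (lap f * y') y| ≤
      4 * C ^ 3 * B ^ 2 * e ^ 2 * ‖y'‖ * ‖y‖ := by
  obtain ⟨hg, b1, b2, -, -, b3, b4, -⟩ := hP.1 _ _ hδ (idf_Cb_smul he hf)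
  have hB := hf.nonneg
  have hl : Cb 7 1 (3 * B) (lap f) := idf_Cb_lap (hf.mono zero_le_one hK le_rfl le_rfl)
  set u := e • f with hu
  set ρ : Sm := (Jac u - 1 - lap u) - e • (pull u (lap f) - lap f) with hρ
  have e1 : XX u y = pull u y + e • pull u (lap f * y) + ρ * pull u y := by
    ext x
    have : XX u y = Jac u * pull u y := rfl
    rw [this, hρ]
    have h2 : lap u = e • lap f := by rw [hu, map_smul]
    simp only [h2, Sm.add_apply, Sm.mul_apply, Sm.sub_apply, Sm.smul_apply, Sm.one_apply,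
      hg.pull_apply]
    ring
  have e2 : ∀ x, |ρ x| ≤ 4 * C * B ^ 2 * e ^ 2 := fun x => by
    have a1 := b3 x
    have a2 := mul_le_mul_of_nonneg_left (b4 _ _ hl x) he.le
    rw [hρ, Sm.sub_apply, Sm.smul_apply]
    refine (abs_sub _ _).trans ?_
    rw [abs_mul, abs_of_pos he]
    nlinarith
  have e3 : inner ℝ (XX u y') (XX u y) - inner ℝ y' y - e * inner ℝ (lap f * y') y =
      inner ℝ (XX u y') (ρ * pull u y) := by
    conv_lhs => rw [e1]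
    rw [inner_add_right, inner_add_right, inner_smul_right, hg.inner_pull, hg.inner_pull,
      inner_mul (lap f)]
    ring
  rw [e3]
  refine (abs_real_inner_le_norm _ _).trans ?_
  calc _ ≤ (C * ‖y'‖) * (4 * C * B ^ 2 * e ^ 2 * (C * ‖y‖)) :=
        mul_le_mul (b1 y') ((norm_mul_le e2 _).trans
          (mul_le_mul_of_nonneg_left (b2 y) (by positivity))) (norm_nonneg _) (by positivity)
    _ = _ := by ring

theorem idf_Vb_add (f g : Sm) : Vb (f + g) = Vb f + Vb g := by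
  ext φ : 1
  simp only [Vb, LinearMap.sum_apply, LinearMap.comp_apply, LinearMap.add_apply, map_add,
    LinearMap.mulLeft_apply, add_mul, Finset.sum_add_distrib]

theorem idf_Vb_smul (e : ℝ) (f : Sm) : Vb (e • f) = e • Vb f := by
  ext φ : 1
  simp only [Vb, LinearMap.sum_apply, LinearMap.comp_apply, LinearMap.smul_apply, map_smul,
    LinearMap.mulLeft_apply, smul_mul_assoc, Finset.smul_sum]

theorem idf_eg {K : ℕ} {C δ : ℝ} (hK : 9 ≤ K) (hC : 0 ≤ C) (hP : idfP K C δ) {W α} (hW : Wd W α)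
    (B : ℝ) : ∃ C', ∀ (e : ℝ) (f y : Sm), 0 < e → e * B ≤ δ → Cb K 1 B f → ‖y‖ = 1 →
      |inner ℝ (W (XX (e • f) y)) (XX (e • f) y) - inner ℝ (W y) y
        - e * (inner ℝ (lap f * W y) y
          - inner ℝ (cm (Vb f) W (XX (e • f) y)) (XX (e • f) y))| ≤ C' * e ^ 2 := by
  obtain ⟨D, hD, d1, -, d3⟩ := hP.2.2 W α hW
  refine ⟨4 * C ^ 3 * B ^ 2 * D + D * B ^ 2 * C, fun e f y he hδ hf hy => ?_⟩
  have hu := idf_Cb_smul he hf
  have a1 := idf_XX hK hC hP he hδ hf y (W y)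
  have a2 := idf_b0 (d1 0 (by norm_num) (by norm_num)) (by simp) (by simp) y
  have a3 := idf_b0 (d3 _ _ hδ hu 0 (by norm_num) (by norm_num)) (by simp) (by simp) y
  have a4 := (hP.1 _ _ hδ hu).2.1 y
  rw [hy, mul_one] at a1 a2 a3 a4
  set a := XX (e • f) y with ha
  set r := (cm (XX (e • f)) W - cm (Vb (e • f)) W ∘ₗ XX (e • f)) y with hr
  have e1 : W a = XX (e • f) (W y) - e • cm (Vb f) W a - r := by
    rw [hr, ha, idf_Vb_smul]
    simp only [cm, LinearMap.sub_apply, LinearMap.comp_apply, LinearMap.smul_apply, map_smul,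
      smul_sub]
    abel
  have e2 : inner ℝ (W a) a - inner ℝ (W y) y
      - e * (inner ℝ (lap f * W y) y - inner ℝ (cm (Vb f) W a) a) =
      (inner ℝ (XX (e • f) (W y)) a - inner ℝ (W y) y - e * inner ℝ (lap f * W y) y)
        - inner ℝ r a := by
    conv_lhs => rw [e1, inner_sub_left, inner_sub_left, real_inner_smul_left]
    ring
  rw [e2]
  refine (abs_sub _ _).trans ?_
  have a5 : |inner ℝ r a| ≤ D * (e * B) ^ 2 * C :=
    (abs_real_inner_le_norm _ _).trans (mul_le_mul a3 a4 (norm_nonneg _) (by positivity))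
  have a6 : 4 * C ^ 3 * B ^ 2 * e ^ 2 * ‖W y‖ ≤ 4 * C ^ 3 * B ^ 2 * e ^ 2 * D := by gcongr
  nlinarith

theorem idf_compact {K : ℕ} {C B : ℝ} {𝒰 : Ultrafilter ℕ} (Λ : ℕ → Sm → ℝ) {f : ℕ → Sm}
    (hadd : ∀ n g g', Λ n (g + g') = Λ n g + Λ n g')
    (hbd : ∀ᶠ n in 𝒰, ∀ g b, Cb K 1 b g → |Λ n g| ≤ C * b)
    (hlim : ∀ g, Tendsto (fun n => Λ n g) 𝒰 (𝓝 0)) (hf : ∀ n, Cb (K + 4) 1 B (f n)) :
    Tendsto (fun n => Λ n (f n)) 𝒰 (𝓝 0) := by
  obtain ⟨Cs, hCs, hs⟩ := sobolev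
  obtain ⟨Cn, hn⟩ := nrm_le_of_Cb (K + 4)
  rw [Metric.tendsto_nhds]
  intro θ hθ
  obtain ⟨N, hN⟩ : ∃ N : ℕ, |C| * (Cs * (((N : ℝ) + 1)⁻¹ * (Cn * B))) < θ / 3 := by
    have h1 : Tendsto (fun N : ℕ => |C| * (Cs * (((N : ℝ) + 1)⁻¹ * (Cn * B)))) atTop
        (𝓝 (|C| * (Cs * (0 * (Cn * B))))) := by
      refine ((Tendsto.mul_const _ ?_).const_mul _).const_mul _
      simpa only [one_div] using tendsto_one_div_add_atTop_nhds_zero_nat (𝕜 := ℝ)
    simp only [zero_mul, mul_zero] at h1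
    exact (h1.eventually (gt_mem_nhds (by linarith))).exists
  obtain ⟨g, -, hg⟩ := (isCompact_closedBall (0 : Poly N) B).ultrafilter_le_nhds
    (𝒰.map fun n => (⟨Pi N (f n), Pi_mem N _⟩ : Poly N)) (by
      rw [Ultrafilter.coe_map, le_principal_iff, mem_map]
      refine Eventually.of_forall fun n => ?_
      rw [mem_closedBall_zero_iff]
      exact (norm_Pi_le N _).trans (norm_le_of_sup (hf n).abs_le))
  have hg' : Tendsto (fun n => ‖Pi N (f n) - g‖) 𝒰 (𝓝 0) :=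
    tendsto_iff_norm_sub_tendsto_zero.mp ((continuous_subtype_val.tendsto g).comp hg)
  have h2 := ((hg'.const_mul (((N : ℝ) + 1) ^ ((K : ℝ) + 3 - 0))).const_mul Cs).const_mul |C|
  simp only [mul_zero] at h2
  filter_upwards [hbd, h2.eventually (gt_mem_nhds (by linarith : 0 < θ / 3)),
    Metric.tendsto_nhds.mp (hlim g) (θ / 3) (by linarith)] with n b1 b2 b3
  rw [Real.dist_eq, sub_zero] at b3 ⊢
  have e : f n = g + (Pi N (f n) - g) + (f n - Pi N (f n)) := by abel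
  have hb : ∀ g b, Cb K 1 b g → |Λ n g| ≤ |C| * b := fun g b h =>
    (b1 g b h).trans (mul_le_mul_of_nonneg_right (le_abs_self C) h.nonneg)
  have a1 : |Λ n (Pi N (f n) - g)| < θ / 3 := by
    refine ((hb _ _ (hs K _)).trans ?_).trans_lt b2
    have := nrm_of_Poly (s := 0) (t := (K : ℝ) + 3) (by positivity)
      (Submodule.sub_mem _ (Pi_mem N (f n)) g.2)
    rw [nrm_zero le_rfl] at this
    gcongr
  have a2 : |Λ n (f n - Pi N (f n))| < θ / 3 := by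
    refine ((hb _ _ (hs K _)).trans ?_).trans_lt hN
    have h3 := nrm_sub_Pi (s := (K : ℝ) + 3) (t := ((K + 4 : ℕ) : ℝ)) (by push_cast; linarith) N
      (f n)
    have h4 := hn le_rfl (hf n)
    rw [one_pow, mul_one] at h4
    rw [show (K : ℝ) + 3 - ((K + 4 : ℕ) : ℝ) = -1 by push_cast; ring, Real.rpow_neg_one] at h3
    gcongr
    exact h3.trans (by gcongr)
  rw [e, hadd, hadd]
  refine (abs_add_three _ _ _).trans_lt ?_
  linarith

end Pool.Agent.Lib.MP_2fa2a2_gt.PI
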