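import Pool.Agent.Lib.MP_2fa2a2_gt.PI.Base

/-! The normalised integral and the scalar product. -/

namespace Pool.Agent.Lib.MP_2fa2a2_gt.PI

open MeasureTheory
open scoped ContDiff

/-- the normalised surface measure -/
noncomputable def sig : Measure S2 :=
  (MP_5b78b3_gt.sig 3 Set.univ)⁻¹ • MP_5b78b3_gt.sig 3

theorem int_univ_ne_zero : MP_5b78b3_gt.sig 3 Set.univ ≠ 0 :=
  isOpen_univ.measure_ne_zero _ ⟨nrmz 0, trivial⟩

instance : IsProbabilityMeasure sig := by
  constructor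
  unfold sig
  rw [Measure.smul_apply, smul_eq_mul]
  exact ENNReal.inv_mul_cancel int_univ_ne_zero (measure_ne_top _ _)

instance : sig.IsOpenPosMeasure := by
  unfold sig
  exact Measure.isOpenPosMeasure_smul _ (ENNReal.inv_ne_zero.2 (measure_ne_top _ _))

theorem integrable_of_continuous {g : S2 → ℝ} (hg : Continuous g) : Integrable g sig :=
  hg.integrable_of_hasCompactSupport (HasCompactSupport.of_compactSpace _)

theorem int_integrable (φ : Sm) : Integrable (fun x => φ x) sig :=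
  integrable_of_continuous φ.continuous

/-- the mean value -/
noncomputable def I : Sm →ₗ[ℝ] ℝ where
  toFun φ := ∫ x, φ x ∂sig
  map_add' := fun φ ψ => integral_add (int_integrable φ) (int_integrable ψ)
  map_smul' := fun c φ => by
    simp only [Sm.smul_apply, RingHom.id_apply, smul_eq_mul]
    exact integral_const_mul c _

theorem I_def (φ : Sm) : I φ = ∫ x, φ x ∂sig := rfl

@[simp] theorem I_one : I 1 = 1 := by
  simp [I_def]

theorem I_mono {φ ψ : Sm} (h : ∀ x, φ x ≤ ψ x) : I φ ≤ I ψ :=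
  integral_mono (int_integrable φ) (int_integrable ψ) h

theorem I_nonneg {φ : Sm} (h : ∀ x, 0 ≤ φ x) : 0 ≤ I φ :=
  integral_nonneg h

theorem abs_I_le {φ ψ : Sm} (h : ∀ x, |φ x| ≤ ψ x) : |I φ| ≤ I ψ := by
  rw [abs_le]
  refine ⟨?_, I_mono fun x => (abs_le.1 (h x)).2⟩
  rw [← map_neg]
  exact I_mono fun x => (abs_le.1 (h x)).1

theorem eq_zero_of_I_sq {φ : Sm} (h : I (φ * φ) = 0) : φ = 0 := by
  have h0 := (integral_eq_zero_iff_of_nonneg (f := fun x => (φ * φ) x)
    (fun x => mul_self_nonneg (φ x)) (int_integrable _)).1 h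
  have h1 : (fun x => (φ * φ) x) = 0 :=
    (Continuous.ae_eq_iff_eq sig (φ * φ).continuous continuous_zero).1 h0
  ext x
  exact mul_self_eq_zero.1 (congrFun h1 x)

/-- the rotation by the angle `t` about the axis `a`, as a linear map -/
noncomputable def int_rotL (a : Fin 3) (t : ℝ) : E3 →ₗ[ℝ] E3 where
  toFun y := y a • EuclideanSpace.single a (1 : ℝ)
    + (Real.cos t * y (a + 1) - Real.sin t * y (a + 2)) • EuclideanSpace.single (a + 1) (1 : ℝ)
    + (Real.sin t * y (a + 1) + Real.cos t * y (a + 2)) • EuclideanSpace.single (a + 2) (1 : ℝ)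
  map_add' y z := by
    simp only [PiLp.add_apply]
    module
  map_smul' c y := by
    simp only [PiLp.smul_apply, smul_eq_mul, RingHom.id_apply]
    module

theorem int_rotL_apply (a : Fin 3) (t : ℝ) (y : E3) :
    int_rotL a t y = y a • EuclideanSpace.single a (1 : ℝ)
    + (Real.cos t * y (a + 1) - Real.sin t * y (a + 2)) • EuclideanSpace.single (a + 1) (1 : ℝ)
    + (Real.sin t * y (a + 1) + Real.cos t * y (a + 2)) • EuclideanSpace.single (a + 2) (1 : ℝ) :=
  rfl

theorem int_rotL_norm (a : Fin 3) (t : ℝ) (y : E3) : ‖int_rotL a t y‖ = ‖y‖ := by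
  have h := Real.sin_sq_add_cos_sq t
  rw [← sq_eq_sq₀ (norm_nonneg _) (norm_nonneg _), EuclideanSpace.real_norm_sq_eq,
    EuclideanSpace.real_norm_sq_eq, int_rotL_apply]
  fin_cases a
  · simp [Fin.sum_univ_three]
    linear_combination (y 1 ^ 2 + y 2 ^ 2) * h
  · simp [Fin.sum_univ_three]
    linear_combination (y 0 ^ 2 + y 2 ^ 2) * h
  · simp [Fin.sum_univ_three]
    linear_combination (y 1 ^ 2 + y 0 ^ 2) * h

/-- the rotation by the angle `t` about the axis `a` -/
noncomputable def int_rot (a : Fin 3) (t : ℝ) : E3 ≃ₗᵢ[ℝ] E3 :=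
  LinearIsometry.toLinearIsometryEquiv ⟨int_rotL a t, int_rotL_norm a t⟩ rfl

theorem int_rot_apply (a : Fin 3) (t : ℝ) (y : E3) : int_rot a t y = int_rotL a t y := rfl

theorem int_rot_zero (a : Fin 3) (y : E3) : int_rot a 0 y = y := by
  rw [int_rot_apply, int_rotL_apply]
  ext i
  fin_cases a <;> fin_cases i <;> simp

theorem int_hasDerivAt_rot (a : Fin 3) (t : ℝ) (y : E3) :
    HasDerivAt (fun s => int_rot a s y) (rv a (int_rot a t y)) t := by
  have h1 := (((Real.hasDerivAt_cos t).mul_const (y (a + 1))).sub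
    ((Real.hasDerivAt_sin t).mul_const (y (a + 2)))).smul_const
      (EuclideanSpace.single (a + 1) (1 : ℝ) : E3)
  have h2 := (((Real.hasDerivAt_sin t).mul_const (y (a + 1))).add
    ((Real.hasDerivAt_cos t).mul_const (y (a + 2)))).smul_const
      (EuclideanSpace.single (a + 2) (1 : ℝ) : E3)
  have h3 := (h1.const_add (y a • (EuclideanSpace.single a (1 : ℝ) : E3))).add h2
  refine HasDerivAt.congr_deriv (f' := _) h3 ?_
  rw [int_rot_apply, int_rotL_apply]
  ext i
  fin_cases a <;> fin_cases i <;> simp [rv] <;> ring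

theorem int_hasDerivAt_comp (a : Fin 3) (φ : Sm) (x : S2) (t : ℝ) :
    HasDerivAt (fun s => φ (MP_5b78b3_gt.rot (int_rot a s) x))
      (L a φ (MP_5b78b3_gt.rot (int_rot a t) x)) t := by
  have h0 : ((MP_5b78b3_gt.rot (int_rot a t) x : S2) : E3) ≠ 0 := ne_zero_of_mem_unit_sphere _
  have h1 := ((φ.smoothAt h0).differentiableAt (by simp)).hasFDerivAt.comp_hasDerivAt t
    (int_hasDerivAt_rot a t (x : E3))
  refine HasDerivAt.congr_of_eventuallyEq h1 (Filter.Eventually.of_forall fun s => ?_)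
  exact (congrArg φ (nrmz_coe (MP_5b78b3_gt.rot (int_rot a s) x))).symm

theorem int_integral_rot (g : E3 ≃ₗᵢ[ℝ] E3) (f : S2 → ℝ) :
    ∫ x, f (MP_5b78b3_gt.rot g x) ∂sig = ∫ x, f x ∂sig := by
  unfold sig
  rw [integral_smul_measure, integral_smul_measure, MP_5b78b3_gt.integral_rot]

@[simp] theorem I_L (a : Fin 3) (φ : Sm) : I (L a φ) = 0 := by
  obtain ⟨C, -, hC⟩ := (L a φ).bounded
  have hc : ∀ (ψ : Sm) (s : ℝ), Continuous fun x => ψ (MP_5b78b3_gt.rot (int_rot a s) x) :=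
    fun ψ s => ψ.continuous.comp (MP_5b78b3_gt.rot (int_rot a s)).continuous
  have h := (hasDerivAt_integral_of_dominated_loc_of_deriv_le (μ := sig)
    (F := fun s x => φ (MP_5b78b3_gt.rot (int_rot a s) x))
    (F' := fun s x => L a φ (MP_5b78b3_gt.rot (int_rot a s) x)) (x₀ := 0) (s := Set.univ)
    (bound := fun _ => C) Filter.univ_mem
    (Filter.Eventually.of_forall fun s => (hc φ s).aestronglyMeasurable)
    (integrable_of_continuous (hc φ 0)) (hc (L a φ) 0).aestronglyMeasurable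
    (Filter.Eventually.of_forall fun x s _ => hC _) (integrable_const C)
    (Filter.Eventually.of_forall fun x s _ => int_hasDerivAt_comp a φ x s)).2
  simp only [int_integral_rot] at h
  exact h.unique (hasDerivAt_const _ _)

/-- the scalar product of `L2` -/
@[reducible] noncomputable def smCore : InnerProductSpace.Core ℝ Sm where
  inner φ ψ := I (φ * ψ)
  conj_inner_symm φ ψ := by simp [mul_comm]
  re_inner_nonneg φ := I_nonneg fun x => mul_self_nonneg _
  add_left φ ψ χ := by simp [add_mul]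
  smul_left φ ψ c := by simp
  definite φ h := eq_zero_of_I_sq h

noncomputable instance : NormedAddCommGroup Sm :=
  @InnerProductSpace.Core.toNormedAddCommGroup ℝ Sm _ _ _ smCore

noncomputable instance : InnerProductSpace ℝ Sm := InnerProductSpace.ofCore smCore.toCore

theorem inner_def (φ ψ : Sm) : inner ℝ φ ψ = I (φ * ψ) := rfl

theorem norm_sq_eq (φ : Sm) : ‖φ‖ ^ 2 = I (φ * φ) := by
  rw [← real_inner_self_eq_norm_sq, inner_def]

theorem inner_mul (v φ ψ : Sm) : inner ℝ (v * φ) ψ = inner ℝ φ (v * ψ) := by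
  rw [inner_def, inner_def]
  congr 1
  ring

theorem inner_L (a : Fin 3) (φ ψ : Sm) : inner ℝ (L a φ) ψ = -inner ℝ φ (L a ψ) := by
  have h := I_L a (φ * ψ)
  rw [L_mul, map_add] at h
  rw [inner_def, inner_def]
  linarith

theorem norm_le_of_abs_le {φ ψ : Sm} (h : ∀ x, |φ x| ≤ |ψ x|) : ‖φ‖ ≤ ‖ψ‖ := by
  rw [← sq_le_sq₀ (norm_nonneg _) (norm_nonneg _), norm_sq_eq, norm_sq_eq]
  refine I_mono fun x => ?_
  rw [Sm.mul_apply, Sm.mul_apply, ← sq, ← sq]
  exact sq_le_sq.2 (h x)

theorem int_norm_one : ‖(1 : Sm)‖ = 1 := by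
  have h := norm_sq_eq 1
  rw [mul_one, I_one] at h
  exact (pow_eq_one_iff_of_nonneg (norm_nonneg _) two_ne_zero).1 h

theorem norm_le_of_sup {φ : Sm} {B : ℝ} (h : ∀ x, |φ x| ≤ B) : ‖φ‖ ≤ B := by
  have hB : 0 ≤ B := (abs_nonneg _).trans (h (nrmz 0))
  have h1 : ‖φ‖ ≤ ‖B • (1 : Sm)‖ := norm_le_of_abs_le fun x => by
    rw [Sm.smul_apply, Sm.one_apply, mul_one, abs_of_nonneg hB]
    exact h x
  rwa [norm_smul, int_norm_one, mul_one, Real.norm_of_nonneg hB] at h1

theorem norm_mul_le {v : Sm} {B : ℝ} (h : ∀ x, |v x| ≤ B) (φ : Sm) : ‖v * φ‖ ≤ B * ‖φ‖ := by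
  have hB : 0 ≤ B := (abs_nonneg _).trans (h (nrmz 0))
  have h1 : ‖v * φ‖ ≤ ‖B • φ‖ := norm_le_of_abs_le fun x => by
    rw [Sm.smul_apply, Sm.mul_apply, abs_mul, abs_mul, abs_of_nonneg hB]
    exact mul_le_mul_of_nonneg_right (h x) (abs_nonneg _)
  rwa [norm_smul, Real.norm_of_nonneg hB] at h1

theorem abs_I_mul_le (φ ψ : Sm) : |I (φ * ψ)| ≤ ‖φ‖ * ‖ψ‖ :=
  abs_real_inner_le_norm φ ψ

end Pool.Agent.Lib.MP_2fa2a2_gt.PI
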