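import Pool.Agent.Lib.MP_2fa2a2_gt.PI.Nrm

/-! Interpolation at the midpoint. -/

namespace Pool.Agent.Lib.MP_2fa2a2_gt.PI

/-- positive weights that grow and decay at most polynomially -/
def PW (c : ℕ → ℝ) : Prop := (∀ l, 0 < c l) ∧ PG c ∧ PG (fun l => (c l)⁻¹)

theorem PW_wt {lam : ℝ} (hl : 1 ≤ lam) (s : ℝ) : PW (wt lam s) := by
  refine ⟨nrmx_wt_pos hl s, PG_wt hl s, (PG_wt hl (-s)).of_le fun l => le_of_eq ?_⟩
  have h := nrmx_wt_add hl s (-s) l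
  rw [add_neg_cancel, nrmx_wt_zero] at h
  rw [inv_eq_of_mul_eq_one_right h.symm]

theorem interp_PW_mul {c d : ℕ → ℝ} (h : PW c) (h' : PW d) : PW (fun l => c l * d l) :=
  ⟨fun l => mul_pos (h.1 l) (h'.1 l), h.2.1.mul h'.2.1,
    (h.2.2.mul h'.2.2).of_le fun l => le_of_eq (by rw [mul_inv])⟩

theorem interp_PW_inv {c : ℕ → ℝ} (h : PW c) : PW (fun l => (c l)⁻¹) :=
  ⟨fun l => inv_pos.2 (h.1 l), h.2.2, h.2.1.of_le fun l => le_of_eq (by rw [inv_inv])⟩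

theorem interp_PG_sqrt {c : ℕ → ℝ} (h0 : ∀ l, 0 < c l) (h : PG c) : PG (fun l => √(c l)) := by
  refine (h.add (fnx_const 1)).of_le fun l => ?_
  have h1 := h0 l
  rw [abs_of_nonneg (Real.sqrt_nonneg _), abs_of_nonneg (by positivity)]
  nlinarith [Real.sq_sqrt h1.le, sq_nonneg (√(c l) - 1), Real.sqrt_nonneg (c l)]

theorem interp_PW_sqrt {c : ℕ → ℝ} (h : PW c) : PW (fun l => √(c l)) :=
  ⟨fun l => Real.sqrt_pos.2 (h.1 l), interp_PG_sqrt h.1 h.2.1,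
    (interp_PG_sqrt (fun l => inv_pos.2 (h.1 l)) h.2.2).of_le fun l =>
      le_of_eq (by rw [Real.sqrt_inv])⟩

/-- a symmetric operator whose eigenvalues are at most `C` has quadratic form at most `C` -/
theorem interp_quad {V : Type*} [NormedAddCommGroup V] [InnerProductSpace ℝ V]
    [FiniteDimensional ℝ V] (Q : V →ₗ[ℝ] V) (hQ : Q.IsSymmetric) {C : ℝ}
    (h : ∀ (μ : ℝ) (e : V), e ≠ 0 → Q e = μ • e → μ ≤ C) (x : V) :
    inner ℝ x (Q x) ≤ C * ‖x‖ ^ 2 := by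
  set b := hQ.eigenvectorBasis rfl with hb
  rw [← real_inner_self_eq_norm_sq, ← b.sum_inner_mul_inner x (Q x), ← b.sum_inner_mul_inner x x,
    Finset.mul_sum]
  refine Finset.sum_le_sum fun i _ => ?_
  have e1 : Q (b i) = hQ.eigenvalues rfl i • b i := hQ.apply_eigenvectorBasis rfl i
  have e2 := h _ _ (b.orthonormal.ne_zero i) e1
  rw [← hQ (b i) x, e1, real_inner_smul_left, real_inner_comm (b i) x]
  nlinarith [sq_nonneg (inner ℝ x (b i))]

/-- the midpoint estimate on a finite dimensional invariant subspace -/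
theorem interp_fin {F : Type*} [NormedAddCommGroup F] [InnerProductSpace ℝ F]
    (V : Submodule ℝ F) [FiniteDimensional ℝ V] (S a a' b b' : F →ₗ[ℝ] F) {C0 C1 : ℝ}
    (hC0 : 0 ≤ C0) (ha : ∀ x y, inner ℝ (a x) y = inner ℝ x (a y))
    (hb : ∀ x y, inner ℝ (b' x) y = inner ℝ x (b' y)) (haa : ∀ x, a (a' x) = x)
    (hbb : ∀ x, b (b' x) = x) (hV : ∀ x ∈ V, b' x ∈ V)
    (h0 : ∀ x, ‖a' (S (b x))‖ ≤ C0 * ‖x‖) (h1 : ∀ x, ‖a (S (b' x))‖ ≤ C1 * ‖x‖)
    {x : F} (hx : x ∈ V) : ‖S x‖ ^ 2 ≤ C0 * C1 * ‖x‖ ^ 2 := by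
  let S' := (S.domRestrict V).rangeRestrict
  have hS' : ∀ u v : V, inner ℝ u ((LinearMap.adjoint S' ∘ₗ S') v) = inner ℝ (S u) (S v) := by
    intro u v
    rw [LinearMap.comp_apply, LinearMap.adjoint_inner_right]
    rfl
  have key := interp_quad (LinearMap.adjoint S' ∘ₗ S') (fun u v => by
    rw [real_inner_comm, hS', hS', real_inner_comm]) (C := C0 * C1) (fun μ e he hμ => by
      have hz : b' e ≠ 0 := fun h => he (Subtype.ext (by
        have := hbb e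
        rw [h, map_zero] at this
        exact this.symm))
      have e1 := hS' ⟨b' (b' e), hV _ (hV _ e.2)⟩ e
      rw [hμ, real_inner_smul_right] at e1
      have e2 : inner ℝ (⟨b' (b' e), hV _ (hV _ e.2)⟩ : V) e = ‖b' (e : F)‖ ^ 2 := by
        rw [← real_inner_self_eq_norm_sq, ← hb]; rfl
      have e3 : inner ℝ (S (b' (b' e))) (S e) =
          inner ℝ (a (S (b' (b' e)))) (a' (S (b (b' e)))) := by
        rw [ha, haa, hbb]
      rw [e2] at e1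
      have e4 : μ * ‖b' (e : F)‖ ^ 2 ≤ C0 * C1 * ‖b' (e : F)‖ ^ 2 := by
        rw [e1]
        show inner ℝ (S (b' (b' e))) (S e) ≤ _
        rw [e3]
        refine (real_inner_le_norm _ _).trans ?_
        have a1 := h1 (b' e)
        have a0 := h0 (b' e)
        calc _ ≤ (C1 * ‖b' (e : F)‖) * (C0 * ‖b' (e : F)‖) :=
              mul_le_mul a1 a0 (norm_nonneg _) ((norm_nonneg _).trans a1)
          _ = _ := by ring
      exact le_of_mul_le_mul_right e4 (pow_pos (norm_pos_iff.2 hz) 2)) ⟨x, hx⟩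
  rw [hS', real_inner_self_eq_norm_sq] at key
  exact key

theorem interp_lim (S : Sm →ₗ[ℝ] Sm) {a a' b b' : ℕ → ℝ} {C0 C1 : ℝ} (hC0 : 0 ≤ C0) (hC1 : 0 ≤ C1)
    (haa : ∀ x, fn a (fn a' x) = x) (hbb : ∀ x, fn b (fn b' x) = x)
    (h0 : ∀ x, ‖fn a' (S (fn b x))‖ ≤ C0 * ‖x‖) (h1 : ∀ x, ‖fn a (S (fn b' x))‖ ≤ C1 * ‖x‖)
    (ψ : Sm) : ‖S ψ‖ ≤ √(C0 * C1) * ‖ψ‖ := by
  have hfin : ∀ N, ‖S (Pi N ψ)‖ ≤ √(C0 * C1) * ‖ψ‖ := by
    intro N
    have := interp_fin (Poly N) S (fn a) (fn a') (fn b) (fn b') hC0 (inner_fn a) (inner_fn b')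
      haa hbb (fun x hx => fn_mem_Poly b' hx) h0 h1 (Pi_mem N ψ)
    refine le_trans (nrmx_sq (b := √(C0 * C1) * ‖Pi N ψ‖) ?_ (by positivity))
      (mul_le_mul_of_nonneg_left (norm_Pi_le N ψ) (Real.sqrt_nonneg _))
    rw [mul_pow, Real.sq_sqrt (mul_nonneg hC0 hC1)]
    exact this
  have hrem : ∀ u, ‖S u‖ ≤ √((C1 * ‖fn b u‖) * (C0 * ‖fn b' u‖)) := by
    intro u
    refine Real.le_sqrt_of_sq_le ?_
    have e1 : ‖S u‖ ^ 2 = inner ℝ (fn a (S (fn b' (fn b u)))) (fn a' (S (fn b (fn b' u)))) := by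
      rw [fn_comm b' b, hbb, inner_fn, haa, real_inner_self_eq_norm_sq]
    rw [e1]
    exact (real_inner_le_norm _ _).trans
      (mul_le_mul (h1 _) (h0 _) (norm_nonneg _) ((norm_nonneg _).trans (h1 _)))
  have hlim : Filter.Tendsto (fun N => √(C0 * C1) * ‖ψ‖ +
      √((C1 * ‖fn b ψ - Pi N (fn b ψ)‖) * (C0 * ‖fn b' ψ - Pi N (fn b' ψ)‖))) Filter.atTop
      (nhds (√(C0 * C1) * ‖ψ‖ + √((C1 * 0) * (C0 * 0)))) :=
    tendsto_const_nhds.add
      (((tendsto_Pi _).const_mul C1).mul ((tendsto_Pi _).const_mul C0)).sqrt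
  simp only [mul_zero, Real.sqrt_zero, add_zero] at hlim
  refine ge_of_tendsto' hlim fun N => ?_
  have e2 : S ψ = S (Pi N ψ) + S (ψ - Pi N ψ) := by rw [← map_add]; simp
  rw [e2]
  refine (norm_add_le _ _).trans (add_le_add (hfin N) ?_)
  have := hrem (ψ - Pi N ψ)
  rwa [map_sub (fn b), map_sub (fn b'), fn_Pi, fn_Pi] at this

theorem interp_one {c d : ℕ → ℝ} (hc : PG c) (hd : PG d) (h : ∀ l, c l * d l = 1) (x : Sm) :
    fn c (fn d x) = x := by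
  rw [fn_fn hc hd, funext h, fn_const, one_smul]

theorem interp_two {c d e : ℕ → ℝ} (hc : PG c) (hd : PG d) (h : ∀ l, c l * d l = e l) (x : Sm) :
    fn c (fn d x) = fn e x := by
  rw [fn_fn hc hd, funext h]

theorem interp {v0 v1 w0 w1 : ℕ → ℝ} (hv0 : PW v0) (hv1 : PW v1) (hw0 : PW w0) (hw1 : PW w1)
    (T : Sm →ₗ[ℝ] Sm) {C0 C1 : ℝ} (hC0 : 0 ≤ C0) (hC1 : 0 ≤ C1)
    (h0 : ∀ φ, ‖fn v0 (T φ)‖ ≤ C0 * ‖fn w0 φ‖) (h1 : ∀ φ, ‖fn v1 (T φ)‖ ≤ C1 * ‖fn w1 φ‖)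
    (φ : Sm) : ‖fn (fun l => √(v0 l * v1 l)) (T φ)‖
      ≤ √(C0 * C1) * ‖fn (fun l => √(w0 l * w1 l)) φ‖ := by
  have p0 := interp_PW_sqrt hv0
  have p1 := interp_PW_sqrt hv1
  have q0 := interp_PW_sqrt hw0
  have q1 := interp_PW_sqrt hw1
  have hv := interp_PW_sqrt (interp_PW_mul hv0 hv1)
  have hw := interp_PW_sqrt (interp_PW_mul hw0 hw1)
  have hwi := interp_PW_inv hw
  have ha := interp_PW_mul p1 (interp_PW_inv p0)
  have ha' := interp_PW_mul p0 (interp_PW_inv p1)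
  have hb := interp_PW_mul q1 (interp_PW_inv q0)
  have hb' := interp_PW_mul q0 (interp_PW_inv q1)
  have key := interp_lim
    (fn (fun l => √(v0 l * v1 l)) ∘ₗ T ∘ₗ fn (fun l => (√(w0 l * w1 l))⁻¹)) hC0 hC1
    (interp_one ha.2.1 ha'.2.1 fun l => by
      have := p0.1 l; have := p1.1 l; field_simp)
    (interp_one hb.2.1 hb'.2.1 fun l => by
      have := q0.1 l; have := q1.1 l; field_simp)
    (fun x => by
      simp only [LinearMap.comp_apply]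
      rw [interp_two ha'.2.1 hv.2.1 (e := v0) fun l => by
          have := p1.1 l
          rw [Real.sqrt_mul (hv0.1 l).le]
          field_simp
          exact Real.sq_sqrt (hv0.1 l).le,
        interp_two hwi.2.1 hb.2.1 (e := fun l => (w0 l)⁻¹) fun l => by
          have := q0.1 l; have := q1.1 l; have := hw0.1 l
          rw [Real.sqrt_mul (hw0.1 l).le]
          field_simp
          exact (Real.sq_sqrt (hw0.1 l).le).symm]
      refine (h0 _).trans (le_of_eq ?_)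
      rw [interp_one hw0.2.1 hw0.2.2 fun l => mul_inv_cancel₀ (hw0.1 l).ne'])
    (fun x => by
      simp only [LinearMap.comp_apply]
      rw [interp_two ha.2.1 hv.2.1 (e := v1) fun l => by
          have := p0.1 l
          rw [Real.sqrt_mul (hv0.1 l).le]
          field_simp
          exact Real.sq_sqrt (hv1.1 l).le,
        interp_two hwi.2.1 hb'.2.1 (e := fun l => (w1 l)⁻¹) fun l => by
          have := q0.1 l; have := q1.1 l; have := hw1.1 l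
          rw [Real.sqrt_mul (hw0.1 l).le]
          field_simp
          exact (Real.sq_sqrt (hw1.1 l).le).symm]
      refine (h1 _).trans (le_of_eq ?_)
      rw [interp_one hw1.2.1 hw1.2.2 fun l => mul_inv_cancel₀ (hw1.1 l).ne'])
    (fn (fun l => √(w0 l * w1 l)) φ)
  simp only [LinearMap.comp_apply] at key
  rwa [interp_one hwi.2.1 hw.2.1 fun l => inv_mul_cancel₀ (hw.1 l).ne'] at key

theorem interp_wt_mid {lam : ℝ} (hl : 1 ≤ lam) (s t : ℝ) :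
    (fun l => √(wt lam s l * wt lam t l)) = wt lam ((s + t) / 2) := by
  funext l
  rw [← nrmx_wt_add hl, Real.sqrt_eq_iff_mul_self_eq (nrmx_wt_pos hl _ l).le
    (nrmx_wt_pos hl _ l).le, ← nrmx_wt_add hl, add_halves]

/-- `T` is bounded from `H^s` to `H^t` -/
def Bd (lam s t C : ℝ) (T : Sm →ₗ[ℝ] Sm) : Prop := ∀ φ, nrm lam t (T φ) ≤ C * nrm lam s φ

theorem Bd.mid {lam s0 t0 s1 t1 C : ℝ} {T : Sm →ₗ[ℝ] Sm} (hl : 1 ≤ lam) (hC : 0 ≤ C)
    (h0 : Bd lam s0 t0 C T) (h1 : Bd lam s1 t1 C T) :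
    Bd lam ((s0 + s1) / 2) ((t0 + t1) / 2) C T := by
  intro φ
  have := interp (PW_wt hl t0) (PW_wt hl t1) (PW_wt hl s0) (PW_wt hl s1) T hC hC h0 h1 φ
  rwa [interp_wt_mid hl, interp_wt_mid hl, Real.sqrt_mul_self hC] at this
theorem Bd.comp {lam s t u C C' : ℝ} {T T' : Sm →ₗ[ℝ] Sm} (hC : 0 ≤ C)
    (h : Bd lam t u C T) (h' : Bd lam s t C' T') : Bd lam s u (C * C') (T ∘ₗ T') := by
  intro φ
  rw [LinearMap.comp_apply, mul_assoc]
  exact (h _).trans (mul_le_mul_of_nonneg_left (h' φ) hC)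
theorem Bd.add {lam s t C C' : ℝ} {T T' : Sm →ₗ[ℝ] Sm}
    (h : Bd lam s t C T) (h' : Bd lam s t C' T') : Bd lam s t (C + C') (T + T') := by
  intro φ
  rw [LinearMap.add_apply, add_mul]
  exact (nrm_add_le _ _ _ _).trans (add_le_add (h φ) (h' φ))
theorem Bd.sub {lam s t C C' : ℝ} {T T' : Sm →ₗ[ℝ] Sm}
    (h : Bd lam s t C T) (h' : Bd lam s t C' T') : Bd lam s t (C + C') (T - T') := by
  intro φ
  rw [LinearMap.sub_apply, add_mul]
  exact (nrm_sub_le _ _ _ _).trans (add_le_add (h φ) (h' φ))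
theorem Bd.smul {lam s t C : ℝ} {T : Sm →ₗ[ℝ] Sm} (h : Bd lam s t C T) (r : ℝ) :
    Bd lam s t (|r| * C) (r • T) := by
  intro φ
  rw [LinearMap.smul_apply, nrm_smul, mul_assoc]
  exact mul_le_mul_of_nonneg_left (h φ) (abs_nonneg r)
theorem Bd.mono {lam s t s' t' C C' : ℝ} {T : Sm →ₗ[ℝ] Sm} (hl : 1 ≤ lam) (hC : 0 ≤ C)
    (h : Bd lam s t C T) (hs : s ≤ s') (ht : t' ≤ t) (hC' : C ≤ C') : Bd lam s' t' C' T := by
  intro φ
  exact (nrm_mono hl ht _).trans ((h φ).trans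
    (mul_le_mul hC' (nrm_mono hl hs φ) (nrm_nonneg _ _ _) (hC.trans hC')))
theorem Bd.adj {lam s t C : ℝ} {T T' : Sm →ₗ[ℝ] Sm} (hl : 1 ≤ lam) (hC : 0 ≤ C)
    (h : Bd lam s t C T) (ha : ∀ φ ψ, inner ℝ (T φ) ψ = inner ℝ φ (T' ψ)) :
    Bd lam (-t) (-s) C T' := by
  intro ψ
  refine nrm_le_of_dual hl (mul_nonneg hC (nrm_nonneg _ _ _)) fun φ => ?_
  rw [neg_neg, real_inner_comm, ← ha]
  refine (le_abs_self _).trans ((abs_inner_le_nrm hl t _ _).trans ?_)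
  calc _ ≤ C * nrm lam s φ * nrm lam (-t) ψ :=
        mul_le_mul_of_nonneg_right (h φ) (nrm_nonneg _ _ _)
    _ = _ := by ring
theorem Bd_L {lam : ℝ} (hl : 1 ≤ lam) (s : ℝ) (a : Fin 3) : Bd lam (s + 1) s 1 (L a) := by
  intro φ
  rw [one_mul]
  exact nrm_L hl s a φ
theorem Bd_id (lam s : ℝ) : Bd lam s s 1 LinearMap.id := by
  intro φ
  rw [one_mul]
  exact le_rfl

end Pool.Agent.Lib.MP_2fa2a2_gt.PI
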