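import Pool.Agent.Lib.MP_2fa2a2_gt.PI.SWkb

/-! Tools for the local structure of the approximate solution. -/

namespace Pool.Agent.Lib.MP_2fa2a2_gt.PI

open Real Filter Set
open scoped ContDiff

/-- `ψ` vanishes where `η` does not -/
def locd_Van (η ψ : Sm) : Prop := ∀ x, η x ≠ 0 → ψ x = 0

section
variable {η ψ ψ' : Sm}
theorem locd_Van.mul_eq (h : locd_Van η ψ) : η * ψ = 0 := Sm.ext fun x => by
  by_cases hx : η x = 0
  · simp [hx]
  · simp [h x hx]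
theorem locd_Van.L (h : locd_Van η ψ) (c : Fin 3) : locd_Van η (L c ψ) := fun x hx => by
  have h1 := congrArg (fun f : Sm => PI.L c f x) h.mul_eq
  simp only [L_mul, map_zero, Sm.add_apply, Sm.mul_apply, h x hx, mul_zero, zero_add,
    Sm.zero_apply] at h1
  exact (mul_eq_zero.1 h1).resolve_left hx
theorem locd_Van.add (h : locd_Van η ψ) (h' : locd_Van η ψ') : locd_Van η (ψ + ψ') :=
  fun x hx => by simp [h x hx, h' x hx]
theorem locd_Van.mul (h : locd_Van η ψ) (φ : Sm) : locd_Van η (φ * ψ) :=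
  fun x hx => by simp [h x hx]
theorem locd_Van.smul (h : locd_Van η ψ) (r : ℝ) : locd_Van η (r • ψ) :=
  fun x hx => by simp [h x hx]
theorem locd_Van.D (h : locd_Van η ψ) (c : Fin 3) : locd_Van η (D c ψ) := fun x hx => by
  rw [D_def]
  simp [h.L _ x hx]
theorem locd_Van.H (h : locd_Van η ψ) (b c : Fin 3) : locd_Van η (H b c ψ) := by
  rw [H_def]
  exact ((h.D c).add (h.mul _)).D b
theorem locd_Van.Lw (h : locd_Van η ψ) (v : List (Fin 3)) : locd_Van η (Lw v ψ) := by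
  induction v with
  | nil => exact h
  | cons a v ih => exact ih.L a
end

theorem locd_cut {a b a' b' : ℝ} (h1 : a < a') (h2 : b' < b) : ∃ ζ : ℝ → ℝ, ContDiff ℝ ∞ ζ ∧
    (∀ z, |ζ z| ≤ 1) ∧ (∀ z ∈ Icc a' b', ζ z = 1 ∧ deriv ζ z = 0) ∧ ∀ z ∉ Icc a b, ζ z = 0 := by
  have e1 : 0 < (a' - a) / 2 := by linarith
  have e2 : 0 < (b - b') / 2 := by linarith
  refine ⟨fun z => smoothTransition ((z - a) / ((a' - a) / 2)) *
    smoothTransition ((b - z) / ((b - b') / 2)), ?_, fun z => ?_, fun z hz => ?_, fun z hz => ?_⟩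
  · exact (smoothTransition.contDiff.comp (by fun_prop)).mul
      (smoothTransition.contDiff.comp (by fun_prop))
  · rw [abs_of_nonneg (mul_nonneg (smoothTransition.nonneg _) (smoothTransition.nonneg _))]
    exact mul_le_one₀ (smoothTransition.le_one _) (smoothTransition.nonneg _)
      (smoothTransition.le_one _)
  · have h : (fun z => smoothTransition ((z - a) / ((a' - a) / 2)) *
        smoothTransition ((b - z) / ((b - b') / 2))) =ᶠ[nhds z] fun _ => 1 := by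
      filter_upwards [Ioo_mem_nhds (a := (a + a') / 2) (b := (b + b') / 2) (x := z)
        (by linarith [hz.1]) (by linarith [hz.2])] with t ht
      rw [smoothTransition.one_of_one_le ((one_le_div e1).2 (by linarith [ht.1])),
        smoothTransition.one_of_one_le ((one_le_div e2).2 (by linarith [ht.2])), mul_one]
    exact ⟨h.self_of_nhds, by rw [h.deriv_eq, deriv_const]⟩
  · beta_reduce
    rcases not_and_or.1 hz with h | h
    · rw [smoothTransition.zero_of_nonpos (x := (z - a) / _)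
        (div_nonpos_of_nonpos_of_nonneg (by linarith [not_le.1 h]) e1.le), zero_mul]
    · rw [smoothTransition.zero_of_nonpos (x := (b - z) / _)
        (div_nonpos_of_nonpos_of_nonneg (by linarith [not_le.1 h]) e2.le), mul_zero]

theorem locd_smooth {φ ζ : ℝ → ℝ} {s : Set ℝ} (hs : IsClosed s) (hζ : ContDiff ℝ ∞ ζ)
    (h0 : ∀ z ∉ s, ζ z = 0) (hφ : ∀ z ∈ s, ContDiffAt ℝ ∞ φ z) :
    ContDiff ℝ ∞ fun z => φ z * ζ z := by
  refine contDiff_iff_contDiffAt.2 fun z => ?_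
  by_cases hz : z ∈ s
  · exact (hφ z hz).mul hζ.contDiffAt
  · refine (contDiffAt_const (c := 0)).congr_of_eventuallyEq ?_
    filter_upwards [hs.isOpen_compl.mem_nhds hz] with t ht
    rw [h0 t ht, mul_zero]

theorem locd_sinv {Φ : Pf} {A : ℝ} (h : Per Φ) (h0 : Mz Φ) (hA : ∀ p, |Φ p| ≤ A) (p : ℝ × ℝ) :
    |sinv Φ p| ≤ 4 * π * A := by
  obtain ⟨z, s⟩ := p
  have hA0 : 0 ≤ A := (abs_nonneg _).trans (hA 0)
  have hp : Function.Periodic (fun s => sinv Φ (z, s)) (2 * π) := fun s => (h.sinv h0).2 z s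
  obtain ⟨y, hy, e⟩ := hp.exists_mem_Ico₀ two_pi_pos s
  have hF : ∀ t ∈ Icc (0 : ℝ) (2 * π), |∫ s in (0 : ℝ)..t, Φ (z, s)| ≤ 2 * π * A := fun t ht => by
    have h1 := intervalIntegral.norm_integral_le_of_norm_le_const (a := 0) (b := t) (C := A)
      (f := fun s => Φ (z, s)) fun s _ => hA _
    rw [sub_zero, abs_of_nonneg ht.1] at h1
    exact h1.trans (by nlinarith [ht.2])
  have h2 := intervalIntegral.norm_integral_le_of_norm_le_const (a := 0) (b := 2 * π)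
    (C := 2 * π * A) (f := fun t => ∫ s in (0 : ℝ)..t, Φ (z, s)) fun t ht => by
      rw [uIoc_of_le two_pi_pos.le] at ht
      exact hF t ⟨ht.1.le, ht.2⟩
  rw [sub_zero, abs_of_pos two_pi_pos, Real.norm_eq_abs] at h2
  have e2 : sinv Φ (z, y) = (∫ s in (0 : ℝ)..y, Φ (z, s)) -
    (2 * π)⁻¹ * ∫ t in (0 : ℝ)..2 * π, ∫ s in (0 : ℝ)..t, Φ (z, s) := rfl
  have h3 : |(2 * π)⁻¹ * ∫ t in (0 : ℝ)..2 * π, ∫ s in (0 : ℝ)..t, Φ (z, s)| ≤ 2 * π * A := by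
    rw [abs_mul, abs_of_pos (inv_pos.2 two_pi_pos), inv_mul_le_iff₀ two_pi_pos]
    linarith
  rw [e, e2]
  linarith [abs_sub (∫ s in (0 : ℝ)..y, Φ (z, s))
    ((2 * π)⁻¹ * ∫ t in (0 : ℝ)..2 * π, ∫ s in (0 : ℝ)..t, Φ (z, s)), hF y ⟨hy.1, hy.2.le⟩]

theorem locd_iter {φ : ℝ → ℝ} (hφ : ContDiff ℝ ∞ φ) (i : ℕ) :
    ∀ {Φ : Pf}, Per Φ → ds^[i] (sl φ * Φ) = sl φ * ds^[i] Φ := by
  induction i with
  | zero => exact fun _ => rfl
  | succ i ih =>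
    intro Φ h
    rw [Function.iterate_succ_apply, Function.iterate_succ_apply, ds_sl_mul h hφ, ih h.ds]

theorem locd_lead {φ : ℝ → ℝ} {Ψ : Pf} {A B : ℝ} {k : ℕ} (hφ : ContDiff ℝ ∞ φ)
    (hB : ∀ z, |φ z| ≤ B) (h : Per Ψ) (h0 : Mz Ψ) (hA : ∀ i ≤ k, ∀ p, |ds^[i] Ψ p| ≤ A) :
    ∀ i ≤ k, ∀ p, |ds^[i] (sl φ * sinv Ψ) p| ≤ B * (4 * π * A) := by
  intro i hi p
  have hA0 : 0 ≤ A := (abs_nonneg _).trans (hA 0 (Nat.zero_le _) 0)
  rw [locd_iter hφ i (h.sinv h0), Pi.mul_apply, abs_mul]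
  refine mul_le_mul (hB _) ?_ (abs_nonneg _) ((abs_nonneg _).trans (hB 0))
  rcases i with _ | i
  · exact locd_sinv h h0 (hA 0 (Nat.zero_le _)) p
  · rw [Function.iterate_succ_apply, ds_sinv h]
    exact (hA i (by omega) p).trans (by nlinarith [pi_gt_three])

/-- shifted sine -/
noncomputable def locd_sc (c : ℝ) : Pf := fun p => sin (p.2 + c)

theorem locd_sc_per (c : ℝ) : Per (locd_sc c) :=
  ⟨by unfold locd_sc; fun_prop, fun z s => by
    simp only [locd_sc]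
    rw [add_right_comm, sin_add_two_pi]⟩

theorem locd_sc_ds (c : ℝ) : ds (locd_sc c) = locd_sc (c + π / 2) := by
  ext ⟨z, s⟩
  refine (hasDerivAt_ds (locd_sc_per c) z s).unique ?_
  have h := ((hasDerivAt_id s).add_const c).sin
  simp only [locd_sc, ← add_assoc, sin_add_pi_div_two]
  simpa using h

theorem locd_sc_dz (c : ℝ) : dz (locd_sc c) = 0 := by
  ext ⟨z, s⟩
  exact (hasDerivAt_dz (locd_sc_per c) z s).unique (hasDerivAt_const z (sin (s + c)))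

theorem locd_sc_iter (i : ℕ) : ∀ (c : ℝ) p, |ds^[i] (locd_sc c) p| ≤ 1 := by
  induction i with
  | zero => exact fun c p => abs_sin_le_one _
  | succ i ih =>
    intro c p
    rw [Function.iterate_succ_apply, locd_sc_ds]
    exact ih _ p

/-- first the constant is chosen large, then the frequency -/
def locd_F : Filter (ℝ × ℕ) := (atTop : Filter ℝ).curry (atTop : Filter ℕ)

theorem locd_of {P : ℝ × ℕ → Prop} (C0 : ℝ) (h : ∀ C, C0 ≤ C → ∀ᶠ m : ℕ in atTop, P (C, m)) :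
    ∀ᶠ p in locd_F, P p :=
  eventually_curry_iff.2 ((eventually_ge_atTop C0).mono h)
theorem locd_m {Q : ℕ → Prop} (h : ∀ᶠ m : ℕ in atTop, Q m) : ∀ᶠ p in locd_F, Q p.2 :=
  locd_of 0 fun _ _ => h
theorem locd_C (C0 : ℝ) : ∀ᶠ p in locd_F, C0 ≤ p.1 :=
  locd_of C0 fun _ h => Eventually.of_forall fun _ => h
theorem locd_out {P : ℝ × ℕ → Prop} (h : ∀ᶠ p in locd_F, P p) :
    ∃ C1 : ℝ, 1 ≤ C1 ∧ ∀ᶠ m : ℕ in atTop, P (C1, m) :=
  ((eventually_ge_atTop 1).and (eventually_curry_iff.1 h)).exists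
theorem locd_const (k : ℕ) (v : Sm) : ∀ᶠ p in locd_F, Cb k 1 p.1 v := by
  obtain ⟨B, -, h⟩ := exists_Cb k v
  exact (locd_C B).mono fun p hp => h.mono zero_le_one le_rfl le_rfl hp

section
variable {α β : ℝ} {F G : ℕ → Sm}
theorem locd_FO (h : FO α F) (k : ℕ) :
    ∀ᶠ p in locd_F, Cb k p.2 (p.1 * (p.2 : ℝ) ^ (-α)) (F p.2) := by
  obtain ⟨C, h⟩ := h k
  exact locd_of C fun C' hC => h.mono fun m hm => hm.mono (Nat.cast_nonneg m) le_rfl le_rfl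
    (mul_le_mul_of_nonneg_right hC (by positivity))
theorem locd_SO (h : SO α F) (k : ℕ) :
    ∀ᶠ p in locd_F, Cb k 1 (p.1 * (p.2 : ℝ) ^ (-α)) (F p.2) := by
  obtain ⟨C, h⟩ := h k
  exact locd_of C fun C' hC => h.mono fun m hm => hm.mono zero_le_one le_rfl le_rfl
    (mul_le_mul_of_nonneg_right hC (by positivity))
theorem locd_small (C : ℝ) (hα : 0 < α) {ε : ℝ} (hε : 0 < ε) :
    ∀ᶠ m : ℕ in atTop, C * (m : ℝ) ^ (-α) ≤ ε := by
  have h := ((tendsto_rpow_neg_atTop hα).comp tendsto_natCast_atTop_atTop).const_mul C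
  rw [mul_zero] at h
  exact h.eventually (eventually_le_nhds hε)
theorem locd_FO_small (h : FO α F) (hα : 0 < α) (k : ℕ) :
    ∀ᶠ m : ℕ in atTop, Cb k m 1 (F m) := by
  obtain ⟨C, h⟩ := h k
  filter_upwards [h, locd_small C hα one_pos] with m h1 h2
  exact h1.mono (Nat.cast_nonneg m) le_rfl le_rfl h2
theorem locd_SO_small (h : SO α F) (hα : 0 < α) (k : ℕ) {ε : ℝ} (hε : 0 < ε) :
    ∀ᶠ m : ℕ in atTop, Cb k 1 ε (F m) := by
  obtain ⟨C, h⟩ := h k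
  filter_upwards [h, locd_small C hα hε] with m h1 h2
  exact h1.mono zero_le_one le_rfl le_rfl h2
theorem locd_cmul (φ : Sm) (h : FO α F) : FO α (fun m => φ * F m) :=
  ((SO.const φ).FO.mul h).mono (zero_add α).ge
theorem locd_nat (h : FO α F) : FO (α - 1) (fun m => (m : ℝ) • F m) := fun k => by
  obtain ⟨C, h⟩ := h k
  refine ⟨C, ?_⟩
  filter_upwards [h, eventually_gt_atTop 0] with m h1 h2
  have h3 : (0 : ℝ) < m := Nat.cast_pos.2 h2
  refine (h1.smul m).mono h3.le le_rfl le_rfl (le_of_eq ?_)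
  rw [abs_of_pos h3, show -(α - 1) = -α + 1 by ring, rpow_add_one h3.ne']
  ring
theorem locd_odE (h : FO α F) : FO α (fun m => odE (F m)) := h.sub h.ant
theorem locd_evE (h : FO α F) : FO α (fun m => evE (F m)) := h.add h.ant
theorem locd_bd (κ : Sm) (hκ : ∀ x, 0 ≤ κ x) (h : FO α F) (h' : FO β G) :
    ∀ᶠ p in locd_F, ∀ x, |(κ * F p.2 + G p.2) x| ≤
      p.1 * (κ x * (p.2 : ℝ) ^ (-α) + (p.2 : ℝ) ^ (-β)) := by
  filter_upwards [locd_FO h 0, locd_FO h' 0] with p h1 h2 x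
  rw [Sm.add_apply, Sm.mul_apply]
  refine (abs_add_le _ _).trans ?_
  rw [abs_mul, abs_of_nonneg (hκ x)]
  linarith [mul_le_mul_of_nonneg_left (h1.abs_le x) (hκ x), h2.abs_le x]
end

theorem locd_p1 (m : ℕ) : (m : ℝ) ^ (-(1 / 2) : ℝ) = (√m)⁻¹ := by
  rw [rpow_neg (Nat.cast_nonneg m), sqrt_eq_rpow]
theorem locd_p2 (m : ℕ) : (m : ℝ) ^ (-(1 / 2 - 1) : ℝ) = √m := by
  rw [sqrt_eq_rpow]
  norm_num
theorem locd_p3 (m : ℕ) : (m : ℝ) ^ (-(1 / 2 + 1) : ℝ) = (m * √m)⁻¹ := by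
  rw [rpow_neg (Nat.cast_nonneg m), rpow_add' (Nat.cast_nonneg m) (by norm_num), rpow_one,
    sqrt_eq_rpow, mul_comm]
theorem locd_p4 (m : ℕ) : (m : ℝ) ^ (-(1 + 1) : ℝ) = ((m : ℝ) ^ 2)⁻¹ := by
  rw [rpow_neg (Nat.cast_nonneg m), one_add_one_eq_two, rpow_two]

/-- the sharp bound in a form valid for large frequencies -/
theorem locd_sharp (k : ℕ) (B : ℝ) : ∃ C : ℝ, 0 ≤ C ∧ ∀ (g : ℝ → ℝ) (Φ : Pf) (z1 z2 A : ℝ),
    ContDiff ℝ ∞ g → Per Φ → Sup z1 z2 Φ → (∀ z ∈ Icc z1 z2, B⁻¹ ≤ 1 - z ^ 2 ∧ |deriv g z| ≤ B) →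
    0 < B → (∀ i ≤ k, ∀ p, |ds^[i] Φ p| ≤ A) →
    ∀ᶠ m : ℕ in atTop, Cb k m (C * A + 1) (Wv g m Φ) := by
  obtain ⟨C, hC, h⟩ := Cb_Wv_sharp k B
  refine ⟨C, hC, fun g Φ z1 z2 A h1 h2 h3 h4 h5 h6 => ?_⟩
  obtain ⟨C1, h7⟩ := h g Φ z1 z2 A h1 h2 h3 h4 h5 h6
  filter_upwards [eventually_ge_atTop 1, locd_small C1 one_pos one_pos] with m a1 a2
  refine (h7 m a1).mono (Nat.cast_nonneg m) le_rfl le_rfl ?_
  rw [rpow_neg_one] at a2
  rw [div_eq_mul_inv]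
  linarith

theorem locd_mono {k k' : ℕ} {C0 τ C1 : ℝ} {m : ℕ} {d : LD} (h : Loc k C0 τ C1 m d)
    (hk : k' ≤ k) : Loc k' C0 τ C1 m d :=
  have h1 : ∀ {B : ℝ} {v : Sm}, Cb k 1 B v → Cb k' 1 B v :=
    fun h => h.mono zero_le_one hk le_rfl le_rfl
  have h2 : ∀ {B : ℝ} {v : Sm}, Cb k m B v → Cb k' m B v :=
    fun h => h.mono (Nat.cast_nonneg m) hk le_rfl le_rfl
  { h with
    κ_Cb := h1 h.κ_Cb, a_Cb := h1 h.a_Cb, G_Cb := h1 h.G_Cb, w2_Cb := h2 h.w2_Cb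
    w2_Cb' := h2 h.w2_Cb', w1_Cb := h2 h.w1_Cb, w0_Cb := h2 h.w0_Cb, w3_Cb := h2 h.w3_Cb
    w4_Cb := h2 h.w4_Cb, al_Cb := h1 h.al_Cb, be_Cb := h1 h.be_Cb, om_Cb := h1 h.om_Cb
    sn_Cb := h2 h.sn_Cb, cs_Cb := h2 h.cs_Cb, R_Cb := fun c => h2 (h.R_Cb c)
    R_off := fun v c hv => h.R_off v c (hv.trans hk) }

end Pool.Agent.Lib.MP_2fa2a2_gt.PI
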