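import Pool.Agent.Lib.MP_2fa2a2_gt.PI.LocDX

/-! Derivatives of waves on the band; the mean over great circles of the even wave. -/

namespace Pool.Agent.Lib.MP_2fa2a2_gt.PI

open Real Filter Set
open scoped ContDiff

theorem locd_qD {g : ℝ → ℝ} {Φ : Pf} (m : ℕ) (h : Adm g Φ) (c : Fin 3) (x : S2) :
    qq x * D c (Wv g m Φ) x = D c (X 2) x * (qq x * (Wv g m (dz Φ) x
      + m * (deriv g ((x : E3) 2) * Wv g m (ds Φ) x))) + L 2 (X c) x * (m * Wv g m (ds Φ) x) := by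
  have h1 := congrArg (fun f : Sm => f x) (qq_D c (Wv g m Φ))
  rw [D2_Wv m h, L2_Wv m h, Wv_sl_mul m h.ds (zon_deriv h.1)] at h1
  simpa only [Sm.mul_apply, Sm.add_apply, Sm.smul_apply, Zf_apply (zon_deriv h.1)] using h1

/-- geometry of the band -/
structure locd_Band (g om : ℝ → ℝ) (y1 y2 : ℝ) (al be : Sm) : Prop where
  hg : ContDiff ℝ ∞ g
  hom : ContDiff ℝ ∞ om
  pos : 0 < y1
  lt : y2 < 1
  hal : ∀ x : S2, (x : E3) 2 ∈ Icc y1 y2 → deriv g ((x : E3) 2) = om ((x : E3) 2) * al x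
  hbe : ∀ x : S2, (x : E3) 2 ∈ Icc y1 y2 → om ((x : E3) 2) * be x * qq x = 1

/-- direction of the wave -/
noncomputable def locd_w (al be : Sm) (c : Fin 3) : Sm := al * D c (X 2) + be * L 2 (X c)
/-- derivative along the direction of the wave -/
noncomputable def locd_T (om : ℝ → ℝ) (Φ : Pf) : Pf := sl om * ds Φ

namespace locd_Band
variable {g om : ℝ → ℝ} {y1 y2 : ℝ} {al be : Sm} (B : locd_Band g om y1 y2 al be)
include B

theorem adm {Φ : Pf} (h : Per Φ) (hs : Sup y1 y2 Φ) : Adm g Φ :=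
  ⟨B.hg, h, y1, y2, by linarith [B.pos], B.lt, hs⟩

theorem pt {Φ : Pf} (m : ℕ) (h : Adm g Φ) (x : S2) (hx : (x : E3) 2 ∈ Icc y1 y2) (c : Fin 3) :
    D c (Wv g m Φ) x = D c (X 2) x * Wv g m (dz Φ) x
      + m * (locd_w al be c x * Wv g m (locd_T om Φ) x) := by
  have h1 := locd_qD m h c x
  have h2 := B.hbe x hx
  rw [B.hal x hx] at h1
  rw [locd_T, Wv_sl_mul m h.ds B.hom]
  simp only [locd_w, Sm.mul_apply, Sm.add_apply, Zf_apply B.hom]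
  have h3 : qq x ≠ 0 := right_ne_zero_of_mul_eq_one h2
  refine mul_left_cancel₀ h3 ?_
  linear_combination h1 - L 2 (X c) x * (m * Wv g m (ds Φ) x) * h2

theorem perT {Φ : Pf} (h : Per Φ) : Per (locd_T om Φ) := (Per_sl B.hom).mul h.ds

omit B in
theorem supT {Φ : Pf} (h : Sup y1 y2 Φ) : Sup y1 y2 (locd_T om Φ) := fun z s hz => by
  rw [locd_T, Pi.mul_apply, h.ds z s hz, mul_zero]

theorem pfT {Φ : ℕ → Pf} {α : ℝ} (h : PF y1 y2 α Φ) : PF y1 y2 α (fun m => locd_T om (Φ m)) :=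
  h.ds.per_mul (Per_sl B.hom)

theorem fo {Φ : ℕ → Pf} {α : ℝ} (h : PF y1 y2 α Φ) : FO α (fun m => Wv g m (Φ m)) :=
  h.FO B.hg (by linarith [B.pos]) B.lt

theorem off {Φ : Pf} (m : ℕ) (h : Per Φ) (hs : Sup y1 y2 Φ) (x : S2)
    (hx : (x : E3) 2 ∉ Icc y1 y2) : Wv g m Φ x = 0 := by
  rw [Wv_apply m (B.adm h hs), hs _ _ hx]

theorem glob {Φ : Pf} (m : ℕ) (h : Per Φ) (hs : Sup y1 y2 Φ) (c : Fin 3) :
    D c (Wv g m Φ) = D c (X 2) * Wv g m (dz Φ)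
      + (m : ℝ) • (locd_w al be c * Wv g m (locd_T om Φ)) := by
  refine zon_cancel (Sm.ext fun x => ?_)
  by_cases hx : (x : E3) 2 ∈ Icc y1 y2
  · rw [Sm.mul_apply, B.pt m (B.adm h hs) x hx]
    rfl
  · rw [Sm.mul_apply, locd_qD m (B.adm h hs)]
    simp [B.off m h.dz hs.dz x hx, B.off m h.ds hs.ds x hx, B.off m (B.perT h) (supT hs) x hx]

theorem south {Φ : Pf} (m : ℕ) (h : Per Φ) (hs : Sup y1 y2 Φ) (x : S2) (hx : 0 ≤ X 2 x) :
    (∀ c, D c (ant (Wv g m Φ)) x = 0) ∧ ∀ b c, H b c (ant (Wv g m Φ)) x = 0 := by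
  have hsm : ContDiff ℝ ∞ fun z => expNegInvGlue (z + y1) :=
    expNegInvGlue.contDiff.comp (by fun_prop)
  have hv : locd_Van (Zf fun z => expNegInvGlue (z + y1)) (ant (Wv g m Φ)) := fun y hy => by
    rw [Zf_apply hsm, Ne, expNegInvGlue.zero_iff_nonpos, not_le] at hy
    rw [ant_apply]
    refine B.off m h hs _ fun h => ?_
    have := h.1
    simp only [neg_coe, PiLp.neg_apply] at this
    linarith
  have h0 : (Zf fun z => expNegInvGlue (z + y1)) x ≠ 0 := by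
    rw [Zf_apply hsm, Ne, expNegInvGlue.zero_iff_nonpos, not_le]
    exact add_pos_of_nonneg_of_pos hx B.pos
  exact ⟨fun c => hv.D c x h0, fun b c => hv.H b c x h0⟩

/-- multiplication by the symmetrised amplitude -/
theorem kb {κ : ℝ → ℝ} (hκ : ContDiff ℝ ∞ κ) (h0 : ∀ z ∉ Icc y1 y2, κ z = 0) {Φ : Pf} {u1 u2 : ℝ}
    (m : ℕ) (h : Per Φ) (hs : Sup u1 u2 Φ) (h1 : 0 < u1) (h2 : u2 < 1) :
    (Zf κ + ant (Zf κ)) * odE (Wv g m Φ) = odE (Wv g m (sl κ * Φ)) ∧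
    (Zf κ + ant (Zf κ)) * evE (Wv g m Φ) = evE (Wv g m (sl κ * Φ)) := by
  have ha : Adm g Φ := ⟨B.hg, h, u1, u2, by linarith, h2, hs⟩
  have e : Zf κ * ant (Wv g m Φ) = 0 := Sm.ext fun x => by
    rw [Sm.mul_apply, Zf_apply hκ, ant_apply, Wv_apply m ha]
    by_cases hx : (x : E3) 2 ∈ Icc y1 y2
    · rw [hs _ _ fun h => ?_, mul_zero, Sm.zero_apply]
      have := h.1
      simp only [neg_coe, PiLp.neg_apply] at this
      linarith [hx.1, B.pos]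
    · rw [h0 _ hx, zero_mul, Sm.zero_apply]
  have e' := congrArg ant e
  rw [map_mul, ant_ant, map_zero] at e'
  rw [Wv_sl_mul m ha hκ, odE, odE, evE, evE, map_mul]
  exact ⟨by linear_combination e' - e, by linear_combination e' + e⟩

theorem split {κ : ℝ → ℝ} (hκ : ContDiff ℝ ∞ κ) {Φ0 Φ1 Φ2 : Pf} (h0 : Per Φ0) (h1 : Per Φ1)
    (h2 : Per Φ2) : locd_T om (Φ0 + sl κ * Φ1 + Φ2)
      = locd_T om Φ0 + sl κ * locd_T om Φ1 + locd_T om Φ2 := by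
  have h3 := (Per_sl hκ).mul h1
  have _ := B
  simp only [locd_T]
  rw [ds_add (h0.add h3) h2, ds_add h0 h3, ds_sl_mul h1 hκ]
  ring

theorem wsplit {κ : ℝ → ℝ} (hκ : ContDiff ℝ ∞ κ) {Φ0 Φ1 Φ2 : Pf} (m : ℕ) (h0 : Adm g Φ0)
    (h1 : Adm g Φ1) (h2 : Adm g Φ2) : Wv g m (Φ0 + sl κ * Φ1 + Φ2)
      = Wv g m Φ0 + Zf κ * Wv g m Φ1 + Wv g m Φ2 := by
  have h3 := h1.per_mul (Per_sl hκ)
  have _ := B
  rw [Wv_add m (h0.add h3) h2, Wv_add m h0 h3, Wv_sl_mul m h1 hκ]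

/-- gradient and Hessian of a wave with a leading profile -/
theorem fam {κ : ℝ → ℝ} (hκ : ContDiff ℝ ∞ κ) (hκ0 : ∀ z, 0 ≤ κ z) {Φ0 : Pf} {Φ1 Φ2 Φ : ℕ → Pf}
    (h0 : Per Φ0) (s0 : Sup y1 y2 Φ0) (h1 : PF y1 y2 (1 / 2) Φ1) (h2 : PF y1 y2 1 Φ2)
    (h : PF y1 y2 0 Φ) (e : ∀ m, Φ m = Φ0 + sl κ * Φ1 m + Φ2 m) {S : ℕ → Sm} (hS : SO 0 S) :
    ∀ᶠ p in locd_F, ∀ x,
      (∀ c, |D c (((p.2 : ℝ)⁻¹) • Wv g p.2 (Φ p.2)) x
        - Wv g p.2 (locd_T om Φ0) x * locd_w al be c x| ≤ p.1 * (Zf κ x / √p.2 + 1 / p.2)) ∧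
      ∀ b c, |H b c (S p.2 + ((p.2 : ℝ)⁻¹) • Wv g p.2 (Φ p.2)) x
        - p.2 * Wv g p.2 (locd_T om (locd_T om Φ0)) x * locd_w al be b x * locd_w al be c x|
        ≤ p.1 * (√p.2 * Zf κ x + 1) := by
  have hk : ∀ x, 0 ≤ Zf κ x := fun x => by rw [Zf_apply hκ]; exact hκ0 _
  have t1 := B.pfT h1
  have t2 := B.pfT h2
  have t := B.pfT h
  have eT : ∀ m, locd_T om (Φ m) = locd_T om Φ0 + sl κ * locd_T om (Φ1 m) + locd_T om (Φ2 m) :=
    fun m => by rw [e, B.split hκ h0 (h1.1 m).1 (h2.1 m).1]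
  have a0 := B.adm (B.perT h0) (supT s0)
  have a00 := B.adm (B.perT (B.perT h0)) (supT (supT s0))
  have ad : ∀ {α : ℝ} {Ψ : ℕ → Pf}, PF y1 y2 α Ψ → ∀ m, Adm g (Ψ m) :=
    fun h m => B.adm (h.1 m).1 (h.1 m).2
  have eD : ∀ m : ℕ, m ≠ 0 → ∀ c, D c (((m : ℝ)⁻¹) • Wv g m (Φ m))
      = ((m : ℝ)⁻¹) • (D c (X 2) * Wv g m (dz (Φ m)))
        + locd_w al be c * Wv g m (locd_T om (Φ m)) := fun m hm c => by
    rw [map_smul, B.glob m (h.1 m).1 (h.1 m).2, smul_add, inv_smul_smul₀ (Nat.cast_ne_zero.2 hm)]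
  have f0 : ∀ c, FO 1 fun m => ((m : ℝ)⁻¹) • (D c (X 2) * Wv g m (dz (Φ m))) := fun c =>
    (locd_cmul _ (B.fo h.dz)).inv.mono (by norm_num)
  have f1 : FO 1 fun m => ((m : ℝ)⁻¹) • Wv g m (Φ m) := (B.fo h).inv.mono (by norm_num)
  have g1 := eventually_all.2 fun c => locd_bd (Zf κ) hk
    (locd_cmul (locd_w al be c) (B.fo t1)) ((f0 c).add (locd_cmul (locd_w al be c) (B.fo t2)))
  have g2 := eventually_all.2 fun b => eventually_all.2 fun c => locd_bd (Zf κ) hk (β := 0)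
    (locd_nat (locd_cmul (locd_w al be b * locd_w al be c) (B.fo (B.pfT t1))))
    ((((((((f0 c).D b).mono (by norm_num)).add (locd_cmul (D b (locd_w al be c)) (B.fo t))).add
      (locd_cmul (locd_w al be c * D b (X 2)) (B.fo t.dz))).add
      ((locd_nat (locd_cmul (locd_w al be b * locd_w al be c) (B.fo (B.pfT t2)))).mono
        (by norm_num))).add ((locd_cmul (X c) (f1.D b)).mono (by norm_num))).add
      ((locd_cmul (kd b c - X b * X c) f1).mono (by norm_num)) |>.add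
      (((hS.D c).add (((SO.const (X c)).mul hS).mono (by norm_num))).D b).FO)
  filter_upwards [g1, g2, locd_m (eventually_ne_atTop 0)] with p g1 g2 hm x
  refine ⟨fun c => ?_, fun b c => ?_⟩
  · have := g1 c x
    rw [locd_p1, rpow_neg_one] at this
    rw [eD _ hm, eT, B.wsplit hκ _ a0 (ad t1 _) (ad t2 _), div_eq_mul_inv, one_div]
    refine le_of_eq_of_le (congrArg _ ?_) this
    simp only [Sm.add_apply, Sm.mul_apply]
    ring
  · have := g2 b c x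
    rw [locd_p2, neg_zero, rpow_zero, mul_comm (Zf κ x)] at this
    refine le_of_eq_of_le (congrArg _ ?_) this
    have e1 : D b (locd_w al be c * Wv g p.2 (locd_T om (Φ p.2))) = _ := D_mul _ _ _
    have e2 := congrArg (locd_T om) (eT p.2)
    rw [B.split hκ (B.perT h0) (t1.1 _).1 (t2.1 _).1] at e2
    rw [B.glob _ (t.1 _).1 (t.1 _).2, e2,
      B.wsplit hκ _ a00 (ad (B.pfT t1) _) (ad (B.pfT t2) _)] at e1
    rw [map_add, H_def b c (S p.2), hess_expand, eD _ hm c, map_add (D b) (_ • _), e1]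
    simp only [Sm.add_apply, Sm.mul_apply, Sm.smul_apply]
    ring

end locd_Band

/-- structure of the mean over great circles of an even wave -/
theorem locd_R {w : WG} (hw : w.Ok) {Θ : ℝ → ℝ} (hΘ : ContDiff ℝ ∞ Θ) (hS : SP w Θ) {z1 z2 : ℝ}
    {e : ℕ → Pf} (h1 : w.zl < z1) (h2 : z2 < w.zr) (he : PF z1 z2 0 e) (h0 : ∀ m, Mz (e m)) :
    ∃ W N : ℕ → Sm, FO (1 / 2 + 1) W ∧ Ng N ∧
      (∀ m : ℕ, R (((m : ℝ)⁻¹) • evE (Wv w.g m (e m))) = W m + N m) ∧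
      ∀ m (x : S2), |(x : E3) 2| ≤ w.τ → W m x = 0 := by
  obtain ⟨u1, a1, a2⟩ := exists_between h1
  obtain ⟨u2, b1, b2⟩ := exists_between h2
  obtain ⟨Ψ0, -, p0, -, -, -, hN, -⟩ := hS z1 z2 u1 u2 0 e a1 a2 b1 b2 he h0
  have hτ := hw.τ_pos
  have hτ2 := hw.τ2_pos
  have hl := hw.zl_pos
  have hr := hw.zr_lt
  have hsm := hw.small
  have hk : ∀ z ∈ Icc z1 z2, ContDiffAt ℝ ∞ w.k0 z := fun z hz => by
    have c1 : 0 < z := by linarith [hz.1]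
    have c2 : z < w.zr := by linarith [hz.2]
    have c3 : w.Γ z ^ 2 ≤ (w.τ + w.τ2) ^ 2 :=
      pow_le_pow_left₀ (by unfold WG.Γ; positivity) (by unfold WG.Γ; nlinarith) 2
    have c4 : 0 < 1 - z ^ 2 - w.Γ z ^ 2 := by nlinarith
    unfold WG.k0
    refine (ContDiffAt.rpow_const_of_ne (f := fun z => 1 - z ^ 2 - w.Γ z ^ 2) ?_
      c4.ne').div_const _
    unfold WG.Γ
    fun_prop
  have p1 : PF u1 u2 (1 / 2) fun m => sl w.k0 * JG m (e m) + Ψ0 m :=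
    (((he.JG h0).sl_mul hk).mono a2.le b1.le (by norm_num)).add
      (p0.mono le_rfl le_rfl (by norm_num))
  have p2 := p1.affine (a := w.τ) hτ2
  have c5 : w.τ + w.τ2 ≤ 1 / 2 := by nlinarith
  have c6 : w.τ < w.τ + w.τ2 * u1 := by nlinarith
  have c7 : w.τ + w.τ2 * u2 < 1 := by nlinarith
  have c8 : -1 < w.τ + w.τ2 * u1 := by linarith
  refine ⟨fun m => ((m : ℝ)⁻¹) • (2 : ℝ) • evE (w.Wo Θ m (sl w.k0 * JG m (e m) + Ψ0 m)),
    fun m => ((m : ℝ)⁻¹) • (2 : ℝ) • (R (Wv w.g m (e m))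
      - evE (w.Wo Θ m (sl w.k0 * JG m (e m) + Ψ0 m))),
    ((locd_evE (p2.FO hΘ c8 c7)).smul 2).inv, fun N => (((hN N).smul 2).inv).mono (by linarith),
    fun m => ?_, fun m x hx => ?_⟩
  · have h3 := R_of_Od (odE_mem (Wv w.g m (e m)))
    rw [odE, map_sub, sub_eq_zero] at h3
    rw [map_smul, ← smul_add, ← smul_add, add_sub_cancel, evE, map_add, ← h3, two_smul]
  · have h3 : ∀ y : S2, (y : E3) 2 ≤ w.τ → w.Wo Θ m (sl w.k0 * JG m (e m) + Ψ0 m) y = 0 :=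
      fun y hy => by
        rw [WG.Wo, Wv_apply m (p2.adm hΘ c8 c7 m)]
        exact (p2.1 m).2 _ _ fun h => by linarith [h.1]
    have h4 := abs_le.1 hx
    simp only [Sm.smul_apply, evE, Sm.add_apply, ant_apply]
    rw [h3 x h4.2, h3 (neg x) (by simp only [neg_coe, PiLp.neg_apply]; linarith [h4.1])]
    simp

/-- the cut-off near the equator -/
theorem locd_ze {τ : ℝ} (hτ : 0 < τ) : ∃ ze η : Sm, 1 - X 2 * X 2 * ze = η ∧
    ∀ x : S2, η x ≠ 0 → |(x : E3) 2| ≤ τ := by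
  obtain ⟨η, h1, -, h2, h3⟩ := locd_cut (a := -τ) (a' := -(τ / 2)) (b' := τ / 2) (b := τ)
    (by linarith) (by linarith)
  have h4 : ContDiff ℝ ∞ fun z : ℝ => (z ^ 2)⁻¹ * (1 - η z) := by
    refine locd_smooth (s := (Ioo (-(τ / 2)) (τ / 2))ᶜ) isOpen_Ioo.isClosed_compl
      (contDiff_const.sub h1) (fun z hz => ?_) fun z hz => ?_
    · rw [(h2 z (Ioo_subset_Icc_self (not_not.1 hz))).1, sub_self]
    · refine (contDiffAt_id.pow 2).inv (pow_ne_zero 2 fun h => hz ?_)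
      obtain rfl : z = 0 := h
      constructor <;> linarith
  refine ⟨Zf fun z : ℝ => (z ^ 2)⁻¹ * (1 - η z), Zf η, Sm.ext fun x => ?_, fun x hx => ?_⟩
  · simp only [Sm.sub_apply, Sm.mul_apply, Sm.one_apply, X_apply, Zf_apply h4, Zf_apply h1]
    by_cases hz : (x : E3) 2 = 0
    · rw [hz, (h2 0 ⟨by linarith, by linarith⟩).1]
      simp
    · field_simp
      ring
  · rw [Zf_apply h1] at hx
    exact abs_le.2 (not_not.1 fun h => hx (h3 _ h))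

/-- the bounds on the mean over great circles -/
theorem locd_R_bd {τ : ℝ} (hτ : 0 < τ) (k : ℕ) {W N F : ℕ → Sm} (hW : FO (1 / 2 + 1) W)
    (hN : Ng N) (e : ∀ m, F m = W m + N m) (h0 : ∀ m (x : S2), |(x : E3) 2| ≤ τ → W m x = 0) :
    ∃ ze : Sm, ∀ᶠ p in locd_F, (∀ c, Cb k p.2 (p.1 / √p.2) (L c (F p.2))) ∧
      ∀ (v : List (Fin 3)) c, v.length + 1 ≤ k → Cb 1 p.2 (p.1 * (p.2 : ℝ) ^ v.length / p.2 ^ 2)
        ((1 - X 2 * X 2 * ze) * Lw v (L c (F p.2))) := by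
  obtain ⟨ze, η, e1, e2⟩ := locd_ze hτ
  obtain ⟨A, hA, hη⟩ := exists_Cb 1 η
  obtain ⟨C, hC⟩ := hN (1 + 1) (k + 1)
  have g1 := eventually_all.2 fun c => locd_FO (α := 1 / 2)
    (((hW.add (hN _).FO).L c).mono (by norm_num)) k
  refine ⟨ze, ?_⟩
  filter_upwards [g1, locd_m hC, locd_C (2 ^ 1 * A * C), locd_m (eventually_ge_atTop 1)]
    with p g1 g2 g3 g4
  have hm : (1 : ℝ) ≤ p.2 := Nat.one_le_cast.2 g4
  refine ⟨fun c => ?_, fun v c hv => ?_⟩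
  · rw [e, div_eq_mul_inv, ← locd_p1]
    exact g1 c
  · have hv0 : locd_Van η (W p.2) := fun x hx => h0 _ x (e2 x hx)
    rw [e1, e, map_add, map_add, mul_add, ((hv0.L c).Lw v).mul_eq, zero_add]
    have h1 := Cb.Lw (k := 1) v ((g2.mono zero_le_one (k' := 1 + v.length + 1) (by omega) le_rfl
      le_rfl).L c)
    refine (Cb.mul zero_le_one hη h1).mono zero_le_one le_rfl hm ?_
    have h2 := g2.nonneg
    rw [locd_p4] at h2 ⊢
    have h3 : (0 : ℝ) < ((p.2 : ℝ) ^ 2)⁻¹ := by positivity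
    have h4 : 0 ≤ C := nonneg_of_mul_nonneg_left h2 h3
    have h5 : (1 : ℝ) ≤ (p.2 : ℝ) ^ v.length := one_le_pow₀ hm
    have h6 : 0 ≤ p.1 := le_trans (by positivity) g3
    rw [one_pow, mul_one, mul_one, ← mul_assoc, div_eq_mul_inv]
    exact mul_le_mul_of_nonneg_right (g3.trans (le_mul_of_one_le_right h6 h5)) h3.le

end Pool.Agent.Lib.MP_2fa2a2_gt.PI
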