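import Pool.Agent.Lib.MP_2fa2a2_gt.PI.Interp

/-! Multiplication operators on Sobolev spaces; calculus of `Cb`. -/

namespace Pool.Agent.Lib.MP_2fa2a2_gt.PI

open scoped ContDiff

/-- multiplication operator -/
noncomputable abbrev ml (v : Sm) : Sm →ₗ[ℝ] Sm := LinearMap.mulLeft ℝ v

section
variable {k : ℕ} {lam B B' : ℝ} {u v : Sm}
theorem mulx_abs (h : Cb k lam B v) (x : S2) : |v x| ≤ B := by
  simpa using h [] (Nat.zero_le _) x
theorem Cb.nonneg (h : Cb k lam B v) : 0 ≤ B := (abs_nonneg _).trans (mulx_abs h (nrmz 0))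
theorem Cb.abs_le (h : Cb k lam B v) (x : S2) : |v x| ≤ B := mulx_abs h x
theorem Cb.mono {k' : ℕ} {lam' : ℝ} (h : Cb k lam B v) (hl : 0 ≤ lam) (hk : k' ≤ k)
    (hl' : lam ≤ lam') (hB : B ≤ B') : Cb k' lam' B' v := fun w hw x =>
  (h w (hw.trans hk) x).trans (mul_le_mul hB (pow_le_pow_left₀ hl hl' _) (pow_nonneg hl _)
    (h.nonneg.trans hB))
theorem Cb.add (h : Cb k lam B u) (h' : Cb k lam B' v) : Cb k lam (B + B') (u + v) :=
  fun w hw x => by
    rw [map_add, Sm.add_apply, add_mul]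
    exact (abs_add_le _ _).trans (add_le_add (h w hw x) (h' w hw x))
theorem Cb.sub (h : Cb k lam B u) (h' : Cb k lam B' v) : Cb k lam (B + B') (u - v) :=
  fun w hw x => by
    rw [map_sub, Sm.sub_apply, add_mul]
    exact (abs_sub _ _).trans (add_le_add (h w hw x) (h' w hw x))
theorem Cb.smul (h : Cb k lam B v) (r : ℝ) : Cb k lam (|r| * B) (r • v) := fun w hw x => by
  rw [map_smul, Sm.smul_apply, abs_mul, mul_assoc]
  exact mul_le_mul_of_nonneg_left (h w hw x) (abs_nonneg r)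
theorem Cb.sum {ι : Type*} (t : Finset ι) {w : ι → Sm} {C : ι → ℝ}
    (h : ∀ i ∈ t, Cb k lam (C i) (w i)) : Cb k lam (∑ i ∈ t, C i) (∑ i ∈ t, w i) :=
  fun l hl x => by
    rw [map_sum, Sm.sum_apply, Finset.sum_mul]
    exact (Finset.abs_sum_le_sum_abs _ _).trans (Finset.sum_le_sum fun i hi => h i hi l hl x)
theorem mulx_L (h : Cb (k + 1) lam B v) (a : Fin 3) : Cb k lam (B * lam) (L a v) :=
  fun w hw x => by
    have h1 := h (w ++ [a]) (by simpa using hw) x
    rw [Lw_append, List.length_append, List.length_singleton, pow_succ'] at h1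
    rw [mul_assoc]
    exact h1
theorem mulx_succ (h0 : ∀ x, |v x| ≤ B) (h : ∀ a, Cb k lam (B * lam) (L a v)) :
    Cb (k + 1) lam B v := fun w hw x => by
  rcases List.eq_nil_or_concat w with rfl | ⟨w', a, rfl⟩
  · simpa using h0 x
  · have h1 := h a w' (by simpa using hw) x
    rw [List.concat_eq_append, Lw_append, List.length_append, List.length_singleton, pow_succ',
      ← mul_assoc]
    exact h1
theorem Cb.mul (hl : 0 ≤ lam) (h : Cb k lam B u) (h' : Cb k lam B' v) :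
    Cb k lam (2 ^ k * B * B') (u * v) := by
  induction k generalizing B B' u v with
  | zero =>
    intro w hw x
    obtain rfl : w = [] := List.length_eq_zero_iff.1 (Nat.le_zero.1 hw)
    simp only [Lw_nil, Sm.mul_apply, abs_mul, pow_zero, one_mul, List.length_nil, mul_one]
    exact mul_le_mul (h.abs_le x) (h'.abs_le x) (abs_nonneg _) h.nonneg
  | succ k ih =>
    refine mulx_succ (fun x => ?_) fun a => ?_
    · rw [Sm.mul_apply, abs_mul, mul_assoc]
      exact (mul_le_mul (h.abs_le x) (h'.abs_le x) (abs_nonneg _) h.nonneg).trans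
        (le_mul_of_one_le_left (mul_nonneg h.nonneg h'.nonneg) (one_le_pow₀ one_le_two))
    · rw [L_mul]
      have h1 := (ih (mulx_L h a) (h'.mono hl (Nat.le_succ k) le_rfl le_rfl)).add
        (ih (h.mono hl (Nat.le_succ k) le_rfl le_rfl) (mulx_L h' a))
      convert h1 using 1
      ring
theorem Cb.L (h : Cb (k + 1) lam B v) (a : Fin 3) : Cb k lam (B * lam) (L a v) := mulx_L h a
theorem Cb.Lw (w : List (Fin 3)) (h : Cb (k + w.length) lam B v) :
    Cb k lam (B * lam ^ w.length) (Lw w v) := fun l hl x => by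
  have h1 := h (l ++ w) (by simpa using hl) x
  rw [Lw_append, List.length_append, pow_add, mul_comm (lam ^ l.length), ← mul_assoc] at h1
  exact h1
theorem mulx_X (hl : 1 ≤ lam) (k : ℕ) : ∀ a : Fin 3, Cb k lam 1 (X a) := by
  induction k with
  | zero =>
    intro a w hw x
    obtain rfl : w = [] := List.length_eq_zero_iff.1 (Nat.le_zero.1 hw)
    simpa using abs_X_le a x
  | succ k ih =>
    intro a
    have hp : ∀ c, Cb k lam (1 * lam) (X c) := fun c =>
      (ih c).mono (zero_le_one.trans hl) le_rfl le_rfl (by linarith)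
    have hn : ∀ c, Cb k lam (1 * lam) (-X c) := fun c => by
      simpa using (hp c).smul (-1)
    have hz : Cb k lam (1 * lam) 0 := fun w _ x => by
      rw [map_zero, Sm.zero_apply, abs_zero]
      have : 0 ≤ lam := zero_le_one.trans hl
      positivity
    refine mulx_succ (abs_X_le a) fun b => ?_
    rcases alg_fin a with rfl | rfl | rfl <;> rcases alg_fin b with rfl | rfl | rfl <;>
      simp only [L_X_self, alg_01, alg_02, alg_12, alg_10, alg_20, alg_21, hp, hn, hz]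
theorem Cb.D (hl : 1 ≤ lam) (h : Cb (k + 1) lam B v) (a : Fin 3) :
    Cb k lam (2 ^ (k + 1) * B * lam) (D a v) := by
  have h0 : 0 ≤ lam := zero_le_one.trans hl
  have h1 := (Cb.mul h0 (mulx_X hl k (a + 2)) (mulx_L h (a + 1))).sub
    (Cb.mul h0 (mulx_X hl k (a + 1)) (mulx_L h (a + 2)))
  rw [D_def]
  convert h1 using 1
  ring
theorem Cb_X (hl : 1 ≤ lam) (k : ℕ) (a : Fin 3) : Cb k lam 1 (X a) := mulx_X hl k a
theorem Cb_const (hl : 0 ≤ lam) (k : ℕ) (r : ℝ) : Cb k lam |r| (algebraMap ℝ Sm r) :=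
  fun w _ x => by
    rcases List.eq_nil_or_concat w with rfl | ⟨w', a, rfl⟩
    · simp
    · rw [List.concat_eq_append, Lw_append, Lw_cons, Lw_nil, L_algebraMap, map_zero,
        Sm.zero_apply, abs_zero]
      positivity
theorem Cb_of_succ (h0 : ∀ x, |v x| ≤ B) (h : ∀ a, Cb k lam (B * lam) (PI.L a v)) :
    Cb (k + 1) lam B v := mulx_succ h0 h
end

theorem mulx_nat (j : ℕ) : ∀ {lam B : ℝ} {v : Sm}, 1 ≤ lam → Cb j lam B v →
    Bd lam j j (4 ^ j * B) (ml v) := by
  induction j with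
  | zero =>
    intro lam B v hl h φ
    simpa [nrm_zero hl] using norm_mul_le h.abs_le φ
  | succ j ih =>
    intro lam B v hl h φ
    have h0 : 0 ≤ lam := zero_le_one.trans hl
    have hB := h.nonneg
    have hj : Cb j lam B v := h.mono h0 (Nat.le_succ j) le_rfl le_rfl
    push_cast
    set N := nrm lam (j + 1) φ with hN
    have hN0 : 0 ≤ N := nrm_nonneg _ _ _
    have a1 : lam * nrm lam j φ ≤ N := by
      refine nrmx_sq ?_ hN0
      rw [hN, nrm_succ hl, mul_pow]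
      exact le_add_of_nonneg_right (Finset.sum_nonneg fun _ _ => sq_nonneg _)
    have hM : 0 ≤ 4 ^ j * B := by positivity
    set M := 4 ^ j * B with hMd
    have a2 : lam * nrm lam j (v * φ) ≤ M * N := by
      have := ih hl hj φ
      calc lam * nrm lam j (v * φ) ≤ lam * (M * nrm lam j φ) := mul_le_mul_of_nonneg_left this h0
        _ = M * (lam * nrm lam j φ) := by ring
        _ ≤ M * N := mul_le_mul_of_nonneg_left a1 hM
    have a3 : ∀ a, nrm lam j (L a (v * φ)) ≤ 2 * (M * N) := fun a => by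
      rw [L_mul]
      have b1 : nrm lam j (L a v * φ) ≤ 4 ^ j * (B * lam) * nrm lam j φ := ih hl (h.L a) φ
      have b2 : nrm lam j (v * L a φ) ≤ M * nrm lam j (L a φ) := ih hl hj (L a φ)
      have b3 := mul_le_mul_of_nonneg_left (nrm_L hl j a φ) hM
      have b4 := mul_le_mul_of_nonneg_left a1 hM
      have b5 : 4 ^ j * (B * lam) * nrm lam j φ = M * (lam * nrm lam j φ) := by
        rw [hMd]; ring
      linarith [nrm_add_le lam j (L a v * φ) (v * L a φ)]
    refine nrmx_sq ?_ (by positivity)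
    rw [LinearMap.mulLeft_apply, nrm_succ hl, Fin.sum_univ_three, ← mul_pow,
      show 4 ^ (j + 1) * B * N = 4 * (M * N) by rw [hMd]; ring]
    have c0 := pow_le_pow_left₀ (mul_nonneg h0 (nrm_nonneg _ _ _)) a2 2
    have c1 := pow_le_pow_left₀ (nrm_nonneg _ _ _) (a3 0) 2
    have c2 := pow_le_pow_left₀ (nrm_nonneg _ _ _) (a3 1) 2
    have c3 := pow_le_pow_left₀ (nrm_nonneg _ _ _) (a3 2) 2
    nlinarith [sq_nonneg (M * N)]

theorem mulx_int (k : ℕ) {lam B : ℝ} {v : Sm} (z : ℤ) (hl : 1 ≤ lam) (h : Cb k lam B v)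
    (hz : |z| ≤ k) : Bd lam z z (4 ^ k * B) (ml v) := by
  have hB := h.nonneg
  have hk : z.natAbs ≤ k := by
    have := abs_le.1 hz
    omega
  have h1 : Bd lam z.natAbs z.natAbs (4 ^ k * B) (ml v) :=
    (mulx_nat _ hl (h.mono (zero_le_one.trans hl) hk le_rfl le_rfl)).mono hl (by positivity)
      le_rfl le_rfl (mul_le_mul_of_nonneg_right (pow_le_pow_right₀ (by norm_num) hk) hB)
  generalize hm : z.natAbs = m at h1
  rcases Int.natAbs_eq z with e | e <;> rw [hm] at e <;> subst e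
  · rw [Int.cast_natCast]
    exact h1
  · rw [Int.cast_neg, Int.cast_natCast]
    exact h1.adj (T' := ml v) hl (by positivity) fun φ ψ => inner_mul v φ ψ

/-- multiplication is bounded on `H^s` for half integers `|s| ≤ k` -/
theorem Bd_ml (k : ℕ) : ∃ C, 0 ≤ C ∧ ∀ {lam B : ℝ} {v : Sm} (n : ℤ), 1 ≤ lam → Cb k lam B v →
    |n| ≤ 2 * k → Bd lam (n / 2) (n / 2) (C * B) (ml v) := by
  refine ⟨4 ^ k, by positivity, fun {lam B v} n hl h hn => ?_⟩
  have hB := h.nonneg
  have hn' := abs_le.1 hn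
  have h1 := (mulx_int k (n / 2) hl h (abs_le.2 ⟨by omega, by omega⟩)).mid hl (by positivity)
    (mulx_int k (n - n / 2) hl h (abs_le.2 ⟨by omega, by omega⟩))
  rwa [show (((n / 2 : ℤ) : ℝ) + ((n - n / 2 : ℤ) : ℝ)) = n by push_cast; ring] at h1

theorem mulx_mlX (n : ℤ) : ∃ C, 0 ≤ C ∧ ∀ {lam : ℝ} (a : Fin 3), 1 ≤ lam →
    Bd lam (n / 2) (n / 2) C (ml (X a)) := by
  obtain ⟨C, hC, h⟩ := Bd_ml n.natAbs
  refine ⟨C, hC, fun {lam} a hl => ?_⟩
  simpa using h n hl (Cb_X hl n.natAbs a) (abs_le.2 ⟨by omega, by omega⟩)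

theorem Bd_D (n : ℤ) : ∃ C, 0 ≤ C ∧ ∀ {lam : ℝ} (a : Fin 3), 1 ≤ lam →
    Bd lam (n / 2 + 1) (n / 2) C (D a) := by
  obtain ⟨C, hC, h⟩ := mulx_mlX n
  exact ⟨C * 1 + C * 1, by positivity, fun {lam} a hl =>
    ((h (a + 2) hl).comp hC (Bd_L hl _ (a + 1))).sub ((h (a + 1) hl).comp hC (Bd_L hl _ (a + 2)))⟩

theorem mulx_ml_smul (r : ℝ) (v : Sm) : ml (algebraMap ℝ Sm r * v) = r • ml v := by
  ext φ x
  simp

theorem Bd_H (n : ℤ) : ∃ C, 0 ≤ C ∧ ∀ {lam : ℝ} (a b : Fin 3), 1 ≤ lam →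
    Bd lam (n / 2 + 2) (n / 2) C (H a b) ∧ Bd lam (n / 2 + 2) (n / 2) C (Hs a b) := by
  obtain ⟨C1, hC1, h1⟩ := Bd_D n
  obtain ⟨C2, hC2, h2⟩ := Bd_D (n + 2)
  obtain ⟨C3, hC3, h3⟩ := mulx_mlX n
  obtain ⟨C4, hC4, h4⟩ := mulx_mlX (n + 2)
  have e1 : ((n + 2 : ℤ) : ℝ) / 2 = n / 2 + 1 := by push_cast; ring
  have e2 : (n : ℝ) / 2 + 1 + 1 = n / 2 + 2 := by ring
  rw [e1] at h2 h4
  rw [e2] at h2
  refine ⟨(3 * C3 + C1) * (2 * C4 + C2), by positivity, fun {lam} a b hl => ⟨?_, ?_⟩⟩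
  · have h5 : Bd lam (n / 2 + 2) (n / 2 + 1) C4 (ml (X b)) :=
      (h4 b hl).mono hl hC4 (by linarith) le_rfl le_rfl
    refine ((h1 a hl).comp hC1 ((h2 b hl).add h5)).mono hl (by positivity) le_rfl le_rfl ?_
    nlinarith [mul_nonneg hC1 hC4, mul_nonneg hC3 hC4, mul_nonneg hC3 hC2]
  · have h5 : Bd lam (n / 2 + 2) (n / 2 + 1) (2 * C4) (ml (2 * X a)) := by
      have := ((h4 a hl).mono hl hC4 (s' := n / 2 + 2) (by linarith) le_rfl le_rfl).smul 2
      rwa [← mulx_ml_smul, abs_two] at this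
    have h6 : Bd lam (n / 2 + 1) (n / 2) (3 * C3) (ml (3 * X b)) := by
      have := ((h3 b hl).mono hl hC3 (s' := n / 2 + 1) (by linarith) le_rfl le_rfl).smul 3
      rwa [← mulx_ml_smul, abs_of_pos (by norm_num : (0 : ℝ) < 3)] at this
    exact (h6.sub (h1 b hl)).comp (by positivity) (h5.sub (h2 a hl))

end Pool.Agent.Lib.MP_2fa2a2_gt.PI
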