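import Pool.Agent.Lib.MP_2fa2a2_gt.PI.Fn

/-! Sobolev norms. -/

namespace Pool.Agent.Lib.MP_2fa2a2_gt.PI

open scoped ContDiff

/-- Sobolev weights at frequency `lam` -/
noncomputable def wt (lam s : ℝ) (l : ℕ) : ℝ := (lam ^ 2 + ll l) ^ (s / 2)

/-- Sobolev norms at frequency `lam` -/
noncomputable def nrm (lam s : ℝ) (φ : Sm) : ℝ := ‖fn (wt lam s) φ‖

theorem nrmx_sq {a b : ℝ} (h : a ^ 2 ≤ b ^ 2) (hb : 0 ≤ b) : a ≤ b :=
  le_trans (le_abs_self a) (abs_le_of_sq_le_sq' h hb |> abs_le.2)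

theorem nrmx_ll_nonneg (l : ℕ) : 0 ≤ ll l := by unfold ll; positivity

section
variable {lam : ℝ}

theorem nrmx_base (hl : 1 ≤ lam) (l : ℕ) : 1 ≤ lam ^ 2 + ll l := by
  have := nrmx_ll_nonneg l
  nlinarith

theorem nrmx_wt_pos (hl : 1 ≤ lam) (s : ℝ) (l : ℕ) : 0 < wt lam s l :=
  Real.rpow_pos_of_pos (lt_of_lt_of_le one_pos (nrmx_base hl l)) _

theorem nrmx_wt_add (hl : 1 ≤ lam) (s t : ℝ) (l : ℕ) :
    wt lam (s + t) l = wt lam s l * wt lam t l := by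
  unfold wt
  rw [← Real.rpow_add (lt_of_lt_of_le one_pos (nrmx_base hl l)), add_div]

theorem nrmx_wt_zero (lam : ℝ) (l : ℕ) : wt lam 0 l = 1 := by
  unfold wt
  simp

theorem nrmx_wt_one_sq (hl : 1 ≤ lam) (l : ℕ) : wt lam 1 l ^ 2 = lam ^ 2 + ll l := by
  rw [sq, ← nrmx_wt_add hl]
  unfold wt
  norm_num

theorem nrmx_wt_mono (hl : 1 ≤ lam) {s t : ℝ} (h : s ≤ t) (l : ℕ) : wt lam s l ≤ wt lam t l :=
  Real.rpow_le_rpow_of_exponent_le (nrmx_base hl l) (by linarith)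

theorem nrmx_sq_rpow {r : ℝ} (hr : 0 ≤ r) (u : ℝ) : (r ^ 2) ^ (u / 2) = r ^ u := by
  rw [← Real.rpow_natCast r 2, ← Real.rpow_mul hr]
  congr 1
  push_cast
  ring

theorem nrmx_wt_le_of_nonpos {r u : ℝ} {l : ℕ} (hr : 0 < r) (hu : u ≤ 0)
    (h : r ^ 2 ≤ lam ^ 2 + ll l) : wt lam u l ≤ r ^ u := by
  rw [← nrmx_sq_rpow hr.le]
  exact Real.rpow_le_rpow_of_nonpos (by positivity) h (by linarith)

theorem nrmx_wt_le_of_nonneg {r u : ℝ} {l : ℕ} (hr : 0 ≤ r) (hu : 0 ≤ u)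
    (h : lam ^ 2 + ll l ≤ r ^ 2) : wt lam u l ≤ r ^ u := by
  rw [← nrmx_sq_rpow hr]
  have := nrmx_ll_nonneg l
  exact Real.rpow_le_rpow (by positivity) h (by linarith)

theorem PG_wt (hl : 1 ≤ lam) (s : ℝ) : PG (wt lam s) := by
  have h1 : PG (fun l => lam ^ 2 + ll l) :=
    PG.add (PG.of_bdd (c := fun _ => lam ^ 2) (B := |lam ^ 2|) fun _ => le_rfl) PG_ll
  refine (h1.pow ⌈s / 2⌉₊).of_le fun l => ?_
  have hb := nrmx_base hl l
  rw [abs_of_pos (nrmx_wt_pos hl s l), abs_of_nonneg (by positivity), ← Real.rpow_natCast]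
  exact Real.rpow_le_rpow_of_exponent_le hb (Nat.le_ceil _)

theorem nrmx_fn_wt (hl : 1 ≤ lam) (s t : ℝ) (φ : Sm) :
    fn (wt lam s) (fn (wt lam t) φ) = fn (wt lam (s + t)) φ := by
  rw [fn_fn (PG_wt hl s) (PG_wt hl t)]
  congr 2
  funext l
  rw [nrmx_wt_add hl]

theorem nrmx_fn_zero (lam : ℝ) (φ : Sm) : fn (wt lam 0) φ = φ := by
  have : wt lam 0 = fun _ => 1 := funext (nrmx_wt_zero lam)
  rw [this, fn_const, one_smul]

theorem nrmx_le {lam' s t B : ℝ} (hl : 1 ≤ lam) (hl' : 1 ≤ lam') (hB : 0 ≤ B) {φ : Sm}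
    (h : ∀ l, P l φ ≠ 0 → wt lam s l ≤ B * wt lam' t l) : nrm lam s φ ≤ B * nrm lam' t φ := by
  refine norm_fn_le (PG_wt hl s) (PG_wt hl' t) hB fun l h0 => ?_
  rw [abs_of_pos (nrmx_wt_pos hl s l), abs_of_pos (nrmx_wt_pos hl' t l)]
  exact h l h0

theorem nrm_nonneg (lam s : ℝ) (φ : Sm) : 0 ≤ nrm lam s φ := norm_nonneg _
theorem nrm_zero (hl : 1 ≤ lam) (φ : Sm) : nrm lam 0 φ = ‖φ‖ := by
  have _ := hl
  rw [nrm, nrmx_fn_zero]
theorem nrm_add_le (lam s : ℝ) (φ ψ : Sm) : nrm lam s (φ + ψ) ≤ nrm lam s φ + nrm lam s ψ := by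
  unfold nrm
  rw [map_add]
  exact norm_add_le _ _
theorem nrm_sub_le (lam s : ℝ) (φ ψ : Sm) : nrm lam s (φ - ψ) ≤ nrm lam s φ + nrm lam s ψ := by
  unfold nrm
  rw [map_sub]
  exact norm_sub_le _ _
theorem nrm_smul (lam s r : ℝ) (φ : Sm) : nrm lam s (r • φ) = |r| * nrm lam s φ := by
  unfold nrm
  rw [map_smul, norm_smul, Real.norm_eq_abs]
theorem nrm_neg (lam s : ℝ) (φ : Sm) : nrm lam s (-φ) = nrm lam s φ := by
  unfold nrm
  rw [map_neg, norm_neg]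
theorem nrm_sum_le {ι : Type*} (t : Finset ι) (lam s : ℝ) (φ : ι → Sm) :
    nrm lam s (∑ i ∈ t, φ i) ≤ ∑ i ∈ t, nrm lam s (φ i) := by
  unfold nrm
  rw [map_sum]
  exact norm_sum_le _ _
theorem nrm_one (s : ℝ) : nrm 1 s 1 = 1 := by
  have h1 : P 0 (1 : Sm) = 1 := by rw [P_zero, I_one, map_one]
  have h2 : wt 1 s 0 = 1 := by simp [wt, ll]
  have h3 : fn (wt 1 s) (1 : Sm) = 1 := by
    have := fn_P (PG_wt le_rfl s) 0 (1 : Sm)
    rwa [h1, h2, one_smul] at this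
  have h4 : ‖(1 : Sm)‖ ^ 2 = 1 := by rw [norm_sq_eq, mul_one, I_one]
  rw [nrm, h3]
  have h5 := norm_nonneg (1 : Sm)
  nlinarith
theorem nrm_mono (hl : 1 ≤ lam) {s t : ℝ} (h : s ≤ t) (φ : Sm) : nrm lam s φ ≤ nrm lam t φ := by
  have := nrmx_le (s := s) (t := t) (φ := φ) hl hl zero_le_one fun l _ => by
    rw [one_mul]; exact nrmx_wt_mono hl h l
  rwa [one_mul] at this
theorem nrm_gain (hl : 1 ≤ lam) {s t : ℝ} (h : s ≤ t) (φ : Sm) :
    nrm lam s φ ≤ lam ^ (s - t) * nrm lam t φ := by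
  have h0 : 0 < lam := lt_of_lt_of_le one_pos hl
  refine nrmx_le hl hl (Real.rpow_nonneg h0.le _) fun l _ => ?_
  have e : s = (s - t) + t := by ring
  have h1 : wt lam s l = wt lam (s - t) l * wt lam t l := by rw [← nrmx_wt_add hl, ← e]
  rw [h1]
  refine mul_le_mul_of_nonneg_right ?_ (nrmx_wt_pos hl t l).le
  exact nrmx_wt_le_of_nonpos h0 (by linarith) (by linarith [nrmx_ll_nonneg l])
theorem nrm_succ (hl : 1 ≤ lam) (s : ℝ) (φ : Sm) :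
    nrm lam (s + 1) φ ^ 2 = lam ^ 2 * nrm lam s φ ^ 2 + ∑ a, nrm lam s (L a φ) ^ 2 := by
  unfold nrm
  rw [add_comm s 1, ← nrmx_fn_wt hl]
  simp only [fn_L]
  generalize fn (wt lam s) φ = ψ
  have h1 := hasSum_fn_sq (PG_wt hl 1) ψ
  have h2 := (parseval_sq ψ).mul_left (lam ^ 2)
  have h3 : HasSum (fun l => ∑ a, ‖P l (L a ψ)‖ ^ 2) (∑ a, ‖L a ψ‖ ^ 2) :=
    hasSum_sum fun a _ => parseval_sq (L a ψ)
  refine h1.unique ?_
  have h4 := h2.add h3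
  have e : (fun l => wt lam 1 l ^ 2 * ‖P l ψ‖ ^ 2) =
      fun l => lam ^ 2 * ‖P l ψ‖ ^ 2 + ∑ a, ‖P l (L a ψ)‖ ^ 2 := by
    funext l
    simp only [P_L]
    rw [norm_L_P, nrmx_wt_one_sq hl]
    ring
  rw [e]
  exact h4
theorem nrm_L (hl : 1 ≤ lam) (s : ℝ) (a : Fin 3) (φ : Sm) :
    nrm lam s (L a φ) ≤ nrm lam (s + 1) φ := by
  refine nrmx_sq ?_ (nrm_nonneg _ _ _)
  rw [nrm_succ hl]
  have h1 : nrm lam s (L a φ) ^ 2 ≤ ∑ a, nrm lam s (L a φ) ^ 2 :=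
    Finset.single_le_sum (f := fun a => nrm lam s (L a φ) ^ 2) (fun _ _ => sq_nonneg _)
      (Finset.mem_univ a)
  have h2 : 0 ≤ lam ^ 2 * nrm lam s φ ^ 2 := by positivity
  linarith
theorem nrm_Lw (hl : 1 ≤ lam) (s : ℝ) (w : List (Fin 3)) (φ : Sm) :
    nrm lam s (Lw w φ) ≤ nrm lam (s + w.length) φ := by
  induction w generalizing s with
  | nil => simp
  | cons a w ih =>
    rw [Lw_cons]
    refine (nrm_L hl s a _).trans ((ih (s + 1)).trans (le_of_eq ?_))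
    congr 1
    push_cast [List.length_cons]
    ring
theorem nrm_act (lam s : ℝ) (g : E3 ≃ₗᵢ[ℝ] E3) (φ : Sm) :
    nrm lam s (act g φ) = nrm lam s φ := by
  unfold nrm
  rw [fn_act, norm_act]
theorem nrm_fn (hl : 1 ≤ lam) {c : ℕ → ℝ} {B s t : ℝ} (hB : 0 ≤ B) {φ : Sm} (hc : PG c)
    (h : ∀ l, P l φ ≠ 0 → |c l| ≤ B * wt lam (s - t) l) :
    nrm lam t (fn c φ) ≤ B * nrm lam s φ := by
  unfold nrm
  rw [fn_fn (PG_wt hl t) hc]
  refine norm_fn_le ((PG_wt hl t).mul hc) (PG_wt hl s) hB fun l h0 => ?_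
  have e : s = t + (s - t) := by ring
  have h1 : wt lam s l = wt lam t l * wt lam (s - t) l := by rw [← nrmx_wt_add hl, ← e]
  rw [abs_mul, abs_of_pos (nrmx_wt_pos hl s l), abs_of_pos (nrmx_wt_pos hl t l), h1]
  have := mul_le_mul_of_nonneg_left (h l h0) (nrmx_wt_pos hl t l).le
  linarith
theorem nrm_fn_wt (hl : 1 ≤ lam) (s t : ℝ) (φ : Sm) :
    nrm lam t (fn (wt lam s) φ) = nrm lam (t + s) φ := by
  unfold nrm
  rw [nrmx_fn_wt hl]
theorem nrmx_inner (hl : 1 ≤ lam) (s t : ℝ) (φ ψ : Sm) :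
    inner ℝ (fn (wt lam s) φ) (fn (wt lam t) ψ) = inner ℝ φ (fn (wt lam (s + t)) ψ) := by
  rw [inner_fn, nrmx_fn_wt hl]
theorem abs_inner_le_nrm (hl : 1 ≤ lam) (s : ℝ) (φ ψ : Sm) :
    |inner ℝ φ ψ| ≤ nrm lam s φ * nrm lam (-s) ψ := by
  have h := nrmx_inner hl s (-s) φ ψ
  rw [add_neg_cancel, nrmx_fn_zero] at h
  rw [← h]
  exact abs_real_inner_le_norm _ _
theorem nrm_le_of_dual (hl : 1 ≤ lam) {s C : ℝ} (hC : 0 ≤ C) {φ : Sm}
    (h : ∀ ψ, inner ℝ φ ψ ≤ C * nrm lam (-s) ψ) : nrm lam s φ ≤ C := by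
  have h1 := h (fn (wt lam (s + s)) φ)
  have e : -s + (s + s) = s := by ring
  rw [nrm_fn_wt hl, e, ← nrmx_inner hl, real_inner_self_eq_norm_sq] at h1
  change nrm lam s φ ^ 2 ≤ _ at h1
  have h2 := nrm_nonneg lam s φ
  by_contra h3
  push Not at h3
  nlinarith
theorem nrm_mid (hl : 1 ≤ lam) (s t : ℝ) (φ : Sm) :
    nrm lam ((s + t) / 2) φ ^ 2 ≤ nrm lam s φ * nrm lam t φ := by
  unfold nrm
  rw [← real_inner_self_eq_norm_sq, nrmx_inner hl, add_halves, ← nrmx_inner hl]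
  exact real_inner_le_norm _ _
theorem nrm_Pi_le (hl : 1 ≤ lam) (s : ℝ) (N : ℕ) (φ : Sm) :
    nrm lam s (Pi N φ) ≤ nrm lam s φ := by
  have _ := hl
  unfold nrm
  rw [fn_Pi]
  exact norm_Pi_le _ _
theorem nrmx_norm_sub_Pi (N : ℕ) (φ : Sm) : ‖φ - Pi N φ‖ ≤ ‖φ‖ := by
  refine nrmx_sq ?_ (norm_nonneg _)
  have h1 : inner ℝ φ (Pi N φ) = ‖Pi N φ‖ ^ 2 := by
    rw [← real_inner_self_eq_norm_sq, inner_Pi, Pi_of_mem (Pi_mem N φ)]
  rw [norm_sub_sq_real, h1]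
  nlinarith [sq_nonneg ‖Pi N φ‖]
theorem nrmx_P_Pi {N l : ℕ} (h : l ≤ N) (φ : Sm) : P l (Pi N φ) = P l φ := by
  rw [Pi_eq_sum, map_sum]
  simp only [P_P]
  rw [Finset.sum_ite_eq, if_pos (Finset.mem_range.2 (Nat.lt_succ_of_le h))]
theorem nrm_sub_Pi {s t : ℝ} (h : s ≤ t) (N : ℕ) (φ : Sm) :
    nrm 1 s (φ - Pi N φ) ≤ ((N : ℝ) + 1) ^ (s - t) * nrm 1 t φ := by
  have h0 : (0 : ℝ) < (N : ℝ) + 1 := by positivity
  have hB : 0 ≤ ((N : ℝ) + 1) ^ (s - t) := Real.rpow_nonneg h0.le _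
  have h1 : nrm 1 t (φ - Pi N φ) ≤ nrm 1 t φ := by
    unfold nrm
    rw [map_sub, fn_Pi]
    exact nrmx_norm_sub_Pi _ _
  refine le_trans ?_ (mul_le_mul_of_nonneg_left h1 hB)
  refine nrmx_le le_rfl le_rfl hB fun l hP => ?_
  have hl : N + 1 ≤ l := by
    by_contra h2
    exact hP (by rw [map_sub, nrmx_P_Pi (by omega), sub_self])
  have e : s = (s - t) + t := by ring
  have h2 : wt 1 s l = wt 1 (s - t) l * wt 1 t l := by rw [← nrmx_wt_add le_rfl, ← e]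
  rw [h2]
  refine mul_le_mul_of_nonneg_right ?_ (nrmx_wt_pos le_rfl t l).le
  refine nrmx_wt_le_of_nonpos h0 (by linarith) ?_
  have h3 : (N : ℝ) + 1 ≤ l := by exact_mod_cast hl
  unfold ll
  nlinarith
theorem nrm_of_Poly {s t : ℝ} (h : s ≤ t) {N : ℕ} {φ : Sm} (hφ : φ ∈ Poly N) :
    nrm 1 t φ ≤ ((N : ℝ) + 1) ^ (t - s) * nrm 1 s φ := by
  have h0 : (0 : ℝ) < (N : ℝ) + 1 := by positivity
  have hB : 0 ≤ ((N : ℝ) + 1) ^ (t - s) := Real.rpow_nonneg h0.le _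
  refine nrmx_le le_rfl le_rfl hB fun l hP => ?_
  have hl : l ≤ N := by
    by_contra h2
    exact hP (P_of_lt hφ (by omega))
  have e : t = (t - s) + s := by ring
  have h2 : wt 1 t l = wt 1 (t - s) l * wt 1 s l := by rw [← nrmx_wt_add le_rfl, ← e]
  rw [h2]
  refine mul_le_mul_of_nonneg_right ?_ (nrmx_wt_pos le_rfl s l).le
  refine nrmx_wt_le_of_nonneg h0.le (by linarith) ?_
  have h3 : (l : ℝ) ≤ N := by exact_mod_cast hl
  have h4 : (0 : ℝ) ≤ l := Nat.cast_nonneg l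
  unfold ll
  nlinarith
theorem nrmx_Cb (k : ℕ) : ∀ {lam B : ℝ} {v : Sm}, 1 ≤ lam → Cb k lam B v →
    nrm lam k v ≤ 2 ^ k * B * lam ^ k := by
  induction k with
  | zero =>
    intro lam B v hl h
    have := norm_le_of_sup (h [] le_rfl)
    rw [Nat.cast_zero, nrm_zero hl]
    simpa using this
  | succ k ih =>
    intro lam B v hl h
    have h1 : nrm lam k v ≤ 2 ^ k * B * lam ^ k :=
      ih hl fun w hw => h w (Nat.le_succ_of_le hw)
    have h2 : ∀ a, nrm lam k (L a v) ≤ 2 ^ k * (B * lam) * lam ^ k := fun a => by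
      refine ih hl fun w hw x => ?_
      have := h (w ++ [a]) (by simpa using hw) x
      rw [Lw_append, List.length_append, List.length_singleton, pow_succ] at this
      calc |Lw w (L a v) x| ≤ B * (lam ^ w.length * lam) := this
        _ = B * lam * lam ^ w.length := by ring
    have h0 : 0 < lam := lt_of_lt_of_le one_pos hl
    have h3 : 0 ≤ 2 ^ k * B * lam ^ k := (nrm_nonneg _ _ _).trans h1
    have e : (2 : ℝ) ^ (k + 1) * B * lam ^ (k + 1) = 2 * (lam * (2 ^ k * B * lam ^ k)) := by ring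
    rw [e]
    refine nrmx_sq ?_ (by positivity)
    rw [Nat.cast_succ, nrm_succ hl, Fin.sum_univ_three]
    have h4 : ∀ a, nrm lam k (L a v) ^ 2 ≤ (lam * (2 ^ k * B * lam ^ k)) ^ 2 := fun a =>
      pow_le_pow_left₀ (nrm_nonneg _ _ _) ((h2 a).trans (le_of_eq (by ring))) 2
    have h5 : nrm lam k v ^ 2 ≤ (2 ^ k * B * lam ^ k) ^ 2 :=
      pow_le_pow_left₀ (nrm_nonneg _ _ _) h1 2
    have h6 := mul_le_mul_of_nonneg_left h5 (sq_nonneg lam)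
    nlinarith [h4 0, h4 1, h4 2]
theorem nrm_le_of_Cb (k : ℕ) : ∃ C, ∀ {lam B : ℝ} {v : Sm}, 1 ≤ lam → Cb k lam B v →
    nrm lam k v ≤ C * B * lam ^ k := ⟨2 ^ k, nrmx_Cb k⟩
theorem nrm_one_le (hl : 1 ≤ lam) {s : ℝ} (hs : 0 ≤ s) (φ : Sm) :
    nrm 1 s φ ≤ nrm lam s φ := by
  have := nrmx_le (s := s) (t := s) (φ := φ) le_rfl hl zero_le_one fun l _ => by
    rw [one_mul]
    have h1 := nrmx_ll_nonneg l
    exact Real.rpow_le_rpow (by positivity) (by nlinarith) (by linarith)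
  rwa [one_mul] at this
end

theorem nrmx_sum_inv (n : ℕ) :
    ∑ l ∈ Finset.range n, 1 / ((l : ℝ) + 1) ^ 2 ≤ 2 - 1 / ((n : ℝ) + 1 / 2) := by
  induction n with
  | zero => norm_num
  | succ n ih =>
    rw [Finset.sum_range_succ]
    have h0 : (0 : ℝ) ≤ n := Nat.cast_nonneg n
    have h1 : 1 / ((n : ℝ) + 1) ^ 2 ≤ 1 / ((n : ℝ) + 1 / 2) - 1 / (((n : ℝ) + 1) + 1 / 2) := by
      rw [div_sub_div _ _ (by positivity) (by positivity), div_le_div_iff₀ (by positivity)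
        (by positivity)]
      nlinarith
    push_cast
    linarith

/-- sup bound of one harmonic component -/
theorem nrmx_P_sup (l : ℕ) (ψ : Sm) (x : S2) :
    |P l ψ x| ≤ (3 * (1 / ((l : ℝ) + 1))) * (wt 1 3 l * ‖P l ψ‖) := by
  have h0 : (0 : ℝ) ≤ l := Nat.cast_nonneg l
  have hw := nrmx_wt_pos le_rfl 3 l
  refine nrmx_sq ?_ (by positivity)
  rw [sq_abs]
  refine (sq_le_of_Poly (P_mem l ψ) x).trans ?_
  have h1 : wt 1 3 l ^ 2 = (1 + ll l) ^ 3 := by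
    rw [sq, ← nrmx_wt_add le_rfl]
    unfold wt
    norm_num
  rw [mul_pow, mul_pow (wt 1 3 l), h1, ← mul_assoc]
  refine mul_le_mul_of_nonneg_right ?_ (sq_nonneg _)
  have h2 : ((l : ℝ) + 1) ^ 2 / 2 ≤ 1 + ll l := by unfold ll; nlinarith
  have h3 : (((l : ℝ) + 1) ^ 2 / 2) ^ 3 ≤ (1 + ll l) ^ 3 := pow_le_pow_left₀ (by positivity) h2 3
  refine le_trans ?_ (mul_le_mul_of_nonneg_left h3 (by positivity))
  have e : (3 * (1 / ((l : ℝ) + 1))) ^ 2 * (((l : ℝ) + 1) ^ 2 / 2) ^ 3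
      = ((l : ℝ) + 1) ^ 3 * (9 / 8 * ((l : ℝ) + 1)) := by
    field_simp
    ring
  rw [e]
  refine le_mul_of_one_le_right (by positivity) (by linarith)

theorem nrmx_Pi_sup (N : ℕ) (ψ : Sm) (x : S2) : |Pi N ψ x| ≤ 5 * nrm 1 3 ψ := by
  rw [Pi_eq_sum, Sm.sum_apply]
  refine (Finset.abs_sum_le_sum_abs _ _).trans ?_
  refine (Finset.sum_le_sum fun l _ => nrmx_P_sup l ψ x).trans ?_
  refine nrmx_sq ?_ (mul_nonneg (by norm_num) (nrm_nonneg _ _ _))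
  refine (Finset.sum_mul_sq_le_sq_mul_sq _ _ _).trans ?_
  have h1 : ∑ l ∈ Finset.range (N + 1), (3 * (1 / ((l : ℝ) + 1))) ^ 2 ≤ 25 := by
    have e : ∀ l : ℕ, (3 * (1 / ((l : ℝ) + 1))) ^ 2 = 9 * (1 / ((l : ℝ) + 1) ^ 2) := fun l => by
      rw [mul_pow, div_pow]; norm_num
    simp only [e]
    rw [← Finset.mul_sum]
    have h2 := nrmx_sum_inv (N + 1)
    have h3 : 0 ≤ 1 / (((N + 1 : ℕ) : ℝ) + 1 / 2) := by positivity
    linarith
  have h2 : ∑ l ∈ Finset.range (N + 1), (wt 1 3 l * ‖P l ψ‖) ^ 2 ≤ nrm 1 3 ψ ^ 2 := by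
    simp only [mul_pow]
    exact sum_le_hasSum _ (fun l _ => by positivity) (hasSum_fn_sq (PG_wt le_rfl 3) ψ)
  calc _ ≤ 25 * nrm 1 3 ψ ^ 2 :=
        mul_le_mul h1 h2 (Finset.sum_nonneg fun l _ => sq_nonneg _) (by norm_num)
    _ = _ := by ring

theorem nrmx_sup (ψ : Sm) (x : S2) : |ψ x| ≤ 5 * nrm 1 3 ψ := by
  set K := 5 * nrm 1 3 ψ with hK
  have hg : Continuous fun y => max (|ψ y| - K) 0 ^ 2 := by
    have := ψ.continuous
    fun_prop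
  have h1 : ∀ N, ∫ y, max (|ψ y| - K) 0 ^ 2 ∂sig ≤ ‖ψ - Pi N ψ‖ ^ 2 := fun N => by
    rw [norm_sq_eq, I_def]
    refine MeasureTheory.integral_mono (integrable_of_continuous hg)
      (integrable_of_continuous (Sm.continuous _)) fun y => ?_
    have h2 := nrmx_Pi_sup N ψ y
    have h3 : max (|ψ y| - K) 0 ≤ |ψ y - Pi N ψ y| := by
      refine max_le ?_ (abs_nonneg _)
      have := abs_sub_abs_le_abs_sub (ψ y) (Pi N ψ y)
      linarith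
    have h4 := pow_le_pow_left₀ (le_max_right _ _) h3 2
    rw [sq_abs] at h4
    simpa [sq] using h4
  have h2 : ∫ y, max (|ψ y| - K) 0 ^ 2 ∂sig ≤ 0 := by
    have h3 := (tendsto_Pi ψ).pow 2
    rw [zero_pow two_ne_zero] at h3
    exact ge_of_tendsto' h3 h1
  have h3 : ∫ y, max (|ψ y| - K) 0 ^ 2 ∂sig = 0 :=
    le_antisymm h2 (MeasureTheory.integral_nonneg fun y => sq_nonneg _)
  rw [MeasureTheory.integral_eq_zero_iff_of_nonneg (fun y => sq_nonneg _)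
    (integrable_of_continuous hg)] at h3
  have h4 := congrFun ((hg.ae_eq_iff_eq sig continuous_zero).1 h3) x
  have h5 : max (|ψ x| - K) 0 = 0 := by simpa using h4
  have h6 := le_max_left (|ψ x| - K) 0
  linarith

/-- Sobolev embedding -/
theorem sobolev : ∃ C, 0 ≤ C ∧ ∀ (k : ℕ) (φ : Sm), Cb k 1 (C * nrm 1 (k + 3) φ) φ := by
  refine ⟨5, by norm_num, fun k φ w hw x => ?_⟩
  rw [one_pow, mul_one]
  refine (nrmx_sup _ x).trans (mul_le_mul_of_nonneg_left ?_ (by norm_num))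
  refine (nrm_Lw le_rfl 3 w φ).trans (nrm_mono le_rfl ?_ φ)
  have : (w.length : ℝ) ≤ k := by exact_mod_cast hw
  linarith

end Pool.Agent.Lib.MP_2fa2a2_gt.PI
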