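import Pool.Agent.Lib.MP_2fa2a2_gt.PI.Mul

/-! The multipliers used in the construction and their commutators with functions. -/

namespace Pool.Agent.Lib.MP_2fa2a2_gt.PI

/-- the resolvent `(1 - h ^ 2 lap)⁻¹` -/
noncomputable def Sh (h : ℝ) : Sm →ₗ[ℝ] Sm := fn (fun l => (1 + h ^ 2 * ll l)⁻¹)
/-- the weight `(1 - h ^ 2 lap) ^ j` -/
noncomputable def DD (h : ℝ) (j : ℕ) : Sm →ₗ[ℝ] Sm := fn (fun l => (1 + h ^ 2 * ll l) ^ j)
/-- the inverse weight -/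
noncomputable def DI (h : ℝ) (j : ℕ) : Sm →ₗ[ℝ] Sm := fn (fun l => ((1 + h ^ 2 * ll l) ^ j)⁻¹)
/-- pseudo-inverse of `lap + 2` (for `l = 1` the inverse of zero is zero) -/
noncomputable def Dp : Sm →ₗ[ℝ] Sm := fn (fun l => (2 - ll l)⁻¹)

theorem opsx_pos (h : ℝ) (l : ℕ) : 1 ≤ 1 + h ^ 2 * ll l := by
  have := nrmx_ll_nonneg l
  have h2 : 0 ≤ h ^ 2 * ll l := by positivity
  linarith

theorem opsx_PG_d (h : ℝ) : PG (fun l => 1 + h ^ 2 * ll l) :=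
  (fnx_const 1).add ((fnx_const (h ^ 2)).mul PG_ll)

theorem opsx_PG_DD (h : ℝ) (j : ℕ) : PG (fun l => (1 + h ^ 2 * ll l) ^ j) := (opsx_PG_d h).pow j

theorem opsx_DI_le (h : ℝ) (j l : ℕ) : |((1 + h ^ 2 * ll l) ^ j)⁻¹| ≤ 1 := by
  have h1 : 1 ≤ (1 + h ^ 2 * ll l) ^ j := one_le_pow₀ (opsx_pos h l)
  rw [abs_of_nonneg (inv_nonneg.mpr (by linarith))]
  exact inv_le_one_of_one_le₀ h1

theorem opsx_Sh_le (h : ℝ) (l : ℕ) : |(1 + h ^ 2 * ll l)⁻¹| ≤ 1 := by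
  simpa using opsx_DI_le h 1 l

theorem opsx_PG_DI (h : ℝ) (j : ℕ) : PG (fun l => ((1 + h ^ 2 * ll l) ^ j)⁻¹) :=
  PG.of_bdd (opsx_DI_le h j)

theorem opsx_PG_Sh (h : ℝ) : PG (fun l => (1 + h ^ 2 * ll l)⁻¹) := PG.of_bdd (opsx_Sh_le h)

theorem opsx_ll_cases (l : ℕ) : ll l = 0 ∨ (l = 1 ∧ ll l = 2) ∨ (l ≠ 1 ∧ 6 ≤ ll l) := by
  rcases l with _ | _ | l
  · left; simp [ll]
  · right; left; refine ⟨rfl, ?_⟩; norm_num [ll]
  · right; right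
    refine ⟨by omega, ?_⟩
    have : (0 : ℝ) ≤ l := Nat.cast_nonneg l
    unfold ll
    push_cast
    nlinarith

theorem opsx_Dp_le (l : ℕ) : |(2 - ll l)⁻¹| ≤ 2 * (1 + ll l)⁻¹ ∧ |(2 - ll l)⁻¹| ≤ 1 / 2 := by
  rcases opsx_ll_cases l with h | ⟨-, h⟩ | ⟨-, h⟩
  · rw [h]; norm_num
  · rw [h]; norm_num
  · rw [abs_inv, abs_of_nonpos (by linarith)]
    have h1 : 0 < -(2 - ll l) := by linarith
    have h2 : 0 < 1 + ll l := by linarith
    constructor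
    · rw [← div_eq_mul_inv, inv_eq_one_div, div_le_div_iff₀ h1 h2]; linarith
    · rw [inv_eq_one_div, div_le_div_iff₀ h1 two_pos]; linarith

theorem opsx_PG_Dp : PG (fun l => (2 - ll l)⁻¹) := PG.of_bdd fun l => (opsx_Dp_le l).2

theorem opsx_P_d (h : ℝ) (l : ℕ) (φ : Sm) :
    P l (φ - h ^ 2 • lap φ) = (1 + h ^ 2 * ll l) • P l φ := by
  rw [map_sub, map_smul, P_lap, smul_smul, add_smul, one_smul, mul_neg, neg_smul, sub_neg_eq_add]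

theorem opsx_P_Dop (l : ℕ) (φ : Sm) : P l (Dop φ) = (2 - ll l) • P l φ := by
  show P l (lap φ + (2 : ℝ) • φ) = _
  rw [map_add, map_smul, P_lap, ← add_smul]
  congr 1
  ring

theorem opsx_P_sub (l : ℕ) (φ : Sm) :
    P l (φ - P 1 φ) = ((2 - ll l) * (2 - ll l)⁻¹) • P l φ := by
  rw [map_sub, P_P]
  by_cases hl : l = 1
  · subst hl
    have : ll 1 = 2 := by norm_num [ll]
    simp [this]
  · have : 2 - ll l ≠ 0 := by
      rcases opsx_ll_cases l with h | ⟨h, -⟩ | ⟨-, h⟩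
      · rw [h]; norm_num
      · exact absurd h hl
      · linarith
    rw [if_neg hl, mul_inv_cancel₀ this, one_smul, sub_zero]

theorem opsx_wt_nat (j l : ℕ) : wt 1 (2 * j) l = (1 + ll l) ^ j := by
  unfold wt
  rw [one_pow, show (2 * (j : ℝ)) / 2 = j by ring, Real.rpow_natCast]

theorem opsx_wt_neg (s : ℝ) (l : ℕ) : wt 1 (-s) l = (wt 1 s l)⁻¹ := by
  apply eq_inv_of_mul_eq_one_left
  rw [← nrmx_wt_add le_rfl, neg_add_cancel, nrmx_wt_zero]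

theorem opsx_PG_sqrt : PG (fun l => √(ll l)) := by
  refine PG.of_le ((fnx_const 1).add PG_ll) fun l => ?_
  have h0 := nrmx_ll_nonneg l
  rw [abs_of_nonneg (Real.sqrt_nonneg _), abs_of_nonneg (by linarith)]
  apply Real.sqrt_le_iff.mpr
  constructor
  · linarith
  · nlinarith

theorem opsx_norm_L (a : Fin 3) (χ : Sm) : ‖L a χ‖ ≤ ‖fn (fun l => √(ll l)) χ‖ := by
  apply nrmx_sq _ (norm_nonneg _)
  have e1 : ‖fn (fun l => √(ll l)) χ‖ ^ 2 = I (gd χ χ) := by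
    rw [← real_inner_self_eq_norm_sq, inner_fn, fn_fn opsx_PG_sqrt opsx_PG_sqrt]
    have : (fun l => √(ll l) * √(ll l)) = ll := by
      funext l
      exact Real.mul_self_sqrt (nrmx_ll_nonneg l)
    rw [this, fn_ll, inner_neg_right, inner_def, I_gd]
  rw [e1, norm_sq_eq]
  refine I_mono fun x => ?_
  have := abs_L_le a χ x
  rw [Sm.mul_apply]
  nlinarith

theorem opsx_norm_Lw (w : List (Fin 3)) :
    ∀ ψ : Sm, ‖Lw w ψ‖ ≤ ‖fn (fun l => √(ll l) ^ w.length) ψ‖ := by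
  induction w with
  | nil =>
    intro ψ
    simp [fn_const]
  | cons a w ih =>
    intro ψ
    rw [Lw_cons]
    refine (opsx_norm_L a _).trans ?_
    rw [fn_Lw]
    refine (ih _).trans ?_
    rw [fn_fn (opsx_PG_sqrt.pow _) opsx_PG_sqrt]
    simp only [List.length_cons, pow_succ]
    exact le_rfl

theorem opsx_d_le {h : ℝ} (hh : 0 ≤ h) (h1 : h ≤ 1) (l : ℕ) : 1 + h ^ 2 * ll l ≤ 1 + ll l := by
  have h0 := nrmx_ll_nonneg l
  have h2 : h ^ 2 ≤ 1 := pow_le_one₀ hh h1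
  nlinarith

theorem opsx_le_d {h : ℝ} (hh : 0 < h) (h1 : h ≤ 1) (l : ℕ) :
    1 + ll l ≤ (h⁻¹) ^ 2 * (1 + h ^ 2 * ll l) := by
  have h2 : 1 ≤ (h⁻¹) ^ 2 := one_le_pow₀ ((one_le_inv₀ hh).mpr h1)
  have e : (h⁻¹) ^ 2 * (1 + h ^ 2 * ll l) = (h⁻¹) ^ 2 + ll l := by
    field_simp
  rw [e]
  linarith

theorem opsx_Hv_one (ψ : Sm) : Hv 1 (gr ψ) (gr ψ) = gd ψ ψ := by
  have h := sum_X_D ψ
  rw [gd_eq_D]
  simp only [Hv, gr, H_one, Fin.sum_univ_three] at h ⊢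
  rw [alg_kd 0, alg_kd 1, alg_kd 2, alg_kd_ne (a := 0) (b := 1) (by decide),
    alg_kd_ne (a := 0) (b := 2) (by decide), alg_kd_ne (a := 1) (b := 0) (by decide),
    alg_kd_ne (a := 1) (b := 2) (by decide), alg_kd_ne (a := 2) (b := 0) (by decide),
    alg_kd_ne (a := 2) (b := 1) (by decide)]
  linear_combination (-(X 0 * D 0 ψ + X 1 * D 1 ψ + X 2 * D 2 ψ)) * h

theorem opsx_I_Hn (ψ : Sm) : I (Hn ψ) = ‖Dop ψ‖ ^ 2 - inner ℝ (Dop ψ) ψ := by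
  have h := I_Hn 1 ψ
  rw [one_mul, one_mul, hess_Dop_one, opsx_Hv_one] at h
  have e1 : (2 : Sm) * gd ψ ψ - gd ψ ψ = gd ψ ψ := by ring
  have e2 : Dop ψ * ψ = ψ * lap ψ + ψ * ψ * 2 := by rw [Dop_def]; ring
  rw [h, e1, norm_sq_eq, inner_def, e2, map_add, I_gd]
  ring

theorem DD_eq_pow (h : ℝ) (j : ℕ) :
    DD h j = ((1 : Module.End ℝ Sm) - h ^ 2 • lap) ^ j := by
  induction j with
  | zero =>
    ext1 φ
    simp [DD, fn_const]
  | succ j ih =>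
    ext1 φ
    rw [pow_succ', ← ih]
    apply eq_of_P
    intro l
    show P l (DD h (j + 1) φ) = P l (DD h j φ - h ^ 2 • lap (DD h j φ))
    rw [opsx_P_d, DD, DD, P_fn (opsx_PG_DD h _), P_fn (opsx_PG_DD h _), smul_smul, pow_succ']

theorem DD_DI (h : ℝ) (j : ℕ) (φ : Sm) : DD h j (DI h j φ) = φ := by
  apply eq_of_P
  intro l
  have : (1 + h ^ 2 * ll l) ^ j ≠ 0 := pow_ne_zero _ (by linarith [opsx_pos h l])
  rw [DD, DI, P_fn (opsx_PG_DD h j), P_fn (opsx_PG_DI h j), smul_smul, mul_inv_cancel₀ this,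
    one_smul]

theorem DI_DD (h : ℝ) (j : ℕ) (φ : Sm) : DI h j (DD h j φ) = φ := by
  rw [DD, DI, fn_comm]
  exact DD_DI h j φ

theorem Sh_spec (h : ℝ) (φ : Sm) : Sh h φ - h ^ 2 • lap (Sh h φ) = φ := by
  apply eq_of_P
  intro l
  have : 1 + h ^ 2 * ll l ≠ 0 := by linarith [opsx_pos h l]
  rw [opsx_P_d, Sh, P_fn (opsx_PG_Sh h), smul_smul, mul_inv_cancel₀ this, one_smul]

theorem Sh_spec' (h : ℝ) (φ : Sm) : Sh h (φ - h ^ 2 • lap φ) = φ := by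
  apply eq_of_P
  intro l
  have : 1 + h ^ 2 * ll l ≠ 0 := by linarith [opsx_pos h l]
  rw [Sh, P_fn (opsx_PG_Sh h), opsx_P_d, smul_smul, inv_mul_cancel₀ this, one_smul]

theorem Dop_Dp (φ : Sm) : Dop (Dp φ) = φ - P 1 φ := by
  apply eq_of_P
  intro l
  rw [opsx_P_Dop, Dp, P_fn opsx_PG_Dp, smul_smul, opsx_P_sub]

theorem Dp_Dop (φ : Sm) : Dp (Dop φ) = φ - P 1 φ := by
  apply eq_of_P
  intro l
  rw [Dp, P_fn opsx_PG_Dp, opsx_P_Dop, smul_smul, opsx_P_sub, mul_comm]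

theorem Dop_Dp_Ev {φ : Sm} (h : φ ∈ Ev) : Dop (Dp φ) = φ := by
  rw [Dop_Dp, P_of_Ev h odd_one, sub_zero]

theorem H_P_one (a b : Fin 3) (φ : Sm) : H a b (P 1 φ) = 0 := by
  rw [P_one, map_sum]
  simp [H_X]

theorem I_DD (h : ℝ) (j : ℕ) (φ : Sm) : I (DD h j φ) = I φ := by
  rw [DD, I_fn (opsx_PG_DD h j)]
  simp [ll]

theorem norm_Sh_le (h : ℝ) (φ : Sm) : ‖Sh h φ‖ ≤ ‖φ‖ := by
  exact (norm_fn_le_bdd (opsx_Sh_le h) φ).trans_eq (one_mul _)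

theorem norm_DI_le (h : ℝ) (j : ℕ) (φ : Sm) : ‖DI h j φ‖ ≤ ‖φ‖ := by
  exact (norm_fn_le_bdd (opsx_DI_le h j) φ).trans_eq (one_mul _)

theorem Bd_Dp (s : ℝ) : Bd 1 s (s + 2) 2 Dp := by
  intro φ
  refine nrm_fn le_rfl two_pos.le opsx_PG_Dp fun l _ => ?_
  have e : wt 1 (s - (s + 2)) l = (1 + ll l)⁻¹ := by
    rw [show s - (s + 2) = -(2 * ((1 : ℕ) : ℝ)) by push_cast; ring, opsx_wt_neg, opsx_wt_nat,
      pow_one]
  rw [e]
  exact (opsx_Dp_le l).1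

theorem Bd_Sh_one (s : ℝ) : Bd 1 s (s + 2) 1 (Sh 1) := by
  intro φ
  refine nrm_fn le_rfl one_pos.le (opsx_PG_Sh 1) fun l _ => ?_
  have e : wt 1 (s - (s + 2)) l = (1 + ll l)⁻¹ := by
    rw [show s - (s + 2) = -(2 * ((1 : ℕ) : ℝ)) by push_cast; ring, opsx_wt_neg, opsx_wt_nat,
      pow_one]
  have h0 := nrmx_ll_nonneg l
  rw [e, one_pow, one_mul, one_mul, abs_of_nonneg (inv_nonneg.mpr (by linarith))]

theorem Bd_P (l : ℕ) (s t : ℝ) : ∃ C, 0 ≤ C ∧ Bd 1 s t C (P l) := by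
  have hc : PG (fun k => if k = l then (1 : ℝ) else 0) :=
    PG.of_bdd (B := 1) fun k => by split_ifs <;> simp
  refine ⟨wt 1 (t - s) l, (nrmx_wt_pos le_rfl _ _).le, fun φ => ?_⟩
  have e : P l φ = fn (fun k => if k = l then (1 : ℝ) else 0) φ := by
    apply eq_of_P
    intro k
    rw [P_P, P_fn hc]
    split_ifs with hk
    · rw [hk, one_smul]
    · rw [zero_smul]
  rw [e]
  refine nrm_fn le_rfl (nrmx_wt_pos le_rfl _ _).le hc fun k _ => ?_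
  split_ifs with hk
  · rw [hk, ← nrmx_wt_add le_rfl, show t - s + (s - t) = 0 by ring, nrmx_wt_zero, abs_one]
  · rw [abs_zero]
    exact (mul_pos (nrmx_wt_pos le_rfl _ _) (nrmx_wt_pos le_rfl _ _)).le

theorem norm_Lw_DI {h : ℝ} (hh : 0 ≤ h) {j : ℕ} {w : List (Fin 3)} (hw : w.length ≤ 2 * j)
    (φ : Sm) : h ^ w.length * ‖Lw w (DI h j φ)‖ ≤ ‖φ‖ := by
  have h1 := opsx_norm_Lw w (DI h j φ)
  have hp : 0 ≤ h ^ w.length := pow_nonneg hh _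
  refine (mul_le_mul_of_nonneg_left h1 hp).trans ?_
  have hG := (opsx_PG_sqrt.pow w.length).mul (opsx_PG_DI h j)
  rw [DI, fn_fn (opsx_PG_sqrt.pow _) (opsx_PG_DI h j), ← abs_of_nonneg hp, ← Real.norm_eq_abs,
    ← norm_smul, ← fn_smul hG]
  refine (norm_fn_le_bdd (B := 1) (fun l => ?_) φ).trans_eq (one_mul _)
  have h0 := nrmx_ll_nonneg l
  have hd := opsx_pos h l
  have hs : 0 ≤ √(ll l) := Real.sqrt_nonneg _
  have hy : 1 ≤ √(1 + h ^ 2 * ll l) := Real.one_le_sqrt.mpr hd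
  have hx : h * √(ll l) ≤ √(1 + h ^ 2 * ll l) := by
    apply Real.le_sqrt_of_sq_le
    rw [mul_pow, Real.sq_sqrt h0]
    linarith
  have h3 : (h * √(ll l)) ^ w.length ≤ (1 + h ^ 2 * ll l) ^ j := by
    calc (h * √(ll l)) ^ w.length ≤ √(1 + h ^ 2 * ll l) ^ w.length :=
          pow_le_pow_left₀ (mul_nonneg hh hs) hx _
      _ ≤ √(1 + h ^ 2 * ll l) ^ (2 * j) := pow_le_pow_right₀ hy hw
      _ = (1 + h ^ 2 * ll l) ^ j := by rw [pow_mul, Real.sq_sqrt (by linarith)]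
  have h4 : 0 < (1 + h ^ 2 * ll l) ^ j := pow_pos (by linarith) _
  rw [← mul_assoc, ← mul_pow, abs_of_nonneg (by positivity), ← div_eq_mul_inv, div_le_one h4]
  exact h3

theorem nrm_le_DD {h : ℝ} (hh : 0 < h) (h1 : h ≤ 1) {j : ℕ} {s : ℝ} (hs : 0 ≤ s)
    (hs' : s ≤ 2 * j) (φ : Sm) : nrm 1 s φ ≤ (h⁻¹) ^ s * ‖DD h j φ‖ := by
  have hi : 0 ≤ h⁻¹ := inv_nonneg.mpr hh.le
  refine norm_fn_le (PG_wt le_rfl s) (opsx_PG_DD h j) (Real.rpow_nonneg hi s) fun l _ => ?_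
  have h0 := nrmx_ll_nonneg l
  have hd := opsx_pos h l
  rw [abs_of_pos (nrmx_wt_pos le_rfl _ _), abs_of_pos (pow_pos (by linarith) _)]
  unfold wt
  rw [one_pow]
  calc (1 + ll l) ^ (s / 2) ≤ ((h⁻¹) ^ 2 * (1 + h ^ 2 * ll l)) ^ (s / 2) :=
        Real.rpow_le_rpow (by linarith) (opsx_le_d hh h1 l) (by linarith)
    _ = (h⁻¹) ^ s * (1 + h ^ 2 * ll l) ^ (s / 2) := by
        rw [Real.mul_rpow (by positivity) (by linarith), nrmx_sq_rpow hi]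
    _ ≤ (h⁻¹) ^ s * (1 + h ^ 2 * ll l) ^ j := by
        refine mul_le_mul_of_nonneg_left ?_ (Real.rpow_nonneg hi s)
        rw [← Real.rpow_natCast _ j]
        exact Real.rpow_le_rpow_of_exponent_le hd (by linarith)

theorem norm_DD_le {h : ℝ} (hh : 0 ≤ h) (h1 : h ≤ 1) (j : ℕ) (φ : Sm) :
    ‖DD h j φ‖ ≤ nrm 1 (2 * j) φ := by
  refine (norm_fn_le (opsx_PG_DD h j) (PG_wt le_rfl (2 * j)) zero_le_one fun l _ => ?_).trans_eq
    (one_mul _)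
  have hd := opsx_pos h l
  rw [abs_of_pos (nrmx_wt_pos le_rfl _ _), abs_of_pos (pow_pos (by linarith) _), one_mul,
    opsx_wt_nat]
  exact pow_le_pow_left₀ (by linarith) (opsx_d_le hh h1 l) j

theorem Bd_DD {h : ℝ} (hh : 0 ≤ h) (h1 : h ≤ 1) (j : ℕ) (s : ℝ) :
    Bd 1 (s + 2 * j) s 1 (DD h j) := by
  intro φ
  refine nrm_fn le_rfl zero_le_one (opsx_PG_DD h j) fun l _ => ?_
  have hd := opsx_pos h l
  rw [show s + 2 * (j : ℝ) - s = 2 * j by ring, abs_of_pos (pow_pos (by linarith) _), one_mul,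
    opsx_wt_nat]
  exact pow_le_pow_left₀ (by linarith) (opsx_d_le hh h1 l) j

theorem Bd_DI {h : ℝ} (hh : 0 < h) (h1 : h ≤ 1) (j : ℕ) (s : ℝ) :
    Bd 1 s (s + 2 * j) ((h⁻¹) ^ (2 * j)) (DI h j) := by
  intro φ
  have hi : 0 ≤ h⁻¹ := inv_nonneg.mpr hh.le
  refine nrm_fn le_rfl (pow_nonneg hi _) (opsx_PG_DI h j) fun l _ => ?_
  have h0 := nrmx_ll_nonneg l
  have hd := opsx_pos h l
  have h4 : 0 < (1 + h ^ 2 * ll l) ^ j := pow_pos (by linarith) _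
  have h5 : 0 < (1 + ll l) ^ j := pow_pos (by linarith) _
  rw [show s - (s + 2 * (j : ℝ)) = -(2 * j) by ring, opsx_wt_neg, opsx_wt_nat,
    abs_of_pos (inv_pos.mpr h4), ← div_eq_mul_inv, inv_eq_one_div, div_le_div_iff₀ h4 h5, one_mul,
    pow_mul, ← mul_pow]
  exact pow_le_pow_left₀ (by linarith) (opsx_le_d hh h1 l) j

theorem inner_one_sub_Sh (h : ℝ) (φ : Sm) : inner ℝ (φ - Sh h φ) φ
    = h ^ 2 * I (gd (Sh h φ) (Sh h φ)) + ‖φ - Sh h φ‖ ^ 2 := by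
  have e : φ - Sh h φ = -(h ^ 2 • lap (Sh h φ)) := by
    nth_rewrite 1 [← Sh_spec h φ]
    abel
  have e2 : inner ℝ (φ - Sh h φ) φ
      = inner ℝ (φ - Sh h φ) (Sh h φ) + inner ℝ (φ - Sh h φ) (φ - Sh h φ) := by
    rw [← inner_add_right, add_sub_cancel]
  rw [e2, real_inner_self_eq_norm_sq]
  congr 1
  rw [e, inner_neg_left, real_inner_smul_left, inner_def, I_gd, mul_comm (lap _)]
  ring

/-- the Hessian of `Dp y` is bounded by `y` -/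
theorem I_Hn_Dp (y : Sm) : I (Hn (Dp y)) ≤ 2 * ‖y‖ ^ 2 := by
  have h1 : ‖Dop (Dp y)‖ ≤ ‖y‖ := by
    have hG := (((fnx_const 2).sub PG_ll).mul opsx_PG_Dp)
    have e : Dop (Dp y) = fn (fun l => (2 - ll l) * (2 - ll l)⁻¹) y := by
      apply eq_of_P
      intro l
      rw [Dop_Dp, opsx_P_sub, P_fn hG]
    rw [e]
    refine (norm_fn_le_bdd (B := 1) (fun l => ?_) y).trans_eq (one_mul _)
    by_cases h : 2 - ll l = 0
    · simp [h]
    · rw [mul_inv_cancel₀ h, abs_one]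
  have h2 : ‖Dp y‖ ≤ 1 / 2 * ‖y‖ := norm_fn_le_bdd (fun l => (opsx_Dp_le l).2) y
  have h3 := abs_real_inner_le_norm (Dop (Dp y)) (Dp y)
  have h4 := neg_abs_le (inner ℝ (Dop (Dp y)) (Dp y))
  have h5 := mul_le_mul h1 h2 (norm_nonneg _) (norm_nonneg _)
  have h6 := pow_le_pow_left₀ (norm_nonneg _) h1 2
  rw [opsx_I_Hn]
  nlinarith [sq_nonneg ‖y‖]

theorem norm_H_Dp (a b : Fin 3) (y : Sm) : ‖H a b (Dp y)‖ ≤ 2 * ‖y‖ := by
  apply nrmx_sq _ (by positivity)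
  have h1 : I (H a b (Dp y) * H a b (Dp y)) ≤ I (Hn (Dp y)) := by
    refine I_mono fun x => ?_
    rw [Hn, Sm.sum_apply]
    refine le_trans ?_ (Finset.single_le_sum
      (f := fun a => (∑ b, H a b (Dp y) * H a b (Dp y)) x) (fun c _ => ?_) (Finset.mem_univ a))
    · rw [Sm.sum_apply]
      exact Finset.single_le_sum (f := fun b => (H a b (Dp y) * H a b (Dp y)) x)
        (fun c _ => mul_self_nonneg _) (Finset.mem_univ b)
    · rw [Sm.sum_apply]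
      exact Finset.sum_nonneg fun d _ => mul_self_nonneg _
  have h2 := I_Hn_Dp y
  rw [norm_sq_eq]
  nlinarith [sq_nonneg ‖y‖]

theorem norm_Dp_Hs (a b : Fin 3) (y : Sm) : ‖Dp (Hs a b y)‖ ≤ 2 * ‖y‖ := by
  have e : ‖Dp (Hs a b y)‖ ^ 2 = inner ℝ (H a b (Dp (Dp (Hs a b y)))) y := by
    rw [← real_inner_self_eq_norm_sq, inner_H]
    exact (inner_fn _ _ _).symm
  have h1 := real_inner_le_norm (H a b (Dp (Dp (Hs a b y)))) y
  have h2 := mul_le_mul_of_nonneg_right (norm_H_Dp a b (Dp (Hs a b y))) (norm_nonneg y)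
  rcases (norm_nonneg (Dp (Hs a b y))).eq_or_lt with h0 | h0
  · rw [← h0]
    positivity
  · refine le_of_mul_le_mul_left ?_ h0
    nlinarith


end Pool.Agent.Lib.MP_2fa2a2_gt.PI
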