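import Pool.Agent.Lib.MP_2fa2a2_gt.PI.RotZ

/-! Polynomials on the sphere and spherical harmonics. -/

namespace Pool.Agent.Lib.MP_2fa2a2_gt.PI

open scoped ContDiff

/-- polynomial functions of degree at most `N` -/
noncomputable def Poly (N : ℕ) : Submodule ℝ Sm :=
  Submodule.span ℝ {φ | ∃ w : List (Fin 3), w.length ≤ N ∧ φ = (w.map X).prod}

theorem poly_prod_eq (w : List (Fin 3)) : (w.map X).prod = ∏ a, X a ^ w.count a := by
  rw [Finset.prod_list_map_count]
  refine Finset.prod_subset (Finset.subset_univ _) fun a _ ha => ?_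
  rw [List.count_eq_zero_of_not_mem (fun h => ha (List.mem_toFinset.2 h)), pow_zero]

theorem poly_le_range (N : ℕ) : Poly N ≤ Submodule.span ℝ
    (Set.range fun c : Fin 3 → Fin (N + 1) => ∏ a, X a ^ (c a : ℕ)) := by
  refine Submodule.span_mono ?_
  rintro _ ⟨w, hw, rfl⟩
  exact ⟨fun a => ⟨w.count a, Nat.lt_succ_of_le (List.count_le_length.trans hw)⟩,
    (poly_prod_eq w).symm⟩

instance (N : ℕ) : FiniteDimensional ℝ (Poly N) :=
  haveI := FiniteDimensional.span_of_finite ℝ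
    (Set.finite_range fun c : Fin 3 → Fin (N + 1) => ∏ a, X a ^ (c a : ℕ))
  Submodule.finiteDimensional_of_le (poly_le_range N)

theorem finrank_Poly (N : ℕ) : Module.finrank ℝ (Poly N) ≤ (N + 1) ^ 3 := by
  have := FiniteDimensional.span_of_finite ℝ
    (Set.finite_range fun c : Fin 3 → Fin (N + 1) => ∏ a, X a ^ (c a : ℕ))
  refine (Submodule.finrank_mono (poly_le_range N)).trans ?_
  refine (finrank_range_le_card (R := ℝ)
    fun c : Fin 3 → Fin (N + 1) => ∏ a, X a ^ (c a : ℕ)).trans ?_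
  simp

theorem Poly_mono : Monotone Poly := by
  intro M N h
  refine Submodule.span_mono ?_
  rintro _ ⟨w, hw, rfl⟩
  exact ⟨w, hw.trans h, rfl⟩

theorem one_mem_Poly (N : ℕ) : (1 : Sm) ∈ Poly N :=
  Submodule.subset_span ⟨[], Nat.zero_le _, rfl⟩

theorem poly_X_mem (a : Fin 3) : X a ∈ Poly 1 :=
  Submodule.subset_span ⟨[a], le_rfl, by simp⟩

theorem poly_mul_mem {M N : ℕ} {φ ψ : Sm} (h : φ ∈ Poly M) (h' : ψ ∈ Poly N) :
    φ * ψ ∈ Poly (M + N) := by
  have h1 := Submodule.mul_mem_mul h h'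
  unfold Poly at h1
  rw [Submodule.span_mul_span] at h1
  refine Submodule.span_mono ?_ h1
  rintro _ ⟨_, ⟨v, hv, rfl⟩, _, ⟨w, hw, rfl⟩, rfl⟩
  refine ⟨v ++ w, ?_, ?_⟩
  · rw [List.length_append]
    exact Nat.add_le_add hv hw
  · rw [List.map_append, List.prod_append]

theorem X_mul_mem {N : ℕ} {φ : Sm} (h : φ ∈ Poly N) (a : Fin 3) : X a * φ ∈ Poly (N + 1) := by
  rw [Nat.add_comm]
  exact poly_mul_mem (poly_X_mem a) h

theorem mul_mem_Poly {M N : ℕ} {φ ψ : Sm} (h : φ ∈ Poly M) (h' : ψ ∈ Poly N) :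
    φ * ψ ∈ Poly (M + N) := poly_mul_mem h h'

theorem poly_pow_mem {M : ℕ} {φ : Sm} (h : φ ∈ Poly M) (k : ℕ) : φ ^ k ∈ Poly (M * k) := by
  induction k with
  | zero => rw [pow_zero]; exact one_mem_Poly _
  | succ k ih => rw [pow_succ, Nat.mul_succ]; exact poly_mul_mem ih h

theorem poly_prod_mem (w : List (Fin 3)) : (w.map X).prod ∈ Poly w.length :=
  Submodule.subset_span ⟨w, le_rfl, rfl⟩

theorem poly_L_X (a b : Fin 3) : L a (X b) ∈ Poly 1 := by
  have h : b = a ∨ b = a + 1 ∨ b = a + 2 := by revert a b; decide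
  rcases h with rfl | rfl | rfl
  · rw [L_X_self]; exact Submodule.zero_mem _
  · rw [L_X_add_one]; exact Submodule.neg_mem _ (poly_X_mem _)
  · rw [L_X_add_two]; exact poly_X_mem _

/-- a linear map that respects the generators respects `Poly N` -/
theorem poly_map {N : ℕ} (A : Sm →ₗ[ℝ] Sm)
    (hA : ∀ w : List (Fin 3), A (w.map X).prod ∈ Poly w.length) {φ : Sm} (h : φ ∈ Poly N) :
    A φ ∈ Poly N := by
  have h1 : Poly N ≤ (Poly N).comap A := by
    refine Submodule.span_le.2 ?_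
    rintro _ ⟨w, hw, rfl⟩
    exact Poly_mono hw (hA w)
  exact h1 h

theorem L_mem_Poly {N : ℕ} {φ : Sm} (h : φ ∈ Poly N) (a : Fin 3) : L a φ ∈ Poly N := by
  refine poly_map (L a) (fun w => ?_) h
  induction w with
  | nil => rw [List.map_nil, List.prod_nil, L_one]; exact Submodule.zero_mem _
  | cons b w ih =>
    rw [List.map_cons, List.prod_cons, L_mul, List.length_cons]
    refine Submodule.add_mem _ ?_ (X_mul_mem ih b)
    rw [Nat.add_comm]
    exact poly_mul_mem (poly_L_X a b) (poly_prod_mem w)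

theorem act_mem_Poly {N : ℕ} {φ : Sm} (h : φ ∈ Poly N) (g : E3 ≃ₗᵢ[ℝ] E3) :
    act g φ ∈ Poly N := by
  refine poly_map (act g).toLinearMap (fun w => ?_) h
  show act g (w.map X).prod ∈ Poly w.length
  induction w with
  | nil => rw [List.map_nil, List.prod_nil, map_one]; exact one_mem_Poly _
  | cons b w ih =>
    rw [List.map_cons, List.prod_cons, map_mul, List.length_cons, Nat.add_comm, act_X]
    exact poly_mul_mem (Submodule.sum_mem _ fun c _ => Submodule.smul_mem _ _ (poly_X_mem c)) ih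

/-- the polynomials as an algebra of continuous functions -/
def polyAlg : Subalgebra ℝ C(S2, ℝ) where
  carrier := {f | ∃ N, ∃ p ∈ Poly N, ∀ x, f x = p x}
  mul_mem' := by
    rintro f g ⟨M, p, hp, e⟩ ⟨N, q, hq, e'⟩
    exact ⟨M + N, p * q, poly_mul_mem hp hq, fun x => by simp [e, e']⟩
  add_mem' := by
    rintro f g ⟨M, p, hp, e⟩ ⟨N, q, hq, e'⟩
    exact ⟨M + N, p + q, Submodule.add_mem _ (Poly_mono (Nat.le_add_right _ _) hp)
      (Poly_mono (Nat.le_add_left _ _) hq), fun x => by simp [e, e']⟩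
  algebraMap_mem' := fun c =>
    ⟨0, c • (1 : Sm), Submodule.smul_mem _ _ (one_mem_Poly 0), fun x => by simp⟩

theorem polyAlg_sep : polyAlg.SeparatesPoints := by
  intro x y hxy
  have h : ∃ a, (x : E3) a ≠ (y : E3) a := by
    by_contra hc
    push Not at hc
    exact hxy (Subtype.ext (PiLp.ext hc))
  obtain ⟨a, ha⟩ := h
  exact ⟨X a, ⟨⟨X a, (X a).continuous⟩, ⟨1, X a, poly_X_mem a, fun _ => rfl⟩, rfl⟩, ha⟩

/-- Weierstrass -/
theorem exists_Poly_near {F : S2 → ℝ} (hF : Continuous F) {η : ℝ} (hη : 0 < η) :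
    ∃ N, ∃ p ∈ Poly N, ∀ x, |F x - p x| ≤ η := by
  obtain ⟨⟨g, N, p, hp, e⟩, hg⟩ :=
    ContinuousMap.exists_mem_subalgebra_near_continuous_of_separatesPoints polyAlg polyAlg_sep F hF
      η hη
  refine ⟨N, p, hp, fun x => ?_⟩
  have h1 : ‖g x - F x‖ < η := hg x
  rw [e, Real.norm_eq_abs, abs_sub_comm] at h1
  exact h1.le

/-- mean of a trigonometric monomial -/
noncomputable def polyC (a b : ℕ) : ℝ :=
  (2 * Real.pi)⁻¹ * ∫ θ in (0 : ℝ)..2 * Real.pi, Real.cos θ ^ a * Real.sin θ ^ b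

theorem poly_shift (a b : ℕ) (α : ℝ) :
    ∫ θ in (0 : ℝ)..2 * Real.pi, Real.cos (θ + α) ^ a * Real.sin (θ + α) ^ b =
      ∫ θ in (0 : ℝ)..2 * Real.pi, Real.cos θ ^ a * Real.sin θ ^ b := by
  have hp : Function.Periodic (fun θ => Real.cos θ ^ a * Real.sin θ ^ b) (2 * Real.pi) := by
    intro θ
    simp only [Real.cos_add_two_pi, Real.sin_add_two_pi]
  rw [intervalIntegral.integral_comp_add_right (fun θ => Real.cos θ ^ a * Real.sin θ ^ b) α]
  have h := hp.intervalIntegral_add_eq α 0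
  rw [zero_add, add_comm α] at h
  rw [zero_add]
  exact h

theorem polyC_odd {a b : ℕ} (h : Odd (a + b)) : polyC a b = 0 := by
  have h1 := poly_shift a b Real.pi
  have h2 : ∀ θ, Real.cos (θ + Real.pi) ^ a * Real.sin (θ + Real.pi) ^ b =
      -(Real.cos θ ^ a * Real.sin θ ^ b) := by
    intro θ
    rw [Real.cos_add_pi, Real.sin_add_pi, neg_pow, neg_pow (Real.sin θ), mul_mul_mul_comm,
      ← pow_add, h.neg_one_pow, neg_one_mul]
  simp only [h2, intervalIntegral.integral_neg] at h1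
  unfold polyC
  rw [show ∫ θ in (0 : ℝ)..2 * Real.pi, Real.cos θ ^ a * Real.sin θ ^ b = 0 by linarith, mul_zero]

theorem poly_polar (x : S2) : ∃ r α : ℝ, (x : E3) 0 = r * Real.cos α ∧
    (x : E3) 1 = r * Real.sin α ∧ r ^ 2 = 1 - (x : E3) 2 ^ 2 := by
  have h : (∑ a, X a * X a : Sm) x = (1 : Sm) x := by rw [sum_X_sq]
  rw [Fin.sum_univ_three] at h
  simp only [Sm.add_apply, Sm.mul_apply, X_apply, Sm.one_apply] at h
  refine ⟨‖(⟨(x : E3) 0, (x : E3) 1⟩ : ℂ)‖, Complex.arg ⟨(x : E3) 0, (x : E3) 1⟩,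
    (Complex.norm_mul_cos_arg ⟨(x : E3) 0, (x : E3) 1⟩).symm,
    (Complex.norm_mul_sin_arg ⟨(x : E3) 0, (x : E3) 1⟩).symm, ?_⟩
  rw [Complex.sq_norm, Complex.normSq_mk]
  linarith

theorem poly_zav_mono (a b c : ℕ) (x : S2) :
    zav (X 0 ^ a * X 1 ^ b * X 2 ^ c : Sm) x =
      polyC a b * ((1 - (x : E3) 2 ^ 2) ^ ((a + b) / 2) * (x : E3) 2 ^ c) := by
  obtain ⟨r, α, h0, h1, h2⟩ := poly_polar x
  have e : ∀ θ, (X 0 ^ a * X 1 ^ b * X 2 ^ c : Sm) (rotS (rotZ θ) x) =
      (r ^ (a + b) * (x : E3) 2 ^ c) * (Real.cos (θ + α) ^ a * Real.sin (θ + α) ^ b) := by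
    intro θ
    simp only [Sm.mul_apply, Sm.pow_apply, X_apply, rotS_coe, rotZ_0, rotZ_1, rotZ_2]
    have e0 : Real.cos θ * (x : E3) 0 - Real.sin θ * (x : E3) 1 = r * Real.cos (θ + α) := by
      rw [h0, h1, Real.cos_add]; ring
    have e1 : Real.sin θ * (x : E3) 0 + Real.cos θ * (x : E3) 1 = r * Real.sin (θ + α) := by
      rw [h0, h1, Real.sin_add]; ring
    rw [e0, e1, mul_pow, mul_pow, pow_add]
    ring
  have e2 : zav (X 0 ^ a * X 1 ^ b * X 2 ^ c : Sm) x =
      polyC a b * (r ^ (a + b) * (x : E3) 2 ^ c) := by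
    unfold zav polyC
    simp only [e]
    rw [intervalIntegral.integral_const_mul, poly_shift]
    ring
  rw [e2]
  rcases Nat.even_or_odd (a + b) with ⟨k, hk⟩ | h
  · rw [hk, ← h2, ← pow_mul, show (k + k) / 2 = k by omega, two_mul]
  · rw [polyC_odd h, zero_mul, zero_mul]

theorem poly_Zf_apply (p : Polynomial ℝ) (x : S2) :
    Zf (fun t => p.eval t) x = p.eval ((x : E3) 2) :=
  Zf_apply (by simpa using p.contDiff_aeval (𝕜 := ℝ) ∞) x

theorem poly_cont (φ : Sm) (x : S2) : Continuous fun θ : ℝ => φ (rotS (rotZ θ) x) :=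
  continuous_iff_continuousAt.2 fun θ => (hasDerivAt_rotZ φ x θ).continuousAt

/-- the zonal mean of a polynomial is a polynomial in `z` -/
theorem zav_Poly {N : ℕ} {φ : Sm} (h : φ ∈ Poly N) :
    ∃ p : Polynomial ℝ, Zf (fun t => p.eval t) ∈ Poly N ∧
      ∀ x, zav φ x = Zf (fun t => p.eval t) x := by
  induction h using Submodule.span_induction with
  | mem φ hφ =>
    obtain ⟨w, hw, rfl⟩ := hφ
    have hc : w.count 0 + w.count 1 + w.count 2 = w.length := by
      have h1 := List.sum_toFinset_count_eq_length w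
      rw [← h1, ← Fin.sum_univ_three fun a => w.count a]
      refine (Finset.sum_subset (Finset.subset_univ _) fun a _ ha => ?_).symm
      exact List.count_eq_zero_of_not_mem fun h => ha (List.mem_toFinset.2 h)
    rw [poly_prod_eq, Fin.prod_univ_three]
    generalize w.count 0 = a at hc
    generalize w.count 1 = b at hc
    generalize w.count 2 = c at hc
    refine ⟨Polynomial.C (polyC a b) * ((1 - Polynomial.X ^ 2) ^ ((a + b) / 2) * Polynomial.X ^ c),
      ?_, fun x => ?_⟩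
    · have e : Zf (fun t => (Polynomial.C (polyC a b) *
          ((1 - Polynomial.X ^ 2) ^ ((a + b) / 2) * Polynomial.X ^ c)).eval t) =
          polyC a b • ((1 - X 2 ^ 2) ^ ((a + b) / 2) * X 2 ^ c : Sm) := by
        ext x
        rw [poly_Zf_apply]
        simp
      rw [e]
      have m1 : (1 - X 2 ^ 2 : Sm) ∈ Poly 2 :=
        Submodule.sub_mem _ (one_mem_Poly 2) (poly_pow_mem (poly_X_mem 2) 2)
      refine Submodule.smul_mem _ _ (Poly_mono ?_
        (poly_mul_mem (poly_pow_mem m1 _) (poly_pow_mem (poly_X_mem 2) c)))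
      omega
    · rw [poly_zav_mono, poly_Zf_apply]
      simp
  | zero =>
    refine ⟨0, ?_, fun x => ?_⟩
    · have e : Zf (fun t => (0 : Polynomial ℝ).eval t) = 0 := by
        ext x
        rw [poly_Zf_apply]
        simp
      rw [e]
      exact Submodule.zero_mem _
    · rw [poly_Zf_apply]
      simp [zav]
  | add φ ψ _ _ h1 h2 =>
    obtain ⟨p, p1, p2⟩ := h1
    obtain ⟨q, q1, q2⟩ := h2
    have e : Zf (fun t => (p + q).eval t) = Zf (fun t => p.eval t) + Zf (fun t => q.eval t) := by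
      ext x
      rw [Sm.add_apply, poly_Zf_apply, poly_Zf_apply, poly_Zf_apply, Polynomial.eval_add]
    refine ⟨p + q, ?_, fun x => ?_⟩
    · rw [e]
      exact Submodule.add_mem _ p1 q1
    · rw [e, Sm.add_apply, ← p2, ← q2]
      unfold zav
      simp only [Sm.add_apply]
      rw [intervalIntegral.integral_add ((poly_cont φ x).intervalIntegrable _ _)
        ((poly_cont ψ x).intervalIntegrable _ _), mul_add]
  | smul c φ _ h1 =>
    obtain ⟨p, p1, p2⟩ := h1
    have e : Zf (fun t => (c • p).eval t) = c • Zf (fun t => p.eval t) := by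
      ext x
      rw [Sm.smul_apply, poly_Zf_apply, poly_Zf_apply, Polynomial.eval_smul, smul_eq_mul]
    refine ⟨c • p, ?_, fun x => ?_⟩
    · rw [e]
      exact Submodule.smul_mem _ _ p1
    · rw [e, Sm.smul_apply, ← p2]
      unfold zav
      simp only [Sm.smul_apply]
      rw [intervalIntegral.integral_const_mul, mul_left_comm]

/-- sup bound on polynomials (reproducing kernel, rotation invariance) -/
theorem sq_le_of_Poly {N : ℕ} {φ : Sm} (h : φ ∈ Poly N) (x : S2) :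
    φ x ^ 2 ≤ ((N : ℝ) + 1) ^ 3 * ‖φ‖ ^ 2 := by
  obtain ⟨e⟩ : Nonempty (OrthonormalBasis (Fin (Module.finrank ℝ (Poly N))) ℝ (Poly N)) :=
    ⟨stdOrthonormalBasis ℝ (Poly N)⟩
  have k1 : ∀ (ψ : Poly N) (y : S2),
      (ψ : Sm) y ^ 2 ≤ ‖(ψ : Sm)‖ ^ 2 * ∑ i, (e i : Sm) y * (e i : Sm) y := by
    intro ψ y
    have a1 : (ψ : Sm) y = ∑ i, inner ℝ (e i) ψ * (e i : Sm) y := by
      conv_lhs => rw [← e.sum_repr' ψ]
      rw [Submodule.coe_sum, Sm.sum_apply]
      rfl
    have a2 := Finset.sum_mul_sq_le_sq_mul_sq Finset.univ (fun i => inner ℝ (e i) ψ)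
      (fun i => (e i : Sm) y)
    rw [← a1, e.sum_sq_inner_right] at a2
    simpa only [sq, Submodule.coe_norm] using a2
  have k2 : ∀ y : S2, algebraMap ℝ Sm (φ x ^ 2) y ≤
      (‖φ‖ ^ 2 • ∑ i, (e i : Sm) * (e i : Sm) : Sm) y := by
    intro y
    have a0 : ‖(y : E3)‖ = ‖(x : E3)‖ := by rw [norm_eq_of_mem_sphere, norm_eq_of_mem_sphere]
    obtain ⟨g, hg⟩ : ∃ g : E3 ≃ₗᵢ[ℝ] E3, g y = x := ⟨_, Submodule.reflection_sub a0⟩
    have a1 := k1 ⟨act g φ, act_mem_Poly h g⟩ y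
    have a2 : rotS g y = x := Subtype.ext hg
    simp only [act_apply, a2, norm_act] at a1
    simpa only [Sm.algebraMap_apply, Sm.smul_apply, Sm.sum_apply, Sm.mul_apply] using a1
  have k3 := I_mono k2
  have k4 : ∀ i, I ((e i : Sm) * (e i : Sm)) = 1 := by
    intro i
    rw [← norm_sq_eq, ← Submodule.coe_norm, e.orthonormal.1 i, one_pow]
  rw [Algebra.algebraMap_eq_smul_one, map_smul, map_smul, map_sum, I_one] at k3
  simp only [k4, Finset.sum_const, Finset.card_univ, Fintype.card_fin, smul_eq_mul, mul_one,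
    nsmul_eq_mul] at k3
  have k5 : (Module.finrank ℝ (Poly N) : ℝ) ≤ ((N : ℝ) + 1) ^ 3 := by exact_mod_cast finrank_Poly N
  calc φ x ^ 2 ≤ _ := k3
    _ ≤ ‖φ‖ ^ 2 * ((N : ℝ) + 1) ^ 3 := mul_le_mul_of_nonneg_left k5 (sq_nonneg _)
    _ = _ := mul_comm _ _

end Pool.Agent.Lib.MP_2fa2a2_gt.PI
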