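import Pool.Agent.Lib.MP_2fa2a2_gt.PI.PullAY

namespace Pool.Agent.Lib.MP_2fa2a2_gt.PI

open MeasureTheory

theorem plA_split (y : Sm) : ∃ ψ, y = I y • (1 : Sm) + lap ψ := by
  have hp : PG fun l => -(ll l)⁻¹ := PG.of_bdd (B := 1) fun l => by
    rw [abs_neg, abs_inv]
    rcases Nat.eq_zero_or_pos l with rfl | hl
    · simp [ll]
    · have h1 : (1 : ℝ) ≤ l := Nat.one_le_cast.2 hl
      have h2 : 1 ≤ ll l := one_le_mul_of_one_le_of_one_le h1 (by linarith)
      exact inv_le_one_of_one_le₀ (h2.trans (le_abs_self _))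
  refine ⟨fn (fun l => -(ll l)⁻¹) y, eq_of_P fun l => ?_⟩
  rw [map_add, P_lap, P_fn hp, smul_smul, ← Algebra.algebraMap_eq_smul_one, ← P_zero, P_P]
  rcases Nat.eq_zero_or_pos l with rfl | hl
  · simp [ll]
  · have h1 : (0 : ℝ) < l := Nat.cast_pos.2 hl
    have h2 : ll l ≠ 0 := (mul_pos h1 (by linarith)).ne'
    rw [if_neg hl.ne', zero_add, neg_mul_neg, mul_inv_cancel₀ h2, one_smul]

namespace plA_Pos
variable {u : Sm} (hu : plA_Pos u)
include hu

theorem I_XX (y : Sm) : I (XX u y) = I y := by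
  have h0 : ∀ a z, I (XX u (L a z)) = 0 := fun a z => by
    have h := hu.piola' a 1 z
    rw [one_mul, Lt_apply] at h
    simpa using h
  have h1 : XX u 1 = Jac u := by
    show Jac u * pull u 1 = _
    rw [hu.pull_one, mul_one]
  obtain ⟨ψ, h⟩ := plA_split y
  rw [congrArg (XX u) h, lap_def]
  simp only [map_add, map_smul, map_sum, h0, h1, hu.I_Jac]
  simp

theorem inner_pull (y y' : Sm) : inner ℝ (XX u y) (pull u y') = inner ℝ y y' := by
  rw [inner_def, inner_def, ← hu.I_XX (y * y')]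
  congr 1
  show Jac u * pull u y * pull u y' = Jac u * pull u (y * y')
  rw [hu.pull_mul, mul_assoc]

theorem xm_cont : Continuous (xm u) := by
  refine Continuous.subtype_mk (f := fun x => (xm u x : E3)) ?_ fun x => (xm u x).2
  have e : (fun x => (xm u x : E3)) = fun x => WithLp.toLp 2 fun d => plA_xi u d x := by
    funext x
    ext d
    exact hu.xm_coord x d
  rw [e]
  exact (PiLp.continuous_toLp 2 _).comp (continuous_pi fun d => (plA_xi u d).continuous)

theorem integral (F : S2 → ℝ) (hF : Continuous F) :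
    ∫ x, Jac u x * F (xm u x) ∂sig = ∫ x, F x ∂sig := by
  obtain ⟨C, hC0, hC⟩ := (Jac u).bounded
  refine eq_of_forall_dist_le fun ε hε => ?_
  obtain ⟨N, p, -, hp⟩ := exists_Poly_near hF (η := ε / (C + 1)) (by positivity)
  have e1 : ∫ x, Jac u x * p (xm u x) ∂sig = ∫ x, p x ∂sig := by
    rw [← I_def, ← hu.I_XX, I_def]
    refine integral_congr_ae (Filter.Eventually.of_forall fun x => ?_)
    show _ = Jac u x * pull u p x
    rw [hu.pull_apply]
  have i1 := integrable_of_continuous ((Jac u).continuous.mul (hF.comp hu.xm_cont))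
  have i2 := integrable_of_continuous ((Jac u).continuous.mul (p.continuous.comp hu.xm_cont))
  have b1 : ‖∫ x, (Jac u x * F (xm u x) - Jac u x * p (xm u x)) ∂sig‖ ≤ C * (ε / (C + 1)) := by
    have := norm_integral_le_of_norm_le_const (μ := sig) (C := C * (ε / (C + 1)))
      (f := fun x => Jac u x * F (xm u x) - Jac u x * p (xm u x))
      (Filter.Eventually.of_forall fun x => by
        rw [← mul_sub, Real.norm_eq_abs, abs_mul]
        exact mul_le_mul (hC x) (hp _) (abs_nonneg _) hC0)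
    simpa using this
  have b2 : ‖∫ x, (F x - p x) ∂sig‖ ≤ ε / (C + 1) := by
    have := norm_integral_le_of_norm_le_const (μ := sig) (C := ε / (C + 1))
      (f := fun x => F x - p x) (Filter.Eventually.of_forall fun x => hp x)
    simpa using this
  rw [integral_sub (integrable_of_continuous hF) (int_integrable p), Real.norm_eq_abs, abs_le] at b2
  have e2 : ∫ x, (Jac u x * F (xm u x) - Jac u x * p (xm u x)) ∂sig
      = ∫ x, Jac u x * F (xm u x) ∂sig - ∫ x, Jac u x * p (xm u x) ∂sig := integral_sub i1 i2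
  rw [e2, e1, Real.norm_eq_abs, abs_le] at b1
  have e3 : C * (ε / (C + 1)) + ε / (C + 1) = ε := by field_simp
  rw [Real.dist_eq, abs_le]
  constructor <;> linarith [b1.1, b1.2, b2.1, b2.2]

end plA_Pos

theorem plA_mul_le {a b A B : ℝ} (ha : |a| ≤ A) (hb : |b| ≤ B) : |a * b| ≤ A * B := by
  rw [abs_mul]
  exact mul_le_mul ha hb (abs_nonneg _) ((abs_nonneg _).trans ha)

theorem plA_H_le {u : Sm} {δ : ℝ} (h : Cb 2 1 δ u) (a b : Fin 3) (x : S2) :
    |H a b u x| ≤ 12 * δ := by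
  have h1 : Cb 1 1 (2 ^ (1 + 1) * δ * 1) (D b u) := Cb.D le_rfl h b
  have h2 : Cb 1 1 (2 ^ 1 * 1 * δ) (X b * u) :=
    Cb.mul zero_le_one (Cb_X le_rfl 1 b) (h.mono zero_le_one (by norm_num) le_rfl le_rfl)
  have h3 := (Cb.D (k := 0) le_rfl (h1.add h2) a).abs_le x
  rw [H_def]
  exact h3.trans (le_of_eq (by ring))

theorem plA_Q_bd {u : Sm} (h : Cb 2 1 (1 / 1000) u) (x : S2) :
    |Qf (1 + u) (1 + u) x - 1| ≤ 1 / 10 := by
  have e : Qf (1 + u) (1 + u) = 1 + Dop u + Qf u u := by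
    simp only [map_add, LinearMap.add_apply]
    rw [Qf_comm u 1, Qf_one, Qf_one, hess_Dop_one]
    ext x
    have t : (2 : Sm) x = 2 := rfl
    simp only [Sm.add_apply, Sm.smul_apply, Sm.one_apply, t]
    ring
  have b := fun a b => plA_H_le h a b x
  have m := fun a c d e => abs_le.1 (plA_mul_le (b a c) (b d e))
  rw [e, plA_T, plA_Q]
  simp only [Sm.add_apply, Sm.sub_apply, Sm.mul_apply, Sm.one_apply]
  rw [abs_le]
  constructor <;>
  linarith [abs_le.1 (b 0 0), abs_le.1 (b 1 1), abs_le.1 (b 2 2), m 0 0 1 1, m 0 0 2 2, m 1 1 2 2,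
    m 0 1 0 1, m 0 2 0 2, m 1 2 1 2]

theorem plA_p2_bd {u : Sm} (h : Cb 2 1 (1 / 1000) u) (x : S2) : |p2 u x - 1| ≤ 1 / 10 := by
  have b0 := h.abs_le x
  have b := fun a => (Cb.L (k := 1) h a).abs_le x
  have m := fun a => abs_le.1 (plA_mul_le (b a) (b a))
  have m0 := abs_le.1 (plA_mul_le b0 b0)
  rw [p2, alg_gd]
  simp only [Sm.add_apply, Sm.mul_apply, Sm.one_apply]
  rw [abs_le]
  constructor <;> linarith [abs_le.1 b0, m 0, m 1, m 2]

theorem plA_jac_bd {q h r p : ℝ} (hq : |q - 1| ≤ 1 / 10) (hh : |h - 1| ≤ 1 / 10) (hr : 0 < r)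
    (hp : |p - 1| ≤ 1 / 10) (e : r * r * p = 1) :
    1 / 2 ≤ q * h * (r * r * r) ∧ q * h * (r * r * r) ≤ 2 := by
  obtain ⟨q1, q2⟩ := abs_le.1 hq
  obtain ⟨h1, h2⟩ := abs_le.1 hh
  obtain ⟨p1, p2⟩ := abs_le.1 hp
  have r0 : 0 < r * r := mul_pos hr hr
  have r1 : 9 / 10 ≤ r := by
    by_contra hc
    have : r * r ≤ 9 / 10 * (9 / 10) := mul_self_le_mul_self hr.le (not_le.1 hc).le
    nlinarith
  have r2 : r ≤ 11 / 10 := by
    by_contra hc
    have : 11 / 10 * (11 / 10) ≤ r * r := mul_self_le_mul_self (by norm_num) (not_le.1 hc).le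
    nlinarith
  have lo : ∀ {a b A B : ℝ}, 0 ≤ A → 0 ≤ B → A ≤ a → B ≤ b → A * B ≤ a * b :=
    fun hA hB ha hb => mul_le_mul ha hb hB (hA.trans ha)
  have q0 : 9 / 10 ≤ q := by linarith
  have h0 : 9 / 10 ≤ h := by linarith
  have q3 : q ≤ 11 / 10 := by linarith
  have h3 : h ≤ 11 / 10 := by linarith
  constructor
  · refine le_trans (by norm_num) (lo ?_ ?_ (lo ?_ ?_ q0 h0) (lo ?_ ?_ (lo ?_ ?_ r1 r1) r1)) <;>
      norm_num
  · refine le_trans (lo ?_ ?_ (lo ?_ ?_ q3 h3) (lo ?_ ?_ (lo ?_ ?_ r2 r2) r2)) (by norm_num) <;>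
      positivity

theorem pullA : PullAStmt := by
  refine ⟨1 / 1000, by norm_num, fun u h => ?_⟩
  have b0 := fun x => abs_le.1 (h.abs_le x)
  have b1 := fun x => abs_le.1 (plA_p2_bd h x)
  have b2 := fun x => abs_le.1 (plA_Q_bd h x)
  have hu : plA_Pos u := ⟨fun x => by
      rw [Sm.add_apply, Sm.one_apply]; linarith [(b0 x).1],
    fun x => by linarith [(b1 x).1], fun x => by linarith [(b2 x).1]⟩
  have hj : ∀ x, 1 / 2 ≤ Jac u x ∧ Jac u x ≤ 2 := fun x => by
    have e1 : pk (-3) u = pk (-1) u * pk (-1) u * pk (-1) u := by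
      rw [hu.pk_mul, hu.pk_mul]; norm_num
    have e2 : pk (-1) u * pk (-1) u * p2 u = 1 := by
      rw [← hu.pk_two, hu.pk_mul, hu.pk_mul, ← hu.pk_zero]; norm_num
    rw [Jac, e1]
    refine plA_jac_bd (plA_Q_bd h x) ?_ (hu.pk_pos (-1) x) (plA_p2_bd h x)
      (congrArg (fun f : Sm => f x) e2)
    show |1 + u x - 1| ≤ 1 / 10
    rw [add_sub_cancel_left]
    exact (h.abs_le x).trans (by norm_num)
  exact
    { small := fun x => (h.abs_le x).trans (by norm_num)
      p2_ge := fun x => by linarith [(b1 x).1]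
      p2_le := fun x => by linarith [(b1 x).2]
      det_ge := fun x => by linarith [(b2 x).1]
      jac_ge := fun x => (hj x).1
      jac_le := fun x => (hj x).2
      pk_apply := hu.pk_apply
      pk_two := hu.pk_two
      hinv_mul := hu.hinv_mul
      dinv_mul := hu.dinv_mul
      norm_pvec := hu.norm_pvec
      xm_coe := hu.xm_coe
      pull_apply := hu.pull_apply
      pull_L := hu.pull_L
      Lt_pk := hu.Lt_pk
      piola := hu.piola
      piola' := hu.piola'
      I_XX := hu.I_XX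
      integral := hu.integral
      inner_pull := hu.inner_pull }

end Pool.Agent.Lib.MP_2fa2a2_gt.PI
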