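import Pool.Agent.Lib.MP_2fa2a2_gt.PI.SPull

/-! Algebraic identities for the reverse Gauss map. -/

namespace Pool.Agent.Lib.MP_2fa2a2_gt.PI

section ring
variable {R : Type} [CommRing R]

/-- the cofactor matrix inverts the Hessian on tangent vectors -/
theorem plA_ch (x0 x1 x2 a00 a01 a02 a11 a12 a22 y0 y1 y2 : R)
    (hx : x0 * x0 + x1 * x1 + x2 * x2 = 1)
    (k0 : x0 * a00 + x1 * a01 + x2 * a02 = 0)
    (k1 : x0 * a01 + x1 * a11 + x2 * a12 = 0)
    (k2 : x0 * a02 + x1 * a12 + x2 * a22 = 0)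
    (hy : x0 * y0 + x1 * y1 + x2 * y2 = 0) :
    ((a11 + a22) * y0 - a01 * y1 - a02 * y2) * a00 + ((a00 + a22) * y1 - a01 * y0 - a12 * y2) * a01
      + ((a00 + a11) * y2 - a02 * y0 - a12 * y1) * a02
      = (a00 * a11 + a00 * a22 + a11 * a22 - a01 * a01 - a02 * a02 - a12 * a12) * y0 := by
  grind

/-- the cofactor matrix as a conjugate of the Hessian -/
theorem plA_rot (x0 x1 x2 a00 a01 a02 a11 a12 a22 z0 z1 z2 : R)
    (hx : x0 * x0 + x1 * x1 + x2 * x2 = 1)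
    (k0 : x0 * a00 + x1 * a01 + x2 * a02 = 0)
    (k1 : x0 * a01 + x1 * a11 + x2 * a12 = 0)
    (k2 : x0 * a02 + x1 * a12 + x2 * a22 = 0)
    (hz : x0 * z0 + x1 * z1 + x2 * z2 = 0) :
    (a11 + a22) * z0 - a01 * z1 - a02 * z2
      = x2 * (a01 * (x1 * z2 - x2 * z1) + a11 * (x2 * z0 - x0 * z2) + a12 * (x0 * z1 - x1 * z0))
        - x1 * (a02 * (x1 * z2 - x2 * z1) + a12 * (x2 * z0 - x0 * z2)
          + a22 * (x0 * z1 - x1 * z0)) := by
  grind

theorem plA_crs (x0 x1 x2 p0 p1 p2 b0 b1 b2 : R)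
    (hx : x0 * x0 + x1 * x1 + x2 * x2 = 1) (hb : x0 * b0 + x1 * b1 + x2 * b2 = 0) :
    b0 * (x1 * ((x0 * p0 + x1 * p1 + x2 * p2) * p1 + (x1 * p2 - x2 * p1) * p2)
        - x2 * (-((x0 * p0 + x1 * p1 + x2 * p2) * p2) + (x1 * p2 - x2 * p1) * p1))
      + b1 * (x2 * ((x1 * p2 - x2 * p1) * p0)
        - x0 * ((x0 * p0 + x1 * p1 + x2 * p2) * p1 + (x1 * p2 - x2 * p1) * p2))
      + b2 * (x0 * (-((x0 * p0 + x1 * p1 + x2 * p2) * p2) + (x1 * p2 - x2 * p1) * p1)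
        - x1 * ((x1 * p2 - x2 * p1) * p0))
      = (p0 * p0 + p1 * p1 + p2 * p2) * b0 - (b0 * p0 + b1 * p1 + b2 * p2) * p0 := by
  grind

theorem plA_pot (x0 x1 x2 a0 a1 a2 m00 m01 m02 m10 m11 m12 m20 m21 m22 : R)
    (hx : x0 * x0 + x1 * x1 + x2 * x2 = 1) (ha : a0 * a0 + a1 * a1 + a2 * a2 = 1)
    (r0 : a0 * m00 + a1 * m10 + a2 * m20 = 0)
    (r1 : a0 * m01 + a1 * m11 + a2 * m21 = 0)
    (r2 : a0 * m02 + a1 * m12 + a2 * m22 = 0)
    (s0 : x0 * m00 + x1 * m01 + x2 * m02 = 0)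
    (s1 : x0 * m10 + x1 * m11 + x2 * m12 = 0)
    (s2 : x0 * m20 + x1 * m21 + x2 * m22 = 0) :
    (1 + (a0 * x0 + a1 * x1 + a2 * x2))
        * ((m12 - m21) * (x0 - a0) + (m20 - m02) * (x1 - a1) + (m01 - m10) * (x2 - a2))
      + ((x1 * a2 - x2 * a1) * (m00 * a0 + m01 * a1 + m02 * a2)
        + (x2 * a0 - x0 * a2) * (m10 * a0 + m11 * a1 + m12 * a2)
        + (x0 * a1 - x1 * a0) * (m20 * a0 + m21 * a1 + m22 * a2))
      - ((x1 * a2 - x2 * a1) * (m00 * x0 + m10 * x1 + m20 * x2)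
        + (x2 * a0 - x0 * a2) * (m01 * x0 + m11 * x1 + m21 * x2)
        + (x0 * a1 - x1 * a0) * (m02 * x0 + m12 * x1 + m22 * x2)) = 0 := by
  grind

end ring

theorem plA_Q (h : Sm) : Qf h h = H 0 0 h * H 1 1 h + H 0 0 h * H 2 2 h + H 1 1 h * H 2 2 h
    - H 0 1 h * H 0 1 h - H 0 2 h * H 0 2 h - H 1 2 h * H 1 2 h := by
  rw [Qf_def, ← H_trace]
  simp only [Fin.sum_univ_three, H_symm 1 0, H_symm 2 0, H_symm 2 1]
  ext x
  simp only [Sm.smul_apply, Sm.add_apply, Sm.sub_apply, Sm.mul_apply]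
  ring

theorem plA_T (h : Sm) : Dop h = H 0 0 h + H 1 1 h + H 2 2 h := by
  rw [← H_trace, Fin.sum_univ_three]

theorem plA_k0 (h : Sm) : X 0 * H 0 0 h + X 1 * H 0 1 h + X 2 * H 0 2 h = 0 := by
  have k := sum_X_H 0 h
  rwa [Fin.sum_univ_three, H_symm 1 0, H_symm 2 0] at k
theorem plA_k1 (h : Sm) : X 0 * H 0 1 h + X 1 * H 1 1 h + X 2 * H 1 2 h = 0 := by
  have k := sum_X_H 1 h
  rwa [Fin.sum_univ_three, H_symm 2 1] at k
theorem plA_k2 (h : Sm) : X 0 * H 0 2 h + X 1 * H 1 2 h + X 2 * H 2 2 h = 0 := by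
  have k := sum_X_H 2 h
  rwa [Fin.sum_univ_three] at k

/-- the cofactor matrix applied to a vector field -/
noncomputable def plA_cof (h : Sm) (Y : Fin 3 → Sm) (b : Fin 3) : Sm :=
  ∑ c, (Dop h * kd b c - H b c h) * Y c

theorem plA_cof0 (h : Sm) (Y : Fin 3 → Sm) :
    plA_cof h Y 0 = (H 1 1 h + H 2 2 h) * Y 0 - H 0 1 h * Y 1 - H 0 2 h * Y 2 := by
  rw [plA_cof, Fin.sum_univ_three, plA_T, alg_kd, alg_kd_ne (by decide), alg_kd_ne (by decide)]
  ring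
theorem plA_cof1 (h : Sm) (Y : Fin 3 → Sm) :
    plA_cof h Y 1 = (H 0 0 h + H 2 2 h) * Y 1 - H 0 1 h * Y 0 - H 1 2 h * Y 2 := by
  rw [plA_cof, Fin.sum_univ_three, plA_T, alg_kd, alg_kd_ne (by decide), alg_kd_ne (by decide),
    H_symm 1 0]
  ring
theorem plA_cof2 (h : Sm) (Y : Fin 3 → Sm) :
    plA_cof h Y 2 = (H 0 0 h + H 1 1 h) * Y 2 - H 0 2 h * Y 0 - H 1 2 h * Y 1 := by
  rw [plA_cof, Fin.sum_univ_three, plA_T, alg_kd, alg_kd_ne (by decide), alg_kd_ne (by decide),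
    H_symm 2 0, H_symm 2 1]
  ring

theorem plA_cof_H (h : Sm) (Y : Fin 3 → Sm) (hY : X 0 * Y 0 + X 1 * Y 1 + X 2 * Y 2 = 0)
    (d : Fin 3) : ∑ b, plA_cof h Y b * H b d h = Qf h h * Y d := by
  have s := alg_s
  have k0 := plA_k0 h
  have k1 := plA_k1 h
  have k2 := plA_k2 h
  rw [Fin.sum_univ_three, plA_cof0, plA_cof1, plA_cof2, plA_Q]
  rcases alg_fin d with rfl | rfl | rfl
  · rw [H_symm 1 0, H_symm 2 0]
    exact plA_ch _ _ _ _ _ _ _ _ _ _ _ _ s k0 k1 k2 hY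
  · rw [H_symm 2 1]
    linear_combination plA_ch (X 1) (X 2) (X 0) (H 1 1 h) (H 1 2 h) (H 0 1 h) (H 2 2 h) (H 0 2 h)
      (H 0 0 h) (Y 1) (Y 2) (Y 0) (by linear_combination s) (by linear_combination k1)
      (by linear_combination k2) (by linear_combination k0) (by linear_combination hY)
  · linear_combination plA_ch (X 2) (X 0) (X 1) (H 2 2 h) (H 0 2 h) (H 1 2 h) (H 0 0 h) (H 0 1 h)
      (H 1 1 h) (Y 2) (Y 0) (Y 1) (by linear_combination s) (by linear_combination k2)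
      (by linear_combination k0) (by linear_combination k1) (by linear_combination hY)

theorem plA_cof_X (h : Sm) (Y : Fin 3 → Sm) (hY : X 0 * Y 0 + X 1 * Y 1 + X 2 * Y 2 = 0) :
    ∑ b, X b * plA_cof h Y b = 0 := by
  rw [Fin.sum_univ_three, plA_cof0, plA_cof1, plA_cof2]
  linear_combination (H 0 0 h + H 1 1 h + H 2 2 h) * hY - Y 0 * plA_k0 h - Y 1 * plA_k1 h
    - Y 2 * plA_k2 h

theorem plA_cof_rot (h : Sm) (Z : Fin 3 → Sm) (hZ : X 0 * Z 0 + X 1 * Z 1 + X 2 * Z 2 = 0)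
    (b : Fin 3) : plA_cof h Z b = -∑ e, L b (X e) * (H e 0 h * (X 1 * Z 2 - X 2 * Z 1)
      + H e 1 h * (X 2 * Z 0 - X 0 * Z 2) + H e 2 h * (X 0 * Z 1 - X 1 * Z 0)) := by
  have s := alg_s
  have k0 := plA_k0 h
  have k1 := plA_k1 h
  have k2 := plA_k2 h
  rw [Fin.sum_univ_three, H_symm 1 0, H_symm 2 0, H_symm 2 1]
  rcases alg_fin b with rfl | rfl | rfl
  · rw [plA_cof0, L_X_self, alg_01, alg_02]
    linear_combination plA_rot _ _ _ _ _ _ _ _ _ _ _ _ s k0 k1 k2 hZ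
  · rw [plA_cof1, L_X_self, alg_10, alg_12]
    linear_combination plA_rot (X 1) (X 2) (X 0) (H 1 1 h) (H 1 2 h) (H 0 1 h) (H 2 2 h) (H 0 2 h)
      (H 0 0 h) (Z 1) (Z 2) (Z 0) (by linear_combination s) (by linear_combination k1)
      (by linear_combination k2) (by linear_combination k0) (by linear_combination hZ)
  · rw [plA_cof2, L_X_self, alg_20, alg_21]
    linear_combination plA_rot (X 2) (X 0) (X 1) (H 2 2 h) (H 0 2 h) (H 1 2 h) (H 0 0 h) (H 0 1 h)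
      (H 1 1 h) (Z 2) (Z 0) (Z 1) (by linear_combination s) (by linear_combination k2)
      (by linear_combination k0) (by linear_combination k1) (by linear_combination hZ)

theorem plA_D_pv (u : Sm) (b a : Fin 3) : D b (pv u a) = H b a (1 + u) := by
  rw [H_def, pv, map_add (D a), D_one, zero_add, add_comm, mul_comm]

theorem plA_X_pv (u : Sm) : X 0 * pv u 0 + X 1 * pv u 1 + X 2 * pv u 2 = 1 + u := by
  have h := sum_X_D u
  rw [Fin.sum_univ_three] at h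
  simp only [pv]
  linear_combination (1 + u) * alg_s + h

theorem plA_p2 (u : Sm) : p2 u = pv u 0 * pv u 0 + pv u 1 * pv u 1 + pv u 2 * pv u 2 := by
  have h := sum_X_D u
  rw [Fin.sum_univ_three] at h
  simp only [pv, p2, gd_eq_D, Fin.sum_univ_three]
  linear_combination -(1 + u) * (1 + u) * alg_s - 2 * (1 + u) * h

theorem plA_L0 (u : Sm) : L 0 u = X 1 * pv u 2 - X 2 * pv u 1 := by
  rw [L_eq_D 0 u, pv, pv]
  change X 1 * D 2 u - X 2 * D 1 u = _
  ring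
theorem plA_L1 (u : Sm) : L 1 u = X 2 * pv u 0 - X 0 * pv u 2 := by
  rw [L_eq_D 1 u, pv, pv]
  change X 2 * D 0 u - X 0 * D 2 u = _
  ring
theorem plA_L2 (u : Sm) : L 2 u = X 0 * pv u 1 - X 1 * pv u 0 := by
  rw [L_eq_D 2 u, pv, pv]
  change X 0 * D 1 u - X 1 * D 0 u = _
  ring

theorem plA_ev0 (p : Fin 3 → Sm) : ∑ d, ev 0 0 d • p d = 0 ∧ ∑ d, ev 0 1 d • p d = -p 2 ∧
    ∑ d, ev 0 2 d • p d = p 1 := by
  simp [ev]
theorem plA_ev1 (p : Fin 3 → Sm) : ∑ d, ev 1 0 d • p d = p 2 ∧ ∑ d, ev 1 1 d • p d = 0 ∧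
    ∑ d, ev 1 2 d • p d = -p 0 := by
  simp [ev]
theorem plA_ev2 (p : Fin 3 → Sm) : ∑ d, ev 2 0 d • p d = -p 1 ∧ ∑ d, ev 2 1 d • p d = p 0 ∧
    ∑ d, ev 2 2 d • p d = 0 := by
  simp [ev]

/-- the tangent field `h (e × p) + (L u) p` -/
noncomputable def plA_Z (u : Sm) (a c : Fin 3) : Sm :=
  (1 + u) * ∑ d, ev a c d • pv u d + L a u * pv u c

theorem plA_Z_tan (u : Sm) (a : Fin 3) :
    X 0 * plA_Z u a 0 + X 1 * plA_Z u a 1 + X 2 * plA_Z u a 2 = 0 := by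
  have h := plA_X_pv u
  simp only [plA_Z]
  rcases alg_fin a with rfl | rfl | rfl
  · rw [(plA_ev0 _).1, (plA_ev0 _).2.1, (plA_ev0 _).2.2]
    linear_combination L 0 u * h + (1 + u) * plA_L0 u
  · rw [(plA_ev1 _).1, (plA_ev1 _).2.1, (plA_ev1 _).2.2]
    linear_combination L 1 u * h + (1 + u) * plA_L1 u
  · rw [(plA_ev2 _).1, (plA_ev2 _).2.1, (plA_ev2 _).2.2]
    linear_combination L 2 u * h + (1 + u) * plA_L2 u

theorem plA_Z_crs (u : Sm) (a : Fin 3) (B : Fin 3 → Sm)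
    (hB : X 0 * B 0 + X 1 * B 1 + X 2 * B 2 = 0) :
    B 0 * (X 1 * plA_Z u a 2 - X 2 * plA_Z u a 1) + B 1 * (X 2 * plA_Z u a 0 - X 0 * plA_Z u a 2)
      + B 2 * (X 0 * plA_Z u a 1 - X 1 * plA_Z u a 0)
      = p2 u * B a - (B 0 * pv u 0 + B 1 * pv u 1 + B 2 * pv u 2) * pv u a := by
  have s := alg_s
  simp only [plA_Z]
  rw [plA_p2, ← plA_X_pv u]
  rcases alg_fin a with rfl | rfl | rfl
  · rw [(plA_ev0 _).1, (plA_ev0 _).2.1, (plA_ev0 _).2.2, plA_L0]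
    linear_combination plA_crs (X 0) (X 1) (X 2) (pv u 0) (pv u 1) (pv u 2) (B 0) (B 1) (B 2) s hB
  · rw [(plA_ev1 _).1, (plA_ev1 _).2.1, (plA_ev1 _).2.2, plA_L1]
    linear_combination plA_crs (X 1) (X 2) (X 0) (pv u 1) (pv u 2) (pv u 0) (B 1) (B 2) (B 0)
      (by linear_combination s) (by linear_combination hB)
  · rw [(plA_ev2 _).1, (plA_ev2 _).2.1, (plA_ev2 _).2.2, plA_L2]
    linear_combination plA_crs (X 2) (X 0) (X 1) (pv u 2) (pv u 0) (pv u 1) (B 2) (B 0) (B 1)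
      (by linear_combination s) (by linear_combination hB)

/-- the Poisson bracket -/
noncomputable def plA_br (f g : Sm) : Sm := ∑ b, L b f * D b g

theorem plA_D_L (f : Sm) : ∑ b, D b (L b f) = 0 := by
  rw [Fin.sum_univ_three]
  simp only [alg_D0, alg_D1, alg_D2, alg_c10, alg_c21, alg_c20]
  linear_combination alg_r f

theorem plA_L_D (f : Sm) : ∑ b, L b (D b f) = 0 := by
  have h := plA_D_L f
  simp only [L_D, Fin.sum_univ_three (f := fun b => _ + _)]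
  rw [(plA_ev0 _).1, (plA_ev1 _).2.1, (plA_ev2 _).2.2]
  rw [Fin.sum_univ_three] at h
  linear_combination h

theorem plA_I_br (f g : Sm) : I (plA_br f g) = 0 := by
  have e : plA_br f g = ∑ b, L b (f * D b g) := by
    have h := plA_L_D g
    simp only [plA_br, L_mul, Fin.sum_univ_three] at *
    linear_combination -f * h
  rw [e, map_sum]
  simp

theorem plA_br_X (k : Fin 3) (f : Sm) : plA_br (X k) f = -L k f := by
  rw [plA_br, L_eq_sum_D k f, Fin.sum_univ_three, Fin.sum_univ_three]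
  rcases alg_fin k with rfl | rfl | rfl <;>
    simp only [L_X_self, alg_01, alg_02, alg_12, alg_10, alg_20, alg_21] <;> ring

theorem plA_br_X' (k : Fin 3) (f : Sm) : plA_br f (X k) = L k f := by
  have h1 := alg_r f
  have h2 := hess_sum_kd k (fun b => L b f)
  simp only [plA_br, D_X, Fin.sum_univ_three] at *
  linear_combination h2 - X k * h1

theorem plA_br_mul (f g k : Sm) : plA_br (f * g) k = f * plA_br g k + g * plA_br f k := by
  simp only [plA_br, L_mul, Fin.sum_univ_three]; ring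
theorem plA_br_add (f g k : Sm) : plA_br (f + g) k = plA_br f k + plA_br g k := by
  simp only [plA_br, map_add, Fin.sum_univ_three]; ring
theorem plA_br_sub (f g k : Sm) : plA_br (f - g) k = plA_br f k - plA_br g k := by
  simp only [plA_br, map_sub, Fin.sum_univ_three]; ring
theorem plA_br_add' (f g k : Sm) : plA_br k (f + g) = plA_br k f + plA_br k g := by
  simp only [plA_br, map_add, Fin.sum_univ_three]; ring

theorem plA_br_inv {w s : Sm} (hw : w * (1 + s) = 1) (k : Sm) :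
    plA_br w k = -(w * w * plA_br s k) := by
  have h : ∀ b, L b w = -(w * w * L b s) := fun b => by
    have h1 := congrArg (L b) hw
    rw [L_mul, map_add, L_one, zero_add] at h1
    linear_combination w * h1 - L b w * hw
  simp only [plA_br, h, Fin.sum_univ_three]; ring

/-- a map of the sphere to itself that is nowhere antipodal has degree one -/
theorem plA_deg (a : Fin 3 → Sm) (J w : Sm) (ha : a 0 * a 0 + a 1 * a 1 + a 2 * a 2 = 1)
    (hw : w * (1 + (a 0 * X 0 + a 1 * X 1 + a 2 * X 2)) = 1)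
    (hJ : ∀ j k, plA_br (a j) (a k) = -(J * ∑ d, ev j k d • a d)) : I J = 1 := by
  have r : ∀ k, a 0 * L k (a 0) + a 1 * L k (a 1) + a 2 * L k (a 2) = 0 := fun k => by
    have h := congrArg (L k) ha
    simp only [map_add, L_mul, L_one] at h
    ext x
    have h2 := congrArg (fun f : Sm => f x) h
    simp only [Sm.add_apply, Sm.mul_apply, Sm.zero_apply] at h2 ⊢
    linarith
  have key := plA_pot (X 0) (X 1) (X 2) (a 0) (a 1) (a 2) _ _ _ _ _ _ _ _ _ alg_s ha (r 0) (r 1)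
    (r 2) (alg_r (a 0)) (alg_r (a 1)) (alg_r (a 2))
  have e : J - 1 = plA_br (w * (X 1 * a 2 - X 2 * a 1)) (a 0 + X 0)
      + plA_br (w * (X 2 * a 0 - X 0 * a 2)) (a 1 + X 1)
      + plA_br (w * (X 0 * a 1 - X 1 * a 0)) (a 2 + X 2) := by
    simp only [plA_br_mul, plA_br_inv hw]
    simp only [plA_br_mul, plA_br_add, plA_br_sub, plA_br_add', hJ]
    simp only [plA_br_X', plA_br_X, L_X_self, alg_01, alg_02, alg_12, alg_10, alg_20, alg_21,
      plA_ev0, plA_ev1, plA_ev2]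
    linear_combination -(w * w) * key
      - (J - 1) * (1 + w * (1 - (a 0 * X 0 + a 1 * X 1 + a 2 * X 2))) * hw
      - (J - 1) * w * w * (a 0 * a 0 + a 1 * a 1 + a 2 * a 2) * alg_s - (J - 1) * w * w * ha
      + w * ((L 2 (a 1) - L 1 (a 2)) * (X 0 - a 0) + (L 0 (a 2) - L 2 (a 0)) * (X 1 - a 1)
        + (L 1 (a 0) - L 0 (a 1)) * (X 2 - a 2)) * hw
  have h := congrArg I e
  simp only [map_add, map_sub, plA_I_br, I_one] at h
  linarith

end Pool.Agent.Lib.MP_2fa2a2_gt.PI
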