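import Pool.Agent.Lib.MP_2fa2a2_gt.PI.PullAX

/-! The chain rule and the Piola identity for the reverse Gauss map. -/

namespace Pool.Agent.Lib.MP_2fa2a2_gt.PI

open MeasureTheory
open scoped ContDiff

/-- positivity of the three denominators -/
structure plA_Pos (u : Sm) : Prop where
  h_pos : ∀ x, 0 < (1 + u) x
  p2_pos : ∀ x, 0 < p2 u x
  det_pos : ∀ x, 0 < Qf (1 + u) (1 + u) x

/-- coordinates of the map `xm u` -/
noncomputable def plA_xi (u : Sm) (d : Fin 3) : Sm := pk (-1) u * pv u d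

theorem plA_inv_mul {φ : Sm} (h : ∀ x, 0 < φ x) : cp (fun t => t⁻¹) φ * φ = 1 := by
  ext x
  rw [Sm.mul_apply, cp_apply (fun x => contDiffAt_inv ℝ (h x).ne'), Sm.one_apply]
  exact inv_mul_cancel₀ (h x).ne'

namespace plA_Pos
variable {u : Sm} (hu : plA_Pos u)
include hu

theorem smooth (k : ℝ) (x : S2) : ContDiffAt ℝ ∞ (fun t : ℝ => t ^ (k / 2)) (p2 u x) :=
  Real.contDiffAt_rpow_const_of_ne (hu.p2_pos x).ne'

theorem pk_apply (k : ℝ) (x : S2) : pk k u x = p2 u x ^ (k / 2) := cp_apply (hu.smooth k) x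

theorem pk_pos (k : ℝ) (x : S2) : 0 < pk k u x := by
  rw [hu.pk_apply]; exact Real.rpow_pos_of_pos (hu.p2_pos x) _

theorem pk_mul (k l : ℝ) : pk k u * pk l u = pk (k + l) u := by
  ext x
  rw [Sm.mul_apply, hu.pk_apply, hu.pk_apply, hu.pk_apply, add_div, Real.rpow_add (hu.p2_pos x)]

theorem pk_two : pk 2 u = p2 u := by
  ext x
  rw [hu.pk_apply, div_self two_ne_zero, Real.rpow_one]

theorem pk_zero : pk 0 u = 1 := by
  ext x
  rw [hu.pk_apply, zero_div, Real.rpow_zero, Sm.one_apply]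

theorem hinv_mul : hinv u * (1 + u) = 1 := plA_inv_mul hu.h_pos
theorem dinv_mul : dinv u * Qf (1 + u) (1 + u) = 1 := plA_inv_mul hu.det_pos

theorem D_pk (k : ℝ) (b : Fin 3) : D b (pk k u) = k • (pk (k - 2) u *
    (H b 0 (1 + u) * pv u 0 + H b 1 (1 + u) * pv u 1 + H b 2 (1 + u) * pv u 2)) := by
  have hd : ∀ x, ContDiffAt ℝ ∞ (deriv fun t : ℝ => t ^ (k / 2)) (p2 u x) := fun x =>
    ((hu.smooth k x).fderiv_right (m := ∞) (by simp)).clm_apply (contDiffAt_const (c := (1 : ℝ)))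
  have e : D b (p2 u) = 2 *
      (H b 0 (1 + u) * pv u 0 + H b 1 (1 + u) * pv u 1 + H b 2 (1 + u) * pv u 2) := by
    rw [plA_p2]
    simp only [map_add (D b), D_mul, plA_D_pv]
    ring
  rw [pk, D_cp b (hu.smooth k), e]
  ext x
  rw [Sm.mul_apply, cp_apply hd, (Real.hasDerivAt_rpow_const (Or.inl (hu.p2_pos x).ne')).deriv,
    Sm.smul_apply, Sm.mul_apply, Sm.mul_apply, hu.pk_apply, Sm.ofNat_apply,
    show (k - 2) / 2 = k / 2 - 1 by ring]
  ring

theorem norm_pvec (x : S2) : ‖pvec u x‖ = pk 1 u x := by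
  rw [hu.pk_apply, EuclideanSpace.norm_eq, Real.sqrt_eq_rpow, plA_p2, Fin.sum_univ_three]
  simp only [pvec, Real.norm_eq_abs, Sm.add_apply, Sm.mul_apply, sq, abs_mul_abs_self]

theorem xm_coe (x : S2) : (xm u x : E3) = pk (-1) u x • pvec u x := by
  have h0 : pvec u x ≠ 0 := by
    rw [← norm_pos_iff, hu.norm_pvec]; exact hu.pk_pos 1 x
  have h1 : pk (-1) u x * pk 1 u x = 1 := by
    rw [← Sm.mul_apply, hu.pk_mul, neg_add_cancel, hu.pk_zero, Sm.one_apply]
  rw [xm, nrmz_val h0, hu.norm_pvec, eq_inv_of_mul_eq_one_left h1]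

theorem xm_coord (x : S2) (d : Fin 3) : (xm u x : E3) d = plA_xi u d x := by
  rw [hu.xm_coe]; rfl

theorem G_coe (y : E3) : ∑ d, ext0 (plA_xi u d) y • EuclideanSpace.single d (1 : ℝ)
    = (xm u (nrmz y) : E3) := by
  ext c
  rw [hu.xm_coord]
  fin_cases c <;> simp [Fin.sum_univ_three, ext0]

theorem ext_comp (φ : Sm) : ext0 (fun ν => φ (xm u ν))
    = ext0 φ ∘ fun y => ∑ d, ext0 (plA_xi u d) y • EuclideanSpace.single d (1 : ℝ) := by
  funext y
  rw [Function.comp_apply, hu.G_coe, base_ext0_coe]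
  rfl

theorem comp_mem (φ : Sm) : (fun ν => φ (xm u ν)) ∈ smAlg := by
  intro y hy
  show ContDiffWithinAt ℝ ∞ (ext0 fun ν => φ (xm u ν)) _ y
  rw [hu.ext_comp]
  refine (ContDiffAt.comp y ?_ ?_).contDiffWithinAt
  · rw [hu.G_coe]; exact φ.smoothAt (base_ne _)
  · exact ContDiffAt.sum fun d _ => ((plA_xi u d).smoothAt hy).smul contDiffAt_const

theorem pull_apply (φ : Sm) (x : S2) : pull u φ x = φ (xm u x) := by
  rw [pull, dif_pos hu.comp_mem]; rfl

theorem pull_mul (φ ψ : Sm) : pull u (φ * ψ) = pull u φ * pull u ψ := by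
  ext x
  simp only [hu.pull_apply, Sm.mul_apply]

theorem pull_one : pull u 1 = 1 := by
  ext x
  simp only [hu.pull_apply, Sm.one_apply]

theorem pull_X (d : Fin 3) : pull u (X d) = plA_xi u d := by
  ext x
  rw [hu.pull_apply, X_apply, hu.xm_coord]

theorem D_pull (b : Fin 3) (φ : Sm) :
    D b (pull u φ) = ∑ d, pull u (D d φ) * D b (plA_xi u d) := by
  ext x
  have e : (pull u φ : S2 → ℝ) = fun ν => φ (xm u ν) := funext (hu.pull_apply φ)
  have h1 : HasFDerivAt (fun y => ∑ d, ext0 (plA_xi u d) y • EuclideanSpace.single d (1 : ℝ))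
      (∑ d, (fderiv ℝ (ext0 (plA_xi u d)) (x : E3)).smulRight (EuclideanSpace.single d (1 : ℝ)))
      (x : E3) :=
    HasFDerivAt.fun_sum fun d _ => (base_diff (plA_xi u d) x).hasFDerivAt.smul_const _
  have h2 : HasFDerivAt (ext0 φ) (fderiv ℝ (ext0 φ) (xm u x : E3))
      (∑ d, ext0 (plA_xi u d) (x : E3) • EuclideanSpace.single d (1 : ℝ)) := by
    rw [hu.G_coe, nrmz_coe]; exact (base_diff φ _).hasFDerivAt
  have h3 := (HasFDerivAt.comp (x : E3) h2 h1).fderiv
  rw [D_apply, e, hu.ext_comp, h3, ContinuousLinearMap.comp_apply,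
    sum_apply, map_sum, Sm.sum_apply]
  refine Finset.sum_congr rfl fun d _ => ?_
  rw [ContinuousLinearMap.smulRight_apply, map_smul, Sm.mul_apply, hu.pull_apply, D_apply, D_apply,
    smul_eq_mul, mul_comm]

theorem hW (a b : Fin 3) : Wf u a b = dinv u * hinv u * plA_cof (1 + u) (plA_Z u a) b := by
  have h := hu.hinv_mul
  rw [Wf, plA_cof, mul_assoc]
  congr 1
  rw [Finset.mul_sum]
  refine Finset.sum_congr rfl fun c _ => ?_
  rw [plA_Z]
  linear_combination -(Dop (1 + u) * kd b c - H b c (1 + u)) * (∑ d, ev a c d • pv u d) * h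

omit hu in
theorem Lt_apply (a : Fin 3) (φ : Sm) : Lt u a φ = ∑ b, Wf u a b * D b φ := by
  rw [Lt, LinearMap.sum_apply]; rfl

omit hu in
theorem Mt_apply (a : Fin 3) (φ : Sm) :
    Mt u a φ = ∑ b, (D b (Wf u a b * φ) - 2 * X b * (Wf u a b * φ)) := by
  rw [Mt, LinearMap.sum_apply]; rfl

omit hu in
theorem Lt_mul (a : Fin 3) (φ ψ : Sm) : Lt u a (φ * ψ) = Lt u a φ * ψ + φ * Lt u a ψ := by
  simp only [Lt_apply, D_mul, Fin.sum_univ_three]; ring

theorem W_H (a d : Fin 3) : ∑ b, Wf u a b * H b d (1 + u) = hinv u * plA_Z u a d := by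
  have h1 := plA_cof_H (1 + u) (plA_Z u a) (plA_Z_tan u a) d
  have h2 := hu.dinv_mul
  simp only [hu.hW, Fin.sum_univ_three] at *
  linear_combination dinv u * hinv u * h1 + hinv u * plA_Z u a d * h2

theorem Lt_pv (a d : Fin 3) : Lt u a (pv u d) = hinv u * plA_Z u a d := by
  rw [Lt_apply, ← hu.W_H]
  simp only [plA_D_pv]

omit hu in
theorem Z_pv (a : Fin 3) : plA_Z u a 0 * pv u 0 + plA_Z u a 1 * pv u 1 + plA_Z u a 2 * pv u 2
    = L a u * p2 u := by
  simp only [plA_Z]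
  rw [plA_p2]
  rcases alg_fin a with rfl | rfl | rfl <;> simp only [plA_ev0, plA_ev1, plA_ev2] <;> ring

theorem Lt_pk (a : Fin 3) (k : ℝ) : Lt u a (pk k u) = k • (pk k u * hinv u * L a u) := by
  have h0 := hu.W_H a 0
  have h1 := hu.W_H a 1
  have h2 := hu.W_H a 2
  have h3 := Z_pv (u := u) a
  have h4 := hu.pk_mul (k - 2) 2
  rw [sub_add_cancel, hu.pk_two] at h4
  rw [Lt_apply]
  simp only [hu.D_pk, mul_smul_comm, ← Finset.smul_sum]
  congr 1
  simp only [Fin.sum_univ_three] at *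
  linear_combination pk (k - 2) u * (pv u 0 * h0 + pv u 1 * h1 + pv u 2 * h2)
    + pk (k - 2) u * hinv u * h3 + hinv u * L a u * h4

theorem Lt_xi (a d : Fin 3) : Lt u a (plA_xi u d) = ∑ e, ev a d e • plA_xi u e := by
  have h := hu.hinv_mul
  have e : ∑ e, ev a d e • plA_xi u e = pk (-1) u * ∑ e, ev a d e • pv u e := by
    simp only [plA_xi, Finset.mul_sum, mul_smul_comm]
  rw [e, plA_xi, Lt_mul, hu.Lt_pk, hu.Lt_pv, plA_Z, neg_one_smul]
  linear_combination pk (-1) u * (∑ e, ev a d e • pv u e) * h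

theorem pull_L (a : Fin 3) (φ : Sm) : pull u (L a φ) = Lt u a (pull u φ) := by
  have e : Lt u a (pull u φ) = ∑ d, pull u (D d φ) * Lt u a (plA_xi u d) := by
    simp only [Lt_apply, hu.D_pull, Fin.sum_univ_three]; ring
  rw [e, L_eq_sum_D, map_sum]
  refine Finset.sum_congr rfl fun d _ => ?_
  rw [hu.pull_mul, hu.Lt_xi, L_X, map_sum, mul_comm]
  simp only [map_smul, hu.pull_X]

theorem D_xi (e a : Fin 3) : D e (plA_xi u a) = pk (-3) u * (p2 u * H e a (1 + u) -
    (H e 0 (1 + u) * pv u 0 + H e 1 (1 + u) * pv u 1 + H e 2 (1 + u) * pv u 2) * pv u a) := by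
  have h4 := hu.pk_mul (-3) 2
  rw [hu.pk_two, show (-3 : ℝ) + 2 = -1 by norm_num] at h4
  rw [plA_xi, D_mul, hu.D_pk, plA_D_pv, neg_one_smul, show (-1 : ℝ) - 2 = -3 by norm_num, ← h4]
  ring

/-- the field `Jac • Wf` is a rotated gradient -/
theorem Jac_W (a b : Fin 3) : Jac u * Wf u a b = -L b (plA_xi u a) := by
  have h1 := hu.hinv_mul
  have h2 := hu.dinv_mul
  have e : Jac u * Wf u a b = pk (-3) u * plA_cof (1 + u) (plA_Z u a) b := by
    rw [Jac, hu.hW]
    linear_combination pk (-3) u * plA_cof (1 + u) (plA_Z u a) b *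
      (dinv u * Qf (1 + u) (1 + u) * h1 + h2)
  have k : ∀ e, X 0 * H e 0 (1 + u) + X 1 * H e 1 (1 + u) + X 2 * H e 2 (1 + u) = 0 := fun e => by
    have := sum_X_H e (1 + u)
    rwa [Fin.sum_univ_three, H_symm 0 e, H_symm 1 e, H_symm 2 e] at this
  rw [e, plA_cof_rot _ _ (plA_Z_tan u a), L_eq_sum_D b (plA_xi u a), mul_neg, Finset.mul_sum]
  congr 1
  refine Finset.sum_congr rfl fun e _ => ?_
  rw [plA_Z_crs u a (fun c => H e c (1 + u)) (k e), hu.D_xi]
  ring

theorem piola (a : Fin 3) (y : Sm) : XX u (L a y) = Mt u a (XX u y) := by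
  have h1 := plA_D_L (plA_xi u a)
  have h2 := alg_r (plA_xi u a)
  have e : ∀ b, Wf u a b * XX u y = -L b (plA_xi u a) * pull u y := fun b => by
    rw [← hu.Jac_W]
    show Wf u a b * (Jac u * pull u y) = _
    ring
  have e2 : XX u (L a y) = ∑ b, -L b (plA_xi u a) * D b (pull u y) := by
    show Jac u * pull u (L a y) = _
    rw [hu.pull_L, Lt_apply, Finset.mul_sum]
    simp only [← hu.Jac_W, mul_assoc]
  rw [e2, Mt_apply]
  simp only [e, D_mul, map_neg, Fin.sum_univ_three] at *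
  linear_combination pull u y * h1 - 2 * pull u y * h2

theorem piola' (a : Fin 3) (φ y : Sm) : I (φ * XX u (L a y)) = -I (Lt u a φ * XX u y) := by
  have e : Lt u a φ * XX u y = ∑ b, D b φ * (Wf u a b * XX u y) := by
    simp only [Lt_apply, Fin.sum_univ_three]; ring
  rw [hu.piola, e, map_sum]
  simp only [hess_ibp]
  rw [← map_sum, ← map_neg, Mt_apply]
  congr 1
  simp only [Fin.sum_univ_three]
  ring

theorem I_Jac : I (Jac u) = 1 := by
  have h0 := hu.pk_mul (-1) (-1)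
  have h1 := hu.pk_mul (-1 + -1) 2
  rw [hu.pk_two, show (-1 : ℝ) + -1 + 2 = 0 by norm_num, hu.pk_zero] at h1
  have hs : plA_xi u 0 * X 0 + plA_xi u 1 * X 1 + plA_xi u 2 * X 2 = pk (-1) u * (1 + u) := by
    rw [← plA_X_pv]
    simp only [plA_xi]
    ring
  refine plA_deg (plA_xi u) (Jac u) (cp (fun t => t⁻¹) (1 + pk (-1) u * (1 + u))) ?_ ?_ ?_
  · rw [plA_p2] at h1
    simp only [plA_xi]
    linear_combination (pv u 0 * pv u 0 + pv u 1 * pv u 1 + pv u 2 * pv u 2) * h0 + h1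
  · rw [hs]
    refine plA_inv_mul fun x => ?_
    rw [Sm.add_apply, Sm.mul_apply, Sm.one_apply]
    exact add_pos one_pos (mul_pos (hu.pk_pos _ x) (hu.h_pos x))
  · intro j k
    rw [← hu.Lt_xi, Lt_apply, plA_br, Finset.mul_sum, ← Finset.sum_neg_distrib]
    refine Finset.sum_congr rfl fun b _ => ?_
    rw [← mul_assoc, hu.Jac_W]
    ring

end plA_Pos

end Pool.Agent.Lib.MP_2fa2a2_gt.PI
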