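import Pool.Agent.Lib.MP_2fa2a2_gt.PI.SPull
import Pool.Agent.Lib.MP_2fa2a2_gt.PI.Prod

/-! Chain rule, homotopy derivative, scales of seminorms, algebraic identities. -/

namespace Pool.Agent.Lib.MP_2fa2a2_gt.PI

open MeasureTheory Filter Topology
open scoped ContDiff

theorem pb_chain {u : Sm} (h : Good u) (b : Fin 3) (φ : Sm) :
    L b (pull u φ) = ∑ a, L b (pull u (X a)) * pull u (D a φ) := by
  ext x
  have h0 : MP_5b78b3_gt.rot (int_rot b 0) x = x := Subtype.ext (int_rot_zero b x)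
  have h1 := int_hasDerivAt_comp b (pull u φ) x 0
  have h2 : HasDerivAt (fun s => (xm u (MP_5b78b3_gt.rot (int_rot b s) x) : E3))
      (WithLp.toLp 2 fun a => L b (pull u (X a)) x) 0 := by
    have h3 : HasDerivAt (fun s a => pull u (X a) (MP_5b78b3_gt.rot (int_rot b s) x))
        (fun a => L b (pull u (X a)) x) 0 := by
      refine hasDerivAt_pi.2 fun a => ?_
      have h4 := int_hasDerivAt_comp b (pull u (X a)) x 0
      rwa [h0] at h4
    have h5 := (PiLp.continuousLinearEquiv 2 ℝ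
      (fun _ : Fin 3 => ℝ)).symm.toContinuousLinearMap.hasFDerivAt.comp_hasDerivAt 0 h3
    refine h5.congr_of_eventuallyEq (Eventually.of_forall fun s => ?_)
    ext a
    simp [h.pull_apply]
  have h6 := hasDerivAt_curve φ h2
  simp only [h.pull_apply] at h1
  have h7 := h1.unique h6
  rw [h0] at h7
  rw [h7, Sm.sum_apply]
  refine Finset.sum_congr rfl fun a _ => ?_
  rw [Sm.mul_apply, h.pull_apply]

/-- the displacement of the boundary point -/
noncomputable def pbq (u : Sm) (a : Fin 3) : Sm := u * X a + D a u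

theorem pb_pv (t : ℝ) (u : Sm) (a : Fin 3) : pv (t • u) a = X a + t • pbq u a := by
  rw [pv, pbq, map_smul]
  ext x
  simp only [Sm.add_apply, Sm.mul_apply, Sm.smul_apply, Sm.one_apply]
  ring

theorem pb_pvec (t : ℝ) (u : Sm) (x : S2) :
    pvec (t • u) x = (x : E3) + t • (WithLp.toLp 2 fun a => pbq u a x : E3) := by
  ext a
  simp [pvec, pb_pv]

theorem pb_pull_zero {u : Sm} (h : Good ((0 : ℝ) • u)) (φ : Sm) : pull ((0 : ℝ) • u) φ = φ := by
  ext x
  rw [h.pull_apply, xm, pb_pvec, zero_smul, add_zero, nrmz_coe]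

theorem pb_pk_pos {u : Sm} (h : Good u) (k : ℝ) (x : S2) : 0 < pk k u x := by
  rw [h.pk_apply]
  exact Real.rpow_pos_of_pos (by linarith [h.p2_ge x]) _

theorem pb_pk_add {u : Sm} (h : Good u) (k k' : ℝ) : pk (k + k') u = pk k u * pk k' u := by
  ext x
  rw [Sm.mul_apply, h.pk_apply, h.pk_apply, h.pk_apply, add_div,
    Real.rpow_add (by linarith [h.p2_ge x])]

theorem pb_pk_zero {u : Sm} (h : Good u) : pk 0 u = 1 := by
  ext x
  rw [h.pk_apply, zero_div, Real.rpow_zero, Sm.one_apply]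

theorem pb_pk_inv {u : Sm} (h : Good u) : pk (-1) u * pk 1 u = 1 := by
  rw [← pb_pk_add h, neg_add_cancel, pb_pk_zero h]

theorem pb_pk_le {u : Sm} (h : Good u) (x : S2) : |pk (-1) u x| ≤ 2 := by
  have h1 := congrArg (fun v : Sm => v x) (pb_pk_inv h)
  have h2 := congrArg (fun v : Sm => v x) (pb_pk_add h 1 1)
  simp only [Sm.mul_apply, Sm.one_apply, one_add_one_eq_two, h.pk_two] at h1 h2
  have h3 := pb_pk_pos h (-1) x
  have h4 := pb_pk_pos h 1 x
  have h5 := h.p2_ge x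
  rw [abs_of_pos h3]
  by_contra hc
  have h6 : pk 1 u x < 1 / 2 := by nlinarith
  nlinarith

theorem pb_pull_X {u : Sm} (h : Good u) (a : Fin 3) : pull u (X a) = pk (-1) u * pv u a := by
  ext x
  rw [h.pull_apply, X_apply, h.xm_coe]
  rfl

/-- the derivative of the homotopy -/
noncomputable def pbg (t : ℝ) (u φ : Sm) : Sm :=
  ∑ a, pk (-1) (t • u) * pbq u a * pull (t • u) (D a φ)

theorem pb_deriv {u : Sm} (h : ∀ t : ℝ, |t| ≤ 2 → Good (t • u)) (φ : Sm) {t : ℝ} (ht : |t| < 2)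
    (x : S2) : HasDerivAt (fun s : ℝ => pull (s • u) φ x) (pbg t u φ x) t := by
  have hg := h t ht.le
  have hn := hg.norm_pvec x
  have hp := pb_pk_pos hg 1 x
  have h0 : pvec (t • u) x ≠ 0 := norm_pos_iff.1 (hn ▸ hp)
  have h1 : HasDerivAt (fun s : ℝ => pvec (s • u) x) (WithLp.toLp 2 fun a => pbq u a x : E3) t := by
    simp only [pb_pvec]
    simpa using ((hasDerivAt_id t).smul_const (WithLp.toLp 2 fun a => pbq u a x : E3)).const_add
      (x : E3)
  have h2 := (sum_hasFDerivAt φ h0).comp_hasDerivAt t h1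
  have h3 : ‖pvec (t • u) x‖⁻¹ = pk (-1) (t • u) x := by
    have h4 := congrArg (fun v : Sm => v x) (pb_pk_inv hg)
    simp only [Sm.mul_apply, Sm.one_apply] at h4
    rw [hn]
    exact (eq_inv_of_mul_eq_one_left h4).symm
  refine (h2.congr_deriv ?_).congr_of_eventuallyEq ?_
  · rw [h3, pbg, Sm.sum_apply]
    simp only [smul_apply, sum_apply, smul_eq_mul,
      Finset.mul_sum, Sm.mul_apply, hg.pull_apply]
    refine Finset.sum_congr rfl fun a _ => ?_
    show _ * (D a φ (xm (t • u) x) * pbq u a x) = _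
    ring
  · have h5 : ∀ᶠ s in 𝓝 t, |s| < 2 := (continuous_abs.tendsto t).eventually (gt_mem_nhds ht)
    filter_upwards [h5] with s hs
    rw [(h s hs.le).pull_apply]
    rfl

theorem pb_g_bdd {u : Sm} (h : ∀ t : ℝ, |t| ≤ 2 → Good (t • u)) (φ : Sm) :
    ∃ K, ∀ t, |t| < 2 → ∀ x, |pbg t u φ x| ≤ K := by
  choose A hA0 hA using fun a => (pbq u a).bounded
  choose B hB0 hB using fun a => (D a φ).bounded
  refine ⟨∑ a, 2 * A a * B a, fun t ht x => ?_⟩
  rw [pbg, Sm.sum_apply]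
  refine (Finset.abs_sum_le_sum_abs _ _).trans (Finset.sum_le_sum fun a _ => ?_)
  rw [Sm.mul_apply, Sm.mul_apply, abs_mul, abs_mul, (h t ht.le).pull_apply]
  have := hA0 a
  gcongr
  · exact pb_pk_le (h t ht.le) x
  · exact hA a x
  · exact hB a _

theorem pb_sum_q (u φ : Sm) : ∑ a, pbq u a * D a φ = gd u φ := by
  have h := sum_X_D φ
  rw [gd_eq_D]
  simp only [pbq, Fin.sum_univ_three] at h ⊢
  linear_combination u * h

/-- a scale of seminorms -/
structure PbScale (N : ℕ → Sm → ℝ) : Prop where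
  nonneg : ∀ k φ, 0 ≤ N k φ
  add : ∀ k φ ψ, N k (φ + ψ) ≤ N k φ + N k ψ
  mono : ∀ k φ, N k φ ≤ N (k + 1) φ
  mul : ∀ k, ∃ C, 0 ≤ C ∧ ∀ A v φ, Cb k 1 A v → N k (v * φ) ≤ C * A * N k φ
  D : ∀ k, ∃ C, 0 ≤ C ∧ ∀ a φ, N k (D a φ) ≤ C * N (k + 1) φ
  succ : ∀ k φ, N (k + 1) φ ≤ N k φ + ∑ a, N k (L a φ)
  pull : ∀ u φ, Good u → N 0 (pull u φ) ≤ 2 * N 0 φ
  mv : ∀ (ψ g : ℝ → Sm) (M : ℝ), (∀ t, |t| < 2 → ∀ x, HasDerivAt (fun s => ψ s x) (g t x) t) →
    (∃ K, ∀ t, |t| < 2 → ∀ x, |g t x| ≤ K) → (∀ t, 0 ≤ t → t ≤ 1 → N 0 (g t) ≤ M) →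
    N 0 (ψ 1 - ψ 0) ≤ M

theorem pb_mvt {f f' : ℝ → ℝ} {M : ℝ} (h : ∀ t, |t| < 2 → HasDerivAt f (f' t) t)
    (hM : ∀ t, 0 ≤ t → t ≤ 1 → |f' t| ≤ M) : |f 1 - f 0| ≤ M := by
  have h1 := norm_image_sub_le_of_norm_deriv_le_segment_01' (f := f) (f' := f') (C := M)
    (fun t ht => (h t (by rw [abs_lt]; constructor <;> linarith [ht.1, ht.2])).hasDerivWithinAt)
    (fun t ht => hM t ht.1 ht.2.le)
  exact h1

theorem pb_norm_pull {u : Sm} (h : Good u) (φ : Sm) : ‖pull u φ‖ ≤ 2 * ‖φ‖ := by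
  have h1 := h.inner_pull φ φ
  rw [real_inner_self_eq_norm_sq, inner_def] at h1
  have h2 : I (pull u φ * pull u φ) ≤ I ((2 : ℝ) • (XX u φ * pull u φ)) := I_mono fun x => by
    have h3 := h.jac_ge x
    show pull u φ x * pull u φ x ≤ 2 * (Jac u x * pull u φ x * pull u φ x)
    nlinarith [mul_self_nonneg (pull u φ x)]
  rw [map_smul, h1, ← norm_sq_eq, smul_eq_mul] at h2
  refine nrmx_sq ?_ (by positivity)
  nlinarith [sq_nonneg ‖φ‖]

theorem pb_scale_nrm : PbScale fun k φ => nrm 1 k φ where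
  nonneg k φ := nrm_nonneg _ _ _
  add k φ ψ := nrm_add_le _ _ _ _
  mono k φ := nrm_mono le_rfl (by push_cast; linarith) φ
  mul k := ⟨4 ^ k, by positivity, fun A v φ h => mulx_nat k le_rfl h φ⟩
  D k := by
    obtain ⟨C, h0, h⟩ := Bd_D (2 * k)
    refine ⟨C, h0, fun a φ => ?_⟩
    have h1 := h a le_rfl φ
    have e : (((2 * k : ℤ) : ℝ)) / 2 = k := by push_cast; ring
    rw [e] at h1
    push_cast
    exact h1
  succ k φ := by push_cast; exact prodx_succ k φ
  pull u φ h := by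
    simp only [Nat.cast_zero, nrm_zero le_rfl]
    exact pb_norm_pull h φ
  mv ψ g M hd hK hM := by
    simp only [Nat.cast_zero, nrm_zero le_rfl] at hM ⊢
    obtain ⟨K, hK⟩ := hK
    set w := ψ 1 - ψ 0 with hw
    obtain ⟨A, hA0, hA⟩ := w.bounded
    have h1 : ∀ t, |t| < 2 → HasDerivAt (fun s => I (ψ s * w)) (I (g t * w)) t := by
      intro t ht
      have h5 : {s : ℝ | |s| < 2} ∈ 𝓝 t := (continuous_abs.tendsto t).eventually (gt_mem_nhds ht)
      exact (hasDerivAt_integral_of_dominated_loc_of_deriv_le (μ := sig)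
        (F := fun s x => (ψ s * w) x) (F' := fun s x => (g s * w) x) (bound := fun _ => K * A) h5
        (Eventually.of_forall fun s => (ψ s * w).continuous.aestronglyMeasurable)
        (int_integrable _) (g t * w).continuous.aestronglyMeasurable
        (Eventually.of_forall fun x s hs => by
          rw [Real.norm_eq_abs, Sm.mul_apply, abs_mul]
          exact mul_le_mul (hK s hs x) (hA x) (abs_nonneg _) ((abs_nonneg _).trans (hK s hs x)))
        (integrable_const _)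
        (Eventually.of_forall fun x s hs => (hd s hs x).mul_const (w x))).2
    have h2 := pb_mvt h1 (M := M * ‖w‖) fun t h0 h1 =>
      (abs_I_mul_le _ _).trans (mul_le_mul_of_nonneg_right (hM t h0 h1) (norm_nonneg _))
    rw [← map_sub, ← sub_mul, ← hw, ← norm_sq_eq, abs_of_nonneg (sq_nonneg _)] at h2
    have h3 : 0 ≤ M := (norm_nonneg _).trans (hM 0 le_rfl zero_le_one)
    by_contra hc
    have h4 := not_le.1 hc
    nlinarith

/-- the best constant in `Cb` -/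
noncomputable def pbcn (k : ℕ) (φ : Sm) : ℝ := sInf {B | Cb k 1 B φ}

theorem pbcn_le {k : ℕ} {φ : Sm} {B : ℝ} (h : Cb k 1 B φ) : pbcn k φ ≤ B :=
  csInf_le ⟨0, fun _ h => Cb.nonneg h⟩ h

theorem pbcn_spec (k : ℕ) (φ : Sm) : Cb k 1 (pbcn k φ) φ := by
  intro w hw x
  rw [one_pow, mul_one]
  obtain ⟨B, -, hB⟩ := exists_Cb k φ
  refine le_csInf ⟨B, hB⟩ fun A hA => ?_
  simpa using hA w hw x

theorem pbcn_Cb {k : ℕ} {φ : Sm} {B : ℝ} (h : pbcn k φ ≤ B) : Cb k 1 B φ :=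
  (pbcn_spec k φ).mono zero_le_one le_rfl le_rfl h

theorem pb_Cb_zero {φ : Sm} {B : ℝ} (h : ∀ x, |φ x| ≤ B) : Cb 0 1 B φ := by
  intro w hw x
  obtain rfl : w = [] := List.length_eq_zero_iff.1 (Nat.le_zero.1 hw)
  simpa using h x

theorem pb_scale_cn : PbScale pbcn where
  nonneg k φ := (pbcn_spec k φ).nonneg
  add k φ ψ := pbcn_le ((pbcn_spec k φ).add (pbcn_spec k ψ))
  mono k φ := pbcn_le ((pbcn_spec (k + 1) φ).mono zero_le_one (Nat.le_succ k) le_rfl le_rfl)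
  mul k := ⟨2 ^ k, by positivity, fun A v φ h => pbcn_le (Cb.mul zero_le_one h (pbcn_spec k φ))⟩
  D k := ⟨2 ^ (k + 1), by positivity, fun a φ => by
    have h := pbcn_le (Cb.D le_rfl (pbcn_spec (k + 1) φ) a)
    rwa [mul_one] at h⟩
  succ k φ := by
    have h0 := (pbcn_spec k φ).nonneg
    have h1 : ∀ a, 0 ≤ pbcn k (L a φ) := fun a => (pbcn_spec k _).nonneg
    refine pbcn_le (Cb_of_succ (fun x => ?_) fun a => ?_)
    · exact ((pbcn_spec k φ).abs_le x).trans
        (le_add_of_nonneg_right (Finset.sum_nonneg fun a _ => h1 a))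
    · rw [mul_one]
      exact pbcn_Cb (le_add_of_nonneg_of_le h0
        (Finset.single_le_sum (f := fun a => pbcn k (L a φ)) (fun a _ => h1 a) (Finset.mem_univ a)))
  pull u φ h := by
    have h0 := (pbcn_spec 0 φ).nonneg
    refine (pbcn_le (pb_Cb_zero fun x => ?_)).trans (show pbcn 0 φ ≤ _ by linarith)
    rw [h.pull_apply]
    exact (pbcn_spec 0 φ).abs_le _
  mv ψ g M hd _ hM := pbcn_le (pb_Cb_zero fun x =>
    pb_mvt (fun t ht => hd t ht x) fun t h0 h1 => (pbcn_Cb (hM t h0 h1)).abs_le x)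

theorem pb_sum_X_LX (b : Fin 3) : ∑ a, X a * L b (X a) = 0 := by
  have h := congrArg (L b) sum_X_sq
  simp only [map_add, L_mul, L_one, Fin.sum_univ_three] at h ⊢
  ext x
  have h2 := congrArg (fun v : Sm => v x) h
  simp only [Sm.add_apply, Sm.mul_apply, Sm.zero_apply] at h2 ⊢
  linarith

theorem pb_L_gd (b : Fin 3) (u φ : Sm) : L b (gd u φ) =
    ∑ a, L b (D a u) * D a φ + ∑ a, L b (X a) * gd u (D a φ) := by
  have h1 : ∀ c, L b (D c φ) = ∑ a, L b (X a) * D a (D c φ) := fun c => L_eq_sum_D b _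
  have h2 := sum_X_D u
  have h3 := pb_sum_X_LX b
  have h01 := D_D 0 1 φ
  have h02 := D_D 0 2 φ
  have h12 := D_D 1 2 φ
  simp only [gd_eq_D, map_add, L_mul, h1, Fin.sum_univ_three] at h2 h3 ⊢
  linear_combination (L b (X 0) * D 1 u - L b (X 1) * D 0 u) * h01
    + (L b (X 0) * D 2 u - L b (X 2) * D 0 u) * h02 + (L b (X 1) * D 2 u - L b (X 2) * D 1 u) * h12
    + (D 0 u * D 0 φ + D 1 u * D 1 φ + D 2 u * D 2 φ) * h3
    - (L b (X 0) * D 0 φ + L b (X 1) * D 1 φ + L b (X 2) * D 2 φ) * h2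

end Pool.Agent.Lib.MP_2fa2a2_gt.PI
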