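import Pool.Agent.Lib.MP_2fa2a2_gt.PI.PullBX

/-! Orders of magnitude for families depending on a small function; expansions. -/

namespace Pool.Agent.Lib.MP_2fa2a2_gt.PI

open MeasureTheory Filter Topology
open scoped ContDiff

/-- parameters: homotopy time, function, size -/
structure PbP where
  t : ℝ
  u : Sm
  b : ℝ

/-- small parameters -/
def pbF : Filter PbP where
  sets := {S | ∃ δ, 0 < δ ∧ ∀ p : PbP, 0 ≤ p.t → p.t ≤ 1 → p.b ≤ δ → Cb 8 1 p.b p.u → p ∈ S}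
  univ_sets := ⟨1, one_pos, fun _ _ _ _ _ => trivial⟩
  sets_of_superset := fun ⟨δ, h0, h⟩ hs => ⟨δ, h0, fun p a b c d => hs (h p a b c d)⟩
  inter_sets := fun ⟨δ, h0, h⟩ ⟨δ', h0', h'⟩ => ⟨min δ δ', lt_min h0 h0', fun p a b c d =>
    ⟨h p a b (c.trans (min_le_left _ _)) d, h' p a b (c.trans (min_le_right _ _)) d⟩⟩

theorem pb_ev {Q : PbP → Prop} : (∀ᶠ p in pbF, Q p) ↔
    ∃ δ, 0 < δ ∧ ∀ p : PbP, 0 ≤ p.t → p.t ≤ 1 → p.b ≤ δ → Cb 8 1 p.b p.u → Q p := Iff.rfl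

theorem pb_base : ∀ᶠ p in pbF, 0 ≤ p.b ∧ p.b ≤ 1 ∧ Cb 8 1 p.b p.u ∧ 0 ≤ p.t ∧ p.t ≤ 1 :=
  pb_ev.2 ⟨1, one_pos, fun _ a b c d => ⟨d.nonneg, c, d, a, b⟩⟩

theorem pb_small {δ : ℝ} (h : 0 < δ) : ∀ᶠ p in pbF, p.b ≤ δ :=
  pb_ev.2 ⟨δ, h, fun _ _ _ c _ => c⟩

/-- scaling by the homotopy time -/
noncomputable def pbS (p : PbP) : PbP := ⟨p.t, p.t • p.u, p.b⟩

theorem pb_scale {Q : PbP → Prop} (h : ∀ᶠ p in pbF, Q p) : ∀ᶠ p in pbF, Q (pbS p) := by
  obtain ⟨δ, h0, h⟩ := pb_ev.1 h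
  refine pb_ev.2 ⟨δ, h0, fun p a b c d => h _ a b c ?_⟩
  refine (d.smul p.t).mono zero_le_one le_rfl le_rfl ?_
  rw [abs_of_nonneg a]
  exact mul_le_of_le_one_left d.nonneg b

theorem pb_allt {Q : PbP → Prop} (h : ∀ᶠ p in pbF, Q p) :
    ∀ᶠ p in pbF, ∀ t, 0 ≤ t → t ≤ 1 → Q ⟨t, p.u, p.b⟩ := by
  obtain ⟨δ, h0, h⟩ := pb_ev.1 h
  exact pb_ev.2 ⟨δ, h0, fun p _ _ c d t a b => h _ a b c d⟩

theorem pb_goodt (hA : PullAStmt) : ∀ᶠ p in pbF, ∀ t : ℝ, |t| ≤ 2 → Good (t • p.u) := by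
  obtain ⟨δ, h0, h⟩ := hA
  filter_upwards [pb_base, pb_small (half_pos h0)] with p hp hδ t ht
  refine h _ ((hp.2.2.1.smul t).mono zero_le_one (by norm_num) le_rfl ?_)
  nlinarith [hp.1]

theorem pb_good (hA : PullAStmt) : ∀ᶠ p in pbF, Good p.u := by
  filter_upwards [pb_goodt hA] with p hp
  simpa using hp 1 (by norm_num)

/-- the family is of order `j` in `Cb k` -/
def PbOC (k j : ℕ) (F : PbP → Sm) : Prop :=
  ∃ C, 0 ≤ C ∧ ∀ᶠ p in pbF, Cb k 1 (C * p.b ^ j) (F p)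

section
variable {k j j' : ℕ} {F G : PbP → Sm}

theorem PbOC.congr (h : PbOC k j F) (e : ∀ᶠ p in pbF, F p = G p) : PbOC k j G := by
  obtain ⟨C, h0, h⟩ := h
  refine ⟨C, h0, ?_⟩
  filter_upwards [h, e] with p hp he
  rwa [← he]

theorem PbOC.congr' (h : PbOC k j F) (e : ∀ p, F p = G p) : PbOC k j G := h.congr (.of_forall e)

theorem PbOC.mono {k' : ℕ} (h : PbOC k j F) (hk : k' ≤ k) (hj : j' ≤ j) : PbOC k' j' F := by
  obtain ⟨C, h0, h⟩ := h
  refine ⟨C, h0, ?_⟩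
  filter_upwards [h, pb_base] with p hp hb
  exact hp.mono zero_le_one hk le_rfl
    (mul_le_mul_of_nonneg_left (pow_le_pow_of_le_one hb.1 hb.2.1 hj) h0)

theorem PbOC.scale (h : PbOC k j F) : PbOC k j fun p => F (pbS p) := by
  obtain ⟨C, h0, h⟩ := h
  exact ⟨C, h0, pb_scale h⟩

theorem PbOC.add (h : PbOC k j F) (h' : PbOC k j G) : PbOC k j fun p => F p + G p := by
  obtain ⟨C, h0, h⟩ := h
  obtain ⟨C', h0', h'⟩ := h'
  refine ⟨C + C', by positivity, ?_⟩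
  filter_upwards [h, h'] with p hp hp'
  rw [add_mul]; exact hp.add hp'

theorem PbOC.smul (h : PbOC k j F) (r : ℝ) : PbOC k j fun p => r • F p := by
  obtain ⟨C, h0, h⟩ := h
  refine ⟨|r| * C, by positivity, ?_⟩
  filter_upwards [h] with p hp
  rw [mul_assoc]; exact hp.smul r

theorem PbOC.neg (h : PbOC k j F) : PbOC k j fun p => -F p :=
  (h.smul (-1)).congr' fun p => neg_one_smul ℝ (F p)

theorem PbOC.sub (h : PbOC k j F) (h' : PbOC k j G) : PbOC k j fun p => F p - G p :=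
  (h.add h'.neg).congr' fun _ => (sub_eq_add_neg _ _).symm

theorem PbOC.mul (h : PbOC k j F) (h' : PbOC k j' G) : PbOC k (j + j') fun p => F p * G p := by
  obtain ⟨C, h0, h⟩ := h
  obtain ⟨C', h0', h'⟩ := h'
  refine ⟨2 ^ k * C * C', by positivity, ?_⟩
  filter_upwards [h, h'] with p hp hp'
  exact (Cb.mul zero_le_one hp hp').mono zero_le_one le_rfl le_rfl (le_of_eq (by ring))

theorem PbOC.fix (k : ℕ) (φ : Sm) : PbOC k 0 fun _ => φ := by
  obtain ⟨B, h0, h⟩ := exists_Cb k φ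
  exact ⟨B, h0, .of_forall fun p => by rwa [pow_zero, mul_one]⟩

theorem PbOC.mull (φ : Sm) (h : PbOC k j F) : PbOC k j fun p => φ * F p := by
  simpa using (PbOC.fix k φ).mul h

theorem PbOC.mulr (h : PbOC k j F) (φ : Sm) : PbOC k j fun p => F p * φ := h.mul (PbOC.fix k φ)

theorem PbOC.zero (k j : ℕ) : PbOC k j fun _ => 0 :=
  ⟨0, le_rfl, .of_forall fun p w _ x => by simp⟩

theorem PbOC.sum {F : Fin 3 → PbP → Sm} (h : ∀ a, PbOC k j (F a)) : PbOC k j fun p => ∑ a, F a p :=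
  (((h 0).add (h 1)).add (h 2)).congr' fun _ => by rw [Fin.sum_univ_three]

theorem PbOC.L (h : PbOC (k + 1) j F) (a : Fin 3) : PbOC k j fun p => L a (F p) := by
  obtain ⟨C, h0, h⟩ := h
  refine ⟨C, h0, ?_⟩
  filter_upwards [h] with p hp
  simpa using hp.L a

theorem PbOC.D (h : PbOC (k + 1) j F) (a : Fin 3) : PbOC k j fun p => D a (F p) := by
  obtain ⟨C, h0, h⟩ := h
  refine ⟨2 ^ (k + 1) * C, by positivity, ?_⟩
  filter_upwards [h] with p hp
  exact (Cb.D le_rfl hp a).mono zero_le_one le_rfl le_rfl (le_of_eq (by ring))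

theorem PbOC.u : PbOC 8 1 fun p => p.u :=
  ⟨1, zero_le_one, pb_base.mono fun p hp => by simpa using hp.2.2.1⟩

theorem PbOC.lap (h : PbOC (k + 2) j F) : PbOC k j fun p => lap (F p) :=
  (PbOC.sum fun a => (h.L a).L a).congr' fun _ => (lap_def _).symm

theorem PbOC.Dop (h : PbOC (k + 2) j F) : PbOC k j fun p => Dop (F p) :=
  (h.lap.add ((h.mono (Nat.le_add_right k 2) le_rfl).mull 2)).congr' fun _ => (Dop_def _).symm

theorem PbOC.H (h : PbOC (k + 2) j F) (a b : Fin 3) : PbOC k j fun p => H a b (F p) :=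
  (((h.D b).add ((h.mono (Nat.le_succ _) le_rfl).mull (X b))).D a).congr'
    fun _ => (H_def _ _ _).symm

theorem PbOC.cp {g : ℝ → ℝ} (hg : ∀ y, 0 < y → ContDiffAt ℝ ∞ g y)
    (h : PbOC k 1 fun p => F p - 1) : PbOC k 0 fun p => cp g (F p) := by
  obtain ⟨B, hB0, hB⟩ := ((h.mono le_rfl (Nat.zero_le 1)).add (PbOC.fix k 1)).congr'
    fun p => sub_add_cancel (F p) 1
  obtain ⟨C, h0, h⟩ := h
  obtain ⟨C', hC'⟩ := Cb_cp k B
  have hc : ∀ i : ℕ, ∃ A, ∀ y ∈ Set.Icc (1 / 2 : ℝ) 2, |iteratedDeriv i g y| ≤ A := fun i => by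
    have h1 : ContinuousOn (iteratedDeriv i g) (Set.Icc (1 / 2 : ℝ) 2) := fun y hy => by
      have h2 : ContDiffAt ℝ ∞ g y := hg y (by linarith [hy.1])
      have h3 := (h2.iteratedFDeriv_right (m := 0) (i := i) (by
        rw [zero_add]; exact_mod_cast le_top)).continuousAt
      have h4 : ContinuousAt (fun z => iteratedFDeriv ℝ i g z fun _ => (1 : ℝ)) y :=
        (continuous_eval_const (fun _ : Fin i => (1 : ℝ))).continuousAt.comp h3
      exact h4.continuousWithinAt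
    obtain ⟨A, hA⟩ := isCompact_Icc.exists_bound_of_continuousOn h1
    exact ⟨A, hA⟩
  choose A hA using hc
  refine ⟨abs (C' * ∑ i ∈ Finset.range (k + 1), |A i|), abs_nonneg _, ?_⟩
  filter_upwards [h, hB, pb_base, pb_small (δ := 1 / (2 * (C + 1))) (by positivity)]
    with p hp hq hb hδ
  have h1 : ∀ x, F p x ∈ Set.Icc (1 / 2 : ℝ) 2 := fun x => by
    have h2 := hp.abs_le x
    rw [pow_one, Sm.sub_apply, Sm.one_apply, abs_le] at h2
    rw [le_div_iff₀ (by positivity)] at hδ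
    constructor <;> nlinarith [hb.1]
  rw [pow_zero, mul_one] at hq ⊢
  refine (hC' le_rfl hq (fun x => hg _ (by linarith [(h1 x).1])) fun i hi x => ?_).mono
    zero_le_one le_rfl le_rfl (le_abs_self _)
  exact (hA i _ (h1 x)).trans ((le_abs_self _).trans (Finset.single_le_sum
    (f := fun i => |A i|) (fun _ _ => abs_nonneg _) (Finset.mem_range.2 (Nat.lt_succ_of_le hi))))

end

/-- expansion up to first order -/
def PbEx (k : ℕ) (F : PbP → Sm) (φ : Sm) (F1 : PbP → Sm) : Prop :=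
  PbOC k 1 F1 ∧ PbOC k 2 fun p => F p - φ - F1 p

section
variable {k : ℕ} {F G F1 G1 : PbP → Sm} {φ ψ : Sm}

theorem PbEx.one (h : PbEx k F φ F1) : PbOC k 1 fun p => F p - φ :=
  ((h.2.mono le_rfl one_le_two).add h.1).congr' fun _ => sub_add_cancel _ _

theorem PbEx.zero (h : PbEx k F φ F1) : PbOC k 0 F :=
  ((h.one.mono le_rfl zero_le_one).add (PbOC.fix k φ)).congr' fun _ => sub_add_cancel _ _

theorem PbEx.congr (h : PbEx k F φ F1) (e : ∀ᶠ p in pbF, F p = G p) (e0 : φ = ψ)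
    (e1 : ∀ p, F1 p = G1 p) : PbEx k G ψ G1 :=
  ⟨h.1.congr' e1, h.2.congr (e.mono fun p hp => by rw [hp, e0, e1])⟩

theorem PbEx.fix (k : ℕ) (φ : Sm) : PbEx k (fun _ => φ) φ fun _ => 0 :=
  ⟨PbOC.zero k 1, (PbOC.zero k 2).congr' fun _ => by simp⟩

theorem PbEx.lin (h : PbOC k 1 F) : PbEx k F 0 F := ⟨h, (PbOC.zero k 2).congr' fun _ => by simp⟩

theorem PbEx.add (h : PbEx k F φ F1) (h' : PbEx k G ψ G1) :
    PbEx k (fun p => F p + G p) (φ + ψ) fun p => F1 p + G1 p :=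
  ⟨h.1.add h'.1, (h.2.add h'.2).congr' fun _ => by ring⟩

theorem PbEx.sub (h : PbEx k F φ F1) (h' : PbEx k G ψ G1) :
    PbEx k (fun p => F p - G p) (φ - ψ) fun p => F1 p - G1 p :=
  ⟨h.1.sub h'.1, (h.2.sub h'.2).congr' fun _ => by ring⟩

theorem PbEx.smul (h : PbEx k F φ F1) (r : ℝ) :
    PbEx k (fun p => r • F p) (r • φ) fun p => r • F1 p :=
  ⟨h.1.smul r, (h.2.smul r).congr' fun _ => by simp only [smul_sub]⟩

theorem PbEx.mul (h : PbEx k F φ F1) (h' : PbEx k G ψ G1) :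
    PbEx k (fun p => F p * G p) (φ * ψ) fun p => φ * G1 p + F1 p * ψ :=
  ⟨(h'.1.mull φ).add (h.1.mulr ψ),
    (((h'.2.mull φ).add (h.1.mul h'.one)).add (h.2.mul h'.zero)).congr' fun _ => by ring⟩

theorem PbEx.sum {F F1 : Fin 3 → PbP → Sm} {φ : Fin 3 → Sm} (h : ∀ a, PbEx k (F a) (φ a) (F1 a)) :
    PbEx k (fun p => ∑ a, F a p) (∑ a, φ a) fun p => ∑ a, F1 a p :=
  (((h 0).add (h 1)).add (h 2)).congr (.of_forall fun _ => by rw [Fin.sum_univ_three])
    (by rw [Fin.sum_univ_three]) fun _ => by rw [Fin.sum_univ_three]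

theorem PbEx.inv (h : PbEx k F 1 F1) (hG : PbOC k 0 G) (e : ∀ᶠ p in pbF, G p * F p = 1) :
    PbEx k G 1 fun p => -F1 p := by
  have h1 : PbOC k 1 fun p => G p * (F p - 1) := by simpa using hG.mul h.one
  have h2 : PbOC k 2 fun p => G p * (F p - 1 - F1 p) := by simpa using hG.mul h.2
  refine ⟨h.1.neg, ((h.1.mul h1).sub h2).congr (e.mono fun p hp => ?_)⟩
  linear_combination (F1 p - 1) * hp

theorem PbEx.L (h : PbEx (k + 1) F φ F1) (a : Fin 3) :
    PbEx k (fun p => L a (F p)) (L a φ) fun p => L a (F1 p) :=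
  ⟨h.1.L a, (h.2.L a).congr' fun _ => by simp only [map_sub]⟩

theorem PbEx.mono {k' : ℕ} (h : PbEx k F φ F1) (hk : k' ≤ k) : PbEx k' F φ F1 :=
  ⟨h.1.mono hk le_rfl, h.2.mono hk le_rfl⟩

end

theorem pb_two (x : S2) : (2 : Sm) x = 2 := rfl

theorem pb_u6 : PbOC 6 1 fun p => p.u := PbOC.u.mono (by norm_num) le_rfl
theorem pb_L6 (a : Fin 3) : PbOC 6 1 fun p => L a p.u := (PbOC.u.L a).mono (by norm_num) le_rfl
theorem pb_D6 (a : Fin 3) : PbOC 6 1 fun p => D a p.u := (PbOC.u.D a).mono (by norm_num) le_rfl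
theorem pb_q6 (a : Fin 3) : PbOC 6 1 fun p => pbq p.u a := (pb_u6.mulr _).add (pb_D6 a)

theorem pb_ex_h : PbEx 6 (fun p => 1 + p.u) 1 fun p => p.u :=
  ((PbEx.fix 6 1).add (PbEx.lin pb_u6)).congr (.of_forall fun _ => rfl) (add_zero _)
    fun _ => zero_add _

theorem pb_ex_p2 : PbEx 6 (fun p => p2 p.u) 1 fun p => 2 * p.u :=
  ((pb_ex_h.mul pb_ex_h).add (PbEx.sum fun a => (PbEx.lin (pb_L6 a)).mul (PbEx.lin (pb_L6 a)))).congr
    (.of_forall fun _ => rfl) (by simp) fun _ => by simp; ring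

theorem pb_smooth_rpow (r : ℝ) (y : ℝ) (hy : 0 < y) : ContDiffAt ℝ ∞ (fun t : ℝ => t ^ r) y :=
  Real.contDiffAt_rpow_const_of_ne hy.ne'

theorem pb_smooth_inv (y : ℝ) (hy : 0 < y) : ContDiffAt ℝ ∞ (fun t : ℝ => t⁻¹) y :=
  contDiffAt_inv ℝ hy.ne'

theorem pb_ex_s (hA : PullAStmt) : PbEx 6 (fun p => pk 1 p.u) 1 fun p => p.u := by
  have hg : ∀ y : ℝ, 0 < y → ContDiffAt ℝ ∞ (fun t : ℝ => (t ^ (1 / 2 : ℝ) + 1)⁻¹) y :=
    fun y hy => ((pb_smooth_rpow _ y hy).add contDiffAt_const).inv (by positivity)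
  have h1 := PbOC.cp hg pb_ex_p2.one
  have e : ∀ᶠ p in pbF, cp (fun t : ℝ => (t ^ (1 / 2 : ℝ) + 1)⁻¹) (p2 p.u) * (pk 1 p.u + 1) = 1 ∧
      pk 1 p.u * pk 1 p.u = p2 p.u := by
    filter_upwards [pb_good hA] with p hp
    refine ⟨?_, by rw [← pb_pk_add hp, one_add_one_eq_two, hp.pk_two]⟩
    ext x
    have h2 : 0 < p2 p.u x := by linarith [hp.p2_ge x]
    rw [Sm.mul_apply, cp_apply fun x => hg _ (by linarith [hp.p2_ge x]), Sm.add_apply,
      hp.pk_apply]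
    exact inv_mul_cancel₀ (by positivity)
  have h2 : PbOC 6 1 fun p => pk 1 p.u - 1 := (pb_ex_p2.one.mul h1).congr (e.mono fun p hp => by
    linear_combination (pk 1 p.u - 1) * hp.1 -
      cp (fun t : ℝ => (t ^ (1 / 2 : ℝ) + 1)⁻¹) (p2 p.u) * hp.2)
  refine ⟨pb_u6, ((pb_ex_p2.2.sub (h2.mul h2)).smul (1 / 2)).congr (e.mono fun p hp => ?_)⟩
  ext x
  have h3 := congrArg (fun v : Sm => v x) hp.2
  simp only [Sm.mul_apply, Sm.sub_apply, Sm.smul_apply, Sm.one_apply, pb_two] at h3 ⊢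
  linarith

theorem pb_ex_r (hA : PullAStmt) : PbEx 6 (fun p => pk (-1) p.u) 1 fun p => -p.u :=
  (pb_ex_s hA).inv (PbOC.cp (pb_smooth_rpow _) pb_ex_p2.one)
    ((pb_good hA).mono fun _ hp => pb_pk_inv hp)

theorem pb_ex_hinv (hA : PullAStmt) : PbEx 6 (fun p => hinv p.u) 1 fun p => -p.u :=
  pb_ex_h.inv (PbOC.cp pb_smooth_inv pb_ex_h.one) ((pb_good hA).mono fun _ hp => hp.hinv_mul)

theorem pb_ex_Dop : PbEx 6 (fun p => Dop (1 + p.u)) 2 fun p => Dop p.u :=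
  ((PbEx.fix 6 2).add (PbEx.lin PbOC.u.Dop)).congr
    (.of_forall fun _ => by rw [map_add, hess_Dop_one]) (add_zero _) fun _ => zero_add _

theorem pb_ex_H (a b : Fin 3) : PbEx 6 (fun p => H a b (1 + p.u)) (H a b 1) fun p => H a b p.u :=
  ((PbEx.fix 6 (H a b 1)).add (PbEx.lin (PbOC.u.H a b))).congr
    (.of_forall fun _ => by rw [map_add]) (add_zero _) fun _ => zero_add _

theorem pb_ex_det : PbEx 6 (fun p => Qf (1 + p.u) (1 + p.u)) 1 fun p => Dop p.u := by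
  refine (((pb_ex_Dop.mul pb_ex_Dop).sub (PbEx.sum fun a => PbEx.sum fun b =>
    (pb_ex_H a b).mul (pb_ex_H a b))).smul (1 / 2)).congr (.of_forall fun _ => (Qf_def _ _).symm)
    ?_ fun p => ?_
  · rw [hess_sum_H_one, hess_Dop_one]
    ext x
    simp only [Sm.mul_apply, Sm.sub_apply, Sm.smul_apply, Sm.one_apply, pb_two]
    norm_num
  · simp only [Finset.sum_add_distrib, mul_comm (H _ _ p.u), hess_sum_H_one]
    ext x
    simp only [Sm.mul_apply, Sm.sub_apply, Sm.smul_apply, Sm.add_apply, pb_two]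
    ring

theorem pb_ex_dinv (hA : PullAStmt) : PbEx 6 (fun p => dinv p.u) 1 fun p => -Dop p.u :=
  pb_ex_det.inv (PbOC.cp pb_smooth_inv pb_ex_det.one) ((pb_good hA).mono fun _ hp => hp.dinv_mul)

theorem pb_ex_Jac (hA : PullAStmt) : PbEx 6 (fun p => Jac p.u) 1 fun p => lap p.u := by
  refine ((pb_ex_det.mul pb_ex_h).mul (((pb_ex_r hA).mul (pb_ex_r hA)).mul (pb_ex_r hA))).congr
    ((pb_good hA).mono fun p hp => ?_) (by simp) fun p => ?_
  · rw [Jac, ← pb_pk_add hp, ← pb_pk_add hp]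
    norm_num
  · rw [Dop_def]; ring

/-- the inverse of the Jacobian -/
noncomputable def pbJi (u : Sm) : Sm := cp (fun t => t⁻¹) (Jac u)

theorem pb_Ji_mul {u : Sm} (h : Good u) : pbJi u * Jac u = 1 := by
  ext x
  have h1 := h.jac_ge x
  rw [Sm.mul_apply, pbJi, cp_apply fun x => pb_smooth_inv _ (by linarith [h.jac_ge x])]
  exact inv_mul_cancel₀ (by linarith)

theorem pb_ex_Ji (hA : PullAStmt) : PbEx 6 (fun p => pbJi p.u) 1 fun p => -lap p.u :=
  (pb_ex_Jac hA).inv (PbOC.cp pb_smooth_inv (pb_ex_Jac hA).one)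
    ((pb_good hA).mono fun _ hp => pb_Ji_mul hp)

theorem pb_ex_pv (a : Fin 3) : PbEx 6 (fun p => pv p.u a) (X a) fun p => pbq p.u a :=
  ((pb_ex_h.mul (PbEx.fix 6 (X a))).add (PbEx.lin (pb_D6 a))).congr (.of_forall fun _ => rfl)
    (by simp) fun p => by simp [pbq]

theorem pb_ex_PX (hA : PullAStmt) (a : Fin 3) :
    PbEx 6 (fun p => pull p.u (X a)) (X a) fun p => D a p.u :=
  ((pb_ex_r hA).mul (pb_ex_pv a)).congr ((pb_good hA).mono fun _ hp => (pb_pull_X hp a).symm)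
    (one_mul _) fun p => by rw [pbq]; ring

theorem pb_ev_X (a c : Fin 3) : ∑ d, ev a c d • X d = L a (X c) := (L_X a c).symm

theorem pb_cof (b : Fin 3) (Y : Fin 3 → Sm) (hY : ∑ c, X c * Y c = 0) :
    ∑ c, (2 * kd b c - H b c 1) * Y c = Y b := by
  have h := hess_sum_kd b Y
  simp only [H_one, hess_kd_comm b, Fin.sum_univ_three] at h hY ⊢
  linear_combination h + X b * hY

theorem pb_ex_Wf (hA : PullAStmt) (a b : Fin 3) :
    PbEx 6 (fun p => Wf p.u a b) (L a (X b)) fun p => -D b (L a p.u) := by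
  refine ((pb_ex_dinv hA).mul (PbEx.sum fun c =>
    ((pb_ex_Dop.mul (PbEx.fix 6 (kd b c))).sub (pb_ex_H b c)).mul
      ((PbEx.sum fun d => (pb_ex_pv d).smul (ev a c d)).add
        (((pb_ex_hinv hA).mul (PbEx.lin (pb_L6 a))).mul (pb_ex_pv c))))).congr
    (.of_forall fun _ => rfl) ?_ fun p => ?_
  · simp only [pb_ev_X, mul_zero, zero_mul, add_zero, one_mul]
    exact pb_cof b _ (pb_sum_X_LX a)
  · have hL : L a p.u = ∑ c, L a (X c) * D c p.u := L_eq_sum_D a p.u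
    have h0 := pb_sum_X_LX a
    have hE : ∀ c, ∑ d, ev a c d • pbq p.u d = p.u * L a (X c) + ∑ d, ev a c d • D d p.u := by
      intro c
      simp only [pbq, smul_add, Finset.sum_add_distrib, ← pb_ev_X, Finset.mul_sum, mul_smul_comm]
    have hX : ∑ c, X c * ∑ d, ev a c d • D d p.u = -L a p.u := by
      have h1 := hess_ev_cancel a (fun c => D c p.u) X
      simp only [pb_ev_X, mul_comm (D _ p.u), ← hL] at h1
      simp only [mul_comm (X _)]
      exact eq_neg_of_add_eq_zero_left h1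
    have hY : ∑ c, X c * (p.u * L a (X c) + ∑ d, ev a c d • D d p.u + L a p.u * X c) = 0 := by
      have h1 := sum_X_sq
      simp only [Fin.sum_univ_three (fun c => X c * _)] at h0 hX h1 ⊢
      linear_combination p.u * h0 + hX + L a p.u * h1
    have hLD := L_D a b p.u
    have hH : ∑ c, H b c p.u * L a (X c) = L a (D b p.u) + p.u * L a (X b) + X b * L a p.u := by
      have h1 := L_eq_sum_D a (D b p.u)
      have h2 := hess_sum_kd b fun c => L a (X c)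
      simp only [fun c => H_symm b c p.u, hess_expand, Fin.sum_univ_three] at h0 h1 h2 hL ⊢
      linear_combination -h1 - X b * hL + p.u * h2 - p.u * X b * h0
    have hk := hess_sum_kd b fun c => L a (X c)
    simp only [pb_ev_X, hE, mul_zero, zero_mul, add_zero, zero_add, one_mul,
      Finset.sum_add_distrib, pb_cof b _ hY, pb_cof b _ h0]
    simp only [hess_kd_comm b, Fin.sum_univ_three (fun c => _ * L a (X c))] at hH hk ⊢
    linear_combination -hH + Dop p.u * hk - hLD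

end Pool.Agent.Lib.MP_2fa2a2_gt.PI
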