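import Pool.Agent.Lib.MP_2fa2a2_gt.PI.PullBY

/-! The pull back on non-negative integer levels; orders of magnitude for operators. -/

namespace Pool.Agent.Lib.MP_2fa2a2_gt.PI

open MeasureTheory Filter Topology
open scoped ContDiff

/-- the family of maps is of order `j` from level `k'` to level `k` -/
def PbON (N : ℕ → Sm → ℝ) (k' k j : ℕ) (T : PbP → Sm → Sm) : Prop :=
  ∃ C, 0 ≤ C ∧ ∀ᶠ p in pbF, ∀ φ, N k (T p φ) ≤ C * p.b ^ j * N k' φ

section
variable {N : ℕ → Sm → ℝ} {k' k j j' : ℕ} {T T' : PbP → Sm → Sm} {v : PbP → Sm}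

theorem PbON.congr (h : PbON N k' k j T) (e : ∀ᶠ p in pbF, ∀ φ, T p φ = T' p φ) : PbON N k' k j T' := by
  obtain ⟨C, h0, h⟩ := h
  refine ⟨C, h0, ?_⟩
  filter_upwards [h, e] with p hp he φ
  rw [← he]; exact hp φ

theorem PbON.scale (h : PbON N k' k j T) : PbON N k' k j fun p => T (pbS p) := by
  obtain ⟨C, h0, h⟩ := h
  exact ⟨C, h0, pb_scale h⟩

theorem PbON.add (hN : PbScale N) (h : PbON N k' k j T) (h' : PbON N k' k j T') :
    PbON N k' k j fun p φ => T p φ + T' p φ := by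
  obtain ⟨C, h0, h⟩ := h
  obtain ⟨C', h0', h'⟩ := h'
  refine ⟨C + C', by positivity, ?_⟩
  filter_upwards [h, h'] with p hp hp' φ
  rw [add_mul, add_mul]
  exact (hN.add _ _ _).trans (add_le_add (hp φ) (hp' φ))

theorem PbON.sum (hN : PbScale N) {T : Fin 3 → PbP → Sm → Sm} (h : ∀ a, PbON N k' k j (T a)) :
    PbON N k' k j fun p φ => ∑ a, T a p φ :=
  (((h 0).add hN (h 1)).add hN (h 2)).congr (.of_forall fun _ _ => by rw [Fin.sum_univ_three])

theorem PbON.mul (hN : PbScale N) (hv : PbOC k j v) (h : PbON N k' k j' T) :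
    PbON N k' k (j + j') fun p φ => v p * T p φ := by
  obtain ⟨C, h0, h⟩ := h
  obtain ⟨C', h0', hv⟩ := hv
  obtain ⟨A, hA0, hA⟩ := hN.mul k
  refine ⟨A * C' * C, by positivity, ?_⟩
  filter_upwards [h, hv, pb_base] with p hp hq hb φ
  have := hb.1
  refine (hA _ _ _ hq).trans ((mul_le_mul_of_nonneg_left (hp φ) (by positivity)).trans
    (le_of_eq (by ring)))

theorem PbON.mull (hN : PbScale N) (ψ : Sm) (h : PbON N k' k j T) :
    PbON N k' k j fun p φ => ψ * T p φ := by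
  simpa using PbON.mul hN (PbOC.fix k ψ) h

theorem PbON.compD (hN : PbScale N) (h : PbON N k' k j T) (a : Fin 3) :
    PbON N (k' + 1) k j fun p φ => T p (D a φ) := by
  obtain ⟨C, h0, h⟩ := h
  obtain ⟨A, hA0, hA⟩ := hN.D k'
  refine ⟨C * A, by positivity, ?_⟩
  filter_upwards [h, pb_base] with p hp hb φ
  have := hb.1
  exact (hp _).trans ((mul_le_mul_of_nonneg_left (hA a φ) (by positivity)).trans
    (le_of_eq (by ring)))

theorem PbON.up (hN : PbScale N) (h : PbON N k' k j T) : PbON N (k' + 1) k j T := by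
  obtain ⟨C, h0, h⟩ := h
  refine ⟨C, h0, ?_⟩
  filter_upwards [h, pb_base] with p hp hb φ
  have := hb.1
  exact (hp _).trans (mul_le_mul_of_nonneg_left (hN.mono _ φ) (by positivity))

theorem PbON.succ (hN : PbScale N) (h : PbON N k' k j T)
    (hL : ∀ a, PbON N k' k j fun p φ => L a (T p φ)) : PbON N k' (k + 1) j T := by
  obtain ⟨C, h0, h⟩ := h
  choose A hA0 hA using hL
  refine ⟨C + ∑ a, A a, add_nonneg h0 (Finset.sum_nonneg fun a _ => hA0 a), ?_⟩
  filter_upwards [h, eventually_all.2 hA] with p hp hq φ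
  rw [add_mul, add_mul, Finset.sum_mul, Finset.sum_mul]
  exact (hN.succ _ _).trans (add_le_add (hp φ) (Finset.sum_le_sum fun a _ => hq a φ))

theorem pb_m (hA : PullAStmt) {k : ℕ} (hk : k ≤ 5) (b a : Fin 3) :
    PbEx k (fun p => L b (pull p.u (X a))) (L b (X a)) fun p => L b (D a p.u) :=
  ((pb_ex_PX hA a).L b).mono hk

theorem pb_P (hA : PullAStmt) (hN : PbScale N) (k : ℕ) (hk : k ≤ 6) :
    PbON N k k 0 fun p φ => pull p.u φ := by
  induction k with
  | zero =>
    exact ⟨2, zero_le_two, (pb_good hA).mono fun p hp φ => by simpa using hN.pull _ φ hp⟩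
  | succ k ih =>
    have h := ih (by omega)
    refine (h.up hN).succ hN fun b => ?_
    exact (PbON.sum hN fun a => PbON.mul hN (pb_m hA (by omega) b a).zero (h.compD hN a)).congr
      ((pb_good hA).mono fun p hp φ => (pb_chain hp b φ).symm)

theorem pb_E0 (hA : PullAStmt) (hN : PbScale N) : PbON N 1 0 1 fun p φ => pull p.u φ - φ := by
  obtain ⟨C, h0, h⟩ : PbON N 1 0 1 fun p φ => pbg p.t p.u φ :=
    PbON.sum hN fun a => PbON.mul hN (((pb_ex_r hA).zero.scale.mul (pb_q6 a)).mono (Nat.zero_le _)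
      le_rfl) ((pb_P hA hN 0 (Nat.zero_le _)).scale.compD hN a)
  refine ⟨C, h0, ?_⟩
  filter_upwards [pb_allt h, pb_goodt hA] with p hp hg φ
  have h1 := hN.mv (fun t => pull (t • p.u) φ) (fun t => pbg t p.u φ) _
    (fun t ht x => pb_deriv hg φ ht x) (pb_g_bdd hg φ) fun t a b => hp t a b φ
  simpa only [one_smul, pb_pull_zero (hg 0 (by simp))] using h1

theorem pb_E (hA : PullAStmt) (hN : PbScale N) (k : ℕ) (hk : k ≤ 6) :
    PbON N (k + 1) k 1 fun p φ => pull p.u φ - φ := by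
  induction k with
  | zero => exact pb_E0 hA hN
  | succ k ih =>
    have h := ih (by omega)
    refine (h.up hN).succ hN fun b => ?_
    refine (PbON.sum hN fun a => (PbON.mul hN (pb_m hA (by omega) b a).one
      (((pb_P hA hN k (by omega)).up hN).compD hN a)).add hN
      ((h.compD hN a).mull hN (L b (X a)))).congr ((pb_good hA).mono fun p hp φ => ?_)
    rw [map_sub, pb_chain hp b φ, L_eq_sum_D b φ, ← Finset.sum_sub_distrib]
    exact Finset.sum_congr rfl fun a _ => by ring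

theorem pb_EE0 (hA : PullAStmt) (hN : PbScale N) :
    PbON N 2 0 2 fun p φ => pull p.u φ - φ - gd p.u φ := by
  obtain ⟨C, h0, h⟩ : PbON N 2 0 2 fun p φ => pbg p.t p.u φ - gd p.u φ := by
    refine (PbON.sum hN fun a => (PbON.mul hN (((pb_ex_r hA).one.scale.mul (pb_q6 a)).mono
      (Nat.zero_le _) le_rfl) (((pb_P hA hN 0 (Nat.zero_le _)).scale.up hN).compD hN a)).add hN
      (PbON.mul (j := 1) (j' := 1) hN ((pb_q6 a).mono (Nat.zero_le _) le_rfl)
        ((pb_E0 hA hN).scale.compD hN a))).congr (.of_forall fun p φ => ?_)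
    rw [pbg, ← pb_sum_q, ← Finset.sum_sub_distrib]
    exact Finset.sum_congr rfl fun a _ => by simp only [pbS]; ring
  refine ⟨C, h0, ?_⟩
  filter_upwards [pb_allt h, pb_goodt hA] with p hp hg φ
  have h1 := hN.mv (fun t => pull (t • p.u) φ - t • gd p.u φ) (fun t => pbg t p.u φ - gd p.u φ) _
    (fun t ht x => by
      have h2 := (pb_deriv hg φ ht x).sub ((hasDerivAt_id t).mul_const (gd p.u φ x))
      rw [one_mul] at h2
      exact h2)
    (by
      obtain ⟨K, hK⟩ := pb_g_bdd hg φ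
      obtain ⟨K', -, hK'⟩ := (gd p.u φ).bounded
      exact ⟨K + K', fun t ht x => (abs_sub _ _).trans (add_le_add (hK t ht x) (hK' x))⟩)
    fun t a b => hp t a b φ
  simpa only [one_smul, pb_pull_zero (hg 0 (by simp)), zero_smul ℝ (gd p.u φ), sub_zero,
    sub_right_comm _ (gd p.u φ)] using h1

theorem pb_EE (hA : PullAStmt) (hN : PbScale N) (k : ℕ) (hk : k ≤ 6) :
    PbON N (k + 2) k 2 fun p φ => pull p.u φ - φ - gd p.u φ := by
  induction k with
  | zero => exact pb_EE0 hA hN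
  | succ k ih =>
    have h := ih (by omega)
    refine (h.up hN).succ hN fun b => ?_
    refine (PbON.sum hN fun a => ((PbON.mul hN (pb_m hA (by omega) b a).2
      ((((pb_P hA hN k (by omega)).up hN).up hN).compD hN a)).add hN
      (PbON.mul (j := 1) (j' := 1) hN (pb_m hA (by omega) b a).1
        (((pb_E hA hN k (by omega)).up hN).compD hN a))).add hN
      ((h.compD hN a).mull hN (L b (X a)))).congr ((pb_good hA).mono fun p hp φ => ?_)
    rw [map_sub, map_sub, pb_chain hp b φ, L_eq_sum_D b φ, pb_L_gd, ← Finset.sum_add_distrib,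
      ← Finset.sum_sub_distrib, ← Finset.sum_sub_distrib]
    exact Finset.sum_congr rfl fun a _ => by ring

end

/-- the family of operators is of order `j` from level `s` to level `t` -/
def PbOB (s t : ℝ) (j : ℕ) (T : PbP → Sm →ₗ[ℝ] Sm) : Prop :=
  ∃ C, 0 ≤ C ∧ ∀ᶠ p in pbF, Bd 1 s t (C * p.b ^ j) (T p)

section
variable {r s t : ℝ} {j j' : ℕ} {T T' : PbP → Sm →ₗ[ℝ] Sm}

theorem PbOB.congr (h : PbOB s t j T) (e : ∀ᶠ p in pbF, ∀ φ, T p φ = T' p φ) : PbOB s t j T' := by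
  obtain ⟨C, h0, h⟩ := h
  refine ⟨C, h0, ?_⟩
  filter_upwards [h, e] with p hp he φ
  rw [← he]; exact hp φ

theorem PbOB.mono {s' t' : ℝ} (h : PbOB s t j T) (hs : s ≤ s') (ht : t' ≤ t) (hj : j' ≤ j) :
    PbOB s' t' j' T := by
  obtain ⟨C, h0, h⟩ := h
  refine ⟨C, h0, ?_⟩
  filter_upwards [h, pb_base] with p hp hb
  have := hb.1
  exact hp.mono le_rfl (by positivity) hs ht
    (mul_le_mul_of_nonneg_left (pow_le_pow_of_le_one hb.1 hb.2.1 hj) h0)

theorem PbOB.add (h : PbOB s t j T) (h' : PbOB s t j T') : PbOB s t j fun p => T p + T' p := by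
  obtain ⟨C, h0, h⟩ := h
  obtain ⟨C', h0', h'⟩ := h'
  refine ⟨C + C', by positivity, ?_⟩
  filter_upwards [h, h'] with p hp hp'
  rw [add_mul]; exact hp.add hp'

theorem PbOB.sub (h : PbOB s t j T) (h' : PbOB s t j T') : PbOB s t j fun p => T p - T' p := by
  obtain ⟨C, h0, h⟩ := h
  obtain ⟨C', h0', h'⟩ := h'
  refine ⟨C + C', by positivity, ?_⟩
  filter_upwards [h, h'] with p hp hp'
  rw [add_mul]; exact hp.sub hp'

theorem PbOB.sum {T : Fin 3 → PbP → Sm →ₗ[ℝ] Sm} (h : ∀ a, PbOB s t j (T a)) :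
    PbOB s t j fun p => ∑ a, T a p :=
  (((h 0).add (h 1)).add (h 2)).congr (.of_forall fun _ _ => by rw [Fin.sum_univ_three])

theorem PbOB.comp (h : PbOB s t j T) (h' : PbOB r s j' T') : PbOB r t (j + j') fun p => T p ∘ₗ T' p := by
  obtain ⟨C, h0, h⟩ := h
  obtain ⟨C', h0', h'⟩ := h'
  refine ⟨C * C', by positivity, ?_⟩
  filter_upwards [h, h', pb_base] with p hp hp' hb
  have := hb.1
  have e : C * C' * p.b ^ (j + j') = C * p.b ^ j * (C' * p.b ^ j') := by ring
  rw [e]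
  exact hp.comp (by positivity) hp'

theorem PbOB.fix {C : ℝ} {A : Sm →ₗ[ℝ] Sm} (h0 : 0 ≤ C) (h : Bd 1 s t C A) : PbOB s t 0 fun _ => A :=
  ⟨C, h0, .of_forall fun p => by rwa [pow_zero, mul_one]⟩

theorem PbOB.ml {k : ℕ} {v : PbP → Sm} (h : PbOC k j v) (z : ℤ) (hz : |z| ≤ k) :
    PbOB z z j fun p => ml (v p) := by
  obtain ⟨C, h0, h⟩ := h
  refine ⟨4 ^ k * C, by positivity, ?_⟩
  filter_upwards [h] with p hp
  rw [mul_assoc]
  exact mulx_int k z le_rfl hp hz

theorem PbOB.mid {s' t' : ℝ} (h : PbOB s t j T) (h' : PbOB s' t' j T) :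
    PbOB ((s + s') / 2) ((t + t') / 2) j T := by
  obtain ⟨C, h0, h⟩ := h
  obtain ⟨C', h0', h'⟩ := h'
  refine ⟨C + C', by positivity, ?_⟩
  filter_upwards [h, h', pb_base] with p hp hp' hb
  have := hb.1
  have h1 : 0 ≤ C * p.b ^ j := by positivity
  have h2 : 0 ≤ C' * p.b ^ j := by positivity
  exact Bd.mid le_rfl (by positivity) (hp.mono le_rfl h1 le_rfl le_rfl (by linarith))
    (hp'.mono le_rfl h2 le_rfl le_rfl (by linarith))

theorem PbOB.half (h : ∀ z : ℤ, |z| ≤ 4 → PbOB (z + r) z j T) (n : ℤ) (hn : |n| ≤ 8) :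
    PbOB (n / 2 + r) (n / 2) j T := by
  rw [abs_le] at hn
  obtain ⟨z, rfl | rfl⟩ := Int.even_or_odd' n
  · refine (h z (by rw [abs_le]; omega)).mono ?_ ?_ le_rfl <;> push_cast <;> linarith
  · refine ((h z (by rw [abs_le]; omega)).mid (h (z + 1) (by rw [abs_le]; omega))).mono ?_ ?_
      le_rfl <;> push_cast <;> linarith

theorem PbOB.down (h : PbOB (s + 1) t j T) (hL : ∀ a, PbOB (s + 1) t j fun p => T p ∘ₗ L a) :
    PbOB s t j T := by
  have h1 : PbOB s (s + 1) 0 fun _ => Sh 1 :=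
    (PbOB.fix zero_le_one (Bd_Sh_one s)).mono le_rfl (by linarith) le_rfl
  have h2 : ∀ a, PbOB s (s + 1) 0 fun _ => L a ∘ₗ Sh 1 := fun a =>
    (PbOB.fix zero_le_one (Bd_L le_rfl (s + 1) a)).comp
      ((PbOB.fix zero_le_one (Bd_Sh_one s)).mono le_rfl (by linarith) le_rfl)
  refine ((h.comp h1).sub (PbOB.sum fun a => (hL a).comp (h2 a))).congr (.of_forall fun p φ => ?_)
  conv_rhs => rw [← Sh_spec 1 φ, one_pow, one_smul, lap_def, map_sub, map_sum]
  simp only [LinearMap.sub_apply, LinearMap.comp_apply, LinearMap.sum_apply]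

theorem PbOB.int (h0 : ∀ k : ℕ, k ≤ 4 → PbOB (k + r) k j T)
    (h1 : ∀ z : ℤ, -4 < z → z ≤ 0 → PbOB (z + r) z j T → PbOB (z - 1 + r) (z - 1) j T) (z : ℤ)
    (hz : |z| ≤ 4) : PbOB (z + r) z j T := by
  have h2 : ∀ k : ℕ, k ≤ 4 → PbOB ((-k : ℤ) + r) (-k : ℤ) j T := by
    intro k hk
    induction k with
    | zero => simpa using h0 0 hk
    | succ k ih =>
      refine (h1 _ (by omega) (by omega) (ih (by omega))).mono ?_ ?_ le_rfl <;> push_cast <;>
        linarith
  rw [abs_le] at hz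
  obtain ⟨k, rfl | rfl⟩ := z.eq_nat_or_neg
  · exact_mod_cast h0 k (by omega)
  · exact h2 k (by omega)

theorem PbOB.of_ON {k' k : ℕ} (h : PbON (fun k φ => nrm 1 k φ) k' k j fun p φ => T p φ) :
    PbOB k' k j T := h

end

end Pool.Agent.Lib.MP_2fa2a2_gt.PI
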