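import Pool.Agent.Lib.MP_2fa2a2_gt.PI.Hess

/-! Action of the orthogonal group, parity, rotations about the vertical axis. -/

namespace Pool.Agent.Lib.MP_2fa2a2_gt.PI

open MeasureTheory Real
open scoped ContDiff

/-- an isometry acting on the sphere -/
noncomputable def rotS (g : E3 ≃ₗᵢ[ℝ] E3) (x : S2) : S2 := ⟨g x, by simp⟩

@[simp] theorem rotS_coe (g : E3 ≃ₗᵢ[ℝ] E3) (x : S2) : (rotS g x : E3) = g x := rfl

theorem rot_ne (x : S2) : (x : E3) ≠ 0 := ne_zero_of_mem_unit_sphere x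

theorem rot_ext0 (g : E3 ≃ₗᵢ[ℝ] E3) (φ : Sm) (x : S2) : ext0 φ (g x) = φ (rotS g x) := by
  show φ (nrmz (rotS g x : E3)) = _
  rw [nrmz_coe]

/-- composition with an isometry -/
noncomputable def act (g : E3 ≃ₗᵢ[ℝ] E3) : Sm →ₐ[ℝ] Sm where
  toFun φ := Sm.ofFun (fun y => ext0 φ (g y)) (fun x =>
    (φ.smoothAt (y := g x) (rot_ne (rotS g x))).comp (x : E3) g.contDiff.contDiffAt)
  map_one' := Sm.ext fun _ => rfl
  map_mul' := fun _ _ => Sm.ext fun _ => rfl
  map_zero' := Sm.ext fun _ => rfl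
  map_add' := fun _ _ => Sm.ext fun _ => rfl
  commutes' := fun _ => Sm.ext fun _ => rfl

@[simp] theorem act_apply (g : E3 ≃ₗᵢ[ℝ] E3) (φ : Sm) (x : S2) : act g φ x = φ (rotS g x) :=
  rot_ext0 g φ x

/-- matrix entries of an isometry -/
noncomputable def ent (g : E3 ≃ₗᵢ[ℝ] E3) (a b : Fin 3) : ℝ := g (EuclideanSpace.single b 1) a

theorem integral_rotS (g : E3 ≃ₗᵢ[ℝ] E3) (F : S2 → ℝ) :
    ∫ x, F (rotS g x) ∂sig = ∫ x, F x ∂sig := by
  unfold sig
  rw [integral_smul_measure, integral_smul_measure]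
  exact congrArg _ (MP_5b78b3_gt.integral_rot g F)
theorem I_act (g : E3 ≃ₗᵢ[ℝ] E3) (φ : Sm) : I (act g φ) = I φ := by
  rw [I_def, I_def, ← integral_rotS g φ]
  simp only [act_apply]
theorem inner_act (g : E3 ≃ₗᵢ[ℝ] E3) (φ ψ : Sm) :
    inner ℝ (act g φ) (act g ψ) = inner ℝ φ ψ := by
  rw [inner_def, inner_def, ← map_mul, I_act]
theorem norm_act (g : E3 ≃ₗᵢ[ℝ] E3) (φ : Sm) : ‖act g φ‖ = ‖φ‖ := by
  rw [norm_eq_sqrt_real_inner, norm_eq_sqrt_real_inner φ, inner_act]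
theorem act_act (g k : E3 ≃ₗᵢ[ℝ] E3) (φ : Sm) : act g (act k φ) = act (g.trans k) φ :=
  Sm.ext fun x => by simp only [act_apply]; rfl
theorem act_refl (φ : Sm) : act (LinearIsometryEquiv.refl ℝ E3) φ = φ :=
  Sm.ext fun x => by simp only [act_apply]; rfl

theorem rot_expand (y : E3) : y = ∑ b, y b • EuclideanSpace.single b (1 : ℝ) := by
  ext a
  fin_cases a <;> simp [Fin.sum_univ_three]

theorem rot_inner (y z : E3) : inner ℝ y z = ∑ a, y a * z a := by
  simp [PiLp.inner_apply, mul_comm]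

theorem rot_coord (y : E3) (a : Fin 3) : inner ℝ y (EuclideanSpace.single a (1 : ℝ)) = y a := by
  simp [EuclideanSpace.inner_single_right]

theorem rot_ent (g : E3 ≃ₗᵢ[ℝ] E3) (c a : Fin 3) :
    ent g c a = g.symm (EuclideanSpace.single c 1) a := by
  unfold ent
  rw [← rot_coord, ← rot_coord (g.symm _), real_inner_comm, ← g.inner_map_map (g.symm _),
    g.apply_symm_apply]

theorem rot_orth (g : E3 ≃ₗᵢ[ℝ] E3) (c d : Fin 3) :
    ∑ a, ent g c a * ent g d a = if c = d then 1 else 0 := by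
  simp only [rot_ent]
  rw [← rot_inner, g.symm.inner_map_map, rot_coord]
  by_cases h : c = d
  · simp [h]
  · simp [h, Ne.symm h]

theorem rot_trace (g : E3 ≃ₗᵢ[ℝ] E3) (F : Fin 3 → Fin 3 → Sm) :
    ∑ a, ∑ c, ∑ d, (ent g c a * ent g d a) • F c d = ∑ c, F c c := by
  rw [Finset.sum_comm]
  refine Finset.sum_congr rfl fun c _ => ?_
  rw [Finset.sum_comm]
  simp only [← Finset.sum_smul, rot_orth]
  simp

theorem rot_contr (g : E3 ≃ₗᵢ[ℝ] E3) (U V : Fin 3 → Sm) :
    ∑ a, (∑ c, ent g c a • U c) * (∑ d, ent g d a • V d) = ∑ c, U c * V c := by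
  rw [← rot_trace g (fun c d => U c * V d)]
  simp only [Finset.sum_mul_sum, smul_mul_smul_comm]

theorem rot_X (g : E3 ≃ₗᵢ[ℝ] E3) (b : Fin 3) : X b = ∑ d, ent g d b • act g (X d) := by
  ext x
  simp only [Sm.sum_apply, Sm.smul_apply, act_apply, X_apply, rotS_coe, ent]
  rw [← rot_inner, g.inner_map_map, real_inner_comm, rot_coord]

theorem act_X (g : E3 ≃ₗᵢ[ℝ] E3) (a : Fin 3) : act g (X a) = ∑ b, ent g a b • X b := by
  ext x
  simp only [Sm.sum_apply, Sm.smul_apply, act_apply, X_apply, rotS_coe, rot_ent]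
  rw [← rot_inner, ← g.inner_map_map, g.apply_symm_apply, real_inner_comm, rot_coord]
theorem act_cp (g : E3 ≃ₗᵢ[ℝ] E3) (k : ℝ → ℝ) (φ : Sm) : act g (cp k φ) = cp k (act g φ) := by
  by_cases h : ∀ x, ContDiffAt ℝ ∞ k (φ x)
  · have h' : ∀ x, ContDiffAt ℝ ∞ k (act g φ x) := fun x => by rw [act_apply]; exact h _
    ext x
    rw [act_apply, cp_apply h, cp_apply h', act_apply]
  · have h' : ¬ ∀ x, ContDiffAt ℝ ∞ k (act g φ x) := fun h' => h fun x => by
      have := h' (rotS g.symm x)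
      rw [act_apply] at this
      have e : rotS g (rotS g.symm x) = x := Subtype.ext (g.apply_symm_apply _)
      rwa [e] at this
    unfold cp
    rw [dif_neg h, dif_neg h', map_zero]
theorem D_act (g : E3 ≃ₗᵢ[ℝ] E3) (a : Fin 3) (φ : Sm) :
    D a (act g φ) = ∑ b, ent g b a • act g (D b φ) := by
  ext x
  have e : ext0 (act g φ) =ᶠ[nhds (x : E3)] ext0 φ ∘ g := by
    filter_upwards [isOpen_ne.mem_nhds (rot_ne x)] with y hy
    have hy' : g y ≠ 0 := fun h => hy (g.map_eq_zero_iff.1 h)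
    show act g φ (nrmz y) = φ (nrmz (g y))
    rw [act_apply]
    refine congrArg _ (Subtype.ext ?_)
    rw [rotS_coe, nrmz_val hy, nrmz_val hy', map_smul, g.norm_map]
  have hd : HasFDerivAt (ext0 φ) (fderiv ℝ (ext0 φ) (g x)) (g x) :=
    ((φ.smoothAt (y := g x) (rot_ne (rotS g x))).differentiableAt (by simp)).hasFDerivAt
  have hc := hd.comp (x : E3) (g.toContinuousLinearEquiv.hasFDerivAt (x := (x : E3)))
  rw [D_apply, e.fderiv_eq]
  refine (congrArg (fun T : E3 →L[ℝ] ℝ => T (EuclideanSpace.single a 1)) hc.fderiv).trans ?_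
  show fderiv ℝ (ext0 φ) (g x) (g (EuclideanSpace.single a 1)) = _
  rw [rot_expand (g (EuclideanSpace.single a 1)), map_sum]
  simp only [Sm.sum_apply, Sm.smul_apply, act_apply, D_apply, rotS_coe, map_smul, smul_eq_mul, ent]
theorem H_act (g : E3 ≃ₗᵢ[ℝ] E3) (a b : Fin 3) (φ : Sm) :
    H a b (act g φ) = ∑ c, ∑ d, (ent g c a * ent g d b) • act g (H c d φ) := by
  have e : D b (act g φ) + X b * act g φ = ∑ d, ent g d b • act g (D d φ + X d * φ) := by
    rw [D_act, rot_X g b, Finset.sum_mul, ← Finset.sum_add_distrib]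
    refine Finset.sum_congr rfl fun d _ => ?_
    rw [map_add, map_mul, smul_add, smul_mul_assoc]
  rw [H_def, e, map_sum, Finset.sum_comm]
  refine Finset.sum_congr rfl fun d _ => ?_
  rw [map_smul, D_act, Finset.smul_sum]
  refine Finset.sum_congr rfl fun c _ => ?_
  rw [smul_smul, mul_comm, H_def]

theorem rot_H (g : E3 ≃ₗᵢ[ℝ] E3) (a b : Fin 3) (φ : Sm) :
    H a b (act g φ) = ∑ c, ent g c a • ∑ d, ent g d b • act g (H c d φ) := by
  simp only [H_act, Finset.smul_sum, smul_smul]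

theorem rot_HH (g : E3 ≃ₗᵢ[ℝ] E3) (f k : Sm) :
    ∑ a, ∑ b, H a b (act g f) * H a b (act g k) = act g (∑ a, ∑ b, H a b f * H a b k) := by
  rw [Finset.sum_comm]
  simp only [rot_H, rot_contr]
  rw [Finset.sum_comm]
  simp only [rot_contr, map_sum, map_mul]

theorem lap_act (g : E3 ≃ₗᵢ[ℝ] E3) (φ : Sm) : lap (act g φ) = act g (lap φ) := by
  rw [lap_eq_D, lap_eq_D, map_sum, ← rot_trace g (fun c d => act g (D d (D c φ)))]
  simp only [D_act, map_sum, map_smul, Finset.smul_sum, smul_smul]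
theorem gd_act (g : E3 ≃ₗᵢ[ℝ] E3) (f k : Sm) : gd (act g f) (act g k) = act g (gd f k) := by
  simp only [gd_eq_D, D_act, rot_contr, map_sum, map_mul]
theorem Qf_act (g : E3 ≃ₗᵢ[ℝ] E3) (f k : Sm) : Qf (act g f) (act g k) = act g (Qf f k) := by
  rw [Qf_def, Qf_def, rot_HH]
  simp only [Dop_def, lap_act, map_smul, map_sub, map_mul, map_add, map_ofNat]
theorem Hn_act (g : E3 ≃ₗᵢ[ℝ] E3) (ψ : Sm) : Hn (act g ψ) = act g (Hn ψ) :=
  rot_HH g ψ ψ
theorem beta_act (g : E3 ≃ₗᵢ[ℝ] E3) (ψ f k : Sm) :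
    beta (act g ψ) (act g f) (act g k) = beta ψ f k := by
  rw [beta_def, beta_def, ← I_act g (Hv ψ _ _)]
  refine congrArg _ ?_
  unfold Hv gr
  rw [Finset.sum_comm]
  simp only [← Finset.sum_mul]
  simp only [rot_H, D_act g _ f, rot_contr]
  simp only [Finset.sum_mul]
  rw [Finset.sum_comm]
  simp only [mul_right_comm _ (act g (D _ f)), ← Finset.sum_mul]
  simp only [D_act g _ k, rot_contr]
  simp only [map_sum, map_mul, Finset.sum_mul]
  exact Finset.sum_congr rfl fun _ _ => Finset.sum_congr rfl fun _ _ => mul_right_comm _ _ _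

/-- the antipodal point -/
noncomputable def neg (x : S2) : S2 := rotS (LinearIsometryEquiv.neg ℝ) x

/-- composition with the antipodal map -/
noncomputable def ant : Sm →ₐ[ℝ] Sm := act (LinearIsometryEquiv.neg ℝ)

@[simp] theorem neg_coe (x : S2) : (neg x : E3) = -(x : E3) := rfl
@[simp] theorem ant_apply (φ : Sm) (x : S2) : ant φ x = φ (neg x) := act_apply _ φ x
theorem rot_neg_neg (x : S2) : neg (neg x) = x := Subtype.ext (neg_neg (x : E3))
@[simp] theorem ant_ant (φ : Sm) : ant (ant φ) = φ :=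
  Sm.ext fun x => by rw [ant_apply, ant_apply, rot_neg_neg]
@[simp] theorem ant_X (a : Fin 3) : ant (X a) = -X a := Sm.ext fun x => by simp
theorem rot_ant_D (a : Fin 3) (φ : Sm) : ant (D a φ) = -D a (ant φ) := by
  unfold ant
  rw [D_act]
  fin_cases a <;> simp [ent]
theorem ant_L (a : Fin 3) (φ : Sm) : ant (L a φ) = L a (ant φ) := by
  rw [L_eq_D, L_eq_D]
  simp only [map_sub, map_mul, ant_X, rot_ant_D, neg_mul_neg]
theorem ant_Lw (w : List (Fin 3)) (φ : Sm) : ant (Lw w φ) = Lw w (ant φ) := by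
  induction w with
  | nil => rfl
  | cons a w ih => rw [Lw_cons, Lw_cons, ant_L, ih]
theorem ant_D (a : Fin 3) (φ : Sm) : ant (D a φ) = -D a (ant φ) := rot_ant_D a φ
theorem ant_H (a b : Fin 3) (φ : Sm) : ant (H a b φ) = H a b (ant φ) := by
  rw [H_def, H_def, ant_D, map_add ant, map_mul, ant_D, ant_X, ← map_neg]
  refine congrArg _ ?_
  ring
theorem ant_Hs (a b : Fin 3) (φ : Sm) : ant (Hs a b φ) = Hs a b (ant φ) := by
  show ant (3 * X b * (2 * X a * φ - D a φ) - D b (2 * X a * φ - D a φ)) =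
    3 * X b * (2 * X a * ant φ - D a (ant φ)) - D b (2 * X a * ant φ - D a (ant φ))
  have e : ant (2 * X a * φ - D a φ) = -(2 * X a * ant φ - D a (ant φ)) := by
    rw [map_sub, map_mul, map_mul, ant_D, ant_X, map_ofNat]
    ring
  rw [map_sub ant, map_mul, map_mul, ant_D, e, ant_X, map_ofNat, map_neg]
  ring
theorem ant_Zf {g : ℝ → ℝ} (hg : ContDiff ℝ ∞ g) : ant (Zf g) = Zf (fun t => g (-t)) := by
  ext x
  rw [ant_apply, Zf_apply hg, Zf_apply (g := fun t => g (-t)) (hg.comp contDiff_neg)]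
  rfl

/-- even functions -/
def Ev : Submodule ℝ Sm where
  carrier := {φ | ant φ = φ}
  add_mem' := fun {a b} (ha : ant a = a) (hb : ant b = b) => show ant (a + b) = a + b by
    rw [map_add, ha, hb]
  zero_mem' := map_zero ant
  smul_mem' := fun c a (ha : ant a = a) => show ant (c • a) = c • a by rw [map_smul, ha]

/-- odd functions -/
def Od : Submodule ℝ Sm where
  carrier := {φ | ant φ = -φ}
  add_mem' := fun {a b} (ha : ant a = -a) (hb : ant b = -b) => show ant (a + b) = -(a + b) by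
    rw [map_add, ha, hb, neg_add]
  zero_mem' := show ant 0 = -0 by rw [map_zero, neg_zero]
  smul_mem' := fun c a (ha : ant a = -a) => show ant (c • a) = -(c • a) by
    rw [map_smul, ha, smul_neg]

theorem mem_Ev {φ : Sm} : φ ∈ Ev ↔ ant φ = φ := Iff.rfl
theorem mem_Od {φ : Sm} : φ ∈ Od ↔ ant φ = -φ := Iff.rfl

/-- even part -/
noncomputable def evp : Sm →ₗ[ℝ] Sm := (1 / 2 : ℝ) • (LinearMap.id + ant.toLinearMap)
/-- odd part -/
noncomputable def odp : Sm →ₗ[ℝ] Sm := (1 / 2 : ℝ) • (LinearMap.id - ant.toLinearMap)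

theorem evp_mem (φ : Sm) : evp φ ∈ Ev := by
  show ant ((1 / 2 : ℝ) • (φ + ant φ)) = (1 / 2 : ℝ) • (φ + ant φ)
  rw [map_smul, map_add, ant_ant, add_comm]
theorem odp_mem (φ : Sm) : odp φ ∈ Od := by
  show ant ((1 / 2 : ℝ) • (φ - ant φ)) = -((1 / 2 : ℝ) • (φ - ant φ))
  rw [map_smul, map_sub, ant_ant, ← smul_neg, neg_sub]
theorem evp_add_odp (φ : Sm) : evp φ + odp φ = φ := by
  show (1 / 2 : ℝ) • (φ + ant φ) + (1 / 2 : ℝ) • (φ - ant φ) = φ
  ext x
  simp only [Sm.add_apply, Sm.sub_apply, Sm.smul_apply]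
  ring
theorem I_of_Od {φ : Sm} (h : φ ∈ Od) : I φ = 0 := by
  have e : I (ant φ) = I φ := I_act _ φ
  rw [mem_Od.1 h, map_neg] at e
  linarith
theorem I_le_of_Ev {φ ψ : Sm} (hφ : φ ∈ Ev) (hψ : ψ ∈ Ev)
    (h : ∀ x : S2, 0 ≤ (x : E3) 2 → φ x ≤ ψ x) : I φ ≤ I ψ := by
  refine I_mono fun x => ?_
  rcases le_total 0 ((x : E3) 2) with hx | hx
  · exact h x hx
  · rw [← mem_Ev.1 hφ, ← mem_Ev.1 hψ, ant_apply, ant_apply]
    exact h _ (by simpa using hx)
theorem Cb.ant {k : ℕ} {lam B : ℝ} {v : Sm} (h : Cb k lam B v) : Cb k lam B (ant v) := by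
  intro w hw x
  rw [← ant_Lw, ant_apply]
  exact h w hw _

end Pool.Agent.Lib.MP_2fa2a2_gt.PI
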