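import Pool.Agent.Lib.MP_2fa2a2_gt.PI.Rot

/-! Rotations about the vertical axis, zonal means. -/

namespace Pool.Agent.Lib.MP_2fa2a2_gt.PI

open MeasureTheory Real
open scoped ContDiff

/-- rotation by the angle `θ` about the vertical axis -/
noncomputable def rotZ (θ : ℝ) : E3 ≃ₗᵢ[ℝ] E3 where
  toFun y := !₂[cos θ * y 0 - sin θ * y 1, sin θ * y 0 + cos θ * y 1, y 2]
  invFun y := !₂[cos θ * y 0 + sin θ * y 1, -sin θ * y 0 + cos θ * y 1, y 2]
  map_add' := by
    intro x y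
    ext i
    fin_cases i <;> simp <;> ring
  map_smul' := by
    intro c x
    ext i
    fin_cases i <;> simp <;> ring
  left_inv := by
    intro x
    have h := sin_sq_add_cos_sq θ
    ext i
    fin_cases i
    · simp
      linear_combination (x 0) * h
    · simp
      linear_combination (x 1) * h
    · simp
  right_inv := by
    intro x
    have h := sin_sq_add_cos_sq θ
    ext i
    fin_cases i
    · simp
      linear_combination (x 0) * h
    · simp
      linear_combination (x 1) * h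
    · simp
  norm_map' := by
    intro x
    have h := sin_sq_add_cos_sq θ
    rw [EuclideanSpace.norm_eq, EuclideanSpace.norm_eq]
    congr 1
    simp [Fin.sum_univ_three]
    linear_combination (x 0 ^ 2 + x 1 ^ 2) * h

@[simp] theorem rotZ_0 (θ : ℝ) (y : E3) : rotZ θ y 0 = cos θ * y 0 - sin θ * y 1 := rfl
@[simp] theorem rotZ_1 (θ : ℝ) (y : E3) : rotZ θ y 1 = sin θ * y 0 + cos θ * y 1 := rfl
@[simp] theorem rotZ_2 (θ : ℝ) (y : E3) : rotZ θ y 2 = y 2 := rfl

theorem rotz_ext {u v : E3} (h0 : u 0 = v 0) (h1 : u 1 = v 1) (h2 : u 2 = v 2) : u = v := by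
  ext i
  fin_cases i
  exacts [h0, h1, h2]

theorem rotZ_add (θ η : ℝ) : (rotZ η).trans (rotZ θ) = rotZ (θ + η) := by
  refine LinearIsometryEquiv.ext fun y => rotz_ext ?_ ?_ ?_
  · simp [cos_add, sin_add]
    ring
  · simp [cos_add, sin_add]
    ring
  · simp
theorem rotZ_zero : rotZ 0 = LinearIsometryEquiv.refl ℝ E3 := by
  refine LinearIsometryEquiv.ext fun y => rotz_ext ?_ ?_ ?_ <;> simp
theorem rotZ_periodic (θ : ℝ) : rotZ (θ + 2 * π) = rotZ θ := by
  refine LinearIsometryEquiv.ext fun y => rotz_ext ?_ ?_ ?_ <;> simp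

theorem rotz_ent (θ : ℝ) :
    ent (rotZ θ) 0 0 = cos θ ∧ ent (rotZ θ) 1 0 = sin θ ∧ ent (rotZ θ) 2 0 = 0 ∧
    ent (rotZ θ) 0 1 = -sin θ ∧ ent (rotZ θ) 1 1 = cos θ ∧ ent (rotZ θ) 2 1 = 0 ∧
    ent (rotZ θ) 0 2 = 0 ∧ ent (rotZ θ) 1 2 = 0 ∧ ent (rotZ θ) 2 2 = 1 := by
  simp [ent]

theorem rotz_L0 (φ : Sm) : L 0 φ = X 1 * D 2 φ - X 2 * D 1 φ := L_eq_D 0 φ
theorem rotz_L1 (φ : Sm) : L 1 φ = X 2 * D 0 φ - X 0 * D 2 φ := L_eq_D 1 φ
theorem rotz_L2 (φ : Sm) : L 2 φ = X 0 * D 1 φ - X 1 * D 0 φ := L_eq_D 2 φ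

theorem L_rotZ (θ : ℝ) (a : Fin 3) (φ : Sm) :
    L a (act (rotZ θ) φ) = ∑ b, ent (rotZ θ) b a • act (rotZ θ) (L b φ) := by
  obtain ⟨e1, e2, e3, e4, e5, e6, e7, e8, e9⟩ := rotz_ent θ
  have h := sin_sq_add_cos_sq θ
  ext x
  have key : ∀ a : Fin 3, a = 0 ∨ a = 1 ∨ a = 2 := by decide
  rcases key a with rfl | rfl | rfl
  · simp only [rotz_L0, rotz_L1, rotz_L2, D_act, Fin.sum_univ_three, e1, e2, e3, e4, e5, e6, e7,
      e8, e9, Sm.add_apply, Sm.sub_apply, Sm.mul_apply, Sm.smul_apply, act_apply, X_apply,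
      rotS_coe, rotZ_0, rotZ_1, rotZ_2]
    linear_combination (-((x : E3) 1) * D 2 φ (rotS (rotZ θ) x)) * h
  · simp only [rotz_L0, rotz_L1, rotz_L2, D_act, Fin.sum_univ_three, e1, e2, e3, e4, e5, e6, e7,
      e8, e9, Sm.add_apply, Sm.sub_apply, Sm.mul_apply, Sm.smul_apply, act_apply, X_apply,
      rotS_coe, rotZ_0, rotZ_1, rotZ_2]
    linear_combination (((x : E3) 0) * D 2 φ (rotS (rotZ θ) x)) * h
  · simp only [rotz_L0, rotz_L1, rotz_L2, D_act, Fin.sum_univ_three, e1, e2, e3, e4, e5, e6, e7,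
      e8, e9, Sm.add_apply, Sm.sub_apply, Sm.mul_apply, Sm.smul_apply, act_apply, X_apply,
      rotS_coe, rotZ_0, rotZ_1, rotZ_2]
    ring
theorem L2_rotZ (θ : ℝ) (φ : Sm) : L 2 (act (rotZ θ) φ) = act (rotZ θ) (L 2 φ) := by
  obtain ⟨-, -, -, -, -, -, e7, e8, e9⟩ := rotz_ent θ
  rw [L_rotZ, Fin.sum_univ_three, e7, e8, e9]
  simp
theorem D2_rotZ (θ : ℝ) (φ : Sm) : D 2 (act (rotZ θ) φ) = act (rotZ θ) (D 2 φ) := by
  obtain ⟨-, -, -, -, -, -, e7, e8, e9⟩ := rotz_ent θ
  rw [D_act, Fin.sum_univ_three, e7, e8, e9]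
  simp
theorem rotZ_Zf (θ : ℝ) (g : ℝ → ℝ) : act (rotZ θ) (Zf g) = Zf g := by
  have h : act (rotZ θ) (X 2) = X 2 := by
    ext x
    simp
  rw [Zf, act_cp, h]
theorem ant_rotZ (θ : ℝ) (φ : Sm) : ant (act (rotZ θ) φ) = act (rotZ θ) (ant φ) := by
  ext x
  simp only [ant_apply, act_apply]
  congr 1
  apply Subtype.ext
  simp
theorem hasDerivAt_rotZ (φ : Sm) (x : S2) (θ : ℝ) :
    HasDerivAt (fun t => φ (rotS (rotZ t) x)) (L 2 φ (rotS (rotZ θ) x)) θ := by
  have hc : HasDerivAt (fun s => ((rotS (rotZ s) x : S2) : E3))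
      (!₂[-sin θ * (x : E3) 0 - cos θ * (x : E3) 1, cos θ * (x : E3) 0 + -sin θ * (x : E3) 1, 0])
      θ := by
    have e : (fun s => ((rotS (rotZ s) x : S2) : E3)) = fun s =>
        cos s • (!₂[(x : E3) 0, (x : E3) 1, 0] : E3) + sin s • (!₂[-(x : E3) 1, (x : E3) 0, 0] : E3)
          + (!₂[0, 0, (x : E3) 2] : E3) := by
      funext s
      refine rotz_ext ?_ ?_ ?_ <;> simp <;> ring
    rw [e]
    have := (((hasDerivAt_cos θ).smul_const (!₂[(x : E3) 0, (x : E3) 1, 0] : E3)).add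
      ((hasDerivAt_sin θ).smul_const (!₂[-(x : E3) 1, (x : E3) 0, 0] : E3))).add_const
      (!₂[0, 0, (x : E3) 2] : E3)
    refine this.congr_deriv ?_
    refine rotz_ext ?_ ?_ ?_ <;> simp <;> ring
  have := hasDerivAt_curve φ hc
  convert this using 1
  rw [rotz_L2, Fin.sum_univ_three]
  simp
  ring

theorem rotz_ent_sum (θ : ℝ) (a : Fin 3) : ∑ b, |ent (rotZ θ) b a| ≤ 2 := by
  obtain ⟨e1, e2, e3, e4, e5, e6, e7, e8, e9⟩ := rotz_ent θ
  have h1 := abs_cos_le_one θ
  have h2 := abs_sin_le_one θ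
  have key : ∀ a : Fin 3, a = 0 ∨ a = 1 ∨ a = 2 := by decide
  rcases key a with rfl | rfl | rfl
  · rw [Fin.sum_univ_three, e1, e2, e3, abs_zero]
    linarith
  · rw [Fin.sum_univ_three, e4, e5, e6, abs_zero, abs_neg]
    linarith
  · rw [Fin.sum_univ_three, e7, e8, e9, abs_zero, abs_one]
    linarith

theorem rotz_Lw_bound (θ : ℝ) (n : ℕ) : ∀ (w : List (Fin 3)) (v : Sm) (C : ℝ), w.length = n →
    (∀ u : List (Fin 3), u.length = n → ∀ x, |Lw u v x| ≤ C) →
    ∀ x, |Lw w (act (rotZ θ) v) x| ≤ 2 ^ n * C := by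
  induction n with
  | zero =>
    intro w v C hw h x
    obtain rfl := List.length_eq_zero_iff.1 hw
    simpa using h [] rfl _
  | succ n ih =>
    intro w v C hw h x
    have hne : w ≠ [] := by
      rintro rfl
      simp at hw
    obtain ⟨w', a, rfl⟩ : ∃ w' a, w = w' ++ [a] :=
      ⟨w.dropLast, w.getLast hne, (List.dropLast_append_getLast hne).symm⟩
    have hw' : w'.length = n := by simpa using hw
    have hC : 0 ≤ C := (abs_nonneg _).trans (h _ hw x)
    rw [Lw_append, Lw_cons, Lw_nil, L_rotZ, map_sum, Sm.sum_apply]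
    have hb : ∀ b, |Lw w' (act (rotZ θ) (L b v)) x| ≤ 2 ^ n * C := by
      intro b
      refine ih w' (L b v) C hw' (fun u hu y => ?_) x
      have := h (u ++ [b]) (by simp [hu]) y
      rwa [Lw_append, Lw_cons, Lw_nil] at this
    calc |∑ b, (Lw w' (ent (rotZ θ) b a • act (rotZ θ) (L b v))) x|
        ≤ ∑ b, |(Lw w' (ent (rotZ θ) b a • act (rotZ θ) (L b v))) x| :=
          Finset.abs_sum_le_sum_abs _ _
      _ ≤ ∑ b, |ent (rotZ θ) b a| * (2 ^ n * C) := by
          refine Finset.sum_le_sum fun b _ => ?_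
          rw [map_smul, Sm.smul_apply, abs_mul]
          exact mul_le_mul_of_nonneg_left (hb b) (abs_nonneg _)
      _ = (∑ b, |ent (rotZ θ) b a|) * (2 ^ n * C) := by rw [Finset.sum_mul]
      _ ≤ 2 * (2 ^ n * C) :=
          mul_le_mul_of_nonneg_right (rotz_ent_sum θ a) (by positivity)
      _ = 2 ^ (n + 1) * C := by ring

theorem Cb.rotZ {k : ℕ} {lam B : ℝ} {v : Sm} (h : Cb k lam B v) (hl : 0 ≤ lam) (θ : ℝ) :
    Cb k lam (2 ^ k * B) (act (rotZ θ) v) := by
  intro w hw x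
  have hB : 0 ≤ B := by
    have := h [] (Nat.zero_le _) x
    simp only [List.length_nil, pow_zero, mul_one] at this
    exact (abs_nonneg _).trans this
  have h1 := rotz_Lw_bound θ w.length w v (B * lam ^ w.length) rfl
    (fun u hu y => by simpa [hu] using h u (hu.le.trans hw) y) x
  refine h1.trans ?_
  rw [mul_assoc]
  exact mul_le_mul_of_nonneg_right (pow_le_pow_right₀ (by norm_num) hw) (by positivity)

/-- functions invariant under the rotation of order `m` -/
def Zi (m : ℕ) : Submodule ℝ Sm where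
  carrier := {φ | act (rotZ (2 * π / m)) φ = φ}
  add_mem' := by
    intro a b ha hb
    simp only [Set.mem_ofPred_eq] at ha hb ⊢
    rw [map_add, ha, hb]
  zero_mem' := by simp
  smul_mem' := by
    intro c a ha
    simp only [Set.mem_ofPred_eq] at ha ⊢
    rw [map_smul, ha]

theorem mem_Zi {m : ℕ} {φ : Sm} : φ ∈ Zi m ↔ act (rotZ (2 * π / m)) φ = φ := Iff.rfl

/-- average over the cyclic group of order `m` -/
noncomputable def avZ (m : ℕ) : Sm →ₗ[ℝ] Sm :=
  (1 / m : ℝ) • ∑ k ∈ Finset.range m, (act (rotZ (2 * π * k / m))).toLinearMap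

theorem rotz_avZ (m : ℕ) (φ : Sm) :
    avZ m φ = (1 / m : ℝ) • ∑ k ∈ Finset.range m, act (rotZ (2 * π * k / m)) φ := by
  simp [avZ, LinearMap.sum_apply]

theorem rotz_act_act (θ η : ℝ) (φ : Sm) :
    act (rotZ η) (act (rotZ θ) φ) = act (rotZ (θ + η)) φ := by
  rw [act_act, rotZ_add]

theorem rotz_succ (m k : ℕ) :
    2 * π * ((k + 1 : ℕ) : ℝ) / m = 2 * π * k / m + 2 * π / m := by
  push_cast
  ring

theorem avZ_mem {m : ℕ} (hm : 0 < m) (φ : Sm) : avZ m φ ∈ Zi m := by
  have hm' : (m : ℝ) ≠ 0 := by positivity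
  rw [mem_Zi, rotz_avZ, map_smul, map_sum]
  congr 1
  simp only [rotz_act_act, ← rotz_succ]
  have h1 := Finset.sum_range_succ (fun k : ℕ => act (rotZ (2 * π * k / m)) φ) m
  have h2 := Finset.sum_range_succ' (fun k : ℕ => act (rotZ (2 * π * k / m)) φ) m
  have h3 : rotZ (2 * π * (m : ℝ) / m) = rotZ (2 * π * ((0 : ℕ) : ℝ) / m) := by
    rw [← rotZ_periodic (2 * π * ((0 : ℕ) : ℝ) / m)]
    congr 1
    field_simp
    simp
  rw [h1, h3] at h2
  exact (add_right_cancel h2).symm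

theorem rotz_form {m : ℕ} (hm : 0 < m) {V : Type} [AddCommGroup V] [Module ℝ V]
    (A : Sm →ₗ[ℝ] V) (φ : Sm)
    (hA : ∀ k : ℕ, A (act (rotZ (2 * π * k / m)) φ) = A φ) : A (avZ m φ) = A φ := by
  have hm' : (m : ℝ) ≠ 0 := by positivity
  rw [rotz_avZ, map_smul, map_sum]
  simp only [hA, Finset.sum_const, Finset.card_range]
  rw [← Nat.cast_smul_eq_nsmul ℝ, smul_smul, one_div, inv_mul_cancel₀ hm', one_smul]

theorem rotz_fix {m : ℕ} {φ : Sm} (h : φ ∈ Zi m) (k : ℕ) :
    act (rotZ (2 * π * k / m)) φ = φ := by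
  induction k with
  | zero => simp [rotZ_zero, act_refl]
  | succ k ih => rw [rotz_succ, ← rotz_act_act, ih, mem_Zi.1 h]

theorem rotz_form' {m : ℕ} (hm : 0 < m) (A : Sm →ₗ[ℝ] ℝ)
    (hA : ∀ φ, A (act (rotZ (2 * π / m)) φ) = A φ) (φ : Sm) : A (avZ m φ) = A φ := by
  refine rotz_form hm A φ fun k => ?_
  induction k with
  | zero => simp [rotZ_zero, act_refl]
  | succ k ih => rw [rotz_succ, ← rotz_act_act, hA, ih]

theorem avZ_fix {m : ℕ} (hm : 0 < m) {φ : Sm} (h : φ ∈ Zi m) : avZ m φ = φ :=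
  rotz_form hm LinearMap.id φ (rotz_fix h)
theorem norm_avZ_le (m : ℕ) (φ : Sm) : ‖avZ m φ‖ ≤ ‖φ‖ := by
  rcases Nat.eq_zero_or_pos m with rfl | hm
  · simp [rotz_avZ]
  have hm' : (0 : ℝ) < m := by positivity
  rw [rotz_avZ, norm_smul]
  have h : ‖∑ k ∈ Finset.range m, act (rotZ (2 * π * k / m)) φ‖ ≤ m * ‖φ‖ := by
    refine (norm_sum_le _ _).trans ?_
    simp [norm_act]
  rw [Real.norm_of_nonneg (by positivity)]
  calc 1 / (m : ℝ) * ‖∑ k ∈ Finset.range m, act (rotZ (2 * π * k / m)) φ‖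
      ≤ 1 / m * (m * ‖φ‖) := mul_le_mul_of_nonneg_left h (by positivity)
    _ = ‖φ‖ := by field_simp

theorem rotz_inner {m : ℕ} (hm : 0 < m) {χ : Sm} (h : χ ∈ Zi m) (ψ : Sm) :
    inner ℝ χ (avZ m ψ) = inner ℝ χ ψ := by
  refine rotz_form' hm (I ∘ₗ LinearMap.mulLeft ℝ χ) (fun φ => ?_) ψ
  change inner ℝ χ (act (rotZ (2 * π / m)) φ) = inner ℝ χ φ
  rw [← inner_act (rotZ (2 * π / m)) χ φ, mem_Zi.1 h]

theorem inner_avZ {m : ℕ} (hm : 0 < m) (φ ψ : Sm) :
    inner ℝ (avZ m φ) ψ = inner ℝ φ (avZ m ψ) := by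
  rw [← rotz_inner hm (avZ_mem hm φ) ψ, real_inner_comm (avZ m ψ) φ,
    ← rotz_inner hm (avZ_mem hm ψ) φ, real_inner_comm]
theorem ant_avZ (m : ℕ) (φ : Sm) : ant (avZ m φ) = avZ m (ant φ) := by
  rw [rotz_avZ, rotz_avZ, map_smul, map_sum]
  simp only [ant_rotZ]
/-- an invariant linear form does not see the averaging -/
theorem form_avZ {m : ℕ} (hm : 0 < m) (A : Sm →ₗ[ℝ] ℝ)
    (hA : ∀ φ, A (act (rotZ (2 * π / m)) φ) = A φ) (φ : Sm) : A (avZ m φ) = A φ :=
  rotz_form' hm A hA φ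

/-- mean over the parallel through `x` -/
noncomputable def zav (F : S2 → ℝ) (x : S2) : ℝ :=
  (2 * π)⁻¹ * ∫ θ in (0 : ℝ)..2 * π, F (rotS (rotZ θ) x)

theorem rotz_contE {α : Type} [TopologicalSpace α] {f : α → ℝ} {g : α → E3} (hf : Continuous f)
    (hg : Continuous g) : Continuous fun a => rotZ (f a) (g a) := by
  have e : (fun a => rotZ (f a) (g a)) = fun a =>
      (cos (f a) * g a 0 - sin (f a) * g a 1) • (EuclideanSpace.single 0 1 : E3)
        + (sin (f a) * g a 0 + cos (f a) * g a 1) • (EuclideanSpace.single 1 1 : E3)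
        + (g a 2) • (EuclideanSpace.single 2 1 : E3) := by
    funext p
    refine rotz_ext ?_ ?_ ?_ <;> simp
  rw [e]
  fun_prop

theorem rotz_cont {α : Type} [TopologicalSpace α] {f : α → ℝ} {g : α → S2} (hf : Continuous f)
    (hg : Continuous g) : Continuous fun a => rotS (rotZ (f a)) (g a) :=
  continuous_induced_rng.2 (rotz_contE hf (continuous_subtype_val.comp hg))

theorem rotz_contF {α : Type} [TopologicalSpace α] {f : α → ℝ} {g : α → S2} {F : S2 → ℝ}
    (hF : Continuous F) (hf : Continuous f) (hg : Continuous g) :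
    Continuous fun a => F (rotS (rotZ (f a)) (g a)) :=
  Continuous.comp' hF (rotz_cont hf hg)

theorem rotz_cont1 {F : S2 → ℝ} (hF : Continuous F) (x : S2) :
    Continuous fun θ : ℝ => F (rotS (rotZ θ) x) :=
  rotz_contF hF continuous_id' continuous_const

theorem rotz_rotS (θ η : ℝ) (x : S2) :
    rotS (rotZ θ) (rotS (rotZ η) x) = rotS (rotZ (θ + η)) x := by
  rw [← rotZ_add]
  rfl

theorem rotz_rotS_zero (x : S2) : rotS (rotZ 0) x = x := by
  rw [rotZ_zero]
  rfl

theorem integral_zav {F : S2 → ℝ} (hF : Continuous F) :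
    ∫ x, zav F x ∂sig = ∫ x, F x ∂sig := by
  have hc : Continuous (Function.uncurry fun (θ : ℝ) (x : S2) => F (rotS (rotZ θ) x)) :=
    rotz_contF (α := ℝ × S2) hF continuous_fst continuous_snd
  obtain ⟨C, hC⟩ := isCompact_univ.exists_bound_of_continuousOn hF.continuousOn
  have hi : Integrable (Function.uncurry fun (θ : ℝ) (x : S2) => F (rotS (rotZ θ) x))
      ((volume.restrict (Set.uIoc 0 (2 * π))).prod sig) := by
    have : IsFiniteMeasure (volume.restrict (Set.uIoc (0 : ℝ) (2 * π))) := by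
      rw [Set.uIoc_of_le (by positivity)]
      infer_instance
    exact Integrable.of_bound hc.aestronglyMeasurable C
      (Filter.Eventually.of_forall fun p => hC _ (Set.mem_univ _))
  unfold zav
  rw [integral_const_mul, ← intervalIntegral_integral_swap hi]
  simp only [integral_rotS, intervalIntegral.integral_const, smul_eq_mul, sub_zero]
  have : (2 * π) ≠ 0 := by positivity
  field_simp
theorem continuous_zav {F : S2 → ℝ} (hF : Continuous F) : Continuous (zav F) := by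
  unfold zav
  refine continuous_const.mul ?_
  refine intervalIntegral.continuous_parametric_intervalIntegral_of_continuous' ?_ _ _
  exact rotz_contF (α := S2 × ℝ) hF continuous_snd continuous_fst
theorem zav_rotZ (F : S2 → ℝ) (θ : ℝ) (x : S2) : zav F (rotS (rotZ θ) x) = zav F x := by
  unfold zav
  congr 1
  simp only [rotz_rotS]
  have hp : Function.Periodic (fun t : ℝ => F (rotS (rotZ t) x)) (2 * π) := fun t => by
    simp only [rotZ_periodic]
  rw [intervalIntegral.integral_comp_add_right (fun t : ℝ => F (rotS (rotZ t) x)) θ]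
  have := hp.intervalIntegral_add_eq θ 0
  rw [zero_add] at this
  rw [zero_add, add_comm (2 * π) θ]
  exact this

/-- Cauchy-Schwarz inequality on an interval -/
theorem rotz_cs {f : ℝ → ℝ} (hf : Continuous f) {T : ℝ} (hT : 0 ≤ T) :
    (∫ t in (0 : ℝ)..T, f t) ^ 2 ≤ T * ∫ t in (0 : ℝ)..T, f t ^ 2 := by
  rcases hT.eq_or_lt with rfl | hT'
  · simp
  set A := ∫ t in (0 : ℝ)..T, f t with hA
  set B := ∫ t in (0 : ℝ)..T, f t ^ 2 with hB
  have h0 : 0 ≤ ∫ t in (0 : ℝ)..T, (T * f t - A) ^ 2 :=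
    intervalIntegral.integral_nonneg hT fun t _ => sq_nonneg _
  have e : ∀ t, (T * f t - A) ^ 2 = T ^ 2 * f t ^ 2 - 2 * T * A * f t + A ^ 2 := fun t => by ring
  simp only [e] at h0
  have i1 : IntervalIntegrable (fun t => T ^ 2 * f t ^ 2) volume 0 T :=
    (by fun_prop : Continuous fun t => T ^ 2 * f t ^ 2).intervalIntegrable _ _
  have i2 : IntervalIntegrable (fun t => 2 * T * A * f t) volume 0 T :=
    (by fun_prop : Continuous fun t => 2 * T * A * f t).intervalIntegrable _ _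
  rw [intervalIntegral.integral_add (i1.sub i2) intervalIntegrable_const,
    intervalIntegral.integral_sub i1 i2, intervalIntegral.integral_const_mul,
    intervalIntegral.integral_const_mul, intervalIntegral.integral_const, ← hA, ← hB] at h0
  simp only [sub_zero, smul_eq_mul] at h0
  have : 0 ≤ T * (T * B - A ^ 2) := by linarith
  have := (mul_nonneg_iff_of_pos_left hT').1 this
  linarith

theorem zav_sq_le {F : S2 → ℝ} (hF : Continuous F) (x : S2) :
    zav F x ^ 2 ≤ zav (fun y => F y ^ 2) x := by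
  have hp : 0 < 2 * π := by positivity
  have h := rotz_cs (rotz_cont1 hF x) hp.le
  unfold zav
  rw [mul_pow]
  calc (2 * π)⁻¹ ^ 2 * (∫ θ in (0 : ℝ)..2 * π, F (rotS (rotZ θ) x)) ^ 2
      ≤ (2 * π)⁻¹ ^ 2 * (2 * π * ∫ θ in (0 : ℝ)..2 * π, F (rotS (rotZ θ) x) ^ 2) :=
        mul_le_mul_of_nonneg_left h (by positivity)
    _ = (2 * π)⁻¹ * ∫ θ in (0 : ℝ)..2 * π, F (rotS (rotZ θ) x) ^ 2 := by field_simp

theorem rotz_nrmz (g : E3 ≃ₗᵢ[ℝ] E3) {y : E3} (hy : y ≠ 0) : nrmz (g y) = rotS g (nrmz y) := by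
  apply Subtype.ext
  have hg : g y ≠ 0 := by simpa using hy
  rw [rotS_coe, nrmz_val hg, nrmz_val hy, map_smul, LinearIsometryEquiv.norm_map]

theorem rotz_line (φ : Sm) {y : E3} (v : E3) {t : ℝ} (hy : y + t • v ≠ 0) :
    HasDerivAt (fun s : ℝ => ext0 φ (y + s • v)) (fderiv ℝ (ext0 φ) (y + t • v) v) t := by
  have h1 : HasDerivAt (fun s : ℝ => y + s • v) v t := by
    simpa using ((hasDerivAt_id t).smul_const v).const_add y
  exact ((φ.smoothAt hy).differentiableAt (by simp)).hasFDerivAt.comp_hasDerivAt t h1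

/-- if `φ` has zonal mean `φ0`, the same holds after differentiation -/
theorem zav_D2 {φ φ0 : Sm} (h : ∀ x, zav φ x = φ0 x) (x : S2) :
    zav (D 2 φ) x = D 2 φ0 x := by
  set e : E3 := EuclideanSpace.single 2 1 with he
  have hne : ‖e‖ = 1 := by simp [he]
  have hre : ∀ θ, rotZ θ e = e := fun θ => by
    refine rotz_ext ?_ ?_ ?_ <;> simp [he]
  set K : Set E3 := Metric.closedBall 0 2 \ Metric.ball 0 (1 / 2) with hK
  have hKc : IsCompact K := (isCompact_closedBall _ _).diff Metric.isOpen_ball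
  have hK0 : ∀ y ∈ K, y ≠ 0 := by
    rintro y hy rfl
    exact hy.2 (by simp)
  have hmem : ∀ (z : S2) (t : ℝ), t ∈ Metric.ball (0 : ℝ) (1 / 2) → (z : E3) + t • e ∈ K := by
    intro z t ht
    have hz : ‖(z : E3)‖ = 1 := by simp
    have ht' : ‖t • e‖ < 1 / 2 := by
      rw [norm_smul, hne, mul_one]
      simpa using ht
    constructor
    · have := norm_add_le (z : E3) (t • e)
      simp only [Metric.mem_closedBall, dist_zero_right]
      linarith
    · have := norm_sub_le ((z : E3) + t • e) (t • e)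
      rw [add_sub_cancel_right] at this
      simp only [Metric.mem_ball, dist_zero_right, not_lt]
      linarith
  have hcf : ContinuousOn (fun y => fderiv ℝ (ext0 φ) y e) {0}ᶜ :=
    (φ.smooth.continuousOn_fderiv_of_isOpen isOpen_compl_singleton (by simp)).clm_apply
      continuousOn_const
  obtain ⟨C, hC⟩ := hKc.exists_bound_of_continuousOn (hcf.mono fun y hy => hK0 y hy)
  have hcurve : ∀ t : ℝ, Continuous fun θ : ℝ => ((rotS (rotZ θ) x : S2) : E3) + t • e :=
    fun t => (rotz_contE continuous_id' continuous_const).add continuous_const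
  have hball : Metric.ball (0 : ℝ) (1 / 2) ∈ nhds (0 : ℝ) := Metric.ball_mem_nhds _ (by norm_num)
  have hF : ∀ t ∈ Metric.ball (0 : ℝ) (1 / 2),
      Continuous fun θ : ℝ => ext0 φ (((rotS (rotZ θ) x : S2) : E3) + t • e) := fun t ht =>
    φ.smooth.continuousOn.comp_continuous (hcurve t) fun θ => hK0 _ (hmem _ t ht)
  have h00 : (0 : ℝ) ∈ Metric.ball (0 : ℝ) (1 / 2) := Metric.mem_ball_self (by norm_num)
  have hF' : Continuous fun θ : ℝ =>
      fderiv ℝ (ext0 φ) (((rotS (rotZ θ) x : S2) : E3) + (0 : ℝ) • e) e :=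
    hcf.comp_continuous (hcurve 0) fun θ => hK0 _ (hmem _ 0 h00)
  have hd := (intervalIntegral.hasDerivAt_integral_of_dominated_loc_of_deriv_le (μ := volume)
    (a := 0) (b := 2 * π) (bound := fun _ => C)
    (F := fun (t : ℝ) (θ : ℝ) => ext0 φ (((rotS (rotZ θ) x : S2) : E3) + t • e))
    (F' := fun (t : ℝ) (θ : ℝ) => fderiv ℝ (ext0 φ) (((rotS (rotZ θ) x : S2) : E3) + t • e) e)
    hball (Filter.eventually_of_mem hball fun t ht => (hF t ht).aestronglyMeasurable)
    ((hF 0 h00).intervalIntegrable _ _) hF'.aestronglyMeasurable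
    (Filter.Eventually.of_forall fun θ _ t ht => hC _ (hmem _ t ht)) intervalIntegrable_const
    (Filter.Eventually.of_forall fun θ _ t ht => rotz_line φ e (hK0 _ (hmem _ t ht)))).2
  have h1 := hd.const_mul (2 * π)⁻¹
  have h2 := rotz_line φ0 e (hK0 _ (hmem x 0 h00))
  have h3 : (fun s : ℝ => ext0 φ0 ((x : E3) + s • e)) =ᶠ[nhds 0] fun t : ℝ =>
      (2 * π)⁻¹ * ∫ θ in (0 : ℝ)..2 * π, ext0 φ (((rotS (rotZ θ) x : S2) : E3) + t • e) := by
    refine Filter.eventually_of_mem hball fun t ht => ?_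
    have hy := hK0 _ (hmem x t ht)
    change φ0 (nrmz _) = _
    rw [← h]
    unfold zav
    congr 1
    refine intervalIntegral.integral_congr fun θ _ => ?_
    change _ = φ (nrmz _)
    rw [← rotz_nrmz _ hy, map_add, map_smul, hre, rotS_coe]
  have h4 := h2.unique (h1.congr_of_eventuallyEq h3)
  simp only [zero_smul, add_zero] at h4
  rw [D_apply, h4]
  unfold zav
  simp only [D_apply, he]
theorem zav_L2 (φ : Sm) (x : S2) : zav (L 2 φ) x = 0 := by
  unfold zav
  rw [intervalIntegral.integral_eq_sub_of_hasDerivAt (fun θ _ => hasDerivAt_rotZ φ x θ)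
    ((rotz_cont1 (L 2 φ).continuous x).intervalIntegrable _ _)]
  have := rotZ_periodic 0
  rw [zero_add] at this
  simp [this]

theorem rotz_zav_mul (F : S2 → ℝ) {G : S2 → ℝ} (hG : ∀ θ x, G (rotS (rotZ θ) x) = G x) (x : S2) :
    zav (fun y => G y * F y) x = G x * zav F x := by
  unfold zav
  simp only [hG, intervalIntegral.integral_const_mul]
  ring

theorem rotz_zav_add {F G : S2 → ℝ} (hF : Continuous F) (hG : Continuous G) (x : S2) :
    zav (fun y => F y + G y) x = zav F x + zav G x := by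
  unfold zav
  rw [intervalIntegral.integral_add ((rotz_cont1 hF x).intervalIntegrable _ _)
    ((rotz_cont1 hG x).intervalIntegrable _ _)]
  ring

theorem rotz_L2_zero {φ φ0 : Sm} (h : ∀ x, zav φ x = φ0 x) : L 2 φ0 = 0 := by
  ext x
  have h1 := hasDerivAt_rotZ φ0 x 0
  have e : (fun t => φ0 (rotS (rotZ t) x)) = fun _ => φ0 x := by
    funext t
    rw [← h, ← h, zav_rotZ]
  rw [e, rotz_rotS_zero] at h1
  simpa using h1.unique (hasDerivAt_const _ _)

/-- a continuous function that vanishes off the poles vanishes -/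
theorem rotz_pole {F : S2 → ℝ} (hF : Continuous F) (h : ∀ x, qq x * F x = 0) (x : S2) :
    F x = 0 := by
  by_cases hx : qq x = 0
  swap
  · exact (mul_eq_zero.1 (h x)).resolve_left hx
  have hq : ∀ y : S2, qq y = (y : E3) 0 * (y : E3) 0 + (y : E3) 1 * (y : E3) 1 := fun y => by
    rw [qq_eq]
    simp
  have hx0 : (x : E3) 0 = 0 := by
    rw [hq] at hx
    nlinarith [mul_self_nonneg ((x : E3) 0), mul_self_nonneg ((x : E3) 1)]
  have hx1 : (x : E3) 1 = 0 := by
    rw [hq] at hx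
    nlinarith [mul_self_nonneg ((x : E3) 0), mul_self_nonneg ((x : E3) 1)]
  have hx2 : (x : E3) 2 ^ 2 = 1 := by
    have : qq x = 1 - (x : E3) 2 * (x : E3) 2 := by simp [qq]
    nlinarith
  have hn : ∀ t : ℝ, cos t • (x : E3) + sin t • (EuclideanSpace.single 0 1 : E3)
      ∈ Metric.sphere (0 : E3) 1 := fun t => by
    rw [mem_sphere_zero_iff_norm, EuclideanSpace.norm_eq, sqrt_eq_one]
    simp [Fin.sum_univ_three, hx0, hx1, mul_pow, hx2]
  set γ : ℝ → S2 := fun t => ⟨_, hn t⟩ with hγ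
  have hγc : Continuous γ := Continuous.subtype_mk (by fun_prop) _
  have hγ0 : γ 0 = x := by
    apply Subtype.ext
    simp [hγ]
  have hz : Set.EqOn (fun t => F (γ t)) (fun _ => 0) (Set.Ioo 0 π) := by
    intro t ht
    have hs : 0 < sin t := sin_pos_of_mem_Ioo ht
    have : qq (γ t) = sin t * sin t := by
      rw [hq]
      simp [hγ, hx0, hx1]
    exact (mul_eq_zero.1 (h (γ t))).resolve_left (by rw [this]; positivity)
  have hcl := hz.closure (hF.comp hγc) continuous_const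
  rw [closure_Ioo pi_pos.ne] at hcl
  have := hcl ⟨le_rfl, pi_pos.le⟩
  simpa [hγ0] using this

theorem zav_lap {φ φ0 : Sm} (h : ∀ x, zav φ x = φ0 x) (x : S2) :
    zav (lap φ) x = lap φ0 x := by
  have hc : Continuous fun y => zav (lap φ) y - lap φ0 y :=
    (continuous_zav (lap φ).continuous).sub (lap φ0).continuous
  refine sub_eq_zero.1 (rotz_pole hc (fun y => ?_) x)
  have hq : ∀ θ z, qq (rotS (rotZ θ) z) = qq z := fun θ z => by simp [qq]
  have h1 := rotz_zav_mul (lap φ) hq y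
  have e : (fun z => qq z * lap φ z) = fun z => D 2 (D 2 φ) z + L 2 (L 2 φ) z := by
    funext z
    rw [← Sm.mul_apply, qq_lap, Sm.add_apply]
  rw [e, rotz_zav_add (D 2 (D 2 φ)).continuous (L 2 (L 2 φ)).continuous, zav_L2,
    zav_D2 (zav_D2 h)] at h1
  have h2 : qq y * lap φ0 y = D 2 (D 2 φ0) y := by
    rw [← Sm.mul_apply, qq_lap, rotz_L2_zero h]
    simp
  rw [mul_sub, h2, ← h1]
  ring
theorem zav_Zf_mul {g : ℝ → ℝ} (hg : ContDiff ℝ ∞ g) (φ : Sm) (x : S2) :
    zav (Zf g * φ) x = g ((x : E3) 2) * zav φ x := by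
  rw [← Zf_apply hg]
  exact rotz_zav_mul φ (fun θ z => by simp [Zf_apply hg]) x

theorem rotz_period {f : ℝ → ℝ} (hf : Continuous f) {m : ℕ} (hm : 0 < m)
    (hp : Function.Periodic f (2 * π / m)) :
    ∫ t in (0 : ℝ)..2 * π, f t = m * ∫ t in (0 : ℝ)..2 * π / m, f t := by
  have hm' : (m : ℝ) ≠ 0 := by positivity
  have h := hp.intervalIntegral_add_zsmul_eq m 0 fun a b => hf.intervalIntegrable a b
  have e : ((m : ℤ) • (2 * π / m) : ℝ) = 2 * π := by
    rw [zsmul_eq_mul]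
    push_cast
    field_simp
  rw [zero_add, zero_add, e] at h
  rw [h, zsmul_eq_mul]
  push_cast
  rfl

/-- pointwise Poincare inequality along the parallels -/
theorem sq_le_zav {m : ℕ} (hm : 0 < m) {φ : Sm} (hφ : φ ∈ Zi m) (h0 : ∀ x, zav φ x = 0) (x : S2) :
    φ x ^ 2 ≤ (2 * π / m) ^ 2 * zav (fun y => L 2 φ y ^ 2) x := by
  have hm' : (0 : ℝ) < m := by positivity
  have hT : 0 < 2 * π / m := by positivity
  have hper : ∀ {ψ : Sm}, act (rotZ (2 * π / m)) ψ = ψ →
      ∀ t, ψ (rotS (rotZ (t + 2 * π / m)) x) = ψ (rotS (rotZ t) x) := by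
    intro ψ hψ t
    rw [add_comm, ← rotz_rotS, ← act_apply, hψ]
  have hL : act (rotZ (2 * π / m)) (L 2 φ) = L 2 φ := by rw [← L2_rotZ, mem_Zi.1 hφ]
  set f : ℝ → ℝ := fun t => φ (rotS (rotZ t) x) with hf
  set f' : ℝ → ℝ := fun t => L 2 φ (rotS (rotZ t) x) with hf'
  have cf : Continuous f := rotz_cont1 φ.continuous x
  have cf' : Continuous f' := rotz_cont1 (L 2 φ).continuous x
  have cf2 : Continuous fun t => f' t ^ 2 := cf'.pow 2
  have hmean : ∫ t in (0 : ℝ)..2 * π / m, f t = 0 := by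
    have h1 := h0 x
    unfold zav at h1
    have h2 := rotz_period cf hm (hper (mem_Zi.1 hφ))
    have h3 : ∫ t in (0 : ℝ)..2 * π, f t = 0 :=
      (mul_eq_zero.1 h1).resolve_left (by positivity)
    rw [h3] at h2
    exact (mul_eq_zero.1 h2.symm).resolve_left hm'.ne'
  have hsq := rotz_period cf2 hm (fun t => by simp only [hf', hper hL])
  set T := 2 * π / m with hTd
  set B := ∫ t in (0 : ℝ)..T, f' t ^ 2 with hB
  have hdiff : ∀ s ∈ Set.Icc 0 T, (f 0 - f s) ^ 2 ≤ T * B := by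
    intro s hs
    have e : ∫ t in (0 : ℝ)..s, f' t = f s - f 0 :=
      intervalIntegral.integral_eq_sub_of_hasDerivAt (fun θ _ => hasDerivAt_rotZ φ x θ)
        (cf'.intervalIntegrable _ _)
    have h1 := rotz_cs cf' hs.1
    have h2 : ∫ t in (0 : ℝ)..s, f' t ^ 2 ≤ B :=
      intervalIntegral.integral_mono_interval le_rfl hs.1 hs.2
        (Filter.Eventually.of_forall fun t => sq_nonneg _) (cf2.intervalIntegrable _ _)
    have h3 : 0 ≤ ∫ t in (0 : ℝ)..s, f' t ^ 2 :=
      intervalIntegral.integral_nonneg hs.1 fun t _ => sq_nonneg _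
    rw [e] at h1
    calc (f 0 - f s) ^ 2 = (f s - f 0) ^ 2 := by ring
      _ ≤ s * ∫ t in (0 : ℝ)..s, f' t ^ 2 := h1
      _ ≤ T * B := mul_le_mul hs.2 h2 h3 hT.le
  have cg : Continuous fun s => f 0 - f s := continuous_const.sub cf
  have h4 := rotz_cs cg hT.le
  have h5 : ∫ s in (0 : ℝ)..T, (f 0 - f s) = T * f 0 := by
    rw [intervalIntegral.integral_sub intervalIntegrable_const (cf.intervalIntegrable _ _), hmean]
    simp
  have h6 : ∫ s in (0 : ℝ)..T, (f 0 - f s) ^ 2 ≤ T * (T * B) := by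
    have := intervalIntegral.integral_mono_on hT.le ((cg.pow 2).intervalIntegrable _ _)
      (intervalIntegrable_const (μ := volume)) hdiff
    simpa using this
  have h7 : f 0 ^ 2 ≤ T * B := by
    rw [h5] at h4
    have : T ^ 2 * f 0 ^ 2 ≤ T ^ 2 * (T * B) := by nlinarith
    exact le_of_mul_le_mul_left this (by positivity)
  have h8 : f 0 = φ x := by simp only [hf, rotz_rotS_zero]
  have h9 : zav (fun y => L 2 φ y ^ 2) x = (2 * π)⁻¹ * (m * B) := by
    rw [← hsq]
    rfl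
  rw [h9, ← h8]
  refine h7.trans (le_of_eq ?_)
  rw [hTd]
  field_simp

theorem rotz_inv {W : Sm} (hz : ∀ θ, act (rotZ θ) W = W) (θ : ℝ) (x : S2) :
    W (rotS (rotZ θ) x) = W x := by rw [← act_apply, hz]

theorem rotz_zav_nonneg {F : S2 → ℝ} (hF : ∀ x, 0 ≤ F x) (x : S2) : 0 ≤ zav F x :=
  mul_nonneg (by positivity) (intervalIntegral.integral_nonneg (by positivity) fun _ _ => hF _)

/-- integral against a zonal weight -/
theorem rotz_int_mul {F G : S2 → ℝ} (hF : Continuous F) (hG : Continuous G)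
    (hz : ∀ θ x, G (rotS (rotZ θ) x) = G x) :
    ∫ x, G x * zav F x ∂sig = ∫ x, G x * F x ∂sig := by
  rw [← integral_zav (F := fun x => G x * F x) (hG.mul hF)]
  exact integral_congr_ae (Filter.Eventually.of_forall fun x => (rotz_zav_mul F hz x).symm)

/-- weighted form: `W` is a zonal majorant of the mean of the weight `w` -/
theorem poincare {m : ℕ} (hm : 0 < m) {φ : Sm} (hφ : φ ∈ Zi m) (h0 : ∀ x, zav φ x = 0)
    {w W : Sm} (hw : ∀ x, 0 ≤ w x) (hW : ∀ x, zav w x ≤ W x)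
    (hz : ∀ θ, act (rotZ θ) W = W) :
    I (w * (φ * φ)) ≤ (2 * π / m) ^ 2 * I (W * (L 2 φ * L 2 φ)) := by
  have c2 : Continuous fun y => L 2 φ y ^ 2 := (L 2 φ).continuous.pow 2
  have cZ := continuous_zav c2
  set Z := zav (fun y => L 2 φ y ^ 2) with hZ
  have hZ0 : ∀ x, 0 ≤ Z x := rotz_zav_nonneg fun _ => sq_nonneg _
  have h1 : I (w * (φ * φ)) ≤ ∫ x, (2 * π / m) ^ 2 * (Z x * w x) ∂sig := by
    rw [I_def]
    refine integral_mono (integrable_of_continuous (w * (φ * φ)).continuous)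
      (integrable_of_continuous (continuous_const.mul (cZ.mul w.continuous))) fun x => ?_
    have := mul_le_mul_of_nonneg_left (sq_le_zav hm hφ h0 x) (hw x)
    simp only [Sm.mul_apply]
    nlinarith
  have h2 : ∫ x, Z x * w x ∂sig ≤ ∫ x, W x * Z x ∂sig := by
    rw [← rotz_int_mul w.continuous cZ (zav_rotZ _)]
    refine integral_mono (integrable_of_continuous (cZ.mul (continuous_zav w.continuous)))
      (integrable_of_continuous (W.continuous.mul cZ)) fun x => ?_
    have := mul_le_mul_of_nonneg_left (hW x) (hZ0 x)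
    simp only
    linarith
  have h3 : ∫ x, W x * Z x ∂sig = I (W * (L 2 φ * L 2 φ)) := by
    rw [hZ, rotz_int_mul c2 W.continuous (rotz_inv hz), I_def]
    simp only [Sm.mul_apply, sq]
  rw [integral_const_mul] at h1
  rw [← h3]
  exact h1.trans (mul_le_mul_of_nonneg_left h2 (sq_nonneg _))
/-- the zonal mean is a contraction for zonal weights -/
theorem I_zav_le {φ φ0 W : Sm} (h : ∀ x, zav φ x = φ0 x) (hW : ∀ x, 0 ≤ W x)
    (hz : ∀ θ, act (rotZ θ) W = W) : I (W * (φ0 * φ0)) ≤ I (W * (φ * φ)) := by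
  have c2 : Continuous fun y => φ y ^ 2 := φ.continuous.pow 2
  have h3 : ∫ x, W x * zav (fun y => φ y ^ 2) x ∂sig = I (W * (φ * φ)) := by
    rw [rotz_int_mul c2 W.continuous (rotz_inv hz), I_def]
    simp only [Sm.mul_apply, sq]
  rw [← h3, I_def]
  refine integral_mono (integrable_of_continuous (W * (φ0 * φ0)).continuous)
    (integrable_of_continuous (W.continuous.mul (continuous_zav c2))) fun x => ?_
  have := mul_le_mul_of_nonneg_left (zav_sq_le φ.continuous x) (hW x)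
  rw [h, sq] at this
  exact this
theorem I_zav_eq {φ φ0 W : Sm} (h : ∀ x, zav φ x = φ0 x)
    (hz : ∀ θ, act (rotZ θ) W = W) : I (W * φ0) = I (W * φ) := by
  have h3 := rotz_int_mul φ.continuous W.continuous (rotz_inv hz)
  simp only [h] at h3
  exact h3

end Pool.Agent.Lib.MP_2fa2a2_gt.PI
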