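import Pool.Agent.Lib.MP_2fa2a2_gt.PI.SPull

/-! The nonlinear equation in weak form, its top order part, and the geometric end game. -/

namespace Pool.Agent.Lib.MP_2fa2a2_gt.PI

open MeasureTheory
open scoped ContDiff

/-- the transported weight -/
noncomputable def DT (u : Sm) (h : ℝ) (j : ℕ) : Sm →ₗ[ℝ] Sm := DG (Lt u) h j

/-- `1 + UU u` is the support function of the normalised projection body -/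
noncomputable def UU (u : Sm) : Sm := R ((2 : ℝ) • u + (2 : ℝ) • Dp (Qf u u))
/-- rescaled version: `UU (ε • f) = ε • FF ε f` -/
noncomputable def FF (ε : ℝ) (f : Sm) : Sm := R ((2 : ℝ) • f + (2 * ε) • Dp (Qf f f))

/-- the order zero operator in the second order term of the chain rule -/
noncomputable def P1 (k : ℝ) (j : ℕ) (f : Sm) : Sm →ₗ[ℝ] Sm :=
  (k * (k - 1)) • ml f - (2 * j * k) • ∑ b, ∑ c, ml (L b (L c f)) ∘ₗ Tm b c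

/-- linearisation of `2 Dp (Qf f f)` -/
noncomputable def Bop (f : Sm) : Sm →ₗ[ℝ] Sm := (4 : ℝ) • (Dp ∘ₗ Qf f)

/-- second order term of the chain rule, polarised -/
noncomputable def Br (k h : ℝ) (j : ℕ) (u v : Sm) : Sm :=
  DD h j ((k * (k - 1) / 2) • (u * v) - (k / 2) • gd u v)
    + (k / 2) • (gd u (DD h j v) + gd v (DD h j u))

/-- the form `⟪A y, B φ⟫` -/
noncomputable def ip (A B : Sm →ₗ[ℝ] Sm) : Sm →ₗ[ℝ] Sm →ₗ[ℝ] ℝ := (innerₗ Sm).compl₁₂ A B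

theorem ip_apply (A B : Sm →ₗ[ℝ] Sm) (y φ : Sm) : ip A B y φ = inner ℝ (A y) (B φ) := rfl

/-- top order part of the equation, as a form in the test function `y` and the unknown `φ` -/
noncomputable def tt (j : ℕ) (ε : ℝ) (f : Sm) : Sm →ₗ[ℝ] Sm →ₗ[ℝ] ℝ :=
  (2 / ε) • (ip (XX (ε • FF ε f) ∘ₗ Ri) R - ip (XX (ε • f)) LinearMap.id)
    + (2 : ℝ) • ip (XX (ε • FF ε f) ∘ₗ Ri) (P1 1 j ((2 : ℝ) • R f) ∘ₗ R)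
    + ip (XX (ε • FF ε f) ∘ₗ Ri) (R ∘ₗ Bop f) - ip (XX (ε • f)) (P1 2 j f)

/-- its limit for `ε = 0` -/
noncomputable def t0 (j : ℕ) (f : Sm) : Sm →ₗ[ℝ] Sm →ₗ[ℝ] ℝ :=
  (2 : ℝ) • (ip (Vb ((2 : ℝ) • R f) ∘ₗ Ri) R - ip (Vb f) LinearMap.id)
    + (2 : ℝ) • ip Ri (P1 1 j ((2 : ℝ) • R f) ∘ₗ R)
    + ip LinearMap.id (Bop f) - ip LinearMap.id (P1 2 j f)

/-- the equation, tested with `Ri (DD h j y)` -/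
noncomputable def EE (h : ℝ) (j : ℕ) (ε C : ℝ) (f : Sm) : Sm →ₗ[ℝ] ℝ :=
  (ε ^ 2)⁻¹ • (innerₗ Sm (pk 1 (ε • FF ε f)) ∘ₗ XX (ε • FF ε f) ∘ₗ Ri ∘ₗ DD h j
    - (1 + ε ^ 2 * C) • (innerₗ Sm (p2 (ε • f)) ∘ₗ XX (ε • f) ∘ₗ DD h j))

/-- chain rule for the transported weight -/
def ChStmt : Prop := ∃ j0 : ℕ, ∀ j, j0 ≤ j → ∀ h : ℝ, 0 < h → h ≤ 1 →
  ∃ C δ : ℝ, 0 ≤ C ∧ 0 < δ ∧ ∀ (k σ : ℝ) (u : Sm), k = 1 ∨ k = 2 → σ = 0 ∨ σ = 1 / 2 →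
    nrm 1 (σ + 2 * j) u ≤ δ →
    nrm 1 σ (DT u h j (pk k u) - 1 - k • DD h j u - Br k h j u u)
      ≤ C * nrm 1 (σ + 2 * j) u ^ 3

/-- lower order terms -/
def LowStmt : Prop := ∃ j0 : ℕ, ∀ j, j0 ≤ j → ∀ h : ℝ, 0 < h → h ≤ 1 →
  ∃ C : ℝ, 0 ≤ C ∧
    (∀ (k σ : ℝ) (u v : Sm), k = 1 ∨ k = 2 → σ = 0 ∨ σ = 1 / 2 →
      nrm 1 (σ + 1) (Br k h j u v - (1 / 2 : ℝ) • (P1 k j u (DD h j v) + P1 k j v (DD h j u)))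
        ≤ C * nrm 1 (σ + 2 * j) u * nrm 1 (σ + 2 * j) v) ∧
    (∀ u v : Sm, nrm 1 1 (DD h j ((2 : ℝ) • Dp (Qf u v))
        - (1 / 2 : ℝ) • (Bop u (DD h j v) + Bop v (DD h j u)))
        ≤ C * nrm 1 (2 * j) u * nrm 1 (2 * j) v) ∧
    (∀ (k : ℝ) (u : Sm) (b : ℝ) (n : ℤ), k = 1 ∨ k = 2 → |n| ≤ 4 → Cb 8 1 b u →
      Bd 1 (n / 2) (n / 2) (C * b) (P1 k j u) ∧ Bd 1 (n / 2) (n / 2) (C * b) (Bop u))

/-- facts about the quadratic model -/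
def ChainAStmt : Prop := ∃ j0 : ℕ, ∀ j, j0 ≤ j → ∀ h : ℝ, 0 < h → h ≤ 1 →
  (∀ f g y φ, t0 j (f + g) y φ = t0 j f y φ + t0 j g y φ) ∧
  (∀ (k : E3 ≃ₗᵢ[ℝ] E3) f y φ, t0 j (act k f) (act k y) (act k φ) = t0 j f y φ) ∧
  ∃ C : ℝ, 0 ≤ C ∧ ∀ f g y φ : Sm, y ∈ Ev →
    |2 * tau f g (DD h j y) - t0 j f y (DD h j g) - t0 j g y (DD h j f)|
      ≤ C * nrm 1 (2 * j) f * nrm 1 (2 * j) g * nrm 1 (-(1 / 2)) y ∧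
    |t0 j g y φ| ≤ C * nrm 1 (2 * j) g * ‖y‖ * nrm 1 1 φ ∧
    |t0 j g y φ| ≤ C * nrm 1 (2 * j) g * nrm 1 (-(1 / 2)) y * nrm 1 10 φ

/-- comparison of the equation with the quadratic model -/
def ChainBStmt : Prop := ∃ j0 : ℕ, ∀ j, j0 ≤ j → ∀ h : ℝ, 0 < h → h ≤ 1 → ∀ B : ℝ,
  ∃ C ε0 : ℝ, 0 ≤ C ∧ 0 < ε0 ∧ ∀ (ε C0 : ℝ) (f : Sm), 0 < ε → ε ≤ ε0 → |C0| ≤ B →
    nrm 1 (2 * j) f ≤ B →
    Cb (2 * j - 3) 1 C f ∧ Cb (2 * j - 3) 1 C (FF ε f) ∧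
    Cb (2 * j - 3) 1 (C * ε) (FF ε f - (2 : ℝ) • R f) ∧
    ∀ y, y ∈ Ev →
      |EE h j ε C0 f y - tt j ε f y (DD h j f)
        - (tau f f (DD h j y) - C0 * I y - t0 j f y (DD h j f))| ≤ C * ε * ‖y‖ ∧
      ∀ φ, |tt j ε f y φ - t0 j f y φ| ≤ C * ε * ‖y‖ * nrm 1 2 φ

/-- soft properties needed for the Galerkin scheme -/
def ChainCStmt : Prop := ∃ j0 : ℕ, ∀ j, j0 ≤ j → ∀ h : ℝ, 0 < h → h ≤ 1 →
  (∀ (k : E3 ≃ₗᵢ[ℝ] E3) ε C0 f y φ, tt j ε (act k f) (act k y) (act k φ) = tt j ε f y φ ∧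
    EE h j ε C0 (act k f) (act k y) = EE h j ε C0 f y) ∧
  ∀ B : ℝ, ∃ ε0 : ℝ, 0 < ε0 ∧ ∀ ε C0 : ℝ, 0 < ε → ε ≤ ε0 →
    (∃ C, ∀ f y φ, nrm 1 (2 * j) f ≤ B → |tt j ε f y φ| ≤ C * nrm 1 3 y * nrm 1 (-1) φ) ∧
    ∀ (f0 : Sm) (N : ℕ) (y φ : Sm),
      ContinuousOn (fun g => tt j ε (f0 + DI h j g) y φ)
        {g | g ∈ Poly N ∧ nrm 1 (2 * j) (f0 + DI h j g) ≤ B} ∧
      ContinuousOn (fun g => EE h j ε C0 (f0 + DI h j g) y)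
        {g | g ∈ Poly N ∧ nrm 1 (2 * j) (f0 + DI h j g) ≤ B}

/-- the statement to be proved: a body that is not an ellipsoid, whose projection body is a
dilate of its intersection body -/
def Target : Prop := ∃ K : Set E3, Convex ℝ K ∧ IsCompact K ∧ (0 : E3) ∈ interior K ∧
  (∃ r : ℝ, 0 < r ∧
    {x : E3 | ∀ u : E3, ‖u‖ = 1 → inner ℝ x u ≤ (Measure.hausdorffMeasure 2
        ((fun y : E3 => y - inner ℝ u y • u) '' K)).toReal}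
      = (fun y : E3 => r • y) '' {x : E3 | x = 0 ∨
        ‖x‖ ≤ (Measure.hausdorffMeasure 2 (K ∩ {y : E3 | inner ℝ x y = 0})).toReal}) ∧
  ¬ ∃ A : E3 ≃ᵃ[ℝ] E3, K = A '' Metric.closedBall 0 1

/-- from Galerkin solutions to the body -/
def GeoStmt : Prop := ∃ δ : ℝ, 0 < δ ∧ ∀ (u : ℕ → Sm) (r c : ℝ) (ψ : Sm), 0 < r → 0 < c →
  (∀ N, Cb 3 1 δ (u N)) → (∀ N, Cb 3 1 δ (UU (u N))) →
  (∀ N, ∀ y ∈ Ev, y ∈ Poly N → I (pk 1 (UU (u N)) * XX (UU (u N)) y)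
    = r * I (p2 (u N) * XX (u N) (R y))) →
  ψ ∈ Od → P 1 ψ = 0 → (∀ N, c ≤ inner ℝ (u N) ψ) → Target

end Pool.Agent.Lib.MP_2fa2a2_gt.PI
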