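import Pool.Agent.Lib.MP_2fa2a2_gt.PI.SChain
import Pool.Agent.Lib.MP_2fa2a2_gt.PI.Fm

/-! Symbol calculus and the defect measure: definitions and statements. -/

namespace Pool.Agent.Lib.MP_2fa2a2_gt.PI

open MeasureTheory Filter Topology

instance : MeasurableSpace Fm := borel Fm
instance : BorelSpace Fm := ⟨rfl⟩

/-- operators of order `r` on all half integer Sobolev levels -/
def Ord (r : ℝ) (A : Sm →ₗ[ℝ] Sm) : Prop :=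
  ∀ n : ℤ, ∃ C, 0 ≤ C ∧ Bd 1 (n / 2 + r) (n / 2) C A

/-- exact words with their symbols -/
inductive Wd : (Sm →ₗ[ℝ] Sm) → (Fm → ℝ) → Prop
  | ml (φ : Sm) : Wd (ml φ) (px φ)
  | xi (a b : Fin 3) : Wd (Xi a b) (pi' (X a * X b))
  | xs (a b : Fin 3) : Wd (Xs a b) (pi' (X a * X b))
  | add {A B α β} : Wd A α → Wd B β → Wd (A + B) (α + β)
  | smul (r : ℝ) {A α} : Wd A α → Wd (r • A) (r • α)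
  | comp {A B α β} : Wd A α → Wd B β → Wd (A ∘ₗ B) (α * β)

/-- `A` has order zero and principal symbol `α` -/
def Op0 (A : Sm →ₗ[ℝ] Sm) (α : Fm → ℝ) : Prop :=
  Ord 0 A ∧ ∃ B, Wd B α ∧ Ord (-1) (A - B)

/-- the symbol calculus -/
def WdStmt : Prop :=
  (∀ A α, Wd A α → Ord 0 A ∧ α ∈ Sy ∧ α ∘ ngi = α) ∧
  (∀ A B α β, Wd A α → Wd B β → Ord (-1) (cm A B)) ∧
  (∀ A α, Wd A α → ∃ A', Wd A' α ∧ ∀ φ ψ, inner ℝ (A φ) ψ = inner ℝ φ (A' ψ)) ∧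
  (∀ a b, Ord (-1) (Xi a b - Xs a b)) ∧
  (∀ A α, Wd A α → ∃ (n N : ℕ) (φ ψ : Fin n → Sm) (B : Sm →ₗ[ℝ] Sm),
    (∀ i, ψ i ∈ Ev ∧ ψ i ∈ Poly N) ∧ α = ∑ i, px (φ i) * pi' (ψ i) ∧ Ord (-1) (A - B) ∧
    ∀ y ∈ Ev, B y = ∑ i, φ i * R (ψ i * Ri y)) ∧
  (∀ N, ∀ ψ ∈ Ev, ψ ∈ Poly N → ∃ A A', Wd A (pi' ψ) ∧ Wd A' (pi' ψ) ∧
    (∀ y ∈ Ev, A y = R (ψ * Ri y) ∧ A' y = Ri (ψ * R y)) ∧
    ∀ K δ, (∀ G, Gen G → Eg K δ G) → (∀ G G', Eg K δ G → Eg K δ G' → Eg K δ (G ∘ₗ G')) →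
      (∀ G G', Eg K δ G → Eg K δ G' → Eg K δ (G + G')) →
      (∀ (r : ℝ) G, Eg K δ G → Eg K δ (r • G)) → Eg K δ A ∧ Eg K δ A') ∧
  (∀ b c, Op0 (Tm b c) (fun p => p.om b * p.om c))

/-- symbols of the operators that occur in the equation -/
def SymStmt : Prop :=
  (∀ f A α, Wd A α → Op0 (cm (Vb f) A) (Xl f α)) ∧
  (∀ f, Op0 (Bop f) (fun p => 2 * (lap f p.x + f p.x - Sxx f p))) ∧
  (∀ (k : ℝ) (j : ℕ) f, Op0 (P1 k j f) (fun p => k * (k - 1) * f p.x - 2 * j * k * Sxx f p))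

/-- `μ` is the defect measure of the sequence `y` along `𝒰` -/
def Rep (μ : Measure Fm) (y : ℕ → Sm) (𝒰 : Ultrafilter ℕ) : Prop :=
  (∀ φ ψ : Sm, Tendsto (fun n => inner ℝ (φ * R (ψ * Ri (y n))) (y n)) 𝒰
    (𝓝 (∫ p, φ p.x * ψ p.xi ∂μ))) ∧
  (∀ A α, Op0 A α → Tendsto (fun n => inner ℝ (A (y n)) (y n)) 𝒰 (𝓝 (∫ p, α p ∂μ))) ∧
  (∀ F : Fm → ℝ, Continuous F → ∫ p, F (ngx p) ∂μ = ∫ p, F p ∂μ) ∧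
  ∀ F : Fm → ℝ, Continuous F → ∫ p, F (ngi p) ∂μ = ∫ p, F p ∂μ

def MeasStmt : Prop := ∀ (y : ℕ → Sm) (𝒰 : Ultrafilter ℕ), (∀ n, y n ∈ Ev) → (∀ n, ‖y n‖ = 1) →
  Tendsto (fun n => nrm 1 (-1) (y n)) 𝒰 (𝓝 0) →
  ∃ μ : Measure Fm, IsProbabilityMeasure μ ∧ Rep μ y 𝒰

/-- conjugated pull back -/
noncomputable def GG (U : Sm) : Sm →ₗ[ℝ] Sm := R ∘ₗ XX U ∘ₗ Ri

def GtStmt : Prop := ∃ (K : ℕ) (C δ : ℝ), 0 ≤ C ∧ 0 < δ ∧ ∀ (U : Sm) (b : ℝ), b ≤ δ → U ∈ Ev →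
  Cb K 1 b U → Bd 1 0 0 C (GG U) ∧ Bd 1 (-1) (-1) C (GG U) ∧
    ∀ y ∈ Ev, ∀ y' ∈ Ev, |inner ℝ (GG U y) (GG U y') - inner ℝ y y'| ≤ C * b * ‖y‖ * ‖y'‖

/-- a sequence of approximate solutions of the adjoint equation escaping to high frequency -/
structure Sq (K j : ℕ) (B : ℝ) (ε : ℕ → ℝ) (f y : ℕ → Sm) (𝒰 : Ultrafilter ℕ)
    (μ : Measure Fm) : Prop where
  prob : IsProbabilityMeasure μ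
  pos : ∀ n, 0 < ε n
  lim : Tendsto ε 𝒰 (𝓝 0)
  bf : ∀ n, Cb K 1 B (f n)
  bF : ∀ n, Cb K 1 B (FF (ε n) (f n))
  bF' : ∀ n, Cb K 1 (B * ε n) (FF (ε n) (f n) - (2 : ℝ) • R (f n))
  ev : ∀ n, y n ∈ Ev
  one : ∀ n, ‖y n‖ = 1
  hf : Tendsto (fun n => nrm 1 (-1) (y n)) 𝒰 (𝓝 0)
  eqn : ∃ d : ℕ → ℝ, Tendsto d 𝒰 (𝓝 0) ∧ ∀ n φ, |tt j (ε n) (f n) (y n) φ| ≤ d n * ‖φ‖
  rep : Rep μ y 𝒰

/-- transport identity for the odd part -/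
def IdOStmt : Prop := ∃ K : ℕ, ∀ j : ℕ, ∃ C : ℝ, 0 ≤ C ∧ ∀ B ε f y 𝒰 μ, Sq K j B ε f y 𝒰 μ →
  ∀ (u : Sm) (η : ℝ), (∀ n, Cb K 1 η (f n - u)) → ∀ a ∈ Sy,
    |∫ p, PP j (odp u) a p ∂μ| ≤ C * η * ∫ p, jet a p ∂μ

/-- transport identity for the even part, away from the directions where `FF` is large -/
def IdEStmt : Prop := ∃ K : ℕ, ∀ j : ℕ, ∃ C : ℝ, 0 ≤ C ∧ ∀ B ε f y 𝒰 μ, Sq K j B ε f y 𝒰 μ →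
  ∀ (u χ χ' : Sm) (η : ℝ), χ ∈ Ev → χ' ∈ Ev → (∀ x, χ x ≠ 0 → χ' x = 1) →
    (∀ n, Cb K 1 η (f n - u)) → (∀ n, Cb K 1 η (χ' * FF (ε n) (f n))) →
    ∀ a ∈ Sy, (∀ p, a p ≠ 0 → χ p.xi = 1) →
    |∫ p, PP j (evp u) a p ∂μ| ≤ C * η * ∫ p, jet a p ∂μ

/-- the part of the identity that comes from the side of the body itself: for a test word `A`,
the defect of the form of `A` between `GG` and the identity -/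
def IdFStmt : Prop := ∃ K : ℕ, ∀ j : ℕ, ∃ C : ℝ, 0 ≤ C ∧ ∀ B ε f y 𝒰 μ, Sq K j B ε f y 𝒰 μ →
  (∃ C', ∀ᶠ n in 𝒰, ‖GG (ε n • FF (ε n) (f n)) (y n) - XX (ε n • f n) (y n)‖ ≤ C' * ε n) ∧
  ∀ (u : Sm) (η : ℝ), (∀ n, Cb K 1 η (f n - u)) → ∀ A A' α, Wd A α → Wd A' α →
    (∀ φ ψ, inner ℝ (A φ) ψ = inner ℝ φ (A' ψ)) → ∀ θ : ℝ, 0 < θ → ∀ᶠ n in 𝒰,
    |(ε n)⁻¹ * (inner ℝ (A (GG (ε n • FF (ε n) (f n)) (y n))) (GG (ε n • FF (ε n) (f n)) (y n))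
          - inner ℝ (A (y n)) (y n))
        + inner ℝ (XX (ε n • FF (ε n) (f n)) (Ri (y n))) (P1 1 j ((2 : ℝ) • R (f n))
          (R ((A + A') (GG (ε n • FF (ε n) (f n)) (y n)))))
        + ∫ p, PP j u α p ∂μ| ≤ C * η * ∫ p, jet α p ∂μ + θ

end Pool.Agent.Lib.MP_2fa2a2_gt.PI
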