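import Pool.Agent.Lib.MP_2fa2a2_gt.PI.SChain

/-! Statements about convex bodies with a given support function. -/

namespace Pool.Agent.Lib.MP_2fa2a2_gt.PI

open MeasureTheory

/-- the convex set cut out by `h` -/
def Kof (h : S2 → ℝ) : Set E3 := {x | ∀ ν : S2, inner ℝ x (ν : E3) ≤ h ν}

/-- radial function -/
noncomputable def rad (K : Set E3) (v : S2) : ℝ := sSup {t : ℝ | 0 ≤ t ∧ t • (v : E3) ∈ K}

/-- measure of the unit disc -/
noncomputable def kap : ℝ :=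
  (Measure.hausdorffMeasure 2 (Metric.closedBall (0 : E3) 1 ∩ {y : E3 | y 2 = 0})).toReal

def GeoBStmt : Prop := ∃ δ : ℝ, 0 < δ ∧ ∀ u : Sm, Cb 2 1 δ u → ∀ ν,
  pvec u ν ∈ Kof (fun x => 1 + u x)

def GeoSStmt : Prop := 0 < kap ∧ ∀ K : Set E3, Convex ℝ K → IsCompact K → (0 : E3) ∈ interior K →
  Continuous (rad K) ∧ (∀ v : S2, 0 < rad K v) ∧
  (∀ (v : S2) (t : ℝ), 0 ≤ t → (t • (v : E3) ∈ K ↔ t ≤ rad K v)) ∧
  ∀ (v : S2) e1 e2, Fr v e1 e2 →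
    (Measure.hausdorffMeasure 2 (K ∩ {y : E3 | inner ℝ (v : E3) y = 0})).toReal
      = kap * cav (fun x => rad K x ^ 2) e1 e2

def GeoPStmt : Prop := ∃ δ : ℝ, 0 < δ ∧ ∀ u : Sm, Cb 2 1 δ u → ∀ v : S2,
  (Measure.hausdorffMeasure 2 ((fun y : E3 => y - inner ℝ (v : E3) y • (v : E3)) ''
    Kof (fun x => 1 + u x))).toReal = kap * (1 + UU u v)

end Pool.Agent.Lib.MP_2fa2a2_gt.PI
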