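import Pool.Agent.Lib.MP_2fa2a2_gt.PI.SMid
import Pool.Agent.Lib.MP_2fa2a2_gt.PI.Zon

/-! Structure of the approximate solution at a fixed frequency; the a priori estimates. -/

namespace Pool.Agent.Lib.MP_2fa2a2_gt.PI

open Real

/-- the objects that describe the approximate solution -/
structure LD where
  κ : Sm
  a : Sm
  G : Sm
  w2 : Sm
  w1 : Sm
  w0 : Sm
  w3 : Sm
  w4 : Sm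
  al : Sm
  be : Sm
  om : Sm
  sn : Sm
  cs : Sm
  ze : Sm
  ut : S2 → ℝ
  qe : S2 → ℝ
  mu : S2 → ℝ
  z0 : ℝ

/-- symmetrised amplitude -/
noncomputable def LD.kb (d : LD) : Sm := d.κ + ant d.κ
/-- odd part of the approximate solution -/
noncomputable def LD.fo (d : LD) : Sm := d.G + d.kb * d.kb * d.w2 + d.kb * d.w1 + d.w0
/-- even part of the approximate solution -/
noncomputable def LD.fe (d : LD) : Sm := d.kb * d.w3 + d.w4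
/-- direction of the wave -/
noncomputable def LD.w (d : LD) (c : Fin 3) : Sm := d.al * D c (X 2) + d.be * L 2 (X c)

/-- `C0` does not depend on `τ`; `C1` depends on everything except `m` -/
structure Loc (k : ℕ) (C0 τ C1 : ℝ) (m : ℕ) (d : LD) : Prop where
  fo_odd : d.fo ∈ Od
  fe_even : d.fe ∈ Ev
  fo_inv : d.fo ∈ Zi m
  fe_inv : d.fe ∈ Zi m
  κ_zon : Zon d.κ
  κ_nonneg : ∀ x, 0 ≤ d.κ x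
  κ_le : ∀ x, d.κ x ≤ C0
  κ_Cb : Cb k 1 C1 d.κ
  κ_supp : ∀ x, d.κ x ≠ 0 → C0⁻¹ ≤ X 2 x ∧ C0⁻¹ ≤ qq x
  core : C1⁻¹ < d.z0 ∧ d.z0 + C1⁻¹ < 1 ∧ ∀ x, |X 2 x - d.z0| ≤ C1⁻¹ → C1⁻¹ ≤ d.κ x
  a_zon : Zon d.a
  a_even : d.a ∈ Ev
  a_ge : ∀ x, C0⁻¹ ≤ d.a x
  a_Cb : Cb k 1 C0 d.a
  G_zon : Zon d.G
  G_odd : d.G ∈ Od
  G_Cb : Cb k 1 C0 d.G
  G_grad : ∀ c, D c d.G = d.a * D c (X 2)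
  w2_Cb : Cb k m (C1 / m) d.w2
  w2_Cb' : Cb k m (C0 / m) (d.kb * d.w2)
  w1_Cb : Cb k m (C1 / (m * √m)) d.w1
  w0_Cb : Cb k m (C1 / m ^ 2) d.w0
  w0_supp : ∀ x, qq x < C0⁻¹ → d.w0 x = 0
  w3_Cb : Cb k m (C0 / m) d.w3
  w4_Cb : Cb k m (C1 / m ^ 2) d.w4
  al_zon : Zon d.al
  be_zon : Zon d.be
  om_zon : Zon d.om
  al_Cb : Cb k 1 C1 d.al
  be_Cb : Cb k 1 C1 d.be
  om_Cb : Cb k 1 C1 d.om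
  om_ge : ∀ x, C0⁻¹ ≤ d.om x
  om_le : ∀ x, d.om x ≤ C0
  unit : ∀ x, d.κ x ≠ 0 → (d.al x ^ 2 + d.be x ^ 2) * qq x = 1
  al_le : ∀ x, d.κ x ≠ 0 → |d.al x| ≤ C0 * τ
  om_be : ∀ x, d.κ x ≠ 0 → d.om x * d.be x * qq x = 1
  sn_inv : d.sn ∈ Zi m
  cs_inv : d.cs ∈ Zi m
  sn_Cb : Cb k m C0 d.sn
  cs_Cb : Cb k m C0 d.cs
  sn_le : ∀ x, |d.sn x| ≤ 1
  cs_le : ∀ x, |d.cs x| ≤ 1
  pyth : ∀ x, d.κ x ≠ 0 → d.sn x ^ 2 + d.cs x ^ 2 = 1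
  D_sn : ∀ x, d.κ x ≠ 0 → ∀ c, D c d.sn x = m * d.om x * d.cs x * d.w c x
  D_cs : ∀ x, d.κ x ≠ 0 → ∀ c, D c d.cs x = -(m * d.om x * d.sn x * d.w c x)
  sn_rot : ∀ x, d.κ x ≠ 0 → ∃ s0 : ℝ, ∀ θ, d.sn (rotS (rotZ θ) x) = sin (s0 + m * θ)
  ut_le : ∀ x, |d.ut x| ≤ C0 * d.κ x
  grad_o : ∀ x, 0 ≤ X 2 x → ∀ c,
    |D c d.fo x - d.a x * D c (X 2) x - d.ut x * d.w c x| ≤ C1 * (d.κ x / √m + 1 / m)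
  u_ge : ∀ x, d.κ x ≠ 0 → |d.sn x| ≤ 1 / 3 → τ / C0 ≤ d.a x * d.al x * qq x + d.ut x
  grad_e : ∀ x, 0 ≤ X 2 x → ∀ c, |D c d.fe x - d.qe x * d.w c x| ≤ C1 * (d.κ x / √m + 1 / m)
  qe_le : ∀ x, |d.qe x| ≤ C0 * d.κ x * |d.sn x|
  qe_ge : ∀ x, d.κ x * d.sn x ^ 2 / C0 ≤ d.qe x * d.sn x
  mu_le : ∀ x, |d.mu x| ≤ C0 * m * d.κ x
  hess_o : ∀ x, 0 ≤ X 2 x → ∀ b c,
    |H b c d.fo x - d.mu x * d.w b x * d.w c x| ≤ C1 * (√m * d.κ x + 1)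
  R_Cb : ∀ c, Cb k m (C1 / √m) (L c (R d.fe))
  ze_Cb : Cb 1 1 C1 d.ze
  R_off : ∀ (v : List (Fin 3)) c, v.length + 1 ≤ k →
    Cb 1 m (C1 * (m : ℝ) ^ v.length / m ^ 2) ((1 - X 2 * X 2 * d.ze) * Lw v (L c (R d.fe)))

/-- normalised hypotheses on a solution `y` of the adjoint equation -/
structure Adj (j : ℕ) (Λ : ℝ) (m : ℕ) (d : LD) (go ge y : Sm) : Prop where
  ev : y ∈ Ev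
  inv : y ∈ Zi m
  poly : ∃ N, y ∈ Poly N
  le : ‖y‖ ≤ 1
  go_odd : go ∈ Od
  ge_even : ge ∈ Ev
  go_le : nrm 1 8 go ≤ 1 / m ^ 2
  ge_le : nrm 1 8 ge ≤ 1 / m ^ 2
  eqo : ∀ φ, |2 * tb d.fo (DI (Λ * m)⁻¹ j φ) (DD (Λ * m)⁻¹ j y) + 2 * tb go φ y| ≤ 1 / m ^ 2 * ‖φ‖
  eqe : ∀ φ, |2 * tau d.fe (DI (Λ * m)⁻¹ j φ) (DD (Λ * m)⁻¹ j y) + 2 * tau ge φ y|
    ≤ 1 / m ^ 2 * ‖φ‖

/-- weighted norm of the Hessian -/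
noncomputable def XN (d : LD) (y : Sm) : ℝ := √(I (d.kb * d.kb * Hn (Dp y)))
/-- squared length of the Hessian applied to a vector field -/
noncomputable def Hsq (ψ : Sm) (V : Fin 3 → Sm) : Sm :=
  ∑ a, (∑ b, H a b ψ * V b) * (∑ b, H a b ψ * V b)
/-- weighted norm of the Hessian applied to the direction of the wave -/
noncomputable def XW (d : LD) (y : Sm) : ℝ := √(I (d.κ * d.κ * Hsq (Dp y) d.w))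
/-- norm of the Hessian applied to the gradient of the height -/
noncomputable def XZ (y : Sm) : ℝ := √(I (Hsq (Dp y) (gr (X 2))))
/-- the part of the Hessian near the zeros of the wave -/
noncomputable def YN (d : LD) (δ : ℝ) (y : Sm) : ℝ :=
  √(I (d.κ * d.κ * cp (fun t => δ ^ 2 / (t ^ 2 + δ ^ 2)) d.sn * Hn (Dp y)))

def EstOStmt : Prop := ∀ (j : ℕ) (C0 : ℝ), 1 ≤ C0 → ∃ C : ℝ, 1 ≤ C ∧ ∀ τ C1 Λ : ℝ, 0 < τ → τ ≤ C⁻¹ →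
  1 ≤ C1 → C ≤ Λ → ∃ (C' : ℝ) (m0 : ℕ), 0 ≤ C' ∧ ∀ m, m0 ≤ m → ∀ d go ge y,
    Loc (2 * j + 10) C0 τ C1 m d → Adj j Λ m d go ge y →
    XN d y ≤ C * XW d y + C' / m ∧ XZ y ≤ C * XN d y + C' / m

def EstSStmt : Prop := ∀ (j : ℕ) (C0 : ℝ), 1 ≤ C0 → ∃ C : ℝ, 1 ≤ C ∧ ∀ τ δ C1 Λ : ℝ, 0 < τ → τ ≤ 1 →
  0 < δ → δ ≤ 1 → 1 ≤ C1 → 1 ≤ Λ → ∃ (C' : ℝ) (m0 : ℕ), 0 ≤ C' ∧ ∀ m, m0 ≤ m → ∀ d go ge y,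
    Loc (2 * j + 10) C0 τ C1 m d → Adj j Λ m d go ge y →
    YN d δ y ^ 2 ≤ C * (δ / τ) * XN d y ^ 2 + C' / m ^ 2

def EstEStmt : Prop := ∀ (j : ℕ) (C0 : ℝ), 1 ≤ C0 → ∃ C : ℝ, 1 ≤ C ∧ ∀ δ : ℝ, 0 < δ → δ ≤ 1 →
  ∃ Cδ : ℝ, 0 ≤ Cδ ∧ ∀ τ C1 Λ γ : ℝ, 0 < τ → τ ≤ 1 → 1 ≤ C1 → 1 ≤ Λ → 0 < γ →
    ∃ (C' : ℝ) (m0 : ℕ), 0 ≤ C' ∧ ∀ m, m0 ≤ m → ∀ d go ge y,
    Loc (2 * j + 10) C0 τ C1 m d → Adj j Λ m d go ge y →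
    I (d.κ * d.κ * cp (fun t => t ^ 2 / √(t ^ 2 + δ ^ 2)) d.sn * Hsq (Dp y) d.w)
      ≤ C * (τ ^ 2 * XN d y ^ 2 + √δ * XN d y * YN d δ y) + (Cδ / Λ + γ) * XN d y ^ 2
        + γ * XZ y ^ 2 + C' / m ^ 2

/-- the zonal part of the Hessian is small away from the poles -/
def EstZStmt : Prop := ∀ (k : ℕ) (C0 τ C1 : ℝ), 1 ≤ C0 → 1 ≤ C1 → ∃ C : ℝ, 0 ≤ C ∧
  ∀ (m : ℕ) (d : LD) (y ψ0 : Sm), Loc k C0 τ C1 m d → y ∈ Ev → (∃ N, y ∈ Poly N) →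
    (∀ x, zav (Dp y) x = ψ0 x) → √(I (qq * Hn ψ0)) ≤ C * (XN d y + XZ y)

def EstTStmt : Prop := ∀ (j : ℕ) (C0 τ C1 Λ CX : ℝ), 1 ≤ j → 1 ≤ C0 → 1 ≤ C1 → 1 ≤ Λ →
  ∃ m0 : ℕ, ∀ m, m0 ≤ m → ∀ d go ge y, Loc (2 * j + 10) C0 τ C1 m d → Adj j Λ m d go ge y →
    XN d y ≤ CX / m → XZ y ≤ CX / m → ‖y‖ ≤ 1 / 2

def S2Stmt : Prop := ∀ (j : ℕ) (C0 : ℝ), 1 ≤ j → 1 ≤ C0 → ∃ τ0 : ℝ, 0 < τ0 ∧ ∀ τ : ℝ, 0 < τ → τ ≤ τ0 →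
  ∃ Λ0 : ℝ, ∀ Λ : ℝ, Λ0 ≤ Λ → 1 ≤ Λ → ∀ C1 : ℝ, 1 ≤ C1 → ∃ m0 : ℕ, ∀ m, m0 ≤ m → ∀ d : LD,
    Loc (2 * j + 10) C0 τ C1 m d → Inj (Λ * m)⁻¹ j m (d.fo + d.fe) (m ^ 2) (1 / m ^ 2)

end Pool.Agent.Lib.MP_2fa2a2_gt.PI
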