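import Pool.Agent.Lib.MP_2fa2a2_gt.PI.SFm

/-! The two Galerkin schemes and the uniform estimate: definitions and statements. -/

namespace Pool.Agent.Lib.MP_2fa2a2_gt.PI

open MeasureTheory

/-- linearisation of the quadratic model at `f`, with weights -/
noncomputable def Lf (h : ℝ) (j : ℕ) (f : Sm) : Sm →ₗ[ℝ] Sm →ₗ[ℝ] ℝ :=
  (2 : ℝ) • (tau f).flip.compl₁₂ (DD h j) (DI h j)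

theorem Lf_apply (h : ℝ) (j : ℕ) (f y φ : Sm) :
    Lf h j f y φ = 2 * tau f (DI h j φ) (DD h j y) := rfl

/-- quantitative injectivity of the adjoint of the linearisation, stable under perturbation -/
def Inj (h : ℝ) (j m : ℕ) (f : Sm) (M θ : ℝ) : Prop :=
  ∀ (g y : Sm) (N : ℕ) (d : ℝ), nrm 1 8 g ≤ θ → y ∈ Ev → y ∈ Zi m → y ∈ Poly N → 0 ≤ d →
    (∀ φ, |Lf h j f y φ + 2 * tau g φ y| ≤ d * ‖φ‖) → ‖y‖ ≤ M * d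

/-- almost exact solutions of the quadratic model -/
def S3Stmt : Prop := ∀ j : ℕ, 5 ≤ j → ∃ (C : ℝ) (c : ℕ), 1 ≤ C ∧
  ∀ (h : ℝ) (m : ℕ) (fl fa : Sm) (C0 M θ η : ℝ), 0 < h → h ≤ 1 → 0 < m → fl ∈ Zi m → fa ∈ Zi m →
    1 ≤ M → 0 < η → Inj h (j + 5) m fl M θ →
    C * h⁻¹ ^ c * M * (nrm 1 (2 * j + 20) (fa - fl) + η) ≤ min 1 θ →
    C * h⁻¹ ^ c * M * nrm 1 (2 * j + 11) (Bq fa fa - algebraMap ℝ Sm C0) ≤ η →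
    ∀ δ : ℝ, 0 < δ → ∃ f ∈ Zi m, nrm 1 (2 * j + 10) (f - fa) ≤ η ∧
      nrm 1 (2 * j + 1) (Bq f f - algebraMap ℝ Sm C0) ≤ δ

/-- the form used in the second Galerkin scheme -/
noncomputable def AA (h : ℝ) (j : ℕ) (ε : ℝ) (f φ' : Sm) : Sm →ₗ[ℝ] Sm →ₗ[ℝ] ℝ :=
  tt j ε (f + DI h j φ') + Lf h j f - t0 j f

/-- approximate solutions of the adjoint equation have high frequency -/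
def HfStmt : Prop := ∃ j0 : ℕ, ∀ j, j0 ≤ j → ∃ (C : ℝ) (c : ℕ), 1 ≤ C ∧
  ∀ (h : ℝ) (m : ℕ) (fl : Sm) (M θ ρ : ℝ), 0 < h → h ≤ 1 → 0 < m → fl ∈ Zi m → 1 ≤ M →
    Inj h j m fl M θ → C * h⁻¹ ^ c * M * ρ ≤ min 1 θ →
    ∀ γ : ℝ, 0 < γ → ∃ δ : ℝ, 0 < δ ∧ ∀ (ε : ℝ) (f φ' y : Sm) (N : ℕ), 0 < ε → ε ≤ δ →
      f ∈ Zi m → nrm 1 (2 * j + 10) (f - fl) ≤ ρ → ‖φ'‖ ≤ δ → y ∈ Ev → y ∈ Zi m → y ∈ Poly N →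
      ‖y‖ ≤ 1 → (∀ φ, |AA h j ε f φ' y φ| ≤ δ * ‖φ‖) → nrm 1 (-1) y ≤ γ

/-- no measure satisfies both transport identities -/
def NoMeas (j : ℕ) (u χ : Sm) (η : ℝ) : Prop := ∀ μ : Measure Fm, IsProbabilityMeasure μ →
  (∀ a ∈ Sy, |∫ p, PP j (odp u) a p ∂μ| ≤ η * ∫ p, jet a p ∂μ) →
  (∀ a ∈ Sy, (∀ p, a p ≠ 0 → χ p.xi = 1) → |∫ p, PP j (evp u) a p ∂μ| ≤ η * ∫ p, jet a p ∂μ) →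
  False

/-- uniform injectivity near `fa` -/
def Unif (h : ℝ) (j m : ℕ) (fa : Sm) (η1 : ℝ) : Prop := ∃ M δ : ℝ, 0 < M ∧ 0 < δ ∧
  ∀ (ε : ℝ) (f φ' y : Sm) (N : ℕ) (d : ℝ), 0 < ε → ε ≤ δ → f ∈ Zi m →
    nrm 1 (2 * j + 10) (f - fa) ≤ η1 → φ' ∈ Zi m → ‖φ'‖ ≤ δ → y ∈ Ev → y ∈ Zi m → y ∈ Poly N →
    0 ≤ d → (∀ φ ∈ Zi m, |AA h j ε f φ' y φ| ≤ d * ‖φ‖) → ‖y‖ ≤ M * d

def UnifStmt : Prop := ∃ j0 K : ℕ, ∀ j, j0 ≤ j → ∃ (C : ℝ) (c : ℕ), 1 ≤ C ∧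
  ∀ (h : ℝ) (m : ℕ) (fl fa χ χ' : Sm) (M θ η1 η2 η Bχ : ℝ), 0 < h → h ≤ 1 → 0 < m →
    fl ∈ Zi m → fa ∈ Zi m → 1 ≤ M → 0 < η1 → Inj h j m fl M θ →
    C * h⁻¹ ^ c * M * (nrm 1 (2 * j + 20) (fa - fl) + η1) ≤ min 1 θ →
    χ ∈ Ev → χ' ∈ Ev → (∀ x, χ x ≠ 0 → χ' x = 1) → Cb K 1 Bχ χ' → Cb K 1 η2 (χ' * R fa) →
    C * (1 + Bχ) * (η1 + η2) ≤ η → NoMeas j fa χ η → Unif h j m fa η1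

/-- the second Galerkin scheme -/
def S5Stmt : Prop := ∃ j0 : ℕ, ∀ j, j0 ≤ j → ∀ (h : ℝ) (m : ℕ) (fa ψ : Sm) (C0 η1 : ℝ),
  0 < h → h ≤ 1 → 0 < m → Unif h j m fa η1 →
  (∀ δ : ℝ, 0 < δ → ∃ f ∈ Zi m, nrm 1 (2 * j + 10) (f - fa) ≤ η1 ∧
      nrm 1 (2 * j + 1) (Bq f f - algebraMap ℝ Sm C0) ≤ δ) →
  ψ ∈ Od → P 1 ψ = 0 → η1 * ‖ψ‖ < inner ℝ fa ψ → Target

/-- what the construction of the approximate solution has to deliver -/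
def CoreStmt : Prop := ∀ j0 K : ℕ, ∃ j, j0 ≤ j ∧ ∀ (C : ℝ) (c : ℕ), 1 ≤ C →
  ∃ (h : ℝ) (m : ℕ) (fl fa χ χ' ψ : Sm) (C0 M θ η1 η2 η Bχ : ℝ), 0 < h ∧ h ≤ 1 ∧ 0 < m ∧
    fl ∈ Zi m ∧ fa ∈ Zi m ∧ 1 ≤ M ∧ 0 < η1 ∧ Inj h j m fl M θ ∧ Inj h (j + 5) m fl M θ ∧
    C * h⁻¹ ^ c * M * (nrm 1 (2 * j + 20) (fa - fl) + η1) ≤ min 1 θ ∧
    C * h⁻¹ ^ c * M * nrm 1 (2 * j + 11) (Bq fa fa - algebraMap ℝ Sm C0) ≤ η1 ∧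
    χ ∈ Ev ∧ χ' ∈ Ev ∧ (∀ x, χ x ≠ 0 → χ' x = 1) ∧ Cb K 1 Bχ χ' ∧ Cb K 1 η2 (χ' * R fa) ∧
    C * (1 + Bχ) * (η1 + η2) ≤ η ∧ NoMeas j fa χ η ∧
    ψ ∈ Od ∧ P 1 ψ = 0 ∧ η1 * ‖ψ‖ < inner ℝ fa ψ

end Pool.Agent.Lib.MP_2fa2a2_gt.PI
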