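import Pool.Agent.Lib.MP_2fa2a2_gt.PI.Tau
import Pool.Agent.Lib.MP_2fa2a2_gt.PI.Leib

/-! The reverse Gauss map of the body with support function `1 + u`: definitions, statements. -/

namespace Pool.Agent.Lib.MP_2fa2a2_gt.PI

open MeasureTheory
open scoped ContDiff

/-- the boundary point with outer normal `ν` -/
noncomputable def pv (u : Sm) (a : Fin 3) : Sm := (1 + u) * X a + D a u
/-- its squared length -/
noncomputable def p2 (u : Sm) : Sm := (1 + u) * (1 + u) + gd u u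
/-- powers of its length -/
noncomputable def pk (k : ℝ) (u : Sm) : Sm := cp (fun t => t ^ (k / 2)) (p2 u)
/-- inverse of the support function -/
noncomputable def hinv (u : Sm) : Sm := cp (fun t => t⁻¹) (1 + u)
/-- inverse of the determinant of the Hessian -/
noncomputable def dinv (u : Sm) : Sm := cp (fun t => t⁻¹) (Qf (1 + u) (1 + u))
/-- the boundary point as a vector -/
noncomputable def pvec (u : Sm) (ν : S2) : E3 := WithLp.toLp 2 fun a => pv u a ν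
/-- direction of the boundary point -/
noncomputable def xm (u : Sm) (ν : S2) : S2 := nrmz (pvec u ν)
/-- Jacobian of `xm u` -/
noncomputable def Jac (u : Sm) : Sm := Qf (1 + u) (1 + u) * (1 + u) * pk (-3) u

open Classical in
/-- composition with `xm u` -/
noncomputable def pull (u : Sm) : Sm →ₗ[ℝ] Sm :=
  if h : ∀ φ : Sm, (fun ν => φ (xm u ν)) ∈ smAlg then
    { toFun := fun φ => (⟨fun ν => φ (xm u ν), h φ⟩ : smAlg)
      map_add' := fun _ _ => rfl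
      map_smul' := fun _ _ => rfl }
  else 0

/-- pull back of densities -/
noncomputable def XX (u : Sm) : Sm →ₗ[ℝ] Sm := ml (Jac u) ∘ₗ pull u

/-- the vector field that `xm u` maps to the rotation field number `a` -/
noncomputable def Wf (u : Sm) (a b : Fin 3) : Sm :=
  dinv u * ∑ c, (Dop (1 + u) * kd b c - H b c (1 + u))
    * (∑ d, ev a c d • pv u d + hinv u * L a u * pv u c)

/-- the transported rotation fields -/
noncomputable def Lt (u : Sm) (a : Fin 3) : Sm →ₗ[ℝ] Sm := ∑ b, ml (Wf u a b) ∘ₗ D b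

/-- minus the adjoint of `Lt u a` -/
noncomputable def Mt (u : Sm) (a : Fin 3) : Sm →ₗ[ℝ] Sm :=
  ∑ b, (D b - ml (2 * X b)) ∘ₗ ml (Wf u a b)

/-- the first variation of `XX` -/
noncomputable def Vb (f : Sm) : Sm →ₗ[ℝ] Sm := ∑ c, L c ∘ₗ ml (L c f)

/-- the exact identities for small `u` -/
structure Good (u : Sm) : Prop where
  small : ∀ x, |u x| ≤ 1 / 8
  p2_ge : ∀ x, 1 / 2 ≤ p2 u x
  p2_le : ∀ x, p2 u x ≤ 2
  det_ge : ∀ x, 1 / 2 ≤ Qf (1 + u) (1 + u) x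
  jac_ge : ∀ x, 1 / 2 ≤ Jac u x
  jac_le : ∀ x, Jac u x ≤ 2
  pk_apply : ∀ k x, pk k u x = p2 u x ^ (k / 2)
  pk_two : pk 2 u = p2 u
  hinv_mul : hinv u * (1 + u) = 1
  dinv_mul : dinv u * Qf (1 + u) (1 + u) = 1
  norm_pvec : ∀ x, ‖pvec u x‖ = pk 1 u x
  xm_coe : ∀ x, (xm u x : E3) = pk (-1) u x • pvec u x
  pull_apply : ∀ φ x, pull u φ x = φ (xm u x)
  pull_L : ∀ a φ, pull u (L a φ) = Lt u a (pull u φ)
  Lt_pk : ∀ a k, Lt u a (pk k u) = k • (pk k u * hinv u * L a u)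
  piola : ∀ a y, XX u (L a y) = Mt u a (XX u y)
  piola' : ∀ a φ y, I (φ * XX u (L a y)) = -I (Lt u a φ * XX u y)
  I_XX : ∀ y, I (XX u y) = I y
  integral : ∀ F : S2 → ℝ, Continuous F → ∫ x, Jac u x * F (xm u x) ∂sig = ∫ x, F x ∂sig
  inner_pull : ∀ y y', inner ℝ (XX u y) (pull u y') = inner ℝ y y'

def PullAStmt : Prop := ∃ δ : ℝ, 0 < δ ∧ ∀ u, Cb 2 1 δ u → Good u

/-- symmetry, locality, continuity -/
def PullCStmt : Prop :=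
  (∀ (g : E3 ≃ₗᵢ[ℝ] E3) u y, XX (act g u) (act g y) = act g (XX u y)) ∧
  (∀ (g : E3 ≃ₗᵢ[ℝ] E3) k u, pk k (act g u) = act g (pk k u)) ∧
  (∀ (g : E3 ≃ₗᵢ[ℝ] E3) u y, Good u → pull (act g u) (act g y) = act g (pull u y)) ∧
  (∀ u u' χ y : Sm, Good u → Good u' → (∀ x, χ x ≠ 0 → u x = u' x) →
    χ * XX u y = χ * XX u' y) ∧
  (∀ (u y : Sm) (k η : ℝ), Good u → 0 < η → ∃ b, 0 < b ∧ ∀ u', Good u' → Cb 2 1 b (u' - u) →
    ∀ x, |XX u' y x - XX u y x| ≤ η ∧ |pk k u' x - pk k u x| ≤ η)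

/-- mapping properties on the Sobolev scale -/
def PullBStmt : Prop := ∃ (K : ℕ) (C δ : ℝ), 0 ≤ C ∧ 0 < δ ∧ ∀ (u : Sm) (b : ℝ), b ≤ δ →
  Cb K 1 b u → Good u ∧
    (∀ n : ℤ, |n| ≤ 8 →
      Bd 1 (n / 2) (n / 2) C (XX u) ∧ Bd 1 (n / 2) (n / 2) C (pull u) ∧
      Bd 1 (n / 2 + 1) (n / 2) (C * b) (XX u - LinearMap.id) ∧
      Bd 1 (n / 2 + 1) (n / 2) (C * b) (pull u - LinearMap.id) ∧
      Bd 1 (n / 2 + 2) (n / 2) (C * b ^ 2) (XX u - LinearMap.id - Vb u)) ∧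
    Bd 1 0 0 (1 + C * b) (XX u) ∧ Bd 1 (-1) (-1) (1 + C * b) (XX u) ∧
    Bd 1 0 0 (1 + C * b) (pull u) ∧ Bd 1 1 1 (1 + C * b) (pull u) ∧
    Cb 5 1 (C * b) (Jac u - 1) ∧ Cb 5 1 (C * b ^ 2) (Jac u - 1 - lap u) ∧
    (∀ a c, Cb 5 1 (C * b) (Wf u a c - L a (X c)) ∧
      Cb 5 1 (C * b ^ 2) (Wf u a c - L a (X c) + D c (L a u))) ∧
    (∀ (φ : Sm) (B : ℝ), Cb 7 1 B φ → Cb 5 1 (C * B * b) (pull u φ - φ) ∧
      Cb 5 1 (C * B * b ^ 2) (pull u φ - φ - gd u φ))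

/-- commutator -/
noncomputable def cm (A B : Sm →ₗ[ℝ] Sm) : Sm →ₗ[ℝ] Sm := A ∘ₗ B - B ∘ₗ A

/-- the operator with symbol `ξ a * ξ b` -/
noncomputable def Xi (a b : Fin 3) : Sm →ₗ[ℝ] Sm := H a b ∘ₗ Dp
/-- its adjoint -/
noncomputable def Xs (a b : Fin 3) : Sm →ₗ[ℝ] Sm := Dp ∘ₗ Hs a b
/-- the operator with symbol `ω b * ω c` -/
noncomputable def Tm (b c : Fin 3) : Sm →ₗ[ℝ] Sm := -(L b ∘ₗ L c ∘ₗ Sh 1)

/-- generators of the algebra of test operators -/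
def Gen (A : Sm →ₗ[ℝ] Sm) : Prop :=
  (∃ φ, A = ml φ) ∨ (∃ a b, A = Xi a b) ∨ (∃ a b, A = Xs a b) ∨ ∃ b c, A = Tm b c

/-- Egorov property up to second order, with `K` derivatives -/
def Eg (K : ℕ) (δ : ℝ) (A : Sm →ₗ[ℝ] Sm) : Prop := ∃ C, 0 ≤ C ∧
  (∀ n : ℤ, -2 ≤ n → n ≤ 1 → Bd 1 (n / 2) (n / 2) C A) ∧
  (∀ (u : Sm) (b : ℝ), Cb K 1 b u → ∀ n : ℤ, -2 ≤ n → n ≤ 1 →
    Bd 1 (n / 2) (n / 2) (C * b) (cm (Vb u) A)) ∧
  ∀ (u : Sm) (b : ℝ), b ≤ δ → Cb K 1 b u → ∀ n : ℤ, -2 ≤ n → n ≤ 1 →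
    Bd 1 (n / 2) (n / 2) (C * b ^ 2) (cm (XX u) A - cm (Vb u) A ∘ₗ XX u)

def EgStmt : Prop := ∃ (K : ℕ) (δ : ℝ), 0 < δ ∧ (∀ A, Gen A → Eg K δ A) ∧
  (∀ A B, Eg K δ A → Eg K δ B → Eg K δ (A ∘ₗ B)) ∧
  (∀ A B, Eg K δ A → Eg K δ B → Eg K δ (A + B)) ∧
  ∀ (r : ℝ) A, Eg K δ A → Eg K δ (r • A)

end Pool.Agent.Lib.MP_2fa2a2_gt.PI
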