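import Pool.Agent.Lib.MP_2fa2a2_gt.PI.Zon

/-! Families of functions on the sphere with uniform bounds. -/

namespace Pool.Agent.Lib.MP_2fa2a2_gt.PI

open Real Filter Set
open scoped ContDiff

/-- slowly varying families of order `α` -/
def SO (α : ℝ) (F : ℕ → Sm) : Prop :=
  ∀ k : ℕ, ∃ C : ℝ, ∀ᶠ m : ℕ in atTop, Cb k 1 (C * (m : ℝ) ^ (-α)) (F m)
/-- families of frequency `m` and order `α` -/
def FO (α : ℝ) (F : ℕ → Sm) : Prop :=
  ∀ k : ℕ, ∃ C : ℝ, ∀ᶠ m : ℕ in atTop, Cb k m (C * (m : ℝ) ^ (-α)) (F m)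
/-- negligible families -/
def Ng (F : ℕ → Sm) : Prop := ∀ N : ℝ, SO N F

/-- bounds at a fixed level -/
def wave_K (k : ℕ) (lam : ℕ → ℝ) (α : ℝ) (F : ℕ → Sm) : Prop :=
  ∃ C : ℝ, ∀ᶠ m : ℕ in atTop, Cb k (lam m) (C * (m : ℝ) ^ (-α)) (F m)

theorem wave_ev : ∀ᶠ m : ℕ in atTop, (1 : ℝ) ≤ m := by
  filter_upwards [eventually_ge_atTop 1] with m hm
  exact_mod_cast hm

theorem wave_ev1 : ∀ᶠ _m : ℕ in atTop, (1 : ℝ) ≤ 1 := Eventually.of_forall fun _ => le_rfl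

theorem wave_nonneg {C α : ℝ} {m : ℕ} (hm : (1 : ℝ) ≤ m) (h : 0 ≤ C * (m : ℝ) ^ α) : 0 ≤ C :=
  nonneg_of_mul_nonneg_left h (rpow_pos_of_pos (by linarith) _)

section
variable {k : ℕ} {lam : ℕ → ℝ} {α β : ℝ} {F G : ℕ → Sm}

theorem wave_K.mono (hl : ∀ᶠ m : ℕ in atTop, 1 ≤ lam m) (h : wave_K k lam α F) (hβ : β ≤ α) :
    wave_K k lam β F := by
  obtain ⟨C, hC⟩ := h
  refine ⟨C, ?_⟩
  filter_upwards [hC, hl, wave_ev] with m h1 h2 h3
  refine h1.mono (by linarith) le_rfl le_rfl ?_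
  exact mul_le_mul_of_nonneg_left (rpow_le_rpow_of_exponent_le h3 (by linarith))
    (wave_nonneg h3 h1.nonneg)

theorem wave_K.lower (hl : ∀ᶠ m : ℕ in atTop, 1 ≤ lam m) (h : wave_K (k + 1) lam α F) :
    wave_K k lam α F := by
  obtain ⟨C, hC⟩ := h
  refine ⟨C, ?_⟩
  filter_upwards [hC, hl] with m h1 h2
  exact h1.mono (by linarith) (Nat.le_succ k) le_rfl le_rfl

theorem wave_K.add (h : wave_K k lam α F) (h' : wave_K k lam α G) :
    wave_K k lam α (fun m => F m + G m) := by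
  obtain ⟨C, hC⟩ := h
  obtain ⟨C', hC'⟩ := h'
  refine ⟨C + C', ?_⟩
  filter_upwards [hC, hC'] with m h1 h2
  rw [add_mul]
  exact h1.add h2

theorem wave_K.sub (h : wave_K k lam α F) (h' : wave_K k lam α G) :
    wave_K k lam α (fun m => F m - G m) := by
  obtain ⟨C, hC⟩ := h
  obtain ⟨C', hC'⟩ := h'
  refine ⟨C + C', ?_⟩
  filter_upwards [hC, hC'] with m h1 h2
  rw [add_mul]
  exact h1.sub h2

theorem wave_K.mul (hl : ∀ᶠ m : ℕ in atTop, 1 ≤ lam m) (h : wave_K k lam α F)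
    (h' : wave_K k lam β G) : wave_K k lam (α + β) (fun m => F m * G m) := by
  obtain ⟨C, hC⟩ := h
  obtain ⟨C', hC'⟩ := h'
  refine ⟨2 ^ k * C * C', ?_⟩
  filter_upwards [hC, hC', hl, wave_ev] with m h1 h2 h3 h4
  have e : 2 ^ k * C * C' * (m : ℝ) ^ (-(α + β))
      = 2 ^ k * (C * (m : ℝ) ^ (-α)) * (C' * (m : ℝ) ^ (-β)) := by
    rw [neg_add, rpow_add (by linarith)]; ring
  rw [e]
  exact h1.mul (by linarith) h2

theorem wave_K.smul (h : wave_K k lam α F) (r : ℝ) : wave_K k lam α (fun m => r • F m) := by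
  obtain ⟨C, hC⟩ := h
  refine ⟨|r| * C, ?_⟩
  filter_upwards [hC] with m h1
  rw [mul_assoc]
  exact h1.smul r

theorem wave_K.inv (h : wave_K k lam α F) :
    wave_K k lam (α + 1) (fun m => ((m : ℝ)⁻¹) • F m) := by
  obtain ⟨C, hC⟩ := h
  refine ⟨C, ?_⟩
  filter_upwards [hC, wave_ev] with m h1 h2
  have e : C * (m : ℝ) ^ (-(α + 1)) = |(m : ℝ)⁻¹| * (C * (m : ℝ) ^ (-α)) := by
    rw [neg_add, rpow_add (by linarith), rpow_neg_one, abs_of_nonneg (by positivity)]; ring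
  rw [e]
  exact h1.smul _

theorem wave_K.nat (h : wave_K k lam α F) :
    wave_K k lam (α - 1) (fun m => (m : ℝ) • F m) := by
  obtain ⟨C, hC⟩ := h
  refine ⟨C, ?_⟩
  filter_upwards [hC, wave_ev] with m h1 h2
  have e : C * (m : ℝ) ^ (-(α - 1)) = |(m : ℝ)| * (C * (m : ℝ) ^ (-α)) := by
    rw [neg_sub, sub_eq_add_neg, rpow_add (by linarith), rpow_one, abs_of_nonneg (by positivity)]
    ring
  rw [e]
  exact h1.smul _

theorem wave_K.ant (h : wave_K k lam α F) : wave_K k lam α (fun m => ant (F m)) := by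
  obtain ⟨C, hC⟩ := h
  exact ⟨C, hC.mono fun m h1 => h1.ant⟩

theorem wave_K.congr (h : wave_K k lam α F) (he : ∀ᶠ m in atTop, F m = G m) :
    wave_K k lam α G := by
  obtain ⟨C, hC⟩ := h
  refine ⟨C, ?_⟩
  filter_upwards [hC, he] with m h1 h2
  rwa [← h2]

theorem wave_K_const (hl : ∀ᶠ m : ℕ in atTop, 1 ≤ lam m) (k : ℕ) (φ : Sm) :
    wave_K k lam 0 (fun _ => φ) := by
  obtain ⟨B, _, hB⟩ := exists_Cb k φ
  refine ⟨B, ?_⟩
  filter_upwards [hl] with m h1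
  rw [neg_zero, rpow_zero, mul_one]
  exact hB.mono zero_le_one le_rfl h1 le_rfl

theorem wave_K.cmul (hl : ∀ᶠ m : ℕ in atTop, 1 ≤ lam m) (h : wave_K k lam α F) (φ : Sm) :
    wave_K k lam α (fun m => φ * F m) := by
  have := (wave_K_const hl k φ).mul hl h
  rwa [zero_add] at this

theorem wave_K_zero {C : ℝ} (h : ∀ᶠ m : ℕ in atTop, ∀ x, |F m x| ≤ C * (m : ℝ) ^ (-α)) :
    wave_K 0 lam α F := by
  refine ⟨C, h.mono fun m h1 w hw x => ?_⟩
  obtain rfl := List.length_eq_zero_iff.1 (Nat.le_zero.1 hw)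
  simpa using h1 x

theorem wave_max {F : Fin 3 → ℕ → Sm} (hl : ∀ᶠ m : ℕ in atTop, 1 ≤ lam m)
    (h : ∀ c, wave_K k lam α (F c)) (C0 : ℝ) :
    ∃ C : ℝ, C0 ≤ C ∧ ∀ᶠ m : ℕ in atTop, ∀ c, Cb k (lam m) (C * (m : ℝ) ^ (-α)) (F c m) := by
  choose C hC using h
  refine ⟨max C0 (max (C 0) (max (C 1) (C 2))), le_max_left _ _, ?_⟩
  filter_upwards [hC 0, hC 1, hC 2, hl] with m h0 h1 h2 h3 c
  have hp : 0 ≤ (m : ℝ) ^ (-α) := by positivity
  rcases alg_fin c with rfl | rfl | rfl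
  · exact h0.mono (by linarith) le_rfl le_rfl (mul_le_mul_of_nonneg_right (by simp) hp)
  · exact h1.mono (by linarith) le_rfl le_rfl (mul_le_mul_of_nonneg_right (by simp) hp)
  · exact h2.mono (by linarith) le_rfl le_rfl (mul_le_mul_of_nonneg_right (by simp) hp)

theorem wave_K_succ1 {C0 : ℝ} (h0 : ∀ᶠ m : ℕ in atTop, ∀ x, |F m x| ≤ C0 * (m : ℝ) ^ (-α))
    (h : ∀ c, wave_K k (fun _ => 1) α (fun m => L c (F m))) :
    wave_K (k + 1) (fun _ => 1) α F := by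
  obtain ⟨C, h1, hC⟩ := wave_max wave_ev1 h C0
  refine ⟨C, ?_⟩
  filter_upwards [hC, h0] with m h2 h3
  refine Cb_of_succ (fun x => (h3 x).trans (mul_le_mul_of_nonneg_right h1 (by positivity))) ?_
  intro a
  rw [mul_one]
  exact h2 a

theorem wave_K_succ {C0 : ℝ} (h0 : ∀ᶠ m : ℕ in atTop, ∀ x, |F m x| ≤ C0 * (m : ℝ) ^ (-α))
    (h : ∀ c, wave_K k (fun m => m) (α - 1) (fun m => L c (F m))) :
    wave_K (k + 1) (fun m => m) α F := by
  obtain ⟨C, h1, hC⟩ := wave_max wave_ev h C0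
  refine ⟨C, ?_⟩
  filter_upwards [hC, h0, wave_ev] with m h2 h3 h4
  refine Cb_of_succ (fun x => (h3 x).trans (mul_le_mul_of_nonneg_right h1 (by positivity))) ?_
  intro a
  have e : C * (m : ℝ) ^ (-α) * m = C * (m : ℝ) ^ (-(α - 1)) := by
    rw [neg_sub, sub_eq_add_neg, rpow_add (by linarith), rpow_one]; ring
  rw [e]
  exact h2 a
end

theorem wave_Cb_one {k : ℕ} {lam B : ℝ} {v : Sm} (hl : 1 ≤ lam) (h : Cb k lam B v) :
    Cb k 1 (B * lam ^ k) v := by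
  intro w hw x
  rw [one_pow, mul_one]
  exact (h w hw x).trans (mul_le_mul_of_nonneg_left (pow_le_pow_right₀ hl hw) h.nonneg)

section
variable {α β : ℝ} {F G : ℕ → Sm}
theorem SO.const (φ : Sm) : SO 0 (fun _ => φ) := fun k => wave_K_const wave_ev1 k φ
theorem SO.mono (h : SO α F) (hβ : β ≤ α) : SO β F :=
  fun k => wave_K.mono (lam := fun _ => 1) wave_ev1 (h k) hβ
theorem SO.add (h : SO α F) (h' : SO α G) : SO α (fun m => F m + G m) :=
  fun k => wave_K.add (lam := fun _ => 1) (h k) (h' k)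
theorem SO.sub (h : SO α F) (h' : SO α G) : SO α (fun m => F m - G m) :=
  fun k => wave_K.sub (lam := fun _ => 1) (h k) (h' k)
theorem SO.mul (h : SO α F) (h' : SO β G) : SO (α + β) (fun m => F m * G m) :=
  fun k => wave_K.mul (lam := fun _ => 1) wave_ev1 (h k) (h' k)
theorem SO.smul (h : SO α F) (r : ℝ) : SO α (fun m => r • F m) :=
  fun k => wave_K.smul (lam := fun _ => 1) (h k) r
theorem SO.inv (h : SO α F) : SO (α + 1) (fun m => ((m : ℝ)⁻¹) • F m) :=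
  fun k => wave_K.inv (lam := fun _ => 1) (h k)
theorem SO.L (h : SO α F) (c : Fin 3) : SO α (fun m => L c (F m)) := by
  intro k
  obtain ⟨C, hC⟩ := h (k + 1)
  refine ⟨C, hC.mono fun m h1 => ?_⟩
  have := h1.L c
  rwa [mul_one] at this
theorem SO.D (h : SO α F) (c : Fin 3) : SO α (fun m => D c (F m)) := by
  intro k
  obtain ⟨C, hC⟩ := h (k + 1)
  refine ⟨2 ^ (k + 1) * C, hC.mono fun m h1 => ?_⟩
  have := h1.D le_rfl c
  rwa [mul_one, ← mul_assoc] at this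
theorem SO.ant (h : SO α F) : SO α (fun m => ant (F m)) :=
  fun k => wave_K.ant (lam := fun _ => 1) (h k)
theorem SO.fn (h : SO α F) {c : ℕ → ℝ} (hc : PG c) : SO α (fun m => fn c (F m)) := by
  intro k
  obtain ⟨B, j, hB⟩ := id hc
  have hB0 := fnx_C_nonneg hB
  obtain ⟨S, hS0, hS⟩ := sobolev
  obtain ⟨N, hN⟩ := nrm_le_of_Cb (k + 3 + 2 * j)
  obtain ⟨C, hC⟩ := h (k + 3 + 2 * j)
  refine ⟨S * (B * (N * C)), hC.mono fun m h1 => ?_⟩
  refine (hS k _).mono zero_le_one le_rfl le_rfl ?_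
  have h2 := hN le_rfl h1
  have h3 : nrm 1 (k + 3) (PI.fn c (F m)) ≤ B * nrm 1 ((k + 3 + 2 * j : ℕ) : ℝ) (F m) := by
    refine nrm_fn le_rfl hB0 hc fun l _ => (hB l).trans (mul_le_mul_of_nonneg_left ?_ hB0)
    have e : ((k + 3 + 2 * j : ℕ) : ℝ) - (k + 3) = 2 * j := by push_cast; ring
    rw [e, opsx_wt_nat]
    refine pow_le_pow_left₀ (by positivity) ?_ j
    have : (0 : ℝ) ≤ l := l.cast_nonneg
    rw [ll]; nlinarith
  rw [one_pow, mul_one] at h2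
  calc S * nrm 1 (k + 3) (PI.fn c (F m)) ≤ S * (B * (N * (C * (m : ℝ) ^ (-α)))) :=
        mul_le_mul_of_nonneg_left (h3.trans (mul_le_mul_of_nonneg_left h2 hB0)) hS0
    _ = _ := by ring
theorem SO.congr (h : SO α F) (he : ∀ᶠ m in atTop, F m = G m) : SO α G :=
  fun k => wave_K.congr (lam := fun _ => 1) (h k) he
theorem SO.FO (h : SO α F) : FO α F := by
  intro k
  obtain ⟨C, hC⟩ := h k
  refine ⟨C, ?_⟩
  filter_upwards [hC, wave_ev] with m h1 h2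
  exact h1.mono zero_le_one le_rfl h2 le_rfl
theorem FO.mono (h : FO α F) (hβ : β ≤ α) : FO β F :=
  fun k => wave_K.mono (lam := fun m => m) wave_ev (h k) hβ
theorem FO.add (h : FO α F) (h' : FO α G) : FO α (fun m => F m + G m) :=
  fun k => wave_K.add (lam := fun m => m) (h k) (h' k)
theorem FO.sub (h : FO α F) (h' : FO α G) : FO α (fun m => F m - G m) :=
  fun k => wave_K.sub (lam := fun m => m) (h k) (h' k)
theorem FO.mul (h : FO α F) (h' : FO β G) : FO (α + β) (fun m => F m * G m) :=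
  fun k => wave_K.mul (lam := fun m => m) wave_ev (h k) (h' k)
theorem FO.smul (h : FO α F) (r : ℝ) : FO α (fun m => r • F m) :=
  fun k => wave_K.smul (lam := fun m => m) (h k) r
theorem FO.inv (h : FO α F) : FO (α + 1) (fun m => ((m : ℝ)⁻¹) • F m) :=
  fun k => wave_K.inv (lam := fun m => m) (h k)
theorem FO.L (h : FO α F) (c : Fin 3) : FO (α - 1) (fun m => L c (F m)) := by
  intro k
  obtain ⟨C, hC⟩ := h (k + 1)
  refine ⟨C, ?_⟩
  filter_upwards [hC, wave_ev] with m h1 h2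
  have e : C * (m : ℝ) ^ (-(α - 1)) = C * (m : ℝ) ^ (-α) * m := by
    rw [neg_sub, sub_eq_add_neg, rpow_add (by linarith), rpow_one]; ring
  rw [e]
  exact h1.L c
theorem FO.D (h : FO α F) (c : Fin 3) : FO (α - 1) (fun m => D c (F m)) := by
  intro k
  obtain ⟨C, hC⟩ := h (k + 1)
  refine ⟨2 ^ (k + 1) * C, ?_⟩
  filter_upwards [hC, wave_ev] with m h1 h2
  have e : 2 ^ (k + 1) * C * (m : ℝ) ^ (-(α - 1)) = 2 ^ (k + 1) * (C * (m : ℝ) ^ (-α)) * m := by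
    rw [neg_sub, sub_eq_add_neg, rpow_add (by linarith), rpow_one]; ring
  rw [e]
  exact h1.D h2 c
theorem FO.ant (h : FO α F) : FO α (fun m => ant (F m)) :=
  fun k => wave_K.ant (lam := fun m => m) (h k)
theorem FO.congr (h : FO α F) (he : ∀ᶠ m in atTop, F m = G m) : FO α G :=
  fun k => wave_K.congr (lam := fun m => m) (h k) he
theorem FO.nrm (h : FO α F) (s : ℕ) :
    ∃ C : ℝ, 0 ≤ C ∧ ∀ᶠ m : ℕ in atTop, nrm 1 s (F m) ≤ C * (m : ℝ) ^ ((s : ℝ) - α) := by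
  obtain ⟨N, hN⟩ := nrm_le_of_Cb s
  obtain ⟨C, hC⟩ := h s
  refine ⟨|N * C|, abs_nonneg _, ?_⟩
  filter_upwards [hC, wave_ev] with m h1 h2
  refine ((nrm_one_le h2 s.cast_nonneg _).trans (hN h2 h1)).trans ?_
  have e : N * (C * (m : ℝ) ^ (-α)) * (m : ℝ) ^ s = N * C * (m : ℝ) ^ ((s : ℝ) - α) := by
    rw [sub_eq_add_neg, rpow_add (by linarith), rpow_natCast]; ring
  rw [e]
  exact mul_le_mul_of_nonneg_right (le_abs_self _) (by positivity)
theorem Ng_of_FO (h : ∀ N, FO N F) : Ng F := by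
  intro N k
  obtain ⟨C, hC⟩ := h (N + k) k
  refine ⟨C, ?_⟩
  filter_upwards [hC, wave_ev] with m h1 h2
  have e : C * (m : ℝ) ^ (-N) = C * (m : ℝ) ^ (-(N + k)) * (m : ℝ) ^ k := by
    rw [mul_assoc, ← rpow_natCast, ← rpow_add (by linarith)]
    congr 2; ring
  rw [e]
  exact wave_Cb_one h2 h1
theorem Ng.mul_FO (h : Ng F) (h' : FO α G) : Ng (fun m => F m * G m) := by
  refine Ng_of_FO fun N => ?_
  have := (h (N - α)).FO.mul h'
  rwa [sub_add_cancel] at this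
/-- a family with crude bounds on all derivatives that is uniformly very small is negligible -/
theorem Ng_of_sup (h : FO α F)
    (h0 : ∀ N : ℝ, ∃ C : ℝ, ∀ᶠ m : ℕ in atTop, ∀ x, |F m x| ≤ C * (m : ℝ) ^ (-N)) : Ng F := by
  intro N k
  obtain ⟨S, hS0, hS⟩ := sobolev
  obtain ⟨C, hC0, hC⟩ := h.nrm (2 * (k + 3))
  obtain ⟨A, hA⟩ := h0 (2 * N + ((2 * (k + 3) : ℕ) - α))
  obtain ⟨M, hM⟩ := nrm_le_of_Cb 0
  refine ⟨S * √(|M * A| * C), ?_⟩
  filter_upwards [hC, hA, wave_ev] with m h1 h2 h3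
  refine (hS k _).mono zero_le_one le_rfl le_rfl ?_
  rw [mul_assoc]
  refine mul_le_mul_of_nonneg_left ?_ hS0
  have hm : (0 : ℝ) < m := by linarith
  have h4 : Cb 0 1 (A * (m : ℝ) ^ (-(2 * N + ((2 * (k + 3) : ℕ) - α)))) (F m) := by
    intro w hw x
    obtain rfl := List.length_eq_zero_iff.1 (Nat.le_zero.1 hw)
    simpa using h2 x
  have h5 := hM le_rfl h4
  have h6 := nrm_mid le_rfl ((0 : ℕ) : ℝ) ((2 * (k + 3) : ℕ) : ℝ) (F m)
  have e : (((0 : ℕ) : ℝ) + ((2 * (k + 3) : ℕ) : ℝ)) / 2 = k + 3 := by push_cast; ring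
  rw [e] at h6
  refine nrmx_sq (h6.trans ?_) (by positivity)
  have h7 : nrm 1 ((0 : ℕ) : ℝ) (F m)
      ≤ |M * A| * (m : ℝ) ^ (-(2 * N + ((2 * (k + 3) : ℕ) - α))) := by
    refine h5.trans ?_
    rw [pow_zero, mul_one, ← mul_assoc]
    exact mul_le_mul_of_nonneg_right (le_abs_self _) (by positivity)
  refine (mul_le_mul h7 h1 (nrm_nonneg _ _ _) (by positivity)).trans (le_of_eq ?_)
  rw [mul_pow, sq_sqrt (by positivity), mul_mul_mul_comm, ← rpow_add hm, ← rpow_natCast,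
    ← rpow_mul hm.le]
  congr 2
  push_cast; ring
theorem FO.R (h : FO α F) : ∃ β, FO β (fun m => R (F m)) := by
  refine ⟨α, fun k => ?_⟩
  obtain ⟨C, hC⟩ := h k
  refine ⟨C, hC.mono fun m h1 w hw x => ?_⟩
  have e : Lw w (PI.R (F m)) = PI.R (Lw w (F m)) := (fn_Lw cR w (F m)).symm
  rw [e]
  exact abs_R_le (h1 w hw) x
end

end Pool.Agent.Lib.MP_2fa2a2_gt.PI
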