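import Pool.Agent.Lib.MP_2fa2a2_gt.PI.WaveX
import Pool.Agent.Lib.MP_2fa2a2_gt.PI.WaveY

/-! Waves on the sphere. -/

namespace Pool.Agent.Lib.MP_2fa2a2_gt.PI

open Real Filter Set
open scoped ContDiff

/-- inverse of `1 - z ^ 2` -/
noncomputable def wave_iq (z : ℝ) : ℝ := (1 - z ^ 2)⁻¹

/-- coefficient of the longitudinal derivative -/
noncomputable def wave_T (c : Fin 3) : Sm := D 2 (X 2) * kd c 2 - X 2 * X c * (1 - kd c 2)

theorem wave_iq_smooth {z : ℝ} (hz : |z| < 1) : ContDiffAt ℝ ∞ wave_iq z :=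
  ContDiffAt.inv (f := fun z : ℝ => 1 - z ^ 2) (by fun_prop) (wave_sq hz).ne'

theorem wave_lt {z z1 z2 : ℝ} (h1 : -1 < z1) (h2 : z2 < 1) (hz : z ∈ Icc z1 z2) : |z| < 1 :=
  abs_lt.2 ⟨h1.trans_le hz.1, hz.2.trans_lt h2⟩

theorem wave_qq_iq {g : ℝ → ℝ} {Φ : Pf} (m : ℕ) (h : Adm g Φ) :
    qq * Wv g m (sl wave_iq * Φ) = Wv g m Φ := by
  ext x
  rw [Sm.mul_apply, Wv_apply m h, Wv_apply m (wave_Adm_sl h fun z hz => wave_iq_smooth hz),
    zon_qq_apply, Pi.mul_apply]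
  obtain ⟨-, -, z1, z2, h1, h2, hs⟩ := h
  by_cases hz : (x : E3) 2 ∈ Icc z1 z2
  · have := (wave_sq (wave_lt h1 h2 hz)).ne'
    rw [sl, wave_iq, ← mul_assoc, ← sq, mul_inv_cancel₀ this, one_mul]
  · rw [hs _ _ hz, mul_zero, mul_zero]

theorem wave_L {g : ℝ → ℝ} {Φ : Pf} (m : ℕ) (h : Adm g Φ) (c : Fin 3) :
    L c (Wv g m Φ) = L c (X 2) * Wv g m (dz Φ) + (m : ℝ) •
      (L c (X 2) * Wv g m (sl (deriv g) * ds Φ) + wave_T c * Wv g m (sl wave_iq * ds Φ)) := by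
  refine zon_cancel ?_
  have h1 := wave_qq_iq m h.ds
  rw [qq_L, D2_Wv m h, L2_Wv m h, wave_T]
  simp only [Algebra.smul_def]
  linear_combination (-(algebraMap ℝ Sm m) *
    (D 2 (X 2) * kd c 2 - X 2 * X c * (1 - kd c 2))) * h1

section
variable {g : ℝ → ℝ} {z1 z2 α β : ℝ} {Φ : ℕ → Pf}
theorem PF.adm (h : PF z1 z2 α Φ) (hg : ContDiff ℝ ∞ g) (h1 : -1 < z1) (h2 : z2 < 1) (m : ℕ) :
    Adm g (Φ m) := ⟨hg, (h.1 m).1, z1, z2, h1, h2, (h.1 m).2⟩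

theorem wave_FO (hg : ContDiff ℝ ∞ g) (h1 : -1 < z1) (h2 : z2 < 1) (k : ℕ) :
    ∀ Φ : ℕ → Pf, PF z1 z2 α Φ → wave_K k (fun m => m) α (fun m => Wv g m (Φ m)) := by
  have h0 : ∀ Φ : ℕ → Pf, PF z1 z2 α Φ → ∃ C : ℝ, ∀ᶠ m : ℕ in atTop, ∀ x,
      |Wv g m (Φ m) x| ≤ C * (m : ℝ) ^ (-α) := by
    intro Φ h
    obtain ⟨C, -, hC⟩ := h.abs_le
    refine ⟨C, hC.mono fun m hm x => ?_⟩
    rw [Wv_apply m (h.adm hg h1 h2 m)]
    exact hm _
  induction k with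
  | zero =>
    intro Φ h
    obtain ⟨C, hC⟩ := h0 Φ h
    exact wave_K_zero hC
  | succ k ih =>
    intro Φ h
    obtain ⟨C, hC⟩ := h0 Φ h
    refine wave_K_succ hC fun c => ?_
    have a1 := ((ih _ h.dz).cmul wave_ev (L c (X 2))).mono wave_ev (sub_le_self α zero_le_one)
    have a2 := (ih _ (h.ds.sl_mul fun z _ => (zon_deriv hg).contDiffAt)).cmul wave_ev (L c (X 2))
    have a3 := (ih _ (h.ds.sl_mul fun z hz => wave_iq_smooth (wave_lt h1 h2 hz))).cmul wave_ev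
      (wave_T c)
    exact (a1.add (a2.add a3).nat).congr
      (Eventually.of_forall fun m => (wave_L m (h.adm hg h1 h2 m) c).symm)

theorem PF.FO (h : PF z1 z2 α Φ) (hg : ContDiff ℝ ∞ g) (h1 : -1 < z1) (h2 : z2 < 1) :
    FO α (fun m => Wv g m (Φ m)) := fun k => wave_FO hg h1 h2 k Φ h

theorem wave_SO (k : ℕ) : ∀ φ : ℕ → ℝ → ℝ, PF z1 z2 α (fun m => sl (φ m)) →
    wave_K k (fun _ => 1) α (fun m => Zf (φ m)) := by
  have h0 : ∀ φ : ℕ → ℝ → ℝ, PF z1 z2 α (fun m => sl (φ m)) → ∃ C : ℝ, ∀ᶠ m : ℕ in atTop, ∀ x,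
      |Zf (φ m) x| ≤ C * (m : ℝ) ^ (-α) := by
    intro φ h
    obtain ⟨C, -, hC⟩ := h.abs_le
    refine ⟨C, hC.mono fun m hm x => ?_⟩
    rw [Zf_apply (wave_of_sl (h.1 m).1.1)]
    exact hm (_, 0)
  induction k with
  | zero =>
    intro φ h
    obtain ⟨C, hC⟩ := h0 φ h
    exact wave_K_zero hC
  | succ k ih =>
    intro φ h
    obtain ⟨C, hC⟩ := h0 φ h
    refine wave_K_succ1 hC fun c => ?_
    have e : (fun m => dz (sl (φ m))) = fun m => sl (deriv (φ m)) :=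
      funext fun m => dz_sl (wave_of_sl (h.1 m).1.1)
    have h3 := h.dz
    rw [e] at h3
    refine ((ih _ h3).cmul wave_ev1 (L c (X 2))).congr (Eventually.of_forall fun m => ?_)
    rw [L_Zf c (wave_of_sl (h.1 m).1.1), mul_comm]

/-- profiles that do not depend on the fast variable give slow zonal families -/
theorem PF.SO {φ : ℕ → ℝ → ℝ} (h : PF z1 z2 α (fun m => sl (φ m))) :
    SO α (fun m => Zf (φ m)) := fun k => wave_SO k φ h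

theorem wave_ds_sl {φ : ℝ → ℝ} {Φ : Pf} (h : Per Φ) (h' : Per (sl φ * Φ)) :
    ds (sl φ * Φ) = sl φ * ds Φ := by
  funext ⟨z, s⟩
  exact (hasDerivAt_ds h' z s).unique ((hasDerivAt_ds h z s).const_mul (φ z))

theorem wave_sup_mul {Φ : Pf} (hs : Sup z1 z2 Φ) (Ψ : Pf) : Sup z1 z2 (Ψ * Φ) := fun z s hz => by
  rw [Pi.mul_apply, hs z s hz, mul_zero]

theorem wave_dz_az {Φ : Pf} (a : Sm) (h : Per Φ) (hs : Sup z1 z2 Φ) (h1 : -1 < z1)
    (h2 : z2 < 1) :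
    dz (sl (az a) * Φ) = sl (az (D 2 a)) * (sl wave_iq * Φ) + sl (az a) * dz Φ := by
  have h' := h.sl_mul hs fun z hz => az_smooth a (wave_lt h1 h2 hz)
  funext ⟨z, s⟩
  by_cases hz : z ∈ Icc z1 z2
  · have hz' := wave_lt h1 h2 hz
    have h3 := ((az_smooth a hz').differentiableAt (by simp)).hasDerivAt.mul (hasDerivAt_dz h z s)
    refine ((hasDerivAt_dz h' z s).unique h3).trans ?_
    have := (wave_sq hz').ne'
    simp only [Pi.add_apply, Pi.mul_apply, sl, az_D2 a hz', wave_iq]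
    field_simp
  · rw [(wave_sup_mul hs _).dz z s hz, Pi.add_apply, wave_sup_mul (wave_sup_mul hs _) _ z s hz,
      wave_sup_mul hs.dz _ z s hz, add_zero]

/-- sums of products of a slow family and a profile -/
def wave_S (z1 z2 α β : ℝ) : AddSubmonoid (ℕ → Pf) := AddSubmonoid.closure
  {Ψ | ∃ (a : ℕ → Sm) (Φ : ℕ → Pf), SO β a ∧ PF z1 z2 α Φ ∧ Ψ = fun m => sl (az (a m)) * Φ m}

theorem wave_S_base {a : ℕ → Sm} (ha : SO β a) (h : PF z1 z2 α Φ) :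
    (fun m => sl (az (a m)) * Φ m) ∈ wave_S z1 z2 α β :=
  AddSubmonoid.subset_closure ⟨a, Φ, ha, h, rfl⟩

theorem wave_S_all (h1 : -1 < z1) (h2 : z2 < 1) {Ψ : ℕ → Pf} (h : Ψ ∈ wave_S z1 z2 α β) :
    (∀ m, Per (Ψ m)) ∧
    (∃ C : ℝ, ∀ᶠ m : ℕ in atTop, ∀ p, |Ψ m p| ≤ C * (m : ℝ) ^ (-(β + α))) ∧
    (fun m => dz (Ψ m)) ∈ wave_S z1 z2 α β ∧ (fun m => ds (Ψ m)) ∈ wave_S z1 z2 α β := by
  induction h using AddSubmonoid.closure_induction with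
  | mem Ψ hΨ =>
    obtain ⟨a, Φ, ha, h, rfl⟩ := hΨ
    have hp : ∀ m, Per (sl (az (a m)) * Φ m) := fun m =>
      (h.1 m).1.sl_mul (h.1 m).2 fun z hz => az_smooth _ (wave_lt h1 h2 hz)
    refine ⟨hp, ?_, ?_, ?_⟩
    · obtain ⟨C, hC⟩ := ha 0
      obtain ⟨C', -, hC'⟩ := h.abs_le
      refine ⟨C * C', ?_⟩
      filter_upwards [hC, hC', wave_ev] with m a1 a2 a3 p
      rw [Pi.mul_apply, abs_mul, neg_add, rpow_add (by linarith), mul_mul_mul_comm]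
      exact mul_le_mul (a1.abs_le _) (a2 p) (abs_nonneg _) a1.nonneg
    · have e : (fun m => dz (sl (az (a m)) * Φ m)) =
          (fun m => sl (az (D 2 (a m))) * (sl wave_iq * Φ m)) +
            fun m => sl (az (a m)) * dz (Φ m) :=
        funext fun m => wave_dz_az _ (h.1 m).1 (h.1 m).2 h1 h2
      rw [e]
      exact add_mem (wave_S_base (ha.D 2)
        (h.sl_mul fun z hz => wave_iq_smooth (wave_lt h1 h2 hz))) (wave_S_base ha h.dz)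
    · have e : (fun m => ds (sl (az (a m)) * Φ m)) = fun m => sl (az (a m)) * ds (Φ m) :=
        funext fun m => wave_ds_sl (h.1 m).1 (hp m)
      rw [e]
      exact wave_S_base ha h.ds
  | zero =>
    have e1 : (fun m => dz ((0 : ℕ → Pf) m)) = 0 := by
      funext m p; simp [dz]
    have e2 : (fun m => ds ((0 : ℕ → Pf) m)) = 0 := by
      funext m p; simp [ds]
    rw [e1, e2]
    exact ⟨fun m => ⟨contDiff_const, fun _ _ => rfl⟩,
      ⟨0, Eventually.of_forall fun m p => by simp⟩, zero_mem _, zero_mem _⟩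
  | add Ψ Ψ' _ _ ih ih' =>
    obtain ⟨a1, ⟨C, a2⟩, a3, a4⟩ := ih
    obtain ⟨b1, ⟨C', b2⟩, b3, b4⟩ := ih'
    refine ⟨fun m => (a1 m).add (b1 m), ⟨C + C', ?_⟩, ?_, ?_⟩
    · filter_upwards [a2, b2] with m c1 c2 p
      rw [add_mul]
      exact (abs_add_le _ _).trans (add_le_add (c1 p) (c2 p))
    · have e : (fun m => dz ((Ψ + Ψ') m)) = (fun m => dz (Ψ m)) + fun m => dz (Ψ' m) :=
        funext fun m => dz_add (a1 m) (b1 m)
      rw [e]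
      exact add_mem a3 b3
    · have e : (fun m => ds ((Ψ + Ψ') m)) = (fun m => ds (Ψ m)) + fun m => ds (Ψ' m) :=
        funext fun m => ds_add (a1 m) (b1 m)
      rw [e]
      exact add_mem a4 b4

theorem PF.az_mul {a : ℕ → Sm} (h : PF z1 z2 α Φ) (ha : PI.SO β a) (h1 : -1 < z1) (h2 : z2 < 1) :
    PF z1 z2 (β + α) (fun m => sl (az (a m)) * Φ m) := by
  have h3 := wave_S_base ha h
  refine ⟨fun m => ⟨(wave_S_all h1 h2 h3).1 m, wave_sup_mul (h.1 m).2 _⟩, ?_⟩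
  exact OO_of_sup (S := fun Ψ => Ψ ∈ wave_S z1 z2 α β)
    (fun Ψ hΨ m => ((wave_S_all h1 h2 hΨ).1 m).1) (fun Ψ hΨ => (wave_S_all h1 h2 hΨ).2.1)
    (fun Ψ hΨ => (wave_S_all h1 h2 hΨ).2.2.1) (fun Ψ hΨ => (wave_S_all h1 h2 hΨ).2.2.2) h3
end

/-- bounds with a sharp leading constant -/
def wave_Q (k : ℕ) (K : ℝ) (v : ℕ → Sm) : Prop :=
  ∃ C1 : ℝ, 0 ≤ C1 ∧ ∀ m : ℕ, 1 ≤ m → Cb k m (K + C1 / m) (v m)

section
variable {k : ℕ} {K K' : ℝ} {u v : ℕ → Sm}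

theorem wave_Q.add (h : wave_Q k K u) (h' : wave_Q k K' v) :
    wave_Q k (K + K') fun m => u m + v m := by
  obtain ⟨C, hC0, hC⟩ := h
  obtain ⟨C', hC0', hC'⟩ := h'
  refine ⟨C + C', add_nonneg hC0 hC0', fun m hm => ?_⟩
  rw [add_div, add_add_add_comm]
  exact (hC m hm).add (hC' m hm)

theorem wave_Q.inv (h : wave_Q k K u) : wave_Q k 0 fun m => ((m : ℝ)⁻¹) • u m := by
  obtain ⟨C, hC0, hC⟩ := h
  refine ⟨|K| + C, by positivity, fun m hm => ?_⟩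
  have h1 : (1 : ℝ) ≤ m := by exact_mod_cast hm
  refine ((hC m hm).smul _).mono (by linarith) le_rfl le_rfl ?_
  rw [abs_of_nonneg (by positivity), zero_add, div_eq_inv_mul (|K| + C)]
  exact mul_le_mul_of_nonneg_left (add_le_add (le_abs_self _) (div_le_self hC0 h1))
    (by positivity)

theorem wave_Q.mono (h : wave_Q k K u) (hK : K ≤ K') : wave_Q k K' u := by
  obtain ⟨C, hC0, hC⟩ := h
  exact ⟨C, hC0, fun m hm => (hC m hm).mono m.cast_nonneg le_rfl le_rfl (by linarith)⟩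

theorem wave_Q_succ (h0 : ∀ m x, |v m x| ≤ K)
    (h : ∀ c, wave_Q k K fun m => ((m : ℝ)⁻¹) • L c (v m)) : wave_Q (k + 1) K v := by
  choose C hC0 hC using h
  refine ⟨∑ c, C c, Finset.sum_nonneg fun c _ => hC0 c, fun m hm => ?_⟩
  have h1 : (0 : ℝ) < m := by exact_mod_cast hm
  have h2 : 0 ≤ ∑ c, C c := Finset.sum_nonneg fun c _ => hC0 c
  refine Cb_of_succ (fun x => (h0 m x).trans (le_add_of_nonneg_right (by positivity))) fun c => ?_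
  have h3 := (hC c m hm).smul (m : ℝ)
  rw [smul_smul, mul_inv_cancel₀ h1.ne', one_smul, abs_of_pos h1, mul_comm] at h3
  refine h3.mono h1.le le_rfl le_rfl (mul_le_mul_of_nonneg_right ?_ h1.le)
  have := Finset.single_le_sum (fun c _ => hC0 c) (Finset.mem_univ c)
  gcongr
end

theorem wave_iter {z1 z2 : ℝ} (i : ℕ) : ∀ {Φ : Pf}, Per Φ → Sup z1 z2 Φ →
    Per (ds^[i] Φ) ∧ Sup z1 z2 (ds^[i] Φ) := by
  induction i with
  | zero => exact fun h hs => ⟨h, hs⟩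
  | succ i ih => exact fun h hs => ih h.ds hs.ds

theorem wave_bdd {z1 z2 : ℝ} {Φ : Pf} (h : Per Φ) (hs : Sup z1 z2 Φ) (k : ℕ) :
    ∃ A : ℝ, ∀ i ≤ k, ∀ p, |ds^[i] Φ p| ≤ A := by
  have h1 : ∀ i, ∃ A : ℝ, 0 ≤ A ∧ ∀ p, |ds^[i] Φ p| ≤ A := fun i => by
    obtain ⟨C, hC0, hC⟩ := (PF.const (wave_iter i h hs).1 (wave_iter i h hs).2).abs_le
    obtain ⟨m, hm⟩ := hC.exists
    exact ⟨C, hC0, fun p => by simpa using hm p⟩
  choose A hA0 hA using h1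
  exact ⟨∑ i ∈ Finset.range (k + 1), A i, fun i hi p => (hA i p).trans
    (Finset.single_le_sum (fun i _ => hA0 i) (Finset.mem_range.2 (Nat.lt_succ_of_le hi)))⟩

theorem wave_iter_sl {z1 z2 : ℝ} {φ : ℝ → ℝ} (hφ : ∀ z ∈ Icc z1 z2, ContDiffAt ℝ ∞ φ z) (i : ℕ) :
    ∀ {Φ : Pf}, Per Φ → Sup z1 z2 Φ → ds^[i] (sl φ * Φ) = sl φ * ds^[i] Φ := by
  induction i with
  | zero => exact fun _ _ => rfl
  | succ i ih =>
    intro Φ h hs
    rw [Function.iterate_succ_apply, Function.iterate_succ_apply,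
      wave_ds_sl h (h.sl_mul hs hφ), ih h.ds hs.ds]

theorem wave_iter_le {z1 z2 A B : ℝ} {φ : ℝ → ℝ} {Φ : Pf} {k : ℕ} (hB : 0 < B)
    (hφ : ∀ z ∈ Icc z1 z2, ContDiffAt ℝ ∞ φ z) (hb : ∀ z ∈ Icc z1 z2, |φ z| ≤ B) (h : Per Φ)
    (hs : Sup z1 z2 Φ) (hA : ∀ i ≤ k + 1, ∀ p, |ds^[i] Φ p| ≤ A) :
    ∀ i ≤ k, ∀ p, |ds^[i] (sl φ * ds Φ) p| ≤ B * A := by
  rintro i hi ⟨z, s⟩
  have h1 := hA (i + 1) (Nat.succ_le_succ hi) (z, s)
  rw [wave_iter_sl hφ i h.ds hs.ds, Pi.mul_apply, abs_mul]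
  by_cases hz : z ∈ Icc z1 z2
  · exact mul_le_mul (hb z hz) h1 (abs_nonneg _) hB.le
  · rw [(wave_iter i h.ds hs.ds).2 z s hz, abs_zero, mul_zero]
    exact mul_nonneg hB.le ((abs_nonneg _).trans h1)

theorem wave_T_le (c : Fin 3) (x : S2) : |wave_T c x| ≤ 1 := by
  have h2 := abs_X_le 2 x
  have hc := abs_X_le c x
  rw [wave_T, zon_D2_X]
  by_cases h : c = 2
  · subst h
    have h3 := zon_qq_nonneg x
    have h4 := zon_qq_apply x
    rw [alg_kd, mul_one, sub_self, mul_zero, sub_zero, abs_of_nonneg h3]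
    nlinarith [mul_self_nonneg ((x : E3) 2)]
  · rw [alg_kd_ne h, mul_zero, sub_zero, mul_one, zero_sub, Sm.neg_apply, abs_neg, Sm.mul_apply,
      abs_mul]
    exact mul_le_one₀ h2 (abs_nonneg _) hc

theorem wave_sharp {B z1 z2 : ℝ} {g : ℝ → ℝ} (hB : 0 < B) (hg : ContDiff ℝ ∞ g) (h1 : -1 < z1)
    (h2 : z2 < 1) (hb : ∀ z ∈ Icc z1 z2, B⁻¹ ≤ 1 - z ^ 2 ∧ |deriv g z| ≤ B) (k : ℕ) :
    ∀ (a : Sm) (Φ : Pf) (b A : ℝ), Per Φ → Sup z1 z2 Φ → (∀ x, |a x| ≤ b) →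
    (∀ i ≤ k, ∀ p, |ds^[i] Φ p| ≤ A) →
    wave_Q k ((1 + 2 * B) ^ k * b * A) fun m => a * Wv g m Φ := by
  have h0 : ∀ (k : ℕ) (a : Sm) (Φ : Pf) (b A : ℝ), Per Φ → Sup z1 z2 Φ → (∀ x, |a x| ≤ b) →
      (∀ i ≤ k, ∀ p, |ds^[i] Φ p| ≤ A) → ∀ m x,
      |(a * Wv g m Φ) x| ≤ (1 + 2 * B) ^ k * b * A := by
    intro k a Φ b A h hs ha hA m x
    have hb0 : 0 ≤ b := (abs_nonneg _).trans (ha x)
    have hA0 : 0 ≤ A := (abs_nonneg _).trans (hA 0 k.zero_le 0)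
    rw [Sm.mul_apply, abs_mul, Wv_apply m ⟨hg, h, z1, z2, h1, h2, hs⟩, mul_assoc]
    refine (mul_le_mul (ha x) (hA 0 k.zero_le _) (abs_nonneg _) hb0).trans ?_
    exact le_mul_of_one_le_left (mul_nonneg hb0 hA0) (one_le_pow₀ (by linarith))
  induction k with
  | zero =>
    intro a Φ b A h hs ha hA
    refine ⟨0, le_rfl, fun m _ w hw x => ?_⟩
    obtain rfl := List.length_eq_zero_iff.1 (Nat.le_zero.1 hw)
    simpa using h0 0 a Φ b A h hs ha hA m x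
  | succ k ih =>
    intro a Φ b A h hs ha hA
    refine wave_Q_succ (h0 _ a Φ b A h hs ha hA) fun c => ?_
    have hb0 : 0 ≤ b := (abs_nonneg _).trans (ha (circ_pt 0))
    have hA0 : 0 ≤ A := (abs_nonneg _).trans (hA 0 (Nat.zero_le _) 0)
    have hX : ∀ x, |(a * L c (X 2)) x| ≤ b := fun x => by
      have := ((Cb_X le_rfl 1 2).L c).abs_le x
      rw [Sm.mul_apply, abs_mul]
      exact (mul_le_mul (ha x) this (abs_nonneg _) hb0).trans (by simp)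
    have hT : ∀ x, |(a * wave_T c) x| ≤ b := fun x => by
      rw [Sm.mul_apply, abs_mul]
      exact (mul_le_mul (ha x) (wave_T_le c x) (abs_nonneg _) hb0).trans (by simp)
    obtain ⟨b1, -, hb1⟩ := (L c a).bounded
    obtain ⟨A1, hA1⟩ := wave_bdd h.dz hs.dz k
    have hq : ∀ z ∈ Icc z1 z2, ContDiffAt ℝ ∞ wave_iq z := fun z hz =>
      wave_iq_smooth (wave_lt h1 h2 hz)
    have hq' : ∀ z ∈ Icc z1 z2, |wave_iq z| ≤ B := fun z hz => by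
      have := wave_sq (wave_lt h1 h2 hz)
      rw [wave_iq, abs_of_pos (inv_pos.2 this)]
      exact inv_le_of_inv_le₀ hB (hb z hz).1
    have hd : ∀ z ∈ Icc z1 z2, ContDiffAt ℝ ∞ (deriv g) z := fun z _ => (zon_deriv hg).contDiffAt
    have a1 := ih _ Φ b1 A h hs hb1 fun i hi => hA i (hi.trans k.le_succ)
    have a2 := ih _ _ b A1 h.dz hs.dz hX hA1
    have a3 := ih _ _ b _ (h.ds.sl_mul hs.ds hd) (wave_sup_mul hs.ds _) hX
      (wave_iter_le hB hd (fun z hz => (hb z hz).2) h hs hA)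
    have a4 := ih _ _ b _ (h.ds.sl_mul hs.ds hq) (wave_sup_mul hs.ds _) hT
      (wave_iter_le hB hq hq' h hs hA)
    obtain ⟨C, hC0, hC⟩ := ((a1.add a2).inv.add (a3.add a4)).mono
      (K' := (1 + 2 * B) ^ (k + 1) * b * A) (by
        have : 0 ≤ (1 + 2 * B) ^ k * b * A := by positivity
        rw [pow_succ]; nlinarith)
    refine ⟨C, hC0, fun m hm => ?_⟩
    have h3 : (m : ℝ) ≠ 0 := by
      have : (0 : ℝ) < m := by exact_mod_cast hm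
      exact this.ne'
    have e : ((m : ℝ)⁻¹) • L c (a * Wv g m Φ) =
        ((m : ℝ)⁻¹) • (L c a * Wv g m Φ + a * L c (X 2) * Wv g m (dz Φ)) +
        (a * L c (X 2) * Wv g m (sl (deriv g) * ds Φ) +
          a * wave_T c * Wv g m (sl wave_iq * ds Φ)) := by
      rw [L_mul, wave_L m ⟨hg, h, z1, z2, h1, h2, hs⟩]
      ext x
      simp only [Sm.add_apply, Sm.mul_apply, Sm.smul_apply]
      field_simp
      ring
    exact (congrArg (Cb k m _) e).mpr (hC m hm)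

/-- bound whose leading constant only depends on the derivatives in the fast variable -/
theorem Cb_Wv_sharp (k : ℕ) (B : ℝ) : ∃ C : ℝ, 0 ≤ C ∧ ∀ (g : ℝ → ℝ) (Φ : Pf) (z1 z2 A : ℝ),
    ContDiff ℝ ∞ g → Per Φ → Sup z1 z2 Φ → (∀ z ∈ Icc z1 z2, B⁻¹ ≤ 1 - z ^ 2 ∧ |deriv g z| ≤ B) →
    0 < B → (∀ i ≤ k, ∀ p, |ds^[i] Φ p| ≤ A) →
    ∃ C1 : ℝ, ∀ m : ℕ, 1 ≤ m → Cb k m (C * A + C1 / m) (Wv g m Φ) := by
  refine ⟨|1 + 2 * B| ^ k, by positivity, fun g Φ z1 z2 A hg h hs hb hB hA => ?_⟩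
  have key : ∀ z1 z2 : ℝ, -1 < z1 → z2 < 1 → Sup z1 z2 Φ →
      (∀ z ∈ Icc z1 z2, B⁻¹ ≤ 1 - z ^ 2 ∧ |deriv g z| ≤ B) →
      ∃ C1 : ℝ, ∀ m : ℕ, 1 ≤ m → Cb k m (|1 + 2 * B| ^ k * A + C1 / m) (Wv g m Φ) := by
    intro z1 z2 h1 h2 hs hb
    obtain ⟨C1, -, hC⟩ := wave_sharp hB hg h1 h2 hb k 1 Φ 1 A h hs (fun x => by simp) hA
    refine ⟨C1, fun m hm => ?_⟩
    have := hC m hm
    simp only [mul_one, one_mul] at this
    rwa [abs_of_pos (show 0 < 1 + 2 * B by linarith)]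
  have hi : 0 < B⁻¹ := inv_pos.2 hB
  rcases le_or_gt z1 z2 with h12 | h12
  · have h1 := (hb z1 ⟨le_rfl, h12⟩).1
    have h2 := (hb z2 ⟨h12, le_rfl⟩).1
    exact key z1 z2 (by nlinarith) (by nlinarith) hs hb
  · refine key 1 0 (by norm_num) (by norm_num) (fun z s _ => hs z s fun hz => ?_) fun z hz => ?_
    · linarith [hz.1, hz.2]
    · linarith [hz.1, hz.2]

end Pool.Agent.Lib.MP_2fa2a2_gt.PI
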