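import Pool.Agent.Lib.MP_2fa2a2_gt.PI.SZone
import Pool.Agent.Lib.MP_2fa2a2_gt.PI.Wave
import Pool.Agent.Lib.MP_2fa2a2_gt.PI.Gau

/-! The approximate solution: data, stationary phase, iteration. Definitions and statements. -/

namespace Pool.Agent.Lib.MP_2fa2a2_gt.PI

open Real Filter Set
open scoped ContDiff

/-- geometry of the phase -/
structure WG where
  τ : ℝ
  τ2 : ℝ
  zl : ℝ
  zr : ℝ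
  g : ℝ → ℝ

/-- height of the wave direction -/
def WG.Γ (w : WG) (z : ℝ) : ℝ := w.τ + w.τ2 * z

structure WG.Ok (w : WG) : Prop where
  zl_pos : 0 < w.zl
  lt : w.zl < w.zr
  zr_lt : w.zr < 1
  τ_pos : 0 < w.τ
  τ2_pos : 0 < w.τ2
  small : (w.τ + w.τ2) ^ 2 ≤ (1 - w.zr ^ 2) / 4
  g_smooth : ContDiff ℝ ∞ w.g
  g_deriv : ∀ z ∈ Icc w.zl w.zr,
    deriv w.g z = w.Γ z / ((1 - z ^ 2) * √(1 - z ^ 2 - w.Γ z ^ 2))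

/-- output waves: the profile is written in the variable `z` with `u 2 = Γ z` -/
noncomputable def WG.Wo (w : WG) (Θ : ℝ → ℝ) (m : ℕ) (Ψ : Pf) : Sm :=
  Wv Θ m (fun p => Ψ ((p.1 - w.τ) / w.τ2, p.2))

/-- amplitude factor of the stationary phase formula -/
noncomputable def WG.k0 (w : WG) (z : ℝ) : ℝ :=
  (1 - z ^ 2 - w.Γ z ^ 2) ^ (1 / 4 : ℝ) / (2 * π * √w.τ2)
/-- value of the weight `c` at the stationary point -/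
noncomputable def WG.c0 (w : WG) (z : ℝ) : ℝ := -√(1 - z ^ 2 - w.Γ z ^ 2)
/-- size of the gradient of the phase -/
noncomputable def WG.o0 (w : WG) (z : ℝ) : ℝ := (√(1 - z ^ 2 - w.Γ z ^ 2))⁻¹

/-- mean over the great circle with the weight `c = - u · rl` -/
noncomputable def R1 (φ : Sm) : Sm := -∑ a, X a * R (L 2 (X a) * φ)

/-- stationary phase for the means over great circles -/
def SP (w : WG) (Θ : ℝ → ℝ) : Prop := ∀ (z1 z2 z1' z2' α : ℝ) (A : ℕ → Pf),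
  w.zl < z1' → z1' < z1 → z2 < z2' → z2' < w.zr → PF z1 z2 α A → (∀ m, Mz (A m)) →
  ∃ Ψ0 Ψ1 : ℕ → Pf, PF z1' z2' (α + 3 / 2) Ψ0 ∧ PF z1' z2' (α + 3 / 2) Ψ1 ∧
    (∀ m, Mz (Ψ0 m)) ∧ (∀ m, Mz (Ψ1 m)) ∧
    Ng (fun m => R (Wv w.g m (A m)) - evE (w.Wo Θ m (sl w.k0 * JG m (A m) + Ψ0 m))) ∧
    Ng (fun m => R1 (Wv w.g m (A m))
      - odE (w.Wo Θ m (sl (fun z => w.k0 z * w.c0 z) * JG m (A m) + Ψ1 m)))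

/-- the circle integral in coordinates -/
noncomputable def Iw (w : WG) (i m : ℕ) (A : Pf) (t S : ℝ) : ℝ :=
  (2 * π)⁻¹ * ∫ θ in (0 : ℝ)..π, (√(1 - t ^ 2) * cos θ) ^ i * A (√(1 - t ^ 2) * sin θ,
    S + m * (Complex.arg (-(t * sin θ : ℝ) + (cos θ : ℝ) * Complex.I)
      + w.g (√(1 - t ^ 2) * sin θ)))

/-- the analytic part of the stationary phase lemma -/
def OscStmt : Prop := ∀ w : WG, w.Ok → ∃ Θ : ℝ → ℝ, ContDiff ℝ ∞ Θ ∧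
  ∀ (i : ℕ) (z1 z2 z1' z2' α : ℝ) (A : ℕ → Pf), w.zl < z1' → z1' < z1 → z2 < z2' → z2' < w.zr →
    PF z1 z2 α A → (∀ m, Mz (A m)) →
    ∃ Ψ : ℕ → Pf, PF z1' z2' (α + 3 / 2) Ψ ∧ (∀ m, Mz (Ψ m)) ∧
      ∀ N : ℝ, ∃ C : ℝ, ∀ᶠ m : ℕ in atTop, ∀ t ∈ Icc (0 : ℝ) 1, ∀ S : ℝ,
        |Iw w i m (A m) t S - (sl (fun z => w.k0 z * w.c0 z ^ i) * JG m (A m) + Ψ m)
          ((t - w.τ) / w.τ2, S + m * Θ t)| ≤ C * (m : ℝ) ^ (-N)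

def SPStmt : Prop := ∀ w : WG, w.Ok → ∃ Θ : ℝ → ℝ, ContDiff ℝ ∞ Θ ∧ SP w Θ

/-- configurations -/
structure Cf where
  a : ℕ → Sm
  o : ℕ → Pf
  e : ℕ → Pf

structure Cf.Ok (c : Cf) (z1 z2 α : ℝ) : Prop where
  a_ord : SO α c.a
  a_zon : ∀ m, Zon (c.a m)
  a_even : ∀ m, c.a m ∈ Ev
  o_ord : PF z1 z2 α c.o
  e_ord : PF z1 z2 α c.e
  o_mean : ∀ m, Mz (c.o m)
  e_mean : ∀ m, Mz (c.e m)

/-- the function described by a configuration -/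
noncomputable def Cf.f (c : Cf) (w : WG) (m : ℕ) : Sm :=
  prim (c.a m) + ((m : ℝ)⁻¹) • odE (Wv w.g m (c.o m)) + ((m : ℝ)⁻¹) • evE (Wv w.g m (c.e m))

/-- product of the fast derivatives -/
noncomputable def Cf.pp (c c' : Cf) (m : ℕ) : Pf :=
  ds (c.o m) * ds (c'.o m) + ds (c.e m) * ds (c'.e m)

/-- leading zonal part of the quadratic model -/
noncomputable def Ylead (w : WG) (c c' : Cf) (m : ℕ) : Sm :=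
  X 2 * X 2 * R (c.a m * c'.a m + evE (Zf fun z =>
      (deriv w.g z ^ 2 - ((1 - z ^ 2) ^ 2)⁻¹) * mean (c.pp c' m) z))
    + R (evE (Zf fun z => (1 - z ^ 2)⁻¹ * mean (c.pp c' m) z))

/-- the profile that enters the leading oscillating part -/
noncomputable def Alead (w : WG) (c c' : Cf) (m : ℕ) : Pf :=
  sl (fun z => w.o0 z ^ 2) * osc (c.pp c' m)
    + sl (fun z => w.o0 z * w.Γ z) * (sl (az (c.a m)) * ds (c'.o m) + sl (az (c'.a m)) * ds (c.o m))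

/-- expansion of the quadratic model -/
def BL (w : WG) (Θ nn : ℝ → ℝ) : Prop := ∀ (z1 z2 z1' z2' α α' : ℝ) (c c' : Cf),
  w.zl < z1' → z1' < z1 → z2 < z2' → z2' < w.zr → c.Ok z1 z2 α → c'.Ok z1 z2 α' →
  ∃ (Yr : ℕ → Sm) (Ψr : ℕ → Pf), SO (α + α' + 1) Yr ∧ (∀ m, Zon (Yr m) ∧ Yr m ∈ Ev) ∧
    PF z1' z2' (α + α' + 3 / 2) Ψr ∧ (∀ m, Mz (Ψr m)) ∧
    Ng (fun m => Bq (c.f w m) (c'.f w m) - Ylead w c c' m - Yr m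
      - evE (w.Wo Θ m (sl (fun z => 2 * w.k0 z) * JG m (Alead w c c' m)
        + sl nn * osc (JG m (ds (c.e m)) * JG m (ds (c'.e m))) + Ψr m)))

def BLStmt : Prop := ∀ (w : WG) (Θ : ℝ → ℝ), w.Ok → ContDiff ℝ ∞ Θ → SP w Θ →
  ∃ nn : ℝ → ℝ, (∀ z ∈ Icc w.zl w.zr, ContDiffAt ℝ ∞ nn z) ∧ BL w Θ nn

/-- modulus of the leading wave -/
noncomputable def rho (κ p : ℝ) : ℝ := √(p ^ 2 + κ ^ 2)
/-- shape parameter of the leading wave -/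
noncomputable def TT (κ p : ℝ) : ℝ := κ * √(3 * rho κ p + p) / (rho κ p + p) ^ (3 / 2 : ℝ)
/-- first component of the leading wave -/
noncomputable def uu (κ p : ℝ → ℝ) : Pf := fun x =>
  rho (κ x.1) (p x.1) * (2 / (1 + TT (κ x.1) (p x.1) ^ 2 * sin x.2 ^ 2) - 1)
/-- second component of the leading wave -/
noncomputable def qe (κ p : ℝ → ℝ) : Pf := fun x =>
  2 * rho (κ x.1) (p x.1) * TT (κ x.1) (p x.1) * sin x.2 / (1 + TT (κ x.1) (p x.1) ^ 2 * sin x.2 ^ 2)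

/-- properties of the leading wave; the constants are absolute -/
def ProfStmt : Prop := ∃ Cs : ℕ → ℝ, (∀ i, 1 ≤ Cs i) ∧ ∀ κ p : ℝ → ℝ, ContDiff ℝ ∞ κ →
  ContDiff ℝ ∞ p → (∀ z, 0 ≤ κ z) → (∀ z, 0 < p z) →
  ∃ Uh Qh : Pf, Per Uh ∧ Per Qh ∧ Mz Uh ∧ Mz Qh ∧
    uu κ p = sl p + sl κ * sl κ * Uh ∧ qe κ p = sl κ * Qh ∧
    uu κ p * uu κ p + qe κ p * qe κ p = sl (fun z => p z ^ 2 + κ z ^ 2) ∧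
    (∀ i x, |ds^[i] (sl κ * Uh) x| ≤ Cs i ∧ |ds^[i] Qh x| ≤ Cs i) ∧
    (∀ x : ℝ × ℝ, sin x.2 ^ 2 / Cs 0 ≤ Qh x * sin x.2 ∧ |Qh x| ≤ Cs 0 * |sin x.2| ∧
      (|sin x.2| ≤ 1 / 3 → p x.1 / 2 ≤ uu κ p x)) ∧
    ∀ (z1 z2 β : ℝ) (r : ℕ → Pf), PF z1 z2 β r → (∀ m, Mz (r m)) →
      ∃ γo γe : ℕ → Pf, PF z1 z2 β γo ∧ PF z1 z2 β γe ∧ (∀ m, Mz (γo m)) ∧ (∀ m, Mz (γe m)) ∧
        ∀ m, uu κ p * γo m + qe κ p * γe m = r m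

/-- the data of the construction -/
structure WD extends WG where
  b1 : ℝ
  b2 : ℝ
  zc : ℝ
  ρ : ℝ
  C : ℝ
  κ : ℝ → ℝ
  p : ℝ → ℝ
  om : ℝ → ℝ
  a0 : Sm
  wz : Sm

structure WD.Ok (d : WD) (k : ℕ) (C0 : ℝ) : Prop where
  geo : d.toWG.Ok
  zl_ge : C0⁻¹ ≤ d.zl
  zr_le : C0⁻¹ ≤ 1 - d.zr ^ 2
  ρ_ge : C0⁻¹ ≤ d.ρ
  o1 : d.zl < d.zc - 6 * d.ρ
  o2 : d.zc + 6 * d.ρ < d.b1
  o3 : d.b1 < d.b2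
  o4 : d.b2 < d.zr
  τ2_le : d.τ2 ≤ d.τ
  κ_smooth : ContDiff ℝ ∞ d.κ
  κ_nonneg : ∀ z, 0 ≤ d.κ z
  κ_le : ∀ z, d.κ z ≤ C0
  κ_supp : ∀ z, z ∉ Icc d.b1 d.b2 → d.κ z = 0
  κ_pos : ∃ z, 0 < d.κ z
  p_smooth : ContDiff ℝ ∞ d.p
  p_pos : ∀ z, 0 < d.p z
  p_eq : ∀ z ∈ Icc d.zl d.zr, d.p z = az d.a0 z * d.Γ z
  om_smooth : ContDiff ℝ ∞ d.om
  om_ge : ∀ z, C0⁻¹ ≤ d.om z
  om_le : ∀ z, d.om z ≤ C0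
  om_eq : ∀ z ∈ Icc d.zl d.zr, d.om z = d.o0 z
  a0_zon : Zon d.a0
  a0_even : d.a0 ∈ Ev
  a0_ge : ∀ x, C0⁻¹ ≤ d.a0 x
  a0_Cb : Cb k 1 C0 d.a0
  eqn : X 2 * X 2 * R (d.a0 * d.a0 + evE (Zf fun z =>
      (deriv d.g z ^ 2 - ((1 - z ^ 2) ^ 2)⁻¹) * (d.κ z ^ 2 / d.om z ^ 2)))
    + R (evE (Zf fun z => (1 - z ^ 2)⁻¹ * (d.κ z ^ 2 / d.om z ^ 2))) = algebraMap ℝ Sm d.C
  wz_zon : Zon d.wz
  wz_eq : ∀ x : S2, |X 2 x - d.zc| ≤ 5 * d.ρ → d.wz x = qq x * deriv d.g (X 2 x)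
  mono : ∀ x : S2, |X 2 x - d.zc| ≤ 4 * d.ρ → 0 < D 2 d.a0 x ∧ 0 < D 2 (d.a0 * d.wz) x ∧
    d.a0 x * D 2 d.wz x - d.wz x * D 2 d.a0 x < 0

def DataStmt : Prop := ∀ k : ℕ, ∃ C0 : ℝ, 1 ≤ C0 ∧ ∀ τ0 : ℝ, 0 < τ0 → ∃ τ, 0 < τ ∧ τ ≤ τ0 ∧
  ∀ ℓ : ℝ, 0 < ℓ → ∃ d : WD, d.Ok k C0 ∧ d.τ = τ ∧ d.τ2 ≤ ℓ * τ

/-- the leading profiles in terms of the factorisation of `ProfStmt` -/
structure Lead (d : WD) (Uh Qh : Pf) : Prop where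
  perU : Per Uh
  perQ : Per Qh
  mzU : Mz Uh
  mzQ : Mz Qh
  hU : uu d.κ d.p = sl d.p + sl d.κ * sl d.κ * Uh
  hQ : qe d.κ d.p = sl d.κ * Qh

/-- structure of the approximate solutions -/
structure Fam (d : WD) (Uh Qh : Pf) (z1 z2 : ℝ) (c : Cf) (o1 e1 o2 e2 : ℕ → Pf) : Prop where
  ok : c.Ok z1 z2 0
  ha : SO 1 (fun m => c.a m - d.a0)
  o1_ord : PF z1 z2 (1 / 2) o1
  e1_ord : PF z1 z2 (1 / 2) e1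
  o2_ord : PF z1 z2 1 o2
  e2_ord : PF z1 z2 1 e2
  ho : ∀ m, c.o m = sl d.κ * sl d.κ * sinv (sl (fun z => (d.om z)⁻¹) * Uh) + sl d.κ * o1 m + o2 m
  he : ∀ m, c.e m = sl d.κ * sinv (sl (fun z => (d.om z)⁻¹) * Qh) + sl d.κ * e1 m + e2 m

def WkbStmt : Prop := ∀ (d : WD) (k : ℕ) (C0 : ℝ) (Uh Qh : Pf) (z1 z2 : ℝ) (s N : ℕ),
  d.Ok k C0 → 1 ≤ C0 → Lead d Uh Qh → d.zl < z1 → z1 < d.b1 → d.b2 < z2 → z2 < d.zr →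
  ∃ (c : Cf) (o1 e1 o2 e2 : ℕ → Pf) (Cm : ℕ → ℝ) (C : ℝ), Fam d Uh Qh z1 z2 c o1 e1 o2 e2 ∧
    ∀ᶠ m : ℕ in atTop,
      nrm 1 s (Bq (c.f d.toWG m) (c.f d.toWG m) - algebraMap ℝ Sm (Cm m)) ≤ C / (m : ℝ) ^ N

/-- bounds on the leading profiles with absolute constants -/
def LeadB (Cs : ℕ → ℝ) (d : WD) (Uh Qh : Pf) : Prop :=
  (∀ i x, |ds^[i] (sl d.κ * Uh) x| ≤ Cs i ∧ |ds^[i] Qh x| ≤ Cs i) ∧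
  ∀ x : ℝ × ℝ, sin x.2 ^ 2 / Cs 0 ≤ Qh x * sin x.2 ∧ |Qh x| ≤ Cs 0 * |sin x.2| ∧
    (|sin x.2| ≤ 1 / 3 → d.p x.1 / 2 ≤ uu d.κ d.p x)

def LocDStmt : Prop := ∀ (k : ℕ) (C0 : ℝ) (Cs : ℕ → ℝ), 1 ≤ C0 → (∀ i, 1 ≤ Cs i) →
  ∃ C0' : ℝ, 1 ≤ C0' ∧ ∀ (d : WD) Uh Qh z1 z2 c o1 e1 o2 e2, d.Ok k C0 → Lead d Uh Qh →
    LeadB Cs d Uh Qh → d.zl < z1 → z2 < d.zr → Fam d Uh Qh z1 z2 c o1 e1 o2 e2 →
    ∃ C1 : ℝ, 1 ≤ C1 ∧ ∀ᶠ m : ℕ in atTop, ∃ ld : LD, ld.fo + ld.fe = c.f d.toWG m ∧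
      ∀ k' ≤ k, Loc k' C0' d.τ C1 m ld

/-- the control wave -/
noncomputable def fc (d : WD) (b : ℝ → ℝ) (m : ℕ) : Sm :=
  evE (Wv d.g m (sl b * fun x => sin x.2))

/-- cut-off of the control wave -/
structure Cut (d : WD) (b : ℝ → ℝ) : Prop where
  smooth : ContDiff ℝ ∞ b
  le : ∀ z, |b z| ≤ 1
  one : ∀ z, |z - d.zc| ≤ 4 * d.ρ → b z = 1
  supp : ∀ z, z ∉ Icc (d.zc - 5 * d.ρ) (d.zc + 5 * d.ρ) → b z = 0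

def ZoneDStmt : Prop := ∀ (C0 : ℝ) (Cs : ℕ → ℝ), 1 ≤ C0 → (∀ i, 1 ≤ Cs i) →
  ∃ C0' τ1 : ℝ, 1 ≤ C0' ∧ 0 < τ1 ∧ ∀ (d : WD) k Uh Qh z1 z2 c o1 e1 o2 e2 b, 12 ≤ k → d.Ok k C0 →
    d.τ ≤ τ1 → Lead d Uh Qh → LeadB Cs d Uh Qh → d.zc + 5 * d.ρ < z1 → z2 < d.zr →
    Fam d Uh Qh z1 z2 c o1 e1 o2 e2 → Cut d b →
    ∃ C1 : ℝ, 1 ≤ C1 ∧ ∀ᶠ m : ℕ in atTop, ∃ zd : ZD, ∀ (t ℓ κ1 : ℝ) (χ : Sm),
      (∀ x, X 2 x ^ 2 ≤ t ∨ t * (1 + ℓ) ≤ X 2 x ^ 2 → χ x = 1) →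
      Zone C0' t ℓ C1 κ1 m (c.f d.toWG m + κ1 • fc d b m) χ zd

/-- the control wave and the even wave are only seen in a strip of directions -/
def CtlStmt : Prop := ∀ (d : WD) k C0 Uh Qh z1 z2 c o1 e1 o2 e2 b (χ' : Sm), d.Ok k C0 → 1 ≤ C0 →
  d.zc + 5 * d.ρ < z1 → z2 < d.zr → Fam d Uh Qh z1 z2 c o1 e1 o2 e2 → Cut d b →
  (∀ x, d.τ ≤ |X 2 x| → |X 2 x| ≤ d.τ + d.τ2 → χ' x = 0) →
  FO 0 (fc d b) ∧ (∀ m, fc d b m ∈ Zi m ∧ c.f d.toWG m ∈ Zi m) ∧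
  Ng (fun m => Bq (c.f d.toWG m) (fc d b m)) ∧
  Ng (fun m => χ' * R (c.f d.toWG m)) ∧ Ng (fun m => χ' * R (fc d b m)) ∧
  (∃ β, FO β (fun m => Bq (fc d b m) (fc d b m))) ∧
  ∃ (ψ : Sm) (c0 : ℝ), ψ ∈ Od ∧ P 1 ψ = 0 ∧ 0 < c0 ∧
    ∀ᶠ m : ℕ in atTop, c0 ≤ inner ℝ (c.f d.toWG m) ψ

end Pool.Agent.Lib.MP_2fa2a2_gt.PI
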