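import Pool.Agent.Lib.MP_2fa2a2_gt.PI.SLoc

/-! The control zone; absence of a defect measure. -/

namespace Pool.Agent.Lib.MP_2fa2a2_gt.PI

open MeasureTheory

/-- the objects that describe the control zone -/
structure ZD where
  a : Sm
  G : Sm
  fw : Sm
  sn : Sm
  cs : Sm
  w : Sm
  zc : ℝ
  ρ : ℝ

structure Zone (C0 t ℓ C1 κ1 : ℝ) (m : ℕ) (u χ : Sm) (d : ZD) : Prop where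
  ρ_ge : C0⁻¹ ≤ d.ρ
  lo : C0⁻¹ ≤ d.zc - 4 * d.ρ
  hi : d.zc + 4 * d.ρ ≤ 1 - C0⁻¹
  odd : odp u = d.G + d.fw
  G_zon : Zon d.G
  G_odd : d.G ∈ Od
  G_Cb : Cb 12 1 C0 d.G
  G_grad : ∀ c, D c d.G = d.a * D c (X 2)
  a_zon : Zon d.a
  a_even : d.a ∈ Ev
  a_ge : ∀ x, C0⁻¹ ≤ d.a x
  a_Cb : Cb 12 1 C0 d.a
  fw_zero : ∀ x, |X 2 x| < d.zc + 4 * d.ρ ∨ qq x < C0⁻¹ → d.fw x = 0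
  fw_grad : ∀ x, |D 2 d.fw x| ≤ qq x / (2 * C0)
  fw_Cb : Cb 2 m (C1 / m) d.fw
  even : ∀ x, |X 2 x - d.zc| < 4 * d.ρ → evp u x = κ1 * d.sn x
  sn_Cb : Cb 12 m C1 d.sn
  cs_Cb : Cb 12 m C1 d.cs
  w_zon : Zon d.w
  w_Cb : Cb 12 1 C1 d.w
  wave : ∀ x, |X 2 x - d.zc| < 4 * d.ρ → d.sn x ^ 2 + d.cs x ^ 2 = 1 ∧
    L 2 d.sn x = m * d.cs x ∧ L 2 d.cs x = -(m * d.sn x) ∧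
    D 2 d.sn x = m * d.w x * d.cs x ∧ D 2 d.cs x = -(m * d.w x * d.sn x)
  mono : ∀ x, |X 2 x - d.zc| < 4 * d.ρ → C1⁻¹ ≤ d.w x ∧ 0 ≤ D 2 d.a x ∧
    C1⁻¹ ≤ D 2 (d.a * d.w) x ∧ d.a x * D 2 d.w x - d.w x * D 2 d.a x ≤ -C1⁻¹
  cut : ∀ x, X 2 x ^ 2 ≤ t ∨ t * (1 + ℓ) ≤ X 2 x ^ 2 → χ x = 1

/-- the two transport inequalities -/
def TrO (j : ℕ) (u : Sm) (η : ℝ) (μ : Measure Fm) : Prop :=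
  ∀ a ∈ Sy, |∫ p, PP j (odp u) a p ∂μ| ≤ η * ∫ p, jet a p ∂μ
def TrE (j : ℕ) (u χ : Sm) (η : ℝ) (μ : Measure Fm) : Prop :=
  ∀ a ∈ Sy, (∀ p, a p ≠ 0 → χ p.xi = 1) → |∫ p, PP j (evp u) a p ∂μ| ≤ η * ∫ p, jet a p ∂μ

/-- slabs around the centre of the zone -/
def slab (d : ZD) (r : ℝ) : Set Fm := {p | |X 2 p.x - d.zc| ≤ r * d.ρ}
/-- mirrored slabs -/
def slab' (d : ZD) (r : ℝ) : Set Fm := {p | |X 2 p.x + d.zc| ≤ r * d.ρ}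
/-- the exceptional directions -/
def strip (t ℓ : ℝ) : Set Fm := {p | t / (1 + ℓ) ≤ X 2 p.xi ^ 2 ∧ X 2 p.xi ^ 2 ≤ t * (1 + ℓ) ^ 2}

def LyaStmt : Prop := ∀ (j : ℕ) (C0 : ℝ), 1 ≤ j → 1 ≤ C0 → ∃ C : ℝ, 1 ≤ C ∧ ∀ C1 : ℝ, 1 ≤ C1 →
  ∃ m0 : ℕ, ∀ m, m0 ≤ m → ∀ t ℓ κ1 u χ d (μ : Measure Fm), IsProbabilityMeasure μ →
    Zone C0 t ℓ C1 κ1 m u χ d → TrO j u (1 / m ^ 20) μ →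
    μ.real (slab d 3 ∪ slab' d 3) ≤ C * μ.real (slab d 1 ∪ slab' d 1) ∧
    0 < μ.real (slab d 1 ∪ slab' d 1)

def ThinStmt : Prop := ∀ (j : ℕ) (C0 γ : ℝ), 1 ≤ C0 → 0 < γ → ∃ ℓ : ℝ, 0 < ℓ ∧ ℓ ≤ 1 ∧
  ∀ t : ℝ, 0 < t → ∃ m0 : ℕ, ∀ m, m0 ≤ m → ∀ C1 κ1 u χ d (μ : Measure Fm),
    IsProbabilityMeasure μ → Zone C0 t ℓ C1 κ1 m u χ d → TrO j u (1 / m ^ 20) μ →
    μ.real (slab d 1 ∩ strip t ℓ) ≤ γ * μ.real (slab d 3)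

def BrkStmt : Prop := ∀ (j : ℕ) (C0 t ℓ C1 γ : ℝ), 1 ≤ j → 1 ≤ C0 → 0 < t → 0 < ℓ → 1 ≤ C1 → 0 < γ →
  ∃ m0 : ℕ, ∀ m, m0 ≤ m → ∀ κ1 u χ d (μ : Measure Fm), 0 < κ1 → IsProbabilityMeasure μ →
    Zone C0 t ℓ C1 κ1 m u χ d → TrO j u (1 / m ^ 20) μ → TrE j u χ (κ1 / m ^ 20) μ →
    μ.real (slab d 1 \ strip t ℓ) ≤ γ * μ.real (slab d 3)

def NoMeasStmt : Prop := ∀ (j : ℕ) (C0 : ℝ), 1 ≤ j → 1 ≤ C0 → ∃ ℓ : ℝ, 0 < ℓ ∧ ℓ ≤ 1 ∧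
  ∀ t C1 : ℝ, 0 < t → 1 ≤ C1 → ∃ m0 : ℕ, ∀ m, m0 ≤ m → ∀ κ1 u χ d, 0 < κ1 → κ1 ≤ 1 →
    Zone C0 t ℓ C1 κ1 m u χ d → NoMeas j u χ (κ1 / m ^ 20)

end Pool.Agent.Lib.MP_2fa2a2_gt.PI
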