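import Mathlib

/-! Families of smooth functions with uniform bounds, and integrals with parameters. -/

namespace Pool.Agent.Lib.MP_2fa2a2_gt.PI.Sta

open Real Filter Set MeasureTheory Topology
open scoped ContDiff

variable {ι ι' E E' G G' : Type} [NormedAddCommGroup E] [NormedSpace ℝ E]
  [NormedAddCommGroup E'] [NormedSpace ℝ E'] [NormedAddCommGroup G] [NormedSpace ℝ G]
  [NormedAddCommGroup G'] [NormedSpace ℝ G']

/-- all derivatives of order at least `n` are bounded by multiples of `ε` -/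
structure BB (n : ℕ) (ε : ι → ℝ) (β : ι → E → G) : Prop where
  nn : ∀ j, 0 ≤ ε j
  sm : ∀ j, ContDiff ℝ ∞ (β j)
  bd : ∀ i, n ≤ i → ∃ C : ℝ, 0 ≤ C ∧ ∀ j p, ‖iteratedFDeriv ℝ i (β j) p‖ ≤ C * ε j

theorem le_inf (i : ℕ) : ((i : ℕ∞) : WithTop ℕ∞) ≤ ∞ := by exact_mod_cast le_top

section
variable {n : ℕ} {ε : ι → ℝ} {β γ : ι → E → G}

theorem BB.upto (h : BB n ε β) (k : ℕ) :
    ∃ C : ℝ, 1 ≤ C ∧ ∀ i, n ≤ i → i ≤ k → ∀ j p, ‖iteratedFDeriv ℝ i (β j) p‖ ≤ C * ε j := by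
  have : ∀ i, ∃ C : ℝ, 0 ≤ C ∧ (n ≤ i → ∀ j p, ‖iteratedFDeriv ℝ i (β j) p‖ ≤ C * ε j) := fun i => by
    by_cases hi : n ≤ i
    · obtain ⟨C, h1, h2⟩ := h.bd i hi
      exact ⟨C, h1, fun _ => h2⟩
    · exact ⟨0, le_rfl, fun h => absurd h hi⟩
  choose C h1 h2 using this
  have h3 := Finset.sum_nonneg fun i (_ : i ∈ Finset.range (k + 1)) => h1 i
  refine ⟨1 + ∑ i ∈ Finset.range (k + 1), C i, by linarith, fun i hi hk j p =>
    (h2 i hi j p).trans (mul_le_mul_of_nonneg_right ?_ (h.nn j))⟩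
  linarith [Finset.single_le_sum (fun i (_ : i ∈ Finset.range (k + 1)) => h1 i)
    (Finset.mem_range.2 (Nat.lt_succ_of_le hk))]

theorem BB.reindex (h : BB n ε β) (f : ι' → ι) : BB n (fun j => ε (f j)) (fun j => β (f j)) :=
  ⟨fun _ => h.nn _, fun _ => h.sm _, fun i hi => (h.bd i hi).imp fun _ h => ⟨h.1, fun _ => h.2 _⟩⟩

theorem BB.weak (h : BB 0 ε β) : BB n ε β := ⟨h.nn, h.sm, fun i _ => h.bd i (Nat.zero_le i)⟩

theorem BB.abs_le (h : BB 0 ε β) : ∃ C : ℝ, 0 ≤ C ∧ ∀ j p, ‖β j p‖ ≤ C * ε j := by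
  simpa using h.bd 0 le_rfl

theorem BB.fderiv (h : BB 1 ε β) : BB 0 ε (fun j => fderiv ℝ (β j)) :=
  ⟨h.nn, fun j => (h.sm j).fderiv_right (m := ∞) le_rfl, fun i _ => by
    simpa only [norm_iteratedFDeriv_fderiv] using h.bd (i + 1) (by omega)⟩

theorem BB.clm (h : BB n ε β) (L : G →L[ℝ] G') : BB n ε (fun j p => L (β j p)) :=
  ⟨h.nn, fun j => L.contDiff.comp (h.sm j), fun i hi => by
    obtain ⟨C, h1, h2⟩ := h.bd i hi
    refine ⟨‖L‖ * C, by positivity, fun j p => ?_⟩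
    refine (L.norm_iteratedFDeriv_comp_left (h.sm j).contDiffAt (le_inf i)).trans ?_
    rw [mul_assoc]
    exact mul_le_mul_of_nonneg_left (h2 j p) (norm_nonneg _)⟩

theorem BB.add (h : BB n ε β) (h' : BB n ε γ) : BB n ε (fun j p => β j p + γ j p) :=
  ⟨h.nn, fun j => (h.sm j).add (h'.sm j), fun i hi => by
    obtain ⟨C, h1, h2⟩ := h.bd i hi
    obtain ⟨C', h1', h2'⟩ := h'.bd i hi
    refine ⟨C + C', by positivity, fun j p => ?_⟩
    rw [fun_iteratedFDeriv_add_apply ((h.sm j).of_le (le_inf i)).contDiffAt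
      ((h'.sm j).of_le (le_inf i)).contDiffAt, add_mul]
    exact (norm_add_le _ _).trans (add_le_add (h2 j p) (h2' j p))⟩

theorem BB.prod {δ : ι → E → G'} (h : BB n ε β) (h' : BB n ε δ) :
    BB n ε (fun j p => (β j p, δ j p)) := by
  simpa using (h.clm (ContinuousLinearMap.inl ℝ G G')).add (h'.clm (ContinuousLinearMap.inr ℝ G G'))

theorem BB.smul {a : ι → E → ℝ} (ha : BB 0 1 a) (h : BB 0 ε β) :
    BB 0 ε (fun j p => a j p • β j p) :=
  ⟨h.nn, fun j => (ha.sm j).smul (h.sm j), fun i _ => by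
    obtain ⟨C, h1, h2⟩ := ha.upto i
    obtain ⟨C', h1', h2'⟩ := h.upto i
    refine ⟨∑ l ∈ Finset.range (i + 1), (i.choose l : ℝ) * C * C', by positivity, fun j p => ?_⟩
    refine (norm_iteratedFDeriv_smul_le (ha.sm j) (h.sm j) p (le_inf i)).trans ?_
    rw [Finset.sum_mul]
    refine Finset.sum_le_sum fun l hl => ?_
    have h3 := h2 l (Nat.zero_le _) (Nat.lt_succ_iff.1 (Finset.mem_range.1 hl)) j p
    rw [Pi.one_apply, mul_one] at h3
    rw [mul_assoc _ C']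
    gcongr
    exact h2' _ (Nat.zero_le _) (Nat.sub_le _ _) j p⟩

theorem BB.comp {Λ : ι → E' → E} (h : BB 0 ε β) (hΛ : BB 1 1 Λ) :
    BB 0 ε (fun j p => β j (Λ j p)) :=
  ⟨h.nn, fun j => (h.sm j).comp (hΛ.sm j), fun i _ => by
    obtain ⟨C, h1, h2⟩ := h.upto i
    obtain ⟨D, h1', h2'⟩ := hΛ.upto i
    refine ⟨i.factorial * C * D ^ i, by positivity, fun j p => ?_⟩
    refine (norm_iteratedFDeriv_comp_le (h.sm j) (hΛ.sm j) (le_inf i) p
      (fun l hl => h2 l (Nat.zero_le _) hl j _) (D := D) fun l hl hl' => ?_).trans_eq (by ring)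
    exact (h2' l hl hl' j p).trans (by simpa using le_self_pow₀ h1' (by omega))⟩

end

theorem BB.const1 (c : ι → G) : BB 1 1 (fun j (_ : E) => c j) :=
  ⟨fun _ => zero_le_one, fun _ => contDiff_const, fun i hi => ⟨0, le_rfl, fun j p => by
    simp [iteratedFDeriv_const_of_ne (show i ≠ 0 by omega)]⟩⟩

theorem BB.const0 {c : ι → G} {C : ℝ} (hc : ∀ j, ‖c j‖ ≤ C) : BB 0 1 (fun j (_ : E) => c j) :=
  ⟨fun _ => zero_le_one, fun _ => contDiff_const, fun i _ => by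
    rcases i with _ | i
    · exact ⟨|C|, abs_nonneg _, fun j p => by simpa using (hc j).trans (le_abs_self C)⟩
    · exact (BB.const1 c).bd _ (by omega)⟩

theorem BB.lin {L : ι → E →L[ℝ] G} {C : ℝ} (hL : ∀ j, ‖L j‖ ≤ C) : BB 1 1 (fun j p => L j p) :=
  ⟨fun _ => zero_le_one, fun j => (L j).contDiff, fun i hi => by
    obtain ⟨i, rfl⟩ : ∃ l, i = l + 1 := ⟨i - 1, by omega⟩
    have e : ∀ j, _root_.fderiv ℝ (fun p => L j p) = fun _ => L j := fun j =>
      funext fun _ => (L j).fderiv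
    simpa only [← norm_iteratedFDeriv_fderiv, e] using (BB.const0 hL).bd i (Nat.zero_le _)⟩

theorem BB.lin' (L : E →L[ℝ] G) : BB 1 1 (fun (_ : ι) p => L p) := BB.lin fun _ => le_rfl

theorem BB.of_compact {f : E → G} (hf : ContDiff ℝ ∞ f) (hc : HasCompactSupport f) :
    BB 0 1 (fun _ : ι => f) :=
  ⟨fun _ => zero_le_one, fun _ => hf, fun i _ => by
    obtain ⟨C, hC⟩ := (hf.continuous_iteratedFDeriv (le_inf i)).bounded_above_of_compact_support
      (hc.iteratedFDeriv i)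
    exact ⟨|C|, abs_nonneg _, fun _ p => by simpa using (hC p).trans (le_abs_self C)⟩⟩

theorem BB.sin : BB 0 1 (fun _ : ι => Real.sin) :=
  ⟨fun _ => zero_le_one, fun _ => contDiff_sin, fun i _ => ⟨1, zero_le_one, fun _ p => by
    simpa [norm_iteratedFDeriv_eq_norm_iteratedDeriv] using abs_iteratedDeriv_sin_le_one i p⟩⟩

theorem BB.cos : BB 0 1 (fun _ : ι => Real.cos) :=
  ⟨fun _ => zero_le_one, fun _ => contDiff_cos, fun i _ => ⟨1, zero_le_one, fun _ p => by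
    simpa [norm_iteratedFDeriv_eq_norm_iteratedDeriv] using abs_iteratedDeriv_cos_le_one i p⟩⟩

/-- smooth extension from a compact set -/
theorem exists_ext [FiniteDimensional ℝ E] {K U : Set E} (hK : IsCompact K) (hU : IsOpen U)
    (hKU : K ⊆ U) {f : E → G} (hf : ∀ x ∈ U, ContDiffAt ℝ ∞ f x) :
    ∃ g : E → G, ContDiff ℝ ∞ g ∧ HasCompactSupport g ∧ (∀ x ∈ K, g x = f x) ∧
      ∀ x ∉ U, g x = 0 := by
  obtain ⟨K', h1, h2, h3⟩ := exists_compact_between hK hU hKU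
  obtain ⟨χ, c1, c2, -⟩ := exists_contMDiffMap_one_nhds_of_subset_interior
    (modelWithCornersSelf ℝ E) (n := ⊤) hK.isClosed h2
  refine ⟨fun x => χ x • f x, contDiff_iff_contDiffAt.2 fun x => ?_,
    HasCompactSupport.intro h1 fun x hx => by simp [c2 x hx],
    fun x hx => by simp [c1.self_of_nhdsSet x hx], fun x hx => by simp [c2 x fun h => hx (h3 h)]⟩
  by_cases hx : x ∈ K'
  · exact χ.contMDiff.contDiff.contDiffAt.smul (hf x (h3 hx))
  · refine (contDiffAt_const (c := 0)).congr_of_eventuallyEq ?_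
    filter_upwards [h1.isClosed.isOpen_compl.mem_nhds hx] with y hy
    simp [c2 y hy]

section
variable {μ : Measure ℝ} {u : ℝ → ℝ} {T : Set ℝ}

theorem integrable_smul (hu : Integrable u μ) (hT : ∀ᵐ t ∂μ, t ∈ T) {f : ℝ → G} (hf : Continuous f)
    {C : ℝ} (hC : ∀ t ∈ T, ‖f t‖ ≤ C) : Integrable (fun t => u t • f t) μ :=
  (hu.norm.mul_const C).mono' (hu.1.smul hf.aestronglyMeasurable) (hT.mono fun t ht => by
    rw [norm_smul]
    exact mul_le_mul_of_nonneg_left (hC t ht) (norm_nonneg _))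

theorem contDiff_slice {Φ : ℝ × E → G} (hΦ : ContDiff ℝ ∞ Φ) :
    ContDiff ℝ ∞ fun x : ℝ × E => fderiv ℝ (fun p => Φ (x.1, p)) x.2 :=
  ContDiff.fderiv (f := fun (x : ℝ × E) p => Φ (x.1, p)) (m := ∞)
    (hΦ.comp (contDiff_fst.fst.prodMk contDiff_snd)) contDiff_snd le_rfl

theorem hasFDerivAt_int (hu : Integrable u μ) (hT : ∀ᵐ t ∂μ, t ∈ T) {Φ : ℝ × E → G}
    (hΦ : ContDiff ℝ ∞ Φ) (h : BB 0 1 (fun (t : T) p => Φ (t, p))) (p : E) :
    HasFDerivAt (fun p => ∫ t, u t • Φ (t, p) ∂μ)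
      (∫ t, u t • fderiv ℝ (fun p => Φ (t, p)) p ∂μ) p := by
  obtain ⟨C, -, hC⟩ := h.abs_le
  obtain ⟨C', -, hC'⟩ := h.weak.fderiv.abs_le
  refine hasFDerivAt_integral_of_dominated_of_fderiv_le (s := univ) (bound := fun t => ‖u t‖ * C')
    (F' := fun p t => u t • fderiv ℝ (fun p => Φ (t, p)) p) univ_mem
    (Eventually.of_forall fun x => hu.1.smul
      (hΦ.continuous.comp (by fun_prop)).aestronglyMeasurable)
    (integrable_smul hu hT (hΦ.continuous.comp (by fun_prop)) (C := C * 1) fun t ht => hC ⟨t, ht⟩ p)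
    (hu.1.smul ((contDiff_slice hΦ).continuous.comp
      (continuous_id.prodMk continuous_const)).aestronglyMeasurable)
    (hT.mono fun t ht x _ => ?_) (hu.norm.mul_const C') (hT.mono fun t ht x _ => ?_)
  · rw [norm_smul]
    exact mul_le_mul_of_nonneg_left (by simpa using hC' ⟨t, ht⟩ x) (norm_nonneg _)
  · exact ((h.sm ⟨t, ht⟩).differentiable (by simp) x).hasFDerivAt.const_smul (u t)

theorem int_aux (hu : Integrable u μ) (hT : ∀ᵐ t ∂μ, t ∈ T) (n : ℕ) :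
    ∀ (G : Type) [NormedAddCommGroup G] [NormedSpace ℝ G] (Φ : ℝ × E → G), ContDiff ℝ ∞ Φ →
      BB 0 1 (fun (t : T) p => Φ (t, p)) → ContDiff ℝ n (fun p => ∫ t, u t • Φ (t, p) ∂μ) ∧
      ∀ C p, (∀ t ∈ T, ‖iteratedFDeriv ℝ n (fun p => Φ (t, p)) p‖ ≤ C) →
        ‖iteratedFDeriv ℝ n (fun p => ∫ t, u t • Φ (t, p) ∂μ) p‖ ≤ (∫ t, ‖u t‖ ∂μ) * C := by
  induction n with
  | zero =>
    intro G _ _ Φ hΦ h
    refine ⟨contDiff_zero.2 (continuous_iff_continuousAt.2 fun p =>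
      (hasFDerivAt_int hu hT hΦ h p).continuousAt), fun C p hC => ?_⟩
    rw [norm_iteratedFDeriv_zero, ← integral_mul_const]
    refine norm_integral_le_of_norm_le (hu.norm.mul_const C) (hT.mono fun t ht => ?_)
    rw [norm_smul]
    exact mul_le_mul_of_nonneg_left (by simpa using hC t ht) (norm_nonneg _)
  | succ n ih =>
    intro G _ _ Φ hΦ h
    obtain ⟨h1, h2⟩ := ih _ _ (contDiff_slice hΦ) h.weak.fderiv
    refine ⟨contDiff_succ_iff_hasFDerivAt.2 ⟨_, h1, hasFDerivAt_int hu hT hΦ h⟩, fun C p hC => ?_⟩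
    rw [← norm_iteratedFDeriv_fderiv, funext fun p => (hasFDerivAt_int hu hT hΦ h p).fderiv]
    exact h2 C p fun t ht => by simpa only [norm_iteratedFDeriv_fderiv] using hC t ht

theorem BB.slice {ε : ι → ℝ} {Φ : ι → ℝ × E → G}
    (h : BB 0 (fun j : ι × T => ε j.1) (fun j p => Φ j.1 (j.2, p))) (j : ι) :
    BB 0 1 (fun (t : T) p => Φ j (t, p)) :=
  ⟨fun _ => zero_le_one, fun t => h.sm (j, t), fun i hi => by
    obtain ⟨C, h1, h2⟩ := h.bd i hi
    exact ⟨|C * ε j|, abs_nonneg _, fun t p => by simpa using (h2 (j, t) p).trans (le_abs_self _)⟩⟩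

theorem BB.int (hu : Integrable u μ) (hT : ∀ᵐ t ∂μ, t ∈ T) {ε : ι → ℝ} (hε : ∀ j, 0 ≤ ε j)
    {Φ : ι → ℝ × E → G} (hΦ : ∀ j, ContDiff ℝ ∞ (Φ j))
    (h : BB 0 (fun j : ι × T => ε j.1) (fun j p => Φ j.1 (j.2, p))) :
    BB 0 ε (fun j p => ∫ t, u t • Φ j (t, p) ∂μ) :=
  ⟨hε, fun j => contDiff_infty.2 fun n => (int_aux hu hT n G _ (hΦ j) (h.slice j)).1, fun i hi => by
    obtain ⟨C, h1, h2⟩ := h.bd i hi
    refine ⟨(∫ t, ‖u t‖ ∂μ) * C, mul_nonneg (integral_nonneg fun _ => norm_nonneg _) h1,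
      fun j p => ?_⟩
    rw [mul_assoc]
    exact (int_aux hu hT i G _ (hΦ j) (h.slice j)).2 _ p fun t ht => h2 (j, ⟨t, ht⟩) p⟩

end

end Pool.Agent.Lib.MP_2fa2a2_gt.PI.Sta
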