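import Pool.Agent.Lib.MP_2fa2a2_gt.PI.StatAX

/-! Periodic families with mean zero; the non stationary phase lemma. -/

namespace Pool.Agent.Lib.MP_2fa2a2_gt.PI.Sta

open Real Filter Set MeasureTheory Topology
open scoped ContDiff

variable {ι ι' F F' : Type} [NormedAddCommGroup F] [NormedSpace ℝ F] [NormedAddCommGroup F']
  [NormedSpace ℝ F']

theorem fderiv_int {μ : Measure ℝ} {u : ℝ → ℝ} {T : Set ℝ} (hu : Integrable u μ)
    (hT : ∀ᵐ t ∂μ, t ∈ T) {Φ : ℝ × F → ℝ} (hΦ : ContDiff ℝ ∞ Φ)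
    (h : BB 0 1 (fun (t : T) p => Φ (t, p))) (p v : F) :
    fderiv ℝ (fun p => ∫ t, u t • Φ (t, p) ∂μ) p v
      = ∫ t, u t • fderiv ℝ (fun p => Φ (t, p)) p v ∂μ := by
  obtain ⟨C, -, hC⟩ := h.weak.fderiv.abs_le
  rw [(hasFDerivAt_int hu hT hΦ h p).fderiv, ContinuousLinearMap.integral_apply
    (integrable_smul hu hT (f := fun t => fderiv ℝ (fun p => Φ (t, p)) p)
      ((contDiff_slice hΦ).continuous.comp (continuous_id.prodMk continuous_const))
      (C := C * 1) fun t ht => hC ⟨t, ht⟩ p)]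
  rfl

/-- periodic families with mean zero in the last variable -/
structure KK (ε : ι → ℝ) (β : ι → F × ℝ → ℝ) : Prop where
  bb : BB 0 ε β
  per : ∀ j y s, β j (y, s + 2 * π) = β j (y, s)
  mz : ∀ j y, ∫ s in (0 : ℝ)..2 * π, β j (y, s) = 0

/-- directional derivative -/
noncomputable def dir (v : F × ℝ) (β : ι → F × ℝ → ℝ) : ι → F × ℝ → ℝ :=
  fun j p => fderiv ℝ (β j) p v

/-- the primitive with mean zero -/
noncomputable def sv (β : ι → F × ℝ → ℝ) : ι → F × ℝ → ℝ :=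
  fun j p => ∫ t in Ioc 0 (2 * π), ((2 * π)⁻¹ * t) • β j (p.1, p.2 + t)

/-- vanishing outside of given sets -/
def Van (K : ι → Set F) (β : ι → F × ℝ → ℝ) : Prop := ∀ j, ∀ y ∉ K j, ∀ s, β j (y, s) = 0

variable {ε : ι → ℝ} {β : ι → F × ℝ → ℝ} {K : ι → Set F}

theorem KK.reindex (h : KK ε β) (f : ι' → ι) : KK (fun j => ε (f j)) (fun j => β (f j)) :=
  ⟨h.bb.reindex f, fun _ => h.per _, fun _ => h.mz _⟩

theorem KK.shift (h : KK ε β) (j : ι) (y : F) (c : ℝ) :
    ∫ s in (0 : ℝ)..2 * π, β j (y, s + c) = 0 := by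
  rw [intervalIntegral.integral_comp_add_right (fun s => β j (y, s)), zero_add, add_comm,
    Function.Periodic.intervalIntegral_add_eq (f := fun s => β j (y, s)) (h.per j y) c 0, zero_add,
    h.mz]

theorem KK.comp (h : KK ε β) {Λ : ι → F' → F} (hΛ : BB 1 1 (fun j (p : F' × ℝ) => Λ j p.1))
    (c : ι → ℝ) : KK ε (fun j (p : F' × ℝ) => β j (Λ j p.1, p.2 + c j)) :=
  ⟨h.bb.comp (hΛ.prod ((BB.lin' (ContinuousLinearMap.snd ℝ F' ℝ)).add (BB.const1 c))),
    fun j y s => by rw [← h.per j _ (s + c j), add_right_comm], fun j y => h.shift j (Λ j y) (c j)⟩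

theorem KK.mul (h : KK ε β) {a : ι → F → ℝ} (ha : BB 0 1 a) :
    KK ε (fun j p => a j p.1 * β j p) :=
  ⟨(ha.comp (BB.lin' (ContinuousLinearMap.fst ℝ F ℝ))).smul h.bb, fun j y s => by rw [h.per],
    fun j y => by simp [h.mz]⟩

theorem KK.int {μ : Measure ℝ} [SFinite μ] {u : ℝ → ℝ} {T : Set ℝ} (hu : Integrable u μ)
    (hT : ∀ᵐ t ∂μ, t ∈ T) (hε : ∀ j, 0 ≤ ε j) {Φ : ι → ℝ × (F × ℝ) → ℝ}
    (hΦ : ∀ j, ContDiff ℝ ∞ (Φ j))
    (h : KK (fun j : ι × T => ε j.1) (fun j p => Φ j.1 (j.2, p))) :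
    KK ε (fun j p => ∫ t, u t • Φ j (t, p) ∂μ) := by
  refine ⟨BB.int hu hT hε hΦ h.bb, fun j y s => integral_congr_ae (hT.mono fun t ht => ?_),
    fun j y => ?_⟩
  · exact congrArg (u t • ·) (h.per (j, ⟨t, ht⟩) y s)
  obtain ⟨C, -, hC⟩ := h.bb.abs_le
  rw [intervalIntegral.integral_of_le two_pi_pos.le, integral_integral_swap]
  · refine (integral_congr_ae (hT.mono fun t ht => ?_)).trans (integral_zero _ _)
    have := h.mz (j, ⟨t, ht⟩) y
    rw [intervalIntegral.integral_of_le two_pi_pos.le] at this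
    simp only [integral_smul, this, smul_zero]
  · refine ((integrable_const (C * ε j)).mul_prod hu.norm).mono'
      (hu.1.comp_snd.smul ((hΦ j).continuous.comp (by fun_prop)).aestronglyMeasurable)
      ((Measure.quasiMeasurePreserving_snd.ae hT).mono fun z hz => ?_)
    rw [Function.uncurry, norm_smul, mul_comm]
    exact mul_le_mul_of_nonneg_right (hC (j, ⟨z.2, hz⟩) (y, z.1)) (norm_nonneg _)

theorem KK.tr (h : KK ε β) :
    KK (fun j : ι × (univ : Set ℝ) => ε j.1) (fun j p => β j.1 (p.1, p.2 + j.2)) :=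
  (h.reindex Prod.fst).comp (Λ := fun _ y => y) (BB.lin' (ContinuousLinearMap.fst ℝ F ℝ)) _

theorem fderiv_tr (f : F × ℝ → ℝ) (t : ℝ) (p : F × ℝ) :
    fderiv ℝ (fun p : F × ℝ => f (p.1, p.2 + t)) p = fderiv ℝ f (p.1, p.2 + t) := by
  have e : ∀ p : F × ℝ, (p.1, p.2 + t) = p + (0, t) := fun p => by simp [Prod.ext_iff]
  simp only [e, fderiv_comp_add_right]

theorem KK.dir (h : KK ε β) (v : F × ℝ) : KK ε (dir v β) := by
  refine ⟨h.bb.weak.fderiv.clm (ContinuousLinearMap.apply ℝ ℝ v), fun j y s => ?_, fun j y => ?_⟩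
  · have := fderiv_tr (β j) (2 * π) (y, s)
    simp only [h.per] at this
    exact congrArg (· v) this.symm
  · have := fderiv_int (μ := volume.restrict (Ioc 0 (2 * π))) (integrable_const (1 : ℝ))
      (T := univ) (by simp) (Φ := fun x : ℝ × (F × ℝ) => β j (x.2.1, x.2.2 + x.1))
      ((h.bb.sm j).comp (by fun_prop))
      (BB.slice (Φ := fun j (x : ℝ × (F × ℝ)) => β j (x.2.1, x.2.2 + x.1)) h.tr.bb j) (y, 0) v
    simp only [one_smul, ← intervalIntegral.integral_of_le two_pi_pos.le, fderiv_tr, zero_add]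
      at this
    simpa [Sta.dir, fun p : F × ℝ => (intervalIntegral.integral_congr fun t _ =>
      congrArg (fun z => β j (p.1, z)) (add_comm p.2 t)).trans (h.shift j p.1 p.2)] using this.symm

theorem KK.sv (h : KK ε β) : KK ε (sv β) :=
  KK.int (Φ := fun j (x : ℝ × (F × ℝ)) => β j (x.2.1, x.2.2 + x.1))
    (Continuous.integrableOn_Ioc (by fun_prop)) (by simp) h.bb.nn
    (fun j => (h.bb.sm j).comp (by fun_prop)) h.tr

theorem KK.hasDerivAt_sv (h : KK ε β) (j : ι) (y : F) (s : ℝ) :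
    HasDerivAt (fun s => Sta.sv β j (y, s)) (β j (y, s)) s := by
  have hc := (h.bb.sm j).continuous
  have hc' : Continuous fun v => v * β j (y, v) := by fun_prop
  have hP := fun x => (hc'.integral_hasStrictDerivAt 0 x).hasDerivAt
  have e : ∀ s, Sta.sv β j (y, s) = (2 * π)⁻¹ * ((∫ v in (0 : ℝ)..s + 2 * π, v * β j (y, v))
      - ∫ v in (0 : ℝ)..s, v * β j (y, v)) := fun s => by
    have h1 := intervalIntegral.integral_comp_add_right (a := 0) (b := 2 * π)
      (fun v => v * β j (y, v)) s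
    rw [intervalIntegral.integral_interval_sub_left (hc'.intervalIntegrable _ _)
      (hc'.intervalIntegrable _ _), add_comm s]
    rw [zero_add] at h1
    rw [← h1, Sta.sv, ← intervalIntegral.integral_of_le two_pi_pos.le]
    simp only [add_mul, smul_eq_mul, mul_assoc, add_comm s]
    rw [intervalIntegral.integral_add (Continuous.intervalIntegrable (by fun_prop) _ _)
      (Continuous.intervalIntegrable (by fun_prop) _ _)]
    simp [h.shift]
  simp only [e]
  refine (((hP (s + 2 * π)).comp_add_const s _).sub (hP s)).const_mul _ |>.congr_deriv ?_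
  rw [h.per]
  field_simp
  ring

omit [NormedAddCommGroup F] [NormedSpace ℝ F] in
theorem Van.sv (h : Van K β) : Van K (sv β) := fun j y hy s => by simp [Sta.sv, h j y hy]

omit [NormedAddCommGroup F] [NormedSpace ℝ F] in
theorem Van.mul (h : Van K β) (a : ι → F → ℝ) : Van K (fun j p => a j p.1 * β j p) :=
  fun j y hy s => by simp [h j y hy]

theorem Van.dir (h : Van K β) (hK : ∀ j, IsClosed (K j)) (v : F × ℝ) : Van K (dir v β) :=
  fun j y hy s => by
    have : β j =ᶠ[𝓝 (y, s)] fun _ => 0 := by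
      filter_upwards [((hK j).isOpen_compl.preimage continuous_fst).mem_nhds hy] with p hp
      exact h j p.1 hp p.2
    simp [Sta.dir, this.fderiv_eq]

theorem fderiv_snd_eq {γ : F × ℝ → ℝ} (hγ : ContDiff ℝ ∞ γ) {y : F} {s d : ℝ}
    (h : HasDerivAt (fun s => γ (y, s)) d s) : fderiv ℝ γ (y, s) (0, 1) = d :=
  ((hγ.differentiable (by simp) (y, s)).hasFDerivAt.comp_hasDerivAt s
    ((hasDerivAt_const s y).prodMk (hasDerivAt_id s))).unique h

theorem hasDerivAt_ph {γ : ι → ℝ × ℝ → ℝ} {K : ι → Set ℝ} (hK : ∀ j, IsClosed (K j)) (h0 : Van K γ)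
    {j : ι} (hγ : ContDiff ℝ ∞ (γ j)) {φ : ℝ → ℝ} {y D : ℝ} (hφ : y ∈ K j → HasDerivAt φ D y) :
    HasDerivAt (fun y => γ j (y, φ y))
      (dir (1, 0) γ j (y, φ y) + D * dir (0, 1) γ j (y, φ y)) y := by
  by_cases hy : y ∈ K j
  · refine ((hγ.differentiable (by simp) (y, φ y)).hasFDerivAt.comp_hasDerivAt y
      ((hasDerivAt_id y).prodMk (hφ hy))).congr_deriv ?_
    rw [dir, dir, ← smul_eq_mul, ← map_smul, ← map_add]
    simp
  · rw [h0.dir hK _ j y hy, h0.dir hK _ j y hy, mul_zero, add_zero]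
    refine (hasDerivAt_const y 0).congr_of_eventuallyEq ?_
    filter_upwards [(hK j).isOpen_compl.mem_nhds hy] with z hz
    exact h0 j z hz _

/-- data for the non stationary phase lemma -/
structure NSD (a b : ι → ℝ) (K : ι → Set ℝ) (φ : ι → ℝ → ℝ) : Prop where
  cl : ∀ j, IsClosed (K j)
  ha : ∀ j, a j ∉ K j
  hb : ∀ j, b j ∉ K j
  len : ∀ j, |b j - a j| ≤ π
  ex : ∃ D k : ι → ℝ → ℝ, BB 0 1 k ∧ ∀ j, ∀ y ∈ uIcc (a j) (b j), y ∈ K j →
    HasDerivAt (φ j) (D j y) y ∧ k j y * D j y = 1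

theorem NSD.ii {a b : ι → ℝ} {K : ι → Set ℝ} {φ : ι → ℝ → ℝ} (h : NSD a b K φ)
    {β : ι → ℝ × ℝ → ℝ} (hβ : KK ε β) (h0 : Van K β) (j : ι) (S M : ℝ) :
    IntervalIntegrable (fun y => β j (y, S + M * φ j y)) volume (a j) (b j) := by
  obtain ⟨D, k, -, hD⟩ := h.ex
  exact ContinuousOn.intervalIntegrable fun y hy => (hasDerivAt_ph h.cl h0 (hβ.bb.sm j) fun hK =>
    ((hD j y hy hK).1.const_mul M).const_add S).continuousAt.continuousWithinAt

theorem NSD.bound {a b : ι → ℝ} {K : ι → Set ℝ} {φ : ι → ℝ → ℝ} (h : NSD a b K φ) (M : ι → ℝ)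
    (N : ℕ) : ∀ β : ι → ℝ × ℝ → ℝ, KK ε β → Van K β → ∃ C, 0 ≤ C ∧ ∀ j S,
      |M j| ^ N * |∫ y in a j..b j, β j (y, S + M j * φ j y)| ≤ C * ε j := by
  induction N with
  | zero =>
    intro β hβ _
    obtain ⟨C, h1, h2⟩ := hβ.bb.abs_le
    refine ⟨C * π, by positivity, fun j S => ?_⟩
    rw [pow_zero, one_mul, mul_right_comm]
    exact (intervalIntegral.norm_integral_le_of_norm_le_const fun y _ => h2 j _).trans
      (mul_le_mul_of_nonneg_left (h.len j) (mul_nonneg h1 (hβ.bb.nn j)))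
  | succ N ih =>
    intro β hβ h0
    obtain ⟨D, k, hk, hD⟩ := h.ex
    have g1 := hβ.sv.mul hk
    have g2 := h0.sv.mul k
    obtain ⟨C, h1, h2⟩ := ih _ (g1.dir (1, 0)) (g2.dir h.cl _)
    refine ⟨C, h1, fun j S => le_of_eq_of_le ?_ (h2 j S)⟩
    have i1 := h.ii (g1.dir (1, 0)) (g2.dir h.cl _) j S (M j)
    have i2 := (h.ii hβ h0 j S (M j)).const_mul (M j)
    have := intervalIntegral.integral_eq_sub_of_hasDerivAt (fun y hy =>
      (hasDerivAt_ph h.cl g2 (g1.bb.sm j) (φ := fun y => S + M j * φ j y) fun hK =>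
        ((hD j y hy hK).1.const_mul (M j)).const_add S).congr_deriv
        (show _ = _ + M j * β j (y, S + M j * φ j y) by
          rw [dir, dir, fderiv_snd_eq (g1.bb.sm j) ((hβ.hasDerivAt_sv j y _).const_mul (k j y))]
          by_cases hK : y ∈ K j
          · linear_combination M j * β j (y, S + M j * φ j y) * (hD j y hy hK).2
          · simp [h0 j y hK])) (i1.add i2)
    rw [intervalIntegral.integral_add i1 i2, intervalIntegral.integral_const_mul,
      h0.sv j _ (h.ha j), h0.sv j _ (h.hb j), mul_zero, mul_zero, sub_zero] at this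
    rw [pow_succ, mul_assoc, ← abs_mul, ← neg_eq_of_add_eq_zero_right this, abs_neg]

end Pool.Agent.Lib.MP_2fa2a2_gt.PI.Sta
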