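import Pool.Agent.Lib.MP_2fa2a2_gt.PI.Zon
import Pool.Agent.Lib.MP_2fa2a2_gt.PI.Cls

/-! Waves on the sphere: definitions and pointwise identities. -/

namespace Pool.Agent.Lib.MP_2fa2a2_gt.PI

open Real Filter Set
open scoped ContDiff

/-- longitude -/
noncomputable def lon (x : S2) : ℝ := Complex.arg ((x : E3) 0 + (x : E3) 1 * Complex.I)

open Classical in
/-- the wave with profile `Φ` and phase `m * (lon + g z)` -/
noncomputable def Wv (g : ℝ → ℝ) (m : ℕ) (Φ : Pf) : Sm :=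
  if h : (fun x : S2 => Φ ((x : E3) 2, m * (lon x + g ((x : E3) 2)))) ∈ smAlg then
    (⟨_, h⟩ : smAlg) else 0

/-- point of the meridian with height `z` -/
noncomputable def pt (z : ℝ) : S2 := nrmz !₂[√(1 - z ^ 2), 0, z]
/-- restriction to the meridian -/
noncomputable def az (a : Sm) (z : ℝ) : ℝ := a (pt z)
/-- even extension -/
noncomputable def evE (φ : Sm) : Sm := φ + ant φ
/-- odd extension -/
noncomputable def odE (φ : Sm) : Sm := φ - ant φ

/-- admissible profile for the wave map -/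
def Adm (g : ℝ → ℝ) (Φ : Pf) : Prop :=
  ContDiff ℝ ∞ g ∧ Per Φ ∧ ∃ z1 z2, -1 < z1 ∧ z2 < 1 ∧ Sup z1 z2 Φ

/-- horizontal part as a complex number -/
noncomputable def wave_w (y : E3) : ℂ := y 0 + y 1 * Complex.I

theorem wave_w_smooth : ContDiff ℝ ∞ wave_w := by
  have h : ∀ a : Fin 3, ContDiff ℝ ∞ fun y : E3 => ((y a : ℝ) : ℂ) := fun a =>
    Complex.ofRealCLM.contDiff.comp (EuclideanSpace.proj a : E3 →L[ℝ] ℝ).contDiff
  exact (h 0).add ((h 1).mul contDiff_const)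

theorem wave_w_eq_zero {y : E3} : wave_w y = 0 ↔ y 0 = 0 ∧ y 1 = 0 := by
  rw [wave_w, Complex.ext_iff]; simp

theorem wave_pole {x : S2} (h : wave_w x = 0) {z1 z2 : ℝ} (h1 : -1 < z1) (h2 : z2 < 1) :
    (x : E3) 2 < z1 ∨ z2 < (x : E3) 2 := by
  obtain ⟨h3, h4⟩ := wave_w_eq_zero.1 h
  have h5 := base_sum_sq x
  rw [h3, h4] at h5
  have h6 : ((x : E3) 2 - 1) * ((x : E3) 2 + 1) = 0 := by linarith
  rcases mul_eq_zero.1 h6 with h7 | h7
  · right; linarith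
  · left; linarith

theorem wave_per {Φ : Pf} (h : Per Φ) (m : ℕ) (z c : ℝ) {a b : ℝ}
    (hab : (a : Real.Angle) = b) : Φ (z, m * (a + c)) = Φ (z, m * (b + c)) := by
  obtain ⟨k, hk⟩ := Real.Angle.angle_eq_iff_two_pi_dvd_sub.1 hab
  have hp : Function.Periodic (fun s => Φ (z, s)) (2 * π) := h.2 z
  have := hp.int_mul (m * k) (m * (b + c))
  rw [← this]
  congr 2
  push_cast
  linear_combination (m : ℝ) * hk

theorem wave_smooth {g : ℝ → ℝ} {Φ : Pf} (m : ℕ) (h : Adm g Φ) (x : S2) :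
    ContDiffAt ℝ ∞ (fun y : E3 => Φ (y 2, m * (Complex.arg (wave_w y) + g (y 2)))) (x : E3) := by
  obtain ⟨hg, hp, z1, z2, h1, h2, hs⟩ := h
  have hc : ContDiff ℝ ∞ fun y : E3 => y 2 := (EuclideanSpace.proj 2 : E3 →L[ℝ] ℝ).contDiff
  by_cases hx : wave_w x = 0
  · have ho : IsOpen {y : E3 | y 2 < z1 ∨ z2 < y 2} :=
      (isOpen_lt hc.continuous continuous_const).union (isOpen_lt continuous_const hc.continuous)
    refine (contDiffAt_const (c := (0 : ℝ))).congr_of_eventuallyEq ?_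
    filter_upwards [ho.mem_nhds (wave_pole hx h1 h2)] with y hy
    refine hs _ _ fun hz => ?_
    rcases hy with hy | hy
    · exact absurd hz.1 (not_le.2 hy)
    · exact absurd hz.2 (not_le.2 hy)
  · have h3 : ContDiffAt ℝ ∞ (fun y : E3 => (Complex.log (wave_w y / wave_w x)).im) (x : E3) := by
      have h4 : ContDiffAt ℝ ∞ Complex.log (wave_w x / wave_w x) := by
        rw [div_self hx]
        exact (Complex.contDiffAt_log Complex.one_mem_slitPlane).restrict_scalars ℝ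
      exact Complex.imCLM.contDiff.contDiffAt.comp _
        (ContDiffAt.comp (f := fun y : E3 => wave_w y / wave_w x) _ h4
          (wave_w_smooth.div_const _).contDiffAt)
    have h5 : ContDiffAt ℝ ∞ (fun y : E3 => Φ (y 2, m * (((Complex.log (wave_w y / wave_w x)).im
        + Complex.arg (wave_w x)) + g (y 2)))) (x : E3) :=
      hp.1.contDiffAt.comp _ (hc.contDiffAt.prodMk (contDiffAt_const.mul
        ((h3.add contDiffAt_const).add (hg.comp hc).contDiffAt)))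
    refine h5.congr_of_eventuallyEq ?_
    filter_upwards [wave_w_smooth.continuous.continuousAt.eventually_ne hx] with y hy
    refine wave_per hp m _ _ ?_
    rw [Complex.log_im, Real.Angle.coe_add, Complex.arg_div_coe_angle hy hx, sub_add_cancel]

theorem pt_coe {z : ℝ} (hz : |z| ≤ 1) : (pt z : E3) = !₂[√(1 - z ^ 2), 0, z] := by
  have h1 : 0 ≤ 1 - z ^ 2 := by rw [← sq_abs]; nlinarith [abs_nonneg z]
  have h : ‖(!₂[√(1 - z ^ 2), 0, z] : E3)‖ = 1 := by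
    rw [EuclideanSpace.norm_eq, Fin.sum_univ_three]
    simp [sq_sqrt h1]
  have h0 : (!₂[√(1 - z ^ 2), 0, z] : E3) ≠ 0 := by
    intro h0; rw [h0, norm_zero] at h; exact zero_ne_one h
  rw [pt, nrmz_val h0, h, inv_one, one_smul]

theorem wave_abs (x : S2) : |(x : E3) 2| ≤ 1 := abs_X_le 2 x

theorem wave_pt2 {z : ℝ} (hz : |z| ≤ 1) : (pt z : E3) 2 = z := by rw [pt_coe hz]; rfl

theorem wave_lon_pt {z : ℝ} (hz : |z| ≤ 1) : lon (pt z) = 0 := by
  rw [lon, pt_coe hz]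
  simp [Complex.arg_ofReal_of_nonneg (sqrt_nonneg (1 - z ^ 2))]

theorem Zon.eq_az {a : Sm} (ha : Zon a) (x : S2) : a x = az a ((x : E3) 2) :=
  ha.eq (wave_pt2 (wave_abs x)).symm

theorem wave_sq {z : ℝ} (hz : |z| < 1) : 0 < 1 - z ^ 2 := by
  rw [← sq_abs]; nlinarith [abs_nonneg z]

theorem az_smooth (a : Sm) {z : ℝ} (hz : |z| < 1) : ContDiffAt ℝ ∞ (az a) z := by
  have h1 : ContDiffAt ℝ ∞ (fun z : ℝ => (!₂[√(1 - z ^ 2), 0, z] : E3)) z := by
    refine contDiffAt_euclidean.2 fun i => ?_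
    rcases alg_fin i with rfl | rfl | rfl
    · exact ContDiffAt.sqrt (f := fun z : ℝ => 1 - z ^ 2) (by fun_prop) (wave_sq hz).ne'
    · exact contDiffAt_const
    · exact contDiffAt_id
  have h0 : (!₂[√(1 - z ^ 2), 0, z] : E3) ≠ 0 := by
    rw [← pt_coe hz.le]; exact base_ne _
  exact ContDiffAt.comp (f := fun z : ℝ => (!₂[√(1 - z ^ 2), 0, z] : E3)) z (a.smoothAt h0) h1

theorem az_Zf {φ : ℝ → ℝ} (hφ : ContDiff ℝ ∞ φ) {z : ℝ} (hz : |z| ≤ 1) : az (Zf φ) z = φ z := by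
  rw [az, Zf_apply hφ, wave_pt2 hz]

theorem az_D2 (a : Sm) {z : ℝ} (hz : |z| < 1) :
    az (D 2 a) z = (1 - z ^ 2) * deriv (az a) z := by
  have hq := wave_sq hz
  have hr : 0 < √(1 - z ^ 2) := sqrt_pos.2 hq
  have h1 : HasDerivAt (fun t : ℝ => (!₂[√(1 - t ^ 2), 0, t] : E3))
      (!₂[-z / √(1 - z ^ 2), 0, 1] : E3) z := by
    have h2 : HasDerivAt (fun t : ℝ => √(1 - t ^ 2)) (-z / √(1 - z ^ 2)) z := by
      have h3 : HasDerivAt (fun t : ℝ => 1 - t ^ 2) (-(2 * z)) z := by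
        simpa using (hasDerivAt_pow 2 z).const_sub 1
      refine (h3.sqrt hq.ne').congr_deriv ?_
      field_simp
    have h4 := (h2.smul_const (EuclideanSpace.single (0 : Fin 3) (1 : ℝ))).add
      ((hasDerivAt_id z).smul_const (EuclideanSpace.single (2 : Fin 3) (1 : ℝ)))
    refine (h4.congr_of_eventuallyEq (Eventually.of_forall fun t => ?_)).congr_deriv ?_
    · ext i
      rcases alg_fin i with rfl | rfl | rfl <;> simp
    · ext i
      rcases alg_fin i with rfl | rfl | rfl <;> simp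
  have h5 : HasDerivAt (fun t : ℝ => (pt t : E3)) (!₂[-z / √(1 - z ^ 2), 0, 1] : E3) z := by
    refine h1.congr_of_eventuallyEq ?_
    filter_upwards [(isOpen_lt continuous_abs continuous_const).mem_nhds hz] with t ht
    exact pt_coe (le_of_lt ht)
  have h6 := (hasDerivAt_curve a h5).deriv
  have h7 := congrArg (fun φ : Sm => φ (pt z)) (sum_X_D a)
  simp only [Fin.sum_univ_three, Sm.add_apply, Sm.mul_apply, X_apply, Sm.zero_apply,
    pt_coe hz.le] at h7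
  have e : deriv (az a) z = -z / √(1 - z ^ 2) * D 0 a (pt z) + D 2 a (pt z) := by
    refine h6.trans ?_
    simp [Fin.sum_univ_three]
  have h8 : √(1 - z ^ 2) * D 0 a (pt z) + z * D 2 a (pt z) = 0 := by simpa using h7
  have h9 : √(1 - z ^ 2) * √(1 - z ^ 2) = 1 - z ^ 2 := mul_self_sqrt hq.le
  rw [e, az]
  generalize √(1 - z ^ 2) = r at *
  rw [← h9]
  field_simp
  linear_combination z * h8 - D 2 a (pt z) * h9

theorem evE_mem (φ : Sm) : evE φ ∈ Ev := by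
  rw [mem_Ev, evE, map_add, ant_ant, add_comm]
theorem odE_mem (φ : Sm) : odE φ ∈ Od := by
  rw [mem_Od, odE, map_sub, ant_ant, neg_sub]

theorem wave_polar (x : S2) : rotS (rotZ (lon x)) (pt ((x : E3) 2)) = x := by
  have h : ‖wave_w x‖ = √(1 - (x : E3) 2 ^ 2) := by
    rw [wave_w, Complex.norm_add_mul_I]
    congr 1
    linarith [base_sum_sq x]
  have h0 := Complex.norm_mul_cos_arg (wave_w x)
  have h1 := Complex.norm_mul_sin_arg (wave_w x)
  rw [h] at h0 h1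
  refine Subtype.ext (rotz_ext ?_ ?_ ?_)
  · rw [rotS_coe, rotZ_0, pt_coe (wave_abs x)]
    simpa [wave_w, lon, mul_comm] using h0
  · rw [rotS_coe, rotZ_1, pt_coe (wave_abs x)]
    simpa [wave_w, lon, mul_comm] using h1
  · rw [rotS_coe, rotZ_2, wave_pt2 (wave_abs x)]

section
variable {g : ℝ → ℝ} {Φ Ψ : Pf} (m : ℕ)
theorem Wv_apply (h : Adm g Φ) (x : S2) :
    Wv g m Φ x = Φ ((x : E3) 2, m * (lon x + g ((x : E3) 2))) := by
  have h1 : (fun x : S2 => Φ ((x : E3) 2, m * (lon x + g ((x : E3) 2)))) ∈ smAlg :=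
    (show smAlg from Sm.ofFun _ (wave_smooth m h)).2
  rw [Wv, dif_pos h1]
  rfl
theorem Adm.add (h : Adm g Φ) (h' : Adm g Ψ) : Adm g (Φ + Ψ) := by
  obtain ⟨hg, hp, z1, z2, h1, h2, hs⟩ := h
  obtain ⟨-, hp', z1', z2', h1', h2', hs'⟩ := h'
  refine ⟨hg, hp.add hp', min z1 z1', max z2 z2', lt_min h1 h1', max_lt h2 h2', fun z s hz => ?_⟩
  rw [Pi.add_apply, hs.mono (min_le_left _ _) (le_max_left _ _) z s hz,
    hs'.mono (min_le_right _ _) (le_max_right _ _) z s hz, add_zero]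
theorem Adm.sub (h : Adm g Φ) (h' : Adm g Ψ) : Adm g (Φ - Ψ) := by
  obtain ⟨hg, hp, z1, z2, h1, h2, hs⟩ := h
  obtain ⟨-, hp', z1', z2', h1', h2', hs'⟩ := h'
  refine ⟨hg, hp.sub hp', min z1 z1', max z2 z2', lt_min h1 h1', max_lt h2 h2', fun z s hz => ?_⟩
  rw [Pi.sub_apply, hs.mono (min_le_left _ _) (le_max_left _ _) z s hz,
    hs'.mono (min_le_right _ _) (le_max_right _ _) z s hz, sub_zero]
theorem Adm.smul (h : Adm g Φ) (r : ℝ) : Adm g (r • Φ) := by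
  obtain ⟨hg, hp, z1, z2, h1, h2, hs⟩ := h
  refine ⟨hg, hp.smul r, z1, z2, h1, h2, fun z s hz => ?_⟩
  rw [Pi.smul_apply, hs z s hz, smul_zero]
theorem Adm.per_mul (h : Adm g Φ) (h' : Per Ψ) : Adm g (Ψ * Φ) := by
  obtain ⟨hg, hp, z1, z2, h1, h2, hs⟩ := h
  refine ⟨hg, h'.mul hp, z1, z2, h1, h2, fun z s hz => ?_⟩
  rw [Pi.mul_apply, hs z s hz, mul_zero]
theorem Adm.dz (h : Adm g Φ) : Adm g (dz Φ) := by
  obtain ⟨hg, hp, z1, z2, h1, h2, hs⟩ := h
  exact ⟨hg, hp.dz, z1, z2, h1, h2, hs.dz⟩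
theorem Adm.ds (h : Adm g Φ) : Adm g (ds Φ) := by
  obtain ⟨hg, hp, z1, z2, h1, h2, hs⟩ := h
  exact ⟨hg, hp.ds, z1, z2, h1, h2, hs.ds⟩
theorem wave_Adm_sl {φ : ℝ → ℝ} (h : Adm g Φ) (hφ : ∀ z, |z| < 1 → ContDiffAt ℝ ∞ φ z) :
    Adm g (sl φ * Φ) := by
  obtain ⟨hg, hp, z1, z2, h1, h2, hs⟩ := h
  refine ⟨hg, hp.sl_mul hs fun z hz => hφ z (abs_lt.2 ⟨h1.trans_le hz.1, hz.2.trans_lt h2⟩),
    z1, z2, h1, h2, fun z s hz => ?_⟩
  rw [Pi.mul_apply, hs z s hz, mul_zero]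
theorem Wv_add (h : Adm g Φ) (h' : Adm g Ψ) : Wv g m (Φ + Ψ) = Wv g m Φ + Wv g m Ψ := by
  ext x
  rw [Sm.add_apply, Wv_apply m h, Wv_apply m h', Wv_apply m (h.add h'), Pi.add_apply]
theorem Wv_sub (h : Adm g Φ) (h' : Adm g Ψ) : Wv g m (Φ - Ψ) = Wv g m Φ - Wv g m Ψ := by
  ext x
  rw [Sm.sub_apply, Wv_apply m h, Wv_apply m h', Wv_apply m (h.sub h'), Pi.sub_apply]
theorem Wv_mul (h : Adm g Φ) (h' : Adm g Ψ) : Wv g m (Φ * Ψ) = Wv g m Φ * Wv g m Ψ := by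
  ext x
  rw [Sm.mul_apply, Wv_apply m h, Wv_apply m h', Wv_apply m (h'.per_mul h.2.1), Pi.mul_apply]
theorem Wv_smul (h : Adm g Φ) (r : ℝ) : Wv g m (r • Φ) = r • Wv g m Φ := by
  ext x
  rw [Sm.smul_apply, Wv_apply m h, Wv_apply m (h.smul r), Pi.smul_apply, smul_eq_mul]
theorem Wv_zero (g : ℝ → ℝ) : Wv g m 0 = 0 := by
  rw [Wv]
  split_ifs with h
  · rfl
  · rfl
theorem wave_of_sl {φ : ℝ → ℝ} (h : ContDiff ℝ ∞ (sl φ)) : ContDiff ℝ ∞ φ :=
  h.comp (f := fun z : ℝ => (z, (0 : ℝ))) (contDiff_id.prodMk contDiff_const)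
theorem Wv_sl {φ : ℝ → ℝ} (h : Adm g (sl φ)) : Wv g m (sl φ) = Zf φ := by
  ext x
  rw [Wv_apply m h, Zf_apply (wave_of_sl h.2.1.1)]
  rfl
theorem Wv_sl_mul {φ : ℝ → ℝ} (h : Adm g Φ) (hφ : ContDiff ℝ ∞ φ) :
    Wv g m (sl φ * Φ) = Zf φ * Wv g m Φ := by
  ext x
  rw [Sm.mul_apply, Wv_apply m h, Wv_apply m (h.per_mul (Per_sl hφ)), Zf_apply hφ]
  rfl
theorem Zon.mul_Wv {a : Sm} (ha : Zon a) (h : Adm g Φ) :
    Adm g (sl (az a) * Φ) ∧ a * Wv g m Φ = Wv g m (sl (az a) * Φ) := by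
  have h1 := wave_Adm_sl h fun z hz => az_smooth a hz
  refine ⟨h1, ?_⟩
  ext x
  rw [Sm.mul_apply, Wv_apply m h, Wv_apply m h1, ha.eq_az x]
  rfl
theorem Wv_rotZ (h : Adm g Φ) (x : S2) (θ : ℝ) : Wv g m Φ (rotS (rotZ θ) x)
    = Φ ((x : E3) 2, m * (lon x + g ((x : E3) 2)) + m * θ) := by
  rw [Wv_apply m h, rotS_coe, rotZ_2]
  obtain ⟨hg, hp, z1, z2, h1, h2, hs⟩ := h
  by_cases hx : wave_w x = 0
  · have hz : (x : E3) 2 ∉ Icc z1 z2 := fun hz => by
      rcases wave_pole hx h1 h2 with hy | hy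
      · exact absurd hz.1 (not_le.2 hy)
      · exact absurd hz.2 (not_le.2 hy)
    rw [hs _ _ hz, hs _ _ hz]
  · have e : (m : ℝ) * (lon x + g ((x : E3) 2)) + m * θ = m * ((θ + lon x) + g ((x : E3) 2)) := by
      ring
    rw [e]
    refine wave_per hp m _ _ ?_
    have e2 : wave_w (rotS (rotZ θ) x) = Complex.exp (θ * Complex.I) * wave_w x := by
      rw [Complex.exp_mul_I, wave_w, wave_w, rotS_coe, rotZ_0, rotZ_1]
      push_cast
      linear_combination (-(Complex.sin θ) * ((x : E3) 1 : ℂ)) * Complex.I_mul_I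
    show (Complex.arg (wave_w (rotS (rotZ θ) x)) : Real.Angle) = ↑(θ + Complex.arg (wave_w x))
    rw [e2, Complex.arg_mul_coe_angle (Complex.exp_ne_zero _) hx, Real.Angle.coe_add,
      Complex.arg_exp_mul_I, Real.Angle.coe_toIocMod]
theorem L2_Wv (h : Adm g Φ) : L 2 (Wv g m Φ) = (m : ℝ) • Wv g m (ds Φ) := by
  ext x
  have h1 := hasDerivAt_rotZ (Wv g m Φ) x 0
  rw [rotz_rotS_zero] at h1
  simp only [Wv_rotZ m h] at h1
  have h2 : HasDerivAt (fun θ : ℝ => (m : ℝ) * (lon x + g ((x : E3) 2)) + m * θ) m 0 := by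
    simpa using ((hasDerivAt_id (0 : ℝ)).const_mul (m : ℝ)).const_add
      ((m : ℝ) * (lon x + g ((x : E3) 2)))
  have h3 := (hasDerivAt_ds h.2.1 ((x : E3) 2)
    ((m : ℝ) * (lon x + g ((x : E3) 2)) + m * 0)).comp (0 : ℝ) h2
  rw [h1.unique h3, Sm.smul_apply, Wv_apply m h.ds, mul_zero, add_zero, mul_comm]
theorem D2_Wv (h : Adm g Φ) : D 2 (Wv g m Φ)
    = qq * (Wv g m (dz Φ) + (m : ℝ) • Wv g m (sl (deriv g) * ds Φ)) := by
  ext x
  rw [Sm.mul_apply, zon_qq_apply]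
  rcases (wave_abs x).lt_or_eq with hz | hz
  · have e : D 2 (Wv g m Φ) x = az (D 2 (act (rotZ (lon x)) (Wv g m Φ))) ((x : E3) 2) := by
      rw [D2_rotZ, az, act_apply, wave_polar]
    have h1 : az (act (rotZ (lon x)) (Wv g m Φ)) =ᶠ[nhds ((x : E3) 2)]
        fun t => Φ (t, m * (lon x + g t)) := by
      filter_upwards [(isOpen_lt continuous_abs continuous_const).mem_nhds hz] with t ht
      rw [az, act_apply, Wv_rotZ m h, wave_pt2 (le_of_lt ht), wave_lon_pt (le_of_lt ht)]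
      congr 2
      ring
    have h2 : HasDerivAt (fun t : ℝ => (t, (m : ℝ) * (lon x + g t)))
        ((1 : ℝ), (m : ℝ) * deriv g ((x : E3) 2)) ((x : E3) 2) :=
      (hasDerivAt_id _).prodMk
        ((((h.1.differentiable (by simp)) _).hasDerivAt.const_add _).const_mul _)
    have h3 := (((h.2.1.1.differentiable (by simp)) _).hasFDerivAt.comp_hasDerivAt _ h2).deriv
    have e2 : ((1 : ℝ), (m : ℝ) * deriv g ((x : E3) 2))
        = (1, 0) + ((m : ℝ) * deriv g ((x : E3) 2)) • ((0 : ℝ), (1 : ℝ)) := by simp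
    rw [e2, map_add, map_smul] at h3
    rw [e, az_D2 _ hz, h1.deriv_eq, Sm.add_apply, Sm.smul_apply, Wv_apply m h.dz,
      Wv_apply m (h.ds.per_mul (Per_sl (zon_deriv h.1))), sq]
    congr 1
    refine h3.trans ?_
    simp only [dz, ds, sl, Pi.mul_apply, smul_eq_mul]
    ring
  · have h1 : (x : E3) 2 * (x : E3) 2 = 1 := by rw [← abs_mul_abs_self, hz, one_mul]
    have h2 := base_sum_sq x
    have h3 : (x : E3) 0 = 0 := by nlinarith [mul_self_nonneg ((x : E3) 1)]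
    have h4 : (x : E3) 1 = 0 := by nlinarith [mul_self_nonneg ((x : E3) 0)]
    rw [h1, alg_D2]
    simp [h3, h4]
theorem Wv_mem_Zi (h : Adm g Φ) : Wv g m Φ ∈ Zi m := by
  rw [mem_Zi]
  ext x
  rw [act_apply, Wv_rotZ m h, Wv_apply m h]
  rcases Nat.eq_zero_or_pos m with rfl | hm
  · simp
  · have : (m : ℝ) ≠ 0 := by positivity
    rw [mul_div_cancel₀ _ this, h.2.1.2]
end

end Pool.Agent.Lib.MP_2fa2a2_gt.PI
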