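import Pool.Agent.Lib.MP_2fa2a2_gt.PI.SWkb

/-! Calculus of configurations for the iteration. -/

namespace Pool.Agent.Lib.MP_2fa2a2_gt.PI

open Real Filter Set
open scoped ContDiff

/-- families of profiles with mean zero -/
def WkPM (z1 z2 α : ℝ) (Φ : ℕ → Pf) : Prop := PF z1 z2 α Φ ∧ ∀ m, Mz (Φ m)
/-- slow zonal even families -/
def WkZS (α : ℝ) (Y : ℕ → Sm) : Prop := SO α Y ∧ ∀ m, Zon (Y m) ∧ Y m ∈ Ev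
/-- even output wave -/
noncomputable def wkE (w : WG) (Θ : ℝ → ℝ) (m : ℕ) (Ψ : Pf) : Sm := evE (w.Wo Θ m Ψ)
/-- sum of configurations -/
noncomputable def wkAdd (c c' : Cf) : Cf :=
  ⟨fun m => c.a m + c'.a m, fun m => c.o m + c'.o m, fun m => c.e m + c'.e m⟩

section
variable {Φ Ψ : ℕ → Pf} {z1 z2 z1' z2' α β : ℝ} {Y Y' : ℕ → Sm}

theorem wk_mz {Φ : Pf} (h : Mz Φ) (φ : ℝ → ℝ) : Mz (sl φ * Φ) := fun z => by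
  rw [mean_sl_mul, h z, mul_zero]
theorem WkPM.mono (h : WkPM z1 z2 α Φ) (h1 : z1' ≤ z1) (h2 : z2 ≤ z2') (hβ : β ≤ α) :
    WkPM z1' z2' β Φ := ⟨h.1.mono h1 h2 hβ, h.2⟩
theorem WkPM.add (h : WkPM z1 z2 α Φ) (h' : WkPM z1 z2 α Ψ) :
    WkPM z1 z2 α (fun m => Φ m + Ψ m) := ⟨h.1.add h'.1, fun m z => by
  rw [mean_add (h.1.1 m).1 (h'.1.1 m).1, h.2, h'.2, add_zero]⟩
theorem WkPM.sub (h : WkPM z1 z2 α Φ) (h' : WkPM z1 z2 α Ψ) :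
    WkPM z1 z2 α (fun m => Φ m - Ψ m) := ⟨h.1.sub h'.1, fun m z => by
  rw [mean_sub (h.1.1 m).1 (h'.1.1 m).1, h.2, h'.2, sub_zero]⟩
theorem WkPM.smul (h : WkPM z1 z2 α Φ) (r : ℝ) : WkPM z1 z2 α (fun m => r • Φ m) :=
  ⟨h.1.smul r, fun m z => by rw [mean_smul, h.2, mul_zero]⟩
theorem WkPM.sl_mul {φ : ℝ → ℝ} (h : WkPM z1 z2 α Φ) (hφ : ∀ z ∈ Icc z1 z2, ContDiffAt ℝ ∞ φ z) :
    WkPM z1 z2 α (fun m => sl φ * Φ m) := ⟨h.1.sl_mul hφ, fun m => wk_mz (h.2 m) φ⟩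
theorem WkPM.az_mul {a : ℕ → Sm} (h : WkPM z1 z2 α Φ) (ha : SO β a) (h1 : -1 < z1) (h2 : z2 < 1) :
    WkPM z1 z2 (β + α) (fun m => sl (az (a m)) * Φ m) :=
  ⟨h.1.az_mul ha h1 h2, fun m => wk_mz (h.2 m) _⟩
theorem WkPM.jg (h : WkPM z1 z2 α Φ) : WkPM z1 z2 (α + 1 / 2) (fun m => JG m (Φ m)) :=
  ⟨h.1.JG h.2, fun m => (h.2 m).JG m (h.1.1 m).1⟩
theorem WkPM.jsh (h : WkPM z1 z2 α Φ) : WkPM z1 z2 (α - 1 / 2) (fun m => Jsh m (Φ m)) :=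
  ⟨h.1.Jsh h.2, fun m => (h.2 m).Jsh m (h.1.1 m).1⟩
theorem WkPM.sinv (h : WkPM z1 z2 α Φ) : WkPM z1 z2 α (fun m => sinv (Φ m)) :=
  ⟨h.1.sinv h.2, fun m => Mz_sinv (h.1.1 m).1⟩
theorem wk_ds (h : PF z1 z2 α Φ) : WkPM z1 z2 α (fun m => ds (Φ m)) :=
  ⟨h.ds, fun m => Mz_ds (h.1 m).1⟩
theorem wk_osc (h : PF z1 z2 α Φ) : WkPM z1 z2 α (fun m => osc (Φ m)) :=
  ⟨h.osc, fun m => Mz_osc (h.1 m).1⟩
theorem wk_pm0 (z1 z2 α : ℝ) : WkPM z1 z2 α (fun _ => 0) :=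
  ⟨PF.zero _ _ _, fun _ z => by simp [mean]⟩

theorem WkZS.mono (h : WkZS α Y) (hβ : β ≤ α) : WkZS β Y := ⟨h.1.mono hβ, h.2⟩
theorem WkZS.add (h : WkZS α Y) (h' : WkZS α Y') : WkZS α (fun m => Y m + Y' m) :=
  ⟨h.1.add h'.1, fun m => ⟨(h.2 m).1.add (h'.2 m).1, Ev.add_mem (h.2 m).2 (h'.2 m).2⟩⟩
theorem WkZS.smul (h : WkZS α Y) (r : ℝ) : WkZS α (fun m => r • Y m) :=
  ⟨h.1.smul r, fun m => ⟨(h.2 m).1.smul r, Ev.smul_mem r (h.2 m).2⟩⟩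
theorem WkZS.mul (h : WkZS α Y) (h' : WkZS β Y') : WkZS (α + β) (fun m => Y m * Y' m) :=
  ⟨h.1.mul h'.1, fun m => ⟨(h.2 m).1.mul (h'.2 m).1, by
    rw [mem_Ev, map_mul, mem_Ev.1 (h.2 m).2, mem_Ev.1 (h'.2 m).2]⟩⟩
theorem WkZS.fn (h : WkZS α Y) {c : ℕ → ℝ} (hc : PG c) : WkZS α (fun m => fn c (Y m)) :=
  ⟨h.1.fn hc, fun m => ⟨(h.2 m).1.fn c, fn_mem_Ev c (h.2 m).2⟩⟩
theorem wk_const {φ : Sm} (h : Zon φ) (h' : φ ∈ Ev) : WkZS 0 (fun _ => φ) :=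
  ⟨SO.const φ, fun _ => ⟨h, h'⟩⟩
theorem wk_XX : WkZS 0 (fun _ => X 2 * X 2) :=
  wk_const (Zon_X2.mul Zon_X2) (by rw [mem_Ev, map_mul, ant_X, neg_mul_neg])
theorem wk_Zf {φ : ℕ → ℝ → ℝ} (h : PF z1 z2 α (fun m => sl (φ m))) :
    WkZS α (fun m => evE (Zf (φ m))) :=
  ⟨h.SO.add h.SO.ant, fun _ => ⟨(Zon_Zf _).add (Zon_Zf _).ant, evE_mem _⟩⟩
theorem wk_zs0 (α : ℝ) : WkZS α (fun _ => 0) :=
  ⟨fun k => ⟨0, Eventually.of_forall fun m v _ x => by simp⟩,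
    fun _ => ⟨by simpa using Zon_one.smul 0, Ev.zero_mem⟩⟩
theorem wk_ng {F G : ℕ → Sm} (h : Ng F) (e : ∀ m, F m = G m) : Ng G := funext e ▸ h
theorem wk_ng_add {F G : ℕ → Sm} (h : Ng F) (h' : Ng G) : Ng (fun m => F m + G m) :=
  fun N => (h N).add (h' N)

theorem Cf.Ok.zs {c : Cf} (h : c.Ok z1 z2 α) : WkZS α c.a :=
  ⟨h.a_ord, fun m => ⟨h.a_zon m, h.a_even m⟩⟩
theorem wk_ok {c : Cf} (ha : WkZS α c.a) (ho : WkPM z1 z2 α c.o) (he : WkPM z1 z2 α c.e) :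
    c.Ok z1 z2 α := ⟨ha.1, fun m => (ha.2 m).1, fun m => (ha.2 m).2, ho.1, he.1, ho.2, he.2⟩
theorem Cf.Ok.wmono {c : Cf} (h : c.Ok z1 z2 α) (h1 : z1' ≤ z1) (h2 : z2 ≤ z2') (hβ : β ≤ α) :
    c.Ok z1' z2' β := wk_ok (h.zs.mono hβ) (WkPM.mono ⟨h.o_ord, h.o_mean⟩ h1 h2 hβ)
  (WkPM.mono ⟨h.e_ord, h.e_mean⟩ h1 h2 hβ)
theorem Cf.Ok.wadd {c c' : Cf} (h : c.Ok z1 z2 α) (h' : c'.Ok z1 z2 α) :
    (wkAdd c c').Ok z1 z2 α := wk_ok (h.zs.add h'.zs)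
  (WkPM.add ⟨h.o_ord, h.o_mean⟩ ⟨h'.o_ord, h'.o_mean⟩)
  (WkPM.add ⟨h.e_ord, h.e_mean⟩ ⟨h'.e_ord, h'.e_mean⟩)

/-- division by the square of the height in families -/
theorem wk_div (h : WkZS α Y) : ∃ (b : ℕ → Sm) (c : ℕ → ℝ), WkZS α b ∧
    ∀ m, X 2 * X 2 * b m = Y m - algebraMap ℝ Sm (c m) := by
  choose b c h1 h2 h3 using fun m => exists_div (h.2 m).1 (h.2 m).2
  refine ⟨b, c, ⟨fun k => ?_, fun m => ⟨h1 m, h2 m⟩⟩, h3⟩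
  obtain ⟨C, -, hC⟩ := Cb_div k
  obtain ⟨C', hC'⟩ := h.1 (k + 2)
  exact ⟨C * C', hC'.mono fun m hm => mul_assoc C C' _ ▸ (hC (h.2 m).1 (h3 m) hm).1⟩
end

section
variable {w : WG} (hw : w.Ok) {Θ nn : ℝ → ℝ} {z1 z2 z1' z2' α α' : ℝ}
include hw

theorem wk_pos {z : ℝ} (hz : z ∈ Icc w.zl w.zr) : 0 < 1 - z ^ 2 ∧ 0 < 1 - z ^ 2 - w.Γ z ^ 2 := by
  have h0 := hw.zl_pos.trans_le hz.1
  have h1 := hz.2.trans_lt hw.zr_lt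
  have h2 : z ^ 2 ≤ w.zr ^ 2 := pow_le_pow_left₀ h0.le hz.2 2
  have h3 : w.Γ z ^ 2 ≤ (w.τ + w.τ2) ^ 2 := pow_le_pow_left₀
    (by have := hw.τ_pos; have := hw.τ2_pos; unfold WG.Γ; positivity)
    (by have := hw.τ2_pos; unfold WG.Γ; nlinarith) 2
  have h4 : 0 < 1 - z ^ 2 := by nlinarith
  exact ⟨h4, by linarith [hw.small]⟩

omit hw in
theorem wk_Γ : ContDiff ℝ ∞ w.Γ := by unfold WG.Γ; fun_prop

theorem wk_o0 {z : ℝ} (hz : z ∈ Icc w.zl w.zr) : ContDiffAt ℝ ∞ w.o0 z := by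
  have h := (wk_pos hw hz).2
  have h1 : ContDiffAt ℝ ∞ (fun z => 1 - z ^ 2 - w.Γ z ^ 2) z :=
    ContDiffAt.sub (by fun_prop) (wk_Γ.contDiffAt.pow 2)
  exact (h1.sqrt h.ne').inv (sqrt_pos.2 h).ne'

theorem wk_k0 {z : ℝ} (hz : z ∈ Icc w.zl w.zr) : ContDiffAt ℝ ∞ w.k0 z ∧ w.k0 z ≠ 0 := by
  have h := (wk_pos hw hz).2
  have h1 : ContDiffAt ℝ ∞ (fun z => 1 - z ^ 2 - w.Γ z ^ 2) z :=
    ContDiffAt.sub (by fun_prop) (wk_Γ.contDiffAt.pow 2)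
  refine ⟨(h1.rpow_const_of_ne h.ne').div_const _, ?_⟩
  have := sqrt_pos.2 hw.τ2_pos
  unfold WG.k0
  positivity

theorem wk_aff {Φ : ℕ → Pf} (h : PF w.zl w.zr α Φ) :
    PF 0 (w.τ + w.τ2) α (fun m p => Φ m ((p.1 - w.τ) / w.τ2, p.2)) ∧ w.τ + w.τ2 < 1 := by
  have h1 := hw.τ_pos
  have h2 := hw.τ2_pos
  have h3 := hw.zl_pos
  have h4 := hw.zr_lt
  exact ⟨(h.affine h2).mono (by positivity) (by nlinarith) le_rfl,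
    by nlinarith [hw.small, sq_nonneg w.zr]⟩

theorem wk_E_add (hΘ : ContDiff ℝ ∞ Θ) {Φ Ψ : ℕ → Pf} (h : PF w.zl w.zr α Φ)
    (h' : PF w.zl w.zr α' Ψ) (m : ℕ) :
    wkE w Θ m (Φ m + Ψ m) = wkE w Θ m (Φ m) + wkE w Θ m (Ψ m) := by
  have e := Wv_add m ((wk_aff hw h).1.adm hΘ (by norm_num) (wk_aff hw h).2 m)
    ((wk_aff hw h').1.adm hΘ (by norm_num) (wk_aff hw h).2 m)
  have e' : w.Wo Θ m (Φ m + Ψ m) = w.Wo Θ m (Φ m) + w.Wo Θ m (Ψ m) := e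
  simp only [wkE, evE, e', map_add]
  ring

theorem wk_E_smul (hΘ : ContDiff ℝ ∞ Θ) {Φ : ℕ → Pf} (h : PF w.zl w.zr α Φ) (r : ℝ) (m : ℕ) :
    wkE w Θ m (r • Φ m) = r • wkE w Θ m (Φ m) := by
  have e := Wv_smul m ((wk_aff hw h).1.adm hΘ (by norm_num) (wk_aff hw h).2 m) r
  have e' : w.Wo Θ m (r • Φ m) = r • w.Wo Θ m (Φ m) := e
  simp only [wkE, evE, e', map_smul, smul_add]

theorem wk_E_FO (hΘ : ContDiff ℝ ∞ Θ) {Φ : ℕ → Pf} (h : PF w.zl w.zr α Φ) :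
    FO α (fun m => wkE w Θ m (Φ m)) :=
  have k := (wk_aff hw h).1.FO hΘ (by norm_num) (wk_aff hw h).2
  k.add k.ant

theorem wk_f_add {c c' : Cf} (h : c.Ok z1 z2 α) (h' : c'.Ok z1 z2 α') (h1 : w.zl ≤ z1)
    (h2 : z2 ≤ w.zr) (m : ℕ) : (wkAdd c c').f w m = c.f w m + c'.f w m := by
  have k : ∀ {β : ℝ} {Φ : ℕ → Pf}, PF z1 z2 β Φ → Adm w.g (Φ m) := fun hΦ =>
    hΦ.adm hw.g_smooth (by linarith [hw.zl_pos]) (h2.trans_lt hw.zr_lt) m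
  simp only [Cf.f, wkAdd, Wv_add m (k h.o_ord) (k h'.o_ord), Wv_add m (k h.e_ord) (k h'.e_ord),
    map_add, odE, evE, smul_add, smul_sub]
  ring

omit hw in
theorem wk_pp {c c' : Cf} (h : c.Ok z1 z2 α) (h' : c'.Ok z1 z2 α') :
    PF z1 z2 (α + α') (c.pp c') := (h.o_ord.ds.mul h'.o_ord.ds).add (h.e_ord.ds.mul h'.e_ord.ds)

theorem wk_Ylead {c c' : Cf} (h : c.Ok z1 z2 α) (h' : c'.Ok z1 z2 α') (h1 : w.zl ≤ z1)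
    (h2 : z2 ≤ w.zr) : WkZS (α + α') (Ylead w c c') := by
  have k : ∀ z ∈ Icc z1 z2, ContDiffAt ℝ ∞ (fun z : ℝ => (1 - z ^ 2)⁻¹) z := fun z hz =>
    ContDiffAt.inv (by fun_prop) (wk_pos hw ⟨h1.trans hz.1, hz.2.trans h2⟩).1.ne'
  have k' : ∀ z ∈ Icc z1 z2,
      ContDiffAt ℝ ∞ (fun z : ℝ => deriv w.g z ^ 2 - ((1 - z ^ 2) ^ 2)⁻¹) z := fun z hz =>
    ((contDiff_infty_iff_deriv.1 hw.g_smooth).2.contDiffAt.pow 2).sub (ContDiffAt.inv (by fun_prop)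
      (pow_pos (wk_pos hw ⟨h1.trans hz.1, hz.2.trans h2⟩).1 2).ne')
  have a1 := wk_Zf (φ := fun m z => (1 - z ^ 2)⁻¹ * mean (c.pp c' m) z)
    ((wk_pp h h').mean.sl_mul k)
  have a2 := wk_Zf (φ := fun m z => (deriv w.g z ^ 2 - ((1 - z ^ 2) ^ 2)⁻¹) * mean (c.pp c' m) z)
    ((wk_pp h h').mean.sl_mul k')
  exact ((wk_XX.mul (((h.zs.mul h'.zs).add a2).fn PG_cR)).mono (by linarith)).add (a1.fn PG_cR)

theorem wk_Alead {c c' : Cf} (h : c.Ok z1 z2 α) (h' : c'.Ok z1 z2 α') (h1 : w.zl ≤ z1)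
    (h2 : z2 ≤ w.zr) : WkPM z1 z2 (α + α') (Alead w c c') := by
  have k : ∀ z ∈ Icc z1 z2, ContDiffAt ℝ ∞ w.o0 z := fun z hz =>
    wk_o0 hw ⟨h1.trans hz.1, hz.2.trans h2⟩
  have b1 : -1 < z1 := by linarith [hw.zl_pos]
  have b2 := h2.trans_lt hw.zr_lt
  exact ((wk_osc (wk_pp h h')).sl_mul fun z hz => (k z hz).pow 2).add
    ((((wk_ds h'.o_ord).az_mul h.a_ord b1 b2).add (((wk_ds h.o_ord).az_mul h'.a_ord b1 b2).mono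
      le_rfl le_rfl (by linarith))).sl_mul fun z hz => (k z hz).mul wk_Γ.contDiffAt)

theorem wk_Aw {c c' : Cf} (h : c.Ok z1 z2 α) (h' : c'.Ok z1 z2 α') (h1 : w.zl ≤ z1)
    (h2 : z2 ≤ w.zr) : WkPM z1 z2 (α + α' + 1 / 2)
      (fun m => sl (fun z => 2 * w.k0 z) * JG m (Alead w c c' m)) :=
  (wk_Alead hw h h' h1 h2).jg.sl_mul fun _ hz =>
    contDiffAt_const.mul (wk_k0 hw ⟨h1.trans hz.1, hz.2.trans h2⟩).1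

variable (hΘ : ContDiff ℝ ∞ Θ) (hn : ∀ z ∈ Icc w.zl w.zr, ContDiffAt ℝ ∞ nn z) (hB : BL w Θ nn)
  (a1 : w.zl < z1') (a2 : z1' < z1) (a3 : z2 < z2') (a4 : z2' < w.zr)
include hΘ hn hB a1 a2 a3 a4

theorem wk_exp {c c' : Cf} (h : c.Ok z1 z2 α) (h' : c'.Ok z1 z2 α') :
    ∃ (Y : ℕ → Sm) (Ψ : ℕ → Pf), WkZS (α + α' + 1) Y ∧ WkPM z1' z2' (α + α' + 1) Ψ ∧
      Ng (fun m => Bq (c.f w m) (c'.f w m) - Ylead w c c' m - Y m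
        - wkE w Θ m (sl (fun z => 2 * w.k0 z) * JG m (Alead w c c' m)) - wkE w Θ m (Ψ m)) := by
  obtain ⟨Y, Ψ, y1, y2, p1, p2, hN⟩ := hB z1 z2 z1' z2' α α' c c' a1 a2 a3 a4 h h'
  have k1 := ((wk_osc ((wk_ds h.e_ord).jg.1.mul (wk_ds h'.e_ord).jg.1)).sl_mul (φ := nn)
    fun z hz => hn z ⟨by linarith [hz.1], by linarith [hz.2]⟩).mono a2.le a3.le
      (show α + α' + 1 ≤ _ by linarith)
  have k2 := k1.add (WkPM.mono ⟨p1, p2⟩ le_rfl le_rfl (by linarith))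
  refine ⟨Y, _, ⟨y1, y2⟩, k2, wk_ng hN fun m => ?_⟩
  rw [sub_sub _ (wkE _ _ _ _), ← wk_E_add hw hΘ
    ((wk_Aw hw h h' (by linarith) (by linarith)).1.mono (by linarith) (by linarith) le_rfl)
    (k2.1.mono a1.le a4.le le_rfl), add_assoc]
  rfl

/-- the effect of a correction -/
theorem wk_upd {c0 c1 δ : Cf} {β : ℝ} (h0 : c0.Ok z1 z2 0) (h1 : c1.Ok z1 z2 (1 / 2))
    (hδ : δ.Ok z1 z2 β) (hβ : 1 / 2 ≤ β) :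
    ∃ (Y : ℕ → Sm) (Ψ : ℕ → Pf), WkZS (β + 1 / 2) Y ∧ WkPM z1' z2' (β + 1) Ψ ∧
      Ng (fun m => Bq (c0.f w m + (wkAdd c1 δ).f w m) (c0.f w m + (wkAdd c1 δ).f w m)
        - Bq (c0.f w m + c1.f w m) (c0.f w m + c1.f w m) - (2 : ℝ) • Ylead w c0 δ m - Y m
        - (2 : ℝ) • wkE w Θ m (sl (fun z => 2 * w.k0 z) * JG m (Alead w c0 δ m))
        - wkE w Θ m (Ψ m)) := by
  have b1 : w.zl ≤ z1 := by linarith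
  have b2 : z2 ≤ w.zr := by linarith
  have h2 := h1.wadd (hδ.wmono le_rfl le_rfl hβ)
  have h3 := h1.wadd h2
  obtain ⟨Y, Ψ, y1, p1, n1⟩ := wk_exp hw hΘ hn hB a1 a2 a3 a4 h0 hδ
  obtain ⟨Y', Ψ', y2, p2, n2⟩ := wk_exp hw hΘ hn hB a1 a2 a3 a4 h3 hδ
  have p3 := (wk_Aw hw h3 hδ b1 b2).mono a2.le a3.le (show β + 1 ≤ _ by linarith)
  have p4 := (p1.smul 2).mono le_rfl le_rfl (show β + 1 ≤ _ by linarith)
  have p5 := p3.add (p2.mono le_rfl le_rfl (by linarith))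
  refine ⟨_, _, ((y1.smul 2).mono (by linarith)).add (((wk_Ylead hw h3 hδ b1 b2).mono
    (by linarith)).add (y2.mono (by linarith))), p4.add p5,
    wk_ng (wk_ng_add (fun N => (n1 N).smul 2) n2) fun m => ?_⟩
  rw [wk_E_add hw hΘ (p4.1.mono a1.le a4.le le_rfl) (p5.1.mono a1.le a4.le le_rfl),
    wk_E_add hw hΘ (p3.1.mono a1.le a4.le le_rfl) (p2.1.mono a1.le a4.le le_rfl),
    wk_E_smul hw hΘ (p1.1.mono a1.le a4.le le_rfl), wk_f_add hw h1 h2 b1 b2,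
    wk_f_add hw h1 hδ b1 b2]
  simp only [map_add, LinearMap.add_apply, Bq_comm (δ.f w m) (c0.f w m),
    Bq_comm (δ.f w m) (c1.f w m), two_smul]
  ring
end

end Pool.Agent.Lib.MP_2fa2a2_gt.PI
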