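import Pool.Agent.Lib.MP_2fa2a2_gt.PI.SWkb
import Pool.Agent.Lib.MP_2fa2a2_gt.PI.WkbX

namespace Pool.Agent.Lib.MP_2fa2a2_gt.PI

open Real Filter Set
open scoped ContDiff

/-- the leading configuration -/
noncomputable def wk0 (d : WD) (Uh Qh : Pf) : Cf :=
  ⟨fun _ => d.a0, fun _ => sl d.κ * sl d.κ * sinv (sl (fun z => (d.om z)⁻¹) * Uh),
    fun _ => sl d.κ * sinv (sl (fun z => (d.om z)⁻¹) * Qh)⟩

/-- a correction -/
noncomputable def wkD (d : WD) (a : ℕ → Sm) (γo γe : ℕ → Pf) : Cf :=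
  ⟨a, fun m => sinv (sl (fun z => (d.om z)⁻¹) * γo m),
    fun m => sinv (sl (fun z => (d.om z)⁻¹) * γe m)⟩

/-- state of the iteration -/
def WkSt (d : WD) (Uh Qh : Pf) (Θ : ℝ → ℝ) (β z1 z2 : ℝ) : Prop :=
  ∃ (c1 : Cf) (o1 e1 o2 e2 : ℕ → Pf) (Cm : ℕ → ℝ) (Y : ℕ → Sm) (Ψ : ℕ → Pf),
    c1.Ok z1 z2 (1 / 2) ∧ SO 1 c1.a ∧ PF z1 z2 (1 / 2) o1 ∧ PF z1 z2 (1 / 2) e1 ∧
    PF z1 z2 1 o2 ∧ PF z1 z2 1 e2 ∧ (∀ m, c1.o m = sl d.κ * o1 m + o2 m) ∧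
    (∀ m, c1.e m = sl d.κ * e1 m + e2 m) ∧ WkZS β Y ∧ WkPM z1 z2 (β + 1 / 2) Ψ ∧
    Ng (fun m => Bq ((wk0 d Uh Qh).f d.toWG m + c1.f d.toWG m)
      ((wk0 d Uh Qh).f d.toWG m + c1.f d.toWG m) - algebraMap ℝ Sm (Cm m) - Y m
      - wkE d.toWG Θ m (Ψ m))

/-- solvability of the profile equation -/
def WkSol (d : WD) : Prop := ∀ (z1 z2 β : ℝ) (r : ℕ → Pf), PF z1 z2 β r → (∀ m, Mz (r m)) →
  ∃ γo γe : ℕ → Pf, PF z1 z2 β γo ∧ PF z1 z2 β γe ∧ (∀ m, Mz (γo m)) ∧ (∀ m, Mz (γe m)) ∧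
    ∀ m, uu d.κ d.p * γo m + qe d.κ d.p * γe m = r m

theorem wk_Zf0 {φ : ℝ → ℝ} (h : ∀ z, φ z = 0) : evE (Zf φ) = 0 := by
  have e : Zf φ = 0 := by
    rw [show φ = fun _ => 0 from funext h]
    ext x
    rw [Zf_apply contDiff_const]; rfl
  rw [e, evE, map_zero, add_zero]

theorem wk_osc_sl (φ : ℝ → ℝ) (Φ : Pf) : osc (sl φ * Φ) = sl φ * osc Φ := by
  funext x
  simp only [osc, mean_sl_mul, Pi.mul_apply, sl, mul_sub]

theorem wk_cut {z1 b1 b2 z2 : ℝ} (h1 : z1 < b1) (h2 : b2 < z2) : ∃ ζ : ℝ → ℝ, ContDiff ℝ ∞ ζ ∧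
    (∀ z ∈ Icc b1 b2, ζ z = 1) ∧ ∀ z, z ∉ Icc z1 z2 → ζ z = 0 := by
  refine ⟨fun z => smoothTransition ((z - z1) / (b1 - z1)) * smoothTransition ((z2 - z) / (z2 - b2)),
    (smoothTransition.contDiff.comp (by fun_prop)).mul
      (smoothTransition.contDiff.comp (by fun_prop)), fun z hz => ?_, fun z hz => ?_⟩
  · show smoothTransition _ * smoothTransition _ = 1
    rw [smoothTransition.one_of_one_le ((one_le_div (by linarith)).2 (by linarith [hz.1])),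
      smoothTransition.one_of_one_le ((one_le_div (by linarith)).2 (by linarith [hz.2])), mul_one]
  · show smoothTransition _ * smoothTransition _ = 0
    rw [mem_Icc, not_and_or, not_le, not_le] at hz
    rcases hz with hz | hz
    · rw [smoothTransition.zero_of_nonpos
        (div_nonpos_of_nonpos_of_nonneg (by linarith) (by linarith)), zero_mul]
    · rw [smoothTransition.zero_of_nonpos (x := (z2 - z) / (z2 - b2))
        (div_nonpos_of_nonpos_of_nonneg (by linarith) (by linarith)), mul_zero]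

theorem wk_kill {w : WG} (hw : w.Ok) {z1 z2 β : ℝ} (h1 : w.zl ≤ z1) (h2 : z2 ≤ w.zr)
    {Ψ : ℕ → Pf} (h : WkPM z1 z2 (β + 1 / 2) Ψ) :
    WkPM z1 z2 β (fun m => (-1 : ℝ) • Jsh m (sl (fun z => (4 * w.k0 z)⁻¹) * Ψ m)) ∧
    ∀ m (φ : ℝ → ℝ), sl (fun z => 2 * w.k0 z) *
      JG m (sl φ * (-1 : ℝ) • Jsh m (sl (fun z => (4 * w.k0 z)⁻¹) * Ψ m)) =
        (-2⁻¹ : ℝ) • (sl φ * Ψ m) := by
  have k := h.sl_mul (φ := fun z => (4 * w.k0 z)⁻¹) fun z hz =>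
    have k0 := wk_k0 hw ⟨h1.trans hz.1, hz.2.trans h2⟩
    (contDiffAt_const.mul k0.1).inv (mul_ne_zero (by norm_num) k0.2)
  refine ⟨(k.jsh.smul _).mono le_rfl le_rfl (by linarith), fun m φ => ?_⟩
  rw [JG_sl_mul, JG_smul, JG_Jsh m (k.1.1 m).1]
  funext x
  simp only [Pi.mul_apply, Pi.smul_apply, sl, smul_eq_mul]
  by_cases hz : x.1 ∈ Icc z1 z2
  · have k0 := (wk_k0 hw ⟨h1.trans hz.1, hz.2.trans h2⟩).2
    field_simp
    ring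
  · rw [show Ψ m x = 0 from (h.1.1 m).2 x.1 x.2 hz]
    ring

section
variable {d : WD} {k : ℕ} {C0 : ℝ} {Uh Qh : Pf} (hd : d.Ok k C0) (hC : 1 ≤ C0)
  (hL : Lead d Uh Qh)
include hd hC

theorem wk_om (z : ℝ) : d.om z ≠ 0 := (lt_of_lt_of_le (by positivity) (hd.om_ge z)).ne'

theorem wk_omi : ContDiff ℝ ∞ fun z => (d.om z)⁻¹ := hd.om_smooth.inv (wk_om hd hC)

theorem wk_D_ok {z1 z2 β : ℝ} {a : ℕ → Sm} {γo γe : ℕ → Pf} (ha : WkZS β a)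
    (ho : WkPM z1 z2 β γo) (he : WkPM z1 z2 β γe) : (wkD d a γo γe).Ok z1 z2 β :=
  wk_ok ha (ho.sl_mul fun _ _ => (wk_omi hd hC).contDiffAt).sinv
    (he.sl_mul fun _ _ => (wk_omi hd hC).contDiffAt).sinv

include hL

theorem wk_0_ok : (wk0 d Uh Qh).Ok d.b1 d.b2 0 := by
  have p0 := Per_sl (wk_omi hd hC)
  have pk := Per_sl hd.κ_smooth
  refine wk_ok (wk_const hd.a0_zon hd.a0_even) ⟨PF.const ((pk.mul pk).mul
    ((p0.mul hL.perU).sinv (wk_mz hL.mzU _))) fun z s hz => ?_, fun _ =>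
      wk_mz (Mz_sinv (p0.mul hL.perU)) (d.κ * d.κ)⟩ ⟨PF.const (pk.mul
    ((p0.mul hL.perQ).sinv (wk_mz hL.mzQ _))) fun z s hz => ?_, fun _ =>
      wk_mz (Mz_sinv (p0.mul hL.perQ)) _⟩ <;>
  simp [sl, hd.κ_supp z hz]

theorem wk_0_ds (m : ℕ) :
    ds ((wk0 d Uh Qh).o m) = sl d.κ * sl d.κ * (sl (fun z => (d.om z)⁻¹) * Uh) ∧
    ds ((wk0 d Uh Qh).e m) = sl d.κ * (sl (fun z => (d.om z)⁻¹) * Qh) := by
  have p0 := Per_sl (wk_omi hd hC)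
  constructor
  · exact (ds_sl_mul ((p0.mul hL.perU).sinv (wk_mz hL.mzU _))
      (hd.κ_smooth.mul hd.κ_smooth)).trans (by rw [ds_sinv (p0.mul hL.perU)]; rfl)
  · exact (ds_sl_mul ((p0.mul hL.perQ).sinv (wk_mz hL.mzQ _)) hd.κ_smooth).trans
      (by rw [ds_sinv (p0.mul hL.perQ)])

omit hC in
theorem wk_Ut : WkPM d.b1 d.b2 0 (fun _ => sl d.Γ * (sl d.κ * sl d.κ * Uh)) := by
  have pk := Per_sl hd.κ_smooth
  exact ⟨PF.const ((Per_sl wk_Γ).mul ((pk.mul pk).mul hL.perU))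
    fun z s hz => by simp [sl, hd.κ_supp z hz], fun _ => wk_mz (wk_mz hL.mzU (d.κ * d.κ)) _⟩

theorem wk_lead0 (hu : uu d.κ d.p * uu d.κ d.p + qe d.κ d.p * qe d.κ d.p =
    sl (fun z => d.p z ^ 2 + d.κ z ^ 2)) (m : ℕ) :
    Ylead d.toWG (wk0 d Uh Qh) (wk0 d Uh Qh) m = algebraMap ℝ Sm d.C ∧
    Alead d.toWG (wk0 d Uh Qh) (wk0 d Uh Qh) m = 0 := by
  have pk := Per_sl hd.κ_smooth
  have e : (wk0 d Uh Qh).pp (wk0 d Uh Qh) m = sl (fun z => d.κ z ^ 2 / d.om z ^ 2)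
      + sl (fun z => -2 * d.p z * d.κ z ^ 2 * (d.om z)⁻¹ ^ 2) * Uh := by
    rw [Cf.pp, (wk_0_ds hd hC hL m).1, (wk_0_ds hd hC hL m).2]
    funext x
    have h := congrFun hu x
    rw [hL.hU, hL.hQ] at h
    simp only [Pi.mul_apply, Pi.add_apply, sl, div_eq_mul_inv, ← inv_pow] at h ⊢
    linear_combination (d.om x.1)⁻¹ ^ 2 * h
  have em : ∀ z, mean ((wk0 d Uh Qh).pp (wk0 d Uh Qh) m) z = d.κ z ^ 2 / d.om z ^ 2 := fun z => by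
    have q1 : ContDiff ℝ ∞ fun z => d.κ z ^ 2 / d.om z ^ 2 :=
      (hd.κ_smooth.pow 2).div (hd.om_smooth.pow 2) fun z => pow_ne_zero 2 (wk_om hd hC z)
    have q2 : ContDiff ℝ ∞ fun z => -2 * d.p z * d.κ z ^ 2 * (d.om z)⁻¹ ^ 2 :=
      ((contDiff_const.mul hd.p_smooth).mul (hd.κ_smooth.pow 2)).mul ((wk_omi hd hC).pow 2)
    rw [e, mean_add (Per_sl q1) ((Per_sl q2).mul hL.perU), mean_sl, mean_sl_mul,
      hL.mzU z, mul_zero, add_zero]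
  constructor
  · simp only [Ylead, em]
    exact hd.eqn
  · funext x
    simp only [Alead, osc, em, (wk_0_ds hd hC hL m).1, Pi.mul_apply, Pi.add_apply, Pi.zero_apply]
    rw [e]
    simp only [wk0, sl, Pi.mul_apply, Pi.add_apply]
    by_cases hz : x.1 ∈ Icc d.b1 d.b2
    · have hz' : x.1 ∈ Icc d.zl d.zr := ⟨by
        have := lt_of_lt_of_le (by positivity) hd.ρ_ge
        linarith [hz.1, hd.o1, hd.o2], hz.2.trans hd.o4.le⟩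
      have := wk_om hd hC x.1
      rw [← hd.om_eq _ hz', hd.p_eq _ hz']
      field_simp
      ring
    · simp [hd.κ_supp _ hz]

theorem wk_lead1 {z1 z2 β : ℝ} (a : ℕ → Sm) {γo γe r : ℕ → Pf} (h1 : d.zl ≤ z1) (h2 : z2 ≤ d.zr)
    (h3 : d.zl ≤ d.b1) (ho : WkPM z1 z2 β γo) (he : WkPM z1 z2 β γe) (hr : WkPM z1 z2 β r)
    (hs : ∀ m, uu d.κ d.p * γo m + qe d.κ d.p * γe m = r m) (m : ℕ) :
    Ylead d.toWG (wk0 d Uh Qh) (wkD d a γo γe) m = X 2 * X 2 * R (d.a0 * a m) ∧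
    Alead d.toWG (wk0 d Uh Qh) (wkD d a γo γe) m =
      r m + sl (az (a m)) * (sl d.Γ * (sl d.κ * sl d.κ * Uh)) := by
  have p0 := Per_sl (wk_omi hd hC)
  have e1 : ds ((wkD d a γo γe).o m) = sl (fun z => (d.om z)⁻¹) * γo m :=
    ds_sinv (p0.mul (ho.1.1 m).1)
  have e2 : ds ((wkD d a γo γe).e m) = sl (fun z => (d.om z)⁻¹) * γe m :=
    ds_sinv (p0.mul (he.1.1 m).1)
  have e : (wk0 d Uh Qh).pp (wkD d a γo γe) m =
      sl (fun z => (d.om z)⁻¹ ^ 2) * (r m - sl d.p * γo m) := by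
    rw [Cf.pp, (wk_0_ds hd hC hL m).1, (wk_0_ds hd hC hL m).2, e1, e2, ← hs m, hL.hU, hL.hQ]
    funext x
    simp only [Pi.mul_apply, Pi.add_apply, Pi.sub_apply, sl]
    ring
  have em : Mz ((wk0 d Uh Qh).pp (wkD d a γo γe) m) :=
    e ▸ wk_mz ((hr.sub (ho.sl_mul fun _ _ => hd.p_smooth.contDiffAt)).2 m) _
  constructor
  · rw [Ylead, wk_Zf0 fun z => by rw [em z, mul_zero], wk_Zf0 fun z => by rw [em z, mul_zero],
      map_zero, add_zero, add_zero]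
    rfl
  · rw [Alead, osc_of_Mz em, e, e1, (wk_0_ds hd hC hL m).1]
    funext x
    simp only [wk0, wkD, sl, Pi.mul_apply, Pi.add_apply, Pi.sub_apply]
    by_cases hz : x.1 ∈ Icc d.zl d.zr
    · have := wk_om hd hC x.1
      rw [← hd.om_eq _ hz, hd.p_eq _ hz]
      field_simp
      ring
    · have hz' : x.1 ∉ Icc z1 z2 := fun h => hz ⟨h1.trans h.1, h.2.trans h2⟩
      rw [show γo m x = 0 from (ho.1.1 m).2 x.1 x.2 hz', show r m x = 0 from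
        (hr.1.1 m).2 x.1 x.2 hz', hd.κ_supp _ fun h => hz ⟨h3.trans h.1, h.2.trans hd.o4.le⟩]
      ring

variable {Θ nn : ℝ → ℝ} (hΘ : ContDiff ℝ ∞ Θ) (hn : ∀ z ∈ Icc d.zl d.zr, ContDiffAt ℝ ∞ nn z)
  (hB : BL d.toWG Θ nn) (hS : WkSol d) {z1 z2 z1' z2' : ℝ}
  (a1 : d.zl < z1') (a2 : z1' < z1) (a3 : z2 < z2') (a4 : z2' < d.zr) (a5 : z1 < d.b1)
  (a6 : d.b2 < z2)
include hΘ hn hB hS a1 a2 a3 a4 a5 a6

theorem wk_step {β : ℝ} (hβ : 1 ≤ β) (h : WkSt d Uh Qh Θ β z1 z2) :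
    WkSt d Uh Qh Θ (β + 1 / 2) z1' z2' := by
  obtain ⟨c1, o1, e1, o2, e2, Cm, Y, Ψ, k1, k2, k3, k4, k5, k6, k7, k8, k9, k10, hN⟩ := h
  have hw := hd.geo
  have b1 : d.zl ≤ z1 := by linarith
  have b2 : z2 ≤ d.zr := by linarith
  obtain ⟨b, dC, hb, hb'⟩ := wk_div k9
  have hi : ∀ x, ContDiffAt ℝ ∞ (fun t : ℝ => t⁻¹) (d.a0 x) := fun x =>
    contDiffAt_inv ℝ (lt_of_lt_of_le (by positivity) (hd.a0_ge x)).ne'
  have hi1 : d.a0 * cp (fun t => t⁻¹) d.a0 = 1 := by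
    ext x
    rw [Sm.mul_apply, cp_apply hi]
    exact mul_inv_cancel₀ (lt_of_lt_of_le (by positivity) (hd.a0_ge x)).ne'
  have hi2 : cp (fun t => t⁻¹) d.a0 ∈ Ev := by
    rw [mem_Ev]
    ext x
    rw [ant_apply, cp_apply hi, cp_apply hi, ← ant_apply, mem_Ev.1 hd.a0_even]
  have ha := (((wk_const (hd.a0_zon.cp _) hi2).mul (hb.fn PG_cRi)).smul (-2⁻¹)).mono
    (show β ≤ _ by linarith)
  obtain ⟨r1, r2⟩ := wk_kill hw b1 b2 k10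
  have r3 := (((wk_Ut hd hL).mono a5.le a6.le le_rfl).az_mul ha.1 (by linarith [hw.zl_pos])
    (b2.trans_lt hw.zr_lt)).mono le_rfl le_rfl (show β ≤ _ by linarith)
  obtain ⟨γo, γe, g1, g2, g3, g4, g5⟩ := hS z1 z2 β _ (r1.sub r3).1 (r1.sub r3).2
  have hδ := wk_D_ok hd hC ha ⟨g1, g3⟩ ⟨g2, g4⟩
  have hl := wk_lead1 hd hC hL
    (fun m => (-2⁻¹ : ℝ) • (cp (fun t => t⁻¹) d.a0 * fn (fun l => (cR l)⁻¹) (b m)))
    b1 b2 (by linarith) ⟨g1, g3⟩ ⟨g2, g4⟩ (r1.sub r3) g5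
  obtain ⟨Y', Ψ', y1, p1, n1⟩ := wk_upd hw hΘ hn hB a1 a2 a3 a4
    ((wk_0_ok hd hC hL).wmono a5.le a6.le le_rfl) k1 hδ (by linarith)
  refine ⟨_, o1, e1, _, _, fun m => Cm m + dC m, Y', Ψ',
    (k1.wadd (hδ.wmono le_rfl le_rfl (by linarith))).wmono a2.le a3.le le_rfl,
    k2.add (ha.1.mono hβ), k3.mono a2.le a3.le le_rfl, k4.mono a2.le a3.le le_rfl,
    (k5.add (hδ.o_ord.mono le_rfl le_rfl hβ)).mono a2.le a3.le le_rfl,
    (k6.add (hδ.e_ord.mono le_rfl le_rfl hβ)).mono a2.le a3.le le_rfl,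
    fun m => by rw [← add_assoc, ← k7]; rfl, fun m => by rw [← add_assoc, ← k8]; rfl, y1,
    p1.mono le_rfl le_rfl (by linarith), wk_ng (wk_ng_add hN n1) fun m => ?_⟩
  have e1 : (2 : ℝ) • (X 2 * X 2 * R (d.a0 * (-2⁻¹ : ℝ) • (cp (fun t => t⁻¹) d.a0 *
      fn (fun l => (cR l)⁻¹) (b m)))) = -(Y m - algebraMap ℝ Sm (dC m)) := by
    rw [mul_smul_comm, ← mul_assoc d.a0, hi1, one_mul, map_smul, show fn _ (b m) = Ri (b m) from rfl,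
      R_Ri, evp_of_Ev (hb.2 m).2, mul_smul_comm, smul_smul, hb']
    norm_num
  have e2 := r2 m fun _ => 1
  rw [show sl (fun _ => 1) = 1 from rfl, one_mul, one_mul] at e2
  rw [(hl m).1, (hl m).2, e1, sub_add_cancel, e2, wk_E_smul hw hΘ (k10.1.mono b1 b2 le_rfl),
    smul_smul, map_add (algebraMap ℝ Sm), show (2 * -2⁻¹ : ℝ) = -1 by norm_num, neg_one_smul]
  ring

theorem wk_first (hu : uu d.κ d.p * uu d.κ d.p + qe d.κ d.p * qe d.κ d.p =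
    sl (fun z => d.p z ^ 2 + d.κ z ^ 2)) : WkSt d Uh Qh Θ 1 z1' z2' := by
  have hw := hd.geo
  have b1 : d.zl ≤ z1 := by linarith
  have b2 : z2 ≤ d.zr := by linarith
  have h0 := wk_0_ok hd hC hL
  have hk : ∀ z ∈ Icc z1 z2, ContDiffAt ℝ ∞ d.κ z := fun _ _ => hd.κ_smooth.contDiffAt
  obtain ⟨Y0, Ψ0, y0, y0', p0, p0', n0⟩ := hB d.b1 d.b2 z1 z2 0 0 _ _ (by linarith) a5 a6
    (by linarith) h0 h0
  obtain ⟨ζ, c1, c2, c3⟩ := wk_cut a5 a6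
  have z0 : WkPM z1 z2 0 (fun _ => sl ζ * (sl (fun z => (d.om z)⁻¹) * Qh)) :=
    ⟨PF.const ((Per_sl c1).mul ((Per_sl (wk_omi hd hC)).mul hL.perQ))
      fun z s hz => by simp [sl, c3 z hz], fun _ => wk_mz (wk_mz hL.mzQ _) _⟩
  have q0 := ((wk_osc (z0.jg.1.mul z0.jg.1)).sl_mul (φ := nn)
    fun z hz => hn z ⟨b1.trans hz.1, hz.2.trans b2⟩).mono le_rfl le_rfl
      (show 1 / 2 + 1 / 2 ≤ _ by linarith)
  obtain ⟨r1, r2⟩ := wk_kill hw b1 b2 q0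
  obtain ⟨γo, γe, g1, g2, g3, g4, g5⟩ := hS z1 z2 _ _ r1.1 r1.2
  have hkk : ∀ z ∈ Icc z1 z2, ContDiffAt ℝ ∞ (d.κ * d.κ) z := fun z hz => (hk z hz).mul (hk z hz)
  have g6 := WkPM.sl_mul ⟨g1, g3⟩ hkk
  have g7 := WkPM.sl_mul ⟨g2, g4⟩ hkk
  have hδ := wk_D_ok hd hC (wk_zs0 _) g6 g7
  have hl := wk_lead1 hd hC hL (fun _ => 0) b1 b2 (by linarith) g6 g7 (r1.sl_mul hkk)
    fun m => by rw [← g5 m]; ring
  have hδ' := wk_D_ok hd hC (wk_zs0 _) ⟨g1, g3⟩ ⟨g2, g4⟩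
  have hz : (⟨fun _ => 0, fun _ => 0, fun _ => 0⟩ : Cf).Ok z1 z2 (1 / 2) :=
    wk_ok (wk_zs0 _) (wk_pm0 _ _ _) (wk_pm0 _ _ _)
  obtain ⟨Y', Ψ', y1, p1, n1⟩ := wk_upd hw hΘ hn hB a1 a2 a3 a4
    (h0.wmono a5.le a6.le le_rfl) hz hδ le_rfl
  have p2 : WkPM z1' z2' (1 + 1 / 2) Ψ0 := WkPM.mono ⟨p0, p0'⟩ a2.le a3.le (by linarith)
  have p3 := p1.mono le_rfl le_rfl (show 1 + 1 / 2 ≤ _ by linarith)
  have ek : ∀ Φ : Pf, 0 + sinv (sl (fun z => (d.om z)⁻¹) * (sl (d.κ * d.κ) * Φ)) =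
      sl d.κ * (sl d.κ * sinv (sl (fun z => (d.om z)⁻¹) * Φ)) + 0 := fun Φ => by
    rw [mul_left_comm, sinv_sl_mul, zero_add, add_zero, ← mul_assoc]
    rfl
  refine ⟨_, _, _, fun _ => 0, fun _ => 0, fun _ => d.C, _, _,
    (hz.wadd hδ).wmono a2.le a3.le le_rfl, (wk_zs0 1).1.add (wk_zs0 1).1,
    (hδ'.o_ord.sl_mul hk).mono a2.le a3.le le_rfl, (hδ'.e_ord.sl_mul hk).mono a2.le a3.le le_rfl,
    PF.zero _ _ _, PF.zero _ _ _, fun m => ek _, fun m => ek _,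
    (WkZS.mono ⟨y0, y0'⟩ (by linarith)).add (y1.mono (by linarith)), p2.add p3,
    wk_ng (wk_ng_add n0 n1) fun m => ?_⟩
  have e0 : (⟨fun _ => 0, fun _ => 0, fun _ => 0⟩ : Cf).f d.toWG m = 0 := by
    simp [Cf.f, Wv_zero, odE, evE]
  have e1 : ds ((wk0 d Uh Qh).e m) = sl d.κ * (sl ζ * (sl (fun z => (d.om z)⁻¹) * Qh)) := by
    rw [(wk_0_ds hd hC hL m).2]
    funext x
    simp only [Pi.mul_apply, sl]
    by_cases hx : x.1 ∈ Icc d.b1 d.b2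
    · rw [c2 _ hx, one_mul]
    · rw [hd.κ_supp _ hx, zero_mul, zero_mul]
  have e2 : JG m 0 = 0 := by
    funext x
    simp [JG]
  have e3 : sl (az 0) = 0 := rfl
  have q1 := q0.sl_mul hkk
  have e4 := wk_E_add hw hΘ (q1.1.mono b1 b2 le_rfl) (p0.mono b1 b2 le_rfl) m
  rw [(wk_lead0 hd hC hL hu m).1, (wk_lead0 hd hC hL hu m).2, e2, mul_zero, zero_add, e1,
    JG_sl_mul, mul_mul_mul_comm, show sl d.κ * sl d.κ = sl (d.κ * d.κ) from rfl, wk_osc_sl,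
    mul_left_comm, ← wkE, e4, (hl m).1, (hl m).2, e3, zero_mul, add_zero, r2,
    wk_E_smul hw hΘ (q1.1.mono b1 b2 le_rfl), smul_smul, show (2 * -2⁻¹ : ℝ) = -1 by norm_num,
    neg_one_smul, e0, add_zero, mul_zero, map_zero, mul_zero, smul_zero,
    wk_E_add hw hΘ (p2.1.mono a1.le a4.le le_rfl) (p3.1.mono a1.le a4.le le_rfl)]
  ring
end

theorem wkb (hS : SPStmt) (hB : BLStmt) (hP : ProfStmt) : WkbStmt := by
  intro d k C0 Uh Qh z1 z2 s N hd hC hL a1 a2 a3 a4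
  have hw := hd.geo
  obtain ⟨Θ, hΘ, hsp⟩ := hS _ hw
  obtain ⟨nn, hn, hbl⟩ := hB _ Θ hw hΘ hsp
  obtain ⟨Cs, -, hp⟩ := hP
  obtain ⟨-, -, -, -, -, -, -, -, hu, -, -, hsol⟩ :=
    hp d.κ d.p hd.κ_smooth hd.p_smooth hd.κ_nonneg hd.p_pos
  have key : ∀ n : ℕ, ∀ z1 z2, d.zl < z1 → z1 < d.b1 → d.b2 < z2 → z2 < d.zr →
      WkSt d Uh Qh Θ (1 + n / 2) z1 z2 := fun n => by
    induction n with
    | zero =>
      intro z1 z2 b1 b2 b3 b4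
      simpa using wk_first hd hC hL hΘ hn hbl hsol (z1 := (z1 + d.b1) / 2) (z2 := (d.b2 + z2) / 2)
        b1 (by linarith) (by linarith) b4 (by linarith) (by linarith) hu
    | succ n ih =>
      intro z1 z2 b1 b2 b3 b4
      have := wk_step hd hC hL hΘ hn hbl hsol (z1 := (z1 + d.b1) / 2) (z2 := (d.b2 + z2) / 2)
        b1 (by linarith) (by linarith) b4 (by linarith) (by linarith)
        (le_add_of_nonneg_right (by positivity))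
        (ih _ _ (by linarith) (by linarith) (by linarith) (by linarith))
      rwa [show (1 + (n : ℝ) / 2 + 1 / 2) = 1 + ((n + 1 : ℕ) : ℝ) / 2 by push_cast; ring] at this
  obtain ⟨c1, o1, e1, o2, e2, Cm, Y, Ψ, k1, k2, k3, k4, k5, k6, k7, k8, k9, k10, hN⟩ :=
    key (2 * (s + N)) z1 z2 a1 a2 a3 a4
  have h0 := (wk_0_ok hd hC hL).wmono a2.le a3.le le_rfl
  have b : ((s + N : ℕ) : ℝ) ≤ 1 + ((2 * (s + N) : ℕ) : ℝ) / 2 := by push_cast; linarith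
  obtain ⟨C, -, hC'⟩ := (((hN ((s + N : ℕ) : ℝ)).FO.add (k9.1.mono b).FO).add
    ((wk_E_FO hw hΘ (k10.1.mono a1.le a4.le le_rfl)).mono (by linarith))).nrm s
  refine ⟨wkAdd (wk0 d Uh Qh) c1, o1, e1, o2, e2, Cm, C,
    ⟨h0.wadd (k1.wmono le_rfl le_rfl (by norm_num)), k2.congr (Eventually.of_forall fun m =>
      (add_sub_cancel_left _ _).symm), k3, k4, k5, k6, fun m => by rw [add_assoc, ← k7]; rfl,
      fun m => by rw [add_assoc, ← k8]; rfl⟩, hC'.mono fun m hm => ?_⟩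
  rw [wk_f_add hw h0 k1 a1.le a4.le]
  rw [show (s : ℝ) - ((s + N : ℕ) : ℝ) = -(N : ℝ) by push_cast; ring,
    rpow_neg (Nat.cast_nonneg m), rpow_natCast, ← div_eq_mul_inv] at hm
  convert hm using 2
  ring

end Pool.Agent.Lib.MP_2fa2a2_gt.PI
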